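import Pool.Agent.Lib.MP_b53bfe_ag.Q.SpecP

/-!
# Seven algebraically independent complex numbers
-/

set_option autoImplicit false

noncomputable section

namespace Pool.Agent.QV

open Matrix
open MvPolynomial
open Pool.Agent.FY (Res)

theorem tAI : S_AI := by
  obtain ⟨ι, v, hv⟩ := exists_isTranscendenceBasis' ℚ (A := ℂ)
  have hinf : Infinite ι := by
    by_contra hfin
    rw [not_infinite_iff_finite] at hfin
    have hc := IsAlgClosed.cardinal_le_max_transcendence_basis v hv
    have h3 : Cardinal.mk ℂ ≤ Cardinal.aleph0 := by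
      have h4 : Cardinal.mk ι ≤ Cardinal.aleph0 := (Cardinal.lt_aleph0_of_finite ι).le
      have h5 : Cardinal.mk ℚ ≤ Cardinal.aleph0 := Cardinal.mk_le_aleph0
      simpa [h4, h5] using hc
    rw [Cardinal.mk_complex] at h3
    exact absurd h3 (not_le.mpr Cardinal.aleph0_lt_continuum)
  have e : Fin 7 ↪ ι := (Fin.valEmbedding (n := 7)).trans (Infinite.natEmbedding ι)
  exact ⟨v ∘ e, hv.1.comp e e.injective⟩

end Pool.Agent.QV
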