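import Pool.Agent.Lib.MP_b53bfe_ag.Q.Defs

/-!
# Basic lemmas on `AF`, `AFj`, `KW`, `PD`
-/

set_option autoImplicit false

noncomputable section

namespace Pool.Agent.QV

section KW

variable {R : Type} [CommRing R] {W : R} {M N : Type} [AddCommGroup M] [Module R M] [AddCommGroup N] [Module R N]

theorem KW.of_inj (h : KW W N) (i : M →ₗ[R] N) (hi : Function.Injective i) : KW W M := fun m =>
  hi (by rw [map_smul, h, map_zero])

theorem KW.of_surj (h : KW W M) (p : M →ₗ[R] N) (hp : Function.Surjective p) : KW W N := fun m => by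
  obtain ⟨x, rfl⟩ := hp m
  rw [← map_smul, h, map_zero]

theorem KW.quot (I : Ideal R) (hI : W ∈ I) : KW W (R ⧸ I) := fun m => by
  obtain ⟨x, rfl⟩ := Ideal.Quotient.mk_surjective m
  rw [← Ideal.Quotient.mk_eq_mk, ← Submodule.Quotient.mk_smul, Submodule.Quotient.mk_eq_zero, smul_eq_mul]
  exact Ideal.mul_mem_right _ _ hI

theorem KW.pi (h : KW W M) (n : Type) : KW W (n → M) := fun m => funext fun i => h (m i)

theorem KW.qt : KW W (Qt W M) := fun m => by
  obtain ⟨x, rfl⟩ := Submodule.Quotient.mk_surjective _ m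
  rw [← Submodule.Quotient.mk_smul, Submodule.Quotient.mk_eq_zero]
  exact Submodule.smul_mem_smul (Ideal.mem_span_singleton_self W) trivial

end KW

section AF

variable {R : Type} [CommRing R] {W : R} {V : Type} [AddCommGroup V] (χ : AF R W V)

theorem AF.punit : χ.f PUnit = 0 := by
  have h := χ.add PUnit PUnit PUnit (LinearMap.id) (LinearMap.id) inferInstance (fun m => rfl)
    (fun a b _ => rfl) (fun a => ⟨a, rfl⟩) (fun a => ⟨fun _ => ⟨a, rfl⟩, fun _ => rfl⟩)
  simpa using h

theorem AF.iso {M N : Type} [AddCommGroup M] [Module R M] [AddCommGroup N] [Module R N] (e : M ≃ₗ[R] N)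
    (hM : Module.Finite R M) (hk : KW W M) : χ.f M = χ.f N := by
  have h := χ.add M N PUnit e.toLinearMap 0 (Module.Finite.equiv e)
    (hk.of_surj e.toLinearMap e.surjective)
    e.injective (fun a => ⟨0, rfl⟩) (fun a => ⟨fun _ => ⟨e.symm a, by simp⟩, fun _ => rfl⟩)
  rw [h, χ.punit, add_zero]

theorem AF.subsing {M : Type} [AddCommGroup M] [Module R M] (h : Subsingleton M) : χ.f M = 0 := by
  have e : M ≃ₗ[R] PUnit :=
    { toFun := fun _ => 0, map_add' := fun _ _ => rfl, map_smul' := fun _ _ => rfl, invFun := fun _ => 0,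
      left_inv := fun a => Subsingleton.elim _ _, right_inv := fun a => rfl }
  rw [χ.iso e (Module.Finite.equiv e.symm) (fun m => Subsingleton.elim _ _), χ.punit]

theorem AF.sub {M : Type} [AddCommGroup M] [Module R M] (hM : Module.Finite R M) (hk : KW W M) (N : Submodule R M) :
    χ.f M = χ.f N + χ.f (M ⧸ N) :=
  χ.add N M (M ⧸ N) N.subtype N.mkQ hM hk N.injective_subtype N.mkQ_surjective
    (LinearMap.exact_subtype_mkQ N)

theorem AF.prod {M N : Type} [AddCommGroup M] [Module R M] [AddCommGroup N] [Module R N] (hM : Module.Finite R M)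
    (hN : Module.Finite R N) (hk : KW W M) (hk' : KW W N) : χ.f (M × N) = χ.f M + χ.f N :=
  χ.add M (M × N) N (LinearMap.inl R M N) (LinearMap.snd R M N) inferInstance
    (fun x => Prod.ext (hk x.1) (hk' x.2)) LinearMap.inl_injective Prod.snd_surjective
    (Function.Exact.inl_snd)

theorem AF.pi {M : Type} [AddCommGroup M] [Module R M] (hM : Module.Finite R M) (hk : KW W M) (n : ℕ) :
    χ.f (Fin n → M) = n • χ.f M := by
  induction n with
  | zero => rw [zero_smul]; exact χ.subsing inferInstance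
  | succ n ih =>
    rw [succ_nsmul, ← ih, ← χ.iso (Fin.consLinearEquiv R (fun _ : Fin (n + 1) => M)) inferInstance
      (fun x => Prod.ext (hk x.1) ((hk.pi _) x.2)), χ.prod hM inferInstance hk (hk.pi _), add_comm]

end AF

section AFj

variable {R : Type} [CommRing R] {W : R} {V : Type} [AddCommGroup V] {j : ℕ} (χ : AFj R W j V)

theorem PD.subsing {M : Type} [AddCommGroup M] [Module R M] (h : Subsingleton M) : PD R j M := by
  have h0 : CategoryTheory.Limits.IsZero (ModuleCat.of R M) := ModuleCat.isZero_of_subsingleton _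
  have h1 : CategoryTheory.HasProjectiveDimensionLT (ModuleCat.of R M) 0 := h0.hasProjectiveDimensionLT_zero
  exact CategoryTheory.hasProjectiveDimensionLT_of_ge _ 0 (j + 1) (Nat.zero_le _)

theorem PD.iso {M N : Type} [AddCommGroup M] [Module R M] [AddCommGroup N] [Module R N] (e : M ≃ₗ[R] N) (hp : PD R j M) :
    PD R j N :=
  @CategoryTheory.hasProjectiveDimensionLT_of_iso _ _ _ (ModuleCat.of R M) (ModuleCat.of R N) e.toModuleIso (j + 1) hp

theorem AFj.punit : χ.f PUnit = 0 := by
  have hp : PD R j PUnit := PD.subsing inferInstance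
  have h := χ.add PUnit PUnit PUnit (LinearMap.id) (LinearMap.id) inferInstance (fun m => rfl) hp hp hp
    (fun a b _ => rfl) (fun a => ⟨a, rfl⟩) (fun a => ⟨fun _ => ⟨a, rfl⟩, fun _ => rfl⟩)
  simpa using h

theorem AFj.iso {M N : Type} [AddCommGroup M] [Module R M] [AddCommGroup N] [Module R N] (e : M ≃ₗ[R] N)
    (hM : Module.Finite R M) (hk : KW W M) (hp : PD R j M) : χ.f M = χ.f N := by
  have hN : PD R j N := PD.iso e hp
  have h := χ.add M N PUnit e.toLinearMap 0 (Module.Finite.equiv e)
    (hk.of_surj e.toLinearMap e.surjective) hp hN (PD.subsing inferInstance)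
    e.injective (fun a => ⟨0, rfl⟩) (fun a => ⟨fun _ => ⟨e.symm a, by simp⟩, fun _ => rfl⟩)
  rw [h, χ.punit, add_zero]

end AFj

end Pool.Agent.QV
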