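import Pool.Agent.Lib.MP_b53bfe_ag.Q.SpecA
import Pool.Agent.Lib.MP_b53bfe_ag.Q.Bas

/-!
# The horseshoe for matrix factorizations (module Ad)
-/

set_option autoImplicit false

noncomputable section

namespace Pool.Agent.QV

open Matrix

namespace Ad_aux

variable {L : Type} [CommRing L]

/-- an MF over a domain has an injective matrix -/
theorem inj_of_ba [IsDomain L] {W : L} (hW : W ≠ 0) {n : Type} [Fintype n] [DecidableEq n] {A B : Matrix n n L}
    (h : B * A = W • (1 : Matrix n n L)) {x : n → L} (hx : A *ᵥ x = 0) : x = 0 := by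
  have h1 : (B * A) *ᵥ x = 0 := by rw [← Matrix.mulVec_mulVec, hx, Matrix.mulVec_zero]
  rw [h, Matrix.smul_mulVec, Matrix.one_mulVec] at h1
  funext i
  have h2 := congrFun h1 i
  rw [Pi.smul_apply, smul_eq_mul, Pi.zero_apply] at h2
  exact (mul_eq_zero.mp h2).resolve_left hW

/-- a matrix equation from the action on vectors -/
theorem mat_ext {m n : Type} [Fintype n] [DecidableEq n] {A B : Matrix m n L} (h : ∀ x, A *ᵥ x = B *ᵥ x) : A = B := by
  ext i j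
  have h1 := congrFun (h (Pi.single j 1)) i
  rwa [Matrix.mulVec_single_one, Matrix.mulVec_single_one] at h1

/-- presentation of a module by a matrix -/
theorem pres {M : Type} [AddCommGroup M] [Module L M] {n : ℕ} {A : Matrix (Fin n) (Fin n) L} (e : M ≃ₗ[L] Ck A) :
    ∃ π : (Fin n → L) →ₗ[L] M, Function.Surjective π ∧ ∀ x, π x = 0 ↔ ∃ y, A *ᵥ y = x := by
  refine ⟨e.symm.toLinearMap ∘ₗ (LinearMap.range A.mulVecLin).mkQ, ?_, ?_⟩
  · exact e.symm.surjective.comp (Submodule.mkQ_surjective _)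
  · intro x
    have h : (e.symm.toLinearMap ∘ₗ (LinearMap.range A.mulVecLin).mkQ) x = 0 ↔
        (LinearMap.range A.mulVecLin).mkQ x = 0 := by
      show e.symm ((LinearMap.range A.mulVecLin).mkQ x) = 0 ↔ _
      exact e.symm.map_eq_zero_iff
    rw [h, Submodule.mkQ_apply, Submodule.Quotient.mk_eq_zero]
    exact Iff.rfl

/-- the horseshoe map -/
def hs {m n : ℕ} {M : Type} [AddCommGroup M] [Module L M] (f : (Fin m → L) →ₗ[L] M) (g : (Fin n → L) →ₗ[L] M) :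
    (Fin m ⊕ Fin n → L) →ₗ[L] M :=
  f ∘ₗ LinearMap.funLeft L L Sum.inl + g ∘ₗ LinearMap.funLeft L L Sum.inr

theorem hs_apply {m n : ℕ} {M : Type} [AddCommGroup M] [Module L M] (f : (Fin m → L) →ₗ[L] M)
    (g : (Fin n → L) →ₗ[L] M) (x : Fin m ⊕ Fin n → L) : hs f g x = f (x ∘ Sum.inl) + g (x ∘ Sum.inr) := rfl

end Ad_aux

open Ad_aux in
theorem tAd : S_Ex → S_Ad := by
  intro hEx L _ hD hL hN W M₁ M M₂ _ _ _ _ _ _ i p hW hfin hKW hp1 hp2 hi hp hex
  have hfin2 : Module.Finite L M₂ := Module.Finite.of_surjective p hp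
  have hfin1 : Module.Finite L M₁ := Module.Finite.of_injective i hi
  obtain ⟨m, A₁, B₁', hMF1, ⟨e₁⟩⟩ := hEx L hD hL hN W M₁ hW hfin1 (hKW.of_inj i hi) hp1
  obtain ⟨n, A₂, B₂', hMF2, ⟨e₂⟩⟩ := hEx L hD hL hN W M₂ hW hfin2 (hKW.of_surj p hp) hp2
  obtain ⟨π₁, hπ₁, hk₁⟩ := pres e₁
  obtain ⟨π₂, hπ₂, hk₂⟩ := pres e₂
  obtain ⟨lam, hlam⟩ := Module.projective_lifting_property p π₂ hp
  have hlam' : ∀ y, p (lam y) = π₂ y := fun y => LinearMap.congr_fun hlam y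
  have hpi : ∀ a, p (i a) = 0 := fun a => (hex (i a)).mpr ⟨a, rfl⟩
  -- the map `- lam A₂` has values in the image of `i`
  have hmem : ∀ z : Fin n → L, -(lam (A₂ *ᵥ z)) ∈ LinearMap.range i := by
    intro z
    have h1 : p (-(lam (A₂ *ᵥ z))) = 0 := by
      rw [map_neg, hlam', (hk₂ _).mpr ⟨z, rfl⟩, neg_zero]
    exact (hex _).mp h1
  let κ : (Fin n → L) →ₗ[L] LinearMap.range i :=
    LinearMap.codRestrict (LinearMap.range i) (-(lam ∘ₗ A₂.mulVecLin)) hmem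
  let θ : (Fin n → L) →ₗ[L] M₁ := (LinearEquiv.ofInjective i hi).symm.toLinearMap ∘ₗ κ
  have hθ : ∀ z, i (θ z) = -(lam (A₂ *ᵥ z)) := by
    intro z
    have h1 : (LinearEquiv.ofInjective i hi) (θ z) = κ z := by
      show (LinearEquiv.ofInjective i hi) ((LinearEquiv.ofInjective i hi).symm (κ z)) = κ z
      rw [LinearEquiv.apply_symm_apply]
    have h2 := congrArg Subtype.val h1
    exact h2
  obtain ⟨ξ, hξ⟩ := Module.projective_lifting_property π₁ θ hπ₁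
  have hξ' : ∀ z, π₁ (ξ z) = θ z := fun z => LinearMap.congr_fun hξ z
  let X : Matrix (Fin m) (Fin n) L := LinearMap.toMatrix' ξ
  have hX : ∀ z, X *ᵥ z = ξ z := fun z => by
    rw [← Matrix.toLin'_apply, Matrix.toLin'_toMatrix']
  let A : Matrix (Fin m ⊕ Fin n) (Fin m ⊕ Fin n) L := fromBlocks A₁ X 0 A₂
  have hAv : ∀ v : Fin m ⊕ Fin n → L, A *ᵥ v =
      Sum.elim (A₁ *ᵥ (v ∘ Sum.inl) + X *ᵥ (v ∘ Sum.inr)) (A₂ *ᵥ (v ∘ Sum.inr)) := by
    intro v
    show fromBlocks A₁ X 0 A₂ *ᵥ v = _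
    rw [Matrix.fromBlocks_mulVec, Matrix.zero_mulVec, zero_add]
  let π : (Fin m ⊕ Fin n → L) →ₗ[L] M := hs (i ∘ₗ π₁) lam
  have hπ : ∀ v, π v = i (π₁ (v ∘ Sum.inl)) + lam (v ∘ Sum.inr) := fun v => rfl
  have hπs : Function.Surjective π := by
    intro u
    obtain ⟨y, hy⟩ := hπ₂ (p u)
    have h1 : p (u - lam y) = 0 := by rw [map_sub, hlam', hy, sub_self]
    obtain ⟨a, ha⟩ := (hex _).mp h1
    obtain ⟨x, hx⟩ := hπ₁ a
    refine ⟨Sum.elim x y, ?_⟩
    rw [hπ, Sum.elim_comp_inl, Sum.elim_comp_inr, hx, ha]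
    abel
  have hkπ : ∀ v, π v = 0 ↔ ∃ w, A *ᵥ w = v := by
    intro v
    constructor
    · intro hv
      rw [hπ] at hv
      have h1 : p (lam (v ∘ Sum.inr)) = 0 := by
        have := congrArg p hv
        rw [map_add, hpi, zero_add, map_zero] at this
        exact this
      rw [hlam'] at h1
      obtain ⟨z, hz⟩ := (hk₂ _).mp h1
      have h2 : i (π₁ (v ∘ Sum.inl - X *ᵥ z)) = 0 := by
        rw [map_sub, map_sub, hX, hξ', hθ, hz, sub_neg_eq_add]
        exact hv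
      have h3 : π₁ (v ∘ Sum.inl - X *ᵥ z) = 0 := hi (by rw [h2, map_zero])
      obtain ⟨x, hx⟩ := (hk₁ _).mp h3
      refine ⟨Sum.elim x z, ?_⟩
      rw [hAv, Sum.elim_comp_inl, Sum.elim_comp_inr, hx, hz, sub_add_cancel]
      exact Sum.elim_comp_inl_inr v
    · rintro ⟨w, rfl⟩
      rw [hπ, hAv, Sum.elim_comp_inl, Sum.elim_comp_inr, map_add, map_add, (hk₁ _).mpr ⟨_, rfl⟩, map_zero,
        zero_add, hX, hξ', hθ, neg_add_cancel]
  have hiso : Nonempty (M ≃ₗ[L] Ck A) := by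
    have hker : LinearMap.ker π = LinearMap.range A.mulVecLin := by
      ext v
      rw [LinearMap.mem_ker, hkπ]
      exact Iff.rfl
    exact ⟨(π.quotKerEquivOfSurjective hπs).symm ≪≫ₗ Submodule.quotEquivOfEq _ _ hker⟩
  -- the second matrix
  have hmem2 : ∀ v : Fin m ⊕ Fin n → L, W • v ∈ LinearMap.range A.mulVecLin := by
    intro v
    have h1 : π (W • v) = 0 := by rw [map_smul, hKW]
    obtain ⟨w, hw⟩ := (hkπ _).mp h1
    exact ⟨w, hw⟩
  let g : (Fin m ⊕ Fin n → L) →ₗ[L] LinearMap.range A.mulVecLin :=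
    LinearMap.codRestrict (LinearMap.range A.mulVecLin) (W • LinearMap.id) hmem2
  obtain ⟨β, hβ⟩ := Module.projective_lifting_property A.mulVecLin.rangeRestrict g
    A.mulVecLin.surjective_rangeRestrict
  let B : Matrix (Fin m ⊕ Fin n) (Fin m ⊕ Fin n) L := LinearMap.toMatrix' β
  have hB : ∀ v, B *ᵥ v = β v := fun v => by
    rw [← Matrix.toLin'_apply, Matrix.toLin'_toMatrix']
  have hABv : ∀ v, A *ᵥ (B *ᵥ v) = W • v := by
    intro v
    have h1 := congrArg Subtype.val (LinearMap.congr_fun hβ v)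
    rw [hB]
    exact h1
  have hAB : A * B = W • (1 : Matrix (Fin m ⊕ Fin n) (Fin m ⊕ Fin n) L) := by
    refine mat_ext fun v => ?_
    rw [← Matrix.mulVec_mulVec, hABv, Matrix.smul_mulVec, Matrix.one_mulVec]
  have hAinj : ∀ v, A *ᵥ v = 0 → v = 0 := by
    intro v hv
    rw [hAv] at hv
    have h1 : A₂ *ᵥ (v ∘ Sum.inr) = 0 := by
      have := congrArg (fun u : Fin m ⊕ Fin n → L => u ∘ Sum.inr) hv
      simp only [Sum.elim_comp_inr] at this
      exact this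
    have h2 : v ∘ Sum.inr = 0 := inj_of_ba hW hMF2.ba h1
    have h3 : A₁ *ᵥ (v ∘ Sum.inl) = 0 := by
      have := congrArg (fun u : Fin m ⊕ Fin n → L => u ∘ Sum.inl) hv
      simp only [Sum.elim_comp_inl] at this
      rw [h2, Matrix.mulVec_zero, add_zero] at this
      exact this
    have h4 : v ∘ Sum.inl = 0 := inj_of_ba hW hMF1.ba h3
    funext s
    rcases s with s | s
    · exact congrFun h4 s
    · exact congrFun h2 s
  have hBA : B * A = W • (1 : Matrix (Fin m ⊕ Fin n) (Fin m ⊕ Fin n) L) := by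
    refine mat_ext fun v => ?_
    rw [← Matrix.mulVec_mulVec, Matrix.smul_mulVec, Matrix.one_mulVec]
    have h1 : A *ᵥ (B *ᵥ (A *ᵥ v) - W • v) = 0 := by
      rw [Matrix.mulVec_sub, hABv, Matrix.mulVec_smul, sub_self]
    exact sub_eq_zero.mp (hAinj _ h1)
  -- the blocks
  obtain ⟨B₁, Y, Z, B₂, hBb⟩ : ∃ (B₁ : Matrix (Fin m) (Fin m) L) (Y : Matrix (Fin m) (Fin n) L)
      (Z : Matrix (Fin n) (Fin m) L) (B₂ : Matrix (Fin n) (Fin n) L), B = fromBlocks B₁ Y Z B₂ :=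
    ⟨B.toBlocks₁₁, B.toBlocks₁₂, B.toBlocks₂₁, B.toBlocks₂₂, (Matrix.fromBlocks_toBlocks B).symm⟩
  have hone : W • (1 : Matrix (Fin m ⊕ Fin n) (Fin m ⊕ Fin n) L) = fromBlocks (W • 1) 0 0 (W • 1) := by
    rw [← Matrix.fromBlocks_one, Matrix.fromBlocks_smul, smul_zero, smul_zero]
  have e1 : fromBlocks A₁ X 0 A₂ * fromBlocks B₁ Y Z B₂ = fromBlocks (W • 1) 0 0 (W • 1) := by
    rw [← hone, ← hBb]
    exact hAB
  rw [Matrix.fromBlocks_multiply, Matrix.fromBlocks_inj] at e1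
  obtain ⟨e11, e12, e13, e14⟩ := e1
  have hZ : Z = 0 := by
    refine mat_ext fun v => ?_
    rw [Matrix.zero_mulVec]
    refine inj_of_ba hW hMF2.ba ?_
    rw [Matrix.mulVec_mulVec]
    have : A₂ * Z = 0 := by simpa using e13
    rw [this, Matrix.zero_mulVec]
  subst hZ
  have e2 : fromBlocks B₁ Y 0 B₂ * fromBlocks A₁ X 0 A₂ = fromBlocks (W • 1) 0 0 (W • 1) := by
    rw [← hone, ← hBb]
    exact hBA
  rw [Matrix.fromBlocks_multiply, Matrix.fromBlocks_inj] at e2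
  obtain ⟨f11, f12, f13, f14⟩ := e2
  refine ⟨m, n, A₁, B₁, A₂, B₂, X, Y, ⟨?_, ?_⟩, ⟨?_, ?_⟩, ⟨?_, ?_⟩, ⟨e₁⟩, ⟨e₂⟩, hiso⟩
  · simpa using e11
  · simpa using f11
  · simpa using e14
  · simpa using f14
  · rw [← hBb]
    exact hAB
  · rw [← hBb]
    exact hBA

end Pool.Agent.QV
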