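import Pool.Agent.Lib.MP_b53bfe_ag.Q.SpecA

/-!
# Voisin's question for quintic threefolds: module All (helper56)
-/

set_option autoImplicit false

noncomputable section

namespace Pool.Agent.QV

open Matrix

namespace All_aux

lemma kw_quot {L : Type} [CommRing L] (W : L) : KW W (L ⧸ Ideal.span {W}) := by
  intro m
  obtain ⟨x, rfl⟩ := Ideal.Quotient.mk_surjective m
  have h : W • (Ideal.Quotient.mk (Ideal.span {W}) x) = Ideal.Quotient.mk (Ideal.span {W}) (W * x) := rfl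
  rw [h, Ideal.Quotient.eq_zero_iff_mem]
  exact Ideal.mul_mem_right _ _ (Ideal.subset_span (Set.mem_singleton W))

end All_aux

theorem tAll : S_Ext → S_Ckb → S_Pd → S_All := by
  intro hE hC hP L _ W V _ Φ hN hW hG hΦ
  obtain ⟨_, hP2, hP3, _⟩ := hP L
  have hfin : Module.Finite L (L ⧸ Ideal.span {W}) := inferInstance
  have hPD : PD L 1 (L ⧸ Ideal.span {W}) :=
    hP2 1 _ _ (LinearEquiv.funUnique (Fin 1) L (L ⧸ Ideal.span {W})) ((hC L W hW).2.1 1)
  have key : ∀ j : ℕ, ∃ Ψ : AFj L W (j + 1) V, ∀ (M : Type) [AddCommGroup M] [Module L M],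
      Module.Finite L M → KW W M → PD L 1 M → Ψ.f M = Φ.f M := by
    intro j
    induction j with
    | zero => exact ⟨Φ, fun M _ _ _ _ _ => rfl⟩
    | succ j ih =>
      obtain ⟨Ψ, hΨ⟩ := ih
      obtain ⟨Ψ', h'⟩ := hE L W V (j + 1) Ψ hN hW (by omega)
        (by rw [hΨ _ hfin (All_aux.kw_quot W) hPD, hΦ])
      exact ⟨Ψ', fun M _ _ hf hk hp =>
        (h' M hf hk (hP3 1 (j + 1) M (by omega) hp)).trans (hΨ M hf hk hp)⟩
  obtain ⟨j, hj⟩ := hG
  obtain ⟨Ψ, hΨ⟩ := key j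
  have hj' : GD L (j + 1) := fun M _ _ => hP3 j (j + 1) M (by omega) (hj M)
  exact ⟨⟨fun M _ _ => Ψ.f M, fun A B C _ _ _ _ _ _ i p hf hk hi hp he =>
    Ψ.add A B C i p hf hk (hj' A) (hj' B) (hj' C) hi hp he⟩, fun M _ _ hf hk hp => hΨ M hf hk hp⟩

end Pool.Agent.QV
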