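import Pool.Agent.Lib.MP_b53bfe_ag.Q.SpecD

/-!
# Disproof of Q1 of MP_b53bfe_ag, phase 2: cardinality of the algebraic closure of `ℂ((t))`
-/

set_option autoImplicit false

noncomputable section

namespace Pool.Agent.QV

open MvPolynomial
open Pool.Agent.FY (Res)

/-- The algebraic closure of `ℂ((t))` has characteristic `0` and the cardinality of the continuum. -/
theorem tCrd : S_Crd := by
  have hinj : Function.Injective (algebraMap ℂ (AlgebraicClosure (LaurentSeries ℂ))) :=
    FaithfulSMul.algebraMap_injective ℂ (AlgebraicClosure (LaurentSeries ℂ))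
  refine ⟨charZero_of_injective_algebraMap hinj, le_antisymm ?_ ?_⟩
  · have h1 : Cardinal.mk (LaurentSeries ℂ) ≤ Cardinal.continuum := by
      have e1 : Function.Injective (fun (f : LaurentSeries ℂ) (n : ℤ) => f.coeff n) := by
        intro f g h
        exact HahnSeries.ext h
      refine (Cardinal.mk_le_of_injective e1).trans ?_
      have e2 : Cardinal.mk (ℤ → ℂ) = Cardinal.continuum := by
        rw [← Cardinal.power_def, Cardinal.mk_complex, Cardinal.mk_eq_aleph0 ℤ]
        exact Cardinal.continuum_power_aleph0
      exact e2.le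
    have h2 : Algebra.IsAlgebraic (LaurentSeries ℂ) (AlgebraicClosure (LaurentSeries ℂ)) := inferInstance
    refine (Algebra.IsAlgebraic.cardinalMk_le_max (LaurentSeries ℂ) (AlgebraicClosure (LaurentSeries ℂ))).trans ?_
    exact max_le h1 Cardinal.aleph0_le_continuum
  · rw [← Cardinal.mk_complex]
    exact Cardinal.mk_le_of_injective hinj

end Pool.Agent.QV
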