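import Pool.Agent.Lib.MP_b53bfe_ag.Q.SpecD

/-!
# Algebraic extensions: assembly (`S_DL`)
-/

set_option autoImplicit false

noncomputable section

namespace Pool.Agent.QV

open MvPolynomial
open Pool.Agent.FY (Res)

namespace DL_aux

/-- the forms over a finite subextension are mapped to the forms over the large field -/
theorem mem_range {k K : Type} [Field k] [Field K] [Algebra k K] (f : MvPolynomial (Fin 5) k) (F : Fs k K) :
    ∀ s ∈ Set.range (Gr.form (map (algebraMap k F.1) f)), jE F.1 K s ∈ Set.range (Gr.form (map (algebraMap k K) f)) := by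
  rintro _ ⟨i, rfl⟩
  refine ⟨i, ?_⟩
  rw [form_eq, form_eq, map_formR, map_map]
  rfl

end DL_aux

theorem tDL : S_RS → S_DLb → S_DLq → S_DLf → S_DL := by
  intro hRS hb hq hf k K _ _ _ halg f hH
  obtain ⟨E, _, _, χ, hχ⟩ := hH
  have hD := hf k K halg
  have h1 : ∀ F : Fs k K, ∃ χ' : AFS (Gr.Pol F.1) (Set.range (Gr.form (map (algebraMap k F.1) f))) E,
      QF F.1 (map (algebraMap k F.1) f) E χ' := fun F => hRS k F.1 F.2 f E χ hχ
  choose χi hχi using h1
  obtain ⟨χ', hR⟩ := hb (Gr.Pol K) (Fs k K) (fun F => Gr.Pol F.1) (fun F => jE F.1 K)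
    (Set.range (Gr.form (map (algebraMap k K) f))) (fun F => Set.range (Gr.form (map (algebraMap k F.1) f))) E χi hD
    inferInstance (DL_aux.mem_range f)
  exact ⟨Filter.Germ (Filter.atTop : Filter (Fs k K)) E, inferInstance, inferInstance, χ', hq k K f E χi χ' hD hχi hR⟩

end Pool.Agent.QV
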