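import Pool.Agent.Lib.MP_b53bfe_ag.Q.SpecD

/-!
# `S_DLa`: finitely generated modules in a directed system of rings
-/

set_option autoImplicit false

noncomputable section

namespace Pool.Agent.QV

open MvPolynomial
open Pool.Agent.FY (Res)

namespace DLa_aux

variable {P I : Type} [CommRing P] [Preorder I] {A : I → Type} [∀ i, CommRing (A i)] {φ : ∀ i, A i →+* P}

/-- finitely many conditions that hold for large indices hold together for large indices -/
theorem fin_ev (h : DSys P I A φ) {α : Type} [Finite α] (Q : α → I → Prop) (hQ : ∀ a, ∃ i₀, ∀ i, i₀ ≤ i → Q a i) :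
    ∃ i₀, ∀ i, i₀ ≤ i → ∀ a, Q a i := by
  classical
  have := Fintype.ofFinite α
  have key : ∀ s : Finset α, ∃ i₀, ∀ i, i₀ ≤ i → ∀ a ∈ s, Q a i := by
    intro s
    induction s using Finset.induction_on with
    | empty =>
      obtain ⟨i₀⟩ := h.ne
      exact ⟨i₀, fun i _ a ha => by simp at ha⟩
    | insert b s hb ih =>
      obtain ⟨i₁, h₁⟩ := ih
      obtain ⟨i₂, h₂⟩ := hQ b
      obtain ⟨i₃, h13, h23⟩ := h.dir i₁ i₂
      refine ⟨i₃, fun i hi a ha => ?_⟩
      rcases Finset.mem_insert.mp ha with rfl | ha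
      · exact h₂ i (le_trans h23 hi)
      · exact h₁ i (le_trans h13 hi) a ha
  obtain ⟨i₀, h₀⟩ := key Finset.univ
  exact ⟨i₀, fun i hi a => h₀ i hi a (Finset.mem_univ a)⟩

/-- the first part -/
theorem part1 (h : DSys P I A φ) (M : Type) [AddCommGroup M] [Module P M] (n m : ℕ) (e : Fin n → M) (e' : Fin m → M)
    (he : ∀ j, e' j ∈ Submodule.span P (Set.range e)) : ∃ i₀, ∀ i, i₀ ≤ i → spi (φ i) e' ≤ spi (φ i) e := by
  have h1 : ∀ j, ∃ c : Fin n → P, ∑ l, c l • e l = e' j := fun j => (Submodule.mem_span_range_iff_exists_fun P).1 (he j)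
  choose c hc using h1
  obtain ⟨i₀, h₀⟩ := fin_ev h (fun (jl : Fin m × Fin n) i => ∃ a, φ i a = c jl.1 jl.2) (fun jl => h.cov _)
  refine ⟨i₀, fun i hi => Submodule.span_le.2 ?_⟩
  rintro _ ⟨j, rfl⟩
  have h2 : ∀ l, ∃ a, φ i a = c j l := fun l => h₀ i hi (j, l)
  choose b hb using h2
  have h3 : Res.mk (φ i) (e' j) = ∑ l, b l • Res.mk (φ i) (e l) := by
    have h4 : e' j = ∑ l, φ i (b l) • e l := by
      rw [← hc j]
      exact Finset.sum_congr rfl fun l _ => by rw [hb l]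
    exact h4
  change Res.mk (φ i) (e' j) ∈ spi (φ i) e
  rw [h3]
  exact Submodule.sum_mem _ fun l _ => Submodule.smul_mem _ _ (Submodule.subset_span ⟨l, rfl⟩)

/-- the second part -/
theorem part2 (h : DSys P I A φ) (hP : IsNoetherianRing P) (B C : Type) [AddCommGroup B] [Module P B] [AddCommGroup C]
    [Module P C] (p : B →ₗ[P] C) (n m : ℕ) (e : Fin n → B) (a : Fin m → B)
    (ha : ∀ x, p x = 0 → x ∈ Submodule.span P (Set.range a)) :
    ∃ i₀, ∀ i, i₀ ≤ i → ∀ x : Res (φ i) B, x ∈ spi (φ i) e → p x.val = 0 → x ∈ spi (φ i) a := by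
  have hL : ∀ c : Fin n → P, (p ∘ₗ Fintype.linearCombination P e) c = p (∑ j, c j • e j) := fun c => by
    rw [LinearMap.comp_apply, Fintype.linearCombination_apply]
  obtain ⟨r, ρ, hρ⟩ := Submodule.fg_iff_exists_fin_generating_family.1
    (IsNoetherian.noetherian (LinearMap.ker (p ∘ₗ Fintype.linearCombination P e)))
  have hu : ∀ l, p (∑ j, ρ l j • e j) = 0 := fun l => by
    have h1 : ρ l ∈ LinearMap.ker (p ∘ₗ Fintype.linearCombination P e) := by
      rw [← hρ]
      exact Submodule.subset_span ⟨l, rfl⟩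
    rw [← hL]
    exact h1
  obtain ⟨i₁, h₁⟩ := part1 h B m r a (fun l => ∑ j, ρ l j • e j) (fun l => ha _ (hu l))
  obtain ⟨i₂, h₂⟩ := fin_ev h (fun (lj : Fin r × Fin n) i => ∃ b, φ i b = ρ lj.1 lj.2) (fun lj => h.cov _)
  obtain ⟨i₃, h13, h23⟩ := h.dir i₁ i₂
  refine ⟨i₃, fun i hi x hx hpx => ?_⟩
  have h4 : ∀ l j, ∃ b, φ i b = ρ l j := fun l j => h₂ i (le_trans h23 hi) (l, j)
  choose b hb using h4
  obtain ⟨q, hq⟩ := (Submodule.mem_span_range_iff_exists_fun (A i)).1 hx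
  have hxv : x.val = ∑ j, φ i (q j) • e j := hq.symm
  have hk : (fun j => φ i (q j)) ∈ Submodule.span P (Set.range ρ) := by
    rw [hρ, LinearMap.mem_ker, hL, ← hxv]
    exact hpx
  obtain ⟨s, hs⟩ := (Submodule.mem_span_range_iff_exists_fun P).1 hk
  obtain ⟨π, hπ, hπ1⟩ := h.ret i
  have hqj : ∀ j, q j = ∑ l, π (s l) * b l j := fun j => by
    have h5 : φ i (q j) = ∑ l, φ i (b l j) * s l := by
      have h6 := congrFun hs j
      rw [Finset.sum_apply] at h6
      rw [← h6]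
      exact Finset.sum_congr rfl fun l _ => by rw [Pi.smul_apply, smul_eq_mul, hb l j, mul_comm]
    rw [← hπ1 (q j), h5, map_sum]
    exact Finset.sum_congr rfl fun l _ => by rw [hπ, mul_comm]
  have hx2 : x = ∑ l, π (s l) • Res.mk (φ i) (∑ j, ρ l j • e j) := by
    have h7 : ∀ l, Res.mk (φ i) (∑ j, ρ l j • e j) = ∑ j, b l j • Res.mk (φ i) (e j) := fun l => by
      have h8 : ∑ j, ρ l j • e j = ∑ j, φ i (b l j) • e j := Finset.sum_congr rfl fun j _ => by rw [hb l j]
      exact h8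
    rw [← hq]
    calc ∑ j, q j • Res.mk (φ i) (e j) = ∑ j, ∑ l, (π (s l) * b l j) • Res.mk (φ i) (e j) :=
          Finset.sum_congr rfl fun j _ => by rw [hqj j, Finset.sum_smul]
      _ = ∑ l, ∑ j, (π (s l) * b l j) • Res.mk (φ i) (e j) := Finset.sum_comm
      _ = ∑ l, π (s l) • Res.mk (φ i) (∑ j, ρ l j • e j) :=
          Finset.sum_congr rfl fun l _ => by
            rw [h7 l, Finset.smul_sum]
            exact Finset.sum_congr rfl fun j _ => by rw [mul_smul]
  rw [hx2]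
  exact Submodule.sum_mem _ fun l _ => Submodule.smul_mem _ _
    (h₁ i (le_trans h13 hi) (Submodule.subset_span ⟨l, rfl⟩))

end DLa_aux

theorem tDLa : S_DLa := by
  intro P I _ _ A _ φ h hP
  exact ⟨fun M _ _ n m e e' he => DLa_aux.part1 h M n m e e' he,
    fun B C _ _ _ _ p n m e a ha => DLa_aux.part2 h hP B C p n m e a ha⟩

end Pool.Agent.QV
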