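import Pool.Agent.Lib.MP_b53bfe_ag.Q.SpecD

/-!
# Disproof of Q1 of MP_b53bfe_ag, phase 2: limits of additive functions (S_DLb)
-/

set_option autoImplicit false

noncomputable section

namespace Pool.Agent.QV

open MvPolynomial
open Pool.Agent.FY (Res)

namespace DLb_aux

section one

variable {P A : Type} [CommRing P] [CommRing A] (ψ : A →+* P)

private theorem spi_le {M : Type} [AddCommGroup M] [Module P M] {n : ℕ} (e : Fin n → M)
    (N : Submodule A (Res ψ M)) (h : ∀ j, Pool.Agent.FY.Res.mk ψ (e j) ∈ N) : spi ψ e ≤ N := by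
  refine Submodule.span_le.2 ?_
  rintro _ ⟨j, rfl⟩
  exact h j

private theorem mem_spi {M : Type} [AddCommGroup M] [Module P M] {n : ℕ} (e : Fin n → M) (j : Fin n) :
    Pool.Agent.FY.Res.mk ψ (e j) ∈ spi ψ e :=
  Submodule.subset_span ⟨j, rfl⟩

/-- additivity for one ring -/
private theorem add_one {S : Set P} {T : Set A} {E : Type} [AddCommGroup E] (χ : AFS A T E)
    (hTS : ∀ s ∈ T, ψ s ∈ S) {M' M M'' : Type} [AddCommGroup M'] [Module P M'] [AddCommGroup M]
    [Module P M] [AddCommGroup M''] [Module P M''] (h : M' →ₗ[P] M) (p : M →ₗ[P] M'')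
    (hk : KS S M) (hi : Function.Injective h) (hph : ∀ x, p (h x) = 0) {m n r : ℕ}
    (a : Fin m → M') (e : Fin n → M) (c : Fin r → M'')
    (h1 : ∀ j, Pool.Agent.FY.Res.mk ψ (h (a j)) ∈ spi ψ e)
    (h2 : ∀ j, Pool.Agent.FY.Res.mk ψ (p (e j)) ∈ spi ψ c)
    (h3 : ∀ j, ∃ x ∈ spi ψ e, p x.val = c j)
    (h4 : ∀ x ∈ spi ψ e, p x.val = 0 → x ∈ spi ψ (fun j => h (a j))) :
    χ.f (spi ψ e) = χ.f (spi ψ a) + χ.f (spi ψ c) := by
  have g1 : ∀ x ∈ spi ψ a, Pool.Agent.FY.Res.map ψ h x ∈ spi ψ e := by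
    have : spi ψ a ≤ (spi ψ e).comap (Pool.Agent.FY.Res.map ψ h) := spi_le ψ a _ fun j => h1 j
    exact fun x hx => this hx
  have g2 : ∀ x ∈ spi ψ e, Pool.Agent.FY.Res.map ψ p x ∈ spi ψ c := by
    have : spi ψ e ≤ (spi ψ c).comap (Pool.Agent.FY.Res.map ψ p) := spi_le ψ e _ fun j => h2 j
    exact fun x hx => this hx
  have g3 : ∀ y ∈ spi ψ c, ∃ x ∈ spi ψ e, Pool.Agent.FY.Res.map ψ p x = y := by
    have : spi ψ c ≤ (spi ψ e).map (Pool.Agent.FY.Res.map ψ p) := spi_le ψ c _ fun j => by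
      obtain ⟨x, hx, hxj⟩ := h3 j
      exact ⟨x, hx, hxj⟩
    exact fun y hy => this hy
  have g4 : ∀ x ∈ spi ψ (fun j => h (a j)), ∃ y ∈ spi ψ a, Pool.Agent.FY.Res.map ψ h y = x := by
    have : spi ψ (fun j => h (a j)) ≤ (spi ψ a).map (Pool.Agent.FY.Res.map ψ h) :=
      spi_le ψ _ _ fun j => ⟨_, mem_spi ψ a j, rfl⟩
    exact fun y hy => this hy
  refine χ.add (spi ψ a) (spi ψ e) (spi ψ c) ((Pool.Agent.FY.Res.map ψ h).restrict g1)
    ((Pool.Agent.FY.Res.map ψ p).restrict g2) ?_ ?_ ?_ ?_ ?_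
  · exact Module.Finite.iff_fg.2 (Submodule.fg_span (Set.finite_range _))
  · intro s hs x
    refine Subtype.ext ?_
    exact hk (ψ s) (hTS s hs) x.1.val
  · intro x y hxy
    refine Subtype.ext ?_
    have h5 : h x.1.val = h y.1.val := congrArg Subtype.val hxy
    exact hi h5
  · rintro ⟨y, hy⟩
    obtain ⟨x, hx, hxy⟩ := g3 y hy
    exact ⟨⟨x, hx⟩, Subtype.ext hxy⟩
  · rintro ⟨x, hx⟩
    constructor
    · intro hx0
      have h5 : p x.val = 0 := congrArg Subtype.val hx0
      obtain ⟨y, hy, hyx⟩ := g4 x (h4 x hx h5)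
      exact ⟨⟨y, hy⟩, Subtype.ext hyx⟩
    · rintro ⟨y, hy⟩
      have h5 : h y.1.val = x.val := congrArg Subtype.val hy
      refine Subtype.ext ?_
      change p x.val = 0
      rw [← h5, hph]

end one

section lim

variable {P I : Type} [CommRing P] [Preorder I] {A : I → Type} [∀ i, CommRing (A i)]
  (φ : ∀ i, A i →+* P) {Si : ∀ i, Set (A i)} {E : Type} [AddCommGroup E]
  (χi : ∀ i, AFS (A i) (Si i) E)

/-- the germ for chosen generators -/
private def gm {M : Type} [AddCommGroup M] [Module P M] {n : ℕ} (e : Fin n → M) :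
    Filter.Germ (Filter.atTop : Filter I) E :=
  ((fun i => (χi i).f (spi (φ i) e) : I → E) : Filter.Germ (Filter.atTop : Filter I) E)

private theorem gm_eq (hDL : ∀ (M : Type) [AddCommGroup M] [Module P M] (n m : ℕ) (e : Fin n → M)
      (e' : Fin m → M), (∀ j, e' j ∈ Submodule.span P (Set.range e)) →
      ∃ i₀, ∀ i, i₀ ≤ i → spi (φ i) e' ≤ spi (φ i) e)
    {M : Type} [AddCommGroup M] [Module P M] {n m : ℕ} (e : Fin n → M) (e' : Fin m → M)
    (he : Submodule.span P (Set.range e) = ⊤) (he' : Submodule.span P (Set.range e') = ⊤) :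
    gm φ χi e = gm φ χi e' := by
  obtain ⟨i1, h1⟩ := hDL M n m e e' fun j => by rw [he]; trivial
  obtain ⟨i2, h2⟩ := hDL M m n e' e fun j => by rw [he']; trivial
  refine Filter.Germ.coe_eq.2 ?_
  filter_upwards [Filter.eventually_ge_atTop i1, Filter.eventually_ge_atTop i2] with i hi1 hi2
  have h3 : spi (φ i) e = spi (φ i) e' := le_antisymm (h2 i hi2) (h1 i hi1)
  rw [h3]

open Classical in
/-- the value -/
private def F0 (M : Type) [AddCommGroup M] [Module P M] : Filter.Germ (Filter.atTop : Filter I) E :=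
  if h : ∃ (n : ℕ) (e : Fin n → M), Submodule.span P (Set.range e) = ⊤ then
    gm φ χi h.choose_spec.choose
  else 0

private theorem F0_eq (hDL : ∀ (M : Type) [AddCommGroup M] [Module P M] (n m : ℕ) (e : Fin n → M)
      (e' : Fin m → M), (∀ j, e' j ∈ Submodule.span P (Set.range e)) →
      ∃ i₀, ∀ i, i₀ ≤ i → spi (φ i) e' ≤ spi (φ i) e)
    {M : Type} [AddCommGroup M] [Module P M] {n : ℕ} (e : Fin n → M)
    (he : Submodule.span P (Set.range e) = ⊤) : F0 φ χi M = gm φ χi e := by
  have h : ∃ (n : ℕ) (e : Fin n → M), Submodule.span P (Set.range e) = ⊤ := ⟨n, e, he⟩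
  rw [F0, dif_pos h]
  exact gm_eq φ χi hDL _ _ h.choose_spec.choose_spec he

end lim

end DLb_aux

open DLb_aux

theorem tDLb : S_DLa → S_DLb := by
  intro hDLa P I _ _ A _ φ S Si E _ χi hsys hP hSi
  obtain ⟨hD1, hD2⟩ := hDLa P I A φ hsys hP
  refine ⟨⟨F0 φ χi, ?_⟩, ?_⟩
  · intro M' M M'' _ _ _ _ _ _ h p hfin hk hinj hsurj hex
    have hN : IsNoetherian P M := inferInstance
    have hf' : Module.Finite P M' := Module.Finite.of_injective h hinj
    have hf'' : Module.Finite P M'' := Module.Finite.of_surjective p hsurj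
    obtain ⟨m, a, ha⟩ := Module.Finite.exists_fin (R := P) (M := M')
    obtain ⟨r, c, hc⟩ := Module.Finite.exists_fin (R := P) (M := M'')
    choose c' hc' using fun j => hsurj (c j)
    have hker : ∀ x, p x = 0 → x ∈ Submodule.span P (Set.range fun j => h (a j)) := by
      intro x hx
      obtain ⟨y, rfl⟩ := (hex x).1 hx
      have h1 : y ∈ Submodule.span P (Set.range a) := by rw [ha]; trivial
      have h2 : h y ∈ (Submodule.span P (Set.range a)).map h := ⟨y, h1, rfl⟩
      rw [Submodule.map_span, ← Set.range_comp] at h2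
      exact h2
    set e : Fin (m + r) → M := Fin.append (fun j => h (a j)) c' with he
    have hel : ∀ j, e (Fin.castAdd r j) = h (a j) := fun j => Fin.append_left _ _ j
    have her : ∀ j, e (Fin.natAdd m j) = c' j := fun j => Fin.append_right _ _ j
    have hspan : Submodule.span P (Set.range e) = ⊤ := by
      rw [eq_top_iff]
      intro x _
      have h1 : p x ∈ (Submodule.span P (Set.range c')).map p := by
        rw [Submodule.map_span, ← Set.range_comp]
        have h2 : (p ∘ c') = c := funext hc'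
        rw [h2, hc]
        trivial
      obtain ⟨y, hy, hyx⟩ := h1
      have h3 : x - y ∈ Submodule.span P (Set.range fun j => h (a j)) :=
        hker _ (by rw [map_sub, hyx, sub_self])
      have h4 : Submodule.span P (Set.range fun j => h (a j)) ≤ Submodule.span P (Set.range e) := by
        refine Submodule.span_mono ?_
        rintro _ ⟨j, rfl⟩
        exact ⟨_, hel j⟩
      have h5 : Submodule.span P (Set.range c') ≤ Submodule.span P (Set.range e) := by
        refine Submodule.span_mono ?_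
        rintro _ ⟨j, rfl⟩
        exact ⟨_, her j⟩
      have h6 : x = (x - y) + y := by abel
      rw [h6]
      exact Submodule.add_mem _ (h4 h3) (h5 hy)
    obtain ⟨i₀, hi₀⟩ := hD2 M M'' p (m + r) m e (fun j => h (a j)) hker
    rw [F0_eq φ χi hD1 e hspan, F0_eq φ χi hD1 a ha, F0_eq φ χi hD1 c hc]
    refine Filter.Germ.coe_eq.2 ?_
    filter_upwards [Filter.eventually_ge_atTop i₀] with i hi
    refine add_one (φ i) (χi i) (hSi i) h p hk hinj (fun x => (hex (h x)).2 ⟨x, rfl⟩) a e c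
      ?_ ?_ ?_ (hi₀ i hi)
    · intro j
      rw [← hel j]
      exact Submodule.subset_span ⟨_, rfl⟩
    · intro j
      refine Fin.addCases (fun j' => ?_) (fun j' => ?_) j
      · rw [hel j', (hex (h (a j'))).2 ⟨_, rfl⟩]
        exact Submodule.zero_mem _
      · rw [her j', hc' j']
        exact Submodule.subset_span ⟨_, rfl⟩
    · intro j
      refine ⟨Pool.Agent.FY.Res.mk (φ i) (e (Fin.natAdd m j)), Submodule.subset_span ⟨_, rfl⟩, ?_⟩
      rw [her j]
      exact hc' j
  · intro M _ _ _ _ n e he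
    exact F0_eq φ χi hD1 e he

end Pool.Agent.QV
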