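import Pool.Agent.Lib.MP_b53bfe_ag.Q.SpecD

/-!
# MP_b53bfe_ag, phase 2: the directed system of finite subextensions
-/

set_option autoImplicit false

noncomputable section

namespace Pool.Agent.QV

open MvPolynomial
open Pool.Agent.FY (Res)

namespace DLf_aux

variable {σ F K : Type} [Field F] [Field K] [Algebra F K]

theorem coeff_aux (r : K →ₗ[F] F) (p : MvPolynomial σ K) (m : σ →₀ ℕ) :
    coeff m (∑ n ∈ p.support, monomial n (r (coeff n p)) : MvPolynomial σ F) = r (coeff m p) := by
  classical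
  rw [coeff_sum]
  simp only [coeff_monomial]
  rw [Finset.sum_ite_eq']
  split_ifs with h
  · rfl
  · rw [notMem_support_iff.1 h, map_zero]

/-- apply `r` to the coefficients -/
def pr (r : K →ₗ[F] F) : MvPolynomial σ K →+ MvPolynomial σ F where
  toFun p := ∑ m ∈ p.support, monomial m (r (coeff m p))
  map_zero' := by simp
  map_add' p q := by
    ext m
    rw [coeff_add, coeff_aux, coeff_aux, coeff_aux, coeff_add, map_add]

theorem coeff_pr (r : K →ₗ[F] F) (p : MvPolynomial σ K) (m : σ →₀ ℕ) : coeff m (pr r p) = r (coeff m p) :=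
  coeff_aux r p m

theorem pr_mul (r : K →ₗ[F] F) (a : MvPolynomial σ F) (p : MvPolynomial σ K) :
    pr r (map (algebraMap F K) a * p) = a * pr r p := by
  classical
  ext m
  rw [coeff_pr, coeff_mul, coeff_mul, map_sum]
  refine Finset.sum_congr rfl fun x _ => ?_
  rw [coeff_map, coeff_pr, ← Algebra.smul_def, map_smul, smul_eq_mul]

theorem pr_map (r : K →ₗ[F] F) (hr : ∀ c : F, r (algebraMap F K c) = c) (a : MvPolynomial σ F) :
    pr r (map (algebraMap F K) a) = a := by
  ext m
  rw [coeff_pr, coeff_map, hr]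

theorem exists_ret (F K : Type) [Field F] [Field K] [Algebra F K] :
    ∃ r : K →ₗ[F] F, ∀ c : F, r (algebraMap F K c) = c := by
  obtain ⟨r, hr⟩ := LinearMap.exists_leftInverse_of_injective (Algebra.linearMap F K)
    (LinearMap.ker_eq_bot.2 (algebraMap F K).injective)
  exact ⟨r, fun c => by simpa using LinearMap.congr_fun hr c⟩

end DLf_aux

theorem tDLf : S_DLf := by
  intro k K _ _ _ halg
  refine ⟨?_, ?_, ?_, ?_⟩
  · intro a b
    have := a.2
    have := b.2
    exact ⟨⟨a.1 ⊔ b.1, IntermediateField.finiteDimensional_sup _ _⟩, (le_sup_left : a.1 ≤ a.1 ⊔ b.1),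
      (le_sup_right : b.1 ≤ a.1 ⊔ b.1)⟩
  · exact ⟨⟨⊥, inferInstance⟩⟩
  · intro p
    have : Finite ↥(p.coeffs : Set K) := Finset.finite_toSet _
    have hfin : FiniteDimensional k (IntermediateField.adjoin k (p.coeffs : Set K)) :=
      IntermediateField.finiteDimensional_adjoin fun x _ => (halg.isAlgebraic x).isIntegral
    refine ⟨⟨_, hfin⟩, fun i hi => ?_⟩
    have h : (p.coeffs : Set K) ⊆ Set.range (algebraMap i.1 K) := by
      intro x hx
      exact ⟨⟨x, hi (IntermediateField.subset_adjoin k _ hx)⟩, rfl⟩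
    exact mem_range_map_iff_coeffs_subset.2 h
  · intro i
    obtain ⟨r, hr⟩ := DLf_aux.exists_ret i.1 K
    exact ⟨DLf_aux.pr r, DLf_aux.pr_mul r, DLf_aux.pr_map r hr⟩

end Pool.Agent.QV
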