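import Pool.Agent.Lib.MP_b53bfe_ag.Q.SpecD

/-!
# Disproof of Q1 of MP_b53bfe_ag, phase 2: the limit function has the properties `QF` (S_DLq)
-/

set_option autoImplicit false

noncomputable section

namespace Pool.Agent.QV

open MvPolynomial
open Pool.Agent.FY (Res)

namespace DLq_aux

section one

variable {P A : Type} [CommRing P] [CommRing A] (ψ : A →+* P)

private theorem spi_le {M : Type} [AddCommGroup M] [Module P M] {n : ℕ} (e : Fin n → M)
    (N : Submodule A (Res ψ M)) (h : ∀ j, Pool.Agent.FY.Res.mk ψ (e j) ∈ N) : spi ψ e ≤ N := by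
  refine Submodule.span_le.2 ?_
  rintro _ ⟨j, rfl⟩
  exact h j

private theorem mem_spi {M : Type} [AddCommGroup M] [Module P M] {n : ℕ} (e : Fin n → M) (j : Fin n) :
    Pool.Agent.FY.Res.mk ψ (e j) ∈ spi ψ e :=
  Submodule.subset_span ⟨j, rfl⟩

private theorem spi_fin {M : Type} [AddCommGroup M] [Module P M] {n : ℕ} (e : Fin n → M) :
    Module.Finite A (spi ψ e) :=
  Module.Finite.iff_fg.2 (Submodule.fg_span (Set.finite_range _))

private theorem smul_val (r : A) {M : Type} [AddCommGroup M] [Module P M] {n : ℕ} (e : Fin n → M) (x : spi ψ e) :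
    (r • x).1.val = ψ r • x.1.val := rfl

/-- an element of a module of the form `(g) ⊤` is a multiple of `g` -/
private theorem mem_smul {R : Type} [CommRing R] (g : R) {N : Type} [AddCommGroup N] [Module R N] (x : N) :
    x ∈ Ideal.span {g} • (⊤ : Submodule R N) ↔ ∃ y : N, x = g • y := by
  rw [Submodule.ideal_span_singleton_smul, Submodule.mem_smul_pointwise_iff_exists]
  constructor
  · rintro ⟨y, -, hy⟩
    exact ⟨y, hy.symm⟩
  · rintro ⟨y, hy⟩
    exact ⟨y, trivial, hy.symm⟩

/-- perfect modules, one ring -/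
private theorem perf_one {S : Set A} {E : Type} [AddCommGroup E] (χ : AFS A S E) (gF : A) (g : P) (hg : ψ gF = g)
    {N : Type} [AddCommGroup N] [Module P N] {n : ℕ} (e : Fin n → N)
    (hK : ∀ x ∈ spi ψ e, (Ideal.span {g} • (⊤ : Submodule P N)).mkQ x.val = 0 → x ∈ spi ψ (fun j => g • e j))
    (hS : KS S (spi ψ fun j => (Ideal.span {g} • (⊤ : Submodule P N)).mkQ (e j)))
    (h0 : χ.f (Qt gF (spi ψ e)) = 0) :
    χ.f (spi ψ fun j => (Ideal.span {g} • (⊤ : Submodule P N)).mkQ (e j)) = 0 := by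
  set p := (Ideal.span {g} • (⊤ : Submodule P N)).mkQ with hp
  have g2 : ∀ x ∈ spi ψ e, Pool.Agent.FY.Res.map ψ p x ∈ spi ψ fun j => p (e j) := by
    have : spi ψ e ≤ (spi ψ fun j => p (e j)).comap (Pool.Agent.FY.Res.map ψ p) :=
      spi_le ψ e _ fun j => mem_spi ψ (fun j => p (e j)) j
    exact fun x hx => this hx
  set q : spi ψ e →ₗ[A] spi ψ (fun j => p (e j)) := (Pool.Agent.FY.Res.map ψ p).restrict g2 with hq
  have hqs : Function.Surjective q := by
    have : spi ψ (fun j => p (e j)) ≤ (spi ψ e).map (Pool.Agent.FY.Res.map ψ p) :=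
      spi_le ψ _ _ fun j => ⟨_, mem_spi ψ e j, rfl⟩
    rintro ⟨y, hy⟩
    obtain ⟨x, hx, hxy⟩ := this hy
    exact ⟨⟨x, hx⟩, Subtype.ext hxy⟩
  have hker : Ideal.span {gF} • (⊤ : Submodule A (spi ψ e)) = LinearMap.ker q := by
    ext x
    rw [mem_smul, LinearMap.mem_ker]
    constructor
    · rintro ⟨y, rfl⟩
      refine Subtype.ext ?_
      change p (gF • y).1.val = 0
      rw [smul_val, hg, hp, Submodule.mkQ_apply, Submodule.Quotient.mk_eq_zero, mem_smul]
      exact ⟨_, rfl⟩
    · intro hx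
      have h1 : p x.1.val = 0 := congrArg Subtype.val hx
      have h2 := hK x.1 x.2 h1
      have h3 : spi ψ (fun j => g • e j) ≤ (spi ψ e).map (LinearMap.lsmul A (Res ψ N) gF) := by
        refine spi_le ψ _ _ fun j => ⟨_, mem_spi ψ e j, ?_⟩
        change gF • Pool.Agent.FY.Res.mk ψ (e j) = _
        rw [Pool.Agent.FY.Res.smul_mk, hg]
      obtain ⟨y, hy, hyx⟩ := h3 h2
      exact ⟨⟨y, hy⟩, Subtype.ext hyx.symm⟩
  have e1 : (Qt gF (spi ψ e)) ≃ₗ[A] spi ψ (fun j => p (e j)) :=
    (Submodule.quotEquivOfEq _ _ hker).trans (q.quotKerEquivOfSurjective hqs)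
  rw [χ.iso e1.symm (spi_fin ψ _) hS, h0]

/-- quotients of the ring, one ring -/
private theorem small_one {S : Set A} {E : Type} [AddCommGroup E] (χ : AFS A S E) (hψ : Function.Injective ψ)
    (J : Set A) (J' : Set P) (hJ : ψ '' J = J') (hSJ : S ⊆ J) {m : ℕ} (a : Fin m → P) (ha : ∀ j, a j ∈ J')
    (hK : ∀ x ∈ spi ψ (fun _ : Fin 1 => (1 : P)), (Ideal.span J').mkQ x.val = 0 → x ∈ spi ψ a) :
    χ.f (A ⧸ Ideal.span J) = χ.f (spi ψ fun _ : Fin 1 => (Ideal.span J').mkQ 1) := by
  set p := (Ideal.span J').mkQ with hp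
  have hmem : ∀ b : A, b • Pool.Agent.FY.Res.mk ψ (p 1) ∈ spi ψ fun _ : Fin 1 => p 1 := fun b =>
    Submodule.smul_mem _ _ (mem_spi ψ (fun _ : Fin 1 => p 1) 0)
  set q : A →ₗ[A] spi ψ (fun _ : Fin 1 => p 1) :=
    (LinearMap.toSpanSingleton A (Res ψ (P ⧸ Ideal.span J')) (Pool.Agent.FY.Res.mk ψ (p 1))).codRestrict _ hmem with hq
  have hqs : Function.Surjective q := by
    rintro ⟨y, hy⟩
    have h1 : spi ψ (fun _ : Fin 1 => p 1) ≤
        LinearMap.range (LinearMap.toSpanSingleton A (Res ψ (P ⧸ Ideal.span J')) (Pool.Agent.FY.Res.mk ψ (p 1))) :=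
      spi_le ψ _ _ fun j => ⟨1, by simp⟩
    obtain ⟨b, hb⟩ := h1 hy
    exact ⟨b, Subtype.ext hb⟩
  have hval : ∀ b : A, (q b).1.val = p (ψ b) := by
    intro b
    have h1 : (q b).1 = b • Pool.Agent.FY.Res.mk ψ (p 1) := rfl
    rw [h1, Pool.Agent.FY.Res.smul_mk]
    change ψ b • p 1 = p (ψ b)
    rw [← p.map_smul, smul_eq_mul, mul_one]
  have hker : Ideal.span J = LinearMap.ker q := by
    apply le_antisymm
    · refine Ideal.span_le.2 fun b hb => ?_
      change q b = 0
      refine Subtype.ext ?_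
      have h1 := hval b
      change (q b).1.val = 0
      rw [h1, hp, Submodule.mkQ_apply, Submodule.Quotient.mk_eq_zero]
      exact Ideal.subset_span (hJ ▸ ⟨b, hb, rfl⟩)
    · intro b hb
      have h1 : p (ψ b) = 0 := by
        rw [← hval b]
        exact congrArg Subtype.val (LinearMap.mem_ker.1 hb)
      have h2 : Pool.Agent.FY.Res.mk ψ (ψ b) ∈ spi ψ (fun _ : Fin 1 => (1 : P)) := by
        have h3 : Pool.Agent.FY.Res.mk ψ (ψ b) = b • Pool.Agent.FY.Res.mk ψ (1 : P) := by
          rw [Pool.Agent.FY.Res.smul_mk, smul_eq_mul, mul_one]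
        rw [h3]
        exact Submodule.smul_mem _ _ (mem_spi ψ (fun _ : Fin 1 => (1 : P)) 0)
      have h4 := hK _ h2 h1
      let jj : A →ₗ[A] Res ψ P := LinearMap.toSpanSingleton A (Res ψ P) (Pool.Agent.FY.Res.mk ψ (1 : P))
      have hjj : ∀ c, jj c = Pool.Agent.FY.Res.mk ψ (ψ c) := fun c => by
        change c • Pool.Agent.FY.Res.mk ψ (1 : P) = _
        rw [Pool.Agent.FY.Res.smul_mk, smul_eq_mul, mul_one]
      have h5 : spi ψ a ≤ Submodule.map jj (Ideal.span J) := by
        refine spi_le ψ _ _ fun j => ?_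
        have h6 := ha j
        rw [← hJ] at h6
        obtain ⟨c, hc, hcj⟩ := h6
        exact ⟨c, Ideal.subset_span hc, by rw [hjj, hcj]⟩
      obtain ⟨c, hc, hcb⟩ := h5 h4
      rw [hjj] at hcb
      have h7 : ψ c = ψ b := hcb
      rw [← hψ h7]
      exact hc
  have e1 : (A ⧸ Ideal.span J) ≃ₗ[A] spi ψ (fun _ : Fin 1 => p 1) :=
    (Submodule.quotEquivOfEq _ _ hker).trans (q.quotKerEquivOfSurjective hqs)
  refine χ.iso e1 inferInstance ?_
  intro s hs x
  obtain ⟨y, rfl⟩ := Ideal.Quotient.mk_surjective x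
  rw [← Ideal.Quotient.mk_eq_mk, ← Submodule.Quotient.mk_smul, Submodule.Quotient.mk_eq_zero, smul_eq_mul]
  exact Ideal.mul_mem_right _ _ (Ideal.subset_span (hSJ hs))

end one

private theorem j_form (k K : Type) [Field k] [Field K] [Algebra k K] (f : MvPolynomial (Fin 5) k) (F : Fs k K) (l : Fin 3) :
    jE F.1 K (Gr.form (map (algebraMap k F.1) f) l) = Gr.form (map (algebraMap k K) f) l := by
  rw [form_eq, form_eq, map_formR, map_map, ← IsScalarTower.algebraMap_eq]

end DLq_aux

open DLq_aux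

theorem tDLq : S_DLa → S_DLq := by
  intro hDLa k K _ _ _ f E _ χi χ hsys hQF hrel
  obtain ⟨hD1, hD2⟩ := hDLa (Gr.Pol K) (Fs k K) (fun F => Gr.Pol F.1) (fun F => jE F.1 K) hsys inferInstance
  haveI : Nonempty (Fs k K) := hsys.ne
  haveI : IsDirectedOrder (Fs k K) := ⟨fun a b => hsys.dir a b⟩
  have hkf : ∀ (F : Fs k K) (M : Type) [AddCommGroup M] [Module (Gr.Pol K) M], KS (Set.range (Gr.form (map (algebraMap k K) f))) M →
      ∀ (n : ℕ) (e : Fin n → M), KS (Set.range (Gr.form (map (algebraMap k F.1) f))) (spi (jE F.1 K) e) := by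
    intro F M _ _ hk n e
    rintro _ ⟨i, rfl⟩ x
    refine Subtype.ext ?_
    change (Gr.form (map (algebraMap k F.1) f) i • x).1.val = 0
    rw [smul_val, j_form]
    exact hk _ ⟨i, rfl⟩ _
  refine ⟨?_, ?_, ?_⟩
  · intro l N _ _ hfin hoth hreg
    obtain ⟨n, e, he⟩ := Module.Finite.exists_fin (R := Gr.Pol K) (M := N)
    set g := Gr.form (map (algebraMap k K) f) l with hg
    have hk : KS (Set.range (Gr.form (map (algebraMap k K) f))) (Qt g N) := by
      rintro _ ⟨i, rfl⟩ x
      obtain ⟨y, rfl⟩ := Submodule.mkQ_surjective _ x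
      by_cases hi : i = l
      · subst hi
        rw [← LinearMap.map_smul, Submodule.mkQ_apply, Submodule.Quotient.mk_eq_zero, mem_smul]
        exact ⟨y, rfl⟩
      · rw [← LinearMap.map_smul, hoth i hi, map_zero]
    have hspan : Submodule.span (Gr.Pol K) (Set.range fun j => (Ideal.span {g} • (⊤ : Submodule (Gr.Pol K) N)).mkQ (e j)) = ⊤ := by
      have h1 : (Set.range fun j => (Ideal.span {g} • (⊤ : Submodule (Gr.Pol K) N)).mkQ (e j)) =
          (Ideal.span {g} • (⊤ : Submodule (Gr.Pol K) N)).mkQ '' Set.range e := by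
        rw [← Set.range_comp]
        rfl
      rw [h1, ← Submodule.map_span, he, Submodule.map_top, Submodule.range_mkQ]
    rw [hrel (Qt g N) inferInstance hk n _ hspan]
    obtain ⟨i₀, hi₀⟩ := hD2 N (Qt g N) (Ideal.span {g} • (⊤ : Submodule (Gr.Pol K) N)).mkQ n n e (fun j => g • e j) (by
      intro x hx
      rw [Submodule.mkQ_apply, Submodule.Quotient.mk_eq_zero, mem_smul] at hx
      obtain ⟨y, rfl⟩ := hx
      have h1 : y ∈ Submodule.span (Gr.Pol K) (Set.range e) := by rw [he]; trivial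
      have h2 : g • y ∈ (Submodule.span (Gr.Pol K) (Set.range e)).map (LinearMap.lsmul (Gr.Pol K) N g) := ⟨y, h1, rfl⟩
      rw [Submodule.map_span, ← Set.range_comp] at h2
      exact h2)
    have h0 : (0 : Filter.Germ (Filter.atTop : Filter (Fs k K)) E) =
        ((fun _ => (0 : E) : Fs k K → E) : Filter.Germ (Filter.atTop : Filter (Fs k K)) E) := rfl
    rw [h0]
    refine Filter.Germ.coe_eq.2 ?_
    filter_upwards [Filter.eventually_ge_atTop i₀] with F hF
    refine perf_one (jE F.1 K) (χi F) (Gr.form (map (algebraMap k F.1) f) l) g (j_form k K f F l) e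
      (fun x hx hx0 => hi₀ F hF x hx hx0) (hkf F (Qt g N) hk n _) ?_
    refine (hQF F).perf l (spi (jE F.1 K) e) (spi_fin _ e) ?_ ?_
    · intro i hi x
      refine Subtype.ext ?_
      change (Gr.form (map (algebraMap k F.1) f) i • x).1.val = 0
      rw [smul_val, j_form]
      exact hoth i hi _
    · intro x hx
      refine Subtype.ext ?_
      have h1 : (Gr.form (map (algebraMap k F.1) f) l • x).1.val = 0 := by rw [hx]; rfl
      rw [smul_val, j_form] at h1
      exact hreg _ h1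
  · intro M _ _ hfin hk hX
    obtain ⟨i, m, hX⟩ := hX
    obtain ⟨n, e, he⟩ := Module.Finite.exists_fin (R := Gr.Pol K) (M := M)
    rw [hrel M hfin hk n e he]
    have h0 : (0 : Filter.Germ (Filter.atTop : Filter (Fs k K)) E) =
        ((fun _ => (0 : E) : Fs k K → E) : Filter.Germ (Filter.atTop : Filter (Fs k K)) E) := rfl
    rw [h0]
    refine Filter.Germ.coe_eq.2 (Filter.Eventually.of_forall fun F => ?_)
    refine (hQF F).tors (spi (jE F.1 K) e) (spi_fin _ e) (hkf F M hk n e) ⟨i, m, fun x => ?_⟩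
    refine Subtype.ext ?_
    change ((X (i, 3) : Gr.Pol F.1) ^ m • x).1.val = 0
    rw [smul_val, map_pow, map_X]
    exact hX _
  · intro h
    have hk : KS (Set.range (Gr.form (map (algebraMap k K) f))) (Gr.Pol K ⧸ Ideal.span (Gr.smallGens (map (algebraMap k K) f))) := by
      intro s hs x
      obtain ⟨y, rfl⟩ := Ideal.Quotient.mk_surjective x
      rw [← Ideal.Quotient.mk_eq_mk, ← Submodule.Quotient.mk_smul, Submodule.Quotient.mk_eq_zero, smul_eq_mul]
      exact Ideal.mul_mem_right _ _ (Ideal.subset_span (Or.inr hs))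
    have hspan : Submodule.span (Gr.Pol K)
        (Set.range fun _ : Fin 1 => (Ideal.span (Gr.smallGens (map (algebraMap k K) f))).mkQ 1) = ⊤ := by
      refine eq_top_iff.2 fun x _ => ?_
      obtain ⟨y, rfl⟩ := Submodule.mkQ_surjective _ x
      have h1 : (Ideal.span (Gr.smallGens (map (algebraMap k K) f))).mkQ y =
          y • (Ideal.span (Gr.smallGens (map (algebraMap k K) f))).mkQ 1 := by
        rw [← LinearMap.map_smul, smul_eq_mul, mul_one]
      rw [h1]
      exact Submodule.smul_mem _ _ (Submodule.subset_span ⟨0, rfl⟩)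
    rw [hrel _ inferInstance hk 1 _ hspan] at h
    have h0 : (0 : Filter.Germ (Filter.atTop : Filter (Fs k K)) E) =
        ((fun _ => (0 : E) : Fs k K → E) : Filter.Germ (Filter.atTop : Filter (Fs k K)) E) := rfl
    rw [h0] at h
    have h1 := Filter.Germ.coe_eq.1 h
    have hfinJ : (smR (map (algebraMap k K) f)).Finite := smR_finite _
    obtain ⟨m, a, ha⟩ : ∃ (m : ℕ) (a : Fin m → Gr.Pol K), Set.range a = smR (map (algebraMap k K) f) := by
      obtain ⟨m, a, -, ha⟩ := hfinJ.fin_param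
      exact ⟨m, a, ha⟩
    obtain ⟨i₀, hi₀⟩ := hD2 (Gr.Pol K) (Gr.Pol K ⧸ Ideal.span (Gr.smallGens (map (algebraMap k K) f)))
      (Ideal.span (Gr.smallGens (map (algebraMap k K) f))).mkQ 1 m (fun _ => 1) a (by
        intro x hx
        rw [Submodule.mkQ_apply, Submodule.Quotient.mk_eq_zero, smallGens_eq, ← ha] at hx
        exact hx)
    obtain ⟨F, hF1, hF2⟩ := (h1.and (Filter.eventually_ge_atTop i₀)).exists
    refine (hQF F).small ?_
    have hmap : jE F.1 K '' Gr.smallGens (map (algebraMap k F.1) f) = Gr.smallGens (map (algebraMap k K) f) := by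
      rw [smallGens_eq, smallGens_eq, map_smR, map_map, ← IsScalarTower.algebraMap_eq]
    rw [small_one (jE F.1 K) (χi F) (map_injective _ (algebraMap F.1 K).injective) (Gr.smallGens (map (algebraMap k F.1) f))
      (Gr.smallGens (map (algebraMap k K) f)) hmap (fun s hs => Or.inr hs) a
      (fun j => by rw [smallGens_eq, ← ha]; exact ⟨j, rfl⟩) (fun x hx hx0 => hi₀ F hF2 x hx hx0)]
    exact hF1

end Pool.Agent.QV
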