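import Pool.Agent.Lib.MP_b53bfe_ag.Q.SpecD

/-!
# Disproof of Q1 of MP_b53bfe_ag for quintic threefolds, phase 2: module DerG

Derivations of a field of characteristic `0` dual to a finite algebraically independent family. With a
transcendence basis that contains the `p i`, the subring it generates has `K` as a formally smooth
algebra, and the derivations are read off from lifts of the identity of `K` to the dual numbers.
-/

set_option autoImplicit false

noncomputable section

namespace Pool.Agent.QV

open MvPolynomial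
open Pool.Agent.FY (Res)

namespace DerG_aux

/-- Lifts along a surjective ring homomorphism with nilpotent kernel. -/
lemma lift_aux {A L E : Type} [CommRing A] [CommRing L] [CommRing E] [Algebra A L]
    [Algebra.FormallySmooth A L] (φ : A →+* E) (π : E →+* L) (h : ∀ a, π (φ a) = algebraMap A L a)
    (hs : Function.Surjective π) (hk : IsNilpotent (RingHom.ker π)) :
    ∃ s : L →+* E, (∀ x, π (s x) = x) ∧ ∀ a, s (algebraMap A L a) = φ a := by
  let _ : Algebra A E := φ.toAlgebra
  let g : E →ₐ[A] L := { π with commutes' := fun a => h a }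
  have hs' : Function.Surjective g := hs
  have hk' : IsNilpotent (RingHom.ker (g : E →+* L)) := hk
  let s := Algebra.FormallySmooth.liftOfSurjective (AlgHom.id A L) g hs' hk'
  refine ⟨(s : L →+* E), fun x => ?_, fun a => ?_⟩
  · exact Algebra.FormallySmooth.liftOfSurjective_apply (AlgHom.id A L) g hs' hk' x
  · exact s.commutes a

section

variable {K : Type} [Field K]

/-- A section of the dual numbers is a derivation. -/
lemma der_of_section (s : K →+* TrivSqZeroExt K K) (h : ∀ x, (s x).fst = x) :
    ∃ D : Derivation ℤ K K, ∀ x, D x = (s x).snd := by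
  let f : K →+ K := ⟨⟨fun x => (s x).snd, by simp⟩, fun x y => by simp⟩
  refine ⟨Derivation.mk' (AddMonoidHom.toIntLinearMap f) (fun a b => ?_), fun x => rfl⟩
  show (s (a * b)).snd = a • (s b).snd + b • (s a).snd
  rw [map_mul, TrivSqZeroExt.snd_mul, h, h]
  simp [mul_comm]

lemma ker_fst : IsNilpotent (RingHom.ker ((TrivSqZeroExt.fstHom K K K : TrivSqZeroExt K K →ₐ[K] K) :
    TrivSqZeroExt K K →+* K)) :=
  ⟨2, TrivSqZeroExt.kerIdeal_sq K K⟩

variable [CharZero K]

open scoped IntermediateField.algebraAdjoinAdjoin in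
/-- `K` is formally smooth over the subring that is generated by a transcendence basis. -/
lemma smooth_aux {ι : Type} {v : ι → K} (hv : IsTranscendenceBasis ℚ v) :
    Algebra.FormallySmooth (Algebra.adjoin ℚ (Set.range v)) K := by
  have h1 : Algebra.FormallyEtale (Algebra.adjoin ℚ (Set.range v))
      (IntermediateField.adjoin ℚ (Set.range v)) :=
    Algebra.FormallyEtale.of_isLocalization (nonZeroDivisors _)
  have h0 : Algebra.IsAlgebraic (IntermediateField.adjoin ℚ (Set.range v)) K :=
    hv.isAlgebraic_field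
  have h2 : Algebra.FormallyEtale (IntermediateField.adjoin ℚ (Set.range v)) K :=
    Algebra.FormallyEtale.of_isSeparable _ K
  have h3 : Algebra.FormallyEtale (Algebra.adjoin ℚ (Set.range v)) K :=
    Algebra.FormallyEtale.comp _ (IntermediateField.adjoin ℚ (Set.range v)) _
  infer_instance

/-- A transcendence basis has derivations with any values. -/
lemma der_of_basis {ι : Type} {v : ι → K} (hv : IsTranscendenceBasis ℚ v) (δ : ι → K) :
    ∃ D : Derivation ℤ K K, ∀ i, D (v i) = δ i := by
  have := smooth_aux hv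
  let ψ : MvPolynomial ι ℚ →ₐ[ℚ] TrivSqZeroExt K K :=
    aeval fun i => (TrivSqZeroExt.inl (v i) + TrivSqZeroExt.inr (δ i) : TrivSqZeroExt K K)
  let φ : Algebra.adjoin ℚ (Set.range v) →ₐ[ℚ] TrivSqZeroExt K K :=
    ψ.comp hv.1.aevalEquiv.symm.toAlgHom
  have hφ : ∀ q, φ (hv.1.aevalEquiv q) = ψ q := fun q => by simp [φ]
  have h1 : ∀ q : MvPolynomial ι ℚ, (ψ q).fst = aeval v q := by
    intro q
    have : (TrivSqZeroExt.fstHom ℚ K K).comp ψ = aeval v := by
      ext i
      simp [ψ]
    exact DFunLike.congr_fun this q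
  have h2 : ∀ a, (φ a).fst = algebraMap (Algebra.adjoin ℚ (Set.range v)) K a := by
    intro a
    obtain ⟨q, rfl⟩ := hv.1.aevalEquiv.surjective a
    rw [hφ, h1, hv.1.algebraMap_aevalEquiv]
  obtain ⟨s, hs1, hs2⟩ := lift_aux (φ : Algebra.adjoin ℚ (Set.range v) →+* TrivSqZeroExt K K)
    ((TrivSqZeroExt.fstHom K K K : TrivSqZeroExt K K →ₐ[K] K) : TrivSqZeroExt K K →+* K)
    h2 (fun x => ⟨TrivSqZeroExt.inl x, by simp⟩) ker_fst
  obtain ⟨D, hD⟩ := der_of_section s hs1
  refine ⟨D, fun i => ?_⟩
  have h3 : algebraMap (Algebra.adjoin ℚ (Set.range v)) K (hv.1.aevalEquiv (X i)) = v i := by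
    rw [hv.1.algebraMap_aevalEquiv, aeval_X]
  have h4 := hs2 (hv.1.aevalEquiv (X i))
  rw [h3] at h4
  rw [hD, h4]
  show (φ (hv.1.aevalEquiv (X i))).snd = δ i
  rw [hφ]
  simp [ψ]

end

end DerG_aux

theorem tDerG : S_DerG := by
  intro K _ _ ι _ _ p hp
  have h0 : AlgebraicIndepOn ℚ id (Set.range p) := AlgebraicIndependent.to_subtype_range hp
  obtain ⟨t, ht, hb⟩ := exists_isTranscendenceBasis_superset h0
  have h : ∀ i : ι, ∃ D : Derivation ℤ K K, ∀ j, D (p j) = if i = j then 1 else 0 := by
    intro i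
    classical
    obtain ⟨D, hD⟩ := DerG_aux.der_of_basis hb (fun b => if p i = b then 1 else 0)
    refine ⟨D, fun j => ?_⟩
    have h1 := hD ⟨p j, ht ⟨j, rfl⟩⟩
    rw [show D (p j) = if p i = p j then 1 else 0 from h1]
    simp [(AlgebraicIndependent.injective hp).eq_iff]
  choose D hD using h
  exact ⟨D, hD⟩

end Pool.Agent.QV
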