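import Pool.Agent.Lib.MP_b53bfe_ag.Q.SpecD

/-!
# Devissage: `χ (N / f N) = χ (ker f)`
-/

set_option autoImplicit false

noncomputable section

namespace Pool.Agent.QV

open MvPolynomial
open Pool.Agent.FY (Res)

namespace Dev_aux

section

variable {R : Type} [CommRing R] {S : Set R} {V : Type} [AddCommGroup V]

theorem ks_sub {M : Type} [AddCommGroup M] [Module R M] (hk : KS S M) (N : Submodule R M) : KS S N := by
  intro s hs m
  exact Subtype.ext (hk s hs m.1)

theorem ks_quot {M : Type} [AddCommGroup M] [Module R M] (hk : KS S M) (N : Submodule R M) : KS S (M ⧸ N) := by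
  intro s hs m
  obtain ⟨x, rfl⟩ := Submodule.mkQ_surjective N m
  rw [← map_smul, hk s hs x, map_zero]

/-- modules killed by a power of `t` -/
theorem pow_kill [IsNoetherianRing R] (σ : AFS R S V) (t : R)
    (h0 : ∀ (M : Type) [AddCommGroup M] [Module R M], Module.Finite R M → KS S M → (∀ m : M, t • m = 0) → σ.f M = 0)
    (k : ℕ) : ∀ (M : Type) [AddCommGroup M] [Module R M], Module.Finite R M → KS S M →
      (∀ m : M, t ^ k • m = 0) → σ.f M = 0 := by
  induction k with
  | zero =>
    intro M _ _ hM hk h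
    refine h0 M hM hk ?_
    intro m
    have h2 := h m
    rw [pow_zero, one_smul] at h2
    rw [h2, smul_zero]
  | succ k ih =>
    intro M _ _ hM hk h
    haveI : IsNoetherian R M := isNoetherian_of_isNoetherianRing_of_finite R M
    rw [σ.sub hM hk (LinearMap.ker (LinearMap.lsmul R M t)), h0 _ inferInstance (ks_sub hk _) ?_,
      ih _ inferInstance (ks_quot hk _) ?_, add_zero]
    · intro m
      obtain ⟨x, rfl⟩ := Submodule.mkQ_surjective _ m
      rw [← map_smul, Submodule.mkQ_apply, Submodule.Quotient.mk_eq_zero, LinearMap.mem_ker,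
        LinearMap.lsmul_apply, smul_smul, ← pow_succ']
      exact h x
    · intro m
      exact Subtype.ext m.2

/-- devissage -/
theorem dev_gen [IsNoetherianRing R] (σ : AFS R S V) (t : R)
    (h0 : ∀ (M : Type) [AddCommGroup M] [Module R M], Module.Finite R M → KS S M → (∀ m : M, t • m = 0) → σ.f M = 0)
    (h1 : ∀ (M : Type) [AddCommGroup M] [Module R M], Module.Finite R M → KS S M → Reg t M → σ.f M = 0)
    (M : Type) [AddCommGroup M] [Module R M] (hM : Module.Finite R M) (hk : KS S M) : σ.f M = 0 := by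
  haveI : IsNoetherian R M := isNoetherian_of_isNoetherianRing_of_finite R M
  obtain ⟨k, hK⟩ := (monotone_stabilizes_iff_noetherian (R := R) (M := M)).mpr inferInstance
    ⟨fun k : ℕ => LinearMap.ker (LinearMap.lsmul R M (t ^ k)), by
      refine monotone_nat_of_le_succ ?_
      intro k x hx
      rw [LinearMap.mem_ker, LinearMap.lsmul_apply] at hx ⊢
      rw [pow_succ', mul_smul, hx, smul_zero]⟩
  have hk1 : LinearMap.ker (LinearMap.lsmul R M (t ^ k)) = LinearMap.ker (LinearMap.lsmul R M (t ^ (k + 1))) :=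
    hK (k + 1) (Nat.le_succ k)
  rw [σ.sub hM hk (LinearMap.ker (LinearMap.lsmul R M (t ^ k))),
    pow_kill σ t h0 k _ inferInstance (ks_sub hk _) (fun m => Subtype.ext m.2),
    h1 _ inferInstance (ks_quot hk _) ?_, add_zero]
  intro m
  obtain ⟨x, rfl⟩ := Submodule.mkQ_surjective _ m
  intro hx
  rw [← map_smul, Submodule.mkQ_apply, Submodule.Quotient.mk_eq_zero, LinearMap.mem_ker,
    LinearMap.lsmul_apply, smul_smul, ← pow_succ] at hx
  rw [Submodule.mkQ_apply, Submodule.Quotient.mk_eq_zero, hk1]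
  exact hx

/-- restriction by the identity -/
def eid (M : Type) [AddCommGroup M] [Module R M] : M ≃ₗ[R] Res (RingHom.id R) M where
  toFun m := Res.mk (RingHom.id R) m
  map_add' _ _ := rfl
  map_smul' _ _ := rfl
  invFun m := m.val
  left_inv _ := rfl
  right_inv _ := rfl

/-- killed modules -/
def eqt (t : R) (M : Type) [AddCommGroup M] [Module R M] (h : ∀ m : M, t • m = 0) : Qt t M ≃ₗ[R] M :=
  (Submodule.quotEquivOfEqBot _ (by
    rw [eq_bot_iff, Submodule.smul_le]
    intro r hr m _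
    obtain ⟨a, rfl⟩ := Ideal.mem_span_singleton'.mp hr
    rw [Submodule.mem_bot, mul_smul, h, smul_zero]))

/-- killed modules -/
def ekr (t : R) (M : Type) [AddCommGroup M] [Module R M] (h : ∀ m : M, t • m = 0) : Kr t M ≃ₗ[R] M :=
  (LinearEquiv.ofEq _ _ (by
    rw [eq_top_iff]
    intro m _
    exact h m)).trans Submodule.topEquiv

end

end Dev_aux

open Dev_aux in
theorem tDev : S_KZ → S_Dev := by
  intro hKZ K _ f E _ χ hχ l
  have hnoe : IsNoetherianRing (Gr.Pol K) := inferInstance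
  obtain ⟨σ, hσ⟩ := hKZ (Gr.Pol K) (Gr.Pol K) (RingHom.id _) (Gr.form f l) (Set.range (Gr.form f))
    {r | ∃ i, i ≠ l ∧ r = Gr.form f i} E χ inferInstance (fun a => ⟨a, 0, by simp⟩) (by
      rintro _ ⟨i, rfl⟩
      by_cases h : i = l
      · exact ⟨0, Ideal.zero_mem _, 1, by simp [h]⟩
      · exact ⟨Gr.form f i, Ideal.subset_span ⟨i, h, rfl⟩, 0, by simp⟩)
  have hks : ∀ (M : Type) [AddCommGroup M] [Module (Gr.Pol K) M],
      KS {r | ∃ i, i ≠ l ∧ r = Gr.form f i} M → (∀ m : M, Gr.form f l • m = 0) →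
      KS (Set.range (Gr.form f)) M := by
    intro M _ _ h1 h2
    rintro _ ⟨i, rfl⟩ m
    by_cases h : i = l
    · rw [h]; exact h2 m
    · exact h1 _ ⟨i, h, rfl⟩ m
  have hq : ∀ (M : Type) [AddCommGroup M] [Module (Gr.Pol K) M], Module.Finite (Gr.Pol K) M →
      KS {r | ∃ i, i ≠ l ∧ r = Gr.form f i} M →
      σ.f M = χ.f (Qt (Gr.form f l) M) - χ.f (Kr (Gr.form f l) M) := by
    intro M _ _ hM hk
    haveI : IsNoetherian (Gr.Pol K) M := isNoetherian_of_isNoetherianRing_of_finite _ M
    have e1 : χ.f (Qt (Gr.form f l) M) = χ.f (Res (RingHom.id (Gr.Pol K)) (Qt (Gr.form f l) M)) := by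
      refine χ.iso (eid _) inferInstance (hks _ (ks_quot hk _) ?_)
      intro m
      obtain ⟨x, rfl⟩ := Submodule.mkQ_surjective _ m
      rw [← map_smul, Submodule.mkQ_apply, Submodule.Quotient.mk_eq_zero]
      exact Submodule.smul_mem_smul (Ideal.mem_span_singleton_self _) Submodule.mem_top
    have e2 : χ.f (Kr (Gr.form f l) M) = χ.f (Res (RingHom.id (Gr.Pol K)) (Kr (Gr.form f l) M)) :=
      χ.iso (eid _) inferInstance (hks _ (ks_sub hk _) (fun m => Subtype.ext m.2))
    rw [hσ M, e1, e2]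
  have hz : ∀ (M : Type) [AddCommGroup M] [Module (Gr.Pol K) M], Module.Finite (Gr.Pol K) M →
      KS {r | ∃ i, i ≠ l ∧ r = Gr.form f i} M → σ.f M = 0 := by
    intro M _ _ hM hk
    refine dev_gen σ (Gr.form f l) ?_ ?_ M hM hk
    · intro M _ _ hM hk h
      haveI : IsNoetherian (Gr.Pol K) M := isNoetherian_of_isNoetherianRing_of_finite _ M
      have hkM := hks M hk h
      rw [hq M hM hk, ← χ.iso (eqt (Gr.form f l) M h).symm hM hkM,
        ← χ.iso (ekr (Gr.form f l) M h).symm hM hkM, sub_self]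
    · intro M _ _ hM hk h
      rw [hq M hM hk, hχ.perf l M hM (fun i hi m => hk _ ⟨i, hi, rfl⟩ m) h, χ.subsing ?_, sub_zero]
      refine ⟨fun a b => ?_⟩
      have ha : (a : M) = 0 := h a.1 a.2
      have hb : (b : M) = 0 := h b.1 b.2
      exact Subtype.ext (ha.trans hb.symm)
  intro N _ _ hN hk
  have hkN : KS {r | ∃ i, i ≠ l ∧ r = Gr.form f i} N := by
    rintro _ ⟨i, hi, rfl⟩ m
    exact hk i hi m
  have h1 := hq N hN hkN
  rw [hz N hN hkN] at h1
  exact (sub_eq_zero.mp h1.symm)

end Pool.Agent.QV
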