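import Pool.Agent.Lib.MP_b53bfe_ag.Q.SpecD

/-!
# Disproof of Q1 of MP_b53bfe_ag for quintic threefolds, phase 2: module `Gen`, the general quintic
-/

set_option autoImplicit false

noncomputable section

namespace Pool.Agent.QV

open MvPolynomial
open Pool.Agent.FY (Res)

namespace Gen_aux

variable (f₀ f : MvPolynomial (Fin 5) ℂ)

/-- the form over `ℂ[[t]]` -/
def FF : MvPolynomial (Fin 5) (PowerSeries ℂ) :=
  map (PowerSeries.C (R := ℂ)) f₀ + C PowerSeries.X * map (PowerSeries.C (R := ℂ)) (f - f₀)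

theorem FF_hom (h₀ : f₀.IsHomogeneous 5) (h : f.IsHomogeneous 5) : (FF f₀ f).IsHomogeneous 5 := by
  have h1 : (map (PowerSeries.C (R := ℂ)) f₀).IsHomogeneous 5 := h₀.map _
  have h2 : (map (PowerSeries.C (R := ℂ)) (f - f₀)).IsHomogeneous 5 := (h.sub h₀).map _
  have h3 := (isHomogeneous_C (Fin 5) (PowerSeries.X : PowerSeries ℂ)).mul h2
  rw [zero_add] at h3
  exact h1.add h3

theorem FF_f0 : f0 (FF f₀ f) = f₀ := by
  have hc : (PowerSeries.constantCoeff (R := ℂ)).comp (PowerSeries.C (R := ℂ)) = RingHom.id ℂ := by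
    ext x
    simp
  have h1 : ∀ g : MvPolynomial (Fin 5) ℂ,
      map (PowerSeries.constantCoeff (R := ℂ)) (map (PowerSeries.C (R := ℂ)) g) = g := by
    intro g
    rw [map_map, hc, map_id]
  unfold f0 FF
  rw [map_add, map_mul, h1, h1, map_C, PowerSeries.constantCoeff_X, C_0, zero_mul, add_zero]

/-- the coefficients in `ℂ[t]` -/
def qq (m : Mo5) : Polynomial ℂ :=
  Polynomial.C (coeff m.1 f₀) + Polynomial.X * Polynomial.C (coeff m.1 f - coeff m.1 f₀)

/-- `ℂ[t] → ℂ((t)) → K` -/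
def th (K : Type) [Field K] [Algebra (LaurentSeries ℂ) K] : Polynomial ℂ →+* K :=
  (algebraMap (LaurentSeries ℂ) K).comp ((algebraMap (PowerSeries ℂ) (LaurentSeries ℂ)).comp
    (Polynomial.coeToPowerSeries.ringHom (R := ℂ)))

theorem th_inj (K : Type) [Field K] [Algebra (LaurentSeries ℂ) K] : Function.Injective (th K) := by
  intro a b h
  have h1 := (algebraMap (LaurentSeries ℂ) K).injective h
  have h2 := IsFractionRing.injective (PowerSeries ℂ) (LaurentSeries ℂ) h1
  exact Polynomial.coe_injective ℂ h2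

theorem th_coeff (K : Type) [Field K] [Algebra (LaurentSeries ℂ) K] (m : Mo5) :
    coeff m.1 (map (algebraMap (LaurentSeries ℂ) K) (fL (FF f₀ f))) = th K (qq f₀ f m) := by
  unfold fL FF th qq
  rw [coeff_map, coeff_map, coeff_add, coeff_C_mul, coeff_map, coeff_map, coeff_sub, RingHom.comp_apply,
    RingHom.comp_apply]
  simp

theorem eval_qq (m : Mo5) : Polynomial.eval 1 (qq f₀ f m) = coeff m.1 f := by
  unfold qq
  simp

theorem aind (K : Type) [Field K] [CharZero K] [Algebra (LaurentSeries ℂ) K]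
    (h : AlgebraicIndependent ℚ (fun m : Mo5 => coeff m.1 f)) :
    AlgebraicIndependent ℚ (fun m : Mo5 => coeff m.1 (map (algebraMap (LaurentSeries ℂ) K) (fL (FF f₀ f)))) := by
  rw [algebraicIndependent_iff] at h ⊢
  intro P hP
  have e : (fun m : Mo5 => coeff m.1 (map (algebraMap (LaurentSeries ℂ) K) (fL (FF f₀ f)))) =
      fun m => (th K).toRatAlgHom (qq f₀ f m) := by
    funext m
    exact th_coeff f₀ f K m
  rw [e, ← comp_aeval_apply] at hP
  have h0 : aeval (qq f₀ f) P = 0 := by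
    apply th_inj K
    rw [map_zero]
    exact hP
  refine h P ?_
  have e2 : (fun m : Mo5 => coeff m.1 f) =
      fun m => (Polynomial.evalRingHom (1 : ℂ)).toRatAlgHom (qq f₀ f m) := by
    funext m
    exact (eval_qq f₀ f m).symm
  rw [e2, ← comp_aeval_apply, h0, map_zero]

end Gen_aux

/-- `HQ` for all quintic forms with algebraically independent coefficients. -/
theorem tGen : S_SL → S_DL → S_TR → S_Iso → S_Crd → S_Gen := by
  intro hSL hDL hTR hIso hCrd f₀ hf₀ hne hq f hf
  have h1 : HQ (LaurentSeries ℂ) (fL (Gen_aux.FF f₀ f)) := by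
    refine hSL ℂ (Gen_aux.FF f₀ f) (Gen_aux.FF_hom f₀ f hf₀ hf.1) ?_ ?_
    · rw [Gen_aux.FF_f0]
      exact hne
    · rw [Gen_aux.FF_f0]
      exact hq
  have h2 := hDL (LaurentSeries ℂ) (AlgebraicClosure (LaurentSeries ℂ)) inferInstance _ h1
  have : CharZero (AlgebraicClosure (LaurentSeries ℂ)) := hCrd.1
  obtain ⟨e, he⟩ := hIso (AlgebraicClosure (LaurentSeries ℂ)) ℂ hCrd.2 Cardinal.mk_complex Mo5 _ _
    (Gen_aux.aind f₀ f (AlgebraicClosure (LaurentSeries ℂ)) hf.2) hf.2
  have h3 := hTR (AlgebraicClosure (LaurentSeries ℂ)) ℂ e _ h2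
  have h4 : map e.toRingHom (map (algebraMap (LaurentSeries ℂ) (AlgebraicClosure (LaurentSeries ℂ)))
      (fL (Gen_aux.FF f₀ f))) = f := by
    ext m
    by_cases hm : m.degree = 5
    · rw [coeff_map]
      exact he ⟨m, hm⟩
    · have hh : (map e.toRingHom (map (algebraMap (LaurentSeries ℂ) (AlgebraicClosure (LaurentSeries ℂ)))
          (fL (Gen_aux.FF f₀ f)))).IsHomogeneous 5 :=
        (((Gen_aux.FF_hom f₀ f hf₀ hf.1).map _).map _).map _
      rw [hh.coeff_eq_zero hm, hf.1.coeff_eq_zero hm]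
  rw [h4] at h3
  exact h3

end Pool.Agent.QV
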