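import Pool.Agent.Lib.MP_b53bfe_ag.Q.SpecD

/-! # Isomorphisms of algebraically closed fields with prescribed values -/

set_option autoImplicit false

noncomputable section

namespace Pool.Agent.QV

open MvPolynomial
open Pool.Agent.FY (Res)

namespace Iso_aux

open Cardinal

/-- a field isomorphism which extends a bijection of transcendence bases -/
theorem exIso {K L : Type} [Field K] [Field L] [CharZero K] [CharZero L] [IsAlgClosed K] [IsAlgClosed L]
    {s : Set K} {t : Set L} (hs : IsTranscendenceBasis ℚ ((↑) : s → K)) (ht : IsTranscendenceBasis ℚ ((↑) : t → L))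
    (e : s ≃ t) : ∃ E : K ≃+* L, ∀ x : s, E (x : K) = (e x : L) := by
  letI := IsAlgClosed.isAlgClosure_of_transcendence_basis ((↑) : s → K) hs
  letI := IsAlgClosed.isAlgClosure_of_transcendence_basis ((↑) : t → L) ht
  let e1 : Algebra.adjoin ℚ (Set.range ((↑) : s → K)) ≃+* Algebra.adjoin ℚ (Set.range ((↑) : t → L)) :=
    (hs.1.aevalEquiv.symm.toRingEquiv.trans (MvPolynomial.renameEquiv ℚ e).toRingEquiv).trans
      ht.1.aevalEquiv.toRingEquiv
  refine ⟨IsAlgClosure.equivOfEquiv K L e1, fun x => ?_⟩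
  have h1 : algebraMap (Algebra.adjoin ℚ (Set.range ((↑) : s → K))) K (hs.1.aevalEquiv (X x)) = (x : K) := by
    rw [AlgebraicIndependent.algebraMap_aevalEquiv, aeval_X]
  have h2 : e1 (hs.1.aevalEquiv (X x)) = ht.1.aevalEquiv (X (e x)) := by
    show ht.1.aevalEquiv (MvPolynomial.renameEquiv ℚ e (hs.1.aevalEquiv.symm (hs.1.aevalEquiv (X x)))) = _
    rw [AlgEquiv.symm_apply_apply, MvPolynomial.renameEquiv_apply, MvPolynomial.rename_X]
  calc IsAlgClosure.equivOfEquiv K L e1 (x : K)
      = IsAlgClosure.equivOfEquiv K L e1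
          (algebraMap (Algebra.adjoin ℚ (Set.range ((↑) : s → K))) K (hs.1.aevalEquiv (X x))) := by rw [h1]
    _ = algebraMap (Algebra.adjoin ℚ (Set.range ((↑) : t → L))) L (e1 (hs.1.aevalEquiv (X x))) :=
        IsAlgClosure.equivOfEquiv_algebraMap K L e1 _
    _ = (e x : L) := by rw [h2, AlgebraicIndependent.algebraMap_aevalEquiv, aeval_X]

theorem cardBasis {K : Type} [Field K] [CharZero K] [IsAlgClosed K] (hK : #K = Cardinal.continuum) {s : Set K}
    (hs : IsTranscendenceBasis ℚ ((↑) : s → K)) : #s = Cardinal.continuum := by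
  have h := IsAlgClosed.cardinal_eq_cardinal_transcendence_basis_of_aleph0_lt' ((↑) : s → K) hs
    (Cardinal.mk_le_aleph0) (by rw [hK]; exact Cardinal.aleph0_lt_continuum)
  rw [← h, hK]

end Iso_aux

open Iso_aux in
theorem tIso : S_Iso := by
  intro K L _ _ _ _ _ _ hK hL ι _ p q hp hq
  obtain ⟨s, hps, hs⟩ := exists_isTranscendenceBasis_superset (R := ℚ) (A := K) (s := Set.range p) hp.coe_range
  obtain ⟨t, hqt, ht⟩ := exists_isTranscendenceBasis_superset (R := ℚ) (A := L) (s := Set.range q) hq.coe_range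
  have cs := cardBasis hK hs
  have ct := cardBasis hL ht
  let p' : ι → s := fun i => ⟨p i, hps ⟨i, rfl⟩⟩
  let q' : ι → t := fun i => ⟨q i, hqt ⟨i, rfl⟩⟩
  have hp' : Function.Injective p' := fun i j h => hp.injective (congrArg Subtype.val h)
  have hq' : Function.Injective q' := fun i j h => hq.injective (congrArg Subtype.val h)
  let f : Set.range p' ↪ t := (Equiv.ofInjective p' hp').symm.toEmbedding.trans ⟨q', hq'⟩
  have hlt : Cardinal.mk (Set.range p') < Cardinal.mk s := by
    rw [cs]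
    exact lt_of_lt_of_le (Cardinal.lt_aleph0_of_finite _) Cardinal.aleph0_le_continuum
  have hne : Nonempty (s ≃ t) := by
    rw [← Cardinal.eq, cs, ct]
  obtain ⟨g, hg⟩ := Cardinal.extend_function_of_lt f hlt hne
  obtain ⟨E, hE⟩ := exIso hs ht g
  refine ⟨E, fun i => ?_⟩
  have h1 := hg ⟨p' i, ⟨i, rfl⟩⟩
  have h2 : f ⟨p' i, ⟨i, rfl⟩⟩ = q' i := by
    show q' ((Equiv.ofInjective p' hp').symm ⟨p' i, ⟨i, rfl⟩⟩) = q' i
    rw [Equiv.ofInjective_symm_apply]
  have h3 : g (p' i) = q' i := h1.trans h2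
  calc E (p i) = E ((p' i : s) : K) := rfl
    _ = ((g (p' i) : t) : L) := hE _
    _ = q i := by rw [h3]

end Pool.Agent.QV
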