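import Pool.Agent.Lib.MP_b53bfe_ag.Q.SpecD

/-!
# LtS: lattices, from A-modules to B-modules
-/

set_option autoImplicit false

noncomputable section

namespace Pool.Agent.QV

open MvPolynomial
open Pool.Agent.FY (Res)

namespace LtS_aux

private theorem ks_inj {R : Type} [CommRing R] {S : Set R} {M N : Type} [AddCommGroup M] [Module R M] [AddCommGroup N]
    [Module R N] (h : KS S N) (g : M →ₗ[R] N) (hg : Function.Injective g) : KS S M := by
  intro s hs m
  apply hg
  rw [map_smul, map_zero]
  exact h s hs _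

private theorem ks_surj {R : Type} [CommRing R] {S : Set R} {M N : Type} [AddCommGroup M] [Module R M] [AddCommGroup N]
    [Module R N] (h : KS S M) (g : M →ₗ[R] N) (hg : Function.Surjective g) : KS S N := by
  intro s hs n
  obtain ⟨m, rfl⟩ := hg n
  rw [← map_smul, h s hs m, map_zero]

variable {A : Type} [CommRing A] {t : A} {S : Set A} {V : Type} [AddCommGroup V]

private theorem unif {M : Type} [AddCommGroup M] [Module A M] (hM : Module.Finite A M)
    (h : ∀ m : M, ∃ k : ℕ, t ^ k • m = 0) : ∃ k : ℕ, ∀ m : M, t ^ k • m = 0 := by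
  obtain ⟨s, hs⟩ := hM.fg_top
  choose f hf using h
  refine ⟨s.sup f, fun m => ?_⟩
  have hm : m ∈ Submodule.span A (s : Set M) := by rw [hs]; trivial
  induction hm using Submodule.span_induction with
  | mem x hx =>
    have h1 : f x ≤ s.sup f := Finset.le_sup hx
    rw [← Nat.sub_add_cancel h1, pow_add, mul_smul, hf x, smul_zero]
  | zero => rw [smul_zero]
  | add x y _ _ hx hy => rw [smul_add, hx, hy, add_zero]
  | smul a x _ hx => rw [smul_comm, hx, smul_zero]

variable (σ : AFS A S V) (hA : IsNoetherianRing A)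
  (h0 : ∀ (M : Type) [AddCommGroup M] [Module A M], Module.Finite A M → KS S M → (∀ m : M, t • m = 0) → σ.f M = 0)

include h0

/-- `σ` is zero on the modules killed by a power of `t` -/
private theorem killed (k : ℕ) : ∀ (M : Type) [AddCommGroup M] [Module A M], Module.Finite A M → KS S M →
    (∀ m : M, t ^ k • m = 0) → IsNoetherianRing A → σ.f M = 0 := by
  induction k with
  | zero =>
    intro M _ _ _ _ h _
    refine σ.subsing ⟨fun a b => ?_⟩
    have ha := h a
    have hb := h b
    rw [pow_zero, one_smul] at ha hb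
    rw [ha, hb]
  | succ k ih =>
    intro M _ _ hM hk h hA
    have hN : IsNoetherian A M := isNoetherian_of_isNoetherianRing_of_finite A M
    rw [σ.sub hM hk (LinearMap.range (LinearMap.lsmul A M t))]
    have e1 : σ.f (LinearMap.range (LinearMap.lsmul A M t)) = 0 := by
      refine ih _ (Module.IsNoetherian.finite A _)
        (ks_inj hk (LinearMap.range (LinearMap.lsmul A M t)).subtype (Submodule.injective_subtype _)) ?_ hA
      rintro ⟨m, x, rfl⟩
      apply Subtype.ext
      change t ^ k • (t • x) = 0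
      rw [smul_smul, ← pow_succ]
      exact h x
    have e2 : σ.f (M ⧸ LinearMap.range (LinearMap.lsmul A M t)) = 0 := by
      refine h0 _ inferInstance (ks_surj hk _ (Submodule.mkQ_surjective _)) ?_
      intro m
      obtain ⟨x, rfl⟩ := Submodule.Quotient.mk_surjective _ m
      rw [← Submodule.Quotient.mk_smul, Submodule.Quotient.mk_eq_zero]
      exact ⟨x, rfl⟩
    rw [e1, e2, add_zero]

include hA

private theorem tors (M : Type) [AddCommGroup M] [Module A M] (hM : Module.Finite A M) (hk : KS S M)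
    (h : ∀ m : M, ∃ k : ℕ, t ^ k • m = 0) : σ.f M = 0 := by
  obtain ⟨k, hk'⟩ := unif hM h
  exact killed σ h0 k M hM hk hk' hA

private theorem cmp (M N : Type) [AddCommGroup M] [Module A M] [AddCommGroup N] [Module A N] (g : M →ₗ[A] N)
    (hM : Module.Finite A M) (hkM : KS S M) (hN : Module.Finite A N) (hkN : KS S N)
    (h1 : ∀ m : M, g m = 0 → ∃ n : ℕ, t ^ n • m = 0)
    (h2 : ∀ y : N, ∃ (n : ℕ) (m : M), t ^ n • y = g m) : σ.f M = σ.f N := by
  have hnM : IsNoetherian A M := isNoetherian_of_isNoetherianRing_of_finite A M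
  have hnN : IsNoetherian A N := isNoetherian_of_isNoetherianRing_of_finite A N
  have e1 := σ.sub hM hkM (LinearMap.ker g)
  have e2 := σ.sub hN hkN (LinearMap.range g)
  have e3 : σ.f (LinearMap.ker g) = 0 := by
    refine tors σ hA h0 _ (Module.IsNoetherian.finite A _)
      (ks_inj hkM (LinearMap.ker g).subtype (Submodule.injective_subtype _)) ?_
    rintro ⟨m, hm⟩
    obtain ⟨n, hn⟩ := h1 m hm
    exact ⟨n, Subtype.ext hn⟩
  have e4 : σ.f (N ⧸ LinearMap.range g) = 0 := by
    refine tors σ hA h0 _ inferInstance (ks_surj hkN _ (Submodule.mkQ_surjective _)) ?_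
    intro y
    obtain ⟨x, rfl⟩ := Submodule.Quotient.mk_surjective _ y
    obtain ⟨n, m, hm⟩ := h2 x
    refine ⟨n, ?_⟩
    rw [← Submodule.Quotient.mk_smul, Submodule.Quotient.mk_eq_zero, hm]
    exact ⟨m, rfl⟩
  have e5 : σ.f (M ⧸ LinearMap.ker g) = σ.f (LinearMap.range g) :=
    σ.iso (LinearMap.quotKerEquivRange g) inferInstance (ks_surj hkM _ (Submodule.mkQ_surjective _))
  rw [e1, e2, e3, e4, e5, zero_add, add_zero]

private theorem step {M : Type} [AddCommGroup M] [Module A M] (hk : KS S M) (N N' : Submodule A M)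
    (hle : N ≤ N') (hfg : N.FG) (hfg' : N'.FG) (ht : ∀ m : M, ∃ k : ℕ, t ^ k • m ∈ N) : σ.f N = σ.f N' := by
  refine cmp σ hA h0 N N' (Submodule.inclusion hle) (Module.Finite.iff_fg.mpr hfg)
    (ks_inj hk N.subtype N.injective_subtype) (Module.Finite.iff_fg.mpr hfg')
    (ks_inj hk N'.subtype N'.injective_subtype) ?_ ?_
  · intro m hm
    refine ⟨0, ?_⟩
    rw [pow_zero, one_smul]
    exact Submodule.inclusion_injective hle (by rw [hm, map_zero])
  · intro y
    obtain ⟨n, hn⟩ := ht (y : M)
    exact ⟨n, ⟨t ^ n • (y : M), hn⟩, Subtype.ext rfl⟩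

private theorem indep {M : Type} [AddCommGroup M] [Module A M] (hk : KS S M) (N N' : Submodule A M)
    (hfg : N.FG) (hfg' : N'.FG) (ht : ∀ m : M, ∃ k : ℕ, t ^ k • m ∈ N)
    (ht' : ∀ m : M, ∃ k : ℕ, t ^ k • m ∈ N') : σ.f N = σ.f N' := by
  rw [step σ hA h0 hk N (N ⊔ N') le_sup_left hfg (hfg.sup hfg') ht,
    step σ hA h0 hk N' (N ⊔ N') le_sup_right hfg' (hfg.sup hfg') ht']

omit hA h0

variable {B : Type} [CommRing B] (j : A →+* B)

/-- existence of lattices -/
private theorem exLt (hj : ∀ b : B, ∃ (n : ℕ) (a : A), j t ^ n * b = j a) (M : Type) [AddCommGroup M] [Module B M]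
    (hM : Module.Finite B M) : ∃ L : Submodule A (Res j M), IsLt j t M L := by
  obtain ⟨s, hs⟩ := hM.fg_top
  refine ⟨Submodule.span A (Res.mk j '' (s : Set M)), ?_, ?_⟩
  · exact Submodule.fg_span (s.finite_toSet.image _)
  · intro m
    have hm : (Res.val m : M) ∈ Submodule.span B (s : Set M) := by rw [hs]; trivial
    have key : ∀ x : M, x ∈ Submodule.span B (s : Set M) →
        ∃ n : ℕ, t ^ n • Res.mk j x ∈ Submodule.span A (Res.mk j '' (s : Set M)) := by
      intro x hx
      induction hx using Submodule.span_induction with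
      | mem x hx => exact ⟨0, by rw [pow_zero, one_smul]; exact Submodule.subset_span ⟨x, hx, rfl⟩⟩
      | zero => exact ⟨0, by
          rw [pow_zero, one_smul]
          exact Submodule.zero_mem _⟩
      | add x y _ _ hx hy =>
        obtain ⟨n, hn⟩ := hx
        obtain ⟨m, hm⟩ := hy
        refine ⟨m + n, ?_⟩
        have e : t ^ (m + n) • Res.mk j (x + y) = t ^ m • (t ^ n • Res.mk j x) + t ^ n • (t ^ m • Res.mk j y) := by
          rw [smul_smul, smul_smul, ← pow_add, ← pow_add, add_comm n m, ← smul_add]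
          rfl
        rw [e]
        exact Submodule.add_mem _ (Submodule.smul_mem _ _ hn) (Submodule.smul_mem _ _ hm)
      | smul b x _ hx =>
        obtain ⟨n, hn⟩ := hx
        obtain ⟨k, a, ha⟩ := hj b
        refine ⟨k + n, ?_⟩
        have e : t ^ (k + n) • Res.mk j (b • x) = a • (t ^ n • Res.mk j x) := by
          change j (t ^ (k + n)) • (b • x) = j a • (j (t ^ n) • x)
          rw [smul_smul, smul_smul, ← ha, map_pow, map_pow, pow_add]
          congr 1
          ring
        rw [e]
        exact Submodule.smul_mem _ _ hn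
    exact key _ hm

/-- the value of the extension -/
def val (t : A) (M : Type) [AddCommGroup M] [Module B M] : V :=
  @dite V (∃ L : Submodule A (Res j M), IsLt j t M L) (Classical.propDecidable _) (fun h => σ.f (h.choose : Submodule A (Res j M)))
    (fun _ => 0)

private theorem ks_res {M : Type} [AddCommGroup M] [Module B M] (hk : KS (j '' S) M) : KS S (Res j M) :=
  fun s hs m => hk (j s) ⟨s, hs, rfl⟩ m

include hA h0

private theorem val_eq {M : Type} [AddCommGroup M] [Module B M] (hk : KS (j '' S) M) (L : Submodule A (Res j M))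
    (hL : IsLt j t M L) : val σ j t M = σ.f L := by
  have h : ∃ L : Submodule A (Res j M), IsLt j t M L := ⟨L, hL⟩
  unfold val
  rw [dif_pos h]
  exact indep σ hA h0 (ks_res j hk) _ _ h.choose_spec.1 hL.1 h.choose_spec.2 hL.2

private theorem val_add (hj : ∀ b : B, ∃ (n : ℕ) (a : A), j t ^ n * b = j a) (M₁ M M₂ : Type) [AddCommGroup M₁]
    [Module B M₁] [AddCommGroup M] [Module B M] [AddCommGroup M₂] [Module B M₂] (i₀ : M₁ →ₗ[B] M) (p₀ : M →ₗ[B] M₂)
    (hM : Module.Finite B M) (hk : KS (j '' S) M)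
    (hi : Function.Injective i₀) (hp : Function.Surjective p₀) (he : Function.Exact i₀ p₀) :
    val σ j t M = val σ j t M₁ + val σ j t M₂ := by
  obtain ⟨L, hfg, ht⟩ := exLt j hj M hM
  set i : Res j M₁ →ₗ[A] Res j M := Res.map j i₀ with hi0
  set p : Res j M →ₗ[A] Res j M₂ := Res.map j p₀ with hp0
  replace hi : Function.Injective i := hi
  replace hp : Function.Surjective p := hp
  replace he : Function.Exact i p := he
  have hNF : Module.Finite A L := Module.Finite.iff_fg.mpr hfg
  have hNN : IsNoetherian A L := isNoetherian_of_isNoetherianRing_of_finite A L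
  set i' : L.comap i →ₗ[A] L := i.restrict (fun x hx => hx) with hi'
  set p' : L →ₗ[A] L.map p := p.restrict (fun x hx => Submodule.mem_map_of_mem hx) with hp'
  have hinj : Function.Injective i' := by
    intro x y hxy
    apply Subtype.ext
    apply hi
    exact congrArg Subtype.val hxy
  have hsurj : Function.Surjective p' := by
    rintro ⟨c, hc⟩
    obtain ⟨b, hb, rfl⟩ := hc
    exact ⟨⟨b, hb⟩, rfl⟩
  have hex : Function.Exact i' p' := by
    intro y
    constructor
    · intro h0
      have h1 : p (y : Res j M) = 0 := congrArg Subtype.val h0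
      obtain ⟨a, ha⟩ := (he (y : Res j M)).mp h1
      refine ⟨⟨a, ?_⟩, Subtype.ext ha⟩
      rw [Submodule.mem_comap, ha]
      exact y.2
    · rintro ⟨a, rfl⟩
      apply Subtype.ext
      exact (he _).mpr ⟨(a : Res j M₁), rfl⟩
  have hAN : IsNoetherian A (L.comap i) := isNoetherian_of_injective i' hinj
  have hA' : (L.comap i).FG := Module.Finite.iff_fg.mp inferInstance
  have hC : (L.map p).FG := hfg.map p
  have hk1 : KS (j '' S) M₁ := ks_inj hk i₀ hi
  have hk2 : KS (j '' S) M₂ := ks_surj hk p₀ hp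
  rw [val_eq σ hA h0 j hk L ⟨hfg, ht⟩, val_eq σ hA h0 j hk1 (L.comap i) ⟨hA', fun a => by
      obtain ⟨k, hk'⟩ := ht (i a)
      refine ⟨k, ?_⟩
      rw [Submodule.mem_comap, map_smul]
      exact hk'⟩,
    val_eq σ hA h0 j hk2 (L.map p) ⟨hC, fun c => by
      obtain ⟨b, rfl⟩ := hp c
      obtain ⟨k, hk'⟩ := ht b
      refine ⟨k, ?_⟩
      rw [← map_smul]
      exact Submodule.mem_map_of_mem hk'⟩]
  exact σ.add _ _ _ i' p' hNF (ks_inj (ks_res j hk) L.subtype L.injective_subtype) hinj hsurj hex

end LtS_aux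

theorem tLtS : S_LtS := by
  intro A B _ _ j t S V _ σ hA hj h0
  refine ⟨fun M N _ _ _ _ g hM hkM hN hkN h1 h2 => LtS_aux.cmp σ hA h0 M N g hM hkM hN hkN h1 h2,
    fun M _ _ hM => LtS_aux.exLt j hj M hM,
    ⟨fun M => LtS_aux.val σ j t M, fun M₁ M M₂ => LtS_aux.val_add σ hA h0 j hj M₁ M M₂⟩, ?_⟩
  intro M _ _ L _ hk hL
  exact LtS_aux.val_eq σ hA h0 j hk L hL

end Pool.Agent.QV
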