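import Pool.Agent.Lib.MP_b53bfe_ag.Q.SpecD

/-!
# MP_b53bfe_ag, phase 2, module RS: restriction of scalars
-/

set_option autoImplicit false

noncomputable section

namespace Pool.Agent.QV

open MvPolynomial
open Pool.Agent.FY (Res)

namespace RS_aux

section pow

variable {R : Type} [CommRing R] {S : Set R} {V : Type} [AddCommGroup V] (χ : AFS R S V)

/-- `x ↦ (x_1, ..., x_n)` -/
def tl (M : Type) [AddCommGroup M] [Module R M] (n : ℕ) : (Fin (n + 1) → M) →ₗ[R] (Fin n → M) where
  toFun x j := x j.succ
  map_add' _ _ := rfl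
  map_smul' _ _ := rfl

theorem pow (M : Type) [AddCommGroup M] [Module R M] (hM : Module.Finite R M) (hk : KS S M) (n : ℕ) :
    χ.f (Fin n → M) = n • χ.f M := by
  induction n with
  | zero => rw [zero_smul, χ.subsing inferInstance]
  | succ n ih =>
    rw [χ.add M (Fin (n + 1) → M) (Fin n → M) (LinearMap.single R (fun _ => M) 0) (tl M n) inferInstance
      (fun s hs m => funext fun j => hk s hs (m j)) ?_ ?_ ?_, ih, succ_nsmul, add_comm]
    · intro a b h
      have := congrFun h 0
      simpa using this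
    · intro y
      exact ⟨Fin.cons 0 y, funext fun j => rfl⟩
    · intro y
      constructor
      · intro h
        refine ⟨y 0, funext fun j => ?_⟩
        refine Fin.cases ?_ (fun j => ?_) j
        · simp
        · have h1 : y j.succ = 0 := congrFun h j
          rw [h1]
          simp
      · rintro ⟨a, rfl⟩
        funext j
        change LinearMap.single R (fun _ => M) 0 a j.succ = 0
        simp

end pow

section

variable {k F : Type} [Field k] [Field F] [Algebra k F]

theorem form_map (f : MvPolynomial (Fin 5) k) (l : Fin 3) :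
    jE k F (Gr.form f l) = Gr.form (map (algebraMap k F) f) l := map_formR (algebraMap k F) f l

theorem ks (f : MvPolynomial (Fin 5) k) {M : Type} [AddCommGroup M] [Module (Gr.Pol F) M]
    (h : KS (Set.range (Gr.form (map (algebraMap k F) f))) M) : KS (Set.range (Gr.form f)) (Res (jE k F) M) := by
  rintro _ ⟨l, rfl⟩ m
  have h1 := h _ ⟨l, rfl⟩ m.val
  rw [← form_map] at h1
  exact h1

theorem mem_qt {R : Type} [CommRing R] (w : R) (N : Type) [AddCommGroup N] [Module R N] (x : N) :
    x ∈ (Ideal.span {w} • (⊤ : Submodule R N)) ↔ ∃ y : N, w • y = x := by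
  rw [Submodule.ideal_span_singleton_smul, Submodule.mem_smul_pointwise_iff_exists]
  simp

theorem ker_q (w : Gr.Pol k) (N : Type) [AddCommGroup N] [Module (Gr.Pol F) N] :
    LinearMap.ker (Pool.Agent.FY.Res.map (jE k F) (Submodule.mkQ (Ideal.span {jE k F w} • (⊤ : Submodule (Gr.Pol F) N)))) =
      Ideal.span {w} • (⊤ : Submodule (Gr.Pol k) (Res (jE k F) N)) := by
  ext x
  rw [LinearMap.mem_ker, mem_qt]
  have h2 : Pool.Agent.FY.Res.map (jE k F) (Submodule.mkQ (Ideal.span {jE k F w} • (⊤ : Submodule (Gr.Pol F) N))) x = 0 ↔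
      x.val ∈ (Ideal.span {jE k F w} • (⊤ : Submodule (Gr.Pol F) N)) := by
    change Submodule.mkQ (Ideal.span {jE k F w} • (⊤ : Submodule (Gr.Pol F) N)) x.val = 0 ↔ _
    rw [Submodule.mkQ_apply, Submodule.Quotient.mk_eq_zero]
  rw [h2, mem_qt]
  rfl

theorem surj_q (w : Gr.Pol k) (N : Type) [AddCommGroup N] [Module (Gr.Pol F) N] :
    Function.Surjective (Pool.Agent.FY.Res.map (jE k F) (Submodule.mkQ (Ideal.span {jE k F w} • (⊤ : Submodule (Gr.Pol F) N)))) := by
  intro y
  obtain ⟨x, hx⟩ := Submodule.mkQ_surjective (Ideal.span {jE k F w} • (⊤ : Submodule (Gr.Pol F) N)) y.val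
  exact ⟨Res.mk (jE k F) x, hx⟩

/-- restriction of scalars and quotients -/
def qe (w : Gr.Pol k) (N : Type) [AddCommGroup N] [Module (Gr.Pol F) N] :
    Res (jE k F) (Qt (jE k F w) N) ≃ₗ[Gr.Pol k] Qt w (Res (jE k F) N) :=
  ((Submodule.quotEquivOfEq _ _ (ker_q w N)).symm.trans (LinearMap.quotKerEquivOfSurjective _ (surj_q w N))).symm

end

end RS_aux

open RS_aux in
theorem tRS : S_RSm → S_RS := by
  intro hRSm k F _ _ _ hF f E _ _ χ hχ
  obtain ⟨hfin, hsm⟩ := hRSm k F hF
  refine ⟨{ f := fun M _ _ => χ.f (Res (jE k F) M), add := ?_ }, ?_⟩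
  · intro A B C _ _ _ _ _ _ i p hB hk hi hp hex
    exact χ.add (Res (jE k F) A) (Res (jE k F) B) (Res (jE k F) C) (Pool.Agent.FY.Res.map (jE k F) i)
      (Pool.Agent.FY.Res.map (jE k F) p) (hfin B hB) (ks f hk) hi hp hex
  · refine { perf := ?_, tors := ?_, small := ?_ }
    · intro l N _ _ hN hk hreg
      have hN' := hfin N hN
      have h1 := hχ.perf l (Res (jE k F) N) hN' (fun i hi m => by
        have := hk i hi m.val
        rw [← form_map] at this
        exact this) (fun x hx => by
        refine hreg x.val ?_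
        rw [← form_map]
        exact hx)
      change χ.f (Res (jE k F) (Qt (Gr.form (map (algebraMap k F) f) l) N)) = 0
      rw [← form_map, χ.iso (qe (Gr.form f l) N) (hfin _ inferInstance) ?_, h1]
      rintro _ ⟨i, rfl⟩ m
      obtain ⟨x, hx⟩ := Submodule.mkQ_surjective _ m.val
      change (jE k F (Gr.form f i)) • m.val = 0
      rw [← hx, ← map_smul]
      by_cases hi : i = l
      · subst hi
        rw [Submodule.mkQ_apply, Submodule.Quotient.mk_eq_zero, mem_qt]
        exact ⟨x, rfl⟩
      · have h3 : jE k F (Gr.form f i) • x = 0 := by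
          rw [form_map]
          exact hk i hi x
        rw [h3, map_zero]
    · rintro M _ _ hM hk ⟨i, n, h⟩
      refine hχ.tors (Res (jE k F) M) (hfin M hM) (ks f hk) ⟨i, n, fun m => ?_⟩
      have h1 := h m.val
      have h2 : jE k F ((X (i, 3) : Gr.Pol k) ^ n) = (X (i, 3) : Gr.Pol F) ^ n := by
        rw [_root_.map_pow, map_X]
      rw [← h2] at h1
      exact h1
    · obtain ⟨e⟩ := hsm f
      change χ.f (Res (jE k F) (Gr.Pol F ⧸ Ideal.span (smR (map (algebraMap k F) f)))) ≠ 0
      have hks : KS (Set.range (Gr.form f)) (Gr.Pol k ⧸ Ideal.span (smR f)) := by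
        rintro _ ⟨i, rfl⟩ m
        obtain ⟨x, rfl⟩ := Submodule.mkQ_surjective _ m
        rw [← map_smul, Submodule.mkQ_apply, Submodule.Quotient.mk_eq_zero]
        exact Ideal.mul_mem_right _ _ (Ideal.subset_span (Or.inr ⟨i, rfl⟩))
      have hks2 : KS (Set.range (Gr.form f)) (Fin (Module.finrank k F) → Gr.Pol k ⧸ Ideal.span (smR f)) :=
        fun s hs m => funext fun j => hks s hs (m j)
      rw [← χ.iso e.symm inferInstance hks2, pow χ _ inferInstance hks]
      intro h
      have hn : (Module.finrank k F : ℚ) ≠ 0 := by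
        have : 0 < Module.finrank k F := Module.finrank_pos
        exact_mod_cast this.ne'
      rw [← Nat.cast_smul_eq_nsmul ℚ] at h
      exact hχ.small ((smul_eq_zero.1 h).resolve_left hn)

end Pool.Agent.QV

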