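import Pool.Agent.Lib.MP_b53bfe_ag.Q.SpecD

/-!
# MP_b53bfe_ag, phase 2, SL: assembly of the specialization step
-/

set_option autoImplicit false

noncomputable section

namespace Pool.Agent.QV

open MvPolynomial
open Pool.Agent.FY (Res)

/-- Assembly: the specialized function `χ` of `S_SLa` satisfies `QF` for the form over `k((t))`. -/
theorem tSL : S_SLa → S_SLp → S_SLt → S_SLs → S_SL := by
  intro ha hp ht hs k _ f hf hf0 hQ
  obtain ⟨E, iE, iQ, χ₀, h₀⟩ := hQ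
  obtain ⟨σ, χ, hsp⟩ := ha k f E χ₀
  refine ⟨E, iE, iQ, χ, ⟨?_, ?_, ?_⟩⟩
  · intro l N _ _ hN hk hr
    exact hp k f E χ₀ σ χ hsp h₀ l N hN hk hr
  · intro M _ _ hM hk hx
    exact ht k f E χ₀ σ χ hsp h₀ M hM hk hx
  · have h := hs k f E χ₀ σ χ hsp h₀ hf hf0
    rw [h]
    exact h₀.small

end Pool.Agent.QV
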