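import Pool.Agent.Lib.MP_b53bfe_ag.Q.SpecD

/-!
# Disproof of Q1 of MP_b53bfe_ag for quintic threefolds, phase 2: existence of the specialized functions
-/

set_option autoImplicit false

noncomputable section

namespace Pool.Agent.QV

open MvPolynomial
open Pool.Agent.FY (Res)

namespace SLa_aux

variable {P A : Type} [CommRing P] [CommRing A] (ι : P →+* A) (t : A) (M : Type) [AddCommGroup M] [Module A M]

/-- an `A`-module killed by `t` is finite over `P` -/
theorem fin_res (hP : ∀ a : A, ∃ (p : P) (b : A), a = ι p + t * b) (hM : Module.Finite A M) (ht : ∀ m : M, t • m = 0) :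
    Module.Finite P (Res ι M) := by
  obtain ⟨s, hs⟩ := hM.fg_top
  let s' : Finset (Res ι M) := s
  refine ⟨⟨s', ?_⟩⟩
  rw [eq_top_iff]
  intro x _
  have hx : (show M from x) ∈ Submodule.span A (s : Set M) := by rw [hs]; trivial
  refine Submodule.span_induction (p := fun (y : M) _ => (show Res ι M from y) ∈ Submodule.span P (s' : Set (Res ι M)))
    ?_ ?_ ?_ ?_ hx
  · intro y hy
    exact Submodule.subset_span hy
  · exact Submodule.zero_mem _
  · intro y z _ _ hy hz
    exact Submodule.add_mem _ hy hz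
  · intro a y _ hy
    obtain ⟨p, b, hab⟩ := hP a
    have h1 : a • y = ι p • y := by
      rw [hab, add_smul, mul_comm, mul_smul, ht, smul_zero, add_zero]
    have h2 : (show Res ι M from a • y) = p • (show Res ι M from y) := h1
    rw [h2]
    exact Submodule.smul_mem _ _ hy

/-- an `A`-module killed by `t` and `S` is killed by `S₀` -/
theorem ks_res {S₀ : Set P} {S : Set A} (hS : ∀ p ∈ S₀, ∃ r ∈ Ideal.span S, ∃ b : A, ι p = r + t * b) (hk : KS S M)
    (ht : ∀ m : M, t • m = 0) : KS S₀ (Res ι M) := by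
  intro p hp x
  obtain ⟨r, hr, b, hb⟩ := hS p hp
  have h1 : ∀ m : M, r • m = 0 := by
    intro m
    refine Submodule.span_induction (p := fun (r : A) _ => r • m = 0) ?_ ?_ ?_ ?_ hr
    · intro s hs
      exact hk s hs m
    · exact zero_smul _ _
    · intro a b _ _ ha hb
      rw [add_smul, ha, hb, add_zero]
    · intro a b _ hb
      rw [smul_eq_mul, mul_smul, hb, smul_zero]
  have h2 : ι p • (show M from x) = 0 := by
    rw [hb, add_smul, h1, mul_comm, mul_smul, ht, smul_zero, add_zero]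
  exact h2

/-- `M / t M` and `ker t` are isomorphic if `M` is killed by `t` -/
theorem qk (ht : ∀ m : M, t • m = 0) : Nonempty (Qt t M ≃ₗ[A] Kr t M) := by
  have h1 : Ideal.span {t} • (⊤ : Submodule A M) = ⊥ := by
    rw [eq_bot_iff, Submodule.ideal_span_singleton_smul]
    intro x hx
    obtain ⟨y, _, rfl⟩ := hx
    exact ht y
  have h2 : LinearMap.ker (LinearMap.lsmul A M t) = ⊤ := by
    rw [eq_top_iff]
    intro x _
    exact ht x
  exact ⟨(Submodule.quotEquivOfEqBot _ h1).trans (LinearEquiv.ofTop _ h2).symm⟩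

/-- `χ (M / t M) = χ (ker t)` if `M` is killed by `t` -/
theorem zer {V : Type} [AddCommGroup V] {S₀ : Set P} {S : Set A} (χ : AFS P S₀ V)
    (hP : ∀ a : A, ∃ (p : P) (b : A), a = ι p + t * b)
    (hS : ∀ p ∈ S₀, ∃ r ∈ Ideal.span S, ∃ b : A, ι p = r + t * b) (hM : Module.Finite A M) (hk : KS S M)
    (ht : ∀ m : M, t • m = 0) : χ.f (Res ι (Qt t M)) - χ.f (Res ι (Kr t M)) = 0 := by
  obtain ⟨e⟩ := qk t M ht
  have hq : ∀ m : Qt t M, t • m = 0 := by
    intro m
    obtain ⟨x, rfl⟩ := Submodule.Quotient.mk_surjective _ m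
    rw [← Submodule.Quotient.mk_smul, ht, Submodule.Quotient.mk_zero]
  have hkq : KS S (Qt t M) := by
    intro s hs m
    obtain ⟨x, rfl⟩ := Submodule.Quotient.mk_surjective _ m
    rw [← Submodule.Quotient.mk_smul, hk s hs, Submodule.Quotient.mk_zero]
  rw [χ.iso (Pool.Agent.FY.Res.equiv ι e) (fin_res ι t _ hP inferInstance hq) (ks_res ι t _ hS hkq hq), sub_self]

theorem dec1 (k : Type) [Field k] (a b : At k)
    (hb : a = map (PowerSeries.C (R := k)) (map PowerSeries.constantCoeff a) + C PowerSeries.X * b) :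
    ∃ (p : Gr.Pol k) (b : At k), a = iF k p + tt k * b := by
  refine ⟨map PowerSeries.constantCoeff a, b, ?_⟩
  exact hb

theorem dec2 (hSLb : S_SLb) (k : Type) [Field k] (a : At k) : ∃ (p : Gr.Pol k) (b : At k), a = iF k p + tt k * b := by
  obtain ⟨b, hb⟩ := (hSLb k).2.2.2.2.1 (Fin 3 × Fin 5) a
  exact dec1 k a b hb

theorem dec3 (k : Type) [Field k] (f : MvPolynomial (Fin 5) (PowerSeries k)) (i : Fin 3) (b : At k)
    (hb : formR f i = map (PowerSeries.C (R := k)) (map PowerSeries.constantCoeff (formR f i)) + C PowerSeries.X * b) :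
    iF k (Gr.form (f0 f) i) = formR f i + tt k * (-b) := by
  rw [form_eq, f0, ← map_formR]
  have h : formR f i - C PowerSeries.X * b = map (PowerSeries.C (R := k)) (map PowerSeries.constantCoeff (formR f i)) :=
    sub_eq_of_eq_add hb
  have h2 : formR f i + tt k * (-b) = formR f i - C PowerSeries.X * b := by ring
  exact h.symm.trans h2.symm

theorem dec4 (hSLb : S_SLb) (k : Type) [Field k] (f : MvPolynomial (Fin 5) (PowerSeries k)) :
    ∀ p ∈ Set.range (Gr.form (f0 f)), ∃ r ∈ Ideal.span (Set.range (formR f)), ∃ b : At k, iF k p = r + tt k * b := by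
  rintro _ ⟨i, rfl⟩
  obtain ⟨b, hb⟩ := (hSLb k).2.2.2.2.1 (Fin 3 × Fin 5) (formR f i)
  exact ⟨formR f i, Ideal.subset_span ⟨i, rfl⟩, -b, dec3 k f i b hb⟩

end SLa_aux

open SLa_aux in
theorem tSLa (hKZ : S_KZ) (hLtS : S_LtS) (hSLb : S_SLb) : S_SLa := by
  intro k _ f E _ χ₀
  have hN : IsNoetherianRing (At k) := (hSLb k).1
  have hP := dec2 hSLb k
  have hS := dec4 hSLb k f
  obtain ⟨σ, hσ⟩ := hKZ (Gr.Pol k) (At k) (iF k) (tt k) (Set.range (Gr.form (f0 f))) (Set.range (formR f)) E χ₀ hN hP hS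
  have hj : ∀ b : Gr.Pol (LaurentSeries k), ∃ (n : ℕ) (a : At k), jF k (tt k) ^ n * b = jF k a :=
    (hSLb k).2.1 (Fin 3 × Fin 5)
  have h0 : ∀ (M : Type) [AddCommGroup M] [Module (At k) M], Module.Finite (At k) M → KS (Set.range (formR f)) M →
      (∀ m : M, tt k • m = 0) → σ.f M = 0 := by
    intro M _ _ hM hk ht
    rw [hσ M]
    exact zer (iF k) (tt k) M χ₀ hP hS hM hk ht
  obtain ⟨h1, -, h3⟩ := hLtS (At k) (Gr.Pol (LaurentSeries k)) (jF k) (tt k) (Set.range (formR f)) E σ hN hj h0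
  have hset : jF k '' Set.range (formR f) = Set.range (Gr.form (fL f)) := map_range_formR _ f
  rw [hset] at h3
  obtain ⟨χ, hχ⟩ := h3
  exact ⟨σ, χ, ⟨hσ, h1, hχ⟩⟩

end Pool.Agent.QV
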