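import Pool.Agent.Lib.MP_b53bfe_ag.Q.SpecD

/-!
# Simple facts on polynomials over `k[[t]]` and `k((t))`
-/

set_option autoImplicit false

noncomputable section

namespace Pool.Agent.QV

open MvPolynomial
open Pool.Agent.FY (Res)

namespace SLb_aux

variable (k : Type) [Field k]

theorem surj (c : LaurentSeries k) : ∃ (n : ℕ) (a : PowerSeries k),
    algebraMap (PowerSeries k) (LaurentSeries k) PowerSeries.X ^ n * c =
      algebraMap (PowerSeries k) (LaurentSeries k) a := by
  obtain ⟨⟨a, m, n, hn⟩, h⟩ := IsLocalization.surj (Submonoid.powers (PowerSeries.X : PowerSeries k)) c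
  refine ⟨n, a, ?_⟩
  have h2 : (PowerSeries.X : PowerSeries k) ^ n = m := hn
  rw [← map_pow, h2, mul_comm]
  exact h

theorem inj : Function.Injective (algebraMap (PowerSeries k) (LaurentSeries k)) :=
  IsLocalization.injective (LaurentSeries k) (M := Submonoid.powers (PowerSeries.X : PowerSeries k))
    (powers_le_nonZeroDivisors_of_noZeroDivisors PowerSeries.X_ne_zero)

theorem fac2 (τ : Type) (b : MvPolynomial τ (LaurentSeries k)) :
    ∃ (n : ℕ) (a : MvPolynomial τ (PowerSeries k)),
      map (algebraMap (PowerSeries k) (LaurentSeries k)) (C PowerSeries.X) ^ n * b =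
        map (algebraMap (PowerSeries k) (LaurentSeries k)) a := by
  induction b using MvPolynomial.induction_on with
  | C c =>
    obtain ⟨n, a, h⟩ := surj k c
    refine ⟨n, C a, ?_⟩
    rw [map_C, map_C, ← h, C_mul, C_pow]
  | add p q hp hq =>
    obtain ⟨n, a, ha⟩ := hp
    obtain ⟨m, b, hb⟩ := hq
    refine ⟨n + m, C PowerSeries.X ^ m * a + C PowerSeries.X ^ n * b, ?_⟩
    rw [map_add, map_mul, map_mul, map_pow, map_pow, ← ha, ← hb]
    ring
  | mul_X p i hp =>
    obtain ⟨n, a, ha⟩ := hp
    refine ⟨n, a * X i, ?_⟩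
    rw [map_mul, map_X, ← ha, mul_assoc]

theorem fac5 (τ : Type) (a : MvPolynomial τ (PowerSeries k)) : ∃ b : MvPolynomial τ (PowerSeries k),
      a = map (PowerSeries.C (R := k)) (map PowerSeries.constantCoeff a) + C PowerSeries.X * b := by
  have h : C PowerSeries.X ∣ a - map (PowerSeries.C (R := k)) (map PowerSeries.constantCoeff a) := by
    rw [C_dvd_iff_dvd_coeff]
    intro m
    rw [coeff_sub, coeff_map, coeff_map, PowerSeries.X_dvd_iff]
    simp
  obtain ⟨b, hb⟩ := h
  exact ⟨b, by rw [← hb]; ring⟩

end SLb_aux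

open SLb_aux in
theorem tSLb : S_SLb := by
  intro k _
  refine ⟨inferInstance, fac2 k, fun τ => map_injective _ (inj k), ?_, fac5 k, ?_, ?_⟩
  · have h : jF k (tt k) = C (algebraMap (PowerSeries k) (LaurentSeries k) PowerSeries.X) := map_C _ _
    rw [h]
    refine IsUnit.map C ?_
    rw [isUnit_iff_ne_zero]
    intro h0
    rw [← map_zero (algebraMap (PowerSeries k) (LaurentSeries k))] at h0
    exact PowerSeries.X_ne_zero (inj k h0)
  · intro τ a h
    rcases mul_eq_zero.mp h with h1 | h1
    · exact absurd ((map_eq_zero_iff _ (C_injective τ (PowerSeries k))).mp h1) PowerSeries.X_ne_zero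
    · exact h1
  · intro τ p
    rw [MvPolynomial.map_map]
    have h : (PowerSeries.constantCoeff).comp (PowerSeries.C (R := k)) = RingHom.id k := by
      ext x
      simp
    rw [h, MvPolynomial.map_id]

end Pool.Agent.QV
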