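import Pool.Agent.Lib.MP_b53bfe_ag.Q.SpecD

/-!
# SLp: specialization over `k[[t]]`, the property `perf`
-/

set_option autoImplicit false

noncomputable section

namespace Pool.Agent.QV

open MvPolynomial
open Pool.Agent.FY (Res)

namespace SLp_aux

section swap

variable {A : Type} [CommRing A]

private theorem mem_iff {N : Type} [AddCommGroup N] [Module A N] {g : A} {x : N} :
    x ∈ (Ideal.span {g} • (⊤ : Submodule A N)) ↔ ∃ y : N, g • y = x := by
  rw [Submodule.ideal_span_singleton_smul, Submodule.mem_smul_pointwise_iff_exists]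
  constructor
  · rintro ⟨y, -, hy⟩
    exact ⟨y, hy⟩
  · rintro ⟨y, hy⟩
    exact ⟨y, trivial, hy⟩

variable (t g : A) (L : Type) [AddCommGroup L] [Module A L]

/-- the canonical map to the double quotient -/
private def dq : L →ₗ[A] Qt t (Qt g L) :=
  (Ideal.span {t} • (⊤ : Submodule A (Qt g L))).mkQ.comp (Ideal.span {g} • (⊤ : Submodule A L)).mkQ

private theorem dq_surj : Function.Surjective (dq t g L) :=
  (Submodule.mkQ_surjective _).comp (Submodule.mkQ_surjective _)

private theorem dq_ker (x : L) : x ∈ LinearMap.ker (dq t g L) ↔ ∃ y z : L, g • y + t • z = x := by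
  rw [LinearMap.mem_ker]
  show (Ideal.span {t} • (⊤ : Submodule A (Qt g L))).mkQ ((Ideal.span {g} • (⊤ : Submodule A L)).mkQ x) = 0 ↔ _
  rw [Submodule.mkQ_apply (Ideal.span {t} • (⊤ : Submodule A (Qt g L))), Submodule.Quotient.mk_eq_zero, mem_iff]
  constructor
  · rintro ⟨q, hq⟩
    obtain ⟨z, rfl⟩ := Submodule.mkQ_surjective _ q
    rw [← map_smul, ← sub_eq_zero, ← map_sub, ← LinearMap.mem_ker, Submodule.ker_mkQ, mem_iff] at hq
    obtain ⟨y, hy⟩ := hq
    refine ⟨-y, z, ?_⟩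
    rw [smul_neg, hy]
    abel
  · rintro ⟨y, z, rfl⟩
    refine ⟨(Ideal.span {g} • (⊤ : Submodule A L)).mkQ z, ?_⟩
    rw [map_add, map_smul _ t]
    have : (Ideal.span {g} • (⊤ : Submodule A L)).mkQ (g • y) = 0 := by
      rw [← LinearMap.mem_ker, Submodule.ker_mkQ, mem_iff]
      exact ⟨y, rfl⟩
    rw [this, zero_add]

/-- the two double quotients -/
private def eD : Qt t (Qt g L) ≃ₗ[A] Qt g (Qt t L) :=
  ((dq t g L).quotKerEquivOfSurjective (dq_surj t g L)).symm ≪≫ₗ
    (Submodule.quotEquivOfEq _ _ (by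
      ext x
      rw [dq_ker, dq_ker]
      constructor
      · rintro ⟨y, z, h⟩
        exact ⟨z, y, by rw [add_comm, h]⟩
      · rintro ⟨y, z, h⟩
        exact ⟨z, y, by rw [add_comm, h]⟩)) ≪≫ₗ
    ((dq g t L).quotKerEquivOfSurjective (dq_surj g t L))

/-- the pairs `(x, y)` with `t x = g y` -/
private def Tp : Submodule A (L × L) :=
  LinearMap.ker ((LinearMap.lsmul A L t).comp (LinearMap.fst A L L) -
    (LinearMap.lsmul A L g).comp (LinearMap.snd A L L))

variable {L}

private theorem mem_Tp (x : L × L) : x ∈ Tp t g L ↔ t • x.1 = g • x.2 := by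
  rw [Tp, LinearMap.mem_ker, LinearMap.sub_apply, sub_eq_zero]
  exact Iff.rfl

variable (L)

private theorem zq (x : L) : (Ideal.span {g} • (⊤ : Submodule A L)).mkQ x = 0 ↔ ∃ y : L, g • y = x := by
  rw [← LinearMap.mem_ker, Submodule.ker_mkQ, mem_iff]

/-- the first projection -/
private def m1 : Tp t g L →ₗ[A] Kr t (Qt g L) :=
  LinearMap.codRestrict _ ((Ideal.span {g} • (⊤ : Submodule A L)).mkQ.comp
    ((LinearMap.fst A L L).comp (Tp t g L).subtype)) (by
      rintro ⟨x, hx⟩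
      rw [mem_Tp] at hx
      rw [LinearMap.mem_ker, LinearMap.lsmul_apply]
      show t • (Ideal.span {g} • (⊤ : Submodule A L)).mkQ x.1 = 0
      rw [← map_smul, zq]
      exact ⟨x.2, hx.symm⟩)

/-- the second projection -/
private def m2 : Tp t g L →ₗ[A] Kr g (Qt t L) :=
  LinearMap.codRestrict _ ((Ideal.span {t} • (⊤ : Submodule A L)).mkQ.comp
    ((LinearMap.snd A L L).comp (Tp t g L).subtype)) (by
      rintro ⟨x, hx⟩
      rw [mem_Tp] at hx
      rw [LinearMap.mem_ker, LinearMap.lsmul_apply]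
      show g • (Ideal.span {t} • (⊤ : Submodule A L)).mkQ x.2 = 0
      rw [← map_smul, zq]
      exact ⟨x.1, hx⟩)

private theorem m1_surj : Function.Surjective (m1 t g L) := by
  rintro ⟨q, hq⟩
  obtain ⟨x, rfl⟩ := Submodule.mkQ_surjective _ q
  rw [LinearMap.mem_ker, LinearMap.lsmul_apply, ← map_smul, zq] at hq
  obtain ⟨y, hy⟩ := hq
  exact ⟨⟨(x, y), (mem_Tp t g _).2 hy.symm⟩, rfl⟩

private theorem m2_surj : Function.Surjective (m2 t g L) := by
  rintro ⟨q, hq⟩
  obtain ⟨x, rfl⟩ := Submodule.mkQ_surjective _ q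
  rw [LinearMap.mem_ker, LinearMap.lsmul_apply, ← map_smul, zq] at hq
  obtain ⟨y, hy⟩ := hq
  exact ⟨⟨(y, x), (mem_Tp t g _).2 hy⟩, rfl⟩

private theorem m_ker (ht : ∀ x : L, t • x = 0 → x = 0) (hg : ∀ x : L, g • x = 0 → x = 0) :
    LinearMap.ker (m1 t g L) = LinearMap.ker (m2 t g L) := by
  ext x
  obtain ⟨x, hx⟩ := x
  rw [mem_Tp] at hx
  rw [LinearMap.mem_ker, LinearMap.mem_ker, Subtype.ext_iff, Subtype.ext_iff]
  show (Ideal.span {g} • (⊤ : Submodule A L)).mkQ x.1 = 0 ↔ (Ideal.span {t} • (⊤ : Submodule A L)).mkQ x.2 = 0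
  rw [zq, zq]
  constructor
  · rintro ⟨z, hz⟩
    refine ⟨z, ?_⟩
    rw [← sub_eq_zero]
    apply hg
    rw [smul_sub, smul_comm, hz, hx, sub_self]
  · rintro ⟨z, hz⟩
    refine ⟨z, ?_⟩
    rw [← sub_eq_zero]
    apply ht
    rw [smul_sub, smul_comm, hz, hx, sub_self]

/-- the two kernels -/
private def eS (ht : ∀ x : L, t • x = 0 → x = 0) (hg : ∀ x : L, g • x = 0 → x = 0) :
    Kr t (Qt g L) ≃ₗ[A] Kr g (Qt t L) :=
  ((m1 t g L).quotKerEquivOfSurjective (m1_surj t g L)).symm ≪≫ₗ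
    (Submodule.quotEquivOfEq _ _ (m_ker t g L ht hg)) ≪≫ₗ
    ((m2 t g L).quotKerEquivOfSurjective (m2_surj t g L))

end swap

section res

variable {P A : Type} [CommRing P] [CommRing A] (ι : P →+* A) (g : A) (p : P) (M : Type) [AddCommGroup M]
  [Module A M] (h : ∀ x : M, ι p • x = g • x)

include h in
private theorem eQ_ker : (Ideal.span {p} • (⊤ : Submodule P (Res ι M))) =
    LinearMap.ker (Res.map ι (Ideal.span {g} • (⊤ : Submodule A M)).mkQ) := by
  ext x
  rw [mem_iff, LinearMap.mem_ker]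
  have e : (Res.map ι (Ideal.span {g} • (⊤ : Submodule A M)).mkQ) x = 0 ↔ ∃ y : M, g • y = x.val := zq g M x.val
  rw [e]
  constructor
  · rintro ⟨y, hy⟩
    exact ⟨y.val, by rw [← h]; exact hy⟩
  · rintro ⟨y, hy⟩
    exact ⟨Res.mk ι y, (h y).trans hy⟩

private theorem eQ_surj : Function.Surjective (Res.map ι (Ideal.span {g} • (⊤ : Submodule A M)).mkQ) := by
  intro y
  obtain ⟨x, hx⟩ := Submodule.mkQ_surjective (Ideal.span {g} • (⊤ : Submodule A M)) y.val
  exact ⟨Res.mk ι x, hx⟩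

/-- restriction of scalars and quotients -/
private def eQ : Qt p (Res ι M) ≃ₗ[P] Res ι (Qt g M) :=
  (Submodule.quotEquivOfEq _ _ (eQ_ker ι g p M h)) ≪≫ₗ
    (LinearMap.quotKerEquivOfSurjective (Res.map ι (Ideal.span {g} • (⊤ : Submodule A M)).mkQ)
      (eQ_surj ι g M))

/-- restriction of scalars and kernels -/
private def eK : Kr p (Res ι M) ≃ₗ[P] Res ι (Kr g M) where
  toFun x := Res.mk ι ⟨x.1.val, by
    have h1 : ι p • x.1.val = 0 := x.2
    rw [LinearMap.mem_ker, LinearMap.lsmul_apply, ← h, h1]⟩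
  map_add' _ _ := rfl
  map_smul' _ _ := rfl
  invFun x := ⟨Res.mk ι x.val.1, by
    have h1 : g • x.val.1 = 0 := x.val.2
    have h2 : ι p • x.val.1 = 0 := by rw [h, h1]
    exact h2⟩
  left_inv _ := rfl
  right_inv _ := rfl

end res

private theorem finP {P A : Type} [CommRing P] [CommRing A] {ι : P →+* A} {t : A}
    (hι : ∀ a : A, ∃ (p : P) (b : A), a = ι p + t * b) {M : Type} [AddCommGroup M] [Module A M]
    (hM : Module.Finite A M) (ht : ∀ m : M, t • m = 0) : Module.Finite P (Res ι M) := by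
  obtain ⟨s, hs⟩ := hM.fg_top
  have key : ∀ y ∈ Submodule.span A (s : Set M), Res.mk ι y ∈ Submodule.span P (Res.mk ι '' (s : Set M)) := by
    intro y hy
    refine Submodule.span_induction
      (p := fun y _ => Res.mk ι y ∈ Submodule.span P (Res.mk ι '' (s : Set M))) ?_ ?_ ?_ ?_ hy
    · intro y hy
      exact Submodule.subset_span ⟨y, hy, rfl⟩
    · exact Submodule.zero_mem _
    · intro y z _ _ hy hz
      exact Submodule.add_mem _ hy hz
    · intro a y _ hy
      obtain ⟨p, b, rfl⟩ := hι a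
      have h1 : (ι p + t * b) • y = ι p • y := by
        rw [add_smul, mul_smul, ht, add_zero]
      rw [h1]
      exact Submodule.smul_mem _ p hy
  have hT : Submodule.span P (Res.mk ι '' (s : Set M)) = ⊤ := by
    rw [eq_top_iff]
    intro x _
    refine key x.val ?_
    rw [hs]
    trivial
  refine ⟨?_⟩
  rw [← hT]
  exact Submodule.fg_span (s.finite_toSet.image _)

section lat

variable {A B : Type} [CommRing A] [CommRing B] (j : A →+* B) (t g : A) (G : B) (hG : j g = G)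
  (N : Type) [AddCommGroup N] [Module B N] (L : Submodule A (Res j N))

/-- the image of the lattice -/
private def L' : Submodule A (Res j (Qt G N)) :=
  L.map (Res.map j (Ideal.span {G} • (⊤ : Submodule B N)).mkQ)

private theorem L'_lt (hL : IsLt j t N L) : IsLt j t (Qt G N) (L' j G N L) := by
  refine ⟨hL.1.map _, fun m => ?_⟩
  obtain ⟨x, hx⟩ := Submodule.mkQ_surjective (Ideal.span {G} • (⊤ : Submodule B N)) m.val
  obtain ⟨n, hn⟩ := hL.2 (Res.mk j x)
  refine ⟨n, ?_⟩
  have h1 := Submodule.mem_map_of_mem (f := Res.map j (Ideal.span {G} • (⊤ : Submodule B N)).mkQ) hn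
  rw [map_smul] at h1
  have h2 : Res.map j (Ideal.span {G} • (⊤ : Submodule B N)).mkQ (Res.mk j x) = m := hx
  rw [h2] at h1
  exact h1

include hG in
/-- the map `L / g L → L'` -/
private theorem hh_ex : ∃ h : Qt g L →ₗ[A] L' j G N L, ∀ x : L,
    ((h ((Ideal.span {g} • (⊤ : Submodule A L)).mkQ x) : L' j G N L) : Res j (Qt G N)) =
      Res.mk j ((Ideal.span {G} • (⊤ : Submodule B N)).mkQ (x : Res j N).val) := by
  let h0 : L →ₗ[A] L' j G N L :=
    (Res.map j (Ideal.span {G} • (⊤ : Submodule B N)).mkQ).restrict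
      (fun x hx => Submodule.mem_map_of_mem hx)
  refine ⟨Submodule.liftQ _ h0 ?_, fun x => rfl⟩
  intro x hx
  obtain ⟨y, rfl⟩ := mem_iff.1 hx
  rw [LinearMap.mem_ker]
  apply Subtype.ext
  show (Ideal.span {G} • (⊤ : Submodule B N)).mkQ (j g • (y : Res j N).val) = 0
  rw [zq, hG]
  exact ⟨_, rfl⟩

end lat

end SLp_aux

open SLp_aux in
theorem tSLp : S_LtS → S_SLb → S_Dev → S_SLp := by
  intro hLtS hSLb hDev k _ f E _ χ₀ σ χ hs hq l N _ _ hN hk hreg
  obtain ⟨hA, hloc, hinj, hu, hC, ht0, hCC⟩ := hSLb k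
  -- the zero function
  let z : AFS (At k) (∅ : Set (At k)) E := ⟨fun _ _ _ => 0, fun _ _ _ _ _ _ _ _ _ _ _ _ _ _ _ _ => (add_zero 0).symm⟩
  obtain ⟨-, hex, -⟩ := hLtS (At k) (Gr.Pol (LaurentSeries k)) (jF k) (tt k) ∅ E z hA (hloc _)
    (fun _ _ _ _ _ _ => rfl)
  obtain ⟨L, hL⟩ := hex N hN
  have hform : ∀ i, jF k (formR f i) = Gr.form (fL f) i := fun i => map_formR _ f i
  have hform0 : ∀ i, ∃ b, formR f i = iF k (Gr.form (f0 f) i) + tt k * b := by
    intro i
    obtain ⟨b, hb⟩ := hC _ (formR f i)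
    refine ⟨b, ?_⟩
    rw [map_formR PowerSeries.constantCoeff f i] at hb
    exact hb
  have hι : ∀ a : At k, ∃ (p : Gr.Pol k) (b : At k), a = iF k p + tt k * b := by
    intro a
    obtain ⟨b, hb⟩ := hC _ a
    exact ⟨_, b, hb⟩
  have hLf : Module.Finite (At k) L := Module.Finite.iff_fg.2 hL.1
  -- the regularity on `L`
  have tL : ∀ x : L, tt k • x = 0 → x = 0 := by
    intro x hx
    apply Subtype.ext
    have h1 : jF k (tt k) • (x : Res (jF k) N).val = 0 := congrArg (fun y : L => (y : Res (jF k) N)) hx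
    obtain ⟨u, hu⟩ := hu
    rw [← hu] at h1
    have h2 := congrArg (fun y => (↑u⁻¹ : Gr.Pol (LaurentSeries k)) • y) h1
    simp only [smul_smul, Units.inv_mul, one_smul, smul_zero] at h2
    exact h2
  have gL : ∀ x : L, formR f l • x = 0 → x = 0 := by
    intro x hx
    apply Subtype.ext
    have h1 : jF k (formR f l) • (x : Res (jF k) N).val = 0 := congrArg (fun y : L => (y : Res (jF k) N)) hx
    rw [hform] at h1
    exact hreg _ h1
  have kL : ∀ i, i ≠ l → ∀ x : L, formR f i • x = 0 := by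
    intro i hi x
    apply Subtype.ext
    have h1 : jF k (formR f i) • (x : Res (jF k) N).val = 0 := by
      rw [hform]
      exact hk i hi _
    exact h1
  -- step 1
  have hMf : Module.Finite (Gr.Pol (LaurentSeries k)) (Qt (Gr.form (fL f) l) N) := inferInstance
  have hMk : KS (Set.range (Gr.form (fL f))) (Qt (Gr.form (fL f) l) N) := by
    rintro _ ⟨i, rfl⟩ m
    obtain ⟨x, rfl⟩ := Submodule.mkQ_surjective _ m
    rw [← map_smul]
    by_cases hi : i = l
    · subst hi
      rw [zq]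
      exact ⟨x, rfl⟩
    · rw [hk i hi, map_zero]
  have h1 : χ.f (Qt (Gr.form (fL f) l) N) = σ.f (L' (jF k) (Gr.form (fL f) l) N L) :=
    hs.l _ _ hMf hMk (L'_lt (jF k) (tt k) _ N L hL)
  -- step 2
  obtain ⟨h, hh⟩ := hh_ex (jF k) (formR f l) (Gr.form (fL f) l) (hform l) N L
  have kQ : KS (Set.range (formR f)) (Qt (formR f l) L) := by
    rintro _ ⟨i, rfl⟩ m
    obtain ⟨x, rfl⟩ := Submodule.mkQ_surjective _ m
    rw [← map_smul]
    by_cases hi : i = l
    · subst hi
      rw [zq]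
      exact ⟨x, rfl⟩
    · rw [kL i hi, map_zero]
  have kL' : KS (Set.range (formR f)) (L' (jF k) (Gr.form (fL f) l) N L) := by
    rintro _ ⟨i, rfl⟩ m
    apply Subtype.ext
    have h3 : jF k (formR f i) • (m : Res (jF k) (Qt (Gr.form (fL f) l) N)).val = 0 := by
      rw [hform]
      exact hMk _ ⟨i, rfl⟩ _
    exact h3
  have h2 : σ.f (Qt (formR f l) L) = σ.f (L' (jF k) (Gr.form (fL f) l) N L) := by
    refine hs.c _ _ h inferInstance kQ (Module.Finite.iff_fg.2 (L'_lt (jF k) (tt k) _ N L hL).1) kL' ?_ ?_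
    · intro m hm
      obtain ⟨x, rfl⟩ := Submodule.mkQ_surjective _ m
      have h3 := hh x
      rw [hm] at h3
      have h4 : (Ideal.span {Gr.form (fL f) l} • (⊤ : Submodule (Gr.Pol (LaurentSeries k)) N)).mkQ
          (x : Res (jF k) N).val = 0 := h3.symm
      rw [zq] at h4
      obtain ⟨y, hy⟩ := h4
      obtain ⟨n, hn⟩ := hL.2 (Res.mk (jF k) y)
      refine ⟨n, ?_⟩
      rw [← map_smul, zq]
      refine ⟨⟨_, hn⟩, ?_⟩
      apply Subtype.ext
      have h5 : formR f l • Res.mk (jF k) y = (x : Res (jF k) N) := by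
        have h6 : jF k (formR f l) • y = (x : Res (jF k) N).val := by rw [hform]; exact hy
        exact h6
      show formR f l • tt k ^ n • Res.mk (jF k) y = tt k ^ n • (x : Res (jF k) N)
      rw [smul_comm, h5]
    · rintro ⟨y, hy⟩
      obtain ⟨x, hx, rfl⟩ := hy
      refine ⟨0, (Ideal.span {formR f l} • (⊤ : Submodule (At k) L)).mkQ ⟨x, hx⟩, ?_⟩
      rw [pow_zero, one_smul]
      apply Subtype.ext
      rw [hh]
      rfl
  -- step 3
  have h3 := hs.s (Qt (formR f l) L)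
  -- step 4: the module over `k[x]`
  have tN : ∀ x : Qt (tt k) L, tt k • x = 0 := by
    intro x
    obtain ⟨x, rfl⟩ := Submodule.mkQ_surjective _ x
    rw [← map_smul, zq]
    exact ⟨x, rfl⟩
  have act : ∀ i, ∀ x : Qt (tt k) L, iF k (Gr.form (f0 f) i) • x = formR f i • x := by
    intro i x
    obtain ⟨b, hb⟩ := hform0 i
    rw [hb, add_smul, mul_smul, tN, add_zero]
  have kN : ∀ i, i ≠ l → ∀ x : Qt (tt k) L, formR f i • x = 0 := by
    intro i hi x
    obtain ⟨x, rfl⟩ := Submodule.mkQ_surjective _ x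
    rw [← map_smul, kL i hi, map_zero]
  have fN : Module.Finite (Gr.Pol k) (Res (iF k) (Qt (tt k) L)) := finP hι inferInstance tN
  have kN0 : ∀ i, i ≠ l → ∀ x : Res (iF k) (Qt (tt k) L), Gr.form (f0 f) i • x = 0 := by
    intro i hi x
    have h4 : iF k (Gr.form (f0 f) i) • x.val = 0 := by rw [act, kN i hi]
    exact h4
  have h5 := hDev k (f0 f) E χ₀ hq l (Res (iF k) (Qt (tt k) L)) fN kN0
  -- the isomorphisms
  have kQ0 : KS (Set.range (Gr.form (f0 f))) (Qt (Gr.form (f0 f) l) (Res (iF k) (Qt (tt k) L))) := by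
    rintro _ ⟨i, rfl⟩ m
    obtain ⟨x, rfl⟩ := Submodule.mkQ_surjective _ m
    rw [← map_smul]
    by_cases hi : i = l
    · subst hi
      rw [zq]
      exact ⟨x, rfl⟩
    · rw [kN0 i hi, map_zero]
  have kK0 : KS (Set.range (Gr.form (f0 f))) (Kr (Gr.form (f0 f) l) (Res (iF k) (Qt (tt k) L))) := by
    rintro _ ⟨i, rfl⟩ m
    apply Subtype.ext
    by_cases hi : i = l
    · subst hi
      exact m.2
    · exact kN0 i hi m.1
  have fK0 : Module.Finite (Gr.Pol k) (Kr (Gr.form (f0 f) l) (Res (iF k) (Qt (tt k) L))) := by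
    have : IsNoetherian (Gr.Pol k) (Res (iF k) (Qt (tt k) L)) := isNoetherian_of_isNoetherianRing_of_finite _ _
    exact Module.Finite.of_injective (LinearMap.ker _).subtype (Submodule.injective_subtype _)
  have h6 : χ₀.f (Qt (Gr.form (f0 f) l) (Res (iF k) (Qt (tt k) L))) =
      χ₀.f (Res (iF k) (Qt (tt k) (Qt (formR f l) L))) :=
    χ₀.iso (eQ (iF k) (formR f l) (Gr.form (f0 f) l) (Qt (tt k) L) (act l) ≪≫ₗ
      Res.equiv (iF k) (eD (formR f l) (tt k) L)) inferInstance kQ0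
  have h7 : χ₀.f (Kr (Gr.form (f0 f) l) (Res (iF k) (Qt (tt k) L))) =
      χ₀.f (Res (iF k) (Kr (tt k) (Qt (formR f l) L))) :=
    χ₀.iso (eK (iF k) (formR f l) (Gr.form (f0 f) l) (Qt (tt k) L) (act l) ≪≫ₗ
      Res.equiv (iF k) (eS (formR f l) (tt k) L gL tL)) fK0 kK0
  rw [h1, ← h2, h3, ← h6, ← h7, h5, sub_self]

end Pool.Agent.QV
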