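import Pool.Agent.Lib.MP_b53bfe_ag.Q.SpecD

/-!
# Disproof of Q1 of MP_b53bfe_ag, phase 2, module SLs (helper87)
-/

set_option autoImplicit false

noncomputable section

namespace Pool.Agent.QV

open MvPolynomial
open Pool.Agent.FY (Res)

namespace SLs_aux

/-- denominators can be cleared in the ideal generated by the image -/
theorem clear {A B : Type} [CommRing A] [CommRing B] (j : A →+* B) (t : A)
    (hb : ∀ b : B, ∃ (n : ℕ) (a : A), j t ^ n * b = j a) (S : Set A) (b : B)
    (h : b ∈ Ideal.span (j '' S)) : ∃ (n : ℕ) (a : A), a ∈ Ideal.span S ∧ j t ^ n * b = j a := by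
  refine Submodule.span_induction
    (p := fun b _ => ∃ (n : ℕ) (a : A), a ∈ Ideal.span S ∧ j t ^ n * b = j a) ?_ ?_ ?_ ?_ h
  · rintro _ ⟨s, hs, rfl⟩
    exact ⟨0, s, Ideal.subset_span hs, by rw [pow_zero, one_mul]⟩
  · exact ⟨0, 0, Ideal.zero_mem _, by rw [mul_zero, map_zero]⟩
  · rintro x y _ _ ⟨n, a, ha, h1⟩ ⟨m, a', ha', h2⟩
    refine ⟨n + m, t ^ m * a + t ^ n * a', Ideal.add_mem _ (Ideal.mul_mem_left _ _ ha)
      (Ideal.mul_mem_left _ _ ha'), ?_⟩
    rw [map_add, map_mul, map_mul, map_pow, map_pow, ← h1, ← h2]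
    ring
  · rintro c x _ ⟨n, a, ha, h1⟩
    obtain ⟨m, c', h2⟩ := hb c
    refine ⟨m + n, c' * a, Ideal.mul_mem_left _ _ ha, ?_⟩
    rw [map_mul, ← h1, ← h2, smul_eq_mul]
    ring

/-- a finite module killed by `t` is finite over `P` -/
theorem finP {P A : Type} [CommRing P] [CommRing A] (ι : P →+* A) (t : A)
    (h : ∀ a : A, ∃ (p : P) (b : A), a = ι p + t * b) (M : Type) [AddCommGroup M] [Module A M]
    (hM : Module.Finite A M) (ht : ∀ m : M, t • m = 0) : Module.Finite P (Res ι M) := by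
  obtain ⟨s, hs⟩ := hM.fg_top
  refine ⟨⟨s, ?_⟩⟩
  refine Submodule.eq_top_iff'.mpr fun x => ?_
  have hx : (Res.val x : M) ∈ Submodule.span A (s : Set M) := hs ▸ Submodule.mem_top
  refine Submodule.span_induction
    (p := fun (y : M) _ => (Res.mk ι y) ∈ Submodule.span P (show Set (Res ι M) from (s : Set M)))
    ?_ ?_ ?_ ?_ hx
  · intro y hy
    exact Submodule.subset_span hy
  · exact Submodule.zero_mem _
  · intro y z _ _ h1 h2
    exact Submodule.add_mem _ h1 h2
  · intro a y _ h1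
    obtain ⟨p, b, rfl⟩ := h a
    have h2 : (ι p + t * b) • y = ι p • y := by
      rw [add_smul, mul_smul, ht, add_zero]
    rw [h2]
    exact Submodule.smul_mem _ p h1

/-- the module `A / J` modulo `t` -/
theorem isoQ {P A : Type} [CommRing P] [CommRing A] (ι : P →+* A) (e : A →+* P) (t : A)
    (h : ∀ a : A, ∃ (p : P) (b : A), a = ι p + t * b) (he : ∀ p, e (ι p) = p) (het : e t = 0)
    (J : Ideal A) (I : Ideal P) (hJ : ∀ a ∈ J, e a ∈ I)
    (hI : ∀ p ∈ I, ∃ r ∈ J, ∃ b : A, ι p = r + t * b) :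
    Nonempty ((P ⧸ I) ≃ₗ[P] Res ι (Qt t (A ⧸ J))) := by
  let q : A →ₗ[A] Qt t (A ⧸ J) := (Submodule.mkQ _).comp (Submodule.mkQ J)
  have hq0 : ∀ a : A, q a = 0 ↔ ∃ r ∈ J, ∃ b : A, a = r + t * b := by
    intro a
    constructor
    · intro ha
      have h1 : (Submodule.mkQ J a) ∈ (Ideal.span {t} • (⊤ : Submodule A (A ⧸ J))) := by
        exact (Submodule.Quotient.mk_eq_zero _).mp ha
      rw [Submodule.ideal_span_singleton_smul] at h1
      obtain ⟨y, -, hy⟩ := (Submodule.mem_smul_pointwise_iff_exists _ _ _).mp h1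
      obtain ⟨b, rfl⟩ := Submodule.mkQ_surjective J y
      refine ⟨a - t * b, ?_, b, by ring⟩
      have h2 : Submodule.mkQ J (a - t * b) = 0 := by
        rw [map_sub, ← hy, ← smul_eq_mul, map_smul, sub_self]
      exact (Submodule.Quotient.mk_eq_zero _).mp h2
    · rintro ⟨r, hr, b, rfl⟩
      have h1 : Submodule.mkQ J (r + t * b) = t • Submodule.mkQ J b := by
        rw [map_add, ← smul_eq_mul, map_smul]
        have : Submodule.mkQ J r = 0 := (Submodule.Quotient.mk_eq_zero _).mpr hr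
        rw [this, zero_add]
      have h2 : (Submodule.mkQ J (r + t * b)) ∈ (Ideal.span {t} • (⊤ : Submodule A (A ⧸ J))) := by
        rw [h1]
        exact Submodule.smul_mem_smul (Ideal.mem_span_singleton_self t) Submodule.mem_top
      exact (Submodule.Quotient.mk_eq_zero _).mpr h2
  let φ : P →ₗ[P] Res ι (Qt t (A ⧸ J)) :=
    { toFun := fun p => Res.mk ι (q (ι p))
      map_add' := fun a b => by
        show q (ι (a + b)) = q (ι a) + q (ι b)
        rw [map_add, map_add]
      map_smul' := fun a b => by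
        show q (ι (a • b)) = ι a • q (ι b)
        rw [smul_eq_mul, map_mul, ← smul_eq_mul, map_smul] }
  have hφ : ∀ p, φ p = 0 ↔ p ∈ I := by
    intro p
    constructor
    · intro hp
      obtain ⟨r, hr, b, hb⟩ := (hq0 (ι p)).mp hp
      have h1 := congrArg e hb
      rw [he, map_add, map_mul, het, zero_mul, add_zero] at h1
      rw [h1]
      exact hJ r hr
    · intro hp
      exact (hq0 (ι p)).mpr (hI p hp)
  have hk : LinearMap.ker φ = I := by
    ext p
    exact LinearMap.mem_ker.trans (hφ p)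
  have hs : Function.Surjective φ := by
    intro x
    obtain ⟨y, hy⟩ := Submodule.mkQ_surjective (Ideal.span {t} • (⊤ : Submodule A (A ⧸ J))) (Res.val x)
    obtain ⟨a, rfl⟩ := Submodule.mkQ_surjective J y
    obtain ⟨p, b, hab⟩ := h a
    refine ⟨p, ?_⟩
    show q (ι p) = x
    have h1 : q (t * b) = 0 := (hq0 _).mpr ⟨0, J.zero_mem, b, by ring⟩
    have h2 : q a = q (ι p) := by rw [hab, map_add, h1, add_zero]
    rw [← h2]
    exact hy
  exact ⟨(Submodule.quotEquivOfEq _ _ hk.symm).trans (φ.quotKerEquivOfSurjective hs)⟩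

/-- a finite module all of whose elements are killed by powers of `x` is killed by a power of `x` -/
theorem unif {A : Type} [CommRing A] (x : A) (M : Type) [AddCommGroup M] [Module A M]
    (hM : Module.Finite A M) (h : ∀ m : M, ∃ n : ℕ, x ^ n • m = 0) : ∃ n : ℕ, ∀ m : M, x ^ n • m = 0 := by
  classical
  obtain ⟨s, hs⟩ := hM.fg_top
  choose n hn using h
  refine ⟨s.sup n, fun m => ?_⟩
  have hm : m ∈ Submodule.span A (s : Set M) := hs ▸ Submodule.mem_top
  refine Submodule.span_induction (p := fun (y : M) _ => x ^ s.sup n • y = 0) ?_ ?_ ?_ ?_ hm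
  · intro y hy
    have h1 : n y ≤ s.sup n := Finset.le_sup (f := n) (Finset.mem_coe.mp hy)
    obtain ⟨c, hc⟩ := Nat.exists_eq_add_of_le h1
    rw [hc, add_comm, pow_add, mul_smul, hn, smul_zero]
  · exact smul_zero _
  · intro y z _ _ h1 h2
    rw [smul_add, h1, h2, add_zero]
  · intro a y _ h1
    rw [smul_comm, h1, smul_zero]

end SLs_aux

open SLs_aux in
theorem tSLs : S_SLb → S_SgT → S_SLs := by
  intro hb hg k _ f E _ χ₀ σ χ hS hQ hf hf0
  obtain ⟨hN, hden, hinj, -, hdec, htor, hret⟩ := hb k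
  let J : Ideal (At k) := Ideal.span (smR f)
  let K : Ideal (Gr.Pol (LaurentSeries k)) := Ideal.span (smR (fL f))
  have hKJ : K = Ideal.span (jF k '' smR f) := by
    show Ideal.span (smR (fL f)) = _
    rw [map_smR]
    rfl
  -- the lattice
  let x₀ : Res (jF k) (Gr.Pol (LaurentSeries k) ⧸ K) := Res.mk (jF k) (Ideal.Quotient.mk K 1)
  let φ : At k →ₗ[At k] Res (jF k) (Gr.Pol (LaurentSeries k) ⧸ K) := LinearMap.toSpanSingleton (At k) _ x₀
  have hφ : ∀ a : At k, φ a = Res.mk (jF k) (Ideal.Quotient.mk K (jF k a)) := by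
    intro a
    show jF k a • (Ideal.Quotient.mk K 1) = _
    rw [← Ideal.Quotient.mk_eq_mk, ← Submodule.Quotient.mk_smul, smul_eq_mul, mul_one]
    rfl
  have hφJ : ∀ p : At k, φ p = 0 → ∃ n : ℕ, tt k ^ n * p ∈ J := by
    intro p hp
    rw [hφ] at hp
    have h1 : jF k p ∈ K := Ideal.Quotient.eq_zero_iff_mem.mp hp
    rw [hKJ] at h1
    obtain ⟨n, a, ha, h2⟩ := clear (jF k) (tt k) (hden _) (smR f) _ h1
    refine ⟨n, ?_⟩
    have h3 : jF k (tt k ^ n * p) = jF k a := by rw [map_mul, map_pow, h2]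
    rw [hinj _ h3]
    exact ha
  have hJφ : ∀ p ∈ J, φ p = 0 := by
    intro p hp
    rw [hφ]
    have h1 : jF k p ∈ K := by
      rw [hKJ]
      have := Ideal.mem_map_of_mem (jF k) hp
      rwa [Ideal.map_span] at this
    exact Ideal.Quotient.eq_zero_iff_mem.mpr h1
  have hKS : KS (Set.range (Gr.form (fL f))) (Gr.Pol (LaurentSeries k) ⧸ K) := by
    rintro _ ⟨i, rfl⟩ m
    obtain ⟨b, rfl⟩ := Ideal.Quotient.mk_surjective m
    rw [← Ideal.Quotient.mk_eq_mk, ← Submodule.Quotient.mk_smul]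
    refine (Submodule.Quotient.mk_eq_zero _).mpr (Ideal.mul_mem_right _ _ (Ideal.subset_span ?_))
    exact Or.inr ⟨i, rfl⟩
  have hLt : IsLt (jF k) (tt k) (Gr.Pol (LaurentSeries k) ⧸ K) (LinearMap.range φ) := by
    constructor
    · rw [LinearMap.range_eq_map]
      exact Submodule.FG.map _ (Module.finite_def.mp inferInstance)
    · intro m
      obtain ⟨b, hbm⟩ := Ideal.Quotient.mk_surjective (Res.val m)
      obtain ⟨n, a, h1⟩ := hden _ b
      refine ⟨n, a, ?_⟩
      rw [hφ]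
      have h2 : jF k (tt k ^ n) • (Ideal.Quotient.mk K b) = Ideal.Quotient.mk K (jF k a) := by
        rw [← Ideal.Quotient.mk_eq_mk, ← Submodule.Quotient.mk_smul, smul_eq_mul, map_pow]
        exact congrArg (Ideal.Quotient.mk K) h1
      rw [hbm] at h2
      exact h2.symm
  have e1 : χ.f (Gr.Pol (LaurentSeries k) ⧸ K) = σ.f (LinearMap.range φ) :=
    hS.l _ _ inferInstance hKS hLt
  -- the surjection from `At k / J`
  have hKSJ : KS (Set.range (formR f)) (At k ⧸ J) := by
    rintro _ ⟨i, rfl⟩ m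
    obtain ⟨b, rfl⟩ := Ideal.Quotient.mk_surjective m
    rw [← Ideal.Quotient.mk_eq_mk, ← Submodule.Quotient.mk_smul]
    refine (Submodule.Quotient.mk_eq_zero _).mpr (Ideal.mul_mem_right _ _ (Ideal.subset_span ?_))
    exact Or.inr ⟨i, rfl⟩
  have hKSL : KS (Set.range (formR f)) (LinearMap.range φ) := by
    rintro _ ⟨i, rfl⟩ ⟨m, a, rfl⟩
    refine Subtype.ext ?_
    show formR f i • φ a = 0
    rw [← map_smul]
    exact hJφ _ (Ideal.mul_mem_right _ _ (Ideal.subset_span (Or.inr ⟨i, rfl⟩)))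
  let g : (At k ⧸ J) →ₗ[At k] LinearMap.range φ :=
    Submodule.liftQ J φ.rangeRestrict (fun p hp => Subtype.ext (hJφ p hp))
  have hgm : ∀ p : At k, ((g (Submodule.Quotient.mk p) : LinearMap.range φ) : Res (jF k) _) = φ p := fun p => rfl
  have e2 : σ.f (At k ⧸ J) = σ.f (LinearMap.range φ) := by
    refine hS.c _ _ g inferInstance hKSJ (Module.Finite.iff_fg.mpr hLt.1) hKSL ?_ ?_
    · intro m hm
      obtain ⟨p, rfl⟩ := Submodule.Quotient.mk_surjective _ m
      have h1 : φ p = 0 := by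
        rw [← hgm, hm]
        rfl
      obtain ⟨n, hn⟩ := hφJ p h1
      exact ⟨n, (Submodule.Quotient.mk_eq_zero _).mpr hn⟩
    · rintro ⟨y, a, rfl⟩
      refine ⟨0, Submodule.Quotient.mk a, ?_⟩
      rw [pow_zero, one_smul]
      exact Subtype.ext (hgm a).symm
  -- reduction modulo `t`
  have hA : ∀ a : At k, ∃ (p : Gr.Pol k) (b : At k), a = iF k p + tt k * b := by
    intro a
    obtain ⟨b, h1⟩ := hdec _ a
    exact ⟨_, b, h1⟩
  have hform : ∀ i, ∃ b : At k, iF k (Gr.form (f0 f) i) = formR f i + tt k * b := by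
    intro i
    obtain ⟨b, h1⟩ := hdec _ (formR f i)
    refine ⟨-b, ?_⟩
    have h2 : map PowerSeries.constantCoeff (formR f i) = Gr.form (f0 f) i := by
      rw [map_formR]
      rfl
    rw [h2] at h1
    rw [h1]
    ring
  have hK0 : χ₀.f (Res (iF k) (Kr (tt k) (At k ⧸ J))) = 0 := by
    have htk : ∀ m : Kr (tt k) (At k ⧸ J), tt k • m = 0 := fun m => Subtype.ext m.2
    have hfin : Module.Finite (At k) (Kr (tt k) (At k ⧸ J)) := by
      have : IsNoetherian (At k) (At k ⧸ J) := isNoetherian_of_isNoetherianRing_of_finite _ _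
      exact Module.Finite.of_fg (IsNoetherian.noetherian _)
    obtain ⟨n, hn⟩ := unif (X (1, 3) : At k) (Kr (tt k) (At k ⧸ J)) hfin (fun m => by
      obtain ⟨p, hp⟩ := Submodule.Quotient.mk_surjective _ m.1
      have h1 : tt k • (m.1 : At k ⧸ J) = 0 := m.2
      rw [← hp] at h1
      have h2 : tt k * p ∈ J := (Submodule.Quotient.mk_eq_zero _).mp h1
      obtain ⟨n, hn⟩ := hg k f hf hf0 p h2
      refine ⟨n, Subtype.ext ?_⟩
      show (X (1, 3) : At k) ^ n • (m.1 : At k ⧸ J) = 0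
      rw [← hp]
      exact (Submodule.Quotient.mk_eq_zero _).mpr hn)
    refine hQ.tors _ (finP (iF k) (tt k) hA _ hfin htk) ?_ ⟨1, n, ?_⟩
    · rintro _ ⟨i, rfl⟩ m
      obtain ⟨b, hb1⟩ := hform i
      show iF k (Gr.form (f0 f) i) • (Res.val m : Kr (tt k) (At k ⧸ J)) = 0
      rw [hb1, add_smul, mul_comm, mul_smul, htk, smul_zero, add_zero]
      exact Subtype.ext (hKSJ _ ⟨i, rfl⟩ _)
    · intro m
      show iF k ((X (1, 3) : Gr.Pol k) ^ n) • (Res.val m : Kr (tt k) (At k ⧸ J)) = 0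
      rw [map_pow, map_X]
      exact hn _
  obtain ⟨e⟩ := isoQ (iF k) (map PowerSeries.constantCoeff : At k →+* Gr.Pol k) (tt k) hA (hret _)
    (by rw [map_C, PowerSeries.constantCoeff_X, map_zero]) J (Ideal.span (Gr.smallGens (f0 f)))
    (fun a ha => by
      have h1 := Ideal.mem_map_of_mem (map PowerSeries.constantCoeff : At k →+* Gr.Pol k) ha
      rwa [Ideal.map_span, map_smR] at h1)
    (fun p hp => by
      refine Submodule.span_induction
        (p := fun p _ => ∃ r ∈ J, ∃ b : At k, iF k p = r + tt k * b) ?_ ?_ ?_ ?_ hp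
      · intro s hs
        have hs' : s ∈ (map PowerSeries.constantCoeff : At k →+* Gr.Pol k) '' smR f := by
          rw [map_smR]
          exact hs
        obtain ⟨r, hr, rfl⟩ := hs'
        obtain ⟨b, h1⟩ := hdec _ r
        refine ⟨r, Ideal.subset_span hr, -b, ?_⟩
        have h2 : iF k (map PowerSeries.constantCoeff r) = r - tt k * b := by
          conv_rhs => rw [h1]
          exact (add_sub_cancel_right _ _).symm
        rw [h2]
        ring
      · exact ⟨0, J.zero_mem, 0, by rw [map_zero, mul_zero, add_zero]⟩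
      · rintro x y _ _ ⟨r, hr, b, h1⟩ ⟨r', hr', b', h2⟩
        exact ⟨r + r', J.add_mem hr hr', b + b', by rw [map_add, h1, h2]; ring⟩
      · rintro c x _ ⟨r, hr, b, h1⟩
        exact ⟨iF k c * r, J.mul_mem_left _ hr, iF k c * b, by rw [smul_eq_mul, map_mul, h1]; ring⟩)
  have e3 : χ₀.f (Gr.Pol k ⧸ Ideal.span (Gr.smallGens (f0 f))) = χ₀.f (Res (iF k) (Qt (tt k) (At k ⧸ J))) := by
    refine χ₀.iso e inferInstance ?_
    rintro _ ⟨i, rfl⟩ m
    obtain ⟨b, rfl⟩ := Ideal.Quotient.mk_surjective m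
    rw [← Ideal.Quotient.mk_eq_mk, ← Submodule.Quotient.mk_smul]
    refine (Submodule.Quotient.mk_eq_zero _).mpr (Ideal.mul_mem_right _ _ (Ideal.subset_span ?_))
    exact Or.inr ⟨i, rfl⟩
  have e4 := hS.s (At k ⧸ J)
  rw [hK0, sub_zero] at e4
  show χ.f (Gr.Pol (LaurentSeries k) ⧸ K) = _
  rw [e1, ← e2, e4, e3]

end Pool.Agent.QV
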