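import Pool.Agent.Lib.MP_b53bfe_ag.Q.SpecD

/-!
# Disproof of Q1 of MP_b53bfe_ag, module SLt: specialization, torsion (helper42)
-/

set_option autoImplicit false

noncomputable section

namespace Pool.Agent.QV

open MvPolynomial
open Pool.Agent.FY (Res)

namespace SLt_aux

variable {k : Type} [Field k]

/-- `a = p + t b` -/
def Dcp (k : Type) [Field k] : Prop :=
  ∀ a : At k, ∃ b : At k, a = iF k (map PowerSeries.constantCoeff a) + tt k * b

/-- finite modules killed by `t` are finite over `k[x]` -/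
theorem fin (hd : Dcp k) (Q : Type) [AddCommGroup Q] [Module (At k) Q] (hQ : Module.Finite (At k) Q)
    (ht : ∀ m : Q, tt k • m = 0) : Module.Finite (Gr.Pol k) (Res (iF k) Q) := by
  obtain ⟨s, hs⟩ := hQ.fg_top
  let s' : Finset (Res (iF k) Q) := s
  refine ⟨⟨s', ?_⟩⟩
  rw [eq_top_iff]
  intro m _
  have hm : m.val ∈ Submodule.span (At k) (s : Set Q) := by
    rw [hs]
    exact Submodule.mem_top
  refine Submodule.span_induction (p := fun (x : Q) _ =>
    Res.mk (iF k) x ∈ Submodule.span (Gr.Pol k) (s' : Set (Res (iF k) Q))) ?_ ?_ ?_ ?_ hm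
  · intro x hx
    exact Submodule.subset_span (R := Gr.Pol k) (M := Res (iF k) Q) (s := (s' : Set (Res (iF k) Q))) hx
  · exact Submodule.zero_mem _
  · intro x y _ _ hx hy
    exact Submodule.add_mem _ hx hy
  · intro a x _ hx
    obtain ⟨b, hb⟩ := hd a
    have h1 : a • x = iF k (map PowerSeries.constantCoeff a) • x := by
      conv_lhs => rw [hb]
      rw [add_smul, mul_comm, mul_smul, ht, smul_zero, add_zero]
    have h2 : Res.mk (iF k) (a • x) = (map PowerSeries.constantCoeff a) • Res.mk (iF k) x := by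
      rw [Pool.Agent.FY.Res.smul_mk, h1]
    rw [h2]
    exact Submodule.smul_mem _ _ hx

/-- an element of `At k` and its reduction -/
theorem red (hd : Dcp k) (Q : Type) [AddCommGroup Q] [Module (At k) Q]
    (ht : ∀ m : Q, tt k • m = 0) (a : At k) (p : Gr.Pol k) (hp : map PowerSeries.constantCoeff a = p)
    (ha : ∀ m : Q, a • m = 0) (m : Res (iF k) Q) : p • m = 0 := by
  obtain ⟨b, hb⟩ := hd a
  have h1 : a • m.val = iF k (map PowerSeries.constantCoeff a) • m.val := by
    conv_lhs => rw [hb]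
    rw [add_smul, mul_comm, mul_smul, ht, smul_zero, add_zero]
  rw [ha] at h1
  subst hp
  exact h1.symm

/-- modules killed by `t`, the forms, and a power of `X (i, 3)` -/
theorem zero (hd : Dcp k) (f : MvPolynomial (Fin 5) (PowerSeries k)) (E : Type) [AddCommGroup E]
    (χ₀ : AFS (Gr.Pol k) (Set.range (Gr.form (f0 f))) E) (hQF : QF k (f0 f) E χ₀)
    (Q : Type) [AddCommGroup Q] [Module (At k) Q] (hQ : Module.Finite (At k) Q)
    (ht : ∀ m : Q, tt k • m = 0) (hf : ∀ i, ∀ m : Q, formR f i • m = 0) (i : Fin 3) (n : ℕ)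
    (hX : ∀ m : Q, (X (i, 3) : At k) ^ n • m = 0) : χ₀.f (Res (iF k) Q) = 0 := by
  refine hQF.tors _ (fin hd Q hQ ht) ?_ ⟨i, n, ?_⟩
  · rintro _ ⟨l, rfl⟩ m
    exact red hd Q ht (formR f l) _ (map_formR _ f l) (hf l) m
  · intro m
    exact red hd Q ht ((X (i, 3) : At k) ^ n) _ (by rw [map_pow, map_X]) hX m

end SLt_aux

open SLt_aux in
theorem tSLt : S_LtS → S_SLb → S_SLt := by
  intro hLt hSb k _ f E _ χ₀ σ χ hS hQF M _ _ hM hK hX
  obtain ⟨i, n, hX⟩ := hX
  obtain ⟨hno, hloc, -, -, hdc, -, -⟩ := hSb k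
  have hd : Dcp k := fun a => hdc _ a
  have h0 : ∀ (M : Type) [AddCommGroup M] [Module (At k) M], Module.Finite (At k) M →
      KS (Set.range (formR f)) M → (∀ m : M, tt k • m = 0) → σ.f M = 0 := by
    intro M _ _ hM hK ht
    rw [hS.c M PUnit 0 hM hK inferInstance (fun _ _ _ => rfl)
      (fun m _ => ⟨1, by rw [pow_one]; exact ht m⟩) (fun y => ⟨0, 0, rfl⟩)]
    exact σ.punit
  obtain ⟨-, hex, -⟩ := hLt (At k) (Gr.Pol (LaurentSeries k)) (jF k) (tt k) (Set.range (formR f)) E σ
    hno (fun b => hloc _ b) h0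
  obtain ⟨L, hL⟩ := hex M hM
  rw [hS.l M L hM hK hL, hS.s]
  have hLf : Module.Finite (At k) L := Module.Finite.iff_fg.2 hL.1
  have hform : ∀ (l : Fin 3) (m : L), formR f l • m = 0 := by
    intro l m
    apply Subtype.ext
    have h1 : jF k (formR f l) = Gr.form (fL f) l := map_formR _ f l
    have h2 := hK (Gr.form (fL f) l) ⟨l, rfl⟩ (m : Res (jF k) M).val
    rw [← h1] at h2
    exact h2
  have hpow : ∀ m : L, (X (i, 3) : At k) ^ n • m = 0 := by
    intro m
    apply Subtype.ext
    have h1 : jF k ((X (i, 3) : At k) ^ n) = (X (i, 3) : Gr.Pol (LaurentSeries k)) ^ n := by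
      rw [map_pow, map_X]
    have h2 := hX (m : Res (jF k) M).val
    rw [← h1] at h2
    exact h2
  have e1 : χ₀.f (Res (iF k) (Qt (tt k) L)) = 0 := by
    refine zero hd f E χ₀ hQF _ inferInstance ?_ ?_ i n ?_
    · intro m
      obtain ⟨x, rfl⟩ := Submodule.Quotient.mk_surjective _ m
      rw [← Submodule.Quotient.mk_smul, Submodule.Quotient.mk_eq_zero]
      exact Submodule.smul_mem_smul (Ideal.subset_span rfl) Submodule.mem_top
    · intro l m
      obtain ⟨x, rfl⟩ := Submodule.Quotient.mk_surjective _ m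
      rw [← Submodule.Quotient.mk_smul, hform, Submodule.Quotient.mk_zero]
    · intro m
      obtain ⟨x, rfl⟩ := Submodule.Quotient.mk_surjective _ m
      rw [← Submodule.Quotient.mk_smul, hpow, Submodule.Quotient.mk_zero]
  have e2 : χ₀.f (Res (iF k) (Kr (tt k) L)) = 0 := by
    refine zero hd f E χ₀ hQF _ ?_ ?_ ?_ i n ?_
    · have : IsNoetherian (At k) L := isNoetherian_of_isNoetherianRing_of_finite (At k) L
      exact Module.IsNoetherian.finite _ _
    · rintro ⟨m, hm⟩
      exact Subtype.ext hm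
    · rintro l ⟨m, hm⟩
      exact Subtype.ext (hform l m)
    · rintro ⟨m, hm⟩
      exact Subtype.ext (hpow m)
  rw [e1, e2, sub_zero]

end Pool.Agent.QV
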