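import Pool.Agent.Lib.MP_b53bfe_ag.Q.SpecD

/-!
# Disproof of Q1 of MP_b53bfe_ag, phase 2: the kernel of the Segre map is torsion
-/

set_option autoImplicit false

noncomputable section

namespace Pool.Agent.QV

open MvPolynomial
open Pool.Agent.FY (Res)

namespace SgT_aux

theorem aeval_scale {R S : Type} [CommRing R] [CommRing S] [Algebra R S] {n : ℕ} {f : MvPolynomial (Fin 5) R}
    (hf : f.IsHomogeneous n) (r : S) (y : Fin 5 → S) :
    aeval (fun j => r * y j) f = r ^ n * aeval y f := by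
  rw [aeval_def, aeval_def, eval₂_eq, eval₂_eq, Finset.mul_sum]
  refine Finset.sum_congr rfl fun m hm => ?_
  have hd : m.degree = n := by
    have h := hf (mem_support_iff.mp hm)
    rw [← h, Finsupp.degree_eq_weight_one]
    rfl
  have h1 : ∏ i ∈ m.support, (r * y i) ^ m i = r ^ n * ∏ i ∈ m.support, y i ^ m i := by
    have h2 : ∀ i ∈ m.support, (r * y i) ^ m i = r ^ m i * y i ^ m i := fun i _ => mul_pow _ _ _
    rw [Finset.prod_congr rfl h2, Finset.prod_mul_distrib, Finset.prod_pow_eq_pow_sum]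
    congr 2
  rw [h1]
  ring

/-- the factor of the row `i` -/
def rw3 (R : Type) [CommRing R] (i : Fin 3) : MvPolynomial (Fin 5 ⊕ Fin 2) R :=
  ![X (Sum.inr 0), 1, X (Sum.inr 1)] i

theorem gR_X (R : Type) [CommRing R] (i : Fin 3) (j : Fin 5) :
    gR R (X (i, j)) = rw3 R i * X (Sum.inl j) := by
  fin_cases i <;> simp [gR, rw3]

theorem gR_mn (R : Type) [CommRing R] (i k : Fin 3) (j j' : Fin 5) : gR R (mnR R i k j j') = 0 := by
  simp only [mnR, map_sub, map_mul, gR_X]
  ring

theorem gR_form {R : Type} [CommRing R] {f : MvPolynomial (Fin 5) R} (hf : f.IsHomogeneous 5) (i : Fin 3) :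
    gR R (formR f i) = rw3 R i ^ 5 * rename Sum.inl f := by
  have h : gR R (formR f i) = aeval (fun j => rw3 R i * X (Sum.inl j)) f := by
    have h3 : (gR R).comp (rename (fun j => (i, j))) = aeval (fun j => rw3 R i * X (Sum.inl j)) := by
      refine MvPolynomial.algHom_ext ?_
      intro j
      rw [AlgHom.comp_apply, rename_X, gR_X, aeval_X]
    rw [← h3]
    rfl
  have h4 : aeval (fun j => (X (Sum.inl j) : MvPolynomial (Fin 5 ⊕ Fin 2) R)) f = rename Sum.inl f := by
    have h5 : aeval (fun j => (X (Sum.inl j) : MvPolynomial (Fin 5 ⊕ Fin 2) R)) = rename (R := R) Sum.inl := by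
      refine MvPolynomial.algHom_ext ?_
      intro j
      rw [rename_X, aeval_X]
    rw [h5]
  rw [h, aeval_scale hf, h4]

theorem gR_J {R : Type} [CommRing R] {f : MvPolynomial (Fin 5) R} (hf : f.IsHomogeneous 5)
    {p : MvPolynomial (Fin 3 × Fin 5) R} (hp : p ∈ Ideal.span (smR f)) :
    gR R p ∈ Ideal.span {rename (Sum.inl (β := Fin 2)) f} := by
  have h : Ideal.span (smR f) ≤ (Ideal.span {rename (Sum.inl (β := Fin 2)) f}).comap (gR R) := by
    rw [Ideal.span_le]
    rintro x (⟨i, k, j, j', rfl⟩ | ⟨i, rfl⟩)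
    · rw [SetLike.mem_coe, Ideal.mem_comap, gR_mn]
      exact Ideal.zero_mem _
    · rw [SetLike.mem_coe, Ideal.mem_comap, gR_form hf]
      exact Ideal.mul_mem_left _ _ (Ideal.subset_span rfl)
  exact h hp

section

variable {R : Type} [CommRing R] (f : MvPolynomial (Fin 5) R)

/-- the quotient -/
abbrev TT : Type := MvPolynomial (Fin 3 × Fin 5) R ⧸ Ideal.span (smR f)

/-- the class of a polynomial -/
abbrev cl : MvPolynomial (Fin 3 × Fin 5) R →ₐ[R] TT f := Ideal.Quotient.mkₐ R _

/-- the class of `X (1, 3)` -/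
def vv : TT f := cl f (X (1, 3))

/-- the localization -/
abbrev LL : Type := Localization.Away (vv f)

/-- the map to the localization -/
abbrev lo : MvPolynomial (Fin 3 × Fin 5) R →ₐ[R] LL f := (IsScalarTower.toAlgHom R (TT f) (LL f)).comp (cl f)

theorem lo_apply (p : MvPolynomial (Fin 3 × Fin 5) R) : lo f p = algebraMap (TT f) (LL f) (cl f p) := rfl

/-- the inverse of `v` -/
def vi : LL f := IsLocalization.Away.invSelf (vv f)

theorem vi_mul : lo f (X (1, 3)) * vi f = 1 := IsLocalization.Away.mul_invSelf (vv f)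

/-- the map from the polynomial ring in `x`, `μ`, `ν` -/
def hh : MvPolynomial (Fin 5 ⊕ Fin 2) R →ₐ[R] LL f :=
  aeval (Sum.elim (fun j => lo f (X (1, j))) (fun s => (![lo f (X (0, 3)) * vi f, lo f (X (2, 3)) * vi f] : Fin 2 → LL f) s))

theorem hh_row (i : Fin 3) : hh f (rw3 R i) = lo f (X (i, 3)) * vi f := by
  fin_cases i
  · simp [hh, rw3]
  · simp only [hh, rw3]
    simp only [Fin.mk_one, Matrix.cons_val_one, Matrix.cons_val_zero, map_one]
    exact (vi_mul f).symm
  · simp [hh, rw3]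

theorem lo_J {p : MvPolynomial (Fin 3 × Fin 5) R} (hp : p ∈ Ideal.span (smR f)) : lo f p = 0 := by
  rw [lo_apply]
  have : cl f p = 0 := Ideal.Quotient.eq_zero_iff_mem.mpr hp
  rw [this, map_zero]

theorem minor_lo (i : Fin 3) (j : Fin 5) :
    lo f (X (i, 3)) * lo f (X (1, j)) = lo f (X (i, j)) * lo f (X (1, 3)) := by
  have h : lo f (mnR R i 1 3 j) = 0 := lo_J f (Ideal.subset_span (Or.inl ⟨i, 1, 3, j, rfl⟩))
  rw [mnR, map_sub, map_mul, map_mul, sub_eq_zero] at h
  exact h

theorem hh_gR (p : MvPolynomial (Fin 3 × Fin 5) R) : hh f (gR R p) = lo f p := by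
  have h : (hh f).comp (gR R) = lo f := by
    refine MvPolynomial.algHom_ext ?_
    rintro ⟨i, j⟩
    rw [AlgHom.comp_apply, gR_X, map_mul, hh_row]
    have h1 : hh f (X (Sum.inl j)) = lo f (X (1, j)) := by simp [hh]
    rw [h1]
    calc lo f (X (i, 3)) * vi f * lo f (X (1, j)) = (lo f (X (i, 3)) * lo f (X (1, j))) * vi f := by ring
      _ = lo f (X (i, j)) * (lo f (X (1, 3)) * vi f) := by rw [minor_lo]; ring
      _ = lo f (X (i, j)) := by rw [vi_mul, mul_one]
  exact DFunLike.congr_fun h p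

theorem hh_f : hh f (rename Sum.inl f) = 0 := by
  have h : hh f (rename Sum.inl f) = lo f (formR f 1) := by
    rw [hh, aeval_rename, formR]
    have h2 : lo f (rename (fun j => ((1 : Fin 3), j)) f) = aeval (fun j => lo f (X (1, j))) f := by
      rw [← AlgHom.comp_apply]
      have h3 : (lo f).comp (rename (fun j => ((1 : Fin 3), j))) = aeval (fun j => lo f (X (1, j))) := by
        refine MvPolynomial.algHom_ext ?_
        intro j
        rw [AlgHom.comp_apply, rename_X, aeval_X]
      rw [h3]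
    rw [h2]
    rfl
  rw [h]
  exact lo_J f (Ideal.subset_span (Or.inr ⟨1, rfl⟩))

theorem tors {p : MvPolynomial (Fin 3 × Fin 5) R} (hp : gR R p ∈ Ideal.span {rename (Sum.inl (β := Fin 2)) f}) :
    ∃ m : ℕ, X (1, 3) ^ m * p ∈ Ideal.span (smR f) := by
  obtain ⟨c, hc⟩ := Ideal.mem_span_singleton'.mp hp
  have h0 : lo f p = 0 := by
    rw [← hh_gR, ← hc, map_mul, hh_f, mul_zero]
  rw [lo_apply] at h0
  obtain ⟨⟨_, m, rfl⟩, hm⟩ := (IsLocalization.map_eq_zero_iff (Submonoid.powers (vv f)) (LL f) _).mp h0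
  refine ⟨m, ?_⟩
  have h1 : cl f (X (1, 3) ^ m * p) = 0 := by
    rw [map_mul, map_pow]
    exact hm
  exact Ideal.Quotient.eq_zero_iff_mem.mp h1

end

end SgT_aux

theorem tSgT : S_SLb → S_SgT := by
  intro hb k _ f hf h0 p hp
  obtain ⟨_, _, _, _, h5, h6, _⟩ := hb k
  refine SgT_aux.tors f ?_
  have h1 := SgT_aux.gR_J hf hp
  obtain ⟨c, hc⟩ := Ideal.mem_span_singleton'.mp h1
  have ht : gR (PowerSeries k) (tt k) = C PowerSeries.X := by
    rw [gR, tt, algHom_C]
    rfl
  rw [map_mul, ht] at hc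
  -- reduction mod t
  have hc0 : map PowerSeries.constantCoeff c = 0 := by
    have h2 := congrArg (map (PowerSeries.constantCoeff (R := k))) hc
    rw [map_mul, map_mul, map_C, PowerSeries.constantCoeff_X, C_0, zero_mul] at h2
    rcases mul_eq_zero.mp h2 with h3 | h3
    · exact h3
    · exfalso
      rw [map_rename] at h3
      have h4 : f0 f = 0 := by
        apply rename_injective _ (Sum.inl_injective (α := Fin 5) (β := Fin 2))
        rw [map_zero]
        exact h3
      exact h0 h4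
  obtain ⟨b, hbb⟩ := h5 (Fin 5 ⊕ Fin 2) c
  rw [hc0, map_zero, zero_add] at hbb
  have h7 : C PowerSeries.X * (gR (PowerSeries k) p - b * rename (Sum.inl (β := Fin 2)) f) = 0 := by
    rw [mul_sub, ← hc, hbb]
    ring
  have h8 := h6 (Fin 5 ⊕ Fin 2) _ h7
  rw [sub_eq_zero] at h8
  rw [h8]
  exact Ideal.mem_span_singleton'.mpr ⟨b, rfl⟩

end Pool.Agent.QV

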