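import Pool.Agent.Lib.MP_b53bfe_ag.Q.SpecD

/-!
# Disproof of Q1 of MP_b53bfe_ag for quintic threefolds, phase 2: module Smg

A quintic form with algebraically independent coefficients is smooth.
-/

set_option autoImplicit false

noncomputable section

namespace Pool.Agent.QV

open MvPolynomial
open Pool.Agent.FY (Res)

namespace Smg_aux

variable {K : Type} [Field K] (D : Derivation ℤ K K) (z : Fin 5 → K)

/-- the derivative of the value minus the contribution of the point -/
def T (g : MvPolynomial (Fin 5) K) : K := D (eval z g) - ∑ j, eval z (pderiv j g) * D (z j)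

lemma T_add (g h : MvPolynomial (Fin 5) K) : T D z (g + h) = T D z g + T D z h := by
  simp only [T, map_add, add_mul, Finset.sum_add_distrib]
  ring

lemma T_mul (g h : MvPolynomial (Fin 5) K) :
    T D z (g * h) = T D z g * eval z h + eval z g * T D z h := by
  have h1 : ∑ j, eval z (pderiv j (g * h)) * D (z j) =
      (∑ j, eval z (pderiv j g) * D (z j)) * eval z h + eval z g * ∑ j, eval z (pderiv j h) * D (z j) := by
    rw [Finset.sum_mul, Finset.mul_sum, ← Finset.sum_add_distrib]
    refine Finset.sum_congr rfl fun j _ => ?_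
    rw [pderiv_mul, map_add, map_mul, map_mul]
    ring
  rw [T, h1, map_mul, D.leibniz, T, T, smul_eq_mul, smul_eq_mul]
  ring

lemma T_C (c : K) : T D z (C c) = D c := by
  simp [T]

lemma T_one : T D z 1 = 0 := by
  simp [T]

lemma T_X (i : Fin 5) : T D z (X i) = 0 := by
  classical
  simp [T, pderiv_X, Pi.single_apply, apply_ite (eval z), ite_mul]

lemma T_pow (g : MvPolynomial (Fin 5) K) (hg : T D z g = 0) (n : ℕ) : T D z (g ^ n) = 0 := by
  induction n with
  | zero => rw [pow_zero, T_one]
  | succ n ih => rw [pow_succ, T_mul, ih, hg, zero_mul, mul_zero, add_zero]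

lemma T_prod (s : Finset (Fin 5)) (g : Fin 5 → MvPolynomial (Fin 5) K) (hg : ∀ i, T D z (g i) = 0) :
    T D z (∏ i ∈ s, g i) = 0 := by
  classical
  induction s using Finset.induction_on with
  | empty => rw [Finset.prod_empty, T_one]
  | insert a s ha ih => rw [Finset.prod_insert ha, T_mul, ih, hg, zero_mul, mul_zero, add_zero]

lemma T_monomial (m : Fin 5 →₀ ℕ) (c : K) : T D z (monomial m c) = D c * eval z (monomial m 1) := by
  have h1 : T D z (m.prod fun n e => (X n : MvPolynomial (Fin 5) K) ^ e) = 0 :=
    T_prod D z _ _ fun i => T_pow D z _ (T_X D z i) _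
  rw [monomial_eq, T_mul, h1, mul_zero, add_zero, T_C, monomial_eq, map_mul, eval_C, one_mul]

lemma T_sum {α : Type} (s : Finset α) (g : α → MvPolynomial (Fin 5) K) :
    T D z (∑ i ∈ s, g i) = ∑ i ∈ s, T D z (g i) := by
  classical
  induction s using Finset.induction_on with
  | empty => simp [T]
  | insert a s ha ih => rw [Finset.sum_insert ha, T_add, ih, Finset.sum_insert ha]

end Smg_aux

theorem tSmg : S_DerG → S_Smg := by
  intro hD K _ _ f hf z hz
  classical
  obtain ⟨D, h1⟩ := hD K Mo5 (fun m => coeff m.1 f) hf.2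
  have h5 : eval z f = 0 := by
    have h := congrArg (eval z) hf.1.sum_X_mul_pderiv
    rw [map_sum] at h
    simp only [map_mul, hz, mul_zero, Finset.sum_const_zero] at h
    have h' : (5 : K) * eval z f = 0 := by
      rw [h]
      simp [nsmul_eq_mul]
    rcases mul_eq_zero.mp h' with h0 | h0
    · norm_num at h0
    · exact h0
  funext a
  have ha : (Finsupp.single a 5 : Fin 5 →₀ ℕ).degree = 5 := by simp
  let m₀ : Mo5 := ⟨Finsupp.single a 5, ha⟩
  have h2 : Smg_aux.T (D m₀) z f = 0 := by
    rw [Smg_aux.T, h5, map_zero]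
    simp [hz]
  have h3 : Smg_aux.T (D m₀) z f = eval z (monomial (Finsupp.single a 5) 1) := by
    conv_lhs => rw [← quin_coeff f hf.1]
    rw [quin, Smg_aux.T_sum, Finset.sum_eq_single m₀]
    · rw [Smg_aux.T_monomial, h1 m₀ m₀, if_pos rfl, one_mul]
    · intro b _ hb
      rw [Smg_aux.T_monomial, h1 m₀ b, if_neg (fun h => hb h.symm), zero_mul]
    · exact fun h => absurd (Finset.mem_univ m₀) h
  rw [h2] at h3
  have h4 : z a ^ 5 = 0 := by
    rw [h3]
    simp [eval_monomial]
  simpa using h4

end Pool.Agent.QV
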