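import Pool.Agent.Lib.MP_b53bfe_ag.Q.SpecD

/-!
# Transport along isomorphisms of fields (S_TR of SpecD)
-/

set_option autoImplicit false

noncomputable section

namespace Pool.Agent.QV

open MvPolynomial
open Pool.Agent.FY (Res)

theorem tTR : S_RS → S_TR := by
  intro hRS K L _ _ e f hf
  letI : Algebra K L := e.toRingHom.toAlgebra
  have hfin : Module.Finite K L :=
    Module.Finite.of_surjective (Algebra.linearMap K L) (fun x => ⟨e.symm x, e.apply_symm_apply x⟩)
  obtain ⟨E, i1, i2, χ, hχ⟩ := hf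
  obtain ⟨χ', h'⟩ := hRS K L hfin f E χ hχ
  exact ⟨E, i1, i2, χ', h'⟩

end Pool.Agent.QV
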