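import Pool.Agent.Lib.MP_b53bfe_ag.Q.KZ
import Pool.Agent.Lib.MP_b53bfe_ag.Q.LtS
import Pool.Agent.Lib.MP_b53bfe_ag.Q.Dev
import Pool.Agent.Lib.MP_b53bfe_ag.Q.SLb
import Pool.Agent.Lib.MP_b53bfe_ag.Q.SLa
import Pool.Agent.Lib.MP_b53bfe_ag.Q.SLp
import Pool.Agent.Lib.MP_b53bfe_ag.Q.SLt
import Pool.Agent.Lib.MP_b53bfe_ag.Q.SgT
import Pool.Agent.Lib.MP_b53bfe_ag.Q.SLs
import Pool.Agent.Lib.MP_b53bfe_ag.Q.SL
import Pool.Agent.Lib.MP_b53bfe_ag.Q.RSm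
import Pool.Agent.Lib.MP_b53bfe_ag.Q.RS
import Pool.Agent.Lib.MP_b53bfe_ag.Q.DLa
import Pool.Agent.Lib.MP_b53bfe_ag.Q.DLb
import Pool.Agent.Lib.MP_b53bfe_ag.Q.DLq
import Pool.Agent.Lib.MP_b53bfe_ag.Q.DLf
import Pool.Agent.Lib.MP_b53bfe_ag.Q.DL
import Pool.Agent.Lib.MP_b53bfe_ag.Q.TR
import Pool.Agent.Lib.MP_b53bfe_ag.Q.Iso
import Pool.Agent.Lib.MP_b53bfe_ag.Q.Crd
import Pool.Agent.Lib.MP_b53bfe_ag.Q.Gen
import Pool.Agent.Lib.MP_b53bfe_ag.Q.Dns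
import Pool.Agent.Lib.MP_b53bfe_ag.Q.DerG
import Pool.Agent.Lib.MP_b53bfe_ag.Q.Smg

/-!
# Disproof of Q1 of MP_b53bfe_ag for quintic threefolds, phase 2: assembly
-/

set_option autoImplicit false

noncomputable section

namespace Pool.Agent.QV

open MvPolynomial

theorem aSL : S_SL :=
  tSL (tSLa tKZ tLtS tSLb) (tSLp tLtS tSLb (tDev tKZ)) (tSLt tLtS tSLb) (tSLs tSLb (tSgT tSLb))

theorem aRS : S_RS := tRS tRSm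

theorem aDL : S_DL := tDL aRS (tDLb tDLa) (tDLq tDLa) tDLf

theorem aGen : S_Gen := tGen aSL aDL (tTR aRS) tIso tCrd

theorem aSmg : S_Smg := tSmg tDerG

end Pool.Agent.QV
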