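import Pool.Agent.Lib.MP_b53bfe_ag.Q.SpecB
import Pool.Agent.Lib.MP_b53bfe_ag.Q.Bas

/-!
# Quotients of rings over `P` (`S_Bq`)
-/

set_option autoImplicit false

noncomputable section

namespace Pool.Agent.QV

open Matrix
open Pool.Agent.FY (Res)

namespace Bq_aux

section

variable {P B : Type} [CommRing P] [CommRing B] (h : P →+* B) {W θ : P} {V : Type} [AddCommGroup V]

theorem punit (Φ : AX P W θ V) : Φ.f PUnit = 0 := Φ.tors PUnit (fun _ => rfl) (fun _ => ⟨0, rfl⟩)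

theorem iso (Φ : AX P W θ V) {M N : Type} [AddCommGroup M] [Module P M] [AddCommGroup N] [Module P N] (e : M ≃ₗ[P] N)
    (hN : LFn θ N) (hk : KW W N) : Φ.f N = Φ.f M := by
  have h := Φ.add M N PUnit e.toLinearMap 0 hN hk e.injective (fun a => ⟨0, rfl⟩)
    (fun a => ⟨fun _ => ⟨e.symm a, by simp⟩, fun _ => rfl⟩)
  rw [h, punit, add_zero]

theorem LFn_surj {M N : Type} [AddCommGroup M] [Module P M] [AddCommGroup N] [Module P N] (p : M →ₗ[P] N)
    (hp : Function.Surjective p) (hM : LFn θ M) : LFn θ N := by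
  obtain ⟨M0, h1, h2⟩ := hM
  refine ⟨M0.map p, h1.map p, fun n => ?_⟩
  obtain ⟨m, rfl⟩ := hp n
  obtain ⟨k, hk⟩ := h2 m
  exact ⟨k, by rw [← map_smul]; exact Submodule.mem_map_of_mem hk⟩

/-- the class of `b` -/
def mq (J : Ideal B) (b : B) : Res h (B ⧸ J) := Res.mk h (Ideal.Quotient.mk J b)

variable {h}

theorem mq_surj (J : Ideal B) (x : Res h (B ⧸ J)) : ∃ b, mq h J b = x :=
  Ideal.Quotient.mk_surjective (I := J) x

theorem mq_smul (J : Ideal B) (r : P) (b : B) : r • mq h J b = mq h J (h r * b) := rfl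

theorem mq_zero (J : Ideal B) (b : B) : mq h J b = 0 ↔ b ∈ J := Ideal.Quotient.eq_zero_iff_mem (I := J)

theorem mq_eq (J : Ideal B) (b c : B) : mq h J b = mq h J c ↔ b - c ∈ J := Ideal.Quotient.eq (I := J)

/-- the map induced by `g` -/
def gm {B' : Type} [CommRing B'] (h' : P →+* B') (g : B →+* B') (J : Ideal B) (J' : Ideal B')
    (hg : ∀ x, g (h x) = h' x) (hJ : ∀ x ∈ J, g x ∈ J') : Res h (B ⧸ J) →ₗ[P] Res h' (B' ⧸ J') where
  toFun x := Ideal.quotientMap J' g (fun x hx => hJ x hx) x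
  map_add' x y := map_add (Ideal.quotientMap J' g (fun x hx => hJ x hx)) x y
  map_smul' r x := by
    obtain ⟨b, rfl⟩ := mq_surj J x
    show mq h' J' (g (h r * b)) = mq h' J' (h' r * g b)
    rw [map_mul, hg]

theorem gm_mq {B' : Type} [CommRing B'] (h' : P →+* B') (g : B →+* B') (J : Ideal B) (J' : Ideal B')
    (hg : ∀ x, g (h x) = h' x) (hJ : ∀ x ∈ J, g x ∈ J') (b : B) :
    gm h' g J J' hg hJ (mq h J b) = mq h' J' (g b) := rfl

/-- the map `x ↦ ξ x` -/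
def mm (J : Ideal B) (ξ : B) : Res h (B ⧸ J) →ₗ[P] Res h (B ⧸ J) :=
  Res.map h (LinearMap.lsmul B (B ⧸ J) ξ)

theorem mm_mq (J : Ideal B) (ξ b : B) : mm (h := h) J ξ (mq h J b) = mq h J (ξ * b) := rfl

theorem kw (J : Ideal B) (hW : h W ∈ J) : KW W (Res h (B ⧸ J)) := fun m => by
  obtain ⟨b, rfl⟩ := mq_surj J m
  rw [mq_smul, mq_zero]
  exact Ideal.mul_mem_right _ _ hW

theorem mem_sup (J : Ideal B) (ξ b : B) : b ∈ J ⊔ Ideal.span {ξ} ↔ ∃ c, b - ξ * c ∈ J := by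
  rw [Submodule.mem_sup]
  constructor
  · rintro ⟨y, hy, z, hz, rfl⟩
    obtain ⟨c, rfl⟩ := Ideal.mem_span_singleton'.1 hz
    exact ⟨c, by rw [mul_comm ξ c, add_sub_cancel_right]; exact hy⟩
  · rintro ⟨c, hc⟩
    exact ⟨b - ξ * c, hc, ξ * c, Ideal.mem_span_singleton'.2 ⟨c, mul_comm _ _⟩, by ring⟩

/-- the projection -/
def pj (J : Ideal B) (ξ : B) : Res h (B ⧸ J) →ₗ[P] Res h (B ⧸ (J ⊔ Ideal.span {ξ})) :=
  gm h (RingHom.id B) J (J ⊔ Ideal.span {ξ}) (fun _ => rfl) (fun _ hx => Ideal.mem_sup_left hx)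

theorem pj_mq (J : Ideal B) (ξ b : B) : pj (h := h) J ξ (mq h J b) = mq h (J ⊔ Ideal.span {ξ}) b := rfl

theorem pj_surj (J : Ideal B) (ξ : B) : Function.Surjective (pj (h := h) J ξ) := by
  intro x
  obtain ⟨b, rfl⟩ := mq_surj _ x
  exact ⟨mq h J b, rfl⟩

theorem pj_ker (J : Ideal B) (ξ : B) : Function.Exact (mm (h := h) J ξ) (pj (h := h) J ξ) := by
  intro x
  obtain ⟨b, rfl⟩ := mq_surj J x
  rw [pj_mq, mq_zero, mem_sup]
  constructor
  · rintro ⟨c, hc⟩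
    exact ⟨mq h J c, by rw [mm_mq, mq_eq, ← neg_sub]; exact J.neg_mem hc⟩
  · rintro ⟨y, hy⟩
    obtain ⟨c, rfl⟩ := mq_surj J y
    rw [mm_mq, mq_eq, ← neg_sub] at hy
    exact ⟨c, by rw [← neg_neg (b - ξ * c)]; exact J.neg_mem hy⟩

end

end Bq_aux

open Bq_aux

theorem tBq : S_Tis → S_Bq := by
  intro hTis P B _ _ h W θ V _ Φ hP hperf
  refine ⟨?_, ?_, ?_, ?_⟩
  · intro J hJ hreg
    have h1 : Reg W (Res h (B ⧸ J)) := by
      intro x hx
      obtain ⟨b, rfl⟩ := mq_surj J x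
      rw [mq_smul, mq_zero] at hx
      rw [mq_zero]
      exact hreg b hx
    rw [← hperf _ hJ h1]
    have hker : LinearMap.ker (pj (h := h) J (h W)) =
        Ideal.span {W} • (⊤ : Submodule P (Res h (B ⧸ J))) := by
      ext x
      rw [Submodule.ideal_span_singleton_smul, LinearMap.mem_ker, pj_ker J (h W) x,
        Submodule.mem_smul_pointwise_iff_exists]
      constructor
      · rintro ⟨y, rfl⟩
        exact ⟨y, trivial, rfl⟩
      · rintro ⟨y, _, rfl⟩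
        exact ⟨y, rfl⟩
    have e : Qt W (Res h (B ⧸ J)) ≃ₗ[P] Res h (B ⧸ (J ⊔ Ideal.span {h W})) :=
      (Submodule.quotEquivOfEq _ _ hker.symm).trans
        ((pj (h := h) J (h W)).quotKerEquivOfSurjective (pj_surj J (h W)))
    exact iso Φ e (LFn_surj _ (pj_surj J (h W)) hJ)
      (kw _ (Ideal.mem_sup_right (Ideal.mem_span_singleton_self _)))
  · intro J ξ hJ hW hreg
    have h1 := Φ.add _ _ _ (mm (h := h) J ξ) (pj (h := h) J ξ) hJ (kw J hW) ?_ (pj_surj J ξ) (pj_ker J ξ)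
    · exact left_eq_add.1 h1
    · rw [injective_iff_map_eq_zero]
      intro x hx
      obtain ⟨b, rfl⟩ := mq_surj J x
      rw [mm_mq, mq_zero] at hx
      rw [mq_zero]
      exact hreg b hx
  · intro J k hW hθ
    refine Φ.tors _ (kw J hW) fun m => ⟨k, ?_⟩
    obtain ⟨b, rfl⟩ := mq_surj J m
    rw [mq_smul, mq_zero, map_pow]
    exact Ideal.mul_mem_right _ _ hθ
  · intro B' _ h' g J J' hg hJ hJ' hW hgJ hi hs
    refine hTis P W θ V Φ _ _ (gm h' g J J' hg hgJ) hP hJ hJ' (kw J hW) (kw J' ?_) ?_ ?_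
    · rw [← hg]
      exact hgJ _ hW
    · intro m hm
      obtain ⟨b, rfl⟩ := mq_surj J m
      rw [gm_mq, mq_zero] at hm
      obtain ⟨k, hk⟩ := hi b hm
      exact ⟨k, by rw [mq_smul, mq_zero, map_pow]; exact hk⟩
    · intro n
      obtain ⟨y, rfl⟩ := mq_surj J' n
      obtain ⟨k, x, hx⟩ := hs y
      exact ⟨k, mq h J x, by rw [gm_mq, mq_smul, mq_eq, map_pow]; exact hx⟩

end Pool.Agent.QV
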