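import Pool.Agent.Lib.MP_b53bfe_ag.Q.SpecE

/-!
# Comparison of quotients (`S_Bqc`)
-/

set_option autoImplicit false

noncomputable section

namespace Pool.Agent.QV

open Matrix MvPolynomial
open Pool.Agent.FY (Res)

namespace Bqc_aux

variable {P B B' : Type} [CommRing P] [CommRing B] [CommRing B'] (h : P →+* B) {W : P}

/-- the class of `b` -/
def mq (J : Ideal B) (b : B) : Res h (B ⧸ J) := Res.mk h (Ideal.Quotient.mk J b)

variable {h}

theorem mq_surj (J : Ideal B) (x : Res h (B ⧸ J)) : ∃ b, mq h J b = x :=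
  Ideal.Quotient.mk_surjective (I := J) x

theorem mq_smul (J : Ideal B) (r : P) (b : B) : r • mq h J b = mq h J (h r * b) := rfl

theorem mq_zero (J : Ideal B) (b : B) : mq h J b = 0 ↔ b ∈ J := Ideal.Quotient.eq_zero_iff_mem (I := J)

theorem mq_eq (J : Ideal B) (b c : B) : mq h J b = mq h J c ↔ b - c ∈ J := Ideal.Quotient.eq (I := J)

theorem kw (J : Ideal B) (hW : h W ∈ J) : KW W (Res h (B ⧸ J)) := fun m => by
  obtain ⟨b, rfl⟩ := mq_surj J m
  rw [mq_smul, mq_zero]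
  exact Ideal.mul_mem_right _ _ hW

/-- the map induced by `g` -/
def gm (h' : P →+* B') (g : B →+* B') (J : Ideal B) (J' : Ideal B')
    (hg : ∀ x, g (h x) - h' x ∈ J') (hJ : ∀ x ∈ J, g x ∈ J') : Res h (B ⧸ J) →ₗ[P] Res h' (B' ⧸ J') where
  toFun x := Ideal.quotientMap J' g (fun x hx => hJ x hx) x
  map_add' x y := map_add (Ideal.quotientMap J' g (fun x hx => hJ x hx)) x y
  map_smul' r x := by
    obtain ⟨b, rfl⟩ := mq_surj J x
    show mq h' J' (g (h r * b)) = mq h' J' (h' r * g b)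
    rw [mq_eq, map_mul, ← sub_mul]
    exact Ideal.mul_mem_right _ _ (hg r)

theorem gm_mq (h' : P →+* B') (g : B →+* B') (J : Ideal B) (J' : Ideal B')
    (hg : ∀ x, g (h x) - h' x ∈ J') (hJ : ∀ x ∈ J, g x ∈ J') (b : B) :
    gm h' g J J' hg hJ (mq h J b) = mq h' J' (g b) := rfl

end Bqc_aux

open Bqc_aux

theorem tBqc : S_Tis → S_Bqc := by
  intro hTis P B B' _ _ _ h h' W θ V _ Φ g J J' hP hg hJ hJ' hW hgJ hi hs
  refine hTis P W θ V Φ _ _ (gm h' g J J' hg hgJ) hP hJ hJ' (kw J hW) (kw J' ?_) ?_ ?_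
  · have h1 := J'.sub_mem (hgJ _ hW) (hg W)
    rwa [sub_sub_cancel] at h1
  · intro m hm
    obtain ⟨b, rfl⟩ := mq_surj J m
    rw [gm_mq, mq_zero] at hm
    obtain ⟨k, hk⟩ := hi b hm
    exact ⟨k, by rw [mq_smul, mq_zero, map_pow]; exact hk⟩
  · intro n
    obtain ⟨y, rfl⟩ := mq_surj J' n
    obtain ⟨k, x, hx⟩ := hs y
    exact ⟨k, mq h J x, by rw [gm_mq, mq_smul, mq_eq, map_pow]; exact hx⟩

end Pool.Agent.QV
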