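import Pool.Agent.Lib.MP_b53bfe_ag.Q.SpecG

/-!
# MP_b53bfe_ag: the calculus with values in the target algebra
-/

set_option autoImplicit false

noncomputable section

namespace Pool.Agent.QV

open Matrix
open MvPolynomial TensorProduct
open Pool.Agent.FY (Res)

namespace CalE_aux

theorem grd_add (h : S_Dc) {K : Type} [Field K] (a : Par K) (D : Fin 6 → Derivation ℤ K K) (b b' : PP K) :
    grd a D (b + b') = grd a D b + grd a D b' := by
  funext w
  show Ideal.Quotient.mk (JL a) (gr0 D (b + b') w) = Ideal.Quotient.mk (JL a) (gr0 D b w) + Ideal.Quotient.mk (JL a) (gr0 D b' w)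
  rw [← map_add]
  congr 1
  rcases w with v | j
  · show pderiv v (b + b') = pderiv v b + pderiv v b'
    exact map_add _ _ _
  · exact (h K _ (D j)).1 b b'

theorem grd_mul (h : S_Dc) {K : Type} [Field K] (a : Par K) (D : Fin 6 → Derivation ℤ K K) (b b' : PP K) :
    grd a D (b * b') = (Ideal.Quotient.mk (JL a) b) • grd a D b' + (Ideal.Quotient.mk (JL a) b') • grd a D b := by
  funext w
  show Ideal.Quotient.mk (JL a) (gr0 D (b * b') w) = Ideal.Quotient.mk (JL a) b * Ideal.Quotient.mk (JL a) (gr0 D b' w) +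
    Ideal.Quotient.mk (JL a) b' * Ideal.Quotient.mk (JL a) (gr0 D b w)
  rw [← map_mul, ← map_mul, ← map_add]
  congr 1
  rcases w with v | j
  · show pderiv v (b * b') = b * pderiv v b' + b' * pderiv v b
    rw [Derivation.leibniz, smul_eq_mul, smul_eq_mul]
  · exact (h K _ (D j)).2.1 b b'

end CalE_aux

open CalE_aux in
theorem tCalE : S_Dc → S_CalE := by
  intro h K _ a D
  have hsm : ∀ (b : PP K) (x : ExteriorAlgebra (Lb a) (Dn → Lb a)),
      (Ideal.Quotient.mk (tI (grd a D (WW a))) ((Ideal.Quotient.mk (JL a) b) • x) : Ea a D) =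
        b • (Ideal.Quotient.mk (tI (grd a D (WW a))) x : Ea a D) := by
    intro b x
    have e : (Ideal.Quotient.mk (JL a) b) • x = b • x := algebraMap_smul (Lb a) b x
    rw [e]
    rfl
  refine ⟨⟨dE a D, ?_, ?_, ?_, ?_⟩, fun _ => rfl, ?_⟩
  · intro b b'
    show Ideal.Quotient.mk _ _ = Ideal.Quotient.mk _ _ + Ideal.Quotient.mk _ _
    rw [grd_add h, map_add, map_add]
  · intro b b'
    show Ideal.Quotient.mk _ _ = b • Ideal.Quotient.mk _ _ + b' • Ideal.Quotient.mk _ _
    rw [grd_mul h, map_add, map_smul, map_smul, map_add, hsm, hsm]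
  · intro b
    show Ideal.Quotient.mk _ _ * Ideal.Quotient.mk _ _ = 0
    rw [← map_mul, ExteriorAlgebra.ι_sq_zero, map_zero]
  · intro b b'
    show Ideal.Quotient.mk _ _ * Ideal.Quotient.mk _ _ = -(Ideal.Quotient.mk _ _ * Ideal.Quotient.mk _ _)
    rw [← (Ideal.Quotient.mk (tI (grd a D (WW a)))).map_mul, ← (Ideal.Quotient.mk (tI (grd a D (WW a)))).map_mul,
      ← map_neg]
    congr 1
    exact eq_neg_of_add_eq_zero_left (ExteriorAlgebra.ι_add_mul_swap _ _)
  · show Ideal.Quotient.mk _ _ = 0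
    rw [Ideal.Quotient.eq_zero_iff_mem]
    exact ⟨1, (mul_one _).symm⟩

end Pool.Agent.QV
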