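import Pool.Agent.Lib.MP_b53bfe_ag.Q.SpecB

/-!
# Disproof of Q1 of MP_b53bfe_ag, module CalL: extension of a calculus to a localization (helper61)
-/

set_option autoImplicit false
set_option linter.unusedSectionVars false

noncomputable section

namespace Pool.Agent.QV

open Matrix

namespace CalL_aux

variable {P L E : Type} [CommRing P] [CommRing L] [Algebra P L] (S : Submonoid P)
  [IsLocalization S L] [Ring E] [Algebra P E] [Algebra L E] [IsScalarTower P L E] (C : Cal P E)

theorem d_one : C.d 1 = 0 := by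
  have h := C.mul 1 1
  rw [mul_one, one_smul] at h
  exact left_eq_add.1 h

theorem mulL (a b : P) : C.d (a * b) = algebraMap P L a • C.d b + algebraMap P L b • C.d a := by
  rw [C.mul, algebraMap_smul, algebraMap_smul]

/-- `e` is the value at `z = a / s`. -/
def Rel (z : L) (e : E) : Prop :=
  ∃ a s : P, s ∈ S ∧ algebraMap P L s * z = algebraMap P L a ∧
    algebraMap P L s • e + z • C.d s = C.d a

include S in
theorem cancel {s : P} (hs : s ∈ S) {x y : E}
    (h : algebraMap P L s • x = algebraMap P L s • y) : x = y := by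
  obtain ⟨w, hw⟩ := (IsLocalization.map_units L ⟨s, hs⟩ : IsUnit (algebraMap P L s)).exists_left_inv
  have h1 := congrArg (fun x => w • x) h
  simpa only [smul_smul, hw, one_smul] using h1

theorem key (z : L) (a s b t : P) (hs : s ∈ S) (h1 : algebraMap P L s * z = algebraMap P L a)
    (h2 : algebraMap P L t * z = algebraMap P L b) (e : E)
    (he : algebraMap P L s • e + z • C.d s = C.d a) :
    algebraMap P L t • e + z • C.d t = C.d b := by
  have h3 : algebraMap P L (t * a) = algebraMap P L (s * b) := by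
    rw [map_mul, map_mul, ← h1, ← h2]
    ring
  obtain ⟨⟨u, hu⟩, hc⟩ := (IsLocalization.eq_iff_exists S L).1 h3
  have hc' : u * (t * a) = u * (s * b) := hc
  have h4 : C.d (t * a) = C.d (s * b) := by
    refine cancel (L := L) S hu ?_
    have h5 : C.d (u * (t * a)) = C.d (u * (s * b)) := by rw [hc']
    rw [mulL (L := L) C u (t * a), mulL (L := L) C u (s * b), h3] at h5
    exact add_right_cancel h5
  rw [mulL (L := L) C, mulL (L := L) C, ← he, ← h1, ← h2] at h4
  refine cancel (L := L) S hs ?_
  have h6 : algebraMap P L s • (algebraMap P L t • e + z • C.d t) =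
      algebraMap P L t • (algebraMap P L s • e + z • C.d s) + (algebraMap P L s * z) • C.d t -
        (algebraMap P L t * z) • C.d s := by
    module
  rw [h6, h4]
  module

theorem uniq {z : L} {e e' : E} (h : Rel S C z e) (h' : Rel S C z e') : e = e' := by
  obtain ⟨a, s, hs, h1, h2⟩ := h
  obtain ⟨b, t, ht, h3, h4⟩ := h'
  have h5 := key S C z a s b t hs h1 h3 e h2
  refine cancel (L := L) S ht ?_
  rw [← h4] at h5
  exact add_right_cancel h5

theorem ex (z : L) : ∃ e : E, e ∈ Submodule.span L (Set.range C.d) ∧ Rel S C z e := by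
  obtain ⟨⟨a, ⟨s, hs⟩⟩, h⟩ := IsLocalization.surj S z
  have h' : z * algebraMap P L s = algebraMap P L a := h
  obtain ⟨w, hw⟩ := (IsLocalization.map_units L ⟨s, hs⟩ : IsUnit (algebraMap P L s)).exists_right_inv
  refine ⟨w • (C.d a - z • C.d s), ?_, a, s, hs, by rw [mul_comm]; exact h', ?_⟩
  · exact Submodule.smul_mem _ _ (Submodule.sub_mem _ (Submodule.subset_span ⟨a, rfl⟩)
      (Submodule.smul_mem _ _ (Submodule.subset_span ⟨s, rfl⟩)))
  · rw [smul_smul, hw, one_smul, sub_add_cancel]

theorem anti {x y : E} (hx : x ∈ Submodule.span L (Set.range C.d))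
    (hy : y ∈ Submodule.span L (Set.range C.d)) : x * y = -(y * x) := by
  refine Submodule.span_induction (p := fun x _ => x * y = -(y * x)) ?_ ?_ ?_ ?_ hx
  · rintro _ ⟨a, rfl⟩
    refine Submodule.span_induction (p := fun y _ => C.d a * y = -(y * C.d a)) ?_ ?_ ?_ ?_ hy
    · rintro _ ⟨b, rfl⟩
      exact C.anti a b
    · rw [mul_zero, zero_mul, neg_zero]
    · intro u v _ _ hu hv
      rw [mul_add, add_mul, hu, hv, neg_add]
    · intro l u _ hu
      rw [mul_smul_comm, smul_mul_assoc, hu, smul_neg]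
  · rw [mul_zero, zero_mul, neg_zero]
  · intro u v _ _ hu hv
    rw [mul_add, add_mul, hu, hv, neg_add]
  · intro l u _ hu
    rw [mul_smul_comm, smul_mul_assoc, hu, smul_neg]

theorem sq {x : E} (hx : x ∈ Submodule.span L (Set.range C.d)) : x * x = 0 := by
  refine Submodule.span_induction (p := fun x _ => x * x = 0) ?_ ?_ ?_ ?_ hx
  · rintro _ ⟨a, rfl⟩
    exact C.sq a
  · rw [mul_zero]
  · intro u v hu' hv' hu hv
    have h1 := anti C hu' hv'
    rw [mul_add, add_mul, add_mul, hu, hv, h1]
    abel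
  · intro l u _ hu
    rw [mul_smul_comm, smul_mul_assoc, hu, smul_zero, smul_zero]

theorem rel_add {z z' : L} {e e' : E} (h : Rel S C z e) (h' : Rel S C z' e') :
    Rel S C (z + z') (e + e') := by
  obtain ⟨a, s, hs, h1, h2⟩ := h
  obtain ⟨b, t, ht, h3, h4⟩ := h'
  refine ⟨t * a + s * b, s * t, S.mul_mem hs ht, ?_, ?_⟩
  · rw [map_mul, map_add, map_mul, map_mul, ← h1, ← h3]
    ring
  · rw [C.add, mulL (L := L) C, mulL (L := L) C, mulL (L := L) C, ← h2, ← h4, ← h1, ← h3, map_mul]
    module

theorem rel_mul {z z' : L} {e e' : E} (h : Rel S C z e) (h' : Rel S C z' e') :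
    Rel S C (z * z') (z • e' + z' • e) := by
  obtain ⟨a, s, hs, h1, h2⟩ := h
  obtain ⟨b, t, ht, h3, h4⟩ := h'
  refine ⟨a * b, s * t, S.mul_mem hs ht, ?_, ?_⟩
  · rw [map_mul, map_mul, ← h1, ← h3]
    ring
  · rw [mulL (L := L) C, mulL (L := L) C, ← h2, ← h4, ← h1, ← h3, map_mul]
    module

theorem rel_alg (a : P) : Rel (L := L) S C (algebraMap P L a) (C.d a) :=
  ⟨a, 1, S.one_mem, by rw [map_one, one_mul], by rw [map_one, one_smul, d_one, smul_zero, add_zero]⟩

end CalL_aux

open CalL_aux in
/-- **CalL**. Extension of a calculus to a localization. -/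
theorem tCalL : S_CalL := by
  intro P L E _ _ _ S _ _ _ _ _ C
  choose D hD hR using fun z : L => ex (L := L) S C z
  refine ⟨⟨D, fun a b => uniq S C (hR _) (rel_add S C (hR a) (hR b)),
    fun a b => uniq S C (hR _) (rel_mul S C (hR a) (hR b)), fun a => sq C (hD a),
    fun a b => anti C (hD a) (hD b)⟩, fun a => uniq S C (hR _) (rel_alg S C a)⟩

end Pool.Agent.QV
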