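import Pool.Agent.Lib.MP_b53bfe_ag.Q.SpecH

/-!
# Certificate for the second differential
-/

set_option autoImplicit false

noncomputable section

namespace Pool.Agent.QV

open Matrix
open MvPolynomial TensorProduct

namespace Cert2_aux

/-! ## Boolean loops on natural numbers -/

/-- conjunction of `f k`, `k < n` -/
def allB (n : ℕ) (f : ℕ → Bool) : Bool := Nat.rec true (fun k r => f k && r) n

theorem allB_spec {n : ℕ} {f : ℕ → Bool} (h : allB n f = true) : ∀ k, k < n → f k = true := by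
  induction n with
  | zero => intro k hk; exact absurd hk (Nat.not_lt_zero _)
  | succ n ih =>
    have h' : (f n && allB n f) = true := h
    rw [Bool.and_eq_true] at h'
    intro k hk
    rcases Nat.lt_succ_iff_lt_or_eq.1 hk with h1 | h1
    · exact ih h'.2 k h1
    · rw [h1]; exact h'.1

/-- sum of `f k`, `k < n` -/
def sumB (n : ℕ) (f : ℕ → ℕ) : ℕ := Nat.rec 0 (fun k r => Nat.add (f k) r) n

theorem sumB_eq (n : ℕ) (f : ℕ → ℕ) : sumB n f = ∑ k : Fin n, f k := by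
  induction n with
  | zero => rfl
  | succ n ih =>
    have h' : sumB (n + 1) f = f n + sumB n f := rfl
    rw [h', ih, Fin.sum_univ_castSucc, add_comm]
    rfl

/-- evaluate `n`; `true` if `n = 0`, otherwise `f (n - 1)` -/
def frc0 (n : ℕ) (f : ℕ → Bool) : Bool := Nat.rec true (fun k _ => f k) n

/-- evaluate `n`, then `f n` -/
def frc (n : ℕ) (f : ℕ → Bool) : Bool := frc0 (Nat.succ n) f

theorem frc_eq (n : ℕ) (f : ℕ → Bool) : frc n f = f n := rfl

theorem frc0_succ (n : ℕ) (f : ℕ → Bool) : frc0 (n + 1) f = f n := rfl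

/-! ## The data -/

/-- the entry number `c` of the certificate -/
def E (c : ℕ) : ℕ := Nat.mod (Nat.shiftRight DAT (Nat.mul 16 c)) 65536

/-- the position of the column `c` -/
def P (c : ℕ) : ℕ := Nat.div (E c) 8

/-- number of the pair `j < m` -/
def pn (j m : ℕ) : ℕ := Nat.sub (Nat.sub (Nat.add (Nat.div (Nat.mul j (Nat.sub 11 j)) 2) m) j) 1

/-- number of the left column -/
def cL (j m b s : ℕ) : ℕ := Nat.add (Nat.add (Nat.mul 112 (pn j m)) (Nat.mul 8 b)) s

/-- number of the right column -/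
def cR (j m s b : ℕ) : ℕ := Nat.add (Nat.add (Nat.add 1680 (Nat.mul 60 (pn j m))) (Nat.mul 12 s)) b

/-- `atab` -/
def aT (i s : ℕ) : ℕ := Nat.mod (Nat.shiftRight 0xc83211da9ee3876d165eb72104eecb (Nat.mul 4 (Nat.add (Nat.mul 5 i) s))) 16

/-- `btab` -/
def bT (i s : ℕ) : ℕ :=
  Nat.mod (Nat.shiftRight 0xcac7321010cb98cccc32c765cb1065cca976210c43cccca9 (Nat.mul 4 (Nat.add (Nat.mul 8 i) s))) 16

/-- inverse of `atab` (`15`: none) -/
def aI (i b : ℕ) : ℕ :=
  Nat.mod (Nat.shiftRight 0xf4fff3ffff210f3ff21fffffff4ffffff210ff3fff4ffffff21fff3fff4fff3ffff210f10ffffff4ffff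
    (Nat.mul 4 (Nat.add (Nat.mul 14 i) b))) 16

/-- inverse of `btab` (`15`: none) -/
def bI (i b : ℕ) : ℕ :=
  Nat.mod (Nat.shiftRight 0xf6ff4fff32104f32ffffff76ffff210f54ff6ffff32fff54f76f54fff321f10ffff76fff
    (Nat.mul 4 (Nat.add (Nat.mul 12 i) b))) 16

theorem aT_eq : ∀ (i : Fin 6) (s : Fin 5), aT i s = atab i s := by decide +kernel

theorem bT_eq : ∀ (i : Fin 6) (s : Fin 8), bT i s = btab i s := by decide +kernel

theorem aI_eq : ∀ (i : Fin 6) (s : Fin 5), atab i s < 14 → aI i (atab i s) = s := by decide +kernel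

theorem bI_eq : ∀ (i : Fin 6) (s : Fin 8), btab i s < 12 → bI i (btab i s) = s := by decide +kernel

/-- the left column has position at most `q` (or `s = 15`) -/
def enL (j m b s q : ℕ) : Bool := Nat.beq s 15 || Nat.ble (P (cL j m b s)) q

/-- the right column has position at most `q` (or `s = 15`) -/
def enR (j m s b q : ℕ) : Bool := Nat.beq s 15 || Nat.ble (P (cR j m s b)) q

/-- all columns of the row `(i, j, m), b, b'` except for the number `x` have position at most `q` -/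
def rw6 (i j m b b' q x : ℕ) : Bool :=
  (Nat.beq x 0 || enL j m b (bI i b') q) && ((Nat.beq x 1 || enL i m b (bI j b') q) && ((Nat.beq x 2 || enL i j b (bI m b') q) &&
  ((Nat.beq x 3 || enR j m (aI i b) b' q) && ((Nat.beq x 4 || enR i m (aI j b) b' q) && ((Nat.beq x 5 || enR i j (aI m b) b' q) &&
  !(Nat.beq i 0 && (Nat.beq j 1 && (Nat.beq m 4 && (Nat.beq b 12 && Nat.beq b' 2)))))))))

/-- choice of the row by `t`, for the pair `j < m` -/
def rwt (t j m b b' q x : ℕ) : Bool :=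
  cond (Nat.ble (Nat.succ t) j) (rw6 t j m b b' q x)
    (cond (Nat.ble (Nat.succ j) t && Nat.ble (Nat.succ t) m) (rw6 j t m b b' q (Nat.add x 1))
      (Nat.ble (Nat.succ m) t && (Nat.ble t 5 && rw6 j m t b b' q (Nat.add x 2))))

/-- the check of a left column -/
def ckL (j m b s : ℕ) : Bool :=
  frc0 (P (cL j m b s)) fun q => frc (Nat.mod (E (cL j m b s)) 8) fun t => frc (bT t s) fun b' =>
    Nat.ble b' 11 && rwt t j m b b' q 0

/-- the check of a right column -/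
def ckR (j m s b' : ℕ) : Bool :=
  frc0 (P (cR j m s b')) fun q => frc (Nat.mod (E (cR j m s b')) 8) fun t => frc (aT t s) fun b =>
    Nat.ble b 13 && rwt t j m b b' q 3

theorem allL : allB 6 (fun m => allB m fun j => allB 14 fun b => allB 8 fun s => ckL j m b s) = true := by
  decide +kernel

theorem allR : allB 6 (fun m => allB m fun j => allB 5 fun s => allB 12 fun b => ckR j m s b) = true := by
  decide +kernel

theorem cntA : sumB 6 (fun m => sumB m fun j =>
    Nat.add (sumB 14 fun b => sumB 8 fun s => cond (Nat.beq (P (cL j m b s)) 0) 1 0)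
      (sumB 5 fun s => sumB 12 fun b => cond (Nat.beq (P (cR j m s b)) 0) 1 0)) = 240 := by
  decide +kernel

/-- the position of a column -/
def posf (c : I2) : ℕ :=
  match c with
  | Sum.inl (p, b, s) => P (cL p.1.1 p.1.2 b s)
  | Sum.inr (p, s, b) => P (cR p.1.1 p.1.2 s b)

theorem alz_ne {i : Fin 6} {b : Fin 14} {s : Fin 5} (h : alz i b s ≠ 0) : atab i s = b.val := by
  by_contra h1
  exact h (by rw [alz, if_neg h1])

theorem alz_ne' {i : Fin 6} {b : Fin 14} {s : Fin 5} (h : atab i s = b.val) : alz i b s ≠ 0 := by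
  rw [alz, if_pos h]
  split_ifs <;> decide

theorem bez_ne {i : Fin 6} {b : Fin 12} {s : Fin 8} (h : bez i b s ≠ 0) : btab i s = b.val := by
  by_contra h1
  exact h (by rw [bez, if_neg h1])

theorem bez_ne' {i : Fin 6} {b : Fin 12} {s : Fin 8} (h : btab i s = b.val) : bez i b s ≠ 0 := by
  rw [bez, if_pos h]
  split_ifs <;> decide

theorem cf3_ne {γ : Fin 6 → ℤ} {t : Tr3} {p : Pr2} (h : cf3 γ t p ≠ 0) :
    (p.1 = (t.1.2.1, t.1.2.2) ∧ γ t.1.1 ≠ 0) ∨ (p.1 = (t.1.1, t.1.2.2) ∧ γ t.1.2.1 ≠ 0) ∨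
      (p.1 = (t.1.1, t.1.2.1) ∧ γ t.1.2.2 ≠ 0) := by
  unfold cf3 at h
  split_ifs at h with h1 h2 h3
  · exact Or.inl ⟨h1, h⟩
  · exact Or.inr (Or.inl ⟨h2, fun h0 => h (by rw [h0, neg_zero])⟩)
  · exact Or.inr (Or.inr ⟨h3, h⟩)
  · exact absurd rfl h

/-- the value of `cf3` at the three pairs of the triple `i < j < m` -/
theorem cf3_val (γ : Fin 6 → ℤ) (i j m : Fin 6) (h1 : i < j) (h2 : j < m) :
    cf3 γ ⟨(i, j, m), h1, h2⟩ ⟨(j, m), h2⟩ = γ i ∧ cf3 γ ⟨(i, j, m), h1, h2⟩ ⟨(i, m), h1.trans h2⟩ = -γ j ∧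
      cf3 γ ⟨(i, j, m), h1, h2⟩ ⟨(i, j), h1⟩ = γ m := by
  refine ⟨by simp [cf3], ?_, ?_⟩
  · have h : ¬((i, m) = (j, m)) := fun h => h1.ne (congrArg Prod.fst h)
    simp only [cf3]
    rw [if_neg h, if_pos trivial]
  · have h : ¬((i, j) = (j, m)) := fun h => h1.ne (congrArg Prod.fst h)
    have h' : ¬((i, j) = (i, m)) := fun h => h2.ne (congrArg Prod.snd h)
    simp only [cf3]
    rw [if_neg h, if_neg h', if_pos trivial]

theorem ble_le {x y : ℕ} (h : Nat.ble x y = true) : x ≤ y := Nat.le_of_ble_eq_true h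

theorem enL_le {p : Pr2} {b : Fin 14} {b' : Fin 12} {s : Fin 8} {o : Fin 6} {q : ℕ} (hs : btab o s = b'.val)
    (h : enL p.1.1 p.1.2 b (bI o b') q = true) : posf (Sum.inl (p, b, s)) ≤ q := by
  have h1 : bI o b' = s := by
    rw [← hs]
    exact bI_eq o s (by rw [hs]; exact b'.2)
  rw [h1, enL, Bool.or_eq_true] at h
  rcases h with h | h
  · exact absurd (Nat.eq_of_beq_eq_true h) (by have := s.2; omega)
  · exact ble_le h

theorem enR_le {p : Pr2} {b : Fin 14} {b' : Fin 12} {s : Fin 5} {o : Fin 6} {q : ℕ} (hs : atab o s = b.val)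
    (h : enR p.1.1 p.1.2 (aI o b) b' q = true) : posf (Sum.inr (p, s, b')) ≤ q := by
  have h1 : aI o b = s := by
    rw [← hs]
    exact aI_eq o s (by rw [hs]; exact b.2)
  rw [h1, enR, Bool.or_eq_true] at h
  rcases h with h | h
  · exact absurd (Nat.eq_of_beq_eq_true h) (by have := s.2; omega)
  · exact ble_le h

/-- the entries of a row -/
theorem ent (i j m : Fin 6) (h1 : i < j) (h2 : j < m) (b : Fin 14) (b' : Fin 12) (q x : ℕ)
    (h : rw6 i j m b b' q x = true) :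
    ((⟨(i, j, m), h1, h2⟩, b, b') : I3) ≠ rF ∧ ∀ c' : I2, D2m alz bez (⟨(i, j, m), h1, h2⟩, b, b') c' ≠ 0 →
      (posf c' ≤ q ∨ (x = 0 ∧ ∃ s, c' = Sum.inl (⟨(j, m), h2⟩, b, s) ∧ btab i s = b'.val) ∨
        (x = 1 ∧ ∃ s, c' = Sum.inl (⟨(i, m), h1.trans h2⟩, b, s) ∧ btab j s = b'.val) ∨
        (x = 2 ∧ ∃ s, c' = Sum.inl (⟨(i, j), h1⟩, b, s) ∧ btab m s = b'.val) ∨
        (x = 3 ∧ ∃ s, c' = Sum.inr (⟨(j, m), h2⟩, s, b') ∧ atab i s = b.val) ∨
        (x = 4 ∧ ∃ s, c' = Sum.inr (⟨(i, m), h1.trans h2⟩, s, b') ∧ atab j s = b.val) ∨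
        (x = 5 ∧ ∃ s, c' = Sum.inr (⟨(i, j), h1⟩, s, b') ∧ atab m s = b.val)) := by
  simp only [rw6, Bool.and_eq_true, Bool.or_eq_true] at h
  obtain ⟨e0, e1, e2, e3, e4, e5, e6⟩ := h
  refine ⟨?_, ?_⟩
  · intro he
    simp only [rF, Prod.mk.injEq, Subtype.mk.injEq] at he
    obtain ⟨⟨rfl, rfl, rfl⟩, rfl, rfl⟩ := he
    exact absurd e6 (by decide)
  · rintro (⟨p, b1, s⟩ | ⟨p, s, b1⟩) hc
    · simp only [D2m] at hc
      split_ifs at hc with hb
      · obtain rfl : b = b1 := hb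
        rcases cf3_ne hc with ⟨hp, hv⟩ | ⟨hp, hv⟩ | ⟨hp, hv⟩
        · obtain rfl : p = ⟨(j, m), h2⟩ := Subtype.ext hp
          have hs := bez_ne hv
          rcases e0 with e | e
          · exact Or.inr (Or.inl ⟨Nat.eq_of_beq_eq_true e, s, rfl, hs⟩)
          · exact Or.inl (enL_le (p := ⟨(j, m), h2⟩) hs e)
        · obtain rfl : p = ⟨(i, m), h1.trans h2⟩ := Subtype.ext hp
          have hs := bez_ne hv
          rcases e1 with e | e
          · exact Or.inr (Or.inr (Or.inl ⟨Nat.eq_of_beq_eq_true e, s, rfl, hs⟩))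
          · exact Or.inl (enL_le (p := ⟨(i, m), h1.trans h2⟩) hs e)
        · obtain rfl : p = ⟨(i, j), h1⟩ := Subtype.ext hp
          have hs := bez_ne hv
          rcases e2 with e | e
          · exact Or.inr (Or.inr (Or.inr (Or.inl ⟨Nat.eq_of_beq_eq_true e, s, rfl, hs⟩)))
          · exact Or.inl (enL_le (p := ⟨(i, j), h1⟩) hs e)
      · exact absurd rfl hc
    · simp only [D2m] at hc
      split_ifs at hc with hb
      · obtain rfl : b' = b1 := hb
        rcases cf3_ne hc with ⟨hp, hv⟩ | ⟨hp, hv⟩ | ⟨hp, hv⟩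
        · obtain rfl : p = ⟨(j, m), h2⟩ := Subtype.ext hp
          have hs := alz_ne hv
          rcases e3 with e | e
          · exact Or.inr (Or.inr (Or.inr (Or.inr (Or.inl ⟨Nat.eq_of_beq_eq_true e, s, rfl, hs⟩))))
          · exact Or.inl (enR_le (p := ⟨(j, m), h2⟩) hs e)
        · obtain rfl : p = ⟨(i, m), h1.trans h2⟩ := Subtype.ext hp
          have hs := alz_ne hv
          rcases e4 with e | e
          · exact Or.inr (Or.inr (Or.inr (Or.inr (Or.inr (Or.inl ⟨Nat.eq_of_beq_eq_true e, s, rfl, hs⟩)))))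
          · exact Or.inl (enR_le (p := ⟨(i, m), h1.trans h2⟩) hs e)
        · obtain rfl : p = ⟨(i, j), h1⟩ := Subtype.ext hp
          have hs := alz_ne hv
          rcases e5 with e | e
          · exact Or.inr (Or.inr (Or.inr (Or.inr (Or.inr (Or.inr ⟨Nat.eq_of_beq_eq_true e, s, rfl, hs⟩)))))
          · exact Or.inl (enR_le (p := ⟨(i, j), h1⟩) hs e)
      · exact absurd rfl hc

/-- `atab i` is injective away from `14` -/
theorem atab_inj {i : Fin 6} {s s' : Fin 5} {b : Fin 14} (h : atab i s = b.val) (h' : atab i s' = b.val) : s' = s := by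
  have h1 := aI_eq i s (by rw [h]; exact b.2)
  have h2 := aI_eq i s' (by rw [h']; exact b.2)
  rw [h] at h1
  rw [h', h1] at h2
  exact (Fin.ext h2).symm

/-- `btab i` is injective away from `12` -/
theorem btab_inj {i : Fin 6} {s s' : Fin 8} {b : Fin 12} (h : btab i s = b.val) (h' : btab i s' = b.val) : s' = s := by
  have h1 := bI_eq i s (by rw [h]; exact b.2)
  have h2 := bI_eq i s' (by rw [h']; exact b.2)
  rw [h] at h1
  rw [h', h1] at h2
  exact (Fin.ext h2).symm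

theorem rwt_cases {t : ℕ} {j m : Fin 6} {b b' q x : ℕ} (hjm : j < m) (h : rwt t j m b b' q x = true) :
    (∃ t' : Fin 6, t = t' ∧ t' < j ∧ rw6 t' j m b b' q x = true) ∨
      (∃ t' : Fin 6, t = t' ∧ j < t' ∧ t' < m ∧ rw6 j t' m b b' q (x + 1) = true) ∨
      (∃ t' : Fin 6, t = t' ∧ m < t' ∧ rw6 j m t' b b' q (x + 2) = true) := by
  unfold rwt at h
  by_cases c1 : Nat.ble (Nat.succ t) j = true
  · rw [c1, cond_true] at h
    have h1 := ble_le c1
    refine Or.inl ⟨⟨t, by omega⟩, rfl, ?_, h⟩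
    exact Fin.lt_def.2 (by simpa using h1)
  · rw [Bool.not_eq_true] at c1
    rw [c1, cond_false] at h
    by_cases c2 : (Nat.ble (Nat.succ j) t && Nat.ble (Nat.succ t) m) = true
    · rw [c2, cond_true] at h
      rw [Bool.and_eq_true] at c2
      have h1 := ble_le c2.1
      have h2 := ble_le c2.2
      refine Or.inr (Or.inl ⟨⟨t, by omega⟩, rfl, ?_, ?_, h⟩)
      · exact Fin.lt_def.2 (by simpa using h1)
      · exact Fin.lt_def.2 (by simpa using h2)
    · rw [Bool.not_eq_true] at c2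
      rw [c2, cond_false, Bool.and_eq_true, Bool.and_eq_true] at h
      have h1 := ble_le h.1
      have h2 := ble_le h.2.1
      refine Or.inr (Or.inr ⟨⟨t, by omega⟩, rfl, ?_, h.2.2⟩)
      exact Fin.lt_def.2 (by simpa using h1)

theorem main (c : I2) (hc : posf c ≠ 0) : ∃ r : I3, D2m alz bez r c ≠ 0 ∧ r ≠ rF ∧
    ∀ c', D2m alz bez r c' ≠ 0 → c' ≠ c → posf c' < posf c := by
  obtain ⟨q, hq⟩ := Nat.exists_eq_succ_of_ne_zero hc
  rcases c with ⟨⟨⟨j, m⟩, hjm⟩, b, s⟩ | ⟨⟨⟨j, m⟩, hjm⟩, s, b'⟩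
  · have hjm' : j.val < m.val := hjm
    have hk : ckL j m b s = true := allB_spec (allB_spec (allB_spec (allB_spec allL m m.2) j hjm') b b.2) s s.2
    have hq' : P (cL j m b s) = q + 1 := hq
    rw [ckL, hq', frc0_succ, frc_eq, frc_eq, Bool.and_eq_true] at hk
    obtain ⟨hb, hk⟩ := hk
    have hb1 := ble_le hb
    rcases rwt_cases (j := j) (m := m) hjm hk with ⟨t, ht, h1, h⟩ | ⟨t, ht, h1, h2, h⟩ | ⟨t, ht, h1, h⟩
    · rw [ht, bT_eq] at hb1 h
      have h3 := ent t j m h1 hjm b ⟨btab t s, by omega⟩ q 0 h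
      refine ⟨_, ?_, h3.1, ?_⟩
      · simp only [D2m, if_true]
        rw [(cf3_val _ t j m h1 hjm).1]
        exact bez_ne' rfl
      · intro c' hc' hne
        rcases h3.2 c' hc' with h4 | ⟨h5, s1, hs, ha⟩ | ⟨h5, _⟩ | ⟨h5, _⟩ | ⟨h5, _⟩ | ⟨h5, _⟩ | ⟨h5, _⟩
        · exact lt_of_le_of_lt h4 (by rw [hq]; exact Nat.lt_succ_self q)
        · exact absurd (by rw [hs, btab_inj (b := ⟨btab t s, by omega⟩) rfl ha]) hne
        all_goals omega
    · rw [ht, bT_eq] at hb1 h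
      have h3 := ent j t m h1 h2 b ⟨btab t s, by omega⟩ q 1 h
      refine ⟨_, ?_, h3.1, ?_⟩
      · simp only [D2m, if_true]
        rw [(cf3_val _ j t m h1 h2).2.1]
        exact neg_ne_zero.2 (bez_ne' rfl)
      · intro c' hc' hne
        rcases h3.2 c' hc' with h4 | ⟨h5, _⟩ | ⟨h5, s1, hs, ha⟩ | ⟨h5, _⟩ | ⟨h5, _⟩ | ⟨h5, _⟩ | ⟨h5, _⟩
        · exact lt_of_le_of_lt h4 (by rw [hq]; exact Nat.lt_succ_self q)
        · omega
        · exact absurd (by rw [hs, btab_inj (b := ⟨btab t s, by omega⟩) rfl ha]) hne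
        all_goals omega
    · rw [ht, bT_eq] at hb1 h
      have h3 := ent j m t hjm h1 b ⟨btab t s, by omega⟩ q 2 h
      refine ⟨_, ?_, h3.1, ?_⟩
      · simp only [D2m, if_true]
        rw [(cf3_val _ j m t hjm h1).2.2]
        exact bez_ne' rfl
      · intro c' hc' hne
        rcases h3.2 c' hc' with h4 | ⟨h5, _⟩ | ⟨h5, _⟩ | ⟨h5, s1, hs, ha⟩ | ⟨h5, _⟩ | ⟨h5, _⟩ | ⟨h5, _⟩
        · exact lt_of_le_of_lt h4 (by rw [hq]; exact Nat.lt_succ_self q)
        · omega
        · omega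
        · exact absurd (by rw [hs, btab_inj (b := ⟨btab t s, by omega⟩) rfl ha]) hne
        all_goals omega
  · have hjm' : j.val < m.val := hjm
    have hk : ckR j m s b' = true := allB_spec (allB_spec (allB_spec (allB_spec allR m m.2) j hjm') s s.2) b' b'.2
    have hq' : P (cR j m s b') = q + 1 := hq
    rw [ckR, hq', frc0_succ, frc_eq, frc_eq, Bool.and_eq_true] at hk
    obtain ⟨hb, hk⟩ := hk
    have hb1 := ble_le hb
    rcases rwt_cases (j := j) (m := m) hjm hk with ⟨t, ht, h1, h⟩ | ⟨t, ht, h1, h2, h⟩ | ⟨t, ht, h1, h⟩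
    · rw [ht, aT_eq] at hb1 h
      have h3 := ent t j m h1 hjm ⟨atab t s, by omega⟩ b' q 3 h
      refine ⟨_, ?_, h3.1, ?_⟩
      · simp only [D2m, if_true]
        rw [(cf3_val _ t j m h1 hjm).1]
        exact alz_ne' rfl
      · intro c' hc' hne
        rcases h3.2 c' hc' with h4 | ⟨h5, _⟩ | ⟨h5, _⟩ | ⟨h5, _⟩ | ⟨h5, s1, hs, ha⟩ | ⟨h5, _⟩ | ⟨h5, _⟩
        · exact lt_of_le_of_lt h4 (by rw [hq]; exact Nat.lt_succ_self q)
        · omega
        · omega
        · omega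
        · exact absurd (by rw [hs, atab_inj (b := ⟨atab t s, by omega⟩) rfl ha]) hne
        all_goals omega
    · rw [ht, aT_eq] at hb1 h
      have h3 := ent j t m h1 h2 ⟨atab t s, by omega⟩ b' q 4 h
      refine ⟨_, ?_, h3.1, ?_⟩
      · simp only [D2m, if_true]
        rw [(cf3_val _ j t m h1 h2).2.1]
        exact neg_ne_zero.2 (alz_ne' rfl)
      · intro c' hc' hne
        rcases h3.2 c' hc' with h4 | ⟨h5, _⟩ | ⟨h5, _⟩ | ⟨h5, _⟩ | ⟨h5, _⟩ | ⟨h5, s1, hs, ha⟩ | ⟨h5, _⟩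
        · exact lt_of_le_of_lt h4 (by rw [hq]; exact Nat.lt_succ_self q)
        · omega
        · omega
        · omega
        · omega
        · exact absurd (by rw [hs, atab_inj (b := ⟨atab t s, by omega⟩) rfl ha]) hne
        all_goals omega
    · rw [ht, aT_eq] at hb1 h
      have h3 := ent j m t hjm h1 ⟨atab t s, by omega⟩ b' q 5 h
      refine ⟨_, ?_, h3.1, ?_⟩
      · simp only [D2m, if_true]
        rw [(cf3_val _ j m t hjm h1).2.2]
        exact alz_ne' rfl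
      · intro c' hc' hne
        rcases h3.2 c' hc' with h4 | ⟨h5, _⟩ | ⟨h5, _⟩ | ⟨h5, _⟩ | ⟨h5, _⟩ | ⟨h5, _⟩ | ⟨h5, s1, hs, ha⟩
        · exact lt_of_le_of_lt h4 (by rw [hq]; exact Nat.lt_succ_self q)
        · omega
        · omega
        · omega
        · omega
        · omega
        · exact absurd (by rw [hs, atab_inj (b := ⟨atab t s, by omega⟩) rfl ha]) hne

theorem cond_ite (n : ℕ) : (cond (Nat.beq n 0) 1 0 : ℕ) = if n = 0 then 1 else 0 := by
  cases n <;> rfl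

theorem pair_sum (g : ℕ → ℕ → ℕ) : ∑ p : Pr2, g p.1.1 p.1.2 = sumB 6 (fun m => sumB m fun j => g j m) := by
  have h1 : ∑ p : Pr2, g p.1.1 p.1.2 = ∑ p : Fin 6 × Fin 6, if p.1 < p.2 then g p.1 p.2 else 0 := by
    rw [← Finset.sum_filter]
    exact (Finset.sum_subtype (Finset.univ.filter fun p : Fin 6 × Fin 6 => p.1 < p.2) (by simp)
      (fun p : Fin 6 × Fin 6 => g p.1 p.2)).symm
  have h2 : sumB 6 (fun m => sumB m fun j => g j m) =
      (g 4 5 + (g 3 5 + (g 2 5 + (g 1 5 + (g 0 5 + 0))))) + ((g 3 4 + (g 2 4 + (g 1 4 + (g 0 4 + 0)))) +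
        ((g 2 3 + (g 1 3 + (g 0 3 + 0))) + ((g 1 2 + (g 0 2 + 0)) + ((g 0 1 + 0) + (0 + 0))))) := rfl
  rw [h1, Fintype.sum_prod_type, h2]
  simp only [Fin.sum_univ_six, Fin.lt_def]
  simp
  ring

theorem card_eq : (Finset.univ.filter fun c => posf c = 0).card = 240 := by
  classical
  rw [Finset.card_filter, Fintype.sum_sum_type, Fintype.sum_prod_type, Fintype.sum_prod_type, ← Finset.sum_add_distrib, ← cntA,
    ← pair_sum (fun j m => Nat.add (sumB 14 fun b => sumB 8 fun s => cond (Nat.beq (P (cL j m b s)) 0) 1 0)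
      (sumB 5 fun s => sumB 12 fun b => cond (Nat.beq (P (cR j m s b)) 0) 1 0))]
  refine Finset.sum_congr rfl fun p _ => ?_
  simp only [sumB_eq, cond_ite, Fintype.sum_prod_type]
  rfl

theorem fin : S_Cert2 := by
  classical
  have h : ∀ c : I2, ∃ r : I3, posf c ≠ 0 → D2m alz bez r c ≠ 0 ∧ r ≠ rF ∧
      ∀ c', D2m alz bez r c' ≠ 0 → c' ≠ c → posf c' < posf c := by
    intro c
    by_cases hc : posf c = 0
    · exact ⟨rF, fun h => absurd hc h⟩
    · obtain ⟨r, hr⟩ := main c hc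
      exact ⟨r, fun _ => hr⟩
  choose r hr using h
  exact ⟨posf, r, card_eq, hr⟩

end Cert2_aux

theorem tCert2 : S_Cert2 := Cert2_aux.fin

end Pool.Agent.QV
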