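import Pool.Agent.Lib.MP_b53bfe_ag.Q.SpecE
import Pool.Agent.Lib.MP_b53bfe_ag.Q.Bas

/-!
# Ch1: the chain, first part
-/

set_option autoImplicit false

noncomputable section

namespace Pool.Agent.QV

open Matrix
open MvPolynomial
open Pool.Agent.FY (Res)

namespace Ch1_aux

private theorem sup_congr {R : Type} [CommRing R] {J : Ideal R} {x y : R} (h : x - y ∈ J) :
    J ⊔ Ideal.span {x} = J ⊔ Ideal.span {y} := by
  apply le_antisymm
  · refine sup_le le_sup_left ?_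
    rw [Ideal.span_singleton_le_iff_mem]
    have : x = (x - y) + y := by ring
    rw [this]
    exact Ideal.add_mem _ (Ideal.mem_sup_left h) (Ideal.mem_sup_right (Ideal.mem_span_singleton_self y))
  · refine sup_le le_sup_left ?_
    rw [Ideal.span_singleton_le_iff_mem]
    have : y = -(x - y) + x := by ring
    rw [this]
    exact Ideal.add_mem _ (Ideal.mem_sup_left (Ideal.neg_mem_iff _ |>.mpr h))
      (Ideal.mem_sup_right (Ideal.mem_span_singleton_self x))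

private theorem mem_of_sub {R : Type} [CommRing R] {J : Ideal R} {x y : R} (h : x - y ∈ J) :
    x ∈ J ⊔ Ideal.span {y} := by
  rw [← sup_congr h]
  exact Ideal.mem_sup_right (Ideal.mem_span_singleton_self x)

private theorem sup_mul_le {R : Type} [CommRing R] (J : Ideal R) (x y : R) :
    J ⊔ Ideal.span {x * y} ≤ J ⊔ Ideal.span {x} := by
  refine sup_le le_sup_left ?_
  rw [Ideal.span_singleton_le_iff_mem]
  exact Ideal.mem_sup_right (Ideal.mul_mem_right _ _ (Ideal.mem_span_singleton_self x))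

private theorem sup_mul_le' {R : Type} [CommRing R] (J : Ideal R) (x y : R) :
    J ⊔ Ideal.span {x * y} ≤ J ⊔ Ideal.span {y} := by
  rw [mul_comm]
  exact sup_mul_le J y x

private theorem ideals {K : Type} [Field K] (a : Par K) :
    J0 a ⊔ Ideal.span {(X 8 : BB K)} ⊔ Ideal.span {(X 9 : BB K)} = J1 a ⊔ Ideal.span {(X 2 : BB K)} := by
  have m1 : ∀ (s : Set (BB K)) (x : BB K), x ∈ s → x ∈ Ideal.span s := fun s x hx => Ideal.subset_span hx
  apply le_antisymm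
  · refine sup_le (sup_le ?_ ?_) ?_
    · unfold J0
      rw [Ideal.span_le]
      rintro x (rfl | rfl)
      · exact Ideal.mem_sup_right (Ideal.mem_span_singleton_self _)
      · exact Ideal.mem_sup_left (m1 _ _ (by simp))
    · rw [Ideal.span_singleton_le_iff_mem]
      exact Ideal.mem_sup_left (m1 _ _ (by simp))
    · rw [Ideal.span_singleton_le_iff_mem]
      exact Ideal.mem_sup_left (m1 _ _ (by simp))
  · refine sup_le ?_ ?_
    · unfold J1
      rw [Ideal.span_le]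
      rintro x (rfl | rfl | rfl)
      · exact Ideal.mem_sup_left (Ideal.mem_sup_right (Ideal.mem_span_singleton_self _))
      · exact Ideal.mem_sup_right (Ideal.mem_span_singleton_self _)
      · exact Ideal.mem_sup_left (Ideal.mem_sup_left (m1 _ _ (by simp)))
    · rw [Ideal.span_singleton_le_iff_mem]
      exact Ideal.mem_sup_left (Ideal.mem_sup_left (m1 _ _ (by simp)))

end Ch1_aux

open Ch1_aux

theorem tCh1 : S_Rgp → S_Bq → S_Mlt → S_LfE → S_hW → S_RgE → S_Ch1 := by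
  intro hRgp hBq hMlt hLfE hhW hRgE K _ _ a V _ Φ hperf
  obtain ⟨r1, r2, r3, -, -⟩ := hRgp (BB K)
  obtain ⟨b1, b2, b3, -⟩ := hBq (PP K) (BB K) (hB a).toRingHom (WW a) (thP K) V Φ inferInstance hperf
  have mlt := hMlt (PP K) (BB K) (hB a).toRingHom (WW a) (thP K) V Φ
  obtain ⟨hth, -, lf⟩ := hLfE K a
  obtain ⟨w1, w2, w3, -⟩ := hhW K a
  obtain ⟨⟨g6, g2, gz⟩, ⟨g8, g7, g9, g15⟩, -⟩ := hRgE K a
  set F : Ideal (BB K) → V := fun J => Φ.f (Res (hB a).toRingHom (BB K ⧸ J)) with hF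
  have b1' : ∀ J : Ideal (BB K), RegI (hB a (WW a)) J → F (J ⊔ Ideal.span {hB a (WW a)}) = 0 :=
    fun J h => b1 J (lf J) h
  have b2' : ∀ (J : Ideal (BB K)) (ξ : BB K), hB a (WW a) ∈ J → RegI ξ J →
      F (J ⊔ Ideal.span {ξ}) = 0 := fun J ξ h h' => b2 J ξ (lf J) h h'
  have b3' : ∀ (J : Ideal (BB K)), hB a (WW a) ∈ J → hB a (thP K) ∈ J → F J = 0 :=
    fun J h h' => b3 J 1 h (by rw [pow_one]; exact h')
  have m' : ∀ (J : Ideal (BB K)) (x y : BB K), hB a (WW a) ∈ J ⊔ Ideal.span {x * y} →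
      RegI x J → F (J ⊔ Ideal.span {x * y}) = F (J ⊔ Ideal.span {x}) + F (J ⊔ Ideal.span {y}) :=
    fun J x y h h' => mlt J x y (lf _) h h'
  -- part (a)
  have a1 : RegI (X 6 * (X 2 * zB a)) (J1 a) := r2 _ _ _ g6 (r2 _ _ _ g2 gz)
  have a2 : RegI (hB a (WW a)) (J1 a) := by
    refine r3 _ (X 6 * (X 2 * zB a)) _ ?_ a1
    rw [← neg_sub]
    exact (Ideal.neg_mem_iff _).mpr w1
  have a3 := b1' _ a2
  rw [sup_congr w1] at a3
  have a4 : hB a (WW a) ∈ J1 a ⊔ Ideal.span {X 6 * (X 2 * zB a)} := mem_of_sub w1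
  rw [m' _ _ _ a4 g6] at a3
  have a5 : F (J1 a ⊔ Ideal.span {X 6}) = 0 := by
    refine b3' _ (sup_mul_le _ _ _ a4) ?_
    rw [hth, mul_assoc]
    exact Ideal.mem_sup_right (Ideal.mul_mem_right _ _ (Ideal.mem_span_singleton_self _))
  have a6 : hB a (WW a) ∈ J1 a ⊔ Ideal.span {X 2 * zB a} := sup_mul_le' _ _ _ a4
  rw [a5, zero_add, m' _ _ _ a6 g2] at a3
  -- part (b)
  have w3' : rB K - X 7 * (X 9 * (X 1 + X 5)) ∈ J0 a ⊔ Ideal.span {(X 8 : BB K)} :=
    Ideal.mem_sup_right w3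
  have c1 : RegI (X 7 * (X 9 * (X 1 + X 5))) (J0 a ⊔ Ideal.span {(X 8 : BB K)}) :=
    r2 _ _ _ g7 (r2 _ _ _ g9 g15)
  have c2 : RegI (rB K) (J0 a ⊔ Ideal.span {(X 8 : BB K)}) := by
    refine r3 _ (X 7 * (X 9 * (X 1 + X 5))) _ ?_ c1
    rw [← neg_sub]
    exact (Ideal.neg_mem_iff _).mpr w3'
  have c3 : RegI (X 8) (J0 a ⊔ Ideal.span {rB K}) := r1 _ _ _ g8 c2
  have c4 := b2' _ _ w2 c3
  have c5 : J0 a ⊔ Ideal.span {rB K} ⊔ Ideal.span {(X 8 : BB K)} =
      J0 a ⊔ Ideal.span {(X 8 : BB K)} ⊔ Ideal.span {X 7 * (X 9 * (X 1 + X 5))} := by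
    rw [sup_right_comm, sup_congr w3']
  rw [c5] at c4
  have c6 : hB a (WW a) ∈ J0 a ⊔ Ideal.span {(X 8 : BB K)} ⊔
      Ideal.span {X 7 * (X 9 * (X 1 + X 5))} := by
    rw [← c5]
    exact Ideal.mem_sup_left w2
  rw [m' _ _ _ c6 g7] at c4
  have c7 : F (J0 a ⊔ Ideal.span {(X 8 : BB K)} ⊔ Ideal.span {X 7}) = 0 := by
    refine b3' _ (sup_mul_le _ _ _ c6) ?_
    rw [hth, mul_comm (X 6) (X 7), mul_assoc]
    exact Ideal.mem_sup_right (Ideal.mul_mem_right _ _ (Ideal.mem_span_singleton_self _))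
  have c8 : hB a (WW a) ∈ J0 a ⊔ Ideal.span {(X 8 : BB K)} ⊔ Ideal.span {X 9 * (X 1 + X 5)} :=
    sup_mul_le' _ _ _ c6
  rw [c7, zero_add, m' _ _ _ c8 g9, ideals a] at c4
  have e1 : F (J1 a ⊔ Ideal.span {zB a}) = -F (J1 a ⊔ Ideal.span {X 2}) :=
    eq_neg_of_add_eq_zero_right a3
  have e2 : F (J0 a ⊔ Ideal.span {(X 8 : BB K)} ⊔ Ideal.span {X 1 + X 5}) =
      -F (J1 a ⊔ Ideal.span {X 2}) := eq_neg_of_add_eq_zero_right c4
  exact e1.trans e2.symm

end Pool.Agent.QV
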