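import Pool.Agent.Lib.MP_b53bfe_ag.Q.SpecE

/-!
# Disproof of Q1 of MP_b53bfe_ag for quintic threefolds, module Ch2: the chain, second part (helper95)
-/

set_option autoImplicit false

noncomputable section

namespace Pool.Agent.QV

open Matrix
open MvPolynomial
open Pool.Agent.FY (Res)

namespace Ch2_aux

theorem sup_le_of {R : Type} [CommRing R] (J : Ideal R) {x y : R} (h : x - y ∈ J) :
    J ⊔ Ideal.span {x} ≤ J ⊔ Ideal.span {y} := by
  refine sup_le le_sup_left ?_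
  rw [Ideal.span_singleton_le_iff_mem]
  have h1 : x = (x - y) + y := by ring
  rw [h1]
  exact Ideal.add_mem _ (Ideal.mem_sup_left h) (Ideal.mem_sup_right (Ideal.mem_span_singleton_self y))

theorem sup_eq_of {R : Type} [CommRing R] (J : Ideal R) {x y : R} (h : x - y ∈ J) :
    J ⊔ Ideal.span {x} = J ⊔ Ideal.span {y} := by
  refine le_antisymm (sup_le_of J h) (sup_le_of J ?_)
  have h1 : y - x = -(x - y) := by ring
  rw [h1]
  exact J.neg_mem h

theorem ideal_eq {K : Type} [Field K] (a : Par K) :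
    J0 a ⊔ Ideal.span {X 8} ⊔ Ideal.span {X 1 + X 5} = J4 K ⊔ Ideal.span {fB a} := by
  unfold J0 J4
  rw [Ideal.span_insert (X 2) {fB a}, Ideal.span_insert (X 2) {X 8, X 1 + X 5},
    Ideal.span_insert (X 8) {X 1 + X 5}]
  simp only [sup_assoc, sup_comm, sup_left_comm]

end Ch2_aux

open Ch2_aux in
theorem tCh2 : S_Mlt → S_LfE → S_hW → S_RgE → S_Ch2 := by
  intro hMlt hLfE hhW hRgE K _ _ a V _ Φ κ hκ
  obtain ⟨-, -, hLF⟩ := hLfE K a
  obtain ⟨-, hW2, hr, hprod⟩ := hhW K a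
  obtain ⟨-, -, hreg⟩ := hRgE K a
  -- `hB W` is in the ideal
  have hWI : hB a (WW a) ∈ J0 a ⊔ Ideal.span {X 8} ⊔ Ideal.span {X 1 + X 5} := by
    have h1 : J0 a ⊔ Ideal.span {rB K} ≤ J0 a ⊔ Ideal.span {X 8} ⊔ Ideal.span {X 1 + X 5} := by
      refine sup_le (le_sup_left.trans le_sup_left) ?_
      rw [Ideal.span_singleton_le_iff_mem]
      have e : rB K = (rB K - X 7 * (X 9 * (X 1 + X 5))) + (X 7 * X 9) * (X 1 + X 5) := by ring
      rw [e]
      refine Ideal.add_mem _ (Ideal.mem_sup_left (Ideal.mem_sup_right hr)) ?_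
      exact Ideal.mem_sup_right (Ideal.mul_mem_left _ _ (Ideal.mem_span_singleton_self _))
    exact h1 hW2
  have hI : J0 a ⊔ Ideal.span {X 8} ⊔ Ideal.span {X 1 + X 5} =
      J4 K ⊔ Ideal.span {∏ k : Fin 5, (X 4 + C (κ k) * X 3 : BB K)} := by
    rw [ideal_eq]
    exact (sup_eq_of _ (hprod κ hκ)).symm
  rw [hI] at hWI ⊢
  -- induction
  have key : ∀ s : Finset (Fin 5),
      hB a (WW a) ∈ J4 K ⊔ Ideal.span {∏ k ∈ s, (X 4 + C (κ k) * X 3 : BB K)} →
      Φ.f (Res (hB a).toRingHom (BB K ⧸ (J4 K ⊔ Ideal.span {∏ k ∈ s, (X 4 + C (κ k) * X 3 : BB K)}))) =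
        ∑ k ∈ s, Φ.f (Res (hB a).toRingHom (BB K ⧸ (J4 K ⊔ Ideal.span {X 4 + C (κ k) * X 3}))) := by
    intro s
    induction s using Finset.induction_on with
    | empty =>
      intro _
      rw [Finset.sum_empty]
      have hsub : Subsingleton (BB K ⧸ (J4 K ⊔ Ideal.span {∏ k ∈ (∅ : Finset (Fin 5)),
          (X 4 + C (κ k) * X 3 : BB K)})) := by
        rw [Finset.prod_empty, Ideal.span_singleton_one, sup_top_eq]
        exact Ideal.Quotient.subsingleton_iff.mpr rfl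
      have hsub' : Subsingleton (Res (hB a).toRingHom (BB K ⧸ (J4 K ⊔ Ideal.span
          {∏ k ∈ (∅ : Finset (Fin 5)), (X 4 + C (κ k) * X 3 : BB K)}))) := hsub
      exact Φ.tors _ (fun m => Subsingleton.elim _ _) (fun m => ⟨0, Subsingleton.elim _ _⟩)
    | insert k s hk ih =>
      intro hmem
      rw [Finset.prod_insert hk] at hmem
      have hle : J4 K ⊔ Ideal.span {(X 4 + C (κ k) * X 3) * ∏ k ∈ s, (X 4 + C (κ k) * X 3 : BB K)} ≤
          J4 K ⊔ Ideal.span {∏ k ∈ s, (X 4 + C (κ k) * X 3 : BB K)} := by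
        refine sup_le le_sup_left (le_sup_of_le_right ?_)
        rw [Ideal.span_singleton_le_iff_mem]
        exact Ideal.mul_mem_left _ _ (Ideal.mem_span_singleton_self _)
      have h1 := hMlt (PP K) (BB K) (hB a).toRingHom (WW a) (thP K) V Φ (J4 K)
        (X 4 + C (κ k) * X 3) (∏ k ∈ s, (X 4 + C (κ k) * X 3 : BB K)) (hLF _) hmem (hreg (κ k))
      rw [Finset.sum_insert hk, ← ih (hle hmem), Finset.prod_insert hk]
      exact h1
  exact key Finset.univ hWI

end Pool.Agent.QV
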