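import Pool.Agent.Lib.MP_b53bfe_ag.Q.SpecB

/-!
# Voisin's question for quintic threefolds: the Chern character over the polynomial ring (S_ChP)
-/

set_option autoImplicit false

noncomputable section

namespace Pool.Agent.QV

open Matrix TensorProduct

namespace ChP_aux

/-- an element that kills `M` kills `L ⊗ M` -/
lemma smul_base {P L M : Type} [CommRing P] [CommRing L] [Algebra P L] [AddCommGroup M] [Module P M] (s : P)
    (h : ∀ m : M, s • m = 0) (z : L ⊗[P] M) : (algebraMap P L s) • z = 0 := by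
  induction z using TensorProduct.induction_on with
  | zero => rw [smul_zero]
  | tmul l m =>
    rw [TensorProduct.smul_tmul', smul_eq_mul, ← Algebra.smul_def, TensorProduct.smul_tmul, h, TensorProduct.tmul_zero]
  | add x y hx hy => rw [smul_add, hx, hy, add_zero]

end ChP_aux

open ChP_aux

theorem tChP : S_CalL → S_Chn → S_NLD → S_Loc → S_ChPa → S_KnL → S_ChP := by
  intro hCalL hChn hNLD hLoc hChPa hKnL K _ σ _ Lb E _ _ _ _ _ _ C W k hunit hW hdW hk
  have hu : ∀ y : (ori K σ).primeCompl, IsUnit (algebraMap (MvPolynomial σ K) Lb y) := by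
    intro y
    apply hunit
    intro h
    exact y.2 h
  let g : Lo K σ →+* Lb := IsLocalization.lift (M := (ori K σ).primeCompl) hu
  have hg : ∀ x : MvPolynomial σ K, g (algebraMap (MvPolynomial σ K) (Lo K σ) x) = algebraMap (MvPolynomial σ K) Lb x :=
    fun x => IsLocalization.lift_eq hu x
  let iA : Algebra (Lo K σ) E := Algebra.compHom E g
  have iT : IsScalarTower (MvPolynomial σ K) (Lo K σ) E := by
    refine IsScalarTower.of_algebraMap_eq fun x => ?_
    have h1 : algebraMap (Lo K σ) E (algebraMap (MvPolynomial σ K) (Lo K σ) x) =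
        algebraMap Lb E (g (algebraMap (MvPolynomial σ K) (Lo K σ) x)) := rfl
    rw [h1, hg, ← IsScalarTower.algebraMap_apply]
  obtain ⟨C', hC'⟩ := hCalL (MvPolynomial σ K) (Lo K σ) E (ori K σ).primeCompl C
  have hWL : algebraMap (MvPolynomial σ K) (Lo K σ) W ≠ 0 := by
    intro h
    apply hW
    have hinj : Function.Injective (algebraMap (MvPolynomial σ K) (Lo K σ)) :=
      IsLocalization.injective _ (Ideal.primeCompl_le_nonZeroDivisors (ori K σ))
    exact hinj (by rw [h, map_zero])
  obtain ⟨χ, hχ⟩ := hChn (Lo K σ) E C' (algebraMap (MvPolynomial σ K) (Lo K σ) W) k (hNLD K σ (ori K σ)) hWL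
    (by rw [hC', hdW]) (by omega)
  obtain ⟨χ', hχ'⟩ := hLoc (MvPolynomial σ K) (Lo K σ) (ori K σ).primeCompl W E χ
  refine ⟨χ', hChPa (MvPolynomial σ K) (Lo K σ) E (ori K σ).primeCompl C C' W k χ χ' inferInstance hC' hχ hχ', ?_⟩
  intro v W₀ b hWe hW₀ hd M _ _ hfin hv hkW
  rw [hχ']
  refine hKnL K σ v W₀ W b E C' k χ hWe hW₀ hW ?_ hk hχ (Lo K σ ⊗[MvPolynomial σ K] M) inferInstance
    (smul_base _ hv) (smul_base _ hkW)
  rw [hC', hC', hd]

end Pool.Agent.QV
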