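import Pool.Agent.Lib.MP_b53bfe_ag.Q.SpecB
import Pool.Agent.Lib.MP_b53bfe_ag.Q.Bas

/-!
# The Chern character over the polynomial ring: properties of `M ↦ χ (L ⊗ M)`
-/

set_option autoImplicit false

noncomputable section

namespace Pool.Agent.QV

open Matrix TensorProduct

namespace ChPa_aux

/-- the quotient `N / W N` after base change -/
theorem qtIso {P L : Type} [CommRing P] [CommRing L] [Algebra P L] (W : P) (N : Type) [AddCommGroup N] [Module P N] :
    Nonempty ((L ⊗[P] Qt W N) ≃ₗ[L] Qt (algebraMap P L W) (L ⊗[P] N)) := by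
  have hW : ∀ z : L ⊗[P] N, (algebraMap P L W) • z = (LinearMap.lsmul P N W).lTensor L z := by
    intro z
    rw [algebraMap_smul]
    induction z with
    | zero => rw [smul_zero, map_zero]
    | tmul x y => rw [← TensorProduct.tmul_smul, LinearMap.lTensor_tmul, LinearMap.lsmul_apply]
    | add x y hx hy => rw [smul_add, hx, hy, map_add]
  set q : N →ₗ[P] Qt W N := (Ideal.span {W} • (⊤ : Submodule P N)).mkQ with hq
  have hex : Function.Exact (LinearMap.lsmul P N W) q := by
    intro y
    rw [hq, Submodule.mkQ_apply, Submodule.Quotient.mk_eq_zero, Submodule.ideal_span_singleton_smul,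
      Submodule.mem_smul_pointwise_iff_exists]
    constructor
    · rintro ⟨x, -, rfl⟩
      exact ⟨x, rfl⟩
    · rintro ⟨x, rfl⟩
      exact ⟨x, trivial, rfl⟩
  have hqs : Function.Surjective q := Submodule.mkQ_surjective _
  have hex2 := lTensor_exact L hex hqs
  have hs : Function.Surjective (q.baseChange L) := LinearMap.lTensor_surjective L hqs
  have hk : LinearMap.ker (q.baseChange L) = Ideal.span {algebraMap P L W} • (⊤ : Submodule L (L ⊗[P] N)) := by
    ext z
    have h1 : z ∈ LinearMap.ker (q.baseChange L) ↔ z ∈ Set.range ((LinearMap.lsmul P N W).lTensor L) := hex2 z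
    have h2 : z ∈ Ideal.span {algebraMap P L W} • (⊤ : Submodule L (L ⊗[P] N)) ↔
        ∃ x : L ⊗[P] N, x ∈ (⊤ : Submodule L (L ⊗[P] N)) ∧ algebraMap P L W • x = z := by
      rw [Submodule.ideal_span_singleton_smul, Submodule.mem_smul_pointwise_iff_exists]
    rw [h1, h2]
    constructor
    · rintro ⟨x, rfl⟩
      exact ⟨x, trivial, hW x⟩
    · rintro ⟨x, -, rfl⟩
      exact ⟨x, (hW x).symm⟩
  exact ⟨((Submodule.quotEquivOfEq _ _ hk.symm).trans ((q.baseChange L).quotKerEquivOfSurjective hs)).symm⟩

/-- `W` stays regular after flat base change -/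
theorem regL {P L : Type} [CommRing P] [CommRing L] [Algebra P L] [Module.Flat P L] (W : P) (N : Type) [AddCommGroup N]
    [Module P N] (h : Reg W N) : Reg (algebraMap P L W) (L ⊗[P] N) := by
  have hW : ∀ z : L ⊗[P] N, (algebraMap P L W) • z = (LinearMap.lsmul P N W).lTensor L z := by
    intro z
    rw [algebraMap_smul]
    induction z with
    | zero => rw [smul_zero, map_zero]
    | tmul x y => rw [← TensorProduct.tmul_smul, LinearMap.lTensor_tmul, LinearMap.lsmul_apply]
    | add x y hx hy => rw [smul_add, hx, hy, map_add]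
  have hi : Function.Injective (LinearMap.lsmul P N W) := by
    intro x y hxy
    have : W • (x - y) = 0 := by
      rw [smul_sub, sub_eq_zero]
      exact hxy
    exact sub_eq_zero.1 (h _ this)
  have hj := Module.Flat.lTensor_preserves_injective_linearMap (M := L) (LinearMap.lsmul P N W) hi
  intro x hx
  rw [hW] at hx
  exact hj (by rw [hx, map_zero])

/-- the image of a list of pairs -/
abbrev im (P L : Type) [CommRing P] [CommRing L] [Algebra P L] (ps : List (P × P)) : List (L × L) :=
  ps.map fun q => (algebraMap P L q.1, algebraMap P L q.2)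

theorem kf_im {P L E : Type} [CommRing P] [CommRing L] [Algebra P L] [Ring E] [Algebra P E] [Algebra L E]
    (C : Cal P E) (C' : Cal L E) (h : ∀ a : P, C'.d (algebraMap P L a) = C.d a) (k : ℕ) (ps : List (P × P)) :
    C'.kf k (im P L ps) = C.kf k ps := by
  induction ps with
  | nil => rfl
  | cons q ps ih =>
    obtain ⟨a, b⟩ := q
    simp only [im, List.map_cons, Cal.kf, List.length_map, h]
    rw [show C'.kf k (List.map (fun q : P × P => (algebraMap P L q.1, algebraMap P L q.2)) ps) = C.kf k ps from ih]

theorem pot_im {P L : Type} [CommRing P] [CommRing L] [Algebra P L] (ps : List (P × P)) (W₀ : P) :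
    pot (algebraMap P L W₀) (im P L ps) = algebraMap P L (pot W₀ ps) := by
  induction ps generalizing W₀ with
  | nil => rfl
  | cons q ps ih =>
    have h := ih (W₀ + q.1 * q.2)
    rw [map_add, map_mul] at h
    exact h

theorem kosL (hK : S_Kos) {L E : Type} [CommRing L] [Ring E] [Algebra L E] (C : Cal L E) (ps : List (L × L)) (a b W : L)
    (χ : AF L W E) (k : ℕ) (hW : pot (a * b) ps = W) (hk : ps.length + 1 = k) (hN : IsNoetherianRing L)
    (hC : IsChern C W k χ) (hg : Good (a * b) ps) :
    χ.f (L ⧸ idl ((a, b) :: ps)) = C.kf k ps * (C.d a * C.d b) := by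
  subst hW
  subst hk
  exact hK L E C ps a b χ hN hC hg

end ChPa_aux

open ChPa_aux in
theorem tChPa : S_Kos → S_LocG → S_ChPa := by
  intro hK hG P L E _ _ _ S _ _ _ _ _ C C' W k χ χ' hN hd hC hχ
  have hflat : Module.Flat P L := IsLocalization.flat L S
  have hNL : IsNoetherianRing L := IsLocalization.isNoetherianRing S L hN
  refine ⟨?_, ?_⟩
  · intro N _ _ hf hr
    obtain ⟨e⟩ := qtIso (L := L) W N
    rw [hχ, χ.iso e inferInstance ?_]
    · exact hC.perf _ inferInstance (regL W N hr)
    · exact KW.of_inj KW.qt e.toLinearMap e.injective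
  · intro a b ps hW hk hg
    obtain ⟨hG1, hG2⟩ := hG P L S
    have hWm : algebraMap P L W ∈ (idl ((a, b) :: ps)).map (algebraMap P L) := by
      apply Ideal.mem_map_of_mem
      rw [← hW]
      have key : ∀ (ps : List (P × P)) (w : P) (J : Ideal P), w ∈ J → (∀ q ∈ ps, q.1 ∈ J) → pot w ps ∈ J := by
        intro ps
        induction ps with
        | nil => intro w J hw _; exact hw
        | cons q ps ih =>
          intro w J hw hJ
          refine ih (w + q.1 * q.2) J (J.add_mem hw (J.mul_mem_right _ (hJ q List.mem_cons_self))) ?_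
          intro r hr
          exact hJ r (List.mem_cons_of_mem _ hr)
      refine key ps (a * b) _ (Ideal.mul_mem_right _ _ (Ideal.subset_span ⟨(a, b), List.mem_cons_self, rfl⟩)) ?_
      intro q hq
      exact Ideal.subset_span ⟨q, List.mem_cons_of_mem _ hq, rfl⟩
    have e := (Algebra.TensorProduct.quotIdealMapEquivTensorQuot L (idl ((a, b) :: ps))).toLinearEquiv
    rw [hχ, ← χ.iso e inferInstance (KW.quot _ hWm)]
    have hI := hG1 ((a, b) :: ps)
    rw [← hI]
    have h := kosL hK C' (im P L ps) (algebraMap P L a) (algebraMap P L b) (algebraMap P L W) χ k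
      (by rw [← map_mul, pot_im, hW]) (by rw [List.length_map]; exact hk) hNL hC
      (by rw [← map_mul]; exact hG2 ps (a * b) hg)
    rw [kf_im C C' hd, hd, hd] at h
    exact h

end Pool.Agent.QV
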