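import Pool.Agent.Lib.MP_b53bfe_ag.Q.SpecA
import Pool.Agent.Lib.MP_b53bfe_ag.Q.Bas

/-!
# `S_Chn`: existence of the Chern character
-/

set_option autoImplicit false

noncomputable section

namespace Pool.Agent.QV

open Matrix

theorem tChn : S_Phi → S_Prf → S_Ckb → S_Tri → S_Chn := by
  intro hPhi hPrf hCkb hTri L E _ _ _ C W k hL hW hd hk
  obtain ⟨χ, hχ⟩ := hPhi L E C W k hL hW hd hk
  have := hL.dom
  have hreg : ∀ x : L, W * x = 0 → x = 0 := fun x hx => (mul_eq_zero.mp hx).resolve_left hW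
  obtain ⟨h1, -, ⟨e⟩⟩ := hCkb L W hreg
  have hmf : IsMF W (W • (1 : Matrix (Fin 1) (Fin 1) L)) (1 : Matrix (Fin 1) (Fin 1) L) :=
    ⟨by simp, by simp⟩
  obtain ⟨hfin, hkw, -, -⟩ := h1 (Fin 1) _ _ hmf
  have h0 : χ.f (L ⧸ Ideal.span {W}) = 0 := by
    rw [← χ.iso e hfin hkw, hχ (Fin 1) _ _ hmf]
    exact ((hTri L E C (Fin 1) (Fin 1) k).2.2 W hk).2
  exact ⟨χ, hχ, fun N _ _ hN hr => hPrf L W E χ hL hW h0 N hN hr⟩

end Pool.Agent.QV
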