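import Pool.Agent.Lib.MP_b53bfe_ag.Q.SpecA

/-!
# Cokernels of matrix factorizations (module Ckb, helper78)
-/

set_option autoImplicit false

noncomputable section

namespace Pool.Agent.QV

open Matrix

namespace Ckb_aux

theorem inj {L : Type} [CommRing L] {W : L} (hW : ∀ x : L, W * x = 0 → x = 0) {n : Type} [Fintype n] [DecidableEq n]
    {A B : Matrix n n L} (h : IsMF W A B) : Function.Injective A.mulVecLin := by
  rw [injective_iff_map_eq_zero]
  intro x hx
  rw [Matrix.mulVecLin_apply] at hx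
  have h1 : (B * A) *ᵥ x = 0 := by
    rw [← Matrix.mulVec_mulVec, hx, Matrix.mulVec_zero]
  rw [h.ba, Matrix.smul_mulVec, Matrix.one_mulVec] at h1
  funext i
  exact hW _ (by simpa using congrFun h1 i)

theorem kw {L : Type} [CommRing L] {W : L} {n : Type} [Fintype n] [DecidableEq n]
    {A B : Matrix n n L} (h : IsMF W A B) : KW W (Ck A) := by
  intro m
  obtain ⟨x, rfl⟩ := Submodule.Quotient.mk_surjective _ m
  rw [← Submodule.Quotient.mk_smul, Submodule.Quotient.mk_eq_zero]
  refine ⟨B *ᵥ x, ?_⟩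
  rw [Matrix.mulVecLin_apply, Matrix.mulVec_mulVec, h.ab, Matrix.smul_mulVec, Matrix.one_mulVec]

theorem pd0 (hPd : S_Pd) {L : Type} [CommRing L] (n : Type) [Fintype n] : PD L 0 (n → L) :=
  ((hPd L).2.2.2 (n → L)).2 inferInstance

theorem pd1 (hPd : S_Pd) {L : Type} [CommRing L] {n : Type} [Fintype n] {C : Type} [AddCommGroup C] [Module L C]
    (i : (n → L) →ₗ[L] (n → L)) (p : (n → L) →ₗ[L] C) (hi : Function.Injective i) (hp : Function.Surjective p)
    (he : Function.Exact i p) : PD L 1 C := by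
  have h0 : PD L 0 (n → L) := pd0 hPd n
  exact ((hPd L).1 0 _ _ _ i p hi hp he).2.2 h0 ((hPd L).2.2.1 0 1 _ (Nat.zero_le 1) h0)

end Ckb_aux

open Ckb_aux

theorem tCkb : S_Pd → S_Ckb := by
  intro hPd L _ W hW
  refine ⟨?_, ?_, ?_⟩
  · intro n _ _ A B h
    refine ⟨inferInstance, kw h, inj hW h, ?_⟩
    exact pd1 hPd A.mulVecLin (LinearMap.range A.mulVecLin).mkQ (inj hW h) (Submodule.mkQ_surjective _)
      (LinearMap.exact_map_mkQ_range _)
  · intro n
    have hq : ∀ x : L, (Ideal.Quotient.mk (Ideal.span {W}) x = 0) ↔ ∃ y, W * y = x := by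
      intro x
      rw [Ideal.Quotient.eq_zero_iff_mem, Ideal.mem_span_singleton]
      constructor
      · rintro ⟨y, hy⟩
        exact ⟨y, hy.symm⟩
      · rintro ⟨y, hy⟩
        exact ⟨y, hy.symm⟩
    refine pd1 hPd (n := Fin n) (W • LinearMap.id) ((Submodule.mkQ (Ideal.span {W} : Submodule L L)).compLeft (Fin n)) ?_ ?_ ?_
    · rw [injective_iff_map_eq_zero]
      intro x hx
      funext i
      exact hW _ (by simpa using congrFun hx i)
    · intro y
      choose x hx using fun i => Submodule.mkQ_surjective (Ideal.span {W} : Submodule L L) (y i)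
      exact ⟨x, funext hx⟩
    · intro x
      constructor
      · intro hx
        have h1 : ∀ i, ∃ y, W * y = x i := fun i => (hq _).1 (congrFun hx i)
        choose y hy using h1
        exact ⟨y, funext hy⟩
      · rintro ⟨y, rfl⟩
        funext i
        exact (hq _).2 ⟨y i, rfl⟩
  · refine ⟨Submodule.Quotient.equiv _ _ (LinearEquiv.funUnique (Fin 1) L L) ?_⟩
    ext x
    rw [Submodule.mem_map]
    constructor
    · rintro ⟨y, ⟨z, rfl⟩, rfl⟩
      rw [Matrix.mulVecLin_apply, Matrix.smul_mulVec, Matrix.one_mulVec]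
      exact Ideal.mem_span_singleton.2 ⟨z default, rfl⟩
    · intro hx
      obtain ⟨y, rfl⟩ := Ideal.mem_span_singleton.1 hx
      refine ⟨fun _ => W * y, ⟨fun _ => y, ?_⟩, rfl⟩
      rw [Matrix.mulVecLin_apply, Matrix.smul_mulVec, Matrix.one_mulVec]
      rfl

end Pool.Agent.QV
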