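import Pool.Agent.Lib.MP_b53bfe_ag.Q.SpecE
import Pool.Agent.Lib.MP_b53bfe_ag.Q.Bas

/-!
# The modules `PP / IM` (`S_CmpM`)

The ideal `IM` is the kernel of a retraction `r` of `PP`; the map `BB → Frac PP` with `ℓ ∘ hB = r` kills `J4 + (x₃ + κ x₂)`.
-/

set_option autoImplicit false

noncomputable section

namespace Pool.Agent.QV

open Matrix
open MvPolynomial
open Pool.Agent.FY (Res)

namespace CmpM_aux

section

variable {K : Type} [Field K] (a : Par K) (κ : K)

/-- the retraction of `PP` with kernel `IM` -/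
def rt : PP K →ₐ[K] PP K :=
  aeval fun v => (![![0, X (0, 1), X (0, 2), -(C κ * X (0, 2)), C a.c * X (0, 2) ^ 2],
    ![X (1, 0), 0, X (1, 2), -(C κ * X (1, 2)), -X (1, 0)],
    ![X (2, 0), 0, X (2, 2), -(C κ * X (2, 2)), -X (2, 0)]] v.1 v.2 : PP K)

theorem rt_X (v : Fin 3 × Fin 5) : rt a κ (X v) =
    (![![0, X (0, 1), X (0, 2), -(C κ * X (0, 2)), C a.c * X (0, 2) ^ 2],
    ![X (1, 0), 0, X (1, 2), -(C κ * X (1, 2)), -X (1, 0)],
    ![X (2, 0), 0, X (2, 2), -(C κ * X (2, 2)), -X (2, 0)]] v.1 v.2 : PP K) := aeval_X _ _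

theorem hB_X (v : Fin 3 × Fin 5) : hB a (X v) =
    (![![X 6 * X 2, X 0, X 6 * X 3, X 6 * X 4, X 6 ^ 2 * uf a (X 1) (X 3) (X 5)],
    ![X 1, X 2, X 3, X 4, X 5],
    ![X 7 * X 1 + C (1 / 2) * (X 8 + X 9), X 7 * X 2, X 7 * X 3, X 7 * X 4, X 7 * X 5 + C (1 / 2) * (X 8 - X 9)]] v.1 v.2 : BB K) :=
  aeval_X _ _

/-- the field of fractions -/
abbrev FF (K : Type) [Field K] : Type := FractionRing (PP K)

/-- the class of a polynomial -/
def io (K : Type) [Field K] : PP K →ₐ[K] FF K := IsScalarTower.toAlgHom K (PP K) (FF K)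

theorem io_inj : Function.Injective (io K) := IsFractionRing.injective (PP K) (FF K)

/-- the values of `ℓ` -/
def ev (κ : K) : Fin 10 → FF K :=
  ![io K (X (0, 1)), io K (X (1, 0)), 0, io K (X (1, 2)), -(algebraMap K (FF K) κ * io K (X (1, 2))), -io K (X (1, 0)),
    io K (X (0, 2)) / io K (X (1, 2)), io K (X (2, 2)) / io K (X (1, 2)), 0,
    2 * (io K (X (2, 0)) - io K (X (2, 2)) / io K (X (1, 2)) * io K (X (1, 0)))]

/-- the map `ℓ` -/
def el (κ : K) : BB K →ₐ[K] FF K := aeval (ev κ)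

theorem el_X (i : Fin 10) : el κ (X i) = ev κ i := aeval_X _ _

theorem el_C (x : K) : el κ (C x) = algebraMap K (FF K) x := by
  rw [← MvPolynomial.algebraMap_eq]; exact (el κ).commutes x

theorem io_C (x : K) : io K (C x) = algebraMap K (FF K) x := by
  rw [← MvPolynomial.algebraMap_eq]; exact (io K).commutes x

theorem x2_ne : io K (X (1, 2)) ≠ 0 := by
  rw [Ne, map_eq_zero_iff _ io_inj]
  exact X_ne_zero _

theorem el_uf : el κ (uf a (X 1) (X 3) (X 5)) = algebraMap K (FF K) a.c * io K (X (1, 2)) ^ 2 := by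
  have h1 : el κ (X 1) = io K (X (1, 0)) := el_X κ 1
  have h3 : el κ (X 3) = io K (X (1, 2)) := el_X κ 3
  have h5 : el κ (X 5) = -io K (X (1, 0)) := el_X κ 5
  unfold uf
  rw [map_add, map_sub, map_mul, map_pow, map_pow, map_pow, h1, h3, h5, AlgHom.commutes]
  ring

theorem el_hB [CharZero K] (x : PP K) : el κ (hB a x) = io K (rt a κ x) := by
  have h : (el κ).comp (hB a) = (io K).comp (rt a κ) := by
    refine MvPolynomial.algHom_ext fun v => ?_
    rw [AlgHom.comp_apply, AlgHom.comp_apply, hB_X, rt_X]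
    have h0 : el κ (X 0) = io K (X (0, 1)) := el_X κ 0
    have h1 : el κ (X 1) = io K (X (1, 0)) := el_X κ 1
    have h2 : el κ (X 2) = 0 := el_X κ 2
    have h3 : el κ (X 3) = io K (X (1, 2)) := el_X κ 3
    have h4 : el κ (X 4) = -(algebraMap K (FF K) κ * io K (X (1, 2))) := el_X κ 4
    have h5 : el κ (X 5) = -io K (X (1, 0)) := el_X κ 5
    have h6 : el κ (X 6) = io K (X (0, 2)) / io K (X (1, 2)) := el_X κ 6
    have h7 : el κ (X 7) = io K (X (2, 2)) / io K (X (1, 2)) := el_X κ 7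
    have h8 : el κ (X 8) = 0 := el_X κ 8
    have h9 : el κ (X 9) = 2 * (io K (X (2, 0)) - io K (X (2, 2)) / io K (X (1, 2)) * io K (X (1, 0))) := el_X κ 9
    have hx := x2_ne (K := K)
    have h12 : el κ (C (1 / 2)) * 2 = 1 := by
      rw [el_C, map_div₀, map_one, map_ofNat]
      have : (2 : FF K) ≠ 0 := by
        have := (algebraMap K (FF K)).injective
        intro h
        have h' : algebraMap K (FF K) 2 = algebraMap K (FF K) 0 := by rw [map_ofNat, map_zero, h]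
        exact two_ne_zero (this h')
      field_simp
    obtain ⟨i, j⟩ := v
    fin_cases i <;> fin_cases j
    · show el κ (X 6 * X 2) = io K 0
      rw [map_mul, h2, mul_zero, map_zero]
    · show el κ (X 0) = io K (X (0, 1))
      exact h0
    · show el κ (X 6 * X 3) = io K (X (0, 2))
      rw [map_mul, h6, h3, div_mul_cancel₀ _ hx]
    · show el κ (X 6 * X 4) = io K (-(C κ * X (0, 2)))
      rw [map_mul, h6, h4, map_neg, map_mul, io_C]
      field_simp
    · show el κ (X 6 ^ 2 * uf a (X 1) (X 3) (X 5)) = io K (C a.c * X (0, 2) ^ 2)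
      rw [map_mul, map_pow, h6, el_uf, map_mul, map_pow, io_C]
      field_simp
    · show el κ (X 1) = io K (X (1, 0))
      exact h1
    · show el κ (X 2) = io K 0
      rw [h2, map_zero]
    · show el κ (X 3) = io K (X (1, 2))
      exact h3
    · show el κ (X 4) = io K (-(C κ * X (1, 2)))
      rw [h4, map_neg, map_mul, io_C]
    · show el κ (X 5) = io K (-X (1, 0))
      rw [h5, map_neg]
    · show el κ (X 7 * X 1 + C (1 / 2) * (X 8 + X 9)) = io K (X (2, 0))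
      rw [map_add, map_mul, map_mul, map_add, h7, h1, h8, h9, zero_add, ← mul_assoc, h12]
      ring
    · show el κ (X 7 * X 2) = io K 0
      rw [map_mul, h2, mul_zero, map_zero]
    · show el κ (X 7 * X 3) = io K (X (2, 2))
      rw [map_mul, h7, h3, div_mul_cancel₀ _ hx]
    · show el κ (X 7 * X 4) = io K (-(C κ * X (2, 2)))
      rw [map_mul, h7, h4, map_neg, map_mul, io_C]
      field_simp
    · show el κ (X 7 * X 5 + C (1 / 2) * (X 8 - X 9)) = io K (-X (2, 0))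
      rw [map_add, map_mul, map_mul, map_sub, h7, h5, h8, h9, map_neg]
      linear_combination -(io K (X (2, 0)) - io K (X (2, 2)) / io K (X (1, 2)) * io K (X (1, 0))) * h12
  have := DFunLike.congr_fun h x
  exact this

theorem el_J (x : BB K) (hx : x ∈ J4 K ⊔ Ideal.span {X 4 + C κ * X 3}) : el κ x = 0 := by
  have h1 : el κ (X 1) = io K (X (1, 0)) := el_X κ 1
  have h2 : el κ (X 2) = 0 := el_X κ 2
  have h3 : el κ (X 3) = io K (X (1, 2)) := el_X κ 3
  have h4 : el κ (X 4) = -(algebraMap K (FF K) κ * io K (X (1, 2))) := el_X κ 4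
  have h5 : el κ (X 5) = -io K (X (1, 0)) := el_X κ 5
  have h8 : el κ (X 8) = 0 := el_X κ 8
  have h : J4 K ⊔ Ideal.span {X 4 + C κ * X 3} ≤ RingHom.ker (el κ) := by
    rw [sup_le_iff]
    constructor
    · unfold J4
      rw [Ideal.span_le]
      rintro y (rfl | rfl | rfl)
      · exact h2
      · exact h8
      · show el κ (X 1 + X 5) = 0
        rw [map_add, h1, h5, add_neg_cancel]
    · rw [Ideal.span_le]
      rintro y rfl
      show el κ (X 4 + C κ * X 3) = 0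
      rw [map_add, map_mul, h4, h3, el_C, neg_add_cancel]
  exact h hx

theorem IM_mem (x : PP K) : x = X (0, 0) ∨ (∃ q ∈ prs a κ, x = q.1) → x ∈ IM a κ := by
  rintro (rfl | ⟨q, hq, rfl⟩)
  · exact Ideal.subset_span ⟨_, List.mem_cons_self, rfl⟩
  · exact Ideal.subset_span ⟨q, List.mem_cons_of_mem _ hq, rfl⟩

theorem IM_eq : IM a κ = Ideal.span {X (0, 0), X (0, 3) + C κ * X (0, 2), X (0, 4) - C a.c * X (0, 2) ^ 2, X (1, 1),
    X (1, 0) + X (1, 4), X (1, 3) + C κ * X (1, 2), X (2, 1), X (2, 0) + X (2, 4), X (2, 3) + C κ * X (2, 2)} := by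
  unfold IM idl prs
  congr 1
  ext x
  simp only [List.mem_cons, List.not_mem_nil, or_false, Set.mem_ofPred_eq, exists_eq_or_imp, exists_eq_left,
    Set.mem_insert_iff, Set.mem_singleton_iff]

theorem mk_rt (x : PP K) : Ideal.Quotient.mk (IM a κ) (rt a κ x) = Ideal.Quotient.mk (IM a κ) x := by
  have h : (Ideal.Quotient.mkₐ K (IM a κ)).comp (rt a κ) = Ideal.Quotient.mkₐ K (IM a κ) := by
    refine MvPolynomial.algHom_ext fun v => ?_
    rw [AlgHom.comp_apply, rt_X]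
    have hg : ∀ y ∈ ({X (0, 0), X (0, 3) + C κ * X (0, 2), X (0, 4) - C a.c * X (0, 2) ^ 2, X (1, 1),
        X (1, 0) + X (1, 4), X (1, 3) + C κ * X (1, 2), X (2, 1), X (2, 0) + X (2, 4),
        X (2, 3) + C κ * X (2, 2)} : Set (PP K)), y ∈ IM a κ := fun y hy => by
      rw [IM_eq]; exact Ideal.subset_span hy
    have key : ∀ y z g : PP K, g ∈ IM a κ → z - y = g →
        Ideal.Quotient.mkₐ K (IM a κ) y = Ideal.Quotient.mkₐ K (IM a κ) z := fun y z g hg' h => by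
      have : z - y ∈ IM a κ := h ▸ hg'
      exact ((Ideal.Quotient.eq).2 this).symm
    obtain ⟨i, j⟩ := v
    fin_cases i <;> fin_cases j
    · exact key 0 (X (0, 0)) (X (0, 0)) (hg _ (by simp)) (sub_zero _)
    · rfl
    · rfl
    · exact key (-(C κ * X (0, 2))) (X (0, 3)) (X (0, 3) + C κ * X (0, 2)) (hg _ (by simp)) (sub_neg_eq_add _ _)
    · exact key (C a.c * X (0, 2) ^ 2) (X (0, 4)) (X (0, 4) - C a.c * X (0, 2) ^ 2) (hg _ (by simp)) rfl
    · rfl
    · exact key 0 (X (1, 1)) (X (1, 1)) (hg _ (by simp)) (sub_zero _)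
    · rfl
    · exact key (-(C κ * X (1, 2))) (X (1, 3)) (X (1, 3) + C κ * X (1, 2)) (hg _ (by simp)) (sub_neg_eq_add _ _)
    · exact key (-X (1, 0)) (X (1, 4)) (X (1, 0) + X (1, 4)) (hg _ (by simp)) (by ring)
    · rfl
    · exact key 0 (X (2, 1)) (X (2, 1)) (hg _ (by simp)) (sub_zero _)
    · rfl
    · exact key (-(C κ * X (2, 2))) (X (2, 3)) (X (2, 3) + C κ * X (2, 2)) (hg _ (by simp)) (sub_neg_eq_add _ _)
    · exact key (-X (2, 0)) (X (2, 4)) (X (2, 0) + X (2, 4)) (hg _ (by simp)) (by ring)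
  exact DFunLike.congr_fun h x

theorem mem_of_hB [CharZero K] (x : PP K) (hx : hB a x ∈ J4 K ⊔ Ideal.span {X 4 + C κ * X 3}) : x ∈ IM a κ := by
  have h1 := el_J κ _ hx
  rw [el_hB, map_eq_zero_iff _ io_inj] at h1
  have h2 := mk_rt a κ x
  rw [h1, map_zero] at h2
  exact Ideal.Quotient.eq_zero_iff_mem.1 h2.symm

theorem hB_IM [CharZero K] (x : PP K) (hx : x ∈ IM a κ) : hB a x ∈ J4 K ⊔ Ideal.span {X 4 + C κ * X 3} := by
  have m2 : (X 2 : BB K) ∈ J4 K ⊔ Ideal.span {X 4 + C κ * X 3} :=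
    Ideal.mem_sup_left (Ideal.subset_span (by simp))
  have m8 : (X 8 : BB K) ∈ J4 K ⊔ Ideal.span {X 4 + C κ * X 3} :=
    Ideal.mem_sup_left (Ideal.subset_span (by simp))
  have m5 : (X 1 + X 5 : BB K) ∈ J4 K ⊔ Ideal.span {X 4 + C κ * X 3} :=
    Ideal.mem_sup_left (Ideal.subset_span (by simp))
  have m4 : (X 4 + C κ * X 3 : BB K) ∈ J4 K ⊔ Ideal.span {X 4 + C κ * X 3} :=
    Ideal.mem_sup_right (Ideal.subset_span rfl)
  have hC : ∀ y : K, hB a (C y) = C y := fun y => by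
    rw [← MvPolynomial.algebraMap_eq, ← MvPolynomial.algebraMap_eq]; exact (hB a).commutes y
  have h : IM a κ ≤ Ideal.comap (hB a).toRingHom (J4 K ⊔ Ideal.span {X 4 + C κ * X 3}) := by
    rw [IM_eq, Ideal.span_le]
    rintro y (rfl | rfl | rfl | rfl | rfl | rfl | rfl | rfl | rfl)
    · show hB a (X (0, 0)) ∈ J4 K ⊔ Ideal.span {X 4 + C κ * X 3}
      rw [show hB a (X (0, 0)) = X 6 * X 2 from hB_X a (0, 0)]
      exact Ideal.mul_mem_left _ _ m2
    · show hB a (X (0, 3) + C κ * X (0, 2)) ∈ J4 K ⊔ Ideal.span {X 4 + C κ * X 3}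
      rw [map_add, map_mul, hC, show hB a (X (0, 3)) = X 6 * X 4 from hB_X a (0, 3),
        show hB a (X (0, 2)) = X 6 * X 3 from hB_X a (0, 2),
        show (X 6 * X 4 + C κ * (X 6 * X 3) : BB K) = X 6 * (X 4 + C κ * X 3) by ring]
      exact Ideal.mul_mem_left _ _ m4
    · show hB a (X (0, 4) - C a.c * X (0, 2) ^ 2) ∈ J4 K ⊔ Ideal.span {X 4 + C κ * X 3}
      rw [map_sub, map_mul, map_pow, hC, show hB a (X (0, 4)) = X 6 ^ 2 * uf a (X 1) (X 3) (X 5) from hB_X a (0, 4),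
        show hB a (X (0, 2)) = X 6 * X 3 from hB_X a (0, 2)]
      unfold uf
      rw [MvPolynomial.algebraMap_eq, show (X 6 ^ 2 * (X 1 ^ 2 - X 5 ^ 2 + C a.c * X 3 ^ 2) - C a.c * (X 6 * X 3) ^ 2 : BB K) =
        X 6 ^ 2 * (X 1 - X 5) * (X 1 + X 5) by ring]
      exact Ideal.mul_mem_left _ _ m5
    · show hB a (X (1, 1)) ∈ J4 K ⊔ Ideal.span {X 4 + C κ * X 3}
      rw [show hB a (X (1, 1)) = X 2 from hB_X a (1, 1)]
      exact m2
    · show hB a (X (1, 0) + X (1, 4)) ∈ J4 K ⊔ Ideal.span {X 4 + C κ * X 3}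
      rw [map_add, show hB a (X (1, 0)) = X 1 from hB_X a (1, 0), show hB a (X (1, 4)) = X 5 from hB_X a (1, 4)]
      exact m5
    · show hB a (X (1, 3) + C κ * X (1, 2)) ∈ J4 K ⊔ Ideal.span {X 4 + C κ * X 3}
      rw [map_add, map_mul, hC, show hB a (X (1, 3)) = X 4 from hB_X a (1, 3), show hB a (X (1, 2)) = X 3 from hB_X a (1, 2)]
      exact m4
    · show hB a (X (2, 1)) ∈ J4 K ⊔ Ideal.span {X 4 + C κ * X 3}
      rw [show hB a (X (2, 1)) = X 7 * X 2 from hB_X a (2, 1)]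
      exact Ideal.mul_mem_left _ _ m2
    · show hB a (X (2, 0) + X (2, 4)) ∈ J4 K ⊔ Ideal.span {X 4 + C κ * X 3}
      have h12 : (C (1 / 2) * 2 : BB K) = 1 := by
        rw [show (2 : BB K) = C 2 from (map_ofNat C 2).symm, ← C_mul, one_div, inv_mul_cancel₀ two_ne_zero, C_1]
      rw [map_add, show hB a (X (2, 0)) = X 7 * X 1 + C (1 / 2) * (X 8 + X 9) from hB_X a (2, 0),
        show hB a (X (2, 4)) = X 7 * X 5 + C (1 / 2) * (X 8 - X 9) from hB_X a (2, 4),
        show (X 7 * X 1 + C (1 / 2) * (X 8 + X 9) + (X 7 * X 5 + C (1 / 2) * (X 8 - X 9)) : BB K) =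
          X 7 * (X 1 + X 5) + (C (1 / 2) * 2) * X 8 by ring, h12, one_mul]
      exact Ideal.add_mem _ (Ideal.mul_mem_left _ _ m5) m8
    · show hB a (X (2, 3) + C κ * X (2, 2)) ∈ J4 K ⊔ Ideal.span {X 4 + C κ * X 3}
      rw [map_add, map_mul, hC, show hB a (X (2, 3)) = X 7 * X 4 from hB_X a (2, 3),
        show hB a (X (2, 2)) = X 7 * X 3 from hB_X a (2, 2),
        show (X 7 * X 4 + C κ * (X 7 * X 3) : BB K) = X 7 * (X 4 + C κ * X 3) by ring]
      exact Ideal.mul_mem_left _ _ m4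
  exact h hx

end

/-- `Res id M` is `M` -/
def rid {P : Type} [CommRing P] (M : Type) [AddCommGroup M] [Module P M] : M ≃ₗ[P] Res (RingHom.id P) M where
  toFun m := Res.mk _ m
  map_add' _ _ := rfl
  map_smul' _ _ := rfl
  invFun m := Res.val m
  left_inv _ := rfl
  right_inv _ := rfl

theorem iso {P : Type} [CommRing P] {W θ : P} {V : Type} [AddCommGroup V] (Φ : AX P W θ V) {M N : Type} [AddCommGroup M]
    [Module P M] [AddCommGroup N] [Module P N] (e : M ≃ₗ[P] N) (hN : LFn θ N) (hk : KW W N) : Φ.f N = Φ.f M := by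
  have h0 : Φ.f PUnit = 0 := Φ.tors PUnit (fun _ => rfl) (fun _ => ⟨0, rfl⟩)
  have h := Φ.add M N PUnit e.toLinearMap 0 hN hk e.injective (fun a => ⟨0, rfl⟩)
    (fun a => ⟨fun _ => ⟨e.symm a, by simp⟩, fun _ => rfl⟩)
  rw [h, h0, add_zero]

theorem lfn {P : Type} [CommRing P] (θ : P) (M : Type) [AddCommGroup M] [Module P M] (h : Module.Finite P M) : LFn θ M :=
  ⟨⊤, h.fg_top, fun _ => ⟨0, trivial⟩⟩

end CmpM_aux

open CmpM_aux in
theorem tCmpM : S_Bqc → S_LfE → S_GoodM → S_CmpM := by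
  intro hBqc hLf hGood K _ _ a V _ Φ κ hκ
  obtain ⟨h1, h2, h3⟩ := hLf K a
  obtain ⟨_, _, h4⟩ := hGood K a κ hκ
  have hfin : Module.Finite (PP K) (PP K ⧸ IM a κ) := inferInstance
  have hfin' : Module.Finite (PP K) (Res (RingHom.id (PP K)) (PP K ⧸ IM a κ)) := Module.Finite.equiv (rid _)
  have e1 : Φ.f (Res (RingHom.id (PP K)) (PP K ⧸ IM a κ)) =
      Φ.f (Res (hB a).toRingHom (BB K ⧸ (J4 K ⊔ Ideal.span {X 4 + C κ * X 3}))) :=
    hBqc (PP K) (PP K) (BB K) (RingHom.id (PP K)) (hB a).toRingHom (WW a) (thP K) V Φ (hB a).toRingHom (IM a κ)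
      (J4 K ⊔ Ideal.span {X 4 + C κ * X 3}) inferInstance
      (fun x => by rw [RingHom.id_apply, sub_self]; exact Ideal.zero_mem _)
      (lfn _ _ hfin') (h3 _) h4 (fun x hx => hB_IM a κ x hx)
      (fun x hx => ⟨0, by rw [pow_zero, one_mul]; exact mem_of_hB a κ x hx⟩)
      (fun y => by
        obtain ⟨k, b, hb⟩ := h2 y
        refine ⟨k, b, ?_⟩
        have hb' : (hB a).toRingHom (thP K) ^ k * y = (hB a).toRingHom b := hb
        rw [hb', sub_self]
        exact Ideal.zero_mem _)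
  have e2 : Φ.f (Res (RingHom.id (PP K)) (PP K ⧸ IM a κ)) = Φ.f (PP K ⧸ IM a κ) :=
    iso Φ (rid _) (lfn _ _ hfin') ((KW.quot (IM a κ) h4).of_surj (rid _).toLinearMap (rid _).surjective)
  rw [← e2, e1]

end Pool.Agent.QV
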