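import Pool.Agent.Lib.MP_b53bfe_ag.Q.SpecE

/-!
# Comparison with the small diagonal (module CmpS)

`S_Bqc` is applied to the substitution `gB : y ↦ μ x, x ↦ x, x' ↦ ν x`.
-/

set_option autoImplicit false

noncomputable section

namespace Pool.Agent.QV

open Matrix
open MvPolynomial
open Pool.Agent.FY (Res)

namespace CmpS_aux

section forms

variable {K : Type} [Field K] (a : Par K) {B C : Type} [CommRing B] [Algebra K B] [CommRing C] [Algebra K C]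

theorem map_Rj (φ : B →ₐ[K] C) (j : Fin 5) (p x y q : B) : φ (Rj j p x y q) = Rj j (φ p) (φ x) (φ y) (φ q) := by
  fin_cases j <;> simp [Rj]

theorem map_Rf (φ : B →ₐ[K] C) (p x y q : B) : φ (Rf a p x y q) = Rf a (φ p) (φ x) (φ y) (φ q) := by
  simp only [Rf, map_add, map_mul, map_pow, map_sum, map_Rj, AlgHom.commutes]

theorem map_uf (φ : B →ₐ[K] C) (p y q : B) : φ (uf a p y q) = uf a (φ p) (φ y) (φ q) := by
  simp only [uf, map_add, map_sub, map_mul, map_pow, AlgHom.commutes]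

theorem map_ff (φ : B →ₐ[K] C) (p x y z q : B) : φ (ff a p x y z q) = ff a (φ p) (φ x) (φ y) (φ z) (φ q) := by
  simp only [ff, map_add, map_sub, map_mul, map_pow, map_Rf, map_uf, map_ofNat]

theorem hom_Rj (c : B) (j : Fin 5) (p x y q : B) : Rj j (c * p) (c * x) (c * y) (c * q) = c ^ 4 * Rj j p x y q := by
  fin_cases j <;> simp [Rj] <;> ring

theorem hom_Rf (c p x y q : B) : Rf a (c * p) (c * x) (c * y) (c * q) = c ^ 4 * Rf a p x y q := by
  simp only [Rf, hom_Rj, mul_add, Finset.mul_sum]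
  congr 1
  · ring
  · exact Finset.sum_congr rfl fun j _ => by ring

theorem hom_uf (c p y q : B) : uf a (c * p) (c * y) (c * q) = c ^ 2 * uf a p y q := by
  simp only [uf]
  ring

theorem hom_ff (c p x y z q : B) : ff a (c * p) (c * x) (c * y) (c * z) (c * q) = c ^ 5 * ff a p x y z q := by
  simp only [ff, hom_Rf, hom_uf]
  ring

end forms

section

variable {K : Type} [Field K] (a : Par K)

/-- the factors of the rows -/
def cc (K : Type) [Field K] : Fin 3 → BB K := ![X 6, 1, X 7]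

/-- the row `x` -/
def xx (K : Type) [Field K] : Fin 5 → BB K := ![X 1, X 2, X 3, X 4, X 5]

theorem gB_X (i : Fin 3) (j : Fin 5) : gB K (X (i, j)) = cc K i * xx K j := by
  rw [gB, aeval_X]
  fin_cases i <;> fin_cases j <;> simp [cc, xx]

theorem gB_fS (i : Fin 3) : gB K (fS a i) = cc K i ^ 5 * fB a := by
  rw [fS, map_ff, gB_X, gB_X, gB_X, gB_X, gB_X, hom_ff]
  rfl

theorem gB_mnr (i k : Fin 3) (j j' : Fin 5) : gB K (mnr K i k j j') = 0 := by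
  rw [mnr, map_sub, map_mul, map_mul, gB_X, gB_X, gB_X, gB_X]
  ring

theorem gB_R : gB K (Rf a (X (0, 0)) (X (0, 1)) (X (0, 2)) (X (0, 4))) = X 6 ^ 4 * RB a := by
  rw [map_Rf, gB_X, gB_X, gB_X, gB_X, hom_Rf]
  rfl

theorem gB_u : gB K (uf a (X (0, 0)) (X (0, 2)) (X (0, 4))) = X 6 ^ 2 * uf a (X 1) (X 3) (X 5) := by
  rw [map_uf, gB_X, gB_X, gB_X, hom_uf]
  rfl

theorem gB_th : gB K (thP K) = X 6 * X 7 * X 4 ^ 3 := by
  rw [thP, map_mul, map_mul, gB_X, gB_X, gB_X]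
  show X 6 * X 4 * (1 * X 4) * (X 7 * X 4) = X 6 * X 7 * X 4 ^ 3
  ring

/-- the ideal `J1 + (zB)` -/
def JJ : Ideal (BB K) := J1 a ⊔ Ideal.span {zB a}

theorem z_mem : zB a ∈ JJ a := Ideal.mem_sup_right (Ideal.subset_span rfl)

theorem x8_mem : (X 8 : BB K) ∈ JJ a := Ideal.mem_sup_left (Ideal.subset_span (Or.inl rfl))

theorem x9_mem : (X 9 : BB K) ∈ JJ a := Ideal.mem_sup_left (Ideal.subset_span (Or.inr (Or.inl rfl)))

theorem f_mem : fB a ∈ JJ a := Ideal.mem_sup_left (Ideal.subset_span (Or.inr (Or.inr rfl)))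

theorem rho_X1 (j : Fin 5) : rho a (X (1, j)) = X (1, j) := by
  rw [rho, aeval_X, if_neg (by simp)]

theorem rho_X2 (j : Fin 5) : rho a (X (2, j)) = X (2, j) := by
  rw [rho, aeval_X, if_neg (by simp)]

theorem rho_X0 (j : Fin 5) : rho a (X (0, j)) =
    (![X (0, 1), Rf a (X (0, 0)) (X (0, 1)) (X (0, 2)) (X (0, 4)), X (0, 2), X (0, 3),
      uf a (X (0, 0)) (X (0, 2)) (X (0, 4))] j : PP K) := by
  rw [rho, aeval_X, if_pos rfl]

theorem rho_th : rho a (thP K) = thP K := by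
  rw [thP, map_mul, map_mul, rho_X0, rho_X1, rho_X2]
  rfl

/-- the condition (ii) on the variables -/
theorem hgX (v : Fin 3 × Fin 5) : gB K (rho a (X v)) - hB a (X v) ∈ JJ a := by
  obtain ⟨i, j⟩ := v
  have hb : hB a (X (i, j)) = (![![X 6 * X 2, X 0, X 6 * X 3, X 6 * X 4, X 6 ^ 2 * uf a (X 1) (X 3) (X 5)],
    ![X 1, X 2, X 3, X 4, X 5],
    ![X 7 * X 1 + C (1 / 2) * (X 8 + X 9), X 7 * X 2, X 7 * X 3, X 7 * X 4, X 7 * X 5 + C (1 / 2) * (X 8 - X 9)]] i j : BB K) := by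
    rw [hB, aeval_X]
  have h0 : ∀ x y : BB K, x = y → x - y ∈ JJ a := fun x y h => by
    rw [h, sub_self]
    exact (JJ a).zero_mem
  rw [hb]
  fin_cases i
  · show gB K (rho a (X (0, j))) - (![X 6 * X 2, X 0, X 6 * X 3, X 6 * X 4, X 6 ^ 2 * uf a (X 1) (X 3) (X 5)] j : BB K) ∈ JJ a
    rw [rho_X0]
    fin_cases j
    · exact h0 _ _ (gB_X 0 1)
    · show gB K (Rf a (X (0, 0)) (X (0, 1)) (X (0, 2)) (X (0, 4))) - X 0 ∈ JJ a
      rw [gB_R, ← neg_sub]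
      exact (JJ a).neg_mem (z_mem a)
    · exact h0 _ _ (gB_X 0 2)
    · exact h0 _ _ (gB_X 0 3)
    · exact h0 _ _ (gB_u a)
  · show gB K (rho a (X (1, j))) - (![X 1, X 2, X 3, X 4, X 5] j : BB K) ∈ JJ a
    rw [rho_X1, gB_X]
    exact h0 _ _ (one_mul _)
  · show gB K (rho a (X (2, j))) - (![X 7 * X 1 + C (1 / 2) * (X 8 + X 9), X 7 * X 2, X 7 * X 3, X 7 * X 4,
      X 7 * X 5 + C (1 / 2) * (X 8 - X 9)] j : BB K) ∈ JJ a
    rw [rho_X2, gB_X]
    fin_cases j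
    · show X 7 * X 1 - (X 7 * X 1 + C (1 / 2) * (X 8 + X 9)) ∈ JJ a
      rw [sub_add_cancel_left]
      exact (JJ a).neg_mem ((JJ a).mul_mem_left _ ((JJ a).add_mem (x8_mem a) (x9_mem a)))
    · exact h0 _ _ rfl
    · exact h0 _ _ rfl
    · exact h0 _ _ rfl
    · show X 7 * X 5 - (X 7 * X 5 + C (1 / 2) * (X 8 - X 9)) ∈ JJ a
      rw [sub_add_cancel_left]
      exact (JJ a).neg_mem ((JJ a).mul_mem_left _ ((JJ a).sub_mem (x8_mem a) (x9_mem a)))

/-- the condition (ii) -/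
theorem hg (x : PP K) : gB K (rho a x) - hB a x ∈ JJ a := by
  have h1 : ((Ideal.Quotient.mkₐ K (JJ a)).comp ((gB K).comp (rho a))) = (Ideal.Quotient.mkₐ K (JJ a)).comp (hB a) := by
    refine MvPolynomial.algHom_ext fun v => ?_
    exact Ideal.Quotient.eq.2 (hgX a v)
  exact Ideal.Quotient.eq.1 (DFunLike.congr_fun h1 x)

/-- the condition (v) -/
theorem gB_smI (x : PP K) (hx : x ∈ smI a) : gB K x ∈ JJ a := by
  have h1 : smI a ≤ (JJ a).comap (gB K) := by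
    refine Ideal.span_le.2 ?_
    rintro r (⟨i, k, j, j', rfl⟩ | ⟨i, rfl⟩)
    · show gB K (mnr K i k j j') ∈ JJ a
      rw [gB_mnr]
      exact (JJ a).zero_mem
    · show gB K (fS a i) ∈ JJ a
      rw [gB_fS]
      exact (JJ a).mul_mem_left _ (f_mem a)
  exact h1 hx

/-- the kernel: the general statement -/
theorem ker_gen {A : Type} [CommRing A] [Algebra K A] (φ : PP K →ₐ[K] A) (hφ : ∀ x ∈ smI a, φ x = 0)
    (hu : IsUnit (φ (thP K))) (x : PP K) (hx : gB K x ∈ JJ a) : φ x = 0 := by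
  have hu1 : IsUnit (φ (X (1, 3))) := by
    rw [thP, map_mul, map_mul] at hu
    exact isUnit_of_mul_isUnit_right (isUnit_of_mul_isUnit_left hu)
  obtain ⟨w, hw⟩ := hu1
  have hw' : ↑w⁻¹ * φ (X (1, 3)) = 1 := by rw [← hw, Units.inv_mul]
  have hm : ∀ (i : Fin 3) (j : Fin 5), φ (X (i, 3)) * ↑w⁻¹ * φ (X (1, j)) = φ (X (i, j)) := by
    intro i j
    have h1 : φ (mnr K i 1 j 3) = 0 := hφ _ (Ideal.subset_span (Or.inl ⟨i, 1, j, 3, rfl⟩))
    rw [mnr, map_sub, map_mul, map_mul] at h1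
    linear_combination (φ (X (i, j))) * hw' - ↑w⁻¹ * h1
  let ℓ : BB K →ₐ[K] A := aeval ![(φ (X (0, 3)) * ↑w⁻¹) ^ 4 * Rf a (φ (X (1, 0))) (φ (X (1, 1))) (φ (X (1, 2))) (φ (X (1, 4))),
    φ (X (1, 0)), φ (X (1, 1)), φ (X (1, 2)), φ (X (1, 3)), φ (X (1, 4)), φ (X (0, 3)) * ↑w⁻¹, φ (X (2, 3)) * ↑w⁻¹, 0, 0]
  have l0 : ℓ (X 0) = (φ (X (0, 3)) * ↑w⁻¹) ^ 4 * Rf a (φ (X (1, 0))) (φ (X (1, 1))) (φ (X (1, 2))) (φ (X (1, 4))) := aeval_X _ _
  have l1 : ℓ (X 1) = φ (X (1, 0)) := aeval_X _ _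
  have l2 : ℓ (X 2) = φ (X (1, 1)) := aeval_X _ _
  have l3 : ℓ (X 3) = φ (X (1, 2)) := aeval_X _ _
  have l4 : ℓ (X 4) = φ (X (1, 3)) := aeval_X _ _
  have l5 : ℓ (X 5) = φ (X (1, 4)) := aeval_X _ _
  have l6 : ℓ (X 6) = φ (X (0, 3)) * ↑w⁻¹ := aeval_X _ _
  have l7 : ℓ (X 7) = φ (X (2, 3)) * ↑w⁻¹ := aeval_X _ _
  have l8 : ℓ (X 8) = 0 := aeval_X _ _
  have l9 : ℓ (X 9) = 0 := aeval_X _ _
  have lx : ∀ j : Fin 5, ℓ (xx K j) = φ (X (1, j)) := by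
    intro j
    fin_cases j
    exacts [l1, l2, l3, l4, l5]
  have lc : ∀ i : Fin 3, ℓ (cc K i) = φ (X (i, 3)) * ↑w⁻¹ := by
    intro i
    fin_cases i
    · exact l6
    · show ℓ 1 = φ (X (1, 3)) * ↑w⁻¹
      rw [map_one, mul_comm, hw']
    · exact l7
  have hl : ℓ.comp (gB K) = φ := by
    refine MvPolynomial.algHom_ext fun v => ?_
    obtain ⟨i, j⟩ := v
    show ℓ (gB K (X (i, j))) = φ (X (i, j))
    rw [gB_X, map_mul, lx, lc, hm]
  have hk : JJ a ≤ RingHom.ker ℓ := by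
    refine sup_le (Ideal.span_le.2 ?_) (Ideal.span_le.2 ?_)
    · rintro r (rfl | rfl | rfl)
      · exact l8
      · exact l9
      · show ℓ (fB a) = 0
        rw [fB, map_ff, l1, l2, l3, l4, l5, ← map_ff]
        exact hφ _ (Ideal.subset_span (Or.inr ⟨1, rfl⟩))
    · rintro r rfl
      show ℓ (zB a) = 0
      rw [zB, RB, map_sub, map_mul, map_pow, map_Rf, l0, l1, l2, l3, l5, l6, sub_self]
  have h2 : ℓ (gB K x) = 0 := hk hx
  rw [← hl]
  exact h2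

/-- the condition (vi) -/
theorem ker_th (x : PP K) (hx : gB K x ∈ JJ a) : ∃ k : ℕ, thP K ^ k * x ∈ smI a := by
  let S := PP K ⧸ smI a
  let t : S := Ideal.Quotient.mkₐ K (smI a) (thP K)
  let φ : PP K →ₐ[K] Localization.Away t := (IsScalarTower.toAlgHom K S (Localization.Away t)).comp (Ideal.Quotient.mkₐ K (smI a))
  have h1 : φ x = 0 := by
    refine ker_gen a φ (fun y hy => ?_) ?_ x hx
    · show algebraMap S (Localization.Away t) (Ideal.Quotient.mk (smI a) y) = 0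
      rw [Ideal.Quotient.eq_zero_iff_mem.2 hy, map_zero]
    · exact IsLocalization.Away.algebraMap_isUnit t
  have h2 : algebraMap S (Localization.Away t) (Ideal.Quotient.mk (smI a) x) = 0 := h1
  obtain ⟨⟨m, k, hk⟩, hm⟩ := (IsLocalization.map_eq_zero_iff (Submonoid.powers t) (Localization.Away t) _).1 h2
  refine ⟨k, Ideal.Quotient.eq_zero_iff_mem.1 ?_⟩
  rw [map_mul, map_pow]
  have h3 : m * Ideal.Quotient.mk (smI a) x = 0 := hm
  rw [← hk] at h3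
  exact h3

/-- the condition of `S_LfB` for the variables -/
theorem varX (i : Fin 10) : ∃ (k : ℕ) (b : PP K), gB K (thP K) ^ k * X i - gB K b ∈ JJ a := by
  have h0 : ∀ (b : PP K) (y : BB K), y - gB K b ∈ JJ a → ∃ (k : ℕ) (b : PP K), gB K (thP K) ^ k * y - gB K b ∈ JJ a :=
    fun b y h => ⟨0, b, by rwa [pow_zero, one_mul]⟩
  have h1 : ∀ (b : PP K) (y : BB K), gB K (thP K) * y = gB K b → ∃ (k : ℕ) (b : PP K), gB K (thP K) ^ k * y - gB K b ∈ JJ a :=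
    fun b y h => ⟨1, b, by rw [pow_one, h, sub_self]; exact (JJ a).zero_mem⟩
  have h2 : ∀ j : Fin 5, xx K j - gB K (X (1, j)) ∈ JJ a := fun j => by
    rw [gB_X]
    show xx K j - 1 * xx K j ∈ JJ a
    rw [one_mul, sub_self]
    exact (JJ a).zero_mem
  fin_cases i
  · refine h0 (Rf a (X (0, 0)) (X (0, 1)) (X (0, 2)) (X (0, 4))) (X 0) ?_
    rw [gB_R]
    exact z_mem a
  · exact h0 _ _ (h2 0)
  · exact h0 _ _ (h2 1)
  · exact h0 _ _ (h2 2)
  · exact h0 _ _ (h2 3)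
  · exact h0 _ _ (h2 4)
  · refine h1 (X (0, 3) ^ 2 * X (2, 3)) (X 6) ?_
    rw [gB_th, map_mul, map_pow, gB_X, gB_X]
    show X 6 * X 7 * X 4 ^ 3 * X 6 = (X 6 * X 4) ^ 2 * (X 7 * X 4)
    ring
  · refine h1 (X (0, 3) * X (2, 3) ^ 2) (X 7) ?_
    rw [gB_th, map_mul, map_pow, gB_X, gB_X]
    show X 6 * X 7 * X 4 ^ 3 * X 7 = (X 6 * X 4) * (X 7 * X 4) ^ 2
    ring
  · refine h0 0 (X 8) ?_
    rw [map_zero, sub_zero]
    exact x8_mem a
  · refine h0 0 (X 9) ?_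
    rw [map_zero, sub_zero]
    exact x9_mem a

theorem lfn_fin {P : Type} [CommRing P] (θ : P) (M : Type) [AddCommGroup M] [Module P M] (h : Module.Finite P M) : LFn θ M :=
  ⟨⊤, h.fg_top, fun _ => ⟨0, trivial⟩⟩

end

end CmpS_aux

open CmpS_aux

theorem tCmpS : S_Bqc → S_LfE → S_LfB → S_Fin → S_CmpS := by
  intro hBqc hLfE hLfB hFin K _ _ a V _ Φ hA
  obtain ⟨hth, -, hlf⟩ := hLfE K a
  obtain ⟨-, hW, hfin⟩ := hFin K a hA
  obtain ⟨hall, -, -⟩ := hLfB K (Fin 3 × Fin 5) (Fin 10) (gB K) (thP K) (JJ a) (varX a)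
  refine hBqc (PP K) (PP K) (BB K) (rho a).toRingHom (hB a).toRingHom (WW a) (thP K) V Φ (gB K).toRingHom (smI a)
    (J1 a ⊔ Ideal.span {zB a}) inferInstance (hg a) (lfn_fin _ _ (hfin _ inferInstance)) (hlf _) ?_ (gB_smI a) ?_ ?_
  · show rho a (WW a) ∈ smI a
    rw [hW]
    have h1 : ∀ i, fS a i ∈ smI a := fun i => Ideal.subset_span (Or.inr ⟨i, rfl⟩)
    exact (smI a).add_mem ((smI a).add_mem (h1 0) (h1 1)) (h1 2)
  · intro x hx
    obtain ⟨k, hk⟩ := ker_th a x hx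
    refine ⟨k, ?_⟩
    show rho a (thP K) ^ k * x ∈ smI a
    rw [rho_th]
    exact hk
  · intro y
    obtain ⟨k, b, hb⟩ := hall y
    refine ⟨k, b, ?_⟩
    show hB a (thP K) ^ k * y - gB K b ∈ JJ a
    rw [hth, ← gB_th]
    exact hb

end Pool.Agent.QV
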