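import Pool.Agent.Lib.MP_b53bfe_ag.Q.SpecA

/-!
# Disproof of Q1 of MP_b53bfe_ag, module Comm: signs (helper61)
-/

set_option autoImplicit false

noncomputable section

namespace Pool.Agent.QV

open Matrix

namespace Comm_aux

variable {L E : Type} [CommRing L] [Ring E] [Algebra L E] (C : Cal L E)

theorem d_mem (a : L) : C.d a ∈ C.Om := Submodule.subset_span ⟨a, rfl⟩

theorem anti {x y : E} (hx : x ∈ C.Om) (hy : y ∈ C.Om) : x * y = -(y * x) := by
  refine Submodule.span_induction (p := fun x _ => x * y = -(y * x)) ?_ ?_ ?_ ?_ hx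
  · rintro _ ⟨a, rfl⟩
    refine Submodule.span_induction (p := fun y _ => C.d a * y = -(y * C.d a)) ?_ ?_ ?_ ?_ hy
    · rintro _ ⟨b, rfl⟩
      exact C.anti a b
    · rw [mul_zero, zero_mul, neg_zero]
    · intro u v _ _ hu hv
      rw [mul_add, add_mul, hu, hv, neg_add]
    · intro l u _ hu
      rw [mul_smul_comm, smul_mul_assoc, hu, smul_neg]
  · rw [mul_zero, zero_mul, neg_zero]
  · intro u v _ _ hu hv
    rw [mul_add, add_mul, hu, hv, neg_add]
  · intro l u _ hu
    rw [mul_smul_comm, smul_mul_assoc, hu, smul_neg]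

theorem sq {x : E} (hx : x ∈ C.Om) : x * x = 0 := by
  refine Submodule.span_induction (p := fun x _ => x * x = 0) ?_ ?_ ?_ ?_ hx
  · rintro _ ⟨a, rfl⟩
    exact C.sq a
  · rw [mul_zero]
  · intro u v hu' hv' hu hv
    have h1 := anti C hu' hv'
    rw [mul_add, add_mul, add_mul, hu, hv, h1]
    abel
  · intro l u _ hu
    rw [mul_smul_comm, smul_mul_assoc, hu, smul_zero, smul_zero]

theorem sgn_comm (n : ℕ) (z : E) : (-1 : E) ^ n * z = z * (-1 : E) ^ n :=
  ((Commute.neg_one_left z).pow_left n).eq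

theorem one_step {x : E} (hx : x ∈ C.Om) : ∀ (j : ℕ) (y : E), y ∈ C.Om ^ j →
    x * y = (-1) ^ j * (y * x) := by
  intro j
  induction j with
  | zero =>
    intro y hy
    rw [pow_zero, Submodule.mem_one] at hy
    obtain ⟨l, rfl⟩ := hy
    rw [pow_zero, one_mul, Algebra.commutes]
  | succ j ih =>
    intro y hy
    rw [pow_succ] at hy
    refine Submodule.mul_induction_on hy ?_ ?_
    · intro a ha b hb
      rw [← mul_assoc, ih a ha, mul_assoc, mul_assoc, anti C hx hb, mul_neg, mul_neg, pow_succ,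
        mul_neg_one, neg_mul, mul_assoc]
    · intro a b ha hb
      rw [mul_add, ha, hb, add_mul, mul_add]

theorem gen (i j : ℕ) (x y : E) (hx : x ∈ C.Om ^ i) (hy : y ∈ C.Om ^ j) :
    x * y = (-1) ^ (i * j) * (y * x) := by
  induction i generalizing x with
  | zero =>
    rw [pow_zero, Submodule.mem_one] at hx
    obtain ⟨l, rfl⟩ := hx
    rw [zero_mul, pow_zero, one_mul, Algebra.commutes]
  | succ i ih =>
    rw [pow_succ] at hx
    refine Submodule.mul_induction_on hx ?_ ?_
    · intro a ha b hb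
      rw [mul_assoc, one_step C hb j y hy, ← mul_assoc a, ← sgn_comm j a, mul_assoc, ← mul_assoc a,
        ih a ha, mul_assoc, ← mul_assoc y, ← mul_assoc ((-1) ^ j) ((-1) ^ (i * j)), ← pow_add]
      congr 2
      ring
    · intro a b ha hb
      rw [mul_add, ← mul_add, add_mul, ha, hb, mul_add, mul_add]

theorem ent_mul (i j : ℕ) {l m n : Type} [Fintype m] (X : Matrix l m E) (Y : Matrix m n E)
    (hX : C.Ent i X) (hY : C.Ent j Y) : C.Ent (i + j) (X * Y) := by
  intro a b
  rw [Matrix.mul_apply, pow_add]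
  exact Submodule.sum_mem _ fun c _ => Submodule.mul_mem_mul (hX a c) (hY c b)

theorem ent_pow (i k : ℕ) {n : Type} [Fintype n] [DecidableEq n] (X : Matrix n n E)
    (hX : C.Ent i X) : C.Ent (i * k) (X ^ k) := by
  induction k with
  | zero =>
    intro a b
    rw [mul_zero, pow_zero, pow_zero, Matrix.one_apply]
    split
    · exact Submodule.mem_one.2 ⟨1, map_one _⟩
    · exact Submodule.zero_mem _
  | succ k ih =>
    rw [pow_succ, mul_add, mul_one]
    exact ent_mul C (i * k) i (X ^ k) X ih hX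

end Comm_aux

open Comm_aux in
/-- **Comm**. Signs. -/
theorem tComm : S_Comm := by
  intro L E _ _ _ C
  refine ⟨gen C, fun x hx => sq C hx, fun i j l m n _ X Y hX hY => ent_mul C i j X Y hX hY,
    fun i k n _ _ X hX => ent_pow C i k X hX, fun m n A => ⟨?_, ?_⟩, ?_⟩
  · intro a b
    rw [pow_one]
    exact d_mem C _
  · intro a b
    rw [pow_zero]
    exact Submodule.mem_one.2 ⟨A a b, rfl⟩
  · intro i j m n _ _ X Y hX hY
    simp only [Matrix.trace, Matrix.diag_apply, Matrix.mul_apply]
    rw [Finset.sum_comm, Finset.mul_sum]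
    refine Finset.sum_congr rfl fun b _ => ?_
    rw [Finset.mul_sum]
    exact Finset.sum_congr rfl fun a _ => gen C i j _ _ (hX a b) (hY b a)

end Pool.Agent.QV
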