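import Pool.Agent.Lib.MP_b53bfe_ag.Q.SpecA

/-!
# Chern character of the product of a matrix factorization with `(a, b)`
-/

set_option autoImplicit false

noncomputable section

namespace Pool.Agent.QV

open Matrix

namespace D1_aux


/-- relations -/
structure Rel {R : Type*} [Ring R] (x y p q : R) : Prop where
  xx : x * x = 0
  yy : y * y = 0
  yx : y * x = -(x * y)
  px : p * x = -(x * p)
  py : p * y = -(y * p)
  qx : q * x = -(x * q)
  qy : q * y = -(y * q)

variable {R : Type*} [Ring R] {x y p q : R}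

theorem Rel.symm (h : Rel x y p q) : Rel y x q p :=
  ⟨h.yy, h.xx, by rw [h.yx, neg_neg], h.qy, h.qx, h.py, h.px⟩

theorem Rel.mx (h : Rel x y p q) : Commute (p * q) x := by
  show p * q * x = x * (p * q)
  rw [mul_assoc, h.qx, mul_neg, ← mul_assoc, h.px, neg_mul, neg_neg, mul_assoc]

theorem Rel.my (h : Rel x y p q) : Commute (p * q) y := by
  show p * q * y = y * (p * q)
  rw [mul_assoc, h.qy, mul_neg, ← mul_assoc, h.py, neg_mul, neg_neg, mul_assoc]

theorem sh (p q : R) (r : ℕ) : (q * p) ^ r * q = q * (p * q) ^ r := by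
  induction r with
  | zero => simp
  | succ r ih =>
    rw [pow_succ, pow_succ, mul_assoc, mul_assoc q p q, ← mul_assoc ((q * p) ^ r) q, ih, mul_assoc]

theorem Rel.b11 (h : Rel x y p q) (c r : ℕ) :
    (p * q + x * y) * ((p * q) ^ (r + 1) + c • (x * y * (p * q) ^ r)) +
      (2 • (x * p)) * (-((2 * (r + 1)) • (y * ((q * p) ^ r * q)))) =
    (p * q) ^ (r + 2) + (c + 1 + 4 * (r + 1)) • (x * y * (p * q) ^ (r + 1)) := by
  have h1 : p * q * (x * y * (p * q) ^ r) = x * y * (p * q) ^ (r + 1) := by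
    rw [← mul_assoc, ← mul_assoc, h.mx.eq, mul_assoc x, h.my.eq, ← mul_assoc, mul_assoc, ← pow_succ']
  have h2 : x * y * (x * y * (p * q) ^ r) = 0 := by
    rw [← mul_assoc, ← mul_assoc, mul_assoc x y x, h.yx, mul_neg, ← mul_assoc, h.xx, zero_mul, neg_zero, zero_mul, zero_mul]
  have h3 : x * p * (y * ((q * p) ^ r * q)) = -(x * y * (p * q) ^ (r + 1)) := by
    rw [sh, ← mul_assoc, mul_assoc x p y, h.py, pow_succ']
    noncomm_ring
  have h4 : p * q * (p * q) ^ (r + 1) = (p * q) ^ (r + 2) := (pow_succ' _ _).symm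
  simp only [mul_add, add_mul, smul_mul_assoc, mul_smul_comm, mul_neg, h1, h2, h3, h4]
  have h5 : x * y * (p * q) ^ (r + 1) = x * y * (p * q) ^ (r + 1) := rfl
  module

theorem Rel.b12 (h : Rel x y p q) (c r : ℕ) :
    (p * q + x * y) * ((2 * (r + 1)) • (x * ((p * q) ^ r * p))) +
      (2 • (x * p)) * ((q * p) ^ (r + 1) - c • (x * y * (q * p) ^ r)) =
    (2 * (r + 2)) • (x * ((p * q) ^ (r + 1) * p)) := by
  have h1 : p * q * (x * ((p * q) ^ r * p)) = x * ((p * q) ^ (r + 1) * p) := by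
    rw [← mul_assoc, h.mx.eq, mul_assoc x, ← mul_assoc (p * q), ← pow_succ']
  have h2 : x * y * (x * ((p * q) ^ r * p)) = 0 := by
    rw [← mul_assoc (x * y) x, mul_assoc x y x, h.yx, mul_neg, ← mul_assoc x x y, h.xx, zero_mul, neg_zero, zero_mul]
  have h3 : x * p * (q * p) ^ (r + 1) = x * ((p * q) ^ (r + 1) * p) := by
    rw [mul_assoc, ← sh]
  have h4 : x * p * (x * y * (q * p) ^ r) = 0 := by
    rw [← mul_assoc, ← mul_assoc, mul_assoc x p x, h.px, mul_neg, ← mul_assoc, h.xx, zero_mul, neg_zero, zero_mul, zero_mul]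
  simp only [mul_sub, add_mul, smul_mul_assoc, mul_smul_comm, h1, h2, h3, h4]
  module

theorem Rel.b21 (h : Rel x y p q) (c r : ℕ) :
    (-(2 • (y * q))) * ((p * q) ^ (r + 1) + c • (x * y * (p * q) ^ r)) +
      (q * p - x * y) * (-((2 * (r + 1)) • (y * ((q * p) ^ r * q)))) =
    -((2 * (r + 2)) • (y * ((q * p) ^ (r + 1) * q))) := by
  have h1 : y * q * (p * q) ^ (r + 1) = y * ((q * p) ^ (r + 1) * q) := by
    rw [mul_assoc, ← sh]
  have h2 : y * q * (x * y * (p * q) ^ r) = 0 := by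
    have : y * q * (x * y * (p * q) ^ r) = y * (q * x) * (y * (p * q) ^ r) := by simp only [mul_assoc]
    rw [this, h.qx]
    have : y * -(x * q) * (y * (p * q) ^ r) = -(y * x * (q * y) * (p * q) ^ r) := by noncomm_ring
    rw [this, h.yx, h.qy]
    have : -(-(x * y) * -(y * q) * (p * q) ^ r) = -(x * (y * y) * (q * (p * q) ^ r)) := by noncomm_ring
    rw [this, h.yy]; simp
  have h3 : q * p * (y * ((q * p) ^ r * q)) = y * ((q * p) ^ (r + 1) * q) := by
    rw [← mul_assoc, h.symm.mx.eq, mul_assoc y, ← mul_assoc (q * p), ← pow_succ']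
  have h4 : x * y * (y * ((q * p) ^ r * q)) = 0 := by
    rw [← mul_assoc, mul_assoc x y y, h.yy, mul_zero, zero_mul]
  simp only [mul_add, sub_mul, neg_mul, mul_neg, smul_mul_assoc, mul_smul_comm, h1, h2, h3, h4]
  module

theorem Rel.b22 (h : Rel x y p q) (c r : ℕ) :
    (-(2 • (y * q))) * ((2 * (r + 1)) • (x * ((p * q) ^ r * p))) +
      (q * p - x * y) * ((q * p) ^ (r + 1) - c • (x * y * (q * p) ^ r)) =
    (q * p) ^ (r + 2) - (c + 1 + 4 * (r + 1)) • (x * y * (q * p) ^ (r + 1)) := by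
  have h1 : q * p * (x * y * (q * p) ^ r) = x * y * (q * p) ^ (r + 1) := by
    rw [← mul_assoc, ← mul_assoc, h.symm.my.eq, mul_assoc x, h.symm.mx.eq, ← mul_assoc, mul_assoc, ← pow_succ']
  have h2 : x * y * (x * y * (q * p) ^ r) = 0 := by
    rw [← mul_assoc, ← mul_assoc, mul_assoc x y x, h.yx, mul_neg, ← mul_assoc, h.xx, zero_mul, neg_zero, zero_mul, zero_mul]
  have h3 : y * q * (x * ((p * q) ^ r * p)) = x * y * (q * p) ^ (r + 1) := by
    rw [sh, ← mul_assoc, mul_assoc y q x, h.qx, pow_succ']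
    have : y * -(x * q) * (p * (q * p) ^ r) = -(y * x * (q * p * (q * p) ^ r)) := by noncomm_ring
    rw [this, h.yx]; noncomm_ring
  have h4 : q * p * (q * p) ^ (r + 1) = (q * p) ^ (r + 2) := (pow_succ' _ _).symm
  simp only [mul_sub, sub_mul, neg_mul, smul_mul_assoc, mul_smul_comm, h1, h2, h3, h4]
  module

/-- the block matrix -/
def X {n : Type} [Fintype n] [DecidableEq n] {E : Type} [Ring E] (x y p q : Matrix n n E) : Matrix (n ⊕ n) (n ⊕ n) E :=
  fromBlocks (p * q + x * y) (2 • (x * p)) (-(2 • (y * q))) (q * p - x * y)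

theorem Rel.pow {n : Type} [Fintype n] [DecidableEq n] {E : Type} [Ring E] {x y p q : Matrix n n E} (h : Rel x y p q)
    (r : ℕ) : X x y p q ^ (r + 1) =
    fromBlocks ((p * q) ^ (r + 1) + ((r + 1) * (2 * r + 1)) • (x * y * (p * q) ^ r))
      ((2 * (r + 1)) • (x * ((p * q) ^ r * p))) (-((2 * (r + 1)) • (y * ((q * p) ^ r * q))))
      ((q * p) ^ (r + 1) - ((r + 1) * (2 * r + 1)) • (x * y * (q * p) ^ r)) := by
  induction r with
  | zero => simp [X]
  | succ r ih =>
    rw [pow_succ', ih, X, fromBlocks_multiply, h.b11, h.b12, h.b21, h.b22]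
    have e : (r + 1) * (2 * r + 1) + 1 + 4 * (r + 1) = (r + 1 + 1) * (2 * (r + 1) + 1) := by ring
    rw [e]

section mat

variable {L E : Type} [CommRing L] [Ring E] [Algebra L E] (C : Cal L E)

theorem d_zero : C.d 0 = 0 := by
  have h := C.add 0 0
  rw [add_zero] at h
  simpa using h

theorem d_neg (a : L) : C.d (-a) = -C.d a := by
  have h := C.add a (-a)
  rw [add_neg_cancel, d_zero] at h
  exact (neg_eq_of_add_eq_zero_right h.symm).symm

variable {n : Type} [Fintype n] [DecidableEq n]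

omit [Fintype n] in
theorem dm_smul (a : L) : C.dm (a • (1 : Matrix n n L)) = diagonal (fun _ => C.d a) := by
  ext i j
  rw [Cal.dm, map_apply, Matrix.smul_apply, one_apply, diagonal_apply]
  split_ifs
  · rw [smul_eq_mul, mul_one]
  · rw [smul_zero, d_zero]

omit [Fintype n] [DecidableEq n] in
theorem dm_neg (A : Matrix n n L) : C.dm (-A) = -C.dm A := by
  ext i j
  rw [Cal.dm, map_apply, neg_apply, neg_apply, d_neg]; rfl

theorem rel (a b : L) (φ ψ : Matrix n n L) :
    Rel (diagonal (fun _ : n => C.d a)) (diagonal (fun _ : n => C.d b)) (C.dm φ) (C.dm ψ) := by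
  have hd : ∀ (c : L) (A : Matrix n n L), C.dm A * diagonal (fun _ : n => C.d c) =
      -(diagonal (fun _ : n => C.d c) * C.dm A) := by
    intro c A
    ext i j
    rw [mul_diagonal, neg_apply, diagonal_mul]
    exact C.anti _ _
  refine ⟨?_, ?_, ?_, hd a φ, hd b φ, hd a ψ, hd b ψ⟩
  · rw [diagonal_mul_diagonal]; simp only [C.sq]; exact diagonal_zero
  · rw [diagonal_mul_diagonal]; simp only [C.sq]; exact diagonal_zero
  · rw [diagonal_mul_diagonal, diagonal_mul_diagonal, C.anti b a]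
    exact (diagonal_neg _).symm

theorem prod (a b : L) (φ ψ : Matrix n n L) :
    C.dm (kA a b φ ψ) * C.dm (kB a b φ ψ) =
      X (diagonal (fun _ : n => C.d a)) (diagonal (fun _ : n => C.d b)) (C.dm φ) (C.dm ψ) := by
  have h := rel C a b φ ψ
  have hA : C.dm (kA a b φ ψ) = fromBlocks (C.dm φ) (diagonal (fun _ : n => C.d a)) (-diagonal (fun _ : n => C.d b)) (C.dm ψ) := by
    rw [← dm_smul, ← dm_smul, ← dm_neg]
    exact fromBlocks_map _ _ _ _ _
  have hB : C.dm (kB a b φ ψ) = fromBlocks (C.dm ψ) (-diagonal (fun _ : n => C.d a)) (diagonal (fun _ : n => C.d b)) (C.dm φ) := by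
    rw [← dm_smul, ← dm_smul, ← dm_neg]
    exact fromBlocks_map _ _ _ _ _
  rw [hA, hB, X, fromBlocks_multiply]
  congr 1
  · rw [mul_neg, h.px, two_smul]; abel
  · rw [h.qy, two_smul]; noncomm_ring
  · rw [neg_mul, mul_neg, neg_neg, h.yx]; abel

omit [DecidableEq n] in
theorem tr_blocks (A B D F : Matrix n n E) : (fromBlocks A B D F).trace = A.trace + F.trace := by
  simp only [trace, diag_apply, Fintype.sum_sum_type, fromBlocks_apply₁₁, fromBlocks_apply₂₂]

theorem tr_smul (c : ℕ) (x : E) (A : Matrix n n E) : (c • (diagonal (fun _ : n => x) * A)).trace = c • (x * A.trace) := by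
  rw [trace_smul]
  congr 1
  simp only [trace, diag_apply, diagonal_mul, Finset.mul_sum]

end mat

end D1_aux

open D1_aux in
theorem tD1 : S_Comm → S_Sw → S_D1 := by
  intro _h hSw L E _ _ _ C n _ _ a b φ ψ k hk
  obtain ⟨r, rfl⟩ : ∃ r, k = r + 1 := ⟨k - 1, by omega⟩
  have h1 := hSw L E C n n φ ψ (r + 1) (by omega)
  have h2 := hSw L E C n n φ ψ r (by omega)
  rw [Cal.ch, Cal.ch] at h1 h2
  rw [Cal.ch, prod, (rel C a b φ ψ).pow, tr_blocks, trace_add, trace_sub, diagonal_mul_diagonal, tr_smul, tr_smul, h1, h2,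
    Nat.add_sub_cancel, Cal.ch]
  have e : 2 * (r + 1) * (2 * (r + 1) - 1) = 2 * ((r + 1) * (2 * r + 1)) := by
    have : 2 * (r + 1) - 1 = 2 * r + 1 := by omega
    rw [this]; ring
  rw [e, mul_neg, smul_neg]
  module

end Pool.Agent.QV
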