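import Pool.Agent.Lib.MP_b53bfe_ag.Q.SpecA

/-!
# Module D2: exact sequence for the product with `(a, b)`
-/

set_option autoImplicit false

noncomputable section

namespace Pool.Agent.QV

open Matrix

namespace D2_aux

/-- factoring through a surjection -/
lemma fac {R M N P : Type} [CommRing R] [AddCommGroup M] [Module R M] [AddCommGroup N] [Module R N]
    [AddCommGroup P] [Module R P] (π : M →ₗ[R] N) (hπ : Function.Surjective π) (f : M →ₗ[R] P)
    (h : ∀ x, π x = 0 → f x = 0) : ∃ g : N →ₗ[R] P, ∀ x, g (π x) = f x := by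
  have hk : LinearMap.ker π ≤ LinearMap.ker f := fun x hx => by
    rw [LinearMap.mem_ker] at hx ⊢
    exact h x hx
  refine ⟨(Submodule.liftQ (LinearMap.ker π) f hk) ∘ₗ
    (π.quotKerEquivOfSurjective hπ).symm.toLinearMap, fun x => ?_⟩
  have e : (π.quotKerEquivOfSurjective hπ).symm (π x) = Submodule.Quotient.mk x := by
    rw [LinearEquiv.symm_apply_eq]
    rfl
  rw [LinearMap.comp_apply, LinearEquiv.coe_coe, e]
  rfl

variable {L : Type} [CommRing L]

lemma mem_top {m : Type} [Fintype m] [DecidableEq m] (I : Ideal L) (e : m → L) :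
    e ∈ I • (⊤ : Submodule L (m → L)) ↔ ∀ j, e j ∈ I := by
  constructor
  · intro h
    refine Submodule.smul_induction_on h ?_ ?_
    · intro r hr x _ j
      exact I.mul_mem_right _ hr
    · intro x y hx hy j
      exact I.add_mem (hx j) (hy j)
  · intro h
    have e1 : e = ∑ j, e j • (Pi.single j 1 : m → L) := by
      funext k
      rw [Finset.sum_apply, Finset.sum_eq_single k]
      · simp
      · intro j _ hj
        simp [hj.symm]
      · intro hk
        exact absurd (Finset.mem_univ k) hk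
    rw [e1]
    exact Submodule.sum_mem _ fun j _ => Submodule.smul_mem_smul (h j) trivial

lemma mulVec_mem {m : Type} [Fintype m] (I : Ideal L) (M : Matrix m m L) (e : m → L)
    (h : ∀ j, e j ∈ I) (j : m) : (M *ᵥ e) j ∈ I := by
  unfold Matrix.mulVec dotProduct
  exact Ideal.sum_mem _ fun i _ => I.mul_mem_left _ (h i)

variable {n : Type} [Fintype n] [DecidableEq n]

lemma kA_mulVec (a b : L) (φ ψ : Matrix n n L) (x y : n → L) :
    kA a b φ ψ *ᵥ (Sum.elim x y) = Sum.elim (φ *ᵥ x + a • y) (-(b • x) + ψ *ᵥ y) := by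
  unfold kA
  rw [Matrix.fromBlocks_mulVec]
  congr 1
  · simp [Matrix.smul_mulVec, Matrix.one_mulVec]
  · simp [Matrix.neg_mulVec, Matrix.smul_mulVec, Matrix.one_mulVec]

lemma mf (W₀ a b : L) (φ ψ : Matrix n n L) (h : IsMF W₀ φ ψ) :
    IsMF (W₀ + a * b) (kA a b φ ψ) (kB a b φ ψ) := by
  have e1 : (W₀ + a * b) • (1 : Matrix (n ⊕ n) (n ⊕ n) L) =
      fromBlocks ((W₀ + a * b) • (1 : Matrix n n L)) 0 0 ((W₀ + a * b) • (1 : Matrix n n L)) := by
    rw [← Matrix.fromBlocks_one, Matrix.fromBlocks_smul, smul_zero]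
  have hab := h.ab
  have hba := h.ba
  constructor
  · unfold kA kB
    rw [Matrix.fromBlocks_multiply, e1, hab, hba]
    congr 1
    · rw [smul_mul_smul_comm, one_mul, add_smul]
    · simp
    · simp
    · rw [neg_mul_neg, smul_mul_smul_comm, one_mul, add_smul, mul_comm b a, add_comm]
  · unfold kA kB
    rw [Matrix.fromBlocks_multiply, e1, hab, hba]
    congr 1
    · rw [neg_mul_neg, smul_mul_smul_comm, one_mul, add_smul]
    · simp
    · simp
    · rw [smul_mul_smul_comm, one_mul, add_smul, mul_comm b a, add_comm]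

/-- the injection of the second summand -/
def inr' : (n → L) →ₗ[L] (n ⊕ n → L) where
  toFun x := Sum.elim 0 x
  map_add' x y := by
    funext j
    rcases j with j | j <;> simp
  map_smul' c x := by
    funext j
    rcases j with j | j <;> simp

/-- the projection to the first summand -/
def pr1 : (n ⊕ n → L) →ₗ[L] (n → L) where
  toFun v j := v (Sum.inl j)
  map_add' _ _ := rfl
  map_smul' _ _ := rfl

/-- reduction modulo `J` -/
def red (J : Ideal L) : (n → L) →ₗ[L] (n → L ⧸ J) where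
  toFun x j := Submodule.Quotient.mk (x j)
  map_add' _ _ := rfl
  map_smul' _ _ := rfl

omit [Fintype n] [DecidableEq n] in
lemma red_surj (J : Ideal L) : Function.Surjective (red (n := n) J) := by
  intro y
  choose x hx using fun j => Submodule.Quotient.mk_surjective J (y j)
  exact ⟨x, funext hx⟩

omit [Fintype n] [DecidableEq n] in
lemma red_zero (J : Ideal L) (x : n → L) : red J x = 0 ↔ ∀ j, x j ∈ J := by
  constructor
  · intro h j
    have := congrFun h j
    exact (Submodule.Quotient.mk_eq_zero J).mp this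
  · intro h
    funext j
    exact (Submodule.Quotient.mk_eq_zero J).mpr (h j)

lemma mem_sup' (I : Ideal L) (a x : L) :
    x ∈ I ⊔ Ideal.span {a} ↔ ∃ t c, c ∈ I ∧ x = a * t + c := by
  rw [Submodule.mem_sup]
  constructor
  · rintro ⟨c, hc, z, hz, rfl⟩
    obtain ⟨t, rfl⟩ := Ideal.mem_span_singleton'.mp hz
    exact ⟨t, c, hc, by ring⟩
  · rintro ⟨t, c, hc, rfl⟩
    exact ⟨c, hc, a * t, Ideal.mem_span_singleton'.mpr ⟨t, mul_comm _ _⟩, by ring⟩

end D2_aux

open D2_aux in
theorem tD2 : S_D2 := by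
  intro L _ n _ _ W₀ a b φ ψ I hMF ha hW
  refine ⟨mf W₀ a b φ ψ hMF, ?_⟩
  have hψφ : ∀ x : n → L, ψ *ᵥ (φ *ᵥ x) = W₀ • x := fun x => by
    rw [Matrix.mulVec_mulVec, hMF.ba, Matrix.smul_mulVec, Matrix.one_mulVec]
  obtain ⟨S, hS⟩ : ∃ S, S = LinearMap.range (kA a b φ ψ).mulVecLin ⊔
      I • (⊤ : Submodule L (n ⊕ n → L)) := ⟨_, rfl⟩
  have memS : ∀ u w : n → L, Sum.elim u w ∈ S ↔ ∃ x y e1 e2 : n → L, (∀ j, e1 j ∈ I) ∧
      (∀ j, e2 j ∈ I) ∧ u = φ *ᵥ x + a • y + e1 ∧ w = -(b • x) + ψ *ᵥ y + e2 := by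
    intro u w
    rw [hS, Submodule.mem_sup]
    constructor
    · rintro ⟨_, ⟨z, rfl⟩, e, he, h⟩
      rw [mem_top] at he
      obtain ⟨x, hx⟩ : ∃ x : n → L, x = fun j => z (Sum.inl j) := ⟨_, rfl⟩
      obtain ⟨y, hy⟩ : ∃ y : n → L, y = fun j => z (Sum.inr j) := ⟨_, rfl⟩
      have hz : z = Sum.elim x y := by
        rw [hx, hy]
        funext j
        rcases j with j | j <;> rfl
      rw [hz, Matrix.mulVecLin_apply, kA_mulVec] at h
      refine ⟨x, y, fun j => e (Sum.inl j), fun j => e (Sum.inr j), fun j => he _, fun j => he _,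
        ?_, ?_⟩
      · funext j
        exact (congrFun h (Sum.inl j)).symm
      · funext j
        exact (congrFun h (Sum.inr j)).symm
    · rintro ⟨x, y, e1, e2, h1, h2, rfl, rfl⟩
      refine ⟨_, ⟨Sum.elim x y, rfl⟩, Sum.elim e1 e2, ?_, ?_⟩
      · rw [mem_top]
        rintro (j | j)
        · exact h1 j
        · exact h2 j
      · rw [Matrix.mulVecLin_apply, kA_mulVec]
        funext j
        rcases j with j | j <;> rfl
  obtain ⟨J, hJ⟩ : ∃ J, J = I ⊔ Ideal.span {W₀ + a * b} := ⟨_, rfl⟩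
  obtain ⟨S', hS'⟩ : ∃ S', S' = LinearMap.range φ.mulVecLin ⊔
      (I ⊔ Ideal.span {a}) • (⊤ : Submodule L (n → L)) := ⟨_, rfl⟩
  have memS' : ∀ u : n → L, u ∈ S' ↔ ∃ x y e1 : n → L, (∀ j, e1 j ∈ I) ∧
      u = φ *ᵥ x + a • y + e1 := by
    intro u
    rw [hS', Submodule.mem_sup]
    constructor
    · rintro ⟨_, ⟨x, rfl⟩, e, he, rfl⟩
      rw [mem_top] at he
      choose t c hc h using fun j => (mem_sup' I a (e j)).mp (he j)
      refine ⟨x, t, c, hc, ?_⟩
      funext j
      simp only [Pi.add_apply, Matrix.mulVecLin_apply, Pi.smul_apply, smul_eq_mul]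
      rw [h j]
      ring
    · rintro ⟨x, y, e1, h1, rfl⟩
      refine ⟨_, ⟨x, rfl⟩, a • y + e1, ?_, ?_⟩
      · rw [mem_top]
        intro j
        exact (mem_sup' I a _).mpr ⟨y j, e1 j, h1 j, rfl⟩
      · rw [Matrix.mulVecLin_apply, add_assoc]
  -- the maps
  obtain ⟨i, hi⟩ := fac (red (n := n) J) (red_surj J) (S.mkQ ∘ₗ inr') (by
    intro x hx
    rw [red_zero] at hx
    rw [LinearMap.comp_apply, Submodule.mkQ_apply, Submodule.Quotient.mk_eq_zero]
    show Sum.elim (0 : n → L) x ∈ S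
    rw [memS]
    rw [hJ] at hx
    choose t c hc h using fun j => (mem_sup' I _ (x j)).mp (hx j)
    refine ⟨-(a • t), φ *ᵥ t, 0, c, fun j => I.zero_mem, hc, ?_, ?_⟩
    · rw [Matrix.mulVec_neg, Matrix.mulVec_smul]
      simp
    · rw [hψφ]
      funext j
      simp only [Pi.add_apply, Pi.neg_apply, Pi.smul_apply, smul_eq_mul]
      rw [h j]
      ring)
  obtain ⟨p, hp⟩ := fac S.mkQ S.mkQ_surjective (S'.mkQ ∘ₗ pr1) (by
    intro v hv
    rw [Submodule.mkQ_apply, Submodule.Quotient.mk_eq_zero] at hv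
    rw [LinearMap.comp_apply, Submodule.mkQ_apply, Submodule.Quotient.mk_eq_zero]
    have hv' : v = Sum.elim (fun j => v (Sum.inl j)) (fun j => v (Sum.inr j)) := by
      funext j
      rcases j with j | j <;> rfl
    rw [hv', memS] at hv
    obtain ⟨x, y, e1, e2, h1, h2, h3, h4⟩ := hv
    exact (memS' _).mpr ⟨x, y, e1, h1, h3⟩)
  subst hS
  subst hS'
  subst hJ
  refine ⟨i, p, ?_, ?_, ?_⟩
  · -- injective
    rw [injective_iff_map_eq_zero]
    intro ξ hξ
    obtain ⟨x, rfl⟩ := red_surj _ ξ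
    rw [hi, LinearMap.comp_apply, Submodule.mkQ_apply, Submodule.Quotient.mk_eq_zero] at hξ
    have hξ' := (memS 0 x).mp hξ
    obtain ⟨x', y, e1, e2, h1, h2, h3, h4⟩ := hξ'
    rw [red_zero]
    -- x' is in I + (a)
    have h5 : ∀ j, x' j ∈ I ⊔ Ideal.span {a} := by
      intro j
      apply hW
      have h6 : ψ *ᵥ (φ *ᵥ x' + a • y + e1) = 0 := by rw [← h3, Matrix.mulVec_zero]
      rw [Matrix.mulVec_add, Matrix.mulVec_add, hψφ, Matrix.mulVec_smul] at h6
      have h7 := congrFun h6 j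
      simp only [Pi.add_apply, Pi.smul_apply, smul_eq_mul, Pi.zero_apply] at h7
      refine (mem_sup' I a _).mpr ⟨-(ψ *ᵥ y) j, -(ψ *ᵥ e1) j,
        I.neg_mem (mulVec_mem I ψ e1 h1 j), ?_⟩
      linear_combination h7
    choose t c hc ht using fun j => (mem_sup' I a (x' j)).mp (h5 j)
    have hx' : x' = a • t + c := funext ht
    have h6 : ∀ j, (φ *ᵥ t + y) j ∈ I := by
      intro j
      apply ha
      have h7 := congrFun h3 j
      rw [hx', Matrix.mulVec_add, Matrix.mulVec_smul] at h7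
      simp only [Pi.add_apply, Pi.smul_apply, smul_eq_mul, Pi.zero_apply] at h7
      have h8 : a * (φ *ᵥ t + y) j = -((φ *ᵥ c) j + e1 j) := by
        rw [Pi.add_apply]
        linear_combination -h7
      rw [h8]
      exact I.neg_mem (I.add_mem (mulVec_mem I φ c hc j) (h1 j))
    intro j
    have hy : y = -(φ *ᵥ t) + (φ *ᵥ t + y) := by
      rw [neg_add_cancel_left]
    have h7 := congrFun h4 j
    rw [hx', hy, Matrix.mulVec_add, Matrix.mulVec_neg, hψφ] at h7
    simp only [Pi.add_apply, Pi.neg_apply, Pi.smul_apply, smul_eq_mul] at h7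
    refine (mem_sup' I _ _).mpr ⟨-t j, -(b * c j) + (ψ *ᵥ (φ *ᵥ t + y)) j + e2 j, ?_, ?_⟩
    · exact I.add_mem (I.add_mem (I.neg_mem (I.mul_mem_left _ (hc j))) (mulVec_mem I ψ _ h6 j))
        (h2 j)
    · rw [h7]
      ring
  · -- surjective
    intro η
    obtain ⟨u, rfl⟩ := Submodule.Quotient.mk_surjective _ η
    refine ⟨Submodule.Quotient.mk (Sum.elim u 0), ?_⟩
    exact hp (Sum.elim u 0)
  · -- exact
    intro η
    constructor
    · intro hη
      obtain ⟨v, rfl⟩ := Submodule.Quotient.mk_surjective _ η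
      have h1 : p (Submodule.Quotient.mk v) = _ := hp v
      rw [h1, LinearMap.comp_apply, Submodule.mkQ_apply, Submodule.Quotient.mk_eq_zero] at hη
      obtain ⟨x, y, e1, he, h2⟩ := (memS' _).mp hη
      refine ⟨red _ (fun j => v (Sum.inr j) - (-(b • x) + ψ *ᵥ y) j), ?_⟩
      rw [hi, LinearMap.comp_apply, Submodule.mkQ_apply, Submodule.Quotient.eq]
      have h3 : inr' (fun j => v (Sum.inr j) - (-(b • x) + ψ *ᵥ y) j) - v =
          Sum.elim (-(fun j => v (Sum.inl j))) (-(-(b • x) + ψ *ᵥ y)) := by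
        funext j
        rcases j with j | j
        · show (0 : L) - v (Sum.inl j) = -(v (Sum.inl j))
          ring
        · show v (Sum.inr j) - (-(b • x) + ψ *ᵥ y) j - v (Sum.inr j) = -((-(b • x) + ψ *ᵥ y) j)
          ring
      rw [h3]
      refine (memS _ _).mpr ⟨-x, -y, -e1, 0, fun j => I.neg_mem (he j), fun j => I.zero_mem, ?_, ?_⟩
      · have h4 : (fun j => v (Sum.inl j)) = φ *ᵥ x + a • y + e1 := h2
        rw [h4, Matrix.mulVec_neg, smul_neg]
        abel
      · rw [Matrix.mulVec_neg, smul_neg]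
        abel
    · rintro ⟨ξ, rfl⟩
      obtain ⟨x, rfl⟩ := red_surj _ ξ
      rw [hi]
      have h1 : p (((LinearMap.range (kA a b φ ψ).mulVecLin ⊔
        I • (⊤ : Submodule L (n ⊕ n → L))).mkQ ∘ₗ inr') x) = _ := hp (inr' x)
      rw [h1, LinearMap.comp_apply]
      have h2 : pr1 (inr' x) = (0 : n → L) := rfl
      rw [h2, map_zero]

end Pool.Agent.QV
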