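import Pool.Agent.Lib.MP_b53bfe_ag.Q.SpecH

/-!
# MP_b53bfe_ag: the composition of the two differentials is zero
-/

set_option autoImplicit false

noncomputable section

namespace Pool.Agent.QV

open Matrix
open MvPolynomial TensorProduct

namespace D21_aux

variable {R : Type} [CommRing R]

theorem cf3_eq (γ : Fin 6 → R) (i j m : Fin 6) (h : i < j ∧ j < m) (p : Pr2) :
    cf3 γ ⟨(i, j, m), h⟩ p = (if p = ⟨(j, m), h.2⟩ then γ i else 0) -
      (if p = ⟨(i, m), h.1.trans h.2⟩ then γ j else 0) + (if p = ⟨(i, j), h.1⟩ then γ m else 0) := by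
  obtain ⟨⟨x, y⟩, hp⟩ := p
  have hij : i ≠ j := h.1.ne
  have hjm : j ≠ m := h.2.ne
  unfold cf3
  simp only [Subtype.mk.injEq, Prod.mk.injEq]
  by_cases h1 : x = j ∧ y = m
  · obtain ⟨rfl, rfl⟩ := h1
    simp [hij.symm]
  · by_cases h2 : x = i ∧ y = m
    · obtain ⟨rfl, rfl⟩ := h2
      simp [hij, hjm.symm]
    · by_cases h3 : x = i ∧ y = j
      · obtain ⟨rfl, rfl⟩ := h3
        simp [hij, hjm]
      · simp [h1, h2, h3]

theorem cf3_sum (γ : Fin 6 → R) (i j m : Fin 6) (h : i < j ∧ j < m) (f : Pr2 → R) :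
    ∑ p, cf3 γ ⟨(i, j, m), h⟩ p * f p = γ i * f ⟨(j, m), h.2⟩ - γ j * f ⟨(i, m), h.1.trans h.2⟩ +
      γ m * f ⟨(i, j), h.1⟩ := by
  simp only [cf3_eq, add_mul, sub_mul, ite_mul, zero_mul, Finset.sum_add_distrib, Finset.sum_sub_distrib,
    Finset.sum_ite_eq', Finset.mem_univ, if_true]

theorem key (γ δ : Fin 6 → R) (T : Tr3) (q : Fin 6) :
    ∑ p, cf3 γ T p * cf2 δ p q + ∑ p, cf3 δ T p * cf2 γ p q = 0 := by
  obtain ⟨⟨i, j, m⟩, h⟩ := T
  rw [cf3_sum, cf3_sum]
  have hij : i ≠ j := h.1.ne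
  have hjm : j ≠ m := h.2.ne
  have him : i ≠ m := (h.1.trans h.2).ne
  unfold cf2
  by_cases h1 : q = i
  · subst h1
    simp only [if_neg hij, if_neg him, if_true]
    ring
  · by_cases h2 : q = j
    · subst h2
      simp only [if_neg hij.symm, if_neg hjm, if_true]
      ring
    · by_cases h3 : q = m
      · subst h3
        simp only [if_neg h1, if_neg h2, if_true]
        ring
      · simp only [if_neg h1, if_neg h2, if_neg h3]
        ring

end D21_aux

theorem tD21 : S_D21 := by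
  intro R _ α β
  ext ⟨T, b, b'⟩ ⟨q, s, s'⟩
  rw [Matrix.mul_apply, Fintype.sum_sum_type, Matrix.zero_apply]
  have h1 : ∑ c : Pr2 × Fin 14 × Fin 8, D2m α β (T, b, b') (Sum.inl c) * D1m α β (Sum.inl c) (q, s, s') =
      ∑ p, cf3 (fun i => β i b' s') T p * cf2 (fun i => α i b s) p q := by
    rw [Fintype.sum_prod_type]
    refine Finset.sum_congr rfl fun p _ => ?_
    rw [Fintype.sum_prod_type, Finset.sum_eq_single b]
    · rw [Finset.sum_eq_single s']
      · simp [D2m, D1m]
      · intro x _ hx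
        simp [D1m, hx]
      · intro hx
        exact absurd (Finset.mem_univ _) hx
    · intro x _ hx
      exact Finset.sum_eq_zero fun y _ => by simp [D2m, hx.symm]
    · intro hx
      exact absurd (Finset.mem_univ _) hx
  have h2 : ∑ c : Pr2 × Fin 5 × Fin 12, D2m α β (T, b, b') (Sum.inr c) * D1m α β (Sum.inr c) (q, s, s') =
      ∑ p, cf3 (fun i => α i b s) T p * cf2 (fun i => β i b' s') p q := by
    rw [Fintype.sum_prod_type]
    refine Finset.sum_congr rfl fun p _ => ?_
    rw [Fintype.sum_prod_type, Finset.sum_eq_single s]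
    · rw [Finset.sum_eq_single b']
      · simp [D2m, D1m]
      · intro x _ hx
        simp [D2m, hx.symm]
      · intro hx
        exact absurd (Finset.mem_univ _) hx
    · intro x _ hx
      exact Finset.sum_eq_zero fun y _ => by simp [D1m, hx]
    · intro hx
      exact absurd (Finset.mem_univ _) hx
  rw [h1, h2]
  exact D21_aux.key _ _ T q

end Pool.Agent.QV
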