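import Pool.Agent.Lib.MP_b53bfe_ag.Q.SpecG

/-!
# MP_b53bfe_ag: the parameter derivatives of the potential
-/

set_option autoImplicit false

noncomputable section

namespace Pool.Agent.QV

open Matrix
open MvPolynomial TensorProduct
open Pool.Agent.FY (Res)

namespace DW_aux

/-- `Dc D` as a derivation -/
def del (h : S_Dc) {K σ : Type} [Field K] (D : Derivation ℤ K K) :
    Derivation ℤ (MvPolynomial σ K) (MvPolynomial σ K) :=
  Derivation.mk' (AddMonoidHom.mk' (Dc D) (h K σ D).1).toIntLinearMap (fun a b => by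
    have := (h K σ D).2.1 a b
    simpa [smul_eq_mul] using this)

theorem del_eq (h : S_Dc) {K σ : Type} [Field K] (D : Derivation ℤ K K) (b : MvPolynomial σ K) :
    del h D b = Dc D b := rfl

theorem del_X (h : S_Dc) {K σ : Type} [Field K] (D : Derivation ℤ K K) (v : σ) :
    del h D (X v : MvPolynomial σ K) = 0 := (h K σ D).2.2.1 v

theorem del_C (h : S_Dc) {K σ : Type} [Field K] (D : Derivation ℤ K K) (k : K) :
    del h D (C k : MvPolynomial σ K) = C (D k) := (h K σ D).2.2.2 k

theorem del_five (h : S_Dc) {K σ : Type} [Field K] (D : Derivation ℤ K K) :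
    del h D (5 : MvPolynomial σ K) = 0 := by
  have := (del h D (σ := σ)).map_natCast 5
  simpa using this

theorem del_fS (h : S_Dc) {K : Type} [Field K] (a : Par K) (D : Fin 6 → Derivation ℤ K K)
    (hD : IsDer a D) (i : Fin 6) (r : Fin 3) :
    del h (D i) (fS a r) = ev K r (GG a i) := by
  have e1 : D i (a.A ^ 2) = 0 := by rw [Derivation.leibniz_pow, hD.A]; simp
  have hR : ∀ j : Fin 5, del h (D i) (Rj j (X (r, 0)) (X (r, 1)) (X (r, 2)) (X (r, 4)) : PP K) = 0 := by
    intro j
    fin_cases j <;> simp [Rj, Derivation.leibniz, Derivation.leibniz_pow, del_X]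
  have hRf : del h (D i) (Rf a (X (r, 0)) (X (r, 1)) (X (r, 2)) (X (r, 4)) : PP K) =
      ∑ j : Fin 5, C (D i (a.t j)) * Rj j (X (r, 0)) (X (r, 1)) (X (r, 2)) (X (r, 4)) := by
    unfold Rf
    simp only [algebraMap_eq, map_add, map_sum, Derivation.leibniz, Derivation.leibniz_pow, del_X, del_C, e1, hD.A,
      hR, C_0, smul_eq_mul, nsmul_eq_mul, mul_zero, add_zero, zero_add]
    exact Finset.sum_congr rfl fun j _ => by ring
  have hu : del h (D i) (uf a (X (r, 0)) (X (r, 2)) (X (r, 4)) : PP K) = C (D i a.c) * X (r, 2) ^ 2 := by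
    unfold uf
    simp only [algebraMap_eq, map_add, map_sub, Derivation.leibniz, Derivation.leibniz_pow, del_X, del_C,
      smul_eq_mul, nsmul_eq_mul, mul_zero]
    ring
  have hf : del h (D i) (fS a r) =
      X (r, 1) * ∑ j : Fin 5, C (D i (a.t j)) * Rj j (X (r, 0)) (X (r, 1)) (X (r, 2)) (X (r, 4)) -
      10 * X (r, 2) * uf a (X (r, 0)) (X (r, 2)) (X (r, 4)) * (C (D i a.c) * X (r, 2) ^ 2) := by
    unfold fS ff
    simp only [map_add, map_sub, Derivation.leibniz, Derivation.leibniz_pow, del_X, del_five, hRf, hu,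
      smul_eq_mul, nsmul_eq_mul, mul_zero]
    push_cast
    ring
  rw [hf]
  clear hf hu hRf hR e1
  revert i
  refine Fin.cases ?_ (fun k => ?_)
  · have ht : ∀ j : Fin 5, D 0 (a.t j) = 0 := fun j => by
      rw [hD.t, if_neg (Fin.succ_ne_zero j).symm]
    have hc : D 0 a.c = 1 := by rw [hD.c, if_pos rfl]
    simp only [ht, hc, C_0, C_1, zero_mul, Finset.sum_const_zero, mul_zero, GG, Fin.cons_zero, u4, uf, ev,
      map_neg, map_mul, map_add, map_pow, aeval_X, algebraMap_eq, algHom_C, map_ofNat]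
    simp
    ring
  · have ht : ∀ j : Fin 5, D k.succ (a.t j) = if k = j then 1 else 0 := fun j => by
      rw [hD.t]
      simp only [Fin.succ_inj]
    have hc : D k.succ a.c = 0 := by rw [hD.c, if_neg (Fin.succ_ne_zero k)]
    have hs : ∑ j : Fin 5, C (D k.succ (a.t j)) * Rj j (X (r, 0)) (X (r, 1)) (X (r, 2)) (X (r, 4)) =
        (Rj k (X (r, 0)) (X (r, 1)) (X (r, 2)) (X (r, 4)) : PP K) := by
      rw [Finset.sum_eq_single k]
      · rw [ht, if_pos rfl, C_1, one_mul]
      · intro j _ hj
        rw [ht, if_neg (Ne.symm hj), C_0, zero_mul]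
      · intro hk
        exact absurd (Finset.mem_univ k) hk
    rw [hs, hc, C_0, zero_mul, mul_zero, sub_zero]
    simp only [GG, Fin.cons_succ, map_mul]
    congr 1
    · simp [ev]
    · fin_cases k <;> simp [Rj, RR, ev]

end DW_aux

theorem tDW : S_Dc → S_DW := by
  intro h K _ _ a D hD i
  have key := DW_aux.del_fS h a D hD i
  rw [← key 1, ← key 2, ← DW_aux.del_eq h]
  unfold WW
  simp only [map_add, map_sub, Derivation.leibniz, Derivation.leibniz_pow, DW_aux.del_X, DW_aux.del_five, smul_zero,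
    add_zero, sub_zero, zero_add]

end Pool.Agent.QV
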