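import Pool.Agent.Lib.MP_b53bfe_ag.Q.SpecG

/-!
# MP_b53bfe_ag, module Dc: derivations on coefficients
-/

set_option autoImplicit false

noncomputable section

namespace Pool.Agent.QV

open Matrix
open MvPolynomial TensorProduct
open Pool.Agent.FY (Res)

namespace Dc_aux

theorem coeff_Dc {K σ : Type} [Field K] (D : Derivation ℤ K K) (b : MvPolynomial σ K) (m : σ →₀ ℕ) :
    (Dc D b).coeff m = D (b.coeff m) := by
  classical
  unfold Dc
  rw [MvPolynomial.coeff_sum]
  simp only [coeff_monomial]
  rw [Finset.sum_ite_eq']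
  split_ifs with h
  · rfl
  · rw [notMem_support_iff.mp h, map_zero]

end Dc_aux

open Dc_aux in
theorem tDc : S_Dc := by
  classical
  intro K σ _ D
  refine ⟨fun b b' => ?_, fun b b' => ?_, fun v => ?_, fun k => ?_⟩
  · ext m
    simp only [coeff_add, coeff_Dc, map_add]
  · ext m
    rw [coeff_Dc, coeff_mul, map_sum, coeff_add, coeff_mul, coeff_mul]
    simp only [coeff_Dc, Derivation.leibniz, smul_eq_mul]
    rw [Finset.sum_add_distrib]
    congr 1
    exact (Finset.sum_nbij' Prod.swap Prod.swap (by simp [add_comm])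
      (by simp [add_comm]) (fun _ _ => rfl) (fun _ _ => rfl) (fun _ _ => rfl))
  · ext m
    rw [coeff_Dc, coeff_X, coeff_zero]
    split_ifs
    · exact Derivation.map_one_eq_zero D
    · exact map_zero D
  · ext m
    rw [coeff_Dc, coeff_C, coeff_C]
    split_ifs
    · rfl
    · exact map_zero D

end Pool.Agent.QV
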