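import Pool.Agent.Lib.MP_b53bfe_ag.Q.SpecG

/-!
# Disproof of Q1 of MP_b53bfe_ag for quintic threefolds: the equation in polynomials
-/

set_option autoImplicit false

noncomputable section

namespace Pool.Agent.QV

open Matrix MvPolynomial TensorProduct
open Pool.Agent.FY (Res)

namespace Eq_aux

variable {K : Type} [Field K] (a : Par K)

/-- the polynomials of the slot `s` involve only the variables of the row `s` -/
lemma sl_pd (κ : K) (s : Fin 3) (i : Fin 6) (s' : Fin 3) (j : Fin 5) (h : s' ≠ s) :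
    pderiv (s', j) (sl a κ s i) = 0 := by
  have hP : ∀ m : Fin 5, (Pi.single (s', j) (1 : PP K) : Fin 3 × Fin 5 → PP K) (s, m) = 0 := fun m =>
    Pi.single_eq_of_ne (fun e => h (congrArg Prod.fst e).symm) _
  have h5 : pderiv (s', j) (5 : PP K) = 0 := by
    rw [show (5 : PP K) = ((5 : ℕ) : PP K) by norm_num]
    exact Derivation.map_natCast _ 5
  obtain rfl | rfl | rfl : s = 0 ∨ s = 1 ∨ s = 2 := by
    fin_cases s <;> simp
  all_goals
    fin_cases i <;>
    simp [sl, Qf, Rf, Rj, Derivation.leibniz, Derivation.leibniz_pow, hP, h5, Fin.sum_univ_five,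
      MvPolynomial.algebraMap_eq]

lemma mk_NN (D : Fin 6 → Derivation ℤ K K) (κ : K) (s : Fin 3) (j : Fin 6) :
    Ideal.Quotient.mk (JL a) (NN a D κ s j) = (mat6 (fun i => grd a D (sl a κ s i)) s (Sum.inr j)).det := by
  unfold NN
  rw [RingHom.map_det]
  rfl

end Eq_aux

/-- the equation in polynomials -/
theorem tEq : S_kf → S_Gx → S_Eq := by
  intro hkf hGx K _ _ a D κ Cc hd h
  have h1 : (3201186852864000 : ℕ) •
      (Ideal.Quotient.mk (tI (grd a D (WW a))) (∑ k, pr18 fun s i => grd a D (sl a (κ k) s i)) : Ea a D) = 0 := by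
    rw [map_sum, Finset.smul_sum, ← h]
    exact Finset.sum_congr rfl fun k _ => (hkf K a D (κ k) Cc hd).symm
  have h2 : (Ideal.Quotient.mk (tI (grd a D (WW a))) (∑ k, pr18 fun s i => grd a D (sl a (κ k) s i)) : Ea a D) = 0 := by
    have h3 := congrArg (fun z => (C ((3201186852864000 : K)⁻¹) : PP K) • z) h1
    simp only [smul_zero] at h3
    rw [← Nat.cast_smul_eq_nsmul (PP K), smul_smul] at h3
    have h4 : (C ((3201186852864000 : K)⁻¹) : PP K) * ((3201186852864000 : ℕ) : PP K) = 1 := by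
      have h5 : ((3201186852864000 : ℕ) : PP K) = C (3201186852864000 : K) := by
        rw [← map_natCast (C : K →+* PP K)]
        norm_num
      rw [h5, ← C_mul, inv_mul_cancel₀ (by norm_num), C_1]
    rw [h4, one_smul] at h3
    exact h3
  have h3 : (∑ k, pr18 fun s i => grd a D (sl a (κ k) s i)) ∈ tI (grd a D (WW a)) :=
    Ideal.Quotient.eq_zero_iff_mem.1 h2
  obtain ⟨ω, hω⟩ := hGx (Lb a) (grd a D (WW a)) (fun k s i => grd a D (sl a (κ k) s i))
    (fun v => Ideal.Quotient.eq_zero_iff_mem.2 (Ideal.subset_span (Or.inl ⟨v, rfl⟩)))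
    (fun k s i s' j hs => by
      change Ideal.Quotient.mk (JL a) (pderiv (s', j) (sl a (κ k) s i)) = 0
      rw [Eq_aux.sl_pd a (κ k) s i s' j hs, map_zero]) h3
  choose ω' hω' using fun i j => Ideal.Quotient.mk_surjective (ω i j)
  refine ⟨ω', fun i j m => ?_⟩
  rw [← Ideal.Quotient.eq_zero_iff_mem, map_sub, sub_eq_zero, map_sum]
  have h6 := hω i j m
  refine Eq.trans ?_ (h6.trans ?_)
  · refine Finset.sum_congr rfl fun k _ => ?_
    rw [RingHom.map_det]
    refine congrArg Matrix.det (Matrix.ext fun s r => ?_)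
    rw [RingHom.mapMatrix_apply, Matrix.map_apply, Matrix.of_apply, Matrix.of_apply]
    exact Eq_aux.mk_NN a D (κ k) s ((![i, j, m] : Fin 3 → Fin 6) r)
  · rw [map_add, map_sub, map_mul, map_mul, map_mul, hω', hω', hω']
    rfl

end Pool.Agent.QV
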