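import Pool.Agent.Lib.MP_b53bfe_ag.Q.SpecA

/-!
# Existence of matrix factorizations (module Ex)
-/

set_option autoImplicit false

noncomputable section

namespace Pool.Agent.QV

open Matrix

theorem tEx : S_Pd → S_Ex := by
  intro hPd L _ hdom hloc hnoe W M _ _ hW hfin hkw hpd
  obtain ⟨n, f, hf⟩ := Module.Finite.exists_fin' L M
  obtain ⟨h1, -, -, h4⟩ := hPd L
  let N : Submodule L (Fin n → L) := LinearMap.ker f
  have hN : PD L 0 N :=
    (h1 0 N (Fin n → L) M N.subtype f N.injective_subtype hf
      (fun x => by simp [N])).2.1 ((h4 (Fin n → L)).2 inferInstance) hpd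
  have : Module.Projective L N := (h4 N).1 hN
  have : Module.Finite L N := inferInstance
  have : Module.Free L N := Module.free_of_flat_of_isLocalRing
  -- multiplication by `W`
  have hmem : ∀ x : Fin n → L, W • x ∈ N := fun x => by
    change f (W • x) = 0
    rw [map_smul, hkw]
  let g : (Fin n → L) →ₗ[L] N := LinearMap.codRestrict N (W • LinearMap.id) hmem
  have hg : ∀ x, ((g x : N) : Fin n → L) = W • x := fun x => rfl
  have hgi : Function.Injective g := by
    intro x y hxy
    have h2 : W • x = W • y := by rw [← hg, ← hg, hxy]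
    funext i
    have h3 := congrFun h2 i
    rw [Pi.smul_apply, Pi.smul_apply, smul_eq_mul, smul_eq_mul] at h3
    exact mul_left_cancel₀ hW h3
  have hle : Module.finrank L N ≤ n := by
    have := Submodule.finrank_le N
    rwa [Module.finrank_fin_fun] at this
  have hge : n ≤ Module.finrank L N := by
    have := LinearMap.finrank_le_finrank_of_injective hgi
    rwa [Module.finrank_fin_fun] at this
  let b : Module.Basis (Fin n) L N := Module.finBasisOfFinrankEq L N (le_antisymm hle hge)
  let e : (Fin n → L) ≃ₗ[L] N := b.equivFun.symm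
  let α : (Fin n → L) →ₗ[L] (Fin n → L) := N.subtype ∘ₗ e.toLinearMap
  let β : (Fin n → L) →ₗ[L] (Fin n → L) := e.symm.toLinearMap ∘ₗ g
  have hαβ : α ∘ₗ β = W • LinearMap.id := by
    refine LinearMap.ext fun x => ?_
    change ((e (e.symm (g x)) : N) : Fin n → L) = W • x
    rw [e.apply_symm_apply, hg]
  have hβα : β ∘ₗ α = W • LinearMap.id := by
    refine LinearMap.ext fun x => ?_
    change e.symm (g ((e x : N) : Fin n → L)) = W • x
    have h2 : g ((e x : N) : Fin n → L) = W • e x := Subtype.ext (hg _)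
    rw [h2, map_smul, e.symm_apply_apply]
  have hid : LinearMap.toMatrix' (W • (LinearMap.id : (Fin n → L) →ₗ[L] (Fin n → L))) =
      W • (1 : Matrix (Fin n) (Fin n) L) := by
    rw [map_smul, LinearMap.toMatrix'_id]
  have hA : (LinearMap.toMatrix' α).mulVecLin = α := by
    rw [← Matrix.toLin'_apply', Matrix.toLin'_toMatrix']
  have hr : LinearMap.ker f = LinearMap.range (LinearMap.toMatrix' α).mulVecLin := by
    rw [hA]
    ext x
    constructor
    · intro hx
      exact ⟨e.symm ⟨x, hx⟩, by
        change ((e (e.symm (⟨x, hx⟩ : N)) : N) : Fin n → L) = x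
        rw [e.apply_symm_apply]⟩
    · rintro ⟨y, rfl⟩
      exact (e y).2
  refine ⟨n, LinearMap.toMatrix' α, LinearMap.toMatrix' β, ⟨?_, ?_⟩, ⟨?_⟩⟩
  · rw [← LinearMap.toMatrix'_comp, hαβ, hid]
  · rw [← LinearMap.toMatrix'_comp, hβα, hid]
  · exact (f.quotKerEquivOfSurjective hf).symm ≪≫ₗ Submodule.quotEquivOfEq _ _ hr

end Pool.Agent.QV
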