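import Pool.Agent.Lib.MP_b53bfe_ag.Q.SpecA
import Pool.Agent.Lib.MP_b53bfe_ag.Q.Bas

/-!
# Module Ext: dimension shift (helper80)
-/

set_option autoImplicit false

noncomputable section

namespace Pool.Agent.QV

open Matrix

namespace Ext_aux

variable {L : Type} [CommRing L] {W : L}

/-- finite and free over `L / W` -/
def Fr (W : L) (F : Type) [AddCommGroup F] [Module L F] : Prop :=
  ∃ n : ℕ, Nonempty (F ≃ₗ[L] (Fin n → L ⧸ Ideal.span {W}))

theorem Fr.fin {F : Type} [AddCommGroup F] [Module L F] (h : Fr W F) : Module.Finite L F := by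
  obtain ⟨n, ⟨e⟩⟩ := h
  exact Module.Finite.equiv e.symm

theorem Fr.kw {F : Type} [AddCommGroup F] [Module L F] (h : Fr W F) : KW W F := by
  obtain ⟨n, ⟨e⟩⟩ := h
  exact (KW.pi (KW.quot _ (Ideal.mem_span_singleton_self W)) (Fin n)).of_inj e.toLinearMap e.injective

theorem Fr.pd {F : Type} [AddCommGroup F] [Module L F] (h : Fr W F)
    (hc : ∀ n : ℕ, PD L 1 (Fin n → L ⧸ Ideal.span {W})) : PD L 1 F := by
  obtain ⟨n, ⟨e⟩⟩ := h
  exact PD.iso e.symm (hc n)

theorem Fr.std (n : ℕ) : Fr W (Fin n → L ⧸ Ideal.span {W}) := ⟨n, ⟨LinearEquiv.refl _ _⟩⟩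

theorem Fr.prod {F F' : Type} [AddCommGroup F] [Module L F] [AddCommGroup F'] [Module L F'] (h : Fr W F) (h' : Fr W F') :
    Fr W (F × F') := by
  obtain ⟨m, ⟨e⟩⟩ := h
  obtain ⟨n, ⟨e'⟩⟩ := h'
  exact ⟨m + n, ⟨(e.prodCongr e').trans ((LinearEquiv.sumArrowLequivProdArrow (Fin m) (Fin n) L _).symm.trans
    (LinearEquiv.funCongrLeft L _ finSumFinEquiv.symm))⟩⟩

/-- the map `L / W → M` with value `m` at `1` -/
def uu {M : Type} [AddCommGroup M] [Module L M] (m : M) (hm : W • m = 0) : (L ⧸ Ideal.span {W}) →ₗ[L] M :=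
  Submodule.liftQ (Ideal.span {W}) (LinearMap.toSpanSingleton L M m) (by
    rw [Ideal.span, Submodule.span_le]
    intro x hx
    rw [Set.mem_singleton_iff] at hx
    rw [hx, SetLike.mem_coe, LinearMap.mem_ker, LinearMap.toSpanSingleton_apply, hm])

theorem uu_one {M : Type} [AddCommGroup M] [Module L M] (m : M) (hm : W • m = 0) : uu m hm 1 = m := by
  show Submodule.liftQ (Ideal.span {W}) (LinearMap.toSpanSingleton L M m) _ (Submodule.Quotient.mk 1) = m
  rw [Submodule.liftQ_apply, LinearMap.toSpanSingleton_apply, one_smul]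

def qq {M : Type} [AddCommGroup M] [Module L M] (hM : KW W M) {n : ℕ} (s : Fin n → M) :
    (Fin n → L ⧸ Ideal.span {W}) →ₗ[L] M :=
  ∑ i, (uu (s i) (hM (s i))) ∘ₗ LinearMap.proj i

theorem qq_single {M : Type} [AddCommGroup M] [Module L M] (hM : KW W M) {n : ℕ} (s : Fin n → M) (i : Fin n) :
    qq hM s (Pi.single i 1) = s i := by
  rw [qq, LinearMap.sum_apply, Finset.sum_eq_single i]
  · rw [LinearMap.comp_apply, LinearMap.proj_apply, Pi.single_eq_same, uu_one]
  · intro j _ hj
    rw [LinearMap.comp_apply, LinearMap.proj_apply, Pi.single_eq_of_ne hj, map_zero]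
  · intro h
    exact absurd (Finset.mem_univ i) h

theorem ext_single {C : Type} [AddCommGroup C] [Module L C] {n : ℕ} (f g : (Fin n → L ⧸ Ideal.span {W}) →ₗ[L] C)
    (h : ∀ i, f (Pi.single i 1) = g (Pi.single i 1)) : f = g := by
  apply LinearMap.pi_ext'
  intro i
  apply Submodule.linearMap_qext
  apply LinearMap.ext_ring
  exact h i

theorem exq {M : Type} [AddCommGroup M] [Module L M] (hf : Module.Finite L M) (hM : KW W M) :
    ∃ (n : ℕ) (q : (Fin n → L ⧸ Ideal.span {W}) →ₗ[L] M), Function.Surjective q := by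
  obtain ⟨n, s, hs⟩ := Module.Finite.exists_fin (R := L) (M := M)
  refine ⟨n, qq hM s, ?_⟩
  rw [← LinearMap.range_eq_top, eq_top_iff, ← hs, Submodule.span_le]
  rintro _ ⟨i, rfl⟩
  exact ⟨Pi.single i 1, qq_single hM s i⟩

theorem Fr.lift {F : Type} [AddCommGroup F] [Module L F] (h : Fr W F) {M C : Type} [AddCommGroup M] [Module L M]
    [AddCommGroup C] [Module L C] (hM : KW W M) (p : M →ₗ[L] C) (hp : Function.Surjective p) (g : F →ₗ[L] C) :
    ∃ l : F →ₗ[L] M, ∀ x, p (l x) = g x := by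
  obtain ⟨n, ⟨e⟩⟩ := h
  choose m hm using fun i : Fin n => hp (g (e.symm (Pi.single i 1)))
  have h1 : p ∘ₗ qq hM m = g ∘ₗ e.symm.toLinearMap := by
    apply ext_single
    intro i
    rw [LinearMap.comp_apply, qq_single, hm]
    rfl
  refine ⟨qq hM m ∘ₗ e.toLinearMap, fun x => ?_⟩
  have h2 := LinearMap.congr_fun h1 (e x)
  rw [LinearMap.comp_apply, LinearMap.comp_apply] at h2
  rw [LinearMap.comp_apply]
  refine Eq.trans h2 ?_
  show g (e.symm (e x)) = g x
  rw [LinearEquiv.symm_apply_apply]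

section

variable {V : Type} [AddCommGroup V] {j : ℕ} (Φ : AFj L W j V)

theorem AFj_prod {M N : Type} [AddCommGroup M] [Module L M] [AddCommGroup N] [Module L N] (hM : Module.Finite L M)
    (hN : Module.Finite L N) (hk : KW W M) (hk' : KW W N) (h1 : PD L j M) (h2 : PD L j (M × N)) (h3 : PD L j N) :
    Φ.f (M × N) = Φ.f M + Φ.f N :=
  Φ.add M (M × N) N (LinearMap.inl L M N) (LinearMap.snd L M N) inferInstance
    (fun x => Prod.ext (hk x.1) (hk' x.2)) h1 h2 h3 LinearMap.inl_injective Prod.snd_surjective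
    (Function.Exact.inl_snd)

theorem phi_free (hc : ∀ n : ℕ, PD L j (Fin n → L ⧸ Ideal.span {W})) (h0 : Φ.f (L ⧸ Ideal.span {W}) = 0)
    (hq : PD L j (L ⧸ Ideal.span {W})) (n : ℕ) : Φ.f (Fin n → L ⧸ Ideal.span {W}) = 0 := by
  have hk : KW W (L ⧸ Ideal.span {W}) := KW.quot _ (Ideal.mem_span_singleton_self W)
  induction n with
  | zero =>
    have e : (Fin 0 → L ⧸ Ideal.span {W}) ≃ₗ[L] PUnit :=
      { toFun := fun _ => PUnit.unit, map_add' := fun _ _ => rfl, map_smul' := fun _ _ => rfl, invFun := fun _ => 0,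
        left_inv := fun a => Subsingleton.elim _ _, right_inv := fun a => rfl }
    rw [Φ.iso e inferInstance (hk.pi _) (hc 0), Φ.punit]
  | succ n ih =>
    have hp : PD L j ((L ⧸ Ideal.span {W}) × (Fin n → L ⧸ Ideal.span {W})) :=
      PD.iso (Fin.consLinearEquiv L (fun _ : Fin (n + 1) => L ⧸ Ideal.span {W})).symm (hc (n + 1))
    rw [← Φ.iso (Fin.consLinearEquiv L (fun _ : Fin (n + 1) => L ⧸ Ideal.span {W})) inferInstance
      (fun x => Prod.ext (hk x.1) ((hk.pi _) x.2)) hp, AFj_prod Φ inferInstance inferInstance hk (hk.pi _) hq hp (hc n), h0,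
      ih, add_zero]

theorem phi_fr (hc : ∀ n : ℕ, PD L j (Fin n → L ⧸ Ideal.span {W})) (h0 : Φ.f (L ⧸ Ideal.span {W}) = 0)
    (hq : PD L j (L ⧸ Ideal.span {W})) {F : Type} [AddCommGroup F] [Module L F] (h : Fr W F) : Φ.f F = 0 := by
  obtain ⟨n, ⟨e⟩⟩ := h
  rw [← Φ.iso e.symm inferInstance ((KW.quot _ (Ideal.mem_span_singleton_self W)).pi _) (hc n),
    phi_free Φ hc h0 hq n]

end

/-- one half of Schanuel: the pullback -/
theorem half (hPd : S_Pd) (hL : IsNoetherianRing L) {V : Type} [AddCommGroup V] {j : ℕ} (Φ : AFj L W j V)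
    {M F F' : Type} [AddCommGroup M] [Module L M] [AddCommGroup F] [Module L F] [AddCommGroup F'] [Module L F']
    (hF : Module.Finite L F) (hF' : Module.Finite L F') (kF : KW W F) (kF' : KW W F')
    (pF : PD L j F) (pF' : PD L j F') (pM : PD L (j + 1) M) (q : F →ₗ[L] M) (q' : F' →ₗ[L] M)
    (hq' : Function.Surjective q') (z : Φ.f F = 0) :
    Φ.f (LinearMap.ker (LinearMap.coprod q (-q'))) = Φ.f (LinearMap.ker q') := by
  have hex : Function.Exact (LinearMap.ker q').subtype q' := LinearMap.exact_subtype_ker_map q'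
  have pK' : PD L j (LinearMap.ker q') :=
    ((hPd L).1 j _ _ _ (LinearMap.ker q').subtype q' (LinearMap.ker q').injective_subtype hq' hex).2.1 pF' pM
  let i : LinearMap.ker q' →ₗ[L] LinearMap.ker (LinearMap.coprod q (-q')) :=
    LinearMap.codRestrict _ ((LinearMap.inr L F F') ∘ₗ (LinearMap.ker q').subtype) (by
      intro x
      rw [LinearMap.mem_ker]
      simp)
  let p : LinearMap.ker (LinearMap.coprod q (-q')) →ₗ[L] F :=
    (LinearMap.fst L F F') ∘ₗ (LinearMap.ker (LinearMap.coprod q (-q'))).subtype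
  have hi : Function.Injective i := by
    intro x y hxy
    have h1 : ((i x : F × F')).2 = ((i y : F × F')).2 := by rw [hxy]
    exact Subtype.ext h1
  have hp : Function.Surjective p := by
    intro x
    obtain ⟨y, hy⟩ := hq' (q x)
    exact ⟨⟨(x, y), by rw [LinearMap.mem_ker]; simp [hy]⟩, rfl⟩
  have hx : Function.Exact i p := by
    rintro ⟨⟨x, y⟩, hxy⟩
    constructor
    · intro h
      have h1 : x = 0 := h
      have h2 : q' y = 0 := by
        rw [LinearMap.mem_ker] at hxy
        simp only [LinearMap.coprod_apply, LinearMap.neg_apply] at hxy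
        rw [h1, map_zero, zero_add, neg_eq_zero] at hxy
        exact hxy
      exact ⟨⟨y, h2⟩, Subtype.ext (Prod.ext h1.symm rfl)⟩
    · rintro ⟨a, ha⟩
      rw [← ha]
      rfl
  have hn : IsNoetherian L (F × F') := isNoetherian_of_isNoetherianRing_of_finite L (F × F')
  have hfin : Module.Finite L (LinearMap.ker (LinearMap.coprod q (-q'))) := Module.IsNoetherian.finite L _
  have hkw : KW W (LinearMap.ker (LinearMap.coprod q (-q'))) :=
    KW.of_inj (N := F × F') (fun x => Prod.ext (kF x.1) (kF' x.2)) (Submodule.subtype _)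
      (Submodule.injective_subtype _)
  have pQ : PD L j (LinearMap.ker (LinearMap.coprod q (-q'))) := ((hPd L).1 j _ _ _ i p hi hp hx).1 pK' pF
  rw [Φ.add _ _ _ i p hfin hkw pK' pQ pF hi hp hx, z, add_zero]

/-- the other half of Schanuel -/
theorem half' (hPd : S_Pd) (hL : IsNoetherianRing L) {V : Type} [AddCommGroup V] {j : ℕ} (Φ : AFj L W j V)
    {M F F' : Type} [AddCommGroup M] [Module L M] [AddCommGroup F] [Module L F] [AddCommGroup F'] [Module L F']
    (hF : Module.Finite L F) (hF' : Module.Finite L F') (kF : KW W F) (kF' : KW W F')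
    (pF : PD L j F) (pF' : PD L j F') (pM : PD L (j + 1) M) (q : F →ₗ[L] M) (q' : F' →ₗ[L] M)
    (hq : Function.Surjective q) (z : Φ.f F' = 0) :
    Φ.f (LinearMap.ker (LinearMap.coprod q (-q'))) = Φ.f (LinearMap.ker q) := by
  have hex : Function.Exact (LinearMap.ker q).subtype q := LinearMap.exact_subtype_ker_map q
  have pK : PD L j (LinearMap.ker q) :=
    ((hPd L).1 j _ _ _ (LinearMap.ker q).subtype q (LinearMap.ker q).injective_subtype hq hex).2.1 pF pM
  let i : LinearMap.ker q →ₗ[L] LinearMap.ker (LinearMap.coprod q (-q')) :=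
    LinearMap.codRestrict _ ((LinearMap.inl L F F') ∘ₗ (LinearMap.ker q).subtype) (by
      intro x
      rw [LinearMap.mem_ker]
      simp)
  let p : LinearMap.ker (LinearMap.coprod q (-q')) →ₗ[L] F' :=
    (LinearMap.snd L F F') ∘ₗ (LinearMap.ker (LinearMap.coprod q (-q'))).subtype
  have hi : Function.Injective i := by
    intro x y hxy
    have h1 : ((i x : F × F')).1 = ((i y : F × F')).1 := by rw [hxy]
    exact Subtype.ext h1
  have hp : Function.Surjective p := by
    intro y
    obtain ⟨x, hx⟩ := hq (q' y)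
    exact ⟨⟨(x, y), by rw [LinearMap.mem_ker]; simp [hx]⟩, rfl⟩
  have hx : Function.Exact i p := by
    rintro ⟨⟨x, y⟩, hxy⟩
    constructor
    · intro h
      have h1 : y = 0 := h
      have h2 : q x = 0 := by
        rw [LinearMap.mem_ker] at hxy
        simp only [LinearMap.coprod_apply, LinearMap.neg_apply] at hxy
        rw [h1, map_zero, neg_zero, add_zero] at hxy
        exact hxy
      exact ⟨⟨x, h2⟩, Subtype.ext (Prod.ext rfl h1.symm)⟩
    · rintro ⟨a, ha⟩
      rw [← ha]
      rfl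
  have hn : IsNoetherian L (F × F') := isNoetherian_of_isNoetherianRing_of_finite L (F × F')
  have hfin : Module.Finite L (LinearMap.ker (LinearMap.coprod q (-q'))) := Module.IsNoetherian.finite L _
  have hkw : KW W (LinearMap.ker (LinearMap.coprod q (-q'))) :=
    KW.of_inj (N := F × F') (fun x => Prod.ext (kF x.1) (kF' x.2)) (Submodule.subtype _)
      (Submodule.injective_subtype _)
  have pQ : PD L j (LinearMap.ker (LinearMap.coprod q (-q'))) := ((hPd L).1 j _ _ _ i p hi hp hx).1 pK pF'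
  rw [Φ.add _ _ _ i p hfin hkw pK pQ pF' hi hp hx, z, add_zero]

/-- independence of the presentation -/
theorem sch (hPd : S_Pd) (hL : IsNoetherianRing L) {V : Type} [AddCommGroup V] {j : ℕ} (Φ : AFj L W j V)
    (hc : ∀ n : ℕ, PD L j (Fin n → L ⧸ Ideal.span {W})) (h0 : Φ.f (L ⧸ Ideal.span {W}) = 0)
    (hq0 : PD L j (L ⧸ Ideal.span {W}))
    {M F F' : Type} [AddCommGroup M] [Module L M] [AddCommGroup F] [Module L F] [AddCommGroup F'] [Module L F']
    (pM : PD L (j + 1) M) (hF : Fr W F) (hF' : Fr W F') (q : F →ₗ[L] M) (q' : F' →ₗ[L] M)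
    (hq : Function.Surjective q) (hq' : Function.Surjective q') :
    Φ.f (LinearMap.ker q) = Φ.f (LinearMap.ker q') := by
  have pF : PD L j F := by
    obtain ⟨n, ⟨e⟩⟩ := hF
    exact PD.iso e.symm (hc n)
  have pF' : PD L j F' := by
    obtain ⟨n, ⟨e⟩⟩ := hF'
    exact PD.iso e.symm (hc n)
  rw [← half' hPd hL Φ hF.fin hF'.fin hF.kw hF'.kw pF pF' pM q q' hq (phi_fr Φ hc h0 hq0 hF'),
    half hPd hL Φ hF.fin hF'.fin hF.kw hF'.kw pF pF' pM q q' hq' (phi_fr Φ hc h0 hq0 hF)]

end Ext_aux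

open Ext_aux in
/-- **Ext**. Dimension shift. -/
theorem tExt : S_Pd → S_Ckb → S_Ext := by
  intro hPd hCkb L _ W V _ j Φ hL hW hj h0
  classical
  have hc1 : ∀ n : ℕ, PD L 1 (Fin n → L ⧸ Ideal.span {W}) := (hCkb L W hW).2.1
  have hc : ∀ n : ℕ, PD L j (Fin n → L ⧸ Ideal.span {W}) := fun n => (hPd L).2.2.1 1 j _ hj (hc1 n)
  have hq0 : PD L j (L ⧸ Ideal.span {W}) :=
    PD.iso (LinearEquiv.funUnique (Fin 1) L (L ⧸ Ideal.span {W})) (hc 1)
  let g : (M : Type) → [AddCommGroup M] → [Module L M] → V := fun M _ _ =>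
    if h : Module.Finite L M ∧ KW W M then -Φ.f (LinearMap.ker (exq h.1 h.2).choose_spec.choose) else 0
  have key : ∀ (M : Type) [AddCommGroup M] [Module L M], Module.Finite L M → KW W M → PD L (j + 1) M →
      ∀ (F : Type) [AddCommGroup F] [Module L F], Fr W F → ∀ q : F →ₗ[L] M, Function.Surjective q →
      g M = -Φ.f (LinearMap.ker q) := by
    intro M _ _ hf hk hp F _ _ hF q hq
    have h : Module.Finite L M ∧ KW W M := ⟨hf, hk⟩
    have e1 : g M = -Φ.f (LinearMap.ker (exq h.1 h.2).choose_spec.choose) := dif_pos h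
    rw [e1, sch hPd hL Φ hc h0 hq0 hp (Fr.std _) hF _ q (exq h.1 h.2).choose_spec.choose_spec hq]
  have pdk : ∀ (M : Type) [AddCommGroup M] [Module L M], PD L (j + 1) M →
      ∀ (F : Type) [AddCommGroup F] [Module L F], Fr W F → ∀ q : F →ₗ[L] M, Function.Surjective q →
      PD L j (LinearMap.ker q) := by
    intro M _ _ hp F _ _ hF q hq
    have pF : PD L j F := by
      obtain ⟨n, ⟨e⟩⟩ := hF
      exact PD.iso e.symm (hc n)
    exact ((hPd L).1 j _ _ _ (LinearMap.ker q).subtype q (LinearMap.ker q).injective_subtype hq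
      (LinearMap.exact_subtype_ker_map q)).2.1 pF hp
  refine ⟨⟨g, ?_⟩, ?_⟩
  · intro A B C _ _ _ _ _ _ i p hB kB pA pB pC hi hp hx
    have nB : IsNoetherian L B := isNoetherian_of_isNoetherianRing_of_finite L B
    have hA : Module.Finite L A := Module.Finite.of_injective i hi
    have hC : Module.Finite L C := Module.Finite.of_surjective p hp
    have kA : KW W A := kB.of_inj i hi
    have kC : KW W C := kB.of_surj p hp
    obtain ⟨m, q1, hq1⟩ := exq hA kA
    obtain ⟨n, q2, hq2⟩ := exq hC kC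
    obtain ⟨l, hl⟩ := (Fr.std n).lift kB p hp q2
    let q : ((Fin m → L ⧸ Ideal.span {W}) × (Fin n → L ⧸ Ideal.span {W})) →ₗ[L] B :=
      LinearMap.coprod (i ∘ₗ q1) l
    have hpi : ∀ a, p (i a) = 0 := fun a => (hx (i a)).2 ⟨a, rfl⟩
    have hq : Function.Surjective q := by
      intro b
      obtain ⟨y, hy⟩ := hq2 (p b)
      have h1 : p (b - l y) = 0 := by rw [map_sub, hl, hy, sub_self]
      obtain ⟨a, ha⟩ := (hx _).1 h1
      obtain ⟨x, hxx⟩ := hq1 a
      refine ⟨(x, y), ?_⟩
      show i (q1 x) + l y = b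
      rw [hxx, ha, sub_add_cancel]
    have hFr : Fr W ((Fin m → L ⧸ Ideal.span {W}) × (Fin n → L ⧸ Ideal.span {W})) := (Fr.std m).prod (Fr.std n)
    rw [show g B = -Φ.f (LinearMap.ker q) from key B hB kB pB _ hFr q hq,
      show g A = -Φ.f (LinearMap.ker q1) from key A hA kA pA _ (Fr.std m) q1 hq1,
      show g C = -Φ.f (LinearMap.ker q2) from key C hC kC pC _ (Fr.std n) q2 hq2]
    let i' : LinearMap.ker q1 →ₗ[L] LinearMap.ker q :=
      LinearMap.codRestrict _ ((LinearMap.inl L _ _) ∘ₗ (LinearMap.ker q1).subtype) (by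
        intro x
        rw [LinearMap.mem_ker]
        show i (q1 x) + l 0 = 0
        rw [LinearMap.mem_ker.1 x.2, map_zero, map_zero, add_zero])
    let p' : LinearMap.ker q →ₗ[L] LinearMap.ker q2 :=
      LinearMap.codRestrict _ ((LinearMap.snd L _ _) ∘ₗ (LinearMap.ker q).subtype) (by
        intro x
        rw [LinearMap.mem_ker]
        show q2 (x : (Fin m → L ⧸ Ideal.span {W}) × (Fin n → L ⧸ Ideal.span {W})).2 = 0
        have h1 : i (q1 (x : (Fin m → L ⧸ Ideal.span {W}) × (Fin n → L ⧸ Ideal.span {W})).1) +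
          l (x : (Fin m → L ⧸ Ideal.span {W}) × (Fin n → L ⧸ Ideal.span {W})).2 = 0 := LinearMap.mem_ker.1 x.2
        have h2 := congrArg p h1
        rw [map_add, hpi, zero_add, hl, map_zero] at h2
        exact h2)
    have hi' : Function.Injective i' := by
      intro x y hxy
      have h1 : ((i' x : (Fin m → L ⧸ Ideal.span {W}) × (Fin n → L ⧸ Ideal.span {W}))).1 =
        ((i' y : (Fin m → L ⧸ Ideal.span {W}) × (Fin n → L ⧸ Ideal.span {W}))).1 := by rw [hxy]
      exact Subtype.ext h1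
    have hp' : Function.Surjective p' := by
      rintro ⟨y, hy⟩
      have h1 : p (l y) = 0 := by rw [hl]; exact hy
      obtain ⟨a, ha⟩ := (hx _).1 h1
      obtain ⟨x, hxx⟩ := hq1 a
      refine ⟨⟨(-x, y), ?_⟩, rfl⟩
      rw [LinearMap.mem_ker]
      show i (q1 (-x)) + l y = 0
      rw [map_neg, map_neg, hxx, ha, neg_add_cancel]
    have hx' : Function.Exact i' p' := by
      rintro ⟨⟨x, y⟩, hxy⟩
      constructor
      · intro h
        have h1 : y = 0 := congrArg Subtype.val h
        have h2 : i (q1 x) + l y = 0 := hxy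
        have h3 : q1 x = 0 := by
          apply hi
          rw [h1, map_zero, add_zero] at h2
          rw [h2, map_zero]
        exact ⟨⟨x, h3⟩, Subtype.ext (Prod.ext rfl h1.symm)⟩
      · rintro ⟨a, ha⟩
        rw [← ha]
        rfl
    have nF : IsNoetherian L ((Fin m → L ⧸ Ideal.span {W}) × (Fin n → L ⧸ Ideal.span {W})) :=
      isNoetherian_of_isNoetherianRing_of_finite L _
    have fK : Module.Finite L (LinearMap.ker q) := Module.IsNoetherian.finite L _
    have kK : KW W (LinearMap.ker q) := KW.of_inj hFr.kw (Submodule.subtype _) (Submodule.injective_subtype _)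
    rw [Φ.add _ _ _ i' p' fK kK (pdk A pA _ (Fr.std m) q1 hq1) (pdk B pB _ hFr q hq)
      (pdk C pC _ (Fr.std n) q2 hq2) hi' hp' hx', neg_add]
  · intro M _ _ hM kM pM
    have pM' : PD L (j + 1) M := (hPd L).2.2.1 j (j + 1) M (Nat.le_succ j) pM
    obtain ⟨n, q, hq⟩ := exq hM kM
    show g M = Φ.f M
    rw [key M hM kM pM' _ (Fr.std n) q hq]
    have h1 := Φ.add _ _ _ (LinearMap.ker q).subtype q (Fr.std n).fin (Fr.std n).kw
      (pdk M pM' _ (Fr.std n) q hq) (hc n) pM (LinearMap.ker q).injective_subtype hq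
      (LinearMap.exact_subtype_ker_map q)
    rw [phi_fr Φ hc h0 hq0 (Fr.std n)] at h1
    rw [neg_eq_iff_add_eq_zero]
    exact h1.symm

end Pool.Agent.QV
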