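import Pool.Agent.Lib.MP_b53bfe_ag.Q.SpecP

/-!
# Disproof of Q1 of MP_b53bfe_ag for quintic threefolds: final theorem, phase 1 (helper92)
-/

set_option autoImplicit false

noncomputable section

namespace Pool.Agent.QV

open Matrix
open MvPolynomial
open Pool.Agent.FY (Res)

/-- there is a smooth quintic threefold for which the class of the small diagonal is not in the span -/
theorem tF1 : S_ParC → S_Mn → S_Gk → S_Smo → S_fQh → S_Rh → S_F1 := by
  intro hpc hmn hgk hsmo hfq _h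
  obtain ⟨a, D, κ, 𝒪, h1, h2, h3⟩ := hpc
  obtain ⟨hf, -⟩ := hfq ℂ a
  obtain ⟨E, i1, i2, χ, c1, c2, c3, c4⟩ := hmn ℂ a D κ 𝒪 h1 h2 h3
  exact ⟨fQ a, hf, hsmo ℂ a 𝒪 h3, hgk ℂ a hf E χ h3.A0 c1 c2 c3 c4⟩

end Pool.Agent.QV
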