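import Pool.Agent.Lib.MP_b53bfe_ag.Q.SpecE

/-!
# Disproof of Q1 of MP_b53bfe_ag, module Fin: the slot map is finite (helper61)
-/

set_option autoImplicit false

noncomputable section

namespace Pool.Agent.QV

open Matrix
open MvPolynomial
open Pool.Agent.FY (Res)

namespace Fin_aux

theorem res_fin {R T : Type} [CommRing R] [CommRing T] (φ : R →+* T) (hφ : φ.Finite) (M : Type)
    [AddCommGroup M] [Module T M] (hM : Module.Finite T M) : Module.Finite R (Res φ M) := by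
  let _ : Algebra R T := φ.toAlgebra
  let _ : Module R M := Module.compHom M φ
  have _ : IsScalarTower R T M := ⟨fun r t m => by
    change (φ r * t) • m = φ r • (t • m)
    rw [mul_smul]⟩
  have _ : Module.Finite R T := hφ
  exact Module.Finite.trans T M

variable {K : Type} [Field K] (a : Par K)

theorem r00 : rho a (X (0, 0)) = X (0, 1) := by
  unfold rho
  rw [aeval_X]
  simp

theorem r01 : rho a (X (0, 1)) = Rf a (X (0, 0)) (X (0, 1)) (X (0, 2)) (X (0, 4)) := by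
  unfold rho
  rw [aeval_X]
  simp

theorem r02 : rho a (X (0, 2)) = X (0, 2) := by
  unfold rho
  rw [aeval_X]
  simp

theorem r03 : rho a (X (0, 3)) = X (0, 3) := by
  unfold rho
  rw [aeval_X]
  simp

theorem r04 : rho a (X (0, 4)) = uf a (X (0, 0)) (X (0, 2)) (X (0, 4)) := by
  unfold rho
  rw [aeval_X]
  simp

theorem r1 (i : Fin 3) (hi : i ≠ 0) (j : Fin 5) : rho a (X (i, j)) = X (i, j) := by
  unfold rho
  rw [aeval_X]
  simp [hi]

theorem rC (x : K) : rho a (C x) = C x := (rho a).commutes x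

theorem rf (i : Fin 3) (hi : i ≠ 0) : rho a (fS a i) = fS a i := by
  unfold fS ff Rf uf
  have h5 : rho a 5 = 5 := map_ofNat (rho a) 5
  simp only [Fin.sum_univ_five, Rj, algebraMap_eq]
  simp [r1 a i hi, h5]

theorem Rf_eq (p x y q : PP K) : Rf a p x y q = C (a.A ^ 2) * (p ^ 2 * q ^ 2) + C a.A * x ^ 4 +
    (C (a.t 0) * (x * y ^ 3) + C (a.t 1) * (x ^ 2 * (p ^ 2 + q ^ 2)) +
      C (a.t 2) * (y ^ 2 * (p ^ 2 + q ^ 2)) + C (a.t 3) * (x ^ 2 * (p ^ 2 - q ^ 2)) +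
      C (a.t 4) * (p ^ 2 - q ^ 2) ^ 2) := by
  unfold Rf
  simp only [Fin.sum_univ_five, Rj, algebraMap_eq]
  rfl

/-- The polynomial `X ^ 4 + β X ^ 2 + γ` is monic. -/
theorem int4 {x β γ : PP K} (h : x ^ 4 + rho a β * x ^ 2 + rho a γ = 0) :
    (rho a).toRingHom.IsIntegralElem x := by
  refine ⟨Polynomial.X ^ 4 + Polynomial.C β * Polynomial.X ^ 2 + Polynomial.C γ, ?_, ?_⟩
  · monicity!
  · rw [Polynomial.eval₂_add, Polynomial.eval₂_add, Polynomial.eval₂_mul, Polynomial.eval₂_pow,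
      Polynomial.eval₂_pow, Polynomial.eval₂_X, Polynomial.eval₂_C, Polynomial.eval₂_C]
    exact h

theorem intp (hA : a.A ≠ 0) : (rho a).toRingHom.IsIntegralElem (X (0, 0)) := by
  have hB : (C (a.A ^ 2)⁻¹ : PP K) * C (a.A ^ 2) = 1 := by
    rw [← C_mul, inv_mul_cancel₀ (pow_ne_zero 2 hA), C_1]
  refine int4 a (β := C (a.A ^ 2)⁻¹ * (-(C (a.A ^ 2) * (X (0, 4) - C a.c * X (0, 2) ^ 2)) +
      2 * (C (a.t 1) * X (0, 0) ^ 2) + 2 * (C (a.t 2) * X (0, 2) ^ 2)))
    (γ := C (a.A ^ 2)⁻¹ * (C a.A * X (0, 0) ^ 4 + C (a.t 0) * (X (0, 0) * X (0, 2) ^ 3) -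
      C (a.t 1) * (X (0, 0) ^ 2 * (X (0, 4) - C a.c * X (0, 2) ^ 2)) -
      C (a.t 2) * (X (0, 2) ^ 2 * (X (0, 4) - C a.c * X (0, 2) ^ 2)) +
      C (a.t 3) * (X (0, 0) ^ 2 * (X (0, 4) - C a.c * X (0, 2) ^ 2)) +
      C (a.t 4) * (X (0, 4) - C a.c * X (0, 2) ^ 2) ^ 2 - X (0, 1))) ?_
  simp only [map_add, map_sub, map_mul, map_neg, map_pow, map_ofNat, rC, r00, r01, r02, r04, Rf_eq, uf,
    algebraMap_eq] at hB ⊢
  linear_combination (-(X (0, 0) ^ 4 : PP K)) * hB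

theorem intq (hA : a.A ≠ 0) : (rho a).toRingHom.IsIntegralElem (X (0, 4)) := by
  have hB : (C (a.A ^ 2)⁻¹ : PP K) * C (a.A ^ 2) = 1 := by
    rw [← C_mul, inv_mul_cancel₀ (pow_ne_zero 2 hA), C_1]
  refine int4 a (β := C (a.A ^ 2)⁻¹ * (C (a.A ^ 2) * (X (0, 4) - C a.c * X (0, 2) ^ 2) +
      2 * (C (a.t 1) * X (0, 0) ^ 2) + 2 * (C (a.t 2) * X (0, 2) ^ 2)))
    (γ := C (a.A ^ 2)⁻¹ * (C a.A * X (0, 0) ^ 4 + C (a.t 0) * (X (0, 0) * X (0, 2) ^ 3) +
      C (a.t 1) * (X (0, 0) ^ 2 * (X (0, 4) - C a.c * X (0, 2) ^ 2)) +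
      C (a.t 2) * (X (0, 2) ^ 2 * (X (0, 4) - C a.c * X (0, 2) ^ 2)) +
      C (a.t 3) * (X (0, 0) ^ 2 * (X (0, 4) - C a.c * X (0, 2) ^ 2)) +
      C (a.t 4) * (X (0, 4) - C a.c * X (0, 2) ^ 2) ^ 2 - X (0, 1))) ?_
  simp only [map_add, map_sub, map_mul, map_neg, map_pow, map_ofNat, rC, r00, r01, r02, r04, Rf_eq, uf,
    algebraMap_eq] at hB ⊢
  linear_combination (-(X (0, 4) ^ 4 : PP K)) * hB

theorem intX (hA : a.A ≠ 0) (v : Fin 3 × Fin 5) : (rho a).toRingHom.IsIntegralElem (X v) := by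
  have him : ∀ x y : PP K, rho a y = x → (rho a).toRingHom.IsIntegralElem x := by
    rintro x y rfl
    exact (rho a).toRingHom.isIntegralElem_map
  obtain ⟨i, j⟩ := v
  by_cases hi : i = 0
  · subst hi
    fin_cases j
    · exact intp a hA
    · exact him _ _ (r00 a)
    · exact him _ _ (r02 a)
    · exact him _ _ (r03 a)
    · exact intq a hA
  · exact him _ _ (r1 a i hi j)

theorem integral (hA : a.A ≠ 0) : (rho a).toRingHom.IsIntegral := by
  intro x
  induction x using MvPolynomial.induction_on with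
  | C r =>
    have h : rho a (C r) = C r := rC a r
    rw [← h]
    exact (rho a).toRingHom.isIntegralElem_map
  | add p q hp hq => exact RingHom.IsIntegralElem.add _ hp hq
  | mul_X p v hp => exact RingHom.IsIntegralElem.mul _ hp (intX a hA v)

theorem finty : (rho a).toRingHom.FiniteType := by
  have h1 : ((rho a).toRingHom.comp (algebraMap K (PP K))).FiniteType := by
    have h2 : (rho a).toRingHom.comp (algebraMap K (PP K)) = algebraMap K (PP K) :=
      (rho a).comp_algebraMap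
    rw [h2]
    exact (RingHom.finiteType_algebraMap).2 inferInstance
  exact RingHom.FiniteType.of_comp_finiteType h1

end Fin_aux

open Fin_aux in
/-- **Fin**. The slot map is finite. -/
theorem tFin : S_Fin := by
  intro K _ a hA
  have hfin : (rho a).toRingHom.Finite :=
    RingHom.finite_iff_isIntegral_and_finiteType.2 ⟨integral a hA, finty a⟩
  refine ⟨hfin, ?_, fun M _ _ hM => res_fin _ hfin M hM⟩
  unfold WW
  rw [map_add, map_add, map_sub, map_add, map_add, rf a 1 (by decide), rf a 2 (by decide), map_mul,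
    map_pow, map_pow, map_mul, map_mul, map_pow, map_ofNat, r00, r01, r02, r03, r04]
  have h0 : fS a 0 = X (0, 3) ^ 5 + X (0, 1) * Rf a (X (0, 0)) (X (0, 1)) (X (0, 2)) (X (0, 4)) +
      X (0, 2) ^ 5 - 5 * X (0, 2) * uf a (X (0, 0)) (X (0, 2)) (X (0, 4)) ^ 2 := rfl
  rw [h0]
  generalize (Rf a (X (0, 0)) (X (0, 1)) (X (0, 2)) (X (0, 4)) : PP K) = r
  generalize (uf a (X (0, 0)) (X (0, 2)) (X (0, 4)) : PP K) = u
  generalize fS a 1 = f1
  generalize fS a 2 = f2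
  ring

end Pool.Agent.QV
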