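import Pool.Agent.Lib.MP_b53bfe_ag.Q.SpecG

/-!
# Disproof of Q1 of MP_b53bfe_ag for quintic threefolds: the final equation of Part G
-/

set_option autoImplicit false

noncomputable section

namespace Pool.Agent.QV

open Matrix MvPolynomial TensorProduct
open Pool.Agent.FY (Res)

namespace GG_aux

theorem XtDc (hDW : S_DW) (hX1 : S_X1) {K : Type} [Field K] [CharZero K] {a : Par K} {D : Fin 6 → Derivation ℤ K K}
    (hD : IsDer a D) (i : Fin 6) (F : PP K) :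
    Xt K (Dc (D i) (WW a) * F) = (GG a i ⊗ₜ[K] (1 : S4 K) + (1 : S4 K) ⊗ₜ[K] GG a i) * Xt K F := by
  rw [hDW K a D hD i, add_mul, map_add, (hX1 K (GG a i) F).1, (hX1 K (GG a i) F).2, ← add_mul]

theorem detk (hNv : S_Nv) (hX3 : S_X3) {K : Type} [Field K] [CharZero K] {a : Par K} {D : Fin 6 → Derivation ℤ K K}
    (hD : IsDer a D) {κ : K} (hκ : κ ^ 5 = 1 - 5 * a.c ^ 2) (h0 : κ ≠ 0) (i j r : Fin 6) (hij : i < j) (hjr : j < r) :
    Xt K (Matrix.of fun s r' : Fin 3 => NN a D κ s ((![i, j, r] : Fin 3 → Fin 6) r')).det =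
      (-500000 : K) • FF a i j r := by
  obtain ⟨_, _, hz, _⟩ := hNv K a D κ hD hκ h0
  obtain ⟨j, rfl⟩ := Fin.exists_succ_eq.mpr (Fin.ne_zero_of_lt hij)
  obtain ⟨r, rfl⟩ := Fin.exists_succ_eq.mpr (Fin.ne_zero_of_lt hjr)
  rw [Matrix.det_fin_three]
  simp only [Matrix.of_apply, Matrix.cons_val_zero, Matrix.cons_val_one, Matrix.cons_val, hz]
  rcases eq_or_ne i 0 with rfl | hi
  · have e : NN a D κ 0 0 * NN a D κ 1 j.succ * NN a D κ 2 r.succ - NN a D κ 0 0 * NN a D κ 1 r.succ * NN a D κ 2 j.succ -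
          0 * NN a D κ 1 0 * NN a D κ 2 r.succ + 0 * NN a D κ 1 r.succ * NN a D κ 2 0 + 0 * NN a D κ 1 0 * NN a D κ 2 j.succ -
          0 * NN a D κ 1 j.succ * NN a D κ 2 0 =
        NN a D κ 0 0 * NN a D κ 1 j.succ * NN a D κ 2 r.succ - NN a D κ 0 0 * NN a D κ 1 r.succ * NN a D κ 2 j.succ := by
      ring
    rw [e, map_sub, hX3 K a D κ hD hκ h0 j r, hX3 K a D κ hD hκ h0 r j, FF, if_pos rfl]
    exact (smul_sub (-500000 : K) (ps1 a j.succ ⊗ₜ[K] ps2 a r.succ) (ps1 a r.succ ⊗ₜ[K] ps2 a j.succ)).symm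
  · obtain ⟨i, rfl⟩ := Fin.exists_succ_eq.mpr hi
    simp only [hz]
    rw [FF, if_neg (Fin.succ_ne_zero i), smul_zero]
    simp

end GG_aux

open GG_aux in
theorem tGG : S_Eq → S_Nv → S_DW → S_X1 → S_X3 → S_XJ → S_GG := by
  intro hEq hNv hDW hX1 hX3 hXJ K _ _ a D κ C hC hD hκ hc hsum
  obtain ⟨ω, hω⟩ := hEq K a D κ C hC hsum
  refine ⟨fun i j => (-2500000 : K)⁻¹ • Xt K (ω i j), fun l m hl hm i j r hij hjr => ?_⟩
  have h := hXJ K a l m hl hm _ (hω i j r)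
  have hk0 : ∀ k, κ k ≠ 0 := fun k h0 => hc (by rw [← hκ.1 k, h0]; ring)
  have e1 : Xt K (∑ k, (Matrix.of fun s r' : Fin 3 => NN a D (κ k) s ((![i, j, r] : Fin 3 → Fin 6) r')).det) =
      (5 : ℕ) • ((-500000 : K) • FF a i j r) := by
    rw [map_sum, Finset.sum_congr rfl (fun k _ => detk hNv hX3 hD (hκ.1 k) (hk0 k) i j r hij hjr), Finset.sum_const,
      Finset.card_univ, Fintype.card_fin]
  have e2 : Xt K (Dc (D i) (WW a) * ω j r - Dc (D j) (WW a) * ω i r + Dc (D r) (WW a) * ω i j) =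
      (GG a i ⊗ₜ[K] (1 : S4 K) + (1 : S4 K) ⊗ₜ[K] GG a i) * Xt K (ω j r) -
        (GG a j ⊗ₜ[K] (1 : S4 K) + (1 : S4 K) ⊗ₜ[K] GG a j) * Xt K (ω i r) +
        (GG a r ⊗ₜ[K] (1 : S4 K) + (1 : S4 K) ⊗ₜ[K] GG a r) * Xt K (ω i j) := by
    rw [map_add (Xt K), map_sub (Xt K), XtDc hDW hX1 hD, XtDc hDW hX1 hD, XtDc hDW hX1 hD]
  rw [map_sub (Xt K), map_sub (tf l m), e1, e2, sub_eq_zero] at h
  have e : dd a (fun i j => (-2500000 : K)⁻¹ • Xt K (ω i j)) i j r = (-2500000 : K)⁻¹ •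
      ((GG a i ⊗ₜ[K] (1 : S4 K) + (1 : S4 K) ⊗ₜ[K] GG a i) * Xt K (ω j r) -
        (GG a j ⊗ₜ[K] (1 : S4 K) + (1 : S4 K) ⊗ₜ[K] GG a j) * Xt K (ω i r) +
        (GG a r ⊗ₜ[K] (1 : S4 K) + (1 : S4 K) ⊗ₜ[K] GG a r) * Xt K (ω i j)) := by
    rw [dd, mul_smul_comm, mul_smul_comm, mul_smul_comm, smul_add, smul_sub]
  rw [e, map_smul, ← h, map_nsmul, map_smul, smul_eq_mul, smul_eq_mul, nsmul_eq_mul]
  have h1 : (-2500000 : K) ≠ 0 := by norm_num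
  push_cast
  field_simp
  ring

end Pool.Agent.QV
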