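import Pool.Agent.Lib.MP_b53bfe_ag.Q.SpecA
import Pool.Agent.Lib.MP_b53bfe_ag.Q.Bas

/-!
# Gd1: Hilbert syzygy theorem, one variable
-/

set_option autoImplicit false

noncomputable section

namespace Pool.Agent.QV

open Matrix

namespace Gd1_aux

open Polynomial TensorProduct PolynomialModule

section

variable (R M : Type) [CommRing R] [AddCommGroup M] [Module R M] [Module R[X] M] [IsScalarTower R R[X] M]

/-- multiplication by `X` as an `R`-linear map -/
def tX : M →ₗ[R] M where
  toFun m := (X : R[X]) • m
  map_add' a b := smul_add _ a b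
  map_smul' r m := by
    rw [RingHom.id_apply, ← algebraMap_smul R[X] r m, ← algebraMap_smul R[X] r (_ : M), ← mul_smul, ← mul_smul,
      mul_comm]

theorem tX_apply (m : M) : tX R M m = (X : R[X]) • m := rfl

/-- the coefficientwise action of `X` -/
def psi : PolynomialModule R M →ₗ[R[X]] PolynomialModule R M where
  toFun p := PolynomialModule.map R (tX R M) p
  map_add' a b := map_add _ a b
  map_smul' p q := by
    rw [RingHom.id_apply, PolynomialModule.map_smul, Algebra.algebraMap_self, Polynomial.map_id]

/-- `f ⊗ m ↦ X f ⊗ m - f ⊗ X m` -/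
def phi : PolynomialModule R M →ₗ[R[X]] PolynomialModule R M :=
  LinearMap.lsmul R[X] (PolynomialModule R M) X - psi R M

theorem phi_single (n : ℕ) (m : M) :
    phi R M (single R n m) = single R (n + 1) m - single R n ((X : R[X]) • m) := by
  have h1 : (X : R[X]) • single R n m = single R (n + 1) m := by
    rw [← Polynomial.monomial_one_one_eq_X, monomial_smul_single, one_smul, add_comm]
  change (X : R[X]) • single R n m - PolynomialModule.map R (tX R M) (single R n m) = _
  rw [h1, PolynomialModule.map_single, tX_apply]

theorem phi_coeff (p : PolynomialModule R M) (n : ℕ) :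
    (phi R M p).coeff (n + 1) = p.coeff n - (X : R[X]) • p.coeff (n + 1) := by
  induction p using PolynomialModule.induction_linear with
  | zero => simp
  | add p q hp hq =>
    have e1 : (phi R M (p + q)).coeff (n + 1) = (phi R M p).coeff (n + 1) + (phi R M q).coeff (n + 1) := by
      rw [LinearMap.map_add (phi R M) p q]
      rfl
    have e2 : ∀ k, (p + q).coeff k = p.coeff k + q.coeff k := fun k => rfl
    rw [e1, hp, hq, e2, e2, smul_add]
    abel
  | single k m =>
    rw [phi_single]
    change (Finsupp.single (k + 1) m - Finsupp.single k ((X : R[X]) • m) : ℕ →₀ M) (n + 1) = _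
    simp only [coeff_single, Finsupp.coe_sub, Pi.sub_apply, Finsupp.single_apply]
    by_cases h1 : k = n
    · subst h1
      simp
    · by_cases h2 : k = n + 1
      · subst h2
        simp
      · simp [h1, h2]

theorem phi_inj : Function.Injective (phi R M) := by
  rw [injective_iff_map_eq_zero]
  intro p hp
  have h : ∀ n, p.coeff n = (X : R[X]) • p.coeff (n + 1) := by
    intro n
    have := phi_coeff R M p n
    rw [hp] at this
    exact (sub_eq_zero.1 this.symm)
  have h2 : ∀ k n, p.coeff n = (X : R[X]) ^ k • p.coeff (n + k) := by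
    intro k
    induction k with
    | zero => intro n; simp
    | succ k ih =>
      intro n
      rw [ih n, h (n + k), ← mul_smul, pow_succ, add_assoc]
  apply PolynomialModule.coeff_injective
  ext n
  obtain ⟨N, hN⟩ : ∃ N, ∀ m, N ≤ m → p.coeff m = 0 := by
    refine ⟨p.coeff.support.sup id + 1, fun m hm => ?_⟩
    by_contra hne
    have := Finset.le_sup (f := id) (Finsupp.mem_support_iff.2 hne)
    simp only [id] at this
    omega
  rw [h2 N n, hN (n + N) (by omega), smul_zero]
  rfl

/-- `f ⊗ m ↦ f m` -/
def pi : PolynomialModule R M →ₗ[R[X]] M :=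
  (LinearMap.liftBaseChange R[X] (LinearMap.id : M →ₗ[R] M)).comp
    (polynomialTensorProductLEquivPolynomialModule R M).symm.toLinearMap

theorem pi_single0 (m : M) : pi R M (single R 0 m) = m := by
  have h : (polynomialTensorProductLEquivPolynomialModule R M).symm (single R 0 m) = (1 : R[X]) ⊗ₜ[R] m := by
    rw [LinearEquiv.symm_apply_eq]
    change _ = (LinearMap.liftBaseChange R[X] (lsingle R (M := M) 0)) ((1 : R[X]) ⊗ₜ[R] m)
    rw [LinearMap.liftBaseChange_tmul, one_smul]
    rfl
  change (LinearMap.liftBaseChange R[X] (LinearMap.id : M →ₗ[R] M))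
    ((polynomialTensorProductLEquivPolynomialModule R M).symm (single R 0 m)) = m
  rw [h, LinearMap.liftBaseChange_tmul, one_smul]
  rfl

theorem pi_single (n : ℕ) (m : M) : pi R M (single R n m) = (X : R[X]) ^ n • m := by
  have h1 : single R n m = (X : R[X]) ^ n • single R 0 m := by
    rw [← Polynomial.monomial_one_right_eq_X_pow, monomial_smul_single, one_smul, add_zero]
  rw [h1, _root_.map_smul, pi_single0]

theorem pi_surj : Function.Surjective (pi R M) := fun m => ⟨single R 0 m, pi_single0 R M m⟩

theorem pi_phi (p : PolynomialModule R M) : pi R M (phi R M p) = 0 := by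
  induction p using PolynomialModule.induction_linear with
  | zero => simp
  | add p q hp hq => rw [map_add, map_add, hp, hq, add_zero]
  | single k m =>
    rw [phi_single, map_sub, pi_single, pi_single, ← mul_smul, pow_succ, sub_self]

theorem sub_mem (p : PolynomialModule R M) :
    p - single R 0 (pi R M p) ∈ LinearMap.range (phi R M) := by
  induction p using PolynomialModule.induction_linear with
  | zero => simp
  | add p q hp hq =>
    have : p + q - single R 0 (pi R M (p + q)) = (p - single R 0 (pi R M p)) + (q - single R 0 (pi R M q)) := by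
      rw [_root_.map_add, PolynomialModule.single_add]
      abel
    rw [this]
    exact Submodule.add_mem _ hp hq
  | single k m =>
    rw [pi_single]
    induction k generalizing m with
    | zero => simp
    | succ k ih =>
      have : single R (k + 1) m - single R 0 ((X : R[X]) ^ (k + 1) • m) =
          phi R M (single R k m) + (single R k ((X : R[X]) • m) - single R 0 ((X : R[X]) ^ k • ((X : R[X]) • m))) := by
        rw [phi_single, ← mul_smul, ← pow_succ]
        abel
      rw [this]
      exact Submodule.add_mem _ ⟨_, rfl⟩ (ih _)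

theorem exact : Function.Exact (phi R M) (pi R M) := by
  intro p
  constructor
  · intro h
    have := sub_mem R M p
    rw [h, PolynomialModule.single_zero, sub_zero] at this
    exact this
  · rintro ⟨q, rfl⟩
    exact pi_phi R M q

end

theorem bc_exact {R A B C : Type} [CommRing R] [AddCommGroup A] [Module R A] [AddCommGroup B] [Module R B] [AddCommGroup C]
    [Module R C] (i : A →ₗ[R] B) (p : B →ₗ[R] C) (hi : Function.Injective i) (hp : Function.Surjective p)
    (he : Function.Exact i p) : Function.Injective (i.baseChange R[X]) ∧ Function.Surjective (p.baseChange R[X]) ∧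
      Function.Exact (i.baseChange R[X]) (p.baseChange R[X]) :=
  ⟨Module.Flat.lTensor_preserves_injective_linearMap (M := R[X]) i hi, LinearMap.lTensor_surjective R[X] hp,
    lTensor_exact R[X] he hp⟩

theorem bc_step (hPd : S_Pd) {R : Type} [CommRing R] (j : ℕ)
    (ih : ∀ (N : Type) [AddCommGroup N] [Module R N], PD R j N → PD R[X] j (R[X] ⊗[R] N))
    {A B C : Type} [AddCommGroup A] [Module R A] [AddCommGroup B] [Module R B] [AddCommGroup C]
    [Module R C] (i : A →ₗ[R] B) (p : B →ₗ[R] C) (hi : Function.Injective i) (hp : Function.Surjective p)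
    (he : Function.Exact i p) (hB : Module.Projective R B) (hC : PD R (j + 1) C) : PD R[X] (j + 1) (R[X] ⊗[R] C) := by
  obtain ⟨h3, hiso, hmono, h0⟩ := hPd R
  obtain ⟨k3, kiso, kmono, k0⟩ := hPd R[X]
  have hF : PD R 0 B := (h0 B).2 hB
  have hK : PD R j A := (h3 j A B C i p hi hp he).2.1 (hmono 0 j _ (Nat.zero_le j) hF) hC
  have hFX : PD R[X] (j + 1) (R[X] ⊗[R] B) := kmono 0 (j + 1) _ (Nat.zero_le _) ((k0 _).2 inferInstance)
  obtain ⟨e1, e2, e3⟩ := bc_exact i p hi hp he
  exact (k3 j _ _ _ (i.baseChange R[X]) (p.baseChange R[X]) e1 e2 e3).2.2 (ih A hK) hFX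

theorem pd_bc (hPd : S_Pd) (R : Type) [CommRing R] (j : ℕ) : ∀ (N : Type) [AddCommGroup N] [Module R N], PD R j N →
    PD R[X] j (R[X] ⊗[R] N) := by
  induction j with
  | zero =>
    intro N _ _ h
    obtain ⟨h3, hiso, hmono, h0⟩ := hPd R
    obtain ⟨k3, kiso, kmono, k0⟩ := hPd R[X]
    rw [h0] at h
    rw [k0]
    infer_instance
  | succ j ih =>
    intro N _ _ h
    have hp : Function.Surjective (Finsupp.linearCombination R (id : N → N)) := Finsupp.linearCombination_id_surjective R N
    have he : Function.Exact (LinearMap.ker (Finsupp.linearCombination R (id : N → N))).subtype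
        (Finsupp.linearCombination R (id : N → N)) := fun y =>
      ⟨fun h => ⟨⟨y, h⟩, rfl⟩, fun ⟨z, hz⟩ => hz ▸ z.2⟩
    exact bc_step hPd j ih (A := LinearMap.ker (Finsupp.linearCombination R (id : N → N)))
      (LinearMap.ker (Finsupp.linearCombination R (id : N → N))).subtype
      (Finsupp.linearCombination R (id : N → N)) (Submodule.injective_subtype _) hp he inferInstance h

end Gd1_aux

open Gd1_aux in
/-- Hilbert's syzygy theorem in one variable -/
theorem tGd1 : S_Pd → S_Gd1 := by
  intro hPd R _ j hR M _ _
  letI : Module R M := Module.compHom M (Polynomial.C : R →+* Polynomial R)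
  haveI : IsScalarTower R (Polynomial R) M := ⟨fun r f m => by
    change (r • f) • m = Polynomial.C r • (f • m)
    rw [← mul_smul, Polynomial.smul_eq_C_mul]⟩
  obtain ⟨k3, kiso, kmono, k0⟩ := hPd (Polynomial R)
  have h1 := pd_bc hPd R j M (hR M)
  have h2 : PD (Polynomial R) j (PolynomialModule R M) :=
    kiso j _ _ (PolynomialModule.polynomialTensorProductLEquivPolynomialModule R M) h1
  exact (k3 j (PolynomialModule R M) (PolynomialModule R M) M (phi R M) (pi R M) (phi_inj R M) (pi_surj R M)
    (Gd1_aux.exact R M)).2.2 h2 (kmono j (j + 1) _ (Nat.le_succ j) h2)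

end Pool.Agent.QV
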