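import Pool.Agent.Lib.MP_b53bfe_ag.Q.SpecH

/-!
# Disproof of Q1 of MP_b53bfe_ag for quintic threefolds. Module Gh: homogeneity
-/

set_option autoImplicit false

noncomputable section

namespace Pool.Agent.QV

open Matrix
open MvPolynomial TensorProduct

namespace Gh_aux

/-- the weights of the variables -/
def W : Fin 4 → ℕ := ![1, 1, 2, 2]

private lemma weight_eq (m : Fin 4 →₀ ℕ) : Finsupp.weight W m = wt4 m := by
  rw [Finsupp.weight_apply, Finsupp.sum_fintype _ _ (fun i => by simp), Fin.sum_univ_four]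
  simp only [W, wt4, smul_eq_mul]
  simp
  ring

private lemma hX {K : Type} [Field K] (i : Fin 4) :
    IsWeightedHomogeneous W (X i : S4 K) (W i) := isWeightedHomogeneous_X K W i

private lemma hC {K : Type} [Field K] (c : K) :
    IsWeightedHomogeneous W (C c : S4 K) 0 := isWeightedHomogeneous_C W c

private lemma u4_h {K : Type} [Field K] (a : Par K) : IsWeightedHomogeneous W (u4 a) 2 := by
  unfold u4
  refine IsWeightedHomogeneous.add (hX 3) ?_
  have h := (hC (K := K) a.c).mul ((hX (K := K) 1).pow 2)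
  exact h

private lemma GG_h {K : Type} [Field K] (a : Par K) (i : Fin 6) :
    IsWeightedHomogeneous W (GG a i) 5 := by
  have h10 : (10 : S4 K) = C 10 := (map_ofNat (C : K →+* S4 K) 10).symm
  fin_cases i
  · change IsWeightedHomogeneous W (-(10 * X 1 ^ 3 * u4 a) : S4 K) 5
    have h1 : (-(10 * X 1 ^ 3 * u4 a) : S4 K) = C (-10) * X 1 ^ 3 * u4 a := by
      rw [C_neg, h10]
      ring
    rw [h1]
    exact ((hC (K := K) (-10)).mul ((hX (K := K) 1).pow 3)).mul (u4_h a)
  · change IsWeightedHomogeneous W (X 0 * (X 0 * X 1 ^ 3) : S4 K) 5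
    exact (hX (K := K) 0).mul ((hX (K := K) 0).mul ((hX (K := K) 1).pow 3))
  · change IsWeightedHomogeneous W (X 0 * (X 0 ^ 2 * X 2) : S4 K) 5
    exact (hX (K := K) 0).mul (((hX (K := K) 0).pow 2).mul (hX (K := K) 2))
  · change IsWeightedHomogeneous W (X 0 * (X 1 ^ 2 * X 2) : S4 K) 5
    exact (hX (K := K) 0).mul (((hX (K := K) 1).pow 2).mul (hX (K := K) 2))
  · change IsWeightedHomogeneous W (X 0 * (X 0 ^ 2 * X 3) : S4 K) 5
    exact (hX (K := K) 0).mul (((hX (K := K) 0).pow 2).mul (hX (K := K) 3))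
  · change IsWeightedHomogeneous W (X 0 * X 3 ^ 2 : S4 K) 5
    exact (hX (K := K) 0).mul ((hX (K := K) 3).pow 2)

/-- a functional which lives in one weight kills the polynomials of another weight -/
private lemma kill {K : Type} [Field K] (d e : ℕ) (hde : e ≠ d) (l : S4 K →ₗ[K] K)
    (hl : ∀ m, wt4 m ≠ d → l (monomial m 1) = 0) (g : S4 K) (hg : IsWeightedHomogeneous W g e) :
    l g = 0 := by
  rw [g.as_sum, map_sum]
  refine Finset.sum_eq_zero fun m hm => ?_
  have h1 : Finsupp.weight W m = e := hg (mem_support_iff.1 hm)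
  rw [weight_eq] at h1
  have h2 : (monomial m (coeff m g) : S4 K) = coeff m g • monomial m 1 := by
    rw [smul_monomial, smul_eq_mul, mul_one]
  rw [h2, map_smul, hl m (by rw [h1]; exact hde), smul_zero]

private lemma main {K : Type} [Field K] (a : Par K) (i : Fin 6) (l : S4 K →ₗ[K] K) (e n : ℕ)
    (B : Fin n → Fin 4 → ℕ) (hinj : Function.Injective B) (hw : ∀ s, wt4 (ex4 (B s)) = e)
    (hall : ∀ m : Fin 4 →₀ ℕ, wt4 m = e → ∃ s, m = ex4 (B s))
    (hl : ∀ m, wt4 m ≠ 5 + e → l (monomial m 1) = 0) (z : S4 K) :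
    l (GG a i * z) = ∑ s, l (GG a i * monomial (ex4 (B s)) 1) * z.coeff (ex4 (B s)) := by
  classical
  induction z using MvPolynomial.induction_on' with
  | monomial u c =>
    by_cases hu : wt4 u = e
    · obtain ⟨s, hs⟩ := hall u hu
      rw [Finset.sum_eq_single s]
      · rw [hs, coeff_monomial, if_pos rfl]
        have h2 : (monomial (ex4 (B s)) c : S4 K) = c • monomial (ex4 (B s)) 1 := by
          rw [smul_monomial, smul_eq_mul, mul_one]
        rw [h2, mul_smul_comm, map_smul, smul_eq_mul, mul_comm]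
      · intro s' _ hss
        rw [coeff_monomial, if_neg, mul_zero]
        rw [hs]
        intro h
        apply hss
        apply hinj
        exact (Finsupp.equivFunOnFinite.symm.injective h).symm
      · intro h
        exact absurd (Finset.mem_univ s) h
    · rw [Finset.sum_eq_zero]
      · refine kill (5 + e) (5 + wt4 u) (by omega) l hl _ ?_
        refine (GG_h a i).mul ?_
        refine isWeightedHomogeneous_monomial W u c ?_
        exact weight_eq u
      · intro s _
        rw [coeff_monomial, if_neg, mul_zero]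
        intro h
        apply hu
        rw [h]
        exact hw s
  | add p q hp hq =>
    rw [mul_add, map_add, hp, hq, ← Finset.sum_add_distrib]
    refine Finset.sum_congr rfl fun s _ => ?_
    rw [coeff_add, mul_add]

private lemma all2' : ∀ (x y : Fin 3) (s v : Fin 2), (x : ℕ) + y + 2 * s + 2 * v = 2 →
    ∃ k : Fin 5, B2l k = ![(x : ℕ), y, s, v] := by decide +kernel

private lemma all3' : ∀ (x y : Fin 4) (s v : Fin 2), (x : ℕ) + y + 2 * s + 2 * v = 3 →
    ∃ k : Fin 8, B3l k = ![(x : ℕ), y, s, v] := by decide +kernel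

private lemma all2 (x : ℕ) (hx : x < 3) (y : ℕ) (hy : y < 3) (s : ℕ) (hs : s < 2) (v : ℕ) (hv : v < 2)
    (h : x + y + 2 * s + 2 * v = 2) : ∃ k : Fin 5, B2l k = ![x, y, s, v] :=
  all2' ⟨x, hx⟩ ⟨y, hy⟩ ⟨s, hs⟩ ⟨v, hv⟩ h

private lemma all3 (x : ℕ) (hx : x < 4) (y : ℕ) (hy : y < 4) (s : ℕ) (hs : s < 2) (v : ℕ) (hv : v < 2)
    (h : x + y + 2 * s + 2 * v = 3) : ∃ k : Fin 8, B3l k = ![x, y, s, v] :=
  all3' ⟨x, hx⟩ ⟨y, hy⟩ ⟨s, hs⟩ ⟨v, hv⟩ h

private lemma eq_ex4 (m : Fin 4 →₀ ℕ) (f : Fin 4 → ℕ) (h : f = ![m 0, m 1, m 2, m 3]) : m = ex4 f := by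
  ext i
  change m i = f i
  rw [h]
  fin_cases i <;> rfl

end Gh_aux

open Gh_aux

theorem tGh : S_Gh := by
  intro K _ _ a i l
  constructor
  · intro hl z
    refine main a i l 2 5 B2l (by decide +kernel) (by decide +kernel) ?_ hl z
    intro m hm
    have hm' : m 0 + m 1 + 2 * m 2 + 2 * m 3 = 2 := hm
    obtain ⟨k, hk⟩ := all2 (m 0) (by omega) (m 1) (by omega) (m 2) (by omega) (m 3) (by omega) hm'
    exact ⟨k, eq_ex4 m _ hk⟩
  · intro hl z
    refine main a i l 3 8 B3l (by decide +kernel) (by decide +kernel) ?_ hl z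
    intro m hm
    have hm' : m 0 + m 1 + 2 * m 2 + 2 * m 3 = 3 := hm
    obtain ⟨k, hk⟩ := all3 (m 0) (by omega) (m 1) (by omega) (m 2) (by omega) (m 3) (by omega) hm'
    exact ⟨k, eq_ex4 m _ hk⟩

end Pool.Agent.QV
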