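import Pool.Agent.Lib.MP_b53bfe_ag.Q.SpecA

/-!
# Gauge invariance of the Chern character of matrix factorizations (helper17)
-/

set_option autoImplicit false

noncomputable section

namespace Pool.Agent.QV

open Matrix

theorem tGi : S_Gl → S_Sw → S_Gi := by
  intro hGl hSw L E _ _ _ _ C W n _ _ A B A' B' U U' V V' k hdW hW hk hAB hAB' hU hU' hV hV' hUA
  have hA' : A' = U * (A * V') := by
    rw [← mul_assoc, hUA, mul_assoc, hV, mul_one]
  have h1 : A' * (V * B * U') = W • (1 : Matrix n n L) := by
    calc A' * (V * B * U') = A' * V * (B * U') := by simp only [mul_assoc]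
      _ = U * (A * B) * U' := by rw [← hUA]; simp only [mul_assoc]
      _ = W • (1 : Matrix n n L) := by
        rw [hAB.ab, Matrix.mul_smul, mul_one, Matrix.smul_mul, hU]
  have h2 : W • (V * B * U') = W • B' := by
    calc W • (V * B * U') = B' * A' * (V * B * U') := by rw [hAB'.ba, Matrix.smul_mul, one_mul]
      _ = B' * (A' * (V * B * U')) := mul_assoc _ _ _
      _ = W • B' := by rw [h1, Matrix.mul_smul, mul_one]
  have hB' : B' = V * B * U' := by
    ext i j
    have h3 := congrFun (congrFun h2 i) j
    rw [Matrix.smul_apply, Matrix.smul_apply, smul_eq_mul, smul_eq_mul] at h3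
    exact (mul_left_cancel₀ hW h3).symm
  have hMF1 : IsMF W (A * V') (V * B) := by
    refine ⟨?_, ?_⟩
    · calc A * V' * (V * B) = A * (V' * V) * B := by simp only [mul_assoc]
        _ = W • (1 : Matrix n n L) := by rw [hV', mul_one, hAB.ab]
    · calc V * B * (A * V') = V * (B * A) * V' := by simp only [mul_assoc]
        _ = W • (1 : Matrix n n L) := by
          rw [hAB.ba, Matrix.mul_smul, mul_one, Matrix.smul_mul, hV]
  have hMF2 : IsMF W B A := ⟨hAB.ba, hAB.ab⟩
  have e1 := hGl L E C W n (A * V') (V * B) U U' k hdW hMF1 hU hU'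
  have e2 := hSw L E C n n (V * B) (A * V') k hk
  have e3 := hGl L E C W n B A V V' k hdW hMF2 hV hV'
  have e4 := hSw L E C n n A B k hk
  rw [hA', hB', e1, e2, e3, e4, neg_neg]

end Pool.Agent.QV
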