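import Pool.Agent.Lib.MP_b53bfe_ag.Q.SpecP

/-!
# Disproof of Q1 of MP_b53bfe_ag, module Gk: graded modules and the Grothendieck group (helper61)
-/

set_option autoImplicit false

noncomputable section

namespace Pool.Agent.QV

open Matrix
open MvPolynomial
open Pool.Agent.FY (Res)

namespace Gk_aux

variable {K : Type} [Field K] (a : Par K)

theorem form_eq (i : Fin 3) : Gr.form (fQ a) i = fS a i := by
  have h5 : (rename (fun j : Fin 5 => (i, j)) (5 : MvPolynomial (Fin 5) K)) = 5 := map_ofNat _ 5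
  unfold Gr.form fQ fS ff Rf uf
  simp only [Fin.sum_univ_five, Rj, algebraMap_eq]
  simp [h5]

theorem form_eq' : Gr.form (fQ a) = fS a := funext (form_eq a)

theorem small_eq : Gr.smallGens (fQ a) = {r | ∃ i k j j', r = mnr K i k j j'} ∪ Set.range (fS a) := by
  unfold Gr.smallGens
  rw [form_eq']
  rfl

theorem pair_eq (i k : Fin 3) : Gr.pairGens (fQ a) i k =
    {r | ∃ j j', r = mnr K i k j j'} ∪ Set.range (fS a) := by
  unfold Gr.pairGens
  rw [form_eq']
  rfl

variable {E : Type} [AddCommGroup E] [Module ℚ E] (χ : AF (PP K) (WW a) E)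

/-- the linear map on the free vector space -/
def L0 : (Gr.GrMod (fQ a) →₀ ℚ) →ₗ[ℚ] E :=
  Finsupp.linearCombination ℚ fun M : Gr.GrMod (fQ a) => χ.f (Res (rho a).toRingHom M.carrier)

theorem L0_single (M : Gr.GrMod (fQ a)) :
    L0 a χ (Finsupp.single M 1) = χ.f (Res (rho a).toRingHom M.carrier) := by
  unfold L0
  rw [Finsupp.linearCombination_single, one_smul]

theorem kw (hW : rho a (WW a) = fS a 0 + fS a 1 + fS a 2) (M : Gr.GrMod (fQ a)) :
    KW (WW a) (Res (rho a).toRingHom M.carrier) := by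
  intro m
  have h1 : (rho a (WW a)) • (Res.val m : M.carrier) = 0 := by
    rw [hW, add_smul, add_smul, ← form_eq, ← form_eq, ← form_eq, M.form_smul, M.form_smul,
      M.form_smul, add_zero, add_zero]
  exact h1

theorem kill (hF : S_Fin) (hA : a.A ≠ 0)
    (hI : ∀ (M : Type) [AddCommGroup M] [Module (PP K) M], Module.Finite (PP K) M →
      (∀ (i : Fin 3) (m : M), fS a i • m = 0) →
      (∃ (i : Fin 3) (k : ℕ), ∀ m : M, (X (i, 3) : PP K) ^ k • m = 0) →
      χ.f (Res (rho a).toRingHom M) = 0) :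
    Gr.relations (fQ a) ≤ LinearMap.ker (L0 a χ) := by
  obtain ⟨-, hW, hfin⟩ := hF K a hA
  unfold Gr.relations
  rw [Submodule.span_le]
  rintro x (⟨A, B, C, ⟨i, p, -, -, hi, hp, hex⟩, rfl⟩ | ⟨M, ⟨i, k, hM⟩, rfl⟩)
  · have h1 := χ.add (Res (rho a).toRingHom A.carrier) (Res (rho a).toRingHom B.carrier)
      (Res (rho a).toRingHom C.carrier) (FY.Res.map (rho a).toRingHom i)
      (FY.Res.map (rho a).toRingHom p) (hfin B.carrier B.fin) (kw a hW B) hi hp hex
    change L0 a χ _ = 0
    rw [map_sub, map_sub, L0_single, L0_single, L0_single, h1]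
    abel
  · change L0 a χ _ = 0
    rw [L0_single]
    refine hI M.carrier M.fin (fun i m => ?_) ⟨i, k, fun m => hM 3 m⟩
    rw [← form_eq]
    exact M.form_smul i m

theorem span_congr {A B : Set (PP K)} (h : A = B) :
    χ.f (Res (rho a).toRingHom (PP K ⧸ Ideal.span A)) =
      χ.f (Res (rho a).toRingHom (PP K ⧸ Ideal.span B)) := by
  subst h
  rfl

end Gk_aux

open Gk_aux in
/-- **Gk**. The class of the small diagonal. -/
theorem tGk : S_Fin → S_Gk := by
  intro hF K _ _ a hf E _ _ χ hA hI hL hP hS hmem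
  have hk := kill a χ hF hA hI
  let Φ : Gr.K0 (fQ a) →ₗ[ℚ] E := (Gr.relations (fQ a)).liftQ (L0 a χ) hk
  have hΦ : ∀ M : Gr.GrMod (fQ a), Φ (Gr.cls M) = χ.f (Res (rho a).toRingHom M.carrier) := by
    intro M
    exact L0_single a χ M
  have hle : Gr.diagSpan hf ≤ LinearMap.ker Φ := by
    unfold Gr.diagSpan
    rw [Submodule.span_le]
    rintro x (⟨e, rfl⟩ | ⟨i, k, e, hik, rfl⟩)
    · change Φ _ = 0
      rw [hΦ]
      refine Eq.trans ?_ hL
      exact span_congr a χ (congrArg Set.range (form_eq' a))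
    · change Φ _ = 0
      rw [hΦ]
      refine Eq.trans ?_ (hP i k hik)
      exact span_congr a χ (pair_eq a i k)
  have h0 : Φ (Gr.cls (Gr.smallDiag hf)) = 0 := hle hmem
  apply hS
  rw [hΦ] at h0
  refine Eq.trans ?_ h0
  exact span_congr a χ (small_eq a).symm

end Pool.Agent.QV
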