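import Pool.Agent.Lib.MP_b53bfe_ag.Q.SpecA

/-!
# Module Gn: general forms
-/

set_option autoImplicit false

noncomputable section

namespace Pool.Agent.QV

open Matrix

namespace Gn_aux

variable {L E : Type} [CommRing L] [Ring E] [Algebra L E]

theorem ent_add (C : Cal L E) {m n : Type} {i : ℕ} {X Y : Matrix m n E} (hX : C.Ent i X)
    (hY : C.Ent i Y) : C.Ent i (X + Y) := fun a b => Submodule.add_mem _ (hX a b) (hY a b)

theorem ent_sub (C : Cal L E) {m n : Type} {i : ℕ} {X Y : Matrix m n E} (hX : C.Ent i X)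
    (hY : C.Ent i Y) : C.Ent i (X - Y) := fun a b => Submodule.sub_mem _ (hX a b) (hY a b)

theorem ent_smul (C : Cal L E) {m n : Type} {i : ℕ} {X : Matrix m n E} (W : L)
    (hX : C.Ent i X) : C.Ent i (W • X) := fun a b => Submodule.smul_mem _ W (hX a b)

theorem ent_single (C : Cal L E) {n : Type} [DecidableEq n] (a b : n) {θ : E} (hθ : θ ∈ C.Om) :
    C.Ent 1 (Matrix.single a b θ) := by
  intro i j
  rw [pow_one, Matrix.single_apply]
  split_ifs
  · exact hθ
  · exact Submodule.zero_mem _

/-- the family of the matrices -/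
def Nf {n : Type} [Fintype n] (W : L) (M P ω : Matrix n n E) : Matrix n n E :=
  M - (P * ω + ω * P) - W • (ω * ω)

theorem comm {n : Type} [Fintype n] (W : L) (M P ω : Matrix n n E)
    (hMP : M * P = P * M) (hPP : P * P = -(W • M)) :
    Nf W M P ω * (P + W • ω) = (P + W • ω) * Nf W M P ω := by
  obtain ⟨X, hX⟩ : ∃ X : Matrix n n E, X = W • ω := ⟨_, rfl⟩
  have e0 : W • (ω * ω) = ω * X := by rw [hX, mul_smul_comm]
  have h4 : ω * X = X * ω := by rw [hX, mul_smul_comm, smul_mul_assoc]
  have h2 : ω * (P * P) = -(X * M) := by rw [hPP, hX, mul_neg, mul_smul_comm, smul_mul_assoc]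
  have h3 : P * P * ω = -(M * X) := by rw [hPP, hX, neg_mul, mul_smul_comm, smul_mul_assoc]
  have h5 : ω * P * X = X * P * ω := by
    rw [hX, mul_smul_comm, smul_mul_assoc, smul_mul_assoc]
  unfold Nf
  rw [e0, ← hX]
  linear_combination (norm := noncomm_ring) hMP + h3 - h2 - h5 - h4 * P - h4 * X

theorem step (hC : S_Comm) (hS : S_Sg) (C : Cal L E) {n : Type} [Fintype n] [DecidableEq n]
    (W : L) (M P ω : Matrix n n E) (k : ℕ) (hM : C.Ent 2 M) (hP : C.Ent 1 P) (hω : C.Ent 1 ω)
    (hMP : M * P = P * M) (hPP : P * P = -(W • M)) (a b : n) (θ : E) (hθ : θ ∈ C.Om) :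
    ((Nf W M P (Matrix.single a b θ + ω)) ^ k).trace = ((Nf W M P ω) ^ k).trace := by
  obtain ⟨c1, c2, c3, _, _, _⟩ := hC L E C
  have hP' : C.Ent 1 (P + W • ω) := ent_add C hP (ent_smul C W hω)
  have hN : C.Ent 2 (Nf W M P ω) := by
    unfold Nf
    exact ent_sub C (ent_sub C hM (ent_add C (c3 1 1 n n n P ω hP hω) (c3 1 1 n n n ω P hω hP)))
      (ent_smul C W (c3 1 1 n n n ω ω hω hω))
  have hθθ : θ * θ = 0 := c2 θ hθ
  have hηη : Matrix.single a b θ * Matrix.single a b θ = 0 := by
    by_cases h : b = a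
    · subst h
      rw [Matrix.single_mul_single_same, hθθ, Matrix.single_zero]
    · rw [Matrix.single_mul_single_of_ne _ _ _ _ h]
  have hanti : ∀ x : E, x ∈ C.Om → x * θ = -(θ * x) := by
    intro x hx
    have h := c1 1 1 x θ (by rw [pow_one]; exact hx) (by rw [pow_one]; exact hθ)
    rw [h]
    simp
  have key : (P + W • ω) * Matrix.single a b θ + Matrix.single a b θ * (P + W • ω) =
      θ • (em E (Matrix.single a b (1 : L)) * (P + W • ω) -
        (P + W • ω) * em E (Matrix.single a b (1 : L))) := by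
    have e1 : em E (Matrix.single a b (1 : L)) = Matrix.single a b (1 : E) := by
      unfold em
      ext i j
      rw [Matrix.map_apply, Matrix.single_apply, Matrix.single_apply]
      split_ifs
      · exact map_one _
      · exact map_zero _
    rw [e1]
    generalize hQ : P + W • ω = Q
    have hQ' : ∀ i j, Q i j ∈ C.Om := by
      intro i j
      have := hP' i j
      rw [pow_one, hQ] at this
      exact this
    ext i j
    rw [Matrix.add_apply, Matrix.smul_apply, Matrix.sub_apply, smul_eq_mul, mul_sub]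
    have f1 : (Q * Matrix.single a b θ) i j = -(θ * (Q * Matrix.single a b (1 : E)) i j) := by
      by_cases hj : j = b
      · subst hj
        rw [Matrix.mul_single_apply_same, Matrix.mul_single_apply_same, mul_one]
        exact hanti _ (hQ' i a)
      · rw [Matrix.mul_single_apply_of_ne _ _ _ _ _ hj, Matrix.mul_single_apply_of_ne _ _ _ _ _ hj]
        simp
    have f2 : (Matrix.single a b θ * Q) i j = θ * (Matrix.single a b (1 : E) * Q) i j := by
      by_cases hi : i = a
      · subst hi
        rw [Matrix.single_mul_apply_same, Matrix.single_mul_apply_same, one_mul]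
      · rw [Matrix.single_mul_apply_of_ne _ _ _ _ _ hi, Matrix.single_mul_apply_of_ne _ _ _ _ _ hi]
        simp
    rw [f1, f2]
    abel
  have hNN : Nf W M P (Matrix.single a b θ + ω) = Nf W M P ω +
      (-θ) • (em E (Matrix.single a b (1 : L)) * (P + W • ω) -
        (P + W • ω) * em E (Matrix.single a b (1 : L))) := by
    rw [neg_smul, ← key]
    generalize Matrix.single a b θ = η at hηη
    unfold Nf
    have g1 : W • ((η + ω) * (η + ω)) = W • (η * ω) + W • (ω * η) + W • (ω * ω) := by
      rw [← smul_add, ← smul_add]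
      congr 1
      linear_combination (norm := noncomm_ring) hηη
    have g2 : (P + W • ω) * η = P * η + W • (ω * η) := by rw [add_mul, smul_mul_assoc]
    have g3 : η * (P + W • ω) = η * P + W • (η * ω) := by rw [mul_add, mul_smul_comm]
    rw [g1, g2, g3]
    noncomm_ring
  rw [hNN]
  exact hS L E C n (Nf W M P ω) (P + W • ω) (Matrix.single a b (1 : L)) (-θ) k hN hP'
    (comm W M P ω hMP hPP) (Submodule.neg_mem _ hθ)

end Gn_aux

open Gn_aux in
theorem tGn : S_Comm → S_Sg → S_Gn := by
  intro hC hS L E _ _ _ C n _ _ W M P ω k hM hP hω hMP hPP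
  have main : ∀ s : Finset (n × n), C.Ent 1 (∑ x ∈ s, Matrix.single x.1 x.2 (ω x.1 x.2)) ∧
      ((Nf W M P (∑ x ∈ s, Matrix.single x.1 x.2 (ω x.1 x.2))) ^ k).trace = (M ^ k).trace := by
    intro s
    induction s using Finset.induction_on with
    | empty =>
      rw [Finset.sum_empty]
      refine ⟨fun i j => Submodule.zero_mem _, ?_⟩
      unfold Nf
      simp
    | insert x s hx ih =>
      rw [Finset.sum_insert hx]
      have hθ : ω x.1 x.2 ∈ C.Om := by
        have := hω x.1 x.2
        rwa [pow_one] at this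
      refine ⟨ent_add C (ent_single C _ _ hθ) ih.1, ?_⟩
      rw [step hC hS C W M P _ k hM hP ih.1 hMP hPP x.1 x.2 _ hθ, ih.2]
  have h1 := (main Finset.univ).2
  have h2 : ∑ x : n × n, Matrix.single x.1 x.2 (ω x.1 x.2) = ω := by
    rw [Fintype.sum_prod_type]
    exact (Matrix.matrix_eq_sum_single ω).symm
  rw [h2] at h1
  exact h1

end Pool.Agent.QV
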