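import Pool.Agent.Lib.MP_b53bfe_ag.Q.SpecE

/-!
# GoodM: the potential of the nine pairs and the regularity conditions
-/

set_option autoImplicit false

noncomputable section

namespace Pool.Agent.QV

open Matrix MvPolynomial
open Pool.Agent.FY (Res)

namespace GoodM_aux

variable {K : Type} [Field K]

/-- the variables occurring in the values of the retractions -/
def pv : List (Fin 3 × Fin 5) := [(0, 2), (1, 2), (2, 2), (1, 4), (2, 4)]

/-- admissible substitutions -/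
structure Sub (g : Fin 3 × Fin 5 → PP K) : Prop where
  inv : ∀ r : PP K →ₐ[K] PP K, (∀ u ∈ pv, r (X u) = X u) → ∀ v, r (g v) = g v
  van : ∀ e : PP K →ₐ[K] K, (∀ u ∈ pv, e (X u) = 0) → ∀ v, e (g v) = 0

/-- the retraction -/
def rt (g : Fin 3 × Fin 5 → PP K) (vs : List (Fin 3 × Fin 5)) : PP K →ₐ[K] PP K :=
  aeval fun v => if v ∈ vs then g v else X v

lemma rt_X (g : Fin 3 × Fin 5 → PP K) (vs : List (Fin 3 × Fin 5)) (v : Fin 3 × Fin 5) :
    rt g vs (X v) = if v ∈ vs then g v else X v := by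
  unfold rt
  rw [aeval_X]

lemma rt_idem {g : Fin 3 × Fin 5 → PP K} (hg : Sub g) {vs : List (Fin 3 × Fin 5)} (hvs : ∀ v ∈ vs, v ∉ pv)
    (v : Fin 3 × Fin 5) : rt g vs (rt g vs (X v)) = rt g vs (X v) := by
  by_cases h : v ∈ vs
  · rw [rt_X, if_pos h]
    refine hg.inv _ (fun u hu => ?_) v
    rw [rt_X, if_neg (fun h1 => hvs u h1 hu)]
  · have h1 : rt g vs (X v) = X v := by rw [rt_X, if_neg h]
    rw [h1, h1]

lemma mem1 {g : Fin 3 × Fin 5 → PP K} {vs : List (Fin 3 × Fin 5)} {ps : List (PP K × PP K)}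
    (h : List.Forall₂ (fun (q : PP K × PP K) v => q.1 = X v - g v) ps vs) : ∀ q ∈ ps, ∃ v ∈ vs, q.1 = X v - g v := by
  induction h with
  | nil => simp
  | cons hd _ ih =>
    intro q hq
    rcases List.mem_cons.1 hq with rfl | hq
    · exact ⟨_, List.mem_cons_self, hd⟩
    · obtain ⟨v, hv, e⟩ := ih q hq
      exact ⟨v, List.mem_cons_of_mem _ hv, e⟩

lemma mem2 {g : Fin 3 × Fin 5 → PP K} {vs : List (Fin 3 × Fin 5)} {ps : List (PP K × PP K)}
    (h : List.Forall₂ (fun (q : PP K × PP K) v => q.1 = X v - g v) ps vs) : ∀ v ∈ vs, ∃ q ∈ ps, X v - g v = q.1 := by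
  induction h with
  | nil => simp
  | cons hd _ ih =>
    intro v hv
    rcases List.mem_cons.1 hv with rfl | hv
    · exact ⟨_, List.mem_cons_self, hd.symm⟩
    · obtain ⟨q, hq, e⟩ := ih v hv
      exact ⟨q, List.mem_cons_of_mem _ hq, e⟩

lemma ker_rt (hRet : S_Ret) {g : Fin 3 × Fin 5 → PP K} (hg : Sub g) {vs : List (Fin 3 × Fin 5)}
    (hvs : ∀ v ∈ vs, v ∉ pv) {ps : List (PP K × PP K)}
    (h : List.Forall₂ (fun (q : PP K × PP K) v => q.1 = X v - g v) ps vs) : RingHom.ker (rt g vs) = idl ps := by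
  rw [(hRet K _ (rt g vs) (rt_idem hg hvs)).1]
  unfold idl
  refine le_antisymm (Ideal.span_le.2 ?_) (Ideal.span_mono ?_)
  · rintro _ ⟨v, rfl⟩
    simp only [rt_X]
    by_cases hv : v ∈ vs
    · rw [if_pos hv]
      obtain ⟨q, hq, e⟩ := mem2 h v hv
      exact Ideal.subset_span ⟨q, hq, e⟩
    · rw [if_neg hv, sub_self]
      exact Ideal.zero_mem _
  · rintro x ⟨q, hq, rfl⟩
    obtain ⟨v, hv, e⟩ := mem1 h q hq
    refine ⟨v, ?_⟩
    simp only [rt_X, if_pos hv]
    exact e.symm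

lemma reg (hRet : S_Ret) {g : Fin 3 × Fin 5 → PP K} (hg : Sub g) {vs : List (Fin 3 × Fin 5)}
    (hvs : ∀ v ∈ vs, v ∉ pv) {ps : List (PP K × PP K)}
    (h : List.Forall₂ (fun (q : PP K × PP K) v => q.1 = X v - g v) ps vs) (b : PP K) (P : Fin 3 × Fin 5 → K)
    (hP : ∀ u ∈ pv, P u = 0) (hP' : ∀ v ∈ vs, P v = 0) (hb : aeval P b ≠ 0) : RegI b (idl ps) := by
  rw [← ker_rt hRet hg hvs h]
  refine (hRet K _ (rt g vs) (rt_idem hg hvs)).2.2.1 b fun h0 => hb ?_
  have h1 : (aeval P).comp (rt g vs) = aeval P := by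
    refine algHom_ext fun v => ?_
    rw [AlgHom.comp_apply, rt_X]
    by_cases hv : v ∈ vs
    · rw [if_pos hv, hg.van _ (fun u hu => by rw [aeval_X]; exact hP u hu), aeval_X, hP' v hv]
    · rw [if_neg hv]
  rw [← h1, AlgHom.comp_apply, h0, map_zero]

/-- the point `X = Z = 1` -/
def P0 (K : Type) [Field K] : Fin 3 × Fin 5 → K := fun v => if v = (0, 0) ∨ v = (0, 1) then 1 else 0

lemma good (hRet : S_Ret) {g : Fin 3 × Fin 5 → PP K} (hg : Sub g) : ∀ (vs : List (Fin 3 × Fin 5))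
    (ps : List (PP K × PP K)) (W₀ : PP K), (∀ v ∈ vs, v ∉ pv ∧ ¬ (v = (0, 0) ∨ v = (0, 1))) → vs.Nodup →
    List.Forall₂ (fun (q : PP K × PP K) v => q.1 = X v - g v) ps vs → aeval (P0 K) W₀ = 1 → Good W₀ ps
  | [], ps, W₀, _, _, h, _ => by
    cases h
    trivial
  | v :: vs, ps, W₀, hvs, hnd, h, hW => by
    cases h with
    | @cons q _ ps' _ hd ht =>
    obtain ⟨a, b⟩ := q
    simp only at hd
    have hv := hvs v List.mem_cons_self
    have hvs' : ∀ u ∈ vs, u ∉ pv ∧ ¬ (u = (0, 0) ∨ u = (0, 1)) := fun u hu => hvs u (List.mem_cons_of_mem _ hu)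
    rw [List.nodup_cons] at hnd
    have p1 : ∀ u ∈ pv, P0 K u = 0 := by
      intro u hu
      unfold P0
      rw [if_neg]
      rintro (rfl | rfl) <;> revert hu <;> decide
    have p2 : ∀ u ∈ v :: vs, P0 K u = 0 := by
      intro u hu
      unfold P0
      rw [if_neg (hvs u hu).2]
    have e1 : aeval (P0 K) a = 0 := by
      rw [hd, map_sub, aeval_X, hg.van _ (fun u hu => by rw [aeval_X]; exact p1 u hu), p2 v List.mem_cons_self, sub_zero]
    have e2 : aeval (P0 K) (W₀ + a * b) = 1 := by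
      rw [map_add, map_mul, e1, zero_mul, add_zero, hW]
    refine ⟨?_, ?_, ?_, good hRet hg vs ps' _ hvs' hnd.2 ht e2⟩
    · refine reg hRet hg (fun u hu => (hvs' u hu).1) ht a (fun u => if u = v then 1 else 0) ?_ ?_ ?_
      · intro u hu
        rw [if_neg]
        rintro rfl
        exact hv.1 hu
      · intro u hu
        rw [if_neg]
        rintro rfl
        exact hnd.1 hu
      · rw [hd, map_sub, aeval_X, if_pos rfl, hg.van, sub_zero]
        · exact one_ne_zero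
        · intro u hu
          rw [aeval_X, if_neg]
          rintro rfl
          exact hv.1 hu
    · exact reg hRet hg (fun u hu => (hvs u hu).1) (List.Forall₂.cons hd ht) W₀ (P0 K) p1 p2 (by rw [hW]; exact one_ne_zero)
    · exact reg hRet hg (fun u hu => (hvs' u hu).1) ht _ (P0 K) p1 (fun u hu => p2 u (List.mem_cons_of_mem _ hu))
        (by rw [e2]; exact one_ne_zero)

lemma pot_mem {R : Type} [CommRing R] (I : Ideal R) : ∀ (ps : List (R × R)) (W₀ : R), W₀ ∈ I → (∀ q ∈ ps, q.1 ∈ I) →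
    pot W₀ ps ∈ I
  | [], W₀, h, _ => h
  | q :: ps, W₀, h, hq => by
    have h1 : pot W₀ (q :: ps) = pot (W₀ + q.1 * q.2) ps := rfl
    rw [h1]
    exact pot_mem I ps _ (I.add_mem h (I.mul_mem_right _ (hq q List.mem_cons_self)))
      fun q' hq' => hq q' (List.mem_cons_of_mem _ hq')

/-- the substitution -/
def sg (a : Par K) (κ : K) (v : Fin 3 × Fin 5) : PP K :=
  (![![0, 0, 0, -(C κ * X (0, 2)), C a.c * X (0, 2) ^ 2], ![-X (1, 4), 0, 0, -(C κ * X (1, 2)), 0],
    ![-X (2, 4), 0, 0, -(C κ * X (2, 2)), 0]] : Fin 3 → Fin 5 → PP K) v.1 v.2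

lemma sub_sg (a : Par K) (κ : K) : Sub (sg a κ) where
  inv := by
    intro r hr v
    have h1 := hr (0, 2) (by decide)
    have h2 := hr (1, 2) (by decide)
    have h3 := hr (2, 2) (by decide)
    have h4 := hr (1, 4) (by decide)
    have h5 := hr (2, 4) (by decide)
    have hC : ∀ x : K, r (C x) = C x := fun x => by rw [algHom_C, algebraMap_eq]
    obtain ⟨i, j⟩ := v
    fin_cases i <;> fin_cases j <;> simp [sg, h1, h2, h3, h4, h5, hC]
  van := by
    intro r hr v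
    have h1 := hr (0, 2) (by decide)
    have h2 := hr (1, 2) (by decide)
    have h3 := hr (2, 2) (by decide)
    have h4 := hr (1, 4) (by decide)
    have h5 := hr (2, 4) (by decide)
    obtain ⟨i, j⟩ := v
    fin_cases i <;> fin_cases j <;> simp [sg, h1, h2, h3, h4, h5]

lemma pot_eq (a : Par K) {κ : K} (hκ : κ ^ 5 = 1 - 5 * a.c ^ 2) :
    pot (X (0, 0) * X (0, 1)) (prs a κ) = WW a := by
  have h1 : (C κ : PP K) ^ 5 = 1 - 5 * C a.c ^ 2 := by
    have h5 : (C (5 : K) : PP K) = 5 := map_ofNat C 5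
    rw [← C_pow, hκ, C_sub, C_1, C_mul, C_pow, h5]
  have h2 : (C (2 * a.c) : PP K) = 2 * C a.c := by
    have h5 : (C (2 : K) : PP K) = 2 := map_ofNat C 2
    rw [C_mul, h5]
  simp only [pot, prs, List.foldl_cons, List.foldl_nil, WW, fS, ff, uf, Qf, algebraMap_eq, h2, map_pow]
  linear_combination ((X (0, 2) : PP K) ^ 5 + X (1, 2) ^ 5 + X (2, 2) ^ 5) * h1

end GoodM_aux

open GoodM_aux in
theorem tGoodM : S_Ret → S_Rgp → S_GoodM := by
  intro hRet _h K _ _ a κ hκ
  have hp := pot_eq a hκ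
  refine ⟨hp, ?_, ?_⟩
  · refine good hRet (sub_sg a κ) [(0, 3), (0, 4), (1, 1), (1, 0), (1, 3), (2, 1), (2, 0), (2, 3)] _ _ (by decide)
      (by decide) ?_ ?_
    · unfold prs
      refine .cons ?_ (.cons ?_ (.cons ?_ (.cons ?_ (.cons ?_ (.cons ?_ (.cons ?_ (.cons ?_ .nil)))))))
      all_goals simp [sg]
    · simp [P0]
  · rw [← hp]
    unfold IM
    refine pot_mem _ _ _ (Ideal.mul_mem_right _ _ ?_) ?_
    · exact Ideal.subset_span ⟨_, List.mem_cons_self, rfl⟩
    · intro q hq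
      exact Ideal.subset_span ⟨q, List.mem_cons_of_mem _ hq, rfl⟩

end Pool.Agent.QV
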