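import Pool.Agent.Lib.MP_b53bfe_ag.Q.SpecG

/-!
# Iterated contraction
-/

set_option autoImplicit false

noncomputable section

namespace Pool.Agent.QV

open Matrix MvPolynomial TensorProduct

open Pool.Agent.FY (Res)

namespace Gx1_aux

variable {R M : Type} [CommRing R] [AddCommGroup M] [Module R M]

/-- the product of the one-forms -/
def P {n : ℕ} (α : Fin n → M) : ExteriorAlgebra R M := (List.ofFn fun i => ExteriorAlgebra.ι R (α i)).prod

theorem P_succ {n : ℕ} (α : Fin (n + 1) → M) :
    P (R := R) α = ExteriorAlgebra.ι R (α 0) * P fun i => α i.succ := by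
  unfold P
  rw [List.ofFn_succ, List.prod_cons]

theorem P_zero (α : Fin 0 → M) : P (R := R) α = 1 := by
  unfold P
  rw [List.ofFn_zero, List.prod_nil]

theorem contr_mul (f : Module.Dual R M) (a : M) (b : ExteriorAlgebra R M) :
    CliffordAlgebra.contractLeft f (ExteriorAlgebra.ι R a * b) =
      f a • b - ExteriorAlgebra.ι R a * CliffordAlgebra.contractLeft f b :=
  CliffordAlgebra.contractLeft_ι_mul f a b

theorem foldl_sum (l : List (Module.Dual R M)) {ι : Type} (s : Finset ι) (c : ι → R) (z : ι → ExteriorAlgebra R M) :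
    l.foldl (fun z f => CliffordAlgebra.contractLeft f z) (∑ i ∈ s, c i • z i) =
      ∑ i ∈ s, c i • l.foldl (fun z f => CliffordAlgebra.contractLeft f z) (z i) := by
  induction l generalizing z with
  | nil => rfl
  | cons f l ih =>
    simp only [List.foldl_cons]
    rw [map_sum]
    simp only [map_smul]
    exact ih _

theorem one_contr (f : Module.Dual R M) (y : ExteriorAlgebra R M) (hy : CliffordAlgebra.contractLeft f y = 0) (m : ℕ)
    (α : Fin (m + 1) → M) :
    CliffordAlgebra.contractLeft f (P α * y) =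
      ∑ i : Fin (m + 1), ((-1) ^ (i : ℕ) * f (α i)) • ((P fun j : Fin m => α (i.succAbove j)) * y) := by
  induction m with
  | zero =>
    rw [P_succ, P_zero, mul_one, contr_mul, hy, mul_zero, sub_zero, Fin.sum_univ_one, P_zero, Fin.val_zero, pow_zero,
      one_mul, one_mul]
  | succ m ih =>
    rw [P_succ α, mul_assoc, contr_mul, Fin.sum_univ_succ, ih (fun i => α i.succ), sub_eq_add_neg]
    congr 1
    · rw [Fin.val_zero, pow_zero, one_mul]
      simp only [Fin.zero_succAbove]
    · rw [Finset.mul_sum, ← Finset.sum_neg_distrib]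
      refine Finset.sum_congr rfl fun i _ => ?_
      rw [P_succ (fun j : Fin (m + 1) => α (i.succ.succAbove j)), Fin.succ_succAbove_zero, mul_smul_comm, ← neg_smul,
        mul_assoc]
      simp only [Fin.succ_succAbove_succ, Fin.val_succ]
      congr 1
      rw [pow_succ]
      ring

theorem snoc_zero {D : Type} {k : ℕ} (φ : Fin (k + 1) → D) (ψ : D) : (Fin.snoc φ ψ : Fin (k + 2) → D) 0 = φ 0 := by
  rw [show (0 : Fin (k + 2)) = Fin.castSucc 0 from rfl, Fin.snoc_castSucc]

theorem snoc_succ {D : Type} {k : ℕ} (φ : Fin (k + 1) → D) (ψ : D) (j : Fin (k + 1)) :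
    (Fin.snoc φ ψ : Fin (k + 2) → D) j.succ = (Fin.snoc (fun i : Fin k => φ i.succ) ψ : Fin (k + 1) → D) j := by
  induction j using Fin.lastCases with
  | last => rw [Fin.succ_last, Fin.snoc_last, Fin.snoc_last]
  | cast i => rw [Fin.succ_castSucc, Fin.snoc_castSucc, Fin.snoc_castSucc]

theorem main (k : ℕ) (φ : Fin k → Module.Dual R M) (α : Fin (k + 1) → M) (y : ExteriorAlgebra R M)
    (hy : ∀ i, CliffordAlgebra.contractLeft (φ i) y = 0) :
    ∃ n : M, (List.ofFn φ).foldl (fun z f => CliffordAlgebra.contractLeft f z) (P α * y) = ExteriorAlgebra.ι R n * y ∧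
      ∀ ψ : Module.Dual R M, ψ n =
        (Matrix.of fun i j : Fin (k + 1) => (Fin.snoc φ ψ : Fin (k + 1) → Module.Dual R M) j (α i)).det := by
  induction k with
  | zero =>
    refine ⟨α 0, ?_, fun ψ => ?_⟩
    · rw [List.ofFn_zero, List.foldl_nil, P_succ, P_zero, mul_one]
    · have h0 : (Fin.snoc φ ψ : Fin 1 → Module.Dual R M) 0 = ψ := Fin.snoc_last (α := fun _ => Module.Dual R M) ψ φ
      have h1 := Matrix.det_fin_one
        (Matrix.of fun i j : Fin 1 => (Fin.snoc φ ψ : Fin 1 → Module.Dual R M) j (α i))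
      rw [Matrix.of_apply, h0] at h1
      exact h1.symm
  | succ k ih =>
    have h1 := fun i : Fin (k + 2) => ih (fun j => φ j.succ) (fun j => α (i.succAbove j)) (fun j => hy _)
    choose n hn1 hn2 using h1
    refine ⟨∑ i : Fin (k + 2), ((-1) ^ (i : ℕ) * φ 0 (α i)) • n i, ?_, fun ψ => ?_⟩
    · rw [List.ofFn_succ (f := φ), List.foldl_cons, one_contr (φ 0) y (hy 0), foldl_sum, map_sum, Finset.sum_mul]
      refine Finset.sum_congr rfl fun i _ => ?_
      rw [hn1, map_smul, smul_mul_assoc]
    · rw [map_sum, Matrix.det_succ_column_zero]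
      refine Finset.sum_congr rfl fun i _ => ?_
      rw [map_smul, smul_eq_mul, hn2, Matrix.of_apply, snoc_zero]
      have h2 : (Matrix.of fun i j : Fin (k + 2) => (Fin.snoc φ ψ : Fin (k + 2) → Module.Dual R M) j
          (α i)).submatrix i.succAbove Fin.succ =
          Matrix.of fun i' j : Fin (k + 1) => (Fin.snoc (fun j : Fin k => φ j.succ) ψ : Fin (k + 1) → Module.Dual R M) j
            (α (i.succAbove i')) := by
        ext i' j
        rw [Matrix.submatrix_apply, Matrix.of_apply, Matrix.of_apply, snoc_succ]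
      rw [h2]

end Gx1_aux

theorem tGx1 : S_Gx1 := by
  intro R M _ _ _ k φ α y hy
  exact Gx1_aux.main k φ α y hy

end Pool.Agent.QV
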