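import Pool.Agent.Lib.MP_b53bfe_ag.Q.SpecH

/-!
# The final contradiction of Part H
-/

set_option autoImplicit false

noncomputable section

namespace Pool.Agent.QV

open Matrix MvPolynomial TensorProduct

namespace HH_aux

section

variable {K : Type} [Field K]

theorem tf_tmul (l m : S4 K →ₗ[K] K) (u v : S4 K) : tf l m (u ⊗ₜ v) = l u * m v := by
  simp [tf]

theorem tf_mul_left (l m : S4 K →ₗ[K] K) (g : S4 K) {n : ℕ} (c : Fin n → K) (δ : Fin n → (S4 K →ₗ[K] K))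
    (h : ∀ z, l (g * z) = ∑ s, c s * δ s z) (z : S4 K ⊗[K] S4 K) :
    tf l m ((g ⊗ₜ 1) * z) = ∑ s, c s * tf (δ s) m z := by
  induction z using TensorProduct.induction_on with
  | zero => simp
  | tmul u v =>
    rw [Algebra.TensorProduct.tmul_mul_tmul, tf_tmul, h, one_mul, Finset.sum_mul]
    refine Finset.sum_congr rfl fun s _ => ?_
    rw [tf_tmul]; ring
  | add u v hu hv =>
    rw [mul_add, map_add, hu, hv, ← Finset.sum_add_distrib]
    refine Finset.sum_congr rfl fun s _ => ?_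
    rw [map_add]; ring

theorem tf_mul_right (l m : S4 K →ₗ[K] K) (g : S4 K) {n : ℕ} (c : Fin n → K) (δ : Fin n → (S4 K →ₗ[K] K))
    (h : ∀ z, m (g * z) = ∑ s, c s * δ s z) (z : S4 K ⊗[K] S4 K) :
    tf l m ((1 ⊗ₜ g) * z) = ∑ s, c s * tf l (δ s) z := by
  induction z using TensorProduct.induction_on with
  | zero => simp
  | tmul u v =>
    rw [Algebra.TensorProduct.tmul_mul_tmul, tf_tmul, h, one_mul, Finset.mul_sum]
    refine Finset.sum_congr rfl fun s _ => ?_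
    rw [tf_tmul]; ring
  | add u v hu hv =>
    rw [mul_add, map_add, hu, hv, ← Finset.sum_add_distrib]
    refine Finset.sum_congr rfl fun s _ => ?_
    rw [map_add]; ring

theorem sum_cf3 (γ : Fin 6 → K) (y : Fin 6 → Fin 6 → K) (t : Tr3) :
    ∑ p : Pr2, cf3 γ t p * y p.1.1 p.1.2 =
      γ t.1.1 * y t.1.2.1 t.1.2.2 - γ t.1.2.1 * y t.1.1 t.1.2.2 + γ t.1.2.2 * y t.1.1 t.1.2.1 := by
  obtain ⟨⟨i, j, r⟩, h1, h2⟩ := t
  simp only at h1 h2
  have h3 : i < r := h1.trans h2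
  have e : ∀ p : Pr2, cf3 γ ⟨(i, j, r), h1, h2⟩ p * y p.1.1 p.1.2 =
      (if p = ⟨(j, r), h2⟩ then γ i * y j r else 0) - (if p = ⟨(i, r), h3⟩ then γ j * y i r else 0) +
        (if p = ⟨(i, j), h1⟩ then γ r * y i j else 0) := by
    intro p
    obtain ⟨⟨a, b⟩, hab⟩ := p
    simp only [cf3, Subtype.mk.injEq, Prod.mk.injEq]
    have n1 : i ≠ j := h1.ne
    have n2 : j ≠ r := h2.ne
    by_cases c1 : a = j ∧ b = r
    · obtain ⟨rfl, rfl⟩ := c1
      simp [n1.symm, n2.symm]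
    · by_cases c2 : a = i ∧ b = r
      · obtain ⟨rfl, rfl⟩ := c2
        simp [n1, n2.symm]
      · by_cases c3 : a = i ∧ b = j
        · obtain ⟨rfl, rfl⟩ := c3
          simp [n1, n2]
        · simp [c1, c2, c3]
  rw [Finset.sum_congr rfl fun p _ => e p, Finset.sum_add_distrib, Finset.sum_sub_distrib]
  simp

/-- congruence modulo the maximal ideal -/
def Cg (𝒪 : ValuationSubring K) (x y : K) : Prop := 𝒪.valuation (x - y) < 1

theorem Cg.sub {𝒪 : ValuationSubring K} {x y a b : K} (h : Cg 𝒪 x a) (h' : Cg 𝒪 y b) : Cg 𝒪 (x - y) (a - b) := by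
  have e : x - y - (a - b) = (x - a) - (y - b) := by ring
  unfold Cg
  rw [e]
  exact (Valuation.map_sub 𝒪.valuation _ _).trans_lt (max_lt h h')

theorem Cg.mul {𝒪 : ValuationSubring K} {x y a b : K} (h : Cg 𝒪 x a) (h' : Cg 𝒪 y b) (ha : 𝒪.valuation a ≤ 1)
    (hb : 𝒪.valuation b ≤ 1) : Cg 𝒪 (x * y) (a * b) := by
  have e : x * y - a * b = ((x - a) * (y - b) + a * (y - b)) + b * (x - a) := by ring
  unfold Cg at h h' ⊢
  rw [e]
  refine (Valuation.map_add 𝒪.valuation _ _).trans_lt (max_lt ((Valuation.map_add 𝒪.valuation _ _).trans_lt (max_lt ?_ ?_)) ?_)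
  · rw [map_mul]
    exact mul_lt_one_of_nonneg_of_lt_one_left zero_le h h'.le
  · rw [map_mul]
    exact mul_lt_one_of_nonneg_of_lt_one_right ha zero_le h'
  · rw [map_mul]
    exact mul_lt_one_of_nonneg_of_lt_one_right hb zero_le h

theorem val_int (𝒪 : ValuationSubring K) (n : ℤ) : 𝒪.valuation (n : K) ≤ 1 :=
  (ValuationSubring.valuation_le_one_iff 𝒪 _).2 (intCast_mem 𝒪 n)

end

end HH_aux

open HH_aux

theorem tHH : S_Hc → S_L7 → S_L8 → S_Tab → S_Gh → S_HH := by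
  intro hc h7 h8 htab hgh K _ _ a 𝒪 ha
  rintro ⟨x, hx⟩
  obtain ⟨l, hl, hl'⟩ := h7 K a 𝒪 ha
  obtain ⟨m, hm, hm'⟩ := h8 K a 𝒪 ha
  obtain ⟨t1, t2, t3, t4⟩ := htab K a 𝒪 ha
  set α : Fin 6 → Fin 14 → Fin 5 → K := fun i b s => l b (GG a i * monomial (ex4 (B2l s)) 1) with hα
  set β : Fin 6 → Fin 12 → Fin 8 → K := fun i b s => m b (GG a i * monomial (ex4 (B3l s)) 1) with hβ
  set δ2 : Fin 5 → (S4 K →ₗ[K] K) := fun s => lcoeff K (ex4 (B2l s)) with hδ2
  set δ3 : Fin 8 → (S4 K →ₗ[K] K) := fun s => lcoeff K (ex4 (B3l s)) with hδ3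
  have rα : ∀ i b s, 𝒪.valuation (α i b s - ((alz i b s : ℤ) : K)) < 1 := by
    intro i b s
    obtain ⟨hz, q1, q2⟩ := t1 i s
    have := hl' b _ hz q1
    rwa [q2] at this
  have rβ : ∀ i b s, 𝒪.valuation (β i b s - ((bez i b s : ℤ) : K)) < 1 := by
    intro i b s
    obtain ⟨hz, q1, q2⟩ := t2 i s
    have := hm' b _ hz q1
    rwa [q2] at this
  let c1 : Fin 6 → Fin 14 → ℤ := fun i b => if (i = 1 ∧ b = 12) ∨ (i = 4 ∧ b = 2) then 1 else 0
  let c2 : Fin 6 → Fin 12 → ℤ := fun i b => if i = 4 ∧ b = 2 then 1 else 0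
  have rp1 : ∀ i b, Cg 𝒪 (l b (ps1 a i)) ((c1 i b : ℤ) : K) := by
    intro i b
    obtain ⟨hz, q1, q2⟩ := t3 i
    have := hl' b _ hz q1
    rwa [q2] at this
  have rp2 : ∀ i b, Cg 𝒪 (m b (ps2 a i)) ((c2 i b : ℤ) : K) := by
    intro i b
    obtain ⟨hz, q1, q2⟩ := t4 i
    have := hm' b _ hz q1
    rwa [q2] at this
  let F : I3 → K := fun r => tf (l r.2.1) (m r.2.2) (FF a r.1.1.1 r.1.1.2.1 r.1.1.2.2)
  have rF' : ∀ r : I3, Cg 𝒪 (F r) ((if r.1.1.1 = 0 then c1 r.1.1.2.1 r.2.1 * c2 r.1.1.2.2 r.2.2 - c1 r.1.1.2.2 r.2.1 * c2 r.1.1.2.1 r.2.2 else 0 : ℤ) : K) := by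
    rintro ⟨⟨⟨i, j, r⟩, h1, h2⟩, b, b'⟩
    simp only [F, FF]
    by_cases hi : i = 0
    · rw [if_pos hi, if_pos hi, map_sub, tf_tmul, tf_tmul]
      push_cast
      exact Cg.sub (Cg.mul (rp1 _ _) (rp2 _ _) (val_int _ _) (val_int _ _)) (Cg.mul (rp1 _ _) (rp2 _ _) (val_int _ _) (val_int _ _))
    · rw [if_neg hi, if_neg hi]
      unfold Cg
      simp
  have key : ∀ r : I3, (if r.1.1.1 = 0 then c1 r.1.1.2.1 r.2.1 * c2 r.1.1.2.2 r.2.2 - c1 r.1.1.2.2 r.2.1 * c2 r.1.1.2.1 r.2.2 else 0 : ℤ) =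
      if r = rF then 1 else 0 := by
    rintro ⟨⟨⟨i, j, r⟩, h1, h2⟩, b, b'⟩
    simp only at h1 h2
    simp only [rF, c1, c2, Prod.mk.injEq, Subtype.mk.injEq]
    by_cases hi : i = 0
    · rw [if_pos hi]
      by_cases hb' : b' = 2
      · by_cases hr : r = 4
        · subst hr hb' hi
          by_cases hj : j = 1
          · subst hj
            by_cases hb : b = 12
            · subst hb; simp
            · simp [hb]
          · have : j ≠ 4 := h2.ne
            simp [hj, this]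
        · by_cases hj : j = 4
          · subst hj
            have : r ≠ 1 := by
              rintro rfl
              exact absurd h2 (by decide)
            simp [hr, this]
          · simp [hr, hj]
      · simp [hb']
    · simp [hi]
  have f1 : 𝒪.valuation (F rF - 1) < 1 := by
    have := rF' rF
    rw [key rF, if_pos rfl] at this
    simpa [Cg] using this
  have f2 : ∀ r, r ≠ rF → 𝒪.valuation (F r) < 1 := by
    intro r hr
    have := rF' r
    rw [key r, if_neg hr] at this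
    simpa [Cg] using this
  refine hc K 𝒪 α β F ha.int rα rβ f1 f2 ⟨fun c => match c with
    | Sum.inl (p, b, s) => tf (l b) (δ3 s) (x p.1.1 p.1.2)
    | Sum.inr (p, s, b) => tf (δ2 s) (m b) (x p.1.1 p.1.2), ?_⟩
  funext r
  obtain ⟨t, b, b'⟩ := r
  have hl7 : ∀ i z, l b (GG a i * z) = ∑ s, α i b s * δ2 s z := fun i z => (hgh K a i (l b)).1 (hl b).2 z
  have hm8 : ∀ i z, m b' (GG a i * z) = ∑ s, β i b' s * δ3 s z := fun i z => (hgh K a i (m b')).2 (hm b').2 z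
  have hG : ∀ i z, tf (l b) (m b') ((GG a i ⊗ₜ 1 + 1 ⊗ₜ GG a i) * z) =
      (∑ s, α i b s * tf (δ2 s) (m b') z) + ∑ s, β i b' s * tf (l b) (δ3 s) z := by
    intro i z
    rw [add_mul, map_add, tf_mul_left _ _ _ _ _ (hl7 i), tf_mul_right _ _ _ _ _ (hm8 i)]
  have eF : F (t, b, b') = tf (l b) (m b') (dd a x t.1.1 t.1.2.1 t.1.2.2) :=
    hx (l b) (m b') (hl b) (hm b') _ _ _ t.2.1 t.2.2
  rw [eF]
  simp only [dd, map_add, map_sub, hG]
  simp only [Matrix.mulVec, dotProduct, Fintype.sum_sum_type, Fintype.sum_prod_type, D2m]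
  simp only [ite_mul, zero_mul, Finset.sum_ite_irrel, Finset.sum_const_zero, Finset.sum_ite_eq, Finset.mem_univ, if_true]
  have L1 := fun s => sum_cf3 (fun i => β i b' s) (fun p q => tf (l b) (δ3 s) (x p q)) t
  have L2 := fun s => sum_cf3 (fun i => α i b s) (fun p q => tf (δ2 s) (m b') (x p q)) t
  rw [Finset.sum_comm, Finset.sum_congr rfl fun s _ => L1 s]
  rw [Finset.sum_comm (f := fun (p : Pr2) s => cf3 (fun i => α i b s) t p * tf (δ2 s) (m b') (x p.1.1 p.1.2)),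
    Finset.sum_congr rfl fun s _ => L2 s]
  simp only [Finset.sum_add_distrib, Finset.sum_sub_distrib]
  ring

end Pool.Agent.QV
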