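import Pool.Agent.Lib.MP_b53bfe_ag.Q.SpecH

/-!
# Disproof of Q1 of MP_b53bfe_ag for quintic threefolds. Part H: linear algebra over a valuation ring
-/

set_option autoImplicit false

noncomputable section

namespace Pool.Agent.QV

open Matrix MvPolynomial TensorProduct

namespace HLA_aux

variable {K : Type} [Field K] (𝒪 : ValuationSubring K)

theorem val_int_le (hint : ∀ n : ℤ, n ≠ 0 → 𝒪.valuation (n : K) = 1) (E : ℤ) : 𝒪.valuation ((E : ℤ) : K) ≤ 1 := by
  by_cases h : E = 0
  · subst h; simp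
  · exact (hint E h).le

theorem val_le (hint : ∀ n : ℤ, n ≠ 0 → 𝒪.valuation (n : K) = 1) {x : K} {E : ℤ}
    (h : 𝒪.valuation (x - ((E : ℤ) : K)) < 1) : 𝒪.valuation x ≤ 1 := by
  have h1 : x = (x - ((E : ℤ) : K)) + ((E : ℤ) : K) := by ring
  rw [h1]
  exact 𝒪.valuation.map_add_le h.le (val_int_le 𝒪 hint E)

theorem val_eq (hint : ∀ n : ℤ, n ≠ 0 → 𝒪.valuation (n : K) = 1) {x : K} {E : ℤ} (hE : E ≠ 0)
    (h : 𝒪.valuation (x - ((E : ℤ) : K)) < 1) : 𝒪.valuation x = 1 := by
  have h1 : x = (x - ((E : ℤ) : K)) + ((E : ℤ) : K) := by ring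
  have h2 : 𝒪.valuation (x - ((E : ℤ) : K)) < 𝒪.valuation ((E : ℤ) : K) := by rw [hint E hE]; exact h
  rw [h1, Valuation.map_add_eq_of_lt_right _ h2]
  exact hint E hE

theorem mul_lt_left {x y : K} (hx : 𝒪.valuation x ≤ 1) (hy : 𝒪.valuation y < 1) : 𝒪.valuation (x * y) < 1 := by
  rw [map_mul]
  exact lt_of_le_of_lt (mul_le_of_le_one_left' hx) hy

theorem mul_lt_right {x y : K} (hx : 𝒪.valuation x < 1) (hy : 𝒪.valuation y ≤ 1) : 𝒪.valuation (x * y) < 1 := by
  rw [mul_comm]
  exact mul_lt_left 𝒪 hy hx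

/-- triangular systems over the residue field -/
theorem tri {I J : Type} [Fintype J] [DecidableEq J] (hint : ∀ n : ℤ, n ≠ 0 → 𝒪.valuation (n : K) = 1)
    (D : Matrix I J K) (E : Matrix I J ℤ) (hD : ∀ i j, 𝒪.valuation (D i j - ((E i j : ℤ) : K)) < 1)
    (F : I → K) (P : J → Prop) (pos : J → ℕ) (row : J → I)
    (hF : ∀ c, P c → 𝒪.valuation (F (row c)) < 1)
    (hrow : ∀ c, P c → E (row c) c ≠ 0 ∧ ∀ c', E (row c) c' ≠ 0 → c' ≠ c → pos c' < pos c)
    (a : J → K) (e : K) (ha : ∀ c, ¬ P c → a c = 0) (hle : ∀ c, 𝒪.valuation (a c) ≤ 1) (he : 𝒪.valuation e ≤ 1)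
    (hrel : ∀ r, ∑ c, D r c * a c + e * F r = 0) : ∀ c, 𝒪.valuation (a c) < 1 := by
  have key : ∀ n c, pos c = n → 𝒪.valuation (a c) < 1 := by
    intro n
    induction n using Nat.strong_induction_on with
    | _ n ih =>
      intro c hc
      by_cases hP : P c
      · obtain ⟨h1, h2⟩ := hrow c hP
        have hr := hrel (row c)
        rw [← Finset.add_sum_erase Finset.univ _ (Finset.mem_univ c)] at hr
        have h3 : D (row c) c * a c = -(∑ x ∈ Finset.univ.erase c, D (row c) x * a x + e * F (row c)) := by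
          linear_combination hr
        have h4 : 𝒪.valuation (∑ x ∈ Finset.univ.erase c, D (row c) x * a x) < 1 := by
          apply Valuation.map_sum_lt _ one_ne_zero
          intro x hx
          have hxc : x ≠ c := Finset.ne_of_mem_erase hx
          by_cases hE : E (row c) x = 0
          · have h5 := hD (row c) x
            rw [hE, Int.cast_zero, sub_zero] at h5
            exact mul_lt_right 𝒪 h5 (hle x)
          · exact mul_lt_left 𝒪 (val_le 𝒪 hint (hD (row c) x)) (ih (pos x) (hc ▸ h2 x hE hxc) x rfl)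
        have h5 : 𝒪.valuation (e * F (row c)) < 1 := mul_lt_left 𝒪 he (hF c hP)
        have h6 : 𝒪.valuation (D (row c) c * a c) < 1 := by
          rw [h3, Valuation.map_neg]
          exact Valuation.map_add_lt _ h4 h5
        rw [map_mul, val_eq 𝒪 hint h1 (hD (row c) c), one_mul] at h6
        exact h6
      · rw [ha c hP]; simp
  exact fun c => key _ c rfl

/-- a nonzero finite family has a member of maximal valuation -/
theorem exists_max {J : Type} [Fintype J] (a : J → K) (c1 : J) (h1 : a c1 ≠ 0) :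
    ∃ c0, a c0 ≠ 0 ∧ ∀ c, 𝒪.valuation (a c / a c0) ≤ 1 := by
  obtain ⟨c0, -, h0⟩ := Finset.exists_max_image Finset.univ (fun c => 𝒪.valuation (a c)) ⟨c1, Finset.mem_univ _⟩
  have h2 : a c0 ≠ 0 := by
    intro h
    have h3 := h0 c1 (Finset.mem_univ _)
    simp only [h, map_zero, le_zero_iff] at h3
    exact h1 ((Valuation.zero_iff _).1 h3)
  refine ⟨c0, h2, fun c => ?_⟩
  have h3 : 0 < 𝒪.valuation (a c0) := (Valuation.pos_iff _).2 h2
  rw [map_div₀, div_le_one₀ h3]
  exact h0 c (Finset.mem_univ _)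

/-- independence of the columns, with the extra vector `F` -/
theorem indep {I J : Type} [Fintype J] [DecidableEq J] (hint : ∀ n : ℤ, n ≠ 0 → 𝒪.valuation (n : K) = 1)
    (D : Matrix I J K) (E : Matrix I J ℤ) (hD : ∀ i j, 𝒪.valuation (D i j - ((E i j : ℤ) : K)) < 1)
    (F : I → K) (r0 : I) (hF0 : 𝒪.valuation (F r0 - 1) < 1) (P : J → Prop) (pos : J → ℕ) (row : J → I)
    (hF : ∀ c, P c → 𝒪.valuation (F (row c)) < 1)
    (hrow : ∀ c, P c → E (row c) c ≠ 0 ∧ ∀ c', E (row c) c' ≠ 0 → c' ≠ c → pos c' < pos c)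
    (a : J → K) (e : K) (ha : ∀ c, ¬ P c → a c = 0)
    (hrel : ∀ r, ∑ c, D r c * a c + e * F r = 0) : (∀ c, a c = 0) ∧ e = 0 := by
  by_contra hcon
  have hex : ∃ o : Option J, (Option.elim o e a) ≠ 0 := by
    by_contra h
    push Not at h
    exact hcon ⟨fun c => h (some c), h none⟩
  obtain ⟨o1, ho1⟩ := hex
  obtain ⟨o0, h0, hmax⟩ := exists_max 𝒪 (fun o : Option J => Option.elim o e a) o1 ho1
  set q : K := Option.elim o0 e a with hq
  have hale : ∀ c, 𝒪.valuation (a c / q) ≤ 1 := fun c => hmax (some c)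
  have hele : 𝒪.valuation (e / q) ≤ 1 := hmax none
  have hrel' : ∀ r, ∑ c, D r c * (a c / q) + (e / q) * F r = 0 := by
    intro r
    have h1 : ∑ c, D r c * (a c / q) + (e / q) * F r = (∑ c, D r c * a c + e * F r) / q := by
      rw [add_div, Finset.sum_div]
      congr 1
      · exact Finset.sum_congr rfl fun c _ => by ring
      · ring
    rw [h1, hrel r, zero_div]
  have hlt := tri 𝒪 hint D E hD F P pos row hF hrow (fun c => a c / q) (e / q)
    (fun c hc => by simp [ha c hc]) hale hele hrel'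
  have h4 : 𝒪.valuation (∑ c, D r0 c * (a c / q)) < 1 := by
    apply Valuation.map_sum_lt _ one_ne_zero
    intro x _
    exact mul_lt_left 𝒪 (val_le 𝒪 hint (hD r0 x)) (hlt x)
  have h5 : 𝒪.valuation (F r0) = 1 := by
    have h6 : F r0 = (F r0 - 1) + 1 := by ring
    have h7 : 𝒪.valuation (F r0 - 1) < 𝒪.valuation (1 : K) := by rw [map_one]; exact hF0
    rw [h6, Valuation.map_add_eq_of_lt_right _ h7, map_one]
  have helt : 𝒪.valuation (e / q) < 1 := by
    have h6 : (e / q) * F r0 = -(∑ c, D r0 c * (a c / q)) := by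
      linear_combination hrel' r0
    have h7 : 𝒪.valuation ((e / q) * F r0) < 1 := by
      rw [h6, Valuation.map_neg]; exact h4
    rw [map_mul, h5, mul_one] at h7
    exact h7
  have hself : 𝒪.valuation (q / q) < 1 := by
    cases o0 with
    | none => exact helt
    | some c => exact hlt c
  rw [div_self h0, map_one] at hself
  exact lt_irrefl _ hself

end HLA_aux

open HLA_aux in
theorem tHLA : S_HLA := by
  intro K _ 𝒪 J1 J2 J3 _ _ _ _ _ _ D1 D2 E1 E2 F r0 hint h21 hD1 hD2 hF0 hF hc1 hc2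
  classical
  rintro ⟨w, hw⟩
  obtain ⟨pos1, row1, h1⟩ := hc1
  obtain ⟨pos, row, hcard, h2⟩ := hc2
  -- (A)
  have hA : ∀ z : J1 → K, D1.mulVec z = 0 → z = 0 := by
    intro z hz
    by_contra hne
    obtain ⟨c1, hc1⟩ := Function.ne_iff.1 hne
    obtain ⟨c0, h0, hmax⟩ := exists_max 𝒪 z c1 hc1
    have h3 := tri 𝒪 hint D1 E1 hD1 (fun _ => 0) (fun _ => True) pos1 row1 (fun c _ => by simp)
      (fun c _ => h1 c) (fun c => z c / z c0) 0 (fun c hc => absurd trivial hc) hmax (by simp) (fun r => by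
        have h4 := congrFun hz r
        simp only [Matrix.mulVec, dotProduct, Pi.zero_apply] at h4
        have h5 : ∑ c, D1 r c * (z c / z c0) = (∑ c, D1 r c * z c) / z c0 := by
          rw [Finset.sum_div]
          exact Finset.sum_congr rfl fun c _ => by ring
        rw [h5, h4]; simp) c0
    simp only [div_self h0, map_one, lt_irrefl] at h3
  -- (B)
  have hB : ∀ (a : J2 → K) (e : K), (∀ c, pos c = 0 → a c = 0) → D2.mulVec a + e • F = 0 → a = 0 ∧ e = 0 := by
    intro a e ha hrel
    have h3 := indep 𝒪 hint D2 E2 hD2 F r0 hF0 (fun c => pos c ≠ 0) pos row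
      (fun c hc => hF _ (h2 c hc).2.1) (fun c hc => ⟨(h2 c hc).1, (h2 c hc).2.2⟩) a e
      (fun c hc => ha c (not_not.1 hc)) (fun r => by
        have := congrFun hrel r
        simpa [Matrix.mulVec, dotProduct] using this)
    exact ⟨funext h3.1, h3.2⟩
  -- (C)
  let Ψ : (J1 → K) × ({c : J2 // pos c ≠ 0} → K) × K →ₗ[K] (J2 → K) :=
    LinearMap.coprod D1.mulVecLin (LinearMap.coprod (Function.ExtendByZero.linearMap K (Subtype.val : {c : J2 // pos c ≠ 0} → J2))
      (LinearMap.toSpanSingleton K _ w))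
  have hΨ : Function.Injective Ψ := by
    rw [injective_iff_map_eq_zero]
    rintro ⟨z, a, e⟩ h
    have h3 : D1.mulVec z + (Function.extend Subtype.val a 0 + e • w) = 0 := h
    have h4 : D2.mulVec (Function.extend Subtype.val a 0) + e • F = 0 := by
      have h5 := congrArg D2.mulVec h3
      rw [Matrix.mulVec_add, Matrix.mulVec_mulVec, h21, Matrix.zero_mulVec, zero_add, Matrix.mulVec_add, Matrix.mulVec_smul, hw,
        Matrix.mulVec_zero] at h5
      exact h5
    have h6 : ∀ c : J2, pos c = 0 → Function.extend (Subtype.val : {c : J2 // pos c ≠ 0} → J2) a 0 c = 0 := by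
      intro c hc
      rw [Function.extend_apply']
      · rfl
      · rintro ⟨⟨c', hc'⟩, rfl⟩
        exact hc' hc
    obtain ⟨h7, h8⟩ := hB _ _ h6 h4
    have h9 : a = 0 := by
      funext c
      have h10 := congrFun h7 c.1
      rw [Subtype.val_injective.extend_apply] at h10
      exact h10
    subst h8
    subst h9
    have h11 : D1.mulVec z = 0 := by
      rw [h7, zero_smul, add_zero, add_zero] at h3
      exact h3
    rw [hA z h11]
    rfl
  have hfin := LinearMap.finrank_le_finrank_of_injective hΨ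
  rw [Module.finrank_prod, Module.finrank_prod, Module.finrank_self, Module.finrank_fintype_fun_eq_card,
    Module.finrank_fintype_fun_eq_card, Module.finrank_fintype_fun_eq_card, Fintype.card_subtype] at hfin
  have hsum := Finset.card_filter_add_card_filter_not (s := (Finset.univ : Finset J2)) (fun c => pos c = 0)
  rw [Finset.card_univ] at hsum
  have heq : (Finset.univ.filter fun c : J2 => pos c ≠ 0).card = (Finset.univ.filter fun c : J2 => ¬ pos c = 0).card := rfl
  omega

end Pool.Agent.QV
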