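import Pool.Agent.Lib.MP_b53bfe_ag.Q.SpecH

/-!
# MP_b53bfe_ag, Q/Hc: the special fiber argument
-/

set_option autoImplicit false

noncomputable section

namespace Pool.Agent.QV

open Matrix MvPolynomial TensorProduct

namespace Hc_aux

variable {K : Type} [Field K] (𝒪 : ValuationSubring K)

theorem neg_lt {x y : K} (h : 𝒪.valuation (x - y) < 1) : 𝒪.valuation (-x - -y) < 1 := by
  have : -x - -y = -(x - y) := by ring
  rw [this, Valuation.map_neg]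
  exact h

theorem zero_lt : 𝒪.valuation ((0 : K) - ((0 : ℤ) : K)) < 1 := by
  simp

theorem cf2_lt (γ : Fin 6 → K) (γz : Fin 6 → ℤ) (h : ∀ i, 𝒪.valuation (γ i - ((γz i : ℤ) : K)) < 1) (p : Pr2) (q : Fin 6) :
    𝒪.valuation (cf2 γ p q - ((cf2 γz p q : ℤ) : K)) < 1 := by
  unfold cf2
  split_ifs
  · exact h _
  · rw [Int.cast_neg]
    exact neg_lt 𝒪 (h _)
  · exact zero_lt 𝒪

theorem cf3_lt (γ : Fin 6 → K) (γz : Fin 6 → ℤ) (h : ∀ i, 𝒪.valuation (γ i - ((γz i : ℤ) : K)) < 1) (t : Tr3) (p : Pr2) :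
    𝒪.valuation (cf3 γ t p - ((cf3 γz t p : ℤ) : K)) < 1 := by
  unfold cf3
  split_ifs
  · exact h _
  · rw [Int.cast_neg]
    exact neg_lt 𝒪 (h _)
  · exact h _
  · exact zero_lt 𝒪

end Hc_aux

open Hc_aux in
theorem tHc : S_HLA → S_Cert1 → S_Cert2 → S_D21 → S_Hc := by
  intro hHLA hC1 hC2 hD K _ 𝒪 α β F hint hα hβ hF0 hF
  refine hHLA K 𝒪 I1 I2 I3 (D1m α β) (D2m α β) (D1m alz bez) (D2m alz bez) F rF hint (hD K α β) ?_ ?_ hF0 hF hC1 ?_
  · rintro (⟨p, b, s⟩ | ⟨p, s, b⟩) z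
    · simp only [D1m]
      split_ifs
      · exact cf2_lt 𝒪 (fun i => α i b z.2.1) (fun i => alz i b z.2.1) (fun i => hα i b z.2.1) p z.1
      · exact zero_lt 𝒪
    · simp only [D1m]
      split_ifs
      · exact cf2_lt 𝒪 (fun i => β i b z.2.2) (fun i => bez i b z.2.2) (fun i => hβ i b z.2.2) p z.1
      · exact zero_lt 𝒪
  · rintro r (⟨p, b, s⟩ | ⟨p, s, b⟩)
    · simp only [D2m]
      split_ifs
      · exact cf3_lt 𝒪 (fun i => β i r.2.2 s) (fun i => bez i r.2.2 s) (fun i => hβ i r.2.2 s) r.1 p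
      · exact zero_lt 𝒪
    · simp only [D2m]
      split_ifs
      · exact cf3_lt 𝒪 (fun i => α i r.2.1 s) (fun i => alz i r.2.1 s) (fun i => hα i r.2.1 s) r.1 p
      · exact zero_lt 𝒪
  · obtain ⟨pos, row, hcard, h⟩ := hC2
    refine ⟨pos, row, ?_, h⟩
    rw [hcard]
    simp [Fintype.card_prod]

end Pool.Agent.QV
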