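import Pool.Agent.Lib.MP_b53bfe_ag.Q.SpecA

/-!
# Isomorphism invariance of the Chern character of matrix factorizations
-/

set_option autoImplicit false

noncomputable section

namespace Pool.Agent.QV

open Matrix

namespace Inv_aux

/-- direct sums of matrix factorizations -/
theorem mf_sum {L : Type} [CommRing L] (W : L) {m n : Type} [Fintype m] [DecidableEq m] [Fintype n]
    [DecidableEq n] {A B : Matrix m m L} {A' B' : Matrix n n L} (h : IsMF W A B) (h' : IsMF W A' B') :
    IsMF W (fromBlocks A 0 0 A') (fromBlocks B 0 0 B') := by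
  have e : (W • (1 : Matrix (m ⊕ n) (m ⊕ n) L)) = fromBlocks (W • 1) 0 0 (W • 1) := by
    rw [← fromBlocks_one, fromBlocks_smul, smul_zero, smul_zero]
  constructor
  · rw [fromBlocks_multiply, h.ab, h'.ab, e]
    simp
  · rw [fromBlocks_multiply, h.ba, h'.ba, e]
    simp

/-- the trivial factorization `(1, W)` -/
theorem mf_one {L : Type} [CommRing L] (W : L) (n : Type) [Fintype n] [DecidableEq n] :
    IsMF W (1 : Matrix n n L) (W • (1 : Matrix n n L)) :=
  ⟨Matrix.one_mul _, Matrix.mul_one _⟩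

end Inv_aux

theorem tInv : S_Sch → S_Gi → S_Tri → S_Inv := by
  intro hSch hGi hTri L E _ _ _ _ C W m n _ _ _ _ A B A' B' k hdW hW hk hAB hAB' hiso
  obtain ⟨U, U', V, V', h1, h2, h3, h4, h5⟩ := hSch L W m n A B A' B' hW hAB hAB' hiso
  have e := hGi L E C W (m ⊕ n) (fromBlocks A 0 0 1) (fromBlocks B 0 0 (W • 1))
    (fromBlocks 1 0 0 A') (fromBlocks (W • 1) 0 0 B') U U' V V' k hdW hW hk
    (Inv_aux.mf_sum W hAB (Inv_aux.mf_one W n)) (Inv_aux.mf_sum W (Inv_aux.mf_one W m) hAB')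
    h1 h2 h3 h4 h5
  have t1 := (hTri L E C m n k).1 A B 1 (W • 1) 0 0
  have t2 := (hTri L E C m n k).1 1 (W • 1) A' B' 0 0
  have z1 := ((hTri L E C n m k).2.2 W hk).1
  have z2 := ((hTri L E C m n k).2.2 W hk).1
  rw [z1, add_zero] at t1
  rw [z2, zero_add] at t2
  rw [← t1, e, t2]

end Pool.Agent.QV
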