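import Pool.Agent.Lib.MP_b53bfe_ag.Q.SpecP

/-! Module Kap: the fifth roots of `1 - 5 c²`. -/

set_option autoImplicit false

noncomputable section

namespace Pool.Agent.QV

open Matrix MvPolynomial
open Pool.Agent.FY (Res)

private lemma Kap_sum {R : Type} [CommRing R] [IsDomain R] {Z : R} (h : IsPrimitiveRoot Z 5) :
    1 + Z + Z ^ 2 + Z ^ 3 + Z ^ 4 = 0 := by
  have h1 := h.geom_sum_eq_zero (by norm_num)
  simpa [Finset.sum_range_succ] using h1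

theorem tKap : S_Kap := by
  intro a
  obtain ⟨κ₀, hκ⟩ := IsAlgClosed.exists_pow_nat_eq (1 - 5 * a.c ^ 2 : ℂ) (n := 5) (by norm_num)
  have hprim : IsPrimitiveRoot (Complex.exp (2 * Real.pi * Complex.I / (5 : ℕ))) 5 :=
    Complex.isPrimitiveRoot_exp 5 (by norm_num)
  obtain ⟨ζ, hζ⟩ : ∃ ζ : ℂ, IsPrimitiveRoot ζ 5 := ⟨_, hprim⟩
  have hz5 : ζ ^ 5 = 1 := hζ.pow_eq_one
  have hs := Kap_sum hζ
  refine ⟨fun k => κ₀ * ζ ^ (k : ℕ), ?_, ?_⟩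
  · intro k
    rw [mul_pow, ← pow_mul, mul_comm (k : ℕ) 5, pow_mul, hz5, one_pow, mul_one, hκ]
  · intro B _ _ y z
    have e1 : ∀ k : ℕ, algebraMap ℂ B (κ₀ * ζ ^ k) = algebraMap ℂ B κ₀ * algebraMap ℂ B ζ ^ k := by
      intro k
      rw [map_mul, map_pow]
    have e2 : algebraMap ℂ B (1 - 5 * a.c ^ 2) = algebraMap ℂ B κ₀ ^ 5 := by
      rw [← hκ, map_pow]
    have e3 : 1 + algebraMap ℂ B ζ + algebraMap ℂ B ζ ^ 2 + algebraMap ℂ B ζ ^ 3 + algebraMap ℂ B ζ ^ 4 = 0 := by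
      have := congrArg (algebraMap ℂ B) hs
      simpa only [map_add, map_one, map_pow, map_zero] using this
    rw [Fin.prod_univ_five]
    rw [e1, e1, e1, e1, e1, e2]
    generalize algebraMap ℂ B κ₀ = A at *
    generalize algebraMap ℂ B ζ = Z at *
    have k0 : ((0 : Fin 5) : ℕ) = 0 := rfl
    have k1 : ((1 : Fin 5) : ℕ) = 1 := rfl
    have k2 : ((2 : Fin 5) : ℕ) = 2 := rfl
    have k3 : ((3 : Fin 5) : ℕ) = 3 := rfl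
    have k4 : ((4 : Fin 5) : ℕ) = 4 := rfl
    rw [k0, k1, k2, k3, k4]
    linear_combination (Z ^ 6 * A ^ 5 * y ^ 5 + Z ^ 6 * A ^ 4 * y ^ 4 * z - Z ^ 5 * A ^ 5 * y ^ 5 +
      Z ^ 5 * A ^ 3 * y ^ 3 * z ^ 2 + Z ^ 3 * A ^ 3 * y ^ 3 * z ^ 2 + Z ^ 3 * A ^ 2 * y ^ 2 * z ^ 3 +
      Z * A ^ 5 * y ^ 5 + Z * A ^ 2 * y ^ 2 * z ^ 3 - A ^ 5 * y ^ 5 + A * y * z ^ 4) * e3

end Pool.Agent.QV
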