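import Pool.Agent.Lib.MP_b53bfe_ag.Q.SpecA
import Pool.Agent.Lib.MP_b53bfe_ag.Q.Bas

/-!
# MP_b53bfe_ag, Q, module Kn (spec helper4): modules killed by a variable
-/

set_option autoImplicit false

noncomputable section

namespace Pool.Agent.QV

open Matrix

namespace Kn_aux

open Pool.Agent.FY

section Ring

variable {L L₀ : Type} [CommRing L] [CommRing L₀] (ι : L₀ →+* L) (π : L →+* L₀) (w : L)

lemma pi_w (hker : ∀ x, π x = 0 ↔ ∃ y, x = w * y) : π w = 0 := (hker w).2 ⟨1, (mul_one w).symm⟩

lemma io_pi (hπι : ∀ x, π (ι x) = x) (hker : ∀ x, π x = 0 ↔ ∃ y, x = w * y) (l : L) :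
    ∃ y, ι (π l) - l = w * y := by
  rw [← hker, map_sub, hπι, sub_self]

lemma idl_one (b : L) : idl [(w, b)] = Ideal.span {w} := by
  unfold idl
  congr 1
  ext x
  simp only [List.mem_singleton, Set.mem_ofPred_eq, Set.mem_singleton_iff]
  constructor
  · rintro ⟨q, rfl, rfl⟩
    rfl
  · rintro rfl
    exact ⟨(x, b), rfl, rfl⟩

lemma idl_nil : idl ([] : List (L × L)) = ⊥ := by
  unfold idl
  rw [Submodule.span_eq_bot]
  rintro x ⟨q, hq, -⟩
  exact absurd hq List.not_mem_nil

/-- finiteness of the module obtained from a finite module by the surjection -/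
lemma fin_pi (hπι : ∀ x, π (ι x) = x) {B : Type} [AddCommGroup B] [Module L₀ B] (h : Module.Finite L₀ B) :
    Module.Finite L (Res π B) := by
  obtain ⟨n, g, hg⟩ := Module.Finite.exists_fin' L₀ B
  let f : (Fin n → L) →ₗ[L] Res π B :=
    { toFun := fun x => Res.mk π (g (fun i => π (x i)))
      map_add' := fun x y => by
        have : (fun i => π ((x + y) i)) = (fun i => π (x i)) + (fun i => π (y i)) := by
          funext i
          simp
        rw [this, map_add]
        rfl
      map_smul' := fun r x => by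
        have : (fun i => π ((r • x) i)) = π r • (fun i => π (x i)) := by
          funext i
          simp
        rw [this, map_smul]
        rfl }
  refine Module.Finite.of_surjective f ?_
  intro y
  obtain ⟨v, hv⟩ := hg y.val
  refine ⟨fun i => ι (v i), ?_⟩
  have : (fun i => π (ι (v i))) = v := funext fun i => hπι _
  show Res.mk π (g (fun i => π (ι (v i)))) = y
  rw [this, hv]
  rfl

/-- finiteness of the module obtained from a finite module killed by `w` by the inclusion -/
lemma fin_io (hπι : ∀ x, π (ι x) = x) (hker : ∀ x, π x = 0 ↔ ∃ y, x = w * y) {M : Type} [AddCommGroup M] [Module L M]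
    (h : Module.Finite L M) (hw : ∀ m : M, w • m = 0) : Module.Finite L₀ (Res ι M) := by
  obtain ⟨n, g, hg⟩ := Module.Finite.exists_fin' L M
  let f : (Fin n → L₀) →ₗ[L₀] Res ι M :=
    { toFun := fun x => Res.mk ι (g (fun i => ι (x i)))
      map_add' := fun x y => by
        have : (fun i => ι ((x + y) i)) = (fun i => ι (x i)) + (fun i => ι (y i)) := by
          funext i
          simp
        rw [this, map_add]
        rfl
      map_smul' := fun r x => by
        have : (fun i => ι ((r • x) i)) = ι r • (fun i => ι (x i)) := by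
          funext i
          simp
        rw [this, map_smul]
        rfl }
  refine Module.Finite.of_surjective f ?_
  intro y
  obtain ⟨v, hv⟩ := hg y.val
  refine ⟨fun i => π (v i), ?_⟩
  show Res.mk ι (g (fun i => ι (π (v i)))) = y
  have h1 : ∀ i, ∃ t, ι (π (v i)) - v i = w * t := fun i => io_pi ι π w hπι hker (v i)
  choose t ht using h1
  have h2 : (fun i => ι (π (v i))) = v + w • t := by
    funext i
    rw [Pi.add_apply, Pi.smul_apply, smul_eq_mul, ← ht]
    ring
  rw [h2, map_add, map_smul, hw, add_zero, hv]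
  rfl

/-- `M` killed by `w` is obtained from `Res ι M` -/
def back (hπι : ∀ x, π (ι x) = x) (hker : ∀ x, π x = 0 ↔ ∃ y, x = w * y) {M : Type} [AddCommGroup M] [Module L M]
    (hw : ∀ m : M, w • m = 0) : M ≃ₗ[L] Res π (Res ι M) where
  toFun m := m
  map_add' _ _ := rfl
  map_smul' l m := by
    obtain ⟨t, ht⟩ := io_pi ι π w hπι hker l
    show l • m = ι (π l) • m
    have h : ι (π l) = l + t * w := by linear_combination ht
    rw [h, add_smul, mul_smul, hw, smul_zero, add_zero]
  invFun m := m
  left_inv _ := rfl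
  right_inv _ := rfl

lemma mulVec_pi {n : Type} [Fintype n] [DecidableEq n] (hπι : ∀ x, π (ι x) = x) (φ : Matrix n n L₀) (y : n → L) :
    (fun j => π ((φ.map ι *ᵥ y) j)) = φ *ᵥ (fun j => π (y j)) := by
  funext j
  simp only [Matrix.mulVec, dotProduct, map_sum, map_mul, Matrix.map_apply, hπι]

/-- the cokernel as module over the big ring -/
lemma ck_iso {n : Type} [Fintype n] [DecidableEq n] (b : L) (hπι : ∀ x, π (ι x) = x)
    (hker : ∀ x, π x = 0 ↔ ∃ y, x = w * y) (φ : Matrix n n L₀) :
    Nonempty (CkI (φ.map ι) (idl [(w, b)]) ≃ₗ[L] Res π (Ck φ)) := by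
  let f : (n → L) →ₗ[L] Res π (Ck φ) :=
    { toFun := fun x => Res.mk π (Submodule.Quotient.mk (fun i => π (x i)))
      map_add' := fun x y => by
        have : (fun i => π ((x + y) i)) = (fun i => π (x i)) + (fun i => π (y i)) := by
          funext i
          simp
        rw [this, Submodule.Quotient.mk_add]
        rfl
      map_smul' := fun r x => by
        have : (fun i => π ((r • x) i)) = π r • (fun i => π (x i)) := by
          funext i
          simp
        rw [this, Submodule.Quotient.mk_smul]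
        rfl }
  have hf : ∀ x, f x = Res.mk π (Submodule.Quotient.mk (fun i => π (x i))) := fun x => rfl
  have hsurj : Function.Surjective f := by
    intro y
    obtain ⟨v, hv⟩ := Submodule.Quotient.mk_surjective _ y.val
    refine ⟨fun i => ι (v i), ?_⟩
    have : (fun i => π (ι (v i))) = v := funext fun i => hπι _
    rw [hf, this, hv]
    rfl
  have hk : LinearMap.range (φ.map ι).mulVecLin ⊔ idl [(w, b)] • (⊤ : Submodule L (n → L)) = LinearMap.ker f := by
    rw [idl_one]
    apply le_antisymm
    · refine sup_le ?_ ?_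
      · rintro x ⟨y, rfl⟩
        rw [LinearMap.mem_ker, hf, Matrix.mulVecLin_apply, mulVec_pi ι π hπι]
        have : (Submodule.Quotient.mk (φ *ᵥ (fun j => π (y j))) : Ck φ) = 0 := by
          rw [Submodule.Quotient.mk_eq_zero]
          exact ⟨_, rfl⟩
        rw [this]
        rfl
      · rw [Submodule.smul_le]
        intro r hr x _
        obtain ⟨t, rfl⟩ := Ideal.mem_span_singleton'.1 hr
        rw [LinearMap.mem_ker, hf]
        have h0 : (fun i => π (((t * w) • x) i)) = 0 := by
          funext i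
          rw [Pi.smul_apply, smul_eq_mul, map_mul, map_mul, pi_w π w hker, mul_zero, zero_mul]
          rfl
        rw [h0, Submodule.Quotient.mk_zero]
        rfl
    · intro x hx
      rw [LinearMap.mem_ker, hf] at hx
      have h1 : (Submodule.Quotient.mk (fun i => π (x i)) : Ck φ) = 0 := hx
      rw [Submodule.Quotient.mk_eq_zero] at h1
      obtain ⟨y, hy⟩ := h1
      rw [Matrix.mulVecLin_apply] at hy
      have h2 : ∀ j, ∃ z, x j - (φ.map ι *ᵥ (fun j => ι (y j))) j = w * z := by
        intro j
        rw [← hker, map_sub]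
        have h3 := congrFun (mulVec_pi ι π hπι φ (fun j => ι (y j))) j
        have h4 : (fun j => π (ι (y j))) = y := funext fun i => hπι _
        rw [h4, hy] at h3
        rw [h3, sub_self]
      choose z hz using h2
      have h5 : x = φ.map ι *ᵥ (fun j => ι (y j)) + w • z := by
        funext j
        rw [Pi.add_apply, Pi.smul_apply, smul_eq_mul, ← hz]
        ring
      rw [h5]
      refine add_mem (Submodule.mem_sup_left ⟨_, rfl⟩) (Submodule.mem_sup_right ?_)
      exact Submodule.smul_mem_smul (Ideal.mem_span_singleton_self w) trivial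
  exact ⟨(Submodule.quotEquivOfEq _ _ hk).trans (f.quotKerEquivOfSurjective hsurj)⟩

lemma kw_ck {R : Type} [CommRing R] {n : Type} [Fintype n] [DecidableEq n] (W : R) (A B : Matrix n n R)
    (hm : IsMF W A B) : KW W (Ck A) := by
  intro m
  obtain ⟨x, rfl⟩ := Submodule.Quotient.mk_surjective _ m
  rw [← Submodule.Quotient.mk_smul, Submodule.Quotient.mk_eq_zero]
  refine ⟨B.mulVec x, ?_⟩
  rw [Matrix.mulVecLin_apply, Matrix.mulVec_mulVec, hm.ab, Matrix.smul_mulVec, Matrix.one_mulVec]

lemma mf_map {n : Type} [Fintype n] [DecidableEq n] {W₀ : L₀} {A B : Matrix n n L₀} (hm : IsMF W₀ A B) :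
    IsMF (ι W₀) (A.map ι) (B.map ι) := by
  have hh : ∀ X Y : Matrix n n L₀, X * Y = W₀ • (1 : Matrix n n L₀) →
      X.map ι * Y.map ι = ι W₀ • (1 : Matrix n n L) := by
    intro X Y h
    have h1 : (X * Y).map ι = X.map ι * Y.map ι := Matrix.map_mul
    rw [← h1, h]
    ext i j
    by_cases hij : i = j
    · subst hij
      simp
    · simp [hij]
  exact ⟨hh A B hm.ab, hh B A hm.ba⟩

lemma kw_pi (hπι : ∀ x, π (ι x) = x) (hker : ∀ x, π x = 0 ↔ ∃ y, x = w * y) (W₀ : L₀) (b : L) {B : Type}
    [AddCommGroup B] [Module L₀ B] (h : KW W₀ B) : KW (ι W₀ + w * b) (Res π B) := by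
  intro m
  show Res.mk π (π (ι W₀ + w * b) • m.val) = 0
  rw [map_add, map_mul, pi_w π w hker, zero_mul, add_zero, hπι, h]
  rfl

/-- the additive function over the small ring -/
def low {V : Type} [AddCommGroup V] (hπι : ∀ x, π (ι x) = x) (hker : ∀ x, π x = 0 ↔ ∃ y, x = w * y) (W₀ : L₀)
    (b : L) (χ : AF L (ι W₀ + w * b) V) : AF L₀ W₀ V where
  f := fun M _ _ => χ.f (Res π M)
  add := by
    intro A B C _ _ _ _ _ _ i p hf hk hi hp hex
    exact χ.add (Res π A) (Res π B) (Res π C) (Res.map π i) (Res.map π p) (fin_pi ι π hπι hf)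
      (kw_pi ι π w hπι hker W₀ b hk) hi hp hex

end Ring

end Kn_aux

open Kn_aux Pool.Agent.FY in
theorem tKn : S_Uni → S_KosI → S_Kn := by
  intro hU hK L L₀ E _ _ _ _ C ι π w b W₀ k χ hL hL0 hπι hker hw hW0 hW hd hk hχ M _ _ hM hwM hKM
  have := hL.dom
  have := hL0.dom
  have hlow : ∀ (N : Type) [AddCommGroup N] [Module L₀ N], Module.Finite L₀ N → KW W₀ N →
      (low ι π w hπι hker W₀ b χ).f N = 0 := by
    refine hU L₀ W₀ E (low ι π w hπι hker W₀ b χ) hL0 hW0 ?_
    intro n _ _ A B hm
    show χ.f (Res π (Ck A)) = 0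
    obtain ⟨e⟩ := ck_iso ι π w b hπι hker A
    have hkw : KW (ι W₀ + w * b) (Res π (Ck A)) := kw_pi ι π w hπι hker W₀ b (kw_ck W₀ A B hm)
    have hfin : Module.Finite L (Res π (Ck A)) := fin_pi ι π hπι inferInstance
    rw [χ.iso e.symm hfin hkw]
    have hG : Good (ι W₀) [(w, b)] := by
      refine ⟨?_, ?_, ?_, trivial⟩
      · intro x hx
        rw [idl_nil, Ideal.mem_bot] at hx ⊢
        exact (mul_eq_zero.1 hx).resolve_left hw
      · intro x hx
        rw [idl_one, Ideal.mem_span_singleton'] at hx ⊢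
        obtain ⟨t, ht⟩ := hx
        have h1 : π (ι W₀ * x) = 0 := (hker _).2 ⟨t, by rw [← ht, mul_comm]⟩
        rw [map_mul, hπι] at h1
        have h2 := (mul_eq_zero.1 h1).resolve_left hW0
        obtain ⟨y, hy⟩ := (hker _).1 h2
        exact ⟨y, by rw [hy, mul_comm]⟩
      · intro x hx
        rw [idl_nil, Ideal.mem_bot] at hx ⊢
        exact (mul_eq_zero.1 hx).resolve_left hW
    have h := hK L E C k [(w, b)] (ι W₀) χ n (A.map ι) (B.map ι) hL.noe hk hχ (mf_map ι hm) hG
    rw [h]
    have h0 : C.kf k [(w, b)] = 0 := by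
      show C.kf k [] * ((2 * (k - 0) * (2 * (k - 0) - 1)) • (C.d w * C.d b)) = 0
      rw [hd, smul_zero, mul_zero]
    rw [h0, zero_mul]
  rw [χ.iso (back ι π w hπι hker hwM) hM hKM]
  refine hlow (Res ι M) (fin_io ι π w hπι hker hM hwM) ?_
  intro m
  show Res.mk ι (ι W₀ • m.val) = 0
  have h1 : ι W₀ • m.val = (ι W₀ + w * b) • m.val - b • w • m.val := by
    rw [← mul_smul, ← sub_smul]
    congr 1
    ring
  rw [h1, hKM, hwM, smul_zero, sub_zero]
  rfl

end Pool.Agent.QV
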