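import Pool.Agent.Lib.MP_b53bfe_ag.Q.SpecB

/-!
# Modules killed by a variable, local ring at the origin
-/

set_option autoImplicit false

noncomputable section

namespace Pool.Agent.QV

open Matrix

namespace KnL_aux

variable (K : Type) [Field K] (σ : Type) (v : σ)

/-- substitution `X_v ↦ 0` -/
def pj : MvPolynomial σ K →ₐ[K] MvPolynomial {u : σ // u ≠ v} K :=
  open Classical in
  MvPolynomial.aeval fun u => if h : u = v then 0 else MvPolynomial.X ⟨u, h⟩

/-- the inclusion -/
def ic : MvPolynomial {u : σ // u ≠ v} K →ₐ[K] MvPolynomial σ K :=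
  MvPolynomial.rename Subtype.val

theorem pj_v : pj K σ v (MvPolynomial.X v) = 0 := by
  rw [pj, MvPolynomial.aeval_X, dif_pos rfl]

theorem pj_ne (u : σ) (h : u ≠ v) : pj K σ v (MvPolynomial.X u) = MvPolynomial.X ⟨u, h⟩ := by
  rw [pj, MvPolynomial.aeval_X, dif_neg h]

theorem pj_ic (a : MvPolynomial {u : σ // u ≠ v} K) : pj K σ v (ic K σ v a) = a := by
  have h : (pj K σ v).comp (ic K σ v) = AlgHom.id K _ := by
    apply MvPolynomial.algHom_ext
    intro u
    rw [AlgHom.comp_apply, ic, MvPolynomial.rename_X, pj_ne K σ v u.1 u.2]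
    rfl
  exact AlgHom.congr_fun h a

theorem cc_ic (a : MvPolynomial {u : σ // u ≠ v} K) :
    MvPolynomial.constantCoeff (ic K σ v a) = MvPolynomial.constantCoeff a :=
  MvPolynomial.constantCoeff_rename _ _

theorem cc_pj (a : MvPolynomial σ K) :
    MvPolynomial.constantCoeff (pj K σ v a) = MvPolynomial.constantCoeff a := by
  have h : (MvPolynomial.constantCoeff (σ := {u : σ // u ≠ v}) (R := K)).comp
      (pj K σ v : MvPolynomial σ K →+* MvPolynomial {u : σ // u ≠ v} K) =
      MvPolynomial.constantCoeff := by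
    apply MvPolynomial.ringHom_ext
    · intro r
      simp
    · intro u
      by_cases h : u = v
      · subst h
        simp [pj_v]
      · simp [pj_ne K σ v u h]
  exact RingHom.congr_fun h a

theorem dec (a : MvPolynomial σ K) :
    ∃ c, a = ic K σ v (pj K σ v a) + MvPolynomial.X v * c := by
  induction a using MvPolynomial.induction_on with
  | C r => exact ⟨0, by simp [ic, MvPolynomial.algHom_C, MvPolynomial.algebraMap_eq]⟩
  | add p q hp hq =>
    obtain ⟨c, hc⟩ := hp
    obtain ⟨d, hd⟩ := hq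
    refine ⟨c + d, ?_⟩
    rw [map_add, map_add]
    linear_combination hc + hd
  | mul_X p u hp =>
    obtain ⟨c, hc⟩ := hp
    by_cases h : u = v
    · subst h
      exact ⟨p, by rw [map_mul, pj_v, mul_zero, map_zero, zero_add, mul_comm]⟩
    · refine ⟨c * MvPolynomial.X u, ?_⟩
      have h1 : ic K σ v (MvPolynomial.X ⟨u, h⟩) = MvPolynomial.X u := by
        rw [ic, MvPolynomial.rename_X]
      rw [map_mul, map_mul, pj_ne K σ v u h, h1]
      linear_combination MvPolynomial.X u * hc

theorem ori_ic : ori K {u : σ // u ≠ v} =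
    (ori K σ).comap (ic K σ v : MvPolynomial {u : σ // u ≠ v} K →+* MvPolynomial σ K) := by
  ext a
  rw [Ideal.mem_comap, ori, ori, RingHom.mem_ker, RingHom.mem_ker]
  exact (Iff.of_eq (congrArg (· = 0) (cc_ic K σ v a))).symm

theorem ori_pj : ori K σ =
    (ori K {u : σ // u ≠ v}).comap (pj K σ v : MvPolynomial σ K →+* MvPolynomial {u : σ // u ≠ v} K) := by
  ext a
  rw [Ideal.mem_comap, ori, ori, RingHom.mem_ker, RingHom.mem_ker]
  exact (Iff.of_eq (congrArg (· = 0) (cc_pj K σ v a))).symm

/-- the inclusion of the local rings -/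
def io : Lo K {u : σ // u ≠ v} →+* Lo K σ :=
  Localization.localRingHom _ _ _ (ori_ic K σ v)

/-- the projection of the local rings -/
def pi : Lo K σ →+* Lo K {u : σ // u ≠ v} :=
  Localization.localRingHom _ _ _ (ori_pj K σ v)

theorem io_map (a : MvPolynomial {u : σ // u ≠ v} K) :
    io K σ v (algebraMap _ _ a) = algebraMap _ _ (ic K σ v a) :=
  Localization.localRingHom_to_map _ _ _ _ _

theorem pi_map (a : MvPolynomial σ K) :
    pi K σ v (algebraMap _ _ a) = algebraMap _ _ (pj K σ v a) :=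
  Localization.localRingHom_to_map _ _ _ _ _

theorem pi_io (x : Lo K {u : σ // u ≠ v}) : pi K σ v (io K σ v x) = x := by
  have h : (pi K σ v).comp (io K σ v) = RingHom.id _ := by
    apply IsLocalization.ringHom_ext (ori K {u : σ // u ≠ v}).primeCompl
    apply RingHom.ext
    intro a
    rw [RingHom.comp_apply, RingHom.comp_apply, io_map, pi_map, pj_ic]
    rfl
  exact RingHom.congr_fun h x

theorem inj : Function.Injective (algebraMap (MvPolynomial σ K) (Lo K σ)) :=
  IsLocalization.injective (Lo K σ) (Ideal.primeCompl_le_nonZeroDivisors (ori K σ))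

theorem map_ne {a : MvPolynomial σ K} (h : a ≠ 0) :
    algebraMap (MvPolynomial σ K) (Lo K σ) a ≠ 0 := by
  intro h0
  exact h (inj K σ (by rw [h0, map_zero]))

theorem ker_pi (x : Lo K σ) : pi K σ v x = 0 ↔
    ∃ y, x = algebraMap (MvPolynomial σ K) (Lo K σ) (MvPolynomial.X v) * y := by
  constructor
  · intro h
    obtain ⟨a, s, rfl⟩ := IsLocalization.exists_mk'_eq (ori K σ).primeCompl x
    have h1 : pi K σ v (algebraMap _ _ a) = 0 := by
      have h2 := congrArg (fun z => z * pi K σ v (algebraMap _ _ (s : MvPolynomial σ K))) h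
      simp only [zero_mul] at h2
      rw [← map_mul, IsLocalization.mk'_spec] at h2
      exact h2
    rw [pi_map] at h1
    have h3 : pj K σ v a = 0 := inj K _ (by rw [h1, map_zero])
    obtain ⟨c, hc⟩ := dec K σ v a
    rw [h3, map_zero, zero_add] at hc
    refine ⟨IsLocalization.mk' _ c s, ?_⟩
    rw [IsLocalization.mul_mk'_eq_mk'_of_mul, hc]
  · rintro ⟨y, rfl⟩
    rw [map_mul, pi_map, pj_v, map_zero, zero_mul]

end KnL_aux

open KnL_aux in
theorem tKnL : S_Kn → S_NLD → S_KnL := by
  intro hKn hN K _ σ _ v W₀ W b E _ _ C' k χ hW hW₀ hW0 hd hk hχ M _ _ hM hv hKW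
  have hι : algebraMap (MvPolynomial σ K) (Lo K σ) W =
      io K σ v (algebraMap _ _ W₀) +
        algebraMap (MvPolynomial σ K) (Lo K σ) (MvPolynomial.X v) * algebraMap _ _ b := by
    rw [io_map, ← map_mul, ← map_add, hW]
    rfl
  have hWne := map_ne K σ hW0
  have hNL : NLD (Lo K σ) := hN K σ (ori K σ)
  have hNL0 : NLD (Lo K {u : σ // u ≠ v}) := hN K _ (ori K _)
  generalize algebraMap (MvPolynomial σ K) (Lo K σ) W = Wl at *
  subst hι
  exact hKn (Lo K σ) (Lo K {u : σ // u ≠ v}) E C' (io K σ v) (pi K σ v) _ _ _ k χ hNL hNL0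
    (pi_io K σ v) (ker_pi K σ v) (map_ne K σ (MvPolynomial.X_ne_zero v)) (map_ne K _ hW₀) hWne hd hk hχ
    M hM hv hKW

end Pool.Agent.QV
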