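import Pool.Agent.Lib.MP_b53bfe_ag.Q.SpecA
import Pool.Agent.Lib.MP_b53bfe_ag.Q.Bas

/-!
# Voisin's question for quintic threefolds: module Kos (Koszul modules)
-/

set_option autoImplicit false

noncomputable section

namespace Pool.Agent.QV

open Matrix

namespace Kos_aux

theorem pot_mem {L : Type} [CommRing L] (J : Ideal L) (ps : List (L × L)) :
    ∀ W₀ : L, W₀ ∈ J → (∀ q ∈ ps, q.1 ∈ J) → pot W₀ ps ∈ J := by
  induction ps with
  | nil => intro W₀ h _; exact h
  | cons q ps ih =>
    intro W₀ h hq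
    show pot (W₀ + q.1 * q.2) ps ∈ J
    exact ih _ (J.add_mem h (J.mul_mem_right _ (hq q (List.mem_cons_self)))) fun q' hq' =>
      hq q' (List.mem_cons_of_mem _ hq')

theorem idl_cons {L : Type} [CommRing L] (a b : L) (ps : List (L × L)) :
    idl ((a, b) :: ps) = Ideal.span {a} ⊔ idl ps := by
  unfold idl
  rw [← Ideal.span_union]
  congr 1
  ext x
  constructor
  · rintro ⟨q, hq, rfl⟩
    rcases List.mem_cons.1 hq with rfl | h
    · exact Or.inl rfl
    · exact Or.inr ⟨q, h, rfl⟩
  · rintro (h | ⟨q, hq, rfl⟩)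
    · exact ⟨(a, b), List.mem_cons_self, h⟩
    · exact ⟨q, List.mem_cons_of_mem _ hq, rfl⟩

theorem map_eq {L : Type} [CommRing L] (a : L) (I : Ideal L) :
    Submodule.map ((LinearEquiv.funUnique (Fin 1) L L).symm : L →ₗ[L] (Fin 1 → L)) (Ideal.span {a} ⊔ I) =
      LinearMap.range (Matrix.of fun _ _ : Fin 1 => a).mulVecLin ⊔ I • (⊤ : Submodule L (Fin 1 → L)) := by
  rw [Submodule.map_sup]
  congr 1
  · rw [Ideal.span, Submodule.map_span, Set.image_singleton]
    apply le_antisymm
    · rw [Submodule.span_le, Set.singleton_subset_iff]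
      refine ⟨fun _ => 1, ?_⟩
      funext i
      fin_cases i
      simp [Matrix.mulVec, dotProduct]
    · rintro _ ⟨x, rfl⟩
      rw [Submodule.mem_span_singleton]
      refine ⟨x 0, ?_⟩
      funext i
      fin_cases i
      simp [Matrix.mulVec, dotProduct, mul_comm]
  · conv_lhs => rw [← Ideal.mul_top I, ← smul_eq_mul]
    rw [Submodule.map_smul'']
    congr 1
    rw [Submodule.map_top]
    exact LinearEquiv.range _

end Kos_aux

open Kos_aux

theorem tKos : S_KosI → S_Kos := by
  intro hKosI L E _ _ _ C ps a b χ hN hχ hG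
  have h1 := hKosI L E C (ps.length + 1) ps (a * b) χ (Fin 1) (Matrix.of fun _ _ => a)
    (Matrix.of fun _ _ => b) hN le_rfl hχ ?_ hG
  · have e : (L ⧸ idl ((a, b) :: ps)) ≃ₗ[L] CkI (Matrix.of fun _ _ : Fin 1 => a) (idl ps) := by
      refine Submodule.Quotient.equiv _ _ (LinearEquiv.funUnique (Fin 1) L L).symm ?_
      rw [idl_cons]
      exact map_eq a (idl ps)
    have hW : pot (a * b) ps ∈ idl ((a, b) :: ps) := by
      apply pot_mem
      · exact Ideal.mul_mem_right _ _ (Ideal.subset_span ⟨(a, b), List.mem_cons_self, rfl⟩)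
      · intro q hq
        exact Ideal.subset_span ⟨q, List.mem_cons_of_mem _ hq, rfl⟩
    rw [χ.iso e inferInstance (KW.quot _ hW), h1, Nat.add_sub_cancel_left]
    congr 1
    unfold Cal.ch
    rw [pow_one, Matrix.trace_fin_one, Matrix.mul_apply, Fin.sum_univ_one]
    rfl
  · constructor
    · ext i j
      fin_cases i
      fin_cases j
      simp [Matrix.mul_apply]
    · ext i j
      fin_cases i
      fin_cases j
      simp [Matrix.mul_apply, mul_comm]

end Pool.Agent.QV
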