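import Pool.Agent.Lib.MP_b53bfe_ag.Q.SpecA
import Pool.Agent.Lib.MP_b53bfe_ag.Q.Bas

/-!
# MP_b53bfe_ag, Q, module KosI (spec helper4): values of the Chern character function on Koszul type modules
-/

set_option autoImplicit false

noncomputable section

namespace Pool.Agent.QV

open Matrix

namespace KosI_aux

variable {L : Type} [CommRing L]

lemma idl_cons (a b : L) (ps : List (L × L)) : idl ((a, b) :: ps) = idl ps ⊔ Ideal.span {a} := by
  unfold idl
  rw [← Submodule.span_union]
  congr 1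
  ext x
  simp only [List.mem_cons, Set.mem_setOf_eq, Set.mem_union, Set.mem_singleton_iff]
  constructor
  · rintro ⟨q, rfl | hq, rfl⟩
    · right
      rfl
    · left
      exact ⟨q, hq, rfl⟩
  · rintro (⟨q, hq, rfl⟩ | rfl)
    · exact ⟨q, Or.inr hq, rfl⟩
    · exact ⟨(x, b), Or.inl rfl, rfl⟩

lemma idl_nil : idl ([] : List (L × L)) = ⊥ := by
  unfold idl
  rw [Submodule.span_eq_bot]
  rintro x ⟨q, hq, -⟩
  exact absurd hq List.not_mem_nil

lemma pot_sub_mem (ps : List (L × L)) : ∀ W : L, pot W ps - W ∈ idl ps := by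
  induction ps with
  | nil =>
    intro W
    have : pot W ([] : List (L × L)) = W := rfl
    rw [this, sub_self]
    exact zero_mem _
  | cons q ps ih =>
    intro W
    obtain ⟨a, b⟩ := q
    have h1 : pot W ((a, b) :: ps) = pot (W + a * b) ps := rfl
    have h2 : pot (W + a * b) ps - W = (pot (W + a * b) ps - (W + a * b)) + b * a := by ring
    rw [h1, h2, idl_cons]
    refine add_mem (Ideal.mem_sup_left (ih _)) (Ideal.mem_sup_right ?_)
    exact Ideal.mul_mem_left _ _ (Ideal.mem_span_singleton_self a)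

/-- the cokernels are killed by the potential -/
lemma kw_ckI {n : Type} [Fintype n] [DecidableEq n] (W W' : L) (I : Ideal L) (A B : Matrix n n L)
    (hm : IsMF W' A B) (hW : W - W' ∈ I) : KW W (CkI A I) := by
  intro m
  obtain ⟨x, rfl⟩ := Submodule.Quotient.mk_surjective _ m
  rw [← Submodule.Quotient.mk_smul, Submodule.Quotient.mk_eq_zero]
  have h1 : W • x = W' • x + (W - W') • x := by
    rw [sub_smul, add_sub_cancel]
  rw [h1]
  refine add_mem (Submodule.mem_sup_left ?_) (Submodule.mem_sup_right ?_)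
  · refine ⟨B.mulVec x, ?_⟩
    rw [Matrix.mulVecLin_apply, Matrix.mulVec_mulVec, hm.ab, Matrix.smul_mulVec, Matrix.one_mulVec]
  · exact Submodule.smul_mem_smul hW trivial

/-- a perfect module -/
lemma zero_val {V : Type} [AddCommGroup V] (W W' : L) (I : Ideal L) (χ : AF L W V)
    (hperf : ∀ (N : Type) [AddCommGroup N] [Module L N], Module.Finite L N → Reg W N → χ.f (Qt W N) = 0)
    (hW : W - W' ∈ I) (hreg : RegI W' I) (n : Type) [Fintype n] :
    χ.f (n → L ⧸ (I ⊔ Ideal.span {W'})) = 0 := by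
  have hle : I ≤ I ⊔ Ideal.span {W'} := le_sup_left
  obtain ⟨g0, hg0⟩ : ∃ g0 : (L ⧸ I) →ₗ[L] (L ⧸ (I ⊔ Ideal.span {W'})),
      ∀ r : L, g0 (Submodule.Quotient.mk r) = Submodule.Quotient.mk r :=
    ⟨Submodule.mapQ I (I ⊔ Ideal.span {W'}) LinearMap.id hle, fun r => rfl⟩
  have hWI : W ∈ I ⊔ Ideal.span {W'} := by
    have : W = (W - W') + W' := by ring
    rw [this]
    exact add_mem (Ideal.mem_sup_left hW) (Ideal.mem_sup_right (Ideal.mem_span_singleton_self W'))
  have hWs : ∀ y : L ⧸ (I ⊔ Ideal.span {W'}), W • y = 0 := fun y => KW.quot _ hWI y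
  have hWW : ∀ y : L ⧸ I, W • y = W' • y := by
    intro y
    obtain ⟨r, rfl⟩ := Submodule.Quotient.mk_surjective _ y
    rw [← Submodule.Quotient.mk_smul, ← Submodule.Quotient.mk_smul, Submodule.Quotient.eq, ← sub_smul, smul_eq_mul]
    exact Ideal.mul_mem_right _ _ hW
  have hR : Reg W (n → L ⧸ I) := by
    intro x hx
    funext j
    have hj : W • x j = 0 := congrFun hx j
    obtain ⟨r, hr⟩ := Submodule.Quotient.mk_surjective _ (x j)
    rw [hWW, ← hr, ← Submodule.Quotient.mk_smul, Submodule.Quotient.mk_eq_zero, smul_eq_mul] at hj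
    have := hreg r hj
    rw [← hr]
    exact (Submodule.Quotient.mk_eq_zero _).2 this
  obtain ⟨g, hg⟩ : ∃ g : (n → L ⧸ I) →ₗ[L] (n → L ⧸ (I ⊔ Ideal.span {W'})), ∀ x j, g x j = g0 (x j) :=
    ⟨g0.compLeft n, fun x j => rfl⟩
  have hsurj : Function.Surjective g := by
    intro y
    have : ∀ j, ∃ r : L, Submodule.Quotient.mk r = y j := fun j => Submodule.Quotient.mk_surjective _ (y j)
    choose r hr using this
    refine ⟨fun j => Submodule.Quotient.mk (r j), ?_⟩
    funext j
    rw [hg, hg0, hr]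
  have hker : (Ideal.span {W} • (⊤ : Submodule L (n → L ⧸ I))) = LinearMap.ker g := by
    apply le_antisymm
    · rw [Submodule.smul_le]
      intro r hr x _
      rw [LinearMap.mem_ker]
      obtain ⟨t, rfl⟩ := Ideal.mem_span_singleton'.1 hr
      funext j
      rw [hg, Pi.smul_apply, map_smul, mul_comm, mul_smul]
      exact hWs _
    · intro x hx
      rw [LinearMap.mem_ker] at hx
      have hj : ∀ j, ∃ s : L ⧸ I, x j = W • s := by
        intro j
        obtain ⟨r, hr⟩ := Submodule.Quotient.mk_surjective _ (x j)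
        have h1 : g0 (x j) = 0 := by rw [← hg, hx]; rfl
        rw [← hr, hg0, Submodule.Quotient.mk_eq_zero] at h1
        obtain ⟨i, hi, t, ht, hit⟩ := Submodule.mem_sup.1 h1
        obtain ⟨s, rfl⟩ := Ideal.mem_span_singleton'.1 ht
        refine ⟨Submodule.Quotient.mk s, ?_⟩
        rw [← hr, hWW, ← Submodule.Quotient.mk_smul, Submodule.Quotient.eq, smul_eq_mul, ← hit]
        have : i + s * W' - W' * s = i := by ring
        rw [this]
        exact hi
      choose s hs using hj
      have hx' : x = W • s := funext hs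
      rw [hx']
      exact Submodule.smul_mem_smul (Ideal.mem_span_singleton_self W) trivial
  have e : Qt W (n → L ⧸ I) ≃ₗ[L] (n → L ⧸ (I ⊔ Ideal.span {W'})) :=
    (Submodule.quotEquivOfEq _ _ hker).trans (g.quotKerEquivOfSurjective hsurj)
  rw [← χ.iso e inferInstance KW.qt]
  exact hperf (n → L ⧸ I) inferInstance hR

end KosI_aux

open KosI_aux

theorem tKosI : S_D1 → S_D2 → S_KosI := by
  intro hD1 hD2 L E _ _ _ C k ps
  induction ps with
  | nil =>
    intro W₀ χ n _ _ φ ψ _ hk hC hm _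
    have hC' : IsChern C W₀ k χ := hC
    have h1 : χ.f (CkI φ (idl ([] : List (L × L)))) = χ.f (Ck φ) := by
      have he : LinearMap.range φ.mulVecLin ⊔ idl ([] : List (L × L)) • (⊤ : Submodule L (n → L)) =
          LinearMap.range φ.mulVecLin := by
        rw [idl_nil, Submodule.bot_smul, sup_bot_eq]
      have e : CkI φ (idl ([] : List (L × L))) ≃ₗ[L] Ck φ := Submodule.quotEquivOfEq _ _ he
      refine χ.iso e inferInstance (kw_ckI _ W₀ _ φ ψ hm ?_)
      exact pot_sub_mem [] W₀
    rw [h1]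
    have h2 := hC.mf n φ ψ hm
    rw [h2]
    show C.ch k φ ψ = 1 * C.ch (k - 0) φ ψ
    rw [one_mul, Nat.sub_zero]
  | cons q ps ih =>
    intro W₀ χ n _ _ φ ψ hN hk hC hm hG
    obtain ⟨a, b⟩ := q
    obtain ⟨g1, g2, g3, g4⟩ := hG
    have hk' : ps.length + 2 ≤ k := by
      rw [List.length_cons] at hk
      omega
    rw [idl_cons] at g2
    obtain ⟨hm', i, p, hi, hp, hex⟩ := hD2 L n W₀ a b φ ψ (idl ps) hm g1 g2
    have hsub := pot_sub_mem ps (W₀ + a * b)
    have hkw := kw_ckI (pot (W₀ + a * b) ps) (W₀ + a * b) (idl ps) (kA a b φ ψ) (kB a b φ ψ) hm' hsub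
    have hadd := χ.add _ _ _ i p inferInstance hkw hi hp hex
    have hz : χ.f (n → L ⧸ (idl ps ⊔ Ideal.span {W₀ + a * b})) = 0 :=
      zero_val (pot (W₀ + a * b) ps) (W₀ + a * b) (idl ps) χ (fun N _ _ h1 h2 => hC.perf N h1 h2) hsub g3 n
    have hI := ih (W₀ + a * b) χ (n ⊕ n) (kA a b φ ψ) (kB a b φ ψ) hN (by omega) hC hm' g4
    rw [hz, zero_add] at hadd
    rw [idl_cons, ← hadd, hI, hD1 L E C n a b φ ψ (k - ps.length) (by omega)]
    have hl : k - ((a, b) :: ps).length = k - ps.length - 1 := by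
      rw [List.length_cons]
      omega
    rw [hl]
    show C.kf k ps * ((2 * (k - ps.length) * (2 * (k - ps.length) - 1)) • (C.d a * C.d b * C.ch (k - ps.length - 1) φ ψ)) =
      C.kf k ps * ((2 * (k - ps.length) * (2 * (k - ps.length) - 1)) • (C.d a * C.d b)) * C.ch (k - ps.length - 1) φ ψ
    rw [mul_assoc (C.kf k ps), smul_mul_assoc]

end Pool.Agent.QV
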