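import Pool.Agent.Lib.MP_b53bfe_ag.Q.SpecH

/-!
# Disproof of Q1 of MP_b53bfe_ag for quintic threefolds: functionals of degree 8
-/

set_option autoImplicit false

noncomputable section

namespace Pool.Agent.QV

open Matrix MvPolynomial TensorProduct

namespace L8_aux

/-- the generator of the product number `c` -/
def gi (c : Fin 43) : Fin 4 :=
  ![0, 0, 0, 0, 0, 0, 0, 0, 0, 0, 0, 0, 0, 1, 1, 1, 1, 1, 1, 1, 1, 1, 1, 1, 1, 1, 1, 2, 2, 2, 2, 2, 2, 2, 2, 3, 3, 3, 3, 3, 3, 3, 3] c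

/-- the monomial of the product number `c` -/
def gm (c : Fin 43) : Fin 4 → ℕ :=
  ![![0, 0, 0, 2], ![0, 0, 1, 1], ![0, 0, 2, 0], ![0, 2, 0, 1], ![0, 2, 1, 0], ![1, 1, 0, 1], ![1, 1, 1, 0], ![1, 3, 0, 0],
    ![2, 0, 0, 1], ![2, 0, 1, 0], ![2, 2, 0, 0], ![3, 1, 0, 0], ![4, 0, 0, 0], ![0, 0, 0, 2], ![0, 0, 1, 1], ![0, 0, 2, 0],
    ![0, 2, 0, 1], ![0, 2, 1, 0], ![0, 4, 0, 0], ![1, 1, 0, 1], ![1, 1, 1, 0], ![1, 3, 0, 0], ![2, 0, 0, 1], ![2, 0, 1, 0],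
    ![2, 2, 0, 0], ![3, 1, 0, 0], ![4, 0, 0, 0], ![0, 1, 0, 1], ![0, 1, 1, 0], ![0, 3, 0, 0], ![1, 0, 0, 1], ![1, 0, 1, 0],
    ![1, 2, 0, 0], ![2, 1, 0, 0], ![3, 0, 0, 0], ![0, 1, 0, 1], ![0, 1, 1, 0], ![0, 3, 0, 0], ![1, 0, 0, 1], ![1, 0, 1, 0],
    ![1, 2, 0, 0], ![2, 1, 0, 0], ![3, 0, 0, 0]] c

/-- the level of the product number `c` -/
def lv (c : Fin 43) : ℕ :=
  ![1, 0, 0, 1, 0, 1, 0, 0, 0, 0, 0, 0, 0, 2, 1, 0, 0, 0, 3, 0, 0, 1, 1, 1, 1, 1, 1, 1, 2, 2, 1, 2, 0, 0, 0, 0, 0, 0, 0, 0, 0, 0, 0] c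

/-- which of the two monomials is used -/
def sl (c : Fin 43) : Fin 2 :=
  ![0, 0, 0, 1, 0, 1, 0, 0, 0, 0, 0, 0, 0, 1, 1, 0, 0, 0, 1, 0, 0, 1, 1, 1, 1, 1, 1, 0, 0, 0, 0, 0, 0, 0, 0, 0, 0, 0, 0, 0, 0, 0, 0] c

/-- the first monomial of `rz4 i` -/
def m1 (i : Fin 4) : Fin 4 → ℕ := ![![0, 0, 2, 0], ![0, 4, 0, 0], ![0, 1, 1, 1], ![5, 0, 0, 0]] i

/-- the second monomial of `rz4 i` -/
def m2 (i : Fin 4) : Fin 4 → ℕ := ![![0, 0, 0, 2], ![0, 0, 0, 2], ![0, 1, 1, 1], ![5, 0, 0, 0]] i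

/-- the row of the product number `c` -/
def rw8 (c : Fin 43) : Fin 4 → ℕ := if sl c = 0 then m1 (gi c) + gm c else m2 (gi c) + gm c

/-- weights of the generators -/
def gw (i : Fin 4) : ℕ := (![4, 4, 5, 5] : Fin 4 → ℕ) i

theorem chk1 : ∀ c : Fin 43, rw8 c 0 + rw8 c 1 + 2 * rw8 c 2 + 2 * rw8 c 3 = 8 ∧ ∀ b : Fin 12, rw8 c ≠ B8l b := by
  decide +kernel

theorem chk2 : ∀ c : Fin 43, ∀ c' : Fin 43, (rw8 c = m1 (gi c') + gm c' ∨ rw8 c = m2 (gi c') + gm c') → c' ≠ c →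
    lv c' < lv c := by
  decide +kernel

theorem chk3 : ∀ c : Fin 43, ((gi c).val ≤ 1 → nf4 (m1 (gi c) + gm c) = nf4 (m2 (gi c) + gm c)) ∧
    (¬(gi c).val ≤ 1 → nf4 (m1 (gi c) + gm c) = none) := by
  decide +kernel

theorem chk4 : ∀ c : Fin 43, gm c 0 + gm c 1 + 2 * gm c 2 + 2 * gm c 3 + gw (gi c) = 8 := by
  decide +kernel

theorem chk5 : ∀ i : Fin 4, i.val ≤ 1 → m1 i ≠ m2 i := by
  decide +kernel

theorem chk6 : ∀ c : Fin 43, sl c ≠ 0 → (gi c).val ≤ 1 := by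
  decide +kernel

theorem chk7 : ∀ (i : Fin 4) (a : Fin 5) (b : Fin 5) (c : Fin 3) (d : Fin 3),
    a.val + b.val + 2 * c.val + 2 * d.val + gw i = 8 →
      (i = 0 ∧ a = 0 ∧ b = 4 ∧ c = 0 ∧ d = 0) ∨ ∃ e : Fin 43, gi e = i ∧ gm e = ![a.val, b.val, c.val, d.val] := by
  decide +kernel

theorem chk8 : (((Finset.range 9) ×ˢ (Finset.range 9) ×ˢ (Finset.range 5) ×ˢ (Finset.range 5)).filter
    (fun q : ℕ × ℕ × ℕ × ℕ => q.1 + q.2.1 + 2 * q.2.2.1 + 2 * q.2.2.2 = 8)).card = 55 := by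
  decide +kernel

theorem chk9 : Function.Injective B8l := by
  decide +kernel

theorem chk10 : ∀ b : Fin 12, B8l b 0 + B8l b 1 + 2 * B8l b 2 + 2 * B8l b 3 = 8 ∧ nf4 (B8l b) = some (B8l b) := by
  decide +kernel

theorem ex4_ap (m : Fin 4 → ℕ) (i : Fin 4) : (ex4 m) i = m i := rfl

theorem ex4_co (m : Fin 4 → ℕ) : (⇑(ex4 m) : Fin 4 → ℕ) = m := rfl

theorem ex4_add (m n : Fin 4 → ℕ) : ex4 (m + n) = ex4 m + ex4 n := by
  ext i
  rfl

theorem ex4_inj {m n : Fin 4 → ℕ} (h : ex4 m = ex4 n) : m = n := by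
  have h1 := congrArg (fun f : Fin 4 →₀ ℕ => (⇑f : Fin 4 → ℕ)) h
  exact h1

theorem ex4_self (m : Fin 4 →₀ ℕ) : ex4 ![m 0, m 1, m 2, m 3] = m := by
  ext i
  rw [ex4_ap]
  fin_cases i <;> rfl

theorem wt_add (m n : Fin 4 →₀ ℕ) : wt4 (m + n) = wt4 m + wt4 n := by
  unfold wt4
  simp only [Finsupp.add_apply]
  ring

theorem wt_ex (m : Fin 4 → ℕ) : wt4 (ex4 m) = m 0 + m 1 + 2 * m 2 + 2 * m 3 := rfl

theorem card8 : Nat.card {m : Fin 4 →₀ ℕ // wt4 m = 8} = 12 + 43 := by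
  let S : Finset (ℕ × ℕ × ℕ × ℕ) := ((Finset.range 9) ×ˢ (Finset.range 9) ×ˢ (Finset.range 5) ×ˢ (Finset.range 5)).filter
    (fun q : ℕ × ℕ × ℕ × ℕ => q.1 + q.2.1 + 2 * q.2.2.1 + 2 * q.2.2.2 = 8)
  have e : {m : Fin 4 →₀ ℕ // wt4 m = 8} ≃ S :=
    { toFun := fun m => ⟨(m.1 0, m.1 1, m.1 2, m.1 3), by
        have h := m.2
        unfold wt4 at h
        simp only [S, Finset.mem_filter, Finset.mem_product, Finset.mem_range]
        refine ⟨⟨?_, ?_, ?_, ?_⟩, ?_⟩ <;> omega⟩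
      invFun := fun q => ⟨ex4 ![q.1.1, q.1.2.1, q.1.2.2.1, q.1.2.2.2], by
        have h := q.2
        simp only [S, Finset.mem_filter] at h
        rw [wt_ex]
        exact h.2⟩
      left_inv := fun m => Subtype.ext (ex4_self m.1)
      right_inv := fun q => Subtype.ext rfl }
  rw [Nat.card_congr e, Nat.card_eq_fintype_card, Fintype.card_coe]
  exact chk8

/-- the reduction of the products -/
theorem rz_eq (i : Fin 4) : rz4 i = monomial (ex4 (m1 i)) 1 - (if i.val ≤ 1 then monomial (ex4 (m2 i)) 1 else 0) := by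
  have h0 : ∀ (j : Fin 4) (e : ℕ), (X j : MvPolynomial (Fin 4) ℤ) ^ e = monomial (ex4 (Pi.single j e)) 1 := by
    intro j e
    have h : (Finsupp.single j e : Fin 4 →₀ ℕ) = ex4 (Pi.single j e) := by
      ext k
      rw [ex4_ap, Finsupp.single_apply, Pi.single_apply]
      simp only [eq_comm]
    rw [X_pow_eq_monomial, h]
  have h1 : ∀ j : Fin 4, (X j : MvPolynomial (Fin 4) ℤ) = monomial (ex4 (Pi.single j 1)) 1 := by
    intro j
    rw [← h0, pow_one]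
  have a0 : (Pi.single 2 2 : Fin 4 → ℕ) = ![0, 0, 2, 0] := by decide
  have a1 : (Pi.single 3 2 : Fin 4 → ℕ) = ![0, 0, 0, 2] := by decide
  have a2 : (Pi.single 1 4 : Fin 4 → ℕ) = ![0, 4, 0, 0] := by decide
  have a3 : (Pi.single 0 5 : Fin 4 → ℕ) = ![5, 0, 0, 0] := by decide
  have a4 : (Pi.single 1 1 + Pi.single 2 1 + Pi.single 3 1 : Fin 4 → ℕ) = ![0, 1, 1, 1] := by decide
  fin_cases i
  · change X 2 ^ 2 - X 3 ^ 2 = monomial (ex4 ![0, 0, 2, 0]) 1 - monomial (ex4 ![0, 0, 0, 2]) 1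
    rw [h0, h0, a0, a1]
  · change X 1 ^ 4 - X 3 ^ 2 = monomial (ex4 ![0, 4, 0, 0]) 1 - monomial (ex4 ![0, 0, 0, 2]) 1
    rw [h0, h0, a2, a1]
  · change X 1 * X 2 * X 3 = monomial (ex4 ![0, 1, 1, 1]) 1 - 0
    rw [h1, h1, h1, monomial_mul, monomial_mul, ← ex4_add, ← ex4_add, a4, sub_zero, one_mul, one_mul]
  · change X 0 ^ 5 = monomial (ex4 ![5, 0, 0, 0]) 1 - 0
    rw [h0, a3, sub_zero]

/-- the reduced product -/
def gz (c : Fin 43) : MvPolynomial (Fin 4) ℤ := rz4 (gi c) * monomial (ex4 (gm c)) 1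

theorem gz_eq (c : Fin 43) : gz c = monomial (ex4 (m1 (gi c) + gm c)) 1 -
    (if (gi c).val ≤ 1 then monomial (ex4 (m2 (gi c) + gm c)) 1 else 0) := by
  unfold gz
  rw [rz_eq, sub_mul, monomial_mul, ← ex4_add, one_mul]
  congr 1
  split_ifs
  · rw [monomial_mul, ← ex4_add, one_mul]
  · rw [zero_mul]

theorem lbar_mon (b : Fin 4 → ℕ) (v : Fin 4 → ℕ) : lbar b (monomial (ex4 v) 1) = if nf4 v = some b then 1 else 0 := by
  unfold lbar
  have h : (monomial (ex4 v) (1 : ℤ) : MvPolynomial (Fin 4) ℤ) = basisMonomials (Fin 4) ℤ (ex4 v) := by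
    rw [coe_basisMonomials]
  rw [h, Module.Basis.constr_basis]
  rfl

theorem lbar_gz (b : Fin 12) (c : Fin 43) : lbar (B8l b) (gz c) = 0 := by
  rw [gz_eq, map_sub, lbar_mon]
  by_cases h : (gi c).val ≤ 1
  · rw [if_pos h, lbar_mon, (chk3 c).1 h, sub_self]
  · rw [if_neg h, map_zero, (chk3 c).2 h]
    simp

theorem coeff_gz (c : Fin 43) (v : Fin 4 → ℕ) (h : (gz c).coeff (ex4 v) ≠ 0) :
    v = m1 (gi c) + gm c ∨ v = m2 (gi c) + gm c := by
  by_contra hc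
  push Not at hc
  apply h
  rw [gz_eq, coeff_sub, coeff_monomial, if_neg (fun e => hc.1 (ex4_inj e).symm)]
  split_ifs
  · rw [coeff_monomial, if_neg (fun e => hc.2 (ex4_inj e).symm), sub_zero]
  · rw [coeff_zero, sub_zero]

theorem coeff_rw (c : Fin 43) : (gz c).coeff (ex4 (rw8 c)) ≠ 0 := by
  rw [gz_eq, coeff_sub, coeff_monomial]
  by_cases hs : sl c = 0
  · have h1 : rw8 c = m1 (gi c) + gm c := if_pos hs
    rw [h1, if_pos rfl]
    by_cases h : (gi c).val ≤ 1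
    · rw [if_pos h, coeff_monomial, if_neg, sub_zero]
      · exact one_ne_zero
      · intro e
        exact chk5 _ h (add_right_cancel (ex4_inj e)).symm
    · rw [if_neg h, coeff_zero, sub_zero]
      exact one_ne_zero
  · have h1 : rw8 c = m2 (gi c) + gm c := if_neg hs
    have h := chk6 c hs
    rw [h1, if_pos h, coeff_monomial, if_pos rfl, if_neg]
    · norm_num
    · intro e
      exact chk5 _ h (add_right_cancel (ex4_inj e))

section

variable {K : Type} [Field K]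

theorem rd_mul (𝒪 : ValuationSubring K) (g : S4 K) (h : MvPolynomial (Fin 4) ℤ) (s : Fin 4 →₀ ℕ) (hg : Rd 𝒪 g h) :
    Rd 𝒪 (g * monomial s 1) (h * monomial s 1) := by
  intro m
  rw [coeff_mul_monomial', coeff_mul_monomial']
  split_ifs
  · rw [mul_one, mul_one]
    exact hg _
  · simp

theorem wt_mul (g : S4 K) (s : Fin 4 →₀ ℕ) (w : ℕ) (hg : ∀ m, g.coeff m ≠ 0 → wt4 m = w) (m : Fin 4 →₀ ℕ)
    (h : (g * monomial s 1).coeff m ≠ 0) : wt4 m = w + wt4 s := by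
  rw [coeff_mul_monomial'] at h
  split_ifs at h with hs
  · rw [mul_one] at h
    have h1 := hg _ h
    have h2 : m = (m - s) + s := (tsub_add_cancel_of_le hs).symm
    rw [h2, wt_add, h1]
  · exact absurd rfl h

theorem l_sum (l : S4 K →ₗ[K] K) (g p : S4 K) :
    l (g * p) = ∑ m ∈ p.support, p.coeff m * l (g * monomial m 1) := by
  conv_lhs => rw [p.as_sum, Finset.mul_sum, map_sum]
  refine Finset.sum_congr rfl fun m _ => ?_
  have h : (monomial m (p.coeff m) : S4 K) = p.coeff m • monomial m 1 := by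
    rw [smul_monomial, smul_eq_mul, mul_one]
  rw [h, mul_smul_comm, map_smul, smul_eq_mul]

theorem l_kill (l : S4 K →ₗ[K] K) (hl : ∀ m : Fin 4 →₀ ℕ, wt4 m ≠ 8 → l (monomial m 1) = 0) (p : S4 K)
    (hp : ∀ m, p.coeff m ≠ 0 → wt4 m ≠ 8) : l p = 0 := by
  have h := l_sum l 1 p
  rw [one_mul] at h
  rw [h]
  refine Finset.sum_eq_zero fun m hm => ?_
  rw [one_mul, hl m (hp m (mem_support_iff.1 hm)), mul_zero]

end

end L8_aux

open L8_aux in
theorem tL8 : S_NF → S_Rh → S_L8 := by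
  intro hNF hRh K _ _ a 𝒪 ha
  obtain ⟨r1, r2, r3⟩ := hRh K a 𝒪 ha
  have hw : ∀ (i : Fin 4) (m : Fin 4 →₀ ℕ), (rho4 a i).coeff m ≠ 0 → wt4 m = gw i := r2
  obtain ⟨l, l1, l2, l3⟩ := hNF K 𝒪 8 12 43 B8l (fun c => rho4 a (gi c) * monomial (ex4 (gm c)) 1) gz ha.int card8 chk9
    (fun b => by rw [wt_ex]; exact (chk10 b).1)
    (fun c m hm => by
      have h := wt_mul _ _ _ (hw (gi c)) m hm
      rw [h, wt_ex, add_comm]
      exact chk4 c)
    (fun c => rd_mul 𝒪 _ _ _ (r1 (gi c))) lbar_gz (fun b => (chk10 b).2)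
    ⟨lv, rw8, fun c => ⟨by rw [wt_ex]; exact (chk1 c).1, (chk1 c).2, coeff_rw c,
      fun c' h1 h2 => chk2 c c' (coeff_gz c' _ h1) h2⟩⟩
  refine ⟨l, fun b => ⟨?_, l2 b⟩, l3⟩
  have k0 : ∀ (i : Fin 4) (m : Fin 4 →₀ ℕ), (i ≠ 0 ∨ m ≠ ex4 ![0, 4, 0, 0]) → l b (rho4 a i * monomial m 1) = 0 := by
    intro i m him
    by_cases h8 : wt4 m + gw i = 8
    · have hgw : 4 ≤ gw i := by
        have h4 : ∀ j : Fin 4, 4 ≤ gw j := by decide
        exact h4 i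
      have h8' : m 0 + m 1 + 2 * m 2 + 2 * m 3 + gw i = 8 := h8
      have b0 : m 0 < 5 := by omega
      have b1 : m 1 < 5 := by omega
      have b2 : m 2 < 3 := by omega
      have b3 : m 3 < 3 := by omega
      rcases chk7 i ⟨m 0, b0⟩ ⟨m 1, b1⟩ ⟨m 2, b2⟩ ⟨m 3, b3⟩ h8' with ⟨e0, e1, e2, e3, e4⟩ | ⟨c, hc1, hc2⟩
      · exfalso
        have f1 : m 0 = 0 := congrArg Fin.val e1
        have f2 : m 1 = 4 := congrArg Fin.val e2
        have f3 : m 2 = 0 := congrArg Fin.val e3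
        have f4 : m 3 = 0 := congrArg Fin.val e4
        rcases him with h | h
        · exact h e0
        · apply h
          rw [← ex4_self m, f1, f2, f3, f4]
      · have h := l1 b c
        rw [hc1, hc2] at h
        have hm : ex4 ![m 0, m 1, m 2, m 3] = m := ex4_self m
        rw [← hm]
        exact h
    · refine l_kill (l b) (l2 b) _ fun n hn => ?_
      have h := wt_mul _ _ _ (hw i) n hn
      omega
  have hc1 : (rho4 a 1).coeff (ex4 ![0, 4, 0, 0]) ≠ 0 := by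
    intro h0
    have h := r1 1 (ex4 ![0, 4, 0, 0])
    have h1 : (rz4 1).coeff (ex4 ![0, 4, 0, 0]) = 1 := by
      rw [rz_eq, coeff_sub]
      have e1 : m1 1 = ![0, 4, 0, 0] := rfl
      rw [e1, coeff_monomial, if_pos rfl, if_pos (by decide), coeff_monomial, if_neg, sub_zero]
      intro e
      have e2 := congrArg (fun f : Fin 4 → ℕ => f 1) (ex4_inj e)
      revert e2
      decide
    rw [h0, h1, Int.cast_one, zero_sub, Valuation.map_neg, map_one] at h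
    exact lt_irrefl _ h
  have k1 : l b (rho4 a 0 * monomial (ex4 ![0, 4, 0, 0]) 1) = 0 := by
    have s1 := l_sum (l b) (rho4 a 0) (rho4 a 1)
    have s2 := l_sum (l b) (rho4 a 1) (rho4 a 0)
    have s3 : ∑ m ∈ (rho4 a 0).support, (rho4 a 0).coeff m * l b (rho4 a 1 * monomial m 1) = 0 :=
      Finset.sum_eq_zero fun m _ => by
        rw [k0 1 m (Or.inl (by decide)), mul_zero]
    rw [s3, mul_comm] at s2
    rw [s2, Finset.sum_eq_single (ex4 ![0, 4, 0, 0])] at s1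
    · exact (mul_eq_zero.1 s1.symm).resolve_left hc1
    · intro m _ hm
      rw [k0 0 m (Or.inr hm), mul_zero]
    · intro h
      rw [notMem_support_iff.1 h, zero_mul]
  have k2 : ∀ (i : Fin 4) (m : Fin 4 →₀ ℕ), l b (rho4 a i * monomial m 1) = 0 := by
    intro i m
    by_cases h : i = 0 ∧ m = ex4 ![0, 4, 0, 0]
    · rw [h.1, h.2]
      exact k1
    · exact k0 i m (by tauto)
  have k3 : ∀ g ∈ IH a, ∀ q : S4 K, l b (q * g) = 0 := by
    intro g hg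
    rw [r3] at hg
    refine Submodule.span_induction (p := fun g _ => ∀ q : S4 K, l b (q * g) = 0) ?_ ?_ ?_ ?_ hg
    · rintro _ ⟨i, rfl⟩ q
      rw [mul_comm, l_sum]
      exact Finset.sum_eq_zero fun m _ => by rw [k2 i m, mul_zero]
    · intro q
      rw [mul_zero, map_zero]
    · intro x y _ _ hx hy q
      rw [mul_add, map_add, hx, hy, add_zero]
    · intro r x _ hx q
      rw [smul_eq_mul, ← mul_assoc]
      exact hx _
  intro g hg
  have h := k3 g hg 1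
  rwa [one_mul] at h

end Pool.Agent.QV
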