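import Pool.Agent.Lib.MP_b53bfe_ag.Q.SpecB
import Pool.Agent.Lib.MP_b53bfe_ag.Q.Bas

/-!
# Lat: extension of an additive function to the locally finite modules
-/

set_option autoImplicit false

noncomputable section

namespace Pool.Agent.QV

open Matrix

namespace Lat_aux

variable {P : Type} [CommRing P] {W θ : P} {V : Type} [AddCommGroup V]

private theorem unif {M : Type} [AddCommGroup M] [Module P M] (hM : Module.Finite P M)
    (h : ∀ m : M, ∃ k : ℕ, θ ^ k • m = 0) : ∃ k : ℕ, ∀ m : M, θ ^ k • m = 0 := by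
  obtain ⟨s, hs⟩ := hM.fg_top
  choose f hf using h
  refine ⟨s.sup f, fun m => ?_⟩
  have hm : m ∈ Submodule.span P (s : Set M) := by rw [hs]; trivial
  induction hm using Submodule.span_induction with
  | mem x hx =>
    have h1 : f x ≤ s.sup f := Finset.le_sup hx
    rw [← Nat.sub_add_cancel h1, pow_add, mul_smul, hf x, smul_zero]
  | zero => rw [smul_zero]
  | add x y _ _ hx hy => rw [smul_add, hx, hy, add_zero]
  | smul a x _ hx => rw [smul_comm, hx, smul_zero]

private theorem mem_iff {N : Type} [AddCommGroup N] [Module P N] {x : N} :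
    x ∈ (Ideal.span {W} • (⊤ : Submodule P N)) ↔ ∃ y : N, W • y = x := by
  rw [Submodule.ideal_span_singleton_smul, Submodule.mem_smul_pointwise_iff_exists]
  constructor
  · rintro ⟨y, -, hy⟩
    exact ⟨y, hy⟩
  · rintro ⟨y, hy⟩
    exact ⟨y, trivial, hy⟩

variable (χ : AF P W V) (hP : IsNoetherianRing P)
  (hχ : ∀ (M : Type) [AddCommGroup M] [Module P M], Module.Finite P M → KW W M →
    (∃ k : ℕ, ∀ m : M, θ ^ k • m = 0) → χ.f M = 0)

include hP hχ

private theorem step {M : Type} [AddCommGroup M] [Module P M] (hk : KW W M) (N N' : Submodule P M)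
    (hle : N ≤ N') (hfg : N'.FG) (ht : ∀ m ∈ N', ∃ k : ℕ, θ ^ k • m ∈ N) : χ.f N = χ.f N' := by
  have hF : Module.Finite P N' := Module.Finite.iff_fg.mpr hfg
  have hkN' : KW W N' := hk.of_inj N'.subtype N'.injective_subtype
  have hN1 : Module.Finite P (N.submoduleOf N') := Module.IsNoetherian.finite P _
  have h1 := χ.sub hF hkN' (N.submoduleOf N')
  have h2 : χ.f (N' ⧸ N.submoduleOf N') = 0 := by
    have hF2 : Module.Finite P (N' ⧸ N.submoduleOf N') := inferInstance
    refine hχ _ hF2 (hkN'.of_surj _ (Submodule.mkQ_surjective _)) (unif hF2 ?_)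
    intro m
    obtain ⟨x, rfl⟩ := Submodule.Quotient.mk_surjective _ m
    obtain ⟨k, hk'⟩ := ht x x.2
    refine ⟨k, ?_⟩
    rw [← Submodule.Quotient.mk_smul, Submodule.Quotient.mk_eq_zero]
    exact hk'
  have h3 : χ.f (N.submoduleOf N') = χ.f N :=
    χ.iso (Submodule.submoduleOfEquivOfLe hle) hN1
      (hkN'.of_inj (N.submoduleOf N').subtype (Submodule.injective_subtype _))
  rw [h1, h2, add_zero, h3]

private theorem indep {M : Type} [AddCommGroup M] [Module P M] (hk : KW W M) (N N' : Submodule P M)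
    (hfg : N.FG) (hfg' : N'.FG) (ht : ∀ m : M, ∃ k : ℕ, θ ^ k • m ∈ N)
    (ht' : ∀ m : M, ∃ k : ℕ, θ ^ k • m ∈ N') : χ.f N = χ.f N' := by
  have h1 := step χ hP hχ hk N (N ⊔ N') le_sup_left (hfg.sup hfg') (fun m _ => ht m)
  have h2 := step χ hP hχ hk N' (N ⊔ N') le_sup_right (hfg.sup hfg') (fun m _ => ht' m)
  rw [h1, h2]

omit hP hχ

/-- the value of the extension -/
def val (θ : P) (M : Type) [AddCommGroup M] [Module P M] : V :=
  @dite V (LFn θ M) (Classical.propDecidable _) (fun h => χ.f (h.choose : Submodule P M)) (fun _ => 0)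

include hP hχ

private theorem val_eq {M : Type} [AddCommGroup M] [Module P M] (hk : KW W M) (N : Submodule P M)
    (hfg : N.FG) (ht : ∀ m : M, ∃ k : ℕ, θ ^ k • m ∈ N) : val χ θ M = χ.f N := by
  have h : LFn θ M := ⟨N, hfg, ht⟩
  unfold val
  rw [dif_pos h]
  exact indep χ hP hχ hk _ _ h.choose_spec.1 hfg h.choose_spec.2 ht

private theorem val_add (A B C : Type) [AddCommGroup A] [Module P A] [AddCommGroup B] [Module P B]
    [AddCommGroup C] [Module P C] (i : A →ₗ[P] B) (p : B →ₗ[P] C) (hB : LFn θ B) (hk : KW W B)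
    (hi : Function.Injective i) (hp : Function.Surjective p) (he : Function.Exact i p) :
    val χ θ B = val χ θ A + val χ θ C := by
  obtain ⟨N, hfg, ht⟩ := hB
  have hNF : Module.Finite P N := Module.Finite.iff_fg.mpr hfg
  have hNN : IsNoetherian P N := isNoetherian_of_isNoetherianRing_of_finite P N
  set i' : N.comap i →ₗ[P] N := i.restrict (fun x hx => hx) with hi'
  set p' : N →ₗ[P] N.map p := p.restrict (fun x hx => Submodule.mem_map_of_mem hx) with hp'
  have hinj : Function.Injective i' := by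
    intro x y hxy
    apply Subtype.ext
    apply hi
    exact congrArg Subtype.val hxy
  have hsurj : Function.Surjective p' := by
    rintro ⟨c, hc⟩
    obtain ⟨b, hb, rfl⟩ := hc
    exact ⟨⟨b, hb⟩, rfl⟩
  have hex : Function.Exact i' p' := by
    intro y
    constructor
    · intro h0
      have h1 : p (y : B) = 0 := congrArg Subtype.val h0
      obtain ⟨a, ha⟩ := (he (y : B)).mp h1
      refine ⟨⟨a, ?_⟩, Subtype.ext ha⟩
      rw [Submodule.mem_comap, ha]
      exact y.2
    · rintro ⟨a, rfl⟩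
      apply Subtype.ext
      exact (he _).mpr ⟨(a : A), rfl⟩
  have hAN : IsNoetherian P (N.comap i) := isNoetherian_of_injective i' hinj
  have hA : (N.comap i).FG := Module.Finite.iff_fg.mp inferInstance
  have hC : (N.map p).FG := hfg.map p
  rw [val_eq χ hP hχ hk N hfg ht, val_eq χ hP hχ (hk.of_inj i hi) (N.comap i) hA
    (fun a => by
      obtain ⟨k, hk'⟩ := ht (i a)
      refine ⟨k, ?_⟩
      rw [Submodule.mem_comap, map_smul]
      exact hk'),
    val_eq χ hP hχ (hk.of_surj p hp) (N.map p) hC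
    (fun c => by
      obtain ⟨b, rfl⟩ := hp c
      obtain ⟨k, hk'⟩ := ht b
      refine ⟨k, ?_⟩
      rw [← map_smul]
      exact Submodule.mem_map_of_mem hk')]
  exact χ.add _ _ _ i' p' hNF (hk.of_inj N.subtype N.injective_subtype) hinj hsurj hex

private theorem val_tors (M : Type) [AddCommGroup M] [Module P M] (hk : KW W M)
    (h : ∀ m : M, ∃ k : ℕ, θ ^ k • m = 0) : val χ θ M = 0 := by
  rw [val_eq χ hP hχ hk ⊥ Submodule.fg_bot (fun m => by
    obtain ⟨k, hk'⟩ := h m
    exact ⟨k, by rw [hk']; exact Submodule.zero_mem _⟩)]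
  exact χ.subsing inferInstance

private theorem val_fin (M : Type) [AddCommGroup M] [Module P M] (hM : Module.Finite P M)
    (hk : KW W M) : val χ θ M = χ.f M := by
  rw [val_eq χ hP hχ hk ⊤ hM.fg_top (fun m => ⟨0, trivial⟩)]
  exact χ.iso Submodule.topEquiv (Module.Finite.iff_fg.mpr hM.fg_top)
    (hk.of_inj (⊤ : Submodule P M).subtype (Submodule.injective_subtype _))

private theorem val_qt (hq : ∀ (N : Type) [AddCommGroup N] [Module P N], Module.Finite P N →
      Reg W N → χ.f (Qt W N) = 0) (N : Type) [AddCommGroup N] [Module P N] (hN : LFn θ N)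
    (hr : Reg W N) : val χ θ (Qt W N) = 0 := by
  obtain ⟨N0, hfg, ht⟩ := hN
  have hF : Module.Finite P N0 := Module.Finite.iff_fg.mpr hfg
  have hr0 : Reg W N0 := fun x hx => by
    apply Subtype.ext
    apply hr
    exact congrArg Subtype.val hx
  have hle : (Ideal.span {W} • (⊤ : Submodule P N0)) ≤
      (Ideal.span {W} • (⊤ : Submodule P N)).comap N0.subtype := by
    intro x hx
    obtain ⟨y, hy⟩ := mem_iff.mp hx
    rw [Submodule.mem_comap]
    exact mem_iff.mpr ⟨(y : N), by rw [← hy]; rfl⟩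
  set j : Qt W N0 →ₗ[P] Qt W N := Submodule.mapQ _ _ N0.subtype hle with hj
  have hQF : Module.Finite P (Qt W N0) := inferInstance
  have hkF : Module.Finite P (LinearMap.ker j) := Module.IsNoetherian.finite P _
  have hker : χ.f (LinearMap.ker j) = 0 := by
    refine hχ _ hkF (KW.qt.of_inj (LinearMap.ker j).subtype (Submodule.injective_subtype _))
      (unif hkF ?_)
    rintro ⟨m, hm⟩
    obtain ⟨x, rfl⟩ := Submodule.Quotient.mk_surjective _ m
    rw [LinearMap.mem_ker, hj, Submodule.mapQ_apply, Submodule.Quotient.mk_eq_zero] at hm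
    obtain ⟨y, hy⟩ := mem_iff.mp hm
    obtain ⟨k, hk⟩ := ht y
    refine ⟨k, ?_⟩
    apply Subtype.ext
    change θ ^ k • (Submodule.Quotient.mk x : Qt W N0) = 0
    rw [← Submodule.Quotient.mk_smul, Submodule.Quotient.mk_eq_zero]
    refine mem_iff.mpr ⟨⟨θ ^ k • y, hk⟩, ?_⟩
    apply Subtype.ext
    change W • (θ ^ k • y) = θ ^ k • (x : N)
    rw [smul_comm, hy]
    rfl
  have hrF : (LinearMap.range j).FG := by
    rw [LinearMap.range_eq_map]
    exact hQF.fg_top.map j
  rw [val_eq χ hP hχ KW.qt (LinearMap.range j) hrF (fun m => by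
    obtain ⟨n, rfl⟩ := Submodule.Quotient.mk_surjective _ m
    obtain ⟨k, hk⟩ := ht n
    refine ⟨k, Submodule.Quotient.mk ⟨θ ^ k • n, hk⟩, ?_⟩
    rw [hj, Submodule.mapQ_apply]
    rfl)]
  have h1 := χ.sub hQF KW.qt (LinearMap.ker j)
  rw [hker, zero_add, hq N0 hF hr0] at h1
  rw [← χ.iso (LinearMap.quotKerEquivRange j) inferInstance
    (KW.qt.of_surj _ (Submodule.mkQ_surjective _)), ← h1]

end Lat_aux

theorem tLat : S_Lat := by
  intro P _ W θ V _ χ hP hχ
  exact ⟨⟨fun M => Lat_aux.val χ θ M, fun A B C => Lat_aux.val_add χ hP hχ A B C,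
    fun M => Lat_aux.val_tors χ hP hχ M⟩, fun M => Lat_aux.val_fin χ hP hχ M,
    fun hq N => Lat_aux.val_qt χ hP hχ hq N⟩

end Pool.Agent.QV
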