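import Pool.Agent.Lib.MP_b53bfe_ag.Q.SpecB

/-!
# Locally finite rings (module LfB)
-/

set_option autoImplicit false

noncomputable section

namespace Pool.Agent.QV

open Matrix
open Pool.Agent.FY (Res)

namespace LfB_aux

variable {K : Type} [Field K] {σ τ : Type} (h : MvPolynomial σ K →ₐ[K] MvPolynomial τ K)
  (θ : MvPolynomial σ K) (J : Ideal (MvPolynomial τ K))

theorem all (hX : ∀ i : τ, ∃ (k : ℕ) (b : MvPolynomial σ K), h θ ^ k * MvPolynomial.X i - h b ∈ J)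
    (x : MvPolynomial τ K) : ∃ (k : ℕ) (b : MvPolynomial σ K), h θ ^ k * x - h b ∈ J := by
  induction x using MvPolynomial.induction_on with
  | C a =>
    refine ⟨0, MvPolynomial.C a, ?_⟩
    have h1 : h (MvPolynomial.C a) = MvPolynomial.C a := h.commutes a
    rw [pow_zero, one_mul, h1, sub_self]
    exact J.zero_mem
  | add p q hp hq =>
    obtain ⟨k₁, b₁, h₁⟩ := hp
    obtain ⟨k₂, b₂, h₂⟩ := hq
    refine ⟨k₁ + k₂, θ ^ k₂ * b₁ + θ ^ k₁ * b₂, ?_⟩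
    have h3 : h θ ^ (k₁ + k₂) * (p + q) - h (θ ^ k₂ * b₁ + θ ^ k₁ * b₂) =
        h θ ^ k₂ * (h θ ^ k₁ * p - h b₁) + h θ ^ k₁ * (h θ ^ k₂ * q - h b₂) := by
      rw [map_add, map_mul, map_mul, map_pow, map_pow]
      ring
    rw [h3]
    exact J.add_mem (J.mul_mem_left _ h₁) (J.mul_mem_left _ h₂)
  | mul_X p i hp =>
    obtain ⟨k₁, b₁, h₁⟩ := hp
    obtain ⟨k₂, b₂, h₂⟩ := hX i
    refine ⟨k₁ + k₂, b₁ * b₂, ?_⟩
    have h3 : h θ ^ (k₁ + k₂) * (p * MvPolynomial.X i) - h (b₁ * b₂) =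
        (h θ ^ k₂ * MvPolynomial.X i) * (h θ ^ k₁ * p - h b₁) +
          h b₁ * (h θ ^ k₂ * MvPolynomial.X i - h b₂) := by
      rw [map_mul]
      ring
    rw [h3]
    exact J.add_mem (J.mul_mem_left _ h₁) (J.mul_mem_left _ h₂)

theorem lfn (hJ : ∀ x, ∃ (k : ℕ) (b : MvPolynomial σ K), h θ ^ k * x - h b ∈ J) :
    LFn θ (Res h.toRingHom (MvPolynomial τ K ⧸ J)) := by
  let e : Res h.toRingHom (MvPolynomial τ K ⧸ J) :=
    Res.mk h.toRingHom (Ideal.Quotient.mk J 1)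
  refine ⟨Submodule.span _ {e}, Submodule.fg_span_singleton e, fun m => ?_⟩
  obtain ⟨x, hx⟩ := Ideal.Quotient.mk_surjective (I := J) m.val
  obtain ⟨k, b, hb⟩ := hJ x
  refine ⟨k, Submodule.mem_span_singleton.2 ⟨b, ?_⟩⟩
  have h1 : (Ideal.Quotient.mk J) (h θ ^ k * x) = (Ideal.Quotient.mk J) (h b * 1) := by
    rw [mul_one]
    exact Ideal.Quotient.eq.2 hb
  have h2 : b • e = Res.mk h.toRingHom (h b • (Ideal.Quotient.mk J) 1) := rfl
  have h3 : θ ^ k • m = Res.mk h.toRingHom (h (θ ^ k) • m.val) := rfl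
  rw [h2, h3, ← hx, map_pow]
  change Res.mk h.toRingHom ((Ideal.Quotient.mk J) (h b * 1)) =
    Res.mk h.toRingHom ((Ideal.Quotient.mk J) (h θ ^ k * x))
  rw [h1]

end LfB_aux

theorem tLfB : S_LfB := by
  intro K _ σ τ h θ J hX
  have h1 := LfB_aux.all h θ J hX
  refine ⟨h1, LfB_aux.lfn h θ J h1, fun J' hJ' => LfB_aux.lfn h θ J' fun x => ?_⟩
  obtain ⟨k, b, hb⟩ := h1 x
  exact ⟨k, b, hJ' hb⟩

end Pool.Agent.QV
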