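import Pool.Agent.Lib.MP_b53bfe_ag.Q.SpecE

/-!
# Locally finite quotients of `BB` (`S_LfE`)
-/

set_option autoImplicit false

noncomputable section

namespace Pool.Agent.QV

open Matrix MvPolynomial
open Pool.Agent.FY (Res)

namespace LfE_aux

variable {K : Type} [Field K] (a : Par K)

theorem h01 : hB a (X (0, 1)) = X 0 := by simp [hB]

theorem h03 : hB a (X (0, 3)) = X 6 * X 4 := by simp [hB]

theorem h10 : hB a (X (1, 0)) = X 1 := by simp [hB]

theorem h11 : hB a (X (1, 1)) = X 2 := by simp [hB]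

theorem h12 : hB a (X (1, 2)) = X 3 := by simp [hB]

theorem h13 : hB a (X (1, 3)) = X 4 := by simp [hB]

theorem h14 : hB a (X (1, 4)) = X 5 := by simp [hB]

theorem h20 : hB a (X (2, 0)) = X 7 * X 1 + C (1 / 2) * (X 8 + X 9) := by simp [hB]

theorem h23 : hB a (X (2, 3)) = X 7 * X 4 := by simp [hB]

theorem h24 : hB a (X (2, 4)) = X 7 * X 5 + C (1 / 2) * (X 8 - X 9) := by simp [hB]

theorem half [CharZero K] : (C (1 / 2) : BB K) * 2 = 1 := by
  have h : (2 : BB K) = C 2 := (map_ofNat C 2).symm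
  rw [h, ← C_mul]
  norm_num

theorem hth : hB a (thP K) = X 6 * X 7 * X 4 ^ 3 := by
  unfold thP
  rw [map_mul, map_mul, h03, h13, h23]
  ring

theorem gen [CharZero K] (i : Fin 10) : ∃ (k : ℕ) (b : PP K), hB a (thP K) ^ k * X i = hB a b := by
  have hh := half (K := K)
  fin_cases i
  · exact ⟨0, X (0, 1), by rw [h01, pow_zero, one_mul]; rfl⟩
  · exact ⟨0, X (1, 0), by rw [h10, pow_zero, one_mul]; rfl⟩
  · exact ⟨0, X (1, 1), by rw [h11, pow_zero, one_mul]; rfl⟩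
  · exact ⟨0, X (1, 2), by rw [h12, pow_zero, one_mul]; rfl⟩
  · exact ⟨0, X (1, 3), by rw [h13, pow_zero, one_mul]; rfl⟩
  · exact ⟨0, X (1, 4), by rw [h14, pow_zero, one_mul]; rfl⟩
  · refine ⟨1, X (0, 3) ^ 2 * X (2, 3), ?_⟩
    rw [map_mul, map_pow, h03, h23, hth]
    show (X 6 * X 7 * X 4 ^ 3) ^ 1 * (X 6 : BB K) = _
    ring
  · refine ⟨1, X (0, 3) * X (2, 3) ^ 2, ?_⟩
    rw [map_mul, map_pow, h03, h23, hth]
    show (X 6 * X 7 * X 4 ^ 3) ^ 1 * (X 7 : BB K) = _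
    ring
  · refine ⟨1, thP K * (X (2, 0) + X (2, 4)) - X (0, 3) * X (2, 3) ^ 2 * (X (1, 0) + X (1, 4)), ?_⟩
    rw [map_sub, map_mul, map_mul, map_mul, map_pow, map_add, map_add, h03, h23, hth, h20, h24, h10, h14]
    show (X 6 * X 7 * X 4 ^ 3) ^ 1 * (X 8 : BB K) = _
    linear_combination (-(X 6 * X 7 * X 4 ^ 3 * X 8)) * hh
  · refine ⟨1, thP K * (X (2, 0) - X (2, 4)) - X (0, 3) * X (2, 3) ^ 2 * (X (1, 0) - X (1, 4)), ?_⟩
    rw [map_sub, map_mul, map_mul, map_mul, map_pow, map_sub, map_sub, h03, h23, hth, h20, h24, h10, h14]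
    show (X 6 * X 7 * X 4 ^ 3) ^ 1 * (X 9 : BB K) = _
    linear_combination (-(X 6 * X 7 * X 4 ^ 3 * X 9)) * hh

end LfE_aux

open LfE_aux

theorem tLfE : S_LfB → S_LfE := by
  intro hLf K _ _ a
  have h0 := hLf K (Fin 3 × Fin 5) (Fin 10) (hB a) (thP K) ⊥ (fun i => by
    obtain ⟨k, b, h⟩ := gen a i
    exact ⟨k, b, by rw [h, sub_self]; exact Submodule.zero_mem _⟩)
  refine ⟨hth a, ?_, fun J => h0.2.2 J bot_le⟩
  intro y
  obtain ⟨k, b, h⟩ := h0.1 y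
  exact ⟨k, b, sub_eq_zero.1 ((Submodule.mem_bot _).1 h)⟩

end Pool.Agent.QV
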