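import Pool.Agent.Lib.MP_b53bfe_ag.Q.SpecB
import Pool.Agent.Lib.MP_b53bfe_ag.Q.Bas

/-!
# Additive functions and localization
-/

set_option autoImplicit false

noncomputable section

namespace Pool.Agent.QV

open Matrix TensorProduct

theorem tLoc : S_Loc := by
  intro P L _ _ _ S _ W V _ χ
  have hflat : Module.Flat P L := IsLocalization.flat L S
  refine ⟨{ f := fun M _ _ => χ.f (L ⊗[P] M), add := ?_ }, fun M _ _ => rfl⟩
  intro A B C _ _ _ _ _ _ i p hB hW hi hp he
  refine χ.add (L ⊗[P] A) (L ⊗[P] B) (L ⊗[P] C) (i.baseChange L) (p.baseChange L) inferInstance ?_ ?_ ?_ ?_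
  · intro m
    rw [algebraMap_smul]
    induction m with
    | zero => rw [smul_zero]
    | tmul x y => rw [← TensorProduct.tmul_smul, hW, TensorProduct.tmul_zero]
    | add x y hx hy => rw [smul_add, hx, hy, add_zero]
  · exact Module.Flat.lTensor_preserves_injective_linearMap (M := L) i hi
  · exact LinearMap.lTensor_surjective L hp
  · exact Module.Flat.lTensor_exact L he

end Pool.Agent.QV
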