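import Pool.Agent.Lib.MP_b53bfe_ag.Q.SpecB

/-!
# MP_b53bfe_ag, Q1 for quintic threefolds: quotients by products (helper63)
-/

set_option autoImplicit false

noncomputable section

namespace Pool.Agent.QV

open Matrix
open Pool.Agent.FY (Res)

namespace Mlt_aux

variable {B : Type} [CommRing B]

/-- multiplication by `a` -/
def mi (J : Ideal B) (a b : B) :
    (B ⧸ (J ⊔ Ideal.span {b})) →ₗ[B] (B ⧸ (J ⊔ Ideal.span {a * b})) :=
  Submodule.mapQ (J ⊔ Ideal.span {b}) (J ⊔ Ideal.span {a * b}) (LinearMap.mulLeft B a) (by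
    intro x hx
    rw [sup_comm, Ideal.mem_span_singleton_sup] at hx
    obtain ⟨c, j, hj, rfl⟩ := hx
    rw [Submodule.mem_comap, sup_comm, Ideal.mem_span_singleton_sup]
    refine ⟨c, a * j, J.mul_mem_left a hj, ?_⟩
    change c * (a * b) + a * j = a * (c * b + j)
    ring)

/-- the projection -/
def mp (J : Ideal B) (a b : B) :
    (B ⧸ (J ⊔ Ideal.span {a * b})) →ₗ[B] (B ⧸ (J ⊔ Ideal.span {a})) :=
  Submodule.mapQ (J ⊔ Ideal.span {a * b}) (J ⊔ Ideal.span {a}) LinearMap.id (by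
    intro x hx
    rw [sup_comm, Ideal.mem_span_singleton_sup] at hx
    obtain ⟨c, j, hj, rfl⟩ := hx
    rw [Submodule.mem_comap, sup_comm, Ideal.mem_span_singleton_sup]
    refine ⟨c * b, j, hj, ?_⟩
    change c * b * a + j = c * (a * b) + j
    ring)

theorem mi_mk (J : Ideal B) (a b x : B) :
    mi J a b (Ideal.Quotient.mk _ x) = Ideal.Quotient.mk _ (a * x) := rfl

theorem mp_mk (J : Ideal B) (a b x : B) :
    mp J a b (Ideal.Quotient.mk _ x) = Ideal.Quotient.mk _ x := rfl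

theorem mi_inj (J : Ideal B) (a b : B) (ha : RegI a J) : Function.Injective (mi J a b) := by
  rw [injective_iff_map_eq_zero]
  intro x hx
  obtain ⟨y, rfl⟩ := Ideal.Quotient.mk_surjective x
  rw [mi_mk, Ideal.Quotient.eq_zero_iff_mem, sup_comm, Ideal.mem_span_singleton_sup] at hx
  obtain ⟨c, j, hj, hc⟩ := hx
  rw [Ideal.Quotient.eq_zero_iff_mem, sup_comm, Ideal.mem_span_singleton_sup]
  refine ⟨c, y - c * b, ha _ ?_, by ring⟩
  have h1 : a * (y - c * b) = j := by
    rw [mul_sub, ← hc]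
    ring
  rw [h1]
  exact hj

theorem mp_sur (J : Ideal B) (a b : B) : Function.Surjective (mp J a b) := by
  intro x
  obtain ⟨y, rfl⟩ := Ideal.Quotient.mk_surjective x
  exact ⟨Ideal.Quotient.mk _ y, mp_mk J a b y⟩

theorem ex (J : Ideal B) (a b : B) : Function.Exact (mi J a b) (mp J a b) := by
  intro x
  obtain ⟨y, rfl⟩ := Ideal.Quotient.mk_surjective x
  constructor
  · intro h
    rw [mp_mk, Ideal.Quotient.eq_zero_iff_mem, sup_comm, Ideal.mem_span_singleton_sup] at h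
    obtain ⟨c, j, hj, hc⟩ := h
    refine ⟨Ideal.Quotient.mk _ c, ?_⟩
    rw [mi_mk, Ideal.Quotient.eq, ← hc]
    have h1 : a * c - (c * a + j) = -j := by ring
    rw [h1]
    exact Submodule.mem_sup_left (J.neg_mem hj)
  · rintro ⟨z, hz⟩
    obtain ⟨c, rfl⟩ := Ideal.Quotient.mk_surjective z
    rw [← hz, mi_mk, mp_mk, Ideal.Quotient.eq_zero_iff_mem]
    exact Submodule.mem_sup_right (Ideal.mem_span_singleton.2 ⟨c, rfl⟩)

end Mlt_aux

open Mlt_aux in
/-- **Mlt** -/
theorem tMlt : S_Mlt := by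
  intro P B _ _ h W θ V _ Φ J a b hL hW ha
  have hK : KW W (Res h (B ⧸ (J ⊔ Ideal.span {a * b}))) := by
    intro m
    obtain ⟨y, hy⟩ := Ideal.Quotient.mk_surjective (I := J ⊔ Ideal.span {a * b}) m
    have h1 : h W • (Ideal.Quotient.mk (J ⊔ Ideal.span {a * b}) y) = 0 := by
      change Ideal.Quotient.mk (J ⊔ Ideal.span {a * b}) (h W * y) = 0
      rw [Ideal.Quotient.eq_zero_iff_mem]
      exact Ideal.mul_mem_right _ _ hW
    rw [hy] at h1
    exact h1
  rw [Φ.add (Res h (B ⧸ (J ⊔ Ideal.span {b}))) (Res h (B ⧸ (J ⊔ Ideal.span {a * b})))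
    (Res h (B ⧸ (J ⊔ Ideal.span {a}))) (Res.map h (mi J a b)) (Res.map h (mp J a b)) hL hK
    (mi_inj J a b ha) (mp_sur J a b) (ex J a b), add_comm]

end Pool.Agent.QV
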