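import Pool.Agent.Lib.MP_b53bfe_ag.Q.SpecE

/-!
# Disproof of Q1 of MP_b53bfe_ag for quintic threefolds: monic elements are regular
-/

set_option autoImplicit false

noncomputable section

namespace Pool.Agent.QV

open Matrix MvPolynomial
open Pool.Agent.FY (Res)

namespace Mon_aux

variable {K σ : Type} [Field K] (v : σ)

open Classical in
/-- the polynomial ring in all variables is the ring of polynomials in `X v` over the polynomials in the others -/
def e : MvPolynomial σ K ≃ₐ[K] Polynomial (MvPolynomial {u : σ // u ≠ v} K) :=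
  (renameEquiv K (Equiv.optionSubtypeNe v).symm).trans (optionEquivLeft K {u : σ // u ≠ v})

lemma e_X : e (K := K) v (X v) = Polynomial.X := by
  classical
  unfold e
  rw [AlgEquiv.trans_apply, renameEquiv_apply, rename_X]
  have h : (Equiv.optionSubtypeNe v).symm v = none := by
    rw [Equiv.symm_apply_eq]
    exact (Equiv.optionSubtypeNe_none v).symm
  rw [h, optionEquivLeft_X_none]

lemma e_rename (g : MvPolynomial {u : σ // u ≠ v} K) : e v (rename Subtype.val g) = Polynomial.C g := by
  classical
  have h : ((e (K := K) v).toAlgHom.comp (rename Subtype.val)) =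
      IsScalarTower.toAlgHom K (MvPolynomial {u : σ // u ≠ v} K) (Polynomial (MvPolynomial {u : σ // u ≠ v} K)) := by
    apply MvPolynomial.algHom_ext
    intro u
    have h1 : (Equiv.optionSubtypeNe v).symm u.1 = some u := by
      rw [Equiv.symm_apply_eq]
      exact (Equiv.optionSubtypeNe_some v u).symm
    rw [AlgHom.comp_apply, rename_X]
    change e v (X u.1) = Polynomial.C (X u)
    unfold e
    rw [AlgEquiv.trans_apply, renameEquiv_apply, rename_X, h1, optionEquivLeft_X_some]
  exact DFunLike.congr_fun h g

lemma mem (I₀ : Ideal (MvPolynomial {u : σ // u ≠ v} K)) (x : MvPolynomial σ K) :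
    x ∈ I₀.map (rename Subtype.val : MvPolynomial {u : σ // u ≠ v} K →ₐ[K] MvPolynomial σ K) ↔
      e v x ∈ I₀.map (Polynomial.C : MvPolynomial {u : σ // u ≠ v} K →+* _) := by
  constructor
  · intro hx
    have h : I₀.map (rename Subtype.val : MvPolynomial {u : σ // u ≠ v} K →ₐ[K] MvPolynomial σ K) ≤
        Ideal.comap (e (K := K) v) (I₀.map (Polynomial.C : MvPolynomial {u : σ // u ≠ v} K →+* _)) := by
      rw [Ideal.map_le_iff_le_comap]
      intro g hg
      rw [Ideal.mem_comap, Ideal.mem_comap, e_rename]
      exact Ideal.mem_map_of_mem _ hg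
    exact h hx
  · intro hx
    have h : I₀.map (Polynomial.C : MvPolynomial {u : σ // u ≠ v} K →+* _) ≤
        Ideal.comap (e (K := K) v).symm
          (I₀.map (rename Subtype.val : MvPolynomial {u : σ // u ≠ v} K →ₐ[K] MvPolynomial σ K)) := by
      rw [Ideal.map_le_iff_le_comap]
      intro g hg
      rw [Ideal.mem_comap, Ideal.mem_comap, ← e_rename, AlgEquiv.symm_apply_apply]
      exact Ideal.mem_map_of_mem _ hg
    have h1 := h hx
    rwa [Ideal.mem_comap, AlgEquiv.symm_apply_apply] at h1

lemma mem_C {A : Type} [CommRing A] (I : Ideal A) (f : Polynomial A) :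
    f ∈ I.map (Polynomial.C : A →+* Polynomial A) ↔ f.map (Ideal.Quotient.mk I) = 0 := by
  rw [Ideal.mem_map_C_iff, Polynomial.ext_iff]
  refine forall_congr' fun n => ?_
  rw [Polynomial.coeff_map, Polynomial.coeff_zero, Ideal.Quotient.eq_zero_iff_mem]

end Mon_aux

/-- monic elements are regular -/
theorem tMon : S_Mon := by
  intro K σ _ v I₀ g₀ d hd x hx
  rw [Mon_aux.mem] at hx ⊢
  rw [Mon_aux.mem_C] at hx ⊢
  rw [map_mul, map_add, map_pow, Mon_aux.e_X, Mon_aux.e_rename, Polynomial.map_mul, Polynomial.map_add,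
    Polynomial.map_pow, Polynomial.map_X, Polynomial.map_C] at hx
  exact (Polynomial.monic_X_pow_add_C _ (by omega)).mul_right_eq_zero_iff.1 hx

end Pool.Agent.QV
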