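import Pool.Agent.Lib.MP_b53bfe_ag.Q.SpecH

/-!
# `NF`: normal forms over a valuation ring
-/

set_option autoImplicit false

noncomputable section

namespace Pool.Agent.QV

open Matrix
open MvPolynomial TensorProduct

namespace NF_aux

section key

variable {K : Type} [Field K] (𝒪 : ValuationSubring K)

theorem v_sub_lt {x y : K} (hx : 𝒪.valuation x < 1) (hy : 𝒪.valuation y < 1) : 𝒪.valuation (x - y) < 1 :=
  lt_of_le_of_lt (Valuation.map_sub _ _ _) (max_lt hx hy)

theorem v_add_lt {x y : K} (hx : 𝒪.valuation x < 1) (hy : 𝒪.valuation y < 1) : 𝒪.valuation (x + y) < 1 :=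
  lt_of_le_of_lt (Valuation.map_add _ _ _) (max_lt hx hy)

theorem v_sum_lt {ι : Type} {s : Finset ι} {f : ι → K} (hf : ∀ i ∈ s, 𝒪.valuation (f i) < 1) :
    𝒪.valuation (∑ i ∈ s, f i) < 1 :=
  Valuation.map_sum_lt _ one_ne_zero hf

theorem v_mul_lt {x y : K} (hx : 𝒪.valuation x < 1) (hy : 𝒪.valuation y ≤ 1) : 𝒪.valuation (x * y) < 1 := by
  rw [map_mul]
  exact mul_lt_one_of_lt_of_le hx hy

theorem v_mul_lt' {x y : K} (hx : 𝒪.valuation x ≤ 1) (hy : 𝒪.valuation y < 1) : 𝒪.valuation (x * y) < 1 := by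
  rw [mul_comm]
  exact v_mul_lt 𝒪 hy hx

theorem v_int (hint : ∀ z : ℤ, z ≠ 0 → 𝒪.valuation (z : K) = 1) (z : ℤ) : 𝒪.valuation (z : K) ≤ 1 := by
  by_cases h : z = 0
  · rw [h, Int.cast_zero, map_zero]; exact zero_le_one
  · exact (hint z h).le

theorem v_le_of (hint : ∀ z : ℤ, z ≠ 0 → 𝒪.valuation (z : K) = 1) {x : K} {z : ℤ} (h : 𝒪.valuation (x - (z : K)) < 1) :
    𝒪.valuation x ≤ 1 := by
  have h1 : x = (x - (z : K)) + (z : K) := by ring
  rw [h1]
  exact le_trans (Valuation.map_add _ _ _) (max_le h.le (v_int 𝒪 hint z))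

variable {M : Type} [Fintype M] [DecidableEq M] {n k : ℕ}

/-- the square matrix -/
def TT (B : Fin n → M) (G : Fin k → M → K) (m : M) (j : Fin k ⊕ Fin n) : K :=
  match j with
  | Sum.inl c => G c m
  | Sum.inr b => if m = B b then 1 else 0

omit [Fintype M] in
theorem TT_sum (B : Fin n → M) (G : Fin k → M → K) (m : M) (z : Fin k ⊕ Fin n → K) :
    ∑ j, TT B G m j * z j = ∑ c, G c m * z (Sum.inl c) + ∑ b, (if m = B b then z (Sum.inr b) else 0) := by
  rw [Fintype.sum_sum_type]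
  congr 1
  refine Finset.sum_congr rfl fun b _ => ?_
  show (if m = B b then (1 : K) else 0) * _ = _
  split_ifs <;> simp

omit [Fintype M] in
variable {𝒪} in
theorem norm1 (hint : ∀ z : ℤ, z ≠ 0 → 𝒪.valuation (z : K) = 1) (B : Fin n → M) (hB : Function.Injective B)
    (G : Fin k → M → K) (Gz : Fin k → M → ℤ) (hG : ∀ c m, 𝒪.valuation (G c m - ((Gz c m : ℤ) : K)) < 1)
    (pos : Fin k → ℕ) (row : Fin k → M)
    (hrow : ∀ c, (∀ b, row c ≠ B b) ∧ Gz c (row c) ≠ 0 ∧ ∀ c', Gz c' (row c) ≠ 0 → c' ≠ c → pos c' < pos c)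
    (z : Fin k ⊕ Fin n → K) (hz : ∀ j, 𝒪.valuation (z j) ≤ 1) (hT : ∀ m, 𝒪.valuation (∑ j, TT B G m j * z j) < 1) :
    ∀ j, 𝒪.valuation (z j) < 1 := by
  have hl : ∀ N : ℕ, ∀ c, pos c < N → 𝒪.valuation (z (Sum.inl c)) < 1 := by
    intro N
    induction N with
    | zero => intro c h; exact absurd h (Nat.not_lt_zero _)
    | succ N ih =>
      intro c hc
      obtain ⟨h1, h2, h3⟩ := hrow c
      have hs := hT (row c)
      rw [TT_sum, Finset.sum_eq_zero (s := Finset.univ) (f := fun b => if row c = B b then z (Sum.inr b) else 0)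
        (fun b _ => if_neg (h1 b)), add_zero, ← Finset.add_sum_erase _ _ (Finset.mem_univ c)] at hs
      have hr : 𝒪.valuation (∑ x ∈ Finset.univ.erase c, G x (row c) * z (Sum.inl x)) < 1 := by
        refine v_sum_lt 𝒪 fun c' hc' => ?_
        have hne : c' ≠ c := (Finset.mem_erase.1 hc').1
        by_cases h0 : Gz c' (row c) = 0
        · have := hG c' (row c)
          rw [h0, Int.cast_zero, sub_zero] at this
          exact v_mul_lt 𝒪 this (hz _)
        · exact v_mul_lt' 𝒪 (v_le_of 𝒪 hint (hG c' (row c))) (ih c' (lt_of_lt_of_le (h3 c' h0 hne) (Nat.lt_succ_iff.1 hc)))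
      have hm : 𝒪.valuation (G c (row c) * z (Sum.inl c)) < 1 := by
        have := v_sub_lt 𝒪 hs hr
        rwa [add_sub_cancel_right] at this
      have hm2 : 𝒪.valuation (((Gz c (row c) : ℤ) : K) * z (Sum.inl c)) < 1 := by
        have h4 : ((Gz c (row c) : ℤ) : K) * z (Sum.inl c) =
            G c (row c) * z (Sum.inl c) - (G c (row c) - ((Gz c (row c) : ℤ) : K)) * z (Sum.inl c) := by ring
        rw [h4]
        exact v_sub_lt 𝒪 hm (v_mul_lt 𝒪 (hG _ _) (hz _))
      rwa [map_mul, hint _ h2, one_mul] at hm2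
  have hl' : ∀ c, 𝒪.valuation (z (Sum.inl c)) < 1 := fun c => hl _ c (Nat.lt_succ_self _)
  rintro (c | b)
  · exact hl' c
  · have hs := hT (B b)
    rw [TT_sum] at hs
    have h5 : ∑ b', (if B b = B b' then z (Sum.inr b') else 0) = z (Sum.inr b) := by
      rw [Finset.sum_eq_single b]
      · rw [if_pos rfl]
      · intro b' _ hb'
        exact if_neg fun h => hb' (hB h).symm
      · intro h; exact absurd (Finset.mem_univ b) h
    rw [h5] at hs
    have hr : 𝒪.valuation (∑ c, G c (B b) * z (Sum.inl c)) < 1 :=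
      v_sum_lt 𝒪 fun c _ => v_mul_lt' 𝒪 (v_le_of 𝒪 hint (hG c (B b))) (hl' c)
    have := v_sub_lt 𝒪 hs hr
    rwa [add_sub_cancel_left] at this

omit [Fintype M] in
variable {𝒪} in
theorem norm2 (hint : ∀ z : ℤ, z ≠ 0 → 𝒪.valuation (z : K) = 1) (B : Fin n → M) (hB : Function.Injective B)
    (G : Fin k → M → K) (Gz : Fin k → M → ℤ) (hG : ∀ c m, 𝒪.valuation (G c m - ((Gz c m : ℤ) : K)) < 1)
    (pos : Fin k → ℕ) (row : Fin k → M)
    (hrow : ∀ c, (∀ b, row c ≠ B b) ∧ Gz c (row c) ≠ 0 ∧ ∀ c', Gz c' (row c) ≠ 0 → c' ≠ c → pos c' < pos c)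
    (z : Fin k ⊕ Fin n → K) (j0 : Fin k ⊕ Fin n) (h0 : z j0 ≠ 0) (hz : ∀ j, 𝒪.valuation (z j) ≤ 𝒪.valuation (z j0))
    (hT : ∀ m, 𝒪.valuation (∑ j, TT B G m j * z j) < 𝒪.valuation (z j0)) : False := by
  have hv0 : 𝒪.valuation (z j0) ≠ 0 := (Valuation.ne_zero_iff _).2 h0
  have hpos : 0 < 𝒪.valuation (z j0) := zero_lt_iff.2 hv0
  have h := norm1 hint B hB G Gz hG pos row hrow (fun j => z j / z j0) (fun j => by
    rw [map_div₀]
    exact (div_le_one₀ hpos).2 (hz j)) (fun m => by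
    have h1 : ∑ j, TT B G m j * (z j / z j0) = (∑ j, TT B G m j * z j) / z j0 := by
      rw [Finset.sum_div]
      exact Finset.sum_congr rfl fun j _ => (mul_div_assoc _ _ _).symm
    rw [h1, map_div₀]
    exact (div_lt_one₀ hpos).2 (hT m)) j0
  simp only [div_self h0, map_one] at h
  exact lt_irrefl _ h

variable {𝒪} in
theorem key (hint : ∀ z : ℤ, z ≠ 0 → 𝒪.valuation (z : K) = 1) (hc : Fintype.card M = n + k)
    (B : Fin n → M) (hB : Function.Injective B)
    (G : Fin k → M → K) (Gz : Fin k → M → ℤ) (hG : ∀ c m, 𝒪.valuation (G c m - ((Gz c m : ℤ) : K)) < 1)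
    (pos : Fin k → ℕ) (row : Fin k → M)
    (hrow : ∀ c, (∀ b, row c ≠ B b) ∧ Gz c (row c) ≠ 0 ∧ ∀ c', Gz c' (row c) ≠ 0 → c' ≠ c → pos c' < pos c)
    (L : Fin n → M → ℤ) (hL : ∀ b c, ∑ m, L b m * Gz c m = 0) (hLB : ∀ b b', L b (B b') = if b' = b then 1 else 0) :
    ∃ l : Fin n → ((M → K) →ₗ[K] K), (∀ b c, l b (G c) = 0) ∧ ∀ b (h : M → K) (hz : M → ℤ),
      (∀ m, 𝒪.valuation (h m - ((hz m : ℤ) : K)) < 1) → 𝒪.valuation (l b h - ((∑ m, L b m * hz m : ℤ) : K)) < 1 := by
  have hj : ∀ z : Fin k ⊕ Fin n → K, z ≠ 0 → ∃ j0, z j0 ≠ 0 ∧ ∀ j, 𝒪.valuation (z j) ≤ 𝒪.valuation (z j0) := by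
    intro z hz
    obtain ⟨j1, hj1⟩ := Function.ne_iff.1 hz
    have : Nonempty (Fin k ⊕ Fin n) := ⟨j1⟩
    obtain ⟨j0, hj0⟩ := Finite.exists_max fun j => 𝒪.valuation (z j)
    refine ⟨j0, fun h => ?_, hj0⟩
    have := hj0 j1
    rw [h, map_zero, le_zero_iff, Valuation.zero_iff] at this
    exact hj1 this
  let T : (Fin k ⊕ Fin n → K) →ₗ[K] (M → K) := (Matrix.of (TT B G)).mulVecLin
  have hTz : ∀ z m, T z m = ∑ j, TT B G m j * z j := fun z m => rfl
  have hinj : Function.Injective T := by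
    rw [← LinearMap.ker_eq_bot, LinearMap.ker_eq_bot']
    intro z hz
    by_contra hne
    obtain ⟨j0, h0, hm⟩ := hj z hne
    refine norm2 hint B hB G Gz hG pos row hrow z j0 h0 hm fun m => ?_
    rw [← hTz, hz, Pi.zero_apply, map_zero]
    exact zero_lt_iff.2 ((Valuation.ne_zero_iff _).2 h0)
  have hbd : ∀ z, (∀ m, 𝒪.valuation (T z m) ≤ 1) → ∀ j, 𝒪.valuation (z j) ≤ 1 := by
    intro z hz j
    by_contra hj'
    rw [not_le] at hj'
    have hne : z ≠ 0 := by
      rintro rfl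
      rw [Pi.zero_apply, map_zero] at hj'
      exact absurd hj' (not_lt.2 zero_le_one)
    obtain ⟨j0, h0, hm⟩ := hj z hne
    refine norm2 hint B hB G Gz hG pos row hrow z j0 h0 hm fun m => ?_
    rw [← hTz]
    exact lt_of_le_of_lt (hz m) (lt_of_lt_of_le hj' (hm j))
  have hdim : Module.finrank K (Fin k ⊕ Fin n → K) = Module.finrank K (M → K) := by
    rw [Module.finrank_fintype_fun_eq_card, Module.finrank_fintype_fun_eq_card, Fintype.card_sum, Fintype.card_fin,
      Fintype.card_fin, hc, add_comm]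
  let e : (Fin k ⊕ Fin n → K) ≃ₗ[K] (M → K) := LinearMap.linearEquivOfInjective T hinj hdim
  have he : ∀ z, e z = T z := fun z => rfl
  refine ⟨fun b => LinearMap.proj (Sum.inr b) ∘ₗ e.symm.toLinearMap, fun b c => ?_, fun b h hz hR => ?_⟩
  · have h1 : e (Pi.single (Sum.inl c) 1) = G c := by
      rw [he]
      funext m
      rw [hTz, Finset.sum_eq_single (Sum.inl c)]
      · rw [Pi.single_eq_same, mul_one]; rfl
      · intro j _ hj
        rw [Pi.single_eq_of_ne hj, mul_zero]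
      · intro h; exact absurd (Finset.mem_univ _) h
    show e.symm (G c) (Sum.inr b) = 0
    rw [← h1, LinearEquiv.symm_apply_apply]
    exact Pi.single_eq_of_ne (by simp) _
  · show 𝒪.valuation (e.symm h (Sum.inr b) - _) < 1
    set z := e.symm h with hzdef
    have hez : T z = h := by rw [← he, hzdef, LinearEquiv.apply_symm_apply]
    have hzb : ∀ j, 𝒪.valuation (z j) ≤ 1 := hbd z fun m => by rw [hez]; exact v_le_of 𝒪 hint (hR m)
    have hgen : ∀ (w : M → K) (wz : M → ℤ), (∀ m, 𝒪.valuation (w m - ((wz m : ℤ) : K)) < 1) →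
        𝒪.valuation (∑ m, ((L b m : ℤ) : K) * w m - ((∑ m, L b m * wz m : ℤ) : K)) < 1 := by
      intro w wz hw
      rw [Int.cast_sum, ← Finset.sum_sub_distrib]
      refine v_sum_lt 𝒪 fun m _ => ?_
      rw [Int.cast_mul, ← mul_sub]
      exact v_mul_lt' 𝒪 (v_int 𝒪 hint _) (hw m)
    have h1 := hgen h hz hR
    have h2 : ∀ c, 𝒪.valuation (∑ m, ((L b m : ℤ) : K) * G c m) < 1 := by
      intro c
      have := hgen (G c) (Gz c) (hG c)
      rwa [hL, Int.cast_zero, sub_zero] at this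
    have h3 : ∑ m, ((L b m : ℤ) : K) * h m = ∑ c, (∑ m, ((L b m : ℤ) : K) * G c m) * z (Sum.inl c) + z (Sum.inr b) := by
      rw [← hez]
      simp only [hTz, TT_sum, mul_add, Finset.sum_add_distrib]
      congr 1
      · rw [Finset.sum_congr rfl fun m _ => Finset.mul_sum _ _ _, Finset.sum_comm]
        refine Finset.sum_congr rfl fun c _ => ?_
        rw [Finset.sum_mul]
        exact Finset.sum_congr rfl fun m _ => by ring
      · rw [Finset.sum_congr rfl fun m _ => Finset.mul_sum _ _ _, Finset.sum_comm]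
        have h4 : ∀ b', ∑ m, ((L b m : ℤ) : K) * (if m = B b' then z (Sum.inr b') else 0) =
            if b' = b then z (Sum.inr b') else 0 := by
          intro b'
          rw [Finset.sum_eq_single (B b')]
          · rw [if_pos rfl, hLB]
            split_ifs <;> simp
          · intro m _ hm
            rw [if_neg hm, mul_zero]
          · intro h; exact absurd (Finset.mem_univ _) h
        rw [Finset.sum_congr rfl fun b' _ => h4 b', Finset.sum_ite_eq' Finset.univ b, if_pos (Finset.mem_univ b)]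
    have h5 : 𝒪.valuation (∑ c, (∑ m, ((L b m : ℤ) : K) * G c m) * z (Sum.inl c)) < 1 :=
      v_sum_lt 𝒪 fun c _ => v_mul_lt 𝒪 (h2 c) (hzb _)
    have h6 : z (Sum.inr b) - ((∑ m, L b m * hz m : ℤ) : K) =
        (∑ m, ((L b m : ℤ) : K) * h m - ((∑ m, L b m * hz m : ℤ) : K)) -
          ∑ c, (∑ m, ((L b m : ℤ) : K) * G c m) * z (Sum.inl c) := by
      rw [h3]; ring
    rw [h6]
    exact v_sub_lt 𝒪 h1 h5

end key

theorem wt_nf4 {m m' : Fin 4 → ℕ} (h : nf4 m = some m') : wt4 (ex4 m') = wt4 (ex4 m) := by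
  have e : ∀ p : Fin 4 → ℕ, wt4 (ex4 p) = p 0 + p 1 + 2 * p 2 + 2 * p 3 := fun p => rfl
  rw [e, e]
  unfold nf4 at h
  split_ifs at h
  all_goals
    rw [Option.some.injEq] at h
    rw [← h]
    simp
    omega

theorem fin_wt (d : ℕ) : {m : Fin 4 →₀ ℕ | wt4 m = d}.Finite := by
  refine (Set.finite_Icc (0 : Fin 4 →₀ ℕ) (ex4 fun _ => d)).subset ?_
  intro m hm
  have hm' : m 0 + m 1 + 2 * m 2 + 2 * m 3 = d := hm
  refine ⟨zero_le, fun i => ?_⟩
  show m i ≤ d
  fin_cases i <;> simp <;> omega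

theorem lbar_eq (b : Fin 4 → ℕ) (d : ℕ) (hb : wt4 (ex4 b) = d) [Fintype {m : Fin 4 →₀ ℕ // wt4 m = d}]
    (h : MvPolynomial (Fin 4) ℤ) :
    lbar b h = ∑ m : {m : Fin 4 →₀ ℕ // wt4 m = d}, (if nf4 m.1 = some b then 1 else 0) * h.coeff m.1 := by
  classical
  induction h using MvPolynomial.induction_on' with
  | monomial u z =>
    have h1 : (monomial u z : MvPolynomial (Fin 4) ℤ) = z • (basisMonomials (Fin 4) ℤ) u := by
      rw [coe_basisMonomials, smul_monomial, smul_eq_mul, mul_one]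
    rw [h1, map_smul, lbar, Module.Basis.constr_basis, ← h1, smul_eq_mul]
    simp only [coeff_monomial]
    by_cases hu : wt4 u = d
    · rw [Finset.sum_eq_single (⟨u, hu⟩ : {m : Fin 4 →₀ ℕ // wt4 m = d})]
      · simp only [if_true]; ring
      · intro m _ hm
        have hne : u ≠ m.1 := fun h => hm (Subtype.ext h.symm)
        rw [if_neg hne, mul_zero]
      · intro h; exact absurd (Finset.mem_univ _) h
    · have h2 : nf4 u ≠ some b := by
        intro h3
        have h4 := wt_nf4 h3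
        have h5 : ex4 (⇑u) = u := Finsupp.ext fun _ => rfl
        rw [h5, hb] at h4
        exact hu h4.symm
      rw [if_neg h2, mul_zero, eq_comm]
      refine Finset.sum_eq_zero fun m _ => ?_
      have hne : u ≠ m.1 := fun h => hu (by rw [h]; exact m.2)
      rw [if_neg hne, mul_zero]
  | add p q hp hq =>
    rw [map_add, hp, hq, ← Finset.sum_add_distrib]
    exact Finset.sum_congr rfl fun m _ => by rw [coeff_add]; ring

end NF_aux

open NF_aux in
theorem tNF : S_NF := by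
  intro K _ 𝒪 d n k B g gz hint hcard hB hBw hgw hRd hlb hnf hrow
  classical
  obtain ⟨pos, row, hrow⟩ := hrow
  have : Fintype {m : Fin 4 →₀ ℕ // wt4 m = d} := (fin_wt d).fintype
  rw [Nat.card_eq_fintype_card] at hcard
  have hex : Function.Injective ex4 := fun a b h => by
    funext i
    exact DFunLike.congr_fun h i
  obtain ⟨l, hl1, hl2⟩ := key (𝒪 := 𝒪) (M := {m : Fin 4 →₀ ℕ // wt4 m = d}) hint hcard (fun b => ⟨ex4 (B b), hBw b⟩)
    (fun b b' h => hB (hex (Subtype.ext_iff.1 h)))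
    (fun c m => (g c).coeff m.1) (fun c m => (gz c).coeff m.1) (fun c m => hRd c m.1)
    pos (fun c => ⟨ex4 (row c), (hrow c).1⟩)
    (fun c => ⟨fun b h => (hrow c).2.1 b (hex (Subtype.ext_iff.1 h)), (hrow c).2.2.1, (hrow c).2.2.2⟩)
    (fun b m => if nf4 m.1 = some (B b) then 1 else 0)
    (fun b c => by rw [← lbar_eq (B b) d (hBw b)]; exact hlb b c)
    (fun b b' => by
      have h1 : (⇑(ex4 (B b')) : Fin 4 → ℕ) = B b' := rfl
      show (if nf4 (⇑(ex4 (B b'))) = some (B b) then (1 : ℤ) else 0) = _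
      rw [h1, hnf]
      by_cases h : b' = b
      · rw [h]; simp
      · rw [if_neg h, if_neg]
        intro h2
        exact h (hB (Option.some.inj h2)))
  let res : S4 K →ₗ[K] ({m : Fin 4 →₀ ℕ // wt4 m = d} → K) := LinearMap.pi fun m => lcoeff K m.1
  have hres : ∀ (h : S4 K) m, res h m = h.coeff m.1 := fun h m => rfl
  refine ⟨fun b => l b ∘ₗ res, fun b c => hl1 b c, fun b m hm => ?_, fun b h hz hR => ?_⟩
  · have h0 : res (monomial m 1) = 0 := by
      funext m'
      have hne : m ≠ m'.1 := fun h => hm (by rw [h]; exact m'.2)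
      rw [hres, coeff_monomial, if_neg hne, Pi.zero_apply]
    rw [LinearMap.comp_apply, h0, map_zero]
  · rw [lbar_eq (B b) d (hBw b)]
    exact hl2 b (res h) (fun m => hz.coeff m.1) (fun m => hR m.1)

end Pool.Agent.QV
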