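import Pool.Agent.Lib.MP_b53bfe_ag.Q.SpecA

/-!
# Local rings of polynomial rings are noetherian local domains of finite global dimension
-/

set_option autoImplicit false

noncomputable section

namespace Pool.Agent.QV

open Matrix

namespace NLD_aux

attribute [local instance] RingHomInvPair.of_ringEquiv in
lemma GD_iso {R S : Type} [CommRing R] [CommRing S] (e : R ≃+* S) {j : ℕ} (h : GD R j) : GD S j := by
  intro M _ _
  let : Module R M := Module.compHom M (e : R →+* S)
  have h1 : CategoryTheory.HasProjectiveDimensionLE (ModuleCat.of R M) j := h M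
  let e' : (ModuleCat.of R M) ≃ₛₗ[RingHomClass.toRingHom e] (ModuleCat.of S M) :=
    { toFun := fun x => x
      invFun := fun x => x
      left_inv := fun _ => rfl
      right_inv := fun _ => rfl
      map_add' := fun _ _ => rfl
      map_smul' := fun _ _ => rfl }
  exact ModuleCat.hasProjectiveDimensionLE_of_semiLinearEquiv e e' j

lemma GD_field (hP : S_Pd) (K : Type) [Field K] : GD K 0 := by
  intro M _ _
  exact ((hP K).2.2.2 M).2 inferInstance

lemma GD_mv (hG : S_Gd1) (hP : S_Pd) (K : Type) [Field K] (n : ℕ) : GD (MvPolynomial (Fin n) K) n := by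
  induction n with
  | zero => exact GD_iso (MvPolynomial.isEmptyRingEquiv K (Fin 0)).symm (GD_field hP K)
  | succ n ih => exact GD_iso (MvPolynomial.finSuccEquiv K n).toRingEquiv.symm (hG _ n ih)

lemma GD_mv' (hG : S_Gd1) (hP : S_Pd) (K : Type) [Field K] (σ : Type) [Finite σ] :
    ∃ n, GD (MvPolynomial σ K) n := by
  obtain ⟨n, ⟨e⟩⟩ := Finite.exists_equiv_fin σ
  exact ⟨n, GD_iso (MvPolynomial.renameEquiv K e).toRingEquiv.symm (GD_mv hG hP K n)⟩

lemma GD_loc (hP : S_Pd) {R : Type} [CommRing R] (S : Submonoid R) {j : ℕ} (h : GD R j) : GD (Localization S) j := by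
  intro M _ _
  let : Module R M := Module.compHom M (algebraMap R (Localization S))
  have : IsScalarTower R (Localization S) M := ⟨fun r s m => by
    change (r • s) • m = (algebraMap R (Localization S) r) • (s • m)
    rw [Algebra.smul_def, mul_smul]⟩
  have h1 : CategoryTheory.HasProjectiveDimensionLE (ModuleCat.of R M) j := h M
  have h2 := ModuleCat.localizedModule_hasProjectiveDimensionLE j S (ModuleCat.of R M)
  have h3 : IsLocalizedModule S (LinearMap.id : M →ₗ[R] M) := isLocalizedModule_id S M (Localization S)
  let X := (ModuleCat.of R M).localizedModule S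
  have h4 := ModuleCat.localizedModule_isLocalizedModule (ModuleCat.of R M) S
  let e1 : X ≃ₗ[R] M := IsLocalizedModule.linearEquiv S ((ModuleCat.of R M).localizedModuleMkLinearMap S)
    (LinearMap.id : M →ₗ[R] M)
  let e2 : X ≃ₗ[Localization S] M := LinearEquiv.extendScalarsOfIsLocalization S (Localization S) e1
  exact (hP (Localization S)).2.1 j X M e2 h2

end NLD_aux

theorem tNLD : S_Gd1 → S_Pd → S_NLD := by
  intro hG hP K _ σ _ Q _
  obtain ⟨n, hn⟩ := NLD_aux.GD_mv' hG hP K σ
  refine ⟨?_, inferInstance, ?_, n, NLD_aux.GD_loc hP Q.primeCompl hn⟩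
  · exact IsLocalization.isDomain_localization Q.primeCompl_le_nonZeroDivisors
  · exact IsLocalization.isNoetherianRing Q.primeCompl _ inferInstance

end Pool.Agent.QV
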