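import Pool.Agent.Lib.MP_b53bfe_ag.Q.SpecG

/-!
# MP_b53bfe_ag, module Nv: the values of the `6 × 6` determinants
-/

set_option autoImplicit false

noncomputable section

namespace Pool.Agent.QV

open Matrix
open MvPolynomial TensorProduct
open Pool.Agent.FY (Res)

namespace Nv_aux

/-- `Dc D` as a derivation -/
def del (h : S_Dc) {K σ : Type} [Field K] (D : Derivation ℤ K K) :
    Derivation ℤ (MvPolynomial σ K) (MvPolynomial σ K) :=
  Derivation.mk' (AddMonoidHom.mk' (Dc D) (h K σ D).1).toIntLinearMap (fun a b => by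
    have := (h K σ D).2.1 a b
    simpa [smul_eq_mul] using this)

theorem del_eq (h : S_Dc) {K σ : Type} [Field K] (D : Derivation ℤ K K) (b : MvPolynomial σ K) :
    del h D b = Dc D b := rfl

theorem del_X (h : S_Dc) {K σ : Type} [Field K] (D : Derivation ℤ K K) (v : σ) :
    del h D (X v : MvPolynomial σ K) = 0 := (h K σ D).2.2.1 v

theorem del_C (h : S_Dc) {K σ : Type} [Field K] (D : Derivation ℤ K K) (k : K) :
    del h D (C k : MvPolynomial σ K) = C (D k) := (h K σ D).2.2.2 k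

/-- `pderiv v` as a derivation over `ℤ` -/
def pd {K σ : Type} [Field K] (v : σ) : Derivation ℤ (MvPolynomial σ K) (MvPolynomial σ K) :=
  Derivation.restrictScalars ℤ (pderiv v : Derivation K (MvPolynomial σ K) (MvPolynomial σ K))

theorem pd_eq {K σ : Type} [Field K] (v : σ) (b : MvPolynomial σ K) : pd v b = pderiv v b := rfl

theorem pd_C {K σ : Type} [Field K] (v : σ) (k : K) : pd v (C k : MvPolynomial σ K) = 0 := pderiv_C

section

variable {B : Type} [CommRing B] (d : Derivation ℤ B B)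

theorem d_five : d (5 : B) = 0 := by
  have := d.map_natCast 5
  simpa using this

theorem d_two : d (2 : B) = 0 := by
  have := d.map_natCast 2
  simpa using this

variable {K : Type} [Field K] [Algebra K B]

theorem dQ (κ : K) (s t : B) : d (Qf κ s t) =
    (4 * s ^ 3 - 3 * algebraMap K B κ * s ^ 2 * t + 2 * algebraMap K B κ ^ 2 * s * t ^ 2 - algebraMap K B κ ^ 3 * t ^ 3) * d s +
    (-(algebraMap K B κ) * s ^ 3 + 2 * algebraMap K B κ ^ 2 * s ^ 2 * t - 3 * algebraMap K B κ ^ 3 * s * t ^ 2 +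
      4 * algebraMap K B κ ^ 4 * t ^ 3) * d t +
    (-(s ^ 3 * t) + 2 * algebraMap K B κ * s ^ 2 * t ^ 2 - 3 * algebraMap K B κ ^ 2 * s * t ^ 3 +
      4 * algebraMap K B κ ^ 3 * t ^ 4) * d (algebraMap K B κ) := by
  unfold Qf
  simp only [map_pow, map_add, map_sub, Derivation.leibniz, Derivation.leibniz_pow, smul_eq_mul, nsmul_eq_mul]
  push_cast
  ring

end

theorem det0 {R : Type} [CommRing R] (k t qt qs k' qk l g m n h : R) :
    Matrix.det !![1, 0, 0, 0, 0, 0; 0, 1, 0, 0, 0, 0; 0, 0, k, 1, 0, k' * t; 0, 0, qt, qs, 0, k' * qk;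
      0, 0, l, 0, 1, g; 0, 0, m, 0, n, h] =
    (k * qs - qt) * (h - n * g) + k' * ((t * qt - k * qk) * 1 * 0 + (qk - t * qs) * (m - n * l)) := by
  simp [Matrix.det_succ_row_zero, Fin.sum_univ_succ, Fin.succAbove]
  ring

theorem detS {R : Type} [CommRing R] (b0 b1 b2 b3 b4 r g0 g2 g4 k qt qs : R) :
    Matrix.det !![0, 1, 0, 0, 0, 0; b0, b1, b2, b3, b4, r; 1, 0, 0, 0, 1, 0; g0, 0, g2, 0, g4, 0;
      0, 0, k, 1, 0, 0; 0, 0, qt, qs, 0, 0] = r * (k * qs - qt) * (g0 - g4) := by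
  simp [Matrix.det_succ_row_zero, Fin.sum_univ_succ, Fin.succAbove]
  ring

section

variable {K : Type} [Field K] (a : Par K) (κ : K)

/-- `∂ Q / ∂ s` -/
def qS (x t : PP K) : PP K := 4 * x ^ 3 - 3 * C κ * x ^ 2 * t + 2 * C κ ^ 2 * x * t ^ 2 - C κ ^ 3 * t ^ 3

/-- `∂ Q / ∂ t` -/
def qT (x t : PP K) : PP K := -(C κ) * x ^ 3 + 2 * C κ ^ 2 * x ^ 2 * t - 3 * C κ ^ 3 * x * t ^ 2 + 4 * C κ ^ 4 * t ^ 3

/-- `∂ Q / ∂ κ` -/
def qK (x t : PP K) : PP K := -(x ^ 3 * t) + 2 * C κ * x ^ 2 * t ^ 2 - 3 * C κ ^ 2 * x * t ^ 3 + 4 * C κ ^ 3 * t ^ 4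

theorem dQ' (d : Derivation ℤ (PP K) (PP K)) (x t : PP K) :
    d (Qf κ x t) = qS κ x t * d x + qT κ x t * d t + qK κ x t * d (C κ) := dQ d κ x t

theorem row0 (d : Derivation ℤ (PP K) (PP K)) (i : Fin 6) : d (sl a κ 0 i) =
    ![d (X (0, 0)), d (X (0, 1)), d (X (0, 3)) + C κ * d (X (0, 2)) + d (C κ) * X (0, 2),
      qS κ (X (0, 3)) (X (0, 2)) * d (X (0, 3)) + qT κ (X (0, 3)) (X (0, 2)) * d (X (0, 2)) +
        d (C κ) * qK κ (X (0, 3)) (X (0, 2)),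
      d (X (0, 4)) - 2 * C a.c * X (0, 2) * d (X (0, 2)) - d (C a.c) * X (0, 2) ^ 2,
      -(5 * (X (0, 4) + C a.c * X (0, 2) ^ 2) + 10 * C a.c * X (0, 2) ^ 2) * d (X (0, 2)) - 5 * X (0, 2) * d (X (0, 4)) -
        5 * X (0, 2) * (d (C a.c) * X (0, 2) ^ 2)] i := by
  have e5 : d 5 = 0 := d_five d
  fin_cases i
  · rfl
  · rfl
  · show d (X (0, 3) + C κ * X (0, 2)) = d (X (0, 3)) + C κ * d (X (0, 2)) + d (C κ) * X (0, 2)
    rw [map_add, Derivation.leibniz]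
    simp only [smul_eq_mul]
    ring
  · show d (Qf κ (X (0, 3)) (X (0, 2))) = qS κ (X (0, 3)) (X (0, 2)) * d (X (0, 3)) +
      qT κ (X (0, 3)) (X (0, 2)) * d (X (0, 2)) + d (C κ) * qK κ (X (0, 3)) (X (0, 2))
    rw [dQ']
    ring
  · show d (X (0, 4) - C a.c * X (0, 2) ^ 2) = _
    simp only [map_sub, Derivation.leibniz, Derivation.leibniz_pow, smul_eq_mul, nsmul_eq_mul]
    push_cast
    ring
  · show d (-(5 * X (0, 2) * (X (0, 4) + C a.c * X (0, 2) ^ 2))) = _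
    simp only [map_neg, map_add, Derivation.leibniz, Derivation.leibniz_pow, smul_eq_mul, nsmul_eq_mul, e5]
    push_cast
    ring

theorem rowS (d : Derivation ℤ (PP K) (PP K)) (s : Fin 3) (hs : s ≠ 0) (i : Fin 6) : d (sl a κ s i) =
    ![d (X (s, 1)), d (Rf a (X (s, 0)) (X (s, 1)) (X (s, 2)) (X (s, 4))), d (X (s, 0)) + d (X (s, 4)),
      -(5 * (X (s, 0) - X (s, 4)) * (X (s, 0) ^ 2 - X (s, 4) ^ 2 + C (2 * a.c) * X (s, 2) ^ 2) * d (X (s, 2)) +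
        5 * X (s, 2) * (X (s, 0) ^ 2 - X (s, 4) ^ 2 + C (2 * a.c) * X (s, 2) ^ 2) * (d (X (s, 0)) - d (X (s, 4))) +
        5 * X (s, 2) * (X (s, 0) - X (s, 4)) * (2 * X (s, 0) * d (X (s, 0)) - 2 * X (s, 4) * d (X (s, 4)) +
          2 * C (2 * a.c) * X (s, 2) * d (X (s, 2)) + d (C (2 * a.c)) * X (s, 2) ^ 2)),
      d (X (s, 3)) + C κ * d (X (s, 2)) + d (C κ) * X (s, 2),
      qS κ (X (s, 3)) (X (s, 2)) * d (X (s, 3)) + qT κ (X (s, 3)) (X (s, 2)) * d (X (s, 2)) +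
        d (C κ) * qK κ (X (s, 3)) (X (s, 2))] i := by
  have e5 : d 5 = 0 := d_five d
  have hsl : sl a κ s i = ![X (s, 1), Rf a (X (s, 0)) (X (s, 1)) (X (s, 2)) (X (s, 4)), X (s, 0) + X (s, 4),
      -(5 * X (s, 2) * (X (s, 0) - X (s, 4)) * (X (s, 0) ^ 2 - X (s, 4) ^ 2 + C (2 * a.c) * X (s, 2) ^ 2)),
      X (s, 3) + C κ * X (s, 2), Qf κ (X (s, 3)) (X (s, 2))] i := by
    fin_cases s
    · exact absurd rfl hs
    · rfl
    · rfl
  rw [hsl]
  fin_cases i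
  · rfl
  · rfl
  · show d (X (s, 0) + X (s, 4)) = d (X (s, 0)) + d (X (s, 4))
    rw [map_add]
  · show d (-(5 * X (s, 2) * (X (s, 0) - X (s, 4)) * (X (s, 0) ^ 2 - X (s, 4) ^ 2 + C (2 * a.c) * X (s, 2) ^ 2))) = _
    simp only [map_neg, map_add, map_sub, Derivation.leibniz, Derivation.leibniz_pow, smul_eq_mul,
      nsmul_eq_mul, e5]
    push_cast
    ring
  · show d (X (s, 3) + C κ * X (s, 2)) = d (X (s, 3)) + C κ * d (X (s, 2)) + d (C κ) * X (s, 2)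
    rw [map_add, Derivation.leibniz]
    simp only [smul_eq_mul]
    ring
  · show d (Qf κ (X (s, 3)) (X (s, 2))) = qS κ (X (s, 3)) (X (s, 2)) * d (X (s, 3)) +
      qT κ (X (s, 3)) (X (s, 2)) * d (X (s, 2)) + d (C κ) * qK κ (X (s, 3)) (X (s, 2))
    rw [dQ']
    ring

theorem pd_X (s s' : Fin 3) (i i' : Fin 5) : pd (s, i) (X (s', i') : PP K) = if s = s' ∧ i = i' then 1 else 0 := by
  rw [pd_eq, pderiv_X, Pi.single_apply]
  simp only [Prod.mk.injEq, eq_comm]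

theorem mat0 (h : S_Dc) (D : Fin 6 → Derivation ℤ K K) (j : Fin 6) :
    mat6 (fun i => gr0 D (sl a κ 0 i)) 0 (Sum.inr j) =
    !![1, 0, 0, 0, 0, 0; 0, 1, 0, 0, 0, 0; 0, 0, C κ, 1, 0, C (D j κ) * X (0, 2);
      0, 0, qT κ (X (0, 3)) (X (0, 2)), qS κ (X (0, 3)) (X (0, 2)), 0, C (D j κ) * qK κ (X (0, 3)) (X (0, 2));
      0, 0, -(2 * C a.c * X (0, 2)), 0, 1, -(C (D j a.c) * X (0, 2) ^ 2);
      0, 0, -(5 * (X (0, 4) + C a.c * X (0, 2) ^ 2) + 10 * C a.c * X (0, 2) ^ 2), 0, -(5 * X (0, 2)),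
        -(5 * X (0, 2) * (C (D j a.c) * X (0, 2) ^ 2))] := by
  ext1 i l
  fin_cases l
  · show pd (0, 0) (sl a κ 0 i) = _
    rw [row0]
    fin_cases i <;> simp [pd_X, pd_C]
  · show pd (0, 1) (sl a κ 0 i) = _
    rw [row0]
    fin_cases i <;> simp [pd_X, pd_C]
  · show pd (0, 2) (sl a κ 0 i) = _
    rw [row0]
    fin_cases i <;> simp [pd_X, pd_C]
  · show pd (0, 3) (sl a κ 0 i) = _
    rw [row0]
    fin_cases i <;> simp [pd_X, pd_C]
  · show pd (0, 4) (sl a κ 0 i) = _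
    rw [row0]
    fin_cases i <;> simp [pd_X, pd_C]
  · show Dc (D j) (sl a κ 0 i) = _
    rw [← del_eq h, row0]
    fin_cases i <;> simp [del_X, del_C]

theorem matS (h : S_Dc) (D : Fin 6 → Derivation ℤ K K) (s : Fin 3) (hs : s ≠ 0) (j : Fin 6) (hc : D j a.c = 0)
    (hk : D j κ = 0) :
    ∃ b0 b1 b2 b3 b4 : PP K, mat6 (fun i => gr0 D (sl a κ s i)) s (Sum.inr j) =
    !![0, 1, 0, 0, 0, 0; b0, b1, b2, b3, b4, del h (D j) (Rf a (X (s, 0)) (X (s, 1)) (X (s, 2)) (X (s, 4))); 1, 0, 0, 0, 1, 0;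
      -(5 * X (s, 2) * (X (s, 0) ^ 2 - X (s, 4) ^ 2 + C (2 * a.c) * X (s, 2) ^ 2) +
        5 * X (s, 2) * (X (s, 0) - X (s, 4)) * (2 * X (s, 0))), 0,
      -(5 * (X (s, 0) - X (s, 4)) * (X (s, 0) ^ 2 - X (s, 4) ^ 2 + C (2 * a.c) * X (s, 2) ^ 2) +
        5 * X (s, 2) * (X (s, 0) - X (s, 4)) * (2 * C (2 * a.c) * X (s, 2))), 0,
      -(-(5 * X (s, 2) * (X (s, 0) ^ 2 - X (s, 4) ^ 2 + C (2 * a.c) * X (s, 2) ^ 2)) +
        5 * X (s, 2) * (X (s, 0) - X (s, 4)) * (-(2 * X (s, 4)))), 0;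
      0, 0, C κ, 1, 0, 0; 0, 0, qT κ (X (s, 3)) (X (s, 2)), qS κ (X (s, 3)) (X (s, 2)), 0, 0] := by
  have e2 : D j (2 : K) = 0 := d_two _
  refine ⟨pd (s, 0) (Rf a (X (s, 0)) (X (s, 1)) (X (s, 2)) (X (s, 4))),
    pd (s, 1) (Rf a (X (s, 0)) (X (s, 1)) (X (s, 2)) (X (s, 4))),
    pd (s, 2) (Rf a (X (s, 0)) (X (s, 1)) (X (s, 2)) (X (s, 4))),
    pd (s, 3) (Rf a (X (s, 0)) (X (s, 1)) (X (s, 2)) (X (s, 4))),
    pd (s, 4) (Rf a (X (s, 0)) (X (s, 1)) (X (s, 2)) (X (s, 4))), ?_⟩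
  ext1 i l
  fin_cases l
  · show pd (s, 0) (sl a κ s i) = _
    rw [rowS a κ _ s hs]
    fin_cases i <;> simp [pd_X, pd_C, - C_mul]
  · show pd (s, 1) (sl a κ s i) = _
    rw [rowS a κ _ s hs]
    fin_cases i <;> simp [pd_X, pd_C, - C_mul]
  · show pd (s, 2) (sl a κ s i) = _
    rw [rowS a κ _ s hs]
    fin_cases i <;> simp [pd_X, pd_C, - C_mul]
  · show pd (s, 3) (sl a κ s i) = _
    rw [rowS a κ _ s hs]
    fin_cases i <;> simp [pd_X, pd_C, - C_mul]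
  · show pd (s, 4) (sl a κ s i) = _
    rw [rowS a κ _ s hs]
    fin_cases i <;> simp [pd_X, pd_C, - C_mul]
  · show Dc (D j) (sl a κ s i) = _
    rw [← del_eq h, rowS a κ _ s hs]
    fin_cases i <;> simp [del_X, del_C, hc, hk, e2, - C_mul]

theorem del_Rf (h : S_Dc) (D : Fin 6 → Derivation ℤ K K) (hD : IsDer a D) (s : Fin 3) (j : Fin 5) :
    del h (D j.succ) (Rf a (X (s, 0)) (X (s, 1)) (X (s, 2)) (X (s, 4)) : PP K) = ev K s (RR K j) := by
  have e1 : D j.succ (a.A ^ 2) = 0 := by rw [Derivation.leibniz_pow, hD.A]; simp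
  have hR : ∀ i : Fin 5, del h (D j.succ) (Rj i (X (s, 0)) (X (s, 1)) (X (s, 2)) (X (s, 4)) : PP K) = 0 := by
    intro i
    fin_cases i <;> simp [Rj, Derivation.leibniz, Derivation.leibniz_pow, del_X]
  have hRf : del h (D j.succ) (Rf a (X (s, 0)) (X (s, 1)) (X (s, 2)) (X (s, 4)) : PP K) =
      ∑ i : Fin 5, C (D j.succ (a.t i)) * Rj i (X (s, 0)) (X (s, 1)) (X (s, 2)) (X (s, 4)) := by
    unfold Rf
    simp only [algebraMap_eq, map_add, map_sum, Derivation.leibniz, Derivation.leibniz_pow, del_X, del_C, e1, hD.A,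
      hR, C_0, smul_eq_mul, nsmul_eq_mul, mul_zero, add_zero, zero_add]
    exact Finset.sum_congr rfl fun j _ => by ring
  have ht : ∀ i : Fin 5, D j.succ (a.t i) = if j = i then 1 else 0 := fun i => by
    rw [hD.t]
    simp only [Fin.succ_inj]
  rw [hRf, Finset.sum_eq_single j]
  · rw [ht, if_pos rfl, C_1, one_mul]
    fin_cases j <;> simp [Rj, RR, ev]
  · intro i _ hi
    rw [ht, if_neg (Ne.symm hi), C_0, zero_mul]
  · intro hk
    exact absurd (Finset.mem_univ j) hk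

theorem NN0 (h : S_Dc) (D : Fin 6 → Derivation ℤ K K) (j : Fin 6) :
    NN a D κ 0 j = 25 * X (0, 2) * (C (5 * a.c * D j κ) * X (0, 2) ^ 2 + C (D j κ) * X (0, 4) -
      C (2 * κ * D j a.c) * X (0, 2) ^ 2) *
      (X (0, 3) ^ 3 - C κ * X (0, 3) ^ 2 * X (0, 2) + C (κ ^ 2) * X (0, 3) * X (0, 2) ^ 2 - C (κ ^ 3) * X (0, 2) ^ 3) := by
  unfold NN
  rw [mat0 a κ h, det0]
  simp only [qS, qT, qK, C_mul, C_pow, map_ofNat]
  ring

theorem NNS (h : S_Dc) (D : Fin 6 → Derivation ℤ K K) (hD : IsDer a D) (s : Fin 3) (hs : s ≠ 0) (j : Fin 5)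
    (hk : D j.succ κ = 0) :
    NN a D κ s j.succ = -(C (100 * κ) * ev K s (ps1 a j.succ) *
      (X (s, 3) ^ 3 - C κ * X (s, 3) ^ 2 * X (s, 2) + C (κ ^ 2) * X (s, 3) * X (s, 2) ^ 2 - C (κ ^ 3) * X (s, 2) ^ 3)) := by
  have hc : D j.succ a.c = 0 := by rw [hD.c, if_neg (Fin.succ_ne_zero j)]
  obtain ⟨b0, b1, b2, b3, b4, hm⟩ := matS a κ h D s hs j.succ hc hk
  have hp : ev K s (ps1 a j.succ) = X (s, 2) * (X (s, 0) ^ 2 - X (s, 4) ^ 2 + C a.c * X (s, 2) ^ 2) * ev K s (RR K j) := by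
    simp [ps1, u4, ev]
  unfold NN
  rw [hm, detS, del_Rf a h D hD, hp]
  simp only [qS, qT, C_mul, C_pow, map_ofNat]
  ring

end

end Nv_aux

open Nv_aux in
theorem tNv : S_Dc → S_Nv := by
  intro h K _ _ a D κ hD hκ hκ0
  have hd : ∀ j : Fin 6, κ ^ 4 * D j κ = -2 * a.c * D j a.c := by
    intro j
    have e := congrArg (D j) hκ
    have e5 : D j (5 : K) = 0 := d_five (D j)
    have e1 : D j (1 : K) = 0 := Derivation.map_one_eq_zero _
    simp only [map_sub, Derivation.leibniz, Derivation.leibniz_pow, smul_eq_mul, nsmul_eq_mul, e5, e1] at e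
    push_cast at e
    have h5 : (5 : K) ≠ 0 := by norm_num
    apply mul_left_cancel₀ h5
    linear_combination e
  have h0 : ∀ j : Fin 5, D j.succ κ = 0 := by
    intro j
    have e := hd j.succ
    rw [hD.c, if_neg (Fin.succ_ne_zero j), mul_zero] at e
    exact (mul_eq_zero.mp e).resolve_left (pow_ne_zero 4 hκ0)
  refine ⟨?_, ?_, ?_, ?_⟩
  · rw [hd, hD.c, if_pos rfl, mul_one]
  · rw [NN0 a κ h, hD.c, if_pos rfl, mul_one]
  · intro j
    rw [NN0 a κ h, h0, hD.c, if_neg (Fin.succ_ne_zero j)]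
    simp
  · intro s j hs
    exact NNS a κ h D hD s hs j (h0 j)

end Pool.Agent.QV
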