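import Pool.Agent.Lib.MP_b53bfe_ag.Q.SpecP

/-!
# Disproof of Q1 of MP_b53bfe_ag for quintic threefolds. The parameters
-/

set_option autoImplicit false

noncomputable section

namespace Pool.Agent.QV

open Matrix MvPolynomial
open Pool.Agent.FY (Res)

theorem tParC : S_AI → S_Der → S_Val → S_Kap → S_ParC := by
  intro hAI hDer hVal hKap
  obtain ⟨p, hp⟩ := hAI
  obtain ⟨D, hD⟩ := hDer p hp
  obtain ⟨𝒪, h1, h2⟩ := hVal ℂ p hp
  have hp0 : p 0 ≠ 0 := hp.ne_zero 0
  let a : Par ℂ := ⟨(p 0)⁻¹, p 1, fun j => p j.succ.succ⟩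
  obtain ⟨κ, hκ⟩ := hKap a
  refine ⟨a, fun j => D j.succ, κ, 𝒪, ?_, hκ, ?_⟩
  · refine ⟨fun j => ?_, fun j => ?_, fun j i => ?_⟩
    · change D j.succ (p 0)⁻¹ = 0
      have h3 : D j.succ (p 0 * (p 0)⁻¹) = 0 := by
        rw [mul_inv_cancel₀ hp0, Derivation.map_one_eq_zero]
      rw [Derivation.leibniz, hD, if_neg (Fin.succ_ne_zero j), smul_zero, add_zero, smul_eq_mul] at h3
      exact (mul_eq_zero.1 h3).resolve_left hp0
    · change D j.succ (p 1) = _
      rw [hD]
      have : (j.succ = (1 : Fin 7)) ↔ j = 0 := by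
        constructor
        · intro h
          exact Fin.succ_injective _ h
        · rintro rfl
          rfl
      simp only [this]
    · change D j.succ (p i.succ.succ) = _
      rw [hD]
      have : (j.succ = i.succ.succ) ↔ j = i.succ := Fin.succ_inj
      simp only [this]
  · refine ⟨inv_ne_zero hp0, ?_, h1 1, fun j => h1 _, h2⟩
    change 𝒪.valuation ((p 0)⁻¹)⁻¹ < 1
    rw [inv_inv]
    exact h1 0

end Pool.Agent.QV
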