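import Pool.Agent.Lib.MP_b53bfe_ag.Q.SpecA
import Pool.Agent.Lib.MP_b53bfe_ag.Q.Bas

/-!
# Pd: projective dimension and short exact sequences
-/

set_option autoImplicit false

noncomputable section

namespace Pool.Agent.QV

open Matrix

namespace Pd_aux

open CategoryTheory

variable {R : Type} [CommRing R] {A B C : Type} [AddCommGroup A] [Module R A] [AddCommGroup B] [Module R B]
  [AddCommGroup C] [Module R C]

/-- the short complex of `i`, `p` -/
abbrev sc (i : A →ₗ[R] B) (p : B →ₗ[R] C) (he : Function.Exact i p) : ShortComplex (ModuleCat.{0} R) :=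
  ShortComplex.mk (ModuleCat.ofHom i) (ModuleCat.ofHom p) (by
    ext x
    exact (he _).2 ⟨x, rfl⟩)

theorem sc_exact (i : A →ₗ[R] B) (p : B →ₗ[R] C) (hi : Function.Injective i) (hp : Function.Surjective p)
    (he : Function.Exact i p) : (sc i p he).ShortExact where
  exact := (ShortComplex.ShortExact.moduleCat_exact_iff_function_exact _).mpr he
  mono_f := (ModuleCat.mono_iff_injective _).mpr hi
  epi_g := (ModuleCat.epi_iff_surjective _).mpr hp

end Pd_aux

theorem tPd : S_Pd := by
  intro R _
  refine ⟨?_, ?_, ?_, ?_⟩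
  · intro j A B C _ _ _ _ _ _ i p hi hp he
    have hS := Pd_aux.sc_exact i p hi hp he
    refine ⟨fun hA hC => ?_, fun hB hC => ?_, fun hA hB => ?_⟩
    · exact hS.hasProjectiveDimensionLT_X₂ (j + 1) hA hC
    · exact hS.hasProjectiveDimensionLT_X₁ (j + 1) hB hC
    · exact hS.hasProjectiveDimensionLT_X₃ (j + 1) hA hB
  · intro j A B _ _ _ _ e hA
    exact PD.iso e hA
  · intro i j M _ _ hij hM
    exact @CategoryTheory.hasProjectiveDimensionLT_of_ge _ _ _ (ModuleCat.of R M) (i + 1) (j + 1) (by omega) hM
  · intro M _ _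
    refine Iff.trans (CategoryTheory.projective_iff_hasProjectiveDimensionLE_zero (X := ModuleCat.of R M)).symm ?_
    exact (IsProjective.iff_projective (R := R) M).symm

end Pool.Agent.QV
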