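import Pool.Agent.Lib.MP_b53bfe_ag.Q.SpecA
import Pool.Agent.Lib.MP_b53bfe_ag.Q.Bas

/-!
# Module `Phi` (helper96): the additive function given by the Chern character

`tPhi : S_Phi1 → S_All → S_Ckb → S_Tri → S_Phi`.
-/

set_option autoImplicit false

noncomputable section

namespace Pool.Agent.QV

open Matrix

/-- **Phi.** -/
theorem tPhi : S_Phi1 → S_All → S_Ckb → S_Tri → S_Phi := by
  intro hPhi1 hAll hCkb hTri L E _ _ _ C W k hL hW hdW hk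
  have := hL.dom
  have hreg : ∀ x : L, W * x = 0 → x = 0 := fun x hx => (mul_eq_zero.1 hx).resolve_left hW
  obtain ⟨Φ, hΦ⟩ := hPhi1 L E C W k hL.dom hL.loc hL.noe hW hdW hk
  obtain ⟨hck, -, ⟨e⟩⟩ := hCkb L W hreg
  have hMF : IsMF W (W • (1 : Matrix (Fin 1) (Fin 1) L)) (1 : Matrix (Fin 1) (Fin 1) L) :=
    ⟨mul_one _, one_mul _⟩
  obtain ⟨h1, h2, -, h3⟩ := hck (Fin 1) _ _ hMF
  have h0 : Φ.f (L ⧸ Ideal.span {W}) = 0 := by
    rw [← Φ.iso e h1 h2 h3, hΦ (Fin 1) _ _ hMF]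
    exact ((hTri L E C (Fin 1) (Fin 1) k).2.2 W hk).2
  obtain ⟨χ, hχ⟩ := hAll L W E Φ hL.noe hreg hL.gd h0
  refine ⟨χ, fun n _ _ A B hAB => ?_⟩
  obtain ⟨f1, f2, -, f3⟩ := hck n A B hAB
  rw [hχ (Ck A) f1 f2 f3, hΦ n A B hAB]

end Pool.Agent.QV
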