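import Pool.Agent.Lib.MP_b53bfe_ag.Q.SpecA

/-!
# Additive function on the modules of projective dimension one (`S_Phi1`), helper73
-/

set_option autoImplicit false

noncomputable section

namespace Pool.Agent.QV

open Matrix

namespace Phi1_aux

variable {L E : Type} [CommRing L] [Ring E] [Algebra L E]

/-- a presentation by a matrix factorization -/
def Pres (W : L) (M : Type) [AddCommGroup M] [Module L M] : Prop :=
  ∃ (n : ℕ) (A B : Matrix (Fin n) (Fin n) L), IsMF W A B ∧ Nonempty (M ≃ₗ[L] Ck A)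

open Classical in
/-- the value of the additive function -/
def phi (C : Cal L E) (W : L) (k : ℕ) (M : Type) [AddCommGroup M] [Module L M] : E :=
  if h : Pres W M then C.ch k h.choose_spec.choose h.choose_spec.choose_spec.choose else 0

lemma phi_eq (hInv : S_Inv) (hEx : S_Ex) (hCkb : S_Ckb) (hD : IsDomain L) (hL : IsLocalRing L)
    (hN : IsNoetherianRing L) (C : Cal L E) {W : L} {k : ℕ} (hW : W ≠ 0) (hd : C.d W = 0) (hk : 1 ≤ k)
    (M : Type) [AddCommGroup M] [Module L M] (n : Type) [Fintype n] [DecidableEq n] (A B : Matrix n n L)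
    (hMF : IsMF W A B) (e : M ≃ₗ[L] Ck A) : phi C W k M = C.ch k A B := by
  have hreg : ∀ x : L, W * x = 0 → x = 0 := fun x hx => (mul_eq_zero.1 hx).resolve_left hW
  obtain ⟨h1, h2, -, h4⟩ := (hCkb L W hreg).1 n A B hMF
  obtain ⟨m, A', B', hMF', ⟨e'⟩⟩ := hEx L hD hL hN W (Ck A) hW h1 h2 h4
  have h : Pres W M := ⟨m, A', B', hMF', ⟨e.trans e'⟩⟩
  unfold phi
  rw [dif_pos h]
  obtain ⟨hc, ⟨ec⟩⟩ := h.choose_spec.choose_spec.choose_spec
  exact hInv L E C W _ _ _ _ A B k hd hW hk hc hMF ⟨ec.symm.trans e⟩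

end Phi1_aux

open Phi1_aux in
theorem tPhi1 : S_Inv → S_Ex → S_Ad → S_Tri → S_Ckb → S_Phi1 := by
  intro hInv hEx hAd hTri hCkb L E _ _ _ C W k hD hL hN hW hd hk
  refine ⟨⟨phi C W k, ?_⟩, ?_⟩
  · intro M₁ M M₂ _ _ _ _ _ _ i p hfin hKW hP1 hP hP2 hi hp hex
    obtain ⟨m, n, A₁, B₁, A₂, B₂, X, Y, hMF1, hMF2, hMF, ⟨e1⟩, ⟨e2⟩, ⟨e⟩⟩ :=
      hAd L hD hL hN W M₁ M M₂ i p hW hfin hKW hP1 hP2 hi hp hex
    rw [phi_eq hInv hEx hCkb hD hL hN C hW hd hk M _ _ _ hMF e,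
      phi_eq hInv hEx hCkb hD hL hN C hW hd hk M₁ _ _ _ hMF1 e1,
      phi_eq hInv hEx hCkb hD hL hN C hW hd hk M₂ _ _ _ hMF2 e2]
    exact (hTri L E C (Fin m) (Fin n) k).1 A₁ B₁ A₂ B₂ X Y
  · intro n _ _ A B hMF
    exact phi_eq hInv hEx hCkb hD hL hN C hW hd hk (Ck A) n A B hMF (LinearEquiv.refl L (Ck A))

end Pool.Agent.QV
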