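import Pool.Agent.Lib.MP_b53bfe_ag.Q.SpecA
import Pool.Agent.Lib.MP_b53bfe_ag.Q.Bas

/-!
# Module Prf: perfect modules (helper65)
-/

set_option autoImplicit false

noncomputable section

namespace Pool.Agent.QV

open Matrix

namespace Prf_aux

section qt

variable {R : Type} [CommRing R] {W : R}

theorem mem {N : Type} [AddCommGroup N] [Module R N] (x : N) :
    x ∈ (Ideal.span {W} • (⊤ : Submodule R N)) ↔ ∃ y : N, W • y = x := by
  rw [Submodule.ideal_span_singleton_smul, Submodule.mem_smul_pointwise_iff_exists]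
  simp

theorem mk_eq_zero {N : Type} [AddCommGroup N] [Module R N] (x : N) :
    (Submodule.Quotient.mk x : Qt W N) = 0 ↔ ∃ y : N, W • y = x := by
  rw [Submodule.Quotient.mk_eq_zero, mem]

/-- the induced map -/
def qmap (W : R) {A B : Type} [AddCommGroup A] [Module R A] [AddCommGroup B] [Module R B]
    (f : A →ₗ[R] B) : Qt W A →ₗ[R] Qt W B :=
  Submodule.mapQ _ _ f (fun x hx => by
    rw [mem] at hx
    obtain ⟨y, rfl⟩ := hx
    rw [Submodule.mem_comap, mem]
    exact ⟨f y, (map_smul f W y).symm⟩)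

theorem qmap_mk {A B : Type} [AddCommGroup A] [Module R A] [AddCommGroup B] [Module R B]
    (f : A →ₗ[R] B) (a : A) :
    qmap W f (Submodule.Quotient.mk a) = Submodule.Quotient.mk (f a) := rfl

theorem step {V : Type} [AddCommGroup V] (χ : AF R W V) {A B C : Type} [AddCommGroup A]
    [Module R A] [AddCommGroup B] [Module R B] [AddCommGroup C] [Module R C]
    (i : A →ₗ[R] B) (p : B →ₗ[R] C) (hB : Module.Finite R B) (hi : Function.Injective i)
    (hp : Function.Surjective p) (hex : Function.Exact i p) (hC : Reg W C) :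
    χ.f (Qt W B) = χ.f (Qt W A) + χ.f (Qt W C) := by
  refine χ.add (Qt W A) (Qt W B) (Qt W C) (qmap W i) (qmap W p) inferInstance KW.qt ?_ ?_ ?_
  · rw [injective_iff_map_eq_zero]
    intro a ha
    obtain ⟨a, rfl⟩ := Submodule.Quotient.mk_surjective _ a
    rw [qmap_mk, mk_eq_zero] at ha
    obtain ⟨y, hy⟩ := ha
    have h1 : W • p y = 0 := by
      rw [← map_smul, hy]
      exact (hex (i a)).mpr ⟨a, rfl⟩
    obtain ⟨z, hz⟩ := (hex y).mp (hC _ h1)
    rw [mk_eq_zero]
    refine ⟨z, hi ?_⟩
    rw [map_smul, hz, hy]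
  · intro c
    obtain ⟨c, rfl⟩ := Submodule.Quotient.mk_surjective _ c
    obtain ⟨b, rfl⟩ := hp c
    exact ⟨Submodule.Quotient.mk b, qmap_mk p b⟩
  · intro b
    obtain ⟨b, rfl⟩ := Submodule.Quotient.mk_surjective _ b
    constructor
    · intro h
      rw [qmap_mk, mk_eq_zero] at h
      obtain ⟨c, hc⟩ := h
      obtain ⟨b', rfl⟩ := hp c
      have h1 : p (b - W • b') = 0 := by rw [map_sub, map_smul, hc, sub_self]
      obtain ⟨a, ha⟩ := (hex _).mp h1
      refine ⟨Submodule.Quotient.mk a, ?_⟩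
      rw [qmap_mk, ha, ← sub_eq_zero, ← Submodule.Quotient.mk_sub, mk_eq_zero]
      exact ⟨-b', by rw [smul_neg]; abel⟩
    · rintro ⟨a, ha⟩
      obtain ⟨a, rfl⟩ := Submodule.Quotient.mk_surjective _ a
      rw [← ha, qmap_mk, qmap_mk, (hex (i a)).mpr ⟨a, rfl⟩]
      rfl

/-- `W`-reduction of a free module -/
def piEquiv (W : R) (n : ℕ) : Qt W (Fin n → R) ≃ₗ[R] (Fin n → R ⧸ Ideal.span {W}) :=
  (Submodule.quotEquivOfEq _ (Submodule.pi Set.univ (fun _ : Fin n => Ideal.span {W})) (by
    ext x
    rw [mem, Submodule.mem_pi]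
    constructor
    · rintro ⟨y, rfl⟩ i _
      exact Ideal.mem_span_singleton'.mpr ⟨y i, by simp [mul_comm]⟩
    · intro h
      choose y hy using fun i => Ideal.mem_span_singleton'.mp (h i (Set.mem_univ i))
      exact ⟨y, funext fun i => by rw [Pi.smul_apply, smul_eq_mul, mul_comm, hy]⟩)).trans
    (Submodule.quotientPi (fun _ : Fin n => Ideal.span {W}))

/-- isomorphic modules have isomorphic reductions -/
def qtEquiv (W : R) {A B : Type} [AddCommGroup A] [Module R A] [AddCommGroup B] [Module R B]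
    (e : A ≃ₗ[R] B) : Qt W A ≃ₗ[R] Qt W B :=
  Submodule.Quotient.equiv _ _ e (by
    ext x
    rw [Submodule.mem_map, mem]
    constructor
    · rintro ⟨y, hy, rfl⟩
      rw [mem] at hy
      obtain ⟨z, rfl⟩ := hy
      exact ⟨e z, by simp⟩
    · rintro ⟨z, rfl⟩
      refine ⟨W • e.symm z, ?_, by simp⟩
      rw [mem]
      exact ⟨e.symm z, rfl⟩)

theorem free {V : Type} [AddCommGroup V] (χ : AF R W V)
    (h0 : χ.f (R ⧸ Ideal.span {W}) = 0) (n : ℕ) : χ.f (Qt W (Fin n → R)) = 0 := by
  rw [χ.iso (piEquiv W n) inferInstance KW.qt,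
    χ.pi inferInstance (KW.quot _ (Ideal.mem_span_singleton_self W)), h0, smul_zero]

end qt

end Prf_aux

theorem tPrf : S_Pd → S_Prf := by
  intro hPd L _ W V _ χ hL hW h0 N _ _ hN hreg
  haveI := hL.dom
  haveI := hL.loc
  haveI := hL.noe
  obtain ⟨j, hj⟩ := hL.gd
  obtain ⟨hses, _, hmono, hproj⟩ := hPd L
  suffices H : ∀ (j : ℕ) (N : Type) [AddCommGroup N] [Module L N], Module.Finite L N → Reg W N →
      PD L j N → χ.f (Qt W N) = 0 from H j N hN hreg (hj N)
  intro j
  induction j with
  | zero =>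
    intro N _ _ hN _ hpd
    haveI : Module.Projective L N := (hproj N).mp hpd
    haveI : Module.FinitePresentation L N := Module.finitePresentation_of_finite L N
    haveI : Module.Free L N := Module.free_of_flat_of_isLocalRing
    rw [χ.iso (Prf_aux.qtEquiv W (Module.finBasis L N).equivFun) inferInstance KW.qt]
    exact Prf_aux.free χ h0 _
  | succ j ih =>
    intro N _ _ hN hreg hpd
    obtain ⟨n, p, hp⟩ := Module.Finite.exists_fin' L N
    have hF : PD L j (Fin n → L) := hmono 0 j _ (Nat.zero_le _) ((hproj _).mpr inferInstance)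
    have hex : Function.Exact (LinearMap.ker p).subtype p := LinearMap.exact_subtype_ker_map p
    have hK : PD L j (LinearMap.ker p) :=
      (hses j (LinearMap.ker p) (Fin n → L) N (LinearMap.ker p).subtype p
        (LinearMap.ker p).injective_subtype hp hex).2.1 hF hpd
    have h1 := Prf_aux.step χ (LinearMap.ker p).subtype p inferInstance
      (LinearMap.ker p).injective_subtype hp hex hreg
    have h2 : χ.f (Qt W (LinearMap.ker p)) = 0 := by
      refine ih (LinearMap.ker p) inferInstance (fun x hx => ?_) hK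
      rcases smul_eq_zero.mp hx with h | h
      · exact absurd h hW
      · exact h
    rw [Prf_aux.free χ h0 n, h2, zero_add] at h1
    exact h1.symm

end Pool.Agent.QV
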