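import Pool.Agent.Lib.MP_b53bfe_ag.Q.SpecB

/-!
# Retractions of polynomial rings
-/

set_option autoImplicit false

noncomputable section

namespace Pool.Agent.QV

open Matrix

namespace Ret_aux

variable {K : Type} [Field K] {τ : Type} (r : MvPolynomial τ K →ₐ[K] MvPolynomial τ K)

lemma sub_mem (a : MvPolynomial τ K) :
    a - r a ∈ Ideal.span (Set.range fun v => MvPolynomial.X v - r (MvPolynomial.X v)) := by
  induction a using MvPolynomial.induction_on with
  | C c =>
    rw [MvPolynomial.algHom_C, MvPolynomial.algebraMap_eq, sub_self]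
    exact Ideal.zero_mem _
  | add p q hp hq =>
    rw [map_add]
    have h : p + q - (r p + r q) = (p - r p) + (q - r q) := by ring
    rw [h]
    exact Ideal.add_mem _ hp hq
  | mul_X p v hp =>
    rw [map_mul]
    have h : p * MvPolynomial.X v - r p * r (MvPolynomial.X v) =
        MvPolynomial.X v * (p - r p) + r p * (MvPolynomial.X v - r (MvPolynomial.X v)) := by ring
    rw [h]
    exact Ideal.add_mem _ (Ideal.mul_mem_left _ _ hp)
      (Ideal.mul_mem_left _ _ (Ideal.subset_span ⟨v, rfl⟩))

lemma idem (hr : ∀ v, r (r (MvPolynomial.X v)) = r (MvPolynomial.X v)) (a : MvPolynomial τ K) :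
    r (r a) = r a := by
  have h : r.comp r = r := MvPolynomial.algHom_ext hr
  exact congrArg (fun f : MvPolynomial τ K →ₐ[K] MvPolynomial τ K => f a) h

end Ret_aux

open Ret_aux

theorem tRet : S_Ret := by
  intro K _ τ r hr
  have hid := idem r hr
  have hk : ∀ a, a - r a ∈ RingHom.ker r := by
    intro a
    rw [RingHom.mem_ker, map_sub, hid, sub_self]
  refine ⟨le_antisymm ?_ ?_, hid, ?_, ?_⟩
  · intro a ha
    have h := sub_mem r a
    rw [RingHom.mem_ker] at ha
    rwa [ha, sub_zero] at h
  · rw [Ideal.span_le]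
    rintro _ ⟨v, rfl⟩
    exact hk _
  · intro a ha x hx
    rw [RingHom.mem_ker, map_mul] at hx
    rw [RingHom.mem_ker]
    exact (mul_eq_zero.mp hx).resolve_left ha
  · intro J a hJ hreg x hx
    obtain ⟨k, hk', j, hj, hkj⟩ := Submodule.mem_sup.mp hx
    have h1 : r a * r x ∈ J := by
      rw [← map_mul, ← hkj, map_add]
      rw [RingHom.mem_ker] at hk'
      rw [hk', zero_add]
      exact hJ j hj
    have h2 : r x ∈ J := hreg _ h1
    have h3 : x = (x - r x) + r x := by ring
    rw [h3]
    exact Submodule.add_mem_sup (hk x) h2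

end Pool.Agent.QV
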