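import Pool.Agent.Lib.MP_b53bfe_ag.Q.SpecE

/-!
# Regularity calculus (helper58)
-/

set_option autoImplicit false

noncomputable section

namespace Pool.Agent.QV

open Matrix
open MvPolynomial
open Pool.Agent.FY (Res)

theorem tRgp : S_Rgp := by
  intro R _
  refine ⟨?_, ?_, ?_, ?_, ?_⟩
  · intro J a b h1 h2 x hx
    obtain ⟨j, hj, y, hy, e⟩ := Submodule.mem_sup.mp hx
    obtain ⟨c, rfl⟩ := Ideal.mem_span_singleton'.mp hy
    have h3 : c ∈ J ⊔ Ideal.span {a} := by
      refine h2 c ?_
      have e1 : b * c = -j + x * a := by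
        have : c * b = a * x - j := by rw [← e]; ring
        calc b * c = c * b := mul_comm _ _
          _ = -j + x * a := by rw [this]; ring
      rw [e1]
      exact Ideal.add_mem _ (Ideal.mem_sup_left (neg_mem hj)) (Ideal.mem_sup_right (Ideal.mem_span_singleton'.mpr ⟨x, rfl⟩))
    obtain ⟨j', hj', z, hz, e'⟩ := Submodule.mem_sup.mp h3
    obtain ⟨d, rfl⟩ := Ideal.mem_span_singleton'.mp hz
    have h4 : x - b * d ∈ J := by
      refine h1 _ ?_
      have e2 : a * (x - b * d) = j + b * j' := by
        have : a * x = j + c * b := e.symm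
        rw [mul_sub, this, ← e']
        ring
      rw [e2]
      exact Ideal.add_mem _ hj (Ideal.mul_mem_left _ _ hj')
    have e3 : x = (x - b * d) + d * b := by ring
    rw [e3]
    exact Ideal.add_mem _ (Ideal.mem_sup_left h4) (Ideal.mem_sup_right (Ideal.mem_span_singleton'.mpr ⟨d, rfl⟩))
  · intro J a b h1 h2 x hx
    rw [mul_assoc] at hx
    exact h2 x (h1 _ hx)
  · intro J a b hab h x hx
    refine h x ?_
    have e : a * x = (a - b) * x + b * x := by ring
    rw [e]
    exact Ideal.add_mem _ (Ideal.mul_mem_right _ _ hab) hx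
  · intro J a hJ ha x hx
    exact (hJ.mem_or_mem hx).resolve_left ha
  · intro a f _ ha hp hf x hx
    obtain ⟨s, hs⟩ := Ideal.mem_span_singleton'.mp hx
    have h1 : s * f ∈ Ideal.span {a} := by
      rw [hs]
      exact Ideal.mul_mem_right _ _ (Ideal.mem_span_singleton_self a)
    have h2 : s ∈ Ideal.span {a} := (hp.mem_or_mem h1).resolve_right hf
    obtain ⟨t, rfl⟩ := Ideal.mem_span_singleton'.mp h2
    have h3 : a * x = a * (t * f) := by rw [← hs]; ring
    rw [mul_left_cancel₀ ha h3]
    exact Ideal.mem_span_singleton'.mpr ⟨t, rfl⟩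

end Pool.Agent.QV
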