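import Pool.Agent.Lib.MP_b53bfe_ag.Q.SpecH

/-!
# Disproof of Q1 of MP_b53bfe_ag for quintic threefolds: module Rh (the generators and their reductions)
-/

set_option autoImplicit false

noncomputable section

namespace Pool.Agent.QV

open Matrix MvPolynomial TensorProduct

namespace Rh_aux

section val

variable {K : Type} [Field K] (𝒪 : ValuationSubring K)

/-- all coefficients are integral -/
def In (h : S4 K) : Prop := ∀ m, 𝒪.valuation (h.coeff m) ≤ 1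

/-- all coefficients are in the maximal ideal -/
def Sm (h : S4 K) : Prop := ∀ m, 𝒪.valuation (h.coeff m) < 1

variable {𝒪}

theorem In.X (i : Fin 4) : In 𝒪 (MvPolynomial.X i : S4 K) := by
  intro m
  rw [MvPolynomial.coeff_X]
  split_ifs
  · rw [map_one]
  · rw [map_zero]
    exact zero_le_one

theorem In.mul {g h : S4 K} (hg : In 𝒪 g) (hh : In 𝒪 h) : In 𝒪 (g * h) := by
  intro m
  rw [coeff_mul]
  refine Valuation.map_sum_le _ (fun p _ => ?_)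
  rw [map_mul]
  exact mul_le_one' (hg _) (hh _)

theorem In.one : In 𝒪 (1 : S4 K) := by
  intro m
  rw [coeff_one]
  split_ifs
  · rw [map_one]
  · rw [map_zero]
    exact zero_le_one

theorem In.pow {g : S4 K} (hg : In 𝒪 g) (n : ℕ) : In 𝒪 (g ^ n) := by
  induction n with
  | zero =>
    rw [pow_zero]
    exact In.one
  | succ n ih =>
    rw [pow_succ]
    exact ih.mul hg

theorem Sm.C {c : K} (hc : 𝒪.valuation c < 1) {h : S4 K} (hh : In 𝒪 h) : Sm 𝒪 (MvPolynomial.C c * h) := by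
  intro m
  rw [coeff_C_mul, map_mul]
  exact mul_lt_one_of_lt_of_le hc (hh m)

theorem Sm.add {g h : S4 K} (hg : Sm 𝒪 g) (hh : Sm 𝒪 h) : Sm 𝒪 (g + h) := by
  intro m
  rw [coeff_add]
  exact Valuation.map_add_lt _ (hg m) (hh m)

theorem rd_of {g : S4 K} {gz : MvPolynomial (Fin 4) ℤ} {h : S4 K} (hg : g = MvPolynomial.map (Int.castRingHom K) gz + h)
    (hh : Sm 𝒪 h) : Rd 𝒪 g gz := by
  intro m
  rw [hg, coeff_add, coeff_map]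
  simpa using hh m

end val

section pd

variable {K : Type} [Field K] (a : Par K)

theorem RR0 : RR K 0 = X 0 * X 1 ^ 3 := rfl
theorem RR1 : RR K 1 = X 0 ^ 2 * X 2 := rfl
theorem RR2 : RR K 2 = X 1 ^ 2 * X 2 := rfl
theorem RR3 : RR K 3 = X 0 ^ 2 * X 3 := rfl
theorem RR4 : RR K 4 = X 3 ^ 2 := rfl

theorem H4e : H4 a = X 0 * (C (a.A ^ 2 / 4) * (X 2 ^ 2 - X 3 ^ 2) + C a.A * X 0 ^ 4 + C (a.t 0) * (X 0 * X 1 ^ 3) +
    C (a.t 1) * (X 0 ^ 2 * X 2) + C (a.t 2) * (X 1 ^ 2 * X 2) + C (a.t 3) * (X 0 ^ 2 * X 3) + C (a.t 4) * X 3 ^ 2) +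
    X 1 ^ 5 - 5 * (X 1 * (X 3 + C a.c * X 1 ^ 2) ^ 2) := by
  rw [H4, R4, u4, Fin.sum_univ_five, RR0, RR1, RR2, RR3, RR4]
  ring

theorem d5 (i : Fin 4) : pderiv i (5 : S4 K) = 0 := by
  simpa using (pderiv (R := K) i).map_natCast 5

theorem p0 : pderiv 0 (H4 a) = C (a.A ^ 2 / 4) * (X 2 ^ 2 - X 3 ^ 2) + 5 * (C a.A * X 0 ^ 4) + 2 * (C (a.t 0) * (X 0 * X 1 ^ 3)) +
    3 * (C (a.t 1) * (X 0 ^ 2 * X 2)) + C (a.t 2) * (X 1 ^ 2 * X 2) + 3 * (C (a.t 3) * (X 0 ^ 2 * X 3)) +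
    C (a.t 4) * X 3 ^ 2 := by
  rw [H4e]
  simp [pderiv_X, d5]
  ring

theorem p1 : pderiv 1 (H4 a) = 3 * (C (a.t 0) * (X 0 ^ 2 * X 1 ^ 2)) + 2 * (C (a.t 2) * (X 0 * X 1 * X 2)) + 5 * X 1 ^ 4
    - 5 * (X 3 + C a.c * X 1 ^ 2) ^ 2 - 20 * (C a.c * (X 1 ^ 2 * (X 3 + C a.c * X 1 ^ 2))) := by
  rw [H4e]
  simp [pderiv_X, d5]
  ring

theorem p2 : pderiv 2 (H4 a) = X 0 * (2 * (C (a.A ^ 2 / 4) * X 2) + C (a.t 1) * X 0 ^ 2 + C (a.t 2) * X 1 ^ 2) := by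
  rw [H4e]
  simp [pderiv_X, d5]
  ring

theorem p3 : pderiv 3 (H4 a) = X 0 * (-(2 * (C (a.A ^ 2 / 4) * X 3)) + C (a.t 3) * X 0 ^ 2 + 2 * (C (a.t 4) * X 3)) -
    10 * (X 1 * (X 3 + C a.c * X 1 ^ 2)) := by
  rw [H4e]
  simp [pderiv_X, d5]
  ring

/-- the small part of `rho4 0` -/
def sm0 : S4 K := C (20 * a.A⁻¹) * X 0 ^ 4 + C (8 * a.A⁻¹ ^ 2 * a.t 0) * (X 0 * X 1 ^ 3) + C (12 * a.A⁻¹ ^ 2 * a.t 1) * (X 0 ^ 2 * X 2) +
  C (4 * a.A⁻¹ ^ 2 * a.t 2) * (X 1 ^ 2 * X 2) + C (12 * a.A⁻¹ ^ 2 * a.t 3) * (X 0 ^ 2 * X 3) + C (4 * a.A⁻¹ ^ 2 * a.t 4) * X 3 ^ 2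

/-- the small part of `rho4 1` -/
def sm1 : S4 K := C (-6 * a.c) * (X 1 ^ 2 * X 3) + C (-5 * a.c ^ 2) * X 1 ^ 4 + C (3 * (1 / 5) * a.t 0) * (X 0 ^ 2 * X 1 ^ 2) +
  C (2 * (1 / 5) * a.t 2) * (X 0 * X 1 * X 2)

/-- the small part of `rho4 2` -/
def sm2 : S4 K := C a.c * (X 1 ^ 3 * X 2) + C (-1 * (1 / 10) * a.t 1) * (X 0 ^ 3 * X 3) + C (-1 * (1 / 10) * a.t 2) * (X 0 * X 1 ^ 2 * X 3) +
  C (-1 * (1 / 10) * a.t 3) * (X 0 ^ 3 * X 2) + C (-2 * (1 / 10) * a.t 4) * (X 0 * X 2 * X 3)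

/-- the small part of `rho4 3` -/
def sm3 : S4 K := C a.A⁻¹ * (X 1 * X 3 ^ 2) + C (a.A⁻¹ * a.c) * (X 1 ^ 3 * X 3) + C (4 * (1 / 10) * a.A⁻¹ * a.t 0) * (X 0 ^ 2 * X 1 ^ 3) +
  C (5 * (1 / 10) * a.A⁻¹ * a.t 1) * (X 0 ^ 3 * X 2) + C (1 * (1 / 10) * a.A⁻¹ * a.t 2) * (X 0 * X 1 ^ 2 * X 2) +
  C (5 * (1 / 10) * a.A⁻¹ * a.t 3) * (X 0 ^ 3 * X 3)

theorem cA (hA : a.A ≠ 0) : (C a.A * C a.A⁻¹ : S4 K) = 1 := by
  rw [← C_mul, mul_inv_cancel₀ hA, C_1]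

theorem c4 [CharZero K] : (4 * C (a.A ^ 2 / 4) : S4 K) = C a.A ^ 2 := by
  have h : (4 : S4 K) = C 4 := (map_ofNat C 4).symm
  rw [h, ← C_mul, ← C_pow]
  congr 1
  field_simp

theorem cn (n : ℕ) [n.AtLeastTwo] [CharZero K] : ((OfNat.ofNat n : S4 K) * C (1 / (OfNat.ofNat n : K))) = 1 := by
  have h : (OfNat.ofNat n : S4 K) = C (OfNat.ofNat n) := (map_ofNat C n).symm
  rw [h, ← C_mul, ← C_1]
  congr 1
  field_simp

theorem r0 [CharZero K] (hA : a.A ≠ 0) : rho4 a 0 = (X 2 ^ 2 - X 3 ^ 2) + sm0 a := by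
  have h0 : rho4 a 0 = C (4 * (a.A⁻¹) ^ 2) * pderiv 0 (H4 a) := rfl
  rw [h0, p0, sm0]
  simp only [C_mul, C_pow, map_ofNat]
  linear_combination (C a.A⁻¹ ^ 2 * (X 2 ^ 2 - X 3 ^ 2)) * c4 a +
    ((C a.A⁻¹ * C a.A + 1) * (X 2 ^ 2 - X 3 ^ 2) + 20 * C a.A⁻¹ * X 0 ^ 4) * cA a hA

theorem r1 [CharZero K] : rho4 a 1 = (X 1 ^ 4 - X 3 ^ 2) + sm1 a := by
  have h0 : rho4 a 1 = C (1 / 5) * pderiv 1 (H4 a) := rfl
  rw [h0, p1, sm1]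
  simp only [C_mul, C_pow, C_neg, map_ofNat]
  linear_combination (X 1 ^ 4 - (X 3 + C a.c * X 1 ^ 2) ^ 2 - 4 * (C a.c * (X 1 ^ 2 * (X 3 + C a.c * X 1 ^ 2)))) * cn (K := K) 5

theorem r2 [CharZero K] : rho4 a 2 = X 1 * X 2 * X 3 + sm2 a := by
  have h0 : rho4 a 2 = -(C (1 / 10) * (X 3 * pderiv 2 (H4 a) + X 2 * pderiv 3 (H4 a))) := rfl
  rw [h0, p2, p3, sm2]
  simp only [C_mul, C_neg, map_ofNat, C_1]
  linear_combination (X 1 * X 2 * (X 3 + C a.c * X 1 ^ 2)) * cn (K := K) 10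

theorem r3 [CharZero K] (hA : a.A ≠ 0) : rho4 a 3 = X 0 ^ 5 + sm3 a := by
  have h0 : rho4 a 3 = -(C (a.A⁻¹ / 10) * (X 2 * pderiv 2 (H4 a) + X 3 * pderiv 3 (H4 a) - 2 * X 0 * pderiv 0 (H4 a))) := rfl
  have h1 : a.A⁻¹ / 10 = a.A⁻¹ * (1 / 10) := by ring
  rw [h0, h1, p0, p2, p3, sm3]
  simp only [C_mul, map_ofNat, C_1]
  linear_combination (C a.A⁻¹ * X 1 * X 3 * (X 3 + C a.c * X 1 ^ 2) + C a.A⁻¹ * C a.A * X 0 ^ 5) * cn (K := K) 10 +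
    X 0 ^ 5 * cA a hA

/-- the weights of the variables -/
def w4 : Fin 4 → ℕ := ![1, 1, 2, 2]

theorem wt4_eq (m : Fin 4 →₀ ℕ) : wt4 m = Finsupp.weight w4 m := by
  rw [Finsupp.weight_apply, Finsupp.sum_fintype _ _ (fun i => zero_smul ℕ (w4 i)), Fin.sum_univ_four, wt4]
  simp [w4]
  ring

/-- weighted homogeneity -/
def Wh (d : ℕ) (h : S4 K) : Prop := IsWeightedHomogeneous w4 h d

theorem Wh.mul {d e : ℕ} {g h : S4 K} (hg : Wh d g) (hh : Wh e h) : Wh (d + e) (g * h) := IsWeightedHomogeneous.mul hg hh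

theorem Wh.pow {d : ℕ} {g : S4 K} (hg : Wh d g) (n : ℕ) : Wh (n * d) (g ^ n) := IsWeightedHomogeneous.pow hg n

theorem Wh.add {d : ℕ} {g h : S4 K} (hg : Wh d g) (hh : Wh d h) : Wh d (g + h) := IsWeightedHomogeneous.add hg hh

theorem Wh.X0 : Wh 1 (X 0 : S4 K) := isWeightedHomogeneous_X K w4 0
theorem Wh.X1 : Wh 1 (X 1 : S4 K) := isWeightedHomogeneous_X K w4 1
theorem Wh.X2 : Wh 2 (X 2 : S4 K) := isWeightedHomogeneous_X K w4 2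
theorem Wh.X3 : Wh 2 (X 3 : S4 K) := isWeightedHomogeneous_X K w4 3

theorem Wh.Cm {d : ℕ} {h : S4 K} (c : K) (hh : Wh d h) : Wh d (C c * h) := by
  have h1 : Wh (0 + d) (C c * h) := IsWeightedHomogeneous.mul (isWeightedHomogeneous_C w4 c) hh
  rwa [zero_add] at h1

theorem Wh.sub {d : ℕ} {g h : S4 K} (hg : Wh d g) (hh : Wh d h) : Wh d (g - h) := by
  have h1 : g - h = g + C (-1) * h := by
    rw [C_neg, C_1]
    ring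
  rw [h1]
  exact hg.add (hh.Cm (-1))

theorem wh0 [CharZero K] (hA : a.A ≠ 0) : Wh 4 (rho4 a 0) := by
  rw [r0 a hA, sm0]
  exact ((Wh.X2.pow 2).sub (Wh.X3.pow 2)).add ((((((Wh.X0.pow 4).Cm _).add ((Wh.X0.mul (Wh.X1.pow 3)).Cm _)).add
    (((Wh.X0.pow 2).mul Wh.X2).Cm _)).add (((Wh.X1.pow 2).mul Wh.X2).Cm _)).add (((Wh.X0.pow 2).mul Wh.X3).Cm _) |>.add
    ((Wh.X3.pow 2).Cm _))

theorem wh1 [CharZero K] : Wh 4 (rho4 a 1) := by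
  rw [r1 a, sm1]
  exact ((Wh.X1.pow 4).sub (Wh.X3.pow 2)).add ((((((Wh.X1.pow 2).mul Wh.X3).Cm _).add ((Wh.X1.pow 4).Cm _)).add
    (((Wh.X0.pow 2).mul (Wh.X1.pow 2)).Cm _)).add (((Wh.X0.mul Wh.X1).mul Wh.X2).Cm _))

theorem wh2 [CharZero K] : Wh 5 (rho4 a 2) := by
  rw [r2 a, sm2]
  exact ((Wh.X1.mul Wh.X2).mul Wh.X3).add (((((((Wh.X1.pow 3).mul Wh.X2).Cm _).add (((Wh.X0.pow 3).mul Wh.X3).Cm _)).add
    (((Wh.X0.mul (Wh.X1.pow 2)).mul Wh.X3).Cm _)).add (((Wh.X0.pow 3).mul Wh.X2).Cm _)).add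
    (((Wh.X0.mul Wh.X2).mul Wh.X3).Cm _))

theorem wh3 [CharZero K] (hA : a.A ≠ 0) : Wh 5 (rho4 a 3) := by
  rw [r3 a hA, sm3]
  exact (Wh.X0.pow 5).add ((((((Wh.X1.mul (Wh.X3.pow 2)).Cm _).add (((Wh.X1.pow 3).mul Wh.X3).Cm _)).add
    (((Wh.X0.pow 2).mul (Wh.X1.pow 3)).Cm _)).add (((Wh.X0.pow 3).mul Wh.X2).Cm _)).add
    (((Wh.X0.mul (Wh.X1.pow 2)).mul Wh.X2).Cm _) |>.add (((Wh.X0.pow 3).mul Wh.X3).Cm _))

end pd

section red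

variable {K : Type} [Field K] (a : Par K) (𝒪 : ValuationSubring K)

theorem vmul {x y : K} (hx : 𝒪.valuation x ≤ 1) (hy : 𝒪.valuation y < 1) : 𝒪.valuation (x * y) < 1 := by
  rw [map_mul]
  rw [mul_comm]
  exact mul_lt_one_of_lt_of_le hy hx

theorem vmul1 {x y : K} (hx : 𝒪.valuation x ≤ 1) (hy : 𝒪.valuation y ≤ 1) : 𝒪.valuation (x * y) ≤ 1 := by
  rw [map_mul]
  exact mul_le_one' hx hy

theorem vint {a : Par K} {𝒪 : ValuationSubring K} (h : Adm a 𝒪) (n : ℤ) (c : K) (hc : c = (n : K)) : 𝒪.valuation c ≤ 1 := by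
  rw [hc]
  by_cases h0 : n = 0
  · rw [h0, Int.cast_zero, map_zero]
    exact zero_le_one
  · exact (h.int n h0).le

theorem vinv {a : Par K} {𝒪 : ValuationSubring K} (h : Adm a 𝒪) (n : ℤ) (h0 : n ≠ 0) (c : K) (hc : c = 1 / (n : K)) :
    𝒪.valuation c ≤ 1 := by
  rw [hc, map_div₀, map_one, h.int n h0, div_one]

theorem rd0 [CharZero K] (h : Adm a 𝒪) : Rd 𝒪 (rho4 a 0) (X 2 ^ 2 - X 3 ^ 2) := by
  refine rd_of (h := sm0 a) ?_ ?_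
  · rw [r0 a h.A0]
    simp
  · have e2 : 𝒪.valuation (a.A⁻¹ ^ 2) ≤ 1 := by
      rw [map_pow]
      exact pow_le_one' h.A.le 2
    rw [sm0]
    exact (((((Sm.C (vmul 𝒪 (vint h 20 _ (by norm_num)) h.A) ((In.X 0).pow 4)).add
      (Sm.C (vmul 𝒪 (vmul1 𝒪 (vint h 8 _ (by norm_num)) e2) (h.t 0)) ((In.X 0).mul ((In.X 1).pow 3)))).add
      (Sm.C (vmul 𝒪 (vmul1 𝒪 (vint h 12 _ (by norm_num)) e2) (h.t 1)) (((In.X 0).pow 2).mul (In.X 2)))).add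
      (Sm.C (vmul 𝒪 (vmul1 𝒪 (vint h 4 _ (by norm_num)) e2) (h.t 2)) (((In.X 1).pow 2).mul (In.X 2)))).add
      (Sm.C (vmul 𝒪 (vmul1 𝒪 (vint h 12 _ (by norm_num)) e2) (h.t 3)) (((In.X 0).pow 2).mul (In.X 3)))).add
      (Sm.C (vmul 𝒪 (vmul1 𝒪 (vint h 4 _ (by norm_num)) e2) (h.t 4)) ((In.X 3).pow 2))

theorem rd1 [CharZero K] (h : Adm a 𝒪) : Rd 𝒪 (rho4 a 1) (X 1 ^ 4 - X 3 ^ 2) := by
  refine rd_of (h := sm1 a) ?_ ?_
  · rw [r1 a]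
    simp
  · have c2 : 𝒪.valuation (a.c ^ 2) < 1 := by
      rw [pow_two]
      exact vmul 𝒪 h.c.le h.c
    have f5 : 𝒪.valuation (1 / 5 : K) ≤ 1 := vinv h 5 (by norm_num) _ (by norm_num)
    rw [sm1]
    exact (((Sm.C (vmul 𝒪 (vint h (-6) _ (by norm_num)) h.c) (((In.X 1).pow 2).mul (In.X 3))).add
      (Sm.C (vmul 𝒪 (vint h (-5) _ (by norm_num)) c2) ((In.X 1).pow 4))).add
      (Sm.C (vmul 𝒪 (vmul1 𝒪 (vint h 3 _ (by norm_num)) f5) (h.t 0)) (((In.X 0).pow 2).mul ((In.X 1).pow 2)))).add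
      (Sm.C (vmul 𝒪 (vmul1 𝒪 (vint h 2 _ (by norm_num)) f5) (h.t 2)) (((In.X 0).mul (In.X 1)).mul (In.X 2)))

theorem rd2 [CharZero K] (h : Adm a 𝒪) : Rd 𝒪 (rho4 a 2) (X 1 * X 2 * X 3) := by
  refine rd_of (h := sm2 a) ?_ ?_
  · rw [r2 a]
    simp
  · have f10 : 𝒪.valuation (1 / 10 : K) ≤ 1 := vinv h 10 (by norm_num) _ (by norm_num)
    have m1 := vmul1 𝒪 (vint h (-1) (-1 : K) (by norm_num)) f10
    have m2 := vmul1 𝒪 (vint h (-2) (-2 : K) (by norm_num)) f10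
    rw [sm2]
    exact ((((Sm.C h.c (((In.X 1).pow 3).mul (In.X 2))).add
      (Sm.C (vmul 𝒪 m1 (h.t 1)) (((In.X 0).pow 3).mul (In.X 3)))).add
      (Sm.C (vmul 𝒪 m1 (h.t 2)) (((In.X 0).mul ((In.X 1).pow 2)).mul (In.X 3)))).add
      (Sm.C (vmul 𝒪 m1 (h.t 3)) (((In.X 0).pow 3).mul (In.X 2)))).add
      (Sm.C (vmul 𝒪 m2 (h.t 4)) (((In.X 0).mul (In.X 2)).mul (In.X 3)))

theorem rd3 [CharZero K] (h : Adm a 𝒪) : Rd 𝒪 (rho4 a 3) (X 0 ^ 5) := by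
  refine rd_of (h := sm3 a) ?_ ?_
  · rw [r3 a h.A0]
    simp
  · have f10 : 𝒪.valuation (1 / 10 : K) ≤ 1 := vinv h 10 (by norm_num) _ (by norm_num)
    have m4 := vmul1 𝒪 (vmul1 𝒪 (vint h 4 (4 : K) (by norm_num)) f10) h.A.le
    have m5 := vmul1 𝒪 (vmul1 𝒪 (vint h 5 (5 : K) (by norm_num)) f10) h.A.le
    have m1 := vmul1 𝒪 (vmul1 𝒪 (vint h 1 (1 : K) (by norm_num)) f10) h.A.le
    rw [sm3]
    exact (((((Sm.C h.A ((In.X 1).mul ((In.X 3).pow 2))).add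
      (Sm.C (vmul 𝒪 h.A.le h.c) (((In.X 1).pow 3).mul (In.X 3)))).add
      (Sm.C (vmul 𝒪 m4 (h.t 0)) (((In.X 0).pow 2).mul ((In.X 1).pow 3)))).add
      (Sm.C (vmul 𝒪 m5 (h.t 1)) (((In.X 0).pow 3).mul (In.X 2)))).add
      (Sm.C (vmul 𝒪 m1 (h.t 2)) (((In.X 0).mul ((In.X 1).pow 2)).mul (In.X 2)))).add
      (Sm.C (vmul 𝒪 m5 (h.t 3)) (((In.X 0).pow 3).mul (In.X 3)))

end red

section idl

variable {K : Type} [Field K] [CharZero K] (a : Par K)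

theorem ideal_eq (hA : a.A ≠ 0) : IH a = Ideal.span (Set.range (rho4 a)) := by
  have e0 : rho4 a 0 = C (4 * (a.A⁻¹) ^ 2) * pderiv 0 (H4 a) := rfl
  have e1 : rho4 a 1 = C (1 / 5) * pderiv 1 (H4 a) := rfl
  have e2 : rho4 a 2 = -(C (1 / 10) * (X 3 * pderiv 2 (H4 a) + X 2 * pderiv 3 (H4 a))) := rfl
  have e3 : rho4 a 3 = -(C (a.A⁻¹ / 10) * (X 2 * pderiv 2 (H4 a) + X 3 * pderiv 3 (H4 a) - 2 * X 0 * pderiv 0 (H4 a))) := rfl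
  apply le_antisymm
  · have m (i : Fin 4) : rho4 a i ∈ Ideal.span (Set.range (rho4 a)) := Ideal.subset_span ⟨i, rfl⟩
    have k0 : pderiv 0 (H4 a) = C (a.A ^ 2 / 4) * rho4 a 0 := by
      rw [e0, ← mul_assoc, ← C_mul]
      have h : a.A ^ 2 / 4 * (4 * a.A⁻¹ ^ 2) = 1 := by field_simp
      rw [h, C_1, one_mul]
    have k1 : pderiv 1 (H4 a) = C 5 * rho4 a 1 := by
      rw [e1, ← mul_assoc, ← C_mul]
      have h : (5 * (1 / 5) : K) = 1 := by norm_num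
      rw [h, C_1, one_mul]
    have k2 : X 3 * pderiv 2 (H4 a) + X 2 * pderiv 3 (H4 a) = C (-10) * rho4 a 2 := by
      rw [e2, mul_neg, ← neg_mul, ← C_neg, ← mul_assoc, ← C_mul]
      have h : (- -10 * (1 / 10) : K) = 1 := by norm_num
      rw [h, C_1, one_mul]
    have k3 : X 2 * pderiv 2 (H4 a) + X 3 * pderiv 3 (H4 a) = C (-10 * a.A) * rho4 a 3 + 2 * X 0 * (C (a.A ^ 2 / 4) * rho4 a 0) := by
      rw [← k0, e3, mul_neg, ← neg_mul, ← C_neg, ← mul_assoc, ← C_mul]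
      have h : -(-10 * a.A) * (a.A⁻¹ / 10) = 1 := by field_simp
      rw [h, C_1, one_mul]
      ring
    refine Ideal.span_le.2 ?_
    rintro x (rfl | rfl | rfl | rfl)
    · rw [SetLike.mem_coe, k0]
      exact Ideal.mul_mem_left _ _ (m 0)
    · rw [SetLike.mem_coe, k1]
      exact Ideal.mul_mem_left _ _ (m 1)
    · rw [SetLike.mem_coe, k3]
      exact Ideal.add_mem _ (Ideal.mul_mem_left _ _ (m 3)) (Ideal.mul_mem_left _ _ (Ideal.mul_mem_left _ _ (m 0)))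
    · rw [SetLike.mem_coe, k2]
      exact Ideal.mul_mem_left _ _ (m 2)
  · have m0 : pderiv 0 (H4 a) ∈ IH a := Ideal.subset_span (Or.inl rfl)
    have m1 : pderiv 1 (H4 a) ∈ IH a := Ideal.subset_span (Or.inr (Or.inl rfl))
    have m2 : X 2 * pderiv 2 (H4 a) + X 3 * pderiv 3 (H4 a) ∈ IH a := Ideal.subset_span (Or.inr (Or.inr (Or.inl rfl)))
    have m3 : X 3 * pderiv 2 (H4 a) + X 2 * pderiv 3 (H4 a) ∈ IH a := Ideal.subset_span (Or.inr (Or.inr (Or.inr rfl)))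
    refine Ideal.span_le.2 ?_
    rintro x ⟨i, rfl⟩
    rw [SetLike.mem_coe]
    fin_cases i
    · show rho4 a 0 ∈ _
      rw [e0]
      exact Ideal.mul_mem_left _ _ m0
    · show rho4 a 1 ∈ _
      rw [e1]
      exact Ideal.mul_mem_left _ _ m1
    · show rho4 a 2 ∈ _
      rw [e2]
      exact neg_mem (Ideal.mul_mem_left _ _ m3)
    · show rho4 a 3 ∈ _
      rw [e3]
      exact neg_mem (Ideal.mul_mem_left _ _ (sub_mem m2 (Ideal.mul_mem_left _ _ m0)))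

end idl

end Rh_aux

open Rh_aux in
theorem tRh : S_Rh := by
  intro K _ _ a 𝒪 h
  refine ⟨fun i => ?_, fun i m hm => ?_, ideal_eq a h.A0⟩
  · fin_cases i
    · exact rd0 a 𝒪 h
    · exact rd1 a 𝒪 h
    · exact rd2 a 𝒪 h
    · exact rd3 a 𝒪 h
  · rw [wt4_eq]
    fin_cases i
    · exact wh0 a h.A0 hm
    · exact wh1 a hm
    · exact wh2 a hm
    · exact wh3 a h.A0 hm

end Pool.Agent.QV
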