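import Pool.Agent.Lib.MP_b53bfe_ag.Q.SpecA

/-!
b53bfe Q/Sch: Schanuel for matrix factorizations (spec Q/SpecA, S_Sch; helper28)
-/

set_option autoImplicit false

noncomputable section

namespace Pool.Agent.QV

open Matrix

namespace Sch_aux

lemma cols {L : Type} [CommRing L] {m p : Type} [Fintype m] [DecidableEq m] [Fintype p] [DecidableEq p]
    (A : Matrix m m L) (T : Matrix m p L)
    (h : ∀ y : p → L, (T *ᵥ y) ∈ LinearMap.range A.mulVecLin) : ∃ X : Matrix m p L, A * X = T := by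
  have h1 : ∀ j : p, ∃ x : m → L, A *ᵥ x = T *ᵥ (Pi.single j 1) := by
    intro j
    obtain ⟨x, hx⟩ := h (Pi.single j 1)
    exact ⟨x, by simpa using hx⟩
  choose c hc using h1
  refine ⟨Matrix.of (fun i j => c j i), ?_⟩
  ext i j
  have h2 := congrFun (hc j) i
  rw [Matrix.mulVec_single_one] at h2
  simpa [Matrix.mul_apply, Matrix.mulVec, dotProduct] using h2

lemma lift {L : Type} [CommRing L] {m n : Type} [Fintype m] [DecidableEq m] [Fintype n] [DecidableEq n]
    {Q : Type} [AddCommGroup Q] [Module L Q] (p' : (n → L) →ₗ[L] Q) (p : (m → L) →ₗ[L] Q)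
    (hs : Function.Surjective p') : ∃ F : Matrix n m L, ∀ x, p' (F *ᵥ x) = p x := by
  obtain ⟨f, hf⟩ := Module.projective_lifting_property p' p hs
  refine ⟨LinearMap.toMatrix' f, fun x => ?_⟩
  rw [LinearMap.toMatrix'_mulVec]
  exact LinearMap.congr_fun hf x

end Sch_aux

theorem tSch : S_Sch := by
  intro L _ _ W m n _ _ _ _ A B A' B' hW hAB hAB' ⟨e⟩
  set p : (m → L) →ₗ[L] Ck A := (LinearMap.range A.mulVecLin).mkQ with hp
  set p' : (n → L) →ₗ[L] Ck A := (e.symm : Ck A' →ₗ[L] Ck A) ∘ₗ (LinearMap.range A'.mulVecLin).mkQ with hp'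
  have hps : Function.Surjective p := Submodule.mkQ_surjective _
  have hps' : Function.Surjective p' := by
    rw [hp', LinearMap.coe_comp]
    exact e.symm.surjective.comp (Submodule.mkQ_surjective _)
  have hk : ∀ x, p x = 0 → x ∈ LinearMap.range A.mulVecLin := by
    intro x hx
    exact (Submodule.Quotient.mk_eq_zero _).1 hx
  have hk' : ∀ x, p' x = 0 → x ∈ LinearMap.range A'.mulVecLin := by
    intro x hx
    have h1 : e.symm ((LinearMap.range A'.mulVecLin).mkQ x) = 0 := hx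
    rw [LinearEquiv.map_eq_zero_iff] at h1
    exact (Submodule.Quotient.mk_eq_zero _).1 h1
  have hz : ∀ x, p (A *ᵥ x) = 0 := by
    intro x
    exact (Submodule.Quotient.mk_eq_zero _).2 ⟨x, rfl⟩
  have hz' : ∀ x, p' (A' *ᵥ x) = 0 := by
    intro x
    have h1 : (LinearMap.range A'.mulVecLin).mkQ (A' *ᵥ x) = 0 :=
      (Submodule.Quotient.mk_eq_zero _).2 ⟨x, rfl⟩
    rw [hp', LinearMap.comp_apply, h1, map_zero]
  obtain ⟨F, hF⟩ := Sch_aux.lift p' p hps'
  obtain ⟨G, hG⟩ := Sch_aux.lift p p' hps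
  obtain ⟨X, hX⟩ := Sch_aux.cols A' (F * A) (fun y => hk' _ (by
    rw [← Matrix.mulVec_mulVec, hF, hz]))
  obtain ⟨Y, hY⟩ := Sch_aux.cols A' (1 - F * G) (fun y => hk' _ (by
    rw [Matrix.sub_mulVec, map_sub, Matrix.one_mulVec, ← Matrix.mulVec_mulVec, hF, hG, sub_self]))
  obtain ⟨X', hX'⟩ := Sch_aux.cols A (1 - G * F) (fun y => hk _ (by
    rw [Matrix.sub_mulVec, map_sub, Matrix.one_mulVec, ← Matrix.mulVec_mulVec, hG, hF, sub_self]))
  obtain ⟨Y', hY'⟩ := Sch_aux.cols A (G * A') (fun y => hk _ (by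
    rw [← Matrix.mulVec_mulVec, hG, hz']))
  have hU1 : fromBlocks 1 (-G) F (1 - F * G) * fromBlocks (1 - G * F) G (-F) 1 =
      (1 : Matrix (m ⊕ n) (m ⊕ n) L) := by
    rw [fromBlocks_multiply, ← fromBlocks_one]
    congr 1
    · rw [Matrix.one_mul, Matrix.neg_mul, Matrix.mul_neg, neg_neg, sub_add_cancel]
    · simp
    · rw [Matrix.mul_sub, Matrix.mul_one, Matrix.mul_neg, Matrix.sub_mul, Matrix.one_mul, Matrix.mul_assoc]
      abel
    · rw [Matrix.mul_one]; abel
  have hU2 : fromBlocks (1 - G * F) G (-F) 1 * fromBlocks 1 (-G) F (1 - F * G) =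
      (1 : Matrix (m ⊕ n) (m ⊕ n) L) := mul_eq_one_comm.1 hU1
  have hUV : fromBlocks 1 (-G) F (1 - F * G) * fromBlocks A 0 0 1 =
      fromBlocks 1 0 0 A' * fromBlocks A (-G) X Y := by
    rw [fromBlocks_multiply, fromBlocks_multiply]
    congr 1
    · simp
    · simp
    · simp [hX]
    · simp [hY]
  have hUV' : fromBlocks (1 - G * F) G (-F) 1 * fromBlocks 1 0 0 A' =
      fromBlocks A 0 0 1 * fromBlocks X' Y' (-F) A' := by
    rw [fromBlocks_multiply, fromBlocks_multiply]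
    congr 1
    · simp [hX']
    · simp [hY']
    · simp
    · simp
  have hV1 : fromBlocks A (-G) X Y * fromBlocks X' Y' (-F) A' = (1 : Matrix (m ⊕ n) (m ⊕ n) L) := by
    have h1 : fromBlocks (1 : Matrix m m L) 0 0 A' * (fromBlocks A (-G) X Y * fromBlocks X' Y' (-F) A') =
        fromBlocks 1 0 0 A' * 1 := by
      rw [← Matrix.mul_assoc, ← hUV, Matrix.mul_assoc, ← hUV', ← Matrix.mul_assoc, hU1, Matrix.one_mul,
        Matrix.mul_one]
    have h2 : fromBlocks (W • (1 : Matrix m m L)) 0 0 B' * fromBlocks (1 : Matrix m m L) 0 0 A' =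
        W • (1 : Matrix (m ⊕ n) (m ⊕ n) L) := by
      rw [fromBlocks_multiply, ← fromBlocks_one, fromBlocks_smul]
      congr 1
      · simp
      · simp
      · simp
      · simp [hAB'.ba]
    have h3 : W • (fromBlocks A (-G) X Y * fromBlocks X' Y' (-F) A') =
        W • (1 : Matrix (m ⊕ n) (m ⊕ n) L) := by
      have := congrArg (fun Z => fromBlocks (W • (1 : Matrix m m L)) 0 0 B' * Z) h1
      simp only [← Matrix.mul_assoc] at this
      rw [h2] at this
      simpa [Matrix.mul_assoc] using this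
    ext i j
    have h4 := congrFun (congrFun h3 i) j
    rw [Matrix.smul_apply, Matrix.smul_apply, smul_eq_mul, smul_eq_mul] at h4
    exact mul_left_cancel₀ hW h4
  exact ⟨fromBlocks 1 (-G) F (1 - F * G), fromBlocks (1 - G * F) G (-F) 1, fromBlocks A (-G) X Y,
    fromBlocks X' Y' (-F) A', hU1, hU2, hV1, mul_eq_one_comm.1 hV1, hUV⟩

end Pool.Agent.QV
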