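import Pool.Agent.Lib.MP_b53bfe_ag.Q.SpecA

/-!
# Single form lemma
-/

set_option autoImplicit false

noncomputable section

namespace Pool.Agent.QV

open Matrix

namespace Sg_aux

variable {L E : Type} [CommRing L] [Ring E] [Algebra L E] (C : Cal L E) {n : Type} [Fintype n] [DecidableEq n]

/-- forms of even degree can be exchanged in the trace -/
theorem tr_even (hC : S_Comm) (i j : ℕ) (X Y : Matrix n n E) (hX : C.Ent (2 * i) X) (hY : C.Ent j Y) :
    (X * Y).trace = (Y * X).trace := by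
  have h := (hC L E C).2.2.2.2.2 (2 * i) j n n X Y hX hY
  rw [h, show 2 * i * j = 2 * (i * j) by ring, pow_mul, neg_one_sq, one_pow, one_mul]

/-- a scalar 1-form is moved to the left -/
theorem mul_smul_om (hC : S_Comm) (j : ℕ) (θ : E) (hθ : θ ∈ C.Om) (Y Z : Matrix n n E) (hY : C.Ent j Y) :
    Y * (θ • Z) = (-1 : E) ^ j • (θ • (Y * Z)) := by
  ext a b
  rw [Matrix.smul_apply, Matrix.smul_apply, Matrix.mul_apply, Matrix.mul_apply, smul_eq_mul, smul_eq_mul,
    Finset.mul_sum, Finset.mul_sum]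
  refine Finset.sum_congr rfl fun c _ => ?_
  rw [Matrix.smul_apply, smul_eq_mul, ← mul_assoc, (hC L E C).1 j 1 (Y a c) θ (hY a c) (by rwa [pow_one]), mul_one]
  simp only [mul_assoc]

theorem zero_mid (hC : S_Comm) (i : ℕ) (θ : E) (hθ : θ ∈ C.Om) (X Z : Matrix n n E) (hX : C.Ent i X) (hZ : C.Ent 1 Z) :
    (θ • Z) * X * (θ • Z) = 0 := by
  have h1 : C.Ent (1 + i) (Z * X) := (hC L E C).2.2.1 1 i n n n Z X hZ hX
  rw [smul_mul_assoc, smul_mul_assoc, mul_smul_om C hC (1 + i) θ hθ (Z * X) Z h1]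
  ext a b
  rw [Matrix.smul_apply, Matrix.smul_apply, Matrix.smul_apply, smul_eq_mul, smul_eq_mul, smul_eq_mul]
  have h2 : θ * ((-1 : E) ^ (1 + i) * (θ * (Z * X * Z) a b)) = (-1 : E) ^ (1 + i) * (θ * θ * (Z * X * Z) a b) := by
    rcases neg_one_pow_eq_or E (1 + i) with h | h <;> rw [h] <;> simp only [one_mul, neg_mul, mul_neg, mul_assoc]
  rw [h2, (hC L E C).2.1 θ hθ, zero_mul, mul_zero, Matrix.zero_apply]

theorem ent_z (hC : S_Comm) (A : Matrix n n L) (P : Matrix n n E) (hP : C.Ent 1 P) :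
    C.Ent 1 (em E A * P - P * em E A) := by
  have h0 : C.Ent 0 (em E A) := ((hC L E C).2.2.2.2.1 n n A).2
  have h1 : C.Ent (0 + 1) (em E A * P) := (hC L E C).2.2.1 0 1 n n n _ _ h0 hP
  have h2 : C.Ent (1 + 0) (P * em E A) := (hC L E C).2.2.1 1 0 n n n _ _ hP h0
  intro a b
  rw [Matrix.sub_apply]
  exact Submodule.sub_mem _ (h1 a b) (h2 a b)

theorem ent_pow (hC : S_Comm) (N : Matrix n n E) (hN : C.Ent 2 N) (m : ℕ) : C.Ent (2 * m) (N ^ m) :=
  (hC L E C).2.2.2.1 2 m n N hN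

theorem tr_zero (hC : S_Comm) (N P : Matrix n n E) (A : Matrix n n L) (θ : E) (hN : C.Ent 2 N) (hP : C.Ent 1 P)
    (hc : N * P = P * N) (m : ℕ) : ((θ • (em E A * P - P * em E A)) * N ^ m).trace = 0 := by
  have h0 : C.Ent 0 (em E A) := ((hC L E C).2.2.2.2.1 n n A).2
  have hNm := ent_pow C hC N hN m
  have hcm : N ^ m * P = P * N ^ m := (Commute.pow_left (show Commute N P from hc) m)
  have h1 : (em E A * (P * N ^ m)).trace = (P * N ^ m * em E A).trace :=
    tr_even C hC 0 (1 + 2 * m) _ _ h0 ((hC L E C).2.2.1 1 (2 * m) n n n _ _ hP hNm)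
  have h2 : (N ^ m * (P * em E A)).trace = (P * em E A * N ^ m).trace :=
    tr_even C hC m (1 + 0) _ _ hNm ((hC L E C).2.2.1 1 0 n n n _ _ hP h0)
  rw [smul_mul_assoc, Matrix.trace_smul, sub_mul, Matrix.trace_sub, ← h2, mul_assoc (em E A), h1, ← mul_assoc (N ^ m),
    hcm, sub_self, smul_zero]

theorem key (hC : S_Comm) (N P : Matrix n n E) (A : Matrix n n L) (θ : E) (hN : C.Ent 2 N) (hP : C.Ent 1 P)
    (hc : N * P = P * N) (hθ : θ ∈ C.Om) (k : ℕ) :
    ∃ S : Matrix n n E, (N + θ • (em E A * P - P * em E A)) ^ k = N ^ k + S ∧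
      (∀ m : ℕ, S * N ^ m * (θ • (em E A * P - P * em E A)) = 0) ∧ ∀ m : ℕ, (S * N ^ m).trace = 0 := by
  set Z := em E A * P - P * em E A with hZ
  have hZ1 : C.Ent 1 Z := ent_z C hC A P hP
  induction k with
  | zero => exact ⟨0, by rw [pow_zero, pow_zero, add_zero], fun m => by rw [zero_mul, zero_mul],
      fun m => by rw [zero_mul, Matrix.trace_zero]⟩
  | succ k ih =>
    obtain ⟨S, h1, h2, h3⟩ := ih
    refine ⟨N ^ k * (θ • Z) + S * N, ?_, fun m => ?_, fun m => ?_⟩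
    · have h4 := h2 0
      rw [pow_zero, mul_one] at h4
      rw [pow_succ, h1, add_mul, mul_add, mul_add, h4, add_zero, ← pow_succ, add_assoc]
    · have h4 : (θ • Z) * N ^ m * (θ • Z) = 0 :=
        zero_mid C hC (2 * m) θ hθ _ _ (ent_pow C hC N hN m) hZ1
      rw [add_mul, add_mul, mul_assoc (N ^ k), mul_assoc (N ^ k), h4, mul_zero, zero_add, mul_assoc S, ← pow_succ',
        h2]
    · have hT : C.Ent (1 + (1 + 2 * m)) (θ • Z * N ^ m) := by
        have h5 : C.Ent (1 + 2 * m) (Z * N ^ m) := (hC L E C).2.2.1 1 (2 * m) n n n _ _ hZ1 (ent_pow C hC N hN m)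
        intro a b
        rw [smul_mul_assoc, Matrix.smul_apply, smul_eq_mul, pow_add, pow_one]
        exact Submodule.mul_mem_mul hθ (h5 a b)
      rw [add_mul, Matrix.trace_add, mul_assoc S, ← pow_succ', h3, add_zero, mul_assoc (N ^ k),
        tr_even C hC k _ _ _ (ent_pow C hC N hN k) hT, mul_assoc, ← pow_add]
      exact tr_zero C hC N P A θ hN hP hc _

end Sg_aux

theorem tSg : S_Comm → S_Sg := by
  intro hC L E _ _ _ C n _ _ N P A θ k hN hP hc hθ
  obtain ⟨S, h1, -, h3⟩ := Sg_aux.key C hC N P A θ hN hP hc hθ k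
  have h4 := h3 0
  rw [pow_zero, mul_one] at h4
  rw [h1, Matrix.trace_add, h4, add_zero]

end Pool.Agent.QV
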