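import Pool.Agent.Lib.MP_b53bfe_ag.Q.SpecP

/-!
# Disproof of Q1 of MP_b53bfe_ag for quintic threefolds: module Smo (smoothness of the quintic)
-/

set_option autoImplicit false

noncomputable section

namespace Pool.Agent.QV

open Matrix
open MvPolynomial
open Pool.Agent.FY (Res)

namespace Smo_aux

section pd

variable {K : Type} [Field K] (a : Par K)

theorem H4e : H4 a = X 0 * (C (a.A ^ 2 / 4) * (X 2 ^ 2 - X 3 ^ 2) + C a.A * X 0 ^ 4 + C (a.t 0) * (X 0 * X 1 ^ 3) +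
    C (a.t 1) * (X 0 ^ 2 * X 2) + C (a.t 2) * (X 1 ^ 2 * X 2) + C (a.t 3) * (X 0 ^ 2 * X 3) + C (a.t 4) * X 3 ^ 2) +
    X 1 ^ 5 - 5 * (X 1 * (X 3 + C a.c * X 1 ^ 2) ^ 2) := by
  have e0 : RR K 0 = X 0 * X 1 ^ 3 := rfl
  have e1 : RR K 1 = X 0 ^ 2 * X 2 := rfl
  have e2 : RR K 2 = X 1 ^ 2 * X 2 := rfl
  have e3 : RR K 3 = X 0 ^ 2 * X 3 := rfl
  have e4 : RR K 4 = X 3 ^ 2 := rfl
  rw [H4, R4, u4, Fin.sum_univ_five, e0, e1, e2, e3, e4]
  ring

theorem d5 {n : ℕ} (i : Fin n) : pderiv i (5 : MvPolynomial (Fin n) K) = 0 := by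
  simpa using (pderiv (R := K) i).map_natCast 5

theorem p0 : pderiv 0 (H4 a) = C (a.A ^ 2 / 4) * (X 2 ^ 2 - X 3 ^ 2) + 5 * (C a.A * X 0 ^ 4) + 2 * (C (a.t 0) * (X 0 * X 1 ^ 3)) +
    3 * (C (a.t 1) * (X 0 ^ 2 * X 2)) + C (a.t 2) * (X 1 ^ 2 * X 2) + 3 * (C (a.t 3) * (X 0 ^ 2 * X 3)) +
    C (a.t 4) * X 3 ^ 2 := by
  rw [H4e]
  simp [pderiv_X, d5]
  ring

theorem p1 : pderiv 1 (H4 a) = 3 * (C (a.t 0) * (X 0 ^ 2 * X 1 ^ 2)) + 2 * (C (a.t 2) * (X 0 * X 1 * X 2)) + 5 * X 1 ^ 4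
    - 5 * (X 3 + C a.c * X 1 ^ 2) ^ 2 - 20 * (C a.c * (X 1 ^ 2 * (X 3 + C a.c * X 1 ^ 2))) := by
  rw [H4e]
  simp [pderiv_X, d5]
  ring

theorem p2 : pderiv 2 (H4 a) = X 0 * (2 * (C (a.A ^ 2 / 4) * X 2) + C (a.t 1) * X 0 ^ 2 + C (a.t 2) * X 1 ^ 2) := by
  rw [H4e]
  simp [pderiv_X, d5]
  ring

theorem p3 : pderiv 3 (H4 a) = X 0 * (-(2 * (C (a.A ^ 2 / 4) * X 3)) + C (a.t 3) * X 0 ^ 2 + 2 * (C (a.t 4) * X 3)) -
    10 * (X 1 * (X 3 + C a.c * X 1 ^ 2)) := by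
  rw [H4e]
  simp [pderiv_X, d5]
  ring

/-- the quintic form, expanded -/
theorem fQe : fQ a = X 3 ^ 5 + X 1 * (C (a.A ^ 2) * (X 0 ^ 2 * X 4 ^ 2) + C a.A * X 1 ^ 4 + C (a.t 0) * (X 1 * X 2 ^ 3) +
    C (a.t 1) * (X 1 ^ 2 * (X 0 ^ 2 + X 4 ^ 2)) + C (a.t 2) * (X 2 ^ 2 * (X 0 ^ 2 + X 4 ^ 2)) +
    C (a.t 3) * (X 1 ^ 2 * (X 0 ^ 2 - X 4 ^ 2)) + C (a.t 4) * (X 0 ^ 2 - X 4 ^ 2) ^ 2) +
    X 2 ^ 5 - 5 * (X 2 * (X 0 ^ 2 - X 4 ^ 2 + C a.c * X 2 ^ 2) ^ 2) := by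
  rw [fQ, ff, Rf, uf, Fin.sum_univ_five]
  simp only [MvPolynomial.algebraMap_eq]
  have e0 : (Rj 0 (X 0) (X 1) (X 2) (X 4) : MvPolynomial (Fin 5) K) = X 1 * X 2 ^ 3 := rfl
  have e1 : (Rj 1 (X 0) (X 1) (X 2) (X 4) : MvPolynomial (Fin 5) K) = X 1 ^ 2 * (X 0 ^ 2 + X 4 ^ 2) := rfl
  have e2 : (Rj 2 (X 0) (X 1) (X 2) (X 4) : MvPolynomial (Fin 5) K) = X 2 ^ 2 * (X 0 ^ 2 + X 4 ^ 2) := rfl
  have e3 : (Rj 3 (X 0) (X 1) (X 2) (X 4) : MvPolynomial (Fin 5) K) = X 1 ^ 2 * (X 0 ^ 2 - X 4 ^ 2) := rfl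
  have e4 : (Rj 4 (X 0) (X 1) (X 2) (X 4) : MvPolynomial (Fin 5) K) = (X 0 ^ 2 - X 4 ^ 2) ^ 2 := rfl
  rw [e0, e1, e2, e3, e4]
  ring

/-- the point in the coordinates `x, y, s, v` -/
def pt (z : Fin 5 → K) : Fin 4 → K := ![z 1, z 2, z 0 ^ 2 + z 4 ^ 2, z 0 ^ 2 - z 4 ^ 2]

theorem pt0 (z : Fin 5 → K) : pt z 0 = z 1 := rfl
theorem pt1 (z : Fin 5 → K) : pt z 1 = z 2 := rfl
theorem pt2 (z : Fin 5 → K) : pt z 2 = z 0 ^ 2 + z 4 ^ 2 := rfl
theorem pt3 (z : Fin 5 → K) : pt z 3 = z 0 ^ 2 - z 4 ^ 2 := rfl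



theorem q0 [CharZero K] (z : Fin 5 → K) : eval z (pderiv 0 (fQ a)) =
    2 * z 0 * (eval (pt z) (pderiv 2 (H4 a)) + eval (pt z) (pderiv 3 (H4 a))) := by
  rw [fQe, p2, p3]
  simp [pderiv_X, d5, pt0, pt1, pt2, pt3]
  ring

theorem q4 [CharZero K] (z : Fin 5 → K) : eval z (pderiv 4 (fQ a)) =
    2 * z 4 * (eval (pt z) (pderiv 2 (H4 a)) - eval (pt z) (pderiv 3 (H4 a))) := by
  rw [fQe, p2, p3]
  simp [pderiv_X, d5, pt0, pt1, pt2, pt3]
  ring

theorem q1 [CharZero K] (z : Fin 5 → K) : eval z (pderiv 1 (fQ a)) = eval (pt z) (pderiv 0 (H4 a)) := by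
  rw [fQe, p0]
  simp [pderiv_X, d5, pt0, pt1, pt2, pt3]
  ring

theorem q2 (z : Fin 5 → K) : eval z (pderiv 2 (fQ a)) = eval (pt z) (pderiv 1 (H4 a)) := by
  rw [fQe, p1]
  simp [pderiv_X, d5, pt0, pt1, pt2, pt3]
  ring

theorem q3 (z : Fin 5 → K) : eval z (pderiv 3 (fQ a)) = 5 * z 3 ^ 4 := by
  rw [fQe]
  simp [pderiv_X, d5]

theorem hom [CharZero K] (c : K) (z : Fin 5 → K) (j : Fin 5) :
    eval (fun i => c * z i) (pderiv j (fQ a)) = c ^ 4 * eval z (pderiv j (fQ a)) := by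
  fin_cases j
  · show eval (fun i => c * z i) (pderiv 0 (fQ a)) = c ^ 4 * eval z (pderiv 0 (fQ a))
    rw [q0, q0, p2, p3]
    simp [pt0, pt1, pt2, pt3]
    ring
  · show eval (fun i => c * z i) (pderiv 1 (fQ a)) = c ^ 4 * eval z (pderiv 1 (fQ a))
    rw [q1, q1, p0]
    simp [pt0, pt1, pt2, pt3]
    ring
  · show eval (fun i => c * z i) (pderiv 2 (fQ a)) = c ^ 4 * eval z (pderiv 2 (fQ a))
    rw [q2, q2, p1]
    simp [pt0, pt1, pt2, pt3]
    ring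
  · show eval (fun i => c * z i) (pderiv 3 (fQ a)) = c ^ 4 * eval z (pderiv 3 (fQ a))
    rw [q3, q3]
    ring
  · show eval (fun i => c * z i) (pderiv 4 (fQ a)) = c ^ 4 * eval z (pderiv 4 (fQ a))
    rw [q4, q4, p2, p3]
    simp [pt0, pt1, pt2, pt3]
    ring

/-- all the `rho4` vanish at the point -/
theorem rho0 [CharZero K] (z : Fin 5 → K) (hz : ∀ j, eval z (pderiv j (fQ a)) = 0) (i : Fin 4) : eval (pt z) (rho4 a i) = 0 := by
  have h0 := hz 0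
  have h1 := hz 1
  have h2 := hz 2
  have h4 := hz 4
  rw [q0] at h0
  rw [q1] at h1
  rw [q2] at h2
  rw [q4] at h4
  have two : (2 : K) ≠ 0 := two_ne_zero
  have e1 : z 0 ^ 2 * (eval (pt z) (pderiv 2 (H4 a)) + eval (pt z) (pderiv 3 (H4 a))) = 0 := by
    refine (mul_eq_zero.1 (?_ : (2 : K) * _ = 0)).resolve_left two
    linear_combination z 0 * h0
  have e2 : z 4 ^ 2 * (eval (pt z) (pderiv 2 (H4 a)) - eval (pt z) (pderiv 3 (H4 a))) = 0 := by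
    refine (mul_eq_zero.1 (?_ : (2 : K) * _ = 0)).resolve_left two
    linear_combination z 4 * h4
  have s1 : (z 0 ^ 2 + z 4 ^ 2) * eval (pt z) (pderiv 2 (H4 a)) + (z 0 ^ 2 - z 4 ^ 2) * eval (pt z) (pderiv 3 (H4 a)) = 0 := by
    linear_combination e1 + e2
  have s2 : (z 0 ^ 2 - z 4 ^ 2) * eval (pt z) (pderiv 2 (H4 a)) + (z 0 ^ 2 + z 4 ^ 2) * eval (pt z) (pderiv 3 (H4 a)) = 0 := by
    linear_combination e1 - e2
  fin_cases i
  · show eval (pt z) (C (4 * (a.A⁻¹) ^ 2) * pderiv 0 (H4 a)) = 0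
    rw [map_mul, h1, mul_zero]
  · show eval (pt z) (C (1 / 5) * pderiv 1 (H4 a)) = 0
    rw [map_mul, h2, mul_zero]
  · show eval (pt z) (-(C (1 / 10) * (X 3 * pderiv 2 (H4 a) + X 2 * pderiv 3 (H4 a)))) = 0
    rw [map_neg, map_mul, map_add, map_mul, map_mul, eval_X, eval_X, pt2, pt3, s2, mul_zero, neg_zero]
  · show eval (pt z) (-(C (a.A⁻¹ / 10) * (X 2 * pderiv 2 (H4 a) + X 3 * pderiv 3 (H4 a) - 2 * X 0 * pderiv 0 (H4 a)))) = 0
    rw [map_neg, map_mul, map_sub, map_add, map_mul, map_mul, eval_X, eval_X, pt2, pt3, s1, map_mul, h1, mul_zero, sub_zero,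
      mul_zero, neg_zero]

end pd

section val

variable {K : Type} [Field K] (𝒪 : ValuationSubring K)

/-- evaluation of the reductions -/
theorem ev_lt {g : S4 K} {gz : MvPolynomial (Fin 4) ℤ} (h : Rd 𝒪 g gz) (y : Fin 4 → K) (hy : ∀ i, 𝒪.valuation (y i) ≤ 1) :
    𝒪.valuation (eval y g - eval y (MvPolynomial.map (Int.castRingHom K) gz)) < 1 := by
  rw [← map_sub, eval_eq]
  have key : ∀ m ∈ (g - MvPolynomial.map (Int.castRingHom K) gz).support,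
      𝒪.valuation ((g - MvPolynomial.map (Int.castRingHom K) gz).coeff m * ∏ i ∈ m.support, y i ^ m i) < 1 := by
    intro m _
    rw [map_mul]
    refine mul_lt_one_of_lt_of_le ?_ ?_
    · rw [coeff_sub, coeff_map]
      exact h m
    · rw [map_prod]
      refine Finset.prod_le_one' (fun i _ => ?_)
      rw [map_pow]
      exact pow_le_one' (hy i) _
  exact Valuation.map_sum_lt _ one_ne_zero key

end val

end Smo_aux

open Smo_aux in
theorem tSmo : S_Rh → S_Smo := by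
  intro hR K _ _ a 𝒪 hA z hz
  by_contra hne
  obtain ⟨j, -, hj⟩ := Finset.exists_max_image (Finset.univ : Finset (Fin 5)) (fun i => 𝒪.valuation (z i)) Finset.univ_nonempty
  have hj0 : z j ≠ 0 := by
    intro h0
    apply hne
    funext i
    have h1 := hj i (Finset.mem_univ _)
    simp only [h0, map_zero, le_zero_iff, map_eq_zero] at h1
    exact h1
  have hvj : 𝒪.valuation (z j) ≠ 0 := by
    rw [Ne, map_eq_zero]
    exact hj0
  -- normalization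
  let y : Fin 5 → K := fun i => (z j)⁻¹ * z i
  have hy : ∀ i, eval y (pderiv i (fQ a)) = 0 := by
    intro i
    rw [hom, hz i, mul_zero]
  have hy1 : ∀ i, 𝒪.valuation (y i) ≤ 1 := by
    intro i
    show 𝒪.valuation ((z j)⁻¹ * z i) ≤ 1
    rw [map_mul, map_inv₀]
    have h1 := hj i (Finset.mem_univ _)
    calc (𝒪.valuation (z j))⁻¹ * 𝒪.valuation (z i) ≤ (𝒪.valuation (z j))⁻¹ * 𝒪.valuation (z j) := mul_le_mul_right h1 _
      _ = 1 := inv_mul_cancel₀ hvj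
  have hyj : y j = 1 := inv_mul_cancel₀ hj0
  suffices hall : ∀ i, 𝒪.valuation (y i) < 1 by
    have h1 := hall j
    rw [hyj, map_one] at h1
    exact lt_irrefl _ h1
  have two1 : 𝒪.valuation (2 : K) = 1 := by
    have h := hA.int 2 (by norm_num)
    simpa using h
  -- the coordinates
  have hp : ∀ i, 𝒪.valuation (pt y i) ≤ 1 := by
    have h0 : 𝒪.valuation (y 0 ^ 2) ≤ 1 := by rw [map_pow]; exact pow_le_one' (hy1 0) _
    have h4 : 𝒪.valuation (y 4 ^ 2) ≤ 1 := by rw [map_pow]; exact pow_le_one' (hy1 4) _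
    intro i
    fin_cases i
    · exact hy1 1
    · exact hy1 2
    · exact (Valuation.map_add_le _ h0 h4)
    · exact (Valuation.map_sub_le _ h0 h4)
  obtain ⟨hRd, -, -⟩ := hR K a 𝒪 hA
  have hev : ∀ i, 𝒪.valuation (eval (pt y) (MvPolynomial.map (Int.castRingHom K) (rz4 i))) < 1 := by
    intro i
    have h := ev_lt 𝒪 (hRd i) (pt y) hp
    rw [rho0 a y hy i, zero_sub, Valuation.map_neg] at h
    exact h
  set x' := y 1 with hx'
  set y' := y 2 with hy'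
  set s := y 0 ^ 2 + y 4 ^ 2 with hs
  set v := y 0 ^ 2 - y 4 ^ 2 with hv
  have r0 : 𝒪.valuation (s ^ 2 - v ^ 2) < 1 := by
    have h := hev 0
    have e : eval (pt y) (MvPolynomial.map (Int.castRingHom K) (rz4 0)) = s ^ 2 - v ^ 2 := by
      show eval (pt y) (MvPolynomial.map (Int.castRingHom K) (X 2 ^ 2 - X 3 ^ 2)) = s ^ 2 - v ^ 2
      simp [pt2, pt3, hs, hv]
    rwa [e] at h
  have r1 : 𝒪.valuation (y' ^ 4 - v ^ 2) < 1 := by
    have h := hev 1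
    have e : eval (pt y) (MvPolynomial.map (Int.castRingHom K) (rz4 1)) = y' ^ 4 - v ^ 2 := by
      show eval (pt y) (MvPolynomial.map (Int.castRingHom K) (X 1 ^ 4 - X 3 ^ 2)) = y' ^ 4 - v ^ 2
      simp [pt1, pt3, hv, hy']
    rwa [e] at h
  have r2 : 𝒪.valuation (y' * s * v) < 1 := by
    have h := hev 2
    have e : eval (pt y) (MvPolynomial.map (Int.castRingHom K) (rz4 2)) = y' * s * v := by
      show eval (pt y) (MvPolynomial.map (Int.castRingHom K) (X 1 * X 2 * X 3)) = y' * s * v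
      simp [pt1, pt2, pt3, hv, hy', hs]
    rwa [e] at h
  have r3 : 𝒪.valuation (x' ^ 5) < 1 := by
    have h := hev 3
    have e : eval (pt y) (MvPolynomial.map (Int.castRingHom K) (rz4 3)) = x' ^ 5 := by
      show eval (pt y) (MvPolynomial.map (Int.castRingHom K) (X 0 ^ 5)) = x' ^ 5
      simp [pt0, hx']
    rwa [e] at h
  have plt : ∀ (b : K) (n : ℕ), n ≠ 0 → 𝒪.valuation (b ^ n) < 1 → 𝒪.valuation b < 1 := by
    intro b n hn h
    rw [map_pow] at h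
    by_contra hge
    exact absurd h (not_lt.2 (one_le_pow_of_one_le' (not_lt.1 hge) n))
  have powlt : ∀ (b : K) (n : ℕ), n ≠ 0 → 𝒪.valuation b < 1 → 𝒪.valuation (b ^ n) < 1 := by
    intro b n hn h
    rw [map_pow]
    exact pow_lt_one₀ zero_le h hn
  have hx1 : 𝒪.valuation x' < 1 := plt _ 5 (by norm_num) r3
  have hylt : 𝒪.valuation y' < 1 := by
    by_contra hge
    have hy2 : 𝒪.valuation y' = 1 := le_antisymm (hy1 2) (not_lt.1 hge)
    have hv1 : 𝒪.valuation v = 1 := by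
      refine le_antisymm (hp 3) (not_lt.1 fun hlt => ?_)
      have h1 : 𝒪.valuation (y' ^ 4) < 1 := by
        have e : y' ^ 4 = (y' ^ 4 - v ^ 2) + v ^ 2 := by ring
        rw [e]
        exact Valuation.map_add_lt _ r1 (powlt _ 2 (by norm_num) hlt)
      rw [map_pow, hy2, one_pow] at h1
      exact lt_irrefl _ h1
    have hs1 : 𝒪.valuation s = 1 := by
      refine le_antisymm (hp 2) (not_lt.1 fun hlt => ?_)
      have h1 : 𝒪.valuation (v ^ 2) < 1 := by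
        have e : v ^ 2 = s ^ 2 - (s ^ 2 - v ^ 2) := by ring
        rw [e]
        exact Valuation.map_sub_lt (v := 𝒪.valuation) (powlt _ 2 (by norm_num) hlt) r0
      rw [map_pow, hv1, one_pow] at h1
      exact lt_irrefl _ h1
    rw [map_mul, map_mul, hy2, hs1, hv1] at r2
    simp at r2
  have hvlt : 𝒪.valuation v < 1 := by
    refine plt _ 2 (by norm_num) ?_
    have e : v ^ 2 = y' ^ 4 - (y' ^ 4 - v ^ 2) := by ring
    rw [e]
    exact Valuation.map_sub_lt (v := 𝒪.valuation) (powlt _ 4 (by norm_num) hylt) r1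
  have hslt : 𝒪.valuation s < 1 := by
    refine plt _ 2 (by norm_num) ?_
    have e : s ^ 2 = (s ^ 2 - v ^ 2) + v ^ 2 := by ring
    rw [e]
    exact Valuation.map_add_lt _ r0 (powlt _ 2 (by norm_num) hvlt)
  have h0lt : 𝒪.valuation (y 0) < 1 := by
    refine plt _ 2 (by norm_num) ?_
    have h1 : 𝒪.valuation (2 * y 0 ^ 2) < 1 := by
      have e : 2 * y 0 ^ 2 = s + v := by rw [hs, hv]; ring
      rw [e]
      exact Valuation.map_add_lt _ hslt hvlt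
    rwa [map_mul, two1, one_mul] at h1
  have h4lt : 𝒪.valuation (y 4) < 1 := by
    refine plt _ 2 (by norm_num) ?_
    have h1 : 𝒪.valuation (2 * y 4 ^ 2) < 1 := by
      have e : 2 * y 4 ^ 2 = s - v := by rw [hs, hv]; ring
      rw [e]
      exact Valuation.map_sub_lt (v := 𝒪.valuation) hslt hvlt
    rwa [map_mul, two1, one_mul] at h1
  have h3 : y 3 = 0 := by
    have h := hy 3
    rw [q3] at h
    have h5 : (5 : K) ≠ 0 := by norm_num
    exact pow_eq_zero_iff (by norm_num) |>.1 ((mul_eq_zero.1 h).resolve_left h5)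
  intro i
  fin_cases i
  · exact h0lt
  · exact hx1
  · exact hylt
  · show 𝒪.valuation (y 3) < 1
    rw [h3, map_zero]
    exact zero_lt_one
  · exact h4lt

end Pool.Agent.QV
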