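import Pool.Agent.Lib.MP_b53bfe_ag.Q.SpecA

/-!
# Exchange of the two factors of a matrix factorization
-/

set_option autoImplicit false

noncomputable section

namespace Pool.Agent.QV

open Matrix

namespace Sw_aux

theorem pow_swap {E : Type} [Ring E] {m n : Type} [Fintype m] [DecidableEq m] [Fintype n]
    [DecidableEq n] (X : Matrix m n E) (Y : Matrix n m E) (j : ℕ) :
    (Y * X) ^ (j + 1) = Y * ((X * Y) ^ j * X) := by
  induction j with
  | zero => simp
  | succ j ih =>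
    rw [pow_succ, ih, pow_succ]
    simp only [Matrix.mul_assoc]

end Sw_aux

theorem tSw : S_Comm → S_Sw := by
  intro hC L E _ _ _ C m n _ _ _ _ A B k hk
  obtain ⟨-, -, hmul, hpow, hent, htr⟩ := hC L E C
  obtain ⟨j, rfl⟩ : ∃ j, k = j + 1 := ⟨k - 1, by omega⟩
  have hA := (hent m n A).1
  have hB := (hent n m B).1
  have h1 : C.Ent 2 (C.dm A * C.dm B) := hmul 1 1 m n m _ _ hA hB
  have h2 : C.Ent (2 * j) ((C.dm A * C.dm B) ^ j) := hpow 2 j m _ h1
  have h3 : C.Ent (2 * j + 1) ((C.dm A * C.dm B) ^ j * C.dm A) := hmul (2 * j) 1 m m n _ _ h2 hA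
  have h4 := htr 1 (2 * j + 1) n m (C.dm B) ((C.dm A * C.dm B) ^ j * C.dm A) hB h3
  have h5 : ((-1 : E)) ^ (1 * (2 * j + 1)) = -1 := by
    rw [one_mul, pow_succ, pow_mul]
    simp
  rw [Cal.ch, Cal.ch, Sw_aux.pow_swap, h4, h5, neg_one_mul, Matrix.mul_assoc, ← pow_succ]

end Pool.Agent.QV
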