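import Pool.Agent.Lib.MP_b53bfe_ag.Q.SpecH

/-!
# `Tab`: the reductions of `G_i B2_s`, `G_i B3_s`, `ψ_i`, `ψ'_i`
-/

set_option autoImplicit false

noncomputable section

namespace Pool.Agent.QV

open Matrix
open MvPolynomial TensorProduct

namespace Tab_aux

theorem mono_ex4 {R : Type} [CommSemiring R] (m : Fin 4 → ℕ) (z : R) :
    (monomial (ex4 m) z : MvPolynomial (Fin 4) R) = C z * (X 0 ^ m 0 * X 1 ^ m 1 * X 2 ^ m 2 * X 3 ^ m 3) := by
  rw [monomial_eq, Finsupp.prod_fintype _ _ (by simp), Fin.prod_univ_four]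
  rfl

theorem lbar_mono (b : Fin 4 → ℕ) (m : Fin 4 → ℕ) (z : ℤ) :
    lbar b (monomial (ex4 m) z) = if nf4 m = some b then z else 0 := by
  have h1 : (monomial (ex4 m) z : MvPolynomial (Fin 4) ℤ) = z • (basisMonomials (Fin 4) ℤ) (ex4 m) := by
    rw [coe_basisMonomials, smul_monomial, smul_eq_mul, mul_one]
  have h2 : (⇑(ex4 m) : Fin 4 → ℕ) = m := rfl
  rw [h1, map_smul, lbar, Module.Basis.constr_basis, h2, smul_eq_mul]
  split_ifs <;> simp

variable {K : Type} [Field K] {𝒪 : ValuationSubring K}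

theorem rd_mono (m m' : Fin 4 → ℕ) (z : ℤ) (e : K) (he : 𝒪.valuation e < 1) :
    Rd 𝒪 (monomial (ex4 m) (z : K) + monomial (ex4 m') e) (monomial (ex4 m) z) := by
  classical
  intro n
  rw [coeff_add, coeff_monomial, coeff_monomial, coeff_monomial]
  have h : ((if ex4 m = n then (z : K) else 0) + (if ex4 m' = n then e else 0)) - (((if ex4 m = n then z else 0 : ℤ) : ℤ) : K)
      = if ex4 m' = n then e else 0 := by
    split_ifs <;> simp
  rw [h]
  split_ifs
  · exact he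
  · rw [map_zero]; exact zero_lt_one

/-- the exponents of `R_j` -/
def rE (j : Fin 5) : Fin 4 → ℕ := ![![1, 3, 0, 0], ![2, 0, 1, 0], ![0, 2, 1, 0], ![2, 0, 0, 1], ![0, 0, 0, 2]] j

theorem RR_eq (K : Type) [Field K] (j : Fin 5) : RR K j = monomial (ex4 (rE j)) 1 := by
  rw [mono_ex4]
  fin_cases j <;> simp [RR, rE]

theorem mono_mul {R : Type} [CommSemiring R] (m n : Fin 4 → ℕ) (y z : R) :
    (monomial (ex4 m) y * monomial (ex4 n) z : MvPolynomial (Fin 4) R) = monomial (ex4 (m + n)) (y * z) := by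
  have h : ex4 m + ex4 n = ex4 (m + n) := Finsupp.ext fun _ => rfl
  rw [monomial_mul, h]

/-- the leading exponents of `G_i` -/
def gE (i : Fin 6) : Fin 4 → ℕ := (Fin.cons ![0, 3, 0, 1] (fun j => ![1, 0, 0, 0] + rE j) : Fin 6 → Fin 4 → ℕ) i

/-- the leading coefficients of `G_i` -/
def gC (i : Fin 6) : ℤ := if i = 0 then -10 else 1

theorem GG_eq (a : Par K) (i : Fin 6) :
    GG a i = monomial (ex4 (gE i)) ((gC i : ℤ) : K) + monomial (ex4 ![0, 5, 0, 0]) (if i = 0 then -10 * a.c else 0) := by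
  refine Fin.cases ?_ (fun j => ?_) i
  · have h10 : (C (10 : K) : S4 K) = 10 := map_ofNat _ 10
    rw [mono_ex4, mono_ex4]
    simp [GG, gE, gC, u4, h10]
    ring
  · have h : gC (Fin.succ j) = 1 := if_neg (Fin.succ_ne_zero j)
    rw [h, if_neg (Fin.succ_ne_zero j), map_zero, add_zero]
    have h2 : GG a (Fin.succ j) = X 0 * RR K j := rfl
    have h3 : gE (Fin.succ j) = ![1, 0, 0, 0] + rE j := rfl
    have h4 : (X 0 : S4 K) = monomial (ex4 ![1, 0, 0, 0]) 1 := by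
      rw [mono_ex4]; simp
    rw [h2, h3, RR_eq, h4, mono_mul, mul_one, Int.cast_one]

theorem ps1_eq (a : Par K) (j : Fin 5) :
    ps1 a (Fin.succ j) = monomial (ex4 (![0, 1, 0, 1] + rE j)) (((1 : ℤ) : ℤ) : K) + monomial (ex4 (![0, 3, 0, 0] + rE j)) a.c := by
  have h2 : ps1 a (Fin.succ j) = X 1 * u4 a * RR K j := rfl
  have h4 : (X 1 * u4 a : S4 K) = monomial (ex4 ![0, 1, 0, 1]) 1 + monomial (ex4 ![0, 3, 0, 0]) a.c := by
    rw [mono_ex4, mono_ex4]; simp [u4]; ring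
  rw [h2, h4, RR_eq, add_mul, mono_mul, mono_mul, mul_one, mul_one, Int.cast_one]

theorem ps2_eq (a : Par K) (j : Fin 5) :
    ps2 a (Fin.succ j) = monomial (ex4 (![0, 2, 0, 1] + rE j)) (((1 : ℤ) : ℤ) : K) + monomial (ex4 (![0, 4, 0, 0] + rE j)) a.c := by
  have h2 : ps2 a (Fin.succ j) = X 1 ^ 2 * u4 a * RR K j := rfl
  have h4 : (X 1 ^ 2 * u4 a : S4 K) = monomial (ex4 ![0, 2, 0, 1]) 1 + monomial (ex4 ![0, 4, 0, 0]) a.c := by
    rw [mono_ex4, mono_ex4]; simp [u4]; ring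
  rw [h2, h4, RR_eq, add_mul, mono_mul, mono_mul, mul_one, mul_one, Int.cast_one]

theorem small (a : Par K) (h : Adm a 𝒪) (i : Fin 6) :
    𝒪.valuation (if i = 0 then -10 * a.c else 0) < 1 := by
  split_ifs
  · have h10 : 𝒪.valuation ((-10 : ℤ) : K) = 1 := h.int (-10) (by norm_num)
    have : (-10 : K) = ((-10 : ℤ) : K) := by push_cast; ring
    rw [map_mul, this, h10, one_mul]
    exact h.c
  · rw [map_zero]; exact zero_lt_one

theorem GG_mul (a : Par K) (i : Fin 6) (m : Fin 4 → ℕ) :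
    GG a i * monomial (ex4 m) 1 = monomial (ex4 (gE i + m)) ((gC i : ℤ) : K) +
      monomial (ex4 (![0, 5, 0, 0] + m)) (if i = 0 then -10 * a.c else 0) := by
  rw [GG_eq, add_mul, mono_mul, mono_mul, mul_one, mul_one]

theorem chk1 : ∀ (i : Fin 6) (s : Fin 5) (b : Fin 14),
    (if nf4 (gE i + B2l s) = some (B7l b) then gC i else 0) = alz i b s := by
  decide +kernel

theorem chk2 : ∀ (i : Fin 6) (s : Fin 8) (b : Fin 12),
    (if nf4 (gE i + B3l s) = some (B8l b) then gC i else 0) = bez i b s := by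
  decide +kernel

theorem chk3 : ∀ (j : Fin 5) (b : Fin 14),
    (if nf4 (![0, 1, 0, 1] + rE j) = some (B7l b) then (1 : ℤ) else 0) =
      if (Fin.succ j = 1 ∧ b = 12) ∨ (Fin.succ j = 4 ∧ b = 2) then 1 else 0 := by
  decide +kernel

theorem chk4 : ∀ (j : Fin 5) (b : Fin 12),
    (if nf4 (![0, 2, 0, 1] + rE j) = some (B8l b) then (1 : ℤ) else 0) =
      if Fin.succ j = 4 ∧ b = 2 then 1 else 0 := by
  decide +kernel

theorem rd_zero : Rd 𝒪 (0 : S4 K) 0 := by
  intro m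
  rw [coeff_zero, coeff_zero, Int.cast_zero, sub_zero, map_zero]
  exact zero_lt_one

end Tab_aux

open Tab_aux in
theorem tTab : S_Tab := by
  intro K _ _ a 𝒪 h
  refine ⟨fun i s => ⟨monomial (ex4 (gE i + B2l s)) (gC i), ?_, fun b => ?_⟩,
    fun i s => ⟨monomial (ex4 (gE i + B3l s)) (gC i), ?_, fun b => ?_⟩, fun i => ?_, fun i => ?_⟩
  · rw [GG_mul]
    exact rd_mono _ _ _ _ (small a h i)
  · rw [lbar_mono]
    exact chk1 i s b
  · rw [GG_mul]
    exact rd_mono _ _ _ _ (small a h i)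
  · rw [lbar_mono]
    exact chk2 i s b
  · refine Fin.cases ⟨0, rd_zero, fun b => ?_⟩ (fun j => ⟨monomial (ex4 (![0, 1, 0, 1] + rE j)) 1, ?_, fun b => ?_⟩) i
    · rw [map_zero, if_neg]
      rintro (⟨h1, -⟩ | ⟨h1, -⟩) <;> exact absurd h1 (by decide)
    · rw [ps1_eq]
      exact rd_mono _ _ _ _ h.c
    · rw [lbar_mono]
      exact chk3 j b
  · refine Fin.cases ⟨0, rd_zero, fun b => ?_⟩ (fun j => ⟨monomial (ex4 (![0, 2, 0, 1] + rE j)) 1, ?_, fun b => ?_⟩) i
    · rw [map_zero, if_neg]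
      rintro ⟨h1, -⟩
      exact absurd h1 (by decide)
    · rw [ps2_eq]
      exact rd_mono _ _ _ _ h.c
    · rw [lbar_mono]
      exact chk4 j b

end Pool.Agent.QV
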