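import Pool.Agent.Lib.MP_b53bfe_ag.Q.SpecB

/-!
# Voisin's question for quintic threefolds: module Tis (helper56)
-/

set_option autoImplicit false

noncomputable section

namespace Pool.Agent.QV

open Matrix

theorem tTis : S_Tis := by
  intro P _ W θ V _ Φ M N _ _ _ _ g _ hM hN hkM hkN hker hsurj
  have h1 : Φ.f M = Φ.f (LinearMap.ker g) + Φ.f (LinearMap.range g) := by
    refine Φ.add (LinearMap.ker g) M (LinearMap.range g) (LinearMap.ker g).subtype g.rangeRestrict hM hkM
      (Submodule.injective_subtype _) (LinearMap.surjective_rangeRestrict g) ?_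
    intro x
    constructor
    · intro hx
      refine ⟨⟨x, ?_⟩, rfl⟩
      rw [LinearMap.mem_ker]
      have := congrArg Subtype.val hx
      simpa using this
    · rintro ⟨y, rfl⟩
      apply Subtype.ext
      simp
  have h2 : Φ.f N = Φ.f (LinearMap.range g) + Φ.f (N ⧸ LinearMap.range g) := by
    refine Φ.add (LinearMap.range g) N (N ⧸ LinearMap.range g) (LinearMap.range g).subtype
      (LinearMap.range g).mkQ hN hkN (Submodule.injective_subtype _) (Submodule.mkQ_surjective _) ?_
    intro x
    constructor
    · intro hx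
      have hx' : x ∈ LinearMap.range g := by
        rw [← Submodule.Quotient.mk_eq_zero]; simpa using hx
      exact ⟨⟨x, hx'⟩, rfl⟩
    · rintro ⟨y, rfl⟩
      simp
  have h3 : Φ.f (LinearMap.ker g) = 0 := by
    refine Φ.tors (LinearMap.ker g) ?_ ?_
    · intro m
      apply Subtype.ext
      simpa using hkM m
    · intro m
      obtain ⟨k, hk⟩ := hker m (LinearMap.mem_ker.mp m.2)
      refine ⟨k, ?_⟩
      apply Subtype.ext
      simpa using hk
  have h4 : Φ.f (N ⧸ LinearMap.range g) = 0 := by
    refine Φ.tors (N ⧸ LinearMap.range g) ?_ ?_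
    · intro m
      obtain ⟨n, rfl⟩ := Submodule.mkQ_surjective _ m
      rw [← map_smul, hkN n, map_zero]
    · intro m
      obtain ⟨n, rfl⟩ := Submodule.mkQ_surjective _ m
      obtain ⟨k, m', hm⟩ := hsurj n
      refine ⟨k, ?_⟩
      rw [← map_smul, hm, Submodule.mkQ_apply, Submodule.Quotient.mk_eq_zero]
      exact LinearMap.mem_range_self g m'
  rw [h1, h2, h3, h4, zero_add, add_zero]

end Pool.Agent.QV
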