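import Pool.Agent.Lib.MP_b53bfe_ag.Q.SpecB
import Pool.Agent.Lib.MP_b53bfe_ag.Q.Bas

/-!
# Torsion modules: `tTor`
-/

set_option autoImplicit false

noncomputable section

namespace Pool.Agent.QV

open Matrix

namespace Tor_aux

/-- `χ` is zero on the finite modules killed by `W` and by `a` -/
def Van {P : Type} [CommRing P] {W : P} {V : Type} [AddCommGroup V] (χ : AF P W V) (a : P) : Prop :=
  ∀ (M : Type) [AddCommGroup M] [Module P M], Module.Finite P M → KW W M → (∀ m : M, a • m = 0) → χ.f M = 0

variable {P : Type} [CommRing P] {W : P} {V : Type} [AddCommGroup V] {χ : AF P W V}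

theorem one : Van χ (1 : P) := fun M _ _ _ _ h1 =>
  χ.subsing ⟨fun x y => by rw [← one_smul P x, ← one_smul P y, h1, h1]⟩

theorem mul (hP : IsNoetherianRing P) {a b : P} (ha : Van χ a) (hb : Van χ b) : Van χ (a * b) := fun M _ _ hM hk h => by
  have hN : IsNoetherian P M := isNoetherian_of_isNoetherianRing_of_finite P M
  rw [χ.sub hM hk (LinearMap.range (LinearMap.lsmul P M a)), hb _ (Module.Finite.of_fg (IsNoetherian.noetherian _))
    (hk.of_inj (Submodule.subtype _) (Submodule.injective_subtype _)), ha _ inferInstance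
    (hk.of_surj (Submodule.mkQ _) (Submodule.mkQ_surjective _)), add_zero]
  · intro m
    obtain ⟨x, rfl⟩ := Submodule.Quotient.mk_surjective _ m
    rw [← Submodule.Quotient.mk_smul, Submodule.Quotient.mk_eq_zero]
    exact ⟨x, rfl⟩
  · rintro ⟨m, x, rfl⟩
    refine Subtype.ext ?_
    change b • a • x = 0
    rw [smul_smul, mul_comm, h]

theorem pow (hP : IsNoetherianRing P) {a : P} (ha : Van χ a) (k : ℕ) : Van χ (a ^ k) := by
  induction k with
  | zero => rw [pow_zero]; exact one
  | succ k ih => rw [pow_succ]; exact mul hP ih ha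

theorem list (hP : IsNoetherianRing P) (l : List P) (hl : ∀ s ∈ l, Van χ s) : Van χ l.prod := by
  induction l with
  | nil => rw [List.prod_nil]; exact one
  | cons s l ih =>
    rw [List.prod_cons]
    exact mul hP (hl s List.mem_cons_self) (ih fun t ht => hl t (List.mem_cons_of_mem s ht))

end Tor_aux

theorem tTor : S_Tor := fun _ _ _ _ _ _ l hP hl M _ _ hM hk ⟨k, hkm⟩ =>
  Tor_aux.pow hP (Tor_aux.list hP l hl) k M hM hk hkm

end Pool.Agent.QV
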