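import Pool.Agent.Lib.MP_b53bfe_ag.Q.SpecA

/-!
# Block triangular matrices
-/

set_option autoImplicit false

noncomputable section

namespace Pool.Agent.QV

open Matrix

namespace Tri_aux

variable {L E : Type} [CommRing L] [Ring E] [Algebra L E] (C : Cal L E)

lemma d_zero : C.d 0 = 0 := by
  have h := C.add 0 0
  rw [add_zero] at h
  exact left_eq_add.mp h

lemma d_one : C.d 1 = 0 := by
  have h := C.mul 1 1
  rw [mul_one, one_smul] at h
  exact left_eq_add.mp h

lemma dm_zero (m n : Type) : C.dm (0 : Matrix m n L) = 0 := by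
  ext i j
  simp [Cal.dm, d_zero]

lemma dm_one (m : Type) [DecidableEq m] : C.dm (1 : Matrix m m L) = 0 := by
  ext i j
  by_cases h : i = j
  · subst h
    simp [Cal.dm, d_one]
  · simp [Cal.dm, d_zero, Matrix.one_apply_ne h]

lemma dm_blocks {m n p q : Type} (A : Matrix m p L) (B : Matrix m q L) (A' : Matrix n p L)
    (B' : Matrix n q L) :
    C.dm (fromBlocks A B A' B') = fromBlocks (C.dm A) (C.dm B) (C.dm A') (C.dm B') := by
  unfold Cal.dm
  exact Matrix.fromBlocks_map A B A' B' C.d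

lemma pow_blocks {m n : Type} [Fintype m] [DecidableEq m] [Fintype n] [DecidableEq n]
    (P : Matrix m m E) (Q : Matrix m n E) (R : Matrix n n E) (k : ℕ) :
    ∃ Q' : Matrix m n E, (fromBlocks P Q 0 R) ^ k = fromBlocks (P ^ k) Q' 0 (R ^ k) := by
  induction k with
  | zero => exact ⟨0, by simp⟩
  | succ k ih =>
    obtain ⟨Q', h⟩ := ih
    refine ⟨P ^ k * Q + Q' * R, ?_⟩
    rw [pow_succ, h, Matrix.fromBlocks_multiply, pow_succ, pow_succ]
    simp

lemma pow_submatrix {m n : Type} [Fintype m] [DecidableEq m] [Fintype n] [DecidableEq n]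
    (e : n ≃ m) (M : Matrix m m E) (k : ℕ) :
    (M.submatrix e e) ^ k = (M ^ k).submatrix e e := by
  induction k with
  | zero => rw [pow_zero, pow_zero, Matrix.submatrix_one_equiv]
  | succ k ih => rw [pow_succ, ih, pow_succ, Matrix.submatrix_mul_equiv]

end Tri_aux

open Tri_aux in
theorem tTri : S_Tri := by
  intro L E _ _ _ C m n _ _ _ _ k
  refine ⟨?_, ?_, ?_⟩
  · intro A₁ B₁ A₂ B₂ X Y
    unfold Cal.ch
    rw [dm_blocks, dm_blocks, dm_zero, Matrix.fromBlocks_multiply]
    simp only [Matrix.mul_zero, Matrix.zero_mul, add_zero, zero_add]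
    obtain ⟨Q', h⟩ := pow_blocks (C.dm A₁ * C.dm B₁) (C.dm A₁ * C.dm Y + C.dm X * C.dm B₂)
      (C.dm A₂ * C.dm B₂) k
    rw [h]
    simp [Matrix.trace, Fintype.sum_sum_type]
  · intro e A B
    unfold Cal.ch
    have h1 : ∀ M : Matrix m m L, C.dm (M.reindex e e) = (C.dm M).submatrix e.symm e.symm :=
      fun M => rfl
    rw [h1, h1, Matrix.submatrix_mul_equiv, pow_submatrix]
    simp only [Matrix.trace, Matrix.diag, Matrix.submatrix_apply]
    exact Equiv.sum_comp e.symm (fun j => ((C.dm A * C.dm B) ^ k) j j)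
  · intro W hk
    unfold Cal.ch
    rw [dm_one]
    have hk0 : k ≠ 0 := by omega
    constructor
    · rw [Matrix.zero_mul, zero_pow hk0, Matrix.trace_zero]
    · rw [Matrix.mul_zero, zero_pow hk0, Matrix.trace_zero]

end Pool.Agent.QV
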