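import Pool.Agent.Lib.MP_b53bfe_ag.Q.SpecG

/-!
# b53bfe Q/Un: units of the target ring
-/

set_option autoImplicit false

noncomputable section

namespace Pool.Agent.QV

open MvPolynomial TensorProduct
open Pool.Agent.FY (Res)

namespace Un_aux

theorem one_le_wtv (v : Fin 3 × Fin 5) : 1 ≤ wtv v := by
  obtain ⟨i, j⟩ := v
  unfold wtv
  split_ifs
  · fin_cases j <;> simp
  · exact le_refl 1

theorem degree_le_wtm (m : (Fin 3 × Fin 5) →₀ ℕ) : m.degree ≤ wtm m := by
  unfold wtm
  rw [Finsupp.degree_eq_sum]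
  refine Finset.sum_le_sum fun v _ => ?_
  have h := one_le_wtv v
  nlinarith [Nat.zero_le (m v)]

theorem mem_JL {K : Type} [Field K] (a : Par K) (b : PP K) (hb : ∀ m ∈ b.support, 27 ≤ wtm m) : b ∈ JL a := by
  rw [b.as_sum]
  refine Ideal.sum_mem _ fun m hm => ?_
  have h1 : monomial m (b.coeff m) = C (b.coeff m) * (monomial m 1 : PP K) := by
    rw [C_mul_monomial, mul_one]
  rw [h1]
  refine Ideal.mul_mem_left _ _ (Ideal.subset_span (Or.inr ⟨m, hb m hm, rfl⟩))

theorem pow_supp {K : Type} [Field K] (n : PP K) (hn : constantCoeff n = 0) (k : ℕ) :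
    ∀ m ∈ (n ^ k).support, k ≤ wtm m := by
  have h1 : n ∈ idealOfVars (Fin 3 × Fin 5) K ^ 1 := by
    rw [mem_pow_idealOfVars_iff]
    intro m hm
    rw [Nat.one_le_iff_ne_zero]
    intro h0
    rw [Finsupp.degree_eq_zero_iff] at h0
    subst h0
    rw [mem_support_iff] at hm
    exact hm hn
  rw [pow_one] at h1
  have h2 : n ^ k ∈ idealOfVars (Fin 3 × Fin 5) K ^ k := Ideal.pow_mem_pow h1 k
  rw [mem_pow_idealOfVars_iff] at h2
  exact fun m hm => (h2 m hm).trans (degree_le_wtm m)

theorem pow_mem_JL {K : Type} [Field K] (a : Par K) (n : PP K) (hn : constantCoeff n = 0) : n ^ 27 ∈ JL a :=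
  mem_JL a _ (pow_supp n hn 27)

end Un_aux

open Un_aux

theorem tUn : S_Un := by
  intro K _ a b hb
  have hn : constantCoeff (b - C (constantCoeff b)) = 0 := by
    rw [map_sub, constantCoeff_C, sub_self]
  have h27 := pow_mem_JL a _ hn
  have hnil : IsNilpotent (algebraMap (PP K) (Lb a) (b - C (constantCoeff b))) := by
    refine ⟨27, ?_⟩
    rw [← map_pow]
    exact Ideal.Quotient.eq_zero_iff_mem.mpr h27
  have hu : IsUnit (algebraMap (PP K) (Lb a) (C (constantCoeff b))) :=
    ((isUnit_iff_ne_zero.mpr hb).map C).map (algebraMap (PP K) (Lb a))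
  have h3 : algebraMap (PP K) (Lb a) b = algebraMap (PP K) (Lb a) (C (constantCoeff b)) +
      algebraMap (PP K) (Lb a) (b - C (constantCoeff b)) := by
    rw [← map_add, add_sub_cancel]
  rw [h3]
  exact hnil.isUnit_add_left_of_commute hu (Commute.all _ _)

end Pool.Agent.QV
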