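import Pool.Agent.Lib.MP_b53bfe_ag.Q.SpecA
import Pool.Agent.Lib.MP_b53bfe_ag.Q.Bas

/-!
# Module `Uni`: an additive function which is zero on all matrix factorizations is zero
-/

set_option autoImplicit false

noncomputable section

namespace Pool.Agent.QV

open Matrix

namespace Uni_aux

/-- a finite module killed by `W` is a quotient of some `(L/W)^n` -/
theorem exists_surj (L : Type) [CommRing L] (W : L) (M : Type) [AddCommGroup M] [Module L M] (hfin : Module.Finite L M)
    (hk : KW W M) : ∃ (n : ℕ) (q : (Fin n → L ⧸ Ideal.span {W}) →ₗ[L] M), Function.Surjective q := by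
  obtain ⟨n, q, hq⟩ := Module.Finite.exists_fin' L M
  let p : (Fin n → L) →ₗ[L] (Fin n → L ⧸ Ideal.span {W}) :=
    (Submodule.mkQ (Ideal.span {W})).compLeft (Fin n)
  have hp : Function.Surjective p := by
    intro y
    choose x hx using fun i => Submodule.mkQ_surjective (Ideal.span {W}) (y i)
    exact ⟨x, funext hx⟩
  have hker : LinearMap.ker p ≤ LinearMap.ker q := by
    intro x hx
    rw [LinearMap.mem_ker] at hx ⊢
    have h1 : ∀ i, ∃ y, x i = W * y := by
      intro i
      have h2 : (Submodule.mkQ (Ideal.span {W})) (x i) = 0 := congrFun hx i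
      rw [Submodule.mkQ_apply, Submodule.Quotient.mk_eq_zero, Ideal.mem_span_singleton'] at h2
      obtain ⟨a, ha⟩ := h2
      exact ⟨a, by rw [← ha, mul_comm]⟩
    choose y hy using h1
    have h3 : x = W • y := funext fun i => by rw [Pi.smul_apply, smul_eq_mul, hy i]
    rw [h3, map_smul]
    exact hk _
  refine ⟨n, ((LinearMap.ker p).liftQ q hker).comp (p.quotKerEquivOfSurjective hp).symm.toLinearMap, ?_⟩
  intro m
  obtain ⟨x, rfl⟩ := hq m
  refine ⟨p x, ?_⟩
  have h4 : (p.quotKerEquivOfSurjective hp).symm (p x) = Submodule.Quotient.mk x := by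
    rw [LinearEquiv.symm_apply_eq]
    rfl
  simp only [LinearMap.comp_apply, LinearEquiv.coe_coe, h4]
  exact Submodule.liftQ_apply _ _ _

end Uni_aux

open Uni_aux in
theorem tUni : S_Pd → S_Ckb → S_Ex → S_Uni := by
  intro hPd hCkb hEx L _ W V _ χ hL hW hmf M _ _ hfin hk
  have := hL.dom
  have := hL.loc
  have := hL.noe
  have hreg : ∀ x : L, W * x = 0 → x = 0 := fun x hx => (mul_eq_zero.1 hx).resolve_left hW
  obtain ⟨hC1, hC2, ⟨eC⟩⟩ := hCkb L W hreg
  obtain ⟨hP1, hP2, hP3, hP4⟩ := hPd L
  have hMF1 : IsMF W (W • (1 : Matrix (Fin 1) (Fin 1) L)) (1 : Matrix (Fin 1) (Fin 1) L) :=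
    ⟨by rw [mul_one], by rw [one_mul]⟩
  have hLW : χ.f (L ⧸ Ideal.span {W}) = 0 := by
    obtain ⟨h1, h2, _, _⟩ := hC1 (Fin 1) _ _ hMF1
    rw [← χ.iso eC h1 h2]
    exact hmf (Fin 1) _ _ hMF1
  have key : ∀ j : ℕ, 1 ≤ j → ∀ (N : Type) [AddCommGroup N] [Module L N], Module.Finite L N → KW W N → PD L j N →
      χ.f N = 0 := by
    intro j hj
    induction j, hj using Nat.le_induction with
    | base =>
      intro N _ _ hf hkN hpd
      obtain ⟨n, A, B, hAB, ⟨e⟩⟩ := hEx L hL.dom hL.loc hL.noe W N hW hf hkN hpd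
      rw [χ.iso e hf hkN]
      exact hmf (Fin n) A B hAB
    | succ j hj ih =>
      intro N _ _ hf hkN hpd
      obtain ⟨n, q, hq⟩ := exists_surj L W N hf hkN
      have hkF : KW W (Fin n → L ⧸ Ideal.span {W}) :=
        (KW.quot (Ideal.span {W}) (Ideal.mem_span_singleton_self W)).pi _
      have hexact : Function.Exact (LinearMap.ker q).subtype q := LinearMap.exact_subtype_ker_map q
      have hK : PD L j (LinearMap.ker q) :=
        (hP1 j (LinearMap.ker q) (Fin n → L ⧸ Ideal.span {W}) N (LinearMap.ker q).subtype q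
          (LinearMap.ker q).injective_subtype hq hexact).2.1 (hP3 1 j _ hj (hC2 n)) hpd
      have hadd := χ.add (LinearMap.ker q) (Fin n → L ⧸ Ideal.span {W}) N (LinearMap.ker q).subtype q inferInstance hkF
        (LinearMap.ker q).injective_subtype hq hexact
      have hF : χ.f (Fin n → L ⧸ Ideal.span {W}) = 0 := by
        rw [χ.pi inferInstance (KW.quot (Ideal.span {W}) (Ideal.mem_span_singleton_self W)) n, hLW, smul_zero]
      have hKz : χ.f (LinearMap.ker q) = 0 :=
        ih (LinearMap.ker q) inferInstance (hkF.of_inj (LinearMap.ker q).subtype (LinearMap.ker q).injective_subtype) hK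
      rw [hF, hKz, zero_add] at hadd
      exact hadd.symm
  obtain ⟨j, hj⟩ := hL.gd
  exact key (max j 1) (le_max_right _ _) M hfin hk (hP3 j (max j 1) M (le_max_left _ _) (hj M))

end Pool.Agent.QV
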