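import Pool.Agent.Lib.MP_b53bfe_ag.Q.SpecP

/-!
b53bfe Q/Val: a valuation ring (spec Q/SpecP, S_Val; helper28)
-/

set_option autoImplicit false

noncomputable section

namespace Pool.Agent.QV

open Matrix
open MvPolynomial
open Pool.Agent.FY (Res)

theorem tVal : S_Val := by
  intro K _ _ _ p hp
  set φ : MvPolynomial (Fin 7) ℚ →ₐ[ℚ] K := aeval p with hφ
  have hinj : Function.Injective φ := hp
  set A : Subring K := φ.toRingHom.range with hA
  have hpA : ∀ i, p i ∈ A := fun i => ⟨X i, by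
    show φ (X i) = p i
    rw [hφ, aeval_X]⟩
  have hq : ∀ q : ℚ, algebraMap ℚ K q ∈ A := fun q => ⟨C q, by
    show φ (C q) = _
    rw [hφ, aeval_C]⟩
  set I : Ideal A := Ideal.span (Set.range fun i => (⟨p i, hpA i⟩ : A)) with hI
  -- the constant coefficient
  have hcc : ∀ a : A, a ∈ I → ∀ P : MvPolynomial (Fin 7) ℚ, φ P = (a : K) → constantCoeff P = 0 := by
    intro a ha
    refine Submodule.span_induction ?_ ?_ ?_ ?_ ha
    · rintro _ ⟨i, rfl⟩ P hP
      have h1 : P = X i := hinj (by rw [hP, hφ, aeval_X])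
      rw [h1, constantCoeff_X]
    · intro P hP
      have h1 : P = 0 := hinj (by rw [hP, map_zero]; rfl)
      rw [h1, map_zero]
    · intro x y _ _ hx hy P hP
      obtain ⟨Px, hPx⟩ := x.2
      obtain ⟨Py, hPy⟩ := y.2
      have hPx' : φ Px = (x : K) := hPx
      have hPy' : φ Py = (y : K) := hPy
      have h1 : P = Px + Py := hinj (by rw [hP, map_add, hPx', hPy']; rfl)
      rw [h1, map_add, hx Px hPx', hy Py hPy', add_zero]
    · intro b x _ hx P hP
      obtain ⟨Pb, hPb⟩ := b.2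
      obtain ⟨Px, hPx⟩ := x.2
      have hPb' : φ Pb = (b : K) := hPb
      have hPx' : φ Px = (x : K) := hPx
      have h1 : P = Pb * Px := hinj (by rw [hP, map_mul, hPb', hPx']; rfl)
      rw [h1, map_mul, hx Px hPx', mul_zero]
  have hI1 : I ≠ ⊤ := by
    intro h
    have h1 : (1 : A) ∈ I := by rw [h]; exact Submodule.mem_top
    have h2 := hcc 1 h1 1 (by rw [map_one]; rfl)
    rw [map_one] at h2
    exact one_ne_zero h2
  obtain ⟨B, hB1, hB2⟩ := Ideal.image_subset_nonunits_valuationSubring I hI1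
  refine ⟨B, fun i => ?_, fun n hn => ?_⟩
  · have h1 : p i ∈ B.nonunits := hB2 ⟨⟨p i, hpA i⟩, Ideal.subset_span ⟨i, rfl⟩, rfl⟩
    exact (ValuationSubring.mem_nonunits_iff B).1 h1
  · have hnK : (n : K) ≠ 0 := Int.cast_ne_zero.2 hn
    have h1 : (n : K) ∈ B := hB1 (by
      have := hq (n : ℚ)
      rwa [map_intCast] at this)
    have h2 : (n : K)⁻¹ ∈ B := hB1 (by
      have := hq ((n : ℚ)⁻¹)
      rwa [map_inv₀, map_intCast] at this)
    have h3 := (B.valuation_le_one_iff _).2 h1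
    have h4 := (B.valuation_le_one_iff _).2 h2
    rw [map_inv₀] at h4
    refine le_antisymm h3 ?_
    have h5 : B.valuation (n : K) ≠ 0 := (Valuation.ne_zero_iff _).2 hnK
    exact (inv_le_one₀ (zero_lt_iff.2 h5)).1 h4

end Pool.Agent.QV
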