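import Pool.Agent.Lib.MP_b53bfe_ag.Q.SpecE

/-!
# Disproof of Q1 of MP_b53bfe_ag for quintic threefolds: shape of the potential
-/

set_option autoImplicit false

noncomputable section

namespace Pool.Agent.QV

open Matrix
open MvPolynomial
open Pool.Agent.FY (Res)

namespace Wv_aux

variable {K : Type} [Field K]

/-- the point with `X = Z = 1` and all other coordinates `0` -/
def pt (K : Type) [Field K] : Fin 3 × Fin 5 → K := fun u => if u = (0, 0) ∨ u = (0, 1) then 1 else 0

/-- the substitution `X_v ↦ 0` -/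
def kl (K : Type) [Field K] (v : Fin 3 × Fin 5) : PP K →ₐ[K] MvPolynomial {u : Fin 3 × Fin 5 // u ≠ v} K :=
  aeval fun u => if h : u ≠ v then X ⟨u, h⟩ else 0

lemma ren_kl_X (v u : Fin 3 × Fin 5) :
    (rename Subtype.val : MvPolynomial {u : Fin 3 × Fin 5 // u ≠ v} K →ₐ[K] PP K) (kl K v (X u)) =
      if u = v then 0 else X u := by
  unfold kl
  rw [aeval_X]
  by_cases h : u = v
  · simp [h]
  · simp [h]

lemma ren_kl (v : Fin 3 × Fin 5) :
    (rename Subtype.val : MvPolynomial {u : Fin 3 × Fin 5 // u ≠ v} K →ₐ[K] PP K).comp (kl K v) =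
      (aeval fun u => if u = v then 0 else X u) := by
  apply MvPolynomial.algHom_ext
  intro u
  rw [AlgHom.comp_apply, ren_kl_X, aeval_X]

lemma ren_kl_apply (v : Fin 3 × Fin 5) (f : PP K) :
    (rename Subtype.val : MvPolynomial {u : Fin 3 × Fin 5 // u ≠ v} K →ₐ[K] PP K) (kl K v f) =
      (aeval fun u => if u = v then (0 : PP K) else X u) f := by
  rw [← ren_kl, AlgHom.comp_apply]

lemma map_WW (a : Par K) {B : Type} [CommRing B] [Algebra K B] (φ : PP K →ₐ[K] B) :
    φ (WW a) = φ (X (0, 0)) * φ (X (0, 1)) + φ (X (0, 3)) ^ 5 + φ (X (0, 2)) ^ 5 - 5 * φ (X (0, 2)) * φ (X (0, 4)) ^ 2 +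
      ff a (φ (X (1, 0))) (φ (X (1, 1))) (φ (X (1, 2))) (φ (X (1, 3))) (φ (X (1, 4))) +
      ff a (φ (X (2, 0))) (φ (X (2, 1))) (φ (X (2, 2))) (φ (X (2, 3))) (φ (X (2, 4))) := by
  have h5 : φ 5 = 5 := map_ofNat φ 5
  simp [WW, fS, ff, Rf, Rj, uf, Fin.sum_univ_five, h5]

lemma ff_zero (a : Par K) (B : Type) [CommRing B] [Algebra K B] : ff a (0 : B) 0 0 0 0 = 0 := by
  simp [ff, Rf, Rj, uf]

lemma eval_ne (a : Par K) {B : Type} [CommRing B] [Algebra K B] (φ : PP K →ₐ[K] B)
    (h00 : φ (X (0, 0)) = 1) (h01 : φ (X (0, 1)) = 1)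
    (h02 : φ (X (0, 2)) = 0) (h03 : φ (X (0, 3)) = 0)
    (h1 : ∀ j, φ (X (1, j)) = 0) (h2 : ∀ j, φ (X (2, j)) = 0) : φ (WW a) = 1 := by
  rw [map_WW, h00, h01, h02, h03]
  simp only [h1, h2, ff_zero]
  ring

end Wv_aux

open Wv_aux in
theorem tWv : S_Wv := by
  intro K _ _ a
  have h1 : (aeval (pt K) : PP K →ₐ[K] K) (WW a) = 1 := by
    apply eval_ne
    all_goals simp [pt]
  refine ⟨?_, ?_⟩
  · intro h0
    rw [h0, map_zero] at h1
    exact zero_ne_one h1
  · intro i
    refine ⟨kl K (i, 3) (WW a), ?_, ?_⟩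
    · intro h0
      have h2 : ((aeval (pt K) : PP K →ₐ[K] K).comp (aeval fun u => if u = (i, 3) then (0 : PP K) else X u)) (WW a) = 1 := by
        apply eval_ne
        · fin_cases i <;> simp [pt]
        · fin_cases i <;> simp [pt]
        · fin_cases i <;> simp [pt]
        · fin_cases i <;> simp [pt]
        · intro j
          rw [AlgHom.comp_apply, aeval_X]
          by_cases h : ((1, j) : Fin 3 × Fin 5) = (i, 3)
          · rw [if_pos h, map_zero]
          · rw [if_neg h]
            simp [pt]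
        · intro j
          rw [AlgHom.comp_apply, aeval_X]
          by_cases h : ((2, j) : Fin 3 × Fin 5) = (i, 3)
          · rw [if_pos h, map_zero]
          · rw [if_neg h]
            simp [pt]
      rw [AlgHom.comp_apply, ← ren_kl_apply, h0, map_zero, map_zero] at h2
      exact zero_ne_one h2
    · rw [ren_kl_apply, map_WW]
      simp only [aeval_X]
      fin_cases i
      · simp (decide := true) only [WW, fS, ff, Fin.zero_eta, if_true, if_false]
        ring
      · simp (decide := true) only [WW, fS, ff, Fin.mk_one, if_true, if_false]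
        ring
      · simp (decide := true) only [WW, fS, ff, Fin.reduceFinMk, if_true, if_false]
        ring

end Pool.Agent.QV

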