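import Pool.Agent.Lib.MP_b53bfe_ag.Q.SpecG

/-!
# Disproof of Q1 of MP_b53bfe_ag for quintic threefolds: module X1 (semilinearity of the extraction map)
-/

set_option autoImplicit false

noncomputable section

namespace Pool.Agent.QV

open Matrix
open MvPolynomial TensorProduct
open Pool.Agent.FY (Res)

namespace X1_aux

variable {K : Type} [Field K]

/-- the value on a monomial -/
theorem Xt_mon (m : (Fin 3 × Fin 5) →₀ ℕ) [Decidable (mok m)] :
    Xt K (monomial m 1) = if mok m then rowm K m 1 ⊗ₜ[K] rowm K m 2 else 0 := by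
  have h := (basisMonomials (Fin 3 × Fin 5) K).constr_basis K
    (f := fun m => haveI := Classical.propDecidable (mok m); if mok m then rowm K m 1 ⊗ₜ[K] rowm K m 2 else 0) m
  rw [coe_basisMonomials] at h
  unfold Xt
  convert h

/-- shift of the exponents -/
theorem shift (D : (Fin 3 × Fin 5) →₀ ℕ) (P Q : S4 K)
    (h0 : ∀ m, mok (D + m) ↔ mok m)
    (h1 : ∀ m, mok m → rowm K (D + m) 1 = P * rowm K m 1)
    (h2 : ∀ m, mok m → rowm K (D + m) 2 = Q * rowm K m 2) (F : PP K) :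
    Xt K (monomial D 1 * F) = (P ⊗ₜ[K] Q) * Xt K F := by
  classical
  have key : Xt K ∘ₗ LinearMap.mulLeft K (monomial D (1 : K)) = LinearMap.mulLeft K (P ⊗ₜ[K] Q) ∘ₗ Xt K := by
    refine (basisMonomials (Fin 3 × Fin 5) K).ext fun m => ?_
    rw [coe_basisMonomials]
    simp only [LinearMap.comp_apply, LinearMap.mulLeft_apply]
    rw [monomial_mul, one_mul, Xt_mon, Xt_mon]
    by_cases hm : mok m
    · rw [if_pos hm, if_pos ((h0 m).2 hm), h1 m hm, h2 m hm, Algebra.TensorProduct.tmul_mul_tmul]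
    · rw [if_neg hm, if_neg (fun h => hm ((h0 m).1 h)), mul_zero]
  exact LinearMap.congr_fun key F

/-- the variable `x₁` of the row `r` -/
theorem s1 (r : Fin 3) (hr : r = 1 ∨ r = 2) (F : PP K) :
    Xt K (X (r, 1) * F) = ((if r = 1 then (X 0 : S4 K) else 1) ⊗ₜ[K] (if r = 2 then (X 0 : S4 K) else 1)) * Xt K F := by
  rcases hr with rfl | rfl
  · refine shift (Finsupp.single (1, 1) 1) _ _ ?_ ?_ ?_ F
    · intro m; simp [mok]
    · intro m _; simp [rowm, pow_add]; ring
    · intro m _; simp [rowm]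
  · refine shift (Finsupp.single (2, 1) 1) _ _ ?_ ?_ ?_ F
    · intro m; simp [mok]
    · intro m _; simp [rowm]
    · intro m _; simp [rowm, pow_add]; ring

/-- the variable `x₂` of the row `r` -/
theorem s2 (r : Fin 3) (hr : r = 1 ∨ r = 2) (F : PP K) :
    Xt K (X (r, 2) * F) = ((if r = 1 then (X 1 : S4 K) else 1) ⊗ₜ[K] (if r = 2 then (X 1 : S4 K) else 1)) * Xt K F := by
  rcases hr with rfl | rfl
  · refine shift (Finsupp.single (1, 2) 1) _ _ ?_ ?_ ?_ F
    · intro m; simp [mok]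
    · intro m _; simp [rowm, pow_add]; ring
    · intro m _; simp [rowm]
  · refine shift (Finsupp.single (2, 2) 1) _ _ ?_ ?_ ?_ F
    · intro m; simp [mok]
    · intro m _; simp [rowm]
    · intro m _; simp [rowm, pow_add]; ring

theorem Xsq (v : Fin 3 × Fin 5) : (X v ^ 2 : PP K) = monomial (Finsupp.single v 2) 1 := by
  rw [X, monomial_pow]
  simp

/-- the square of `p` of the row `r` -/
theorem s0 (r : Fin 3) (hr : r = 1 ∨ r = 2) (F : PP K) :
    Xt K (X (r, 0) ^ 2 * F) = ((if r = 1 then (C (1 / 2) * (X 2 + X 3) : S4 K) else 1) ⊗ₜ[K]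
      (if r = 2 then (C (1 / 2) * (X 2 + X 3) : S4 K) else 1)) * Xt K F := by
  rw [Xsq]
  rcases hr with rfl | rfl
  · refine shift (Finsupp.single (1, 0) 2) _ _ ?_ ?_ ?_ F
    · intro m; simp [mok, Nat.even_add]
    · intro m _; simp [rowm, pow_succ]; ring
    · intro m _; simp [rowm]
  · refine shift (Finsupp.single (2, 0) 2) _ _ ?_ ?_ ?_ F
    · intro m; simp [mok, Nat.even_add]
    · intro m _; simp [rowm]
    · intro m _; simp [rowm, pow_succ]; ring

/-- the square of `q` of the row `r` -/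
theorem s4 (r : Fin 3) (hr : r = 1 ∨ r = 2) (F : PP K) :
    Xt K (X (r, 4) ^ 2 * F) = ((if r = 1 then (C (1 / 2) * (X 2 - X 3) : S4 K) else 1) ⊗ₜ[K]
      (if r = 2 then (C (1 / 2) * (X 2 - X 3) : S4 K) else 1)) * Xt K F := by
  rw [Xsq]
  rcases hr with rfl | rfl
  · refine shift (Finsupp.single (1, 4) 2) _ _ ?_ ?_ ?_ F
    · intro m; simp [mok, Nat.even_add]
    · intro m _; simp [rowm, pow_succ]; ring
    · intro m _; simp [rowm]
  · refine shift (Finsupp.single (2, 4) 2) _ _ ?_ ?_ ?_ F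
    · intro m; simp [mok, Nat.even_add]
    · intro m _; simp [rowm]
    · intro m _; simp [rowm, pow_succ]; ring

theorem hs [CharZero K] : (C (1 / 2) * (X 2 + X 3) + C (1 / 2) * (X 2 - X 3) : S4 K) = X 2 := by
  have h : (C (1 / 2) * 2 : S4 K) = 1 := by
    rw [show (2 : S4 K) = C 2 from (map_ofNat C 2).symm, ← C_mul]
    norm_num
  linear_combination (X 2 : S4 K) * h

theorem hv [CharZero K] : (C (1 / 2) * (X 2 + X 3) - C (1 / 2) * (X 2 - X 3) : S4 K) = X 3 := by
  have h : (C (1 / 2) * 2 : S4 K) = 1 := by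
    rw [show (2 : S4 K) = C 2 from (map_ofNat C 2).symm, ← C_mul]
    norm_num
  linear_combination (X 3 : S4 K) * h

/-- the variables, row `1` -/
theorem v1 [CharZero K] (i : Fin 4) (F : PP K) :
    Xt K (ev K 1 (X i) * F) = ((X i : S4 K) ⊗ₜ[K] (1 : S4 K)) * Xt K F := by
  have e0 := s1 (K := K) 1 (Or.inl rfl) F
  have e1 := s2 (K := K) 1 (Or.inl rfl) F
  have e2 := s0 (K := K) 1 (Or.inl rfl) F
  have e3 := s4 (K := K) 1 (Or.inl rfl) F
  rw [if_pos rfl, if_neg (by decide)] at e0 e1 e2 e3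
  unfold ev
  rw [aeval_X]
  fin_cases i
  · exact e0
  · exact e1
  · change Xt K ((X (1, 0) ^ 2 + X (1, 4) ^ 2) * F) = ((X 2 : S4 K) ⊗ₜ[K] (1 : S4 K)) * Xt K F
    rw [add_mul, map_add, e2, e3, ← add_mul, ← TensorProduct.add_tmul, hs]
  · change Xt K ((X (1, 0) ^ 2 - X (1, 4) ^ 2) * F) = ((X 3 : S4 K) ⊗ₜ[K] (1 : S4 K)) * Xt K F
    rw [sub_mul, map_sub, e2, e3, ← sub_mul, ← TensorProduct.sub_tmul, hv]

/-- the variables, row `2` -/
theorem v2 [CharZero K] (i : Fin 4) (F : PP K) :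
    Xt K (ev K 2 (X i) * F) = ((1 : S4 K) ⊗ₜ[K] (X i : S4 K)) * Xt K F := by
  have e0 := s1 (K := K) 2 (Or.inr rfl) F
  have e1 := s2 (K := K) 2 (Or.inr rfl) F
  have e2 := s0 (K := K) 2 (Or.inr rfl) F
  have e3 := s4 (K := K) 2 (Or.inr rfl) F
  rw [if_neg (by decide), if_pos rfl] at e0 e1 e2 e3
  unfold ev
  rw [aeval_X]
  fin_cases i
  · exact e0
  · exact e1
  · change Xt K ((X (2, 0) ^ 2 + X (2, 4) ^ 2) * F) = ((1 : S4 K) ⊗ₜ[K] (X 2 : S4 K)) * Xt K F
    rw [add_mul, map_add, e2, e3, ← add_mul, ← TensorProduct.tmul_add, hs]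
  · change Xt K ((X (2, 0) ^ 2 - X (2, 4) ^ 2) * F) = ((1 : S4 K) ⊗ₜ[K] (X 3 : S4 K)) * Xt K F
    rw [sub_mul, map_sub, e2, e3, ← sub_mul, ← TensorProduct.tmul_sub, hv]

end X1_aux

open X1_aux in
theorem tX1 : S_X1 := by
  intro K _ _ g F
  constructor
  · induction g using MvPolynomial.induction_on generalizing F with
    | C c =>
      rw [show ev K 1 (C c) = C c from (ev K 1).commutes c, ← smul_eq_C_mul, map_smul,
        show (C c : S4 K) = c • (1 : S4 K) by rw [smul_eq_C_mul, mul_one], ← TensorProduct.smul_tmul',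
        smul_mul_assoc, ← Algebra.TensorProduct.one_def, one_mul]
    | add p q hp hq => rw [map_add, add_mul, map_add, hp, hq, TensorProduct.add_tmul, add_mul]
    | mul_X p i hp =>
      rw [show ev K 1 (p * X i) = ev K 1 p * ev K 1 (X i) from map_mul (ev K 1) _ _, mul_assoc, hp, v1, ← mul_assoc, Algebra.TensorProduct.tmul_mul_tmul, one_mul]
  · induction g using MvPolynomial.induction_on generalizing F with
    | C c =>
      rw [show ev K 2 (C c) = C c from (ev K 2).commutes c, ← smul_eq_C_mul, map_smul,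
        show (C c : S4 K) = c • (1 : S4 K) by rw [smul_eq_C_mul, mul_one], TensorProduct.tmul_smul,
        smul_mul_assoc, ← Algebra.TensorProduct.one_def, one_mul]
    | add p q hp hq => rw [map_add, add_mul, map_add, hp, hq, TensorProduct.tmul_add, add_mul]
    | mul_X p i hp =>
      rw [show ev K 2 (p * X i) = ev K 2 p * ev K 2 (X i) from map_mul (ev K 2) _ _, mul_assoc, hp, v2, ← mul_assoc, Algebra.TensorProduct.tmul_mul_tmul, one_mul]

end Pool.Agent.QV
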