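import Pool.Agent.Lib.MP_b53bfe_ag.Q.SpecG

/-!
# Disproof of Q1 of MP_b53bfe_ag for quintic threefolds: module X2 (monomials killed by the extraction map)
-/

set_option autoImplicit false

noncomputable section

namespace Pool.Agent.QV

open Matrix
open MvPolynomial TensorProduct
open Pool.Agent.FY (Res)

namespace X2_aux

variable {K : Type} [Field K]

/-- the value on a monomial -/
theorem Xt_mon (m : (Fin 3 × Fin 5) →₀ ℕ) [Decidable (mok m)] :
    Xt K (monomial m 1) = if mok m then rowm K m 1 ⊗ₜ[K] rowm K m 2 else 0 := by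
  have h := (basisMonomials (Fin 3 × Fin 5) K).constr_basis K
    (f := fun m => haveI := Classical.propDecidable (mok m); if mok m then rowm K m 1 ⊗ₜ[K] rowm K m 2 else 0) m
  rw [coe_basisMonomials] at h
  unfold Xt
  convert h

/-- the products with the monomial of exponent `D` are killed -/
theorem kill (D : (Fin 3 × Fin 5) →₀ ℕ) (h0 : ∀ m, ¬ mok (D + m)) (F : PP K) :
    Xt K (monomial D 1 * F) = 0 := by
  classical
  have key : Xt K ∘ₗ LinearMap.mulLeft K (monomial D (1 : K)) = 0 := by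
    refine (basisMonomials (Fin 3 × Fin 5) K).ext fun m => ?_
    rw [coe_basisMonomials]
    simp only [LinearMap.comp_apply, LinearMap.mulLeft_apply]
    rw [monomial_mul, one_mul, Xt_mon, if_neg (h0 m), LinearMap.zero_apply]
  exact LinearMap.congr_fun key F

/-- the products with the monomials of exponents `D`, `D'` have the same value -/
theorem same (D D' : (Fin 3 × Fin 5) →₀ ℕ) (h0 : ∀ m, mok (D + m) ↔ mok (D' + m))
    (h1 : ∀ m, rowm K (D + m) 1 = rowm K (D' + m) 1) (h2 : ∀ m, rowm K (D + m) 2 = rowm K (D' + m) 2) (F : PP K) :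
    Xt K (monomial D 1 * F) = Xt K (monomial D' 1 * F) := by
  classical
  have key : Xt K ∘ₗ LinearMap.mulLeft K (monomial D (1 : K)) = Xt K ∘ₗ LinearMap.mulLeft K (monomial D' (1 : K)) := by
    refine (basisMonomials (Fin 3 × Fin 5) K).ext fun m => ?_
    rw [coe_basisMonomials]
    simp only [LinearMap.comp_apply, LinearMap.mulLeft_apply]
    rw [monomial_mul, monomial_mul, one_mul, Xt_mon, Xt_mon, h1 m, h2 m]
    by_cases hm : mok (D + m)
    · rw [if_pos hm, if_pos ((h0 m).1 hm)]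
    · rw [if_neg hm, if_neg (fun h => hm ((h0 m).2 h))]
  exact LinearMap.congr_fun key F

/-- the products with the monomial of exponent `D` are multiples of `P` -/
theorem fac (D : (Fin 3 × Fin 5) →₀ ℕ) (P : S4 K ⊗[K] S4 K)
    (h : ∀ m, mok (D + m) → ∃ z, rowm K (D + m) 1 ⊗ₜ[K] rowm K (D + m) 2 = P * z) (F : PP K) :
    ∃ z, Xt K (monomial D 1 * F) = P * z := by
  classical
  have h' : ∀ m, ∃ z, Xt K (monomial D 1 * monomial m 1) = P * z := by
    intro m
    rw [monomial_mul, one_mul, Xt_mon]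
    by_cases hm : mok (D + m)
    · rw [if_pos hm]
      exact h m hm
    · rw [if_neg hm]
      exact ⟨0, (mul_zero _).symm⟩
  choose z hz using h'
  have key : Xt K ∘ₗ LinearMap.mulLeft K (monomial D (1 : K)) =
      LinearMap.mulLeft K P ∘ₗ (basisMonomials (Fin 3 × Fin 5) K).constr K z := by
    refine (basisMonomials (Fin 3 × Fin 5) K).ext fun m => ?_
    simp only [LinearMap.comp_apply, LinearMap.mulLeft_apply]
    rw [Module.Basis.constr_basis, coe_basisMonomials, hz]
  exact ⟨_, LinearMap.congr_fun key F⟩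

theorem Xpw (v : Fin 3 × Fin 5) (n : ℕ) : (X v ^ n : PP K) = monomial (Finsupp.single v n) 1 := by
  rw [X, monomial_pow]
  simp

/-- an even number of the form `n + 1` has a positive half -/
theorem half {n : ℕ} (h : Even (1 + n)) : (1 + n) / 2 = n / 2 + 1 := by
  obtain ⟨k, hk⟩ := h
  omega

end X2_aux

open X2_aux in
theorem tX2 : S_X2 := by
  intro K _ _ F
  refine ⟨?_, ?_, ?_, ?_, ?_, ?_, ?_, ?_, ?_, ?_, ?_⟩
  · rw [mul_comm]
    refine kill (Finsupp.single (0, 0) 1) ?_ F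
    intro m; simp [mok]
  · rw [mul_comm]
    refine kill (Finsupp.single (0, 1) 1) ?_ F
    intro m; simp [mok]
  · rw [mul_comm, Xpw]
    refine kill _ ?_ F
    intro m; simp [mok]; omega
  · rw [mul_comm, sub_mul, map_sub, Xpw, Xpw, sub_eq_zero]
    refine same _ _ ?_ ?_ ?_ F
    · intro m; simp [mok]
    · intro m; simp [rowm]
    · intro m; simp [rowm]
  · rw [mul_comm, X, X, monomial_mul, one_mul]
    refine kill _ ?_ F
    intro m; simp [mok]
  · rw [mul_comm, Xpw]
    refine kill _ ?_ F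
    intro m; simp [mok]; omega
  · rw [mul_comm, Xpw]
    refine kill _ ?_ F
    intro m; simp [mok]; omega
  · rw [mul_comm]
    refine fac (Finsupp.single (1, 0) 1) _ ?_ F
    intro m hm
    have he : Even (1 + m (1, 0)) := by simpa [mok] using hm.2.2.2.2.2.2.1
    refine ⟨(X 0 ^ m (1, 1) * X 1 ^ m (1, 2) * (C (1 / 2) * (C (1 / 2) * (X 2 + X 3)) ^ (m (1, 0) / 2)) *
      (C (1 / 2) * (X 2 - X 3)) ^ (m (1, 4) / 2)) ⊗ₜ[K] rowm K m 2, ?_⟩
    rw [Algebra.TensorProduct.tmul_mul_tmul, one_mul]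
    congr 1
    · simp [rowm, half he, pow_succ]; ring
    · simp [rowm]
  · rw [mul_comm]
    refine fac (Finsupp.single (1, 4) 1) _ ?_ F
    intro m hm
    have he : Even (1 + m (1, 4)) := by simpa [mok] using hm.2.2.2.2.2.2.2.1
    refine ⟨(X 0 ^ m (1, 1) * X 1 ^ m (1, 2) * (C (1 / 2) * (X 2 + X 3)) ^ (m (1, 0) / 2) *
      (C (1 / 2) * (C (1 / 2) * (X 2 - X 3)) ^ (m (1, 4) / 2))) ⊗ₜ[K] rowm K m 2, ?_⟩
    rw [Algebra.TensorProduct.tmul_mul_tmul, one_mul]
    congr 1
    · simp [rowm, half he, pow_succ]; ring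
    · simp [rowm]
  · rw [mul_comm]
    refine fac (Finsupp.single (2, 0) 1) _ ?_ F
    intro m hm
    have he : Even (1 + m (2, 0)) := by simpa [mok] using hm.2.2.2.2.2.2.2.2.1
    refine ⟨rowm K m 1 ⊗ₜ[K] (X 0 ^ m (2, 1) * X 1 ^ m (2, 2) * (C (1 / 2) * (C (1 / 2) * (X 2 + X 3)) ^ (m (2, 0) / 2)) *
      (C (1 / 2) * (X 2 - X 3)) ^ (m (2, 4) / 2)), ?_⟩
    rw [Algebra.TensorProduct.tmul_mul_tmul, one_mul]
    congr 1
    · simp [rowm]
    · simp [rowm, half he, pow_succ]; ring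
  · rw [mul_comm]
    refine fac (Finsupp.single (2, 4) 1) _ ?_ F
    intro m hm
    have he : Even (1 + m (2, 4)) := by simpa [mok] using hm.2.2.2.2.2.2.2.2.2
    refine ⟨rowm K m 1 ⊗ₜ[K] (X 0 ^ m (2, 1) * X 1 ^ m (2, 2) * (C (1 / 2) * (X 2 + X 3)) ^ (m (2, 0) / 2) *
      (C (1 / 2) * (C (1 / 2) * (X 2 - X 3)) ^ (m (2, 4) / 2))), ?_⟩
    rw [Algebra.TensorProduct.tmul_mul_tmul, one_mul]
    congr 1
    · simp [rowm]
    · simp [rowm, half he, pow_succ]; ring

end Pool.Agent.QV
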