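import Pool.Agent.Lib.MP_b53bfe_ag.Q.SpecG

/-!
# Values of the extraction map
-/

set_option autoImplicit false

noncomputable section

namespace Pool.Agent.QV

open Matrix
open MvPolynomial TensorProduct
open Pool.Agent.FY (Res)

namespace X3_aux

variable (K : Type) [Field K]

open Classical in
theorem Xt_mono (m : (Fin 3 × Fin 5) →₀ ℕ) :
    Xt K (monomial m 1) = if mok m then rowm K m 1 ⊗ₜ[K] rowm K m 2 else 0 := by
  have h : (monomial m 1 : PP K) = basisMonomials (Fin 3 × Fin 5) K m := by rw [coe_basisMonomials]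
  rw [h, Xt, Module.Basis.constr_basis]

/-- the exponent vector -/
def ex (a b c d e f g : ℕ) : (Fin 3 × Fin 5) →₀ ℕ :=
  Finsupp.single (0, 2) a + Finsupp.single (0, 3) b + Finsupp.single (0, 4) c + Finsupp.single (1, 2) d +
    Finsupp.single (1, 3) e + Finsupp.single (2, 2) f + Finsupp.single (2, 3) g

/-- the product of powers -/
def pw (a b c d e f g : ℕ) : PP K :=
  X (0, 2) ^ a * X (0, 3) ^ b * X (0, 4) ^ c * X (1, 2) ^ d * X (1, 3) ^ e * X (2, 2) ^ f * X (2, 3) ^ g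

theorem pw_eq (a b c d e f g : ℕ) : pw K a b c d e f g = monomial (ex a b c d e f g) 1 := by
  simp only [pw, ex, X_pow_eq_monomial, monomial_mul, mul_one]

theorem mok_ex (a b c d e f g : ℕ) :
    mok (ex a b c d e f g) ↔ b = 2 ∧ ((a = 4 ∧ c = 0) ∨ (a = 0 ∧ c = 2)) ∧ e = 3 ∧ g = 2 := by
  simp [mok, ex]

theorem rowm_ex1 (a b c d e f g : ℕ) : rowm K (ex a b c d e f g) 1 = X 1 ^ d := by
  simp [rowm, ex]

theorem rowm_ex2 (a b c d e f g : ℕ) : rowm K (ex a b c d e f g) 2 = X 1 ^ f := by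
  simp [rowm, ex]

theorem Xt_pw (a b c d e f g : ℕ) :
    Xt K (pw K a b c d e f g) = if b = 2 ∧ ((a = 4 ∧ c = 0) ∨ (a = 0 ∧ c = 2)) ∧ e = 3 ∧ g = 2 then
      (X 1 ^ d : S4 K) ⊗ₜ[K] (X 1 ^ f : S4 K) else 0 := by
  classical
  rw [pw_eq, Xt_mono, rowm_ex1, rowm_ex2]
  by_cases h : mok (ex a b c d e f g)
  · rw [if_pos h, if_pos ((mok_ex a b c d e f g).1 h)]
  · rw [if_neg h, if_neg (fun h' => h ((mok_ex a b c d e f g).2 h'))]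

/-- the cubic form -/
def cu (κ : K) (r : Fin 3) : PP K :=
  X (r, 3) ^ 3 - C κ * X (r, 3) ^ 2 * X (r, 2) + C (κ ^ 2) * X (r, 3) * X (r, 2) ^ 2 - C (κ ^ 3) * X (r, 2) ^ 3

theorem st2 (κ : K) (a b c d e : ℕ) :
    Xt K (pw K a b c d e 0 0 * cu K κ 2) = if b = 2 ∧ ((a = 4 ∧ c = 0) ∨ (a = 0 ∧ c = 2)) ∧ e = 3 then
      (-κ) • ((X 1 ^ d : S4 K) ⊗ₜ[K] (X 1 : S4 K)) else 0 := by
  have h : pw K a b c d e 0 0 * cu K κ 2 = pw K a b c d e 0 3 - κ • pw K a b c d e 1 2 + (κ ^ 2) • pw K a b c d e 2 1 -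
      (κ ^ 3) • pw K a b c d e 3 0 := by
    simp only [cu, pw, smul_eq_C_mul]
    ring
  rw [h, map_sub, map_add, map_sub, map_smul, map_smul, map_smul, Xt_pw, Xt_pw, Xt_pw, Xt_pw]
  by_cases h1 : b = 2 ∧ ((a = 4 ∧ c = 0) ∨ (a = 0 ∧ c = 2)) ∧ e = 3
  · rw [if_pos h1]
    have h3 : ∀ z : S4 K ⊗[K] S4 K, -(κ • z) = (-κ) • z := fun z => by
      symm
      apply eq_neg_of_add_eq_zero_left
      rw [← add_smul, neg_add_cancel, zero_smul]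
    simpa [h1] using h3 ((X 1 ^ d : S4 K) ⊗ₜ[K] (X 1 : S4 K))
  · rw [if_neg h1]
    have h2 : ∀ g : ℕ, ¬ (b = 2 ∧ ((a = 4 ∧ c = 0) ∨ (a = 0 ∧ c = 2)) ∧ e = 3 ∧ g = 2) := by
      rintro g ⟨x, y, z, -⟩
      exact h1 ⟨x, y, z⟩
    rw [if_neg (h2 _), if_neg (h2 _), if_neg (h2 _), if_neg (h2 _)]
    simp

theorem st1 (κ : K) (a b c : ℕ) :
    Xt K (pw K a b c 0 0 0 0 * (cu K κ 1 * cu K κ 2)) = if b = 2 ∧ ((a = 4 ∧ c = 0) ∨ (a = 0 ∧ c = 2)) then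
      (-κ) • ((1 : S4 K) ⊗ₜ[K] (X 1 : S4 K)) else 0 := by
  have h : pw K a b c 0 0 0 0 * (cu K κ 1 * cu K κ 2) = pw K a b c 0 3 0 0 * cu K κ 2 -
      κ • (pw K a b c 1 2 0 0 * cu K κ 2) + (κ ^ 2) • (pw K a b c 2 1 0 0 * cu K κ 2) -
      (κ ^ 3) • (pw K a b c 3 0 0 0 * cu K κ 2) := by
    have hc : cu K κ 1 = X (1, 3) ^ 3 - C κ * X (1, 3) ^ 2 * X (1, 2) + C (κ ^ 2) * X (1, 3) * X (1, 2) ^ 2 -
      C (κ ^ 3) * X (1, 2) ^ 3 := rfl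
    rw [hc]
    simp only [smul_eq_C_mul, pw]
    ring
  rw [h, map_sub, map_add, map_sub, map_smul, map_smul, map_smul, st2, st2, st2, st2]
  simp

theorem st0 (κ A B : K) :
    Xt K ((C A * X (0, 2) ^ 3 + C B * X (0, 2) * X (0, 4)) * cu K κ 0 * (cu K κ 1 * cu K κ 2)) =
      (A * κ ^ 2) • ((1 : S4 K) ⊗ₜ[K] (X 1 : S4 K)) := by
  have h : (C A * X (0, 2) ^ 3 + C B * X (0, 2) * X (0, 4)) * cu K κ 0 * (cu K κ 1 * cu K κ 2) =
      A • (pw K 3 3 0 0 0 0 0 * (cu K κ 1 * cu K κ 2)) - (A * κ) • (pw K 4 2 0 0 0 0 0 * (cu K κ 1 * cu K κ 2)) +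
      (A * κ ^ 2) • (pw K 5 1 0 0 0 0 0 * (cu K κ 1 * cu K κ 2)) - (A * κ ^ 3) • (pw K 6 0 0 0 0 0 0 * (cu K κ 1 * cu K κ 2)) +
      (B • (pw K 1 3 1 0 0 0 0 * (cu K κ 1 * cu K κ 2)) - (B * κ) • (pw K 2 2 1 0 0 0 0 * (cu K κ 1 * cu K κ 2)) +
      (B * κ ^ 2) • (pw K 3 1 1 0 0 0 0 * (cu K κ 1 * cu K κ 2)) - (B * κ ^ 3) • (pw K 4 0 1 0 0 0 0 * (cu K κ 1 * cu K κ 2))) := by
    have hc : cu K κ 0 = X (0, 3) ^ 3 - C κ * X (0, 3) ^ 2 * X (0, 2) + C (κ ^ 2) * X (0, 3) * X (0, 2) ^ 2 -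
      C (κ ^ 3) * X (0, 2) ^ 3 := rfl
    rw [hc]
    simp only [smul_eq_C_mul, pw, map_mul, map_pow]
    ring
  rw [h]
  simp only [map_sub, map_add, map_smul, st1]
  simp [smul_smul]
  ring_nf

end X3_aux

open X3_aux in
theorem tX3 : S_Nv → S_X1 → S_X3 := by
  intro hNv hX1 K _ _ a D κ hD hκ hκ0 j m
  obtain ⟨h1, h2, -, h4⟩ := hNv K a D κ hD hκ hκ0
  have e1 := h4 1 j (by decide)
  have e2 := h4 2 m (by decide)
  set κ' := D 0 κ with hκ'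
  have key : NN a D κ 0 0 * NN a D κ 1 j.succ * NN a D κ 2 m.succ =
      ev K 1 (ps1 a j.succ) * (ev K 2 (ps1 a m.succ) * ((10000 * κ ^ 2 : K) •
        ((C (25 * (5 * a.c * κ' - 2 * κ)) * X (0, 2) ^ 3 + C (25 * κ') * X (0, 2) * X (0, 4)) * cu K κ 0 *
          (cu K κ 1 * cu K κ 2)))) := by
    rw [h2, e1, e2]
    simp only [smul_eq_C_mul, cu, map_mul, map_sub, map_ofNat, map_pow]
    ring
  rw [key, (hX1 K _ _).1, (hX1 K _ _).2, map_smul, st0, smul_smul]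
  have hc : 10000 * κ ^ 2 * (25 * (5 * a.c * κ' - 2 * κ) * κ ^ 2) = -500000 := by
    have h5 : κ ^ 4 * κ' = -2 * a.c := h1
    have : 10000 * κ ^ 2 * (25 * (5 * a.c * κ' - 2 * κ) * κ ^ 2) = 250000 * (5 * a.c * (κ ^ 4 * κ') - 2 * κ ^ 5) := by ring
    rw [this, h5, hκ]
    ring
  rw [hc, mul_smul_comm, mul_smul_comm, Algebra.TensorProduct.tmul_mul_tmul, Algebra.TensorProduct.tmul_mul_tmul, one_mul,
    mul_one]
  congr 2
  simp only [ps1, ps2, Fin.cons_succ]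
  ring

end Pool.Agent.QV
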