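import Pool.Agent.Lib.MP_b53bfe_ag.Q.SpecG

/-!
# Disproof of Q1 of MP_b53bfe_ag for quintic threefolds: module XJ, the functional kills the ideal
-/

set_option autoImplicit false

noncomputable section

namespace Pool.Agent.QV

open Matrix
open MvPolynomial TensorProduct
open Pool.Agent.FY (Res)

namespace XJ_aux

variable {K : Type} [Field K]

theorem tf_tmul (l m : S4 K →ₗ[K] K) (x y : S4 K) : tf l m (x ⊗ₜ[K] y) = l x * m y := by
  unfold tf
  rw [LinearMap.comp_apply, TensorProduct.map_tmul, LinearMap.mul'_apply]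

theorem tf_left (a : Par K) (l m : S4 K →ₗ[K] K) (hl : ∀ g ∈ IH a, l g = 0) (g : S4 K)
    (hg : g ∈ IH a) (z : S4 K ⊗[K] S4 K) : tf l m ((g ⊗ₜ[K] (1 : S4 K)) * z) = 0 := by
  induction z using TensorProduct.induction_on with
  | zero => rw [mul_zero, map_zero]
  | tmul x y =>
    rw [Algebra.TensorProduct.tmul_mul_tmul, tf_tmul, hl _ ((IH a).mul_mem_right x hg), zero_mul]
  | add x y hx hy => rw [mul_add, map_add, hx, hy, add_zero]

theorem tf_right (a : Par K) (l m : S4 K →ₗ[K] K) (hm : ∀ g ∈ IH a, m g = 0) (g : S4 K)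
    (hg : g ∈ IH a) (z : S4 K ⊗[K] S4 K) : tf l m (((1 : S4 K) ⊗ₜ[K] g) * z) = 0 := by
  induction z using TensorProduct.induction_on with
  | zero => rw [mul_zero, map_zero]
  | tmul x y =>
    rw [Algebra.TensorProduct.tmul_mul_tmul, tf_tmul, hm _ ((IH a).mul_mem_right y hg), mul_zero]
  | add x y hx hy => rw [mul_add, map_add, hx, hy, add_zero]

theorem mem1 (a : Par K) : pderiv 0 (H4 a) ∈ IH a := Ideal.subset_span (by simp)
theorem mem2 (a : Par K) : pderiv 1 (H4 a) ∈ IH a := Ideal.subset_span (by simp)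

theorem mem3 (a : Par K) : (pderiv 2 (H4 a) + pderiv 3 (H4 a)) * (X 2 + X 3) ∈ IH a := by
  have h1 : X 2 * pderiv 2 (H4 a) + X 3 * pderiv 3 (H4 a) ∈ IH a := Ideal.subset_span (by simp)
  have h2 : X 3 * pderiv 2 (H4 a) + X 2 * pderiv 3 (H4 a) ∈ IH a := Ideal.subset_span (by simp)
  have h3 := (IH a).add_mem h1 h2
  have h4 : (pderiv 2 (H4 a) + pderiv 3 (H4 a)) * (X 2 + X 3) =
      X 2 * pderiv 2 (H4 a) + X 3 * pderiv 3 (H4 a) +
        (X 3 * pderiv 2 (H4 a) + X 2 * pderiv 3 (H4 a)) := by ring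
  rw [h4]
  exact h3

theorem mem4 (a : Par K) : (pderiv 2 (H4 a) - pderiv 3 (H4 a)) * (X 2 - X 3) ∈ IH a := by
  have h1 : X 2 * pderiv 2 (H4 a) + X 3 * pderiv 3 (H4 a) ∈ IH a := Ideal.subset_span (by simp)
  have h2 : X 3 * pderiv 2 (H4 a) + X 2 * pderiv 3 (H4 a) ∈ IH a := Ideal.subset_span (by simp)
  have h3 := (IH a).sub_mem h1 h2
  have h4 : (pderiv 2 (H4 a) - pderiv 3 (H4 a)) * (X 2 - X 3) =
      X 2 * pderiv 2 (H4 a) + X 3 * pderiv 3 (H4 a) -
        (X 3 * pderiv 2 (H4 a) + X 2 * pderiv 3 (H4 a)) := by ring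
  rw [h4]
  exact h3

/-- the weights of `x, y, s, v` -/
def w4 : Fin 4 → ℕ := ![1, 1, 2, 2]

theorem w4_wt (m : Fin 4 →₀ ℕ) : Finsupp.weight w4 m = wt4 m := by
  rw [Finsupp.weight_apply, Finsupp.sum_fintype _ _ (fun i => by rw [zero_smul]), Fin.sum_univ_four]
  simp only [w4, wt4, smul_eq_mul, Matrix.cons_val_zero, Matrix.cons_val_one, Matrix.cons_val]
  ring

theorem rowm_hom (m : (Fin 3 × Fin 5) →₀ ℕ) (r : Fin 3) :
    IsWeightedHomogeneous w4 (rowm K m r)
      (m (r, 1) + m (r, 2) + 2 * (m (r, 0) / 2) + 2 * (m (r, 4) / 2)) := by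
  have hX : ∀ i : Fin 4, IsWeightedHomogeneous w4 (X i : S4 K) (w4 i) :=
    fun i => isWeightedHomogeneous_X K w4 i
  have h0 : IsWeightedHomogeneous w4 (X 0 : S4 K) 1 := hX 0
  have h1 : IsWeightedHomogeneous w4 (X 1 : S4 K) 1 := hX 1
  have h2 : IsWeightedHomogeneous w4 (X 2 : S4 K) 2 := hX 2
  have h3 : IsWeightedHomogeneous w4 (X 3 : S4 K) 2 := hX 3
  have h4 : IsWeightedHomogeneous w4 (C (1 / 2) * (X 2 + X 3) : S4 K) 2 := by
    have := (isWeightedHomogeneous_C w4 (1 / 2 : K)).mul (h2.add h3)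
    rwa [zero_add] at this
  have h5 : IsWeightedHomogeneous w4 (C (1 / 2) * (X 2 - X 3) : S4 K) 2 := by
    have h6 : IsWeightedHomogeneous w4 (X 2 - X 3 : S4 K) 2 := by
      have := h2.add ((isWeightedHomogeneous_C w4 (-1 : K)).mul h3)
      have h7 : (X 2 - X 3 : S4 K) = X 2 + C (-1) * X 3 := by
        rw [C_neg, C_1]
        ring
      rw [h7]
      exact this
    have := (isWeightedHomogeneous_C w4 (1 / 2 : K)).mul h6
    rwa [zero_add] at this
  have h := (((h0.pow (m (r, 1))).mul (h1.pow (m (r, 2)))).mul (h4.pow (m (r, 0) / 2))).mul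
    (h5.pow (m (r, 4) / 2))
  unfold rowm
  have e : m (r, 1) + m (r, 2) + 2 * (m (r, 0) / 2) + 2 * (m (r, 4) / 2) =
      m (r, 1) • 1 + m (r, 2) • 1 + (m (r, 0) / 2) • 2 + (m (r, 4) / 2) • 2 := by
    simp only [smul_eq_mul, mul_one]
    ring
  rw [e]
  exact h

theorem hom_zero (d n : ℕ) (l : S4 K →ₗ[K] K) (hl : ∀ m : Fin 4 →₀ ℕ, wt4 m ≠ d → l (monomial m 1) = 0)
    (p : S4 K) (hp : IsWeightedHomogeneous w4 p n) (hn : n ≠ d) : l p = 0 := by
  rw [p.as_sum, map_sum]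
  apply Finset.sum_eq_zero
  intro m hm
  have h1 : Finsupp.weight w4 m = n := hp (mem_support_iff.mp hm)
  rw [w4_wt] at h1
  have h2 : (monomial m (coeff m p) : S4 K) = coeff m p • monomial m 1 := by
    rw [smul_monomial, smul_eq_mul, mul_one]
  rw [h2, map_smul, hl m (by rw [h1]; exact hn), smul_zero]

open Classical in
theorem Xt_mon (m : (Fin 3 × Fin 5) →₀ ℕ) : Xt K (monomial m 1) =
    if mok m then rowm K m 1 ⊗ₜ[K] rowm K m 2 else 0 := by
  unfold Xt
  have h := (basisMonomials (Fin 3 × Fin 5) K).constr_basis K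
    (fun m => if mok m then rowm K m 1 ⊗ₜ[K] rowm K m 2 else 0) m
  rw [coe_basisMonomials] at h
  exact h

theorem wtm_eq (m : (Fin 3 × Fin 5) →₀ ℕ) : wtm m =
    (m (0, 0) + 4 * m (0, 1) + m (0, 2) + m (0, 3) + 2 * m (0, 4)) +
    (m (1, 0) + m (1, 1) + m (1, 2) + m (1, 3) + m (1, 4)) +
    (m (2, 0) + m (2, 1) + m (2, 2) + m (2, 3) + m (2, 4)) := by
  unfold wtm
  rw [Fintype.sum_prod_type, Fin.sum_univ_three, Fin.sum_univ_five, Fin.sum_univ_five,
    Fin.sum_univ_five]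
  simp only [wtv, if_true, Matrix.cons_val_zero, Matrix.cons_val_one, Matrix.cons_val, one_mul,
    if_neg (show ¬ ((1 : Fin 3) = 0) by decide), if_neg (show ¬ ((2 : Fin 3) = 0) by decide)]

theorem mon_zero (l m : S4 K →ₗ[K] K) (hl : ∀ n : Fin 4 →₀ ℕ, wt4 n ≠ 7 → l (monomial n 1) = 0)
    (hm : ∀ n : Fin 4 →₀ ℕ, wt4 n ≠ 8 → m (monomial n 1) = 0) (n : (Fin 3 × Fin 5) →₀ ℕ)
    (hn : 27 ≤ wtm n) : tf l m (Xt K (monomial n 1)) = 0 := by
  classical
  rw [Xt_mon]
  split_ifs with h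
  · rw [tf_tmul]
    obtain ⟨h1, h2, h3, h4, h5, h6, h7, h8, h9, h10⟩ := h
    rw [wtm_eq] at hn
    obtain ⟨p1, hp1⟩ := h7
    obtain ⟨p2, hp2⟩ := h8
    obtain ⟨p3, hp3⟩ := h9
    obtain ⟨p4, hp4⟩ := h10
    by_cases hd : n (1, 1) + n (1, 2) + 2 * (n (1, 0) / 2) + 2 * (n (1, 4) / 2) = 7
    · rw [hom_zero 8 _ m hm _ (rowm_hom n 2) (by omega), mul_zero]
    · rw [hom_zero 7 _ l hl _ (rowm_hom n 1) hd, zero_mul]
  · exact map_zero _

end XJ_aux

open XJ_aux

theorem tXJ : S_pW → S_X1 → S_X2 → S_XJ := by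
  intro hpW hX1 hX2 K _ _ a l m hl hm F hF
  obtain ⟨q00, q01, q02, q03, q04, hq⟩ := hpW K a
  have key : ∀ F ∈ JL a, ∀ c : PP K, tf l m (Xt K (c * F)) = 0 := by
    intro F hF
    unfold JL at hF
    induction hF using Submodule.span_induction with
    | zero => intro c; rw [mul_zero, map_zero, map_zero]
    | add x y _ _ hx hy => intro c; rw [mul_add, map_add, map_add, hx c, hy c, add_zero]
    | smul b x _ hx => intro c; rw [smul_eq_mul, ← mul_assoc]; exact hx (c * b)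
    | mem x hx =>
      intro c
      rcases hx with ⟨v, rfl⟩ | ⟨n, hn, rfl⟩
      · obtain ⟨x1, x2, x3, x4, x5, x6, x7, x8, x9, x10, x11⟩ := hX2 K c
        obtain ⟨r, j⟩ := v
        show tf l m (Xt K (c * pderiv (r, j) (WW a))) = 0
        have hrow : ∀ r : Fin 3, r = 0 ∨ r = 1 ∨ r = 2 := by decide
        have hcol : ∀ j : Fin 5, j = 0 ∨ j = 1 ∨ j = 2 ∨ j = 3 ∨ j = 4 := by decide
        rcases hrow r with rfl | rfl | rfl
        · rcases hcol j with rfl | rfl | rfl | rfl | rfl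
          · rw [q00, x2, map_zero]
          · rw [q01, x1, map_zero]
          · have e : c * (5 * (X (0, 2) ^ 4 - X (0, 4) ^ 2)) = (c * 5) * (X (0, 2) ^ 4 - X (0, 4) ^ 2) := by
              ring
            rw [q02, e, (hX2 K (c * 5)).2.2.2.1, map_zero]
          · have e : c * (5 * X (0, 3) ^ 4) = (c * 5) * X (0, 3) ^ 4 := by ring
            rw [q03, e, (hX2 K (c * 5)).2.2.1, map_zero]
          · have e : c * -(10 * (X (0, 2) * X (0, 4))) = (c * (-10)) * (X (0, 2) * X (0, 4)) := by ring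
            rw [q04, e, (hX2 K (c * (-10))).2.2.2.2.1, map_zero]
        · obtain ⟨-, w3, w1, w2, w0, w4'⟩ := hq 1 (by decide)
          rcases hcol j with rfl | rfl | rfl | rfl | rfl
          · obtain ⟨z, hz⟩ := (hX2 K (c * 2)).2.2.2.2.2.2.2.1
            have e : c * (2 * X (1, 0) * ev K 1 (pderiv 2 (H4 a) + pderiv 3 (H4 a))) =
                ev K 1 (pderiv 2 (H4 a) + pderiv 3 (H4 a)) * ((c * 2) * X (1, 0)) := by ring
            rw [w0, e, (hX1 K _ _).1, hz, ← mul_assoc, Algebra.TensorProduct.tmul_mul_tmul, one_mul]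
            exact tf_left a l m hl.1 _ (mem3 a) z
          · rw [w1, mul_comm, (hX1 K _ _).1]
            exact tf_left a l m hl.1 _ (mem1 a) _
          · rw [w2, mul_comm, (hX1 K _ _).1]
            exact tf_left a l m hl.1 _ (mem2 a) _
          · have e : c * (5 * X (1, 3) ^ 4) = (c * 5) * X (1, 3) ^ 4 := by ring
            rw [w3, e, (hX2 K (c * 5)).2.2.2.2.2.1, map_zero]
          · obtain ⟨z, hz⟩ := (hX2 K (c * 2)).2.2.2.2.2.2.2.2.1
            have e : c * (2 * X (1, 4) * ev K 1 (pderiv 2 (H4 a) - pderiv 3 (H4 a))) =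
                ev K 1 (pderiv 2 (H4 a) - pderiv 3 (H4 a)) * ((c * 2) * X (1, 4)) := by ring
            rw [w4', e, (hX1 K _ _).1, hz, ← mul_assoc, Algebra.TensorProduct.tmul_mul_tmul, one_mul]
            exact tf_left a l m hl.1 _ (mem4 a) z
        · obtain ⟨-, w3, w1, w2, w0, w4'⟩ := hq 2 (by decide)
          rcases hcol j with rfl | rfl | rfl | rfl | rfl
          · obtain ⟨z, hz⟩ := (hX2 K (c * 2)).2.2.2.2.2.2.2.2.2.1
            have e : c * (2 * X (2, 0) * ev K 2 (pderiv 2 (H4 a) + pderiv 3 (H4 a))) =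
                ev K 2 (pderiv 2 (H4 a) + pderiv 3 (H4 a)) * ((c * 2) * X (2, 0)) := by ring
            rw [w0, e, (hX1 K _ _).2, hz, ← mul_assoc, Algebra.TensorProduct.tmul_mul_tmul, one_mul]
            exact tf_right a l m hm.1 _ (mem3 a) z
          · rw [w1, mul_comm, (hX1 K _ _).2]
            exact tf_right a l m hm.1 _ (mem1 a) _
          · rw [w2, mul_comm, (hX1 K _ _).2]
            exact tf_right a l m hm.1 _ (mem2 a) _
          · have e : c * (5 * X (2, 3) ^ 4) = (c * 5) * X (2, 3) ^ 4 := by ring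
            rw [w3, e, (hX2 K (c * 5)).2.2.2.2.2.2.1, map_zero]
          · obtain ⟨z, hz⟩ := (hX2 K (c * 2)).2.2.2.2.2.2.2.2.2.2
            have e : c * (2 * X (2, 4) * ev K 2 (pderiv 2 (H4 a) - pderiv 3 (H4 a))) =
                ev K 2 (pderiv 2 (H4 a) - pderiv 3 (H4 a)) * ((c * 2) * X (2, 4)) := by ring
            rw [w4', e, (hX1 K _ _).2, hz, ← mul_assoc, Algebra.TensorProduct.tmul_mul_tmul, one_mul]
            exact tf_right a l m hm.1 _ (mem4 a) z
      · induction c using MvPolynomial.induction_on' with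
        | monomial u b =>
          rw [monomial_mul, mul_one]
          have e : (monomial (u + n) b : PP K) = b • monomial (u + n) 1 := by
            rw [smul_monomial, smul_eq_mul, mul_one]
          rw [e, map_smul, map_smul, mon_zero l m hl.2 hm.2 (u + n) ?_, smul_zero]
          rw [wtm_eq] at hn ⊢
          simp only [Finsupp.add_apply]
          omega
        | add p q hp hq => rw [add_mul, map_add, map_add, hp, hq, add_zero]
  have := key F hF 1
  rwa [one_mul] at this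

end Pool.Agent.QV
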