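import Pool.Agent.Lib.MP_b53bfe_ag.Q.SpecP
import Pool.Agent.Lib.MP_b53bfe_ag.Q.Bas

/-!
# The quintic form `fQ a`: homogeneous of degree five, and its copies in the three rows
-/

set_option autoImplicit false

noncomputable section

namespace Pool.Agent.QV

open Matrix MvPolynomial
open Pool.Agent.FY (Res)

namespace fQh_aux

variable {K : Type} [Field K]

private theorem hX (j : Fin 5) : (X j : MvPolynomial (Fin 5) K).IsHomogeneous 1 := isHomogeneous_X K j

private theorem hA (c : K) : (algebraMap K (MvPolynomial (Fin 5) K) c).IsHomogeneous 0 := isHomogeneous_C _ c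

private theorem cst {c : K} {f : MvPolynomial (Fin 5) K} {n : ℕ} (h : f.IsHomogeneous n) :
    (algebraMap K (MvPolynomial (Fin 5) K) c * f).IsHomogeneous n := by
  have := (hA c).mul h
  rwa [Nat.zero_add] at this

private theorem mm {f g : MvPolynomial (Fin 5) K} {m n k : ℕ} (hf : f.IsHomogeneous m) (hg : g.IsHomogeneous n)
    (h : m + n = k) : (f * g).IsHomogeneous k := by
  subst h; exact hf.mul hg

private theorem pw {f : MvPolynomial (Fin 5) K} {m n k : ℕ} (hf : f.IsHomogeneous m) (h : m * n = k) :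
    (f ^ n).IsHomogeneous k := by
  subst h; exact hf.pow n

private theorem hu (a : Par K) : (uf a (X 0) (X 2) (X 4) : MvPolynomial (Fin 5) K).IsHomogeneous 2 :=
  (((pw (hX 0) (by norm_num)).sub (pw (hX 4) (by norm_num))).add (cst (pw (hX 2) (by norm_num))))

private theorem hR (a : Par K) : (Rf a (X 0) (X 1) (X 2) (X 4) : MvPolynomial (Fin 5) K).IsHomogeneous 4 := by
  have h2 : ∀ i : Fin 5, ((X i : MvPolynomial (Fin 5) K) ^ 2).IsHomogeneous 2 := fun i => pw (hX i) (by norm_num)
  refine ((cst (mm (h2 0) (h2 4) (by norm_num))).add (cst (pw (hX 1) (by norm_num)))).add ?_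
  refine IsHomogeneous.sum _ _ _ fun j _ => cst ?_
  fin_cases j
  · exact mm (hX 1) (pw (n := 3) (hX 2) rfl) (by norm_num)
  · exact mm (h2 1) ((h2 0).add (h2 4)) (by norm_num)
  · exact mm (h2 2) ((h2 0).add (h2 4)) (by norm_num)
  · exact mm (h2 1) ((h2 0).sub (h2 4)) (by norm_num)
  · exact pw ((h2 0).sub (h2 4)) (by norm_num)

theorem hom (a : Par K) : (fQ a).IsHomogeneous 5 := by
  have h5 : (5 : MvPolynomial (Fin 5) K).IsHomogeneous 0 := by
    have := isHomogeneous_C (Fin 5) (5 : K)
    rwa [map_ofNat] at this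
  refine (((pw (hX 3) (by norm_num)).add (mm (hX 1) (hR a) (by norm_num))).add (pw (hX 2) (by norm_num))).sub ?_
  exact mm (mm h5 (hX 2) (k := 1) (by norm_num)) (pw (hu a) (k := 4) (by norm_num)) (by norm_num)

theorem frm (a : Par K) (i : Fin 3) : Gr.form (fQ a) i = fS a i := by
  simp only [Gr.form, fQ, fS, ff, Rf, uf, map_add, map_sub, map_mul, map_pow, rename_X, AlgHom.commutes,
    map_ofNat, Fin.sum_univ_five, Rj]
  simp [rename_X]

end fQh_aux

theorem tfQh : S_fQh := fun _ _ a => ⟨fQh_aux.hom a, fQh_aux.frm a⟩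

end Pool.Agent.QV
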