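import Pool.Agent.Lib.MP_b53bfe_ag.Q.SpecE

/-!
# Disproof of Q1 of MP_b53bfe_ag for quintic threefolds: identities in `BB` (module hW)

helper85 (statement and proof on paper: helper4).
-/

set_option autoImplicit false

noncomputable section

namespace Pool.Agent.QV

open Matrix
open MvPolynomial
open Pool.Agent.FY (Res)

namespace hW_aux

section

variable {K : Type} [Field K] (a : Par K) {B B' : Type} [CommRing B] [Algebra K B] [CommRing B'] [Algebra K B']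

lemma Rf_eq (p x y q : B) : Rf a p x y q =
    algebraMap K B (a.A ^ 2) * (p ^ 2 * q ^ 2) + algebraMap K B a.A * x ^ 4 +
      (algebraMap K B (a.t 0) * (x * y ^ 3) + algebraMap K B (a.t 1) * (x ^ 2 * (p ^ 2 + q ^ 2)) +
        algebraMap K B (a.t 2) * (y ^ 2 * (p ^ 2 + q ^ 2)) + algebraMap K B (a.t 3) * (x ^ 2 * (p ^ 2 - q ^ 2)) +
        algebraMap K B (a.t 4) * (p ^ 2 - q ^ 2) ^ 2) := by
  unfold Rf
  rw [Fin.sum_univ_five]
  rfl

lemma map_Rf (φ : B →ₐ[K] B') (p x y q : B) : φ (Rf a p x y q) = Rf a (φ p) (φ x) (φ y) (φ q) := by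
  rw [Rf_eq, Rf_eq]
  simp only [map_add, map_mul, map_pow, map_sub, AlgHom.commutes]

lemma map_uf (φ : B →ₐ[K] B') (p y q : B) : φ (uf a p y q) = uf a (φ p) (φ y) (φ q) := by
  unfold uf
  simp only [map_add, map_mul, map_pow, map_sub, AlgHom.commutes]

lemma map_ff (φ : B →ₐ[K] B') (p x y z q : B) :
    φ (ff a p x y z q) = ff a (φ p) (φ x) (φ y) (φ z) (φ q) := by
  unfold ff
  simp only [map_add, map_mul, map_pow, map_sub, map_Rf, map_uf, map_ofNat]

lemma hom_ff (l p x y z q : B) :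
    ff a (l * p) (l * x) (l * y) (l * z) (l * q) = l ^ 5 * ff a p x y z q := by
  unfold ff uf
  rw [Rf_eq, Rf_eq]
  ring

end

variable {K : Type} [Field K] [CharZero K] (a : Par K)

/-- the form `f` at the third row -/
def fC : BB K := ff a (X 7 * X 1 + C (1 / 2) * (X 8 + X 9)) (X 7 * X 2) (X 7 * X 3) (X 7 * X 4)
  (X 7 * X 5 + C (1 / 2) * (X 8 - X 9))

omit [CharZero K] in
lemma hB_WW : hB a (WW a) = X 6 * X 2 * X 0 + (X 6 * X 4) ^ 5 + (X 6 * X 3) ^ 5 -
    5 * (X 6 * X 3) * (X 6 ^ 2 * uf a (X 1) (X 3) (X 5)) ^ 2 + fB a + fC a := by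
  have hx : ∀ v : Fin 3 × Fin 5, hB a (X v) = (![![X 6 * X 2, X 0, X 6 * X 3, X 6 * X 4, X 6 ^ 2 * uf a (X 1) (X 3) (X 5)],
    ![X 1, X 2, X 3, X 4, X 5],
    ![X 7 * X 1 + C (1 / 2) * (X 8 + X 9), X 7 * X 2, X 7 * X 3, X 7 * X 4, X 7 * X 5 + C (1 / 2) * (X 8 - X 9)]] v.1 v.2 : BB K) := by
    intro v
    unfold hB
    rw [aeval_X]
  unfold WW fS
  simp only [map_add, map_mul, map_pow, map_sub, map_ff, map_ofNat]
  rw [hx (0, 0), hx (0, 1), hx (0, 2), hx (0, 3), hx (0, 4), hx (1, 0), hx (1, 1), hx (1, 2), hx (1, 3), hx (1, 4),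
    hx (2, 0), hx (2, 1), hx (2, 2), hx (2, 3), hx (2, 4)]
  rfl

lemma half_add (x : BB K) : C (1 / 2) * x + C (1 / 2) * x = x := by
  rw [← add_mul, ← C_add, add_halves, C_1, one_mul]

end hW_aux

open hW_aux in
theorem thW : S_hW := by
  intro K _ _ a
  refine ⟨?_, ?_, ?_, ?_⟩
  · -- modulo `ξ₀`, `ξ₄`, `f`
    have h8 : Ideal.Quotient.mkₐ K (J1 a) (X 8) = 0 := by
      refine Ideal.Quotient.eq_zero_iff_mem.2 (Ideal.subset_span ?_)
      simp
    have h9 : Ideal.Quotient.mkₐ K (J1 a) (X 9) = 0 := by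
      refine Ideal.Quotient.eq_zero_iff_mem.2 (Ideal.subset_span ?_)
      simp
    have hf : Ideal.Quotient.mkₐ K (J1 a) (fB a) = 0 := by
      refine Ideal.Quotient.eq_zero_iff_mem.2 (Ideal.subset_span ?_)
      simp
    have hC : Ideal.Quotient.mkₐ K (J1 a) (fC a) = 0 := by
      have e : Ideal.Quotient.mkₐ K (J1 a) (fC a) =
          Ideal.Quotient.mkₐ K (J1 a) (ff a (X 7 * X 1) (X 7 * X 2) (X 7 * X 3) (X 7 * X 4) (X 7 * X 5)) := by
        unfold fC
        rw [map_ff, map_ff]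
        simp only [map_add, map_mul, map_sub, h8, h9, add_zero, sub_zero, mul_zero]
      rw [e, hom_ff, map_mul]
      show _ * Ideal.Quotient.mkₐ K (J1 a) (fB a) = 0
      rw [hf, mul_zero]
    have key : hB a (WW a) - X 6 * (X 2 * zB a) = X 6 ^ 5 * fB a + fB a + fC a := by
      rw [hB_WW]
      unfold zB fB RB ff
      ring
    rw [key]
    have : Ideal.Quotient.mkₐ K (J1 a) (X 6 ^ 5 * fB a + fB a + fC a) = 0 := by
      rw [map_add, map_add, map_mul, hf, hC, mul_zero, add_zero, add_zero]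
    exact Ideal.Quotient.eq_zero_iff_mem.1 this
  · -- modulo `x₁`, `f`, `rB`
    obtain ⟨J, hJ⟩ : ∃ J, J = J0 a ⊔ Ideal.span {rB K} := ⟨_, rfl⟩
    rw [← hJ]
    have h2 : Ideal.Quotient.mkₐ K J (X 2) = 0 := by
      refine Ideal.Quotient.eq_zero_iff_mem.2 (hJ ▸ Ideal.mem_sup_left (Ideal.subset_span ?_))
      simp
    have hf : Ideal.Quotient.mkₐ K J (fB a) = 0 := by
      refine Ideal.Quotient.eq_zero_iff_mem.2 (hJ ▸ Ideal.mem_sup_left (Ideal.subset_span ?_))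
      simp
    have hr : Ideal.Quotient.mkₐ K J (rB K) = 0 := by
      refine Ideal.Quotient.eq_zero_iff_mem.2 (hJ ▸ Ideal.mem_sup_right (Ideal.subset_span ?_))
      simp
    obtain ⟨R', hR'⟩ : ∃ R' : BB K, R' = Rf a (X 7 * X 1 + C (1 / 2) * (X 8 + X 9)) (X 7 * X 2) (X 7 * X 3)
      (X 7 * X 5 + C (1 / 2) * (X 8 - X 9)) := ⟨_, rfl⟩
    have hhalf : (C (1 / 2) : BB K) * 2 = 1 := by
      have := half_add (K := K) 1
      linear_combination this
    have hu : uf a (X 7 * X 1 + C (1 / 2) * (X 8 + X 9)) (X 7 * X 3) (X 7 * X 5 + C (1 / 2) * (X 8 - X 9)) =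
        X 7 ^ 2 * uf a (X 1) (X 3) (X 5) + rB K := by
      unfold uf rB
      linear_combination (X 7 * (X 1 * (X 8 + X 9) - X 5 * (X 8 - X 9)) +
        X 8 * X 9 * (C (1 / 2) * 2 + 1)) * hhalf
    have key : fC a = X 7 ^ 5 * fB a + X 2 * (X 7 * R' - X 7 ^ 5 * RB a) +
        rB K * (-(5 * X 7 * X 3) * (2 * (X 7 ^ 2 * uf a (X 1) (X 3) (X 5)) + rB K)) := by
      unfold fC fB RB ff
      rw [hu, ← hR']
      ring
    have key2 : hB a (WW a) = X 6 ^ 5 * fB a + fB a + fC a + X 2 * (X 6 * zB a) := by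
      rw [hB_WW]
      unfold zB fB RB ff
      ring
    have : Ideal.Quotient.mkₐ K J (hB a (WW a)) = 0 := by
      rw [key2, key]
      simp only [map_add, map_mul, h2, hf, hr, mul_zero, zero_mul, add_zero]
    exact Ideal.Quotient.eq_zero_iff_mem.1 this
  · rw [Ideal.mem_span_singleton]
    refine ⟨X 9 + X 7 * (X 1 - X 5), ?_⟩
    unfold rB
    ring
  · intro κ hκ
    have hp := hκ.2 (BB K) (X 3) (X 4)
    have e1 : (∏ k : Fin 5, (X 4 + C (κ k) * X 3)) = (X 4 : BB K) ^ 5 + C (1 - 5 * a.c ^ 2) * X 3 ^ 5 := hp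
    have e2 : (C (1 - 5 * a.c ^ 2) : BB K) = 1 - 5 * C a.c ^ 2 := by
      simp only [map_sub, map_mul, map_pow, map_one, map_ofNat]
    have m2 : (X 2 : BB K) ∈ J4 K := Ideal.subset_span (by simp)
    have m15 : (X 1 + X 5 : BB K) ∈ J4 K := Ideal.subset_span (by simp)
    have e3 : (∏ k : Fin 5, (X 4 + C (κ k) * X 3)) - fB a =
        -(RB a) * X 2 + (5 * X 3 * (X 1 - X 5) * (uf a (X 1) (X 3) (X 5) + C a.c * X 3 ^ 2)) * (X 1 + X 5) := by
      rw [e1, e2]
      unfold fB RB ff uf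
      rw [MvPolynomial.algebraMap_eq]
      ring
    rw [e3]
    exact Ideal.add_mem _ (Ideal.mul_mem_left _ _ m2) (Ideal.mul_mem_left _ _ m15)

end Pool.Agent.QV
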