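import Pool.Agent.Lib.MP_b53bfe_ag.Q.SpecG

/-!
# Disproof of Q1 of MP_b53bfe_ag for quintic threefolds: the product of the 18 one-forms
-/

set_option autoImplicit false

noncomputable section

namespace Pool.Agent.QV

open Matrix MvPolynomial TensorProduct
open Pool.Agent.FY (Res)

namespace kf_aux

theorem comm4 {L E : Type} [CommRing L] [Ring E] [Algebra L E] (C : Cal L E) (a b c e : L) :
    Commute (C.d a * C.d b) (C.d c * C.d e) := by
  show C.d a * C.d b * (C.d c * C.d e) = C.d c * C.d e * (C.d a * C.d b)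
  have h1 : C.d b * C.d c = -(C.d c * C.d b) := C.anti b c
  have h2 : C.d a * C.d c = -(C.d c * C.d a) := C.anti a c
  have h3 : C.d b * C.d e = -(C.d e * C.d b) := C.anti b e
  have h4 : C.d a * C.d e = -(C.d e * C.d a) := C.anti a e
  calc C.d a * C.d b * (C.d c * C.d e) = C.d a * (C.d b * C.d c) * C.d e := by simp only [mul_assoc]
    _ = -(C.d a * C.d c * (C.d b * C.d e)) := by rw [h1]; simp only [mul_neg, neg_mul, mul_assoc]
    _ = -(C.d c * (C.d a * C.d e) * C.d b) := by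
      rw [h2, h3]; simp only [mul_neg, neg_mul, neg_neg, mul_assoc]
    _ = C.d c * C.d e * (C.d a * C.d b) := by
      rw [h4]; simp only [mul_neg, neg_mul, neg_neg, mul_assoc]

theorem reorder {E : Type} [Ring E] (D : Fin 9 → E) (hc : ∀ i j, Commute (D i) (D j)) :
    D 8 * (D 7 * (D 6 * (D 5 * (D 4 * (D 3 * (D 2 * (D 1 * D 0))))))) =
      D 0 * (D 1 * (D 2 * (D 3 * (D 4 * (D 5 * (D 6 * (D 7 * D 8))))))) := by
  have h : [D 8, D 7, D 6, D 5, D 4, D 3, D 2, D 1, D 0].prod =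
      [D 0, D 1, D 2, D 3, D 4, D 5, D 6, D 7, D 8].prod := by
    apply List.Perm.prod_eq' (List.reverse_perm [D 0, D 1, D 2, D 3, D 4, D 5, D 6, D 7, D 8])
    show List.Pairwise Commute [D 8, D 7, D 6, D 5, D 4, D 3, D 2, D 1, D 0]
    simp only [List.pairwise_cons, List.mem_cons, List.not_mem_nil, or_false, false_implies, implies_true,
      List.Pairwise.nil, forall_eq_or_imp, forall_eq, hc, and_self]
  simpa only [List.prod_cons, List.prod_nil, mul_one] using h

theorem scal {E : Type} [Ring E] (D : Fin 9 → E) (hc : ∀ i j, Commute (D i) (D j)) :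
    (1 * (306 • D 8) * (240 • D 7) * (182 • D 6) * (132 • D 5) * (90 • D 4) * (56 • D 3) * (30 • D 2) *
      (12 • D 1)) * D 0 =
      (3201186852864000 : ℕ) • (D 0 * (D 1 * (D 2 * (D 3 * (D 4 * (D 5 * (D 6 * (D 7 * D 8)))))))) := by
  rw [← reorder D hc]
  simp only [one_mul, smul_mul_assoc, mul_smul_comm, smul_smul, mul_assoc]
  norm_num

theorem big {E : Type} [Ring E] (e : Fin 3 → Fin 6 → E) :
    e 0 0 * e 0 1 * (e 0 2 * e 0 3 * (e 0 4 * e 0 5 * (e 1 0 * e 1 1 * (e 1 2 * e 1 3 * (e 1 4 * e 1 5 *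
      (e 2 0 * e 2 1 * (e 2 2 * e 2 3 * (e 2 4 * e 2 5)))))))) =
      (List.ofFn fun s : Fin 3 => (List.ofFn fun i : Fin 6 => e s i).prod).prod := by
  simp only [List.ofFn_succ, List.ofFn_zero, List.prod_cons, List.prod_nil, mul_one, mul_assoc]
  rfl

end kf_aux

open kf_aux in
theorem tkf : S_kf := by
  intro K _ a D κ C hC
  have h1 := scal ![C.d (sl a κ 0 0) * C.d (sl a κ 0 1), C.d (sl a κ 0 2) * C.d (sl a κ 0 3),
    C.d (sl a κ 0 4) * C.d (sl a κ 0 5), C.d (sl a κ 1 0) * C.d (sl a κ 1 1), C.d (sl a κ 1 2) * C.d (sl a κ 1 3),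
    C.d (sl a κ 1 4) * C.d (sl a κ 1 5), C.d (sl a κ 2 0) * C.d (sl a κ 2 1), C.d (sl a κ 2 2) * C.d (sl a κ 2 3),
    C.d (sl a κ 2 4) * C.d (sl a κ 2 5)]
    (by
      intro i j
      fin_cases i <;> fin_cases j <;> exact comm4 C _ _ _ _)
  have h2 : (Ideal.Quotient.mk (tI (grd a D (WW a)))) (pr18 fun s i => grd a D (sl a κ s i)) =
      (List.ofFn fun s : Fin 3 => (List.ofFn fun i : Fin 6 => C.d (sl a κ s i)).prod).prod := by
    rw [pr18, map_list_prod, List.map_ofFn]
    congr 2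
    funext s
    simp only [Function.comp]
    rw [map_list_prod, List.map_ofFn]
    congr 2
    funext i
    exact (hC _).symm
  have h3 := big (fun s i => C.d (sl a κ s i))
  refine Eq.trans ?_ (h1.trans ?_)
  · rfl
  · exact congrArg (fun z => (3201186852864000 : ℕ) • z) (h3.trans h2.symm)

end Pool.Agent.QV
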