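import Pool.Agent.Lib.MP_b53bfe_ag.Q.SpecG

/-!
# MP_b53bfe_ag: the derivatives of the potential with respect to the variables
-/

set_option autoImplicit false

noncomputable section

namespace Pool.Agent.QV

open Matrix
open MvPolynomial TensorProduct
open Pool.Agent.FY (Res)

namespace pW_aux

variable {K : Type} [Field K]

/-- the chain rule for `ev` -/
theorem chain (v : Fin 3 × Fin 5) (r : Fin 3) (g : S4 K) :
    pderiv v (ev K r g) = ev K r (pderiv 0 g) * pderiv v (X (r, 1)) + ev K r (pderiv 1 g) * pderiv v (X (r, 2)) +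
      ev K r (pderiv 2 g) * pderiv v (X (r, 0) ^ 2 + X (r, 4) ^ 2) +
      ev K r (pderiv 3 g) * pderiv v (X (r, 0) ^ 2 - X (r, 4) ^ 2) := by
  induction g using MvPolynomial.induction_on with
  | C k => simp only [algHom_C, algebraMap_eq, pderiv_C, map_zero, zero_mul, add_zero]
  | add p q hp hq =>
    simp only [map_add, hp, hq]
    ring
  | mul_X p n hp =>
    have h0 : ev K r (X 0) = X (r, 1) := by simp [ev]
    have h1 : ev K r (X 1) = X (r, 2) := by simp [ev]
    have h2 : ev K r (X 2) = X (r, 0) ^ 2 + X (r, 4) ^ 2 := by simp [ev]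
    have h3 : ev K r (X 3) = X (r, 0) ^ 2 - X (r, 4) ^ 2 := by simp [ev]
    have hx : ∀ i : Fin 4, pderiv i (p * X n) = pderiv i p * X n + p * pderiv i (X n) := fun i => pderiv_mul
    have hy : pderiv v (ev K r (p * X n)) = pderiv v (ev K r p) * ev K r (X n) + ev K r p * pderiv v (ev K r (X n)) := by
      rw [map_mul, pderiv_mul]
    rw [hy, hp, hx 0, hx 1, hx 2, hx 3]
    simp only [map_add, map_mul]
    fin_cases n
    · simp only [Fin.zero_eta, h0, pderiv_X_self, map_one, mul_one]
      rw [pderiv_X_of_ne (show (0 : Fin 4) ≠ 1 by decide), pderiv_X_of_ne (show (0 : Fin 4) ≠ 2 by decide),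
        pderiv_X_of_ne (show (0 : Fin 4) ≠ 3 by decide)]
      simp only [map_zero, mul_zero, add_zero]
      ring
    · simp only [Fin.mk_one, h1, pderiv_X_self, map_one, mul_one]
      rw [pderiv_X_of_ne (show (1 : Fin 4) ≠ 0 by decide), pderiv_X_of_ne (show (1 : Fin 4) ≠ 2 by decide),
        pderiv_X_of_ne (show (1 : Fin 4) ≠ 3 by decide)]
      simp only [map_zero, mul_zero, add_zero]
      ring
    · simp only [Fin.reduceFinMk, h2, pderiv_X_self, map_one, mul_one]
      rw [pderiv_X_of_ne (show (2 : Fin 4) ≠ 0 by decide), pderiv_X_of_ne (show (2 : Fin 4) ≠ 1 by decide),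
        pderiv_X_of_ne (show (2 : Fin 4) ≠ 3 by decide)]
      simp only [map_zero, mul_zero, add_zero, map_add]
      ring
    · simp only [Fin.reduceFinMk, h3, pderiv_X_self, map_one, mul_one]
      rw [pderiv_X_of_ne (show (3 : Fin 4) ≠ 0 by decide), pderiv_X_of_ne (show (3 : Fin 4) ≠ 1 by decide),
        pderiv_X_of_ne (show (3 : Fin 4) ≠ 2 by decide)]
      simp only [map_zero, mul_zero, add_zero, map_sub]
      ring

theorem fS_eq [CharZero K] (a : Par K) (r : Fin 3) : fS a r = X (r, 3) ^ 5 + ev K r (H4 a) := by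
  have e1 : (C (a.A ^ 2 / 4) : PP K) * 4 = C (a.A ^ 2) := by
    rw [show (4 : PP K) = C 4 from (map_ofNat C 4).symm, ← C_mul]
    congr 1
    field_simp
  have hR : ∀ j : Fin 5, ev K r (RR K j) = Rj j (X (r, 0)) (X (r, 1)) (X (r, 2)) (X (r, 4)) := by
    intro j
    fin_cases j <;> simp [Rj, RR, ev]
  have hu : ev K r (u4 a) = uf a (X (r, 0)) (X (r, 2)) (X (r, 4)) := by
    simp [u4, uf, ev]
  have h4 : ev K r (R4 a) = Rf a (X (r, 0)) (X (r, 1)) (X (r, 2)) (X (r, 4)) := by
    unfold R4 Rf
    simp only [map_add, map_mul, map_sum, hR, algHom_C, algebraMap_eq, map_sub, map_pow, ← e1]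
    simp only [ev, aeval_X]
    simp
    ring
  unfold fS ff H4
  simp only [map_add, map_sub, map_mul, map_pow, h4, hu, map_ofNat]
  simp only [ev, aeval_X]
  simp
  ring

theorem pd_other [CharZero K] (a : Par K) (r r' : Fin 3) (j : Fin 5) (h : r' ≠ r) : pderiv (r', j) (fS a r) = 0 := by
  have hx : ∀ i : Fin 5, pderiv (r', j) (X (r, i) : PP K) = 0 := fun i => by
    apply pderiv_X_of_ne
    intro e
    exact h (Prod.ext_iff.1 e).1.symm
  rw [fS_eq, map_add, chain]
  simp only [Derivation.leibniz_pow, map_add, map_sub, hx, smul_zero, mul_zero, add_zero, sub_zero]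

theorem pd_same (r : Fin 3) (i j : Fin 5) (h : i ≠ j) : pderiv (r, j) (X (r, i) : PP K) = 0 := by
  apply pderiv_X_of_ne
  intro e
  exact h (Prod.ext_iff.1 e).2

theorem pd_zero (r : Fin 3) (hr : r ≠ 0) (i j : Fin 5) : pderiv (r, j) (X (0, i) : PP K) = 0 := by
  apply pderiv_X_of_ne
  intro e
  exact hr (Prod.ext_iff.1 e).1.symm

theorem pd_WW [CharZero K] (a : Par K) (r : Fin 3) (hr : r ≠ 0) (j : Fin 5) :
    pderiv (r, j) (WW a) = pderiv (r, j) (X (r, 3) ^ 5 : PP K) + pderiv (r, j) (ev K r (H4 a)) := by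
  have h5 : pderiv (r, j) (5 : PP K) = 0 := by
    rw [show (5 : PP K) = C 5 from (map_ofNat C 5).symm]
    exact pderiv_C
  rw [← map_add, ← fS_eq]
  unfold WW
  simp only [map_add, map_sub, Derivation.leibniz, Derivation.leibniz_pow, pd_zero r hr, h5, smul_zero, add_zero,
    sub_zero, zero_add]
  fin_cases r
  · exact absurd rfl hr
  · simp only [Fin.mk_one]
    rw [pd_other a 2 1 j (by decide), add_zero]
  · simp only [Fin.reduceFinMk]
    rw [pd_other a 1 2 j (by decide), zero_add]

end pW_aux

open pW_aux in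
theorem tpW : S_pW := by
  intro K _ _ a
  have h5 : ∀ v, pderiv v (5 : PP K) = 0 := fun v => by
    rw [show (5 : PP K) = C 5 from (map_ofNat C 5).symm]
    exact pderiv_C
  have q1 : ∀ j, pderiv (0, j) (fS a 1) = 0 := fun j => pd_other a 1 0 j (by decide)
  have q2 : ∀ j, pderiv (0, j) (fS a 2) = 0 := fun j => pd_other a 2 0 j (by decide)
  refine ⟨?_, ?_, ?_, ?_, ?_, ?_⟩
  · unfold WW
    simp only [map_add, map_sub, Derivation.leibniz, Derivation.leibniz_pow, q1, q2, h5, pderiv_X_self,
      pd_same 0 1 0 (by decide), pd_same 0 2 0 (by decide), pd_same 0 3 0 (by decide), pd_same 0 4 0 (by decide)]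
    simp
  · unfold WW
    simp only [map_add, map_sub, Derivation.leibniz, Derivation.leibniz_pow, q1, q2, h5, pderiv_X_self,
      pd_same 0 0 1 (by decide), pd_same 0 2 1 (by decide), pd_same 0 3 1 (by decide), pd_same 0 4 1 (by decide)]
    simp
  · unfold WW
    simp only [map_add, map_sub, Derivation.leibniz, Derivation.leibniz_pow, q1, q2, h5, pderiv_X_self,
      pd_same 0 0 2 (by decide), pd_same 0 1 2 (by decide), pd_same 0 3 2 (by decide), pd_same 0 4 2 (by decide)]
    simp
    ring
  · unfold WW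
    simp only [map_add, map_sub, Derivation.leibniz, Derivation.leibniz_pow, q1, q2, h5, pderiv_X_self,
      pd_same 0 0 3 (by decide), pd_same 0 1 3 (by decide), pd_same 0 2 3 (by decide), pd_same 0 4 3 (by decide)]
    simp
  · unfold WW
    simp only [map_add, map_sub, Derivation.leibniz, Derivation.leibniz_pow, q1, q2, h5, pderiv_X_self,
      pd_same 0 0 4 (by decide), pd_same 0 1 4 (by decide), pd_same 0 2 4 (by decide), pd_same 0 3 4 (by decide)]
    simp
    ring
  · intro r hr
    refine ⟨fS_eq a r, ?_, ?_, ?_, ?_, ?_⟩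
    · rw [pd_WW a r hr, chain]
      simp only [map_add, map_sub, Derivation.leibniz_pow, pderiv_X_self,
        pd_same r 0 3 (by decide), pd_same r 1 3 (by decide), pd_same r 2 3 (by decide), pd_same r 4 3 (by decide)]
      simp
    · rw [pd_WW a r hr, chain]
      simp only [map_add, map_sub, Derivation.leibniz_pow, pderiv_X_self,
        pd_same r 0 1 (by decide), pd_same r 2 1 (by decide), pd_same r 3 1 (by decide), pd_same r 4 1 (by decide)]
      simp
    · rw [pd_WW a r hr, chain]
      simp only [map_add, map_sub, Derivation.leibniz_pow, pderiv_X_self,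
        pd_same r 0 2 (by decide), pd_same r 1 2 (by decide), pd_same r 3 2 (by decide), pd_same r 4 2 (by decide)]
      simp
    · rw [pd_WW a r hr, chain]
      simp only [map_add, map_sub, Derivation.leibniz_pow, pderiv_X_self,
        pd_same r 1 0 (by decide), pd_same r 2 0 (by decide), pd_same r 3 0 (by decide), pd_same r 4 0 (by decide)]
      simp
      ring
    · rw [pd_WW a r hr, chain]
      simp only [map_add, map_sub, Derivation.leibniz_pow, pderiv_X_self,
        pd_same r 0 4 (by decide), pd_same r 1 4 (by decide), pd_same r 2 4 (by decide), pd_same r 3 4 (by decide)]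
      simp
      ring

end Pool.Agent.QV
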