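import Pool.Agent.Lib.MP_b53bfe_ag.Q.AI
import Pool.Agent.Lib.MP_b53bfe_ag.Q.Der
import Pool.Agent.Lib.MP_b53bfe_ag.Q.Val
import Pool.Agent.Lib.MP_b53bfe_ag.Q.Kap
import Pool.Agent.Lib.MP_b53bfe_ag.Q.ParC
import Pool.Agent.Lib.MP_b53bfe_ag.Q.CalL
import Pool.Agent.Lib.MP_b53bfe_ag.Q.Sch
import Pool.Agent.Lib.MP_b53bfe_ag.Q.Comm
import Pool.Agent.Lib.MP_b53bfe_ag.Q.Sg
import Pool.Agent.Lib.MP_b53bfe_ag.Q.Gn
import Pool.Agent.Lib.MP_b53bfe_ag.Q.Gl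
import Pool.Agent.Lib.MP_b53bfe_ag.Q.Sw
import Pool.Agent.Lib.MP_b53bfe_ag.Q.Gi
import Pool.Agent.Lib.MP_b53bfe_ag.Q.Tri
import Pool.Agent.Lib.MP_b53bfe_ag.Q.Inv
import Pool.Agent.Lib.MP_b53bfe_ag.Q.Pd
import Pool.Agent.Lib.MP_b53bfe_ag.Q.Ex
import Pool.Agent.Lib.MP_b53bfe_ag.Q.Ad
import Pool.Agent.Lib.MP_b53bfe_ag.Q.Ckb
import Pool.Agent.Lib.MP_b53bfe_ag.Q.Phi1
import Pool.Agent.Lib.MP_b53bfe_ag.Q.Ext
import Pool.Agent.Lib.MP_b53bfe_ag.Q.All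
import Pool.Agent.Lib.MP_b53bfe_ag.Q.Phi
import Pool.Agent.Lib.MP_b53bfe_ag.Q.Prf
import Pool.Agent.Lib.MP_b53bfe_ag.Q.Chn
import Pool.Agent.Lib.MP_b53bfe_ag.Q.Gd1
import Pool.Agent.Lib.MP_b53bfe_ag.Q.NLD
import Pool.Agent.Lib.MP_b53bfe_ag.Q.Loc
import Pool.Agent.Lib.MP_b53bfe_ag.Q.D1
import Pool.Agent.Lib.MP_b53bfe_ag.Q.D2
import Pool.Agent.Lib.MP_b53bfe_ag.Q.KosI
import Pool.Agent.Lib.MP_b53bfe_ag.Q.Kos
import Pool.Agent.Lib.MP_b53bfe_ag.Q.LocG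
import Pool.Agent.Lib.MP_b53bfe_ag.Q.ChPa
import Pool.Agent.Lib.MP_b53bfe_ag.Q.Uni
import Pool.Agent.Lib.MP_b53bfe_ag.Q.Kn
import Pool.Agent.Lib.MP_b53bfe_ag.Q.KnL
import Pool.Agent.Lib.MP_b53bfe_ag.Q.ChP
import Pool.Agent.Lib.MP_b53bfe_ag.Q.Wv
import Pool.Agent.Lib.MP_b53bfe_ag.Q.Tor
import Pool.Agent.Lib.MP_b53bfe_ag.Q.Lat
import Pool.Agent.Lib.MP_b53bfe_ag.Q.Fin
import Pool.Agent.Lib.MP_b53bfe_ag.Q.Mon
import Pool.Agent.Lib.MP_b53bfe_ag.Q.Lin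
import Pool.Agent.Lib.MP_b53bfe_ag.Q.Tis
import Pool.Agent.Lib.MP_b53bfe_ag.Q.Bqc
import Pool.Agent.Lib.MP_b53bfe_ag.Q.LfB
import Pool.Agent.Lib.MP_b53bfe_ag.Q.LfE
import Pool.Agent.Lib.MP_b53bfe_ag.Q.CmpS
import Pool.Agent.Lib.MP_b53bfe_ag.Q.Rgp
import Pool.Agent.Lib.MP_b53bfe_ag.Q.Bq
import Pool.Agent.Lib.MP_b53bfe_ag.Q.Mlt
import Pool.Agent.Lib.MP_b53bfe_ag.Q.hW
import Pool.Agent.Lib.MP_b53bfe_ag.Q.Ret
import Pool.Agent.Lib.MP_b53bfe_ag.Q.RgE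
import Pool.Agent.Lib.MP_b53bfe_ag.Q.Ch1
import Pool.Agent.Lib.MP_b53bfe_ag.Q.Ch2
import Pool.Agent.Lib.MP_b53bfe_ag.Q.GoodM
import Pool.Agent.Lib.MP_b53bfe_ag.Q.CmpM
import Pool.Agent.Lib.MP_b53bfe_ag.Q.EE
import Pool.Agent.Lib.MP_b53bfe_ag.Q.Dc
import Pool.Agent.Lib.MP_b53bfe_ag.Q.CalE
import Pool.Agent.Lib.MP_b53bfe_ag.Q.Un
import Pool.Agent.Lib.MP_b53bfe_ag.Q.kf
import Pool.Agent.Lib.MP_b53bfe_ag.Q.Gx1
import Pool.Agent.Lib.MP_b53bfe_ag.Q.Gx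
import Pool.Agent.Lib.MP_b53bfe_ag.Q.Eq
import Pool.Agent.Lib.MP_b53bfe_ag.Q.Nv
import Pool.Agent.Lib.MP_b53bfe_ag.Q.DW
import Pool.Agent.Lib.MP_b53bfe_ag.Q.X1
import Pool.Agent.Lib.MP_b53bfe_ag.Q.X3
import Pool.Agent.Lib.MP_b53bfe_ag.Q.pW
import Pool.Agent.Lib.MP_b53bfe_ag.Q.X2
import Pool.Agent.Lib.MP_b53bfe_ag.Q.XJ
import Pool.Agent.Lib.MP_b53bfe_ag.Q.GG
import Pool.Agent.Lib.MP_b53bfe_ag.Q.HLA
import Pool.Agent.Lib.MP_b53bfe_ag.Q.Cert1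
import Pool.Agent.Lib.MP_b53bfe_ag.Q.Cert2
import Pool.Agent.Lib.MP_b53bfe_ag.Q.D21
import Pool.Agent.Lib.MP_b53bfe_ag.Q.Hc
import Pool.Agent.Lib.MP_b53bfe_ag.Q.NF
import Pool.Agent.Lib.MP_b53bfe_ag.Q.Rh
import Pool.Agent.Lib.MP_b53bfe_ag.Q.L7
import Pool.Agent.Lib.MP_b53bfe_ag.Q.L8
import Pool.Agent.Lib.MP_b53bfe_ag.Q.Tab
import Pool.Agent.Lib.MP_b53bfe_ag.Q.Gh
import Pool.Agent.Lib.MP_b53bfe_ag.Q.HH
import Pool.Agent.Lib.MP_b53bfe_ag.Q.Mn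
import Pool.Agent.Lib.MP_b53bfe_ag.Q.Gk
import Pool.Agent.Lib.MP_b53bfe_ag.Q.Smo
import Pool.Agent.Lib.MP_b53bfe_ag.Q.fQh
import Pool.Agent.Lib.MP_b53bfe_ag.Q.F1

/-!
# Assembly: proofs of the statements of the Spec files
-/

set_option autoImplicit false

noncomputable section

namespace Pool.Agent.QV

theorem aAI : S_AI := tAI
theorem aDer : S_Der := tDer
theorem aVal : S_Val := tVal
theorem aKap : S_Kap := tKap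
theorem aParC : S_ParC := tParC aAI aDer aVal aKap
theorem aCalL : S_CalL := tCalL
theorem aSch : S_Sch := tSch
theorem aComm : S_Comm := tComm
theorem aSg : S_Sg := tSg aComm
theorem aGn : S_Gn := tGn aComm aSg
theorem aGl : S_Gl := tGl aComm aGn
theorem aSw : S_Sw := tSw aComm
theorem aGi : S_Gi := tGi aGl aSw
theorem aTri : S_Tri := tTri
theorem aInv : S_Inv := tInv aSch aGi aTri
theorem aPd : S_Pd := tPd
theorem aEx : S_Ex := tEx aPd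
theorem aAd : S_Ad := tAd aEx
theorem aCkb : S_Ckb := tCkb aPd
theorem aPhi1 : S_Phi1 := tPhi1 aInv aEx aAd aTri aCkb
theorem aExt : S_Ext := tExt aPd aCkb
theorem aAll : S_All := tAll aExt aCkb aPd
theorem aPhi : S_Phi := tPhi aPhi1 aAll aCkb aTri
theorem aPrf : S_Prf := tPrf aPd
theorem aChn : S_Chn := tChn aPhi aPrf aCkb aTri
theorem aGd1 : S_Gd1 := tGd1 aPd
theorem aNLD : S_NLD := tNLD aGd1 aPd
theorem aLoc : S_Loc := tLoc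
theorem aD1 : S_D1 := tD1 aComm aSw
theorem aD2 : S_D2 := tD2
theorem aKosI : S_KosI := tKosI aD1 aD2
theorem aKos : S_Kos := tKos aKosI
theorem aLocG : S_LocG := tLocG
theorem aChPa : S_ChPa := tChPa aKos aLocG
theorem aUni : S_Uni := tUni aPd aCkb aEx
theorem aKn : S_Kn := tKn aUni aKosI
theorem aKnL : S_KnL := tKnL aKn aNLD
theorem aChP : S_ChP := tChP aCalL aChn aNLD aLoc aChPa aKnL
theorem aWv : S_Wv := tWv
theorem aTor : S_Tor := tTor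
theorem aLat : S_Lat := tLat
theorem aFin : S_Fin := tFin
theorem aMon : S_Mon := tMon
theorem aLin : S_Lin := tLin aFin aMon
theorem aTis : S_Tis := tTis
theorem aBqc : S_Bqc := tBqc aTis
theorem aLfB : S_LfB := tLfB
theorem aLfE : S_LfE := tLfE aLfB
theorem aCmpS : S_CmpS := tCmpS aBqc aLfE aLfB aFin
theorem aRgp : S_Rgp := tRgp
theorem aBq : S_Bq := tBq aTis
theorem aMlt : S_Mlt := tMlt
theorem ahW : S_hW := thW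
theorem aRet : S_Ret := tRet
theorem aRgE : S_RgE := tRgE aRet aRgp
theorem aCh1 : S_Ch1 := tCh1 aRgp aBq aMlt aLfE ahW aRgE
theorem aCh2 : S_Ch2 := tCh2 aMlt aLfE ahW aRgE
theorem aGoodM : S_GoodM := tGoodM aRet aRgp
theorem aCmpM : S_CmpM := tCmpM aBqc aLfE aGoodM
theorem aEE : S_EE := tEE aChP aWv aTor aLat aFin aLin aCmpS aCh1 aCh2 aCmpM aGoodM
theorem aDc : S_Dc := tDc
theorem aCalE : S_CalE := tCalE aDc
theorem aUn : S_Un := tUn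
theorem akf : S_kf := tkf
theorem aGx1 : S_Gx1 := tGx1
theorem aGx : S_Gx := tGx aGx1
theorem aEq : S_Eq := tEq akf aGx
theorem aNv : S_Nv := tNv aDc
theorem aDW : S_DW := tDW aDc
theorem aX1 : S_X1 := tX1
theorem aX3 : S_X3 := tX3 aNv aX1
theorem apW : S_pW := tpW
theorem aX2 : S_X2 := tX2
theorem aXJ : S_XJ := tXJ apW aX1 aX2
theorem aGG : S_GG := tGG aEq aNv aDW aX1 aX3 aXJ
theorem aHLA : S_HLA := tHLA
theorem aCert1 : S_Cert1 := tCert1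
theorem aCert2 : S_Cert2 := tCert2
theorem aD21 : S_D21 := tD21
theorem aHc : S_Hc := tHc aHLA aCert1 aCert2 aD21
theorem aNF : S_NF := tNF
theorem aRh : S_Rh := tRh
theorem aL7 : S_L7 := tL7 aNF aRh
theorem aL8 : S_L8 := tL8 aNF aRh
theorem aTab : S_Tab := tTab
theorem aGh : S_Gh := tGh
theorem aHH : S_HH := tHH aHc aL7 aL8 aTab aGh
theorem aMn : S_Mn := tMn aEE aCalE aUn aGG aHH
theorem aGk : S_Gk := tGk aFin
theorem aSmo : S_Smo := tSmo aRh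
theorem afQh : S_fQh := tfQh
theorem aF1 : S_F1 := tF1 aParC aMn aGk aSmo afQh aRh

end Pool.Agent.QV
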