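import Pool.Agent.Lib.MP_b53bfe_ag.Q.SpecL

/-!
# Proof of `S_BaL`
-/

set_option autoImplicit false

noncomputable section

namespace Pool.Agent.QV

open Matrix
open MvPolynomial
open Pool.Agent.FY (Res)

theorem tBaL : S_BaL := by
  intro K _ V hV ⟨v, hvV, hv3⟩
  have : FiniteDimensional K V := inferInstance
  let b : Module.Basis (Fin 2) K V := Module.finBasisOfFinrankEq K V hV
  have hb : ∀ w ∈ V, ∃ s t : K, w = s • (b 0 : Fin 5 → K) + t • (b 1 : Fin 5 → K) := by
    intro w hw
    refine ⟨b.repr ⟨w, hw⟩ 0, b.repr ⟨w, hw⟩ 1, ?_⟩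
    have h := b.sum_repr ⟨w, hw⟩
    rw [Fin.sum_univ_two] at h
    have h2 := congrArg (fun z : V => (z : Fin 5 → K)) h
    simpa using h2.symm
  set b0 : Fin 5 → K := (b 0 : Fin 5 → K) with hb0
  set b1 : Fin 5 → K := (b 1 : Fin 5 → K) with hb1
  have hli : ∀ s t : K, s • b0 + t • b1 = 0 → s = 0 ∧ t = 0 := by
    have h := b.linearIndependent
    have h' : LinearIndependent K ![b 0, b 1] := by
      have : ![b 0, b 1] = b := by
        funext i; fin_cases i <;> rfl
      rw [this]; exact h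
    rw [LinearIndependent.pair_iff] at h'
    intro s t hst
    apply h' s t
    apply Subtype.ext
    simpa using hst
  -- the vector with coordinate 3 equal to 0
  let d0 : Fin 5 → K := (b1 3) • b0 - (b0 3) • b1
  have hd0V : d0 ∈ V := V.sub_mem (V.smul_mem _ (b 0).2) (V.smul_mem _ (b 1).2)
  have hd03 : d0 3 = 0 := by
    simp only [d0, Pi.sub_apply, Pi.smul_apply, smul_eq_mul]; ring
  have hd0 : d0 ≠ 0 := by
    intro h0
    have h1 := hli (b1 3) (-(b0 3)) (by rw [neg_smul, ← sub_eq_add_neg]; exact h0)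
    apply hv3
    obtain ⟨s, t, hst⟩ := hb v hvV
    have h2 := congrFun hst 3
    rw [h2]
    have h3 : b0 3 = 0 := by simpa using h1.2
    simp only [Pi.add_apply, Pi.smul_apply, smul_eq_mul, h3, h1.1, mul_zero, add_zero]
  obtain ⟨j, hj⟩ : ∃ j, d0 j ≠ 0 := Function.ne_iff.1 hd0
  have hj3 : j ≠ 3 := fun h => hj (h ▸ hd03)
  obtain ⟨i, rfl⟩ : ∃ i : Fin 4, (3 : Fin 5).succAbove i = j := Fin.exists_succAbove_eq hj3
  let d : Fin 5 → K := (d0 ((3 : Fin 5).succAbove i))⁻¹ • d0
  have hdV : d ∈ V := V.smul_mem _ hd0V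
  have hd3 : d 3 = 0 := by simp [d, hd03]
  have hdi : d ((3 : Fin 5).succAbove i) = 1 := by
    simp only [d, Pi.smul_apply, smul_eq_mul]
    exact inv_mul_cancel₀ hj
  let e : Fin 5 → K := (v 3)⁻¹ • v - ((v 3)⁻¹ * v ((3 : Fin 5).succAbove i)) • d
  have heV : e ∈ V := V.sub_mem (V.smul_mem _ hvV) (V.smul_mem _ hdV)
  have he3 : e 3 = 1 := by
    simp only [e, Pi.sub_apply, Pi.smul_apply, smul_eq_mul, hd3, mul_zero, sub_zero]
    exact inv_mul_cancel₀ hv3
  have hei : e ((3 : Fin 5).succAbove i) = 0 := by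
    simp only [e, Pi.sub_apply, Pi.smul_apply, smul_eq_mul, hdi, mul_one, sub_self]
  refine ⟨i, e, d, he3, hei, hd3, hdi, ?_⟩
  symm
  apply Submodule.eq_of_le_of_finrank_eq
  · rw [Submodule.span_le]
    intro x hx
    rcases hx with rfl | hx
    · exact heV
    · rw [Set.mem_singleton_iff] at hx; rw [hx]; exact hdV
  · rw [hV]
    have h1 : LinearIndependent K ![e, d] := by
      rw [LinearIndependent.pair_iff]
      intro s t hst
      have h3 := congrFun hst 3
      have hi := congrFun hst ((3 : Fin 5).succAbove i)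
      simp only [Pi.add_apply, Pi.smul_apply, smul_eq_mul, he3, hd3, hei, hdi, mul_one, mul_zero, add_zero,
        zero_add, Pi.zero_apply] at h3 hi
      exact ⟨h3, hi⟩
    have h2 := finrank_span_eq_card h1
    have h3 : Set.range ![e, d] = {e, d} := by
      ext x
      simp only [Set.mem_range, Fin.exists_fin_two, Set.mem_insert_iff, Set.mem_singleton_iff]
      exact ⟨fun h => h.imp Eq.symm Eq.symm, fun h => h.imp Eq.symm Eq.symm⟩
    rw [h3] at h2
    simpa using h2

end Pool.Agent.QV
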