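import Pool.Agent.Lib.MP_b53bfe_ag.Q.SpecL

/-!
# BcR: regularity and flat base change (helper10)
-/

set_option autoImplicit false

noncomputable section

namespace Pool.Agent.QV

open Matrix MvPolynomial
open Pool.Agent.FY (Res)

theorem tBcR : S_BcR := by
  intro R S _ _ φ z a J hF _ hreg y hy
  let _ : Algebra R S := φ.toAlgebra
  have hFl : Module.Flat R S := hF
  have hsm : ∀ (r : R) (s : S), r • s = φ r * s := fun r s => rfl
  have hy' := hy
  rw [Ideal.map, Ideal.span, Submodule.mem_span_set'] at hy'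
  obtain ⟨n, s, g, hs⟩ := hy'
  choose j hjJ hj using fun i => (g i).2
  let f : Fin (n + 1) → R := Fin.cons a (fun i => - j i)
  let x : Fin (n + 1) → S := Fin.cons y s
  have hrel : ∑ i, f i • x i = 0 := by
    rw [Fin.sum_univ_succ]
    simp only [f, x, Fin.cons_zero, Fin.cons_succ]
    rw [hsm, ← hs, ← Finset.sum_add_distrib]
    refine Finset.sum_eq_zero fun i _ => ?_
    rw [hsm, map_neg, hj, smul_eq_mul]
    ring
  obtain ⟨κ, A, t, hA, hA0⟩ := Module.Flat.isTrivialRelation_of_sum_smul_eq_zero (R := R) (M := S) (f := f) (x := x) hrel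
  have hAJ : ∀ c : Fin κ, ∃ k : ℕ, z ^ k * A 0 c ∈ J := by
    intro c
    refine hreg _ ?_
    have h1 := hA0 c
    rw [Fin.sum_univ_succ] at h1
    simp only [f, Fin.cons_zero, Fin.cons_succ] at h1
    have h2 : a * A 0 c = ∑ i, j i * A i.succ c := by
      have h3 : ∑ i : Fin n, -j i * A i.succ c = - ∑ i, j i * A i.succ c := by
        rw [← Finset.sum_neg_distrib]
        exact Finset.sum_congr rfl fun i _ => by ring
      rw [h3] at h1
      linear_combination h1
    rw [h2]
    exact J.sum_mem fun i _ => J.mul_mem_right _ (hjJ i)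
  choose k hk using hAJ
  refine ⟨Finset.univ.sup k, ?_⟩
  have h0 : y = ∑ c, A 0 c • t c := hA 0
  rw [h0, Finset.mul_sum]
  refine Ideal.sum_mem _ fun c _ => ?_
  have hle : k c ≤ Finset.univ.sup k := Finset.le_sup (Finset.mem_univ c)
  have h4 : z ^ (Finset.univ.sup k) * A 0 c ∈ J := by
    obtain ⟨e, he⟩ := Nat.exists_eq_add_of_le hle
    rw [he, pow_add, mul_right_comm]
    exact J.mul_mem_right _ (hk c)
  have h5 : φ z ^ (Finset.univ.sup k) * A 0 c • t c = φ (z ^ (Finset.univ.sup k) * A 0 c) * t c := by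
    rw [hsm, map_mul, map_pow, mul_assoc]
  rw [h5]
  exact Ideal.mul_mem_right _ _ (Ideal.mem_map_of_mem φ h4)

end Pool.Agent.QV
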