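import Pool.Agent.Lib.MP_b53bfe_ag.Q.SpecL

/-!
# Disproof of Q1 of MP_b53bfe_ag for quintic threefolds, phase 3: module BsP

A plane has a basis adapted to two coordinates.
-/

set_option autoImplicit false

noncomputable section

namespace Pool.Agent.QV

open Matrix
open MvPolynomial
open Pool.Agent.FY (Res)

theorem tBsP : S_BsP := by
  intro K _ V hV
  have hne : V ≠ ⊥ := by
    rintro rfl
    simp at hV
  obtain ⟨v, hvV, hv0⟩ := Submodule.exists_mem_ne_zero_of_ne_bot hne
  obtain ⟨p, hp⟩ : ∃ p, v p ≠ 0 := by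
    by_contra h
    push Not at h
    exact hv0 (funext h)
  obtain ⟨w, hwV, hw⟩ : ∃ w ∈ V, w - (w p / v p) • v ≠ 0 := by
    by_contra h
    push Not at h
    have hle : V ≤ Submodule.span K {v} := by
      intro w hw
      have h1 := h w hw
      rw [sub_eq_zero] at h1
      rw [h1]
      exact Submodule.smul_mem _ _ (Submodule.mem_span_singleton_self v)
    have h1 := Submodule.finrank_mono hle
    rw [hV, finrank_span_singleton hv0] at h1
    omega
  set d0 : Fin 5 → K := w - (w p / v p) • v with hd0
  have hd0V : d0 ∈ V := V.sub_mem hwV (V.smul_mem _ hvV)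
  obtain ⟨q, hq⟩ : ∃ q, d0 q ≠ 0 := by
    by_contra h
    push Not at h
    exact hw (funext h)
  have hd0p : d0 p = 0 := by
    simp only [hd0, Pi.sub_apply, Pi.smul_apply, smul_eq_mul]
    rw [div_mul_cancel₀ _ hp, sub_self]
  have hpq : p ≠ q := by
    rintro rfl
    exact hq hd0p
  set d : Fin 5 → K := (d0 q)⁻¹ • d0 with hd
  set e : Fin 5 → K := (v p)⁻¹ • v - ((v p)⁻¹ * v q) • d with he
  have hdp : d p = 0 := by simp [hd, hd0p]
  have hdq : d q = 1 := by simp [hd, hq]
  have hep : e p = 1 := by simp [he, hdp, hp]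
  have heq : e q = 0 := by simp [he, hdq]
  have hdV : d ∈ V := V.smul_mem _ hd0V
  have heV : e ∈ V := V.sub_mem (V.smul_mem _ hvV) (V.smul_mem _ hdV)
  have hli : LinearIndependent K ![e, d] := by
    rw [LinearIndependent.pair_iff]
    intro s t hst
    have h1 := congrFun hst p
    have h2 := congrFun hst q
    simp only [Pi.add_apply, Pi.smul_apply, smul_eq_mul, hep, heq, hdp, hdq, mul_one, mul_zero,
      add_zero, zero_add, Pi.zero_apply] at h1 h2
    exact ⟨h1, h2⟩
  have hr : Set.range ![e, d] = {e, d} := by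
    simp [Matrix.range_cons, Matrix.range_empty, Set.pair_comm]
  have hfr : Module.finrank K (Submodule.span K ({e, d} : Set (Fin 5 → K))) = 2 := by
    have := finrank_span_eq_card hli
    rwa [hr, Fintype.card_fin] at this
  have hle : Submodule.span K ({e, d} : Set (Fin 5 → K)) ≤ V := by
    rw [Submodule.span_le]
    rintro x (rfl | rfl)
    · exact heV
    · exact hdV
  exact ⟨p, q, e, d, hpq, hep, heq, hdp, hdq,
    (Submodule.eq_of_le_of_finrank_eq hle (by rw [hfr, hV])).symm⟩

end Pool.Agent.QV
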