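import Pool.Agent.Lib.MP_b53bfe_ag.Q.SpecH

/-!
# Certificate for the first differential
-/

set_option autoImplicit false

noncomputable section

namespace Pool.Agent.QV

open Matrix MvPolynomial TensorProduct

namespace Cert1_aux

/-- the row `(q, t)`, `atab t s` is good for the column `(q, s, _)` -/
def okA (q : Fin 6) (s : Fin 5) (t : Fin 6) : Prop :=
  t ≠ q ∧ atab t s < 14 ∧ (∀ s1, atab q s1 ≠ atab t s) ∧ ∀ s1, s1 ≠ s → atab t s1 ≠ atab t s

instance (q : Fin 6) (s : Fin 5) (t : Fin 6) : Decidable (okA q s t) := by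
  unfold okA; infer_instance

theorem key : ∀ (q : Fin 6) (s : Fin 5), ∃ t, okA q s t := by decide +kernel

theorem alz_ne (i : Fin 6) (b : Fin 14) (s : Fin 5) : alz i b s ≠ 0 ↔ atab i s = b.val := by
  unfold alz
  split_ifs with h1 h2
  · simp [h1]
  · simp [h1]
  · simp [h1]

theorem row (q : Fin 6) (s : Fin 5) (s' : Fin 8) :
    ∃ r : I2, D1m alz bez r (q, s, s') ≠ 0 ∧ ∀ c', D1m alz bez r c' ≠ 0 → c' = (q, s, s') := by
  obtain ⟨t, htq, hlt, hq, ht⟩ := key q s
  rcases lt_or_gt_of_ne htq with h | h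
  · refine ⟨Sum.inl (⟨(t, q), h⟩, ⟨atab t s, hlt⟩, s'), ?_, ?_⟩
    · simp only [D1m, cf2, if_true]
      exact (alz_ne _ _ _).2 rfl
    · rintro ⟨q1, s1, s2⟩ hc
      simp only [D1m, cf2] at hc
      split_ifs at hc with h1 h2 h3
      · have h4 := (alz_ne _ _ _).1 hc
        have h5 : s1 = s := by
          by_contra hne
          exact ht s1 hne h4
        rw [h1, h2, h5]
      · have h4 : alz q ⟨atab t s, hlt⟩ s1 ≠ 0 := fun h0 => hc (by rw [h0, neg_zero])
        exact absurd ((alz_ne _ _ _).1 h4) (hq s1)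
      · exact absurd rfl hc
      · exact absurd rfl hc
  · refine ⟨Sum.inl (⟨(q, t), h⟩, ⟨atab t s, hlt⟩, s'), ?_, ?_⟩
    · simp only [D1m, cf2, if_true]
      rw [if_neg (Ne.symm htq)]
      have h4 : alz t ⟨atab t s, hlt⟩ s ≠ 0 := (alz_ne _ _ _).2 rfl
      exact neg_ne_zero.2 h4
    · rintro ⟨q1, s1, s2⟩ hc
      simp only [D1m, cf2] at hc
      split_ifs at hc with h1 h2 h3
      · have h4 := (alz_ne _ _ _).1 hc
        exact absurd h4 (hq s1)
      · have h4 : alz t ⟨atab t s, hlt⟩ s1 ≠ 0 := fun h0 => hc (by rw [h0, neg_zero])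
        have h5 : s1 = s := by
          by_contra hne
          exact ht s1 hne ((alz_ne _ _ _).1 h4)
        rw [h1, h3, h5]
      · exact absurd rfl hc
      · exact absurd rfl hc

end Cert1_aux

theorem tCert1 : S_Cert1 := by
  classical
  choose r hr using fun c : I1 => Cert1_aux.row c.1 c.2.1 c.2.2
  refine ⟨fun _ => 0, r, fun c => ⟨(hr c).1, fun c' h1 h2 => absurd ((hr c).2 c' h1) h2⟩⟩

end Pool.Agent.QV
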