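import Pool.Agent.Lib.MP_b53bfe_ag.Q.SpecL

/-!
# Disproof of Q1 of MP_b53bfe_ag for quintic threefolds, phase 3: derivations and algebraic elements (`S_DAl`)
-/

set_option autoImplicit false

noncomputable section

namespace Pool.Agent.QV

open Matrix
open MvPolynomial
open Pool.Agent.FY (Res)

namespace DAl_aux

/-- a derivation which is zero on `c` is zero on `ℚ (c)` -/
theorem onAdj (F : Type) [Field F] [CharZero F] (ι : Type) (c : ι → F) (D : Derivation ℤ F F) (hc : ∀ i, D (c i) = 0)
    (y : F) (hy : y ∈ IntermediateField.adjoin ℚ (Set.range c)) : D y = 0 := by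
  induction hy using IntermediateField.adjoin_induction with
  | mem x hx =>
    obtain ⟨i, rfl⟩ := hx
    exact hc i
  | algebraMap q =>
    have h1 : D.toLinearMap.toAddMonoidHom (q • (1 : F)) = q • D.toLinearMap.toAddMonoidHom (1 : F) := map_rat_smul _ _ _
    have h2 : D (q • (1 : F)) = q • D (1 : F) := h1
    rw [Algebra.algebraMap_eq_smul_one, h2, D.map_one_eq_zero, smul_zero]
  | add x y _ _ hx hy => rw [map_add, hx, hy, add_zero]
  | inv x _ hx => rw [Derivation.leibniz_inv, hx, smul_zero]
  | mul x y _ _ hx hy => rw [Derivation.leibniz, hx, hy, smul_zero, smul_zero, add_zero]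

end DAl_aux

open DAl_aux

theorem tDAl : S_DAl := by
  intro F _ _ ι c D hc y hy
  have h0 := onAdj F ι c D hc
  let D' : Derivation (IntermediateField.adjoin ℚ (Set.range c)) F F :=
    Derivation.mk'
      { toFun := fun x => D x
        map_add' := fun x y => map_add D x y
        map_smul' := fun a x => by
          show D ((a : F) * x) = (a : F) * D x
          rw [Derivation.leibniz, h0 a a.2, smul_zero, add_zero, smul_eq_mul] }
      (fun a b => D.leibniz a b)
  have hD : ∀ x, D' x = D x := fun x => rfl
  have h1 : IsIntegral (IntermediateField.adjoin ℚ (Set.range c)) y := hy.isIntegral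
  have h2 := D'.map_aeval (minpoly (IntermediateField.adjoin ℚ (Set.range c)) y) y
  rw [minpoly.aeval, map_zero] at h2
  have h3 : (minpoly (IntermediateField.adjoin ℚ (Set.range c)) y).Separable := (minpoly.irreducible h1).separable
  have h4 := h3.aeval_derivative_ne_zero (minpoly.aeval _ y)
  rw [← hD]
  exact (smul_eq_zero.1 h2.symm).resolve_left h4

end Pool.Agent.QV
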