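import Pool.Agent.Lib.MP_b53bfe_ag.Q.SpecD

/-!
# Density of algebraically independent families
-/

set_option autoImplicit false

noncomputable section

namespace Pool.Agent.QV

open MvPolynomial
open Pool.Agent.FY (Res)

namespace Dns_aux

theorem isOpen_ne (Q : MvPolynomial Mo5 ℂ) : IsOpen {c : Mo5 → ℂ | eval c Q ≠ 0} := by
  have h : Continuous fun c : Mo5 → ℂ => eval c Q := MvPolynomial.continuous_eval Q
  exact isOpen_ne_fun h continuous_const

theorem dense_ne (Q : MvPolynomial Mo5 ℂ) (hQ : Q ≠ 0) : Dense {c : Mo5 → ℂ | eval c Q ≠ 0} := by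
  rw [Metric.dense_iff]
  intro c r hr
  by_contra hne
  rw [Set.not_nonempty_iff_eq_empty] at hne
  refine hQ ?_
  refine MvPolynomial.funext_set (fun i => Metric.ball (c i) r) (fun i => ?_) ?_
  · have h1 : (Metric.ball (c i) r) ∈ nhds (c i) := Metric.ball_mem_nhds _ hr
    exact infinite_of_mem_nhds (c i) h1
  · intro x hx
    have hx2 : x ∈ Metric.ball c r := by
      rw [Metric.mem_ball, dist_pi_lt_iff hr]
      intro i
      exact hx i (Set.mem_univ i)
    rw [map_zero]
    by_contra h0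
    have : x ∈ Metric.ball c r ∩ {c : Mo5 → ℂ | eval c Q ≠ 0} := ⟨hx2, h0⟩
    rw [hne] at this
    exact this

theorem aeval_eq (c : Mo5 → ℂ) (P : MvPolynomial Mo5 ℚ) :
    aeval c P = eval c (map (algebraMap ℚ ℂ) P) := by
  rw [aeval_def, eval₂_eq_eval_map]

theorem map_ne (P : MvPolynomial Mo5 ℚ) (hP : P ≠ 0) : map (algebraMap ℚ ℂ) P ≠ 0 := by
  intro h
  exact hP (MvPolynomial.map_injective _ (algebraMap ℚ ℂ).injective (h.trans (map_zero _).symm))

theorem set_eq : {c : Mo5 → ℂ | AlgebraicIndependent ℚ c} =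
    ⋂ P : {P : MvPolynomial Mo5 ℚ // P ≠ 0}, {c : Mo5 → ℂ | eval c (map (algebraMap ℚ ℂ) P.1) ≠ 0} := by
  ext c
  simp only [Set.mem_iInter]
  constructor
  · intro h P h0
    exact P.2 (algebraicIndependent_iff.1 h P.1 ((aeval_eq c P.1).trans h0))
  · intro h
    refine algebraicIndependent_iff.2 fun P hP => ?_
    by_contra h0
    exact h ⟨P, h0⟩ ((aeval_eq c P).symm.trans hP)

theorem ctb : Countable (MvPolynomial Mo5 ℚ) := by
  rw [← Cardinal.mk_le_aleph0_iff]
  refine (MvPolynomial.cardinalMk_le_max (σ := Mo5) (R := ℚ)).trans ?_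
  simp

theorem dense_ai : Dense {c : Mo5 → ℂ | AlgebraicIndependent ℚ c} := by
  haveI := ctb
  rw [set_eq]
  exact dense_iInter_of_isOpen (fun P => isOpen_ne _) fun P => dense_ne _ (map_ne _ P.2)

theorem aind (c : Mo5 → ℂ) (hc : AlgebraicIndependent ℚ c) : AInd ℂ (quin c) := by
  refine ⟨quin_hom c, ?_⟩
  have : (fun m : Mo5 => coeff m.1 (quin c)) = c := funext fun m => coeff_quin c m
  rw [this]
  exact hc

end Dns_aux

open Dns_aux in
theorem tDns : S_Dns := by
  refine ⟨dense_ai, aind, ?_, ?_⟩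
  · intro Q hQ
    obtain ⟨c, hc⟩ := (dense_ai.inter_of_isOpen_right (dense_ne Q hQ) (isOpen_ne Q)).nonempty
    exact ⟨c, hc.1, hc.2⟩
  · intro g ε hg hε
    obtain ⟨c, hc, hai⟩ := Metric.dense_iff.1 dense_ai (fun m : Mo5 => coeff m.1 g) ε hε
    refine ⟨quin c, aind c hai, fun m => ?_⟩
    by_cases hm : m.degree = 5
    · have h1 := coeff_quin c ⟨m, hm⟩
      simp only at h1
      rw [h1]
      rw [Metric.mem_ball, dist_pi_lt_iff hε] at hc
      have h2 := hc ⟨m, hm⟩
      rw [dist_eq_norm] at h2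
      exact h2
    · rw [(quin_hom c).coeff_eq_zero hm, hg.coeff_eq_zero hm, sub_zero, norm_zero]
      exact hε

end Pool.Agent.QV
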