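import Pool.Agent.Lib.MP_b53bfe_ag.Q.SpecL

/-!
# Q/DvL: division by three linear forms (helper95)
-/

set_option autoImplicit false

noncomputable section

namespace Pool.Agent.QV

open Matrix
open MvPolynomial
open Pool.Agent.FY (Res)

namespace DvL_aux

/-- the three other indices -/
def jj (i : Fin 4) (k : Fin 3) : Fin 5 := sc (i.succAbove k)

theorem jj_inj (i : Fin 4) : Function.Injective (jj i) := fun _ _ h =>
  Fin.succAbove_right_injective (Fin.succAbove_right_injective h)

theorem jj_ne3 (i : Fin 4) (k : Fin 3) : jj i k ≠ 3 := Fin.succAbove_ne _ _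

theorem jj_nei (i : Fin 4) (k : Fin 3) : jj i k ≠ sc i := fun h =>
  Fin.succAbove_ne _ _ (Fin.succAbove_right_injective h)

theorem sc_ne3 (i : Fin 4) : sc i ≠ 3 := Fin.succAbove_ne _ _

theorem cases5 (i : Fin 4) (j : Fin 5) : j = 3 ∨ j = sc i ∨ ∃ k, j = jj i k := by
  rcases Fin.eq_self_or_eq_succAbove 3 j with h | ⟨a, h⟩
  · exact Or.inl h
  · rcases Fin.eq_self_or_eq_succAbove i a with h' | ⟨b, h'⟩
    · exact Or.inr (Or.inl (by rw [h, h']))
    · exact Or.inr (Or.inr ⟨b, by rw [h, h']; rfl⟩)

theorem sum5 {M : Type} [AddCommMonoid M] (i : Fin 4) (F : Fin 5 → M) :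
    ∑ j, F j = F 3 + (F (sc i) + ∑ k, F (jj i k)) := by
  rw [Fin.sum_univ_succAbove F 3, Fin.sum_univ_succAbove (fun a => F (Fin.succAbove 3 a)) i]
  rfl

variable {K : Type} [Field K]

/-- the linear forms -/
def ph (i : Fin 4) (e d : Fin 5 → K) (k : Fin 3) : Fin 5 → K :=
  Pi.single (jj i k) 1 - Pi.single 3 (e (jj i k)) - Pi.single (sc i) (d (jj i k))

variable (i : Fin 4) (e d : Fin 5 → K)

theorem ph3 (k : Fin 3) : ph i e d k 3 = - e (jj i k) := by
  simp [ph, (jj_ne3 i k).symm, (sc_ne3 i).symm]

theorem phi (k : Fin 3) : ph i e d k (sc i) = - d (jj i k) := by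
  simp [ph, (jj_nei i k).symm, (sc_ne3 i)]

theorem phj (k l : Fin 3) : ph i e d k (jj i l) = if l = k then 1 else 0 := by
  have : jj i l = jj i k ↔ l = k := (jj_inj i).eq_iff
  simp [ph, Pi.single_apply, this, jj_ne3 i l, jj_nei i l]

theorem hc_mul {l c : MvPolynomial (Fin 5) K} (hl : l.IsHomogeneous 1) :
    homogeneousComponent 5 (l * c) = l * homogeneousComponent 4 c := by
  have h1 : l * c = ∑ n ∈ Finset.range (c.totalDegree + 1), l * homogeneousComponent n c := by
    rw [← Finset.mul_sum, sum_homogeneousComponent]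
  have h2 : ∀ n, homogeneousComponent 5 (l * homogeneousComponent n c) =
      if n = 4 then l * homogeneousComponent n c else 0 := by
    intro n
    have hm : (l * homogeneousComponent n c) ∈ homogeneousSubmodule (Fin 5) K (1 + n) :=
      hl.mul (homogeneousComponent_isHomogeneous n c)
    rw [homogeneousComponent_of_mem hm]
    by_cases h : n = 4
    · rw [if_pos h, if_pos (by omega)]
    · rw [if_neg h, if_neg (by omega)]
  rw [h1, map_sum]
  simp only [h2]
  rw [Finset.sum_ite_eq' (Finset.range (c.totalDegree + 1)) 4 (fun n => l * homogeneousComponent n c)]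
  by_cases h : 4 ∈ Finset.range (c.totalDegree + 1)
  · rw [if_pos h]
  · rw [if_neg h, homogeneousComponent_eq_zero, mul_zero]
    rw [Finset.mem_range] at h
    omega

end DvL_aux

open DvL_aux

theorem tDvL : S_DvL := by
  intro K _ _ f V i e d hf hV hB
  obtain ⟨e3, ei, d3, di, sp⟩ := hB
  have heV : e ∈ V := by rw [sp]; exact Submodule.subset_span (by simp)
  have hdV : d ∈ V := by rw [sp]; exact Submodule.subset_span (by simp)
  have hVv : ∀ v ∈ V, v = v 3 • e + v (sc i) • d := by
    intro v hv
    rw [sp, Submodule.mem_span_pair] at hv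
    obtain ⟨a, b, rfl⟩ := hv
    have h3 : (a • e + b • d) 3 = a := by simp [e3, d3]
    have hi : (a • e + b • d) (sc i) = b := by simp [ei, di]
    rw [h3, hi]
  have hAnn : ∀ ψ : Fin 5 → K, ψ ∈ Ann V → ψ = ∑ k, ψ (jj i k) • ph i e d k := by
    intro ψ hψ
    have h1 := hψ e heV
    have h2 := hψ d hdV
    rw [sum5 i] at h1 h2
    rw [e3, ei] at h1
    rw [d3, di] at h2
    funext j
    rw [Finset.sum_apply]
    rcases cases5 i j with rfl | rfl | ⟨l, rfl⟩
    · simp only [Pi.smul_apply, smul_eq_mul, ph3, mul_neg, Finset.sum_neg_distrib]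
      linear_combination h1
    · simp only [Pi.smul_apply, smul_eq_mul, phi, mul_neg, Finset.sum_neg_distrib]
      linear_combination h2
    · simp only [Pi.smul_apply, smul_eq_mul, phj, mul_ite, mul_one, mul_zero]
      rw [Finset.sum_ite_eq]
      simp
  have hph : ∀ k, ph i e d k ∈ Ann V := by
    intro k v hv
    rw [sum5 i]
    simp only [ph3, phi, phj]
    have h := congrFun (hVv v hv) (jj i k)
    simp only [Pi.add_apply, Pi.smul_apply, smul_eq_mul] at h
    have h' : ∑ l, (if l = k then (1 : K) else 0) * v (jj i l) = v (jj i k) := by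
      simp
    rw [h', h]
    ring
  -- the ideal
  set ℓ : Fin 3 → MvPolynomial (Fin 5) K := fun k => ∑ j, C (ph i e d k j) * X j with hℓ
  have hℓe : ∀ k, ℓ k = X (jj i k) - (C (e (jj i k)) * X 3 + C (d (jj i k)) * X (sc i)) := by
    intro k
    rw [hℓ]
    change ∑ j, C (ph i e d k j) * X j = _
    rw [sum5 i]
    simp only [ph3, phi, phj]
    have h' : ∑ l, C (if l = k then (1 : K) else 0) * (X (jj i l) : MvPolynomial (Fin 5) K) =
        X (jj i k) := by
      rw [Finset.sum_eq_single k]
      · simp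
      · intro b _ hb
        rw [if_neg hb, C_0, zero_mul]
      · simp
    rw [h', C_neg, C_neg]
    ring
  have hℓ1 : ∀ k, (ℓ k).IsHomogeneous 1 := by
    intro k
    refine IsHomogeneous.sum _ _ _ fun j _ => ?_
    exact isHomogeneous_C_mul_X _ _
  set I : Ideal (MvPolynomial (Fin 5) K) := Ideal.span (Set.range ℓ) with hI
  set θ : MvPolynomial (Fin 5) K →ₐ[K] MvPolynomial (Fin 5) K :=
    aeval (fun j => C (e j) * X 3 + C (d j) * X (sc i)) with hθ
  have hq : (Ideal.Quotient.mkₐ K I).comp θ = Ideal.Quotient.mkₐ K I := by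
    refine MvPolynomial.algHom_ext fun j => ?_
    rw [AlgHom.comp_apply, hθ, aeval_X]
    rcases cases5 i j with rfl | rfl | ⟨l, rfl⟩
    · rw [e3, d3, C_1, C_0, one_mul, zero_mul, add_zero]
    · rw [ei, di, C_1, C_0, one_mul, zero_mul, zero_add]
    · symm
      change Ideal.Quotient.mk I _ = Ideal.Quotient.mk I _
      rw [Ideal.Quotient.eq, ← hℓe]
      exact Ideal.subset_span ⟨l, rfl⟩
  have hθf : θ f = 0 := by
    refine MvPolynomial.funext fun x => ?_
    rw [map_zero]
    have h1 : eval x (θ f) = eval (fun j => e j * x 3 + d j * x (sc i)) f := by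
      rw [hθ, ← MvPolynomial.coe_aeval_eq_eval, ← MvPolynomial.coe_aeval_eq_eval]
      change ((aeval x).comp (aeval _)) f = aeval _ f
      refine congrFun (congrArg DFunLike.coe (MvPolynomial.algHom_ext fun j => ?_)) f
      rw [AlgHom.comp_apply, aeval_X, aeval_X]
      simp
    rw [h1]
    refine hV _ ?_
    have : (fun j => e j * x 3 + d j * x (sc i)) = x 3 • e + x (sc i) • d := by
      funext j
      simp only [Pi.add_apply, Pi.smul_apply, smul_eq_mul]
      ring
    rw [this]
    exact V.add_mem (V.smul_mem _ heV) (V.smul_mem _ hdV)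
  have hfI : f ∈ I := by
    have h := congrFun (congrArg DFunLike.coe hq) f
    rw [AlgHom.comp_apply, hθf, map_zero] at h
    exact (Ideal.Quotient.eq_zero_iff_mem).1 h.symm
  rw [hI, Ideal.mem_span_range_iff_exists_fun] at hfI
  obtain ⟨c, hc⟩ := hfI
  refine ⟨ph i e d, fun k => homogeneousComponent 4 (c k), ?_, ?_, ?_, ?_⟩
  · rw [Fintype.linearIndependent_iff]
    intro a ha l
    have h := congrFun ha (jj i l)
    rw [Finset.sum_apply] at h
    simp only [Pi.smul_apply, smul_eq_mul, phj, mul_ite, mul_one, mul_zero] at h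
    rw [Finset.sum_ite_eq] at h
    simpa using h
  · ext ψ
    constructor
    · intro h
      rw [SetLike.mem_coe] at h
      change ψ ∈ Ann V
      induction h using Submodule.span_induction with
      | mem x hx => obtain ⟨k, rfl⟩ := hx; exact hph k
      | zero => intro v _; simp
      | add x y _ _ hx hy =>
        intro v hv
        simp only [Pi.add_apply, add_mul, Finset.sum_add_distrib]
        rw [hx v hv, hy v hv, add_zero]
      | smul a x _ hx =>
        intro v hv
        simp only [Pi.smul_apply, smul_eq_mul, mul_assoc]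
        rw [← Finset.mul_sum, hx v hv, mul_zero]
    · intro h
      rw [SetLike.mem_coe, hAnn ψ h]
      exact Submodule.sum_mem _ fun k _ => Submodule.smul_mem _ _ (Submodule.subset_span ⟨k, rfl⟩)
  · intro k
    exact homogeneousComponent_isHomogeneous _ _
  · have h5 : homogeneousComponent 5 f = f := homogeneousComponent_eq_self hf
    conv_lhs => rw [← h5, ← hc]
    rw [map_sum]
    refine Finset.sum_congr rfl fun k _ => ?_
    rw [mul_comm, hc_mul (hℓ1 k)]

end Pool.Agent.QV
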