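import Pool.Agent.Lib.MP_b53bfe_ag.Q.SpecQ
import Pool.Agent.Lib.MP_b53bfe_ag.Q.Bas

/-!
# Assembly of Part E, second form (`S_EEp`)
-/

set_option autoImplicit false

noncomputable section

namespace Pool.Agent.QV

open Matrix MvPolynomial
open Pool.Agent.FY (Res)

namespace EEp_aux

theorem d_pow {L E : Type} [CommRing L] [Ring E] [Algebra L E] (C : Cal L E) (x : L) (n : ℕ) : C.d x * C.d (x ^ n) = 0 := by
  induction n with
  | zero =>
    have h := C.mul 1 1
    rw [one_smul, mul_one] at h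
    have h1 : C.d (1 : L) = 0 := by
      have h2 := sub_eq_zero.2 h
      have h3 : C.d (1 : L) - (C.d 1 + C.d 1) = - C.d 1 := by abel
      rw [h3] at h2
      exact neg_eq_zero.1 h2
    rw [pow_zero, h1, mul_zero]
  | succ n ih =>
    rw [pow_succ, C.mul, mul_add, mul_smul_comm, mul_smul_comm, ih, C.sq, smul_zero, smul_zero, add_zero]

theorem rho_X3 {K : Type} [Field K] (a : Par K) (i : Fin 3) : rho a (X (i, 3)) = X (i, 3) := by
  unfold rho
  rw [aeval_X]
  split_ifs with h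
  · have h' : i = 0 := h
    subst h'
    rfl
  · rfl

end EEp_aux

open EEp_aux

theorem tEEp : S_ChP → S_Wv → S_Tor → S_Lat → S_Fin → S_CmpS → S_Ch1 → S_Ch2 → S_CmpM → S_GoodM → S_EEp := by
  intro hChP hWv hTor hLat hFin hCmpS hCh1 hCh2 hCmpM hGoodM
  intro K _ _ a κ Lb E _ _ _ _ _ _ C hu hA hκ hdW
  obtain ⟨hW0, hWi⟩ := hWv K a
  obtain ⟨χ, hP, hv⟩ := hChP K (Fin 3 × Fin 5) Lb E C (WW a) 9 hu hW0 hdW (by norm_num)
  have noe : IsNoetherianRing (PP K) := inferInstance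
  -- killed by `X (i, 3)`
  have k1 : ∀ (i : Fin 3) (M : Type) [AddCommGroup M] [Module (PP K) M], Module.Finite (PP K) M → KW (WW a) M →
      (∀ m : M, (X (i, 3) : PP K) • m = 0) → χ.f M = 0 := by
    intro i M _ _ hM hk hx
    obtain ⟨W₀, h0, h1⟩ := hWi i
    exact hv (i, 3) W₀ (X (i, 3) ^ 4) h1 h0 (d_pow C _ 4) M hM hx hk
  have k2 : ∀ l : List (PP K), (∀ s ∈ l, ∃ i : Fin 3, s = X (i, 3)) → ∀ (M : Type) [AddCommGroup M] [Module (PP K) M],
      Module.Finite (PP K) M → KW (WW a) M → (∃ k : ℕ, ∀ m : M, l.prod ^ k • m = 0) → χ.f M = 0 := by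
    intro l hl
    refine hTor (PP K) (WW a) E χ l noe ?_
    intro s hs M _ _ hM hk hx
    obtain ⟨i, rfl⟩ := hl s hs
    exact k1 i M hM hk hx
  have k3 : ∀ (M : Type) [AddCommGroup M] [Module (PP K) M], Module.Finite (PP K) M → KW (WW a) M →
      (∃ k : ℕ, ∀ m : M, thP K ^ k • m = 0) → χ.f M = 0 := by
    intro M _ _ hM hk hx
    refine k2 [X (0, 3), X (1, 3), X (2, 3)] ?_ M hM hk ?_
    · intro s hs
      simp only [List.mem_cons, List.not_mem_nil, or_false] at hs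
      rcases hs with rfl | rfl | rfl
      · exact ⟨0, rfl⟩
      · exact ⟨1, rfl⟩
      · exact ⟨2, rfl⟩
    · have e : ([X (0, 3), X (1, 3), X (2, 3)] : List (PP K)).prod = thP K := by
        simp only [List.prod_cons, List.prod_nil, mul_one, thP, mul_assoc]
      rw [e]
      exact hx
  obtain ⟨Φ, hΦ, hΦp⟩ := hLat (PP K) (WW a) (thP K) E χ noe k3
  have perf : ∀ (N : Type) [AddCommGroup N] [Module (PP K) N], Module.Finite (PP K) N → Reg (WW a) N → χ.f (Qt (WW a) N) = 0 :=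
    fun N _ _ h1 h2 => hP.perf N h1 h2
  have perf' := hΦp perf
  obtain ⟨_, hrW, hrF⟩ := hFin K a hA
  refine ⟨χ, perf, ?_, ?_⟩
  · intro M _ _ hM hf hx
    obtain ⟨i, k, hx⟩ := hx
    refine k2 [X (i, 3)] ?_ (Res (rho a).toRingHom M) (hrF M hM) ?_ ⟨k, ?_⟩
    · intro s hs
      exact ⟨i, List.mem_singleton.1 hs⟩
    · intro m
      change (rho a (WW a)) • (Res.val m : M) = 0
      rw [hrW, add_smul, add_smul, hf, hf, hf, add_zero, add_zero]
    · intro m
      rw [List.prod_singleton]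
      change (rho a (X (i, 3) ^ k)) • (Res.val m : M) = 0
      rw [map_pow, rho_X3]
      exact hx _
  · have e1 : χ.f (Res (rho a).toRingHom (PP K ⧸ smI a)) = Φ.f (Res (rho a).toRingHom (PP K ⧸ smI a)) := by
      refine (hΦ _ (hrF _ inferInstance) ?_).symm
      have hk : KW (rho a (WW a)) (PP K ⧸ smI a) := by
        refine KW.quot _ ?_
        rw [hrW]
        have hf : ∀ i, fS a i ∈ smI a := fun i => Ideal.subset_span (Or.inr ⟨i, rfl⟩)
        exact Ideal.add_mem _ (Ideal.add_mem _ (hf 0) (hf 1)) (hf 2)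
      intro m
      exact hk m
    rw [e1, hCmpS K a E Φ hA, hCh1 K a E Φ perf', hCh2 K a E Φ κ hκ]
    refine Finset.sum_congr rfl fun k _ => ?_
    obtain ⟨g1, g2, g3⟩ := hGoodM K a (κ k) (hκ.1 k)
    rw [← hCmpM K a E Φ (κ k) (hκ.1 k), hΦ _ inferInstance (KW.quot _ g3)]
    exact hP.kos _ _ (prs a (κ k)) g1 rfl g2

end Pool.Agent.QV

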