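import Pool.Agent.Lib.MP_b53bfe_ag.Q.SpecV

/-!
# Extension of polynomial rings
-/

set_option autoImplicit false

noncomputable section

namespace Pool.Agent.QV

open Matrix

open MvPolynomial
open Pool.Agent.FY (Res)

namespace ExtV_aux

variable {K : Type} [Field K]

/-- `B` as a polynomial ring in four variables over `K[x, u]` -/
def Ph (K : Type) [Field K] : BC K ≃ₐ[K] MvPolynomial (Fin 4) (CC K) :=
  (renameEquiv K (Equiv.sumComm VC (Fin 4))).trans (sumAlgEquiv K (Fin 4) VC)

theorem Ph_apply (x : BC K) :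
    Ph K x = sumAlgEquiv K (Fin 4) VC (rename Sum.swap x) := rfl

theorem Ph_iC (a : CC K) : Ph K (iC a) = C a := by
  have h : (Ph K).toAlgHom.comp (iC (K := K)) =
      IsScalarTower.toAlgHom K (CC K) (MvPolynomial (Fin 4) (CC K)) := by
    refine MvPolynomial.algHom_ext fun v => ?_
    change Ph K (iC (X v)) = C (X v)
    rw [Ph_apply, iC, rename_X, rename_X, Sum.swap_inl]
    exact sumAlgEquiv_X_inr (R := K) (S₁ := Fin 4) (S₂ := VC) (c := v)
  have h2 := DFunLike.congr_fun h a
  exact h2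

theorem map_eq (J : Ideal (CC K)) :
    (J.map (iC (K := K)).toRingHom).map (Ph K).toRingEquiv.toRingHom = J.map C := by
  rw [Ideal.map_map]
  exact congrArg (fun g => Ideal.map g J) (RingHom.ext fun a => Ph_iC a)

theorem mem_iff (J : Ideal (CC K)) (x : BC K) :
    x ∈ J.map (iC (K := K)).toRingHom ↔ ∀ d : Fin 4 →₀ ℕ, coeff d (Ph K x) ∈ J := by
  rw [← MvPolynomial.mem_map_C_iff, ← map_eq]
  constructor
  · intro hx
    exact Ideal.mem_map_of_mem _ hx
  · intro hx
    obtain ⟨y, hy, hyx⟩ := (Ideal.mem_map_iff_of_surjective (Ph K).toRingEquiv.toRingHom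
      (Ph K).surjective).1 hx
    have : y = x := (Ph K).injective hyx
    rw [← this]
    exact hy

theorem hth : ∃ c : BC K, hV K (thV K) = iC (xC K 3) * c := by
  refine ⟨hV K (X (1, 3)) * hV K (X (2, 3)), ?_⟩
  unfold thV
  rw [map_mul, map_mul, mul_assoc]
  congr 1
  unfold hV
  rw [aeval_X]
  rfl

end ExtV_aux

open ExtV_aux in
theorem tExtV : S_Hfv → S_ExtV := by
  intro _h K _ J
  refine ⟨?_, fun x => mem_iff J x, ?_⟩
  · intro a ha x hx
    rw [mem_iff] at hx
    have h1 : ∀ d : Fin 4 →₀ ℕ, ∃ k : ℕ, xC K 3 ^ k * coeff d (Ph K x) ∈ J := by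
      intro d
      have h2 := hx d
      rw [map_mul, Ph_iC, coeff_C_mul] at h2
      exact ha _ h2
    choose k hk using h1
    obtain ⟨c, hc⟩ := hth (K := K)
    refine ⟨(Ph K x).support.sup k, ?_⟩
    have h3 : iC (xC K 3) ^ (Ph K x).support.sup k * x ∈ J.map (iC (K := K)).toRingHom := by
      rw [mem_iff]
      intro d
      rw [map_mul, map_pow, Ph_iC, ← C_pow, coeff_C_mul]
      by_cases hd : d ∈ (Ph K x).support
      · have h4 : k d ≤ (Ph K x).support.sup k := Finset.le_sup hd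
        obtain ⟨e, he⟩ := Nat.exists_eq_add_of_le h4
        rw [he, pow_add, mul_comm (xC K 3 ^ k d), mul_assoc]
        exact J.mul_mem_left _ (hk d)
      · rw [notMem_support_iff.1 hd, mul_zero]
        exact J.zero_mem
    rw [hc, mul_pow, mul_comm (iC (xC K 3) ^ _), mul_assoc]
    exact Ideal.mul_mem_left _ _ h3
  · intro f S
    unfold JB JC
    rw [Ideal.map_span]
    congr 1
    ext y
    constructor
    · rintro ⟨i, hi, rfl⟩
      exact ⟨Fw f i, ⟨i, hi, rfl⟩, rfl⟩
    · rintro ⟨_, ⟨i, hi, rfl⟩, rfl⟩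
      exact ⟨i, hi, rfl⟩

end Pool.Agent.QV
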