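import Pool.Agent.Lib.MP_b53bfe_ag.Q.DefsD

/-!
# Disproof of Q1 of MP_b53bfe_ag for quintic threefolds, phase 2: all quintic forms with algebraically independent coefficients

`HQ ℂ f₀` for one form `f₀ ≠ 0` implies `HQ ℂ f` for all quintic forms `f` with algebraically independent coefficients (`S_Gen`); these are smooth (`S_Smg`) and dense (`S_Dns`). Plan: (1) specialization over `k[[t]]`: `f₀` = the form at `t = 0`,
`HQ k f₀ → HQ k((t)) f` (`S_KZ`, `S_LtS`, `S_Dev`, `S_SLb`, `S_SLa`, `S_SLp`, `S_SLt`, `S_SgT`, `S_SLs`, `S_SL`); (2) algebraic extensions (`S_RSm`, `S_RS`, `S_DLa`, `S_DLb`, `S_DLq`, `S_DLf`, `S_DL`); (3) isomorphisms of the algebraic closure of `ℂ((t))` with `ℂ` (`S_TR`, `S_Iso`, `S_Crd`).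
-/

set_option autoImplicit false

noncomputable section

namespace Pool.Agent.QV

open MvPolynomial
open Pool.Agent.FY (Res)

/-! ## Additive functions -/

/-- **KZ**. The function `M ↦ χ (M / t M) - χ (ker t)` is additive. An `A`-module `M` killed by `t` is a `P`-module by `ι`; if it is finite over `A` with generators `m_j`, the `m_j` generate it over `P` (`a m = ι p m + t b m = ι p m`); if it is killed by `S` and `t`, it is killed over `P` by `S₀` (elements of `Ideal.span S` kill it); `A`-linear maps are `P`-linear (`Res.map`), so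
`χ` is additive on the finite `A`-modules killed by `t` and `S`. Given `0 → M' → M → M'' → 0` exact with `M` finite (all submodules of `M` are finite, `A` is noetherian), killed by `S`; take `M' = N ⊆ M` a submodule, `M'' = M / N` (`AFS.iso`). Let `N₁ = {m | t m ∈ N}`. The sequences
`0 → ker (t | N) → ker (t | M) → (N + ker t) / N → 0`, `0 → (N + ker t) / N → N₁ / N = ker (t | M / N) → N₁ / (N + ker t) → 0`, `0 → (N ∩ t M) / t N → N / t N → N / (N ∩ t M) → 0`, `0 → N / (N ∩ t M) → M / t M → M / (N + t M) → 0` are exact, and the multiplication by `t` gives an isomorphism `N₁ / (N + ker t) ≅ (N ∩ t M) / t N`.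
Adding up: `χ (M/tM) - χ (ker t | M) = [χ (N/tN) - χ (ker t | N)] + [χ (M''/tM'') - χ (ker t | M'')]`. -/
def S_KZ : Prop :=
  ∀ (P A : Type) [CommRing P] [CommRing A] (ι : P →+* A) (t : A) (S₀ : Set P) (S : Set A) (V : Type) [AddCommGroup V]
    (χ : AFS P S₀ V), IsNoetherianRing A → (∀ a : A, ∃ (p : P) (b : A), a = ι p + t * b) →
    (∀ p ∈ S₀, ∃ r ∈ Ideal.span S, ∃ b : A, ι p = r + t * b) →
    ∃ σ : AFS A S V, ∀ (M : Type) [AddCommGroup M] [Module A M], σ.f M = χ.f (Res ι (Qt t M)) - χ.f (Res ι (Kr t M))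

/-- **LtS**. (1) `σ` is `0` on finite modules killed by `S` and `t ^ k` (induction: `t M` is killed by `t ^ (k-1)`, `M / t M` by `t`), so on finite `t`-torsion modules killed by `S`; `0 → ker g → M → im g → 0`, `0 → im g → N → N / im g → 0`. (2) The `A`-submodule generated by generators `e_i` of `M`: `m = Σ b_i e_i`,
`j t ^ n b_i = j a_i` (one `n` for all `i`). (3) `χ M = σ L` for a chosen lattice `L` (`0` if there is none). Independence: for two lattices `L`, `L'` the inclusion `L → L + L'` has `t`-torsion cokernel, so by (1) `σ L = σ (L + L') = σ L'`. Additivity for `0 → M' → M → M'' → 0`, `L` a lattice in `M`: the preimage of `L` in `M'` is a lattice (finite since `A` is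
noetherian), and so is the image of `L` in `M''`; additivity of `σ`. (See `S_Lat` and `Q/Lat.lean` for the same argument.) -/
def S_LtS : Prop :=
  ∀ (A B : Type) [CommRing A] [CommRing B] (j : A →+* B) (t : A) (S : Set A) (V : Type) [AddCommGroup V] (σ : AFS A S V),
    IsNoetherianRing A → (∀ b : B, ∃ (n : ℕ) (a : A), j t ^ n * b = j a) →
    (∀ (M : Type) [AddCommGroup M] [Module A M], Module.Finite A M → KS S M → (∀ m : M, t • m = 0) → σ.f M = 0) →
    (∀ (M N : Type) [AddCommGroup M] [Module A M] [AddCommGroup N] [Module A N] (g : M →ₗ[A] N),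
      Module.Finite A M → KS S M → Module.Finite A N → KS S N → (∀ m : M, g m = 0 → ∃ n : ℕ, t ^ n • m = 0) →
      (∀ y : N, ∃ (n : ℕ) (m : M), t ^ n • y = g m) → σ.f M = σ.f N) ∧
    (∀ (M : Type) [AddCommGroup M] [Module B M], Module.Finite B M → ∃ L : Submodule A (Res j M), IsLt j t M L) ∧
    ∃ χ : AFS B (j '' S) V, ∀ (M : Type) [AddCommGroup M] [Module B M] (L : Submodule A (Res j M)),
      Module.Finite B M → KS (j '' S) M → IsLt j t M L → χ.f M = σ.f L

/-- **Dev**. `S_KZ` with `P = A = Gr.Pol K`, `ι = id`, `t = Gr.form f l`, `S₀ = Set.range (Gr.form f)`, `S` the set of the two other forms: `τ N = χ (N / f_l N) - χ (ker f_l)` is additive on the finite modules killed by the two other forms (`Res (RingHom.id _) N ≅ N`). `τ` is `0` on modules killed by `f_l`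
(then `N / f_l N ≅ N ≅ ker f_l`), so by induction on those killed by a power of `f_l`; it is `0` if `f_l` is regular on `N` (`perf`, `ker f_l = 0`). For every `N`: the `f_l`-power torsion submodule `T` is finite, so killed by a power of `f_l`, and `f_l` is regular on `N / T`. -/
def S_Dev : Prop :=
  ∀ (K : Type) [Field K] (f : MvPolynomial (Fin 5) K) (E : Type) [AddCommGroup E]
    (χ : AFS (Gr.Pol K) (Set.range (Gr.form f)) E), QF K f E χ →
    ∀ (l : Fin 3) (N : Type) [AddCommGroup N] [Module (Gr.Pol K) N], Module.Finite (Gr.Pol K) N →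
      (∀ i, i ≠ l → ∀ m : N, Gr.form f i • m = 0) → χ.f (Qt (Gr.form f l) N) = χ.f (Kr (Gr.form f l) N)

/-! ## Specialization over `k[[t]]` -/

/-- **SLb**. Simple facts on polynomials over `k[[t]]` and `k((t))`: `k[[t]]` is a principal ideal domain (`PowerSeries` over a field), so noetherian; `LaurentSeries k` is its localization at the powers of `t` (`LaurentSeries.of_powerSeries_localization`; a common exponent `n` for all coefficients); a power series is the sum of its constant coefficient and of a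
multiple of `t`. All statements are coefficientwise (`MvPolynomial.induction_on`, or `MvPolynomial.mem_range_map_iff_coeffs_subset`, `C_dvd_iff_dvd_coeff`). -/
def S_SLb : Prop :=
  ∀ (k : Type) [Field k],
    IsNoetherianRing (At k) ∧
    (∀ (τ : Type) (b : MvPolynomial τ (LaurentSeries k)), ∃ (n : ℕ) (a : MvPolynomial τ (PowerSeries k)),
      map (algebraMap (PowerSeries k) (LaurentSeries k)) (C PowerSeries.X) ^ n * b = map (algebraMap (PowerSeries k) (LaurentSeries k)) a) ∧
    (∀ τ : Type, Function.Injective (map (σ := τ) (algebraMap (PowerSeries k) (LaurentSeries k)))) ∧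
    IsUnit (jF k (tt k)) ∧
    (∀ (τ : Type) (a : MvPolynomial τ (PowerSeries k)), ∃ b : MvPolynomial τ (PowerSeries k),
      a = map (PowerSeries.C (R := k)) (map PowerSeries.constantCoeff a) + C PowerSeries.X * b) ∧
    (∀ (τ : Type) (a : MvPolynomial τ (PowerSeries k)), C PowerSeries.X * a = 0 → a = 0) ∧
    (∀ (τ : Type) (p : MvPolynomial τ k), map PowerSeries.constantCoeff (map (PowerSeries.C (R := k)) p) = p)

/-- **SLa**. `S_KZ` with `ι = iF k`, `t = tt k` (`S_SLb`; `Gr.form (f0 f) i ↦ map C (map constantCoeff (formR f i)) = formR f i - t b`, `map_formR`) gives `σ`. `σ` is `0` on modules killed by `t`: then `M / t M ≅ M ≅ ker t`. `S_LtS` with `j = jF k` gives the two other properties; `jF k '' Set.range (formR f) = Set.range (Gr.form (fL f))` by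
`map_range_formR` (rewrite the type of `χ` with this equality of sets). -/
def S_SLa : Prop :=
  ∀ (k : Type) [Field k] (f : MvPolynomial (Fin 5) (PowerSeries k)) (E : Type) [AddCommGroup E]
    (χ₀ : AFS (Gr.Pol k) (Set.range (Gr.form (f0 f))) E),
    ∃ (σ : AFS (At k) (Set.range (formR f)) E) (χ : AFS (Gr.Pol (LaurentSeries k)) (Set.range (Gr.form (fL f))) E),
      Spz f χ₀ σ χ

/-- **SLp**. Let `L` be a lattice in `N` (`S_LtS` (2)); `g = formR f l`, `jF k g = Gr.form (fL f) l`. The image `L'` of `L` in `Qt (Gr.form (fL f) l) N` is a lattice, and the map `L / g L → L'` is surjective with `t`-torsion kernel (`x ∈ L`, `x = g y`, `y ∈ N`, `t ^ n y ∈ L`, so `t ^ n x ∈ g L`): `χ (Qt _ N) = σ L' = σ Q`, `Q = L / g L` (`Spz.l`, `Spz.c`; `L` is killed by the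
two other forms). `σ Q = χ₀ (Q / t Q) - χ₀ (ker t | Q)`. Let `N₀ = L / t L`, a finite module over `Gr.Pol k` by `iF k` (see `S_KZ`), killed by the two forms `Gr.form (f0 f) i`, `i ≠ l`, and on which `Gr.form (f0 f) l` acts as `g`. `Q / t Q ≅ L / (g L + t L) ≅ N₀ / g N₀`. `ker (t | Q) ≅ ker (g | N₀)`: for `x ∈ L` with `t x = g y`, `y ∈ L`, the element `y` is unique
(`g` is regular on `N`, so on `L`), `x ↦ y mod t L`; if `x = g z` then `y = t z`; if `y = t z` then `t x = t g z`, `x = g z` (`t` is invertible on `N`); it is surjective. So `σ Q = χ₀ (N₀ / g N₀) - χ₀ (ker g | N₀) = 0` by `S_Dev`. -/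
def S_SLp : Prop :=
  ∀ (k : Type) [Field k] (f : MvPolynomial (Fin 5) (PowerSeries k)) (E : Type) [AddCommGroup E]
    (χ₀ : AFS (Gr.Pol k) (Set.range (Gr.form (f0 f))) E) (σ : AFS (At k) (Set.range (formR f)) E)
    (χ : AFS (Gr.Pol (LaurentSeries k)) (Set.range (Gr.form (fL f))) E), Spz f χ₀ σ χ → QF k (f0 f) E χ₀ →
    ∀ (l : Fin 3) (N : Type) [AddCommGroup N] [Module (Gr.Pol (LaurentSeries k)) N], Module.Finite (Gr.Pol (LaurentSeries k)) N →
      (∀ i, i ≠ l → ∀ m : N, Gr.form (fL f) i • m = 0) → Reg (Gr.form (fL f) l) N → χ.f (Qt (Gr.form (fL f) l) N) = 0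

/-- **SLt**. `L` a lattice in `M` (`S_LtS` (2)): `χ M = σ L = χ₀ (L / t L) - χ₀ (ker t | L)`, and both modules are finite over `Gr.Pol k`, killed by the forms `Gr.form (f0 f) i` and by `X (i, 3) ^ k` (see `S_KZ`, `S_SLa`). -/
def S_SLt : Prop :=
  ∀ (k : Type) [Field k] (f : MvPolynomial (Fin 5) (PowerSeries k)) (E : Type) [AddCommGroup E]
    (χ₀ : AFS (Gr.Pol k) (Set.range (Gr.form (f0 f))) E) (σ : AFS (At k) (Set.range (formR f)) E)
    (χ : AFS (Gr.Pol (LaurentSeries k)) (Set.range (Gr.form (fL f))) E), Spz f χ₀ σ χ → QF k (f0 f) E χ₀ →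
    ∀ (M : Type) [AddCommGroup M] [Module (Gr.Pol (LaurentSeries k)) M], Module.Finite (Gr.Pol (LaurentSeries k)) M →
      KS (Set.range (Gr.form (fL f))) M →
      (∃ (i : Fin 3) (n : ℕ), ∀ m : M, (X (i, 3) : Gr.Pol (LaurentSeries k)) ^ n • m = 0) → χ.f M = 0

/-- **SgT**. Let `J = (smR f)` in `At k`, `B = k[[t]][x, μ, ν]`, `g = gR`. (a) `g J ⊆ (f (x))`: the minors go to `0`, the forms to `μ⁵ f (x)`, `f (x)`, `ν⁵ f (x)` (`f` is homogeneous). (b) If `g p ∈ (f (x))` then `X (1, 3) ^ m p ∈ J` for some `m`: let `T = At k / J`, `T' = Localization.Away` of the class `v` of `X (1, 3)`, `h : B → T'` the `k[[t]]`-algebra homomorphism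
`x_j ↦ X (1, j)`, `μ ↦ X (0, 3) / v`, `ν ↦ X (2, 3) / v`. `h ∘ g` is the canonical map `At k → T'` (on the variables: `X (0, 3) X (1, j) / v = X (0, j)` because of the minors), `h (f (x)) = 0`. So `p` goes to `0` in `T'`. (c) If `t p ∈ J` then `t g p ∈ (f (x))`, `t g p = f (x) c`; modulo `t` (coefficients in `k`): `0 = f₀ (x) c₀`, `f₀ ≠ 0`, so `c₀ = 0`,
`c = t c'` (`S_SLb`), `g p = f (x) c'`. (b) gives the claim. -/
def S_SgT : Prop :=
  ∀ (k : Type) [Field k] (f : MvPolynomial (Fin 5) (PowerSeries k)), f.IsHomogeneous 5 → f0 f ≠ 0 →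
    ∀ p : At k, tt k * p ∈ Ideal.span (smR f) → ∃ m : ℕ, X (1, 3) ^ m * p ∈ Ideal.span (smR f)

/-- **SLs**. `M = Gr.Pol (k((t))) / (smallGens (fL f))`, `L` the image of `At k`: a lattice (`S_SLb`). With `J = (smR f)` the map `At k / J → L` is surjective with `t`-torsion kernel (if `jF p` is in the ideal generated by `jF '' smR f` (`map_smR`), then `jF (t ^ n p) = Σ jF a_i jF s_i`, `s_i ∈ smR f`, and `jF` is injective, so `t ^ n p ∈ J`). So
`χ M = σ L = σ (At k / J) = χ₀ (At k / (J, t)) - χ₀ (ker t)`. The second module is killed by a power of `X (1, 3)` (`S_SgT`, it is finite), so `χ₀ = 0` (`tors`); the first one is isomorphic to `Gr.Pol k / (smallGens (f0 f))` (`iF k` induces an isomorphism: the inverse is induced by `map constantCoeff`). -/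
def S_SLs : Prop :=
  ∀ (k : Type) [Field k] (f : MvPolynomial (Fin 5) (PowerSeries k)) (E : Type) [AddCommGroup E]
    (χ₀ : AFS (Gr.Pol k) (Set.range (Gr.form (f0 f))) E) (σ : AFS (At k) (Set.range (formR f)) E)
    (χ : AFS (Gr.Pol (LaurentSeries k)) (Set.range (Gr.form (fL f))) E), Spz f χ₀ σ χ → QF k (f0 f) E χ₀ →
    f.IsHomogeneous 5 → f0 f ≠ 0 →
    χ.f (Gr.Pol (LaurentSeries k) ⧸ Ideal.span (Gr.smallGens (fL f))) = χ₀.f (Gr.Pol k ⧸ Ideal.span (Gr.smallGens (f0 f)))

/-- **SL**. Assembly of `S_SLa`, `S_SLp`, `S_SLt`, `S_SLs`. -/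
def S_SL : Prop :=
  ∀ (k : Type) [Field k] (f : MvPolynomial (Fin 5) (PowerSeries k)), f.IsHomogeneous 5 → f0 f ≠ 0 → HQ k (f0 f) →
    HQ (LaurentSeries k) (fL f)

/-! ## Finite extensions -/

/-- **RSm**. A basis `b` of `F` over `k` gives a basis of `Gr.Pol F` over `Gr.Pol k` (coefficientwise: every `p` is uniquely `Σ (map p_l) C (b_l)`; e.g. `MvPolynomial.algebraTensorAlgEquiv` or a direct argument). So finite modules are finite over `Gr.Pol k`. `p` is in the ideal generated by the images of the elements of `smR f` iff all `p_l` are in the ideal generated by `smR f`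
(`s Σ (map p_l) C (b_l) = Σ map (s p_l) C (b_l)`; conversely clear), so the quotient is the direct sum of `[F : k]` copies. -/
def S_RSm : Prop :=
  ∀ (k F : Type) [Field k] [Field F] [Algebra k F], Module.Finite k F →
    (∀ (M : Type) [AddCommGroup M] [Module (Gr.Pol F) M], Module.Finite (Gr.Pol F) M → Module.Finite (Gr.Pol k) (Res (jE k F) M)) ∧
    ∀ f : MvPolynomial (Fin 5) k, Nonempty (Res (jE k F) (Gr.Pol F ⧸ Ideal.span (smR (map (algebraMap k F) f))) ≃ₗ[Gr.Pol k]
      (Fin (Module.finrank k F) → Gr.Pol k ⧸ Ideal.span (smR f)))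

/-- **RS**. `χ' M = χ (Res (jE k F) M)`. Additivity: `S_RSm`, `Res.map`, `map_formR`. `perf`: `Res (N / f_l N) ≅ Res N / f_l Res N`. `tors`: clear. `small`: `χ (M ^ n) = n χ (M)` (induction, `Fin.consEquiv`, `AFS.add`) with `n = [F : k] ≠ 0`, and `E` is a `ℚ`-vector space. -/
def S_RS : Prop :=
  ∀ (k F : Type) [Field k] [Field F] [Algebra k F], Module.Finite k F →
    ∀ (f : MvPolynomial (Fin 5) k) (E : Type) [AddCommGroup E] [Module ℚ E] (χ : AFS (Gr.Pol k) (Set.range (Gr.form f)) E), QF k f E χ →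
      ∃ χ' : AFS (Gr.Pol F) (Set.range (Gr.form (map (algebraMap k F) f))) E, QF F (map (algebraMap k F) f) E χ'

/-! ## Directed systems -/

/-- **DLa**. (1) `x = Σ b_j e_j`, all `b_j` are in the image of `φ i` for `i` large (`cov`, finitely many `b_j`, `dir`). (2) The relations `{c : Fin n → P | Σ c_j p (e_j) = 0}` are generated by finitely many `ρ_l` (`P` noetherian). For `i` large the entries of the `ρ_l` are in the image of `φ i`, and the elements `Σ_j ρ_lj e_j` of `ker p` are in `spi (φ i) a` (by (1)). Let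
`x = Σ q_j e_j`, `q_j = φ i (q'_j)`, `p x = 0`. Then `q = Σ_l s_l ρ_l`, `s_l ∈ P`. Apply the retraction `π`: `q'_j = Σ_l π (s_l) ρ'_lj`, `ρ_lj = φ i (ρ'_lj)` (`φ i` is injective, as `π (φ i a) = a`). So `x = Σ_l π (s_l) • Σ_j ρ_lj e_j ∈ spi (φ i) a`. -/
def S_DLa : Prop :=
  ∀ (P I : Type) [CommRing P] [Preorder I] (A : I → Type) [∀ i, CommRing (A i)] (φ : ∀ i, A i →+* P), DSys P I A φ →
    IsNoetherianRing P →
    (∀ (M : Type) [AddCommGroup M] [Module P M] (n m : ℕ) (e : Fin n → M) (e' : Fin m → M),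
      (∀ j, e' j ∈ Submodule.span P (Set.range e)) → ∃ i₀, ∀ i, i₀ ≤ i → spi (φ i) e' ≤ spi (φ i) e) ∧
    (∀ (B C : Type) [AddCommGroup B] [Module P B] [AddCommGroup C] [Module P C] (p : B →ₗ[P] C) (n m : ℕ) (e : Fin n → B)
      (a : Fin m → B), (∀ x, p x = 0 → x ∈ Submodule.span P (Set.range a)) →
      ∃ i₀, ∀ i, i₀ ≤ i → ∀ x : Res (φ i) B, x ∈ spi (φ i) e → p x.val = 0 → x ∈ spi (φ i) a)

/-- **DLb**. `χ M` is the germ of `i ↦ χi (spi (φ i) e)` for chosen generators `e` of `M` (`0` if `M` is not finite); other generators give the same germ (`S_DLa` (1): `spi (φ i) e = spi (φ i) e'` for `i` large; `Filter.eventually_atTop` for directed preorders). Additivity for `0 → B' → B → B'' → 0` (`h : B' → B`, `p : B → B''`): generators `a` of `B'`, `c` of `B''`, lifts `c'` of `c`,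
`e = (h a, c')`. For `i` large the sequence `0 → spi a → spi e → spi c → 0` is exact: `h` maps `spi a` into `spi e`, injective; `p` maps `spi e` onto `spi c`; the kernel is `spi (h a)`, by `S_DLa` (2). `spi (φ i) e` is finite, and killed by `Si i`. -/
def S_DLb : Prop :=
  ∀ (P I : Type) [CommRing P] [Preorder I] (A : I → Type) [∀ i, CommRing (A i)] (φ : ∀ i, A i →+* P) (S : Set P)
    (Si : ∀ i, Set (A i)) (E : Type) [AddCommGroup E] (χi : ∀ i, AFS (A i) (Si i) E), DSys P I A φ → IsNoetherianRing P →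
    (∀ i, ∀ s ∈ Si i, φ i s ∈ S) →
    ∃ χ : AFS P S (Filter.Germ (Filter.atTop : Filter I) E), RelD φ χi χ

/-- **DLq**. `f_K = map f`, `f_F = map f`; `jE F K` maps `Gr.form f_F l` to `Gr.form f_K l`. `perf`: `e` generators of `N`, `ē` their classes in `M = N / f_l N`. By `S_DLa` (2) for `p : N → M`, `a_j = f_l e_j`: for `F` large `spi e ∩ f_l N = f_l spi e`, so `spi ē ≅ spi e / f_l spi e`, `f_l` is regular on `spi e`, which is killed by the two other forms: the germ is `0` by `perf`
for `χi F`. `tors`: the `spi e` are killed by the power of `X (i, 3)`. `small`: `M = Gr.Pol K / (smR f_K)`, `e = (1)`: `spi e ≅ Gr.Pol F / (p | p ∈ (smR f_K))`; by `S_DLa` (2) for `Gr.Pol K → M`, generators `1` of `Gr.Pol K`, `a` a list of the elements of `smR f_K = jE F K '' smR f_F` (`smR_finite`, `map_smR`): for `F` large this is `Gr.Pol F / (smR f_F)`,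
the value of `χi F` is not `0`; so the germ is not `0` (`atTop` is not `⊥`, as `Fs k K` is directed and not empty). -/
def S_DLq : Prop :=
  ∀ (k K : Type) [Field k] [Field K] [Algebra k K] (f : MvPolynomial (Fin 5) k) (E : Type) [AddCommGroup E]
    (χi : ∀ F : Fs k K, AFS (Gr.Pol F.1) (Set.range (Gr.form (map (algebraMap k F.1) f))) E)
    (χ : AFS (Gr.Pol K) (Set.range (Gr.form (map (algebraMap k K) f))) (Filter.Germ (Filter.atTop : Filter (Fs k K)) E)),
    DSys (Gr.Pol K) (Fs k K) (fun F => Gr.Pol F.1) (fun F => jE F.1 K) →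
    (∀ F : Fs k K, QF F.1 (map (algebraMap k F.1) f) E (χi F)) → RelD (fun F : Fs k K => jE F.1 K) χi χ →
    QF K (map (algebraMap k K) f) (Filter.Germ (Filter.atTop : Filter (Fs k K)) E) χ

/-- **DLf**. `dir`: the compositum of two finite subextensions is finite (`IntermediateField.finiteDimensional_sup`). `cov`: adjoin the coefficients of `p` (algebraic elements, finitely many: `IntermediateField.finiteDimensional_adjoin`); `p` is in the image if its coefficients are in `F` (`MvPolynomial.mem_range_map_iff_coeffs_subset`). `ret`: `r : K → F` an `F`-linear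
retraction of the inclusion (`LinearMap.exists_leftInverse_of_injective`), `π p = Σ_m r (coeff m p) x^m` (apply `r` to the coefficients; a polynomial is a finitely supported function, `Finsupp.mapRange`); `π (map a * p) = a * π p` by `coeff_mul`. -/
def S_DLf : Prop :=
  ∀ (k K : Type) [Field k] [Field K] [Algebra k K], Algebra.IsAlgebraic k K →
    DSys (Gr.Pol K) (Fs k K) (fun F => Gr.Pol F.1) (fun F => jE F.1 K)

/-- **DL**. `HQ k f` gives `(E, χ)`; `S_RS` gives the `χi F` with values in `E` for all finite subextensions `F`; `S_DLf`, `S_DLb` (`S`, `Si` the ranges of the forms), `S_DLq`; `Filter.Germ` of a `ℚ`-vector space is a `ℚ`-vector space (`Filter.Germ.instModule`). -/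
def S_DL : Prop :=
  ∀ (k K : Type) [Field k] [Field K] [Algebra k K], Algebra.IsAlgebraic k K →
    ∀ f : MvPolynomial (Fin 5) k, HQ k f → HQ K (map (algebraMap k K) f)

/-! ## Transport -/

/-- **TR**. `S_RS` for `L` as a `K`-algebra by `e` (`RingHom.toAlgebra`), generated by `1` as a `K`-module. -/
def S_TR : Prop :=
  ∀ (K L : Type) [Field K] [Field L] (e : K ≃+* L) (f : MvPolynomial (Fin 5) K), HQ K f → HQ L (map e.toRingHom f)

/-- **Iso**. Extend `Set.range p` to a transcendence basis `s` of `K` over `ℚ` (`exists_isTranscendenceBasis_superset` or a similar name), `Set.range q` to `t` of `L`. The cardinality of `s` and `t` is the continuum (`IsAlgClosed.cardinal_eq_cardinal_transcendence_basis_of_aleph0_lt`), also after removing the finite sets `Set.range p`, `Set.range q`; `p`, `q` are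
injective. So there is `e : s ≃ t` with `e (p i) = q i`. Continue as in the definition of `IsAlgClosed.equivOfTranscendenceBasis` (Mathlib, `FieldTheory/IsAlgClosed/Classification.lean`): the isomorphism `Algebra.adjoin ℚ s ≃+* Algebra.adjoin ℚ t` extends to `K ≃+* L` (`IsAlgClosure.equivOfEquiv`, `IsAlgClosure.equivOfEquiv_algebraMap`). -/
def S_Iso : Prop :=
  ∀ (K L : Type) [Field K] [Field L] [CharZero K] [CharZero L] [IsAlgClosed K] [IsAlgClosed L], Cardinal.mk K = Cardinal.continuum →
    Cardinal.mk L = Cardinal.continuum → ∀ (ι : Type) [Finite ι] (p : ι → K) (q : ι → L), AlgebraicIndependent ℚ p →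
    AlgebraicIndependent ℚ q → ∃ e : K ≃+* L, ∀ i, e (p i) = q i

/-- **Crd**. `LaurentSeries ℂ` embeds in `ℤ → ℂ`, cardinality `𝔠 ^ ℵ₀ = 𝔠`; the algebraic closure has the same cardinality (`Algebra.IsAlgebraic.cardinalMk_le_max`); `ℂ` embeds in it. The characteristic is `0`. -/
def S_Crd : Prop :=
  CharZero (AlgebraicClosure (LaurentSeries ℂ)) ∧ Cardinal.mk (AlgebraicClosure (LaurentSeries ℂ)) = Cardinal.continuum

/-- **Gen**. Let `F = map C f₀ + C t * map C (f - f₀)` over `ℂ[[t]]`: homogeneous of degree `5`, `f0 F = f₀`. `S_SL` gives `HQ (LaurentSeries ℂ) (fL F)`, `S_DL` gives `HQ K F'`, `K = AlgebraicClosure (LaurentSeries ℂ)`, `F'` the image of `F`. The coefficients `p m` (`m : Mo5`) of `F'` are the images of the polynomials `c_m + t (d_m - c_m) ∈ ℂ[t]` (`c`, `d` the coefficients of `f₀`, `f`) under the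
injective map `ℂ[t] → ℂ[[t]] → ℂ((t)) → K`; they are algebraically independent over `ℚ`, since their values `d_m` at `t = 1` are so (`AlgebraicIndependent.of_aeval`, `AlgebraicIndependent.map'`, or directly: `P (c + t (d - c)) = 0` in `ℂ[t]` implies `P (d) = 0`). By `S_Iso` and `S_Crd` there is `e : K ≃+* ℂ` with `e (p m) = d_m`, so `map e F' = f` (both are homogeneous of degree `5`).
`S_TR`. -/
def S_Gen : Prop :=
  ∀ f₀ : MvPolynomial (Fin 5) ℂ, f₀.IsHomogeneous 5 → f₀ ≠ 0 → HQ ℂ f₀ → ∀ f : MvPolynomial (Fin 5) ℂ, AInd ℂ f → HQ ℂ f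

/-! ## Density, smoothness -/

/-- **Dns**. Baire: the set is the intersection over the countable set of all `P ≠ 0` in `MvPolynomial Mo5 ℚ` of the open sets `{c | aeval c P ≠ 0}`; these are dense, because a polynomial which is `0` on an open set, so on a product of infinite sets, is `0` (`MvPolynomial.funext_set`). The third statement: the same for the countable family and `Q` (the set `{c | eval c Q ≠ 0}` is open and
dense, the intersection with a dense set is not empty). The last one: from density, for `ε`-balls around the coefficients of `g` (`quin_coeff`, `coeff_quin`). -/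
def S_Dns : Prop :=
  Dense {c : Mo5 → ℂ | AlgebraicIndependent ℚ c} ∧ (∀ c : Mo5 → ℂ, AlgebraicIndependent ℚ c → AInd ℂ (quin c)) ∧
  (∀ Q : MvPolynomial Mo5 ℂ, Q ≠ 0 → ∃ c : Mo5 → ℂ, AlgebraicIndependent ℚ c ∧ eval c Q ≠ 0) ∧
  ∀ (g : MvPolynomial (Fin 5) ℂ) (ε : ℝ), g.IsHomogeneous 5 → 0 < ε →
    ∃ f : MvPolynomial (Fin 5) ℂ, AInd ℂ f ∧ ∀ m, ‖coeff m f - coeff m g‖ < ε

/-- **DerG**. As `S_Der` (`Q/Der.lean`), for every finite family: let `B` be a transcendence basis of `K` over `ℚ` which contains the `p i`; derivations of `MvPolynomial B ℚ` with values in `K` extend to `K`, since `MvPolynomial B ℚ → FractionRing → K` is formally etale (localization, separable algebraic extension). -/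
def S_DerG : Prop :=
  ∀ (K : Type) [Field K] [CharZero K] (ι : Type) [Finite ι] [DecidableEq ι] (p : ι → K), AlgebraicIndependent ℚ p →
    ∃ D : ι → Derivation ℤ K K, ∀ i j, D i (p j) = if i = j then 1 else 0

/-- **Smg**. Let all partial derivatives of `f` vanish at `z`. Euler: `5 f (z) = Σ z_j ∂_j f (z) = 0`, so `f (z) = 0`. Apply the derivation `D` of `K` with `D (c_m) = 1` for `m = 5 e_a` and `D (c_m) = 0` for the other coefficients (`S_DerG`): `0 = D (f (z)) = Σ_m D (c_m) z ^ m + Σ_j ∂_j f (z) D (z_j) = z_a ^ 5`. So `z_a = 0` for all `a`. -/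
def S_Smg : Prop :=
  ∀ (K : Type) [Field K] [CharZero K] (f : MvPolynomial (Fin 5) K), AInd K f → Gr.Smooth f

end Pool.Agent.QV
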