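import Pool.Agent.Lib.MP_b53bfe_ag.Q.DefsL
import Pool.Agent.Lib.MP_b53bfe_ag.Q.SpecD

/-!
# Disproof of Q1 of MP_b53bfe_ag for quintic threefolds, phase 3. Part R: regularity for the generic quintic; Part L: lines; transversality for the generic quintic
-/

set_option autoImplicit false

noncomputable section

namespace Pool.Agent.QV

open MvPolynomial
open Pool.Agent.FY (Res)

/-! ## Part R: regularity -/

/-- **LvU**. One variable `v`. `supported K {v}ᶜ` = the polynomials without `X v`; elements of `Ideal.span G` are sums `∑ g_i h_i`, and if the sum does not contain `X v` the `h_i` may be chosen without `X v` (put `X v = 0`, the coefficient of `(X v) ^ 0`). (1) `a = α X_v + β`, `a x ∈ (G)`. Write `x = ∑ x_n X_v ^ n` (degree in `X_v`); membership in `(G)` can be tested on the coefficients (in the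
ring without `X_v`). The leading coefficient: `α x_N ∈ (G)`, so `z ^ k x_N ∈ (G)` (`z ^ N' = α c`); replace `x` by `z ^ k (x - x_N X_v ^ N)`: induction. (2) Let `b x = g + a w`, `g ∈ (G)`. For `y` with degree `≤ d` in `X_v` there is `y'` without `X_v` with `α ^ d y - y' ∈ (a)` (`α X_v ≡ - β`), and `y' ∈ (G)` if `y ∈ (G)`. Take `d` large for `x` and `g`:
`b x' - g' ∈ (a)` without `X_v`, so it is `0` (`α X_v + β` with `α ≠ 0` has positive degree in `X_v`, the ring is a domain; if `α = 0` then `z ^ N' = 0`, `z = 0` and `z ^ 1 * x = 0`: trivial). So `b x' ∈ (G)`, `z ^ k x' ∈ (G)`, `z ^ k α ^ d x ∈ (G) + (a)`, multiply by `c ^ d`. -/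
def S_LvU : Prop :=
  ∀ (σ K : Type) [Field K] (v : σ) (G : Set (MvPolynomial σ K)) (α β z c : MvPolynomial σ K) (N : ℕ),
    (∀ g ∈ G, g ∈ supported K ({v}ᶜ : Set σ)) → α ∈ supported K ({v}ᶜ : Set σ) → β ∈ supported K ({v}ᶜ : Set σ) →
    z ∈ supported K ({v}ᶜ : Set σ) → c ∈ supported K ({v}ᶜ : Set σ) → z ^ N = α * c →
    RegZ z (α * X v + β) (Ideal.span G) ∧
    ∀ b ∈ supported K ({v}ᶜ : Set σ), RegZ z b (Ideal.span G) → RegZ z b (Ideal.span G ⊔ Ideal.span {α * X v + β})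

/-- **PUc**. `(x₃ + T u₃) ^ (5 - k) (x_i + T u_i) ^ k` with `u₃ = 0`: the coefficient of `T ^ j`. -/
def S_PUc : Prop :=
  ∀ (i : Fin 4) (k : Fin 6) (j : ℕ),
    pU (mS i k) j = ((k : ℕ).choose j : UU) * X (Sum.inl (Sum.inl 3)) ^ (5 - (k : ℕ)) * X (Sum.inl (Sum.inl (sc i))) ^ ((k : ℕ) - j) *
      X (Sum.inl (Sum.inr i)) ^ j

/-- **UUr**. Induction on the number of elements of `S`. Let `s` be the smallest element of `S`, `c_(k)` the variable `Sum.inr (mS i k)`. `FU j` contains `c_(k)` only if `j ≤ k` (`S_PUc`: the coefficient of `c_(k)` in `FU j` is `(k choose j) ...`), and the coefficient of `c_(k)` in `FU k` is `α = x₃ ^ (5 - k) u_i ^ k`, which divides `z ^ 5`, `z = x₃ u_i`. If `s < r`: `S_LvU` (2) with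
`v = c_(s)`, `G` = the other generators (without `c_(s)`, as their indices are `> s`; the `u_k` too), `b = FU r`, and the induction hypothesis for `S ∖ {s}`. If `S` is empty or `s > r`: `S_LvU` (1) with `v = c_(r)`. -/
def S_UUr : Prop :=
  ∀ (i : Fin 4) (U : Set (Fin 4)) (S : Finset ℕ) (r : ℕ), i ∉ U → r ≤ 5 → (∀ j ∈ S, j ≤ 5) → r ∉ S →
    RegZ (X (Sum.inl (Sum.inl 3)) * X (Sum.inl (Sum.inr i)) : UU) (FU r)
      (Ideal.span ({y | ∃ j ∈ S, y = FU j} ∪ {y | ∃ k ∈ U, y = X (Sum.inl (Sum.inr k))}))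

/-- **ThF**. Flat: `UU ≅ MvPolynomial VC (MvPolynomial Mo5 ℚ)` (`sumAlgEquiv`), and the map on coefficients `MvPolynomial Mo5 ℚ → K` is injective (algebraic independence), so `K` is flat over `MvPolynomial Mo5 ℚ` (localization to the fraction field, then a field extension); base change to the polynomial rings (`MvPolynomial.algebraTensorAlgEquiv`). `Fw` is additive in `f`, and
`f = ∑ coeff m f • monomial m 1` (`quin_coeff`); `Fw` commutes with the maps of coefficients. -/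
def S_ThF : Prop :=
  ∀ (K : Type) [Field K] [CharZero K] (f : MvPolynomial (Fin 5) K), AInd K f →
    (ThU f).toRingHom.Flat ∧ ∀ j : ℕ, ThU f (FU j) = Fw f j

/-- **BcR**. Let `L = {x | a x ∈ J}` (finitely generated, `R` noetherian), so `z ^ k L ⊆ J` for one `k`. The sequence `0 → L / J → R / J → R / J` (multiplication by `a`) is exact; tensor with the flat `R`-algebra `S`: if `φ a * y ∈ J S` then `y ∈ L S`, so `(φ z) ^ k y ∈ J S`. (`(J : a) S = (J S : a)` for flat maps.) -/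
def S_BcR : Prop :=
  ∀ (R S : Type) [CommRing R] [CommRing S] (φ : R →+* S) (z a : R) (J : Ideal R), φ.Flat → IsNoetherianRing R → RegZ z a J →
    RegZ (φ z) (φ a) (J.map φ)

/-- **UcR**. `S_UUr`, `S_ThF`, `S_BcR` (`UU` is noetherian: `Mo5`, `VC` are finite); the image of the span is the span of the images. -/
def S_UcR : Prop :=
  ∀ (K : Type) [Field K] [CharZero K] (f : MvPolynomial (Fin 5) K), AInd K f →
    ∀ (i : Fin 4) (U : Set (Fin 4)) (S : Finset ℕ) (r : ℕ), i ∉ U → r ≤ 5 → (∀ j ∈ S, j ≤ 5) → r ∉ S →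
    RegZ (xC K 3 * X (Sum.inr i)) (Fw f r) (Ideal.span ({y | ∃ j ∈ S, y = Fw f j} ∪ {y | ∃ k ∈ U, y = X (Sum.inr k)}))

/-- **RcI**. Let `J (S, U) = (F_j, j ∈ S; u_k, k ∈ U)`, `m` = number of elements of the complement of `U`, `z = x₃`. By induction on `r`: (A r) for all `U` and all `k ∉ U` with `r + 1 ≤ m`: `RegZ z u_k J (range (r+1), U)`; (B r) for all `U` with `1 ≤ r ≤ m`: `RegZ z F_r J (range r, U)`. (A 0): `F₀` does not contain `u` and `u_k ∉ U`: `u_k` is even regular modulo `(F₀, u_l, l ∈ U)` (`S_Mon` for the variable `u_k`).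
(B r) from (A (r-1)) and the hypothesis (`i := k ∉ U` any): `F_r y ∈ J` implies `(x₃ u_k) ^ n y ∈ J`, and `u_k` is regular up to `x₃`-torsion modulo `J = J (range r, U)`, `(r - 1) + 1 ≤ m`. (A r) from (A (r-1)) and (B r) for `U ∪ {k}` (`r ≤ m - 1`): `S_RgZ` (1) with `a = u_k`, `b = F_r`, `J = J (range r, U)`. `RC.r1`: (B r) for `U = ∅`, `m = 4`. `RC.r2`: hypothesis for
`S = range 4`, `r = 5`, `U = ∅` and (A 3). `RC.r3`: the hypothesis for `S = {0,1,2,3,5}`, `r = 4`. -/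
def S_RcI : Prop :=
  ∀ (K : Type) [Field K] (f : MvPolynomial (Fin 5) K), f.IsHomogeneous 5 →
    (∀ (i : Fin 4) (U : Set (Fin 4)) (S : Finset ℕ) (r : ℕ), i ∉ U → r ≤ 5 → (∀ j ∈ S, j ≤ 5) → r ∉ S →
      RegZ (xC K 3 * X (Sum.inr i)) (Fw f r) (Ideal.span ({y | ∃ j ∈ S, y = Fw f j} ∪ {y | ∃ k ∈ U, y = X (Sum.inr k)}))) →
    RC f

/-! ## Part L: lines -/

/-- **Bas**. `V` has dimension `2` and the coordinate `3` is not zero on `V`: `V ∩ {v₃ = 0}` has dimension `1`, spanned by `d` with some `d (sc i) ≠ 0` (all coordinates except `3` are `sc i`), normalize; `e` with `e 3 = 1`, subtract a multiple of `d`. -/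
def S_BaL : Prop :=
  ∀ (K : Type) [Field K] (V : Submodule K (Fin 5 → K)), Module.finrank K V = 2 → (∃ v ∈ V, v 3 ≠ 0) → ∃ (i : Fin 4) (e d : Fin 5 → K), Bas2 V i e d

/-- **RtL**. Let `r = rV i e d`. `r` fixes `x₃`, `x_i` (`e₃ = 1`, `d₃ = 0`, `e_i = 0`, `d_i = 1`) and `u_i`, so `r (r X_v) = r X_v`; `ker r` is generated by the `X_v - r X_v` (`S_Ret`), which are `φ (x)` resp. `φ (u)` for `φ = ε_j - e_j ε_3 - d_j ε_i` (`φ (u) = u_j - d_j u_i` as `u₃ = 0`), a linear form which vanishes on `V`; these `φ` span `Ann V`: `φ = ∑ φ_j (ε_j - e_j ε_3 - d_j ε_i)` for `φ ∈ Ann V`.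
Conversely `r (φ (x)) = φ (x₃ e + x_i d) = 0`, `r (φ (u)) = u_i φ (d) = 0`. So `ker r = IC V`; it is prime (the target is a domain), homogeneous (generators). The same for `B`: `IB V = ker (rVB)`: generated by the same elements (`S_Ret` for `rVB`). `x₃ ∉ IC V`, `u_i ∉ IC V`. Zeros: for `x, w ∈ V` with `w₃ = 0` all elements of `IC V` vanish at `(x, w)`; conversely if all elements of `IC V` vanish at `(x, w)`, `w₃ = 0`, then
`x, w ∈ V` (`φ (x) = 0` for all `φ ∈ Ann V`, double annihilator). -/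
def S_RtL : Prop :=
  ∀ (K : Type) [Field K] (V : Submodule K (Fin 5 → K)) (i : Fin 4) (e d : Fin 5 → K), Bas2 V i e d →
    RingHom.ker (rV i e d) = IC V ∧ (∀ a, rV i e d (rV i e d a) = rV i e d a) ∧
    RingHom.ker (rVB i e d) = IB V ∧ (∀ a, rVB i e d (rVB i e d a) = rVB i e d a) ∧
    (IC V).IsPrime ∧ (IB V).IsPrime ∧ HomI wC (IC V) ∧ HomI wB (IB V) ∧
    (∀ x w : Fin 5 → K, x ∈ V → w ∈ V → w 3 = 0 → ∀ y ∈ IC V, eval (ptC x w) y = 0) ∧
    (∀ x w : Fin 5 → K, w 3 = 0 → (∀ y ∈ IC V, eval (ptC x w) y = 0) → x ∈ V ∧ w ∈ V) ∧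
    xC K 3 ∉ IC V ∧ X (Sum.inr i) ∉ IC V

/-- **LDv**. `Ann V + Ann V' = Ann (V ∩ V')` (finite dimension, `Subspace.dualAnnihilator_inf_eq`), and `V ∩ V'` has dimension `≤ 1`, contained in the span of one `w`. So the ideal contains `φ (x)`, `φ (u)` for all `φ` with `∑ φ_j w_j = 0`. If `w₃ = 0`, take `φ = ε₃`: `x₃` is in the ideal. If `w₃ ≠ 0`, `φ = w₃ ε_j - w_j ε₃`, `φ (u) = w₃ u_j` (as `u₃ = 0`): all `u_j` are in the ideal. -/
def S_LDv : Prop :=
  ∀ (K : Type) [Field K] (V V' : Submodule K (Fin 5 → K)), Module.finrank K V = 2 → Module.finrank K V' = 2 → V ≠ V' →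
    ∀ i : Fin 4, xC K 3 * X (Sum.inr i) ∈ IC V ⊔ IC V'

/-- **DvL**. `φ_k = ε_j - e_j ε_3 - d_j ε_i`, `j` the three indices different from `3` and `sc i`. Modulo the ideal generated by the three linear forms `f` is congruent to `f (X_3 e + X_i d)`, a form in two variables which vanishes at all points, so it is `0` (`K` is infinite). So `f = ∑ (∑_j φ_k j X_j) g_k`; take the homogeneous components of degree `4` of the `g_k`. -/
def S_DvL : Prop :=
  ∀ (K : Type) [Field K] [Infinite K] (f : MvPolynomial (Fin 5) K) (V : Submodule K (Fin 5 → K)) (i : Fin 4) (e d : Fin 5 → K),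
    f.IsHomogeneous 5 → (∀ v ∈ V, eval v f = 0) → Bas2 V i e d →
    ∃ (φ : Fin 3 → Fin 5 → K) (g : Fin 3 → MvPolynomial (Fin 5) K), LinearIndependent K φ ∧
      Submodule.span K (Set.range φ) = {ψ | ψ ∈ Ann V} ∧ (∀ k, (g k).IsHomogeneous 4) ∧ f = ∑ k, (∑ j, C (φ k j) * X j) * g k

/-- **FtL**. `f ↦ f (x + T u)` is a ring homomorphism, and `(∑_j φ_j X_j) (x + T u) = φ (x) + T φ (u)`. So all `F_j` are in `IC V`, and the three forms are in `IB V` (`S_Hfv`). -/
def S_FtL : Prop :=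
  ∀ (K : Type) [Field K] (f : MvPolynomial (Fin 5) K) (φ : Fin 3 → Fin 5 → K) (g : Fin 3 → MvPolynomial (Fin 5) K),
    f = ∑ k, (∑ j, C (φ k j) * X j) * g k →
    (Fw f 0 = ∑ k, (∑ j, C (φ k j) * xC K j) * Fw (g k) 0) ∧
    (∀ n : ℕ, Fw f (n + 1) = ∑ k, ((∑ j, C (φ k j) * xC K j) * Fw (g k) (n + 1) + (∑ j, C (φ k j) * uC K j) * Fw (g k) n)) ∧
    ∀ V : Submodule K (Fin 5 → K), (∀ k, φ k ∈ Ann V) → (∀ n, Fw f n ∈ IC V) ∧ (f.IsHomogeneous 5 → FIn f (IB V))

/-- **SgL**. `S_BaL`, `S_DvL`, `S_FtL`. The `6 × 6` matrix `N` over `K[x, u]` with rows `j = 0, ..., 5` and columns `(k, 0)`, `(k, 1)`: `N_j,(k,0) = Fw (g k) j`, `N_j,(k,1) = Fw (g k) (j - 1)` (`0` for `j = 0`); `F_j = ∑ N_jc L_c`, `L_(k,0) = φ_k (x)`, `L_(k,1) = φ_k (u)` generate `IC V`. `σ = det N`: `σ L_c = ∑_j adj (N)_cj F_j ∈ JC f (range 6)`. If `σ` vanishes at the point, there are `(A, B) ≠ 0` with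
`∑_k (A_k G_kj + B_k G_k(j-1)) = 0` for all `j`, `G_kj` the value of `Fw (g k) j`: `∑_k (A_k + T B_k) g_k (x + T w) = 0` in `K[T]` (`g_k (x + T w) = ∑_{j ≤ 4} G_kj T ^ j`), and (homogeneous) `∑_k (a A_k + b B_k) g_k (a x + b w) = 0` for all `a, b ∈ K`. `x`, `w` is a basis of `V`; let `μ : V → K⁵` be the linear map `x ↦ ẋ`, `w ↦ ẇ` with `φ_k (ẋ) = A_k`, `φ_k (ẇ) = B_k`. For `v = a x + b w`:
`∑_j ∂_j f (v) μ (v)_j = ∑_k φ_k (μ v) g_k (v) + ∑_k φ_k (v) (..) = ∑_k (a A_k + b B_k) g_k (v) = 0` (`φ_k (v) = 0`). `TL.tr`: `μ v ∈ V`, so `A_k = φ_k (μ x) = 0`, `B_k = 0`. -/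
def S_SgL : Prop :=
  ∀ (K : Type) [Field K] [Infinite K] (f : MvPolynomial (Fin 5) K), f.IsHomogeneous 5 → TL f → ∀ V ∈ Lines f, ∀ x w : Fin 5 → K,
    x ∈ V → w ∈ V → x 3 ≠ 0 → w 3 = 0 → w ≠ 0 →
    ∃ σ : CC K, eval (ptC x w) σ ≠ 0 ∧ ∀ y ∈ IC V, σ * y ∈ JC f (Finset.range 6)

/-- **LNs**. Let `q = {a | a * y ∈ JC f (range 6)}`, an ideal which contains `JC f (range 6)`. If `(x, w)` is a common zero of `q` with `x₃ ≠ 0`, `w (sc i) ≠ 0`, `w₃ := 0`: all `F_j` vanish at it, so `f (a x + b w) = ∑ a ^ (5 - j) b ^ j F_j (x, w) = 0`, and `V = span (x, w)` has dimension `2` (`x₃ ≠ 0`, `w₃ = 0`, `w ≠ 0`): a line. `S_SgL` gives `σ` with `σ y ∈ JC` (as `y ∈ IC V`), so `σ ∈ q`, but `σ (x, w) ≠ 0`: contradiction.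
So `x₃ u_i` vanishes on the zero locus of `q`, Nullstellensatz (`MvPolynomial.vanishingIdeal_zeroLocus_eq_radical`). -/
def S_LNs : Prop :=
  ∀ (K : Type) [Field K] [IsAlgClosed K] (f : MvPolynomial (Fin 5) K), f.IsHomogeneous 5 → TL f → ∀ (i : Fin 4) (y : CC K),
    (∀ V ∈ Lines f, y ∈ IC V) → ∃ n : ℕ, (xC K 3 * X (Sum.inr i)) ^ n * y ∈ JC f (Finset.range 6)

/-- **LFi**. Each `IC V`, `V ∈ Lines f`, is a minimal prime of `JC f (range 6)`: it contains it (`S_FtL`), it is prime (`S_RtL`); if `Q` is prime, `JC ≤ Q ≤ IC V`: `σ` of `S_SgL` (at the point `(e, d)`) is not in `IC V` (its elements vanish at the point), so not in `Q`, and `σ y ∈ Q` for `y ∈ IC V`. There are finitely many minimal primes (`Ideal.finite_minimalPrimes_of_isNoetherianRing`), and `V ↦ IC V` is injective: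
`IC V = IC V'` implies `V ≤ V'`, both of dimension `2` (`S_RtL`, or `S_LDv`: `x₃ u_i ∈ IC V`, prime). -/
def S_LFi : Prop :=
  ∀ (K : Type) [Field K] [IsAlgClosed K] (f : MvPolynomial (Fin 5) K), f.IsHomogeneous 5 → TL f → (Lines f).Finite

/-- **LSm**. Let `L` be the finite set of lines, `J = JB f (range 6)`. The map `gV J m → ∏_V gV (IB V) m`, `S_TsV` (1), (3). Kernel: `x` of weight `m` in all `IB V`; all coefficients of `x` in `K[x, u]` are in all `IC V` (`S_ExtV`) and homogeneous of weight `≥ m`; `S_Lgd` with `L = ⨅ IC V`, `J = JC f (range 6)` (`S_LNs`): `x₃ ^ k x ∈ J`, so `θ ^ k x ∈ J`. Cokernel: by `S_LDv` for every `V`, `i` and `n ≥` number of lines: `(x₃ u_i) ^ n ∈ IC V ⊔ ⨅_{V' ≠ V} IC V'`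
(product of the comaximality relations), so there is `E_(V,i)` in all `IC V'`, `V' ≠ V`, of weight `n`, congruent to `(x₃ u_i) ^ n` modulo `IC V` (take components of weight `n`, the ideals are homogeneous). Given `y_V` of weight `m ≥ 4 n`: every monomial of `y_V` contains some `u_i ^ n`: `y_V = ∑_i u_i ^ n y_(V,i)`; `x = ∑_V ∑_i E_(V,i) y_(V,i)` has weight `m` and is `x₃ ^ n y_V` modulo `IB V`; multiply by `(θ / x₃) ^ n`. -/
def S_LSm : Prop :=
  ∀ (K : Type) [Field K] [IsAlgClosed K] (f : MvPolynomial (Fin 5) K) (E : Type) [AddCommGroup E]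
    (Φ : AXS (Gr.Pol K) (Set.range (Gr.form f)) (thV K) E) (hL : (Lines f).Finite), f.IsHomogeneous 5 → TL f →
    ∃ M : ℤ, ∀ m : ℤ, M ≤ m → Φ.f (gV (JB f (Finset.range 6)) m) = ∑ V ∈ hL.toFinset, Φ.f (gV (IB V) m)

/-- **LOn**. `S_BaL`, `S_RtL`, `r = rVB i e d`, `IB V = ker r`. (a) `gV (IB V) n ≅ gV (IB V) 0` by multiplication with `u_i ^ n`: injective (`IB V` is prime, `u_i ∉ IB V`); surjective: modulo `IB V` an element of weight `n` is a polynomial in `x₃, x_i, u_i, s, s', t, t'` of weight `n ≥ 0`, every monomial contains `u_i ^ n`. (b) `Pol ⧸ (cubeGens f V) → gV (IB V) 0` (`hV` maps `cubeGens` to `IB V`: `φ (a) = s φ (x) + t φ (u)`; the forms: `S_FtL`).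
`S_TsV`: cokernel: a polynomial of weight `0` in `x₃, x_i, u_i, s, s', t, t'` is a polynomial in `x₃, x_i, s, s', t u_i, t' u_i`, and `θ s`, `θ s'`, `θ t u_i`, `θ t' u_i` are in `h P`. Kernel: let `A = (Pol ⧸ cubeGens)` localized at `θ`, `A' = LaurentPolynomial A` with variable `ρ`. With `a_j`, `b_j` the rows `1`, `2`: in `A` we have `a_j - s x_j = α d_j`, `b_j - s' a_j = β d_j` for `s = a₃ / x₃`, `s' = b₃ / a₃`,
`α = a_i - s x_i`, `β = b_i - s' a_i` (each row is in `V`: `y_j = y₃ e_j + y_i d_j`). Ring homomorphism `ℓ : B → A'`: `x_j ↦` row `0`, `u_j ↦ ρ d_j`, `s ↦ s`, `s' ↦ s'`, `t ↦ α ρ⁻¹`, `t' ↦ β ρ⁻¹`. It kills `IB V`, and `ℓ (h p)` is the class of `p`. So `h p ∈ IB V` implies `θ ^ k p ∈ (cubeGens f V)`. -/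
def S_LOn : Prop :=
  ∀ (K : Type) [Field K] [Infinite K] (f : MvPolynomial (Fin 5) K) (E : Type) [AddCommGroup E]
    (Φ : AXS (Gr.Pol K) (Set.range (Gr.form f)) (thV K) E) (V : Submodule K (Fin 5 → K)), f.IsHomogeneous 5 → V ∈ Lines f →
    (∃ v ∈ V, v 3 ≠ 0) → ∀ n : ℕ, Φ.f (gV (IB V) n) = Φ.f (Gr.Pol K ⧸ Ideal.span (cubeGens f V))

/-- **GmK**. Assembly: `S_Vv9`, `S_VvS`, `S_LFi`, `S_LSm`, `S_LOn`, `S_QXV` (the modules `Pol ⧸ ..` are finite, killed by the forms). -/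
def S_GmK : Prop :=
  ∀ (K : Type) [Field K] [IsAlgClosed K] (f : MvPolynomial (Fin 5) K) (E : Type) [AddCommGroup E]
    (χ : AFS (Gr.Pol K) (Set.range (Gr.form f)) E), QF K f E χ → f.IsHomogeneous 5 → RC f → TL f → ∃ hL : (Lines f).Finite,
    ∑ V ∈ hL.toFinset, χ.f (Gr.Pol K ⧸ Ideal.span (cubeGens f V)) = 120 • χ.f (Gr.Pol K ⧸ Ideal.span (Gr.smallGens f))

/-! ## Transversality for algebraically independent coefficients -/

/-- **Trd**. Let `M = ℚ (d)`. `c` is algebraically independent in `M` (as a subfamily of elements of `M`), so the transcendence degree of `M` is at least the number of elements of `ι`, and a transcendence basis can be chosen among the `d j` (`exists_isTranscendenceBasis_subset` or similar); so it has at most `card ι' ≤ card ι` elements; equality: all `d j` (distinct) form a transcendence basis, and `c` is a transcendence basis of `M` too (an independent family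
with as many elements as the finite transcendence degree), so the `d j` are algebraic over `ℚ (c)`. (Another way without transcendence degree: derivations. By `S_DerG` there are derivations `D_i` with `D_i (c_k) = δ_ik`; the vectors `(D (d j))_j`, `D` a derivation of `F`, determine `D` on `ℚ (d)`; so the matrix `D_i (d j)` has rank `card ι`, so `card ι' ≥ card ι`. Exchange arguments as in matroids: `AlgebraicIndependent.matroid`.) -/
def S_Trd : Prop :=
  ∀ (F : Type) [Field F] [CharZero F] (ι ι' : Type) [Finite ι] [Finite ι'] (c : ι → F) (d : ι' → F), AlgebraicIndependent ℚ c →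
    (∀ i, c i ∈ IntermediateField.adjoin ℚ (Set.range d)) → Nat.card ι ≤ Nat.card ι' ∧ (Nat.card ι' = Nat.card ι →
      AlgebraicIndependent ℚ d ∧ ∀ j, IsAlgebraic (IntermediateField.adjoin ℚ (Set.range c)) (d j))

/-- **DAl**. `D` is zero on `ℚ (c)`; if `y` is algebraic over it with minimal polynomial `p`, `0 = D (p (y)) = p' (y) D y` and `p' (y) ≠ 0` (characteristic `0`). -/
def S_DAl : Prop :=
  ∀ (F : Type) [Field F] [CharZero F] (ι : Type) (c : ι → F) (D : Derivation ℤ F F), (∀ i, D (c i) = 0) →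
    ∀ y : F, IsAlgebraic (IntermediateField.adjoin ℚ (Set.range c)) y → D y = 0

/-- `e`, `d` is a basis of `V` adapted to the coordinates `p`, `q` -/
structure BasP {K : Type} [Field K] (V : Submodule K (Fin 5 → K)) (p q : Fin 5) (e d : Fin 5 → K) : Prop where
  pq : p ≠ q
  ep : e p = 1
  eq : e q = 0
  dp : d p = 0
  dq : d q = 1
  sp : V = Submodule.span K {e, d}

/-- **BsP**. Gauss. -/
def S_BsP : Prop :=
  ∀ (K : Type) [Field K] (V : Submodule K (Fin 5 → K)), Module.finrank K V = 2 → ∃ (p q : Fin 5) (e d : Fin 5 → K), BasP V p q e d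

/-- the monomial `x_p ^ (5 - k) x_q ^ k` -/
def mP (p q : Fin 5) (k : Fin 6) : Mo5 :=
  ⟨Finsupp.single p (5 - (k : ℕ)) + Finsupp.single q (k : ℕ), by
    rw [map_add, Finsupp.degree_single, Finsupp.degree_single]; omega⟩

/-- the parameters: the coordinates of `e` and `d` different from `p`, `q`, and the coefficients of `f` at the monomials which are not `mP p q k` -/
def parP {K : Type} [Field K] (f : MvPolynomial (Fin 5) K) (p q : Fin 5) (e d : Fin 5 → K) :
    ({j : Fin 5 // j ≠ p ∧ j ≠ q} ⊕ {j : Fin 5 // j ≠ p ∧ j ≠ q}) ⊕ {m : Mo5 // ∀ k, m ≠ mP p q k} → K :=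
  Sum.elim (Sum.elim (fun j => e j.1) (fun j => d j.1)) (fun m => coeff m.1.1 f)

/-- **SpP**. `f (a e + b d) = ∑_m c_m (a e + b d) ^ m`; for `m = mP p q k` the monomial is `a ^ (5 - k) b ^ k` (the coordinates `p`, `q` of `a e + b d` are `a`, `b`); the coefficient of `a ^ (5 - k) b ^ k` in the binary form which vanishes identically: `c_(k) = - ∑_{m not special} c_m P_mk (e, d)` with `P_mk` in the ring generated by the coordinates of `e`, `d`. Cardinalities: `2 * 3 + (126 - 6) = 126 = card Mo5` (the `mP p q k`, `k = 0, ..., 5`, are distinct;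
only `card Mo5 = 6 + card {m not special}` is needed). -/
def S_SpP : Prop :=
  ∀ (K : Type) [Field K] [CharZero K] (f : MvPolynomial (Fin 5) K) (V : Submodule K (Fin 5 → K)) (p q : Fin 5) (e d : Fin 5 → K),
    f.IsHomogeneous 5 → (∀ v ∈ V, eval v f = 0) → BasP V p q e d →
    (∀ m : Mo5, coeff m.1 f ∈ IntermediateField.adjoin ℚ (Set.range (parP f p q e d))) ∧
    Nat.card (({j : Fin 5 // j ≠ p ∧ j ≠ q} ⊕ {j : Fin 5 // j ≠ p ∧ j ≠ q}) ⊕ {m : Mo5 // ∀ k, m ≠ mP p q k}) = Nat.card Mo5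

/-- **No3**. If `v₃ = 0` on `V`: basis `e, d` (`S_BsP`) with `e₃ = d₃ = 0`, so `p, q ≠ 3` (`e p = 1`, `d q = 1`). By `S_Trd` and `S_SpP` the family `parP f p q e d` is algebraically independent, but its member `e₃` is `0`: contradiction. -/
def S_No3 : Prop :=
  ∀ (K : Type) [Field K] [CharZero K] (f : MvPolynomial (Fin 5) K), AInd K f → ∀ V ∈ Lines f, ∃ v ∈ V, v 3 ≠ 0

/-- **TrL**. Let `e, d` be as in `S_BsP`, `μ` as in the hypothesis. `μ' (v) = μ (v) - μ (v)_p e - μ (v)_q d` satisfies the same equation (for `w ∈ V`: `∑_j ∂_j f (v) w_j = 0`, the derivative of `f (v + T w) = 0`), and `μ' (v)_p = μ' (v)_q = 0`. The family `parP f p q e d` is algebraically independent and its members are algebraic over `ℚ (c)` (`S_SpP`, `S_Trd`); by `S_DerG` there is a derivation `D` of `K` with `D (e_j) = μ' (e)_j`, `D (d_j) = μ' (d)_j` (`j ≠ p, q`), `D (c_m) = 0` for the non special `m`. Apply `D`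
to `f (a e + b d) = 0` for integers `a, b`, `v = a e + b d`: `0 = ∑_k D (c_(k)) a ^ (5 - k) b ^ k + ∑_j ∂_j f (v) (a D e_j + b D d_j)`, and the second sum is `∑_j ∂_j f (v) μ' (v)_j = 0`. So `D (c_(k)) = 0` for all `k` (polynomials with infinitely many zeros), `D` is `0` on `ℚ (c)`, so `D e_j = D d_j = 0` (`S_DAl`), `μ' = 0`, `μ (v) ∈ V`. -/
def S_TrL : Prop :=
  ∀ (K : Type) [Field K] [CharZero K] (f : MvPolynomial (Fin 5) K), AInd K f → ∀ V ∈ Lines f, ∀ μ : V →ₗ[K] (Fin 5 → K),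
    (∀ v : V, ∑ j, eval (v : Fin 5 → K) (pderiv j f) * μ v j = 0) → ∀ v : V, μ v ∈ V

end Pool.Agent.QV
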