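import Pool.Agent.Lib.MP_b53bfe_ag.Q.SpecD

/-!
# Disproof of Q1 of MP_b53bfe_ag for quintic threefolds: the Q-function of one quintic over `ℂ`
-/

set_option autoImplicit false

noncomputable section

namespace Pool.Agent.QV

open MvPolynomial
open Pool.Agent.FY (Res)

/-- **EEp**. `S_EE` with the property that `N / W N` goes to zero (`W` regular on `N`). -/
def S_EEp : Prop :=
  ∀ (K : Type) [Field K] [CharZero K] (a : Par K) (κ : Fin 5 → K) (Lb E : Type) [CommRing Lb] [Algebra (PP K) Lb] [Ring E]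
    [Algebra Lb E] [Algebra (PP K) E] [IsScalarTower (PP K) Lb E] (C : Cal (PP K) E),
    (∀ b : PP K, constantCoeff b ≠ 0 → IsUnit (algebraMap (PP K) Lb b)) → a.A ≠ 0 → IsKap a κ → C.d (WW a) = 0 →
    ∃ χ : AF (PP K) (WW a) E,
      (∀ (N : Type) [AddCommGroup N] [Module (PP K) N], Module.Finite (PP K) N → Reg (WW a) N → χ.f (Qt (WW a) N) = 0) ∧
      (∀ (M : Type) [AddCommGroup M] [Module (PP K) M], Module.Finite (PP K) M → (∀ (i : Fin 3) (m : M), fS a i • m = 0) →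
        (∃ (i : Fin 3) (k : ℕ), ∀ m : M, (X (i, 3) : PP K) ^ k • m = 0) → χ.f (Res (rho a).toRingHom M) = 0) ∧
      χ.f (Res (rho a).toRingHom (PP K ⧸ smI a)) = ∑ k : Fin 5, C.kf 9 (prs a (κ k)) * (C.d (X (0, 0)) * C.d (X (0, 1)))

/-- **Mnp**. `S_Mn` with the same property. -/
def S_Mnp : Prop :=
  ∀ (K : Type) [Field K] [CharZero K] (a : Par K) (D : Fin 6 → Derivation ℤ K K) (κ : Fin 5 → K) (𝒪 : ValuationSubring K),
    IsDer a D → IsKap a κ → Adm a 𝒪 →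
    ∃ (E : Type) (_ : AddCommGroup E) (_ : Module ℚ E) (χ : AF (PP K) (WW a) E),
      (∀ (N : Type) [AddCommGroup N] [Module (PP K) N], Module.Finite (PP K) N → Reg (WW a) N → χ.f (Qt (WW a) N) = 0) ∧
      (∀ (M : Type) [AddCommGroup M] [Module (PP K) M], Module.Finite (PP K) M → (∀ (i : Fin 3) (m : M), fS a i • m = 0) →
        (∃ (i : Fin 3) (k : ℕ), ∀ m : M, (X (i, 3) : PP K) ^ k • m = 0) → χ.f (Res (rho a).toRingHom M) = 0) ∧
      χ.f (Res (rho a).toRingHom (PP K ⧸ smI a)) ≠ 0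

/-- **HQc**. `χ' M = χ (Res rho M)`. `perf`: on `N` killed by the two other forms `W` acts (by `rho`) as `f_l`. -/
def S_HQc : Prop := ∃ f₀ : MvPolynomial (Fin 5) ℂ, f₀.IsHomogeneous 5 ∧ f₀ ≠ 0 ∧ HQ ℂ f₀

end Pool.Agent.QV
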