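import Pool.Agent.Lib.MP_b53bfe_ag.Q.SpecF
import Pool.Agent.Lib.MP_b53bfe_ag.Q.SpecL
import Pool.Agent.Lib.MP_b53bfe_ag.Q.SpecQ

/-!
# The final theorem: `Γ` is not a polynomial in `h₁, h₂, h₃` for all quintic threefolds with algebraically independent coefficients
-/

set_option autoImplicit false

noncomputable section

namespace Pool.Agent.QV

open MvPolynomial

/-- the final statement -/
def S_FnL : Prop :=
  (∀ (f : MvPolynomial (Fin 5) ℂ) (hf : f.IsHomogeneous 5),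
    AlgebraicIndependent ℚ (fun m : {m : Fin 5 →₀ ℕ // m.degree = 5} => coeff m.1 f) →
      Gr.Smooth f ∧ (Gr.Lines f).Finite ∧
        (∀ e : Fin 3 → ℤ, ∑ᶠ V ∈ Gr.Lines f, Gr.cls (Gr.lineCube hf V e) ∉ Gr.decSpan hf) ∧
        ∀ e : Fin 3 → ℤ, Gr.cls (Gr.smallDiagT hf e) ∉ Gr.decSpan hf) ∧
  (∀ (g : MvPolynomial (Fin 5) ℂ) (ε : ℝ), g.IsHomogeneous 5 → 0 < ε →
    ∃ f : MvPolynomial (Fin 5) ℂ, f.IsHomogeneous 5 ∧
      AlgebraicIndependent ℚ (fun m : {m : Fin 5 →₀ ℕ // m.degree = 5} => coeff m.1 f) ∧ ∀ m, ‖coeff m f - coeff m g‖ < ε) ∧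
  ∀ Q : MvPolynomial {m : Fin 5 →₀ ℕ // m.degree = 5} ℂ, Q ≠ 0 →
    ∃ f : MvPolynomial (Fin 5) ℂ, f.IsHomogeneous 5 ∧
      AlgebraicIndependent ℚ (fun m : {m : Fin 5 →₀ ℕ // m.degree = 5} => coeff m.1 f) ∧
      eval (fun m : {m : Fin 5 →₀ ℕ // m.degree = 5} => coeff m.1 f) Q ≠ 0

theorem lines_eq {K : Type} [Field K] (f : MvPolynomial (Fin 5) K) : Gr.Lines f = Lines f := rfl

theorem cubeGens_eq {K : Type} [Field K] (f : MvPolynomial (Fin 5) K) (V : Submodule K (Fin 5 → K)) :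
    Gr.cubeGens f V = cubeGens f V := rfl

theorem tFnL : S_HQc → S_Gen → S_Smg → S_Dns → S_UcR → S_RcI → S_No3 → S_TrL → S_GmK → S_GkL → S_FnL := by
  intro hHQc hGen hSmg hDns hUcR hRcI hNo3 hTrL hGmK hGkL
  refine ⟨?_, ?_, ?_⟩
  · intro f hf hind
    have hA : AInd ℂ f := ⟨hf, hind⟩
    obtain ⟨f₀, hom₀, hne₀, hq₀⟩ := hHQc
    obtain ⟨E, i1, i2, χ, hχ⟩ := hGen f₀ hom₀ hne₀ hq₀ f hA
    have hf0 : f ≠ 0 := by
      intro h0
      have h1 : AlgebraicIndependent ℚ (fun m : Mo5 => coeff m.1 f) := hind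
      have h2 := h1.ne_zero (⟨Finsupp.single 0 5, Finsupp.degree_single _ _⟩ : Mo5)
      apply h2
      rw [h0]
      exact coeff_zero _
    have hrc : RC f := hRcI ℂ f hf (hUcR ℂ f hA)
    have htl : TL f := ⟨hNo3 ℂ f hA, hTrL ℂ f hA⟩
    obtain ⟨hL, hsum⟩ := hGmK ℂ f E χ hχ hf hrc htl
    obtain ⟨Ψ, hΨ, hdec⟩ := hGkL ℂ f hf E χ hf0 hχ
    have hsm : χ.f (Gr.Pol ℂ ⧸ Ideal.span (Gr.smallGens f)) ≠ 0 := hχ.small
    refine ⟨hSmg ℂ f hA, hL, ?_, ?_⟩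
    · intro e hmem
      have h1 := hdec _ hmem
      have h2 : ∑ᶠ V ∈ Gr.Lines f, Gr.cls (Gr.lineCube hf V e) = ∑ V ∈ hL.toFinset, Gr.cls (Gr.lineCube hf V e) := by
        refine finsum_mem_eq_sum_of_inter_support_eq _ ?_
        ext V
        simp [lines_eq]
      rw [h2, map_sum] at h1
      have h3 : ∀ V ∈ hL.toFinset, Ψ (Gr.cls (Gr.lineCube hf V e)) = χ.f (Gr.Pol ℂ ⧸ Ideal.span (cubeGens f V)) := by
        intro V _
        rw [hΨ]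
        rfl
      rw [Finset.sum_congr rfl h3, hsum] at h1
      apply hsm
      have h4 : ((120 : ℕ) : ℚ) • χ.f (Gr.Pol ℂ ⧸ Ideal.span (Gr.smallGens f)) = 0 := by
        rw [Nat.cast_smul_eq_nsmul]
        exact h1
      exact (smul_eq_zero.1 h4).resolve_left (by norm_num)
    · intro e hmem
      have h1 := hdec _ hmem
      rw [hΨ] at h1
      exact hsm h1
  · intro g ε hg hε
    obtain ⟨f, hA, hd⟩ := hDns.2.2.2 g ε hg hε
    exact ⟨f, hA.1, hA.2, hd⟩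
  · intro Q hQ
    obtain ⟨c, hc, hQc⟩ := hDns.2.2.1 Q hQ
    have hA := hDns.2.1 c hc
    refine ⟨quin c, hA.1, hA.2, ?_⟩
    have h1 : (fun m : {m : Fin 5 →₀ ℕ // m.degree = 5} => coeff m.1 (quin c)) = c := funext fun m => coeff_quin c m
    rw [h1]
    exact hQc

end Pool.Agent.QV
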