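import Pool.Agent.Lib.MP_b53bfe_ag.Q.SpecV

/-!
# Disproof of Q1 of MP_b53bfe_ag for quintic threefolds, phase 3: the forms are in the ideals, homogeneity (`S_FnV`)
-/

set_option autoImplicit false

noncomputable section

namespace Pool.Agent.QV

open Matrix
open MvPolynomial
open Pool.Agent.FY (Res)

namespace FnV_aux

variable {K : Type} [Field K]

theorem mJB (f : MvPolynomial (Fin 5) K) {S : Finset ℕ} {i : ℕ} (hi : i ∈ S) : iC (Fw f i) ∈ JB f S :=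
  Ideal.subset_span ⟨i, hi, rfl⟩

theorem w_s : IsWeightedHomogeneous wB (sB K) 0 := isWeightedHomogeneous_X K wB (Sum.inr 0)

theorem w_s' : IsWeightedHomogeneous wB (sB' K) 0 := isWeightedHomogeneous_X K wB (Sum.inr 1)

theorem w_t : IsWeightedHomogeneous wB (tB K) (-1) := isWeightedHomogeneous_X K wB (Sum.inr 2)

theorem w_t' : IsWeightedHomogeneous wB (tB' K) (-1) := isWeightedHomogeneous_X K wB (Sum.inr 3)

theorem w_T : IsWeightedHomogeneous wB (TB K) (-1) := by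
  have h := (w_s' (K := K)).mul (w_t (K := K))
  rw [zero_add] at h
  exact w_t'.add h

theorem w_d (f : MvPolynomial (Fin 5) K) (h : ∀ i : ℕ, IsWeightedHomogeneous wB (iC (Fw f i)) (i : ℤ)) :
    IsWeightedHomogeneous wB (dB f) 4 := by
  have h4 := (w_s (K := K)).mul (h 4)
  have h5 := (w_t (K := K)).mul (h 5)
  have e4 : (0 : ℤ) + ((4 : ℕ) : ℤ) = 4 := by norm_num
  have e5 : (-1 : ℤ) + ((5 : ℕ) : ℤ) = 4 := by norm_num
  rw [e4] at h4
  rw [e5] at h5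
  exact h4.add h5

theorem f01 (f : MvPolynomial (Fin 5) K) (h0 : hV K (Gr.form f 0) = iC (Fw f 0))
    (h1 : hV K (Gr.form f 1) - tB K ^ 4 * dB f ∈ JB f (Finset.range 4)) :
    hV K (Gr.form f 0) ∈ JD f ∧ hV K (Gr.form f 1) ∈ JD f := by
  constructor
  · rw [h0]
    exact Ideal.mem_sup_left (mJB f (by simp))
  · have h2 : tB K ^ 4 * dB f ∈ JD f :=
      Ideal.mem_sup_right (Ideal.mul_mem_left _ _ (Ideal.mem_span_singleton_self _))
    have h3 := Ideal.add_mem _ (Ideal.mem_sup_left h1 : _ ∈ JD f) h2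
    rwa [sub_add_cancel] at h3

theorem f012 (f : MvPolynomial (Fin 5) K) (h0 : hV K (Gr.form f 0) = iC (Fw f 0))
    (h1 : hV K (Gr.form f 1) - tB K ^ 4 * dB f ∈ JB f (Finset.range 4))
    (h2 : hV K (Gr.form f 2) - TB K ^ 4 * (tB' K * iC (Fw f 5)) ∈ JB f (Finset.range 4) ⊔ Ideal.span {dB f})
    (J : Ideal (BC K)) (hJ : TB K ^ 4 * (tB' K * iC (Fw f 5)) ∈ J) : FIn f (JD f ⊔ J) := by
  obtain ⟨g0, g1⟩ := f01 f h0 h1
  have g2 : hV K (Gr.form f 2) ∈ JD f ⊔ J := by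
    have h3 := Ideal.add_mem _ (Ideal.mem_sup_left h2 : _ ∈ JD f ⊔ J) (Ideal.mem_sup_right hJ)
    rwa [sub_add_cancel] at h3
  intro i
  fin_cases i
  · exact Ideal.mem_sup_left g0
  · exact Ideal.mem_sup_left g1
  · exact g2

theorem f6 (f : MvPolynomial (Fin 5) K) (h0 : hV K (Gr.form f 0) = iC (Fw f 0))
    (h1 : hV K (Gr.form f 1) = ∑ i ∈ Finset.range 6, sB K ^ (5 - i) * tB K ^ i * iC (Fw f i))
    (h2 : hV K (Gr.form f 2) = ∑ i ∈ Finset.range 6, (sB' K * sB K) ^ (5 - i) * TB K ^ i * iC (Fw f i)) :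
    FIn f (JB f (Finset.range 6)) := by
  have g0 : hV K (Gr.form f 0) ∈ JB f (Finset.range 6) := by
    rw [h0]
    exact mJB f (by simp)
  have g1 : hV K (Gr.form f 1) ∈ JB f (Finset.range 6) := by
    rw [h1]
    exact Ideal.sum_mem _ fun i hi => Ideal.mul_mem_left _ _ (mJB f hi)
  have g2 : hV K (Gr.form f 2) ∈ JB f (Finset.range 6) := by
    rw [h2]
    exact Ideal.sum_mem _ fun i hi => Ideal.mul_mem_left _ _ (mJB f hi)
  intro i
  fin_cases i
  · exact g0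
  · exact g1
  · exact g2

theorem f7 (f : MvPolynomial (Fin 5) K) (h0 : hV K (Gr.form f 0) = iC (Fw f 0))
    (h1 : hV K (Gr.form f 1) = ∑ i ∈ Finset.range 6, sB K ^ (5 - i) * tB K ^ i * iC (Fw f i))
    (h2 : hV K (Gr.form f 2) = ∑ i ∈ Finset.range 6, (sB' K * sB K) ^ (5 - i) * TB K ^ i * iC (Fw f i))
    (r : ℕ) (hr : 1 ≤ r) : FIn f (JT f r) := by
  have z0 : iC (Fw f 0) ∈ JT f r :=
    Ideal.mem_sup_left (Ideal.mem_sup_left (mJB f (Finset.mem_range.2 hr)))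
  have zt : tB K ∈ JT f r := Ideal.mem_sup_left (Ideal.mem_sup_right (Ideal.mem_span_singleton_self _))
  have zt' : tB' K ∈ JT f r := Ideal.mem_sup_right (Ideal.mem_span_singleton_self _)
  have zT : TB K ∈ JT f r := Ideal.add_mem _ zt' (Ideal.mul_mem_left _ _ zt)
  have key : ∀ (a b : BC K), b ∈ JT f r → ∑ i ∈ Finset.range 6, a ^ (5 - i) * b ^ i * iC (Fw f i) ∈ JT f r := by
    intro a b hb
    refine Ideal.sum_mem _ fun i _ => ?_
    rcases Nat.eq_zero_or_pos i with rfl | hi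
    · exact Ideal.mul_mem_left _ _ z0
    · exact Ideal.mul_mem_right _ _ (Ideal.mul_mem_left _ _ (Ideal.pow_mem_of_mem _ hb i hi))
  intro i
  fin_cases i
  · exact h0.symm ▸ z0
  · exact h1.symm ▸ key _ _ zt
  · exact h2.symm ▸ key _ _ zT

end FnV_aux

open FnV_aux

theorem tFnV : S_Hfv → S_GpM → S_FnV := by
  rintro hH ⟨-, hs, hp, -⟩ K _ f hf
  obtain ⟨-, wc, wb, -, -, h0, h1, h2, h1', h2'⟩ := hH K f hf
  have aT : TB K ^ 4 * (tB' K * iC (Fw f 5)) ∈ Ideal.span {TB K} :=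
    Ideal.mul_mem_right _ _ (Ideal.pow_mem_of_mem _ (Ideal.mem_span_singleton_self _) 4 (by norm_num))
  have at' : TB K ^ 4 * (tB' K * iC (Fw f 5)) ∈ Ideal.span {tB' K} :=
    Ideal.mul_mem_left _ _ (Ideal.mul_mem_right _ _ (Ideal.mem_span_singleton_self _))
  have aF : TB K ^ 4 * (tB' K * iC (Fw f 5)) ∈ Ideal.span {iC (Fw f 5)} :=
    Ideal.mul_mem_left _ _ (Ideal.mul_mem_left _ _ (Ideal.mem_span_singleton_self _))
  have hS : ∀ (a : BC K) (e : ℤ), IsWeightedHomogeneous wB a e → HomI wB (Ideal.span {a}) := by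
    intro a e ha
    refine hp VB K wB {a} fun b hb => ⟨e, ?_⟩
    rw [Set.mem_singleton_iff.1 hb]
    exact ha
  have hJB : ∀ S : Finset ℕ, HomI wB (JB f S) := by
    intro S
    refine hp VB K wB _ ?_
    rintro a ⟨i, _, rfl⟩
    exact ⟨_, wb i⟩
  have hJC : ∀ S : Finset ℕ, HomI wC (JC f S) := by
    intro S
    refine hp VC K wC _ ?_
    rintro a ⟨i, _, rfl⟩
    exact ⟨_, wc i⟩
  refine ⟨⟨f012 f h0 h1' h2' _ aT, f012 f h0 h1' h2' _ at', f012 f h0 h1' h2' _ aF, f6 f h0 h1 h2, f7 f h0 h1 h2⟩,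
    f01 f h0 h1', ⟨(hs VB K wB _ _ (hJB _) (hS _ _ (w_d f wb))).1, hJB, fun r => ?_, hJC⟩, w_d f wb, w_T, w_t, w_t'⟩
  exact (hs VB K wB _ _ ((hs VB K wB _ _ (hJB _) (hS _ _ w_t)).1) (hS _ _ w_t')).1

end Pool.Agent.QV
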