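import Pool.Agent.Lib.MP_b53bfe_ag.Q.SpecL

/-!
# Disproof of Q1 of MP_b53bfe_ag for quintic threefolds, module FtL: `F_j` of a product with linear forms (helper50)
-/

set_option autoImplicit false

noncomputable section

namespace Pool.Agent.QV

open Matrix
open MvPolynomial
open Pool.Agent.FY (Res)

namespace FtL_aux

/-- the ring homomorphism `f ↦ f (x + T u)` -/
def ev (K : Type) [Field K] : MvPolynomial (Fin 5) K →ₐ[K] Polynomial (CC K) :=
  aeval (fun j => Polynomial.C (xC K j) + Polynomial.X * Polynomial.C (uC K j))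

theorem Fw_eq {K : Type} [Field K] (f : MvPolynomial (Fin 5) K) (n : ℕ) : Fw f n = (ev K f).coeff n := rfl

theorem ev_lin {K : Type} [Field K] (φ : Fin 5 → K) :
    ev K (∑ j, C (φ j) * X j) = Polynomial.C (∑ j, C (φ j) * xC K j) +
      Polynomial.X * Polynomial.C (∑ j, C (φ j) * uC K j) := by
  unfold ev
  rw [map_sum, map_sum, map_sum, Finset.mul_sum, ← Finset.sum_add_distrib]
  refine Finset.sum_congr rfl fun j _ => ?_
  rw [map_mul, aeval_C, aeval_X, map_mul, map_mul]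
  have h : (algebraMap K (Polynomial (CC K))) (φ j) = Polynomial.C (C (φ j) : CC K) := rfl
  rw [h]
  ring

theorem coeff_zero' {R : Type} [CommRing R] (a b : R) (p : Polynomial R) :
    ((Polynomial.C a + Polynomial.X * Polynomial.C b) * p).coeff 0 = a * p.coeff 0 := by
  rw [add_mul, Polynomial.coeff_add, Polynomial.coeff_C_mul, mul_assoc, Polynomial.coeff_X_mul_zero, add_zero]

theorem coeff_succ' {R : Type} [CommRing R] (a b : R) (p : Polynomial R) (n : ℕ) :
    ((Polynomial.C a + Polynomial.X * Polynomial.C b) * p).coeff (n + 1) = a * p.coeff (n + 1) + b * p.coeff n := by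
  rw [add_mul, Polynomial.coeff_add, Polynomial.coeff_C_mul, mul_assoc, Polynomial.coeff_X_mul, Polynomial.coeff_C_mul]

end FtL_aux

theorem tFtL : S_Hfv → S_FtL := by
  intro hH K _ f φ g hf
  have h0 : Fw f 0 = ∑ k, (∑ j, C (φ k j) * xC K j) * Fw (g k) 0 := by
    rw [FtL_aux.Fw_eq, hf, map_sum, Polynomial.finsetSum_coeff]
    refine Finset.sum_congr rfl fun k _ => ?_
    rw [map_mul, FtL_aux.ev_lin, FtL_aux.coeff_zero', FtL_aux.Fw_eq]
  have h1 : ∀ n : ℕ, Fw f (n + 1) = ∑ k, ((∑ j, C (φ k j) * xC K j) * Fw (g k) (n + 1) +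
      (∑ j, C (φ k j) * uC K j) * Fw (g k) n) := by
    intro n
    rw [FtL_aux.Fw_eq, hf, map_sum, Polynomial.finsetSum_coeff]
    refine Finset.sum_congr rfl fun k _ => ?_
    rw [map_mul, FtL_aux.ev_lin, FtL_aux.coeff_succ', FtL_aux.Fw_eq, FtL_aux.Fw_eq]
  refine ⟨h0, h1, fun V hAn => ?_⟩
  have hx : ∀ k, (∑ j, C (φ k j) * xC K j) ∈ IC V := fun k =>
    Ideal.subset_span (Or.inl ⟨φ k, hAn k, rfl⟩)
  have hu : ∀ k, (∑ j, C (φ k j) * uC K j) ∈ IC V := fun k =>
    Ideal.subset_span (Or.inr ⟨φ k, hAn k, rfl⟩)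
  have h2 : ∀ n, Fw f n ∈ IC V := by
    intro n
    rcases n with _ | n
    · rw [h0]
      exact Ideal.sum_mem _ fun k _ => Ideal.mul_mem_right _ _ (hx k)
    · rw [h1]
      exact Ideal.sum_mem _ fun k _ =>
        Ideal.add_mem _ (Ideal.mul_mem_right _ _ (hx k)) (Ideal.mul_mem_right _ _ (hu k))
  refine ⟨h2, fun hf5 => ?_⟩
  have h3 : ∀ n, iC (Fw f n) ∈ IB V := fun n => Ideal.mem_map_of_mem (iC (K := K)).toRingHom (h2 n)
  obtain ⟨-, -, -, -, -, e0, e1, e2, -, -⟩ := hH K f hf5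
  intro i
  fin_cases i
  · change hV K (Gr.form f 0) ∈ IB V
    rw [e0]
    exact h3 0
  · change hV K (Gr.form f 1) ∈ IB V
    rw [e1]
    exact Ideal.sum_mem _ fun n _ => Ideal.mul_mem_left _ _ (h3 n)
  · change hV K (Gr.form f 2) ∈ IB V
    rw [e2]
    exact Ideal.sum_mem _ fun n _ => Ideal.mul_mem_left _ _ (h3 n)

end Pool.Agent.QV
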