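import Pool.Agent.Lib.MP_b53bfe_ag.Q.SpecV

/-!
# Disproof of Q1 of MP_b53bfe_ag for quintic threefolds, module GCg: graded congruence (helper65)
-/

set_option autoImplicit false

noncomputable section

namespace Pool.Agent.QV

open Matrix
open MvPolynomial
open Pool.Agent.FY (Res)

namespace GCg_aux

/-- the map `B ⧸ J → B ⧸ J'` -/
def fac {B : Type} [CommRing B] {J J' : Ideal B} (hle : J ≤ J') : (B ⧸ J) →ₗ[B] (B ⧸ J') where
  toFun := Ideal.Quotient.factor hle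
  map_add' a b := map_add _ a b
  map_smul' r a := by
    obtain ⟨x, rfl⟩ := Ideal.Quotient.mk_surjective a
    rfl

theorem fac_mk {B : Type} [CommRing B] {J J' : Ideal B} (hle : J ≤ J') (x : B) :
    fac hle (Ideal.Quotient.mk J x) = Ideal.Quotient.mk J' x := rfl

/-- the map of the pieces -/
def gfac {K : Type} [Field K] {J J' : Ideal (BC K)} (hle : J ≤ J') (j : ℤ) :
    gV J j →ₗ[Gr.Pol K] gV J' j :=
  ((FY.Res.map (hV K).toRingHom (fac hle)).domRestrict (gV J j)).codRestrict (gV J' j) (by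
    rintro ⟨y, hy⟩
    change FY.Res.map (hV K).toRingHom (fac hle) y ∈ gV J' j
    have h1 : gV J j ≤ (gV J' j).comap (FY.Res.map (hV K).toRingHom (fac hle)) := by
      refine Submodule.span_le.mpr ?_
      rintro _ ⟨x, hx, rfl⟩
      exact Submodule.subset_span ⟨x, hx, rfl⟩
    exact h1 hy)

theorem gfac_val {K : Type} [Field K] {J J' : Ideal (BC K)} (hle : J ≤ J') (j : ℤ) (m : gV J j) :
    (gfac hle j m : Res (hV K).toRingHom (BC K ⧸ J')) =
      FY.Res.map (hV K).toRingHom (fac hle) m.1 := rfl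

theorem key (hTs : S_TsV) (hGp : S_GpM) (hLf : S_GLf) (hHf : S_Hfv) (hKS : S_GKS) {K : Type}
    [Field K] (f : MvPolynomial (Fin 5) K) {E : Type} [AddCommGroup E]
    (Φ : AXS (Gr.Pol K) (Set.range (Gr.form f)) (thV K) E) (J J' : Ideal (BC K)) (j : ℤ)
    (hf : f.IsHomogeneous 5) (hle : J ≤ J') (h1 : FIn f J) (h2 : FIn f J')
    (h : ∀ x : BC K, IsWeightedHomogeneous wB x j → x ∈ J' →
      ∃ k : ℕ, hV K (thV K) ^ k * x ∈ J) : Φ.f (gV J j) = Φ.f (gV J' j) := by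
  have hw : ∀ p : Gr.Pol K, IsWeightedHomogeneous wB ((hV K).toRingHom p) 0 :=
    (hHf K f hf).2.2.2.1
  have hrep : ∀ (I : Ideal (BC K)) (m : gV I j), ∃ x : BC K, IsWeightedHomogeneous wB x j ∧
      (m : Res (hV K).toRingHom (BC K ⧸ I)) =
        FY.Res.mk (hV K).toRingHom (Ideal.Quotient.mk I x) := fun I m =>
    (hGp.1 (Gr.Pol K) VB K (hV K).toRingHom wB I j hw m.1).mp m.2
  refine (hTs (Gr.Pol K) (Set.range (Gr.form f)) (thV K) E Φ inferInstance).1 (gV J j) (gV J' j)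
    (gfac hle j) (hLf K J j) (hLf K J' j) (hKS K f J j h1) (hKS K f J' j h2) ?_ ?_
  · intro m hm
    obtain ⟨x, hx, hmx⟩ := hrep J m
    have h3 : Ideal.Quotient.mk J' x = 0 := by
      have h4 := congrArg Subtype.val hm
      rw [gfac_val, hmx] at h4
      exact h4
    obtain ⟨k, hk⟩ := h x hx (Ideal.Quotient.eq_zero_iff_mem.mp h3)
    refine ⟨k, Subtype.ext ?_⟩
    rw [Submodule.coe_smul, hmx, FY.Res.smul_mk, map_pow]
    have h5 : Ideal.Quotient.mk J (hV K (thV K) ^ k * x) = 0 := Ideal.Quotient.eq_zero_iff_mem.mpr hk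
    exact h5
  · intro n
    obtain ⟨x, hx, hnx⟩ := hrep J' n
    refine ⟨0, ⟨FY.Res.mk (hV K).toRingHom (Ideal.Quotient.mk J x),
      Submodule.subset_span ⟨x, hx, rfl⟩⟩, ?_⟩
    rw [pow_zero, one_smul]
    refine Subtype.ext ?_
    rw [gfac_val, hnx]
    rfl

end GCg_aux

theorem tGCg : S_TsV → S_GpM → S_GLf → S_Hfv → S_GKS → S_GCg := by
  intro hTs hGp hLf hHf hKS K _ f E _ Φ J₁ J₂ j hf hJ₁ hJ₂ hF₁ hF₂ h12 h21
  have hF : FIn f (J₁ ⊔ J₂) := fun i => Ideal.mem_sup_left (hF₁ i)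
  have hdec := (hGp.2.1 VB K wB J₁ J₂ hJ₁ hJ₂).2
  rw [GCg_aux.key hTs hGp hLf hHf hKS f Φ J₁ (J₁ ⊔ J₂) j hf le_sup_left hF₁ hF ?_,
    GCg_aux.key hTs hGp hLf hHf hKS f Φ J₂ (J₁ ⊔ J₂) j hf le_sup_right hF₂ hF ?_]
  · intro x hx hx'
    obtain ⟨y, hy, z, hz, hyw, -, rfl⟩ := hdec j x hx hx'
    obtain ⟨k, hk⟩ := h12 y hyw hy
    refine ⟨k, ?_⟩
    rw [mul_add]
    exact Ideal.add_mem _ hk (Ideal.mul_mem_left _ _ hz)
  · intro x hx hx'
    obtain ⟨y, hy, z, hz, -, hzw, rfl⟩ := hdec j x hx hx'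
    obtain ⟨k, hk⟩ := h21 z hzw hz
    refine ⟨k, ?_⟩
    rw [mul_add]
    exact Ideal.add_mem _ (Ideal.mul_mem_left _ _ hy) hk

end Pool.Agent.QV
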