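import Pool.Agent.Lib.MP_b53bfe_ag.Q.SpecV

/-!
# GLf: the graded pieces are locally finite (helper10)
-/

set_option autoImplicit false

noncomputable section

namespace Pool.Agent.QV

open Matrix MvPolynomial
open Pool.Agent.FY (Res)

namespace GLf_aux

variable (K : Type) [Field K]

theorem hX0 (j : Fin 5) : hV K (X (0, j)) = iC (xC K j) := by
  unfold hV; rw [aeval_X]; rfl

theorem hX1 (j : Fin 5) : hV K (X (1, j)) = aB K j := by
  unfold hV; rw [aeval_X]; rfl

theorem hX2 (j : Fin 5) : hV K (X (2, j)) = bB K j := by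
  unfold hV; rw [aeval_X]; rfl

theorem uC3 : uC K 3 = 0 := by
  unfold uC
  rw [Fin.insertNth_apply_same]

theorem uCs (j : Fin 4) : uC K ((3 : Fin 5).succAbove j) = X (Sum.inr j) := by
  unfold uC
  rw [Fin.insertNth_apply_succAbove]

theorem iCu (i : Fin 4) : iC (uC K ((3 : Fin 5).succAbove i)) = (X (Sum.inl (Sum.inr i)) : BC K) := by
  rw [uCs, iC, rename_X]

theorem iCx (i : Fin 5) : iC (xC K i) = (X (Sum.inl (Sum.inl i)) : BC K) := by
  rw [xC, iC, rename_X]

theorem a3 : aB K 3 = sB K * iC (xC K 3) := by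
  rw [aB, uC3, map_zero, mul_zero, add_zero]

theorem b3 : bB K 3 = sB' K * aB K 3 := by
  rw [bB, uC3, map_zero, mul_zero, add_zero]

theorem hth : hV K (thV K) = iC (xC K 3) * aB K 3 * bB K 3 := by
  rw [thV, map_mul, map_mul, hX0, hX1, hX2]

theorem qs : ∃ q, sB K * hV K (thV K) = hV K q :=
  ⟨X (1, 3) * X (1, 3) * X (2, 3), by
    rw [hth, map_mul, map_mul, hX1, hX2]
    have h := a3 K
    linear_combination (- aB K 3 * bB K 3) * h⟩

theorem qs' : ∃ q, sB' K * hV K (thV K) = hV K q :=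
  ⟨X (0, 3) * X (2, 3) * X (2, 3), by
    rw [hth, map_mul, map_mul, hX0, hX2]
    have h := b3 K
    linear_combination (- iC (xC K 3) * bB K 3) * h⟩

theorem qt (i : Fin 4) : ∃ q, tB K * X (Sum.inl (Sum.inr i)) * hV K (thV K) = hV K q := by
  obtain ⟨q, hq⟩ := qs K
  refine ⟨X (1, (3 : Fin 5).succAbove i) * thV K - X (0, (3 : Fin 5).succAbove i) * q, ?_⟩
  rw [map_sub, map_mul, map_mul, ← hq, hX0, hX1, aB, iCu]
  ring

theorem qt' (i : Fin 4) : ∃ q, tB' K * X (Sum.inl (Sum.inr i)) * hV K (thV K) = hV K q := by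
  obtain ⟨q, hq⟩ := qs' K
  refine ⟨X (2, (3 : Fin 5).succAbove i) * thV K - X (1, (3 : Fin 5).succAbove i) * q, ?_⟩
  rw [map_sub, map_mul, map_mul, ← hq, hX1, hX2, bB, iCu]
  ring

/-- the exponents of the generators -/
def G (j : ℤ) : Set (VB →₀ ℕ) :=
  {g | Finsupp.weight wB g = j ∧ ((∀ v, g v ≠ 0 → ∃ i : Fin 4, v = Sum.inl (Sum.inr i)) ∨
    (∀ v, g v ≠ 0 → v = Sum.inr 2 ∨ v = Sum.inr 3))}

theorem weight_wB (d : VB →₀ ℕ) :
    Finsupp.weight wB d = (∑ i : Fin 4, (d (Sum.inl (Sum.inr i)) : ℤ)) - (d (Sum.inr 2) : ℤ) - (d (Sum.inr 3) : ℤ) := by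
  rw [Finsupp.weight_apply, Finsupp.sum_fintype _ _ (fun i => by simp), Fintype.sum_sum_type,
    Fintype.sum_sum_type]
  simp [wB, Fin.sum_univ_four]
  ring

theorem finG (j : ℤ) : (G j).Finite := by
  refine (Set.finite_Iic (Finsupp.equivFunOnFinite.symm (fun _ : VB => j.natAbs))).subset ?_
  rintro g ⟨hw, hg⟩
  rw [Set.mem_Iic]
  intro v
  rw [Finsupp.equivFunOnFinite_symm_apply_apply]
  rw [weight_wB] at hw
  by_contra hcon
  have hv : g v ≠ 0 := by omega
  rcases hg with hg | hg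
  · obtain ⟨i, rfl⟩ := hg v hv
    have h2 : g (Sum.inr 2) = 0 := by
      by_contra h
      obtain ⟨i, hi⟩ := hg _ h
      exact absurd hi (by simp)
    have h3 : g (Sum.inr 3) = 0 := by
      by_contra h
      obtain ⟨i, hi⟩ := hg _ h
      exact absurd hi (by simp)
    have h4 : (g (Sum.inl (Sum.inr i)) : ℤ) ≤ ∑ i : Fin 4, (g (Sum.inl (Sum.inr i)) : ℤ) :=
      Finset.single_le_sum (f := fun i : Fin 4 => (g (Sum.inl (Sum.inr i)) : ℤ)) (fun _ _ => Int.natCast_nonneg _)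
        (Finset.mem_univ i)
    rw [h2, h3] at hw
    omega
  · have h4 : ∀ i : Fin 4, g (Sum.inl (Sum.inr i)) = 0 := by
      intro i
      by_contra h
      rcases hg _ h with h' | h' <;> exact absurd h' (by simp)
    simp only [h4, Nat.cast_zero, Finset.sum_const_zero] at hw
    rcases hg v hv with rfl | rfl <;> omega

theorem rem (d : VB →₀ ℕ) (v : VB) (hv : d v ≠ 0) : ∃ d' : VB →₀ ℕ, d = d' + Finsupp.single v 1 ∧
    (∀ w, w ≠ v → d' w = d w) ∧ d'.degree + 1 = d.degree ∧ Finsupp.weight wB d' + wB v = Finsupp.weight wB d ∧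
    (monomial d (1 : K) : BC K) = monomial d' 1 * X v := by
  have hle : Finsupp.single v 1 ≤ d := Finsupp.single_le_iff.mpr (Nat.one_le_iff_ne_zero.mpr hv)
  have hd : d = (d - Finsupp.single v 1) + Finsupp.single v 1 := (tsub_add_cancel_of_le hle).symm
  refine ⟨d - Finsupp.single v 1, hd, ?_, ?_, ?_, ?_⟩
  · intro w hw
    rw [Finsupp.tsub_apply, Finsupp.single_eq_of_ne hw, Nat.sub_zero]
  · conv_rhs => rw [hd]
    rw [map_add, Finsupp.degree_single]
  · conv_rhs => rw [hd]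
    rw [map_add, Finsupp.weight_single, one_smul]
  · conv_lhs => rw [hd]
    rw [monomial_add_single, pow_one]

theorem key (j : ℤ) : ∀ (n : ℕ) (d : VB →₀ ℕ), d.degree = n → Finsupp.weight wB d = j →
    ∃ (k : ℕ) (p : Gr.Pol K), ∃ g ∈ G j, hV K (thV K) ^ k * monomial d (1 : K) = hV K p * monomial g (1 : K) := by
  intro n
  induction n using Nat.strong_induction_on with
  | _ n ih =>
  intro d hn hw
  by_cases h1 : ∃ i : Fin 5, d (Sum.inl (Sum.inl i)) ≠ 0
  · obtain ⟨i, hi⟩ := h1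
    obtain ⟨d', -, -, hdeg, hwt, hmon⟩ := rem K d _ hi
    have e0 : wB (Sum.inl (Sum.inl i)) = 0 := rfl
    obtain ⟨k, p, g, hg, h⟩ := ih d'.degree (by omega) d' rfl (by rw [e0] at hwt; linarith)
    refine ⟨k, p * X (0, i), g, hg, ?_⟩
    rw [hmon, map_mul, hX0, iCx]
    linear_combination (X (Sum.inl (Sum.inl i)) : BC K) * h
  by_cases h2 : d (Sum.inr 0) ≠ 0
  · obtain ⟨d', -, -, hdeg, hwt, hmon⟩ := rem K d _ h2
    have e0 : wB (Sum.inr 0) = 0 := rfl
    obtain ⟨k, p, g, hg, h⟩ := ih d'.degree (by omega) d' rfl (by rw [e0] at hwt; linarith)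
    obtain ⟨q, hq⟩ := qs K
    refine ⟨k + 1, p * q, g, hg, ?_⟩
    rw [sB] at hq
    rw [hmon, map_mul, ← hq, pow_succ]
    linear_combination ((X (Sum.inr 0) : BC K) * hV K (thV K)) * h
  by_cases h3 : d (Sum.inr 1) ≠ 0
  · obtain ⟨d', -, -, hdeg, hwt, hmon⟩ := rem K d _ h3
    have e0 : wB (Sum.inr 1) = 0 := rfl
    obtain ⟨k, p, g, hg, h⟩ := ih d'.degree (by omega) d' rfl (by rw [e0] at hwt; linarith)
    obtain ⟨q, hq⟩ := qs' K
    refine ⟨k + 1, p * q, g, hg, ?_⟩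
    rw [sB'] at hq
    rw [hmon, map_mul, ← hq, pow_succ]
    linear_combination ((X (Sum.inr 1) : BC K) * hV K (thV K)) * h
  by_cases h4 : ∃ i : Fin 4, d (Sum.inl (Sum.inr i)) ≠ 0
  · obtain ⟨i, hi⟩ := h4
    by_cases h5 : d (Sum.inr 2) ≠ 0
    · obtain ⟨d', -, hne, hdeg, hwt, hmon⟩ := rem K d _ h5
      obtain ⟨d'', -, -, hdeg', hwt', hmon'⟩ := rem K d' (Sum.inl (Sum.inr i)) (by rw [hne _ (by simp)]; exact hi)
      have e0 : wB (Sum.inr 2) = -1 := rfl
      have e1 : wB (Sum.inl (Sum.inr i)) = 1 := rfl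
      obtain ⟨k, p, g, hg, h⟩ := ih d''.degree (by omega) d'' rfl (by rw [e0] at hwt; rw [e1] at hwt'; linarith)
      obtain ⟨q, hq⟩ := qt K i
      refine ⟨k + 1, p * q, g, hg, ?_⟩
      rw [tB] at hq
      rw [hmon, hmon', map_mul, ← hq, pow_succ]
      linear_combination ((X (Sum.inr 2) : BC K) * X (Sum.inl (Sum.inr i)) * hV K (thV K)) * h
    by_cases h6 : d (Sum.inr 3) ≠ 0
    · obtain ⟨d', -, hne, hdeg, hwt, hmon⟩ := rem K d _ h6
      obtain ⟨d'', -, -, hdeg', hwt', hmon'⟩ := rem K d' (Sum.inl (Sum.inr i)) (by rw [hne _ (by simp)]; exact hi)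
      have e0 : wB (Sum.inr 3) = -1 := rfl
      have e1 : wB (Sum.inl (Sum.inr i)) = 1 := rfl
      obtain ⟨k, p, g, hg, h⟩ := ih d''.degree (by omega) d'' rfl (by rw [e0] at hwt; rw [e1] at hwt'; linarith)
      obtain ⟨q, hq⟩ := qt' K i
      refine ⟨k + 1, p * q, g, hg, ?_⟩
      rw [tB'] at hq
      rw [hmon, hmon', map_mul, ← hq, pow_succ]
      linear_combination ((X (Sum.inr 3) : BC K) * X (Sum.inl (Sum.inr i)) * hV K (thV K)) * h
    refine ⟨0, 1, d, ⟨hw, Or.inl ?_⟩, by rw [pow_zero, (map_one (hV K) : hV K 1 = 1)]⟩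
    intro v hv
    rcases v with (v | v) | v
    · exact absurd ⟨v, hv⟩ h1
    · exact ⟨v, rfl⟩
    · exfalso
      fin_cases v
      · exact h2 hv
      · exact h3 hv
      · exact h5 hv
      · exact h6 hv
  refine ⟨0, 1, d, ⟨hw, Or.inr ?_⟩, by rw [pow_zero, (map_one (hV K) : hV K 1 = 1)]⟩
  intro v hv
  rcases v with (v | v) | v
  · exact absurd ⟨v, hv⟩ h1
  · exact absurd ⟨v, hv⟩ h4
  · fin_cases v
    · exact absurd hv h2
    · exact absurd hv h3
    · exact Or.inl rfl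
    · exact Or.inr rfl

/-- the class of `b` -/
def mq (J : Ideal (BC K)) (b : BC K) : Res (hV K).toRingHom (BC K ⧸ J) :=
  FY.Res.mk (hV K).toRingHom (Ideal.Quotient.mk J b)

theorem mq_smul (J : Ideal (BC K)) (r : Gr.Pol K) (b : BC K) : r • mq K J b = mq K J (hV K r * b) := rfl

theorem mq_add (J : Ideal (BC K)) (b c : BC K) : mq K J (b + c) = mq K J b + mq K J c := rfl

theorem mq_zero (J : Ideal (BC K)) : mq K J 0 = 0 := rfl

/-- the submodule generated by the classes of the monomials -/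
def N0 (J : Ideal (BC K)) (j : ℤ) : Submodule (Gr.Pol K) (Res (hV K).toRingHom (BC K ⧸ J)) :=
  Submodule.span (Gr.Pol K) ((fun g => mq K J (monomial g (1 : K))) '' G j)

theorem N0_le (J : Ideal (BC K)) (j : ℤ) : N0 K J j ≤ gV J j := by
  refine Submodule.span_le.2 ?_
  rintro _ ⟨g, hg, rfl⟩
  exact Submodule.subset_span ⟨monomial g 1, isWeightedHomogeneous_monomial wB g 1 hg.1, rfl⟩

theorem N0_fg (J : Ideal (BC K)) (j : ℤ) : (N0 K J j).FG :=
  Submodule.fg_span ((finG j).image _)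

/-- the elements which are in `N0` up to `θ`-torsion -/
def T0 (J : Ideal (BC K)) (j : ℤ) : Submodule (Gr.Pol K) (Res (hV K).toRingHom (BC K ⧸ J)) where
  carrier := {y | ∃ k : ℕ, thV K ^ k • y ∈ N0 K J j}
  zero_mem' := ⟨0, by rw [smul_zero]; exact Submodule.zero_mem _⟩
  add_mem' := by
    rintro a b ⟨k, hk⟩ ⟨l, hl⟩
    refine ⟨k + l, ?_⟩
    rw [smul_add]
    refine Submodule.add_mem _ ?_ ?_
    · rw [add_comm k l, pow_add, mul_smul]
      exact Submodule.smul_mem _ _ hk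
    · rw [pow_add, mul_smul]
      exact Submodule.smul_mem _ _ hl
  smul_mem' := by
    rintro r a ⟨k, hk⟩
    refine ⟨k, ?_⟩
    rw [smul_comm]
    exact Submodule.smul_mem _ _ hk

theorem mono_T0 (J : Ideal (BC K)) (j : ℤ) (d : VB →₀ ℕ) (c : K) (hd : Finsupp.weight wB d = j) :
    mq K J (monomial d c) ∈ T0 K J j := by
  obtain ⟨k, p, g, hg, h⟩ := key K j _ d rfl hd
  refine ⟨k, ?_⟩
  have h1 : thV K ^ k • mq K J (monomial d c) = (C c * p) • mq K J (monomial g (1 : K)) := by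
    rw [mq_smul, mq_smul]
    have hc : hV K (C c) = C c := (hV K).commutes c
    have hm : (monomial d c : BC K) = C c * monomial d 1 := by rw [C_mul_monomial, mul_one]
    have h2 : hV K (thV K ^ k) * monomial d c = hV K (C c * p) * monomial g (1 : K) := by
      rw [map_pow, map_mul, hc, hm]
      linear_combination (C c : BC K) * h
    rw [h2]
  rw [h1]
  exact Submodule.smul_mem _ _ (Submodule.subset_span ⟨g, hg, rfl⟩)

theorem le_T0 (J : Ideal (BC K)) (j : ℤ) : gV J j ≤ T0 K J j := by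
  refine Submodule.span_le.2 ?_
  rintro _ ⟨x, hx, rfl⟩
  let A : AddSubmonoid (BC K) :=
    { carrier := {b | mq K J b ∈ T0 K J j}
      zero_mem' := by
        show mq K J 0 ∈ T0 K J j
        rw [mq_zero]; exact Submodule.zero_mem _
      add_mem' := by
        intro a b ha hb
        show mq K J (a + b) ∈ T0 K J j
        rw [mq_add]; exact Submodule.add_mem _ ha hb }
  have hA : x ∈ A := by
    rw [x.as_sum]
    exact AddSubmonoid.sum_mem A fun d hd => mono_T0 K J j d _ (hx (mem_support_iff.1 hd))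
  exact hA

end GLf_aux

open GLf_aux in
theorem tGLf : S_GLf := by
  intro K _ J j
  refine ⟨(N0 K J j).comap (gV J j).subtype, ?_, ?_⟩
  · refine Submodule.fg_of_fg_map_injective (gV J j).subtype (Submodule.injective_subtype _) ?_
    rw [Submodule.map_comap_subtype, inf_eq_right.2 (N0_le K J j)]
    exact N0_fg K J j
  · intro m
    obtain ⟨k, hk⟩ := le_T0 K J j m.2
    exact ⟨k, hk⟩

end Pool.Agent.QV
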