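import Pool.Agent.Lib.MP_b53bfe_ag.Q.SpecV

/-!
# MP_b53bfe_ag, Q1 for quintic threefolds, phase 3: graded multiplicativity (helper97)
-/

set_option autoImplicit false

noncomputable section

namespace Pool.Agent.QV

open Matrix
open MvPolynomial
open Pool.Agent.FY (Res)

namespace GMl_aux

section gen

variable {B : Type} [CommRing B]

theorem mem_sup_iff (J : Ideal B) (a x : B) : x ∈ J ⊔ Ideal.span {a} ↔ ∃ c, x - a * c ∈ J := by
  rw [sup_comm, Ideal.mem_span_singleton_sup]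
  constructor
  · rintro ⟨c, g, hg, rfl⟩
    exact ⟨c, by rw [mul_comm c a, add_sub_cancel_left]; exact hg⟩
  · rintro ⟨c, hc⟩
    exact ⟨c, x - a * c, hc, by ring⟩

/-- multiplication by `a` -/
def mi (J : Ideal B) (a b : B) :
    (B ⧸ (J ⊔ Ideal.span {b})) →ₗ[B] (B ⧸ (J ⊔ Ideal.span {a * b})) :=
  Submodule.mapQ (J ⊔ Ideal.span {b}) (J ⊔ Ideal.span {a * b}) (LinearMap.mulLeft B a) (by
    intro x hx
    rw [mem_sup_iff] at hx
    obtain ⟨c, hc⟩ := hx
    rw [Submodule.mem_comap, mem_sup_iff]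
    refine ⟨c, ?_⟩
    have h1 : a * x - a * b * c = a * (x - b * c) := by ring
    change a * x - a * b * c ∈ J
    rw [h1]
    exact J.mul_mem_left a hc)

/-- the projection -/
def mp (J : Ideal B) (a b : B) :
    (B ⧸ (J ⊔ Ideal.span {a * b})) →ₗ[B] (B ⧸ (J ⊔ Ideal.span {a})) :=
  Submodule.mapQ (J ⊔ Ideal.span {a * b}) (J ⊔ Ideal.span {a}) LinearMap.id (by
    intro x hx
    rw [mem_sup_iff] at hx
    obtain ⟨c, hc⟩ := hx
    rw [Submodule.mem_comap, mem_sup_iff]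
    refine ⟨b * c, ?_⟩
    change x - a * (b * c) ∈ J
    rw [← mul_assoc]
    exact hc)

end gen

section gr

variable {P σ K : Type} [CommRing P] [CommRing K] (h : P →+* MvPolynomial σ K) (w : σ → ℤ)

/-- the class of `b` -/
def mq (J : Ideal (MvPolynomial σ K)) (b : MvPolynomial σ K) : Res h (MvPolynomial σ K ⧸ J) :=
  FY.Res.mk h (Ideal.Quotient.mk J b)

theorem mq_zero (J : Ideal (MvPolynomial σ K)) (b : MvPolynomial σ K) : mq h J b = 0 ↔ b ∈ J :=
  Ideal.Quotient.eq_zero_iff_mem (I := J)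

theorem mq_eq (J : Ideal (MvPolynomial σ K)) (b c : MvPolynomial σ K) : mq h J b = mq h J c ↔ b - c ∈ J :=
  Ideal.Quotient.eq (I := J)

theorem mq_smul (J : Ideal (MvPolynomial σ K)) (r : P) (b : MvPolynomial σ K) : r • mq h J b = mq h J (h r * b) := rfl

theorem mq_mem (J : Ideal (MvPolynomial σ K)) {x : MvPolynomial σ K} {j : ℤ} (hx : IsWeightedHomogeneous w x j) :
    mq h J x ∈ gp h w J j := Submodule.subset_span ⟨x, hx, rfl⟩

/-- every element of `gp` is a class -/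
def Cl : Prop := ∀ (J : Ideal (MvPolynomial σ K)) (j : ℤ), ∀ y ∈ gp h w J j,
  ∃ x : MvPolynomial σ K, IsWeightedHomogeneous w x j ∧ y = mq h J x

variable {h w}

/-- the projection of the pieces of degree `j` -/
def pr (J : Ideal (MvPolynomial σ K)) (a b : MvPolynomial σ K) (j : ℤ) (hc : Cl h w) :
    gp h w (J ⊔ Ideal.span {a * b}) j →ₗ[P] gp h w (J ⊔ Ideal.span {a}) j :=
  ((Res.map h (mp J a b)).domRestrict _).codRestrict _ (by
    rintro ⟨y, hy⟩
    obtain ⟨x, hx, rfl⟩ := hc _ _ y hy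
    exact mq_mem h w (J ⊔ Ideal.span {a}) hx)

/-- multiplication by `a` -/
def mu (J : Ideal (MvPolynomial σ K)) (a b : MvPolynomial σ K) (e j : ℤ) (ha : IsWeightedHomogeneous w a e) (hc : Cl h w) :
    gp h w (J ⊔ Ideal.span {b}) (j - e) →ₗ[P] gp h w (J ⊔ Ideal.span {a * b}) j :=
  ((Res.map h (mi J a b)).domRestrict _).codRestrict _ (by
    rintro ⟨y, hy⟩
    obtain ⟨x, hx, rfl⟩ := hc _ _ y hy
    have h1 : IsWeightedHomogeneous w (a * x) j := by
      have h2 := ha.mul hx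
      rwa [add_sub_cancel] at h2
    exact mq_mem h w (J ⊔ Ideal.span {a * b}) h1)

theorem pr_mk (J : Ideal (MvPolynomial σ K)) (a b : MvPolynomial σ K) (j : ℤ) (hc : Cl h w) (x : MvPolynomial σ K)
    (hx : mq h (J ⊔ Ideal.span {a * b}) x ∈ gp h w (J ⊔ Ideal.span {a * b}) j) :
    (pr J a b j hc ⟨mq h (J ⊔ Ideal.span {a * b}) x, hx⟩ : Res h (MvPolynomial σ K ⧸ (J ⊔ Ideal.span {a}))) =
      mq h (J ⊔ Ideal.span {a}) x := rfl

theorem mu_mk (J : Ideal (MvPolynomial σ K)) (a b : MvPolynomial σ K) (e j : ℤ) (ha : IsWeightedHomogeneous w a e)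
    (hc : Cl h w) (x : MvPolynomial σ K) (hx : mq h (J ⊔ Ideal.span {b}) x ∈ gp h w (J ⊔ Ideal.span {b}) (j - e)) :
    (mu J a b e j ha hc ⟨mq h (J ⊔ Ideal.span {b}) x, hx⟩ : Res h (MvPolynomial σ K ⧸ (J ⊔ Ideal.span {a * b}))) =
      mq h (J ⊔ Ideal.span {a * b}) (a * x) := rfl

theorem pr_surj (J : Ideal (MvPolynomial σ K)) (a b : MvPolynomial σ K) (j : ℤ) (hc : Cl h w) :
    Function.Surjective (pr J a b j hc) := by
  rintro ⟨y, hy⟩
  obtain ⟨x, hx, rfl⟩ := hc _ _ y hy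
  exact ⟨⟨mq h _ x, mq_mem h w _ hx⟩, Subtype.ext (pr_mk J a b j hc x _)⟩

/-- the elements of weight `j` of `J ⊔ (a)` -/
def Dv (w : σ → ℤ) (J : Ideal (MvPolynomial σ K)) : Prop := ∀ (a : MvPolynomial σ K) (e j : ℤ) (x : MvPolynomial σ K),
  IsWeightedHomogeneous w a e → IsWeightedHomogeneous w x j → x ∈ J ⊔ Ideal.span {a} →
    ∃ c : MvPolynomial σ K, IsWeightedHomogeneous w c (j - e) ∧ x - a * c ∈ J

theorem exact_pr (J : Ideal (MvPolynomial σ K)) (a b : MvPolynomial σ K) (e j : ℤ) (ha : IsWeightedHomogeneous w a e)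
    (hc : Cl h w) (hd : Dv w J) (y : gp h w (J ⊔ Ideal.span {a * b}) j) :
    pr J a b j hc y = 0 ↔ y ∈ LinearMap.range (mu (h := h) J a b e j ha hc) := by
  obtain ⟨y, hy⟩ := y
  constructor
  · intro h0
    obtain ⟨x, hx, rfl⟩ := hc _ _ y hy
    have h1 : mq h (J ⊔ Ideal.span {a}) x = 0 := by
      rw [← pr_mk J a b j hc x hy, h0]
      rfl
    rw [mq_zero] at h1
    obtain ⟨c, hcw, hcm⟩ := hd a e j x ha hx h1
    refine ⟨⟨mq h _ c, mq_mem h w _ hcw⟩, Subtype.ext ?_⟩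
    rw [mu_mk]
    change mq h (J ⊔ Ideal.span {a * b}) (a * c) = mq h (J ⊔ Ideal.span {a * b}) x
    rw [mq_eq]
    have h2 : a * c - x = -(x - a * c) := by ring
    rw [h2]
    exact Submodule.mem_sup_left (J.neg_mem hcm)
  · rintro ⟨⟨z, hz⟩, h0⟩
    obtain ⟨x, hx, rfl⟩ := hc _ _ z hz
    have hax : IsWeightedHomogeneous w (a * x) j := by
      have h2 := ha.mul hx
      rwa [add_sub_cancel] at h2
    have h1 : (⟨mq h (J ⊔ Ideal.span {a * b}) (a * x), mq_mem h w _ hax⟩ : gp h w (J ⊔ Ideal.span {a * b}) j) = ⟨y, hy⟩ := by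
      rw [← h0]
      exact Subtype.ext (mu_mk J a b e j ha hc x hz).symm
    rw [← h1]
    refine Subtype.ext ?_
    rw [pr_mk]
    change mq h (J ⊔ Ideal.span {a}) (a * x) = 0
    rw [mq_zero]
    exact Submodule.mem_sup_right (Ideal.mem_span_singleton.2 ⟨x, rfl⟩)

theorem ker_mu (θ : P) (J : Ideal (MvPolynomial σ K)) (a b : MvPolynomial σ K) (e e' j : ℤ) (ha : IsWeightedHomogeneous w a e)
    (hb : IsWeightedHomogeneous w b e') (hc : Cl h w) (hd : Dv w J)
    (hr : ∀ x : MvPolynomial σ K, IsWeightedHomogeneous w x (j - e) → a * x ∈ J → ∃ k : ℕ, h θ ^ k * x ∈ J)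
    (y : gp h w (J ⊔ Ideal.span {b}) (j - e)) (h0 : mu J a b e j ha hc y = 0) : ∃ k : ℕ, θ ^ k • y = 0 := by
  obtain ⟨y, hy⟩ := y
  obtain ⟨x, hx, rfl⟩ := hc _ _ y hy
  have h1 : mq h (J ⊔ Ideal.span {a * b}) (a * x) = 0 := by
    rw [← mu_mk J a b e j ha hc x hy, h0]
    rfl
  rw [mq_zero] at h1
  have hax : IsWeightedHomogeneous w (a * x) j := by
    have h2 := ha.mul hx
    rwa [add_sub_cancel] at h2
  obtain ⟨c, hcw, hcm⟩ := hd (a * b) (e + e') j (a * x) (ha.mul hb) hax h1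
  have hbc : IsWeightedHomogeneous w (b * c) (j - e) := by
    have h2 := hb.mul hcw
    have h3 : e' + (j - (e + e')) = j - e := by ring
    rwa [h3] at h2
  have h4 : a * (x - b * c) ∈ J := by
    have h5 : a * (x - b * c) = a * x - a * b * c := by ring
    rw [h5]; exact hcm
  obtain ⟨k, hk⟩ := hr (x - b * c) (hx.sub hbc) h4
  refine ⟨k, Subtype.ext ?_⟩
  change θ ^ k • mq h (J ⊔ Ideal.span {b}) x = 0
  rw [mq_smul, mq_zero, mem_sup_iff]
  refine ⟨h θ ^ k * c, ?_⟩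
  have h6 : h (θ ^ k) * x - b * (h θ ^ k * c) = h θ ^ k * (x - b * c) := by
    rw [map_pow]; ring
  rw [h6]
  exact hk

end gr

theorem LFn_surj {P : Type} [CommRing P] {θ : P} {M N : Type} [AddCommGroup M] [Module P M] [AddCommGroup N] [Module P N]
    (p : M →ₗ[P] N) (hp : Function.Surjective p) (hM : LFn θ M) : LFn θ N := by
  obtain ⟨M0, h1, h2⟩ := hM
  refine ⟨M0.map p, h1.map p, fun n => ?_⟩
  obtain ⟨m, rfl⟩ := hp n
  obtain ⟨k, hk⟩ := h2 m
  exact ⟨k, by rw [← map_smul]; exact Submodule.mem_map_of_mem hk⟩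

end GMl_aux

open GMl_aux in
/-- **GMl** -/
theorem tGMl : S_TsV → S_GpM → S_GLf → S_Hfv → S_GKS → S_GMl := by
  intro hTs hGp hGL hHf hGK K _ f E _ Φ J a b j e e' hf hJ ha hb hF hr
  have hw : ∀ p : Gr.Pol K, IsWeightedHomogeneous wB ((hV K).toRingHom p) 0 := (hHf K f hf).2.2.2.1
  have hc : Cl (hV K).toRingHom wB := fun I i y hy => (hGp.1 _ _ _ (hV K).toRingHom wB I i hw y).1 hy
  have hd : Dv wB J := fun a e j x ha hx hm => hGp.2.2.2 _ _ wB J a e j x hJ ha hx hm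
  have hle2 : J ⊔ Ideal.span {a * b} ≤ J ⊔ Ideal.span {a} :=
    sup_le_sup_left (Ideal.span_singleton_le_span_singleton.2 (dvd_mul_right a b)) _
  have hle3 : J ⊔ Ideal.span {a * b} ≤ J ⊔ Ideal.span {b} :=
    sup_le_sup_left (Ideal.span_singleton_le_span_singleton.2 (dvd_mul_left b a)) _
  have hK1 : KS (Set.range (Gr.form f)) (gV (J ⊔ Ideal.span {a * b}) j) := hGK K f _ j hF
  have hK3 : KS (Set.range (Gr.form f)) (gV (J ⊔ Ideal.span {b}) (j - e)) := hGK K f _ _ (fun i => hle3 (hF i))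
  have hL1 := hGL K (J ⊔ Ideal.span {a * b}) j
  have hL3 := hGL K (J ⊔ Ideal.span {b}) (j - e)
  have hKr : KS (Set.range (Gr.form f)) (LinearMap.range (mu (h := (hV K).toRingHom) J a b e j ha hc)) := by
    intro s hs m
    refine Subtype.ext ?_
    exact hK1 s hs m.1
  have hLr : LFn (thV K) (LinearMap.range (mu (h := (hV K).toRingHom) J a b e j ha hc)) :=
    LFn_surj (LinearMap.rangeRestrict _) (LinearMap.surjective_rangeRestrict _) hL3
  have h1 := Φ.add (LinearMap.range (mu (h := (hV K).toRingHom) J a b e j ha hc)) (gV (J ⊔ Ideal.span {a * b}) j)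
    (gV (J ⊔ Ideal.span {a}) j) (Submodule.subtype _) (pr (h := (hV K).toRingHom) J a b j hc) hL1 hK1
    (Submodule.injective_subtype _) (pr_surj J a b j hc) (fun y => by
      rw [exact_pr J a b e j ha hc hd y]
      constructor
      · intro hy
        exact ⟨⟨y, hy⟩, rfl⟩
      · rintro ⟨z, rfl⟩
        exact z.2)
  have h2 := (hTs _ (Set.range (Gr.form f)) (thV K) E Φ inferInstance).1 (gV (J ⊔ Ideal.span {b}) (j - e))
    (LinearMap.range (mu (h := (hV K).toRingHom) J a b e j ha hc))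
    (LinearMap.rangeRestrict (mu (h := (hV K).toRingHom) J a b e j ha hc)) hL3 hLr hK3 hKr (fun m hm => by
      refine ker_mu (thV K) J a b e e' j ha hb hc hd hr m ?_
      exact congrArg Subtype.val hm) (fun n => by
      obtain ⟨m, hm⟩ := LinearMap.surjective_rangeRestrict (mu (h := (hV K).toRingHom) J a b e j ha hc) n
      exact ⟨0, m, by rw [pow_zero, one_smul, hm]⟩)
  rw [h1, h2, add_comm]

end Pool.Agent.QV
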