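import Pool.Agent.Lib.MP_b53bfe_ag.Q.SpecF

/-!
# The linear function on the Grothendieck group given by a Q-function
-/

set_option autoImplicit false

noncomputable section

namespace Pool.Agent.QV

open MvPolynomial
open Pool.Agent.FY (Res)

namespace GkL_aux

variable {K : Type} [Field K] {f : MvPolynomial (Fin 5) K} {E : Type} [AddCommGroup E] [Module ℚ E]
  (χ : AFS (Gr.Pol K) (Set.range (Gr.form f)) E)

/-- the linear map on the free vector space -/
def L0 : (Gr.GrMod f →₀ ℚ) →ₗ[ℚ] E :=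
  Finsupp.linearCombination ℚ fun M : Gr.GrMod f => χ.f M.carrier

theorem L0_single (M : Gr.GrMod f) : L0 χ (Finsupp.single M 1) = χ.f M.carrier := by
  unfold L0
  rw [Finsupp.linearCombination_single, one_smul]

theorem ks (M : Gr.GrMod f) : KS (Set.range (Gr.form f)) M.carrier := by
  rintro _ ⟨i, rfl⟩ m
  exact M.form_smul i m

theorem kill (hχ : QF K f E χ) : Gr.relations f ≤ LinearMap.ker (L0 χ) := by
  unfold Gr.relations
  rw [Submodule.span_le]
  rintro x (⟨A, B, C, ⟨i, p, -, -, hi, hp, hex⟩, rfl⟩ | ⟨M, ⟨i, k, hM⟩, rfl⟩)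
  · have h1 := χ.add A.carrier B.carrier C.carrier i p B.fin (ks B) hi hp hex
    change L0 χ _ = 0
    rw [map_sub, map_sub, L0_single, L0_single, L0_single, h1]
    abel
  · change L0 χ _ = 0
    rw [L0_single]
    exact hχ.tors M.carrier M.fin (ks M) ⟨i, k, fun m => hM 3 m⟩

theorem restr (hχ : QF K f E χ) (M : Gr.GrMod f) (h : Gr.Restricted M) : χ.f M.carrier = 0 := by
  obtain ⟨l, N, i1, i2, hN, hk, hr, ⟨e⟩⟩ := h
  have h1 := hχ.perf l N hN hk (fun x hx => hr x hx)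
  have h2 : (Ideal.span {Gr.form f l} • (⊤ : Submodule (Gr.Pol K) N)) = LinearMap.range (LinearMap.lsmul (Gr.Pol K) N (Gr.form f l)) := by
    rw [Submodule.ideal_span_singleton_smul]
    ext x
    rw [Submodule.mem_smul_pointwise_iff_exists, LinearMap.mem_range]
    constructor
    · rintro ⟨y, -, h⟩
      exact ⟨y, h⟩
    · rintro ⟨y, h⟩
      exact ⟨y, trivial, h⟩
  rw [← h1]
  exact AFS.iso χ (e.trans (Submodule.quotEquivOfEq _ _ h2.symm)) M.fin (ks M)

theorem mem_qt {R : Type} [CommRing R] (r : R) (N : Type) [AddCommGroup N] [Module R N] (x : N) :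
    x ∈ (Ideal.span {r} • (⊤ : Submodule R N)) ↔ ∃ y : N, r • y = x := by
  rw [Submodule.ideal_span_singleton_smul, Submodule.mem_smul_pointwise_iff_exists]
  constructor
  · rintro ⟨y, -, h⟩
    exact ⟨y, h⟩
  · rintro ⟨y, h⟩
    exact ⟨y, trivial, h⟩

/-- a quotient of `Pol K` by an ideal `I ⊔ (f_l)`, `I` with the two other forms, `f_l` regular modulo `I` -/
theorem cyc (hχ : QF K f E χ) (l : Fin 3) (I : Ideal (Gr.Pol K)) (hI : ∀ i, i ≠ l → Gr.form f i ∈ I)
    (hr : ∀ x, Gr.form f l * x ∈ I → x ∈ I) : χ.f (Gr.Pol K ⧸ (I ⊔ Ideal.span {Gr.form f l})) = 0 := by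
  have h1 := hχ.perf l (Gr.Pol K ⧸ I) inferInstance (fun i hi m => by
    obtain ⟨x, rfl⟩ := Ideal.Quotient.mk_surjective m
    exact Ideal.Quotient.eq_zero_iff_mem.2 (Ideal.mul_mem_right _ _ (hI i hi))) (fun m hm => by
    obtain ⟨x, rfl⟩ := Ideal.Quotient.mk_surjective m
    exact Ideal.Quotient.eq_zero_iff_mem.2 (hr x (Ideal.Quotient.eq_zero_iff_mem.1 hm)))
  let φ : Gr.Pol K →ₗ[Gr.Pol K] Qt (Gr.form f l) (Gr.Pol K ⧸ I) :=
    (Submodule.mkQ (Ideal.span {Gr.form f l} • (⊤ : Submodule (Gr.Pol K) (Gr.Pol K ⧸ I)))).comp (Submodule.mkQ I)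
  have hφ : Function.Surjective φ := by
    intro x
    obtain ⟨y, hy⟩ := Submodule.Quotient.mk_surjective _ x
    obtain ⟨z, hz⟩ := Submodule.Quotient.mk_surjective _ y
    exact ⟨z, by rw [← hy, ← hz]; rfl⟩
  have hk : LinearMap.ker φ = I ⊔ Ideal.span {Gr.form f l} := by
    ext x
    have e1 : φ x = 0 ↔ (Submodule.Quotient.mk x : Gr.Pol K ⧸ I) ∈ (Ideal.span {Gr.form f l} • (⊤ : Submodule (Gr.Pol K) (Gr.Pol K ⧸ I))) :=
      Submodule.Quotient.mk_eq_zero _
    rw [LinearMap.mem_ker, e1, mem_qt]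
    constructor
    · rintro ⟨y, hy⟩
      obtain ⟨z, rfl⟩ := Submodule.Quotient.mk_surjective _ y
      have h2 : Gr.form f l * z - x ∈ I := by
        rw [← Submodule.Quotient.mk_smul, smul_eq_mul] at hy
        exact (Submodule.Quotient.eq _).1 hy
      have h3 : x = -(Gr.form f l * z - x) + Gr.form f l * z := by ring
      rw [h3]
      exact Submodule.add_mem_sup (neg_mem h2) (Ideal.mul_mem_right _ _ (Ideal.mem_span_singleton_self _))
    · intro hx
      obtain ⟨y, hy, z, hz, rfl⟩ := Submodule.mem_sup.1 hx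
      obtain ⟨c, rfl⟩ := Ideal.mem_span_singleton'.1 hz
      refine ⟨Submodule.Quotient.mk c, ?_⟩
      rw [← Submodule.Quotient.mk_smul, smul_eq_mul]
      refine (Submodule.Quotient.eq _).2 ?_
      have h3 : Gr.form f l * c - (y + c * Gr.form f l) = -y := by ring
      rw [h3]
      exact neg_mem hy
  have e : (Gr.Pol K ⧸ (I ⊔ Ideal.span {Gr.form f l})) ≃ₗ[Gr.Pol K] Qt (Gr.form f l) (Gr.Pol K ⧸ I) :=
    (Submodule.quotEquivOfEq _ _ hk.symm).trans (φ.quotKerEquivOfSurjective hφ)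
  rw [← h1]
  refine AFS.iso χ e inferInstance ?_
  rintro _ ⟨i, rfl⟩ m
  obtain ⟨x, rfl⟩ := Ideal.Quotient.mk_surjective m
  refine Ideal.Quotient.eq_zero_iff_mem.2 (Ideal.mul_mem_right _ _ ?_)
  by_cases hi : i = l
  · subst hi
    exact Ideal.mem_sup_right (Ideal.mem_span_singleton_self _)
  · exact Ideal.mem_sup_left (hI i hi)

theorem X_mem {l : Fin 3} (i : Fin 3) (j : Fin 5) (hi : i ≠ l) :
    (X (i, j) : Gr.Pol K) ∈ supported K {p : Fin 3 × Fin 5 | p.1 ≠ l} :=
  X_mem_supported.2 hi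

theorem form_mem {l : Fin 3} (i : Fin 3) (hi : i ≠ l) : Gr.form f i ∈ supported K {p : Fin 3 × Fin 5 | p.1 ≠ l} := by
  unfold Gr.form
  rw [mem_supported]
  intro x hx
  have h1 := vars_rename (fun j : Fin 5 => (i, j)) f hx
  obtain ⟨j, -, rfl⟩ := Finset.mem_image.1 h1
  exact hi

theorem span_line (hχ : QF K f E χ) (hR : S_RgF) (hf0 : f ≠ 0) : χ.f (Gr.Pol K ⧸ Ideal.span (Set.range (Gr.form f))) = 0 := by
  have h1 := cyc χ hχ 0 (Ideal.span {Gr.form f 1, Gr.form f 2}) (fun i hi => by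
    fin_cases i
    · exact absurd rfl hi
    · exact Ideal.subset_span (Or.inl rfl)
    · exact Ideal.subset_span (Or.inr rfl)) (hR K f 0 _ hf0 (fun r hr => by
      rcases hr with rfl | rfl
      · exact form_mem 1 (by decide)
      · exact form_mem 2 (by decide)))
  have h2 : Ideal.span {Gr.form f 1, Gr.form f 2} ⊔ Ideal.span {Gr.form f 0} = Ideal.span (Set.range (Gr.form f)) := by
    rw [← Ideal.span_union]
    congr 1
    ext x
    constructor
    · rintro ((rfl | rfl) | rfl)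
      · exact ⟨1, rfl⟩
      · exact ⟨2, rfl⟩
      · exact ⟨0, rfl⟩
    · rintro ⟨i, rfl⟩
      fin_cases i
      · exact Or.inr rfl
      · exact Or.inl (Or.inl rfl)
      · exact Or.inl (Or.inr rfl)
  rw [← h2]
  exact h1

theorem exists_third (i k : Fin 3) (h : i ≠ k) : ∃ l : Fin 3, l ≠ i ∧ l ≠ k ∧ ∀ m : Fin 3, m ≠ l → m = i ∨ m = k := by
  revert i k
  decide

theorem span_pair (hχ : QF K f E χ) (hR : S_RgF) (hf0 : f ≠ 0) (i k : Fin 3) (hik : i ≠ k) :
    χ.f (Gr.Pol K ⧸ Ideal.span (Gr.pairGens f i k)) = 0 := by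
  obtain ⟨l, hli, hlk, hl⟩ := exists_third i k hik
  have h1 := cyc χ hχ l (Ideal.span ({r | ∃ j j', r = Gr.minor K i k j j'} ∪ {Gr.form f i, Gr.form f k})) (fun m hm => by
    rcases hl m hm with rfl | rfl
    · exact Ideal.subset_span (Or.inr (Or.inl rfl))
    · exact Ideal.subset_span (Or.inr (Or.inr rfl))) (hR K f l _ hf0 (fun r hr => by
      rcases hr with ⟨j, j', rfl⟩ | rfl | rfl
      · exact sub_mem (mul_mem (X_mem i j hli.symm) (X_mem k j' hlk.symm)) (mul_mem (X_mem i j' hli.symm) (X_mem k j hlk.symm))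
      · exact form_mem i hli.symm
      · exact form_mem k hlk.symm))
  have h2 : Ideal.span ({r | ∃ j j', r = Gr.minor K i k j j'} ∪ {Gr.form f i, Gr.form f k}) ⊔ Ideal.span {Gr.form f l} =
      Ideal.span (Gr.pairGens f i k) := by
    rw [← Ideal.span_union]
    congr 1
    ext x
    constructor
    · rintro ((h | rfl | rfl) | rfl)
      · exact Or.inl h
      · exact Or.inr ⟨i, rfl⟩
      · exact Or.inr ⟨k, rfl⟩
      · exact Or.inr ⟨l, rfl⟩
    · rintro (h | ⟨m, rfl⟩)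
      · exact Or.inl (Or.inl h)
      · by_cases hm : m = l
        · subst hm
          exact Or.inr rfl
        · rcases hl m hm with rfl | rfl
          · exact Or.inl (Or.inr (Or.inl rfl))
          · exact Or.inl (Or.inr (Or.inr rfl))
  rw [← h2]
  exact h1

end GkL_aux

open GkL_aux

theorem tGkL : S_RgF → S_GkL := by
  intro hR K _ f hf E _ _ χ hf0 hχ
  have hk := kill χ hχ
  let Φ : Gr.K0 f →ₗ[ℚ] E := (Gr.relations f).liftQ (L0 χ) hk
  have hΦ : ∀ M : Gr.GrMod f, Φ (Gr.cls M) = χ.f M.carrier := fun M => L0_single χ M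
  refine ⟨Φ, hΦ, ?_⟩
  have hle : Gr.decSpan hf ≤ LinearMap.ker Φ := by
    unfold Gr.decSpan
    rw [Submodule.span_le]
    rintro x ((⟨e, rfl⟩ | ⟨i, k, e, hik, rfl⟩) | ⟨M, hM, rfl⟩)
    · change Φ _ = 0
      rw [hΦ]
      exact span_line χ hχ hR hf0
    · change Φ _ = 0
      rw [hΦ]
      exact span_pair χ hχ hR hf0 i k hik
    · change Φ _ = 0
      rw [hΦ]
      exact restr χ hχ M hM
  exact fun x hx => hle hx

end Pool.Agent.QV
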