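import Pool.Agent.Lib.MP_b53bfe_ag.Q.SpecL

/-!
# Disproof of Q1 of MP_b53bfe_ag for quintic threefolds, phase 3: the assembly of the relation `Γ = 120 Δ` (S_GmK of SpecL)
-/

set_option autoImplicit false

noncomputable section

namespace Pool.Agent.QV

open Matrix
open MvPolynomial
open Pool.Agent.FY (Res)

namespace GmK_aux

/-- the quotients by ideals which contain the three forms are killed by the forms -/
theorem ks_quo {K : Type} [Field K] (f : MvPolynomial (Fin 5) K) (A : Set (Gr.Pol K)) (hA : Set.range (Gr.form f) ⊆ A) :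
    KS (Set.range (Gr.form f)) (Gr.Pol K ⧸ Ideal.span A) := by
  rintro s ⟨i, rfl⟩ m
  exact Gr.quo_form f A (fun i => hA ⟨i, rfl⟩) i m

theorem range_cube {K : Type} [Field K] (f : MvPolynomial (Fin 5) K) (V : Submodule K (Fin 5 → K)) :
    Set.range (Gr.form f) ⊆ cubeGens f V := Set.subset_union_right

theorem range_small {K : Type} [Field K] (f : MvPolynomial (Fin 5) K) :
    Set.range (Gr.form f) ⊆ Gr.smallGens f := Set.subset_union_right

end GmK_aux

open GmK_aux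

theorem tGmK : S_QXV → S_Vv9 → S_VvS → S_LFi → S_LSm → S_LOn → S_GmK := by
  intro qxv vv9 vvs lfi lsm lon K _ _ f E _ χ hq hf hrc htl
  obtain ⟨Φ, hPf, hΦ⟩ := qxv K f E χ hq
  have hL : (Lines f).Finite := lfi K f hf htl
  obtain ⟨M₁, h₁⟩ := vv9 K f E Φ ⟨hf, hPf, hrc⟩
  obtain ⟨M₂, h₂⟩ := lsm K f E Φ hL hf htl
  have e₁ : M₁ ≤ (((max M₁ M₂).toNat : ℕ) : ℤ) := (le_max_left M₁ M₂).trans (Int.self_le_toNat _)
  have e₂ : M₂ ≤ (((max M₁ M₂).toNat : ℕ) : ℤ) := (le_max_right M₁ M₂).trans (Int.self_le_toNat _)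
  refine ⟨hL, ?_⟩
  have hsum : ∑ V ∈ hL.toFinset, χ.f (Gr.Pol K ⧸ Ideal.span (cubeGens f V)) =
      ∑ V ∈ hL.toFinset, Φ.f (gV (IB V) (((max M₁ M₂).toNat : ℕ) : ℤ)) := by
    refine Finset.sum_congr rfl fun V hV => ?_
    have hV' : V ∈ Lines f := hL.mem_toFinset.1 hV
    rw [← hΦ (Gr.Pol K ⧸ Ideal.span (cubeGens f V)) inferInstance (ks_quo f _ (range_cube f V))]
    exact (lon K f E Φ V hf hV' (htl.no3 V hV') _).symm
  rw [hsum, ← h₂ _ e₂, h₁ _ e₁, vvs K f E Φ hf,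
    hΦ (Gr.Pol K ⧸ Ideal.span (Gr.smallGens f)) inferInstance (ks_quo f _ (range_small f))]

end Pool.Agent.QV
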