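import Pool.Agent.Lib.MP_b53bfe_ag.Q.SpecV

/-!
# MP_b53bfe_ag, phase 3, module GpM: graded pieces, general lemmas (helper40)
-/

set_option autoImplicit false

noncomputable section

namespace Pool.Agent.QV

open Matrix
open MvPolynomial
open Pool.Agent.FY (Res)

namespace GpM_aux

/-- the components of `a c` for a homogeneous element `a` -/
theorem comp_mul {σ K : Type} [CommRing K] (w : σ → ℤ) (a c : MvPolynomial σ K) (e j : ℤ)
    (ha : IsWeightedHomogeneous w a e) :
    weightedHomogeneousComponent w j (a * c) = a * weightedHomogeneousComponent w (j - e) c := by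
  classical
  ext d
  rw [coeff_weightedHomogeneousComponent, coeff_mul, coeff_mul]
  split_ifs with hd
  · refine Finset.sum_congr rfl fun v hv => ?_
    by_cases h0 : coeff v.1 a = 0
    · rw [h0, zero_mul, zero_mul]
    · have h1 := ha h0
      have h2 : v.1 + v.2 = d := Finset.HasAntidiagonal.mem_antidiagonal.mp hv
      have h3 : Finsupp.weight w v.2 = j - e := by
        rw [← hd, ← h2, map_add, h1]
        ring
      rw [coeff_weightedHomogeneousComponent, if_pos h3]
  · refine (Finset.sum_eq_zero fun v hv => ?_).symm
    by_cases h0 : coeff v.1 a = 0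
    · rw [h0, zero_mul]
    · have h1 := ha h0
      have h2 : v.1 + v.2 = d := Finset.HasAntidiagonal.mem_antidiagonal.mp hv
      have h3 : Finsupp.weight w v.2 ≠ j - e := by
        intro h4
        apply hd
        rw [← h2, map_add, h1, h4]
        ring
      rw [coeff_weightedHomogeneousComponent, if_neg h3, mul_zero]

theorem comp_self {σ K : Type} [CommRing K] (w : σ → ℤ) (x : MvPolynomial σ K) (j : ℤ)
    (hx : IsWeightedHomogeneous w x j) : weightedHomogeneousComponent w j x = x :=
  hx.weightedHomogeneousComponent_same

end GpM_aux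

open GpM_aux in
theorem tGpM : S_GpM := by
  refine ⟨?_, ?_, ?_, ?_⟩
  · intro P σ K _ _ h w J j hp y
    constructor
    · intro hy
      unfold gp at hy
      induction hy using Submodule.span_induction with
      | mem y hy => exact hy
      | zero =>
        refine ⟨0, isWeightedHomogeneous_zero K w j, ?_⟩
        rw [map_zero]
        rfl
      | add y z _ _ hy hz =>
        obtain ⟨x, hx, rfl⟩ := hy
        obtain ⟨x', hx', rfl⟩ := hz
        refine ⟨x + x', hx.add hx', ?_⟩
        rw [map_add]
        rfl
      | smul p y _ hy =>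
        obtain ⟨x, hx, rfl⟩ := hy
        refine ⟨h p * x, ?_, ?_⟩
        · have h1 := (hp p).mul hx
          rwa [zero_add] at h1
        · rw [FY.Res.smul_mk, map_mul]
          rfl
    · rintro ⟨x, hx, rfl⟩
      exact Submodule.subset_span ⟨x, hx, rfl⟩
  · intro σ K _ w J₁ J₂ h1 h2
    constructor
    · intro x hx j
      obtain ⟨y, hy, z, hz, rfl⟩ := Submodule.mem_sup.mp hx
      rw [map_add]
      exact Ideal.add_mem _ (Ideal.mem_sup_left (h1 y hy j)) (Ideal.mem_sup_right (h2 z hz j))
    · intro j x hx hxJ
      obtain ⟨y, hy, z, hz, hyz⟩ := Submodule.mem_sup.mp hxJ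
      refine ⟨weightedHomogeneousComponent w j y, h1 y hy j, weightedHomogeneousComponent w j z,
        h2 z hz j, weightedHomogeneousComponent_isWeightedHomogeneous _ _,
        weightedHomogeneousComponent_isWeightedHomogeneous _ _, ?_⟩
      rw [← map_add, hyz, comp_self w x j hx]
  · intro σ K _ w A hA x hx j
    letI := weightedGradedAlgebra K w
    refine weightedHomogeneousComponent_mem_of_mem K w (Ideal.homogeneous_span _ _ fun r hr => ?_) hx j
    obtain ⟨b, hb⟩ := hA r hr
    exact ⟨b, hb⟩
  · intro σ K _ w J a e j x hJ ha hx hxJ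
    obtain ⟨g, hg, z, hz, hgz⟩ := Submodule.mem_sup.mp hxJ
    obtain ⟨c, rfl⟩ := Ideal.mem_span_singleton.mp hz
    refine ⟨weightedHomogeneousComponent w (j - e) c,
      weightedHomogeneousComponent_isWeightedHomogeneous _ _, ?_⟩
    have h1 : x = weightedHomogeneousComponent w j g + a * weightedHomogeneousComponent w (j - e) c := by
      rw [← comp_mul w a c e j ha, ← map_add, hgz, comp_self w x j hx]
    have h2 : x - a * weightedHomogeneousComponent w (j - e) c = weightedHomogeneousComponent w j g := by
      rw [sub_eq_iff_eq_add]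
      exact h1
    rw [h2]
    exact hJ g hg j

end Pool.Agent.QV
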