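import Pool.Agent.Lib.MP_b53bfe_ag.Q.SpecG

/-!
# Disproof of Q1 of MP_b53bfe_ag for quintic threefolds: extraction of an equation in the exterior algebra (helper92)
-/

set_option autoImplicit false

noncomputable section

namespace Pool.Agent.QV

open Matrix MvPolynomial TensorProduct
open Pool.Agent.FY (Res)

namespace Gx_aux

variable {R : Type} [CommRing R]

/-- the coordinate functional -/
def fn (w : Dn) : Module.Dual R (Dn → R) := LinearMap.proj w

/-- iterated contraction -/
def ct (l : List (Module.Dual R (Dn → R))) (z : ExteriorAlgebra R (Dn → R)) : ExteriorAlgebra R (Dn → R) :=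
  l.foldl (fun z f => CliffordAlgebra.contractLeft f z) z

theorem ct_cons (f : Module.Dual R (Dn → R)) (l : List (Module.Dual R (Dn → R))) (z : ExteriorAlgebra R (Dn → R)) :
    ct (f :: l) z = ct l (CliffordAlgebra.contractLeft f z) := rfl

theorem ct_nil (z : ExteriorAlgebra R (Dn → R)) : ct ([] : List (Module.Dual R (Dn → R))) z = z := rfl

theorem ct_neg (l : List (Module.Dual R (Dn → R))) (z : ExteriorAlgebra R (Dn → R)) : ct l (-z) = -ct l z := by
  induction l generalizing z with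
  | nil => rfl
  | cons f l ih => rw [ct_cons, ct_cons, map_neg, ih]

theorem ct_sum (l : List (Module.Dual R (Dn → R))) (z : Fin 5 → ExteriorAlgebra R (Dn → R)) :
    ct l (∑ k, z k) = ∑ k, ct l (z k) := by
  induction l generalizing z with
  | nil => rfl
  | cons f l ih => simp only [ct_cons, map_sum, ih]

/-- contraction past a one-form killed by all functionals -/
theorem ct_iota (l : List (Module.Dual R (Dn → R))) (n : Dn → R) (hn : ∀ f ∈ l, f n = 0)
    (z : ExteriorAlgebra R (Dn → R)) :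
    ct l (ExteriorAlgebra.ι R n * z) = (-1 : ExteriorAlgebra R (Dn → R)) ^ l.length * (ExteriorAlgebra.ι R n * ct l z) := by
  induction l generalizing z with
  | nil => simp [ct_nil]
  | cons f l ih =>
    have h1 : CliffordAlgebra.contractLeft f (ExteriorAlgebra.ι R n * z) =
        -(ExteriorAlgebra.ι R n * CliffordAlgebra.contractLeft f z) := by
      have h2 := CliffordAlgebra.contractLeft_ι_mul (Q := (0 : QuadraticForm R (Dn → R))) (d := f) n z
      rw [hn f (List.mem_cons_self), zero_smul, zero_sub] at h2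
      exact h2
    rw [ct_cons, h1, ct_neg, ih (fun g hg => hn g (List.mem_cons_of_mem _ hg)), ct_cons, List.length_cons, pow_succ,
      mul_neg_one, neg_mul]

/-- a functional which kills all one-forms of a product kills the product -/
theorem ctl_prod (f : Module.Dual R (Dn → R)) (l : List (Dn → R)) (hl : ∀ v ∈ l, f v = 0)
    (y : ExteriorAlgebra R (Dn → R)) (hy : CliffordAlgebra.contractLeft f y = 0) :
    CliffordAlgebra.contractLeft f ((l.map (ExteriorAlgebra.ι R)).prod * y) = 0 := by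
  induction l with
  | nil => simpa using hy
  | cons v l ih =>
    rw [List.map_cons, List.prod_cons, mul_assoc]
    have h2 := CliffordAlgebra.contractLeft_ι_mul (Q := (0 : QuadraticForm R (Dn → R))) (d := f) v
      ((l.map (ExteriorAlgebra.ι R)).prod * y)
    rw [hl v (List.mem_cons_self), zero_smul, zero_sub, ih fun w hw => hl w (List.mem_cons_of_mem _ hw),
      mul_zero, neg_zero] at h2
    exact h2

/-- the contraction of one slot -/
theorem blk (h1 : S_Gx1) (s : Fin 3) (a : Fin 6 → Dn → R) (y : ExteriorAlgebra R (Dn → R))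
    (hy : ∀ j : Fin 5, CliffordAlgebra.contractLeft (fn (R := R) (Sum.inl (s, j))) y = 0) :
    ct (List.ofFn fun j : Fin 5 => fn (R := R) (Sum.inl (s, j)))
      ((List.ofFn fun i => ExteriorAlgebra.ι R (a i)).prod * y) =
        ExteriorAlgebra.ι R (fun w => (mat6 a s w).det) * y := by
  obtain ⟨n, hn, hd⟩ := h1 R (Dn → R) 5 (fun j : Fin 5 => fn (R := R) (Sum.inl (s, j))) a y hy
  have hn' : n = fun w => (mat6 a s w).det := by
    funext w
    refine (hd (fn w)).trans (congrArg Matrix.det ?_)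
    ext i j
    fin_cases j <;> rfl
  rw [← hn']
  exact hn

/-- the coordinates of the other slots vanish -/
theorem N_zero (s s' : Fin 3) (a : Fin 6 → Dn → R) (j : Fin 5)
    (ha : ∀ i, a i (Sum.inl (s', j)) = 0) : (mat6 a s (Sum.inl (s', j))).det = 0 :=
  Matrix.det_eq_zero_of_column_eq_zero (5 : Fin 6) fun i => ha i

theorem inv_iota (x : Dn → R) (y : ExteriorAlgebra R (Dn → R)) :
    ExteriorAlgebra.algebraMapInv (ExteriorAlgebra.ι R x * y) = 0 := by
  rw [map_mul]
  have : ExteriorAlgebra.algebraMapInv (ExteriorAlgebra.ι R x) = (0 : R) := by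
    simp [ExteriorAlgebra.algebraMapInv]
  rw [this, zero_mul]

theorem cl_one (f : Module.Dual R (Dn → R)) :
    CliffordAlgebra.contractLeft f (1 : ExteriorAlgebra R (Dn → R)) = 0 :=
  CliffordAlgebra.contractLeft_one (Q := (0 : QuadraticForm R (Dn → R))) f

theorem cl_mul (f : Module.Dual R (Dn → R)) (v : Dn → R) (y : ExteriorAlgebra R (Dn → R)) :
    CliffordAlgebra.contractLeft f (ExteriorAlgebra.ι R v * y) =
      f v • y - ExteriorAlgebra.ι R v * CliffordAlgebra.contractLeft f y :=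
  CliffordAlgebra.contractLeft_ι_mul (Q := (0 : QuadraticForm R (Dn → R))) (d := f) v y

/-- three contractions of three one-forms -/
theorem tri (h1 : S_Gx1) (v : Fin 3 → Dn → R) (i j m : Fin 6) :
    ExteriorAlgebra.algebraMapInv (ct [fn (Sum.inr i), fn (Sum.inr j), fn (Sum.inr m)]
      (ExteriorAlgebra.ι R (v 0) * (ExteriorAlgebra.ι R (v 1) * ExteriorAlgebra.ι R (v 2)))) =
      (Matrix.of fun s r : Fin 3 => v s (Sum.inr ((![i, j, m] : Fin 3 → Fin 6) r))).det := by
  obtain ⟨n, hn, hd⟩ := h1 R (Dn → R) 2 ![fn (R := R) (Sum.inr i), fn (Sum.inr j)] v 1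
    (fun _ => cl_one _)
  have e1 : (List.ofFn fun i => ExteriorAlgebra.ι R (v i)).prod * 1 =
      ExteriorAlgebra.ι R (v 0) * (ExteriorAlgebra.ι R (v 1) * ExteriorAlgebra.ι R (v 2)) := by
    simp [List.ofFn_succ]
  have e2 : List.ofFn (![fn (R := R) (Sum.inr i), fn (Sum.inr j)] : Fin 2 → Module.Dual R (Dn → R)) =
      [fn (Sum.inr i), fn (Sum.inr j)] := rfl
  rw [e1, e2, mul_one] at hn
  have e3 : ct [fn (Sum.inr i), fn (Sum.inr j), fn (Sum.inr m)]
      (ExteriorAlgebra.ι R (v 0) * (ExteriorAlgebra.ι R (v 1) * ExteriorAlgebra.ι R (v 2))) =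
      CliffordAlgebra.contractLeft (fn (Sum.inr m)) (ExteriorAlgebra.ι R n) :=
    congrArg (CliffordAlgebra.contractLeft (fn (R := R) (Sum.inr m))) hn
  have e4 : CliffordAlgebra.contractLeft (fn (Sum.inr m)) (ExteriorAlgebra.ι R n) =
      algebraMap R (ExteriorAlgebra R (Dn → R)) (fn (Sum.inr m) n) :=
    CliffordAlgebra.contractLeft_ι (Q := (0 : QuadraticForm R (Dn → R))) _ _
  rw [e3, e4, hd]
  refine (ExteriorAlgebra.algebraMap_leftInverse (Dn → R) _).trans (congrArg Matrix.det ?_)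
  ext s r
  fin_cases r <;> rfl

/-- three contractions of a multiple of `ι τ` -/
theorem tau3 (τ : Dn → R) (b : ExteriorAlgebra R (Dn → R)) (i j m : Fin 6) :
    ExteriorAlgebra.algebraMapInv (ct [fn (Sum.inr i), fn (Sum.inr j), fn (Sum.inr m)]
      (ExteriorAlgebra.ι R τ * b)) =
      τ (Sum.inr i) * ExteriorAlgebra.algebraMapInv (CliffordAlgebra.contractLeft (fn (Sum.inr m))
        (CliffordAlgebra.contractLeft (fn (Sum.inr j)) b)) -
      τ (Sum.inr j) * ExteriorAlgebra.algebraMapInv (CliffordAlgebra.contractLeft (fn (Sum.inr m))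
        (CliffordAlgebra.contractLeft (fn (Sum.inr i)) b)) +
      τ (Sum.inr m) * ExteriorAlgebra.algebraMapInv (CliffordAlgebra.contractLeft (fn (Sum.inr j))
        (CliffordAlgebra.contractLeft (fn (Sum.inr i)) b)) := by
  have hf : ∀ w, fn (R := R) w τ = τ w := fun w => rfl
  simp only [ct_cons, ct_nil, cl_mul, map_sub, map_smul, inv_iota, hf, smul_eq_mul]
  ring

end Gx_aux

open Gx_aux in
theorem tGx : S_Gx1 → S_Gx := by
  intro h1 R _ τ α hτ hα hmem
  obtain ⟨β, hβ⟩ := hmem
  set L : Fin 3 → List (Module.Dual R (Dn → R)) :=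
    fun s => List.ofFn fun j : Fin 5 => fn (R := R) (Sum.inl (s, j)) with hL
  set N : Fin 5 → Fin 3 → Dn → R := fun k s w => (mat6 (α k s) s w).det with hN
  have hlen : ∀ s, (L s).length = 5 := fun s => List.length_ofFn
  have hmemL : ∀ (s : Fin 3) (n : Dn → R), (∀ j : Fin 5, n (Sum.inl (s, j)) = 0) → ∀ f ∈ L s, f n = 0 := by
    intro s n hn f hf
    obtain ⟨j, rfl⟩ := (List.mem_ofFn' _ _).1 hf
    exact hn j
  have hm5 : (-1 : ExteriorAlgebra R (Dn → R)) ^ 5 = -1 := by
    rw [pow_succ, Even.neg_one_pow ⟨2, rfl⟩, one_mul]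
  have hpast : ∀ (s : Fin 3) (n : Dn → R), (∀ j : Fin 5, n (Sum.inl (s, j)) = 0) → ∀ z,
      ct (L s) (ExteriorAlgebra.ι R n * z) = -(ExteriorAlgebra.ι R n * ct (L s) z) := by
    intro s n hn z
    rw [ct_iota (L s) n (hmemL s n hn) z, hlen, hm5, neg_one_mul]
  have hNz : ∀ k s s' j, s' ≠ s → N k s (Sum.inl (s', j)) = 0 :=
    fun k s s' j hs => N_zero s s' (α k s) j fun i => hα k s i s' j hs
  set P : Fin 5 → Fin 3 → ExteriorAlgebra R (Dn → R) :=
    fun k s => (List.ofFn fun i : Fin 6 => ExteriorAlgebra.ι R (α k s i)).prod with hP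
  have hkill : ∀ (k : Fin 5) (s s' : Fin 3) (j : Fin 5) (y : ExteriorAlgebra R (Dn → R)), s' ≠ s →
      CliffordAlgebra.contractLeft (fn (R := R) (Sum.inl (s', j))) y = 0 →
      CliffordAlgebra.contractLeft (fn (R := R) (Sum.inl (s', j))) (P k s * y) = 0 := by
    intro k s s' j y hs hy
    have e : P k s = ((List.ofFn fun i : Fin 6 => α k s i).map (ExteriorAlgebra.ι R)).prod := by
      rw [List.map_ofFn]
      rfl
    rw [e]
    refine ctl_prod _ _ (fun v hv => ?_) y hy
    obtain ⟨i, rfl⟩ := (List.mem_ofFn' _ _).1 hv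
    exact hα k s i s' j hs
  have hk : ∀ k, ct (L 2) (ct (L 1) (ct (L 0) (pr18 (α k)))) =
      -(ExteriorAlgebra.ι R (N k 0) * (ExteriorAlgebra.ι R (N k 1) * ExteriorAlgebra.ι R (N k 2))) := by
    intro k
    have e0 : pr18 (α k) = P k 0 * (P k 1 * (P k 2 * 1)) := by
      simp [pr18, List.ofFn_succ, hP]
    have b0 : ct (L 0) (P k 0 * (P k 1 * (P k 2 * 1))) = ExteriorAlgebra.ι R (N k 0) * (P k 1 * (P k 2 * 1)) :=
      blk h1 0 (α k 0) _ fun j => hkill k 1 0 j _ (by decide) (hkill k 2 0 j _ (by decide) (cl_one _))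
    have b1 : ct (L 1) (P k 1 * (P k 2 * 1)) = ExteriorAlgebra.ι R (N k 1) * (P k 2 * 1) :=
      blk h1 1 (α k 1) _ fun j => hkill k 2 1 j _ (by decide) (cl_one _)
    have b2 : ct (L 2) (P k 2 * 1) = ExteriorAlgebra.ι R (N k 2) * 1 :=
      blk h1 2 (α k 2) _ fun j => cl_one _
    rw [e0, b0, hpast 1 (N k 0) (fun j => hNz k 0 1 j (by decide)), b1, ct_neg,
      hpast 2 (N k 0) (fun j => hNz k 0 2 j (by decide)), hpast 2 (N k 1) (fun j => hNz k 1 2 j (by decide)), b2,
      mul_one, mul_neg, neg_neg]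
  have hR : ct (L 2) (ct (L 1) (ct (L 0) (ExteriorAlgebra.ι R τ * β))) =
      -(ExteriorAlgebra.ι R τ * ct (L 2) (ct (L 1) (ct (L 0) β))) := by
    rw [hpast 0 τ (fun j => hτ _), ct_neg, hpast 1 τ (fun j => hτ _), neg_neg, hpast 2 τ (fun j => hτ _)]
  set b := ct (L 2) (ct (L 1) (ct (L 0) β)) with hb
  have hmain : ∑ k, ExteriorAlgebra.ι R (N k 0) * (ExteriorAlgebra.ι R (N k 1) * ExteriorAlgebra.ι R (N k 2)) =
      ExteriorAlgebra.ι R τ * b := by
    have h2 := congrArg (fun z => ct (L 2) (ct (L 1) (ct (L 0) z))) hβ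
    simp only [ct_sum] at h2
    rw [hR, Finset.sum_congr rfl fun k _ => hk k, Finset.sum_neg_distrib] at h2
    exact neg_injective h2
  refine ⟨fun i j => ExteriorAlgebra.algebraMapInv (CliffordAlgebra.contractLeft (fn (R := R) (Sum.inr j))
    (CliffordAlgebra.contractLeft (fn (Sum.inr i)) b)), fun i j m => ?_⟩
  have h3 := congrArg (fun z => ExteriorAlgebra.algebraMapInv
    (ct [fn (R := R) (Sum.inr i), fn (Sum.inr j), fn (Sum.inr m)] z)) hmain
  simp only [ct_sum, map_sum] at h3
  rw [tau3, Finset.sum_congr rfl fun k _ => tri h1 (N k) i j m] at h3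
  exact h3

end Pool.Agent.QV
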