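import Pool.Agent.Lib.MP_b53bfe_ag.Q.SpecV

/-!
# `MP_b53bfe_ag`: formulas for `hV`
-/

set_option autoImplicit false

noncomputable section

namespace Pool.Agent.QV

open Matrix
open MvPolynomial
open Pool.Agent.FY (Res)

namespace Hfv_aux

theorem aeval_cg {σ K A : Type} [CommRing K] [CommRing A] [Algebra K A] {a b : σ → A} (h : ∀ j, a j = b j) (f : MvPolynomial σ K) :
    aeval a f = aeval b f := by
  rw [show a = b from funext h]

/-- weighted homogeneous substitution -/
theorem wh_aeval {σ τ K M : Type} [CommRing K] [AddCommMonoid M] {w : σ → M} {w' : τ → M} (g : σ → MvPolynomial τ K)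
    (hg : ∀ i, IsWeightedHomogeneous w' (g i) (w i)) (p : MvPolynomial σ K) (m : M) (hp : IsWeightedHomogeneous w p m) :
    IsWeightedHomogeneous w' (aeval g p) m := by
  rw [p.as_sum, map_sum]
  apply IsWeightedHomogeneous.sum
  intro d hd
  rw [aeval_monomial]
  have h1 : IsWeightedHomogeneous w' (algebraMap K (MvPolynomial τ K) (coeff d p)) 0 := isWeightedHomogeneous_C w' _
  have h2 : IsWeightedHomogeneous w' (d.prod fun i k => g i ^ k) (∑ i ∈ d.support, d i • w i) :=
    IsWeightedHomogeneous.prod _ _ _ fun i _ => (hg i).pow _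
  have h3 : (∑ i ∈ d.support, d i • w i) = m := by
    rw [← hp (mem_support_iff.1 hd), Finsupp.weight_apply]
    rfl
  have h4 := h1.mul h2
  rwa [zero_add, h3] at h4

/-- `f (l x + m u)` -/
theorem key {K A : Type} [CommRing K] [CommRing A] [Algebra K A] (f : MvPolynomial (Fin 5) K) {n : ℕ} (hf : f.IsHomogeneous n)
    (x u : Fin 5 → A) (l m : A) :
    aeval (fun j => l * x j + m * u j) f = ∑ i ∈ Finset.range (n + 1), l ^ (n - i) * m ^ i *
      (aeval (fun j => Polynomial.C (x j) + Polynomial.X * Polynomial.C (u j)) f : Polynomial A).coeff i := by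
  set g : Polynomial A := aeval (fun j => Polynomial.C (x j) + Polynomial.X * Polynomial.C (u j)) f with hg
  set q : MvPolynomial (Fin 2) A := aeval (fun j => C (x j) * X 1 + X 0 * C (u j)) f with hq
  have hq1 : q.IsHomogeneous n := by
    rw [hq, f.as_sum, map_sum]
    apply IsHomogeneous.sum
    intro d hd
    rw [aeval_monomial]
    have h1 : IsHomogeneous (algebraMap K (MvPolynomial (Fin 2) A) (coeff d f)) 0 := by
      rw [IsScalarTower.algebraMap_apply K A (MvPolynomial (Fin 2) A)]
      exact isHomogeneous_C _ _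
    have h2 : IsHomogeneous (d.prod fun i k => (C (x i) * X 1 + X 0 * C (u i) : MvPolynomial (Fin 2) A) ^ k)
        (∑ i ∈ d.support, 1 * d i) := by
      refine IsHomogeneous.prod _ _ _ fun i _ => IsHomogeneous.pow ?_ _
      refine IsHomogeneous.add ?_ ?_
      · have := (isHomogeneous_C (Fin 2) (x i)).mul (isHomogeneous_X A (1 : Fin 2))
        simpa using this
      · have := (isHomogeneous_X A (0 : Fin 2)).mul (isHomogeneous_C (Fin 2) (u i))
        simpa using this
    have h3 : (∑ i ∈ d.support, 1 * d i) = n := by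
      have := hf (mem_support_iff.1 hd)
      rw [Finsupp.weight_apply] at this
      rw [← this]
      simp [Finsupp.sum]
    have h4 := h1.mul h2
    rwa [zero_add, h3] at h4
  have hq2 : aeval ![Polynomial.X, 1] q = g := by
    rw [hq, hg]
    have := DFunLike.congr_fun (comp_aeval (R := K) (fun j => (C (x j) * X 1 + X 0 * C (u j) : MvPolynomial (Fin 2) A))
      ((aeval ![(Polynomial.X : Polynomial A), 1] : MvPolynomial (Fin 2) A →ₐ[A] Polynomial A).restrictScalars K)) f
    refine Eq.trans this (aeval_cg (fun j => ?_) f)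
    simp only [AlgHom.coe_restrictScalars', map_add, map_mul, aeval_X, algHom_C, Matrix.cons_val_zero, Matrix.cons_val_one,
      mul_one, Polynomial.algebraMap_apply, Algebra.algebraMap_self_apply]
    try ring
  have hq3 := Polynomial.homogenize_eq_of_isHomogeneous hq1 hq2
  have hq4 : aeval ![m, l] q = aeval (fun j => l * x j + m * u j) f := by
    rw [hq]
    have := DFunLike.congr_fun (comp_aeval (R := K) (fun j => (C (x j) * X 1 + X 0 * C (u j) : MvPolynomial (Fin 2) A))
      ((aeval ![m, l] : MvPolynomial (Fin 2) A →ₐ[A] A).restrictScalars K)) f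
    refine Eq.trans this (aeval_cg (fun j => ?_) f)
    simp only [AlgHom.coe_restrictScalars', map_add, map_mul, aeval_X, algHom_C, Matrix.cons_val_zero, Matrix.cons_val_one,
      mul_one, Polynomial.algebraMap_apply, Algebra.algebraMap_self_apply]
    try ring
  rw [← hq4, ← hq3, Polynomial.homogenize, map_sum, Finset.Nat.sum_antidiagonal_eq_sum_range_succ_mk]
  refine Finset.sum_congr rfl fun i _ => ?_
  rw [aeval_monomial, Finsupp.update_eq_add_single (by simp), Finsupp.prod_add_index' (by simp) (fun a b c => pow_add _ _ _),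
    Finsupp.prod_single_index (by simp), Finsupp.prod_single_index (by simp)]
  simp
  ring

/-- the coefficients in a larger ring -/
theorem coeff_iC {K : Type} [CommRing K] (f : MvPolynomial (Fin 5) K) (i : ℕ) :
    (aeval (fun j => Polynomial.C (iC (xC K j)) + Polynomial.X * Polynomial.C (iC (uC K j))) f : Polynomial (BC K)).coeff i =
      iC (Fw f i) := by
  have h := DFunLike.congr_fun (comp_aeval (R := K)
    (fun j => (Polynomial.C (xC K j) + Polynomial.X * Polynomial.C (uC K j) : Polynomial (CC K)))
      (Polynomial.mapAlgHom (iC (K := K)))) f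
  have h2 : (aeval (fun j => Polynomial.C (iC (xC K j)) + Polynomial.X * Polynomial.C (iC (uC K j))) f : Polynomial (BC K)) =
      Polynomial.mapAlgHom (iC (K := K)) (aeval (fun j => (Polynomial.C (xC K j) + Polynomial.X * Polynomial.C (uC K j) : Polynomial (CC K))) f) := by
    refine Eq.trans (aeval_cg (fun j => ?_) f) h.symm
    simp
  rw [h2]
  simp [Fw]

/-- the weight of `F_i` -/
theorem wh_Fw {K : Type} [CommRing K] (f : MvPolynomial (Fin 5) K) (i : ℕ) : IsWeightedHomogeneous wC (Fw f i) (i : ℤ) := by
  unfold Fw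
  revert i
  induction f using MvPolynomial.induction_on with
  | C a =>
    intro i
    rw [aeval_C]
    rw [IsScalarTower.algebraMap_apply K (CC K) (Polynomial (CC K))]
    rw [Polynomial.algebraMap_apply, Algebra.algebraMap_self_apply, Polynomial.coeff_C]
    split_ifs with h
    · subst h
      simpa using isWeightedHomogeneous_C wC a
    · exact isWeightedHomogeneous_zero _ _ _
  | add p q hp hq =>
    intro i
    rw [map_add, Polynomial.coeff_add]
    exact (hp i).add (hq i)
  | mul_X p j hp =>
    intro i
    rw [map_mul, aeval_X, Polynomial.coeff_mul]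
    apply IsWeightedHomogeneous.sum
    rintro ⟨a, b⟩ hab
    have hab := Finset.HasAntidiagonal.mem_antidiagonal.1 hab
    have h1 : IsWeightedHomogeneous wC ((Polynomial.C (xC K j) + Polynomial.X * Polynomial.C (uC K j) : Polynomial (CC K)).coeff b) (b : ℤ) := by
      rw [Polynomial.coeff_add, Polynomial.coeff_C]
      match b with
      | 0 =>
        simp only [if_pos, Polynomial.mul_coeff_zero, Polynomial.coeff_X_zero, zero_mul, add_zero, Nat.cast_zero]
        exact isWeightedHomogeneous_X _ _ _
      | 1 =>
        simp only [one_ne_zero, if_false, zero_add, Polynomial.coeff_X_mul, Polynomial.coeff_C_zero, Nat.cast_one]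
        have : ∀ k : Fin 5, IsWeightedHomogeneous wC (uC K k) 1 := by
          intro k
          unfold uC
          refine Fin.succAboveCases (3 : Fin 5) ?_ ?_ k
          · rw [Fin.insertNth_apply_same]
            exact isWeightedHomogeneous_zero _ _ _
          · intro k'
            rw [Fin.insertNth_apply_succAbove]
            exact isWeightedHomogeneous_X _ _ _
        exact this j
      | (c + 2) =>
        simp only [Nat.add_eq_zero_iff, OfNat.ofNat_ne_zero, and_false, if_false, zero_add]
        rw [show c + 2 = (c + 1) + 1 by ring, Polynomial.coeff_X_mul, Polynomial.coeff_C_succ]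
        exact isWeightedHomogeneous_zero _ _ _
    have h2 := (hp a).mul h1
    have h3 : (a : ℤ) + (b : ℤ) = (i : ℤ) := by exact_mod_cast hab
    rwa [h3] at h2

/-- `F_i = 0` for `i > 5` -/
theorem Fw_zero {K : Type} [CommRing K] (f : MvPolynomial (Fin 5) K) (hf : f.IsHomogeneous 5) (i : ℕ) (hi : 6 ≤ i) : Fw f i = 0 := by
  unfold Fw
  apply Polynomial.coeff_eq_zero_of_natDegree_lt
  refine lt_of_le_of_lt ?_ (show 5 < i by omega)
  rw [f.as_sum, map_sum]
  refine Polynomial.natDegree_sum_le_of_forall_le _ _ fun d hd => ?_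
  rw [aeval_monomial]
  refine Polynomial.natDegree_mul_le.trans ?_
  have h1 : ((algebraMap K (Polynomial (CC K))) (coeff d f)).natDegree = 0 := by
    rw [IsScalarTower.algebraMap_apply K (CC K) (Polynomial (CC K)), Polynomial.algebraMap_apply]
    exact Polynomial.natDegree_C _
  have h2 : (d.prod fun i k => (Polynomial.C (xC K i) + Polynomial.X * Polynomial.C (uC K i) : Polynomial (CC K)) ^ k).natDegree ≤ 5 := by
    have h3 : (∑ i ∈ d.support, d i) = 5 := by
      have := hf (mem_support_iff.1 hd)
      rw [Finsupp.weight_apply] at this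
      simpa [Finsupp.sum] using this
    refine le_trans ?_ h3.le
    refine (Polynomial.natDegree_prod_le _ _).trans (Finset.sum_le_sum fun k _ => ?_)
    refine (Polynomial.natDegree_pow_le).trans ?_
    have h4 : (Polynomial.C (xC K k) + Polynomial.X * Polynomial.C (uC K k) : Polynomial (CC K)).natDegree ≤ 1 := by
      refine (Polynomial.natDegree_add_le _ _).trans ?_
      rw [Polynomial.natDegree_C]
      refine max_le (Nat.zero_le _) (Polynomial.natDegree_mul_le.trans ?_)
      rw [Polynomial.natDegree_C, add_zero]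
      exact Polynomial.natDegree_X_le
    calc d k * (Polynomial.C (xC K k) + Polynomial.X * Polynomial.C (uC K k) : Polynomial (CC K)).natDegree ≤ d k * 1 :=
          Nat.mul_le_mul_left _ h4
      _ = d k := mul_one _
  omega

/-- the value of `hV` on a form -/
theorem hV_form {K : Type} [Field K] (f : MvPolynomial (Fin 5) K) (i : Fin 3) :
    hV K (Gr.form f i) = aeval (fun j => (![iC (xC K j), aB K j, bB K j] i : BC K)) f := by
  unfold hV Gr.form
  rw [aeval_rename]
  rfl

end Hfv_aux

open Hfv_aux in
theorem tHfv : S_Hfv := by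
  intro K _ f hf
  have e0 : hV K (Gr.form f 0) = iC (Fw f 0) := by
    rw [hV_form]
    have h := key f hf (fun j => iC (xC K j)) (fun j => iC (uC K j)) (1 : BC K) 0
    simp only [coeff_iC] at h
    have h2 : aeval (fun j => (![iC (xC K j), aB K j, bB K j] 0 : BC K)) f =
        aeval (fun j => (1 : BC K) * iC (xC K j) + 0 * iC (uC K j)) f := by
      refine aeval_cg (fun j => ?_) f
      simp
    rw [h2, h]
    simp [Finset.sum_range_succ]
  have e1 : hV K (Gr.form f 1) = ∑ i ∈ Finset.range 6, sB K ^ (5 - i) * tB K ^ i * iC (Fw f i) := by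
    rw [hV_form]
    have h := key f hf (fun j => iC (xC K j)) (fun j => iC (uC K j)) (sB K) (tB K)
    simp only [coeff_iC] at h
    exact h
  have e2 : hV K (Gr.form f 2) = ∑ i ∈ Finset.range 6, (sB' K * sB K) ^ (5 - i) * TB K ^ i * iC (Fw f i) := by
    rw [hV_form]
    have h := key f hf (fun j => iC (xC K j)) (fun j => iC (uC K j)) (sB' K * sB K) (TB K)
    simp only [coeff_iC] at h
    refine Eq.trans (aeval_cg (fun j => ?_) f) h
    show bB K j = _
    unfold bB aB TB
    ring
  have hmem : ∀ i, i < 4 → ∀ c : BC K, c * iC (Fw f i) ∈ JB f (Finset.range 4) := fun i hi c =>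
    Ideal.mul_mem_left _ _ (Ideal.subset_span ⟨i, Finset.mem_range.2 hi, rfl⟩)
  refine ⟨fun i hi => Fw_zero f hf i hi, wh_Fw f, ?_, ?_, ?_, e0, e1, e2, ?_, ?_⟩
  · intro i
    unfold iC
    rw [rename_eq_aeval]
    exact wh_aeval _ (fun v => isWeightedHomogeneous_X _ _ _) _ _ (wh_Fw f i)
  · intro p
    have hx : ∀ j, IsWeightedHomogeneous wB (iC (xC K j)) 0 := by
      intro j
      unfold iC xC
      rw [rename_X]
      exact isWeightedHomogeneous_X _ _ _
    have hu : ∀ j, IsWeightedHomogeneous wB (iC (uC K j)) 1 := by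
      intro k
      unfold uC
      refine Fin.succAboveCases (3 : Fin 5) ?_ ?_ k
      · rw [Fin.insertNth_apply_same, map_zero]
        exact isWeightedHomogeneous_zero _ _ _
      · intro k'
        rw [Fin.insertNth_apply_succAbove]
        unfold iC
        rw [rename_X]
        exact isWeightedHomogeneous_X _ _ _
    have hs : IsWeightedHomogeneous wB (sB K) 0 := isWeightedHomogeneous_X _ _ _
    have hs' : IsWeightedHomogeneous wB (sB' K) 0 := isWeightedHomogeneous_X _ _ _
    have ht : IsWeightedHomogeneous wB (tB K) (-1) := isWeightedHomogeneous_X _ _ _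
    have ht' : IsWeightedHomogeneous wB (tB' K) (-1) := isWeightedHomogeneous_X _ _ _
    have ha : ∀ j, IsWeightedHomogeneous wB (aB K j) 0 := by
      intro j
      have h1 := hs.mul (hx j)
      have h2 := ht.mul (hu j)
      exact h1.add h2
    have hb : ∀ j, IsWeightedHomogeneous wB (bB K j) 0 := by
      intro j
      have h1 := hs'.mul (ha j)
      have h2 := ht'.mul (hu j)
      exact h1.add h2
    refine wh_aeval (w := fun _ => (0 : ℤ)) _ ?_ p 0 ?_
    · rintro ⟨i, j⟩
      fin_cases i
      · exact hx j
      · exact ha j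
      · exact hb j
    · intro d _
      simp [Finsupp.weight_apply]
  · have hu3 : uC K 3 = 0 := by
      unfold uC
      exact Fin.insertNth_apply_same _ _ _
    unfold thV hV
    rw [map_mul, map_mul, aeval_X, aeval_X, aeval_X]
    show iC (xC K 3) * aB K 3 * bB K 3 = _
    unfold bB aB
    rw [hu3, map_zero]
    ring
  · have h : hV K (Gr.form f 1) - tB K ^ 4 * dB f = sB K ^ 5 * iC (Fw f 0) + sB K ^ 4 * tB K * iC (Fw f 1) +
        sB K ^ 3 * tB K ^ 2 * iC (Fw f 2) + sB K ^ 2 * tB K ^ 3 * iC (Fw f 3) := by
      rw [e1]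
      unfold dB
      simp only [Finset.sum_range_succ, Finset.sum_range_zero, Nat.sub_zero, Nat.reduceSub]
      ring
    rw [h]
    exact Ideal.add_mem _ (Ideal.add_mem _ (Ideal.add_mem _ (hmem 0 (by norm_num) _) (hmem 1 (by norm_num) _))
      (hmem 2 (by norm_num) _)) (hmem 3 (by norm_num) _)
  · have h : hV K (Gr.form f 2) - TB K ^ 4 * (tB' K * iC (Fw f 5)) = ((sB' K * sB K) ^ 5 * iC (Fw f 0) +
        (sB' K * sB K) ^ 4 * TB K * iC (Fw f 1) +
        (sB' K * sB K) ^ 3 * TB K ^ 2 * iC (Fw f 2) + (sB' K * sB K) ^ 2 * TB K ^ 3 * iC (Fw f 3)) +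
        sB' K * TB K ^ 4 * dB f := by
      rw [e2]
      unfold dB TB
      simp only [Finset.sum_range_succ, Finset.sum_range_zero, Nat.sub_zero, Nat.reduceSub]
      ring
    rw [h]
    refine Ideal.add_mem _ (Ideal.mem_sup_left ?_) (Ideal.mem_sup_right (Ideal.mul_mem_left _ _ (Ideal.mem_span_singleton_self _)))
    exact Ideal.add_mem _ (Ideal.add_mem _ (Ideal.add_mem _ (hmem 0 (by norm_num) _) (hmem 1 (by norm_num) _))
      (hmem 2 (by norm_num) _)) (hmem 3 (by norm_num) _)

end Pool.Agent.QV
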