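import Pool.Agent.Lib.MP_b53bfe_ag.Q.SpecD

/-!
# KZ: the function `M ↦ χ (M / t M) - χ (ker t)` is additive
-/

set_option autoImplicit false

noncomputable section

namespace Pool.Agent.QV

open MvPolynomial
open Pool.Agent.FY (Res)

namespace KZ_aux

variable {P A : Type} [CommRing P] [CommRing A] {ι : P →+* A} {t : A} {S₀ : Set P} {S : Set A} {V : Type}
  [AddCommGroup V]

/-- finite, killed by `S` and `t` -/
private structure Nice (t : A) (S : Set A) (M : Type) [AddCommGroup M] [Module A M] : Prop where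
  fin : Module.Finite A M
  kil : KS S M
  tor : ∀ m : M, t • m = 0

section nice

variable {M N : Type} [AddCommGroup M] [Module A M] [AddCommGroup N] [Module A N]

private theorem Nice.inj (hA : IsNoetherianRing A) (h : Nice t S N) (g : M →ₗ[A] N) (hg : Function.Injective g) :
    Nice t S M := by
  have := h.fin
  have hN : IsNoetherian A N := isNoetherian_of_isNoetherianRing_of_finite A N
  refine ⟨Module.Finite.of_injective g hg, fun s hs m => hg ?_, fun m => hg ?_⟩
  · rw [map_smul, map_zero, h.kil s hs]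
  · rw [map_smul, map_zero, h.tor]

private theorem Nice.surj (h : Nice t S M) (g : M →ₗ[A] N) (hg : Function.Surjective g) :
    Nice t S N := by
  have := h.fin
  refine ⟨Module.Finite.of_surjective g hg, fun s hs m => ?_, fun m => ?_⟩
  · obtain ⟨x, rfl⟩ := hg m
    rw [← map_smul, h.kil s hs, map_zero]
  · obtain ⟨x, rfl⟩ := hg m
    rw [← map_smul, h.tor, map_zero]

private theorem Nice.finP (hι : ∀ a : A, ∃ (p : P) (b : A), a = ι p + t * b) (h : Nice t S M) :
    Module.Finite P (Res ι M) := by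
  obtain ⟨s, hs⟩ := h.fin.fg_top
  have key : ∀ y ∈ Submodule.span A (s : Set M), Res.mk ι y ∈ Submodule.span P (Res.mk ι '' (s : Set M)) := by
    intro y hy
    refine Submodule.span_induction
      (p := fun y _ => Res.mk ι y ∈ Submodule.span P (Res.mk ι '' (s : Set M))) ?_ ?_ ?_ ?_ hy
    · intro y hy
      exact Submodule.subset_span ⟨y, hy, rfl⟩
    · exact Submodule.zero_mem _
    · intro y z _ _ hy hz
      exact Submodule.add_mem _ hy hz
    · intro a y _ hy
      obtain ⟨p, b, rfl⟩ := hι a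
      have h1 : (ι p + t * b) • y = ι p • y := by
        rw [add_smul, mul_smul, h.tor, add_zero]
      rw [h1]
      exact Submodule.smul_mem _ p hy
  have hT : Submodule.span P (Res.mk ι '' (s : Set M)) = ⊤ := by
    rw [eq_top_iff]
    intro x _
    refine key x.val ?_
    rw [hs]
    trivial
  refine ⟨?_⟩
  rw [← hT]
  exact Submodule.fg_span (s.finite_toSet.image _)

private theorem Nice.kilP (hS : ∀ p ∈ S₀, ∃ r ∈ Ideal.span S, ∃ b : A, ι p = r + t * b) (h : Nice t S M) :
    KS S₀ (Res ι M) := by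
  intro p hp x
  obtain ⟨r, hr, b, hb⟩ := hS p hp
  have h1 : ∀ y : M, r • y = 0 := by
    refine Submodule.span_induction (p := fun r _ => ∀ y : M, r • y = 0) ?_ ?_ ?_ ?_ hr
    · intro s hs y
      exact h.kil s hs y
    · intro y
      exact zero_smul A y
    · intro a c _ _ ha hc y
      rw [add_smul, ha, hc, add_zero]
    · intro a c _ hc y
      rw [smul_eq_mul, mul_smul, hc, smul_zero]
  have h2 : ι p • x.val = 0 := by
    rw [hb, add_smul, mul_smul, h.tor, h1, add_zero]
  exact h2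

end nice

variable (χ : AFS P S₀ V) (hA : IsNoetherianRing A) (hι : ∀ a : A, ∃ (p : P) (b : A), a = ι p + t * b)
  (hS : ∀ p ∈ S₀, ∃ r ∈ Ideal.span S, ∃ b : A, ι p = r + t * b)

include hι hS

private theorem addN {X Y Z : Type} [AddCommGroup X] [Module A X] [AddCommGroup Y] [Module A Y] [AddCommGroup Z]
    [Module A Z] (i : X →ₗ[A] Y) (p : Y →ₗ[A] Z) (hY : Nice t S Y) (hi : Function.Injective i)
    (hp : Function.Surjective p) (he : Function.Exact i p) :
    χ.f (Res ι Y) = χ.f (Res ι X) + χ.f (Res ι Z) :=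
  χ.add _ _ _ (Res.map ι i) (Res.map ι p) (hY.finP hι) (hY.kilP hS) hi hp he

/-- rank and nullity -/
private theorem rk {M N : Type} [AddCommGroup M] [Module A M] [AddCommGroup N] [Module A N] (g : M →ₗ[A] N)
    (hM : Nice t S M) :
    χ.f (Res ι M) = χ.f (Res ι (LinearMap.ker g)) + χ.f (Res ι (LinearMap.range g)) :=
  addN χ hι hS (LinearMap.ker g).subtype g.rangeRestrict hM (Submodule.injective_subtype _)
    g.surjective_rangeRestrict (by
      intro x
      constructor
      · intro hx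
        exact ⟨⟨x, by simpa using congrArg Subtype.val hx⟩, rfl⟩
      · rintro ⟨y, rfl⟩
        exact Subtype.ext y.2)

private theorem isoN {M N : Type} [AddCommGroup M] [Module A M] [AddCommGroup N] [Module A N] (e : M ≃ₗ[A] N)
    (hM : Nice t S M) : χ.f (Res ι M) = χ.f (Res ι N) :=
  χ.iso (Res.equiv ι e) (hM.finP hι) (hM.kilP hS)

/-- exact sequences with six terms -/
private theorem six {X₁ X₂ X₃ X₄ X₅ X₆ : Type} [AddCommGroup X₁] [Module A X₁] [AddCommGroup X₂] [Module A X₂]
    [AddCommGroup X₃] [Module A X₃] [AddCommGroup X₄] [Module A X₄] [AddCommGroup X₅] [Module A X₅]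
    [AddCommGroup X₆] [Module A X₆] (g₁ : X₁ →ₗ[A] X₂) (g₂ : X₂ →ₗ[A] X₃) (g₃ : X₃ →ₗ[A] X₄) (g₄ : X₄ →ₗ[A] X₅)
    (g₅ : X₅ →ₗ[A] X₆) (h₁ : Nice t S X₁) (h₂ : Nice t S X₂) (h₃ : Nice t S X₃) (h₄ : Nice t S X₄)
    (h₅ : Nice t S X₅) (hi : Function.Injective g₁) (e₂ : Function.Exact g₁ g₂) (e₃ : Function.Exact g₂ g₃)
    (e₄ : Function.Exact g₃ g₄) (e₅ : Function.Exact g₄ g₅) (hs : Function.Surjective g₅) :
    χ.f (Res ι X₅) - χ.f (Res ι X₂) =
      (χ.f (Res ι X₄) - χ.f (Res ι X₁)) + (χ.f (Res ι X₆) - χ.f (Res ι X₃)) := by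
  have k₂ := rk χ hι hS g₂ h₂
  have k₃ := rk χ hι hS g₃ h₃
  have k₄ := rk χ hι hS g₄ h₄
  have k₅ := rk χ hι hS g₅ h₅
  rw [e₂.linearMap_ker_eq, ← isoN χ hι hS (LinearEquiv.ofInjective g₁ hi) h₁] at k₂
  rw [e₃.linearMap_ker_eq] at k₃
  rw [e₄.linearMap_ker_eq] at k₄
  rw [e₅.linearMap_ker_eq, isoN χ hι hS (LinearEquiv.ofTop _ (LinearMap.range_eq_top.2 hs))
    (h₅.surj g₅.rangeRestrict g₅.surjective_rangeRestrict)] at k₅
  rw [k₂, k₃, k₄, k₅]
  abel

omit hι hS

private theorem mem_iff {N : Type} [AddCommGroup N] [Module A N] {x : N} :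
    x ∈ (Ideal.span {t} • (⊤ : Submodule A N)) ↔ ∃ y : N, t • y = x := by
  rw [Submodule.ideal_span_singleton_smul, Submodule.mem_smul_pointwise_iff_exists]
  constructor
  · rintro ⟨y, -, hy⟩
    exact ⟨y, hy⟩
  · rintro ⟨y, hy⟩
    exact ⟨y, trivial, hy⟩

/-- the map of the kernels -/
private def km (t : A) {M N : Type} [AddCommGroup M] [Module A M] [AddCommGroup N] [Module A N] (g : M →ₗ[A] N) :
    Kr t M →ₗ[A] Kr t N :=
  g.restrict (fun x hx => by
    rw [LinearMap.mem_ker, LinearMap.lsmul_apply] at hx ⊢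
    rw [← map_smul, hx, map_zero])

/-- the map of the quotients -/
private def qm (t : A) {M N : Type} [AddCommGroup M] [Module A M] [AddCommGroup N] [Module A N] (g : M →ₗ[A] N) :
    Qt t M →ₗ[A] Qt t N :=
  Submodule.mapQ _ _ g (fun x hx => by
    rw [Submodule.mem_comap, mem_iff]
    obtain ⟨y, rfl⟩ := mem_iff.1 hx
    exact ⟨g y, (map_smul g t y).symm⟩)

private theorem niceK (hA : IsNoetherianRing A) {M : Type} [AddCommGroup M] [Module A M] (hM : Module.Finite A M)
    (hk : KS S M) : Nice t S (Kr t M) := by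
  have hN : IsNoetherian A M := isNoetherian_of_isNoetherianRing_of_finite A M
  refine ⟨Module.Finite.of_injective (LinearMap.ker (LinearMap.lsmul A M t)).subtype
    (Submodule.injective_subtype _), fun s hs m => Subtype.ext ?_, fun m => Subtype.ext ?_⟩
  · exact hk s hs m.1
  · exact m.2

private theorem niceQ {M : Type} [AddCommGroup M] [Module A M] (hM : Module.Finite A M)
    (hk : KS S M) : Nice t S (Qt t M) := by
  refine ⟨inferInstance, fun s hs m => ?_, fun m => ?_⟩
  · obtain ⟨x, rfl⟩ := Submodule.Quotient.mk_surjective _ m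
    rw [← Submodule.Quotient.mk_smul, hk s hs, Submodule.Quotient.mk_zero]
  · obtain ⟨x, rfl⟩ := Submodule.Quotient.mk_surjective _ m
    rw [← Submodule.Quotient.mk_smul, Submodule.Quotient.mk_eq_zero]
    exact mem_iff.2 ⟨x, rfl⟩

private theorem exK {M : Type} [AddCommGroup M] [Module A M] :
    Function.Exact (LinearMap.ker (LinearMap.lsmul A M t)).subtype (LinearMap.lsmul A M t) := by
  intro x
  constructor
  · intro hx
    exact ⟨⟨x, hx⟩, rfl⟩
  · rintro ⟨y, rfl⟩
    exact y.2

private theorem exQ {M : Type} [AddCommGroup M] [Module A M] :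
    Function.Exact (LinearMap.lsmul A M t) (Ideal.span {t} • (⊤ : Submodule A M)).mkQ := by
  intro x
  rw [Submodule.mkQ_apply, Submodule.Quotient.mk_eq_zero, mem_iff]
  exact Iff.rfl

include hA hι hS in
private theorem main {X Y Z : Type} [AddCommGroup X] [Module A X] [AddCommGroup Y] [Module A Y] [AddCommGroup Z]
    [Module A Z] (i : X →ₗ[A] Y) (p : Y →ₗ[A] Z) (hY : Module.Finite A Y) (hk : KS S Y)
    (hi : Function.Injective i) (hp : Function.Surjective p) (he : Function.Exact i p) :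
    χ.f (Res ι (Qt t Y)) - χ.f (Res ι (Kr t Y)) =
      (χ.f (Res ι (Qt t X)) - χ.f (Res ι (Kr t X))) + (χ.f (Res ι (Qt t Z)) - χ.f (Res ι (Kr t Z))) := by
  have hN : IsNoetherian A Y := isNoetherian_of_isNoetherianRing_of_finite A Y
  have hX : Module.Finite A X := Module.Finite.of_injective i hi
  have hZ : Module.Finite A Z := Module.Finite.of_surjective p hp
  have kX : KS S X := fun s hs m => hi (by rw [map_smul, map_zero, hk s hs])
  have kZ : KS S Z := fun s hs m => by
    obtain ⟨y, rfl⟩ := hp m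
    rw [← map_smul, hk s hs, map_zero]
  have c₁ : i.comp (LinearMap.lsmul A X t) = (LinearMap.lsmul A Y t).comp i := by
    ext x
    exact map_smul i t x
  have c₂ : p.comp (LinearMap.lsmul A Y t) = (LinearMap.lsmul A Z t).comp p := by
    ext x
    exact map_smul p t x
  have hmk : Function.Surjective (Ideal.span {t} • (⊤ : Submodule A X)).mkQ := Submodule.mkQ_surjective _
  let δ : Kr t Z →ₗ[A] Qt t X := SnakeLemma.δ' (LinearMap.lsmul A X t) (LinearMap.lsmul A Y t)
    (LinearMap.lsmul A Z t) i p he i p he c₁ c₂ (LinearMap.ker (LinearMap.lsmul A Z t)).subtype exK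
    (Ideal.span {t} • (⊤ : Submodule A X)).mkQ exQ hp hi
  have e₃ : Function.Exact (km t p) δ :=
    SnakeLemma.exact_δ'_right (LinearMap.lsmul A X t) (LinearMap.lsmul A Y t)
      (LinearMap.lsmul A Z t) i p he i p he c₁ c₂ (LinearMap.ker (LinearMap.lsmul A Y t)).subtype exK
      (LinearMap.ker (LinearMap.lsmul A Z t)).subtype exK
      (Ideal.span {t} • (⊤ : Submodule A X)).mkQ exQ hp hi (km t p) (by ext x; rfl)
      (Submodule.injective_subtype _)
  have e₄ : Function.Exact δ (qm t i) :=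
    SnakeLemma.exact_δ'_left (LinearMap.lsmul A X t) (LinearMap.lsmul A Y t)
      (LinearMap.lsmul A Z t) i p he i p he c₁ c₂
      (LinearMap.ker (LinearMap.lsmul A Z t)).subtype exK
      (Ideal.span {t} • (⊤ : Submodule A X)).mkQ exQ
      (Ideal.span {t} • (⊤ : Submodule A Y)).mkQ exQ hp hi (qm t i) (by ext x; rfl) hmk
  refine six χ hι hS (km t i) (km t p) δ (qm t i) (qm t p) (niceK hA hX kX) (niceK hA hY hk) (niceK hA hZ kZ)
    (niceQ hX kX) (niceQ hY hk) ?_ ?_ e₃ e₄ ?_ ?_
  · intro x y hxy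
    apply Subtype.ext
    apply hi
    exact congrArg Subtype.val hxy
  · intro y
    constructor
    · intro h
      obtain ⟨x, hx⟩ := (he y.1).1 (congrArg Subtype.val h)
      refine ⟨⟨x, ?_⟩, Subtype.ext hx⟩
      rw [LinearMap.mem_ker, LinearMap.lsmul_apply]
      apply hi
      rw [map_smul, map_zero, hx]
      exact y.2
    · rintro ⟨x, rfl⟩
      apply Subtype.ext
      exact (he _).2 ⟨x.1, rfl⟩
  · intro y
    obtain ⟨y, rfl⟩ := Submodule.Quotient.mk_surjective _ y
    constructor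
    · intro h
      have h1 : p y ∈ (Ideal.span {t} • (⊤ : Submodule A Z)) := (Submodule.Quotient.mk_eq_zero _).1 h
      obtain ⟨z, hz⟩ := mem_iff.1 h1
      obtain ⟨w, rfl⟩ := hp z
      have h2 : p (y - t • w) = 0 := by rw [map_sub, map_smul, hz, sub_self]
      obtain ⟨x, hx⟩ := (he _).1 h2
      refine ⟨Submodule.Quotient.mk x, ?_⟩
      show Submodule.Quotient.mk (i x) = Submodule.Quotient.mk y
      rw [hx, Submodule.Quotient.eq]
      refine mem_iff.2 ⟨-w, ?_⟩
      rw [smul_neg]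
      abel
    · rintro ⟨x, hx⟩
      obtain ⟨x, rfl⟩ := Submodule.Quotient.mk_surjective _ x
      rw [← hx]
      show Submodule.Quotient.mk (p (i x)) = _
      rw [(he _).2 ⟨x, rfl⟩]
      rfl
  · intro z
    obtain ⟨z, rfl⟩ := Submodule.Quotient.mk_surjective _ z
    obtain ⟨y, rfl⟩ := hp z
    exact ⟨Submodule.Quotient.mk y, rfl⟩

end KZ_aux

open KZ_aux in
theorem tKZ : S_KZ := by
  intro P A _ _ ι t S₀ S V _ χ hA hι hS
  refine ⟨⟨fun M _ _ => χ.f (Res ι (Qt t M)) - χ.f (Res ι (Kr t M)), ?_⟩, fun M _ _ => rfl⟩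
  intro X Y Z _ _ _ _ _ _ i p hY hk hi hp he
  exact main χ hA hι hS i p hY hk hi hp he

end Pool.Agent.QV
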