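import Pool.Agent.Lib.MP_b53bfe_ag.Q.SpecL

/-! Module LDv: comaximality of the ideals of two different lines. -/

set_option autoImplicit false

noncomputable section

namespace Pool.Agent.QV

open Matrix
open MvPolynomial
open Pool.Agent.FY (Res)

namespace LDv_aux

variable {K : Type} [Field K]

/-- the intersection of two different planes through the origin is in a line -/
theorem exists_w (V V' : Submodule K (Fin 5 → K)) (h : Module.finrank K V = 2)
    (h' : Module.finrank K V' = 2) (hne : V ≠ V') :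
    ∃ w : Fin 5 → K, ∀ v ∈ V ⊓ V', ∃ c : K, v = c • w := by
  have hlt : V ⊓ V' < V := by
    refine lt_of_le_of_ne inf_le_left ?_
    intro he
    have hle : V ≤ V' := by rw [← he]; exact inf_le_right
    exact hne (Submodule.eq_of_le_of_finrank_eq hle (by rw [h, h']))
  have h1 := Submodule.finrank_lt_finrank_of_lt hlt
  rw [h] at h1
  have h2 : Module.finrank K (V ⊓ V' : Submodule K (Fin 5 → K)) ≤ 1 := by omega
  obtain ⟨w, hw⟩ := finrank_le_one_iff.1 h2
  refine ⟨w, fun v hv => ?_⟩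
  obtain ⟨c, hc⟩ := hw ⟨v, hv⟩
  refine ⟨c, ?_⟩
  have := congrArg Subtype.val hc
  exact this.symm

theorem split (V V' : Submodule K (Fin 5 → K)) (φ : Fin 5 → K)
    (hφ : ∀ v ∈ V ⊓ V', ∑ j, φ j * v j = 0) : ∃ φ₁ ∈ Ann V, ∃ φ₂ ∈ Ann V', φ = φ₁ + φ₂ := by
  have h1 : dotProductEquiv K (Fin 5) φ ∈ (V ⊓ V').dualAnnihilator := by
    rw [Submodule.mem_dualAnnihilator]
    intro v hv
    exact hφ v hv
  rw [Subspace.dualAnnihilator_inf_eq, Submodule.mem_sup] at h1
  obtain ⟨y, hy, z, hz, hyz⟩ := h1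
  rw [Submodule.mem_dualAnnihilator] at hy hz
  refine ⟨(dotProductEquiv K (Fin 5)).symm y, ?_, (dotProductEquiv K (Fin 5)).symm z, ?_, ?_⟩
  · intro v hv
    have h2 : dotProductEquiv K (Fin 5) ((dotProductEquiv K (Fin 5)).symm y) v = 0 := by
      rw [LinearEquiv.apply_symm_apply]; exact hy v hv
    exact h2
  · intro v hv
    have h2 : dotProductEquiv K (Fin 5) ((dotProductEquiv K (Fin 5)).symm z) v = 0 := by
      rw [LinearEquiv.apply_symm_apply]; exact hz v hv
    exact h2
  · rw [← map_add, hyz, LinearEquiv.symm_apply_apply]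

theorem mem_x (V V' : Submodule K (Fin 5 → K)) (φ : Fin 5 → K)
    (hφ : ∀ v ∈ V ⊓ V', ∑ j, φ j * v j = 0) : ∑ j, C (φ j) * xC K j ∈ IC V ⊔ IC V' := by
  obtain ⟨φ₁, h1, φ₂, h2, rfl⟩ := split V V' φ hφ
  have e1 : ∑ j, C ((φ₁ + φ₂) j) * xC K j = ∑ j, C (φ₁ j) * xC K j + ∑ j, C (φ₂ j) * xC K j := by
    rw [← Finset.sum_add_distrib]
    refine Finset.sum_congr rfl fun j _ => ?_
    rw [Pi.add_apply, map_add, add_mul]
  rw [e1]
  exact Submodule.add_mem_sup (Ideal.subset_span (Or.inl ⟨φ₁, h1, rfl⟩))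
    (Ideal.subset_span (Or.inl ⟨φ₂, h2, rfl⟩))

theorem mem_u (V V' : Submodule K (Fin 5 → K)) (φ : Fin 5 → K)
    (hφ : ∀ v ∈ V ⊓ V', ∑ j, φ j * v j = 0) : ∑ j, C (φ j) * uC K j ∈ IC V ⊔ IC V' := by
  obtain ⟨φ₁, h1, φ₂, h2, rfl⟩ := split V V' φ hφ
  have e1 : ∑ j, C ((φ₁ + φ₂) j) * uC K j = ∑ j, C (φ₁ j) * uC K j + ∑ j, C (φ₂ j) * uC K j := by
    rw [← Finset.sum_add_distrib]
    refine Finset.sum_congr rfl fun j _ => ?_
    rw [Pi.add_apply, map_add, add_mul]
  rw [e1]
  exact Submodule.add_mem_sup (Ideal.subset_span (Or.inr ⟨φ₁, h1, rfl⟩))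
    (Ideal.subset_span (Or.inr ⟨φ₂, h2, rfl⟩))

theorem uC_three : uC K 3 = 0 := by
  unfold uC
  rw [Fin.insertNth_apply_same]

theorem uC_sc (i : Fin 4) : uC K (sc i) = X (Sum.inr i) := by
  unfold uC
  rw [Fin.insertNth_apply_succAbove]

theorem main : S_LDv := by
  intro K _ V V' h h' hne i
  obtain ⟨w, hw⟩ := exists_w V V' h h' hne
  by_cases h3 : w 3 = 0
  · have h1 : ∑ j, C ((Pi.single 3 1 : Fin 5 → K) j) * xC K j ∈ IC V ⊔ IC V' := by
      apply mem_x
      intro v hv
      obtain ⟨c, rfl⟩ := hw v hv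
      rw [Finset.sum_eq_single 3]
      · simp [h3]
      · intro b _ hb
        rw [Pi.single_eq_of_ne hb, zero_mul]
      · intro hb
        exact absurd (Finset.mem_univ _) hb
    rw [Finset.sum_eq_single 3] at h1
    · rw [Pi.single_eq_same, C_1, one_mul] at h1
      exact Ideal.mul_mem_right _ _ h1
    · intro b _ hb
      rw [Pi.single_eq_of_ne hb, C_0, zero_mul]
    · intro hb
      exact absurd (Finset.mem_univ _) hb
  · have hsc : sc i ≠ 3 := Fin.succAbove_ne 3 i
    set φ : Fin 5 → K := Pi.single (sc i) (w 3) - Pi.single 3 (w (sc i)) with hφ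
    have hsum : ∀ (R : Type) [CommRing R] (g : K →+* R) (y : Fin 5 → R),
        ∑ j, g (φ j) * y j = g (w 3) * y (sc i) - g (w (sc i)) * y 3 := by
      intro R _ g y
      have e1 : ∑ j, g (φ j) * y j = ∑ j, g ((Pi.single (sc i) (w 3) : Fin 5 → K) j) * y j -
          ∑ j, g ((Pi.single 3 (w (sc i)) : Fin 5 → K) j) * y j := by
        rw [← Finset.sum_sub_distrib]
        refine Finset.sum_congr rfl fun j _ => ?_
        rw [hφ, Pi.sub_apply, map_sub, sub_mul]
      rw [e1]
      congr 1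
      · rw [Finset.sum_eq_single (sc i)]
        · rw [Pi.single_eq_same]
        · intro b _ hb
          rw [Pi.single_eq_of_ne hb, map_zero, zero_mul]
        · intro hb
          exact absurd (Finset.mem_univ _) hb
      · rw [Finset.sum_eq_single 3]
        · rw [Pi.single_eq_same]
        · intro b _ hb
          rw [Pi.single_eq_of_ne hb, map_zero, zero_mul]
        · intro hb
          exact absurd (Finset.mem_univ _) hb
    have h1 : ∑ j, C (φ j) * uC K j ∈ IC V ⊔ IC V' := by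
      apply mem_u
      intro v hv
      obtain ⟨c, rfl⟩ := hw v hv
      have := hsum K (RingHom.id K) (c • w)
      simp only [RingHom.id_apply] at this
      rw [this]
      simp only [Pi.smul_apply, smul_eq_mul]
      ring
    rw [hsum (CC K) C (uC K), uC_three, mul_zero, sub_zero, uC_sc] at h1
    have h2 : (X (Sum.inr i) : CC K) ∈ IC V ⊔ IC V' := by
      have e2 : (X (Sum.inr i) : CC K) = C (w 3)⁻¹ * (C (w 3) * X (Sum.inr i)) := by
        rw [← mul_assoc, ← C_mul, inv_mul_cancel₀ h3, C_1, one_mul]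
      rw [e2]
      exact Ideal.mul_mem_left _ _ h1
    exact Ideal.mul_mem_left _ _ h2

end LDv_aux

theorem tLDv : S_LDv := LDv_aux.main

end Pool.Agent.QV
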