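import Pool.Agent.Lib.MP_b53bfe_ag.Q.SpecL

/-!
# `S_LNs`: the Nullstellensatz for the scheme of the lines
-/

set_option autoImplicit false

noncomputable section

namespace Pool.Agent.QV

open Matrix
open MvPolynomial
open Pool.Agent.FY (Res)

namespace LNs_aux

variable {K : Type} [Field K]

/-- homogeneity for the values -/
theorem eval_smul5 (f : MvPolynomial (Fin 5) K) (hf : f.IsHomogeneous 5) (c : K) (v : Fin 5 → K) :
    eval (fun j => c * v j) f = c ^ 5 * eval v f := by
  rw [eval_eq, eval_eq, Finset.mul_sum]
  refine Finset.sum_congr rfl fun d hd => ?_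
  have h1 : d.degree = 5 := by
    rw [Finsupp.degree_eq_weight_one]
    exact hf (mem_support_iff.1 hd)
  have h2 : ∏ i ∈ d.support, (c * v i) ^ d i = c ^ 5 * ∏ i ∈ d.support, v i ^ d i := by
    simp_rw [mul_pow]
    rw [Finset.prod_mul_distrib, Finset.prod_pow_eq_pow_sum]
    have h3 : ∑ i ∈ d.support, d i = 5 := h1
    rw [h3]
  rw [h2]
  ring

/-- the values of the direction -/
theorem eval_uC (z : VC → K) (j : Fin 5) :
    eval z (uC K j) = (Fin.insertNth (3 : Fin 5) (0 : K) (fun i : Fin 4 => z (Sum.inr i)) : Fin 5 → K) j := by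
  rcases Fin.eq_self_or_eq_succAbove 3 j with rfl | ⟨i, rfl⟩
  · simp [uC]
  · simp only [uC, Fin.insertNth_apply_succAbove, eval_X]

/-- the polynomial `f (x + T w)` -/
theorem map_line (f : MvPolynomial (Fin 5) K) (z : VC → K) (x w : Fin 5 → K) (hx : ∀ j, eval z (xC K j) = x j)
    (hw : ∀ j, eval z (uC K j) = w j) (t : K) :
    Polynomial.eval t (Polynomial.map (eval z)
      (aeval (fun j => Polynomial.C (xC K j) + Polynomial.X * Polynomial.C (uC K j)) f : Polynomial (CC K))) =
      eval (fun j => x j + t * w j) f := by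
  induction f using MvPolynomial.induction_on with
  | C a =>
    rw [eval_C]
    have h1 : (aeval (fun j => Polynomial.C (xC K j) + Polynomial.X * Polynomial.C (uC K j)) (C a : MvPolynomial (Fin 5) K) :
        Polynomial (CC K)) = Polynomial.C (C a) := by
      rw [← algebraMap_eq, AlgHom.commutes]
      rfl
    rw [h1, Polynomial.map_C, Polynomial.eval_C, eval_C]
  | add p q hp hq => rw [map_add, Polynomial.map_add, Polynomial.eval_add, hp, hq, map_add]
  | mul_X p j hp =>
    rw [map_mul, Polynomial.map_mul, Polynomial.eval_mul, hp, map_mul, eval_X, aeval_X, Polynomial.map_add,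
      Polynomial.map_mul, Polynomial.map_C, Polynomial.map_C, Polynomial.map_X, Polynomial.eval_add, Polynomial.eval_mul,
      Polynomial.eval_C, Polynomial.eval_C, Polynomial.eval_X, hx, hw]

/-- the value of `f (x + T w)` at `s` -/
theorem eval_lin (f : MvPolynomial (Fin 5) K) (x w : Fin 5 → K) (s : K) :
    Polynomial.eval s (aeval (fun j => Polynomial.C (x j) + Polynomial.X * Polynomial.C (w j)) f : Polynomial K) =
      eval (fun j => x j + s * w j) f := by
  induction f using MvPolynomial.induction_on with
  | C a => rw [eval_C, ← algebraMap_eq, AlgHom.commutes, ← Polynomial.C_eq_algebraMap, Polynomial.eval_C]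
  | add p q hp hq => rw [map_add, Polynomial.eval_add, hp, hq, map_add]
  | mul_X p j hp =>
    rw [map_mul, Polynomial.eval_mul, hp, map_mul, eval_X, aeval_X, Polynomial.eval_add, Polynomial.eval_mul,
      Polynomial.eval_C, Polynomial.eval_C, Polynomial.eval_X]

/-- a form which is zero on `x + t w` for all `t` is zero on the plane of `x`, `w` -/
theorem plane_zero [Infinite K] (f : MvPolynomial (Fin 5) K) (hf : f.IsHomogeneous 5) (x w : Fin 5 → K)
    (h : ∀ t : K, eval (fun j => x j + t * w j) f = 0) (a b : K) : eval (fun j => a * x j + b * w j) f = 0 := by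
  have key : ∀ a b : K, a ≠ 0 → eval (fun j => a * x j + b * w j) f = 0 := by
    intro a b ha
    have h1 : (fun j => a * x j + b * w j) = fun j => a * (x j + b / a * w j) := by
      funext j
      field_simp
    rw [h1, eval_smul5 f hf a (fun j => x j + b / a * w j), h, mul_zero]
  obtain ⟨g, hg⟩ : ∃ g : Polynomial K, ∀ s : K, Polynomial.eval s g = eval (fun j => (a + s) * x j + b * w j) f := by
    refine ⟨(aeval (fun j => Polynomial.C (a * x j + b * w j) + Polynomial.X * Polynomial.C (x j)) f : Polynomial K), fun s => ?_⟩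
    rw [eval_lin f (fun j => a * x j + b * w j) x s]
    have h1 : (fun j => a * x j + b * w j + s * x j) = fun j => (a + s) * x j + b * w j := by
      funext j
      ring
    rw [h1]
  have h2 : (Polynomial.C a + Polynomial.X) * g = 0 := by
    refine Polynomial.funext fun s => ?_
    rw [Polynomial.eval_mul, Polynomial.eval_add, Polynomial.eval_C, Polynomial.eval_X, hg, Polynomial.eval_zero]
    by_cases hs : a + s = 0
    · rw [hs, zero_mul]
    · rw [key _ _ hs, mul_zero]
  have h3 : g = 0 := by
    rcases mul_eq_zero.1 h2 with h4 | h4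
    · exfalso
      have h5 := congrArg (fun p => Polynomial.coeff p 1) h4
      simp at h5
    · exact h4
  have h6 := hg 0
  rw [h3, Polynomial.eval_zero, add_zero] at h6
  exact h6.symm

end LNs_aux

open LNs_aux

theorem tLNs : S_SgL → S_FtL → S_BaL → S_DvL → S_Hfv → S_LNs := by
  intro hSg _hFt _hBa _hDv hHf K _ _ f hf hTL i y hy
  have hInf : Infinite K := IsAlgClosed.instInfinite
  obtain ⟨q, hq⟩ : ∃ q : Ideal (CC K), ∀ a, a ∈ q ↔ a * y ∈ JC f (Finset.range 6) :=
    ⟨Submodule.comap (LinearMap.mulRight (CC K) y) (JC f (Finset.range 6)), fun a => Iff.rfl⟩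
  have hz : xC K 3 * X (Sum.inr i) ∈ vanishingIdeal K (zeroLocus K q) := by
    rw [mem_vanishingIdeal_iff]
    intro z hzq
    rw [mem_zeroLocus_iff] at hzq
    by_contra hne
    obtain ⟨x, hx⟩ : ∃ x : Fin 5 → K, x = fun j => z (Sum.inl j) := ⟨_, rfl⟩
    obtain ⟨w, hw⟩ : ∃ w : Fin 5 → K, w = (Fin.insertNth (3 : Fin 5) (0 : K) (fun i : Fin 4 => z (Sum.inr i)) : Fin 5 → K) :=
      ⟨_, rfl⟩
    have hzz : ptC x w = z := by
      funext v
      rcases v with j | j
      · simp [ptC, hx]
      · simp [ptC, hw, sc]
    have hex : ∀ j, eval z (xC K j) = x j := fun j => by rw [xC, eval_X, hx]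
    have hew : ∀ j, eval z (uC K j) = w j := fun j => by rw [eval_uC, hw]
    have hev : aeval z (xC K 3 * X (Sum.inr i)) = x 3 * w (sc i) := by
      rw [map_mul, xC, aeval_X, aeval_X, hx, hw, sc, Fin.insertNth_apply_succAbove]
    rw [hev] at hne
    have hx3 : x 3 ≠ 0 := left_ne_zero_of_mul hne
    have hwi : w (sc i) ≠ 0 := right_ne_zero_of_mul hne
    have hw3 : w 3 = 0 := by rw [hw, Fin.insertNth_apply_same]
    have hFz : ∀ j : ℕ, eval z (Fw f j) = 0 := by
      intro j
      by_cases hj : j < 6
      · have h1 : Fw f j ∈ q := by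
          rw [hq]
          exact Ideal.mul_mem_right _ _ (Ideal.subset_span ⟨j, Finset.mem_range.2 hj, rfl⟩)
        exact hzq _ h1
      · rw [(hHf K f hf).1 j (by omega), map_zero]
    have hline : ∀ t : K, eval (fun j => x j + t * w j) f = 0 := by
      intro t
      rw [← map_line f z x w hex hew t]
      have h2 : Polynomial.map (eval z)
        (aeval (fun j => Polynomial.C (xC K j) + Polynomial.X * Polynomial.C (uC K j)) f : Polynomial (CC K)) = 0 := by
        refine Polynomial.ext fun n => ?_
        rw [Polynomial.coeff_map, Polynomial.coeff_zero]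
        exact hFz n
      rw [h2, Polynomial.eval_zero]
    have hV : Submodule.span K {x, w} ∈ Lines f := by
      refine ⟨?_, ?_⟩
      · have hli : LinearIndependent K ![x, w] := by
          rw [LinearIndependent.pair_iff]
          intro s t hst
          have h3 := congrFun hst 3
          have h4 := congrFun hst (sc i)
          simp only [Pi.add_apply, Pi.smul_apply, smul_eq_mul, Pi.zero_apply, hw3, mul_zero, add_zero] at h3
          have hs : s = 0 := (mul_eq_zero.1 h3).resolve_right hx3
          simp only [Pi.add_apply, Pi.smul_apply, smul_eq_mul, Pi.zero_apply, hs, zero_mul, zero_add] at h4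
          exact ⟨hs, (mul_eq_zero.1 h4).resolve_right hwi⟩
        have h5 := finrank_span_eq_card hli
        have h6 : Set.range ![x, w] = {x, w} := by simp [Matrix.range_cons, Set.pair_comm]
        rw [h6] at h5
        simpa using h5
      · intro v hv
        obtain ⟨a, b, rfl⟩ := Submodule.mem_span_pair.1 hv
        exact plane_zero f hf x w hline a b
    obtain ⟨σ, hσ, hσy⟩ := hSg K f hf hTL _ hV x w (Submodule.subset_span (by simp)) (Submodule.subset_span (by simp)) hx3 hw3
      (fun h => hwi (by rw [h]; rfl))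
    apply hσ
    rw [hzz]
    exact hzq σ ((hq σ).2 (hσy y (hy _ hV)))
  rw [vanishingIdeal_zeroLocus_eq_radical] at hz
  obtain ⟨n, hn⟩ := hz
  exact ⟨n, (hq _).1 hn⟩

end Pool.Agent.QV
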