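import Pool.Agent.Lib.MP_b53bfe_ag.Q.SpecL

/-!
# MP_b53bfe_ag, phase 3: module LOn (helper45)

The module of one line.
-/

set_option autoImplicit false

noncomputable section

namespace Pool.Agent.QV

open Matrix MvPolynomial
open Pool.Agent.FY (Res)

namespace LOn_aux

/-! ## Elements which come from `P` up to `θ` -/

section T0

variable {P B : Type} [CommRing P] [CommRing B] (h : P →+* B) (θ : P) (I : Ideal B)

/-- the elements which are in the image of `h` modulo `I` after multiplication by a power of `θ` -/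
def T0 (y : B) : Prop := ∃ (k : ℕ) (p : P), h θ ^ k * y - h p ∈ I

variable {h θ I}

theorem T0.img (p : P) : T0 h θ I (h p) := ⟨0, p, by simp⟩

theorem T0.mul {y z : B} (hy : T0 h θ I y) (hz : T0 h θ I z) : T0 h θ I (y * z) := by
  obtain ⟨k, p, hp⟩ := hy
  obtain ⟨l, q, hq⟩ := hz
  refine ⟨k + l, p * q, ?_⟩
  have e : h θ ^ (k + l) * (y * z) - h (p * q) =
      (h θ ^ l * z) * (h θ ^ k * y - h p) + h p * (h θ ^ l * z - h q) := by
    rw [map_mul]; ring
  rw [e]
  exact I.add_mem (I.mul_mem_left _ hp) (I.mul_mem_left _ hq)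

theorem T0.add {y z : B} (hy : T0 h θ I y) (hz : T0 h θ I z) : T0 h θ I (y + z) := by
  obtain ⟨k, p, hp⟩ := hy
  obtain ⟨l, q, hq⟩ := hz
  refine ⟨k + l, θ ^ l * p + θ ^ k * q, ?_⟩
  have e : h θ ^ (k + l) * (y + z) - h (θ ^ l * p + θ ^ k * q) =
      h θ ^ l * (h θ ^ k * y - h p) + h θ ^ k * (h θ ^ l * z - h q) := by
    rw [map_add, map_mul, map_mul, map_pow, map_pow]; ring
  rw [e]
  exact I.add_mem (I.mul_mem_left _ hp) (I.mul_mem_left _ hq)

theorem T0.neg {y : B} (hy : T0 h θ I y) : T0 h θ I (-y) := by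
  obtain ⟨k, p, hp⟩ := hy
  refine ⟨k, -p, ?_⟩
  have e : h θ ^ k * (-y) - h (-p) = -(h θ ^ k * y - h p) := by
    rw [map_neg]; ring
  rw [e]
  exact I.neg_mem hp

theorem T0.sub {y z : B} (hy : T0 h θ I y) (hz : T0 h θ I z) : T0 h θ I (y - z) := by
  rw [sub_eq_add_neg]
  exact hy.add hz.neg

theorem T0.one : T0 h θ I 1 := by
  have := T0.img (h := h) (θ := θ) (I := I) 1
  rwa [map_one] at this

theorem T0.div {y : B} (hy : ∃ p, h θ * y = h p) : T0 h θ I y := by
  obtain ⟨p, hp⟩ := hy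
  exact ⟨1, p, by rw [pow_one, hp, sub_self]; exact I.zero_mem⟩

end T0

section

variable {K : Type} [Field K]

theorem uC_three : uC K 3 = 0 := by
  simp [uC]

theorem uC_sc (i : Fin 4) : uC K (sc i) = X (Sum.inr i) := by
  simp [uC, sc]

theorem hV_X0 (j : Fin 5) : hV K (X (0, j)) = iC (xC K j) := by simp [hV]

theorem hV_X1 (j : Fin 5) : hV K (X (1, j)) = aB K j := by simp [hV]

theorem hV_X2 (j : Fin 5) : hV K (X (2, j)) = bB K j := by simp [hV]

theorem aB_three : aB K 3 = sB K * iC (xC K 3) := by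
  rw [aB, uC_three, map_zero, mul_zero, add_zero]

theorem bB_three : bB K 3 = sB' K * (sB K * iC (xC K 3)) := by
  rw [bB, uC_three, map_zero, mul_zero, add_zero, aB_three]

theorem hV_th : hV K (thV K) = iC (xC K 3) * (sB K * iC (xC K 3)) * (sB' K * (sB K * iC (xC K 3))) := by
  rw [thV, map_mul, map_mul, hV_X0, hV_X1, hV_X2, aB_three, bB_three]

/-! ## Weight zero -/

variable (I : Ideal (BC K)) (i : Fin 4)

theorem T0_x (j : Fin 5) : T0 (hV K).toRingHom (thV K) I (X (Sum.inl (Sum.inl j))) := by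
  have := T0.img (h := (hV K).toRingHom) (θ := thV K) (I := I) (X (0, j))
  have e : (hV K).toRingHom (X (0, j)) = X (Sum.inl (Sum.inl j)) := by
    change hV K (X (0, j)) = _
    rw [hV_X0, iC, xC, rename_X]
  rwa [e] at this

theorem T0_s : T0 (hV K).toRingHom (thV K) I (sB K) := by
  refine T0.div ⟨X (1, 3) ^ 2 * X (2, 3), ?_⟩
  change hV K _ * _ = hV K _
  rw [hV_th, map_mul, map_pow, hV_X1, hV_X2, aB_three, bB_three]
  ring

theorem T0_s' : T0 (hV K).toRingHom (thV K) I (sB' K) := by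
  refine T0.div ⟨X (0, 3) * X (2, 3) ^ 2, ?_⟩
  change hV K _ * _ = hV K _
  rw [hV_th, map_mul, map_pow, hV_X0, hV_X2, bB_three]
  ring

theorem T0_t : T0 (hV K).toRingHom (thV K) I (X (Sum.inl (Sum.inr i)) * tB K) := by
  have h1 := T0.img (h := (hV K).toRingHom) (θ := thV K) (I := I) (X (1, sc i))
  have h2 := h1.sub ((T0_s I).mul (T0_x I (sc i)))
  have e : (hV K).toRingHom (X (1, sc i)) - sB K * X (Sum.inl (Sum.inl (sc i))) = X (Sum.inl (Sum.inr i)) * tB K := by
    change hV K (X (1, sc i)) - _ = _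
    rw [hV_X1, aB, uC_sc, iC, xC, rename_X, rename_X]
    ring
  rwa [e] at h2

theorem T0_t' : T0 (hV K).toRingHom (thV K) I (X (Sum.inl (Sum.inr i)) * tB' K) := by
  have h1 := T0.img (h := (hV K).toRingHom) (θ := thV K) (I := I) (X (2, sc i))
  have h2 := h1.sub ((T0_s' I).mul (T0.img (h := (hV K).toRingHom) (θ := thV K) (I := I) (X (1, sc i))))
  have e : (hV K).toRingHom (X (2, sc i)) - sB' K * (hV K).toRingHom (X (1, sc i)) = X (Sum.inl (Sum.inr i)) * tB' K := by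
    change hV K (X (2, sc i)) - _ * hV K (X (1, sc i)) = _
    rw [hV_X1, hV_X2, bB, uC_sc, iC, rename_X]
    ring
  rwa [e] at h2

/-- a monomial of weight `n` is `u_i ^ n` times an element of weight zero -/
def Sd (d : VB →₀ ℕ) : Prop :=
  ∃ (q : BC K) (a b : ℕ), T0 (hV K).toRingHom (thV K) I q ∧ (a : ℤ) - b = Finsupp.weight wB d ∧
    X (Sum.inl (Sum.inr i)) ^ b * monomial d 1 - X (Sum.inl (Sum.inr i)) ^ a * q ∈ I

variable {I i}

theorem Sd.add {d d' : VB →₀ ℕ} (h : Sd I i d) (h' : Sd I i d') : Sd I i (d + d') := by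
  obtain ⟨q, a, b, hq, hw, hm⟩ := h
  obtain ⟨q', a', b', hq', hw', hm'⟩ := h'
  refine ⟨q * q', a + a', b + b', hq.mul hq', ?_, ?_⟩
  · rw [map_add, ← hw, ← hw']
    push_cast
    ring
  · have e : (X (Sum.inl (Sum.inr i)) : BC K) ^ (b + b') * monomial (d + d') 1 -
        X (Sum.inl (Sum.inr i)) ^ (a + a') * (q * q') =
        (X (Sum.inl (Sum.inr i)) ^ b' * monomial d' 1) *
          (X (Sum.inl (Sum.inr i)) ^ b * monomial d 1 - X (Sum.inl (Sum.inr i)) ^ a * q) +
        (X (Sum.inl (Sum.inr i)) ^ a * q) *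
          (X (Sum.inl (Sum.inr i)) ^ b' * monomial d' 1 - X (Sum.inl (Sum.inr i)) ^ a' * q') := by
      have e2 : (monomial (d + d') 1 : BC K) = monomial d 1 * monomial d' 1 := by
        rw [monomial_mul, one_mul]
      rw [e2]
      ring
    rw [e]
    exact I.add_mem (I.mul_mem_left _ hm) (I.mul_mem_left _ hm')

theorem Sd.zero : Sd I i 0 := by
  refine ⟨1, 0, 0, T0.one, by simp, ?_⟩
  simp

theorem Sd.all (h : ∀ v, Sd I i (Finsupp.single v 1)) (d : VB →₀ ℕ) : Sd I i d := by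
  induction d using Finsupp.induction_linear with
  | zero => exact Sd.zero
  | add f g hf hg => exact hf.add hg
  | single v m =>
    induction m with
    | zero => rw [Finsupp.single_zero]; exact Sd.zero
    | succ m ih => rw [Finsupp.single_add]; exact ih.add (h v)

theorem weight_single (v : VB) : Finsupp.weight wB (Finsupp.single v 1) = wB v := by
  rw [Finsupp.weight_single]
  simp

theorem Sd.gen (hu : ∀ j : Fin 4, ∃ c : K, (X (Sum.inl (Sum.inr j)) : BC K) - C c * X (Sum.inl (Sum.inr i)) ∈ I) (v : VB) :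
    Sd I i (Finsupp.single v 1) := by
  rcases v with (j | j) | j
  · refine ⟨X (Sum.inl (Sum.inl j)), 0, 0, T0_x I j, ?_, ?_⟩
    · rw [weight_single]; simp [wB]
    · change _ ^ 0 * X (Sum.inl (Sum.inl j)) - _ ∈ I
      simp
  · obtain ⟨c, hc⟩ := hu j
    refine ⟨C c, 1, 0, ?_, ?_, ?_⟩
    · have := T0.img (h := (hV K).toRingHom) (θ := thV K) (I := I) (C c)
      have e : (hV K).toRingHom (C c) = C c := (hV K).commutes c
      rwa [e] at this
    · rw [weight_single]; simp [wB]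
    · change _ ^ 0 * X (Sum.inl (Sum.inr j)) - _ ∈ I
      rw [pow_zero, one_mul, pow_one, mul_comm (X (Sum.inl (Sum.inr i)))]
      exact hc
  · fin_cases j
    · refine ⟨sB K, 0, 0, T0_s I, ?_, ?_⟩
      · rw [weight_single]; simp [wB]
      · change _ ^ 0 * sB K - _ ∈ I
        simp
    · refine ⟨sB' K, 0, 0, T0_s' I, ?_, ?_⟩
      · rw [weight_single]; simp [wB]
      · change _ ^ 0 * sB' K - _ ∈ I
        simp
    · refine ⟨X (Sum.inl (Sum.inr i)) * tB K, 0, 1, T0_t I i, ?_, ?_⟩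
      · rw [weight_single]; simp [wB]
      · change _ ^ 1 * tB K - _ ∈ I
        simp
    · refine ⟨X (Sum.inl (Sum.inr i)) * tB' K, 0, 1, T0_t' I i, ?_, ?_⟩
      · rw [weight_single]; simp [wB]
      · change _ ^ 1 * tB' K - _ ∈ I
        simp

/-- an element of weight `n ≥ 0` is `u_i ^ n` times an element of weight zero -/
theorem exists_T0 (hI : I.IsPrime) (hui : (X (Sum.inl (Sum.inr i)) : BC K) ∉ I)
    (hu : ∀ j : Fin 4, ∃ c : K, (X (Sum.inl (Sum.inr j)) : BC K) - C c * X (Sum.inl (Sum.inr i)) ∈ I) (n : ℕ)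
    (y : BC K) (hy : IsWeightedHomogeneous wB y (n : ℤ)) :
    ∃ q : BC K, T0 (hV K).toRingHom (thV K) I q ∧ y - X (Sum.inl (Sum.inr i)) ^ n * q ∈ I := by
  rw [y.as_sum]
  refine Finset.sum_induction _ (fun z : BC K => ∃ q : BC K, T0 (hV K).toRingHom (thV K) I q ∧
    z - X (Sum.inl (Sum.inr i)) ^ n * q ∈ I) ?_ ?_ ?_
  · rintro a b ⟨q, hq, ha⟩ ⟨r, hr, hb⟩
    refine ⟨q + r, hq.add hr, ?_⟩
    have e : a + b - X (Sum.inl (Sum.inr i)) ^ n * (q + r) =
        (a - X (Sum.inl (Sum.inr i)) ^ n * q) + (b - X (Sum.inl (Sum.inr i)) ^ n * r) := by ring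
    rw [e]
    exact I.add_mem ha hb
  · refine ⟨0, ?_, by simp⟩
    have := T0.img (h := (hV K).toRingHom) (θ := thV K) (I := I) 0
    rwa [map_zero] at this
  · intro d hd
    obtain ⟨q, a, b, hq, hw, hm⟩ := Sd.all (Sd.gen hu) d
    have hn : Finsupp.weight wB d = (n : ℤ) := hy (mem_support_iff.mp hd)
    have hab : a = b + n := by omega
    refine ⟨C (coeff d y) * q, ?_, ?_⟩
    · have h1 := T0.img (h := (hV K).toRingHom) (θ := thV K) (I := I) (C (coeff d y))
      have e : (hV K).toRingHom (C (coeff d y)) = C (coeff d y) := (hV K).commutes _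
      rw [e] at h1
      exact h1.mul hq
    · have e1 : (monomial d (coeff d y) : BC K) = C (coeff d y) * monomial d 1 := by
        rw [C_mul_monomial, mul_one]
      have e : (monomial d (coeff d y) : BC K) - X (Sum.inl (Sum.inr i)) ^ n * (C (coeff d y) * q) =
          C (coeff d y) * (monomial d 1 - X (Sum.inl (Sum.inr i)) ^ n * q) := by
        rw [e1]; ring
      rw [e]
      refine I.mul_mem_left _ ?_
      have e2 : (X (Sum.inl (Sum.inr i)) : BC K) ^ b * (monomial d 1 - X (Sum.inl (Sum.inr i)) ^ n * q) =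
          X (Sum.inl (Sum.inr i)) ^ b * monomial d 1 - X (Sum.inl (Sum.inr i)) ^ a * q := by
        rw [hab]; ring
      rw [← e2] at hm
      rcases hI.mem_or_mem hm with h | h
      · exact absurd (hI.mem_of_pow_mem _ h) hui
      · exact h

end

/-! ## The ring homomorphism which is inverse to `h` up to `θ` -/

section ell

variable {K : Type} [Field K] {V : Submodule K (Fin 5 → K)} {i : Fin 4} {e d : Fin 5 → K}

theorem e_mem (hB : Bas2 V i e d) : e ∈ V := by
  rw [hB.sp]; exact Submodule.subset_span (by simp)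

theorem d_mem (hB : Bas2 V i e d) : d ∈ V := by
  rw [hB.sp]; exact Submodule.subset_span (by simp)

theorem exists_ell (hB : Bas2 V i e d) {A : Type} [CommRing A] (κ : Gr.Pol K →+* A) (y0 y1 : A)
    (h0 : κ (X (0, 3)) * y0 = 1) (h1 : κ (X (1, 3)) * y1 = 1)
    (hr : ∀ (r : Fin 3) (j : Fin 5), κ (X (r, j)) = κ (C (e j)) * κ (X (r, 3)) + κ (C (d j)) * κ (X (r, sc i))) :
    ∃ ℓ : BC K →+* A, (∀ p, ℓ (hV K p) = κ p) ∧ ∀ z ∈ IB V, ℓ z = 0 := by
  obtain ⟨s, hs⟩ : ∃ s, s = κ (X (1, 3)) * y0 := ⟨_, rfl⟩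
  obtain ⟨s', hs'⟩ : ∃ s', s' = κ (X (2, 3)) * y1 := ⟨_, rfl⟩
  obtain ⟨α, hα⟩ : ∃ α, α = κ (X (1, sc i)) - s * κ (X (0, sc i)) := ⟨_, rfl⟩
  obtain ⟨β, hβ⟩ : ∃ β, β = κ (X (2, sc i)) - s' * κ (X (1, sc i)) := ⟨_, rfl⟩
  let vv : VB → A := Sum.elim (Sum.elim (fun j => κ (X (0, j))) (fun j => κ (C (d (sc j))))) ![s, s', α, β]
  let ℓ : BC K →+* A := eval₂Hom (κ.comp C) vv
  have lC : ∀ c : K, ℓ (C c) = κ (C c) := fun c => by simp [ℓ]
  have lx : ∀ j : Fin 5, ℓ (iC (xC K j)) = κ (X (0, j)) := fun j => by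
    rw [iC, xC, rename_X]; simp [ℓ, vv]
  have lu : ∀ j : Fin 5, ℓ (iC (uC K j)) = κ (C (d j)) := fun j => by
    by_cases hj : j = 3
    · subst hj
      rw [uC_three, hB.d3, map_zero, map_zero, C_0, map_zero]
    · obtain ⟨k, rfl⟩ := Fin.exists_succAbove_eq hj
      change ℓ (iC (uC K (sc k))) = κ (C (d (sc k)))
      rw [uC_sc, iC, rename_X]; simp [ℓ, vv]
  have ls : ℓ (sB K) = s := by rw [sB]; simp [ℓ, vv]
  have ls' : ℓ (sB' K) = s' := by rw [sB']; simp [ℓ, vv]
  have lt : ℓ (tB K) = α := by rw [tB]; simp [ℓ, vv]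
  have lt' : ℓ (tB' K) = β := by rw [tB']; simp [ℓ, vv]
  have la : ∀ j : Fin 5, ℓ (aB K j) = κ (X (1, j)) := fun j => by
    rw [aB, map_add, map_mul, map_mul, ls, lt, lx, lu, hα, hs]
    linear_combination κ (X (1, 3)) * y0 * hr 0 j + κ (X (1, 3)) * κ (C (e j)) * h0 - hr 1 j
  have lb : ∀ j : Fin 5, ℓ (bB K j) = κ (X (2, j)) := fun j => by
    rw [bB, map_add, map_mul, map_mul, ls', lt', la, lu, hβ, hs']
    linear_combination κ (X (2, 3)) * y1 * hr 1 j + κ (X (2, 3)) * κ (C (e j)) * h1 - hr 2 j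
  have hAnn : ∀ φ ∈ Ann V, ∀ v ∈ V, ∑ j, κ (C (φ j)) * κ (C (v j)) = 0 := by
    intro φ hφ v hv
    have h := hφ v hv
    have h2 := congrArg (fun c => κ (C c)) h
    simpa using h2
  refine ⟨ℓ, ?_, ?_⟩
  · intro p
    have h : ℓ.comp (hV K).toRingHom = κ := by
      apply MvPolynomial.ringHom_ext
      · intro c
        change ℓ (hV K (C c)) = _
        have e1 : hV K (C c) = C c := (hV K).commutes c
        rw [e1, lC]
      · rintro ⟨r, j⟩
        change ℓ (hV K (X (r, j))) = _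
        fin_cases r
        · change ℓ (hV K (X (0, j))) = κ (X (0, j))
          rw [hV_X0, lx]
        · change ℓ (hV K (X (1, j))) = κ (X (1, j))
          rw [hV_X1, la]
        · change ℓ (hV K (X (2, j))) = κ (X (2, j))
          rw [hV_X2, lb]
    exact DFunLike.congr_fun h p
  · have hle : IB V ≤ RingHom.ker ℓ := by
      rw [IB, Ideal.map_le_iff_le_comap, IC, Ideal.span_le]
      rintro y (⟨φ, hφ, rfl⟩ | ⟨φ, hφ, rfl⟩)
      · change ℓ (iC (∑ j, C (φ j) * xC K j)) = 0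
        rw [map_sum, map_sum]
        have h1 := hAnn φ hφ e (e_mem hB)
        have h2 := hAnn φ hφ d (d_mem hB)
        have h3 : ∀ j, ℓ (iC (C (φ j) * xC K j)) = (κ (C (φ j)) * κ (C (e j))) * κ (X (0, 3)) +
            (κ (C (φ j)) * κ (C (d j))) * κ (X (0, sc i)) := fun j => by
          have e1 : iC (C (φ j) : CC K) = C (φ j) := iC.commutes (φ j)
          rw [map_mul, map_mul, e1, lC, lx, hr 0 j]
          ring
        rw [Finset.sum_congr rfl fun j _ => h3 j, Finset.sum_add_distrib, ← Finset.sum_mul, ← Finset.sum_mul, h1, h2]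
        ring
      · change ℓ (iC (∑ j, C (φ j) * uC K j)) = 0
        rw [map_sum, map_sum]
        have h2 := hAnn φ hφ d (d_mem hB)
        have h3 : ∀ j, ℓ (iC (C (φ j) * uC K j)) = κ (C (φ j)) * κ (C (d j)) := fun j => by
          have e1 : iC (C (φ j) : CC K) = C (φ j) := iC.commutes (φ j)
          rw [map_mul, map_mul, e1, lC, lu]
        rw [Finset.sum_congr rfl fun j _ => h3 j, h2]
    exact fun z hz => hle hz

/-- the entries of a row modulo the ideal of `ℓ × ℓ × ℓ` -/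
theorem row_mem (f : MvPolynomial (Fin 5) K) (hB : Bas2 V i e d) (r : Fin 3) (j : Fin 5) :
    (X (r, j) - (C (e j) * X (r, 3) + C (d j) * X (r, sc i)) : Gr.Pol K) ∈ Ideal.span (cubeGens f V) := by
  refine Ideal.subset_span (Or.inl ⟨r, Pi.single j 1 - e j • Pi.single 3 1 - d j • Pi.single (sc i) 1, ?_, ?_⟩)
  · intro v hv
    rw [hB.sp, Submodule.mem_span_pair] at hv
    obtain ⟨a, b, rfl⟩ := hv
    simp only [Pi.sub_apply, Pi.smul_apply, smul_eq_mul, sub_mul, Finset.sum_sub_distrib, Pi.add_apply]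
    have h1 : ∀ (k : Fin 5) (g : Fin 5 → K), ∑ x, (Pi.single k (1 : K) : Fin 5 → K) x * g x = g k := fun k g => by
      rw [Finset.sum_eq_single k]
      · simp
      · intro b _ hb
        rw [Pi.single_eq_of_ne hb, zero_mul]
      · exact fun h => absurd (Finset.mem_univ k) h
    have h2 : ∀ (c : K) (k : Fin 5) (g : Fin 5 → K), ∑ x, c * (Pi.single k (1 : K) : Fin 5 → K) x * g x = c * g k := fun c k g => by
      rw [← h1 k g, Finset.mul_sum]
      exact Finset.sum_congr rfl fun x _ => by ring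
    rw [h1 j fun x => a * e x + b * d x, h2 (e j) 3 fun x => a * e x + b * d x, h2 (d j) (sc i) fun x => a * e x + b * d x,
      hB.e3, hB.ei, hB.d3, hB.di]
    ring
  · have h1 : ∀ (k : Fin 5), ∑ x, C ((Pi.single k (1 : K) : Fin 5 → K) x) * (X (r, x) : Gr.Pol K) = X (r, k) := fun k => by
      rw [Finset.sum_eq_single k]
      · simp
      · intro b _ hb
        rw [Pi.single_eq_of_ne hb, C_0, zero_mul]
      · exact fun h => absurd (Finset.mem_univ k) h
    simp only [Pi.sub_apply, Pi.smul_apply, smul_eq_mul, C_sub, C_mul, sub_mul, Finset.sum_sub_distrib, mul_assoc,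
      ← Finset.mul_sum, h1]
    ring

/-- the kernel of `h` modulo `IB V` -/
theorem ker_h (f : MvPolynomial (Fin 5) K) (hB : Bas2 V i e d) (p : Gr.Pol K) (hp : hV K p ∈ IB V) :
    ∃ k : ℕ, thV K ^ k * p ∈ Ideal.span (cubeGens f V) := by
  let Q : Type := Gr.Pol K ⧸ Ideal.span (cubeGens f V)
  let qm : Gr.Pol K →+* Q := Ideal.Quotient.mk _
  let A : Type := Localization.Away (qm (thV K))
  let κ : Gr.Pol K →+* A := (algebraMap Q A).comp qm
  have hu : IsUnit (κ (thV K)) := IsLocalization.Away.algebraMap_isUnit (S := A) (qm (thV K))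
  have hu' : IsUnit (κ (X (0, 3)) * κ (X (1, 3)) * κ (X (2, 3))) := by
    rw [← map_mul, ← map_mul]; exact hu
  have hu0 : IsUnit (κ (X (0, 3))) := isUnit_of_mul_isUnit_left (isUnit_of_mul_isUnit_left hu')
  have hu1 : IsUnit (κ (X (1, 3))) := isUnit_of_mul_isUnit_right (isUnit_of_mul_isUnit_left hu')
  obtain ⟨y0, h0⟩ := hu0.exists_right_inv
  obtain ⟨y1, h1⟩ := hu1.exists_right_inv
  have hr : ∀ (r : Fin 3) (j : Fin 5), κ (X (r, j)) = κ (C (e j)) * κ (X (r, 3)) + κ (C (d j)) * κ (X (r, sc i)) := by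
    intro r j
    have h := (Ideal.Quotient.eq (I := Ideal.span (cubeGens f V))).mpr (row_mem f hB r j)
    have h2 : κ (X (r, j)) = κ (C (e j) * X (r, 3) + C (d j) * X (r, sc i)) := congrArg (algebraMap Q A) h
    rw [h2, map_add, map_mul, map_mul]
  obtain ⟨ℓ, hl, hI⟩ := exists_ell hB κ y0 y1 h0 h1 hr
  have hz : κ p = 0 := by rw [← hl]; exact hI _ hp
  obtain ⟨c, hc⟩ := (IsLocalization.map_eq_zero_iff (Submonoid.powers (qm (thV K))) A (qm p)).mp hz
  obtain ⟨k, hk⟩ := c.2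
  refine ⟨k, ?_⟩
  rw [← Ideal.Quotient.eq_zero_iff_mem]
  change qm (thV K ^ k * p) = 0
  rw [map_mul, map_pow]
  have hk' : qm (thV K) ^ k = c := hk
  rw [hk']
  exact hc

/-- `h` maps the generators of the ideal of `ℓ × ℓ × ℓ` to `IB V` -/
theorem h_gens (f : MvPolynomial (Fin 5) K) (hF : FIn f (IB V)) (p : Gr.Pol K) (hp : p ∈ Ideal.span (cubeGens f V)) :
    hV K p ∈ IB V := by
  have hle : Ideal.span (cubeGens f V) ≤ (IB V).comap (hV K).toRingHom := by
    rw [Ideal.span_le]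
    rintro _ (⟨r, φ, hφ, rfl⟩ | ⟨r, rfl⟩)
    · have hx : iC (∑ j, C (φ j) * xC K j) ∈ IB V :=
        Ideal.mem_map_of_mem (iC (K := K)).toRingHom (Ideal.subset_span (Or.inl ⟨φ, hφ, rfl⟩))
      have hu : iC (∑ j, C (φ j) * uC K j) ∈ IB V :=
        Ideal.mem_map_of_mem (iC (K := K)).toRingHom (Ideal.subset_span (Or.inr ⟨φ, hφ, rfl⟩))
      have hC : ∀ c : K, iC (C c : CC K) = C c := fun c => iC.commutes c
      have hC' : ∀ c : K, hV K (C c) = C c := fun c => (hV K).commutes c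
      have e0 : (∑ j, C (φ j) * iC (xC K j) : BC K) = iC (∑ j, C (φ j) * xC K j) := by
        rw [map_sum]; exact Finset.sum_congr rfl fun j _ => by rw [map_mul, hC]
      have e0' : (∑ j, C (φ j) * iC (uC K j) : BC K) = iC (∑ j, C (φ j) * uC K j) := by
        rw [map_sum]; exact Finset.sum_congr rfl fun j _ => by rw [map_mul, hC]
      have e1 : (∑ j, C (φ j) * aB K j : BC K) = sB K * iC (∑ j, C (φ j) * xC K j) + tB K * iC (∑ j, C (φ j) * uC K j) := by
        rw [← e0, ← e0', Finset.mul_sum, Finset.mul_sum, ← Finset.sum_add_distrib]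
        exact Finset.sum_congr rfl fun j _ => by rw [aB]; ring
      have e2 : (∑ j, C (φ j) * bB K j : BC K) = sB' K * (∑ j, C (φ j) * aB K j) + tB' K * iC (∑ j, C (φ j) * uC K j) := by
        rw [← e0', Finset.mul_sum, Finset.mul_sum, ← Finset.sum_add_distrib]
        exact Finset.sum_congr rfl fun j _ => by rw [bB]; ring
      have ha : (∑ j, C (φ j) * aB K j : BC K) ∈ IB V := by
        rw [e1]
        exact (IB V).add_mem ((IB V).mul_mem_left _ hx) ((IB V).mul_mem_left _ hu)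
      change hV K (∑ j, C (φ j) * X (r, j)) ∈ IB V
      have e3 : hV K (∑ j, C (φ j) * X (r, j)) = ∑ j, C (φ j) * hV K (X (r, j)) := by
        rw [map_sum]; exact Finset.sum_congr rfl fun j _ => by rw [map_mul, hC']
      rw [e3]
      fin_cases r
      · change ∑ j, C (φ j) * hV K (X (0, j)) ∈ IB V
        rw [Finset.sum_congr rfl fun j _ => by rw [hV_X0 j], e0]
        exact hx
      · change ∑ j, C (φ j) * hV K (X (1, j)) ∈ IB V
        rw [Finset.sum_congr rfl fun j _ => by rw [hV_X1 j]]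
        exact ha
      · change ∑ j, C (φ j) * hV K (X (2, j)) ∈ IB V
        rw [Finset.sum_congr rfl fun j _ => by rw [hV_X2 j], e2]
        exact (IB V).add_mem ((IB V).mul_mem_left _ ha) ((IB V).mul_mem_left _ hu)
    · exact hF r
  exact hle hp

end ell

end LOn_aux

theorem tLOn : S_TsV → S_GpM → S_GLf → S_Hfv → S_GKS → S_BaL → S_RtL → S_DvL → S_FtL → S_LOn := by
  intro hTsV hGpM hGLf hHfv hGKS hBaL hRtL hDvL hFtL K _ _ f E _ Φ V hf hVf h3 n
  obtain ⟨i, e, d, hB⟩ := hBaL K V hVf.1 h3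
  obtain ⟨-, -, hkerB, -, -, hprime, -, -, -, -, -, -⟩ := hRtL K V i e d hB
  obtain ⟨φ, g, -, hsp, -, hfg⟩ := hDvL K f V i e d hf hVf.2 hB
  have hφ : ∀ k, φ k ∈ Ann V := fun k => by
    have h1 : φ k ∈ (Submodule.span K (Set.range φ) : Set (Fin 5 → K)) := Submodule.subset_span ⟨k, rfl⟩
    rw [hsp] at h1
    exact h1
  have hF : FIn f (IB V) := ((hFtL K f φ g hfg).2.2 V hφ).2 hf
  have hui : (X (Sum.inl (Sum.inr i)) : BC K) ∉ IB V := by
    rw [← hkerB, RingHom.mem_ker]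
    have h1 : rVB i e d (X (Sum.inl (Sum.inr i))) = X (Sum.inl (Sum.inr i)) := by
      rw [rVB, aeval_X, Sum.elim_inl, rV, aeval_X, Sum.elim_inr, hB.di, C_1, one_mul, iC, rename_X]
    rw [h1]
    exact X_ne_zero _
  have hu : ∀ j : Fin 4, ∃ c : K, (X (Sum.inl (Sum.inr j)) : BC K) - C c * X (Sum.inl (Sum.inr i)) ∈ IB V := by
    intro j
    refine ⟨d (sc j), ?_⟩
    rw [← hkerB, RingHom.mem_ker]
    have h1 : ∀ k, rVB i e d (X (Sum.inl (Sum.inr k))) = C (d (sc k)) * X (Sum.inl (Sum.inr i)) := fun k => by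
      rw [rVB, aeval_X, Sum.elim_inl, rV, aeval_X, Sum.elim_inr, map_mul, iC, rename_X, rename_C]
    have h2 : rVB i e d (C (d (sc j))) = C (d (sc j)) := (rVB i e d).commutes _
    rw [map_sub, map_mul, h1, h1, h2, hB.di, C_1, one_mul, sub_self]
  have hw : IsWeightedHomogeneous wB ((X (Sum.inl (Sum.inr i)) : BC K) ^ n) (n : ℤ) := by
    have h1 := (isWeightedHomogeneous_X K wB (Sum.inl (Sum.inr i) : VB)).pow n
    simpa [wB] using h1
  let m0 : gV (IB V) (n : ℤ) := ⟨FY.Res.mk (hV K).toRingHom (Ideal.Quotient.mk (IB V) (X (Sum.inl (Sum.inr i)) ^ n)),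
    Submodule.subset_span ⟨_, hw, rfl⟩⟩
  let g0 : Gr.Pol K →ₗ[Gr.Pol K] gV (IB V) (n : ℤ) := LinearMap.toSpanSingleton (Gr.Pol K) _ m0
  have hg0 : ∀ p, ((g0 p : gV (IB V) (n : ℤ)) : Res (hV K).toRingHom (BC K ⧸ IB V)) =
      FY.Res.mk (hV K).toRingHom (Ideal.Quotient.mk (IB V) (hV K p * X (Sum.inl (Sum.inr i)) ^ n)) := fun p => rfl
  have hg0' : ∀ p, g0 p = 0 ↔ hV K p ∈ IB V := by
    intro p
    rw [← Subtype.coe_inj, hg0]
    change Ideal.Quotient.mk (IB V) (hV K p * X (Sum.inl (Sum.inr i)) ^ n) = 0 ↔ _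
    rw [Ideal.Quotient.eq_zero_iff_mem]
    constructor
    · intro h
      rcases hprime.mem_or_mem h with h | h
      · exact h
      · exact absurd (hprime.mem_of_pow_mem _ h) hui
    · exact fun h => (IB V).mul_mem_right _ h
  let gg : (Gr.Pol K ⧸ Ideal.span (cubeGens f V)) →ₗ[Gr.Pol K] gV (IB V) (n : ℤ) :=
    (Ideal.span (cubeGens f V)).liftQ g0 (fun p hp => (hg0' p).mpr (LOn_aux.h_gens f hF p hp))
  refine ((hTsV (Gr.Pol K) (Set.range (Gr.form f)) (thV K) E Φ inferInstance).1 _ _ gg ?_ (hGLf K (IB V) n) ?_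
    (hGKS K f (IB V) n hF) ?_ ?_).symm
  · exact ⟨⊤, Module.Finite.fg_top, fun m => ⟨0, trivial⟩⟩
  · intro s hs m
    obtain ⟨x, rfl⟩ := Submodule.Quotient.mk_surjective _ m
    rw [← Submodule.Quotient.mk_smul, Submodule.Quotient.mk_eq_zero, smul_eq_mul]
    exact Ideal.mul_mem_right _ _ (Ideal.subset_span (Or.inr hs))
  · intro m hm
    obtain ⟨p, rfl⟩ := Submodule.Quotient.mk_surjective _ m
    have h1 : g0 p = 0 := by
      rw [← hm]; exact (Submodule.liftQ_apply _ g0 p).symm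
    obtain ⟨k, hk⟩ := LOn_aux.ker_h f hB p ((hg0' p).mp h1)
    refine ⟨k, ?_⟩
    rw [← Submodule.Quotient.mk_smul, Submodule.Quotient.mk_eq_zero, smul_eq_mul]
    exact hk
  · rintro ⟨y, hy⟩
    obtain ⟨x, hx, rfl⟩ := (hGpM.1 (Gr.Pol K) VB K (hV K).toRingHom wB (IB V) n (hHfv K f hf).2.2.2.1 y).mp hy
    obtain ⟨q, ⟨k, p, hp⟩, hq⟩ := LOn_aux.exists_T0 hprime hui hu n x hx
    refine ⟨k, Submodule.Quotient.mk p, ?_⟩
    have h1 : gg (Submodule.Quotient.mk p) = g0 p := Submodule.liftQ_apply _ g0 p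
    rw [h1]
    apply Subtype.ext
    rw [hg0]
    change Ideal.Quotient.mk (IB V) (hV K (thV K ^ k) * x) = _
    refine (Ideal.Quotient.eq (I := IB V)).mpr ?_
    have e1 : hV K (thV K ^ k) * x - hV K p * X (Sum.inl (Sum.inr i)) ^ n =
        hV K (thV K) ^ k * (x - X (Sum.inl (Sum.inr i)) ^ n * q) +
        X (Sum.inl (Sum.inr i)) ^ n * (hV K (thV K) ^ k * q - hV K p) := by
      rw [map_pow]; ring
    rw [e1]
    exact (IB V).add_mem ((IB V).mul_mem_left _ hq) ((IB V).mul_mem_left _ hp)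

end Pool.Agent.QV
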