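import Pool.Agent.Lib.MP_b53bfe_ag.Q.SpecV

/-!
# Disproof of Q1 of MP_b53bfe_ag, phase 3, module Rg4: regularity in `B` in large degree (helper3)
-/

set_option autoImplicit false

noncomputable section

namespace Pool.Agent.QV

open Matrix MvPolynomial
open Pool.Agent.FY (Res)

namespace Rg4_aux

section comp

variable {σ K : Type} [CommRing K] {w : σ → ℤ}

theorem comp_mul {a : MvPolynomial σ K} {e : ℤ} (ha : IsWeightedHomogeneous w a e) (j : ℤ)
    (x : MvPolynomial σ K) :
    weightedHomogeneousComponent w (j + e) (a * x) = a * weightedHomogeneousComponent w j x := by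
  classical
  ext d
  rw [coeff_weightedHomogeneousComponent, coeff_mul, coeff_mul]
  split_ifs with hd
  · refine Finset.sum_congr rfl fun p hp => ?_
    rw [coeff_weightedHomogeneousComponent]
    by_cases h0 : coeff p.1 a = 0
    · rw [h0, zero_mul, zero_mul]
    · have h1 := ha h0
      have h2 : p.1 + p.2 = d := Finset.HasAntidiagonal.mem_antidiagonal.1 hp
      have h3 : (Finsupp.weight w) p.1 + (Finsupp.weight w) p.2 = j + e := by
        rw [← map_add, h2, hd]
      rw [if_pos (by rw [h1] at h3; linarith)]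
  · symm
    refine Finset.sum_eq_zero fun p hp => ?_
    rw [coeff_weightedHomogeneousComponent]
    by_cases h0 : coeff p.1 a = 0
    · rw [h0, zero_mul]
    · have h1 := ha h0
      have h2 : p.1 + p.2 = d := Finset.HasAntidiagonal.mem_antidiagonal.1 hp
      rw [if_neg, mul_zero]
      intro h4
      apply hd
      rw [← h2, map_add, h1, h4, add_comm]

end comp

section wt

variable {K : Type} [Field K]

/-- the polynomial in `s, s', t, t'` with coefficients in `K[x, u]` -/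
def Ps (x : BC K) : MvPolynomial (Fin 4) (CC K) := sumAlgEquiv K (Fin 4) VC (rename Sum.swap x)

theorem Ps_mul (x y : BC K) : Ps (x * y) = Ps x * Ps y := by
  rw [Ps, map_mul, map_mul]; rfl

theorem Ps_add (x y : BC K) : Ps (x + y) = Ps x + Ps y := by
  rw [Ps, map_add, map_add]; rfl

theorem Ps_C (c : K) : Ps (C c : BC K) = C (C c) := by
  rw [Ps, rename_C, sumAlgEquiv_C_inl]

theorem Ps_Xl (v : VC) : Ps (X (Sum.inl v) : BC K) = C (X v) := by
  rw [Ps, rename_X, Sum.swap_inl, sumAlgEquiv_X_inr]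

theorem Ps_Xr (i : Fin 4) : Ps (X (Sum.inr i) : BC K) = X i := by
  rw [Ps, rename_X, Sum.swap_inr, sumAlgEquiv_X_inl]

theorem Ps_iC (a : CC K) : Ps (iC a) = C a := by
  have h1 : rename Sum.swap (iC a : BC K) = rename Sum.inr a := by
    rw [iC, rename_rename]
    rfl
  have h2 := DFunLike.congr_fun (sumAlgEquiv_comp_rename_inr (R := K) (S₁ := Fin 4) (S₂ := VC)) a
  rw [Ps, h1]
  exact h2

/-- the coefficients are homogeneous of the right weight -/
def Wt (q : MvPolynomial (Fin 4) (CC K)) (m : ℤ) : Prop :=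
  ∀ d : Fin 4 →₀ ℕ, IsWeightedHomogeneous wC (coeff d q) (m + (d 2 : ℤ) + (d 3 : ℤ))

theorem Wt.mul {q r : MvPolynomial (Fin 4) (CC K)} {m n : ℤ} (hq : Wt q m) (hr : Wt r n) :
    Wt (q * r) (m + n) := by
  classical
  intro d
  rw [coeff_mul]
  refine IsWeightedHomogeneous.sum (Finset.HasAntidiagonal.antidiagonal d) _ _ fun p hp => ?_
  have h2 : p.1 + p.2 = d := Finset.HasAntidiagonal.mem_antidiagonal.1 hp
  have h3 := (hq p.1).mul (hr p.2)
  have h4 : m + (p.1 2 : ℤ) + (p.1 3 : ℤ) + (n + (p.2 2 : ℤ) + (p.2 3 : ℤ)) =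
      m + n + (d 2 : ℤ) + (d 3 : ℤ) := by
    rw [← h2]
    simp only [Finsupp.add_apply, Nat.cast_add]
    ring
  rw [h4] at h3
  exact h3

theorem Wt.add {q r : MvPolynomial (Fin 4) (CC K)} {m : ℤ} (hq : Wt q m) (hr : Wt r m) :
    Wt (q + r) m := by
  intro d
  rw [coeff_add]
  exact (hq d).add (hr d)

theorem Wt_zero (m : ℤ) : Wt (0 : MvPolynomial (Fin 4) (CC K)) m := by
  intro d
  rw [coeff_zero]
  exact isWeightedHomogeneous_zero _ _ _

theorem Wt_CC {a : CC K} {m : ℤ} (ha : IsWeightedHomogeneous wC a m) : Wt (C a) m := by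
  classical
  intro d
  rw [coeff_C]
  split_ifs with h
  · rw [← h]
    simpa using ha
  · exact isWeightedHomogeneous_zero _ _ _

theorem Wt_X (i : Fin 4) : Wt (X i : MvPolynomial (Fin 4) (CC K)) ((![0, 0, -1, -1] : Fin 4 → ℤ) i) := by
  classical
  intro d
  rw [coeff_X']
  split_ifs with h
  · rw [← h]
    have h1 : (![0, 0, -1, -1] : Fin 4 → ℤ) i + ((Finsupp.single i 1 : Fin 4 →₀ ℕ) 2 : ℤ) +
        ((Finsupp.single i 1 : Fin 4 →₀ ℕ) 3 : ℤ) = 0 := by
      fin_cases i <;> simp [Finsupp.single_apply]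
    rw [h1]
    exact isWeightedHomogeneous_one _ _
  · exact isWeightedHomogeneous_zero _ _ _

theorem Wt_Xv (v : VB) : Wt (Ps (X v : BC K)) (wB v) := by
  rcases v with v | i
  · rw [Ps_Xl]
    exact Wt_CC (isWeightedHomogeneous_X K wC v)
  · rw [Ps_Xr]
    exact Wt_X i

theorem Wt_pow (v : VB) (n : ℕ) : Wt (Ps (X v ^ n : BC K)) (n • wB v) := by
  induction n with
  | zero =>
    rw [pow_zero, zero_smul, ← C_1, Ps_C]
    exact Wt_CC (isWeightedHomogeneous_C _ _)
  | succ n ih =>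
    rw [pow_succ, Ps_mul, succ_nsmul]
    exact ih.mul (Wt_Xv v)

theorem Wt_mono (e : VB →₀ ℕ) : ∀ c : K, Wt (Ps (monomial e c)) (Finsupp.weight wB e) := by
  classical
  induction e using Finsupp.induction_linear with
  | zero =>
    intro c
    rw [map_zero]
    show Wt (Ps (C c)) 0
    rw [Ps_C]
    exact Wt_CC (isWeightedHomogeneous_C _ _)
  | add e e' he he' =>
    intro c
    have h : (monomial (e + e') c : BC K) = monomial e c * monomial e' 1 := by
      rw [monomial_mul, mul_one]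
    rw [h, Ps_mul, map_add]
    exact (he c).mul (he' 1)
  | single v n =>
    intro c
    have h : (monomial (Finsupp.single v n) c : BC K) = C c * X v ^ n := by
      rw [C_mul_X_pow_eq_monomial]
    have h1 := (Wt_CC (K := K) (isWeightedHomogeneous_C wC c)).mul (Wt_pow (K := K) v n)
    rw [h, Ps_mul, Ps_C, Finsupp.weight_single]
    rw [zero_add] at h1
    exact h1

theorem Wt_hom {x : BC K} {m : ℤ} (hx : IsWeightedHomogeneous wB x m) : Wt (Ps x) m := by
  classical
  rw [x.as_sum]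
  have h : ∀ s : Finset (VB →₀ ℕ), s ⊆ x.support → Wt (Ps (∑ e ∈ s, monomial e (coeff e x))) m := by
    intro s
    induction s using Finset.induction_on with
    | empty =>
      intro _
      have h0 : Ps (0 : BC K) = 0 := by rw [Ps, map_zero, map_zero]
      rw [Finset.sum_empty, h0]
      exact Wt_zero m
    | insert e s hes ih =>
      intro hs
      rw [Finset.sum_insert hes, Ps_add]
      have h1 : Finsupp.weight wB e = m := hx (mem_support_iff.1 (hs (Finset.mem_insert_self e s)))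
      have h2 := Wt_mono (K := K) e (coeff e x)
      rw [h1] at h2
      exact h2.add (ih fun a ha => hs (Finset.mem_insert_of_mem ha))
  exact h x.support (Finset.Subset.refl _)

end wt

end Rg4_aux

open Rg4_aux

theorem tRg4 : S_RgZ → S_ExtV → S_Lgd → S_GpM → S_Hfv → S_FnV → S_Rg4 := by
  intro _hRgZ hExt hLgd hGpM hHfv hFnV K _ f hf hrc
  obtain ⟨-, hwC, hwB, hth, hthV, -⟩ := hHfv K f hf
  obtain ⟨-, -, ⟨hJD, hJB, -, hJC⟩, hdB, -⟩ := hFnV K f hf
  set θ : BC K := hV K (thV K) with hθ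
  have hθw : IsWeightedHomogeneous wB θ 0 := hth (thV K)
  -- the ideal `L`
  let J' : Ideal (CC K) := JC f {0, 1, 2, 3, 5}
  let L : Ideal (CC K) :=
    { carrier := {y | Fw f 4 * y ∈ J'}
      zero_mem' := by
        show Fw f 4 * 0 ∈ J'
        rw [mul_zero]; exact J'.zero_mem
      add_mem' := by
        intro a b ha hb
        show Fw f 4 * (a + b) ∈ J'
        rw [mul_add]; exact J'.add_mem ha hb
      smul_mem' := by
        intro c a ha
        show Fw f 4 * (c * a) ∈ J'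
        have h1 : Fw f 4 * (c * a) = c * (Fw f 4 * a) := by ring
        rw [h1]; exact J'.mul_mem_left c ha }
  have hL : ∀ y, y ∈ L ↔ Fw f 4 * y ∈ J' := fun y => Iff.rfl
  obtain ⟨M, k, hM⟩ := hLgd K J' L (hJC _) (by
      intro y hy j
      rw [hL] at hy ⊢
      have h1 := hJC ({0, 1, 2, 3, 5} : Finset ℕ) (Fw f 4 * y) hy (j + 4)
      have h2 := comp_mul (hwC 4) j y
      have h3 : ((4 : ℕ) : ℤ) = 4 := rfl
      rw [h3] at h2
      rw [← h2]
      exact h1)
    (fun y hy => by rw [hL]; exact J'.mul_mem_left _ hy)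
    (fun i y hy => hrc.r3 i y hy)
  refine ⟨M, fun j hj x hx hFx => ?_⟩
  -- the element `y` of weight `j + 1`
  have hw5 : IsWeightedHomogeneous wB (iC (Fw f 5) * x) (5 + j) := (hwB 5).mul hx
  obtain ⟨y, hy, hg⟩ := hGpM.2.2.2 VB K wB (JB f (Finset.range 4)) (dB f) 4 (5 + j) (iC (Fw f 5) * x)
    (hJB _) hdB hw5 hFx
  have h45 : JB f (Finset.range 4) ≤ JB f {0, 1, 2, 3, 5} := by
    refine Ideal.span_mono ?_
    rintro z ⟨i, hi, rfl⟩
    refine ⟨i, ?_, rfl⟩
    rw [Finset.mem_range] at hi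
    interval_cases i <;> decide
  have h5mem : iC (Fw f 5) ∈ JB f {0, 1, 2, 3, 5} := Ideal.subset_span ⟨5, by decide, rfl⟩
  have hFy : iC (Fw f 4) * (θ * y) ∈ JB f {0, 1, 2, 3, 5} := by
    have e1 : iC (Fw f 4) * (θ * y) = (iC (xC K 3) ^ 3 * sB K * sB' K) *
        (iC (Fw f 5) * x - (iC (Fw f 5) * x - dB f * y) - (tB K * y) * iC (Fw f 5)) := by
      rw [hthV, dB]
      ring
    rw [e1]
    refine Ideal.mul_mem_left _ _ (Ideal.sub_mem _ (Ideal.sub_mem _ ?_ (h45 hg))
      (Ideal.mul_mem_left _ _ h5mem))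
    exact Ideal.mul_mem_right _ _ h5mem
  -- coefficients
  have hco : ∀ d : Fin 4 →₀ ℕ, coeff d (Ps (θ * y)) ∈ L := by
    intro d
    rw [hL]
    have h1 := (hExt K J').2.1 (iC (Fw f 4) * (θ * y))
    rw [← (hExt K J').2.2 f {0, 1, 2, 3, 5}] at h1
    have h2 := h1.1 hFy d
    have h3 : coeff d (Ps (iC (Fw f 4) * (θ * y))) = Fw f 4 * coeff d (Ps (θ * y)) := by
      rw [Ps_mul, Ps_iC, coeff_C_mul]
    rw [← h3]
    exact h2
  have hwt : Wt (Ps (θ * y)) (5 + j - 4) := by
    have := hθw.mul hy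
    rw [zero_add] at this
    exact Wt_hom this
  have hk : iC (xC K 3) ^ k * (θ * y) ∈ JB f {0, 1, 2, 3, 5} := by
    rw [(hExt K J').2.2 f {0, 1, 2, 3, 5}]
    refine ((hExt K J').2.1 _).2 fun d => ?_
    have h3 : coeff d (Ps (iC (xC K 3) ^ k * (θ * y))) = xC K 3 ^ k * coeff d (Ps (θ * y)) := by
      rw [← map_pow, Ps_mul, Ps_iC, coeff_C_mul]
    have h4 := hM (5 + j - 4 + (d 2 : ℤ) + (d 3 : ℤ)) (by
      have := Int.natCast_nonneg (d 2)
      have := Int.natCast_nonneg (d 3)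
      linarith) _ (hco d) (hwt d)
    rw [← h3] at h4
    exact h4
  have hk2 : θ ^ (k + 1) * y ∈ JB f {0, 1, 2, 3, 5} := by
    have e1 : θ ^ (k + 1) * y = (iC (xC K 3) ^ (2 * k) * (sB K ^ 2 * sB' K) ^ k) *
        (iC (xC K 3) ^ k * (θ * y)) := by
      have e2 : θ ^ k = iC (xC K 3) ^ (2 * k) * (sB K ^ 2 * sB' K) ^ k * iC (xC K 3) ^ k := by
        rw [hthV, mul_assoc, mul_pow, ← pow_mul]
        have e3 : 3 * k = 2 * k + k := by ring
        rw [e3, pow_add]
        ring
      rw [pow_succ, e2]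
      ring
    rw [e1]
    exact Ideal.mul_mem_left _ _ hk
  have h54 : JB f {0, 1, 2, 3, 5} ≤ JB f (Finset.range 4) ⊔ Ideal.span {iC (Fw f 5)} := by
    refine Ideal.span_le.2 ?_
    rintro z ⟨i, hi, rfl⟩
    have hi' : i = 5 ∨ i ∈ Finset.range 4 := by
      simp only [Finset.mem_insert, Finset.mem_singleton] at hi
      rw [Finset.mem_range]
      omega
    rcases hi' with rfl | hi'
    · exact Ideal.mem_sup_right (Ideal.subset_span rfl)
    · exact Ideal.mem_sup_left (Ideal.subset_span ⟨i, hi', rfl⟩)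
  obtain ⟨g', hg', z', hz', hgz⟩ := Submodule.mem_sup.1 (h54 hk2)
  obtain ⟨y', rfl⟩ := Ideal.mem_span_singleton'.1 hz'
  have hreg := (hExt K (JC f (Finset.range 4))).1 (Fw f 5) hrc.r2
  have hin : iC (Fw f 5) * (θ ^ (k + 1) * x - dB f * y') ∈ (JC f (Finset.range 4)).map (iC (K := K)).toRingHom := by
    rw [← (hExt K (JC f (Finset.range 4))).2.2 f (Finset.range 4)]
    have e1 : iC (Fw f 5) * (θ ^ (k + 1) * x - dB f * y') =
        θ ^ (k + 1) * (iC (Fw f 5) * x - dB f * y) + dB f * g' := by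
      linear_combination (- dB f) * hgz
    rw [e1]
    exact Ideal.add_mem _ (Ideal.mul_mem_left _ _ hg) (Ideal.mul_mem_left _ _ hg')
  obtain ⟨l, hl⟩ := hreg _ hin
  rw [← (hExt K (JC f (Finset.range 4))).2.2 f (Finset.range 4)] at hl
  refine ⟨l + (k + 1), ?_⟩
  have e2 : θ ^ (l + (k + 1)) * x = θ ^ l * (θ ^ (k + 1) * x - dB f * y') + (θ ^ l * y') * dB f := by
    ring
  rw [e2]
  exact Ideal.add_mem _ (Ideal.mem_sup_left hl)
    (Ideal.mem_sup_right (Ideal.mul_mem_left _ _ (Ideal.subset_span rfl)))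

end Pool.Agent.QV
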