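import Pool.Agent.Lib.MP_b53bfe_ag.Q.SpecV

/-!
# TsV: comparison up to torsion, isomorphisms and finite products (modules killed by a set) (helper70)
-/

set_option autoImplicit false

noncomputable section

namespace Pool.Agent.QV

open Matrix MvPolynomial
open Pool.Agent.FY (Res)

namespace TsV_aux

section KS

variable {R : Type} [CommRing R] {S : Set R} {M N : Type} [AddCommGroup M] [Module R M] [AddCommGroup N] [Module R N]

theorem of_inj (h : KS S N) (i : M →ₗ[R] N) (hi : Function.Injective i) : KS S M := fun s hs m =>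
  hi (by rw [map_smul, h s hs, map_zero])

theorem of_surj (h : KS S M) (p : M →ₗ[R] N) (hp : Function.Surjective p) : KS S N := fun s hs m => by
  obtain ⟨x, rfl⟩ := hp m
  rw [← map_smul, h s hs, map_zero]

end KS

variable {P : Type} [CommRing P] {S : Set P} {θ : P} {V : Type} [AddCommGroup V]

theorem compare (Φ : AXS P S θ V) (M N : Type) [AddCommGroup M] [Module P M] [AddCommGroup N] [Module P N]
    (g : M →ₗ[P] N) (hM : LFn θ M) (hN : LFn θ N) (hkM : KS S M) (hkN : KS S N)
    (hker : ∀ m : M, g m = 0 → ∃ k : ℕ, θ ^ k • m = 0) (hsurj : ∀ n : N, ∃ (k : ℕ) (m : M), θ ^ k • n = g m) :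
    Φ.f M = Φ.f N := by
  have h1 : Φ.f M = Φ.f (LinearMap.ker g) + Φ.f (LinearMap.range g) := by
    refine Φ.add (LinearMap.ker g) M (LinearMap.range g) (LinearMap.ker g).subtype g.rangeRestrict hM hkM
      (Submodule.injective_subtype _) (LinearMap.surjective_rangeRestrict g) ?_
    intro x
    constructor
    · intro hx
      refine ⟨⟨x, ?_⟩, rfl⟩
      rw [LinearMap.mem_ker]
      have := congrArg Subtype.val hx
      simpa using this
    · rintro ⟨y, rfl⟩
      apply Subtype.ext
      simp
  have h2 : Φ.f N = Φ.f (LinearMap.range g) + Φ.f (N ⧸ LinearMap.range g) :=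
    Φ.add (LinearMap.range g) N (N ⧸ LinearMap.range g) (LinearMap.range g).subtype
      (LinearMap.range g).mkQ hN hkN (Submodule.injective_subtype _) (Submodule.mkQ_surjective _)
      (LinearMap.exact_subtype_mkQ _)
  have h3 : Φ.f (LinearMap.ker g) = 0 := by
    refine Φ.tors (LinearMap.ker g) (of_inj hkM _ (Submodule.injective_subtype _)) ?_
    intro m
    obtain ⟨k, hk⟩ := hker m (LinearMap.mem_ker.mp m.2)
    exact ⟨k, Subtype.ext hk⟩
  have h4 : Φ.f (N ⧸ LinearMap.range g) = 0 := by
    refine Φ.tors (N ⧸ LinearMap.range g) (of_surj hkN _ (Submodule.mkQ_surjective _)) ?_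
    intro m
    obtain ⟨n, rfl⟩ := Submodule.mkQ_surjective _ m
    obtain ⟨k, m', hm⟩ := hsurj n
    refine ⟨k, ?_⟩
    rw [← map_smul, hm, Submodule.mkQ_apply, Submodule.Quotient.mk_eq_zero]
    exact LinearMap.mem_range_self g m'
  rw [h1, h2, h3, h4, zero_add, add_zero]

theorem lf_equiv {M N : Type} [AddCommGroup M] [Module P M] [AddCommGroup N] [Module P N] (e : M ≃ₗ[P] N)
    (hM : LFn θ M) : LFn θ N := by
  obtain ⟨M0, hfg, ht⟩ := hM
  refine ⟨M0.map e.toLinearMap, hfg.map _, fun n => ?_⟩
  obtain ⟨k, hk⟩ := ht (e.symm n)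
  refine ⟨k, ?_⟩
  have h1 := Submodule.mem_map_of_mem (f := e.toLinearMap) hk
  simpa using h1

theorem iso (Φ : AXS P S θ V) (M N : Type) [AddCommGroup M] [Module P M] [AddCommGroup N] [Module P N]
    (e : M ≃ₗ[P] N) (hM : LFn θ M) (hk : KS S M) : Φ.f M = Φ.f N :=
  compare Φ M N e.toLinearMap hM (lf_equiv e hM) hk (of_surj hk e.toLinearMap e.surjective)
    (fun m hm => ⟨0, by
      have : m = 0 := e.injective (by rw [map_zero]; exact hm)
      rw [this, smul_zero]⟩)
    (fun n => ⟨0, e.symm n, by simp⟩)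

theorem lf_sub (hP : IsNoetherianRing P) {M : Type} [AddCommGroup M] [Module P M] (hM : LFn θ M)
    (N : Submodule P M) : LFn θ N := by
  obtain ⟨M0, hfg, ht⟩ := hM
  have hF : Module.Finite P M0 := Module.Finite.iff_fg.mpr hfg
  have hN : IsNoetherian P M0 := isNoetherian_of_isNoetherianRing_of_finite P M0
  have h2 : IsNoetherian P (M0.comap N.subtype) := by
    refine isNoetherian_of_injective
      (N.subtype.restrict (fun x hx => hx) : M0.comap N.subtype →ₗ[P] M0) ?_
    intro x y hxy
    have h3 := congrArg Subtype.val hxy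
    exact Subtype.ext (Subtype.ext h3)
  refine ⟨M0.comap N.subtype, Module.Finite.iff_fg.mp inferInstance, fun m => ?_⟩
  obtain ⟨k, hk⟩ := ht m
  exact ⟨k, hk⟩

theorem lf_pi {ι : Type} [Fintype ι] (M : ι → Type) [∀ i, AddCommGroup (M i)] [∀ i, Module P (M i)]
    (h : ∀ i, LFn θ (M i)) : LFn θ (∀ i, M i) := by
  choose N hfg ht using h
  refine ⟨Submodule.pi Set.univ N, Submodule.fg_pi hfg, fun m => ?_⟩
  choose k hk using fun i => ht i (m i)
  refine ⟨Finset.univ.sup k, ?_⟩
  intro i _
  have h1 : k i ≤ Finset.univ.sup k := Finset.le_sup (Finset.mem_univ i)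
  rw [Pi.smul_apply, ← Nat.sub_add_cancel h1, pow_add, mul_smul]
  exact Submodule.smul_mem _ _ (hk i)

/-- the elements of the product which are zero outside of `s` -/
def sup {ι : Type} (M : ι → Type) [∀ i, AddCommGroup (M i)] [∀ i, Module P (M i)] (s : Finset ι) :
    Submodule P (∀ i, M i) where
  carrier := {x | ∀ i, i ∉ s → x i = 0}
  zero_mem' := fun _ _ => rfl
  add_mem' := fun {x y} hx hy i hi => by
    show x i + y i = 0
    rw [hx i hi, hy i hi, add_zero]
  smul_mem' := fun c x hx i hi => by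
    show c • x i = 0
    rw [hx i hi, smul_zero]

theorem mem_sup {ι : Type} (M : ι → Type) [∀ i, AddCommGroup (M i)] [∀ i, Module P (M i)] (s : Finset ι)
    (x : ∀ i, M i) : x ∈ sup (P := P) M s ↔ ∀ i, i ∉ s → x i = 0 := Iff.rfl

theorem prod (hP : IsNoetherianRing P) (Φ : AXS P S θ V) (ι : Type) [Fintype ι] (M : ι → Type)
    [∀ i, AddCommGroup (M i)] [∀ i, Module P (M i)] (hM : ∀ i, LFn θ (M i)) (hk : ∀ i, KS S (M i)) :
    Φ.f (∀ i, M i) = ∑ i, Φ.f (M i) := by
  classical
  have hL : LFn θ (∀ i, M i) := lf_pi M hM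
  have hkk : KS S (∀ i, M i) := fun s hs m => funext fun i => hk i s hs (m i)
  have key : ∀ s : Finset ι, Φ.f (sup (P := P) M s) = ∑ i ∈ s, Φ.f (M i) := by
    intro s
    induction s using Finset.induction_on with
    | empty =>
      rw [Finset.sum_empty]
      refine Φ.tors _ (of_inj hkk _ (Submodule.injective_subtype _)) fun m => ⟨0, ?_⟩
      apply Subtype.ext
      funext i
      have := m.2 i (Finset.notMem_empty i)
      simpa using this
    | insert a s ha ih =>
      rw [Finset.sum_insert ha, ← ih, add_comm]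
      have hle : sup (P := P) M s ≤ sup (P := P) M (insert a s) := fun x hx i hi =>
        hx i (fun h => hi (Finset.mem_insert_of_mem h))
      refine Φ.add _ _ _ (Submodule.inclusion hle)
        ((LinearMap.proj a : (∀ i, M i) →ₗ[P] M a).comp (Submodule.subtype _)) (lf_sub hP hL _)
        (of_inj hkk _ (Submodule.injective_subtype _)) (Submodule.inclusion_injective hle) ?_ ?_
      · intro m
        refine ⟨⟨Pi.single a m, ?_⟩, by simp⟩
        intro i hi
        exact Pi.single_eq_of_ne (fun h => hi (by rw [h]; exact Finset.mem_insert_self a s)) m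
      · intro x
        constructor
        · intro hx
          refine ⟨⟨x.1, fun i hi => ?_⟩, Subtype.ext rfl⟩
          by_cases hia : i = a
          · subst hia
            exact hx
          · exact x.2 i (fun h => (Finset.mem_insert.mp h).elim hia hi)
        · rintro ⟨y, rfl⟩
          exact y.2 a ha
  rw [← key Finset.univ]
  have htop : sup (P := P) M Finset.univ = ⊤ := by
    rw [eq_top_iff]
    intro x _ i hi
    exact absurd (Finset.mem_univ i) hi
  refine (iso Φ _ _ ((LinearEquiv.ofEq _ _ htop).trans Submodule.topEquiv) (lf_sub hP hL _)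
    (of_inj hkk _ (Submodule.injective_subtype _))).symm

end TsV_aux

theorem tTsV : S_TsV := by
  intro P _ S θ V _ Φ hP
  refine ⟨fun M N _ _ _ _ g hM hN hkM hkN hker hsurj => TsV_aux.compare Φ M N g hM hN hkM hkN hker hsurj,
    fun M N _ _ _ _ e hM hk => TsV_aux.iso Φ M N e hM hk,
    fun ι _ M _ _ hM hk => TsV_aux.prod hP Φ ι M hM hk⟩

end Pool.Agent.QV
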