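import Pool.Agent.Lib.MP_b53bfe_ag.Q.SpecL
import Pool.Agent.Lib.MP_b53bfe_ag.Q.GCg
import Pool.Agent.Lib.MP_b53bfe_ag.Q.Rg4
import Pool.Agent.Lib.MP_b53bfe_ag.Q.TsV

/-!
# Disproof of Q1 of MP_b53bfe_ag, phase 3, module LSm: decomposition into the lines (helper47)
-/

set_option autoImplicit false

noncomputable section

namespace Pool.Agent.QV

open Matrix MvPolynomial
open Pool.Agent.FY (Res)

namespace LSm_aux

variable {K : Type} [Field K]

theorem line_facts (hBa : S_BaL) (hRt : S_RtL) (hDv : S_DvL) (hFt : S_FtL) [Infinite K]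
    {f : MvPolynomial (Fin 5) K} (hf : f.IsHomogeneous 5) (hT : TL f)
    {V : Submodule K (Fin 5 → K)} (hV : V ∈ Lines f) :
    HomI wC (IC V) ∧ HomI wB (IB V) ∧ (∀ n, Fw f n ∈ IC V) ∧ FIn f (IB V) := by
  obtain ⟨i, e, d, hb⟩ := hBa K V hV.1 (hT.no3 V hV)
  obtain ⟨-, -, -, -, -, -, h1, h2, -⟩ := hRt K V i e d hb
  obtain ⟨φ, g, -, hsp, -, hfg⟩ := hDv K f V i e d hf hV.2 hb
  have hφ : ∀ k, φ k ∈ Ann V := fun k => by
    have h3 : φ k ∈ (Submodule.span K (Set.range φ) : Set (Fin 5 → K)) :=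
      Submodule.subset_span ⟨k, rfl⟩
    rw [hsp] at h3
    exact h3
  obtain ⟨-, -, h3⟩ := hFt K f φ g hfg
  obtain ⟨h4, h5⟩ := h3 V hφ
  exact ⟨h1, h2, h4, h5 hf⟩

theorem hom_iC {a : CC K} {n : ℤ} (ha : IsWeightedHomogeneous wC a n) :
    IsWeightedHomogeneous wB (iC a) n := by
  have h1 : iC a = ∑ m ∈ a.support, iC (monomial m (coeff m a)) := by
    conv_lhs => rw [a.as_sum]
    rw [map_sum]
  rw [h1]
  refine (weightedHomogeneousSubmodule K wB n).sum_mem fun m hm => ?_
  rw [mem_weightedHomogeneousSubmodule]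
  unfold iC
  rw [rename_monomial]
  refine isWeightedHomogeneous_monomial _ _ _ ?_
  rw [Finsupp.weight_apply, Finsupp.sum_mapDomain_index (by simp) (by intros; rw [add_smul])]
  have h2 := ha (mem_support_iff.1 hm)
  rw [Finsupp.weight_apply] at h2
  exact h2

theorem exE (hGp : S_GpM) (hLD : S_LDv) {S : Finset (Submodule K (Fin 5 → K))}
    (hS : ∀ V ∈ S, Module.finrank K V = 2 ∧ HomI wC (IC V)) {V : Submodule K (Fin 5 → K)}
    (hV : V ∈ S) (i : Fin 4) :
    ∃ e : CC K, IsWeightedHomogeneous wC e (S.card : ℤ) ∧ (∀ V' ∈ S, V' ≠ V → e ∈ IC V') ∧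
      e - (xC K 3 * X (Sum.inr i)) ^ S.card ∈ IC V := by
  classical
  set z : CC K := xC K 3 * X (Sum.inr i) with hz
  have hzw : IsWeightedHomogeneous wC z 1 := by
    have h1 := (isWeightedHomogeneous_X K wC (Sum.inl 3 : VC)).mul
      (isWeightedHomogeneous_X K wC (Sum.inr i : VC))
    exact h1
  have hb : ∀ V' : Submodule K (Fin 5 → K), ∃ b : CC K, V' ∈ S →
      (IsWeightedHomogeneous wC b 1 ∧ (V' ≠ V → b ∈ IC V') ∧ b - z ∈ IC V) := by
    intro V'
    by_cases hm : V' ∈ S
    · by_cases h : V' = V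
      · exact ⟨z, fun _ => ⟨hzw, fun h' => absurd h h', by
          rw [sub_self]
          exact zero_mem _⟩⟩
      · obtain ⟨y, hy, b, hb, -, hbw, hzy⟩ := (hGp.2.1 VC K wC (IC V) (IC V') (hS V hV).2
          (hS V' hm).2).2 1 z hzw (hLD K V V' (hS V hV).1 (hS V' hm).1 (Ne.symm h) i)
        refine ⟨b, fun _ => ⟨hbw, fun _ => hb, ?_⟩⟩
        have h2 : b - z = -y := by
          rw [hzy]
          ring
        rw [h2]
        exact neg_mem hy
    · exact ⟨0, fun h => absurd h hm⟩
  choose b hb using hb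
  refine ⟨∏ V' ∈ S, b V', ?_, ?_, ?_⟩
  · have h1 := IsWeightedHomogeneous.prod S b (fun _ => (1 : ℤ)) (w := wC)
      (fun V' hV' => (hb V' hV').1)
    simpa using h1
  · intro V' hV' hne
    exact Ideal.mem_of_dvd _ (Finset.dvd_prod_of_mem b hV') ((hb V' hV').2.1 hne)
  · rw [← Ideal.Quotient.eq, map_prod, map_pow]
    have h1 : ∀ V' ∈ S, Ideal.Quotient.mk (IC V) (b V') = Ideal.Quotient.mk (IC V) z :=
      fun V' hV' => Ideal.Quotient.eq.mpr (hb V' hV').2.2
    rw [Finset.prod_congr rfl h1, Finset.prod_const]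

theorem weight_wB (d : VB →₀ ℕ) : Finsupp.weight wB d =
    ∑ i : Fin 4, (d (Sum.inl (Sum.inr i)) : ℤ) - d (Sum.inr 2) - d (Sum.inr 3) := by
  rw [Finsupp.weight_apply, Finsupp.sum_fintype _ _ (fun i => by simp), Fintype.sum_sum_type,
    Fintype.sum_sum_type]
  simp [wB, Fin.sum_univ_four]
  ring

theorem decomp {m : ℤ} {n : ℕ} (hm : 4 * (n : ℤ) ≤ m) {Y : BC K}
    (hY : IsWeightedHomogeneous wB Y m) :
    ∃ y : Fin 4 → BC K, (∀ i, IsWeightedHomogeneous wB (y i) (m - n)) ∧
      Y = ∑ i, iC (X (Sum.inr i) : CC K) ^ n * y i := by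
  classical
  have key : ∀ s : Finset (VB →₀ ℕ), s ⊆ Y.support → ∃ y : Fin 4 → BC K,
      (∀ i, IsWeightedHomogeneous wB (y i) (m - n)) ∧
      ∑ d ∈ s, monomial d (coeff d Y) = ∑ i, iC (X (Sum.inr i) : CC K) ^ n * y i := by
    intro s
    induction s using Finset.induction_on with
    | empty =>
      intro _
      refine ⟨fun _ => 0, fun i => isWeightedHomogeneous_zero _ _ _, ?_⟩
      simp
    | insert d s hds ih =>
      intro hs
      obtain ⟨y, hy, hys⟩ := ih fun a ha => hs (Finset.mem_insert_of_mem ha)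
      have h1 : Finsupp.weight wB d = m :=
        hY (mem_support_iff.1 (hs (Finset.mem_insert_self d s)))
      have h2 : ∃ i : Fin 4, n ≤ d (Sum.inl (Sum.inr i)) := by
        by_contra hcon
        push Not at hcon
        rw [weight_wB, Fin.sum_univ_four] at h1
        have := hcon 0
        have := hcon 1
        have := hcon 2
        have := hcon 3
        omega
      obtain ⟨i, hi⟩ := h2
      have h3 : (monomial d (coeff d Y) : BC K) = iC (X (Sum.inr i) : CC K) ^ n *
          monomial (d - Finsupp.single (Sum.inl (Sum.inr i)) n) (coeff d Y) := by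
        unfold iC
        rw [rename_X, X_pow_eq_monomial, monomial_mul, one_mul, add_comm,
          tsub_add_cancel_of_le (Finsupp.single_le_iff.mpr hi)]
      have h4 : IsWeightedHomogeneous wB
          (monomial (d - Finsupp.single (Sum.inl (Sum.inr i)) n) (coeff d Y) : BC K)
          (m - n) := by
        refine isWeightedHomogeneous_monomial _ _ _ ?_
        have h5 : Finsupp.weight wB (d - Finsupp.single (Sum.inl (Sum.inr i)) n) +
            Finsupp.weight wB (Finsupp.single (Sum.inl (Sum.inr i) : VB) n) = m := by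
          rw [← map_add, tsub_add_cancel_of_le (Finsupp.single_le_iff.mpr hi), h1]
        rw [Finsupp.weight_single] at h5
        have h6 : (n : ℕ) • wB (Sum.inl (Sum.inr i)) = (n : ℤ) := by
          show n • (1 : ℤ) = n
          simp
        rw [h6] at h5
        linarith
      refine ⟨Function.update y i (y i +
        monomial (d - Finsupp.single (Sum.inl (Sum.inr i)) n) (coeff d Y)), fun j => ?_, ?_⟩
      · by_cases hj : j = i
        · subst hj
          rw [Function.update_self]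
          exact (hy j).add h4
        · rw [Function.update_of_ne hj]
          exact hy j
      · rw [Finset.sum_insert hds, hys, h3]
        rw [← Finset.add_sum_erase _ _ (Finset.mem_univ i),
          ← Finset.add_sum_erase (a := i) _ (fun j => iC (X (Sum.inr j) : CC K) ^ n *
            Function.update y i (y i + monomial
              (d - Finsupp.single (Sum.inl (Sum.inr i)) n) (coeff d Y)) j) (Finset.mem_univ i)]
        rw [Function.update_self]
        have h7 : ∑ x ∈ Finset.univ.erase i, iC (X (Sum.inr x) : CC K) ^ n *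
            Function.update y i (y i + monomial
              (d - Finsupp.single (Sum.inl (Sum.inr i)) n) (coeff d Y)) x =
            ∑ x ∈ Finset.univ.erase i, iC (X (Sum.inr x) : CC K) ^ n * y x := by
          refine Finset.sum_congr rfl fun j hj => ?_
          rw [Function.update_of_ne (Finset.ne_of_mem_erase hj)]
        rw [h7]
        ring
  obtain ⟨y, hy, h⟩ := key Y.support (Finset.Subset.refl _)
  refine ⟨y, hy, ?_⟩
  rw [← h]
  exact Y.as_sum

end LSm_aux

open LSm_aux GCg_aux Rg4_aux in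
theorem tLSm : S_TsV → S_GpM → S_GLf → S_Hfv → S_GKS → S_FnV → S_ExtV → S_Lgd → S_LNs → S_LDv →
    S_BaL → S_RtL → S_DvL → S_FtL → S_LSm := by
  intro hTs hGp hLf hHf hKS hFn hEx hLg hLN hLD hBa hRt hDv hFt K _ _ f E _ Φ hL hf hT
  classical
  have : Infinite K := IsAlgClosed.instInfinite
  obtain ⟨-, -, -, hw', hth, -⟩ := hHf K f hf
  obtain ⟨⟨-, -, -, hF6, -⟩, -, ⟨-, -, -, hJC⟩, -⟩ := hFn K f hf
  have hw : ∀ p : Gr.Pol K, IsWeightedHomogeneous wB ((hV K).toRingHom p) 0 := hw'
  have hLn : ∀ V, V ∈ hL.toFinset ↔ V ∈ Lines f := fun V => hL.mem_toFinset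
  have hfa := fun (V : Submodule K (Fin 5 → K)) (hV : V ∈ Lines f) =>
    line_facts hBa hRt hDv hFt hf hT hV
  have hJle : ∀ V ∈ Lines f, JC f (Finset.range 6) ≤ IC V := by
    intro V hV
    refine Ideal.span_le.mpr ?_
    rintro _ ⟨n, -, rfl⟩
    exact (hfa V hV).2.2.1 n
  have hJBe : JB f (Finset.range 6) = (JC f (Finset.range 6)).map (iC (K := K)).toRingHom :=
    (hEx K ⊥).2.2 f _
  have hBle : ∀ V ∈ Lines f, JB f (Finset.range 6) ≤ IB V := by
    intro V hV
    rw [hJBe]
    exact Ideal.map_mono (hJle V hV)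
  set L : Ideal (CC K) := ⨅ V ∈ Lines f, IC V with hLdef
  have hmL : ∀ y, y ∈ L ↔ ∀ V ∈ Lines f, y ∈ IC V := by
    intro y
    rw [hLdef]
    simp only [Submodule.mem_iInf]
  obtain ⟨M, k, hM⟩ := hLg K (JC f (Finset.range 6)) L (hJC _) (fun y hy j => by
      rw [hmL] at hy ⊢
      exact fun V hV => (hfa V hV).1 y (hy V hV) j)
    (fun y hy => (hmL y).mpr fun V hV => hJle V hV hy)
    (fun i y hy => hLN K f hf hT i y ((hmL y).mp hy))
  set n : ℕ := hL.toFinset.card with hn
  refine ⟨max M (4 * n), fun m hm => ?_⟩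
  have hmM : M ≤ m := le_trans (le_max_left _ _) hm
  have hmn : 4 * (n : ℤ) ≤ m := le_trans (le_max_right _ _) hm
  have hrep : ∀ (I : Ideal (BC K)) (y : gV I m), ∃ x : BC K, IsWeightedHomogeneous wB x m ∧
      (y : Res (hV K).toRingHom (BC K ⧸ I)) =
        FY.Res.mk (hV K).toRingHom (Ideal.Quotient.mk I x) := fun I y =>
    (hGp.1 (Gr.Pol K) VB K (hV K).toRingHom wB I m hw y.1).mp y.2
  let ι : Type := {V // V ∈ hL.toFinset}
  have hιL : ∀ V : ι, V.1 ∈ Lines f := fun V => (hLn V.1).mp V.2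
  let F : gV (JB f (Finset.range 6)) m →ₗ[Gr.Pol K] (∀ V : ι, gV (IB V.1) m) :=
    LinearMap.pi fun V => gfac (hBle V.1 (hιL V)) m
  have hF : ∀ y V, F y V = gfac (hBle V.1 (hιL V)) m y := fun _ _ => rfl
  have hsum : Φ.f (∀ V : ι, gV (IB V.1) m) = ∑ V ∈ hL.toFinset, Φ.f (gV (IB V) m) := by
    rw [(hTs (Gr.Pol K) (Set.range (Gr.form f)) (thV K) E Φ inferInstance).2.2 ι
      (fun V => gV (IB V.1) m) (fun V => hLf K _ m)
      (fun V => hKS K f _ m (hfa V.1 (hιL V)).2.2.2)]
    exact Finset.sum_coe_sort hL.toFinset fun V => Φ.f (gV (IB V) m)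
  rw [← hsum]
  refine (hTs (Gr.Pol K) (Set.range (Gr.form f)) (thV K) E Φ inferInstance).1 _ _ F
    (hLf K _ m) (TsV_aux.lf_pi _ fun V => hLf K _ m) (hKS K f _ m hF6)
    (fun s hs y => funext fun V => hKS K f _ m (hfa V.1 (hιL V)).2.2.2 s hs (y V)) ?_ ?_
  · -- the kernel
    intro y hy
    obtain ⟨x, hx, hyx⟩ := hrep _ y
    have hxV : ∀ V ∈ Lines f, x ∈ IB V := by
      intro V hV
      have h1 := congrFun hy ⟨V, (hLn V).mpr hV⟩
      have h2 := congrArg Subtype.val h1
      rw [hF, gfac_val, hyx] at h2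
      exact Ideal.Quotient.eq_zero_iff_mem.mp h2
    have hco : ∀ d : Fin 4 →₀ ℕ, coeff d (Ps x) ∈ L := by
      intro d
      rw [hmL]
      intro V hV
      exact ((hEx K (IC V)).2.1 x).mp (hxV V hV) d
    have hwt : Wt (Ps x) m := Wt_hom hx
    have hk : iC (xC K 3) ^ k * x ∈ JB f (Finset.range 6) := by
      rw [hJBe]
      refine ((hEx K _).2.1 _).2 fun d => ?_
      have h3 : coeff d (Ps (iC (xC K 3) ^ k * x)) = xC K 3 ^ k * coeff d (Ps x) := by
        rw [← map_pow, Ps_mul, Ps_iC, coeff_C_mul]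
      have h4 := hM (m + (d 2 : ℤ) + (d 3 : ℤ)) (by
        have := Int.natCast_nonneg (d 2)
        have := Int.natCast_nonneg (d 3)
        linarith) _ (hco d) (hwt d)
      rw [← h3] at h4
      exact h4
    refine ⟨k, Subtype.ext ?_⟩
    rw [Submodule.coe_smul, hyx, FY.Res.smul_mk, map_pow]
    have h5 : hV K (thV K) ^ k * x ∈ JB f (Finset.range 6) := by
      have e1 : hV K (thV K) ^ k * x = (iC (xC K 3) ^ (2 * k) * (sB K ^ 2 * sB' K) ^ k) *
          (iC (xC K 3) ^ k * x) := by
        have e3 : 3 * k = 2 * k + k := by ring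
        rw [hth, mul_assoc (iC (xC K 3) ^ 3), mul_pow, ← pow_mul, e3, pow_add]
        ring
      rw [e1]
      exact Ideal.mul_mem_left _ _ hk
    exact Ideal.Quotient.eq_zero_iff_mem.mpr h5
  · -- the cokernel
    intro z
    have hS : ∀ V ∈ hL.toFinset, Module.finrank K V = 2 ∧ HomI wC (IC V) := fun V hV =>
      ⟨((hLn V).mp hV).1, (hfa V ((hLn V).mp hV)).1⟩
    have hone : ∀ V : ι, ∃ y : gV (JB f (Finset.range 6)) m,
        F y = thV K ^ n • (Pi.single V (z V) : ∀ V : ι, gV (IB V.1) m) := by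
      intro V
      obtain ⟨Y, hY, hzY⟩ := hrep _ (z V)
      obtain ⟨y, hy, hYy⟩ := decomp hmn hY
      choose e he1 he2 he3 using fun i : Fin 4 => exE hGp hLD hS V.2 i
      set x : BC K := ∑ i, iC (e i) * y i with hx
      have hxw : IsWeightedHomogeneous wB x m := by
        refine (weightedHomogeneousSubmodule K wB m).sum_mem fun i _ => ?_
        rw [mem_weightedHomogeneousSubmodule]
        have h1 := (hom_iC (he1 i)).mul (hy i)
        have h2 : (hL.toFinset.card : ℤ) + (m - n) = m := by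
          rw [hn]
          ring
        rw [h2] at h1
        exact h1
      have hx1 : ∀ V' : ι, V' ≠ V → x ∈ IB V'.1 := by
        intro V' hne
        refine Ideal.sum_mem _ fun i _ => Ideal.mul_mem_right _ _ ?_
        exact Ideal.mem_map_of_mem (iC (K := K)).toRingHom
          (he2 i V'.1 V'.2 fun h => hne (Subtype.ext h))
      have hx2 : x - iC (xC K 3) ^ n * Y ∈ IB V.1 := by
        have h1 : x - iC (xC K 3) ^ n * Y =
            ∑ i, iC (e i - (xC K 3 * X (Sum.inr i)) ^ n) * y i := by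
          rw [hx, hYy, Finset.mul_sum, ← Finset.sum_sub_distrib]
          refine Finset.sum_congr rfl fun i _ => ?_
          rw [map_sub, map_pow, map_mul, mul_pow]
          ring
        rw [h1]
        refine Ideal.sum_mem _ fun i _ => Ideal.mul_mem_right _ _ ?_
        exact Ideal.mem_map_of_mem (iC (K := K)).toRingHom (he3 i)
      refine ⟨(X (1, 3) * X (2, 3) : Gr.Pol K) ^ n •
        ⟨FY.Res.mk (hV K).toRingHom (Ideal.Quotient.mk _ x), Submodule.subset_span ⟨x, hxw, rfl⟩⟩,
        funext fun V' => ?_⟩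
      rw [map_smul, Pi.smul_apply, Pi.smul_apply, hF]
      by_cases hVV : V' = V
      · subst hVV
        rw [Pi.single_eq_same]
        refine Subtype.ext ?_
        rw [Submodule.coe_smul, Submodule.coe_smul, gfac_val, hzY, FY.Res.smul_mk]
        change FY.Res.mk (hV K).toRingHom (Ideal.Quotient.mk (IB V'.1)
          ((hV K).toRingHom ((X (1, 3) * X (2, 3) : Gr.Pol K) ^ n) * x)) =
          FY.Res.mk (hV K).toRingHom (Ideal.Quotient.mk (IB V'.1)
          ((hV K).toRingHom (thV K ^ n) * Y))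
        congr 1
        rw [Ideal.Quotient.eq]
        have h6 : (hV K).toRingHom ((X (1, 3) * X (2, 3) : Gr.Pol K) ^ n) * x -
            (hV K).toRingHom (thV K ^ n) * Y =
            (hV K).toRingHom ((X (1, 3) * X (2, 3) : Gr.Pol K) ^ n) *
              (x - iC (xC K 3) ^ n * Y) := by
          have h7 : (hV K).toRingHom (X (0, 3)) = iC (xC K 3) := by
            change hV K (X (0, 3)) = _
            unfold hV
            rw [aeval_X]
            rfl
          have h8 : (thV K) ^ n = X (0, 3) ^ n * (X (1, 3) * X (2, 3) : Gr.Pol K) ^ n := by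
            rw [thV, ← mul_pow, mul_assoc]
          rw [h8, map_mul, map_pow _ (X (0, 3)), h7]
          ring
        rw [h6]
        exact Ideal.mul_mem_left _ _ hx2
      · rw [Pi.single_eq_of_ne hVV, smul_zero]
        refine Subtype.ext ?_
        rw [Submodule.coe_smul, gfac_val]
        change FY.Res.mk (hV K).toRingHom (Ideal.Quotient.mk (IB V'.1)
          ((hV K).toRingHom ((X (1, 3) * X (2, 3) : Gr.Pol K) ^ n) * x)) = 0
        exact Ideal.Quotient.eq_zero_iff_mem.mpr (Ideal.mul_mem_left _ _ (hx1 V' hVV))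
    choose y hy using hone
    refine ⟨n, ∑ V, y V, ?_⟩
    rw [map_sum, Finset.sum_congr rfl fun V _ => hy V, ← Finset.smul_sum, Finset.univ_sum_single]

end Pool.Agent.QV
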