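import Pool.Agent.Lib.MP_b53bfe_ag.Q.SpecV

/-!
# MP_b53bfe_ag, phase 3, module Lgd: large degree (helper2)
-/

set_option autoImplicit false

noncomputable section

namespace Pool.Agent.QV

open Matrix
open MvPolynomial
open Pool.Agent.FY (Res)

namespace Lgd_aux

/-- components of the product with a monomial -/
theorem comp_mono {σ K : Type} [CommRing K] (w : σ → ℤ) (m : ℤ) (d : σ →₀ ℕ) (c : K)
    (g : MvPolynomial σ K) : weightedHomogeneousComponent w m (monomial d c * g) =
      monomial d c * weightedHomogeneousComponent w (m - Finsupp.weight w d) g := by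
  classical
  ext e
  rw [coeff_weightedHomogeneousComponent, coeff_monomial_mul', coeff_monomial_mul',
    coeff_weightedHomogeneousComponent]
  by_cases hd : d ≤ e
  · rw [if_pos hd, if_pos hd]
    have h1 : Finsupp.weight w e = Finsupp.weight w (e - d) + Finsupp.weight w d := by
      rw [← map_add, tsub_add_cancel_of_le hd]
    by_cases h2 : Finsupp.weight w e = m
    · have h3 : Finsupp.weight w (e - d) = m - Finsupp.weight w d := by rw [← h2, h1]; ring
      rw [if_pos h2, if_pos h3]
    · have h3 : ¬ Finsupp.weight w (e - d) = m - Finsupp.weight w d := by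
        intro h4
        exact h2 (by rw [h1, h4]; ring)
      rw [if_neg h2, if_neg h3, mul_zero]
  · rw [if_neg hd, if_neg hd, ite_self]

/-- finitely many components -/
theorem bound {σ K : Type} [CommRing K] (w : σ → ℤ) (g : MvPolynomial σ K) :
    ∃ D : ℕ, ∀ n : ℤ, (D : ℤ) < n → weightedHomogeneousComponent w n g = 0 := by
  classical
  refine ⟨∑ e ∈ g.support, (Finsupp.weight w e).natAbs, fun n hn => ?_⟩
  ext e
  rw [coeff_weightedHomogeneousComponent, coeff_zero]
  by_cases he : Finsupp.weight w e = n
  · rw [if_pos he]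
    by_contra hne
    have h1 : (Finsupp.weight w e).natAbs ≤ ∑ e ∈ g.support, (Finsupp.weight w e).natAbs :=
      Finset.single_le_sum (f := fun e => (Finsupp.weight w e).natAbs) (fun _ _ => Nat.zero_le _)
        (mem_support_iff.mpr hne)
    rw [he] at h1
    omega
  · rw [if_neg he]

theorem weight_wC (d : VC →₀ ℕ) :
    Finsupp.weight wC d = ∑ i : Fin 4, (d (Sum.inr i) : ℤ) := by
  rw [Finsupp.weight_apply, Finsupp.sum_fintype _ _ (fun i => by simp), Fintype.sum_sum_type]
  simp [wC]

end Lgd_aux

open Lgd_aux

theorem tLgd : S_GpM → S_Lgd := by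
  classical
  intro _h K _ J L _hJ hL _hJL h
  obtain ⟨G, hG⟩ : ∃ G : Finset (CC K), Ideal.span (G : Set (CC K)) = L :=
    (IsNoetherian.noetherian L : L.FG)
  have hGL : ∀ g ∈ G, g ∈ L := fun g hg => hG ▸ Ideal.subset_span hg
  -- the number `N`
  have hN : ∃ N : ℕ, ∀ i : Fin 4, ∀ y ∈ L, (xC K 3 * X (Sum.inr i)) ^ N * y ∈ J := by
    have h1 : ∀ (i : Fin 4) (g : CC K), ∃ k : ℕ, g ∈ G → (xC K 3 * X (Sum.inr i)) ^ k * g ∈ J := by
      intro i g
      by_cases hg : g ∈ G
      · obtain ⟨k, hk⟩ := h i g (hGL g hg)
        exact ⟨k, fun _ => hk⟩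
      · exact ⟨0, fun h' => absurd h' hg⟩
    choose k hk using h1
    refine ⟨∑ i, ∑ g ∈ G, k i g, fun i y hy => ?_⟩
    have h2 : L ≤ Submodule.comap (LinearMap.mulLeft (CC K)
        ((xC K 3 * X (Sum.inr i)) ^ (∑ i, ∑ g ∈ G, k i g))) J := by
      rw [← hG]
      refine Ideal.span_le.mpr fun g hg => ?_
      show (xC K 3 * X (Sum.inr i)) ^ (∑ i, ∑ g ∈ G, k i g) * g ∈ J
      have h3 : k i g ≤ ∑ i, ∑ g ∈ G, k i g :=
        (Finset.single_le_sum (f := fun g => k i g) (fun _ _ => Nat.zero_le _) hg).trans
          (Finset.single_le_sum (f := fun i => ∑ g ∈ G, k i g) (fun _ _ => Nat.zero_le _)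
            (Finset.mem_univ i))
      obtain ⟨r, hr⟩ := Nat.exists_eq_add_of_le h3
      rw [hr, pow_add, mul_comm ((xC K 3 * X (Sum.inr i)) ^ k i g), mul_assoc]
      exact J.mul_mem_left _ (hk i g hg)
    exact h2 hy
  obtain ⟨N, hN⟩ := hN
  -- the number `D`
  have hD : ∃ D : ℕ, ∀ g ∈ G, ∀ n : ℤ, (D : ℤ) < n → weightedHomogeneousComponent wC n g = 0 := by
    choose D hD using bound (K := K) wC
    refine ⟨∑ g ∈ G, D g, fun g hg n hn => hD g n (lt_of_le_of_lt ?_ hn)⟩
    exact_mod_cast Finset.single_le_sum (f := fun g => D g) (fun _ _ => Nat.zero_le _) hg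
  obtain ⟨D, hD⟩ := hD
  refine ⟨D + 4 * N, N, fun m hm y hy hym => ?_⟩
  have key : ∀ y ∈ L, ∀ a : CC K, xC K 3 ^ N * weightedHomogeneousComponent wC m (a * y) ∈ J := by
    intro y hy
    rw [← hG] at hy
    induction hy using Submodule.span_induction with
    | zero =>
      intro a
      rw [mul_zero, map_zero, mul_zero]
      exact J.zero_mem
    | add y z _ _ h1 h2 =>
      intro a
      rw [mul_add, map_add, mul_add]
      exact J.add_mem (h1 a) (h2 a)
    | smul b y _ h1 =>
      intro a
      rw [smul_eq_mul, ← mul_assoc]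
      exact h1 (a * b)
    | mem g hg =>
      intro a
      induction a using MvPolynomial.induction_on' with
      | add p q hp hq =>
        rw [add_mul, map_add, mul_add]
        exact J.add_mem hp hq
      | monomial d c =>
        rw [comp_mono]
        by_cases h1 : (D : ℤ) < m - Finsupp.weight wC d
        · rw [hD g hg _ h1, mul_zero, mul_zero]
          exact J.zero_mem
        · have h2 : ∃ i : Fin 4, N ≤ d (Sum.inr i) := by
            by_contra hcon
            push Not at hcon
            rw [weight_wC, Fin.sum_univ_four] at h1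
            have := hcon 0
            have := hcon 1
            have := hcon 2
            have := hcon 3
            omega
          obtain ⟨i, hi⟩ := h2
          have h3 : (monomial d c : CC K) = monomial (d - Finsupp.single (Sum.inr i) N) c *
              X (Sum.inr i) ^ N := by
            rw [X_pow_eq_monomial, monomial_mul, mul_one, tsub_add_cancel_of_le
              (Finsupp.single_le_iff.mpr hi)]
          have h4 := hN i _ (hL g (hGL g hg) (m - Finsupp.weight wC d))
          have h5 : xC K 3 ^ N * (monomial d c *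
              weightedHomogeneousComponent wC (m - Finsupp.weight wC d) g) =
              monomial (d - Finsupp.single (Sum.inr i) N) c * ((xC K 3 * X (Sum.inr i)) ^ N *
                weightedHomogeneousComponent wC (m - Finsupp.weight wC d) g) := by
            rw [h3, mul_pow]
            ring
          rw [h5]
          exact J.mul_mem_left _ h4
  have h6 := key y hy 1
  rw [one_mul] at h6
  rwa [hym.weightedHomogeneousComponent_same] at h6

end Pool.Agent.QV
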