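import Pool.Agent.Lib.MP_b53bfe_ag.Q.SpecV

/-!
# MP_b53bfe_ag, package Q: regularity from the lowest component (Low)
-/

set_option autoImplicit false

noncomputable section

namespace Pool.Agent.QV

open Matrix
open MvPolynomial
open Pool.Agent.FY (Res)

namespace Low_aux

theorem comp_mul {σ K : Type} [Field K] (w : σ → ℤ) (p q : MvPolynomial σ K) (m d : ℤ)
    (hq : IsWeightedHomogeneous w q d) :
    weightedHomogeneousComponent w (m + d) (p * q) = weightedHomogeneousComponent w m p * q := by
  let _ := weightedGradedAlgebra K w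
  have h := DirectSum.coe_decompose_mul_add_of_right_mem (weightedHomogeneousSubmodule K w)
    (a := p) (b := q) (i := m) (j := d) hq
  rw [← weightedDecomposition.decompose'_apply K w, ← weightedDecomposition.decompose'_apply K w]
  exact h

/-- the statement for a sum of homogeneous elements of distinct weights -/
theorem key {σ K : Type} [Field K] (w : σ → ℤ) (J : Ideal (MvPolynomial σ K))
    (z a₀ a₁ : MvPolynomial σ K) (e e' : ℤ) (hJ : HomI w J) (hz : IsWeightedHomogeneous w z e')
    (h0 : IsWeightedHomogeneous w a₀ e) (h1 : ∀ n ≤ e, weightedHomogeneousComponent w n a₁ = 0)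
    (hreg : RegZ z a₀ J) (s : Finset ℤ) :
    ∀ (c : ℤ) (y : ℤ → MvPolynomial σ K), (∀ n ∈ s, IsWeightedHomogeneous w (y n) (n + c)) →
      (a₀ + a₁) * ∑ n ∈ s, y n ∈ J → ∃ k : ℕ, z ^ k * ∑ n ∈ s, y n ∈ J := by
  classical
  induction s using Finset.induction_on_min with
  | empty =>
    intro c y _ _
    exact ⟨0, by simp⟩
  | insert n₀ s hs ih =>
    intro c y hy hmem
    have hn : n₀ ∉ s := fun h => lt_irrefl _ (hs n₀ h)
    have hle : ∀ n ∈ insert n₀ s, n₀ ≤ n := by
      intro n hn'
      rcases Finset.mem_insert.1 hn' with h | h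
      · exact h.ge
      · exact (hs n h).le
    -- the lowest component
    have hc := hJ _ hmem (e + (n₀ + c))
    have hlow : weightedHomogeneousComponent w (e + (n₀ + c)) ((a₀ + a₁) * ∑ n ∈ insert n₀ s, y n) =
        a₀ * y n₀ := by
      rw [Finset.mul_sum, map_sum]
      have hterm : ∀ n ∈ insert n₀ s, weightedHomogeneousComponent w (e + (n₀ + c)) ((a₀ + a₁) * y n) =
          if n = n₀ then a₀ * y n₀ else 0 := by
        intro n hn'
        have e1 : e + (n₀ + c) = (e + n₀ - n) + (n + c) := by ring
        rw [e1, comp_mul w _ _ _ _ (hy n hn'), map_add, h1 _ (by have := hle n hn'; linarith), add_zero]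
        by_cases h : n = n₀
        · subst h
          rw [if_pos rfl, add_sub_cancel_right, h0.weightedHomogeneousComponent_same]
        · rw [if_neg h, h0.weightedHomogeneousComponent_ne (e + n₀ - n) (by
            intro h'
            apply h
            linarith), zero_mul]
      rw [Finset.sum_congr rfl hterm, Finset.sum_ite_eq' _ _ _, if_pos (Finset.mem_insert_self _ _)]
    rw [hlow] at hc
    obtain ⟨k, hk⟩ := hreg _ hc
    obtain ⟨l, hl⟩ := ih (c + k * e') (fun n => z ^ k * y n) (by
      intro n hn'
      have h2 := (hz.pow k).mul (hy n (Finset.mem_insert_of_mem hn'))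
      have e2 : k • e' + (n + c) = n + (c + k * e') := by
        rw [nsmul_eq_mul]
        ring
      rw [e2] at h2
      exact h2) (by
      rw [← Finset.mul_sum]
      rw [Finset.sum_insert hn] at hmem
      have e3 : (a₀ + a₁) * (z ^ k * ∑ n ∈ s, y n) =
          z ^ k * ((a₀ + a₁) * (y n₀ + ∑ n ∈ s, y n)) - (a₀ + a₁) * (z ^ k * y n₀) := by ring
      rw [e3]
      exact J.sub_mem (J.mul_mem_left _ hmem) (J.mul_mem_left _ hk))
    refine ⟨l + k, ?_⟩
    rw [← Finset.mul_sum] at hl
    rw [Finset.sum_insert hn]
    have e4 : z ^ (l + k) * (y n₀ + ∑ n ∈ s, y n) =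
        z ^ l * (z ^ k * y n₀) + z ^ l * (z ^ k * ∑ n ∈ s, y n) := by ring
    rw [e4]
    exact J.add_mem (J.mul_mem_left _ hk) hl

end Low_aux

open Low_aux in
/-- regularity from the lowest component -/
theorem tLow : S_Low := by
  intro σ K _ w J z a₀ a₁ e e' hJ hz h0 h1 hreg x hx
  have hfin := weightedHomogeneousComponent_finsupp (w := w) x
  have hsum := sum_weightedHomogeneousComponent w x
  rw [finsum_eq_sum _ hfin] at hsum
  have h := key w J z a₀ a₁ e e' hJ hz h0 h1 hreg (Set.Finite.toFinset hfin) 0
    (fun n => weightedHomogeneousComponent w n x) (by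
      intro n _
      rw [add_zero]
      exact weightedHomogeneousComponent_isWeightedHomogeneous n x)
  rw [hsum] at h
  exact h hx

end Pool.Agent.QV
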