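import Pool.Agent.Lib.MP_b53bfe_ag.Q.SpecL

/-!
# `S_LvU`: regularity and one variable
-/

set_option autoImplicit false

noncomputable section

namespace Pool.Agent.QV

open Matrix
open MvPolynomial
open Pool.Agent.FY (Res)

namespace LvU_aux

/-! ## Polynomials in one variable -/

section poly

variable {A : Type} [CommRing A] {α β z c : A} {N : ℕ}

/-- the coefficients of positive degree of the product of `α X + β` and `x` are in `J` -/
theorem desc (hz : z ^ N = α * c) (J : Ideal A) (x : Polynomial A)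
    (hx : ∀ n, ((Polynomial.C α * Polynomial.X + Polynomial.C β) * x).coeff (n + 1) ∈ J) :
    ∃ k, ∀ n, z ^ k * x.coeff n ∈ J := by
  have h1 : ∀ n, α * x.coeff n + β * x.coeff (n + 1) ∈ J := fun n => by
    have h2 := hx n
    rw [add_mul, Polynomial.coeff_add, mul_assoc, Polynomial.coeff_C_mul, Polynomial.coeff_X_mul,
      Polynomial.coeff_C_mul] at h2
    exact h2
  have h3 : ∀ m n, x.natDegree + 1 ≤ n + m → z ^ (N * m) * x.coeff n ∈ J := by
    intro m
    induction m with
    | zero =>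
      intro n hn
      rw [Polynomial.coeff_eq_zero_of_natDegree_lt (by omega), mul_zero]
      exact J.zero_mem
    | succ m ih =>
      intro n hn
      have h4 := ih (n + 1) (by omega)
      have h5 : z ^ (N * (m + 1)) * x.coeff n =
          z ^ (N * m) * c * (α * x.coeff n + β * x.coeff (n + 1)) - c * β * (z ^ (N * m) * x.coeff (n + 1)) := by
        rw [mul_add, mul_one, pow_add, hz]
        ring
      rw [h5]
      exact J.sub_mem (J.mul_mem_left _ (h1 n)) (J.mul_mem_left _ h4)
  exact ⟨N * (x.natDegree + 1), fun n => h3 _ n (by omega)⟩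

theorem part1 (hz : z ^ N = α * c) (J : Ideal A) :
    RegZ (Polynomial.C z) (Polynomial.C α * Polynomial.X + Polynomial.C β) (J.map Polynomial.C) := by
  intro x hx
  rw [Ideal.mem_map_C_iff] at hx
  obtain ⟨k, hk⟩ := desc hz J x (fun n => hx (n + 1))
  refine ⟨k, Ideal.mem_map_C_iff.2 fun n => ?_⟩
  rw [← Polynomial.C_pow, Polynomial.coeff_C_mul]
  exact hk n

/-- a constant in the ideal generated by `α X + β` is killed by a power of `z` -/
theorem const (hz : z ^ N = α * c) (r : A)
    (hr : Polynomial.C r ∈ Ideal.span {Polynomial.C α * Polynomial.X + Polynomial.C β}) : ∃ k, z ^ k * r = 0 := by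
  obtain ⟨w, hw⟩ := Ideal.mem_span_singleton'.1 hr
  rw [mul_comm] at hw
  obtain ⟨k, hk⟩ := desc (β := β) hz ⊥ w (fun n => by
    rw [hw, Polynomial.coeff_C_succ]
    exact Submodule.zero_mem _)
  refine ⟨k, ?_⟩
  have h1 : r = β * w.coeff 0 := by
    have h2 := congrArg (fun p => Polynomial.coeff p 0) hw
    simp only [add_mul, Polynomial.coeff_add, mul_assoc, Polynomial.coeff_C_zero,
      Polynomial.mul_coeff_zero, Polynomial.coeff_X_zero, mul_zero, zero_mul, zero_add] at h2
    exact h2.symm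
  have h3 : z ^ k * w.coeff 0 = 0 := by simpa using hk 0
  rw [h1, mul_left_comm, h3, mul_zero]

/-- `α ^ d y (- β / α)` -/
def Hd (α β : A) (d : ℕ) (y : Polynomial A) : A := ∑ n ∈ Finset.range (d + 1), y.coeff n * (α ^ (d - n) * (-β) ^ n)

theorem Hd_mem (J : Ideal A) (d : ℕ) (y : Polynomial A) (hy : ∀ n, y.coeff n ∈ J) : Hd α β d y ∈ J :=
  Submodule.sum_mem _ fun n _ => J.mul_mem_right _ (hy n)

theorem Hd_C_mul (d : ℕ) (b : A) (y : Polynomial A) : Hd α β d (Polynomial.C b * y) = b * Hd α β d y := by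
  unfold Hd
  rw [Finset.mul_sum]
  exact Finset.sum_congr rfl fun n _ => by rw [Polynomial.coeff_C_mul, mul_assoc]

theorem Hd_congr (d : ℕ) (y : Polynomial A) (hy : y.natDegree ≤ d) :
    Polynomial.C (α ^ d) * y - Polynomial.C (Hd α β d y) ∈
      Ideal.span {Polynomial.C α * Polynomial.X + Polynomial.C β} := by
  have h1 : Polynomial.C (α ^ d) * y - Polynomial.C (Hd α β d y) = ∑ n ∈ Finset.range (d + 1),
      Polynomial.C (y.coeff n * α ^ (d - n)) * ((Polynomial.C α * Polynomial.X) ^ n - (Polynomial.C (-β)) ^ n) := by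
    have hy1 := y.as_sum_range_C_mul_X_pow' (Nat.lt_succ_of_le hy)
    have hy2 : Polynomial.C (α ^ d) * y =
        ∑ n ∈ Finset.range (d + 1), Polynomial.C (α ^ d) * (Polynomial.C (y.coeff n) * Polynomial.X ^ n) := by
      rw [← Finset.mul_sum]
      exact congrArg (fun t => Polynomial.C (α ^ d) * t) hy1
    rw [hy2]
    unfold Hd
    rw [map_sum, ← Finset.sum_sub_distrib]
    refine Finset.sum_congr rfl fun n hn => ?_
    have h2 : n ≤ d := Nat.lt_succ_iff.1 (Finset.mem_range.1 hn)
    have h3 : α ^ d = α ^ (d - n) * α ^ n := by rw [← pow_add, Nat.sub_add_cancel h2]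
    rw [h3, mul_pow]
    simp only [Polynomial.C_mul, Polynomial.C_pow]
    ring
  rw [h1]
  refine Submodule.sum_mem _ fun n _ => Ideal.mul_mem_left _ _ ?_
  rw [Ideal.mem_span_singleton]
  have h4 : Polynomial.C α * Polynomial.X + Polynomial.C β = Polynomial.C α * Polynomial.X - Polynomial.C (-β) := by
    rw [Polynomial.C_neg, sub_neg_eq_add]
  rw [h4]
  exact sub_dvd_pow_sub_pow _ _ n

theorem part2 (hz : z ^ N = α * c) (J : Ideal A) (b : A)
    (hb : RegZ (Polynomial.C z) (Polynomial.C b) (J.map Polynomial.C)) :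
    RegZ (Polynomial.C z) (Polynomial.C b)
      (J.map Polynomial.C ⊔ Ideal.span {Polynomial.C α * Polynomial.X + Polynomial.C β}) := by
  intro x hx
  obtain ⟨g, hg, w, hw, hgw⟩ := Submodule.mem_sup.1 hx
  have hg' := Ideal.mem_map_C_iff.1 hg
  obtain ⟨d, hdx, hdg⟩ : ∃ d, x.natDegree ≤ d ∧ g.natDegree ≤ d :=
    ⟨max x.natDegree g.natDegree, le_max_left _ _, le_max_right _ _⟩
  have h1 := Hd_congr (α := α) (β := β) d x hdx
  have h2 := Hd_congr (α := α) (β := β) d g hdg
  have h3 : Polynomial.C (b * Hd α β d x - Hd α β d g) ∈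
      Ideal.span {Polynomial.C α * Polynomial.X + Polynomial.C β} := by
    have h4 : Polynomial.C (b * Hd α β d x - Hd α β d g) =
        Polynomial.C (α ^ d) * w + (Polynomial.C (α ^ d) * g - Polynomial.C (Hd α β d g)) -
          Polynomial.C b * (Polynomial.C (α ^ d) * x - Polynomial.C (Hd α β d x)) := by
      rw [Polynomial.C_sub, Polynomial.C_mul]
      linear_combination (-(Polynomial.C (α ^ d))) * hgw
    rw [h4]
    exact Submodule.sub_mem _ (Submodule.add_mem _ (Ideal.mul_mem_left _ _ hw) h2) (Ideal.mul_mem_left _ _ h1)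
  obtain ⟨k, hk⟩ := const hz _ h3
  have h5 : Polynomial.C b * Polynomial.C (z ^ k * Hd α β d x) ∈ J.map Polynomial.C := by
    have h6 : b * (z ^ k * Hd α β d x) = z ^ k * Hd α β d g := by
      linear_combination hk
    rw [← Polynomial.C_mul, h6]
    exact Ideal.mem_map_of_mem _ (J.mul_mem_left _ (Hd_mem J d g hg'))
  obtain ⟨l, hl⟩ := hb _ h5
  have h7 : Polynomial.C z ^ (l + k) * (Polynomial.C (α ^ d) * x) ∈
      J.map Polynomial.C ⊔ Ideal.span {Polynomial.C α * Polynomial.X + Polynomial.C β} := by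
    have h8 : Polynomial.C z ^ (l + k) * (Polynomial.C (α ^ d) * x) =
        Polynomial.C z ^ l * Polynomial.C (z ^ k * Hd α β d x) +
          Polynomial.C z ^ (l + k) * (Polynomial.C (α ^ d) * x - Polynomial.C (Hd α β d x)) := by
      simp only [Polynomial.C_mul, Polynomial.C_pow, pow_add]
      ring
    rw [h8]
    exact Submodule.add_mem _ (Ideal.mem_sup_left hl) (Ideal.mem_sup_right (Ideal.mul_mem_left _ _ h1))
  refine ⟨l + k + N * d, ?_⟩
  have h9 : Polynomial.C z ^ (l + k + N * d) * x =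
      Polynomial.C (c ^ d) * (Polynomial.C z ^ (l + k) * (Polynomial.C (α ^ d) * x)) := by
    have h10 : Polynomial.C z ^ (N * d) = Polynomial.C (c ^ d) * Polynomial.C (α ^ d) := by
      rw [← Polynomial.C_pow, pow_mul, hz, mul_pow, mul_comm, Polynomial.C_mul]
    rw [pow_add, h10]
    ring
  rw [h9]
  exact Ideal.mul_mem_left _ _ h7

end poly

/-! ## Transport -/

theorem regZ_equiv {R S : Type} [CommRing R] [CommRing S] (Θ : R ≃+* S) (z a : R) (J : Ideal R) :
    RegZ (Θ z) (Θ a) (J.map Θ) ↔ RegZ z a J := by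
  constructor
  · intro h x hx
    obtain ⟨k, hk⟩ := h (Θ x) (by
      rw [← map_mul]
      exact Ideal.apply_mem_of_equiv_iff.2 hx)
    refine ⟨k, ?_⟩
    rw [← map_pow, ← map_mul] at hk
    exact Ideal.apply_mem_of_equiv_iff.1 hk
  · intro h y hy
    obtain ⟨x, rfl⟩ := Θ.surjective y
    rw [← map_mul] at hy
    obtain ⟨k, hk⟩ := h x (Ideal.apply_mem_of_equiv_iff.1 hy)
    refine ⟨k, ?_⟩
    rw [← map_pow, ← map_mul]
    exact Ideal.apply_mem_of_equiv_iff.2 hk

open Classical in
/-- polynomials in `X v` with coefficients in the polynomials without `X v` -/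
def Th (σ K : Type) [Field K] (v : σ) : MvPolynomial σ K ≃ₐ[K] Polynomial (MvPolynomial {j : σ // j ≠ v} K) :=
  (renameEquiv K (Equiv.optionSubtypeNe v).symm).trans (optionEquivLeft K {j : σ // j ≠ v})

theorem Th_v (σ K : Type) [Field K] (v : σ) : Th σ K v (X v) = Polynomial.X := by
  classical
  unfold Th
  rw [AlgEquiv.trans_apply, renameEquiv_apply, rename_X, Equiv.optionSubtypeNe_symm_self, optionEquivLeft_X_none]

theorem Th_ne (σ K : Type) [Field K] (v j : σ) (hj : j ≠ v) : Th σ K v (X j) = Polynomial.C (X ⟨j, hj⟩) := by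
  classical
  unfold Th
  rw [AlgEquiv.trans_apply, renameEquiv_apply, rename_X, Equiv.optionSubtypeNe_symm_of_ne hj, optionEquivLeft_X_some]

theorem Th_sup (σ K : Type) [Field K] (v : σ) (p : MvPolynomial σ K) (hp : p ∈ supported K ({v}ᶜ : Set σ)) :
    ∃ p', Th σ K v p = Polynomial.C p' := by
  have h1 : supported K ({v}ᶜ : Set σ) ≤
      ((Polynomial.CAlgHom (R := K) (A := MvPolynomial {j : σ // j ≠ v} K)).range).comap (Th σ K v).toAlgHom := by
    unfold supported
    refine Algebra.adjoin_le ?_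
    rintro _ ⟨j, hj, rfl⟩
    exact ⟨X ⟨j, hj⟩, (Th_ne σ K v j hj).symm⟩
  obtain ⟨p', hp'⟩ := h1 hp
  exact ⟨p', hp'.symm⟩

end LvU_aux

open LvU_aux in
theorem tLvU : S_LvU := by
  intro σ K _ v G α β z c N hG hα hβ hz hc hN
  obtain ⟨α', hα'⟩ := Th_sup σ K v α hα
  obtain ⟨β', hβ'⟩ := Th_sup σ K v β hβ
  obtain ⟨z', hz'⟩ := Th_sup σ K v z hz
  obtain ⟨c', hc'⟩ := Th_sup σ K v c hc
  have hN' : z' ^ N = α' * c' := by
    apply Polynomial.C_injective
    rw [Polynomial.C_pow, Polynomial.C_mul, ← hα', ← hz', ← hc', ← map_pow, ← map_mul, hN]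
  have hJ : (Ideal.span G).map (Th σ K v).toRingEquiv =
      (Ideal.span {g' | ∃ g ∈ G, Th σ K v g = Polynomial.C g'}).map Polynomial.C := by
    rw [Ideal.map_span, Ideal.map_span]
    congr 1
    ext y
    constructor
    · rintro ⟨g, hg, rfl⟩
      obtain ⟨g', hg'⟩ := Th_sup σ K v g (hG g hg)
      exact ⟨g', ⟨g, hg, hg'⟩, hg'.symm⟩
    · rintro ⟨g', ⟨g, hg, hg'⟩, rfl⟩
      exact ⟨g, hg, hg'⟩
  have ha : (Th σ K v).toRingEquiv (α * X v + β) = Polynomial.C α' * Polynomial.X + Polynomial.C β' := by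
    change Th σ K v (α * X v + β) = _
    rw [map_add, map_mul, Th_v, hα', hβ']
  have hz2 : (Th σ K v).toRingEquiv z = Polynomial.C z' := hz'
  constructor
  · rw [← regZ_equiv (Th σ K v).toRingEquiv, hJ, ha, hz2]
    exact part1 hN' _
  · intro b hb hr
    obtain ⟨b', hb'⟩ := Th_sup σ K v b hb
    have hb2 : (Th σ K v).toRingEquiv b = Polynomial.C b' := hb'
    rw [← regZ_equiv (Th σ K v).toRingEquiv, hJ, hz2, hb2] at hr
    have hsp : (Ideal.span {α * X v + β}).map (Th σ K v).toRingEquiv =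
        Ideal.span {Polynomial.C α' * Polynomial.X + Polynomial.C β'} := by
      rw [Ideal.map_span, Set.image_singleton]
      exact congrArg (fun t => Ideal.span {t}) ha
    rw [← regZ_equiv (Th σ K v).toRingEquiv, Ideal.map_sup, hJ, hsp, hz2, hb2]
    exact part2 hN' _ b' hr

end Pool.Agent.QV
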