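import Pool.Agent.Lib.MP_b53bfe_ag.Q.SpecQ

/-!
# Assembly of Parts E, G, H, second form (`S_Mnp`)
-/

set_option autoImplicit false

noncomputable section

namespace Pool.Agent.QV

open MvPolynomial
open Pool.Agent.FY (Res)

theorem tMnp : S_EEp → S_CalE → S_Un → S_GG → S_HH → S_Mnp := by
  intro hEE hCal hUn hGG hHH
  intro K _ _ a D κ 𝒪 hD hκ hA
  obtain ⟨C, hC, hW⟩ := hCal K a D
  have hA0 : a.A ≠ 0 := hA.A0
  have hc : 1 - 5 * a.c ^ 2 ≠ 0 := by
    intro h0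
    have h1 : (1 : K) = ((5 : ℤ) : K) * (a.c * a.c) := by
      have h2 := sub_eq_zero.1 h0
      push_cast
      rw [h2]
      ring
    have h3 : 𝒪.valuation (1 : K) = 𝒪.valuation (((5 : ℤ) : K) * (a.c * a.c)) := congrArg _ h1
    rw [map_one, map_mul, map_mul, hA.int 5 (by norm_num), one_mul] at h3
    exact absurd h3.symm (ne_of_lt (mul_lt_one' hA.c hA.c))
  obtain ⟨χ, h1, h2, h3⟩ := hEE K a κ (Lb a) (Ea a D) C (fun b hb => hUn K a b hb) hA0 hκ hW
  refine ⟨Ea a D, inferInstance, ?_, χ, h1, h2, ?_⟩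
  · exact Module.compHom (Ea a D) (algebraMap ℚ K)
  · rw [h3]
    intro h0
    exact hHH K a 𝒪 hA (hGG K a D κ C hC hD hκ hc h0)

end Pool.Agent.QV
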