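import Pool.Agent.Lib.MP_b53bfe_ag.Q.SpecL

/-! Phase 3, module No3: a form with algebraically independent coefficients has no line in `x₃ = 0`. -/

set_option autoImplicit false

noncomputable section

namespace Pool.Agent.QV

open Matrix MvPolynomial
open Pool.Agent.FY (Res)

theorem tNo3 : S_Trd → S_BsP → S_SpP → S_No3 := by
  intro hT hB hS K _ _ f hA V hV
  by_contra hcon
  push Not at hcon
  obtain ⟨p, q, e, d, hb⟩ := hB K V hV.1
  have he : e ∈ V := by rw [hb.sp]; exact Submodule.subset_span (Set.mem_insert _ _)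
  have hd : d ∈ V := by
    rw [hb.sp]; exact Submodule.subset_span (Set.mem_insert_of_mem _ (Set.mem_singleton _))
  have e3 := hcon e he
  have d3 := hcon d hd
  have hp : (3 : Fin 5) ≠ p := by
    rintro rfl
    exact one_ne_zero (hb.ep.symm.trans e3)
  have hq : (3 : Fin 5) ≠ q := by
    rintro rfl
    exact one_ne_zero (hb.dq.symm.trans d3)
  obtain ⟨h1, h2⟩ := hS K f V p q e d hA.1 hV.2 hb
  have h3 := ((hT K Mo5 _ _ (parP f p q e d) hA.2 h1).2 h2).1
  exact h3.ne_zero (Sum.inl (Sum.inl ⟨3, hp, hq⟩)) e3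

end Pool.Agent.QV
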