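import Pool.Agent.Lib.MP_b53bfe_ag.Q.SpecL

/-!
# MP_b53bfe_ag, package Q: coefficients of special monomials (PUc)
-/

set_option autoImplicit false

noncomputable section

namespace Pool.Agent.QV

open Matrix
open MvPolynomial
open Pool.Agent.FY (Res)

namespace PUc_aux

theorem coeff_pow {R : Type} [CommRing R] (a b : R) (k j : ℕ) :
    ((Polynomial.C a + Polynomial.X * Polynomial.C b) ^ k).coeff j = (k.choose j : R) * a ^ (k - j) * b ^ j := by
  rw [add_comm, add_pow, Polynomial.finsetSum_coeff]
  have h : ∀ m ∈ Finset.range (k + 1),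
      (((Polynomial.X * Polynomial.C b) ^ m * Polynomial.C a ^ (k - m) * ((k.choose m : ℕ) : Polynomial R)).coeff j) =
        if j = m then (k.choose j : R) * a ^ (k - j) * b ^ j else 0 := by
    intro m _
    have e : (Polynomial.X * Polynomial.C b) ^ m * Polynomial.C a ^ (k - m) * ((k.choose m : ℕ) : Polynomial R) =
        Polynomial.C (b ^ m * a ^ (k - m) * (k.choose m : R)) * Polynomial.X ^ m := by
      rw [mul_pow, map_mul, map_mul, map_pow, map_pow, map_natCast]
      ring
    rw [e, Polynomial.coeff_C_mul_X_pow]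
    by_cases hj : j = m
    · subst hj
      rw [if_pos rfl, if_pos rfl]
      ring
    · rw [if_neg hj, if_neg hj]
  rw [Finset.sum_congr rfl h, Finset.sum_ite_eq]
  by_cases hj : j ∈ Finset.range (k + 1)
  · rw [if_pos hj]
  · rw [if_neg hj]
    have hlt : k < j := by
      rw [Finset.mem_range] at hj
      omega
    rw [Nat.choose_eq_zero_of_lt hlt]
    simp

end PUc_aux

open PUc_aux in
/-- the coefficients of the special monomials -/
theorem tPUc : S_PUc := by
  intro i k j
  have h3 : uC ℚ 3 = 0 := by
    unfold uC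
    rw [Fin.insertNth_apply_same]
  have hi : uC ℚ (sc i) = X (Sum.inr i) := by
    unfold uC sc
    rw [Fin.insertNth_apply_succAbove]
  have hF : Fw (monomial (mS i k).1 (1 : ℚ)) j =
      ((k : ℕ).choose j : CC ℚ) * X (Sum.inl 3) ^ (5 - (k : ℕ)) * X (Sum.inl (sc i)) ^ ((k : ℕ) - j) * X (Sum.inr i) ^ j := by
    unfold Fw mS
    rw [← one_mul (1 : ℚ), ← monomial_mul, map_mul, aeval_monomial, aeval_monomial, map_one, one_mul, one_mul,
      Finsupp.prod_single_index (h := fun i k => (Polynomial.C (xC ℚ i) + Polynomial.X * Polynomial.C (uC ℚ i)) ^ k)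
        (pow_zero _),
      Finsupp.prod_single_index (h := fun i k => (Polynomial.C (xC ℚ i) + Polynomial.X * Polynomial.C (uC ℚ i)) ^ k)
        (pow_zero _), h3, hi, map_zero, mul_zero, add_zero,
      ← map_pow, Polynomial.coeff_C_mul, coeff_pow]
    unfold xC
    ring
  unfold pU
  rw [hF]
  simp only [map_mul, map_pow, rename_X, map_natCast]

end Pool.Agent.QV
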