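import Pool.Agent.Lib.MP_b53bfe_ag.Q.SpecV

/-!
# QXV: extension of a function as in `QF` to the locally finite modules (helper70)
-/

set_option autoImplicit false

noncomputable section

namespace Pool.Agent.QV

open Matrix MvPolynomial
open Pool.Agent.FY (Res)

namespace QXV_aux

section KS

variable {R : Type} [CommRing R] {S : Set R} {M N : Type} [AddCommGroup M] [Module R M] [AddCommGroup N] [Module R N]

theorem of_inj (h : KS S N) (i : M →ₗ[R] N) (hi : Function.Injective i) : KS S M := fun s hs m =>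
  hi (by rw [map_smul, h s hs, map_zero])

theorem of_surj (h : KS S M) (p : M →ₗ[R] N) (hp : Function.Surjective p) : KS S N := fun s hs m => by
  obtain ⟨x, rfl⟩ := hp m
  rw [← map_smul, h s hs, map_zero]

end KS

variable {P : Type} [CommRing P]

/-- `χ` is zero on the finite modules killed by a power of `a` -/
def Tz {S : Set P} {V : Type} [AddCommGroup V] (χ : AFS P S V) (a : P) : Prop :=
  ∀ (M : Type) [AddCommGroup M] [Module P M], Module.Finite P M → KS S M → (∃ k : ℕ, ∀ m : M, a ^ k • m = 0) →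
    χ.f M = 0

theorem Tz.mul {S : Set P} {V : Type} [AddCommGroup V] {χ : AFS P S V} {a b : P} (ha : Tz χ a) (hb : Tz χ b)
    (hP : IsNoetherianRing P) : Tz χ (a * b) := by
  intro M _ _ hM hk ⟨k, hab⟩
  have hN : IsNoetherian P M := isNoetherian_of_isNoetherianRing_of_finite P M
  set N : Submodule P M := LinearMap.range (LinearMap.lsmul P M (a ^ k)) with hNdef
  have h1 : χ.f M = χ.f N + χ.f (M ⧸ N) :=
    χ.add N M (M ⧸ N) N.subtype N.mkQ hM hk N.injective_subtype N.mkQ_surjective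
      (LinearMap.exact_subtype_mkQ N)
  have h2 : χ.f N = 0 := by
    refine hb N inferInstance (of_inj hk N.subtype N.injective_subtype) ⟨k, ?_⟩
    rintro ⟨x, y, rfl⟩
    apply Subtype.ext
    have h3 := hab y
    rw [mul_pow, mul_comm, mul_smul] at h3
    exact h3
  have h3 : χ.f (M ⧸ N) = 0 := by
    refine ha (M ⧸ N) inferInstance (of_surj hk N.mkQ N.mkQ_surjective) ⟨k, ?_⟩
    intro m
    obtain ⟨x, rfl⟩ := Submodule.Quotient.mk_surjective _ m
    rw [← Submodule.Quotient.mk_smul, Submodule.Quotient.mk_eq_zero]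
    exact ⟨x, rfl⟩
  rw [h1, h2, h3, add_zero]

theorem mem_qt {W : P} {N : Type} [AddCommGroup N] [Module P N] (x : N) :
    x ∈ (Ideal.span {W} • (⊤ : Submodule P N)) ↔ ∃ y : N, x = W • y := by
  rw [Submodule.ideal_span_singleton_smul, Submodule.mem_smul_pointwise_iff_exists]
  constructor
  · rintro ⟨y, _, rfl⟩
    exact ⟨y, rfl⟩
  · rintro ⟨y, rfl⟩
    exact ⟨y, trivial, rfl⟩

/-- a finite submodule without torsion, with torsion quotient -/
theorem tf_sub (hP : IsNoetherianRing P) (θ : P) (N : Type) [AddCommGroup N] [Module P N] (hN : LFn θ N) :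
    ∃ N1 : Submodule P N, N1.FG ∧ (∀ n : N, ∃ k : ℕ, θ ^ k • n ∈ N1) ∧
      ∀ x ∈ N1, (∃ k : ℕ, θ ^ k • x = 0) → x = 0 := by
  obtain ⟨N0, hfg, ht⟩ := hN
  have hF : Module.Finite P N0 := Module.Finite.iff_fg.mpr hfg
  have hN0 : IsNoetherian P N0 := isNoetherian_of_isNoetherianRing_of_finite P N0
  let T : ℕ →o Submodule P N0 :=
    { toFun := fun k => LinearMap.ker (LinearMap.lsmul P N0 (θ ^ k))
      monotone' := by
        intro k l hkl x hx
        rw [LinearMap.mem_ker] at hx ⊢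
        have hx' : θ ^ k • x = 0 := hx
        show θ ^ l • x = 0
        rw [← Nat.sub_add_cancel hkl, pow_add, mul_smul, hx', smul_zero] }
  obtain ⟨k, hk⟩ := monotone_stabilizes_iff_noetherian.mpr hN0 T
  have key : ∀ x : N, x ∈ N0 → (∃ m : ℕ, θ ^ m • x = 0) → θ ^ k • x = 0 := by
    rintro x hx ⟨m, hm⟩
    have h1 : (⟨x, hx⟩ : N0) ∈ T (k + m) := by
      show _ ∈ LinearMap.ker _
      rw [LinearMap.mem_ker]
      apply Subtype.ext
      show θ ^ (k + m) • x = 0
      rw [pow_add, mul_smul, hm, smul_zero]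
    rw [← hk (k + m) (Nat.le_add_right k m)] at h1
    have h2 : (⟨x, hx⟩ : N0) ∈ LinearMap.ker (LinearMap.lsmul P N0 (θ ^ k)) := h1
    rw [LinearMap.mem_ker] at h2
    exact congrArg Subtype.val h2
  refine ⟨N0.map (LinearMap.lsmul P N (θ ^ k)), hfg.map _, ?_, ?_⟩
  · intro n
    obtain ⟨m, hm⟩ := ht n
    refine ⟨k + m, ?_⟩
    rw [pow_add, mul_smul]
    exact Submodule.mem_map_of_mem (f := LinearMap.lsmul P N (θ ^ k)) hm
  · rintro x ⟨y, hy, rfl⟩ ⟨m, hm⟩
    refine key y hy ⟨m + k, ?_⟩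
    rw [pow_add, mul_smul]
    exact hm

end QXV_aux

open QXV_aux in
theorem tQXV : S_LtV → S_TsV → S_QXV := by
  intro hLt hTs K _ f E _ χ hQ
  have hP : IsNoetherianRing (Gr.Pol K) := inferInstance
  have hz : ∀ i : Fin 3, Tz χ (X (i, 3) : Gr.Pol K) := fun i M _ _ hM hk ⟨k, h⟩ => hQ.tors M hM hk ⟨i, k, h⟩
  have hth : Tz χ (thV K) := ((hz 0).mul (hz 1) hP).mul (hz 2) hP
  obtain ⟨Φ, hΦ⟩ := hLt (Gr.Pol K) (Set.range (Gr.form f)) (thV K) E χ hP hth
  refine ⟨Φ, ?_, hΦ⟩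
  intro l N _ _ hN hkill hreg
  obtain ⟨N1, hfg, ht, htf⟩ := tf_sub hP (thV K) N hN
  have hF : Module.Finite (Gr.Pol K) N1 := Module.Finite.iff_fg.mpr hfg
  have hR : Reg (Gr.form f l) N1 := by
    intro x hx
    apply Subtype.ext
    exact htf x x.2 (hreg x (congrArg Subtype.val hx))
  have h0 : χ.f (Qt (Gr.form f l) N1) = 0 :=
    hQ.perf l N1 hF (fun i hi m => Subtype.ext (hkill i hi m)) hR
  have hKS : ∀ (L : Type) [AddCommGroup L] [Module (Gr.Pol K) L], (∀ i, i ≠ l → ∀ n : L, Gr.form f i • n = 0) →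
      KS (Set.range (Gr.form f)) (Qt (Gr.form f l) L) := by
    rintro L _ _ hL s ⟨i, rfl⟩ m
    obtain ⟨x, rfl⟩ := Submodule.Quotient.mk_surjective _ m
    rw [← Submodule.Quotient.mk_smul]
    by_cases hi : i = l
    · subst hi
      rw [Submodule.Quotient.mk_eq_zero, mem_qt]
      exact ⟨x, rfl⟩
    · rw [hL i hi x]
      rfl
  have hk1 := hKS N1 (fun i hi m => Subtype.ext (hkill i hi m))
  have hk2 := hKS N hkill
  have h1 : Φ.f (Qt (Gr.form f l) N1) = 0 := by
    rw [hΦ _ inferInstance hk1, h0]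
  have hle : (Ideal.span {Gr.form f l} • (⊤ : Submodule (Gr.Pol K) N1)) ≤
      (Ideal.span {Gr.form f l} • (⊤ : Submodule (Gr.Pol K) N)).comap N1.subtype := by
    intro x hx
    obtain ⟨y, rfl⟩ := (mem_qt x).mp hx
    rw [Submodule.mem_comap, mem_qt]
    exact ⟨y, rfl⟩
  have hLN : LFn (thV K) (Qt (Gr.form f l) N) := by
    obtain ⟨N0, hfg0, ht0⟩ := hN
    refine ⟨N0.map (Submodule.mkQ _), hfg0.map _, ?_⟩
    intro m
    obtain ⟨x, rfl⟩ := Submodule.mkQ_surjective _ m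
    obtain ⟨k, hk⟩ := ht0 x
    exact ⟨k, by rw [← map_smul]; exact Submodule.mem_map_of_mem hk⟩
  have hL1 : LFn (thV K) (Qt (Gr.form f l) N1) :=
    ⟨⊤, Module.Finite.fg_top, fun m => ⟨0, trivial⟩⟩
  have hcmp := (hTs (Gr.Pol K) (Set.range (Gr.form f)) (thV K) E Φ hP).1 (Qt (Gr.form f l) N1) (Qt (Gr.form f l) N)
    (Submodule.mapQ _ _ N1.subtype hle) hL1 hLN hk1 hk2 ?_ ?_
  · rw [← hcmp, h1]
  · intro m hm
    obtain ⟨x, rfl⟩ := Submodule.Quotient.mk_surjective _ m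
    have hx : (x : N) ∈ (Ideal.span {Gr.form f l} • (⊤ : Submodule (Gr.Pol K) N)) := by
      rw [← Submodule.Quotient.mk_eq_zero]
      exact hm
    obtain ⟨y, hy⟩ := (mem_qt _).mp hx
    obtain ⟨k, hk⟩ := ht y
    refine ⟨k, ?_⟩
    rw [← Submodule.Quotient.mk_smul, Submodule.Quotient.mk_eq_zero, mem_qt]
    refine ⟨⟨thV K ^ k • y, hk⟩, Subtype.ext ?_⟩
    show thV K ^ k • (x : N) = Gr.form f l • (thV K ^ k • y)
    rw [hy, smul_comm]
  · intro n
    obtain ⟨x, rfl⟩ := Submodule.Quotient.mk_surjective _ n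
    obtain ⟨k, hk⟩ := ht x
    exact ⟨k, Submodule.Quotient.mk ⟨thV K ^ k • x, hk⟩, rfl⟩

end Pool.Agent.QV
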