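import Pool.Agent.Lib.MP_b53bfe_ag.Q.SpecL

/-!
# Regularity, induction on the number of variables `u` (S_RcI of SpecL)
-/

set_option autoImplicit false

noncomputable section

namespace Pool.Agent.QV

open Matrix
open MvPolynomial
open Pool.Agent.FY (Res)

namespace RcI_aux

section

variable {K : Type} [Field K]

/-- the ideal generated by the `F_j`, `j ∈ S`, and the `u_k`, `k ∈ U` -/
def JJ (f : MvPolynomial (Fin 5) K) (S : Finset ℕ) (U : Set (Fin 4)) : Ideal (CC K) :=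
  Ideal.span ({y | ∃ j ∈ S, y = Fw f j} ∪ {y | ∃ k ∈ U, y = X (Sum.inr k)})

theorem JJ_insertU (f : MvPolynomial (Fin 5) K) (S : Finset ℕ) (U : Set (Fin 4)) (k : Fin 4) :
    JJ f S U ⊔ Ideal.span {(X (Sum.inr k) : CC K)} = JJ f S (insert k U) := by
  rw [JJ, JJ, ← Ideal.span_union]
  refine congrArg _ (Set.ext fun y => ?_)
  constructor
  · rintro ((h | ⟨l, hl, rfl⟩) | h)
    · exact Or.inl h
    · exact Or.inr ⟨l, Or.inr hl, rfl⟩
    · exact Or.inr ⟨k, Or.inl rfl, h⟩
  · rintro (h | ⟨l, rfl | hl, rfl⟩)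
    · exact Or.inl (Or.inl h)
    · exact Or.inr rfl
    · exact Or.inl (Or.inr ⟨l, hl, rfl⟩)

theorem JJ_succ (f : MvPolynomial (Fin 5) K) (r : ℕ) (U : Set (Fin 4)) :
    JJ f (Finset.range r) U ⊔ Ideal.span {Fw f r} = JJ f (Finset.range (r + 1)) U := by
  rw [JJ, JJ, ← Ideal.span_union]
  refine congrArg _ (Set.ext fun y => ?_)
  constructor
  · rintro ((⟨j, hj, rfl⟩ | h) | h)
    · exact Or.inl ⟨j, Finset.mem_range.2 (by have := Finset.mem_range.1 hj; omega), rfl⟩
    · exact Or.inr h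
    · exact Or.inl ⟨r, Finset.mem_range.2 (by omega), h⟩
  · rintro (⟨j, hj, rfl⟩ | h)
    · rcases Nat.lt_succ_iff_lt_or_eq.1 (Finset.mem_range.1 hj) with h | rfl
      · exact Or.inl (Or.inl ⟨j, Finset.mem_range.2 h, rfl⟩)
      · exact Or.inr rfl
    · exact Or.inl (Or.inr h)

theorem JJ_empty (f : MvPolynomial (Fin 5) K) (S : Finset ℕ) : JJ f S ∅ = JC f S := by
  rw [JJ, JC]
  refine congrArg _ (Set.ext fun y => ?_)
  constructor
  · rintro (h | ⟨l, hl, _⟩)
    · exact h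
    · exact absurd hl (Set.notMem_empty l)
  · exact fun h => Or.inl h

theorem eval_zero_aeval (g : Fin 5 → Polynomial (CC K)) (f : MvPolynomial (Fin 5) K) :
    (aeval g f : Polynomial (CC K)).eval 0 = aeval (fun j => (g j).eval 0) f := by
  induction f using MvPolynomial.induction_on with
  | C a =>
    rw [MvPolynomial.algHom_C, MvPolynomial.algHom_C, Polynomial.algebraMap_apply, Polynomial.eval_C]
  | add p q hp hq => rw [map_add, map_add, Polynomial.eval_add, hp, hq]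
  | mul_X p i hp => rw [map_mul, map_mul, Polynomial.eval_mul, hp, aeval_X, aeval_X]

theorem Fw_zero (f : MvPolynomial (Fin 5) K) : Fw f 0 = rename Sum.inl f := by
  rw [Fw, Polynomial.coeff_zero_eq_eval_zero, eval_zero_aeval]
  have h : (fun j => (Polynomial.C (xC K j) + Polynomial.X * Polynomial.C (uC K j)).eval 0) = fun j => (X (Sum.inl j) : CC K) := by
    funext j
    simp [xC]
  rw [h]
  have e : (aeval fun j : Fin 5 => (X (Sum.inl j) : CC K)) = (rename Sum.inl : MvPolynomial (Fin 5) K →ₐ[K] CC K) :=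
    MvPolynomial.algHom_ext fun j => by rw [aeval_X, rename_X]
  rw [e]

theorem A0 (hMon : S_Mon) (f : MvPolynomial (Fin 5) K) (U : Set (Fin 4)) (k : Fin 4) (hk : k ∉ U) (x : CC K)
    (hx : X (Sum.inr k) * x ∈ JJ f (Finset.range 1) U) : x ∈ JJ f (Finset.range 1) U := by
  have hv : ∀ j : Fin 5, (Sum.inl j : VC) ≠ Sum.inr k := fun j => Sum.inl_ne_inr
  let I₀ : Ideal (MvPolynomial {u : VC // u ≠ Sum.inr k} K) :=
    Ideal.span ({rename (fun j => (⟨Sum.inl j, hv j⟩ : {u : VC // u ≠ Sum.inr k})) f} ∪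
      {y | ∃ (l : Fin 4) (h : (Sum.inr l : VC) ≠ Sum.inr k), l ∈ U ∧ y = X ⟨Sum.inr l, h⟩})
  have h1 := hMon K VC (Sum.inr k) I₀ 0 1 le_rfl
  have h2 : I₀.map (rename Subtype.val : MvPolynomial {u : VC // u ≠ Sum.inr k} K →ₐ[K] MvPolynomial VC K) =
      JJ f (Finset.range 1) U := by
    rw [Ideal.map_span, JJ]
    refine congrArg _ (Set.ext fun y => ?_)
    constructor
    · rintro ⟨y, (rfl | ⟨l, h, hl, rfl⟩), rfl⟩
      · refine Or.inl ⟨0, Finset.mem_range.2 (by omega), ?_⟩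
        rw [Fw_zero, rename_rename]
        rfl
      · exact Or.inr ⟨l, hl, by rw [rename_X]⟩
    · rintro (⟨j, hj, rfl⟩ | ⟨l, hl, rfl⟩)
      · have hj0 : j = 0 := by
          have := Finset.mem_range.1 hj
          omega
        subst hj0
        refine ⟨_, Or.inl rfl, ?_⟩
        rw [Fw_zero, rename_rename]
        rfl
      · have hlk : (Sum.inr l : VC) ≠ Sum.inr k := by
          intro h
          rw [Sum.inr.inj h] at hl
          exact hk hl
        exact ⟨_, Or.inr ⟨l, hlk, hl, rfl⟩, by rw [rename_X]⟩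
  rw [h2, pow_one, map_zero, add_zero] at h1
  exact h1 x hx

theorem pow_reg {R : Type} [CommRing R] {z u : R} {J : Ideal R} (h : RegZ z u J) (n : ℕ) :
    ∀ y : R, u ^ n * y ∈ J → ∃ m : ℕ, z ^ m * y ∈ J := by
  induction n with
  | zero => exact fun y hy => ⟨0, by simpa using hy⟩
  | succ n ih =>
    intro y hy
    have h1 : u * (u ^ n * y) ∈ J := by
      have e : u * (u ^ n * y) = u ^ (n + 1) * y := by ring
      rw [e]
      exact hy
    obtain ⟨m, hm⟩ := h _ h1
    have h2 : u ^ n * (z ^ m * y) ∈ J := by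
      have e : u ^ n * (z ^ m * y) = z ^ m * (u ^ n * y) := by ring
      rw [e]
      exact hm
    obtain ⟨m', hm'⟩ := ih _ h2
    exact ⟨m' + m, by rw [pow_add, mul_assoc]; exact hm'⟩

theorem from_prod {R : Type} [CommRing R] {z u a : R} {J : Ideal R} (h : RegZ z u J) (h' : RegZ (z * u) a J) : RegZ z a J := by
  intro y hy
  obtain ⟨n, hn⟩ := h' y hy
  have h2 : u ^ n * (z ^ n * y) ∈ J := by
    have e : u ^ n * (z ^ n * y) = (z * u) ^ n * y := by rw [mul_pow]; ring
    rw [e]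
    exact hn
  obtain ⟨m, hm⟩ := pow_reg h n _ h2
  exact ⟨m + n, by rw [pow_add, mul_assoc]; exact hm⟩

theorem ncard_le (U : Set (Fin 4)) : Uᶜ.ncard ≤ 4 := by
  have h := Set.ncard_le_ncard (Set.subset_univ Uᶜ) Set.finite_univ
  rw [Set.ncard_univ, Nat.card_eq_fintype_card, Fintype.card_fin] at h
  exact h

theorem ncard_insert (U : Set (Fin 4)) (k : Fin 4) (hk : k ∉ U) : (insert k U)ᶜ.ncard = Uᶜ.ncard - 1 := by
  have h : (insert k U)ᶜ = Uᶜ \ {k} := by
    ext x
    simp only [Set.mem_compl_iff, Set.mem_insert_iff, Set.mem_diff, Set.mem_singleton_iff]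
    tauto
  rw [h]
  exact Set.ncard_diff_singleton_of_mem hk

theorem main (hRgZ : S_RgZ) (hMon : S_Mon) (f : MvPolynomial (Fin 5) K)
    (H : ∀ (i : Fin 4) (U : Set (Fin 4)) (S : Finset ℕ) (r : ℕ), i ∉ U → r ≤ 5 → (∀ j ∈ S, j ≤ 5) → r ∉ S →
      RegZ (xC K 3 * X (Sum.inr i)) (Fw f r) (JJ f S U)) (r : ℕ) :
    (∀ (U : Set (Fin 4)) (k : Fin 4), k ∉ U → r + 1 ≤ Uᶜ.ncard →
      RegZ (xC K 3) (X (Sum.inr k)) (JJ f (Finset.range (r + 1)) U)) ∧
    ∀ U : Set (Fin 4), 1 ≤ r → r ≤ Uᶜ.ncard → RegZ (xC K 3) (Fw f r) (JJ f (Finset.range r) U) := by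
  induction r with
  | zero =>
    refine ⟨fun U k hk _ x hx => ⟨0, ?_⟩, fun U h => absurd h (by omega)⟩
    rw [pow_zero, one_mul]
    exact A0 hMon f U k hk x hx
  | succ r ih =>
    have hB : ∀ U : Set (Fin 4), r + 1 ≤ Uᶜ.ncard → RegZ (xC K 3) (Fw f (r + 1)) (JJ f (Finset.range (r + 1)) U) := by
      intro U hU
      have hU4 := ncard_le U
      obtain ⟨k, hk⟩ : (Uᶜ).Nonempty := Set.nonempty_of_ncard_ne_zero (by omega)
      refine from_prod (ih.1 U k hk hU) (H k U (Finset.range (r + 1)) (r + 1) hk (by omega) (fun j hj => ?_) (fun h => ?_))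
      · have := Finset.mem_range.1 hj
        omega
      · have := Finset.mem_range.1 h
        omega
    refine ⟨fun U k hk hU => ?_, fun U _ hU => hB U hU⟩
    have h1 := (hRgZ (CC K) (xC K 3)).1 (JJ f (Finset.range (r + 1)) U) (X (Sum.inr k)) (Fw f (r + 1))
      (ih.1 U k hk (by omega))
    rw [JJ_insertU, JJ_succ] at h1
    refine h1 (hB _ ?_)
    rw [ncard_insert U k hk]
    omega

end

end RcI_aux

open RcI_aux in
theorem tRcI : S_RgZ → S_Mon → S_GpM → S_Hfv → S_RcI := by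
  intro hRgZ hMon _ _ K _ f _ H
  have hm := main hRgZ hMon f H
  have he : ((∅ : Set (Fin 4))ᶜ).ncard = 4 := by
    rw [Set.compl_empty, Set.ncard_univ, Nat.card_eq_fintype_card, Fintype.card_fin]
  refine ⟨fun r hr1 hr4 => ?_, ?_, fun i => ?_⟩
  · have h := (hm r).2 ∅ hr1 (by omega)
    rw [JJ_empty] at h
    exact h
  · have h1 := (hm 3).1 ∅ 0 (Set.notMem_empty _) (by omega)
    have h2 := H 0 ∅ (Finset.range 4) 5 (Set.notMem_empty _) le_rfl
      (fun j hj => by have := Finset.mem_range.1 hj; omega) (by decide)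
    have h3 := from_prod h1 h2
    rw [JJ_empty] at h3
    exact h3
  · have h2 := H i ∅ {0, 1, 2, 3, 5} 4 (Set.notMem_empty _) (by omega) (by decide) (by decide)
    change RegZ _ _ (JJ f _ ∅) at h2
    rw [JJ_empty] at h2
    exact h2

end Pool.Agent.QV
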