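import Pool.Agent.Lib.MP_b53bfe_ag.Q.SpecV

/-!
# Disproof of Q1 of MP_b53bfe_ag for quintic threefolds, phase 3: regularity in `B`, first part
-/

set_option autoImplicit false

noncomputable section

namespace Pool.Agent.QV

open Matrix
open MvPolynomial
open Pool.Agent.FY (Res)

namespace Rg1_aux

variable (K : Type) [Field K]

/-- the retraction `t, t' ↦ 0` -/
def rtt : BC K →ₐ[K] BC K :=
  aeval (Sum.elim (fun c : VC => (X (Sum.inl c) : BC K)) ![X (Sum.inr 0), X (Sum.inr 1), 0, 0])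

lemma rtt_inl (c : VC) : rtt K (X (Sum.inl c)) = X (Sum.inl c) := by
  rw [rtt, aeval_X]
  rfl

lemma rtt_s : rtt K (sB K) = sB K := by
  rw [rtt, sB, aeval_X]
  rfl

lemma rtt_s' : rtt K (sB' K) = sB' K := by
  rw [rtt, sB', aeval_X]
  rfl

lemma rtt_t : rtt K (tB K) = 0 := by
  rw [rtt, tB, aeval_X]
  rfl

lemma rtt_t' : rtt K (tB' K) = 0 := by
  rw [rtt, tB', aeval_X]
  rfl

lemma rtt_iC (g : CC K) : rtt K (iC g) = iC g := by
  have h : (rtt K).comp (iC (K := K)) = iC := by
    apply MvPolynomial.algHom_ext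
    intro c
    rw [AlgHom.comp_apply, iC, rename_X, rtt_inl]
  exact DFunLike.congr_fun h g

lemma sub_mem (a : BC K) : a - rtt K a ∈ Ideal.span {tB K} ⊔ Ideal.span {tB' K} := by
  induction a using MvPolynomial.induction_on with
  | C c =>
    rw [MvPolynomial.algHom_C, MvPolynomial.algebraMap_eq, sub_self]
    exact Ideal.zero_mem _
  | add p q hp hq =>
    rw [map_add]
    have h : p + q - (rtt K p + rtt K q) = (p - rtt K p) + (q - rtt K q) := by ring
    rw [h]
    exact Ideal.add_mem _ hp hq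
  | mul_X p v hp =>
    rw [map_mul]
    have h : p * X v - rtt K p * rtt K (X v) = X v * (p - rtt K p) + rtt K p * (X v - rtt K (X v)) := by ring
    rw [h]
    refine Ideal.add_mem _ (Ideal.mul_mem_left _ _ hp) (Ideal.mul_mem_left _ _ ?_)
    rcases v with c | j
    · rw [rtt_inl, sub_self]
      exact Ideal.zero_mem _
    · fin_cases j
      · change sB K - rtt K (sB K) ∈ _
        rw [rtt_s, sub_self]
        exact Ideal.zero_mem _
      · change sB' K - rtt K (sB' K) ∈ _
        rw [rtt_s', sub_self]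
        exact Ideal.zero_mem _
      · change tB K - rtt K (tB K) ∈ _
        rw [rtt_t, sub_zero]
        exact Ideal.mem_sup_left (Ideal.mem_span_singleton_self _)
      · change tB' K - rtt K (tB' K) ∈ _
        rw [rtt_t', sub_zero]
        exact Ideal.mem_sup_right (Ideal.mem_span_singleton_self _)

lemma ker_eq : RingHom.ker (rtt K).toRingHom = Ideal.span {tB K} ⊔ Ideal.span {tB' K} := by
  apply le_antisymm
  · intro a ha
    have h := sub_mem K a
    have ha' : rtt K a = 0 := ha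
    rwa [ha', sub_zero] at h
  · rw [sup_le_iff, Ideal.span_singleton_le_iff_mem, Ideal.span_singleton_le_iff_mem]
    exact ⟨rtt_t K, rtt_t' K⟩

lemma idem (a : BC K) : rtt K (rtt K a) = rtt K a := by
  have h : (rtt K).comp (rtt K) = rtt K := by
    apply MvPolynomial.algHom_ext
    intro v
    rw [AlgHom.comp_apply]
    rcases v with c | j
    · rw [rtt_inl, rtt_inl]
    · fin_cases j
      · change rtt K (rtt K (sB K)) = rtt K (sB K)
        rw [rtt_s, rtt_s]
      · change rtt K (rtt K (sB' K)) = rtt K (sB' K)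
        rw [rtt_s', rtt_s']
      · change rtt K (rtt K (tB K)) = rtt K (tB K)
        rw [rtt_t, map_zero]
      · change rtt K (rtt K (tB' K)) = rtt K (tB' K)
        rw [rtt_t', map_zero]
  exact DFunLike.congr_fun h a

variable {K}

lemma JT_eq (f : MvPolynomial (Fin 5) K) (r : ℕ) :
    JT f r = RingHom.ker (rtt K).toRingHom ⊔ JB f (Finset.range r) := by
  rw [ker_eq, JT, sup_comm (Ideal.span {tB K} ⊔ Ideal.span {tB' K}), sup_assoc]

lemma JB_stable (f : MvPolynomial (Fin 5) K) (S : Finset ℕ) :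
    ∀ x ∈ JB f S, (rtt K).toRingHom x ∈ JB f S := by
  have h : JB f S ≤ (JB f S).comap (rtt K).toRingHom := by
    rw [JB, Ideal.span_le]
    rintro _ ⟨i, hi, rfl⟩
    have e : (rtt K).toRingHom (iC (Fw f i)) = iC (Fw f i) := rtt_iC K (Fw f i)
    rw [SetLike.mem_coe, Ideal.mem_comap, e]
    exact Ideal.subset_span ⟨i, hi, rfl⟩
  exact h

lemma rtt_th (hth : hV K (thV K) = iC (xC K 3) ^ 3 * sB K ^ 2 * sB' K) :
    (rtt K).toRingHom (hV K (thV K)) = hV K (thV K) := by
  have h : rtt K (iC (xC K 3) ^ 3 * sB K ^ 2 * sB' K) = iC (xC K 3) ^ 3 * sB K ^ 2 * sB' K := by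
    rw [map_mul, map_mul, map_pow, map_pow, rtt_iC, rtt_s, rtt_s']
  rw [hth]
  exact h

/-! ### Part two -/

variable (K) in
/-- the inclusion of `K[x, u]` in the polynomials without `t'` -/
def iC0 : CC K →ₐ[K] MvPolynomial {u : VB // u ≠ Sum.inr 3} K :=
  rename fun c => ⟨Sum.inl c, Sum.inl_ne_inr⟩

lemma val_iC0 (g : CC K) : rename Subtype.val (iC0 K g) = (iC g : BC K) := by
  rw [iC0, rename_rename]
  rfl

/-- `δ` without `t'` -/
def dB0 (f : MvPolynomial (Fin 5) K) : MvPolynomial {u : VB // u ≠ Sum.inr 3} K :=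
  X ⟨Sum.inr 0, fun h => absurd (Sum.inr.inj h) (by decide)⟩ * iC0 K (Fw f 4) +
    X ⟨Sum.inr 2, fun h => absurd (Sum.inr.inj h) (by decide)⟩ * iC0 K (Fw f 5)

lemma val_dB0 (f : MvPolynomial (Fin 5) K) : rename Subtype.val (dB0 f) = dB f := by
  rw [dB0, map_add, map_mul, map_mul, val_iC0, val_iC0, rename_X, rename_X]
  rfl

/-- the ideal without `t'` -/
def I0 (f : MvPolynomial (Fin 5) K) : Ideal (MvPolynomial {u : VB // u ≠ Sum.inr 3} K) :=
  Ideal.span {y | ∃ i ∈ Finset.range 4, y = iC0 K (Fw f i)} ⊔ Ideal.span {dB0 f}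

lemma map_I0 (f : MvPolynomial (Fin 5) K) :
    (I0 f).map (rename Subtype.val : MvPolynomial {u : VB // u ≠ Sum.inr 3} K →ₐ[K] MvPolynomial VB K) = JD f := by
  rw [I0, Ideal.map_sup, Ideal.map_span, Ideal.map_span, JD, JB, Set.image_singleton, val_dB0]
  have h : (rename Subtype.val : MvPolynomial {u : VB // u ≠ Sum.inr 3} K →ₐ[K] MvPolynomial VB K) ''
      {y | ∃ i ∈ Finset.range 4, y = iC0 K (Fw f i)} = {y | ∃ i ∈ Finset.range 4, y = iC (Fw f i)} := by
    ext y
    constructor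
    · rintro ⟨_, ⟨i, hi, rfl⟩, rfl⟩
      exact ⟨i, hi, val_iC0 _⟩
    · rintro ⟨i, hi, rfl⟩
      exact ⟨_, ⟨i, hi, rfl⟩, val_iC0 _⟩
  rw [h]

end Rg1_aux

open Rg1_aux

/-- regularity in `B`, first part -/
theorem tRg1 : S_RgZ → S_ExtV → S_Mon → S_Hfv → S_Rg1 := by
  intro hZ hE hM hH K _ f hf hRC
  obtain ⟨-, -, -, -, hth, -⟩ := hH K f hf
  refine ⟨fun r h1 h4 => ?_, fun y hy => ?_⟩
  · rw [JT_eq]
    obtain ⟨-, -, -, -, -, h6, -⟩ := hZ (BC K) (hV K (thV K))
    apply h6 (JB f (Finset.range r)) (iC (Fw f r)) (rtt K).toRingHom (idem K)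
    · exact rtt_th hth
    · exact JB_stable f _
    · have e : (rtt K).toRingHom (iC (Fw f r)) = iC (Fw f r) := rtt_iC K (Fw f r)
      rw [e, (hE K (JC f (Finset.range r))).2.2 f (Finset.range r)]
      exact (hE K (JC f (Finset.range r))).1 _ (hRC.r1 r h1 h4)
  · have key : ∀ g₀ : MvPolynomial {u : VB // u ≠ Sum.inr 3} K,
        y = X (Sum.inr 3) ^ 1 + rename Subtype.val g₀ → RegZ (hV K (thV K)) y (JD f) := by
      intro g₀ hg x hx
      have h := hM K VB (Sum.inr 3) (I0 f) g₀ 1 le_rfl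
      rw [map_I0, ← hg] at h
      exact ⟨0, by rw [pow_zero, one_mul]; exact h x hx⟩
    rcases hy with rfl | rfl
    · apply key (X ⟨Sum.inr 1, fun h => absurd (Sum.inr.inj h) (by decide)⟩ *
        X ⟨Sum.inr 2, fun h => absurd (Sum.inr.inj h) (by decide)⟩)
      rw [pow_one, map_mul, rename_X, rename_X]
      rfl
    · apply key 0
      rw [pow_one, map_zero, add_zero]
      rfl

end Pool.Agent.QV
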