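import Pool.Agent.Lib.MP_b53bfe_ag.Q.SpecV

/-!
# Regularity in `B`, second part
-/

set_option autoImplicit false

noncomputable section

namespace Pool.Agent.QV

open Matrix
open MvPolynomial
open Pool.Agent.FY (Res)

namespace Rg2_aux

variable {K : Type} [Field K]

/-- the substitution `X_v ↦ g` -/
def rt (v : VB) (g : BC K) : BC K →ₐ[K] BC K := by
  classical
  exact aeval (fun u => if u = v then g else X u)

lemma rt_v (v : VB) (g : BC K) : rt v g (X v) = g := by
  classical
  simp only [rt, aeval_X, if_pos]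

lemma rt_ne (v : VB) (g : BC K) (u : VB) (h : u ≠ v) : rt v g (X u) = X u := by
  classical
  simp only [rt, aeval_X, if_neg h]

lemma rt_iC (v : VB) (g : BC K) (hv : ∀ u, v ≠ Sum.inl u) (a : CC K) : rt v g (iC a) = iC a := by
  have h : (rt v g).comp iC = iC := by
    refine MvPolynomial.algHom_ext ?_
    intro u
    show rt v g (rename Sum.inl (X u)) = rename Sum.inl (X u)
    rw [rename_X]
    exact rt_ne v g _ (fun h => hv u h.symm)
  exact congrArg (fun φ : CC K →ₐ[K] BC K => φ a) h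

lemma rt_sub (v : VB) (g : BC K) (a : BC K) : a - rt v g a ∈ Ideal.span {X v - g} := by
  induction a using MvPolynomial.induction_on with
  | C c =>
    rw [MvPolynomial.algHom_C, MvPolynomial.algebraMap_eq, sub_self]
    exact Ideal.zero_mem _
  | add p q hp hq =>
    rw [map_add]
    have h : p + q - (rt v g p + rt v g q) = (p - rt v g p) + (q - rt v g q) := by ring
    rw [h]
    exact Ideal.add_mem _ hp hq
  | mul_X p u hp =>
    rw [map_mul]
    have h : p * X u - rt v g p * rt v g (X u) =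
        X u * (p - rt v g p) + rt v g p * (X u - rt v g (X u)) := by ring
    rw [h]
    refine Ideal.add_mem _ (Ideal.mul_mem_left _ _ hp) (Ideal.mul_mem_left _ _ ?_)
    by_cases hu : u = v
    · subst hu
      rw [rt_v]
      exact Ideal.mem_span_singleton_self _
    · rw [rt_ne v g u hu, sub_self]
      exact Ideal.zero_mem _

lemma rt_id (v : VB) (g : BC K) (hg : rt v g g = g) (a : BC K) : rt v g (rt v g a) = rt v g a := by
  have h : (rt v g).comp (rt v g) = rt v g := by
    refine MvPolynomial.algHom_ext ?_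
    intro u
    show rt v g (rt v g (X u)) = rt v g (X u)
    by_cases hu : u = v
    · subst hu
      rw [rt_v, hg]
    · rw [rt_ne v g u hu, rt_ne v g u hu]
  exact congrArg (fun φ : BC K →ₐ[K] BC K => φ a) h

lemma rt_ker (v : VB) (g : BC K) (hg : rt v g g = g) :
    RingHom.ker (rt v g).toRingHom = Ideal.span {X v - g} := by
  refine le_antisymm ?_ ?_
  · intro a ha
    have h := rt_sub v g a
    have h0 : rt v g a = 0 := ha
    rwa [h0, sub_zero] at h
  · rw [Ideal.span_le]
    intro a ha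
    rw [Set.mem_singleton_iff] at ha
    subst ha
    show rt v g (X v - g) = 0
    rw [map_sub, rt_v, hg, sub_self]

/-- the retraction maps `JB f S` to itself -/
lemma rt_JB (v : VB) (g : BC K) (hv : ∀ u, v ≠ Sum.inl u) (f : MvPolynomial (Fin 5) K) (S : Finset ℕ) :
    ∀ x ∈ JB f S, (rt v g).toRingHom x ∈ JB f S := by
  intro x hx
  have h : JB f S ≤ (JB f S).comap (rt v g).toRingHom := by
    unfold JB
    rw [Ideal.span_le]
    rintro _ ⟨i, hi, rfl⟩
    have h1 : rt v g (iC (Fw f i)) ∈ Ideal.span {y : BC K | ∃ i ∈ S, y = iC (Fw f i)} := by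
      rw [rt_iC v g hv]
      exact Ideal.subset_span ⟨i, hi, rfl⟩
    exact h1
  exact h hx

lemma hw0 (w : VB → ℤ) (hw : ∀ v, w (Sum.inl v) = 0) (a : CC K) : IsWeightedHomogeneous w (iC a) 0 := by
  induction a using MvPolynomial.induction_on with
  | C c =>
    have h : (iC (C c : CC K) : BC K) = C c := rename_C _ _
    rw [h]
    exact isWeightedHomogeneous_C w c
  | add p q hp hq =>
    rw [map_add]
    exact hp.add hq
  | mul_X p v hp =>
    rw [map_mul]
    have h : (iC (X v : CC K) : BC K) = X (Sum.inl v) := rename_X _ _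
    rw [h]
    have h1 := hp.mul (isWeightedHomogeneous_X K w (Sum.inl v))
    rw [hw, add_zero] at h1
    exact h1

lemma homI_span {σ : Type} (w : σ → ℤ) (A : Set (MvPolynomial σ K))
    (hA : ∀ r ∈ A, ∃ a, IsWeightedHomogeneous w r a) : HomI w (Ideal.span A) := by
  intro p hp a
  let _ := weightedGradedAlgebra K w
  refine weightedHomogeneousComponent_mem_of_mem K w (Ideal.homogeneous_span _ _ fun r hr => ?_) hp a
  obtain ⟨b, hb⟩ := hA r hr
  exact ⟨b, hb⟩

/-- the weight of `t` only -/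
def wt : VB → ℤ := Sum.elim (fun _ => 0) ![0, 0, 1, 0]

/-- `t` is regular modulo `JB f S` -/
lemma reg_t (hE : S_ExtV) (hMon : S_Mon) (f : MvPolynomial (Fin 5) K) (S : Finset ℕ) (z : BC K) :
    RegZ z (tB K) (JB f S) := by
  intro x hx
  refine ⟨0, ?_⟩
  rw [pow_zero, one_mul]
  have hJ : JB f S = Ideal.map (rename Subtype.val :
      MvPolynomial {u : VB // u ≠ Sum.inr 2} K →ₐ[K] MvPolynomial VB K)
      (Ideal.map (rename (fun u : VC => (⟨Sum.inl u, Sum.inl_ne_inr⟩ : {u : VB // u ≠ Sum.inr 2})) :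
        MvPolynomial VC K →ₐ[K] MvPolynomial {u : VB // u ≠ Sum.inr 2} K) (JC f S)) := by
    rw [(hE K (JC f S)).2.2 f S]
    have h := Ideal.map_map (I := JC f S)
      (rename (fun u : VC => (⟨Sum.inl u, Sum.inl_ne_inr⟩ : {u : VB // u ≠ Sum.inr 2})) :
        MvPolynomial VC K →ₐ[K] MvPolynomial {u : VB // u ≠ Sum.inr 2} K).toRingHom
      (rename Subtype.val :
      MvPolynomial {u : VB // u ≠ Sum.inr 2} K →ₐ[K] MvPolynomial VB K).toRingHom
    refine Eq.trans ?_ h.symm
    refine congrArg (fun φ : CC K →+* BC K => Ideal.map φ (JC f S)) ?_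
    refine RingHom.ext ?_
    intro a
    show rename Sum.inl a = rename Subtype.val (rename _ a)
    rw [rename_rename]
    rfl
  have h := hMon K VB (Sum.inr 2)
    (Ideal.map (rename (fun u : VC => (⟨Sum.inl u, Sum.inl_ne_inr⟩ : {u : VB // u ≠ Sum.inr 2})) :
        MvPolynomial VC K →ₐ[K] MvPolynomial {u : VB // u ≠ Sum.inr 2} K) (JC f S)) 0 1 le_rfl
  rw [← hJ, map_zero, add_zero, pow_one] at h
  exact h x hx

end Rg2_aux

open Rg2_aux

theorem tRg2 : S_RgZ → S_Low → S_ExtV → S_Hfv → S_Mon → S_Rg2 := by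
  intro hZ hL hE hH hM K _ f hf hRC y hy
  obtain ⟨z1, z2, _, _, z5, z6, _⟩ := hZ (BC K) (hV K (thV K))
  have hz : hV K (thV K) = iC (xC K 3) ^ 3 * sB K ^ 2 * sB' K := (hH K f hf).2.2.2.2.1
  -- retractions
  have hret : ∀ (v : VB) (g : BC K), (∀ u, v ≠ Sum.inl u) → v ≠ Sum.inr 0 → v ≠ Sum.inr 1 → rt v g g = g →
      ∀ (J : Ideal (BC K)) (a : BC K), (∀ x ∈ J, (rt v g).toRingHom x ∈ J) →
      RegZ (hV K (thV K)) (rt v g a) J → RegZ (hV K (thV K)) a (J ⊔ Ideal.span {X v - g}) := by
    intro v g hv h0 h1 hg J a hJ ha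
    have h := z6 J a (rt v g).toRingHom (fun x => rt_id v g hg x) (by
      show rt v g (hV K (thV K)) = hV K (thV K)
      rw [hz, map_mul, map_mul, map_pow, map_pow, rt_iC v g hv]
      unfold sB sB'
      rw [rt_ne v g _ h0.symm, rt_ne v g _ h1.symm]) hJ ha
    rw [rt_ker v g hg, sup_comm] at h
    exact h
  -- the basic regularities
  have ht : ∀ S : Finset ℕ, RegZ (hV K (thV K)) (tB K) (JB f S) := fun S => reg_t hE hM f S _
  have hF : ∀ r : ℕ, 1 ≤ r → r ≤ 4 → RegZ (hV K (thV K)) (iC (Fw f r)) (JB f (Finset.range r)) := by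
    intro r h1 h4
    rw [(hE K (JC f (Finset.range r))).2.2 f (Finset.range r)]
    exact (hE K (JC f (Finset.range r))).1 _ (hRC.r1 r h1 h4)
  have hs : ∀ J : Ideal (BC K), RegZ (hV K (thV K)) (sB K) J := by
    intro J
    refine z5 J (sB K) (iC (xC K 3) ^ 3 * sB K * sB' K) 1 ?_
    rw [hz]
    ring
  have hsF : RegZ (hV K (thV K)) (sB K * iC (Fw f 4)) (JB f (Finset.range 4)) :=
    z2 _ _ _ (hs _) (hF 4 (by norm_num) le_rfl)
  have hwt : ∀ v, wt (Sum.inl v) = 0 := fun v => rfl
  have hd : RegZ (hV K (thV K)) (dB f) (JB f (Finset.range 4)) := by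
    refine hL VB K wt (JB f (Finset.range 4)) (hV K (thV K)) (sB K * iC (Fw f 4)) (tB K * iC (Fw f 5)) 0 0
      ?_ ?_ ?_ ?_ hsF
    · refine homI_span _ _ ?_
      rintro _ ⟨i, _, rfl⟩
      exact ⟨0, hw0 wt hwt _⟩
    · rw [hz]
      have h1 := (((hw0 wt hwt (xC K 3)).pow 3).mul
        ((isWeightedHomogeneous_X K wt (Sum.inr 0)).pow 2)).mul (isWeightedHomogeneous_X K wt (Sum.inr 1))
      have h2 : (3 • (0 : ℤ) + 2 • wt (Sum.inr 0) + wt (Sum.inr 1)) = 0 := by
        simp [wt]
      rw [h2] at h1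
      exact h1
    · have h1 := (isWeightedHomogeneous_X K wt (Sum.inr 0)).mul (hw0 wt hwt (Fw f 4))
      have h2 : wt (Sum.inr 0) + 0 = 0 := by
        simp [wt]
      rw [h2] at h1
      exact h1
    · intro n hn
      have h1 := (isWeightedHomogeneous_X K wt (Sum.inr 2)).mul (hw0 wt hwt (Fw f 5))
      have h2 : wt (Sum.inr 2) + 0 = 1 := by
        simp [wt]
      rw [h2] at h1
      refine IsWeightedHomogeneous.weightedHomogeneousComponent_ne n h1 ?_
      omega
  have hdt : RegZ (hV K (thV K)) (dB f) (JB f (Finset.range 4) ⊔ Ideal.span {tB K}) := by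
    have h := hret (Sum.inr 2) 0 (fun u => Sum.inr_ne_inl) (by decide) (by decide) (map_zero _)
      (JB f (Finset.range 4)) (dB f) (rt_JB _ _ (fun u => Sum.inr_ne_inl) f _) (by
        have h1 : rt (Sum.inr 2) (0 : BC K) (dB f) = sB K * iC (Fw f 4) := by
          unfold dB sB tB
          rw [map_add, map_mul, map_mul, rt_v, rt_iC _ _ (fun u => Sum.inr_ne_inl),
            rt_ne _ _ _ (by decide), zero_mul, add_zero]
        rw [h1]
        exact hsF)
    rw [sub_zero] at h
    exact h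
  have hA : RegZ (hV K (thV K)) (tB K) (JD f) := z1 _ _ _ (ht _) hdt
  have hpow : ∀ (J : Ideal (BC K)), RegZ (hV K (thV K)) (tB K) J → ∀ k : ℕ, 1 ≤ k →
      RegZ (hV K (thV K)) (tB K ^ k) J := by
    intro J hJ k hk
    induction k, hk using Nat.le_induction with
    | base => rw [pow_one]; exact hJ
    | succ k _ ih =>
      rw [pow_succ]
      exact z2 _ _ _ ih hJ
  have hB : RegZ (hV K (thV K)) (tB K ^ 3 * iC (Fw f 3)) (JB f (Finset.range 3)) :=
    z2 _ _ _ (hpow _ (ht _) 3 (by norm_num)) (hF 3 (by norm_num) (by norm_num))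
  have hC : RegZ (hV K (thV K)) (tB K ^ 4 * dB f) (JB f (Finset.range 4)) :=
    z2 _ _ _ (hpow _ (ht _) 4 (by norm_num)) hd
  -- the choice of `g`
  obtain ⟨g, hg, hyg⟩ : ∃ g : BC K, rt (Sum.inr 3) g g = g ∧ y = X (Sum.inr 3) - g := by
    rcases hy with rfl | rfl
    · refine ⟨-(sB' K * tB K), ?_, ?_⟩
      · unfold sB' tB
        rw [map_neg, map_mul, rt_ne _ _ _ (by decide), rt_ne _ _ _ (by decide)]
      · unfold TB tB'
        ring
    · exact ⟨0, map_zero _, (sub_zero _).symm⟩
  have h3 : ∀ u, (Sum.inr 3 : VB) ≠ Sum.inl u := fun u => Sum.inr_ne_inl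
  have hrt : rt (Sum.inr 3) g (tB K) = tB K := rt_ne _ _ _ (by decide)
  have hrd : rt (Sum.inr 3) g (dB f) = dB f := by
    unfold dB
    rw [map_add, map_mul, map_mul, hrt, rt_iC _ _ h3, rt_iC _ _ h3]
    unfold sB
    rw [rt_ne _ _ _ (by decide)]
  have hJD : ∀ x ∈ JD f, (rt (Sum.inr 3) g).toRingHom x ∈ JD f := by
    intro x hx
    have h : JD f ≤ (JD f).comap (rt (Sum.inr 3) g).toRingHom := by
      unfold JD
      refine sup_le ?_ ?_
      · intro x hx
        exact Ideal.mem_sup_left (rt_JB _ _ h3 f _ x hx)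
      · rw [Ideal.span_le]
        intro x hx
        rw [Set.mem_singleton_iff] at hx
        subst hx
        have h1 : rt (Sum.inr 3) g (dB f) ∈ JB f (Finset.range 4) ⊔ Ideal.span {dB f} := by
          rw [hrd]
          exact Ideal.mem_sup_right (Ideal.mem_span_singleton_self _)
        exact h1
    exact h hx
  rw [hyg]
  refine ⟨?_, ?_, ?_⟩
  · refine hret (Sum.inr 3) g h3 (by decide) (by decide) hg _ _ hJD ?_
    rw [hrt]
    exact hA
  · refine hret (Sum.inr 3) g h3 (by decide) (by decide) hg _ _ (rt_JB _ _ h3 f _) ?_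
    rw [map_mul, map_pow, hrt, rt_iC _ _ h3]
    exact hB
  · refine hret (Sum.inr 3) g h3 (by decide) (by decide) hg _ _ (rt_JB _ _ h3 f _) ?_
    rw [map_mul, map_pow, hrt, hrd]
    exact hC

end Pool.Agent.QV
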