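import Pool.Agent.Lib.MP_b53bfe_ag.Q.SpecE

/-!
# Regular elements in `BB`
-/

set_option autoImplicit false

noncomputable section

namespace Pool.Agent.QV

open Matrix
open MvPolynomial
open Pool.Agent.FY (Res)

namespace RgE_aux

variable {K : Type} [Field K]

/-- the point with `x₃ = 1`, all other coordinates `0` -/
def pt (K : Type) [Field K] : Fin 10 → K := fun v => if v = 4 then 1 else 0

theorem jdg {R : Type} [CommRing R] (r : R →+* R) (hr : ∀ x, r (r x) = r x) (f : R) :
    RingHom.ker r ⊔ Ideal.span {f} = RingHom.ker r ⊔ Ideal.span {r f} := by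
  have h1 : f - r f ∈ RingHom.ker r := by
    rw [RingHom.mem_ker, map_sub, hr, sub_self]
  apply le_antisymm
  · refine sup_le le_sup_left ?_
    rw [Ideal.span_singleton_le_iff_mem]
    have h2 := Ideal.add_mem _ (Ideal.mem_sup_left (T := Ideal.span {r f}) h1)
      (Ideal.mem_sup_right (S := RingHom.ker r) (Ideal.mem_span_singleton_self (r f)))
    rwa [sub_add_cancel] at h2
  · refine sup_le le_sup_left ?_
    rw [Ideal.span_singleton_le_iff_mem]
    have h2 := Ideal.sub_mem _
      (Ideal.mem_sup_right (S := RingHom.ker r) (Ideal.mem_span_singleton_self f))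
      (Ideal.mem_sup_left (T := Ideal.span {f}) h1)
    rwa [sub_sub_cancel] at h2

/-- the ideal of `b = X i - c` is prime if `c` does not contain `X i` -/
theorem pr (hRet : S_Ret) (i : Fin 10) (b : BB K)
    (hb : aeval (Function.update (X : Fin 10 → BB K) i (X i - b)) (X i - b) = X i - b) :
    (Ideal.span {b}).IsPrime := by
  set h : Fin 10 → BB K := Function.update X i (X i - b) with hh
  obtain ⟨h1, -, -, -⟩ := hRet K (Fin 10) (aeval h) (fun v => by
    rw [aeval_X]
    by_cases hv : v = i
    · subst hv
      rw [hh, Function.update_self]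
      exact hb
    · rw [hh, Function.update_of_ne hv, aeval_X, Function.update_of_ne hv])
  have h2 : Ideal.span {b} = RingHom.ker (aeval h : BB K →ₐ[K] BB K) := by
    rw [h1]
    apply le_antisymm
    · rw [Ideal.span_singleton_le_iff_mem]
      apply Ideal.subset_span
      refine ⟨i, ?_⟩
      simp only [aeval_X]
      rw [hh, Function.update_self, sub_sub_cancel]
    · rw [Ideal.span_le]
      rintro _ ⟨v, rfl⟩
      simp only [aeval_X]
      by_cases hv : v = i
      · subst hv
        rw [hh, Function.update_self, sub_sub_cancel]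
        exact Ideal.mem_span_singleton_self b
      · rw [hh, Function.update_of_ne hv, sub_self]
        exact Ideal.zero_mem _
  rw [h2]
  exact RingHom.ker_isPrime _

theorem gen (hRet : S_Ret) (hRgp : S_Rgp) (g : Fin 10 → BB K) (hg : ∀ v, aeval g (g v) = g v)
    (hpt : ∀ v, eval (pt K) (g v) = pt K v) (i : Fin 10) (b f : BB K)
    (hb : aeval (Function.update (X : Fin 10 → BB K) i (X i - b)) (X i - b) = X i - b)
    (p1 : Fin 10 → K) (hb0 : eval p1 b ≠ 0) (hrb : aeval g b = b) (hbpt : eval (pt K) b = 0)
    (hf : eval (pt K) f ≠ 0) :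
    RegI b (RingHom.ker (aeval g : BB K →ₐ[K] BB K) ⊔ Ideal.span {f}) := by
  obtain ⟨-, h2, -, h4⟩ := hRet K (Fin 10) (aeval g) (fun v => by
    rw [aeval_X]
    exact hg v)
  have hj := jdg ((aeval g : BB K →ₐ[K] BB K) : BB K →+* BB K) h2 f
  have hk : RingHom.ker ((aeval g : BB K →ₐ[K] BB K) : BB K →+* BB K) =
    RingHom.ker (aeval g : BB K →ₐ[K] BB K) := rfl
  rw [hk] at hj
  rw [hj]
  refine h4 _ b ?_ ?_
  · intro x hx
    obtain ⟨y, rfl⟩ := Ideal.mem_span_singleton.1 hx
    rw [Ideal.mem_span_singleton]
    refine ⟨aeval g y, ?_⟩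
    rw [map_mul]
    congr 1
    exact h2 f
  · rw [hrb]
    obtain ⟨-, -, -, -, h5⟩ := hRgp (BB K)
    refine h5 b _ inferInstance ?_ (pr hRet i b hb) ?_
    · rintro rfl
      exact hb0 (map_zero _)
    · intro hm
      obtain ⟨y, hy⟩ := Ideal.mem_span_singleton.1 hm
      apply hf
      have he : eval (pt K) (aeval g f) = eval (pt K) f := by
        have h6 : (eval (pt K)).comp ((aeval g : BB K →ₐ[K] BB K) : BB K →+* BB K) =
            eval (pt K) := by
          apply MvPolynomial.ringHom_ext
          · intro r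
            simp
          · intro v
            simp [hpt]
        exact RingHom.congr_fun h6 f
      rw [← he]
      have h7 := congrArg (eval (pt K)) hy
      rw [map_mul, hbpt, zero_mul] at h7
      exact h7

/-- the substitution `X v ↦ 0` for `v ∈ S` -/
def gz (K : Type) [Field K] (S : Finset (Fin 10)) (v : Fin 10) : BB K := if v ∈ S then 0 else X v

theorem gz_idem (S : Finset (Fin 10)) (v : Fin 10) : aeval (gz K S) (gz K S v) = gz K S v := by
  unfold gz
  split_ifs with h
  · rw [map_zero]
  · rw [aeval_X, if_neg h]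

theorem gz_pt (S : Finset (Fin 10)) (hS : (4 : Fin 10) ∉ S) (v : Fin 10) :
    eval (pt K) (gz K S v) = pt K v := by
  unfold gz
  split_ifs with h
  · have : v ≠ 4 := fun h1 => hS (h1 ▸ h)
    simp [pt, this]
  · rw [eval_X]

theorem ker_gz (hRet : S_Ret) (S : Finset (Fin 10)) :
    RingHom.ker (aeval (gz K S) : BB K →ₐ[K] BB K) = Ideal.span ((X : Fin 10 → BB K) '' S) := by
  obtain ⟨h1, -, -, -⟩ := hRet K (Fin 10) (aeval (gz K S)) (fun v => by
    rw [aeval_X]
    exact gz_idem S v)
  rw [h1]
  apply le_antisymm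
  · rw [Ideal.span_le]
    rintro _ ⟨v, rfl⟩
    simp only [aeval_X]
    unfold gz
    split_ifs with h
    · rw [sub_zero]
      exact Ideal.subset_span ⟨v, h, rfl⟩
    · rw [sub_self]
      exact Ideal.zero_mem _
  · rw [Ideal.span_le]
    rintro _ ⟨v, hv, rfl⟩
    apply Ideal.subset_span
    refine ⟨v, ?_⟩
    simp only [aeval_X]
    unfold gz
    rw [if_pos (by exact_mod_cast hv), sub_zero]

theorem f_pt (a : Par K) : eval (pt K) (fB a) ≠ 0 := by
  have h : eval (pt K) (fB a) = 1 := by
    simp [fB, ff, uf, pt]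
  rw [h]
  exact one_ne_zero

end RgE_aux

open RgE_aux in
theorem tRgE : S_Ret → S_Rgp → S_RgE := by
  intro hRet hRgp K _ _ a
  have hf := f_pt a
  have k89 : J1 a = RingHom.ker (aeval (gz K {8, 9}) : BB K →ₐ[K] BB K) ⊔ Ideal.span {fB a} := by
    rw [ker_gz hRet, ← Ideal.span_union, J1]
    congr 1
    ext x
    simp
    tauto
  have k2 : J0 a = RingHom.ker (aeval (gz K {2}) : BB K →ₐ[K] BB K) ⊔ Ideal.span {fB a} := by
    rw [ker_gz hRet, ← Ideal.span_union, J0]
    congr 1
    ext x
    simp
    tauto
  have k28 : J0 a ⊔ Ideal.span {X 8} =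
      RingHom.ker (aeval (gz K {2, 8}) : BB K →ₐ[K] BB K) ⊔ Ideal.span {fB a} := by
    rw [ker_gz hRet, ← Ideal.span_union, J0, ← Ideal.span_union]
    congr 1
    ext x
    simp
    tauto
  refine ⟨⟨?_, ?_, ?_⟩, ⟨?_, ?_, ?_, ?_⟩, ?_⟩
  · rw [k89]
    exact gen hRet hRgp _ (gz_idem _) (gz_pt _ (by decide)) 6 (X 6) _ (by simp) (Pi.single 6 1)
      (by simp) (by simp [gz]) (by simp [pt]) hf
  · rw [k89]
    exact gen hRet hRgp _ (gz_idem _) (gz_pt _ (by decide)) 2 (X 2) _ (by simp) (Pi.single 2 1)
      (by simp) (by simp [gz]) (by simp [pt]) hf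
  · rw [k89]
    exact gen hRet hRgp _ (gz_idem _) (gz_pt _ (by decide)) 0 (zB a) _
      (by simp [zB, RB, Rf, Rj, Fin.sum_univ_five]) (Pi.single 0 1)
      (by simp [zB]) (by simp [zB, RB, gz, Rf, Rj, Fin.sum_univ_five]) (by simp [zB, pt]) hf
  · rw [k2]
    exact gen hRet hRgp _ (gz_idem _) (gz_pt _ (by decide)) 8 (X 8) _ (by simp) (Pi.single 8 1)
      (by simp) (by simp [gz]) (by simp [pt]) hf
  · rw [k28]
    exact gen hRet hRgp _ (gz_idem _) (gz_pt _ (by decide)) 7 (X 7) _ (by simp) (Pi.single 7 1)
      (by simp) (by simp [gz]) (by simp [pt]) hf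
  · rw [k28]
    exact gen hRet hRgp _ (gz_idem _) (gz_pt _ (by decide)) 9 (X 9) _ (by simp) (Pi.single 9 1)
      (by simp) (by simp [gz]) (by simp [pt]) hf
  · rw [k28]
    exact gen hRet hRgp _ (gz_idem _) (gz_pt _ (by decide)) 5 (X 1 + X 5) _ (by simp)
      (Pi.single 5 1) (by simp) (by simp [gz]) (by simp [pt]) hf
  · intro κ
    let g : Fin 10 → BB K := fun v => if v = 5 then -X 1 else gz K {2, 8} v
    have hg1 : ∀ v : Fin 10, aeval g (g v) = g v := by
      intro v
      by_cases h : v = 5
      · subst h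
        simp [g, gz]
      · simp only [g, if_neg h]
        unfold gz
        split_ifs with h1
        · rw [map_zero]
        · rw [aeval_X, if_neg h, if_neg h1]
    obtain ⟨h1, -, h3, -⟩ := hRet K (Fin 10) (aeval g) (fun v => by
      rw [aeval_X]
      exact hg1 v)
    have h4 : J4 K = RingHom.ker (aeval g : BB K →ₐ[K] BB K) := by
      rw [h1, J4]
      apply le_antisymm
      · rw [Ideal.span_le]
        intro x hx
        apply Ideal.subset_span
        rcases hx with rfl | rfl | rfl
        · exact ⟨2, by simp [g, gz]⟩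
        · exact ⟨8, by simp [g, gz]⟩
        · exact ⟨5, by simp [g]; ring⟩
      · rw [Ideal.span_le]
        rintro _ ⟨v, rfl⟩
        simp only [aeval_X]
        by_cases h : v = 5
        · subst h
          apply Ideal.subset_span
          right
          right
          simp [g]
          ring
        · simp only [g, if_neg h]
          unfold gz
          split_ifs with h5
          · rw [sub_zero]
            apply Ideal.subset_span
            rcases Finset.mem_insert.1 h5 with rfl | h6
            · left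
              rfl
            · rw [Finset.mem_singleton] at h6
              subst h6
              right
              left
              rfl
          · rw [sub_self]
            exact Ideal.zero_mem _
    rw [h4]
    apply h3
    intro h5
    have h6 := congrArg (eval (pt K)) h5
    simp [g, gz, pt] at h6

end Pool.Agent.QV
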