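import Pool.Agent.Lib.MP_b53bfe_ag.Q.SpecF

/-!
# MP_b53bfe_ag, phase 3: the form is regular modulo ideals of the other rows (helper97)
-/

set_option autoImplicit false

noncomputable section

namespace Pool.Agent.QV

open Matrix
open MvPolynomial

namespace RgF_aux

variable {K : Type} [Field K]

/-- a nonzero polynomial over a field is a nonzerodivisor over every nontrivial algebra -/
theorem reg_map {S : Type} [CommRing S] [Algebra K S] [Nontrivial S] (f : MvPolynomial (Fin 5) K) (hf : f ≠ 0)
    (y : MvPolynomial (Fin 5) S) (h : map (algebraMap K S) f * y = 0) : y = 0 := by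
  let m : MonomialOrder (Fin 5) := MonomialOrder.lex
  have hinj : Function.Injective (algebraMap K S) := (algebraMap K S).injective
  have hf' : map (algebraMap K S) f ≠ 0 := fun h0 => hf (map_injective _ hinj (by rw [h0, map_zero]))
  have hlc : m.leadingCoeff (map (algebraMap K S) f) ≠ 0 := m.leadingCoeff_ne_zero_iff.2 hf'
  have hreg : IsRegular (m.leadingCoeff (map (algebraMap K S) f)) := by
    have h1 : m.leadingCoeff (map (algebraMap K S) f) =
        algebraMap K S (coeff (m.degree (map (algebraMap K S) f)) f) := by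
      unfold MonomialOrder.leadingCoeff
      rw [coeff_map]
    rw [h1] at hlc ⊢
    have h2 : coeff (m.degree (map (algebraMap K S) f)) f ≠ 0 := fun h0 => hlc (by rw [h0, map_zero])
    exact ((IsUnit.mk0 _ h2).map (algebraMap K S)).isRegular
  have h3 := m.leadingCoeff_mul_of_isRegular_left (g := y) hreg
  rw [h, m.leadingCoeff_zero] at h3
  have h4 : m.leadingCoeff y = 0 := (hreg.left.mul_left_eq_zero_iff).1 h3.symm
  exact m.leadingCoeff_eq_zero_iff.1 h4

/-- the same modulo an ideal of coefficients -/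
theorem reg_ideal {P : Type} [CommRing P] [Algebra K P] (J : Ideal P) (f : MvPolynomial (Fin 5) K) (hf : f ≠ 0)
    (y : MvPolynomial (Fin 5) P) (h : map (algebraMap K P) f * y ∈ Ideal.map (C : P →+* MvPolynomial (Fin 5) P) J) :
    y ∈ Ideal.map (C : P →+* MvPolynomial (Fin 5) P) J := by
  by_cases hJ : J = ⊤
  · rw [hJ, Ideal.map_top]
    trivial
  have : Nontrivial (P ⧸ J) := Ideal.Quotient.nontrivial_iff.2 hJ
  have key : ∀ z : MvPolynomial (Fin 5) P, z ∈ Ideal.map (C : P →+* MvPolynomial (Fin 5) P) J ↔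
      map (Ideal.Quotient.mk J) z = 0 := by
    intro z
    rw [mem_map_C_iff]
    constructor
    · intro hz
      ext d
      rw [coeff_map, coeff_zero]
      exact Ideal.Quotient.eq_zero_iff_mem.2 (hz d)
    · intro hz d
      have h1 := congrArg (coeff d) hz
      rw [coeff_map, coeff_zero] at h1
      exact Ideal.Quotient.eq_zero_iff_mem.1 h1
  rw [key] at h ⊢
  rw [map_mul, MvPolynomial.map_map] at h
  refine reg_map f hf _ ?_
  have h2 : (Ideal.Quotient.mk J).comp (algebraMap K P) = algebraMap K (P ⧸ J) := rfl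
  rw [h2] at h
  exact h

/-- the variables of the row `l` become the variables, the others become coefficients -/
def ph (l : Fin 3) : Gr.Pol K →ₐ[K] MvPolynomial (Fin 5) (Gr.Pol K) :=
  aeval fun v => if v.1 = l then X v.2 else C (X v)

/-- the inverse of `ph` -/
def evL (l : Fin 3) : MvPolynomial (Fin 5) (Gr.Pol K) →+* Gr.Pol K :=
  eval₂Hom (RingHom.id _) fun j => X (l, j)

theorem evL_C (l : Fin 3) (a : Gr.Pol K) : evL l (C a) = a := by
  unfold evL
  rw [coe_eval₂Hom, eval₂_C, RingHom.id_apply]

theorem evL_ph (l : Fin 3) (x : Gr.Pol K) : evL l (ph l x) = x := by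
  have h : (evL l).comp (ph (K := K) l).toRingHom = RingHom.id _ := by
    refine ringHom_ext (fun r => ?_) fun v => ?_
    · change evL l (ph l (C r)) = C r
      have h1 : ph (K := K) l (C r) = C (C r) := by
        unfold ph
        rw [aeval_C]
        rfl
      rw [h1, evL_C]
    · change evL l (ph l (X v)) = X v
      unfold ph
      rw [aeval_X]
      split_ifs with hv
      · unfold evL
        rw [coe_eval₂Hom, eval₂_X, ← hv]
      · rw [evL_C]
  exact congrArg (fun g : Gr.Pol K →+* Gr.Pol K => g x) h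

theorem ph_form (l : Fin 3) (f : MvPolynomial (Fin 5) K) :
    ph l (Gr.form f l) = map (algebraMap K (Gr.Pol K)) f := by
  unfold ph Gr.form
  rw [aeval_rename]
  induction f using MvPolynomial.induction_on with
  | C r =>
    rw [aeval_C, map_C]
    rfl
  | add p q hp hq => rw [map_add, map_add, hp, hq]
  | mul_X p j hp =>
    rw [map_mul, map_mul, hp, aeval_X, map_X]
    congr 1
    simp

theorem ph_C (l : Fin 3) (a : Gr.Pol K) (ha : a ∈ supported K {p : Fin 3 × Fin 5 | p.1 ≠ l}) : ph l a = C a := by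
  let g : Gr.Pol K →ₐ[K] MvPolynomial (Fin 5) (Gr.Pol K) := IsScalarTower.toAlgHom K (Gr.Pol K) _
  have h : supported K {p : Fin 3 × Fin 5 | p.1 ≠ l} ≤ AlgHom.equalizer (ph l) g := by
    unfold supported
    refine Algebra.adjoin_le ?_
    rintro _ ⟨v, hv, rfl⟩
    have hv' : v.1 ≠ l := hv
    change ph l (X v) = g (X v)
    unfold ph
    rw [aeval_X, if_neg hv']
    rfl
  exact h ha

end RgF_aux

open RgF_aux in
/-- **RgF** -/
theorem tRgF : S_RgF := by
  intro K _ f l A hf hA x hx
  have h1 : Ideal.span A ≤ Ideal.comap (ph (K := K) l).toRingHom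
      (Ideal.map (C : Gr.Pol K →+* MvPolynomial (Fin 5) (Gr.Pol K)) (Ideal.span A)) := by
    rw [Ideal.span_le]
    intro a ha
    change ph l a ∈ Ideal.map (C : Gr.Pol K →+* MvPolynomial (Fin 5) (Gr.Pol K)) (Ideal.span A)
    rw [ph_C l a (hA a ha)]
    exact Ideal.mem_map_of_mem _ (Ideal.subset_span ha)
  have h2 : Ideal.map (C : Gr.Pol K →+* MvPolynomial (Fin 5) (Gr.Pol K)) (Ideal.span A) ≤
      Ideal.comap (evL (K := K) l) (Ideal.span A) := by
    rw [Ideal.map_le_iff_le_comap]
    intro a ha
    change evL l (C a) ∈ Ideal.span A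
    rw [evL_C]
    exact ha
  have h3 : ph l (Gr.form f l * x) ∈ Ideal.map (C : Gr.Pol K →+* MvPolynomial (Fin 5) (Gr.Pol K)) (Ideal.span A) :=
    h1 hx
  rw [map_mul, ph_form] at h3
  have h4 := h2 (reg_ideal _ f hf _ h3)
  change evL l (ph l x) ∈ Ideal.span A at h4
  rwa [evL_ph] at h4

end Pool.Agent.QV
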