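import Pool.Agent.Lib.MP_b53bfe_ag.Q.SpecV

/-!
# Calculus of regularity up to torsion
-/

set_option autoImplicit false

noncomputable section

namespace Pool.Agent.QV

open Matrix
open MvPolynomial
open Pool.Agent.FY (Res)

namespace RgZ_aux

variable {R : Type} [CommRing R] {z : R}

lemma reg_swap {J : Ideal R} {a b : R} (ha : RegZ z a J) (hb : RegZ z b (J ⊔ Ideal.span {a})) :
    RegZ z a (J ⊔ Ideal.span {b}) := by
  intro x hx
  obtain ⟨g, hg, y, hy, hgy⟩ := Submodule.mem_sup.1 hx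
  obtain ⟨w, rfl⟩ := Ideal.mem_span_singleton'.1 hy
  have h1 : b * w ∈ J ⊔ Ideal.span {a} := by
    have h2 : b * w = a * x - g := by rw [← hgy]; ring
    rw [h2]
    exact Ideal.sub_mem _ (Ideal.mul_mem_right _ _ (Ideal.mem_sup_right (Ideal.mem_span_singleton_self a)))
      (Ideal.mem_sup_left hg)
  obtain ⟨k, hk⟩ := hb w h1
  obtain ⟨g', hg', y', hy', hgy'⟩ := Submodule.mem_sup.1 hk
  obtain ⟨w', rfl⟩ := Ideal.mem_span_singleton'.1 hy'
  have h3 : a * (z ^ k * x - b * w') ∈ J := by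
    have h4 : a * (z ^ k * x - b * w') = z ^ k * g + b * g' := by
      have e1 : a * x = g + w * b := hgy.symm
      have e2 : z ^ k * w = g' + w' * a := hgy'.symm
      calc a * (z ^ k * x - b * w') = z ^ k * (a * x) - a * b * w' := by ring
        _ = z ^ k * g + b * (z ^ k * w) - a * b * w' := by rw [e1]; ring
        _ = z ^ k * g + b * g' := by rw [e2]; ring
    rw [h4]
    exact Ideal.add_mem _ (Ideal.mul_mem_left _ _ hg) (Ideal.mul_mem_left _ _ hg')
  obtain ⟨l, hl⟩ := ha _ h3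
  refine ⟨l + k, ?_⟩
  have h5 : z ^ (l + k) * x = z ^ l * (z ^ k * x - b * w') + z ^ l * w' * b := by
    rw [pow_add]; ring
  rw [h5]
  exact Ideal.add_mem _ (Ideal.mem_sup_left hl)
    (Ideal.mem_sup_right (Ideal.mul_mem_left _ _ (Ideal.mem_span_singleton_self b)))

lemma reg_mul {J : Ideal R} {a b : R} (ha : RegZ z a J) (hb : RegZ z b J) : RegZ z (a * b) J := by
  intro x hx
  have h1 : a * (b * x) ∈ J := by rwa [← mul_assoc]
  obtain ⟨k, hk⟩ := ha _ h1
  have h2 : b * (z ^ k * x) ∈ J := by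
    have h3 : b * (z ^ k * x) = z ^ k * (b * x) := by ring
    rwa [h3]
  obtain ⟨l, hl⟩ := hb _ h2
  refine ⟨l + k, ?_⟩
  have h4 : z ^ (l + k) * x = z ^ l * (z ^ k * x) := by rw [pow_add]; ring
  rwa [h4]

lemma reg_congr {J : Ideal R} {a b : R} (hab : a - b ∈ J) (ha : RegZ z a J) : RegZ z b J := by
  intro x hx
  refine ha x ?_
  have h1 : a * x = b * x + (a - b) * x := by ring
  rw [h1]
  exact Ideal.add_mem _ hx (Ideal.mul_mem_right _ _ hab)

lemma reg_pow {J : Ideal R} {a z' c : R} {n : ℕ} (hz : z' ^ n = z * c) (ha : RegZ z a J) :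
    RegZ z' a J := by
  intro x hx
  obtain ⟨k, hk⟩ := ha x hx
  refine ⟨n * k, ?_⟩
  have h1 : z' ^ (n * k) * x = c ^ k * (z ^ k * x) := by
    rw [pow_mul, hz, mul_pow]; ring
  rw [h1]
  exact Ideal.mul_mem_left _ _ hk

lemma reg_dvd {J : Ideal R} {a c : R} {n : ℕ} (hz : z ^ n = a * c) : RegZ z a J := by
  intro x hx
  refine ⟨n, ?_⟩
  have h1 : z ^ n * x = c * (a * x) := by rw [hz]; ring
  rw [h1]
  exact Ideal.mul_mem_left _ _ hx

lemma reg_ret {J : Ideal R} {a : R} {r : R →+* R} (hr : ∀ x, r (r x) = r x) (_hz : r z = z)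
    (hJ : ∀ x ∈ J, r x ∈ J) (ha : RegZ z (r a) J) : RegZ z a (RingHom.ker r ⊔ J) := by
  intro x hx
  obtain ⟨u, hu, v, hv, huv⟩ := Submodule.mem_sup.1 hx
  have h1 : r a * r x ∈ J := by
    have h2 : r a * r x = r v := by
      rw [← map_mul, ← huv, map_add, (RingHom.mem_ker).1 hu, zero_add]
    rw [h2]
    exact hJ v hv
  obtain ⟨k, hk⟩ := ha _ h1
  refine ⟨k, ?_⟩
  have h3 : z ^ k * x = z ^ k * (x - r x) + z ^ k * r x := by ring
  rw [h3]
  have h4 : x - r x ∈ RingHom.ker r := by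
    rw [RingHom.mem_ker, map_sub, hr, sub_self]
  exact Ideal.add_mem _ (Ideal.mem_sup_left (Ideal.mul_mem_left _ _ h4)) (Ideal.mem_sup_right hk)

lemma reg_iff {J J' : Ideal R} {a : R} (hJ : J ≤ J') (ht : ∀ x ∈ J', ∃ k : ℕ, z ^ k * x ∈ J) :
    RegZ z a J ↔ RegZ z a J' := by
  constructor
  · intro ha x hx
    obtain ⟨k, hk⟩ := ht _ hx
    have h1 : a * (z ^ k * x) ∈ J := by
      have h2 : a * (z ^ k * x) = z ^ k * (a * x) := by ring
      rwa [h2]
    obtain ⟨l, hl⟩ := ha _ h1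
    refine ⟨l + k, hJ ?_⟩
    have h4 : z ^ (l + k) * x = z ^ l * (z ^ k * x) := by rw [pow_add]; ring
    rwa [h4]
  · intro ha x hx
    obtain ⟨k, hk⟩ := ha x (hJ hx)
    obtain ⟨l, hl⟩ := ht _ hk
    refine ⟨l + k, ?_⟩
    have h4 : z ^ (l + k) * x = z ^ l * (z ^ k * x) := by rw [pow_add]; ring
    rwa [h4]

end RgZ_aux

open RgZ_aux

theorem tRgZ : S_RgZ := by
  intro R _ z
  exact ⟨fun J a b ha hb => reg_swap ha hb, fun J a b ha hb => reg_mul ha hb,
    fun J a b hab ha => reg_congr hab ha, fun J a z' c n hz ha => reg_pow hz ha,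
    fun J a c n hz => reg_dvd hz, fun J a r hr hz hJ ha => reg_ret hr hz hJ ha,
    fun J J' a hJ ht => reg_iff hJ ht⟩

end Pool.Agent.QV
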