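import Pool.Agent.Lib.MP_b53bfe_ag.Q.SpecL

/-!
# Disproof of Q1 of MP_b53bfe_ag for quintic threefolds, phase 3, module RtL: the ideals of the lines
-/

set_option autoImplicit false

noncomputable section

namespace Pool.Agent.QV

open Matrix MvPolynomial
open Pool.Agent.FY (Res)

namespace RtL_aux

variable {K : Type} [Field K]

theorem uC3 : uC K 3 = 0 := by
  unfold uC
  exact Fin.insertNth_apply_same (α := fun _ => CC K) 3 _ _

theorem uCs (j : Fin 4) : uC K (sc j) = X (Sum.inr j) := by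
  unfold uC sc
  exact Fin.insertNth_apply_succAbove (α := fun _ => CC K) 3 _ _ _

theorem rV_x (i : Fin 4) (e d : Fin 5 → K) (j : Fin 5) :
    rV i e d (X (Sum.inl j)) = C (e j) * X (Sum.inl 3) + C (d j) * X (Sum.inl (sc i)) := by
  unfold rV
  rw [aeval_X]
  rfl

theorem rV_r (i : Fin 4) (e d : Fin 5 → K) (j : Fin 4) :
    rV i e d (X (Sum.inr j)) = C (d (sc j)) * X (Sum.inr i) := by
  unfold rV
  rw [aeval_X]
  rfl

theorem rV_C (i : Fin 4) (e d : Fin 5 → K) (a : K) : rV i e d (C a) = C a := by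
  unfold rV
  rw [aeval_C]
  rfl

theorem rV_u (i : Fin 4) (e d : Fin 5 → K) (h3 : d 3 = 0) (k : Fin 5) :
    rV i e d (uC K k) = C (d k) * X (Sum.inr i) := by
  rcases Fin.eq_self_or_eq_succAbove 3 k with rfl | ⟨j, rfl⟩
  · rw [uC3, map_zero, h3, C_0, zero_mul]
  · have := uCs (K := K) j
    unfold sc at this
    rw [this, rV_r]

variable {V : Submodule K (Fin 5 → K)} {i : Fin 4} {e d : Fin 5 → K}

theorem rV_x3 (h : Bas2 V i e d) : rV i e d (X (Sum.inl 3)) = X (Sum.inl 3) := by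
  rw [rV_x, h.e3, h.d3, C_1, C_0, one_mul, zero_mul, add_zero]

theorem rV_xi (h : Bas2 V i e d) : rV i e d (X (Sum.inl (sc i))) = X (Sum.inl (sc i)) := by
  rw [rV_x, h.ei, h.di, C_1, C_0, one_mul, zero_mul, zero_add]

theorem rV_ui (h : Bas2 V i e d) : rV i e d (X (Sum.inr i)) = X (Sum.inr i) := by
  rw [rV_r, h.di, C_1, one_mul]

theorem rr (h : Bas2 V i e d) (v : VC) : rV i e d (rV i e d (X v)) = rV i e d (X v) := by
  rcases v with j | j
  · rw [rV_x, map_add, map_mul, map_mul, rV_C, rV_C, rV_x3 h, rV_xi h]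
  · rw [rV_r, map_mul, rV_C, rV_ui h]

theorem memV (h : Bas2 V i e d) {v : Fin 5 → K} (hv : v ∈ V) :
    v = v 3 • e + v (sc i) • d := by
  rw [h.sp] at hv
  obtain ⟨a, b, rfl⟩ := Submodule.mem_span_pair.1 hv
  simp only [Pi.add_apply, Pi.smul_apply, smul_eq_mul, h.e3, h.d3, h.ei, h.di, mul_one, mul_zero,
    add_zero, zero_add]

theorem eV (h : Bas2 V i e d) : e ∈ V := by
  rw [h.sp]
  exact Submodule.subset_span (Set.mem_insert _ _)

theorem dV (h : Bas2 V i e d) : d ∈ V := by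
  rw [h.sp]
  exact Submodule.subset_span (Set.mem_insert_of_mem _ rfl)

/-- the linear form `ε_j - e_j ε_3 - d_j ε_i` -/
def ph (i : Fin 4) (e d : Fin 5 → K) (j : Fin 5) : Fin 5 → K :=
  fun k => (if k = j then 1 else 0) - e j * (if k = 3 then 1 else 0) -
    d j * (if k = sc i then 1 else 0)

theorem ph_sum (i : Fin 4) (e d : Fin 5 → K) (j : Fin 5) {A : Type} [CommRing A] [Algebra K A]
    (v : Fin 5 → A) : ∑ k, algebraMap K A (ph i e d j k) * v k =
      v j - algebraMap K A (e j) * v 3 - algebraMap K A (d j) * v (sc i) := by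
  unfold ph
  have h1 : ∀ k, algebraMap K A ((if k = j then 1 else 0) - e j * (if k = 3 then 1 else 0) -
      d j * (if k = sc i then 1 else 0)) * v k = (if k = j then v k else 0) -
      algebraMap K A (e j) * (if k = 3 then v k else 0) -
      algebraMap K A (d j) * (if k = sc i then v k else 0) := by
    intro k
    simp only [map_sub, map_mul, apply_ite (algebraMap K A), map_one, map_zero]
    split_ifs <;> ring
  rw [Finset.sum_congr rfl fun k _ => h1 k, Finset.sum_sub_distrib, Finset.sum_sub_distrib,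
    ← Finset.mul_sum, ← Finset.mul_sum, Finset.sum_ite_eq', Finset.sum_ite_eq', Finset.sum_ite_eq']
  simp only [Finset.mem_univ, if_true]

theorem ph_ann (h : Bas2 V i e d) (j : Fin 5) : ph i e d j ∈ Ann V := by
  intro v hv
  have h1 := ph_sum i e d j (A := K) v
  simp only [Algebra.algebraMap_self, RingHom.id_apply] at h1
  rw [h1]
  have h2 := congrFun (memV h hv) j
  simp only [Pi.add_apply, Pi.smul_apply, smul_eq_mul] at h2
  rw [h2]
  ring

theorem gen_x (h : Bas2 V i e d) (j : Fin 5) :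
    X (Sum.inl j) - rV i e d (X (Sum.inl j)) ∈ IC V := by
  refine Ideal.subset_span (Or.inl ⟨ph i e d j, ph_ann h j, ?_⟩)
  have h1 := ph_sum i e d j (A := CC K) (fun k => xC K k)
  rw [algebraMap_eq] at h1
  rw [h1, rV_x]
  unfold xC
  ring

theorem gen_u (h : Bas2 V i e d) (j : Fin 4) :
    X (Sum.inr j) - rV i e d (X (Sum.inr j)) ∈ IC V := by
  refine Ideal.subset_span (Or.inr ⟨ph i e d (sc j), ph_ann h (sc j), ?_⟩)
  have h1 := ph_sum i e d (sc j) (A := CC K) (fun k => uC K k)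
  rw [algebraMap_eq] at h1
  rw [h1, rV_r, uC3, uCs, uCs]
  ring

theorem ann_x (h : Bas2 V i e d) (φ : Fin 5 → K) (hφ : φ ∈ Ann V) :
    rV i e d (∑ j, C (φ j) * xC K j) = 0 := by
  rw [map_sum]
  have h1 : ∀ j, rV i e d (C (φ j) * xC K j) = C (φ j * e j) * X (Sum.inl 3) +
      C (φ j * d j) * X (Sum.inl (sc i)) := by
    intro j
    unfold xC
    rw [map_mul, rV_C, rV_x, C_mul, C_mul]
    ring
  rw [Finset.sum_congr rfl fun j _ => h1 j, Finset.sum_add_distrib, ← Finset.sum_mul,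
    ← Finset.sum_mul, ← map_sum, ← map_sum, hφ e (eV h), hφ d (dV h), C_0, zero_mul, zero_mul,
    add_zero]

theorem ann_u (h : Bas2 V i e d) (φ : Fin 5 → K) (hφ : φ ∈ Ann V) :
    rV i e d (∑ j, C (φ j) * uC K j) = 0 := by
  rw [map_sum]
  have h1 : ∀ j, rV i e d (C (φ j) * uC K j) = C (φ j * d j) * X (Sum.inr i) := by
    intro j
    rw [map_mul, rV_C, rV_u i e d h.d3, C_mul]
    ring
  rw [Finset.sum_congr rfl fun j _ => h1 j, ← Finset.sum_mul, ← map_sum, hφ d (dV h), C_0,
    zero_mul]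

theorem ker_rV (hR : S_Ret) (h : Bas2 V i e d) : RingHom.ker (rV i e d) = IC V := by
  refine le_antisymm ?_ ?_
  · rw [(hR K VC (rV i e d) (rr h)).1, Ideal.span_le]
    rintro _ ⟨v, rfl⟩
    rcases v with j | j
    · exact gen_x h j
    · exact gen_u h j
  · unfold IC
    rw [Ideal.span_le]
    rintro y (⟨φ, hφ, rfl⟩ | ⟨φ, hφ, rfl⟩)
    · exact ann_x h φ hφ
    · exact ann_u h φ hφ

theorem rVB_l (i : Fin 4) (e d : Fin 5 → K) (v : VC) :
    rVB i e d (X (Sum.inl v)) = iC (rV i e d (X v)) := by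
  unfold rVB
  rw [aeval_X]
  rfl

theorem rVB_r (i : Fin 4) (e d : Fin 5 → K) (j : Fin 4) :
    rVB i e d (X (Sum.inr j)) = X (Sum.inr j) := by
  unfold rVB
  rw [aeval_X]
  rfl

theorem iC_X (v : VC) : iC (X v : CC K) = X (Sum.inl v) := by
  unfold iC
  rw [rename_X]

theorem rVB_iC (i : Fin 4) (e d : Fin 5 → K) (a : CC K) :
    rVB i e d (iC a) = iC (rV i e d a) := by
  have h : (rVB i e d).comp iC = iC.comp (rV i e d) := by
    refine algHom_ext fun v => ?_
    change rVB i e d (iC (X v)) = iC (rV i e d (X v))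
    rw [iC_X, rVB_l]
  exact congrArg (fun f : CC K →ₐ[K] BC K => f a) h

theorem rrB (h : Bas2 V i e d) (v : VB) :
    rVB i e d (rVB i e d (X v)) = rVB i e d (X v) := by
  rcases v with v | j
  · rw [rVB_l, rVB_iC, rr h]
  · rw [rVB_r, rVB_r]

theorem ker_rVB (hR : S_Ret) (h : Bas2 V i e d) : RingHom.ker (rVB i e d) = IB V := by
  refine le_antisymm ?_ ?_
  · rw [(hR K VB (rVB i e d) (rrB h)).1, Ideal.span_le]
    rintro _ ⟨v, rfl⟩
    rcases v with v | j
    · change X (Sum.inl v) - rVB i e d (X (Sum.inl v)) ∈ IB V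
      rw [rVB_l, ← iC_X, ← map_sub]
      unfold IB
      refine Ideal.mem_map_of_mem (iC (K := K)).toRingHom ?_
      rcases v with j | j
      · exact gen_x h j
      · exact gen_u h j
    · change X (Sum.inr j) - rVB i e d (X (Sum.inr j)) ∈ IB V
      rw [rVB_r, sub_self]
      exact zero_mem _
  · unfold IB
    rw [Ideal.map_le_iff_le_comap]
    intro a ha
    rw [← ker_rV hR h] at ha
    change rVB i e d (iC a) = 0
    rw [rVB_iC, (ha : rV i e d a = 0), map_zero]

theorem eval_x (x w : Fin 5 → K) (φ : Fin 5 → K) :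
    eval (ptC x w) (∑ j, C (φ j) * xC K j) = ∑ j, φ j * x j := by
  rw [map_sum]
  refine Finset.sum_congr rfl fun j _ => ?_
  unfold xC
  rw [map_mul, eval_C, eval_X]
  rfl

theorem eval_u (x w : Fin 5 → K) (hw : w 3 = 0) (φ : Fin 5 → K) :
    eval (ptC x w) (∑ j, C (φ j) * uC K j) = ∑ j, φ j * w j := by
  rw [map_sum]
  refine Finset.sum_congr rfl fun j _ => ?_
  rw [map_mul, eval_C]
  rcases Fin.eq_self_or_eq_succAbove 3 j with rfl | ⟨k, rfl⟩
  · rw [uC3, map_zero, hw]
  · have := uCs (K := K) k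
    unfold sc at this
    rw [this, eval_X]
    rfl

theorem hom_x (φ : Fin 5 → K) : IsWeightedHomogeneous wC (∑ j, C (φ j) * xC K j) 0 := by
  refine (weightedHomogeneousSubmodule K wC 0).sum_mem fun j _ => ?_
  rw [mem_weightedHomogeneousSubmodule]
  have h1 := (isWeightedHomogeneous_C (σ := VC) wC (φ j)).mul
    (isWeightedHomogeneous_X K wC (Sum.inl j : VC))
  exact h1

theorem hom_u (φ : Fin 5 → K) : IsWeightedHomogeneous wC (∑ j, C (φ j) * uC K j) 1 := by
  refine (weightedHomogeneousSubmodule K wC 1).sum_mem fun j _ => ?_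
  rw [mem_weightedHomogeneousSubmodule]
  rcases Fin.eq_self_or_eq_succAbove 3 j with rfl | ⟨k, rfl⟩
  · rw [uC3, mul_zero]
    exact isWeightedHomogeneous_zero K wC 1
  · have := uCs (K := K) k
    unfold sc at this
    rw [this]
    have h1 := (isWeightedHomogeneous_C (σ := VC) wC (φ ((3 : Fin 5).succAbove k))).mul
      (isWeightedHomogeneous_X K wC (Sum.inr k : VC))
    rw [zero_add] at h1
    exact h1

theorem hom_iC {a : CC K} {n : ℤ} (ha : IsWeightedHomogeneous wC a n) :
    IsWeightedHomogeneous wB (iC a) n := by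
  have h1 : iC a = ∑ m ∈ a.support, iC (monomial m (coeff m a)) := by
    conv_lhs => rw [a.as_sum]
    rw [map_sum]
  rw [h1]
  refine (weightedHomogeneousSubmodule K wB n).sum_mem fun m hm => ?_
  rw [mem_weightedHomogeneousSubmodule]
  unfold iC
  rw [rename_monomial]
  refine isWeightedHomogeneous_monomial _ _ _ ?_
  rw [Finsupp.weight_apply, Finsupp.sum_mapDomain_index (by simp) (by intros; rw [add_smul])]
  have h2 := ha (mem_support_iff.1 hm)
  rw [Finsupp.weight_apply] at h2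
  exact h2

end RtL_aux

open RtL_aux in
theorem tRtL : S_Ret → S_GpM → S_RtL := by
  intro hR hG K _ V i e d h
  have hk := ker_rV hR h
  have hkB := ker_rVB hR h
  have hIC : HomI wC (IC V) := by
    unfold IC
    refine hG.2.2.1 VC K wC _ ?_
    rintro y (⟨φ, hφ, rfl⟩ | ⟨φ, hφ, rfl⟩)
    · exact ⟨0, hom_x φ⟩
    · exact ⟨1, hom_u φ⟩
  have hIB : HomI wB (IB V) := by
    unfold IB IC
    rw [Ideal.map_span]
    refine hG.2.2.1 VB K wB _ ?_
    rintro _ ⟨y, ⟨φ, hφ, rfl⟩ | ⟨φ, hφ, rfl⟩, rfl⟩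
    · exact ⟨0, hom_iC (hom_x φ)⟩
    · exact ⟨1, hom_iC (hom_u φ)⟩
  refine ⟨hk, (hR K VC (rV i e d) (rr h)).2.1, hkB, (hR K VB (rVB i e d) (rrB h)).2.1, ?_, ?_,
    hIC, hIB, ?_, ?_, ?_, ?_⟩
  · rw [← hk]
    exact RingHom.ker_isPrime _
  · rw [← hkB]
    exact RingHom.ker_isPrime _
  · intro x w hx hw hw3 y hy
    have h1 : IC V ≤ RingHom.ker (eval (ptC x w)) := by
      unfold IC
      rw [Ideal.span_le]
      rintro y (⟨φ, hφ, rfl⟩ | ⟨φ, hφ, rfl⟩)
      · change eval (ptC x w) _ = 0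
        rw [eval_x]
        exact hφ x hx
      · change eval (ptC x w) _ = 0
        rw [eval_u x w hw3]
        exact hφ w hw
    exact h1 hy
  · intro x w hw3 hy
    have hx : ∀ j, x j = e j * x 3 + d j * x (sc i) := by
      intro j
      have h1 := hy _ (gen_x h j)
      rw [rV_x, map_sub, map_add, map_mul, map_mul, eval_C, eval_C, eval_X, eval_X, eval_X] at h1
      exact sub_eq_zero.1 h1
    have hw : ∀ j : Fin 5, w j = d j * w (sc i) := by
      intro j
      rcases Fin.eq_self_or_eq_succAbove 3 j with rfl | ⟨k, rfl⟩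
      · rw [hw3, h.d3, zero_mul]
      · have h1 := hy _ (gen_u h k)
        rw [rV_r, map_sub, map_mul, eval_C, eval_X, eval_X] at h1
        exact sub_eq_zero.1 h1
    refine ⟨?_, ?_⟩
    · have h2 : x = x 3 • e + x (sc i) • d := by
        funext j
        rw [Pi.add_apply, Pi.smul_apply, Pi.smul_apply, smul_eq_mul, smul_eq_mul, mul_comm (x 3),
          mul_comm (x (sc i))]
        exact hx j
      rw [h2]
      exact add_mem (V.smul_mem _ (eV h)) (V.smul_mem _ (dV h))
    · have h2 : w = w (sc i) • d := by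
        funext j
        rw [Pi.smul_apply, smul_eq_mul, mul_comm]
        exact hw j
      rw [h2]
      exact V.smul_mem _ (dV h)
  · rw [← hk]
    intro h1
    have h2 : rV i e d (xC K 3) = 0 := h1
    unfold xC at h2
    rw [rV_x3 h] at h2
    exact X_ne_zero _ h2
  · rw [← hk]
    intro h1
    have h2 : rV i e d (X (Sum.inr i)) = 0 := h1
    rw [rV_ui h] at h2
    exact X_ne_zero _ h2

end Pool.Agent.QV
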