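import Pool.Agent.Lib.MP_b53bfe_ag.Q.SpecL

/-!
# Disproof of Q1 of MP_b53bfe_ag for quintic threefolds, phase 3: module SgL (the determinant)
-/

set_option autoImplicit false

noncomputable section

namespace Pool.Agent.QV

open Matrix
open MvPolynomial
open Pool.Agent.FY (Res)

namespace SgL_aux

variable {K : Type} [Field K]

/-- `g (x + T w)` -/
def pl (x w : Fin 5 → K) (g : MvPolynomial (Fin 5) K) : Polynomial K :=
  aeval (fun j => Polynomial.C (x j) + Polynomial.X * Polynomial.C (w j)) g

theorem eval_xC (x w : Fin 5 → K) (j : Fin 5) : eval (ptC x w) (xC K j) = x j := by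
  simp [xC, ptC]

theorem eval_uC (x w : Fin 5 → K) (h : w 3 = 0) (j : Fin 5) : eval (ptC x w) (uC K j) = w j := by
  rcases Fin.eq_self_or_eq_succAbove 3 j with rfl | ⟨i, rfl⟩
  · simp [uC, h]
  · simp [uC, ptC, sc]

theorem coeff_pl (x w : Fin 5 → K) (h : w 3 = 0) (g : MvPolynomial (Fin 5) K) (n : ℕ) :
    (pl x w g).coeff n = eval (ptC x w) (Fw g n) := by
  have e : pl x w g = Polynomial.map (eval (ptC x w))
      (aeval (fun j => Polynomial.C (xC K j) + Polynomial.X * Polynomial.C (uC K j)) g :
        Polynomial (CC K)) := by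
    unfold pl
    induction g using MvPolynomial.induction_on with
    | C a => simp [Polynomial.algebraMap_apply]
    | add p q hp hq => rw [map_add, map_add, Polynomial.map_add, hp, hq]
    | mul_X p j hp =>
      rw [map_mul, map_mul, Polynomial.map_mul, hp, aeval_X, aeval_X, Polynomial.map_add,
        Polynomial.map_mul, Polynomial.map_C, Polynomial.map_C, Polynomial.map_X]
      rw [eval_xC, eval_uC x w h]
  rw [e, Polynomial.coeff_map]
  rfl

theorem eval_pl (x w : Fin 5 → K) (g : MvPolynomial (Fin 5) K) (t : K) :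
    (pl x w g).eval t = eval (x + t • w) g := by
  unfold pl
  induction g using MvPolynomial.induction_on with
  | C a => simp
  | add p q hp hq => rw [map_add, Polynomial.eval_add, hp, hq, map_add]
  | mul_X p j hp =>
    rw [map_mul, Polynomial.eval_mul, hp, aeval_X, map_mul, eval_X, Polynomial.eval_add,
      Polynomial.eval_mul, Polynomial.eval_C, Polynomial.eval_C, Polynomial.eval_X]
    rfl

theorem natDegree_pl (x w : Fin 5 → K) (g : MvPolynomial (Fin 5) K) (n : ℕ)
    (hg : g.IsHomogeneous n) : (pl x w g).natDegree ≤ n := by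
  have h1 := MvPolynomial.aeval_natDegree_le (n := 1) g hg.totalDegree_le
    (fun j => Polynomial.C (x j) + Polynomial.X * Polynomial.C (w j)) (fun j => by
      refine (Polynomial.natDegree_add_le _ _).trans (max_le (by simp) ?_)
      refine Polynomial.natDegree_mul_le.trans ?_
      simp)
  simpa [pl] using h1

theorem eval_smul (g : MvPolynomial (Fin 5) K) (n : ℕ) (hg : g.IsHomogeneous n) (a : K)
    (y : Fin 5 → K) : eval (a • y) g = a ^ n * eval y g := by
  rw [eval_eq', eval_eq', Finset.mul_sum]
  refine Finset.sum_congr rfl fun d hd => ?_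
  have h1 : d.degree = n := by
    have := hg (mem_support_iff.mp hd)
    rw [← this, Finsupp.degree_eq_weight_one]
    rfl
  have h2 : ∏ i, (a • y) i ^ d i = a ^ n * ∏ i, y i ^ d i := by
    simp only [Pi.smul_apply, smul_eq_mul, mul_pow, Finset.prod_mul_distrib]
    rw [Finset.prod_pow_eq_pow_sum, ← Finsupp.degree_eq_sum, h1]
  rw [h2]
  ring

/-- the key: a relation between the coefficients gives a relation on the line -/
theorem key [Infinite K] (x w : Fin 5 → K) (h3 : w 3 = 0) (g : Fin 3 → MvPolynomial (Fin 5) K)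
    (hg : ∀ k, (g k).IsHomogeneous 4) (A B : Fin 3 → K)
    (h0 : ∑ k, A k * eval (ptC x w) (Fw (g k) 0) = 0)
    (h1 : ∀ n < 5, ∑ k, (A k * eval (ptC x w) (Fw (g k) (n + 1)) +
      B k * eval (ptC x w) (Fw (g k) n)) = 0) (a b : K) :
    ∑ k, (a * A k + b * B k) * eval (a • x + b • w) (g k) = 0 := by
  have hQ : ∑ k, (Polynomial.C (A k) + Polynomial.X * Polynomial.C (B k)) * pl x w (g k) = 0 := by
    ext n
    rw [Polynomial.finsetSum_coeff, Polynomial.coeff_zero]
    rcases n with _ | n
    · refine Eq.trans (Finset.sum_congr rfl fun k _ => ?_) h0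
      rw [add_mul, mul_assoc, Polynomial.coeff_add, Polynomial.coeff_C_mul,
        Polynomial.coeff_X_mul_zero, add_zero, coeff_pl x w h3]
    · have e : ∀ k, ((Polynomial.C (A k) + Polynomial.X * Polynomial.C (B k)) *
          pl x w (g k)).coeff (n + 1) = A k * (pl x w (g k)).coeff (n + 1) +
          B k * (pl x w (g k)).coeff n := fun k => by
        rw [add_mul, mul_assoc, Polynomial.coeff_add, Polynomial.coeff_C_mul,
          Polynomial.coeff_X_mul, Polynomial.coeff_C_mul]
      rw [Finset.sum_congr rfl fun k _ => e k]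
      by_cases hn : n < 5
      · simp only [coeff_pl x w h3]
        exact h1 n hn
      · refine Finset.sum_eq_zero fun k _ => ?_
        have hd := natDegree_pl x w (g k) 4 (hg k)
        rw [Polynomial.coeff_eq_zero_of_natDegree_lt (by omega),
          Polynomial.coeff_eq_zero_of_natDegree_lt (by omega), mul_zero, mul_zero, add_zero]
  -- the case `a ≠ 0`
  have hne : ∀ a b : K, a ≠ 0 →
      ∑ k, (a * A k + b * B k) * eval (a • x + b • w) (g k) = 0 := by
    intro a b ha
    have h2 := congrArg (Polynomial.eval (b / a)) hQ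
    rw [Polynomial.eval_finsetSum, Polynomial.eval_zero] at h2
    have h4 : ∀ k, (a * A k + b * B k) * eval (a • x + b • w) (g k) =
        a ^ 5 * ((Polynomial.C (A k) + Polynomial.X * Polynomial.C (B k)) *
          pl x w (g k)).eval (b / a) := by
      intro k
      have e1 : a • x + b • w = a • (x + (b / a) • w) := by
        rw [smul_add, smul_smul, mul_div_cancel₀ b ha]
      rw [e1, eval_smul (g k) 4 (hg k), Polynomial.eval_mul, eval_pl, Polynomial.eval_add,
        Polynomial.eval_mul, Polynomial.eval_C, Polynomial.eval_C, Polynomial.eval_X]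
      field_simp
    rw [Finset.sum_congr rfl fun k _ => h4 k, ← Finset.mul_sum, h2, mul_zero]
  by_cases ha : a = 0
  · -- a polynomial with infinitely many zeros
    let R : Polynomial K := ∑ k, (Polynomial.X * Polynomial.C (A k) + Polynomial.C (b * B k)) *
      pl (b • w) x (g k)
    have hR : ∀ s : K, R.eval s = ∑ k, (s * A k + b * B k) * eval (s • x + b • w) (g k) := by
      intro s
      simp only [R]
      rw [Polynomial.eval_finsetSum]
      refine Finset.sum_congr rfl fun k _ => ?_
      rw [Polynomial.eval_mul, eval_pl, Polynomial.eval_add, Polynomial.eval_mul,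
        Polynomial.eval_C, Polynomial.eval_C, Polynomial.eval_X, add_comm (b • w)]
    have hR0 : R = 0 := by
      refine Polynomial.eq_zero_of_infinite_isRoot R ?_
      refine Set.Infinite.mono (s := {s : K | s ≠ 0}) (fun s hs => ?_) ?_
      · change R.eval s = 0
        rw [hR]
        exact hne s b hs
      · exact (Set.finite_singleton (0 : K)).infinite_compl
    rw [← hR, hR0, Polynomial.eval_zero]
  · exact hne a b ha

/-- the matrix -/
def NM (g : Fin 3 → MvPolynomial (Fin 5) K) : Matrix (Fin 3 ⊕ Fin 3) (Fin 3 ⊕ Fin 3) (CC K) :=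
  fun j c => Sum.elim (fun k => Fw (g k) (finSumFinEquiv j : Fin 6).1)
    (fun k => match (finSumFinEquiv j : Fin 6).1 with
      | 0 => 0
      | n + 1 => Fw (g k) n) c

/-- the linear forms -/
def LL (φ : Fin 3 → Fin 5 → K) : Fin 3 ⊕ Fin 3 → CC K :=
  Sum.elim (fun k => ∑ j, C (φ k j) * xC K j) (fun k => ∑ j, C (φ k j) * uC K j)

end SgL_aux

open SgL_aux

theorem tSgL : S_BaL → S_DvL → S_FtL → S_Hfv → S_SgL := by
  intro hBaL hDvL hFtL _hHfv K _ _ f hf hTL V hV x w hx hw hx3 hw3 hw0
  obtain ⟨hV2, hVf⟩ := hV
  obtain ⟨i, e, d, hB⟩ := hBaL K V hV2 ⟨x, hx, hx3⟩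
  obtain ⟨φ, g, hφ, hφV, hg, hfg⟩ := hDvL K f V i e d hf hVf hB
  obtain ⟨hF0, hF1, -⟩ := hFtL K f φ g hfg
  -- the matrix and the linear forms
  have hNL : ∀ j : Fin 3 ⊕ Fin 3, (NM g *ᵥ LL φ) j = Fw f (finSumFinEquiv j : Fin 6).1 := by
    intro j
    rw [Matrix.mulVec, dotProduct, Fintype.sum_sum_type]
    simp only [NM, LL, Sum.elim_inl, Sum.elim_inr]
    rcases h : (finSumFinEquiv j : Fin 6).1 with _ | n
    · rw [hF0]
      simp only [zero_mul, Finset.sum_const_zero, add_zero]
      exact Finset.sum_congr rfl fun k _ => mul_comm _ _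
    · rw [hF1, ← Finset.sum_add_distrib]
      exact Finset.sum_congr rfl fun k _ => by ring
  have hφA : ∀ k, φ k ∈ Ann V := fun k => by
    have : φ k ∈ Submodule.span K (Set.range φ) := Submodule.subset_span ⟨k, rfl⟩
    have h2 : φ k ∈ (Submodule.span K (Set.range φ) : Set (Fin 5 → K)) := this
    rw [hφV] at h2
    exact h2
  refine ⟨(NM g).det, ?_, ?_⟩
  · -- the value of the determinant
    intro hdet
    have h1 : ((NM g).map (eval (ptC x w))).det = 0 := by
      rw [← hdet, RingHom.map_det]
      rfl
    obtain ⟨AB, hAB0, hAB⟩ := Matrix.exists_mulVec_eq_zero_iff.mpr h1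
    set A : Fin 3 → K := fun k => AB (Sum.inl k) with hA
    set B : Fin 3 → K := fun k => AB (Sum.inr k) with hB'
    have hrow : ∀ m : Fin 6, ∑ k, eval (ptC x w) (Fw (g k) m.1) * A k +
        ∑ k, eval (ptC x w) (match m.1 with
          | 0 => 0
          | n + 1 => Fw (g k) n) * B k = 0 := by
      intro m
      have h2 := congrFun hAB (finSumFinEquiv.symm m)
      rw [Matrix.mulVec, dotProduct, Fintype.sum_sum_type] at h2
      simp only [Matrix.map_apply, NM, Sum.elim_inl, Sum.elim_inr, Equiv.apply_symm_apply,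
        Pi.zero_apply] at h2
      exact h2
    have h0 : ∑ k, A k * eval (ptC x w) (Fw (g k) 0) = 0 := by
      have := hrow 0
      simp only [Fin.val_zero, map_zero, zero_mul, Finset.sum_const_zero, add_zero] at this
      refine Eq.trans (Finset.sum_congr rfl fun k _ => mul_comm _ _) this
    have h1 : ∀ n < 5, ∑ k, (A k * eval (ptC x w) (Fw (g k) (n + 1)) +
        B k * eval (ptC x w) (Fw (g k) n)) = 0 := by
      intro n hn
      have := hrow ⟨n + 1, by omega⟩
      simp only at this
      rw [← Finset.sum_add_distrib] at this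
      refine Eq.trans (Finset.sum_congr rfl fun k _ => ?_) this
      ring
    have hkey := key x w hw3 g hg A B h0 h1
    -- the basis `x`, `w` of `V`
    have hli : LinearIndependent K ![x, w] := by
      rw [LinearIndependent.pair_iff]
      intro s t hst
      have hs : s = 0 := by
        have := congrFun hst 3
        simp only [Pi.add_apply, Pi.smul_apply, smul_eq_mul, Pi.zero_apply, hw3, mul_zero,
          add_zero] at this
        exact (mul_eq_zero.mp this).resolve_right hx3
      refine ⟨hs, ?_⟩
      rw [hs, zero_smul, zero_add] at hst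
      exact (smul_eq_zero.mp hst).resolve_right hw0
    let bv : Fin 2 → V := ![⟨x, hx⟩, ⟨w, hw⟩]
    have hliV : LinearIndependent K bv := by
      have : LinearIndependent K (fun i => (V.subtype (bv i))) := by
        have e : (fun i => (V.subtype (bv i))) = ![x, w] := by
          funext i
          fin_cases i <;> rfl
        rw [e]
        exact hli
      exact LinearIndependent.of_comp V.subtype this
    let bs : Module.Basis (Fin 2) K V := basisOfLinearIndependentOfCardEqFinrank hliV (by
      rw [hV2]; rfl)
    have hbs0 : bs 0 = ⟨x, hx⟩ := by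
      simp only [bs, coe_basisOfLinearIndependentOfCardEqFinrank]
      rfl
    have hbs1 : bs 1 = ⟨w, hw⟩ := by
      simp only [bs, coe_basisOfLinearIndependentOfCardEqFinrank]
      rfl
    -- vectors with given values
    have hsurj : ∀ c : Fin 3 → K, ∃ v : Fin 5 → K, ∀ k, ∑ j, φ k j * v j = c k := by
      intro c
      have hr : (Matrix.of φ).rank = 3 := by
        have := LinearIndependent.rank_matrix (M := Matrix.of φ) hφ
        simpa using this
      have htop : LinearMap.range (Matrix.of φ).mulVecLin = ⊤ := by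
        refine Submodule.eq_top_of_finrank_eq ?_
        rw [Module.finrank_fin_fun]
        exact hr
      have hc : c ∈ LinearMap.range (Matrix.of φ).mulVecLin := by
        rw [htop]
        trivial
      obtain ⟨v, hv⟩ := hc
      refine ⟨v, fun k => ?_⟩
      rw [← hv]
      rfl
    obtain ⟨xd, hxd⟩ := hsurj A
    obtain ⟨wd, hwd⟩ := hsurj B
    let μ : V →ₗ[K] (Fin 5 → K) := bs.constr K ![xd, wd]
    have hμ0 : μ ⟨x, hx⟩ = xd := by
      rw [← hbs0]
      simp only [μ, Module.Basis.constr_basis]
      rfl
    have hμ1 : μ ⟨w, hw⟩ = wd := by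
      rw [← hbs1]
      simp only [μ, Module.Basis.constr_basis]
      rfl
    have hvan : ∀ v : V, ∑ j, eval (v : Fin 5 → K) (pderiv j f) * μ v j = 0 := by
      intro v
      -- coordinates of `v`
      have hv : v = bs.repr v 0 • (⟨x, hx⟩ : V) + bs.repr v 1 • (⟨w, hw⟩ : V) := by
        have := bs.sum_repr v
        rw [Fin.sum_univ_two, hbs0, hbs1] at this
        exact this.symm
      generalize bs.repr v 0 = a at hv
      generalize bs.repr v 1 = b at hv
      have hv' : (v : Fin 5 → K) = a • x + b • w := by
        rw [hv]; rfl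
      have hμv : μ v = a • xd + b • wd := by
        rw [hv, map_add, map_smul, map_smul, hμ0, hμ1]
      have hd : ∀ j, eval (v : Fin 5 → K) (pderiv j f) = ∑ k, φ k j * eval (v : Fin 5 → K) (g k) := by
        intro j
        rw [hfg, map_sum, map_sum]
        refine Finset.sum_congr rfl fun k _ => ?_
        have e1 : eval (v : Fin 5 → K) (∑ l, C (φ k l) * X l) = 0 := by
          simp only [map_sum, map_mul, eval_C, eval_X]
          exact hφA k v v.2
        have e2 : pderiv j (∑ l, C (φ k l) * X l : MvPolynomial (Fin 5) K) = C (φ k j) := by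
          simp only [map_sum, pderiv_C_mul, pderiv_X, Pi.single_apply]
          simp
        rw [Derivation.leibniz, smul_eq_mul, smul_eq_mul, map_add, map_mul, map_mul, e1, e2,
          eval_C, zero_mul, zero_add, mul_comm]
      have h5 : ∀ k, ∑ j, φ k j * μ v j = a * A k + b * B k := by
        intro k
        rw [hμv, ← hxd k, ← hwd k, Finset.mul_sum, Finset.mul_sum, ← Finset.sum_add_distrib]
        refine Finset.sum_congr rfl fun j _ => ?_
        simp only [Pi.add_apply, Pi.smul_apply, smul_eq_mul]
        ring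
      calc ∑ j, eval (v : Fin 5 → K) (pderiv j f) * μ v j
          = ∑ j, ∑ k, φ k j * eval (v : Fin 5 → K) (g k) * μ v j := by
            refine Finset.sum_congr rfl fun j _ => ?_
            rw [hd j, Finset.sum_mul]
        _ = ∑ k, ∑ j, φ k j * eval (v : Fin 5 → K) (g k) * μ v j := Finset.sum_comm
        _ = ∑ k, (a * A k + b * B k) * eval (v : Fin 5 → K) (g k) := by
            refine Finset.sum_congr rfl fun k _ => ?_
            rw [← h5 k, Finset.sum_mul]
            exact Finset.sum_congr rfl fun j _ => by ring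
        _ = 0 := by
            rw [hv']
            exact hkey a b
    have hmem := hTL.tr V ⟨hV2, hVf⟩ μ hvan
    apply hAB0
    funext c
    rcases c with k | k
    · have h6 := hφA k _ (hmem ⟨x, hx⟩)
      rw [hμ0, hxd k] at h6
      exact h6
    · have h6 := hφA k _ (hmem ⟨w, hw⟩)
      rw [hμ1, hwd k] at h6
      exact h6
  · -- `σ` times the ideal of the line
    have hL : ∀ c, (NM g).det * LL φ c ∈ JC f (Finset.range 6) := by
      intro c
      have h1 : (NM g).adjugate *ᵥ (NM g *ᵥ LL φ) = (NM g).det • LL φ := by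
        rw [Matrix.mulVec_mulVec, Matrix.adjugate_mul, Matrix.smul_mulVec, Matrix.one_mulVec]
      have h2 := congrFun h1 c
      rw [Pi.smul_apply, smul_eq_mul] at h2
      rw [← h2, Matrix.mulVec, dotProduct]
      refine Ideal.sum_mem _ fun j _ => Ideal.mul_mem_left _ _ ?_
      rw [hNL j]
      exact Ideal.subset_span ⟨_, Finset.mem_range.mpr (finSumFinEquiv j : Fin 6).2, rfl⟩
    -- forms vanishing on `V` are combinations of the `φ k`
    have hcomb : ∀ ψ ∈ Ann V, ∃ c : Fin 3 → K, ∀ j, ψ j = ∑ k, c k * φ k j := by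
      intro ψ hψ
      have h1 : ψ ∈ (Submodule.span K (Set.range φ) : Set (Fin 5 → K)) := by
        rw [hφV]
        exact hψ
      obtain ⟨c, hc⟩ := (Submodule.mem_span_range_iff_exists_fun K).mp h1
      refine ⟨c, fun j => ?_⟩
      rw [← hc]
      simp
    have hform : ∀ ψ ∈ Ann V, ∀ z : Fin 5 → CC K,
        (∀ k, (NM g).det * (∑ j, C (φ k j) * z j) ∈ JC f (Finset.range 6)) →
        (NM g).det * (∑ j, C (ψ j) * z j) ∈ JC f (Finset.range 6) := by
      intro ψ hψ z hz
      obtain ⟨c, hc⟩ := hcomb ψ hψ
      have e1 : ∑ j, C (ψ j) * z j = ∑ k, C (c k) * ∑ j, C (φ k j) * z j := by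
        simp only [hc, map_sum, map_mul, Finset.sum_mul, Finset.mul_sum]
        rw [Finset.sum_comm]
        exact Finset.sum_congr rfl fun k _ => Finset.sum_congr rfl fun j _ => by ring
      rw [e1, Finset.mul_sum]
      refine Ideal.sum_mem _ fun k _ => ?_
      rw [mul_left_comm]
      exact Ideal.mul_mem_left _ _ (hz k)
    intro y hy
    refine Submodule.span_induction (p := fun y _ => (NM g).det * y ∈ JC f (Finset.range 6))
      ?_ ?_ ?_ ?_ hy
    · rintro y (⟨ψ, hψ, rfl⟩ | ⟨ψ, hψ, rfl⟩)
      · exact hform ψ hψ (xC K) fun k => hL (Sum.inl k)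
      · exact hform ψ hψ (uC K) fun k => hL (Sum.inr k)
    · rw [mul_zero]
      exact Ideal.zero_mem _
    · intro y z _ _ hy hz
      rw [mul_add]
      exact Ideal.add_mem _ hy hz
    · intro r y _ hy
      rw [smul_eq_mul, mul_left_comm]
      exact Ideal.mul_mem_left _ _ hy

end Pool.Agent.QV
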