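import Pool.Agent.Lib.MP_b53bfe_ag.Q.SpecL

/-!
# Disproof of Q1 of MP_b53bfe_ag, module SpP: special coefficients (helper42)
-/

set_option autoImplicit false

noncomputable section

namespace Pool.Agent.QV

open Matrix
open MvPolynomial
open Pool.Agent.FY (Res)

namespace SpP_aux

/-- the linear polynomials `e_j + T d_j` -/
def LL {K : Type} [Field K] (e d : Fin 5 → K) (j : Fin 5) : Polynomial K :=
  Polynomial.C (e j) + Polynomial.X * Polynomial.C (d j)

theorem mP_inj {p q : Fin 5} (hpq : p ≠ q) : Function.Injective (mP p q) := by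
  intro k k' h
  have h1 := congrArg (fun m : Mo5 => m.1 q) h
  simp only [mP, Finsupp.add_apply, Finsupp.single_eq_same] at h1
  rw [Finsupp.single_eq_of_ne (fun h => hpq h.symm), Finsupp.single_eq_of_ne (fun h => hpq h.symm)] at h1
  exact Fin.ext (by omega)

theorem card_eq {p q : Fin 5} (hpq : p ≠ q) :
    Nat.card (({j : Fin 5 // j ≠ p ∧ j ≠ q} ⊕ {j : Fin 5 // j ≠ p ∧ j ≠ q}) ⊕
      {m : Mo5 // ∀ k, m ≠ mP p q k}) = Nat.card Mo5 := by
  classical
  have h3 : Nat.card {j : Fin 5 // j ≠ p ∧ j ≠ q} = 3 := by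
    rw [Nat.card_eq_fintype_card, Fintype.card_subtype]
    revert hpq
    revert p q
    decide
  have e1 : Fin 6 ≃ Set.range (mP p q) := Equiv.ofInjective _ (mP_inj hpq)
  have e2 : {m : Mo5 // ∀ k, m ≠ mP p q k} ≃ ↥((Set.range (mP p q))ᶜ) :=
    Equiv.subtypeEquivRight fun m => by
      constructor
      · rintro h ⟨k, hk⟩
        exact h k hk.symm
      · rintro h k hk
        exact h ⟨k, hk.symm⟩
  have e3 : Fin 6 ⊕ {m : Mo5 // ∀ k, m ≠ mP p q k} ≃ Mo5 :=
    (Equiv.sumCongr e1 e2).trans (Equiv.Set.sumCompl _)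
  rw [← Nat.card_congr e3, Nat.card_sum, Nat.card_sum, Nat.card_sum, h3, Nat.card_eq_fintype_card (α := Fin 6),
    Fintype.card_fin]

theorem coef {K : Type} [Field K] (F : Subfield K) (e d : Fin 5 → K) (he : ∀ j, e j ∈ F)
    (hd : ∀ j, d j ∈ F) (m : Fin 5 →₀ ℕ) (k : ℕ) :
    (m.prod fun j n => LL e d j ^ n).coeff k ∈ F := by
  let L' : Fin 5 → Polynomial F := fun j =>
    Polynomial.C (⟨e j, he j⟩ : F) + Polynomial.X * Polynomial.C (⟨d j, hd j⟩ : F)
  have h1 : (m.prod fun j n => LL e d j ^ n) =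
      Polynomial.map F.subtype (m.prod fun j n => L' j ^ n) := by
    rw [Finsupp.prod, Finsupp.prod, Polynomial.map_prod]
    refine Finset.prod_congr rfl fun j _ => ?_
    rw [Polynomial.map_pow, LL, Polynomial.map_add, Polynomial.map_mul, Polynomial.map_C, Polynomial.map_C,
      Polynomial.map_X]
    rfl
  rw [h1, Polynomial.coeff_map]
  exact Subtype.prop _

theorem spec {K : Type} [Field K] {p q : Fin 5} (e d : Fin 5 → K) (ep : e p = 1) (eq : e q = 0)
    (dp : d p = 0) (dq : d q = 1) (k : Fin 6) :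
    ((mP p q k).1.prod fun j n => LL e d j ^ n) = Polynomial.X ^ (k : ℕ) := by
  have h0 : ∀ j : Fin 5, LL e d j ^ 0 = 1 := fun j => pow_zero _
  rw [mP]
  dsimp only
  rw [Finsupp.prod_add_index' h0 (fun j a b => pow_add _ _ _)]
  have h1 : (Finsupp.single p (5 - (k : ℕ))).prod (fun j n => LL e d j ^ n) = LL e d p ^ (5 - (k : ℕ)) :=
    Finsupp.prod_single_index (h0 p)
  have h2 : (Finsupp.single q (k : ℕ)).prod (fun j n => LL e d j ^ n) = LL e d q ^ (k : ℕ) :=
    Finsupp.prod_single_index (h0 q)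
  refine (congrArg₂ (· * ·) h1 h2).trans ?_
  rw [LL, LL, ep, eq, dp, dq]
  simp

end SpP_aux

open SpP_aux in
theorem tSpP : S_SpP := by
  intro K _ _ f V p q e d hf hV hB
  have hpq : p ≠ q := by
    intro h
    have h1 := hB.ep
    rw [h, hB.eq] at h1
    exact zero_ne_one h1
  refine ⟨?_, card_eq hpq⟩
  set F := IntermediateField.adjoin ℚ (Set.range (parP f p q e d)) with hF
  have hpar : ∀ x, parP f p q e d x ∈ F := fun x =>
    IntermediateField.subset_adjoin _ _ ⟨x, rfl⟩
  have he : ∀ j, e j ∈ F := by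
    intro j
    by_cases h1 : j = p
    · rw [h1, hB.ep]
      exact F.one_mem
    by_cases h2 : j = q
    · rw [h2, hB.eq]
      exact F.zero_mem
    exact hpar (Sum.inl (Sum.inl ⟨j, h1, h2⟩))
  have hd : ∀ j, d j ∈ F := by
    intro j
    by_cases h1 : j = p
    · rw [h1, hB.dp]
      exact F.zero_mem
    by_cases h2 : j = q
    · rw [h2, hB.dq]
      exact F.one_mem
    exact hpar (Sum.inl (Sum.inr ⟨j, h1, h2⟩))
  have hns : ∀ m : Mo5, (∀ k, m ≠ mP p q k) → coeff m.1 f ∈ F := fun m hm => hpar (Sum.inr ⟨m, hm⟩)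
  -- the polynomial identity
  have hz : aeval (LL e d) f = 0 := by
    refine Polynomial.funext fun b => ?_
    have h1 : (Polynomial.eval b) (aeval (LL e d) f) = eval (fun j => e j + b * d j) f := by
      rw [← Polynomial.coe_evalRingHom, aeval_def, ← MvPolynomial.coe_eval₂Hom, ← RingHom.comp_apply,
        MvPolynomial.eval]
      congr 1
      refine MvPolynomial.ringHom_ext ?_ ?_
      · intro r
        simp
      · intro j
        simp only [LL, RingHom.comp_apply, MvPolynomial.coe_eval₂Hom, MvPolynomial.eval₂_X, Polynomial.coe_evalRingHom,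
          Polynomial.eval_add, Polynomial.eval_mul, Polynomial.eval_C, Polynomial.eval_X]
    rw [h1, Polynomial.eval_zero]
    refine hV _ ?_
    rw [hB.sp]
    have h2 : (fun j => e j + b * d j) = e + b • d := rfl
    rw [h2]
    exact Submodule.add_mem _ (Submodule.subset_span (Or.inl rfl))
      (Submodule.smul_mem _ _ (Submodule.subset_span (Or.inr rfl)))
  have hsum : ∀ k : ℕ, ∑ m : Mo5, coeff m.1 f * (m.1.prod fun j n => LL e d j ^ n).coeff k = 0 := by
    intro k
    have h1 : aeval (LL e d) f = ∑ m : Mo5, Polynomial.C (coeff m.1 f) * m.1.prod fun j n => LL e d j ^ n := by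
      conv_lhs => rw [← quin_coeff f hf, quin, map_sum]
      refine Finset.sum_congr rfl fun m _ => ?_
      rw [aeval_monomial]
      rfl
    have h2 := congrArg (fun P : Polynomial K => P.coeff k) hz
    rw [h1, Polynomial.finsetSum_coeff, Polynomial.coeff_zero] at h2
    rw [← h2]
    refine Finset.sum_congr rfl fun m _ => ?_
    rw [Polynomial.coeff_C_mul]
  intro m
  by_cases hm : ∀ k, m ≠ mP p q k
  · exact hns m hm
  push Not at hm
  obtain ⟨k, rfl⟩ := hm
  have h1 := hsum k
  rw [← Finset.add_sum_erase _ _ (Finset.mem_univ (mP p q k)), spec e d hB.ep hB.eq hB.dp hB.dq,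
    Polynomial.coeff_X_pow, if_pos rfl, mul_one] at h1
  rw [eq_neg_of_add_eq_zero_left h1]
  refine F.neg_mem (F.sum_mem fun m hm => ?_)
  by_cases h2 : ∀ k, m ≠ mP p q k
  · exact F.mul_mem (hns m h2) (coef F.toSubfield e d he hd _ _)
  · push Not at h2
    obtain ⟨k', rfl⟩ := h2
    have h3 : (k : ℕ) ≠ k' := by
      intro h
      rw [Fin.ext h] at hm
      exact (Finset.mem_erase.1 hm).1 rfl
    rw [spec e d hB.ep hB.eq hB.dp hB.dq, Polynomial.coeff_X_pow, if_neg h3, mul_zero]
    exact F.zero_mem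

end Pool.Agent.QV
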