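import Pool.Agent.Lib.MP_b53bfe_ag.Q.SpecL

/-!
# Disproof of Q1 of MP_b53bfe_ag for quintic threefolds, module ThF: flatness of the specialization (helper65)
-/

set_option autoImplicit false

noncomputable section

namespace Pool.Agent.QV

open Matrix
open MvPolynomial
open Pool.Agent.FY (Res)

namespace ThF_aux

attribute [local instance] MvPolynomial.algebraMvPolynomial in
/-- an injective map from a domain to a field is flat, also on the polynomial rings -/
theorem flat_map {A K : Type} [CommRing A] [IsDomain A] [Field K] (φ : A →+* K)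
    (hφ : Function.Injective φ) (σ : Type) :
    (MvPolynomial.map φ : MvPolynomial σ A →+* MvPolynomial σ K).Flat := by
  letI : Algebra A K := φ.toAlgebra
  haveI : FaithfulSMul A K := (faithfulSMul_iff_algebraMap_injective A K).mpr hφ
  letI := FractionRing.liftAlgebra A K
  haveI := FractionRing.isScalarTower_liftAlgebra A K
  haveI : Module.Flat A (FractionRing A) := IsLocalization.flat _ (nonZeroDivisors A)
  haveI : Module.Flat A K := Module.Flat.trans A (FractionRing A) K
  have h : Algebra.IsPushout A (MvPolynomial σ A) K (MvPolynomial σ K) := inferInstance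
  have h2 : Module.Flat (MvPolynomial σ A) (MvPolynomial σ K) :=
    Module.Flat.isBaseChange A (MvPolynomial σ A) K _ h.out
  exact h2

theorem uC_map {R S : Type} [CommRing R] [CommRing S] (φ : R →+* S) (j : Fin 5) :
    map φ (uC R j) = uC S j := by
  unfold uC
  refine Fin.succAboveCases (3 : Fin 5) ?_ (fun i => ?_) j
  · rw [Fin.insertNth_apply_same, Fin.insertNth_apply_same, map_zero]
  · rw [Fin.insertNth_apply_succAbove, Fin.insertNth_apply_succAbove, map_X]

theorem xC_map {R S : Type} [CommRing R] [CommRing S] (φ : R →+* S) (j : Fin 5) :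
    map φ (xC R j) = xC S j := by
  unfold xC
  rw [map_X]

/-- `Fw` commutes with the maps of the coefficients -/
theorem Fw_map {R S : Type} [CommRing R] [CommRing S] (φ : R →+* S) (g : MvPolynomial (Fin 5) R)
    (j : ℕ) : map φ (Fw g j) = Fw (map φ g) j := by
  unfold Fw
  rw [← Polynomial.coeff_map]
  congr 1
  induction g using MvPolynomial.induction_on with
  | C a =>
    rw [map_C, aeval_C, aeval_C]
    simp [Polynomial.algebraMap_apply, algebraMap_eq]
  | add p q hp hq => rw [map_add, Polynomial.map_add, hp, hq, map_add, map_add]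
  | mul_X p i hp =>
    rw [map_mul, Polynomial.map_mul, hp, map_mul, map_mul, map_X, aeval_X, aeval_X]
    congr 1
    rw [Polynomial.map_add, Polynomial.map_mul, Polynomial.map_C, Polynomial.map_C,
      Polynomial.map_X, xC_map, uC_map]

theorem Fw_quin {K : Type} [Field K] (c : Mo5 → K) (j : ℕ) :
    Fw (quin c) j = ∑ m : Mo5, C (c m) * Fw (monomial m.1 (1 : K)) j := by
  unfold Fw quin
  rw [map_sum, Polynomial.finset_sum_coeff]
  refine Finset.sum_congr rfl fun m _ => ?_
  rw [← Polynomial.coeff_C_mul]
  congr 1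
  have h1 : (monomial m.1 (c m) : MvPolynomial (Fin 5) K) = C (c m) * monomial m.1 1 := by
    rw [C_mul_monomial, mul_one]
  rw [h1, map_mul, aeval_C]
  rfl

theorem ThU_rename {K : Type} [Field K] [CharZero K] (f : MvPolynomial (Fin 5) K) (p : CC ℚ) :
    ThU f (rename Sum.inl p) = map (algebraMap ℚ K) p := by
  unfold ThU
  induction p using MvPolynomial.induction_on with
  | C a => rw [rename_C, aeval_C, map_C]; rfl
  | add p q hp hq => rw [map_add, map_add, map_add, hp, hq]
  | mul_X p i hp => rw [map_mul, map_mul, map_mul, hp, rename_X, aeval_X, map_X]; rfl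

theorem ThU_eq {K : Type} [Field K] [CharZero K] (f : MvPolynomial (Fin 5) K) :
    (ThU f).toRingHom = (MvPolynomial.map
      (aeval (fun m : Mo5 => coeff m.1 f) : MvPolynomial Mo5 ℚ →ₐ[ℚ] K).toRingHom).comp
      (sumAlgEquiv ℚ VC Mo5).toAlgHom.toRingHom := by
  refine MvPolynomial.ringHom_ext (fun a => ?_) (fun v => ?_)
  · change aeval _ (C a) = MvPolynomial.map _ (sumAlgEquiv ℚ VC Mo5 (C a))
    rw [sumAlgEquiv_C_inl, map_C, aeval_C]
    change algebraMap ℚ (CC K) a = C (aeval _ (C a))
    rw [aeval_C]
    rfl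
  · rcases v with v | m
    · change aeval _ (X (Sum.inl v)) = MvPolynomial.map _ (sumAlgEquiv ℚ VC Mo5 (X (Sum.inl v)))
      rw [sumAlgEquiv_X_inl, map_X, aeval_X]
      rfl
    · change aeval _ (X (Sum.inr m)) = MvPolynomial.map _ (sumAlgEquiv ℚ VC Mo5 (X (Sum.inr m)))
      rw [sumAlgEquiv_X_inr, map_C, aeval_X]
      change C (coeff m.1 f) = C (aeval _ (X m))
      rw [aeval_X]

end ThF_aux

theorem tThF : S_ThF := by
  intro K _ _ f hf
  constructor
  · rw [ThF_aux.ThU_eq f]
    refine RingHom.Flat.comp (RingHom.Flat.of_bijective (sumAlgEquiv ℚ VC Mo5).bijective) ?_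
    exact ThF_aux.flat_map _ hf.2 VC
  · intro j
    have h1 : Fw f j = Fw (quin fun m : Mo5 => coeff m.1 f) j := by rw [quin_coeff f hf.1]
    rw [h1, ThF_aux.Fw_quin, FU, map_sum]
    refine Finset.sum_congr rfl fun m _ => ?_
    rw [map_mul, pU, ThF_aux.ThU_rename, ThF_aux.Fw_map, map_monomial, map_one]
    congr 1
    unfold ThU
    rw [aeval_X]
    rfl

end Pool.Agent.QV
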