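import Pool.Agent.Lib.MP_b53bfe_ag.Q.SpecL

/-!
# Disproof of Q1 of MP_b53bfe_ag for quintic threefolds, phase 3: module TrL

Transversality: on a quintic with algebraically independent coefficients the lines are rigid.
-/

set_option autoImplicit false

noncomputable section

namespace Pool.Agent.QV

open Matrix
open MvPolynomial
open Pool.Agent.FY (Res)

namespace TrL_aux

variable {K : Type} [Field K]

/-- the restriction to the line through `v` with direction `w` -/
def G (v w : Fin 5 → K) (g : MvPolynomial (Fin 5) K) : Polynomial K :=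
  aeval (fun j => Polynomial.C (v j) + Polynomial.C (w j) * Polynomial.X) g

lemma G_eval (v w : Fin 5 → K) (g : MvPolynomial (Fin 5) K) (t : K) :
    (G v w g).eval t = eval (fun j => v j + w j * t) g := by
  induction g using MvPolynomial.induction_on with
  | C a => simp [G]
  | add p q hp hq =>
    rw [map_add, ← hp, ← hq, G, map_add, Polynomial.eval_add]
    rfl
  | mul_X p i hp =>
    rw [map_mul, ← hp, G, map_mul, Polynomial.eval_mul]
    simp [G]

lemma G_der (v w : Fin 5 → K) (g : MvPolynomial (Fin 5) K) :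
    Polynomial.derivative (G v w g) = ∑ j, G v w (pderiv j g) * Polynomial.C (w j) := by
  classical
  induction g using MvPolynomial.induction_on with
  | C a => simp [G]
  | add p q hp hq =>
    have e : G v w (p + q) = G v w p + G v w q := by simp [G]
    rw [e, Polynomial.derivative_add, hp, hq, ← Finset.sum_add_distrib]
    refine Finset.sum_congr rfl fun j _ => ?_
    simp only [G, map_add]
    ring
  | mul_X p i hp =>
    have e : G v w (p * X i) = G v w p * (Polynomial.C (v i) + Polynomial.C (w i) * Polynomial.X) := by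
      simp [G]
    have e2 : ∀ j, G v w (pderiv j (p * X i)) * Polynomial.C (w j) =
        (G v w (pderiv j p) * Polynomial.C (w j)) *
          (Polynomial.C (v i) + Polynomial.C (w i) * Polynomial.X) +
        G v w p * (if j = i then Polynomial.C (w j) else 0) := by
      intro j
      by_cases h : j = i
      · subst h
        rw [pderiv_mul, pderiv_X_self, if_pos rfl]
        simp only [G, map_add, map_mul, aeval_X, mul_one]
        ring
      · rw [pderiv_mul, pderiv_X_of_ne (Ne.symm h), if_neg h]
        simp only [G, map_mul, aeval_X, mul_zero, add_zero]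
        ring
    rw [e, Polynomial.derivative_mul, hp, Finset.sum_congr rfl fun j _ => e2 j,
      Finset.sum_add_distrib, ← Finset.sum_mul, ← Finset.mul_sum]
    simp

/-- the derivative in the direction of the subspace is zero -/
lemma tangent [CharZero K] {f : MvPolynomial (Fin 5) K} {V : Submodule K (Fin 5 → K)}
    (hV : ∀ u ∈ V, eval u f = 0) {v w : Fin 5 → K} (hv : v ∈ V) (hw : w ∈ V) :
    ∑ j, eval v (pderiv j f) * w j = 0 := by
  have h0 : G v w f = 0 := by
    apply Polynomial.funext
    intro t
    rw [G_eval, Polynomial.eval_zero]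
    have h1 : (fun j => v j + w j * t) = v + t • w := by
      funext j
      simp [mul_comm]
    rw [h1]
    exact hV _ (V.add_mem hv (V.smul_mem t hw))
  have h1 := G_der v w f
  rw [h0, Polynomial.derivative_zero] at h1
  have h2 := congrArg (Polynomial.eval 0) h1
  rw [Polynomial.eval_zero, Polynomial.eval_finsetSum] at h2
  rw [h2]
  have h3 : (fun j => v j + w j * 0) = v := by
    funext j
    simp
  refine Finset.sum_congr rfl fun j _ => ?_
  rw [Polynomial.eval_mul, G_eval, Polynomial.eval_C, h3]

variable (D : Derivation ℤ K K) (z : Fin 5 → K)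

/-- the derivative of the value minus the contribution of the point -/
def T (g : MvPolynomial (Fin 5) K) : K := D (eval z g) - ∑ j, eval z (pderiv j g) * D (z j)

lemma T_add (g h : MvPolynomial (Fin 5) K) : T D z (g + h) = T D z g + T D z h := by
  simp only [T, map_add, add_mul, Finset.sum_add_distrib]
  ring

lemma T_mul (g h : MvPolynomial (Fin 5) K) :
    T D z (g * h) = T D z g * eval z h + eval z g * T D z h := by
  have h1 : ∑ j, eval z (pderiv j (g * h)) * D (z j) =
      (∑ j, eval z (pderiv j g) * D (z j)) * eval z h +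
        eval z g * ∑ j, eval z (pderiv j h) * D (z j) := by
    rw [Finset.sum_mul, Finset.mul_sum, ← Finset.sum_add_distrib]
    refine Finset.sum_congr rfl fun j _ => ?_
    rw [pderiv_mul, map_add, map_mul, map_mul]
    ring
  rw [T, h1, map_mul, D.leibniz, T, T, smul_eq_mul, smul_eq_mul]
  ring

lemma T_C (c : K) : T D z (C c) = D c := by
  simp [T]

lemma T_one : T D z 1 = 0 := by
  simp [T]

lemma T_X (i : Fin 5) : T D z (X i) = 0 := by
  classical
  simp [T, pderiv_X, Pi.single_apply, apply_ite (eval z), ite_mul]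

lemma T_pow (g : MvPolynomial (Fin 5) K) (hg : T D z g = 0) (n : ℕ) : T D z (g ^ n) = 0 := by
  induction n with
  | zero => rw [pow_zero, T_one]
  | succ n ih => rw [pow_succ, T_mul, ih, hg, zero_mul, mul_zero, add_zero]

lemma T_prod (s : Finset (Fin 5)) (g : Fin 5 → MvPolynomial (Fin 5) K)
    (hg : ∀ i, T D z (g i) = 0) : T D z (∏ i ∈ s, g i) = 0 := by
  classical
  induction s using Finset.induction_on with
  | empty => rw [Finset.prod_empty, T_one]
  | insert a s ha ih => rw [Finset.prod_insert ha, T_mul, ih, hg, zero_mul, mul_zero, add_zero]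

lemma T_monomial (m : Fin 5 →₀ ℕ) (c : K) :
    T D z (monomial m c) = D c * eval z (monomial m 1) := by
  have h1 : T D z (m.prod fun n e => (X n : MvPolynomial (Fin 5) K) ^ e) = 0 :=
    T_prod D z _ _ fun i => T_pow D z _ (T_X D z i) _
  rw [monomial_eq, T_mul, h1, mul_zero, add_zero, T_C, monomial_eq, map_mul, eval_C, one_mul]

lemma T_sum {α : Type} (s : Finset α) (g : α → MvPolynomial (Fin 5) K) :
    T D z (∑ i ∈ s, g i) = ∑ i ∈ s, T D z (g i) := by
  classical
  induction s using Finset.induction_on with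
  | empty => simp [T]
  | insert a s ha ih => rw [Finset.sum_insert ha, T_add, ih, Finset.sum_insert ha]

lemma T_quin (f : MvPolynomial (Fin 5) K) (hf : f.IsHomogeneous 5) :
    T D z f = ∑ m : Mo5, D (coeff m.1 f) * eval z (monomial m.1 1) := by
  conv_lhs => rw [← quin_coeff f hf]
  rw [quin, T_sum]
  exact Finset.sum_congr rfl fun m _ => T_monomial D z _ _

lemma mP_q {p q : Fin 5} (h : p ≠ q) (k : Fin 6) : (mP p q k).1 q = (k : ℕ) := by
  simp [mP, h]

lemma mP_inj {p q : Fin 5} (h : p ≠ q) : Function.Injective (mP p q) := by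
  intro k l hkl
  have h1 := congrArg (fun m : Mo5 => m.1 q) hkl
  simp only [mP_q h] at h1
  exact Fin.ext h1

/-- the value of a special monomial at a point with coordinates `1`, `b` -/
lemma eval_mP {p q : Fin 5} {b : K} (h1 : z p = 1) (h2 : z q = b) (k : Fin 6) :
    eval z (monomial (mP p q k).1 (1 : K)) = b ^ (k : ℕ) := by
  have e : monomial (mP p q k).1 (1 : K) = X p ^ (5 - (k : ℕ)) * X q ^ (k : ℕ) := by
    rw [X_pow_eq_monomial, X_pow_eq_monomial, monomial_mul, mul_one]
    rfl
  rw [e, map_mul, map_pow, map_pow, eval_X, eval_X, h1, h2, one_pow, one_mul]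

/-- a derivation with given values on an independent family -/
lemma exists_der [CharZero K] (hD : S_DerG) {ι : Type} [Finite ι] {p : ι → K}
    (hp : AlgebraicIndependent ℚ p) (δ : ι → K) :
    ∃ D : Derivation ℤ K K, ∀ i, D (p i) = δ i := by
  classical
  have := Fintype.ofFinite ι
  obtain ⟨D, h⟩ := hD K ι p hp
  refine ⟨∑ i, δ i • D i, fun j => ?_⟩
  let E : Derivation ℤ K K →+ K := ⟨⟨fun D => D (p j), by simp⟩, fun _ _ => by simp⟩
  have hE : (∑ i, δ i • D i) (p j) = ∑ i, (δ i • D i) (p j) := map_sum E _ _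
  rw [hE, Finset.sum_eq_single j]
  · rw [Derivation.smul_apply, h, if_pos rfl, smul_eq_mul, mul_one]
  · intro i _ hij
    rw [Derivation.smul_apply, h, if_neg hij, smul_zero]
  · exact fun hj => absurd (Finset.mem_univ j) hj

/-- a polynomial of degree at most `5` with infinitely many zeros -/
lemma coeffs_zero [CharZero K] (a : Fin 6 → K) (h : ∀ b : ℕ, ∑ k, a k * (b : K) ^ (k : ℕ) = 0)
    (k : Fin 6) : a k = 0 := by
  have h0 : (∑ k : Fin 6, Polynomial.C (a k) * Polynomial.X ^ (k : ℕ) : Polynomial K) = 0 := by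
    apply Polynomial.eq_zero_of_infinite_isRoot
    refine Set.Infinite.mono (s := Set.range (fun b : ℕ => (b : K))) ?_
      (Set.infinite_range_of_injective Nat.cast_injective)
    rintro x ⟨b, rfl⟩
    show Polynomial.IsRoot _ (b : K)
    rw [Polynomial.IsRoot.def, Polynomial.eval_finsetSum]
    simpa using h b
  have h1 := congrArg (fun P => Polynomial.coeff P (k : ℕ)) h0
  simp only [Polynomial.finsetSum_coeff, Polynomial.coeff_C_mul, Polynomial.coeff_X_pow,
    Polynomial.coeff_zero] at h1
  rw [Finset.sum_eq_single k] at h1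
  · simpa using h1
  · intro l _ hl
    rw [if_neg (fun h => hl (Fin.ext h.symm)), mul_zero]
  · exact fun hk => absurd (Finset.mem_univ k) hk

end TrL_aux

open TrL_aux in
theorem tTrL : S_Trd → S_DAl → S_BsP → S_SpP → S_DerG → S_TrL := by
  intro hTrd hDAl hBsP hSpP hDerG K _ _ f hf V hV μ hμ
  classical
  obtain ⟨p, q, e, d, hb⟩ := hBsP K V hV.1
  obtain ⟨hsp, hcard⟩ := hSpP K f V p q e d hf.1 hV.2 hb
  obtain ⟨hind, halg⟩ := (hTrd K Mo5 _ (fun m => coeff m.1 f) (parP f p q e d) hf.2 hsp).2 hcard
  have heV : e ∈ V := by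
    rw [hb.sp]
    exact Submodule.subset_span (by simp)
  have hdV : d ∈ V := by
    rw [hb.sp]
    exact Submodule.subset_span (by simp)
  set me : Fin 5 → K := μ ⟨e, heV⟩ with hme
  set md : Fin 5 → K := μ ⟨d, hdV⟩ with hmd
  set ae : Fin 5 → K := me - me p • e - me q • d with hae
  set ad : Fin 5 → K := md - md p • e - md q • d with had
  have haep : ae p = 0 := by simp [hae, hb.ep, hb.dp]
  have haeq : ae q = 0 := by simp [hae, hb.eq, hb.dq]
  have hadp : ad p = 0 := by simp [had, hb.ep, hb.dp]
  have hadq : ad q = 0 := by simp [had, hb.eq, hb.dq]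
  -- the derivation
  obtain ⟨D, hD⟩ := exists_der hDerG hind
    (Sum.elim (Sum.elim (fun j => ae j.1) (fun j => ad j.1)) (fun _ => 0))
  have hDe : ∀ j, D (e j) = ae j := by
    intro j
    by_cases h1 : j = p
    · rw [h1, hb.ep, haep, Derivation.map_one_eq_zero]
    by_cases h2 : j = q
    · rw [h2, hb.eq, haeq, map_zero]
    exact hD (Sum.inl (Sum.inl ⟨j, h1, h2⟩))
  have hDd : ∀ j, D (d j) = ad j := by
    intro j
    by_cases h1 : j = p
    · rw [h1, hb.dp, hadp, map_zero]
    by_cases h2 : j = q
    · rw [h2, hb.dq, hadq, Derivation.map_one_eq_zero]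
    exact hD (Sum.inl (Sum.inr ⟨j, h1, h2⟩))
  have hDm : ∀ m : Mo5, (∀ k, m ≠ mP p q k) → D (coeff m.1 f) = 0 := by
    intro m hm
    exact hD (Sum.inr ⟨m, hm⟩)
  -- the equation for the points `e + b d`
  have hb0 : ∀ b : ℕ, ∑ k : Fin 6, D (coeff (mP p q k).1 f) * (b : K) ^ (k : ℕ) = 0 := by
    intro b
    set v : Fin 5 → K := e + (b : K) • d with hv
    have hvV : v ∈ V := V.add_mem heV (V.smul_mem _ hdV)
    have hDb : D (b : K) = 0 := D.map_natCast b
    have hDv : ∀ j, D (v j) = ae j + (b : K) * ad j := by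
      intro j
      rw [hv, Pi.add_apply, Pi.smul_apply, smul_eq_mul, map_add, D.leibniz, hDe, hDd, hDb]
      simp
    have hμv : μ ⟨v, hvV⟩ = me + (b : K) • md := by
      have h1 : (⟨v, hvV⟩ : V) = ⟨e, heV⟩ + (b : K) • ⟨d, hdV⟩ := Subtype.ext rfl
      rw [h1, map_add, map_smul]
    have h1 := hμ ⟨v, hvV⟩
    have h2 := tangent hV.2 hvV heV
    have h3 := tangent hV.2 hvV hdV
    simp only [hμv] at h1
    have h4 : ∑ j, eval v (pderiv j f) * D (v j) = 0 := by
      have h5 : ∀ j, eval v (pderiv j f) * D (v j) =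
          eval v (pderiv j f) * (me + (b : K) • md) j -
            (me p + (b : K) * md p) * (eval v (pderiv j f) * e j) -
            (me q + (b : K) * md q) * (eval v (pderiv j f) * d j) := by
        intro j
        rw [hDv, hae, had]
        simp only [Pi.sub_apply, Pi.add_apply, Pi.smul_apply, smul_eq_mul]
        ring
      rw [Finset.sum_congr rfl fun j _ => h5 j, Finset.sum_sub_distrib, Finset.sum_sub_distrib,
        ← Finset.mul_sum, ← Finset.mul_sum, h1, h2, h3]
      ring
    have h6 : T D v f = 0 := by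
      rw [T, h4, hV.2 v hvV, map_zero, sub_zero]
    rw [T_quin D v f hf.1] at h6
    have h7 : ∑ m : Mo5, D (coeff m.1 f) * eval v (monomial m.1 1) =
        ∑ m ∈ Finset.univ.image (mP p q), D (coeff m.1 f) * eval v (monomial m.1 1) := by
      symm
      apply Finset.sum_subset (Finset.subset_univ _)
      intro m _ hm
      rw [hDm m, zero_mul]
      intro k hk
      exact hm (Finset.mem_image.mpr ⟨k, Finset.mem_univ k, hk.symm⟩)
    rw [h7, Finset.sum_image fun k _ l _ h => mP_inj hb.pq h] at h6
    have h8 : v p = 1 := by simp [hv, hb.ep, hb.dp]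
    have h9 : v q = (b : K) := by simp [hv, hb.eq, hb.dq]
    rw [← h6]
    refine Finset.sum_congr rfl fun k _ => ?_
    rw [eval_mP v h8 h9]
  have hDc : ∀ m : Mo5, D (coeff m.1 f) = 0 := by
    intro m
    by_cases h : ∀ k, m ≠ mP p q k
    · exact hDm m h
    · push Not at h
      obtain ⟨k, rfl⟩ := h
      exact coeffs_zero _ hb0 k
  have hD0 : ∀ i, D (parP f p q e d i) = 0 := fun i =>
    hDAl K Mo5 (fun m => coeff m.1 f) D hDc _ (halg i)
  have hae0 : ae = 0 := by
    funext j
    by_cases h1 : j = p
    · rw [h1, haep]; rfl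
    by_cases h2 : j = q
    · rw [h2, haeq]; rfl
    rw [← hDe j]
    exact hD0 (Sum.inl (Sum.inl ⟨j, h1, h2⟩))
  have had0 : ad = 0 := by
    funext j
    by_cases h1 : j = p
    · rw [h1, hadp]; rfl
    by_cases h2 : j = q
    · rw [h2, hadq]; rfl
    rw [← hDd j]
    exact hD0 (Sum.inl (Sum.inr ⟨j, h1, h2⟩))
  have hmeV : me ∈ V := by
    have : me = me p • e + me q • d := by
      have h1 : me = ae + (me p • e + me q • d) := by rw [hae]; abel
      rw [hae0, zero_add] at h1
      exact h1
    rw [this]
    exact V.add_mem (V.smul_mem _ heV) (V.smul_mem _ hdV)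
  have hmdV : md ∈ V := by
    have : md = md p • e + md q • d := by
      have h1 : md = ad + (md p • e + md q • d) := by rw [had]; abel
      rw [had0, zero_add] at h1
      exact h1
    rw [this]
    exact V.add_mem (V.smul_mem _ heV) (V.smul_mem _ hdV)
  rintro ⟨v, hvV⟩
  have h1 := hvV
  rw [hb.sp, Submodule.mem_span_pair] at h1
  obtain ⟨a, b, hab⟩ := h1
  have h2 : (⟨v, hvV⟩ : V) = a • ⟨e, heV⟩ + b • ⟨d, hdV⟩ := Subtype.ext hab.symm
  rw [h2, map_add, map_smul, map_smul]
  exact V.add_mem (V.smul_mem _ hmeV) (V.smul_mem _ hmdV)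

end Pool.Agent.QV
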