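import Pool.Agent.Lib.MP_b53bfe_ag.Q.SpecL

/-!
# MP_b53bfe_ag, module Trd: transcendence degree
-/

set_option autoImplicit false

noncomputable section

namespace Pool.Agent.QV

open Matrix MvPolynomial

open Pool.Agent.FY (Res)

namespace Trd_aux

theorem gen (k F : Type) [Field k] [Field F] [Algebra k F] (ι ι' : Type) [Finite ι] [Finite ι']
    (c : ι → F) (d : ι' → F) (hc : AlgebraicIndependent k c)
    (hcd : ∀ i, c i ∈ IntermediateField.adjoin k (Set.range d)) :
    Nat.card ι ≤ Nat.card ι' ∧ (Nat.card ι' = Nat.card ι →
      AlgebraicIndependent k d ∧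
        ∀ j, IsAlgebraic (IntermediateField.adjoin k (Set.range c)) (d j)) := by
  let M : IntermediateField k F := IntermediateField.adjoin k (Set.range d)
  have hdM : ∀ j, d j ∈ M := fun j => IntermediateField.subset_adjoin _ _ ⟨j, rfl⟩
  let c' : ι → M := fun i => ⟨c i, hcd i⟩
  let d' : ι' → M := fun j => ⟨d j, hdM j⟩
  have hcc : c = M.val ∘ c' := rfl
  have hdd : d = M.val ∘ d' := rfl
  have hc' : AlgebraicIndependent k c' := by
    rw [hcc] at hc
    exact AlgebraicIndependent.of_comp M.val hc
  have hmap : (IntermediateField.adjoin k (Set.range d')).map M.val = M := by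
    rw [IntermediateField.adjoin_map, ← Set.range_comp]
    rfl
  have htop : ∀ x : M, x ∈ IntermediateField.adjoin k (Set.range d') := by
    intro x
    have h1 : (x : F) ∈ (IntermediateField.adjoin k (Set.range d')).map M.val := by
      rw [hmap]
      exact x.2
    obtain ⟨y, hy, hyx⟩ := h1
    have h2 : y = x := Subtype.ext hyx
    rw [← h2]
    exact hy
  have halg : Algebra.IsAlgebraic (Algebra.adjoin k (Set.range d')) M := by
    refine ⟨fun x => ?_⟩
    obtain ⟨r, hr, s, hs, hx⟩ := IntermediateField.mem_adjoin_iff_div.1 (htop x)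
    by_cases hs0 : s = 0
    · rw [hx, hs0, div_zero]
      exact isAlgebraic_zero
    · refine ⟨Polynomial.C (⟨s, hs⟩ : Algebra.adjoin k (Set.range d')) * Polynomial.X -
        Polynomial.C (⟨r, hr⟩ : Algebra.adjoin k (Set.range d')), ?_, ?_⟩
      · intro h0
        have h1 := congrArg (fun p => Polynomial.coeff p 1) h0
        simp only [Polynomial.coeff_sub, Polynomial.coeff_C_mul, Polynomial.coeff_X_one, mul_one,
          Polynomial.coeff_C_succ, sub_zero, Polynomial.coeff_zero] at h1
        exact hs0 (congrArg Subtype.val h1)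
      · rw [map_sub, map_mul, Polynomial.aeval_C, Polynomial.aeval_C, Polynomial.aeval_X, hx]
        change s * (r / s) - r = 0
        rw [mul_div_cancel₀ _ hs0, sub_self]
  have h1 : Cardinal.mk ι ≤ Algebra.trdeg k M := hc'.cardinalMk_le_trdeg
  have h2 : Algebra.trdeg k M ≤ Cardinal.mk ι' :=
    (Algebra.IsAlgebraic.trdeg_le_cardinalMk k (Set.range d')).trans Cardinal.mk_range_le
  refine ⟨?_, fun hcard => ?_⟩
  · exact Cardinal.toNat_le_toNat (h1.trans h2) (Cardinal.mk_lt_aleph0)
  · have h3 : Cardinal.mk ι' = Cardinal.mk ι := by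
      rw [← Nat.cast_card, ← Nat.cast_card, hcard]
    have hbd : IsTranscendenceBasis k d' :=
      Algebra.IsAlgebraic.isTranscendenceBasis_of_le_trdeg_of_finite k d' (h3.le.trans h1)
    have hbc : IsTranscendenceBasis k c' :=
      hc'.isTranscendenceBasis_of_trdeg_le_of_finite (h2.trans h3.le)
    refine ⟨?_, fun j => ?_⟩
    · rw [hdd]
      exact hbd.1.map' M.val.injective
    · have hal := hbc.isAlgebraic_field
      have h4 := hal.isAlgebraic (d' j)
      have hmc : (IntermediateField.adjoin k (Set.range c')).map M.val =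
          IntermediateField.adjoin k (Set.range c) := by
        rw [IntermediateField.adjoin_map, ← Set.range_comp]
        rfl
      let f : IntermediateField.adjoin k (Set.range c') →+*
          IntermediateField.adjoin k (Set.range c) :=
        { toFun := fun x => ⟨((x : M) : F), by
            rw [← hmc]
            exact ⟨x, x.2, rfl⟩⟩
          map_one' := rfl
          map_mul' := fun _ _ => rfl
          map_zero' := rfl
          map_add' := fun _ _ => rfl }
      exact h4.ringHom_of_comp_eq f (M.val : M →+* F) f.injective rfl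

end Trd_aux

open Trd_aux in
theorem tTrd : S_Trd := by
  intro F _ _ ι ι' _ _ c d hc hcd
  exact gen ℚ F ι ι' c d hc hcd

end Pool.Agent.QV
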