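import Pool.Agent.Lib.MP_b53bfe_ag.Q.SpecL

/-!
Regularity for the universal quintic (module UUr).
-/

set_option autoImplicit false

noncomputable section

namespace Pool.Agent.QV

open Matrix
open MvPolynomial
open Pool.Agent.FY (Res)

namespace UUr_aux

/-- the variable `c` of the monomial `x₃ ^ (5 - k) x_i ^ k` -/
def vk (i : Fin 4) (k : Fin 6) : VU := Sum.inr (mS i k)

lemma X_inl_mem (i : Fin 4) (k : Fin 6) (w : VC) :
    (X (Sum.inl w) : UU) ∈ supported ℚ ({vk i k}ᶜ : Set VU) := by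
  rw [X_mem_supported]
  simp [vk]

lemma pU_mem (i : Fin 4) (k : Fin 6) (m : Mo5) (j : ℕ) :
    pU m j ∈ supported ℚ ({vk i k}ᶜ : Set VU) := by
  have h1 : pU m j ∈ (rename (Sum.inl : VC → VU) : CC ℚ →ₐ[ℚ] UU).range := ⟨_, rfl⟩
  have h2 : (rename (Sum.inl : VC → VU) : CC ℚ →ₐ[ℚ] UU).range ≤
      supported ℚ ({vk i k}ᶜ : Set VU) := by
    rw [supported_eq_range_rename]
    rintro _ ⟨p, rfl⟩
    refine ⟨rename (fun w : VC => (⟨Sum.inl w, by simp [vk]⟩ : ({vk i k}ᶜ : Set VU))) p, ?_⟩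
    simp only [AlgHom.toRingHom_eq_coe, RingHom.coe_coe]
    rw [rename_rename]
    rfl
  exact h2 h1

/-- the part of `FU j` without the variable `vk i k` -/
def bet (i : Fin 4) (k : Fin 6) (j : ℕ) : UU :=
  open Classical in ∑ m ∈ (Finset.univ : Finset Mo5).erase (mS i k), X (Sum.inr m) * pU m j

lemma bet_mem (i : Fin 4) (k : Fin 6) (j : ℕ) :
    bet i k j ∈ supported ℚ ({vk i k}ᶜ : Set VU) := by
  classical
  unfold bet
  refine Subalgebra.sum_mem _ fun m hm => Subalgebra.mul_mem _ ?_ (pU_mem i k m j)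
  rw [X_mem_supported]
  have h1 : m ≠ mS i k := (Finset.mem_erase.1 hm).1
  simp only [vk, Set.mem_compl_iff, Set.mem_singleton_iff]
  intro h2
  exact h1 (Sum.inr_injective h2)

lemma FU_eq (i : Fin 4) (k : Fin 6) (j : ℕ) :
    FU j = pU (mS i k) j * X (vk i k) + bet i k j := by
  classical
  unfold FU bet vk
  rw [← Finset.add_sum_erase _ _ (Finset.mem_univ (mS i k))]
  ring

lemma FU_lt (hP : S_PUc) (i : Fin 4) (k : Fin 6) (j : ℕ) (hj : (k : ℕ) < j) :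
    FU j ∈ supported ℚ ({vk i k}ᶜ : Set VU) := by
  have h0 : pU (mS i k) j = 0 := by
    rw [hP i k j, Nat.choose_eq_zero_of_lt hj]
    simp
  rw [FU_eq i k j, h0, zero_mul, zero_add]
  exact bet_mem i k j

lemma pU_self (hP : S_PUc) (i : Fin 4) (k : Fin 6) :
    pU (mS i k) k = X (Sum.inl (Sum.inl 3)) ^ (5 - (k : ℕ)) * X (Sum.inl (Sum.inr i)) ^ (k : ℕ) := by
  rw [hP i k k, Nat.choose_self, Nat.sub_self, pow_zero]
  simp

/-- the generators -/
def Gn (U : Set (Fin 4)) (S : Finset ℕ) : Set UU :=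
  {y | ∃ j ∈ S, y = FU j} ∪ {y | ∃ k ∈ U, y = X (Sum.inl (Sum.inr k))}

lemma Gn_mem (hP : S_PUc) (i : Fin 4) (U : Set (Fin 4)) (S : Finset ℕ) (k : Fin 6)
    (hS : ∀ j ∈ S, (k : ℕ) < j) : ∀ g ∈ Gn U S, g ∈ supported ℚ ({vk i k}ᶜ : Set VU) := by
  rintro g (⟨j, hj, rfl⟩ | ⟨l, hl, rfl⟩)
  · exact FU_lt hP i k j (hS j hj)
  · exact X_inl_mem i k _

lemma z_pow (i : Fin 4) (k : Fin 6) :
    (X (Sum.inl (Sum.inl 3)) * X (Sum.inl (Sum.inr i)) : UU) ^ 5 =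
      (X (Sum.inl (Sum.inl 3)) ^ (5 - (k : ℕ)) * X (Sum.inl (Sum.inr i)) ^ (k : ℕ)) *
        (X (Sum.inl (Sum.inl 3)) ^ (k : ℕ) * X (Sum.inl (Sum.inr i)) ^ (5 - (k : ℕ))) := by
  have hk : (k : ℕ) ≤ 5 := by have := k.isLt; omega
  have e1 : (X (Sum.inl (Sum.inl 3)) : UU) ^ 5 =
      X (Sum.inl (Sum.inl 3)) ^ (5 - (k : ℕ)) * X (Sum.inl (Sum.inl 3)) ^ (k : ℕ) := by
    rw [← pow_add]
    congr 1
    omega
  have e2 : (X (Sum.inl (Sum.inr i)) : UU) ^ 5 =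
      X (Sum.inl (Sum.inr i)) ^ (k : ℕ) * X (Sum.inl (Sum.inr i)) ^ (5 - (k : ℕ)) := by
    rw [← pow_add]
    congr 1
    omega
  rw [mul_pow, e1, e2]
  ring

/-- the instance of `LvU` for the variable `vk i k` -/
lemma key (hL : S_LvU) (hP : S_PUc) (i : Fin 4) (U : Set (Fin 4)) (S : Finset ℕ) (k : Fin 6)
    (hS : ∀ j ∈ S, (k : ℕ) < j) :
    RegZ (X (Sum.inl (Sum.inl 3)) * X (Sum.inl (Sum.inr i)) : UU) (FU k) (Ideal.span (Gn U S)) ∧
    ∀ b ∈ supported ℚ ({vk i k}ᶜ : Set VU),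
      RegZ (X (Sum.inl (Sum.inl 3)) * X (Sum.inl (Sum.inr i)) : UU) b (Ideal.span (Gn U S)) →
      RegZ (X (Sum.inl (Sum.inl 3)) * X (Sum.inl (Sum.inr i)) : UU) b
        (Ideal.span (Gn U S) ⊔ Ideal.span {FU k}) := by
  have h := hL VU ℚ (vk i k) (Gn U S)
    (X (Sum.inl (Sum.inl 3)) ^ (5 - (k : ℕ)) * X (Sum.inl (Sum.inr i)) ^ (k : ℕ)) (bet i k k)
    (X (Sum.inl (Sum.inl 3)) * X (Sum.inl (Sum.inr i)))
    (X (Sum.inl (Sum.inl 3)) ^ (k : ℕ) * X (Sum.inl (Sum.inr i)) ^ (5 - (k : ℕ))) 5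
    (Gn_mem hP i U S k hS)
    (Subalgebra.mul_mem _ (Subalgebra.pow_mem _ (X_inl_mem i k _) _)
      (Subalgebra.pow_mem _ (X_inl_mem i k _) _))
    (bet_mem i k k)
    (Subalgebra.mul_mem _ (X_inl_mem i k _) (X_inl_mem i k _))
    (Subalgebra.mul_mem _ (Subalgebra.pow_mem _ (X_inl_mem i k _) _)
      (Subalgebra.pow_mem _ (X_inl_mem i k _) _))
    (z_pow i k)
  have e : (X (Sum.inl (Sum.inl 3)) ^ (5 - (k : ℕ)) * X (Sum.inl (Sum.inr i)) ^ (k : ℕ)) *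
      X (vk i k) + bet i k k = FU k := by
    rw [← pU_self hP i k, ← FU_eq i k k]
  rw [e] at h
  exact h

/-- the case that all indices are bigger than `r` -/
lemma caseA (hL : S_LvU) (hP : S_PUc) (i : Fin 4) (U : Set (Fin 4)) (S : Finset ℕ) (r : ℕ)
    (hr : r ≤ 5) (hS : ∀ j ∈ S, r < j) :
    RegZ (X (Sum.inl (Sum.inl 3)) * X (Sum.inl (Sum.inr i)) : UU) (FU r)
      (Ideal.span (Gn U S)) :=
  (key hL hP i U S (⟨r, by omega⟩ : Fin 6) hS).1

lemma Gn_insert (U : Set (Fin 4)) (S : Finset ℕ) (a : ℕ) :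
    Ideal.span (Gn U (insert a S)) = Ideal.span (Gn U S) ⊔ Ideal.span {FU a} := by
  rw [← Ideal.span_union]
  congr 1
  ext y
  simp only [Gn, Set.mem_union, Set.mem_ofPred_eq, Finset.mem_insert, Set.mem_singleton_iff]
  constructor
  · rintro (⟨j, rfl | hj, rfl⟩ | h)
    · exact Or.inr rfl
    · exact Or.inl (Or.inl ⟨j, hj, rfl⟩)
    · exact Or.inl (Or.inr h)
  · rintro ((⟨j, hj, rfl⟩ | h) | rfl)
    · exact Or.inl ⟨j, Or.inr hj, rfl⟩
    · exact Or.inr h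
    · exact Or.inl ⟨a, Or.inl rfl, rfl⟩

lemma main (hL : S_LvU) (hP : S_PUc) (i : Fin 4) (U : Set (Fin 4)) (r : ℕ) (hr : r ≤ 5)
    (S : Finset ℕ) : (∀ j ∈ S, j ≤ 5) → r ∉ S →
    RegZ (X (Sum.inl (Sum.inl 3)) * X (Sum.inl (Sum.inr i)) : UU) (FU r)
      (Ideal.span (Gn U S)) := by
  induction S using Finset.induction_on_min with
  | empty =>
    intro _ _
    exact caseA hL hP i U ∅ r hr (fun j hj => absurd hj (Finset.notMem_empty j))
  | insert a S haS ih =>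
    intro h5 hrS
    have har : r ≠ a := fun e => hrS (e ▸ Finset.mem_insert_self a S)
    rcases lt_or_gt_of_ne har with h | h
    · refine caseA hL hP i U _ r hr fun j hj => ?_
      rcases Finset.mem_insert.1 hj with rfl | hj
      · exact h
      · exact h.trans (haS j hj)
    · rw [Gn_insert]
      have ha5 : a ≤ 5 := h5 a (Finset.mem_insert_self a S)
      have hk := (key hL hP i U S (⟨a, by omega⟩ : Fin 6) haS).2 (FU r)
        (FU_lt hP i (⟨a, by omega⟩ : Fin 6) r h)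
      exact hk (ih (fun j hj => h5 j (Finset.mem_insert_of_mem hj))
        (fun hj => hrS (Finset.mem_insert_of_mem hj)))

end UUr_aux

theorem tUUr : S_LvU → S_PUc → S_UUr := by
  intro hL hP i U S r _hi hr hS hrS
  exact UUr_aux.main hL hP i U r hr S hS hrS

end Pool.Agent.QV
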