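import Pool.Agent.Lib.MP_b53bfe_ag.Q.SpecL

/-!
# Regularity on the charts
-/

set_option autoImplicit false

noncomputable section

namespace Pool.Agent.QV

open Matrix
open MvPolynomial
open Pool.Agent.FY (Res)

namespace UcR_aux

variable {K : Type} [Field K] [CharZero K] (f : MvPolynomial (Fin 5) K)

theorem th_x (v : VC) : (ThU f).toRingHom (X (Sum.inl v)) = (X v : CC K) := by
  have h : ThU f (X (Sum.inl v)) = (X v : CC K) := by
    unfold ThU
    rw [aeval_X]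
    rfl
  exact h

end UcR_aux

open UcR_aux in
theorem tUcR : S_UUr → S_ThF → S_BcR → S_UcR := by
  intro hU hT hB K _ _ f hf i U S r hi hr hS hrS
  obtain ⟨hfl, hF⟩ := hT K f hf
  have h := hB UU (CC K) (ThU f).toRingHom _ _ _ hfl inferInstance (hU i U S r hi hr hS hrS)
  have e1 : (ThU f).toRingHom (X (Sum.inl (Sum.inl 3)) * X (Sum.inl (Sum.inr i)) : UU) =
      xC K 3 * X (Sum.inr i) := by
    rw [map_mul, th_x, th_x]
    rfl
  have e2 : (ThU f).toRingHom (FU r) = Fw f r := hF r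
  have e3 : (Ideal.span ({y : UU | ∃ j ∈ S, y = FU j} ∪ {y | ∃ k ∈ U, y = X (Sum.inl (Sum.inr k))})).map
      (ThU f).toRingHom =
      Ideal.span ({y | ∃ j ∈ S, y = Fw f j} ∪ {y | ∃ k ∈ U, y = X (Sum.inr k)}) := by
    rw [Ideal.map_span]
    congr 1
    ext y
    constructor
    · rintro ⟨_, ⟨j, hj, rfl⟩ | ⟨k, hk, rfl⟩, rfl⟩
      · exact Or.inl ⟨j, hj, hF j⟩
      · exact Or.inr ⟨k, hk, th_x f _⟩
    · rintro (⟨j, hj, rfl⟩ | ⟨k, hk, rfl⟩)
      · exact ⟨_, Or.inl ⟨j, hj, rfl⟩, hF j⟩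
      · exact ⟨_, Or.inr ⟨k, hk, rfl⟩, th_x f _⟩
  rw [e1, e2, e3] at h
  exact h

end Pool.Agent.QV
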