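import Pool.Agent.Lib.MP_b53bfe_ag.Q.SpecV

/-!
# Module Vv1: first equation
-/

set_option autoImplicit false

noncomputable section

namespace Pool.Agent.QV

open Matrix MvPolynomial
open Pool.Agent.FY (Res)

namespace Vv1_aux

/-- the class of `x` in the part of degree `j` is killed by `p` -/
lemma smul_mk_zero {K : Type} [Field K] {J : Ideal (BC K)} (p : Gr.Pol K) (x : BC K) :
    p • (FY.Res.mk (hV K).toRingHom (Ideal.Quotient.mk J x)) = 0 ↔ hV K p * x ∈ J := by
  rw [FY.Res.smul_mk]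
  rw [← Ideal.Quotient.eq_zero_iff_mem, map_mul]
  exact Iff.rfl

/-- the map `B ⧸ J → B ⧸ J'` on the parts of degree `j` -/
lemma exists_map {K : Type} [Field K] {J J' : Ideal (BC K)} (h : J ≤ J') (j : ℤ)
    (hG : ∀ (J : Ideal (BC K)) (y : Res (hV K).toRingHom (BC K ⧸ J)), y ∈ gV J j ↔
      ∃ x : BC K, IsWeightedHomogeneous wB x j ∧ y = FY.Res.mk (hV K).toRingHom (Ideal.Quotient.mk J x)) :
    ∃ q : gV J j →ₗ[Gr.Pol K] gV J' j, ∀ (n : gV J j) (x : BC K),
      n.1 = FY.Res.mk (hV K).toRingHom (Ideal.Quotient.mk J x) →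
      (q n).1 = FY.Res.mk (hV K).toRingHom (Ideal.Quotient.mk J' x) := by
  set l : (BC K ⧸ J) →ₗ[BC K] (BC K ⧸ J') := Submodule.factor h with hl
  have hm : ∀ y ∈ gV J j, FY.Res.map (hV K).toRingHom l y ∈ gV J' j := by
    intro y hy
    obtain ⟨x, hx, rfl⟩ := (hG J y).mp hy
    exact (hG J' _).mpr ⟨x, hx, rfl⟩
  refine ⟨(FY.Res.map (hV K).toRingHom l).restrict hm, fun n x hn => ?_⟩
  rw [LinearMap.coe_restrict_apply, hn]
  rfl

end Vv1_aux

open Vv1_aux in
theorem tVv1 : S_TsV → S_GpM → S_GLf → S_Hfv → S_FnV → S_Rg1 → S_Rg4 → S_RgZ → S_Vv1 := by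
  intro hTs hGp hGL hHf hFn hR1 hR4 hRZ K _ f E _ Φ hC
  obtain ⟨-, -, -, hw0, -, -, -, -, -, hf2⟩ := hHf K f hC.hom
  obtain ⟨-, ⟨hj0, hj1⟩, ⟨hHom, -, -, -⟩, -⟩ := hFn K f hC.hom
  obtain ⟨-, hreg⟩ := hR1 K f hC.hom hC.rc
  obtain ⟨M, hM⟩ := hR4 K f hC.hom hC.rc
  obtain ⟨-, hZ2, -, -, -, -, -⟩ := hRZ (BC K) (hV K (thV K))
  refine ⟨M, fun j hj => ?_⟩
  have hG : ∀ (J : Ideal (BC K)) (y : Res (hV K).toRingHom (BC K ⧸ J)), y ∈ gV J j ↔
      ∃ x : BC K, IsWeightedHomogeneous wB x j ∧ y = FY.Res.mk (hV K).toRingHom (Ideal.Quotient.mk J x) :=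
    fun J y => hGp.1 (Gr.Pol K) VB K (hV K).toRingHom wB J j hw0 y
  set a0 : BC K := TB K * (TB K * (TB K * (TB K * (tB' K * iC (Fw f 5))))) with ha0
  have e0 : a0 = TB K ^ 4 * (tB' K * iC (Fw f 5)) := by rw [ha0]; ring
  have hcong : hV K (Gr.form f 2) - a0 ∈ JD f := by
    rw [e0]
    exact hf2
  -- the regularity of the third form
  have hτ : RegZ (hV K (thV K)) (TB K) (JD f) := hreg _ (Or.inl rfl)
  have ht' : RegZ (hV K (thV K)) (tB' K) (JD f) := hreg _ (Or.inr rfl)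
  have hreg2 : RegZ (hV K (thV K)) (TB K * (TB K * (TB K * (TB K * tB' K)))) (JD f) :=
    hZ2 _ _ _ hτ (hZ2 _ _ _ hτ (hZ2 _ _ _ hτ (hZ2 _ _ _ hτ ht')))
  have hkill : ∀ x : BC K, IsWeightedHomogeneous wB x j → hV K (Gr.form f 2) * x ∈ JD f →
      ∃ k : ℕ, hV K (thV K) ^ k * x ∈ JD f := by
    intro x hx hfx
    have h1 : TB K * (TB K * (TB K * (TB K * tB' K))) * (iC (Fw f 5) * x) ∈ JD f := by
      have h2 := (JD f).sub_mem hfx ((JD f).mul_mem_right x hcong)
      have h3 : hV K (Gr.form f 2) * x - (hV K (Gr.form f 2) - a0) * x =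
          TB K * (TB K * (TB K * (TB K * tB' K))) * (iC (Fw f 5) * x) := by
        rw [ha0]; ring
      rwa [h3] at h2
    obtain ⟨k, hk⟩ := hreg2 _ h1
    have h4 : iC (Fw f 5) * (hV K (thV K) ^ k * x) ∈ JD f := by
      have h5 : iC (Fw f 5) * (hV K (thV K) ^ k * x) = hV K (thV K) ^ k * (iC (Fw f 5) * x) := by ring
      rwa [h5]
    have h6 : IsWeightedHomogeneous wB (hV K (thV K) ^ k * x) j := by
      have h7 := (hw0 (thV K ^ k)).mul hx
      rwa [map_pow, zero_add] at h7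
    obtain ⟨k', hk'⟩ := hM j hj _ h6 h4
    refine ⟨k' + k, ?_⟩
    rw [pow_add, mul_assoc]
    exact hk'
  -- the quotient by the third form
  have hz : Φ.f (Qt (Gr.form f 2) (gV (JD f) j)) = 0 := by
    refine hC.pf 2 (gV (JD f) j) (hGL K (JD f) j) ?_ ?_
    · intro i hi n
      obtain ⟨x, hx, hn⟩ := (hG (JD f) n.1).mp n.2
      apply Subtype.ext
      show Gr.form f i • n.1 = 0
      rw [hn, smul_mk_zero]
      apply Ideal.mul_mem_right
      fin_cases i
      · exact hj0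
      · exact hj1
      · exact absurd rfl hi
    · intro n hn
      obtain ⟨x, hx, hnx⟩ := (hG (JD f) n.1).mp n.2
      have h1 : Gr.form f 2 • n.1 = 0 := congrArg Subtype.val hn
      rw [hnx, smul_mk_zero] at h1
      obtain ⟨k, hk⟩ := hkill x hx h1
      refine ⟨k, Subtype.ext ?_⟩
      show thV K ^ k • n.1 = 0
      rw [hnx, smul_mk_zero, map_pow]
      exact hk
  -- comparison
  set J' : Ideal (BC K) := JD f ⊔ Ideal.span {a0} with hJ'
  have hJJ : J' = JD f ⊔ Ideal.span {hV K (Gr.form f 2)} := by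
    apply le_antisymm
    · refine sup_le le_sup_left ?_
      rw [Ideal.span_singleton_le_iff_mem]
      have h1 : a0 = hV K (Gr.form f 2) - (hV K (Gr.form f 2) - a0) := by ring
      rw [h1]
      exact Ideal.sub_mem _ (Ideal.mem_sup_right (Ideal.mem_span_singleton_self _)) (Ideal.mem_sup_left hcong)
    · refine sup_le le_sup_left ?_
      rw [Ideal.span_singleton_le_iff_mem]
      have h1 : hV K (Gr.form f 2) = (hV K (Gr.form f 2) - a0) + a0 := by ring
      rw [h1]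
      exact Ideal.add_mem _ (Ideal.mem_sup_left hcong) (Ideal.mem_sup_right (Ideal.mem_span_singleton_self _))
  obtain ⟨q, hq⟩ := exists_map (K := K) (J := JD f) (J' := J') le_sup_left j hG
  have hsurj : Function.Surjective q := by
    intro y
    obtain ⟨x, hx, hy⟩ := (hG J' y.1).mp y.2
    refine ⟨⟨FY.Res.mk (hV K).toRingHom (Ideal.Quotient.mk (JD f) x), (hG (JD f) _).mpr ⟨x, hx, rfl⟩⟩, ?_⟩
    apply Subtype.ext
    rw [hy]
    exact hq _ x rfl
  have hker : LinearMap.ker q = Ideal.span {Gr.form f 2} • (⊤ : Submodule (Gr.Pol K) (gV (JD f) j)) := by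
    apply le_antisymm
    · intro n hn
      obtain ⟨x, hx, hnx⟩ := (hG (JD f) n.1).mp n.2
      have h1 := hq n x hnx
      rw [LinearMap.mem_ker.mp hn] at h1
      have h2 : Ideal.Quotient.mk J' x = 0 := h1.symm
      rw [Ideal.Quotient.eq_zero_iff_mem, hJJ] at h2
      obtain ⟨c, hc, hxc⟩ := hGp.2.2.2 VB K wB (JD f) (hV K (Gr.form f 2)) 0 j x hHom (hw0 _) hx h2
      rw [sub_zero] at hc
      have h3 : n = Gr.form f 2 • (⟨FY.Res.mk (hV K).toRingHom (Ideal.Quotient.mk (JD f) c),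
          (hG (JD f) _).mpr ⟨c, hc, rfl⟩⟩ : gV (JD f) j) := by
        apply Subtype.ext
        show n.1 = Gr.form f 2 • FY.Res.mk (hV K).toRingHom (Ideal.Quotient.mk (JD f) c)
        rw [hnx, FY.Res.smul_mk]
        have h4 : Ideal.Quotient.mk (JD f) x = Ideal.Quotient.mk (JD f) (hV K (Gr.form f 2) * c) :=
          Ideal.Quotient.eq.mpr hxc
        rw [h4]
        rfl
      rw [h3]
      exact Submodule.smul_mem_smul (Ideal.mem_span_singleton_self _) Submodule.mem_top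
    · rw [Submodule.smul_le]
      intro r hr n _
      obtain ⟨s, rfl⟩ := Ideal.mem_span_singleton'.mp hr
      obtain ⟨x, hx, hnx⟩ := (hG (JD f) n.1).mp n.2
      rw [LinearMap.mem_ker, map_smul, mul_smul]
      have h5 : Gr.form f 2 • q n = 0 := by
        apply Subtype.ext
        show Gr.form f 2 • (q n).1 = 0
        rw [hq n x hnx, smul_mk_zero, hJJ]
        exact Ideal.mul_mem_right _ _ (Ideal.mem_sup_right (Ideal.mem_span_singleton_self _))
      rw [h5, smul_zero]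
  have hKS : KS (Set.range (Gr.form f)) (gV J' j) := by
    rintro _ ⟨i, rfl⟩ n
    obtain ⟨x, hx, hn⟩ := (hG J' n.1).mp n.2
    apply Subtype.ext
    show Gr.form f i • n.1 = 0
    rw [hn, smul_mk_zero]
    apply Ideal.mul_mem_right
    fin_cases i
    · exact Ideal.mem_sup_left hj0
    · exact Ideal.mem_sup_left hj1
    · rw [hJJ]
      exact Ideal.mem_sup_right (Ideal.mem_span_singleton_self _)
  have hnoe : IsNoetherianRing (Gr.Pol K) := inferInstance
  obtain ⟨-, hiso, -⟩ := hTs (Gr.Pol K) (Set.range (Gr.form f)) (thV K) E Φ hnoe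
  have e : Qt (Gr.form f 2) (gV (JD f) j) ≃ₗ[Gr.Pol K] gV J' j :=
    (Submodule.quotEquivOfEq _ _ hker.symm).trans (q.quotKerEquivOfSurjective hsurj)
  rw [hiso _ _ e.symm (hGL K J' j) hKS]
  exact hz

end Pool.Agent.QV
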