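import Pool.Agent.Lib.MP_b53bfe_ag.Q.SpecV

/-!
# Disproof of Q1 of MP_b53bfe_ag for quintic threefolds, module Vv2: decomposition (helper37)
-/

set_option autoImplicit false

noncomputable section

namespace Pool.Agent.QV

open Matrix
open MvPolynomial
open Pool.Agent.FY (Res)

namespace Vv2_aux

/-- `FIn` for a larger ideal -/
theorem fin_mono {K : Type} [Field K] {f : MvPolynomial (Fin 5) K} {J J' : Ideal (BC K)} (h : J ≤ J')
    (hJ : FIn f J) : FIn f J' := fun i => h (hJ i)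

theorem le_aux {R : Type} [CommRing R] (J : Ideal R) (a b : R) :
    J ⊔ Ideal.span {a * b} ≤ J ⊔ Ideal.span {b} := by
  refine sup_le_sup le_rfl ?_
  rw [Ideal.span_singleton_le_iff_mem]
  exact Ideal.mul_mem_left _ _ (Ideal.subset_span rfl)

end Vv2_aux

theorem tVv2 : S_GMl → S_Rg1 → S_FnV → S_Hfv → S_Vv2 := by
  intro hM hR hF hHf K _ f E _ Φ hX j
  obtain ⟨-, ⟨hf0, hf1⟩, ⟨hJD, -, -, -⟩, -, hTw, -, ht'w⟩ := hF K f hX.hom
  obtain ⟨-, -, hFw, -, -, -, -, -, -, hf2⟩ := hHf K f hX.hom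
  have hreg := (hR K f hX.hom hX.rc).2
  have w5 : IsWeightedHomogeneous wB (iC (Fw f 5)) (5 : ℤ) := hFw 5
  have w4 : IsWeightedHomogeneous wB (tB' K * iC (Fw f 5)) (4 : ℤ) := by
    have := ht'w.mul w5
    norm_num at this
    exact this
  have w3 : IsWeightedHomogeneous wB (TB K * (tB' K * iC (Fw f 5))) (3 : ℤ) := by
    have := hTw.mul w4
    norm_num at this
    exact this
  have w2 : IsWeightedHomogeneous wB (TB K * (TB K * (tB' K * iC (Fw f 5)))) (2 : ℤ) := by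
    have := hTw.mul w3
    norm_num at this
    exact this
  have w1 : IsWeightedHomogeneous wB (TB K * (TB K * (TB K * (tB' K * iC (Fw f 5))))) (1 : ℤ) := by
    have := hTw.mul w2
    norm_num at this
    exact this
  have F0 : FIn f (JD f ⊔ Ideal.span {TB K * (TB K * (TB K * (TB K * (tB' K * iC (Fw f 5)))))}) := by
    intro i
    have hle : JD f ≤ JD f ⊔ Ideal.span {TB K * (TB K * (TB K * (TB K * (tB' K * iC (Fw f 5)))))} := le_sup_left
    fin_cases i
    · exact hle hf0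
    · exact hle hf1
    · have h1 : TB K * (TB K * (TB K * (TB K * (tB' K * iC (Fw f 5))))) ∈
          JD f ⊔ Ideal.span {TB K * (TB K * (TB K * (TB K * (tB' K * iC (Fw f 5)))))} :=
        Ideal.mem_sup_right (Ideal.subset_span rfl)
      have h2 := Ideal.add_mem _ (hle hf2) h1
      have h3 : hV K (Gr.form f 2) - TB K ^ 4 * (tB' K * iC (Fw f 5)) +
          TB K * (TB K * (TB K * (TB K * (tB' K * iC (Fw f 5))))) = hV K (Gr.form f 2) := by ring
      rw [h3] at h2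
      exact h2
  have F1 := Vv2_aux.fin_mono (Vv2_aux.le_aux (JD f) _ _) F0
  have F2 := Vv2_aux.fin_mono (Vv2_aux.le_aux (JD f) _ _) F1
  have F3 := Vv2_aux.fin_mono (Vv2_aux.le_aux (JD f) _ _) F2
  have F4 := Vv2_aux.fin_mono (Vv2_aux.le_aux (JD f) _ _) F3
  have e1 := hM K f E Φ (JD f) (TB K) _ j (-1) 1 hX.hom hJD hTw w1 F0
    (fun x _ hx => hreg _ (Or.inl rfl) x hx)
  have e2 := hM K f E Φ (JD f) (TB K) _ (j + 1) (-1) 2 hX.hom hJD hTw w2 F1
    (fun x _ hx => hreg _ (Or.inl rfl) x hx)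
  have e3 := hM K f E Φ (JD f) (TB K) _ (j + 2) (-1) 3 hX.hom hJD hTw w3 F2
    (fun x _ hx => hreg _ (Or.inl rfl) x hx)
  have e4 := hM K f E Φ (JD f) (TB K) _ (j + 3) (-1) 4 hX.hom hJD hTw w4 F3
    (fun x _ hx => hreg _ (Or.inl rfl) x hx)
  have e5 := hM K f E Φ (JD f) (tB' K) _ (j + 4) (-1) 5 hX.hom hJD ht'w w5 F4
    (fun x _ hx => hreg _ (Or.inr rfl) x hx)
  rw [show j - -1 = j + 1 by ring] at e1
  rw [show j + 1 - -1 = j + 2 by ring] at e2
  rw [show j + 2 - -1 = j + 3 by ring] at e3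
  rw [show j + 3 - -1 = j + 4 by ring] at e4
  rw [show j + 4 - -1 = j + 5 by ring] at e5
  rw [e1, e2, e3, e4, e5]
  abel

end Pool.Agent.QV
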