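import Pool.Agent.Lib.MP_b53bfe_ag.Q.SpecV

/-!
# Disproof of Q1 of MP_b53bfe_ag for quintic threefolds, module Vv3: difference equation (helper65)
-/

set_option autoImplicit false

noncomputable section

namespace Pool.Agent.QV

open Matrix
open MvPolynomial
open Pool.Agent.FY (Res)

namespace Vv3_aux

theorem homI_sup {σ K : Type} [CommRing K] (w : σ → ℤ) (J₁ J₂ : Ideal (MvPolynomial σ K))
    (h₁ : HomI w J₁) (h₂ : HomI w J₂) : HomI w (J₁ ⊔ J₂) := by
  intro x hx j
  obtain ⟨a, ha, b, hb, rfl⟩ := Submodule.mem_sup.mp hx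
  rw [map_add]
  exact Submodule.add_mem_sup (h₁ a ha j) (h₂ b hb j)

theorem homI_span {σ K : Type} [Field K] (w : σ → ℤ) (A : Set (MvPolynomial σ K))
    (hA : ∀ r ∈ A, ∃ a : ℤ, IsWeightedHomogeneous w r a) : HomI w (Ideal.span A) := by
  intro p hp a
  letI := weightedGradedAlgebra K w
  refine weightedHomogeneousComponent_mem_of_mem K w (Ideal.homogeneous_span _ _ fun r hr => ?_) hp a
  obtain ⟨b, hb⟩ := hA r hr
  exact ⟨b, hb⟩

theorem homI_one {σ K : Type} [Field K] (w : σ → ℤ) (y : MvPolynomial σ K) (e : ℤ)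
    (hy : IsWeightedHomogeneous w y e) : HomI w (Ideal.span {y}) :=
  homI_span w {y} (by rintro r hr; rw [Set.mem_singleton_iff.mp hr]; exact ⟨e, hy⟩)

theorem mem_JB {K : Type} [Field K] (f : MvPolynomial (Fin 5) K) (S : Finset ℕ) (i : ℕ)
    (hi : i ∈ S) : iC (Fw f i) ∈ JB f S := Ideal.subset_span ⟨i, hi, rfl⟩

/-- the two ideals agree up to `θ`-torsion -/
theorem cmp (hHf : S_Hfv) {K : Type} [Field K] (f : MvPolynomial (Fin 5) K)
    (hf : f.IsHomogeneous 5) (y : BC K) (hy : y = TB K ∨ y = tB' K) :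
    JD f ⊔ Ideal.span {y} ⊔ Ideal.span {tB K} ≤ JT f 5 ∧
    ∀ x ∈ JT f 5, hV K (thV K) * x ∈ JD f ⊔ Ideal.span {y} ⊔ Ideal.span {tB K} := by
  have hθ := (hHf K f hf).2.2.2.2.1
  constructor
  · have ht : tB K ∈ JT f 5 :=
      Ideal.mem_sup_left (Ideal.mem_sup_right (Ideal.subset_span rfl))
    have ht' : tB' K ∈ JT f 5 := Ideal.mem_sup_right (Ideal.subset_span rfl)
    have hF : ∀ i ∈ Finset.range 5, iC (Fw f i) ∈ JT f 5 := fun i hi =>
      Ideal.mem_sup_left (Ideal.mem_sup_left (mem_JB f _ i hi))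
    refine sup_le (sup_le (sup_le ?_ ?_) ?_) ?_
    · refine Ideal.span_le.mpr ?_
      rintro _ ⟨i, hi, rfl⟩
      exact hF i (Finset.mem_range.mpr ((Finset.mem_range.mp hi).trans (by norm_num)))
    · rw [Ideal.span_singleton_le_iff_mem]
      exact Ideal.add_mem _ (Ideal.mul_mem_left _ _ (hF 4 (by simp))) (Ideal.mul_mem_right _ _ ht)
    · rw [Ideal.span_singleton_le_iff_mem]
      rcases hy with rfl | rfl
      · exact Ideal.add_mem _ ht' (Ideal.mul_mem_left _ _ ht)
      · exact ht'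
    · rw [Ideal.span_singleton_le_iff_mem]
      exact ht
  · set J₁ : Ideal (BC K) := JD f ⊔ Ideal.span {y} ⊔ Ideal.span {tB K} with hJ₁
    have ht : tB K ∈ J₁ := Ideal.mem_sup_right (Ideal.subset_span rfl)
    have hyJ : y ∈ J₁ := Ideal.mem_sup_left (Ideal.mem_sup_right (Ideal.subset_span rfl))
    have ht' : tB' K ∈ J₁ := by
      rcases hy with rfl | rfl
      · have h1 : tB' K = TB K - sB' K * tB K := by
          rw [TB]; ring
        rw [h1]
        exact Ideal.sub_mem _ hyJ (Ideal.mul_mem_left _ _ ht)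
      · exact hyJ
    have hδ : dB f ∈ J₁ := Ideal.mem_sup_left (Ideal.mem_sup_left
      (Ideal.mem_sup_right (Ideal.subset_span rfl)))
    have hle : JT f 5 ≤ Submodule.comap (LinearMap.lsmul (BC K) (BC K) (hV K (thV K))) J₁ := by
      refine sup_le (sup_le ?_ ?_) ?_
      · refine Ideal.span_le.mpr ?_
        rintro _ ⟨i, hi, rfl⟩
        change hV K (thV K) * iC (Fw f i) ∈ J₁
        by_cases h4 : i = 4
        · subst h4
          have h1 : hV K (thV K) * iC (Fw f 4) = iC (xC K 3) ^ 3 * sB K * sB' K *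
              (dB f - tB K * iC (Fw f 5)) := by
            rw [hθ, dB]; ring
          rw [h1]
          exact Ideal.mul_mem_left _ _ (Ideal.sub_mem _ hδ (Ideal.mul_mem_right _ _ ht))
        · have hi' : i ∈ Finset.range 4 := by
            rw [Finset.mem_range] at hi ⊢
            omega
          exact Ideal.mul_mem_left _ _ (Ideal.mem_sup_left (Ideal.mem_sup_left
            (Ideal.mem_sup_left (mem_JB f _ i hi'))))
      · rw [Ideal.span_singleton_le_iff_mem]
        exact Ideal.mul_mem_left _ _ ht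
      · rw [Ideal.span_singleton_le_iff_mem]
        exact Ideal.mul_mem_left _ _ ht'
    exact fun x hx => hle hx

end Vv3_aux

theorem tVv3 : S_GMl → S_GCg → S_Rg2 → S_FnV → S_Hfv → S_Vv3 := by
  intro hM hC hR hF hHf K _ f E _ Φ hX y hy m
  obtain ⟨⟨hF1, hF2, -, -, hF5⟩, -, ⟨hJD, -, hJT, -⟩, -, hTw, htw, ht'w⟩ := hF K f hX.hom
  have hyw : IsWeightedHomogeneous wB y (-1) := by
    rcases hy with rfl | rfl
    · exact hTw
    · exact ht'w
  have hFy : FIn f (JD f ⊔ Ideal.span {y}) := by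
    rcases hy with rfl | rfl
    · exact hF1
    · exact hF2
  have hHy : HomI wB (JD f ⊔ Ideal.span {y}) :=
    Vv3_aux.homI_sup wB _ _ hJD (Vv3_aux.homI_one wB y (-1) hyw)
  have h0 : JD f ⊔ Ideal.span {y} ⊔ Ideal.span {tB K * 0} = JD f ⊔ Ideal.span {y} := by simp
  have h00 : JD f ⊔ Ideal.span {y} ⊔ Ideal.span {(0 : BC K)} = JD f ⊔ Ideal.span {y} := by simp
  have h1 := hM K f E Φ (JD f ⊔ Ideal.span {y}) (tB K) 0 m (-1) 0 hX.hom hHy htw
    (isWeightedHomogeneous_zero K wB 0) (by rw [h0]; exact hFy)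
    (fun x _ hx => (hR K f hX.hom hX.rc y hy).1 x hx)
  rw [h0, h00, sub_neg_eq_add] at h1
  rw [h1]
  congr 1
  obtain ⟨hc1, hc2⟩ := Vv3_aux.cmp hHf f hX.hom y hy
  refine hC K f E Φ _ _ m hX.hom (Vv3_aux.homI_sup wB _ _ hHy (Vv3_aux.homI_one wB _ (-1) htw))
    (hJT 5) (fun i => Ideal.mem_sup_left (hFy i)) (hF5 5 (by norm_num)) ?_ ?_
  · intro x _ hx
    exact ⟨0, by rw [pow_zero, one_mul]; exact hc1 hx⟩
  · intro x _ hx
    exact ⟨1, by rw [pow_one]; exact hc2 x hx⟩

end Pool.Agent.QV
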