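import Pool.Agent.Lib.MP_b53bfe_ag.Q.SpecV

/-!
# Disproof of Q1 of MP_b53bfe_ag for quintic threefolds: module Vv4 (helper23)
-/

set_option autoImplicit false

noncomputable section

namespace Pool.Agent.QV

open Matrix MvPolynomial
open Pool.Agent.FY (Res)

namespace Vv4_aux

variable {K : Type} [Field K]

variable (K) in
/-- the variable `u_i` -/
def uB (i : Fin 4) : BC K := X (Sum.inl (Sum.inr i))

variable (K) in
/-- a polynomial as a polynomial in `u`, with `t`, `t'` replaced by `0` -/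
def kap : BC K →ₐ[K] MvPolynomial (Fin 4) (BC K) :=
  aeval (Sum.elim (Sum.elim (fun i => C (X (Sum.inl (Sum.inl i)))) (fun i => X i)) ![C (sB K), C (sB' K), 0, 0])

variable (K) in
/-- the retraction `t, t' ↦ 0` -/
def rhoT : BC K →ₐ[K] BC K :=
  aeval (Sum.elim (fun v => X (Sum.inl v)) ![sB K, sB' K, 0, 0])

variable (K) in
/-- the ideal `(t, t')` -/
def It : Ideal (BC K) := Ideal.span {tB K} ⊔ Ideal.span {tB' K}

theorem coeff_mul_C' {R : Type} [CommRing R] (γ : Fin 4 →₀ ℕ) (p : MvPolynomial (Fin 4) R) (a : R) :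
    coeff γ (p * C a) = coeff γ p * a := by
  rw [mul_comm, coeff_C_mul, mul_comm]

theorem aeval_kap (b : BC K) : aeval (uB K) (kap K b) = rhoT K b := by
  have h : ((aeval (uB K) : MvPolynomial (Fin 4) (BC K) →ₐ[BC K] BC K).restrictScalars K).comp (kap K) = rhoT K := by
    refine MvPolynomial.algHom_ext fun v => ?_
    rcases v with (i | i) | i
    · simp [kap, rhoT]
    · simp [kap, rhoT, uB]
    · fin_cases i <;> simp [kap, rhoT]
  exact DFunLike.congr_fun h b

theorem sub_rho (b : BC K) : b - rhoT K b ∈ It K := by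
  rw [← Ideal.Quotient.mk_eq_mk_iff_sub_mem]
  have h : (Ideal.Quotient.mkₐ K (It K)).comp (rhoT K) = Ideal.Quotient.mkₐ K (It K) := by
    refine MvPolynomial.algHom_ext fun v => ?_
    have h2 : Ideal.Quotient.mk (It K) (tB K) = 0 :=
      Ideal.Quotient.eq_zero_iff_mem.mpr (Ideal.mem_sup_left (Ideal.mem_span_singleton_self _))
    have h3 : Ideal.Quotient.mk (It K) (tB' K) = 0 :=
      Ideal.Quotient.eq_zero_iff_mem.mpr (Ideal.mem_sup_right (Ideal.mem_span_singleton_self _))
    rcases v with v | i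
    · simp [rhoT]
    · fin_cases i
      · simp [rhoT, sB]
      · simp [rhoT, sB']
      · simpa [rhoT, tB] using h2.symm
      · simpa [rhoT, tB'] using h3.symm
  exact (DFunLike.congr_fun h b).symm

theorem rho_iC (x : CC K) : rhoT K (iC x) = iC x := by
  have h : (rhoT K).comp (iC (K := K)) = iC (K := K) := by
    refine MvPolynomial.algHom_ext fun v => ?_
    simp [rhoT, iC]
  exact DFunLike.congr_fun h x

theorem kap_coeff_wt (b : BC K) : ∀ γ : Fin 4 →₀ ℕ, IsWeightedHomogeneous wB (coeff γ (kap K b)) 0 := by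
  induction b using MvPolynomial.induction_on with
  | C a =>
    intro γ
    have h : kap K (C a) = C (C a) := by
      rw [← MvPolynomial.algebraMap_eq, AlgHom.commutes]; rfl
    rw [h, coeff_C]
    split_ifs
    · exact isWeightedHomogeneous_C _ _
    · exact isWeightedHomogeneous_zero _ _ _
  | add p q hp hq =>
    intro γ
    rw [map_add, coeff_add]
    exact (hp γ).add (hq γ)
  | mul_X p v hp =>
    intro γ
    rw [map_mul]
    rcases v with (i | i) | i
    · have h : kap K (X (Sum.inl (Sum.inl i))) = C (X (Sum.inl (Sum.inl i))) := by simp [kap]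
      rw [h, coeff_mul_C']
      simpa [wB] using (hp γ).mul (isWeightedHomogeneous_X K wB (Sum.inl (Sum.inl i)))
    · have h : kap K (X (Sum.inl (Sum.inr i))) = X i := by simp [kap]
      rw [h, coeff_mul_X']
      split_ifs
      · exact hp _
      · exact isWeightedHomogeneous_zero _ _ _
    · have h : kap K (X (Sum.inr i)) = (![C (sB K), C (sB' K), 0, 0] : Fin 4 → MvPolynomial (Fin 4) (BC K)) i := by
        simp [kap]
      rw [h]
      fin_cases i
      · show IsWeightedHomogeneous wB (coeff γ (kap K p * C (sB K))) 0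
        rw [coeff_mul_C']
        simpa [wB, sB] using (hp γ).mul (isWeightedHomogeneous_X K wB (Sum.inr 0))
      · show IsWeightedHomogeneous wB (coeff γ (kap K p * C (sB' K))) 0
        rw [coeff_mul_C']
        simpa [wB, sB'] using (hp γ).mul (isWeightedHomogeneous_X K wB (Sum.inr 1))
      · show IsWeightedHomogeneous wB (coeff γ (kap K p * 0)) 0
        rw [mul_zero, coeff_zero]
        exact isWeightedHomogeneous_zero _ _ _
      · show IsWeightedHomogeneous wB (coeff γ (kap K p * 0)) 0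
        rw [mul_zero, coeff_zero]
        exact isWeightedHomogeneous_zero _ _ _

/-- the degree of a monomial in `u` -/
def dg (γ : Fin 4 →₀ ℕ) : ℤ := ∑ i, (γ i : ℤ)

theorem div_X (w : VB → ℤ) (p : BC K) (v : VB) (j : ℤ) (h : IsWeightedHomogeneous w (p * X v) j) :
    IsWeightedHomogeneous w p (j - w v) := by
  intro d hd
  have h1 : coeff (d + Finsupp.single v 1) (p * X v) ≠ 0 := by rwa [coeff_mul_X]
  have h2 := h h1
  rw [map_add, Finsupp.weight_single] at h2
  simp only [one_smul] at h2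
  linarith

theorem kap_coeff_ne (d : VB →₀ ℕ) (a : K) : ∀ j : ℤ, IsWeightedHomogeneous wB (monomial d a : BC K) j →
    ∀ γ : Fin 4 →₀ ℕ, dg γ ≠ j → coeff γ (kap K (monomial d a)) = 0 := by
  refine MvPolynomial.induction_on_monomial (motive := fun p : BC K => ∀ j : ℤ, IsWeightedHomogeneous wB p j →
    ∀ γ : Fin 4 →₀ ℕ, dg γ ≠ j → coeff γ (kap K p) = 0) ?_ ?_ d a
  · intro a j hj γ hγ
    have h : kap K (C a) = C (C a) := by
      rw [← MvPolynomial.algebraMap_eq, AlgHom.commutes]; rfl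
    rw [h, coeff_C]
    split_ifs with h0
    · by_contra hne
      have h1 : (C a : BC K) ≠ 0 := hne
      have h2 := IsWeightedHomogeneous.inj_right h1 hj (isWeightedHomogeneous_C wB a)
      refine hγ ?_
      rw [← h0, h2]
      simp [dg]
    · rfl
  · intro p v hp j hj γ hγ
    have hj' := div_X wB p v j hj
    rw [map_mul]
    rcases v with (i | i) | i
    · have h : kap K (X (Sum.inl (Sum.inl i))) = C (X (Sum.inl (Sum.inl i))) := by simp [kap]
      rw [h, coeff_mul_C', hp _ hj' γ (by simpa [wB] using hγ), zero_mul]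
    · have h : kap K (X (Sum.inl (Sum.inr i))) = X i := by simp [kap]
      rw [h, coeff_mul_X']
      split_ifs with hi
      · refine hp _ hj' _ ?_
        intro h3
        refine hγ ?_
        have h4 : γ = (γ - Finsupp.single i 1) + Finsupp.single i 1 := by
          ext k
          by_cases hk : i = k
          · subst hk
            have := Finsupp.mem_support_iff.mp hi
            simp
            omega
          · simp [hk]
        have h5 : dg γ = dg (γ - Finsupp.single i 1) + 1 := by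
          conv_lhs => rw [h4]
          unfold dg
          simp only [Finsupp.coe_add, Pi.add_apply, Nat.cast_add, Finset.sum_add_distrib]
          congr 1
          simp [Finsupp.single_apply]
        rw [h5, h3]
        simp [wB]
      · rfl
    · have h : kap K (X (Sum.inr i)) = (![C (sB K), C (sB' K), 0, 0] : Fin 4 → MvPolynomial (Fin 4) (BC K)) i := by
        simp [kap]
      rw [h]
      fin_cases i
      · show coeff γ (kap K p * C (sB K)) = 0
        rw [coeff_mul_C', hp _ hj' γ (by simpa [wB] using hγ), zero_mul]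
      · show coeff γ (kap K p * C (sB' K)) = 0
        rw [coeff_mul_C', hp _ hj' γ (by simpa [wB] using hγ), zero_mul]
      · show coeff γ (kap K p * 0) = 0
        rw [mul_zero, coeff_zero]
      · show coeff γ (kap K p * 0) = 0
        rw [mul_zero, coeff_zero]

theorem kap_coeff (j : ℤ) (b : BC K) (hb : IsWeightedHomogeneous wB b j) (γ : Fin 4 →₀ ℕ) (hγ : dg γ ≠ j) :
    coeff γ (kap K b) = 0 := by
  refine IsWeightedHomogeneous.induction_on (motive := fun b _ => coeff γ (kap K b) = 0) ?_ ?_ ?_ hb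
  · simp
  · intro p q _ _ hp hq
    rw [map_add, coeff_add, hp, hq, add_zero]
  · intro d r hr
    exact kap_coeff_ne d r j (isWeightedHomogeneous_monomial wB d r hr) γ hγ

theorem dg_eq_zero (γ : Fin 4 →₀ ℕ) (h : dg γ = 0) : γ = 0 := by
  unfold dg at h
  rw [Finset.sum_eq_zero_iff_of_nonneg (fun i _ => Int.natCast_nonneg _)] at h
  ext i
  have := h i (Finset.mem_univ i)
  simpa using this

theorem kap_zero (b : BC K) (hb : IsWeightedHomogeneous wB b 0) : kap K b = C (rhoT K b) := by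
  have h : kap K b = C (coeff 0 (kap K b)) := by
    ext1 γ
    rw [coeff_C]
    split_ifs with h0
    · rw [h0]
    · refine kap_coeff 0 b hb γ fun h1 => h0 (dg_eq_zero γ h1).symm
  have h2 := aeval_kap b
  rw [h, aeval_C] at h2
  rw [← h2]
  exact h

theorem kap_mem (f : MvPolynomial (Fin 5) K) (hF : IsWeightedHomogeneous wB (iC (Fw f 0)) 0) (b : BC K) (hb : b ∈ JT f 1)
    (γ : Fin 4 →₀ ℕ) : coeff γ (kap K b) ∈ JT f 1 := by
  have h1 : JT f 1 ≤ ((JT f 1).map (C : BC K →+* MvPolynomial (Fin 4) (BC K))).comap (kap K) := by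
    have hF0 : iC (Fw f 0) ∈ JT f 1 := by
      refine Ideal.mem_sup_left (Ideal.mem_sup_left (Ideal.subset_span ⟨0, ?_, rfl⟩))
      simp
    refine sup_le (sup_le ?_ ?_) ?_
    · refine Ideal.span_le.mpr ?_
      rintro _ ⟨i, hi, rfl⟩
      have hi0 : i = 0 := by simpa using hi
      subst hi0
      rw [SetLike.mem_coe, Ideal.mem_comap, kap_zero _ hF, rho_iC]
      exact Ideal.mem_map_of_mem _ hF0
    · refine Ideal.span_le.mpr ?_
      rintro _ rfl
      have : kap K (tB K) = 0 := by simp [kap, tB]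
      rw [SetLike.mem_coe, Ideal.mem_comap, this]
      exact Ideal.zero_mem _
    · refine Ideal.span_le.mpr ?_
      rintro _ rfl
      have : kap K (tB' K) = 0 := by simp [kap, tB']
      rw [SetLike.mem_coe, Ideal.mem_comap, this]
      exact Ideal.zero_mem _
  have h2 := h1 hb
  rw [Ideal.mem_comap, mem_map_C_iff] at h2
  exact h2 γ

theorem It_le (f : MvPolynomial (Fin 5) K) (r : ℕ) : It K ≤ JT f r :=
  sup_le (le_sup_of_le_left le_sup_right) le_sup_right

variable (K) in
/-- the monomial `u ^ γ` -/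
def um (γ : Fin 4 →₀ ℕ) : BC K := ∏ i, uB K i ^ γ i

theorem um_wt (γ : Fin 4 →₀ ℕ) : IsWeightedHomogeneous wB (um K γ) (dg γ) := by
  have h := IsWeightedHomogeneous.prod (R := K) (w := wB) Finset.univ (fun i => uB K i ^ γ i) (fun i => γ i • wB (Sum.inl (Sum.inr i)))
    (fun i _ => (isWeightedHomogeneous_X K wB (Sum.inl (Sum.inr i))).pow (γ i))
  have h2 : ∑ i, γ i • wB (Sum.inl (Sum.inr i)) = dg γ := by
    simp [wB, dg]
  rw [h2] at h
  exact h

theorem kap_um (γ : Fin 4 →₀ ℕ) : kap K (um K γ) = monomial γ 1 := by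
  have h : ∀ i, kap K (uB K i) = X i := fun i => by simp [kap, uB]
  rw [um, map_prod]
  simp only [map_pow, h]
  rw [MvPolynomial.monomial_eq, C_1, one_mul, Finsupp.prod_fintype _ _ (fun i => pow_zero _)]

/-- the monomials of degree `n` in `u` -/
def Sn (n : ℕ) : Finset (Fin 4 →₀ ℕ) := Finset.finsuppAntidiag Finset.univ n

theorem mem_Sn (n : ℕ) (γ : Fin 4 →₀ ℕ) : γ ∈ Sn n ↔ dg γ = n := by
  rw [Sn, Finset.mem_finsuppAntidiag]
  simp only [Finset.subset_univ, and_true, dg]
  exact_mod_cast Iff.rfl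

theorem card_Sn (n : ℕ) : (Sn n).card = (n + 3).choose 3 := by
  rw [Sn, Finset.card_finsuppAntidiag_nat_eq_choose]
  have h : (Finset.univ : Finset (Fin 4)).card + n - 1 = n + 3 := by simp; omega
  rw [h]
  exact Nat.choose_symm_add

theorem rho_sum (n : ℕ) (b : BC K) (hb : IsWeightedHomogeneous wB b n) :
    rhoT K b = ∑ γ ∈ Sn n, um K γ * coeff γ (kap K b) := by
  rw [← aeval_kap, aeval_def, eval₂_eq']
  have h : ∀ γ ∈ Sn n, γ ∉ (kap K b).support →
      (algebraMap (BC K) (BC K)) (coeff γ (kap K b)) * ∏ i, uB K i ^ γ i = 0 := by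
    intro γ _ h
    rw [notMem_support_iff.mp h, map_zero, zero_mul]
  have hs : (kap K b).support ⊆ Sn n := by
    intro γ hγ
    rw [mem_Sn]
    by_contra h1
    exact (mem_support_iff.mp hγ) (kap_coeff n b hb γ h1)
  rw [Finset.sum_subset hs h]
  exact Finset.sum_congr rfl fun γ _ => mul_comm _ _

/-- multiplication with `y` on `B ⧸ J` -/
def mu (J : Ideal (BC K)) (y : BC K) : Res (hV K).toRingHom (BC K ⧸ J) →ₗ[Gr.Pol K] Res (hV K).toRingHom (BC K ⧸ J) :=
  Res.map (hV K).toRingHom (LinearMap.lsmul (BC K) (BC K ⧸ J) y)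

theorem mu_mk (J : Ideal (BC K)) (y x : BC K) :
    mu J y (Res.mk (hV K).toRingHom (Ideal.Quotient.mk J x)) = Res.mk (hV K).toRingHom (Ideal.Quotient.mk J (y * x)) := rfl

end Vv4_aux

open Vv4_aux

theorem tVv4 : S_TsV → S_GpM → S_GLf → S_GKS → S_FnV → S_Hfv → S_Vv4 := by
  intro hTs hGp hGLf hGKS hFn hHf K _ f E _ Φ hf
  obtain ⟨_, _, hFB, hP0, _⟩ := hHf K f hf
  have hF0 : IsWeightedHomogeneous wB (iC (Fw f 0)) 0 := hFB 0
  have hmem : ∀ (j : ℤ) (y : Res (hV K).toRingHom (BC K ⧸ JT f 1)), y ∈ gV (JT f 1) j ↔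
      ∃ x : BC K, IsWeightedHomogeneous wB x j ∧ y = Res.mk (hV K).toRingHom (Ideal.Quotient.mk (JT f 1) x) :=
    fun j y => hGp.1 (Gr.Pol K) VB K (hV K).toRingHom wB (JT f 1) j hP0 y
  have hFI : FIn f (JT f 1) := (hFn K f hf).1.2.2.2.2 1 le_rfl
  have hKS : ∀ j, KS (Set.range (Gr.form f)) (gV (JT f 1) j) := fun j => hGKS K f (JT f 1) j hFI
  have hL : ∀ j, LFn (thV K) (gV (JT f 1) j) := fun j => hGLf K (JT f 1) j
  have hIt : ∀ x : BC K, x - rhoT K x ∈ JT f 1 := fun x => It_le f 1 (sub_rho x)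
  refine ⟨fun n => ?_, fun m hm => ?_⟩
  · have hres : ∀ γ : Sn n, ∀ y ∈ gV (JT f 1) 0, mu (JT f 1) (um K γ) y ∈ gV (JT f 1) n := by
      intro γ y hy
      obtain ⟨x, hx, rfl⟩ := (hmem 0 y).1 hy
      refine (hmem n _).2 ⟨um K γ * x, ?_, mu_mk _ _ _⟩
      have h := (um_wt (K := K) γ.1).mul hx
      rwa [(mem_Sn n γ.1).1 γ.2, add_zero] at h
    let ψ : (Sn n → gV (JT f 1) 0) →ₗ[Gr.Pol K] gV (JT f 1) n :=
      ∑ γ : Sn n, ((mu (JT f 1) (um K γ)).restrict (hres γ)).comp (LinearMap.proj γ)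
    have hψ : ∀ m : Sn n → gV (JT f 1) 0, (ψ m).1 = ∑ γ : Sn n, mu (JT f 1) (um K γ) (m γ).1 := by
      intro m
      simp only [ψ, LinearMap.sum_apply, Submodule.coe_sum]
      rfl
    have hψ2 : ∀ (m : Sn n → gV (JT f 1) 0) (c : (Fin 4 →₀ ℕ) → BC K),
        (∀ γ : Sn n, (m γ).1 = Res.mk (hV K).toRingHom (Ideal.Quotient.mk (JT f 1) (c γ))) →
        (ψ m).1 = Res.mk (hV K).toRingHom (Ideal.Quotient.mk (JT f 1) (∑ γ ∈ Sn n, um K γ * c γ)) := by
      intro m c hc
      rw [hψ, ← Finset.sum_coe_sort (Sn n) (fun γ => um K γ * c γ), map_sum]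
      show _ = ∑ γ : Sn n, Res.mk (hV K).toRingHom (Ideal.Quotient.mk (JT f 1) (um K γ * c γ))
      refine Finset.sum_congr rfl fun γ _ => ?_
      rw [hc, mu_mk]
    have hinj : Function.Injective ψ := by
      rw [injective_iff_map_eq_zero]
      intro m hm
      choose c hc0 hc using fun γ : Sn n => (hmem 0 (m γ).1).1 (m γ).2
      classical
      let c' : (Fin 4 →₀ ℕ) → BC K := fun γ => if h : γ ∈ Sn n then c ⟨γ, h⟩ else 0
      have hc' : ∀ γ : Sn n, c' γ = c γ := fun γ => by simp [c']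
      have h1 := hψ2 m c' (fun γ => by rw [hc', hc])
      rw [hm] at h1
      have h2 : ∑ γ ∈ Sn n, um K γ * c' γ ∈ JT f 1 := Ideal.Quotient.eq_zero_iff_mem.1 h1.symm
      funext δ
      have h3 := kap_mem f hF0 _ h2 δ
      have h4 : coeff δ.1 (kap K (∑ γ ∈ Sn n, um K γ * c' γ)) = rhoT K (c δ) := by
        rw [map_sum, coeff_sum, Finset.sum_eq_single δ.1]
        · rw [map_mul, kap_um, hc', kap_zero _ (hc0 δ), coeff_mul_C', coeff_monomial, if_pos rfl, one_mul]
        · intro γ hγ hne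
          have h5 : c' γ = c ⟨γ, hγ⟩ := by simp [c', hγ]
          rw [map_mul, kap_um, h5, kap_zero _ (hc0 _), coeff_mul_C', coeff_monomial, if_neg hne, zero_mul]
        · intro h
          exact absurd δ.2 h
      rw [h4] at h3
      have h6 : c δ ∈ JT f 1 := by
        have := (JT f 1).add_mem (hIt (c δ)) h3
        rwa [sub_add_cancel] at this
      apply Subtype.ext
      rw [hc δ, Ideal.Quotient.eq_zero_iff_mem.2 h6]
      rfl
    have hsurj : Function.Surjective ψ := by
      intro y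
      obtain ⟨x, hx, hy⟩ := (hmem n y.1).1 y.2
      refine ⟨fun γ => ⟨Res.mk (hV K).toRingHom (Ideal.Quotient.mk (JT f 1) (coeff γ.1 (kap K x))),
        (hmem 0 _).2 ⟨_, kap_coeff_wt x _, rfl⟩⟩, ?_⟩
      apply Subtype.ext
      rw [hψ2 _ (fun γ => coeff γ (kap K x)) (fun γ => rfl), hy, ← rho_sum n x hx]
      have h7 : Ideal.Quotient.mk (JT f 1) x = Ideal.Quotient.mk (JT f 1) (rhoT K x) :=
        (Ideal.Quotient.mk_eq_mk_iff_sub_mem _ _).2 (hIt x)
      rw [h7]
    have h8 := (hTs (Gr.Pol K) (Set.range (Gr.form f)) (thV K) E Φ inferInstance).2.1 (gV (JT f 1) n) (Sn n → gV (JT f 1) 0)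
      (LinearEquiv.ofBijective ψ ⟨hinj, hsurj⟩).symm (hL n) (hKS n)
    have h9 := (hTs (Gr.Pol K) (Set.range (Gr.form f)) (thV K) E Φ inferInstance).2.2 (Sn n) (fun _ => gV (JT f 1) 0)
      (fun _ => hL 0) (fun _ => hKS 0)
    rw [h8, h9, Finset.sum_const, Finset.card_univ, Fintype.card_coe, card_Sn]
  · refine Φ.tors _ (hKS m) fun y => ⟨0, ?_⟩
    obtain ⟨x, hx, hy⟩ := (hmem m y.1).1 y.2
    have h1 : kap K x = 0 := by
      ext1 γ
      rw [coeff_zero]
      refine kap_coeff m x hx γ fun h => ?_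
      have : 0 ≤ dg γ := Finset.sum_nonneg fun i _ => Int.natCast_nonneg _
      omega
    have h2 : rhoT K x = 0 := by rw [← aeval_kap, h1, map_zero]
    have h3 : x ∈ JT f 1 := by simpa [h2] using hIt x
    rw [pow_zero, one_smul]
    apply Subtype.ext
    rw [hy, Ideal.Quotient.eq_zero_iff_mem.2 h3]
    rfl

end Pool.Agent.QV
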