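import Pool.Agent.Lib.MP_b53bfe_ag.Q.SpecV

/-! Module Vv5: Hilbert functions, one step of the chain `JT f r`. -/

set_option autoImplicit false

noncomputable section

namespace Pool.Agent.QV

open Matrix
open MvPolynomial
open Pool.Agent.FY (Res)

namespace Vv5_aux

theorem JB_succ {K : Type} [Field K] (f : MvPolynomial (Fin 5) K) (r : ℕ) :
    JB f (Finset.range (r + 1)) = JB f (Finset.range r) ⊔ Ideal.span {iC (Fw f r)} := by
  unfold JB
  rw [← Ideal.span_union]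
  congr 1
  ext y
  simp only [Finset.mem_range, Set.mem_ofPred_eq, Set.mem_union, Set.mem_singleton_iff]
  constructor
  · rintro ⟨i, hi, rfl⟩
    rcases Nat.lt_succ_iff_lt_or_eq.1 hi with h | h
    · exact Or.inl ⟨i, h, rfl⟩
    · exact Or.inr (by rw [h])
  · rintro (⟨i, hi, rfl⟩ | rfl)
    · exact ⟨i, Nat.lt_succ_of_lt hi, rfl⟩
    · exact ⟨r, Nat.lt_succ_self r, rfl⟩

theorem JT_succ {K : Type} [Field K] (f : MvPolynomial (Fin 5) K) (r : ℕ) :
    JT f r ⊔ Ideal.span {iC (Fw f r)} = JT f (r + 1) := by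
  unfold JT
  rw [JB_succ]
  ac_rfl

theorem sup_zero {R : Type} [CommRing R] (J : Ideal R) (a : R) : J ⊔ Ideal.span {a * 0} = J := by
  rw [mul_zero, Ideal.span_singleton_eq_bot.2 rfl, sup_bot_eq]

theorem sup_zero' {R : Type} [CommRing R] (J : Ideal R) : J ⊔ Ideal.span {(0 : R)} = J := by
  rw [Ideal.span_singleton_eq_bot.2 rfl, sup_bot_eq]

end Vv5_aux

open Vv5_aux in
theorem tVv5 : S_GMl → S_Rg1 → S_FnV → S_Hfv → S_Vv5 := by
  intro hG hR hF hH K _ f E _ Φ ctx r h1 h4 m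
  obtain ⟨hhom, _, hrc⟩ := ctx
  have hFr := hF K f hhom
  have hfin : FIn f (JT f r) := hFr.1.2.2.2.2 r h1
  have hhomI : HomI wB (JT f r) := hFr.2.2.1.2.2.1 r
  have hw : IsWeightedHomogeneous wB (iC (Fw f r)) (r : ℤ) := (hH K f hhom).2.2.1 r
  have hb : IsWeightedHomogeneous wB (0 : BC K) (0 : ℤ) := isWeightedHomogeneous_zero K wB 0
  have key := hG K f E Φ (JT f r) (iC (Fw f r)) 0 m r 0 hhom hhomI hw hb
    (by rw [sup_zero]; exact hfin) (fun x _ hx => (hR K f hhom hrc).1 r h1 h4 x hx)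
  rw [sup_zero, sup_zero', JT_succ] at key
  exact key

end Pool.Agent.QV
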