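import Pool.Agent.Lib.MP_b53bfe_ag.Q.SpecV

/-!
# Module Vv6: arithmetic
-/

set_option autoImplicit false

noncomputable section

namespace Pool.Agent.QV

open Matrix MvPolynomial
open Pool.Agent.FY (Res)

theorem tVv6 : S_Vv6 := by
  intro E _ A v h1 h0 hA
  have s : ∀ r : ℕ, 1 ≤ r → r ≤ 4 → ∀ m : ℤ, A (r + 1) m = A r m - A r (m - r) := by
    intro r hr1 hr4 m
    rw [hA r hr1 hr4 m]
    abel
  have s2 : ∀ m : ℤ, A 2 m = A 1 m - A 1 (m - 1) := fun m => s 1 le_rfl (by norm_num) m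
  have s3 : ∀ m : ℤ, A 3 m = A 2 m - A 2 (m - 2) := fun m => s 2 (by norm_num) (by norm_num) m
  have s4 : ∀ m : ℤ, A 4 m = A 3 m - A 3 (m - 3) := fun m => s 3 (by norm_num) (by norm_num) m
  have s5 : ∀ m : ℤ, A 5 m = A 4 m - A 4 (m - 4) := fun m => s 4 (by norm_num) (by norm_num) m
  have z2 : ∀ m : ℤ, m < 0 → A 2 m = 0 := fun m hm => by
    rw [s2, h0 m hm, h0 _ (by omega), sub_zero]
  have z3 : ∀ m : ℤ, m < 0 → A 3 m = 0 := fun m hm => by
    rw [s3, z2 m hm, z2 _ (by omega), sub_zero]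
  have z4 : ∀ m : ℤ, m < 0 → A 4 m = 0 := fun m hm => by
    rw [s4, z3 m hm, z3 _ (by omega), sub_zero]
  -- degree two
  have a2 : ∀ n : ℕ, A 2 n = (n + 2).choose 2 • v := by
    intro n
    rw [s2]
    rcases n with _ | n
    · rw [h0 (((0 : ℕ) : ℤ) - 1) (by norm_num), h1]
      simp
    · have e : ((n + 1 : ℕ) : ℤ) - 1 = (n : ℤ) := by push_cast; ring
      rw [e, h1, h1]
      have e2 : (n + 1 + 3).choose 3 = (n + 1 + 2).choose 2 + (n + 3).choose 3 := Nat.choose_succ_succ (n + 3) 2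
      rw [e2, add_smul]
      abel
  have a3 : ∀ n : ℕ, A 3 n = (2 * n + 1) • v := by
    intro n
    rw [s3]
    rcases n with _ | _ | n
    · rw [z2 (((0 : ℕ) : ℤ) - 2) (by norm_num), a2]
      simp
    · rw [z2 (((0 + 1 : ℕ) : ℤ) - 2) (by norm_num), a2]
      simp [Nat.choose]
    · have e : ((n + 1 + 1 : ℕ) : ℤ) - 2 = (n : ℤ) := by push_cast; ring
      rw [e, a2, a2]
      have e2 : (n + 1 + 1 + 2).choose 2 = (n + 3) + ((n + 2) + (n + 2).choose 2) := by
        rw [show n + 1 + 1 + 2 = (n + 3) + 1 by ring, Nat.choose_succ_succ (n + 3) 1, Nat.choose_one_right,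
          show n + 3 = (n + 2) + 1 by ring, Nat.choose_succ_succ (n + 2) 1, Nat.choose_one_right]
      have e3 : 2 * (n + 1 + 1) + 1 = (n + 3) + (n + 2) := by ring
      rw [e2, e3, ← add_assoc, add_smul ((n + 3) + (n + 2))]
      abel
  have a4 : ∀ n : ℕ, A 4 ((n + 3 : ℕ) : ℤ) = 6 • v := by
    intro n
    have e : ((n + 3 : ℕ) : ℤ) - 3 = (n : ℤ) := by push_cast; ring
    rw [s4, e, a3, a3]
    have e3 : 2 * (n + 3) + 1 = 6 + (2 * n + 1) := by ring
    rw [e3, add_smul]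
    abel
  have b0 : A 4 0 = 1 • v := by
    rw [s4, z3 (0 - 3) (by norm_num), sub_zero]
    exact_mod_cast a3 0
  have b1 : A 4 1 = 3 • v := by
    rw [s4, z3 (1 - 3) (by norm_num), sub_zero]
    exact_mod_cast a3 1
  have b2 : A 4 2 = 5 • v := by
    rw [s4, z3 (2 - 3) (by norm_num), sub_zero]
    exact_mod_cast a3 2
  have b3 : A 4 3 = 6 • v := by exact_mod_cast a4 0
  have b4 : A 4 4 = 6 • v := by exact_mod_cast a4 1
  have b5 : A 4 5 = 6 • v := by exact_mod_cast a4 2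
  have b6 : A 4 6 = 6 • v := by exact_mod_cast a4 3
  have c0 : A 5 0 = 1 • v := by rw [s5, z4 (0 - 4) (by norm_num), sub_zero, b0]
  have c1 : A 5 1 = 3 • v := by rw [s5, z4 (1 - 4) (by norm_num), sub_zero, b1]
  have c2 : A 5 2 = 5 • v := by rw [s5, z4 (2 - 4) (by norm_num), sub_zero, b2]
  have c3 : A 5 3 = 6 • v := by rw [s5, z4 (3 - 4) (by norm_num), sub_zero, b3]
  have c4 : A 5 4 = 5 • v := by
    rw [s5, show (4 : ℤ) - 4 = 0 by norm_num, b4, b0]; module
  have c5 : A 5 5 = 3 • v := by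
    rw [s5, show (5 : ℤ) - 4 = 1 by norm_num, b5, b1]; module
  have c6 : A 5 6 = 1 • v := by
    rw [s5, show (6 : ℤ) - 4 = 2 by norm_num, b6, b2]; module
  have c7 : ∀ n : ℕ, A 5 ((n + 7 : ℕ) : ℤ) = 0 := by
    intro n
    have e : ((n + 7 : ℕ) : ℤ) - 4 = ((n + 3 : ℕ) : ℤ) := by push_cast; ring
    rw [s5, e, a4 n, show n + 7 = (n + 4) + 3 by ring, a4 (n + 4), sub_self]
  intro n hn
  induction n, hn using Nat.le_induction with
  | base =>
    rw [Finset.sum_range_succ, Finset.sum_range_succ, Finset.sum_range_succ, Finset.sum_range_succ,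
      Finset.sum_range_succ, Finset.sum_range_succ, Finset.sum_range_succ, Finset.sum_range_zero]
    push_cast
    rw [c0, c1, c2, c3, c4, c5, c6]
    rw [zero_add, ← add_smul, ← add_smul, ← add_smul, ← add_smul, ← add_smul, ← add_smul]
  | succ n hn ih =>
    obtain ⟨k, rfl⟩ := Nat.exists_eq_add_of_le' hn
    rw [Finset.sum_range_succ, ih, c7, add_zero]

end Pool.Agent.QV
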