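import Pool.Agent.Lib.MP_b53bfe_ag.Q.SpecV

/-!
# MP_b53bfe_ag, phase 3, module Vv7: vanishing in degree 0 (helper40)
-/

set_option autoImplicit false

noncomputable section

namespace Pool.Agent.QV

open Matrix MvPolynomial
open Pool.Agent.FY (Res)

namespace Vv7_aux

/-- the elements of the part of degree `j` -/
def Rep (K : Type) [Field K] (j : ℤ) : Prop :=
  ∀ (J : Ideal (BC K)) (y : Res (hV K).toRingHom (BC K ⧸ J)), y ∈ gV J j ↔
    ∃ x : BC K, IsWeightedHomogeneous wB x j ∧ y = FY.Res.mk (hV K).toRingHom (Ideal.Quotient.mk J x)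

lemma smul_mk_zero {K : Type} [Field K] {J : Ideal (BC K)} (p : Gr.Pol K) (x : BC K) :
    p • (FY.Res.mk (hV K).toRingHom (Ideal.Quotient.mk J x)) = 0 ↔ hV K p * x ∈ J := by
  rw [FY.Res.smul_mk]
  rw [← Ideal.Quotient.eq_zero_iff_mem, map_mul]
  exact Iff.rfl

lemma smul_mk {K : Type} [Field K] {J : Ideal (BC K)} (p : Gr.Pol K) (x : BC K) :
    p • (FY.Res.mk (hV K).toRingHom (Ideal.Quotient.mk J x)) =
      FY.Res.mk (hV K).toRingHom (Ideal.Quotient.mk J (hV K p * x)) := by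
  rw [FY.Res.smul_mk, map_mul]
  rfl

lemma mk_eq {K : Type} [Field K] {J : Ideal (BC K)} (x x' : BC K) :
    (FY.Res.mk (hV K).toRingHom (Ideal.Quotient.mk J x) : Res (hV K).toRingHom (BC K ⧸ J)) =
      FY.Res.mk (hV K).toRingHom (Ideal.Quotient.mk J x') ↔ x - x' ∈ J :=
  Ideal.Quotient.eq

/-- the map `B ⧸ J → B ⧸ J'` on the parts of degree `j` -/
lemma exists_map {K : Type} [Field K] {J J' : Ideal (BC K)} (h : J ≤ J') (j : ℤ) (hG : Rep K j) :
    ∃ q : gV J j →ₗ[Gr.Pol K] gV J' j, ∀ (n : gV J j) (x : BC K),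
      n.1 = FY.Res.mk (hV K).toRingHom (Ideal.Quotient.mk J x) →
      (q n).1 = FY.Res.mk (hV K).toRingHom (Ideal.Quotient.mk J' x) := by
  set l : (BC K ⧸ J) →ₗ[BC K] (BC K ⧸ J') := Submodule.factor h with hl
  have hm : ∀ y ∈ gV J j, FY.Res.map (hV K).toRingHom l y ∈ gV J' j := by
    intro y hy
    obtain ⟨x, hx, rfl⟩ := (hG J y).mp hy
    exact (hG J' _).mpr ⟨x, hx, rfl⟩
  refine ⟨(FY.Res.map (hV K).toRingHom l).restrict hm, fun n x hn => ?_⟩
  rw [LinearMap.coe_restrict_apply, hn]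
  rfl

/-- multiplication by an element of weight `0` -/
lemma exists_mul {K : Type} [Field K] {J : Ideal (BC K)} (a : BC K)
    (ha : IsWeightedHomogeneous wB a 0) (hG : Rep K 0) :
    ∃ φ : gV J 0 →ₗ[Gr.Pol K] gV J 0, ∀ (n : gV J 0) (x : BC K),
      n.1 = FY.Res.mk (hV K).toRingHom (Ideal.Quotient.mk J x) →
      (φ n).1 = FY.Res.mk (hV K).toRingHom (Ideal.Quotient.mk J (a * x)) := by
  set l : (BC K ⧸ J) →ₗ[BC K] (BC K ⧸ J) := LinearMap.lsmul (BC K) (BC K ⧸ J) a with hl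
  have hm : ∀ y ∈ gV J 0, FY.Res.map (hV K).toRingHom l y ∈ gV J 0 := by
    intro y hy
    obtain ⟨x, hx, rfl⟩ := (hG J y).mp hy
    refine (hG J _).mpr ⟨a * x, ?_, rfl⟩
    have h1 := ha.mul hx
    rwa [add_zero] at h1
  refine ⟨(FY.Res.map (hV K).toRingHom l).restrict hm, fun n x hn => ?_⟩
  rw [LinearMap.coe_restrict_apply, hn]
  rfl

/-- the weight of an exponent without `t`, `t'` is not negative -/
lemma weight_nonneg (e : VB →₀ ℕ) (h2 : e (Sum.inr 2) = 0) (h3 : e (Sum.inr 3) = 0) :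
    0 ≤ Finsupp.weight wB e := by
  rw [Finsupp.weight_apply]
  refine Finset.sum_nonneg fun v hv => ?_
  have hv0 : e v ≠ 0 := Finsupp.mem_support_iff.mp hv
  rcases v with (v | v) | v
  · simp [wB]
  · simp [wB]
  · fin_cases v
    · simp [wB]
    · simp [wB]
    · exact absurd h2 hv0
    · exact absurd h3 hv0

lemma hws (K : Type) [Field K] : IsWeightedHomogeneous wB (sB K) 0 :=
  isWeightedHomogeneous_X K wB (Sum.inr 0)

lemma hws' (K : Type) [Field K] : IsWeightedHomogeneous wB (sB' K) 0 :=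
  isWeightedHomogeneous_X K wB (Sum.inr 1)

lemma hwt (K : Type) [Field K] : IsWeightedHomogeneous wB (tB K) (-1) :=
  isWeightedHomogeneous_X K wB (Sum.inr 2)

/-- a monomial of weight `-k` is modulo `y` a multiple of `t ^ k` -/
lemma dec_mon {K : Type} [Field K] (k : ℕ) (y ε : BC K) (hy : tB' K - ε * sB' K * tB K = y)
    (hε : IsWeightedHomogeneous wB ε 0) (d : VB →₀ ℕ) (a : K)
    (hd : Finsupp.weight wB d = -(k : ℤ)) :
    ∃ c₁ : BC K, IsWeightedHomogeneous wB c₁ 0 ∧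
      monomial d a - tB K ^ k * c₁ ∈ Ideal.span {y} := by
  set m := d (Sum.inr 2) with hm
  set d' := d.erase (Sum.inr 2) with hd'
  set n := d' (Sum.inr 3) with hn
  set e := d'.erase (Sum.inr 3) with he
  have h1 : d = e + Finsupp.single (Sum.inr 2) m + Finsupp.single (Sum.inr 3) n := by
    have h2 : Finsupp.single (Sum.inr 2) m + d' = d := Finsupp.single_add_erase _ _
    have h3 : Finsupp.single (Sum.inr 3) n + e = d' := Finsupp.single_add_erase _ _
    rw [← h2, ← h3]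
    abel
  have he2 : e (Sum.inr 2) = 0 := by
    rw [he, Finsupp.erase_ne (by decide), hd', Finsupp.erase_same]
  have he3 : e (Sum.inr 3) = 0 := by
    rw [he, Finsupp.erase_same]
  have hwe := weight_nonneg e he2 he3
  have hwd : Finsupp.weight wB d = Finsupp.weight wB e - m - n := by
    rw [h1, map_add, map_add, Finsupp.weight_single, Finsupp.weight_single]
    simp [wB]
    ring
  obtain ⟨r, hr⟩ := Int.eq_ofNat_of_zero_le hwe
  have hmn : m + n = k + r := by
    have : (m : ℤ) + n = k + r := by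
      rw [hd, hr] at hwd
      linarith
    exact_mod_cast this
  have hmon : (monomial d a : BC K) = monomial e a * tB K ^ m * tB' K ^ n := by
    rw [tB, tB', X_pow_eq_monomial, X_pow_eq_monomial, monomial_mul, monomial_mul, mul_one, mul_one,
      ← h1]
  refine ⟨monomial e a * (ε * sB' K) ^ n * tB K ^ r, ?_, ?_⟩
  · have h2 : IsWeightedHomogeneous wB (monomial e a : BC K) (r : ℤ) :=
      isWeightedHomogeneous_monomial wB e a hr
    have h3 := (h2.mul ((hε.mul (hws' K)).pow n)).mul ((hwt K).pow r)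
    have h4 : (r : ℤ) + n • ((0 : ℤ) + 0) + r • (-1 : ℤ) = 0 := by
      simp
    rwa [h4] at h3
  · have h2 : (tB' K - ε * sB' K * tB K) ∣ tB' K ^ n - (ε * sB' K * tB K) ^ n := sub_dvd_pow_sub_pow _ _ n
    rw [hy] at h2
    have h3 : (monomial d a : BC K) - tB K ^ k * (monomial e a * (ε * sB' K) ^ n * tB K ^ r) =
        monomial e a * tB K ^ m * (tB' K ^ n - (ε * sB' K * tB K) ^ n) := by
      have h4 : tB K ^ m * tB K ^ n = tB K ^ k * tB K ^ r := by
        rw [← pow_add, ← pow_add, hmn]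
      rw [hmon, mul_pow (ε * sB' K) (tB K) n]
      linear_combination (monomial e a * (ε * sB' K) ^ n) * h4
    rw [h3]
    exact Ideal.mul_mem_left _ _ (Ideal.mem_span_singleton.mpr h2)

/-- an element of weight `-k` is modulo `y` a multiple of `t ^ k` -/
lemma dec {K : Type} [Field K] (k : ℕ) (y ε : BC K) (hy : tB' K - ε * sB' K * tB K = y)
    (hε : IsWeightedHomogeneous wB ε 0) (c : BC K) (hc : IsWeightedHomogeneous wB c (-(k : ℤ))) :
    ∃ c₁ : BC K, IsWeightedHomogeneous wB c₁ 0 ∧ c - tB K ^ k * c₁ ∈ Ideal.span {y} := by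
  have key : ∃ c₁ : BC K, IsWeightedHomogeneous wB c₁ 0 ∧
      (∑ v ∈ c.support, monomial v (coeff v c)) - tB K ^ k * c₁ ∈ Ideal.span {y} := by
    refine Finset.sum_induction _ (fun z : BC K => ∃ c₁ : BC K, IsWeightedHomogeneous wB c₁ 0 ∧
      z - tB K ^ k * c₁ ∈ Ideal.span {y}) ?_ ?_ ?_
    · rintro z z' ⟨c₁, h1, h2⟩ ⟨c₂, h3, h4⟩
      refine ⟨c₁ + c₂, h1.add h3, ?_⟩
      have h5 := Ideal.add_mem _ h2 h4
      have h6 : z + z' - tB K ^ k * (c₁ + c₂) = z - tB K ^ k * c₁ + (z' - tB K ^ k * c₂) := by ring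
      rwa [h6]
    · refine ⟨0, isWeightedHomogeneous_zero K wB 0, ?_⟩
      simp
    · intro v hv
      exact dec_mon k y ε hy hε v _ (hc (mem_support_iff.mp hv))
  rwa [← as_sum] at key

end Vv7_aux

open Vv7_aux in
theorem tVv7 : S_Psi → S_TsV → S_GpM → S_GLf → S_Hfv → S_FnV → S_Rg2 → S_RgZ → S_GKS → S_Vv7 := by
  intro hPsi hTs hGp hGL hHf hFn hR2 _hRZ hKS K _ f E _ Φ hC y hy
  obtain ⟨-, -, hwF, hw0, -, hf0, hf1, hf2, -, -⟩ := hHf K f hC.hom
  obtain ⟨⟨hI1, hI2, -, -, -⟩, ⟨hj0, hj1⟩, ⟨-, hHB, -, -⟩, hwd, hwT, hwt0, hwt'⟩ := hFn K f hC.hom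
  obtain ⟨-, hr3, hr4⟩ := hR2 K f hC.hom hC.rc y hy
  have hG : Rep K 0 := fun J y => hGp.1 (Gr.Pol K) VB K (hV K).toRingHom wB J 0 hw0 y
  have hwy : IsWeightedHomogeneous wB y (-1) := by
    rcases hy with rfl | rfl
    · exact hwT
    · exact hwt'
  have hFL : FIn f (JD f ⊔ Ideal.span {y}) := by
    rcases hy with rfl | rfl
    · exact hI1
    · exact hI2
  obtain ⟨ε, hε, hye⟩ : ∃ ε : BC K, IsWeightedHomogeneous wB ε 0 ∧ tB' K - ε * sB' K * tB K = y := by
    rcases hy with rfl | rfl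
    · refine ⟨C (-1), isWeightedHomogeneous_C wB (-1), ?_⟩
      rw [TB, C_neg, C_1]
      ring
    · refine ⟨0, isWeightedHomogeneous_zero K wB 0, ?_⟩
      ring
  set J : Ideal (BC K) := JB f (Finset.range 3) ⊔ Ideal.span {y} with hJ
  set J' : Ideal (BC K) := JB f (Finset.range 4) ⊔ Ideal.span {y} with hJ'
  set L : Ideal (BC K) := JD f ⊔ Ideal.span {y} with hL
  set a : BC K := tB K ^ 3 * iC (Fw f 3) with ha
  -- generators
  have hmemB : ∀ (n i : ℕ), i < n → iC (Fw f i) ∈ JB f (Finset.range n) := fun n i hi =>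
    Ideal.subset_span ⟨i, Finset.mem_range.mpr hi, rfl⟩
  have hyJ : Ideal.span {y} ≤ J := le_sup_right
  have hyJ' : Ideal.span {y} ≤ J' := le_sup_right
  have hB34 : JB f (Finset.range 3) ≤ JB f (Finset.range 4) := by
    refine Ideal.span_le.mpr ?_
    rintro _ ⟨i, hi, rfl⟩
    exact hmemB 4 i (by have := Finset.mem_range.mp hi; omega)
  have hJJ' : J ≤ J' := sup_le_sup_right hB34 _
  have hJ'L : J' ≤ L := sup_le_sup_right le_sup_left _
  have hB4 : JB f (Finset.range 4) ≤ JB f (Finset.range 3) ⊔ Ideal.span {iC (Fw f 3)} := by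
    refine Ideal.span_le.mpr ?_
    rintro _ ⟨i, hi, rfl⟩
    have hi4 := Finset.mem_range.mp hi
    by_cases h3 : i < 3
    · exact Ideal.mem_sup_left (hmemB 3 i h3)
    · have h4 : i = 3 := by omega
      subst h4
      exact Ideal.mem_sup_right (Ideal.mem_span_singleton_self _)
  have hJ'3 : J' ≤ J ⊔ Ideal.span {iC (Fw f 3)} := by
    refine sup_le (hB4.trans (sup_le_sup_right le_sup_left _)) (le_sup_right.trans le_sup_left)
  have hLJ' : L ≤ J' ⊔ Ideal.span {dB f} := by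
    refine sup_le (sup_le (le_sup_left.trans le_sup_left) le_sup_right) (le_sup_right.trans le_sup_left)
  have haJ' : a ∈ J' := Ideal.mul_mem_left _ _ (Ideal.mem_sup_left (hmemB 4 3 (by norm_num)))
  -- weights
  have hwa : IsWeightedHomogeneous wB a 0 := by
    have h1 := (hwt0.pow 3).mul (hwF 3)
    have h2 : (3 : ℕ) • (-1 : ℤ) + ((3 : ℕ) : ℤ) = 0 := by norm_num
    rwa [h2] at h1
  have hw4 : IsWeightedHomogeneous wB (tB K ^ 4 * dB f) 0 := by
    have h1 := (hwt0.pow 4).mul hwd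
    have h2 : (4 : ℕ) • (-1 : ℤ) + (4 : ℤ) = 0 := by norm_num
    rwa [h2] at h1
  have hHy : HomI wB (Ideal.span {y}) := hGp.2.2.1 VB K wB {y} (by
    intro b hb
    rw [Set.mem_singleton_iff] at hb
    exact ⟨-1, hb ▸ hwy⟩)
  have hHJ : HomI wB J := (hGp.2.1 VB K wB _ _ (hHB _) hHy).1
  have hHJ' : HomI wB J' := (hGp.2.1 VB K wB _ _ (hHB _) hHy).1
  -- the second form of the chart
  have hψ : hV K (Gr.form f 1) - tB K ^ 4 * dB f - sB K ^ 2 * a ∈ JB f (Finset.range 3) := by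
    have h1 : hV K (Gr.form f 1) - tB K ^ 4 * dB f - sB K ^ 2 * a =
        sB K ^ 5 * iC (Fw f 0) + sB K ^ 4 * tB K * iC (Fw f 1) + sB K ^ 3 * tB K ^ 2 * iC (Fw f 2) := by
      rw [hf1, ha, dB]
      simp only [Finset.sum_range_succ, Finset.sum_range_zero]
      norm_num
      ring
    rw [h1]
    exact Ideal.add_mem _ (Ideal.add_mem _ (Ideal.mul_mem_left _ _ (hmemB 3 0 (by norm_num)))
      (Ideal.mul_mem_left _ _ (hmemB 3 1 (by norm_num))))
      (Ideal.mul_mem_left _ _ (hmemB 3 2 (by norm_num)))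
  have hψJ : hV K (Gr.form f 1) - tB K ^ 4 * dB f - sB K ^ 2 * a ∈ J := Ideal.mem_sup_left hψ
  -- elements of weight 0
  have K2 : ∀ x : BC K, IsWeightedHomogeneous wB x 0 → x ∈ J' →
      ∃ c : BC K, IsWeightedHomogeneous wB c 0 ∧ x - a * c ∈ J := by
    intro x hx hxJ
    obtain ⟨c', hc', hxc⟩ := hGp.2.2.2 VB K wB J (iC (Fw f 3)) ((3 : ℕ) : ℤ) 0 x hHJ (hwF 3) hx (hJ'3 hxJ)
    rw [zero_sub] at hc'
    obtain ⟨c, hc, hcc⟩ := dec 3 y ε hye hε c' hc'
    refine ⟨c, hc, ?_⟩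
    have h1 : x - a * c = (x - iC (Fw f 3) * c') + iC (Fw f 3) * (c' - tB K ^ 3 * c) := by
      rw [ha]; ring
    rw [h1]
    exact Ideal.add_mem _ hxc (Ideal.mul_mem_left _ _ (hyJ hcc))
  have K1 : ∀ x : BC K, IsWeightedHomogeneous wB x 0 → x ∈ L →
      ∃ c₁ c₂ : BC K, IsWeightedHomogeneous wB c₁ 0 ∧ IsWeightedHomogeneous wB c₂ 0 ∧
        x - (hV K (Gr.form f 1) * c₁ + a * c₂) ∈ J := by
    intro x hx hxL
    obtain ⟨c', hc', hxc⟩ := hGp.2.2.2 VB K wB J' (dB f) 4 0 x hHJ' hwd hx (hLJ' hxL)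
    rw [zero_sub] at hc'
    obtain ⟨c₁, hc₁, hcc⟩ := dec 4 y ε hye hε c' hc'
    have h1 : x - tB K ^ 4 * dB f * c₁ ∈ J' := by
      have h2 : x - tB K ^ 4 * dB f * c₁ = (x - dB f * c') + dB f * (c' - tB K ^ 4 * c₁) := by ring
      rw [h2]
      exact Ideal.add_mem _ hxc (Ideal.mul_mem_left _ _ (hyJ' hcc))
    have h3 : IsWeightedHomogeneous wB (x - tB K ^ 4 * dB f * c₁) 0 := by
      have h4 := hw4.mul hc₁
      rw [add_zero] at h4
      exact hx.sub h4
    obtain ⟨c₂, hc₂, h5⟩ := K2 _ h3 h1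
    refine ⟨c₁, c₂ - sB K ^ 2 * c₁, hc₁, ?_, ?_⟩
    · have h6 := ((hws K).pow 2).mul hc₁
      have h7 : (2 : ℕ) • (0 : ℤ) + 0 = 0 := by norm_num
      rw [h7] at h6
      exact hc₂.sub h6
    · have h8 : x - (hV K (Gr.form f 1) * c₁ + a * (c₂ - sB K ^ 2 * c₁)) =
          (x - tB K ^ 4 * dB f * c₁ - a * c₂) -
            (hV K (Gr.form f 1) - tB K ^ 4 * dB f - sB K ^ 2 * a) * c₁ := by ring
      rw [h8]
      exact Ideal.sub_mem _ h5 (Ideal.mul_mem_right _ _ hψJ)
  -- the third form of the chart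
  have K3 : ∃ b : BC K, IsWeightedHomogeneous wB b 0 ∧
      hV K (Gr.form f 2) - hV K (Gr.form f 1) * b ∈ J := by
    rcases hy with hy | hy
    · refine ⟨0, isWeightedHomogeneous_zero K wB 0, ?_⟩
      rw [mul_zero, sub_zero, hf2]
      refine Ideal.sum_mem _ fun i _ => ?_
      rcases i with _ | i
      · exact Ideal.mul_mem_left _ _ (Ideal.mem_sup_left (hmemB 3 0 (by norm_num)))
      · refine Ideal.mul_mem_right _ _ (Ideal.mul_mem_left _ _ ?_)
        rw [pow_succ]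
        refine Ideal.mul_mem_left _ _ (hyJ ?_)
        rw [← hy]
        exact Ideal.mem_span_singleton_self _
    · refine ⟨sB' K ^ 5, ?_, ?_⟩
      · have h1 := (hws' K).pow 5
        have h2 : (5 : ℕ) • (0 : ℤ) = 0 := by norm_num
        rwa [h2] at h1
      · refine hyJ ?_
        rw [hf1, hf2, Finset.sum_mul, ← Finset.sum_sub_distrib]
        refine Ideal.sum_mem _ fun i hi => ?_
        have hi6 := Finset.mem_range.mp hi
        have h1 : (TB K - sB' K * tB K) ∣ TB K ^ i - (sB' K * tB K) ^ i := sub_dvd_pow_sub_pow _ _ i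
        have h2 : TB K - sB' K * tB K = y := by rw [TB, hy]; ring
        rw [h2] at h1
        have h3 : sB' K ^ (5 - i) * sB' K ^ i = sB' K ^ 5 := by
          rw [← pow_add]
          congr 1
          omega
        have h4 : (sB' K * sB K) ^ (5 - i) * TB K ^ i * iC (Fw f i) -
            sB K ^ (5 - i) * tB K ^ i * iC (Fw f i) * sB' K ^ 5 =
            (sB' K * sB K) ^ (5 - i) * iC (Fw f i) * (TB K ^ i - (sB' K * tB K) ^ i) := by
          rw [← h3, mul_pow, mul_pow]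
          ring
        rw [h4]
        exact Ideal.mul_mem_left _ _ (Ideal.mem_span_singleton.mpr h1)
  obtain ⟨b, hb, hb2⟩ := K3
  -- the map φ
  obtain ⟨φ, hφ⟩ := exists_mul (J := J) a hwa hG
  have hrep : ∀ (I : Ideal (BC K)) (n : gV I 0), ∃ x : BC K, IsWeightedHomogeneous wB x 0 ∧
      n.1 = FY.Res.mk (hV K).toRingHom (Ideal.Quotient.mk I x) := fun I n => (hG I n.1).mp n.2
  have hmk : ∀ (x : BC K), IsWeightedHomogeneous wB x 0 →
      ∃ n : gV J 0, n.1 = FY.Res.mk (hV K).toRingHom (Ideal.Quotient.mk J x) := fun x hx =>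
    ⟨⟨_, (hG J _).mpr ⟨x, hx, rfl⟩⟩, rfl⟩
  have hz : Φ.f (gV J 0 ⧸ (LinearMap.range φ ⊔
      LinearMap.range (LinearMap.lsmul (Gr.Pol K) (gV J 0) (Gr.form f 1)))) = 0 := by
    refine hPsi (Gr.Pol K) (Set.range (Gr.form f)) (thV K) E Φ (Gr.form f 1) (gV J 0) φ inferInstance
      (hGL K J 0) ?_ ?_ ?_
    · rintro _ ⟨i, rfl⟩ m
      obtain ⟨n, rfl⟩ := Submodule.Quotient.mk_surjective _ m
      rw [← Submodule.Quotient.mk_smul, Submodule.Quotient.mk_eq_zero]
      obtain ⟨x, hx, hn⟩ := hrep J n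
      fin_cases i
      · have h1 : Gr.form f 0 • n = 0 := by
          apply Subtype.ext
          show Gr.form f 0 • n.1 = 0
          rw [hn, smul_mk_zero, hf0]
          exact Ideal.mul_mem_right _ _ (Ideal.mem_sup_left (hmemB 3 0 (by norm_num)))
        show Gr.form f 0 • n ∈ _
        rw [h1]
        exact Submodule.zero_mem _
      · exact Submodule.smul_mem_smul (Ideal.mem_span_singleton_self _) Submodule.mem_top
      · have h0 : IsWeightedHomogeneous wB (b * x) 0 := by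
          have h1 := hb.mul hx
          rwa [add_zero] at h1
        obtain ⟨n', hn'⟩ := hmk _ h0
        have h1 : Gr.form f 2 • n = Gr.form f 1 • n' := by
          apply Subtype.ext
          show Gr.form f 2 • n.1 = Gr.form f 1 • n'.1
          rw [hn, hn', smul_mk, smul_mk, mk_eq]
          have h2 : hV K (Gr.form f 2) * x - hV K (Gr.form f 1) * (b * x) =
              (hV K (Gr.form f 2) - hV K (Gr.form f 1) * b) * x := by ring
          rw [h2]
          exact Ideal.mul_mem_right _ _ hb2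
        show Gr.form f 2 • n ∈ _
        rw [h1]
        exact Submodule.smul_mem_smul (Ideal.mem_span_singleton_self _) Submodule.mem_top
    · intro n hn
      obtain ⟨x, hx, hnx⟩ := hrep J n
      have h1 := hφ n x hnx
      rw [hn] at h1
      have h2 : a * x ∈ J := Ideal.Quotient.eq_zero_iff_mem.mp h1.symm
      obtain ⟨k, hk⟩ := hr3 x h2
      refine ⟨k, Subtype.ext ?_⟩
      show thV K ^ k • n.1 = 0
      rw [hnx, smul_mk_zero, map_pow]
      exact hk
    · rintro n ⟨m, hm⟩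
      obtain ⟨x, hx, hnx⟩ := hrep J n
      obtain ⟨x', hx', hmx⟩ := hrep J m
      have h1 := hφ m x' hmx
      rw [hm] at h1
      have h2 : Gr.form f 1 • n.1 = FY.Res.mk (hV K).toRingHom (Ideal.Quotient.mk J (a * x')) := h1
      rw [hnx, smul_mk, mk_eq] at h2
      have h3 : tB K ^ 4 * dB f * x ∈ J' := by
        have h4 : tB K ^ 4 * dB f * x = (hV K (Gr.form f 1) * x - a * x') + x' * a - sB K ^ 2 * x * a -
            (hV K (Gr.form f 1) - tB K ^ 4 * dB f - sB K ^ 2 * a) * x := by ring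
        rw [h4]
        exact Ideal.sub_mem _ (Ideal.sub_mem _ (Ideal.add_mem _ (hJJ' h2) (Ideal.mul_mem_left _ _ haJ'))
          (Ideal.mul_mem_left _ _ haJ')) (hJJ' (Ideal.mul_mem_right _ _ hψJ))
      obtain ⟨k, hk⟩ := hr4 x h3
      have h5 : IsWeightedHomogeneous wB (hV K (thV K) ^ k * x) 0 := by
        have h7 := (hw0 (thV K ^ k)).mul hx
        rwa [map_pow, zero_add] at h7
      obtain ⟨c, hc, hcc⟩ := K2 _ h5 hk
      obtain ⟨n', hn'⟩ := hmk c hc
      refine ⟨k, n', Subtype.ext ?_⟩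
      rw [hφ n' c hn']
      show _ = thV K ^ k • n.1
      rw [hnx, smul_mk, map_pow]
      exact ((mk_eq _ _).mpr hcc).symm
  -- the comparison
  obtain ⟨q, hq⟩ := exists_map (K := K) (J := J) (J' := L) (hJJ'.trans hJ'L) 0 hG
  have hsurj : Function.Surjective q := by
    intro z
    obtain ⟨x, hx, hzx⟩ := hrep L z
    obtain ⟨n, hn⟩ := hmk x hx
    refine ⟨n, Subtype.ext ?_⟩
    rw [hzx]
    exact hq n x hn
  have hKL : KS (Set.range (Gr.form f)) (gV L 0) := hKS K f L 0 hFL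
  have hker : LinearMap.ker q = LinearMap.range φ ⊔
      LinearMap.range (LinearMap.lsmul (Gr.Pol K) (gV J 0) (Gr.form f 1)) := by
    apply le_antisymm
    · intro n hn
      obtain ⟨x, hx, hnx⟩ := hrep J n
      have h1 := hq n x hnx
      rw [LinearMap.mem_ker.mp hn] at h1
      have h2 : x ∈ L := Ideal.Quotient.eq_zero_iff_mem.mp h1.symm
      obtain ⟨c₁, c₂, hc₁, hc₂, hxc⟩ := K1 x hx h2
      obtain ⟨n₁, hn₁⟩ := hmk c₁ hc₁
      obtain ⟨n₂, hn₂⟩ := hmk c₂ hc₂
      refine Submodule.mem_sup.mpr ⟨φ n₂, ⟨n₂, rfl⟩, Gr.form f 1 • n₁, ⟨n₁, rfl⟩, ?_⟩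
      apply Subtype.ext
      show (φ n₂).1 + Gr.form f 1 • n₁.1 = n.1
      rw [hφ n₂ c₂ hn₂, hn₁, smul_mk, hnx]
      have h3 : x - (a * c₂ + hV K (Gr.form f 1) * c₁) ∈ J := by
        rw [add_comm]
        exact hxc
      have h4 := ((mk_eq _ _).mpr h3).symm
      rw [← h4, map_add]
      rfl
    · refine sup_le ?_ ?_
      · rintro _ ⟨m, rfl⟩
        obtain ⟨x, hx, hmx⟩ := hrep J m
        rw [LinearMap.mem_ker]
        apply Subtype.ext
        rw [hq (φ m) (a * x) (hφ m x hmx)]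
        exact Ideal.Quotient.eq_zero_iff_mem.mpr (Ideal.mul_mem_right _ _ (hJ'L haJ'))
      · rintro _ ⟨m, rfl⟩
        rw [LinearMap.mem_ker, LinearMap.lsmul_apply, map_smul]
        exact hKL _ ⟨1, rfl⟩ _
  obtain ⟨-, hiso, -⟩ := hTs (Gr.Pol K) (Set.range (Gr.form f)) (thV K) E Φ inferInstance
  have e := (Submodule.quotEquivOfEq _ _ hker.symm).trans (q.quotKerEquivOfSurjective hsurj)
  rw [hiso _ _ e.symm (hGL K L 0) hKL]
  exact hz

end Pool.Agent.QV
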