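import Pool.Agent.Lib.MP_b53bfe_ag.Q.SpecV

/-!
# Module Vv8: congruence modulo `F₅`
-/

set_option autoImplicit false

noncomputable section

namespace Pool.Agent.QV

open Matrix
open MvPolynomial
open Pool.Agent.FY (Res)

namespace Vv8_aux

variable {K : Type} [Field K]

theorem homI_sup {σ : Type} {w : σ → ℤ} {J₁ J₂ : Ideal (MvPolynomial σ K)} (h₁ : HomI w J₁)
    (h₂ : HomI w J₂) : HomI w (J₁ ⊔ J₂) := by
  intro x hx j
  obtain ⟨y, hy, z, hz, rfl⟩ := Submodule.mem_sup.mp hx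
  rw [map_add]
  exact Submodule.add_mem_sup (h₁ y hy j) (h₂ z hz j)

theorem span_eq (f : MvPolynomial (Fin 5) K) (i : ℕ) : Ideal.span {iC (Fw f i)} = JB f {i} := by
  have h : {y : BC K | ∃ j ∈ ({i} : Finset ℕ), y = iC (Fw f j)} = {iC (Fw f i)} := by
    ext y
    simp only [Finset.mem_singleton, Set.mem_setOf_eq, Set.mem_singleton_iff, exists_eq_left]
  rw [JB, h]

theorem mem_JB (f : MvPolynomial (Fin 5) K) (S : Finset ℕ) {i : ℕ} (hi : i ∈ S) :
    iC (Fw f i) ∈ JB f S := Ideal.subset_span ⟨i, hi, rfl⟩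

theorem JB_mono (f : MvPolynomial (Fin 5) K) {S S' : Finset ℕ} (h : S ⊆ S') : JB f S ≤ JB f S' := by
  refine Ideal.span_mono ?_
  rintro y ⟨i, hi, rfl⟩
  exact ⟨i, h hi, rfl⟩

theorem dB_mem (f : MvPolynomial (Fin 5) K) : dB f ∈ JB f (Finset.range 6) := by
  refine add_mem ?_ ?_
  · exact Ideal.mul_mem_left _ _ (mem_JB f _ (by decide))
  · exact Ideal.mul_mem_left _ _ (mem_JB f _ (by decide))

theorem le (f : MvPolynomial (Fin 5) K) :
    JD f ⊔ Ideal.span {iC (Fw f 5)} ≤ JB f (Finset.range 6) := by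
  refine sup_le (sup_le (JB_mono f (by decide)) ?_) ?_
  · rw [Ideal.span_singleton_le_iff_mem]
    exact dB_mem f
  · rw [Ideal.span_singleton_le_iff_mem]
    exact mem_JB f _ (by decide)

theorem f5_mem (f : MvPolynomial (Fin 5) K) :
    iC (Fw f 5) ∈ JD f ⊔ Ideal.span {iC (Fw f 5)} :=
  Ideal.mem_sup_right (Ideal.subset_span rfl)

theorem sF4_mem (f : MvPolynomial (Fin 5) K) :
    sB K * iC (Fw f 4) ∈ JD f ⊔ Ideal.span {iC (Fw f 5)} := by
  have h : sB K * iC (Fw f 4) = dB f - tB K * iC (Fw f 5) := by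
    rw [dB]; ring
  rw [h]
  refine sub_mem (Ideal.mem_sup_left ?_) (Ideal.mul_mem_left _ _ (f5_mem f))
  exact Ideal.mem_sup_right (Ideal.subset_span rfl)

theorem th_mul (f : MvPolynomial (Fin 5) K)
    (hth : hV K (thV K) = iC (xC K 3) ^ 3 * sB K ^ 2 * sB' K) (x : BC K)
    (hx : x ∈ JB f (Finset.range 6)) :
    hV K (thV K) * x ∈ JD f ⊔ Ideal.span {iC (Fw f 5)} := by
  induction hx using Submodule.span_induction with
  | mem x hx =>
    obtain ⟨i, hi, rfl⟩ := hx
    have hi6 : i < 6 := Finset.mem_range.mp hi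
    by_cases h4 : i < 4
    · exact Ideal.mul_mem_left _ _ (Ideal.mem_sup_left (Ideal.mem_sup_left
        (mem_JB f _ (Finset.mem_range.mpr h4))))
    · by_cases h5 : i = 5
      · subst h5
        exact Ideal.mul_mem_left _ _ (f5_mem f)
      · have h4' : i = 4 := by omega
        subst h4'
        have e : hV K (thV K) * iC (Fw f 4) =
            (iC (xC K 3) ^ 3 * sB K * sB' K) * (sB K * iC (Fw f 4)) := by
          rw [hth]; ring
        rw [e]
        exact Ideal.mul_mem_left _ _ (sF4_mem f)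
  | zero => rw [mul_zero]; exact zero_mem _
  | add x y _ _ hx hy => rw [mul_add]; exact add_mem hx hy
  | smul a x _ hx =>
    rw [smul_eq_mul, mul_left_comm]
    exact Ideal.mul_mem_left _ _ hx

end Vv8_aux

open Vv8_aux in
theorem tVv8 : S_GCg → S_FnV → S_Hfv → S_Vv8 := by
  intro hG hF hH K _ f E _ Φ hf m
  obtain ⟨⟨-, -, hI5, hI6, -⟩, -, ⟨hJD, hJB, -, -⟩, -⟩ := hF K f hf
  obtain ⟨-, -, -, -, hth, -⟩ := hH K f hf
  refine hG K f E Φ _ _ m hf (homI_sup hJD ?_) (hJB _) hI5 hI6 ?_ ?_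
  · rw [span_eq]
    exact hJB _
  · intro x _ hx
    exact ⟨0, by rw [pow_zero, one_mul]; exact le f hx⟩
  · intro x _ hx
    exact ⟨1, by rw [pow_one]; exact th_mul f hth x hx⟩

end Pool.Agent.QV
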