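import Pool.Agent.Lib.MP_b53bfe_ag.Q.SpecV

/-!
# The relation (S_Vv9 of SpecV)
-/

set_option autoImplicit false

noncomputable section

namespace Pool.Agent.QV

open Matrix
open MvPolynomial
open Pool.Agent.FY (Res)

theorem tVv9 : S_Vv1 → S_Vv2 → S_Vv3 → S_Vv4 → S_Vv5 → S_Vv6 → S_Vv7 → S_Vv8 → S_Vv9 := by
  intro h1 h2 h3 h4 h5 h6 h7 h8 K _ f E _ Φ hC
  obtain ⟨M, hM⟩ := h1 K f E Φ hC
  obtain ⟨h4a, h4b⟩ := h4 K f E Φ hC.hom
  have hsum := h6 E (fun r m => Φ.f (gV (JT f r) m)) (Φ.f (gV (JT f 1) 0)) h4a h4b (h5 K f E Φ hC)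
  -- the values for `y`
  have key : ∀ y : BC K, y = TB K ∨ y = tB' K → ∀ n : ℕ,
      Φ.f (gV (JD f ⊔ Ideal.span {y}) (n : ℤ)) = - ∑ i ∈ Finset.range n, Φ.f (gV (JT f 5) (i : ℤ)) := by
    intro y hy n
    induction n with
    | zero =>
      rw [Finset.sum_range_zero, neg_zero]
      exact h7 K f E Φ hC y hy
    | succ n ih =>
      have h := h3 K f E Φ hC y hy (n : ℤ)
      rw [ih] at h
      rw [Finset.sum_range_succ]
      have e : ((n + 1 : ℕ) : ℤ) = (n : ℤ) + 1 := by push_cast; rfl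
      rw [e, neg_add, h]
      abel
  have key2 : ∀ y : BC K, y = TB K ∨ y = tB' K → ∀ m : ℤ, 7 ≤ m →
      Φ.f (gV (JD f ⊔ Ideal.span {y}) m) = - (24 • Φ.f (gV (JT f 1) 0)) := by
    intro y hy m hm
    obtain ⟨n, rfl⟩ := Int.eq_ofNat_of_zero_le (by omega : 0 ≤ m)
    rw [key y hy n]
    have hn : 7 ≤ n := by exact_mod_cast hm
    exact congrArg _ (hsum n hn)
  refine ⟨max M 7 + 5, fun m hm => ?_⟩
  have hm1 : M ≤ m - 5 := by
    have := le_max_left M 7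
    omega
  have hm2 : 7 ≤ m - 5 := by
    have := le_max_right M 7
    omega
  have e := (h2 K f E Φ hC (m - 5)).symm.trans (hM (m - 5) hm1)
  rw [key2 _ (Or.inl rfl) (m - 5) hm2, key2 _ (Or.inl rfl) (m - 5 + 1) (by omega), key2 _ (Or.inl rfl) (m - 5 + 2) (by omega),
    key2 _ (Or.inl rfl) (m - 5 + 3) (by omega), key2 _ (Or.inr rfl) (m - 5 + 4) (by omega), h8 K f E Φ hC.hom (m - 5 + 5)] at e
  have e5 : m - 5 + 5 = m := by omega
  rw [e5] at e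
  have e6 : Φ.f (gV (JB f (Finset.range 6)) m) =
      24 • Φ.f (gV (JT f 1) 0) + 24 • Φ.f (gV (JT f 1) 0) + 24 • Φ.f (gV (JT f 1) 0) + 24 • Φ.f (gV (JT f 1) 0) +
      24 • Φ.f (gV (JT f 1) 0) := by
    have := eq_neg_of_add_eq_zero_right e
    rw [this]
    abel
  rw [e6]
  abel

end Pool.Agent.QV
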