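import Pool.Agent.Lib.MP_b53bfe_ag.Q.SpecV

/-!
# Disproof of Q1 of MP_b53bfe_ag for quintic threefolds, phase 3, module VvS: comparison with the small diagonal
-/

set_option autoImplicit false

noncomputable section

namespace Pool.Agent.QV

open Matrix
open MvPolynomial
open Pool.Agent.FY (Res)

namespace VvS_aux

variable {K : Type} [Field K]

theorem h0 (j : Fin 5) : hV K (X (0, j)) = iC (xC K j) := by
  rw [hV, aeval_X]; rfl

theorem h1 (j : Fin 5) : hV K (X (1, j)) = aB K j := by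
  rw [hV, aeval_X]; rfl

theorem h2 (j : Fin 5) : hV K (X (2, j)) = bB K j := by
  rw [hV, aeval_X]; rfl

theorem u3 : uC K 3 = 0 := by
  rw [uC]
  exact Fin.insertNth_apply_same _ _ _

theorem h13 : hV K (X (1, 3)) = sB K * iC (xC K 3) := by
  rw [h1, aB, u3, map_zero, mul_zero, add_zero]

theorem h23 : hV K (X (2, 3)) = sB' K * (sB K * iC (xC K 3)) := by
  rw [h2, bB, aB, u3, map_zero, mul_zero, add_zero, mul_zero, add_zero]

variable (f : MvPolynomial (Fin 5) K)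

theorem t_mem : tB K ∈ JT f 1 :=
  Ideal.mem_sup_left (Ideal.mem_sup_right (Ideal.mem_span_singleton_self _))

theorem t'_mem : tB' K ∈ JT f 1 := Ideal.mem_sup_right (Ideal.mem_span_singleton_self _)

/-- the factors of the rows -/
def cf (K : Type) [Field K] : Fin 3 → BC K := ![1, sB K, sB' K * sB K]

theorem row (i : Fin 3) (j : Fin 5) : Ideal.Quotient.mk (JT f 1) (hV K (X (i, j))) =
    Ideal.Quotient.mk (JT f 1) (cf K i) * Ideal.Quotient.mk (JT f 1) (iC (xC K j)) := by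
  have ht : Ideal.Quotient.mk (JT f 1) (tB K) = 0 := Ideal.Quotient.eq_zero_iff_mem.2 (t_mem f)
  have ht' : Ideal.Quotient.mk (JT f 1) (tB' K) = 0 := Ideal.Quotient.eq_zero_iff_mem.2 (t'_mem f)
  fin_cases i
  · show Ideal.Quotient.mk (JT f 1) (hV K (X (0, j))) = Ideal.Quotient.mk (JT f 1) 1 * _
    rw [h0, map_one, one_mul]
  · show Ideal.Quotient.mk (JT f 1) (hV K (X (1, j))) = Ideal.Quotient.mk (JT f 1) (sB K) * _
    rw [h1, aB, map_add, map_mul, map_mul, ht, zero_mul, add_zero]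
  · show Ideal.Quotient.mk (JT f 1) (hV K (X (2, j))) = Ideal.Quotient.mk (JT f 1) (sB' K * sB K) * _
    rw [h2, bB, aB, map_add, map_mul, map_mul, map_add, map_mul, map_mul, map_mul, ht, ht']
    ring

theorem small_mem (hF : FIn f (JT f 1)) (p : Gr.Pol K) (hp : p ∈ Ideal.span (Gr.smallGens f)) : hV K p ∈ JT f 1 := by
  have h1 : Ideal.span (Gr.smallGens f) ≤ (JT f 1).comap (hV K) := by
    refine Ideal.span_le.2 ?_
    rintro r (⟨i, k, j, j', rfl⟩ | ⟨i, rfl⟩)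
    · show hV K (Gr.minor K i k j j') ∈ JT f 1
      refine Ideal.Quotient.eq_zero_iff_mem.1 ?_
      rw [Gr.minor, map_sub, map_mul, map_mul, map_sub, map_mul, map_mul, row, row, row, row]
      ring
    · exact hF i
  exact h1 hp

theorem th_eq : hV K (thV K) = iC (xC K 3) * (sB K * iC (xC K 3)) * (sB' K * (sB K * iC (xC K 3))) := by
  rw [thV, map_mul, map_mul, h0, h13, h23]

/-- the kernel: the general statement -/
theorem ker_gen {A : Type} [CommRing A] [Algebra K A] (hf0 : hV K (Gr.form f 0) = iC (Fw f 0)) (φ : Gr.Pol K →ₐ[K] A)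
    (hφ : ∀ x ∈ Ideal.span (Gr.smallGens f), φ x = 0)
    (hu : IsUnit (φ (thV K))) (x : Gr.Pol K) (hx : hV K x ∈ JT f 1) : φ x = 0 := by
  have hu' := hu
  rw [thV, map_mul, map_mul] at hu'
  have hu0 : IsUnit (φ (X (0, 3))) := isUnit_of_mul_isUnit_left (isUnit_of_mul_isUnit_left hu')
  have hu1 : IsUnit (φ (X (1, 3))) := isUnit_of_mul_isUnit_right (isUnit_of_mul_isUnit_left hu')
  obtain ⟨w, hw⟩ := hu0
  obtain ⟨v, hv⟩ := hu1
  have hw' : ↑w⁻¹ * φ (X (0, 3)) = 1 := by rw [← hw, Units.inv_mul]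
  have hv' : ↑v⁻¹ * φ (X (1, 3)) = 1 := by rw [← hv, Units.inv_mul]
  have hm : ∀ (i k : Fin 3) (j : Fin 5), φ (X (i, j)) * φ (X (k, 3)) = φ (X (i, 3)) * φ (X (k, j)) := by
    intro i k j
    have h1 : φ (Gr.minor K i k j 3) = 0 := hφ _ (Ideal.subset_span (Or.inl ⟨i, k, j, 3, rfl⟩))
    rw [Gr.minor, map_sub, map_mul, map_mul] at h1
    linear_combination h1
  let ℓ : BC K →ₐ[K] A := aeval (Sum.elim (Sum.elim (fun j => φ (X (0, j))) (fun _ => 0))
    ![φ (X (1, 3)) * ↑w⁻¹, φ (X (2, 3)) * ↑v⁻¹, 0, 0])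
  have lx : ∀ j : Fin 5, ℓ (iC (xC K j)) = φ (X (0, j)) := by
    intro j
    show ℓ (rename Sum.inl (X (Sum.inl j))) = _
    rw [rename_X]
    exact aeval_X _ _
  have lu : ∀ j : Fin 5, ℓ (iC (uC K j)) = 0 := by
    intro j
    rcases Fin.eq_self_or_eq_succAbove (3 : Fin 5) j with rfl | ⟨i, rfl⟩
    · rw [u3, map_zero, map_zero]
    · have h1 : uC K ((3 : Fin 5).succAbove i) = X (Sum.inr i) := by
        rw [uC]
        exact Fin.insertNth_apply_succAbove _ _ _ _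
      rw [h1]
      show ℓ (rename Sum.inl (X (Sum.inr i))) = _
      rw [rename_X]
      exact aeval_X _ _
  have ls : ℓ (sB K) = φ (X (1, 3)) * ↑w⁻¹ := aeval_X _ _
  have ls' : ℓ (sB' K) = φ (X (2, 3)) * ↑v⁻¹ := aeval_X _ _
  have lt : ℓ (tB K) = 0 := aeval_X _ _
  have lt' : ℓ (tB' K) = 0 := aeval_X _ _
  have ha : ∀ j : Fin 5, ℓ (aB K j) = φ (X (1, j)) := by
    intro j
    rw [aB, map_add, map_mul, map_mul, lx, lu, ls, lt]
    linear_combination (-↑w⁻¹ : A) * hm 1 0 j + (φ (X (1, j))) * hw'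
  have hb : ∀ j : Fin 5, ℓ (bB K j) = φ (X (2, j)) := by
    intro j
    rw [bB, map_add, map_mul, map_mul, ha, lu, ls', lt']
    linear_combination (-↑v⁻¹ : A) * hm 2 1 j + (φ (X (2, j))) * hv'
  have hl : ℓ.comp (hV K) = φ := by
    refine MvPolynomial.algHom_ext fun v => ?_
    obtain ⟨i, j⟩ := v
    show ℓ (hV K (X (i, j))) = φ (X (i, j))
    fin_cases i
    · show ℓ (hV K (X (0, j))) = φ (X (0, j))
      rw [h0, lx]
    · show ℓ (hV K (X (1, j))) = φ (X (1, j))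
      rw [h1, ha]
    · show ℓ (hV K (X (2, j))) = φ (X (2, j))
      rw [h2, hb]
  have hk : JT f 1 ≤ RingHom.ker ℓ := by
    refine sup_le (sup_le (Ideal.span_le.2 ?_) (Ideal.span_le.2 ?_)) (Ideal.span_le.2 ?_)
    · rintro r ⟨i, hi, rfl⟩
      have hi0 : i = 0 := by simpa using hi
      subst hi0
      show ℓ (iC (Fw f 0)) = 0
      rw [← hf0]
      show (ℓ.comp (hV K)) (Gr.form f 0) = 0
      rw [hl]
      exact hφ _ (Ideal.subset_span (Or.inr ⟨0, rfl⟩))
    · rintro r rfl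
      exact lt
    · rintro r rfl
      exact lt'
  have h2 : ℓ (hV K x) = 0 := hk hx
  rw [← hl]
  exact h2

/-- the kernel -/
theorem ker_th (hf0 : hV K (Gr.form f 0) = iC (Fw f 0)) (x : Gr.Pol K) (hx : hV K x ∈ JT f 1) :
    ∃ k : ℕ, thV K ^ k * x ∈ Ideal.span (Gr.smallGens f) := by
  let S := Gr.Pol K ⧸ Ideal.span (Gr.smallGens f)
  let t : S := Ideal.Quotient.mkₐ K (Ideal.span (Gr.smallGens f)) (thV K)
  let φ : Gr.Pol K →ₐ[K] Localization.Away t :=
    (IsScalarTower.toAlgHom K S (Localization.Away t)).comp (Ideal.Quotient.mkₐ K (Ideal.span (Gr.smallGens f)))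
  have h1 : φ x = 0 := by
    refine ker_gen f hf0 φ (fun y hy => ?_) ?_ x hx
    · show algebraMap S (Localization.Away t) (Ideal.Quotient.mk (Ideal.span (Gr.smallGens f)) y) = 0
      rw [Ideal.Quotient.eq_zero_iff_mem.2 hy, map_zero]
    · exact IsLocalization.Away.algebraMap_isUnit t
  have h2 : algebraMap S (Localization.Away t) (Ideal.Quotient.mk (Ideal.span (Gr.smallGens f)) x) = 0 := h1
  obtain ⟨⟨m, k, hk⟩, hm⟩ := (IsLocalization.map_eq_zero_iff (Submonoid.powers t) (Localization.Away t) _).1 h2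
  refine ⟨k, Ideal.Quotient.eq_zero_iff_mem.1 ?_⟩
  rw [map_mul, map_pow]
  have h3 : m * Ideal.Quotient.mk (Ideal.span (Gr.smallGens f)) x = 0 := hm
  rw [← hk] at h3
  exact h3

/-- the elements which are in the image of `h` up to `θ`-torsion -/
def TT : Subalgebra K (BC K) where
  carrier := {y | ∃ (k : ℕ) (p : Gr.Pol K), hV K (thV K) ^ k * y - hV K p ∈ JT f 1}
  mul_mem' := by
    rintro y z ⟨k, p, hy⟩ ⟨l, q, hz⟩
    refine ⟨k + l, p * q, ?_⟩
    have e : hV K (thV K) ^ (k + l) * (y * z) - hV K (p * q) =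
        (hV K (thV K) ^ l * z) * (hV K (thV K) ^ k * y - hV K p) + hV K p * (hV K (thV K) ^ l * z - hV K q) := by
      rw [map_mul]; ring
    rw [e]
    exact Ideal.add_mem _ (Ideal.mul_mem_left _ _ hy) (Ideal.mul_mem_left _ _ hz)
  add_mem' := by
    rintro y z ⟨k, p, hy⟩ ⟨l, q, hz⟩
    refine ⟨k + l, thV K ^ l * p + thV K ^ k * q, ?_⟩
    have e : hV K (thV K) ^ (k + l) * (y + z) - hV K (thV K ^ l * p + thV K ^ k * q) =
        hV K (thV K) ^ l * (hV K (thV K) ^ k * y - hV K p) + hV K (thV K) ^ k * (hV K (thV K) ^ l * z - hV K q) := by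
      rw [map_add, map_mul, map_mul, map_pow, map_pow]; ring
    rw [e]
    exact Ideal.add_mem _ (Ideal.mul_mem_left _ _ hy) (Ideal.mul_mem_left _ _ hz)
  algebraMap_mem' r := by
    refine ⟨0, algebraMap K (Gr.Pol K) r, ?_⟩
    rw [pow_zero, one_mul, AlgHom.commutes, sub_self]
    exact Ideal.zero_mem _

theorem J_le (y : BC K) (hy : y ∈ JT f 1) : y ∈ TT f := by
  refine ⟨0, 0, ?_⟩
  rw [pow_zero, one_mul, map_zero, sub_zero]
  exact hy

theorem T_of_eq (k : ℕ) (p : Gr.Pol K) (y : BC K) (h : hV K (thV K) ^ k * y = hV K p) : y ∈ TT f := by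
  refine ⟨k, p, ?_⟩
  rw [h, sub_self]
  exact Ideal.zero_mem _

theorem T_x (j : Fin 5) : (X (Sum.inl (Sum.inl j)) : BC K) ∈ TT f := by
  refine T_of_eq f 0 (X (0, j)) _ ?_
  rw [pow_zero, one_mul, h0]
  show _ = rename Sum.inl (X (Sum.inl j))
  rw [rename_X]

theorem T_v (v : Fin 4) : (X (Sum.inr v) : BC K) ∈ TT f := by
  fin_cases v
  · show sB K ∈ TT f
    refine T_of_eq f 1 (X (1, 3) ^ 2 * X (2, 3)) _ ?_
    rw [th_eq, map_mul, map_pow, h13, h23]
    ring
  · show sB' K ∈ TT f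
    refine T_of_eq f 1 (X (0, 3) * X (2, 3) ^ 2) _ ?_
    rw [th_eq, map_mul, map_pow, h0, h23]
    ring
  · exact J_le f _ (t_mem f)
  · exact J_le f _ (t'_mem f)

/-- a monomial of weight `0` -/
theorem T_mon (d : VB →₀ ℕ) (hd : Finsupp.weight wB d = 0) (c : K) : monomial d c ∈ TT f := by
  by_cases ht : d (Sum.inr 2) = 0
  swap
  · refine J_le f _ ?_
    have h1 : (X (Sum.inr 2) : BC K) ∣ monomial d c := by
      rw [X_dvd_monomial]
      exact Or.inr ht
    exact Ideal.mem_of_dvd _ h1 (t_mem f)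
  by_cases ht' : d (Sum.inr 3) = 0
  swap
  · refine J_le f _ ?_
    have h1 : (X (Sum.inr 3) : BC K) ∣ monomial d c := by
      rw [X_dvd_monomial]
      exact Or.inr ht'
    exact Ideal.mem_of_dvd _ h1 (t'_mem f)
  have hsum : ∑ i : Fin 4, (d (Sum.inl (Sum.inr i)) : ℤ) = 0 := by
    rw [Finsupp.weight_apply, Finsupp.sum_fintype _ _ (fun v => by simp)] at hd
    rw [Fintype.sum_sum_type, Fintype.sum_sum_type] at hd
    have e1 : ∀ i : Fin 5, d (Sum.inl (Sum.inl i)) • wB (Sum.inl (Sum.inl i)) = 0 := fun i => by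
      show d (Sum.inl (Sum.inl i)) • (0 : ℤ) = 0
      rw [smul_zero]
    have e2 : ∀ i : Fin 4, d (Sum.inl (Sum.inr i)) • wB (Sum.inl (Sum.inr i)) = (d (Sum.inl (Sum.inr i)) : ℤ) := fun i => by
      show d (Sum.inl (Sum.inr i)) • (1 : ℤ) = _
      simp
    have e3 : ∑ i : Fin 4, d (Sum.inr i) • wB (Sum.inr i) = 0 := by
      rw [Fin.sum_univ_four, ht, ht', zero_smul, zero_smul]
      show d (Sum.inr 0) • (0 : ℤ) + d (Sum.inr 1) • (0 : ℤ) + 0 + 0 = 0
      simp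
    rw [e3, add_zero, Finset.sum_congr rfl (fun i _ => e1 i), Finset.sum_congr rfl (fun i _ => e2 i),
      Finset.sum_const_zero, zero_add] at hd
    exact hd
  have hu : ∀ i : Fin 4, d (Sum.inl (Sum.inr i)) = 0 := fun i => by
    have h1 := (Finset.sum_eq_zero_iff_of_nonneg (fun i _ => Int.natCast_nonneg _)).1 hsum i (Finset.mem_univ _)
    exact_mod_cast h1
  rw [monomial_eq]
  refine (TT f).mul_mem ((TT f).algebraMap_mem c) ?_
  refine (TT f).prod_mem fun v hv => ?_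
  refine (TT f).pow_mem ?_ _
  rcases v with (j | i) | v
  · exact T_x f j
  · exact absurd (hu i) (Finsupp.mem_support_iff.1 hv)
  · exact T_v f v

theorem T_wh (x : BC K) (hx : IsWeightedHomogeneous wB x 0) : x ∈ TT f := by
  rw [x.as_sum]
  refine (TT f).sum_mem fun d hd => ?_
  exact T_mon f d (hx (mem_support_iff.1 hd)) _

/-- the map `Pol ⧸ small → gV (JT f 1) 0` -/
def gm (hF : FIn f (JT f 1)) (hw : ∀ p : Gr.Pol K, IsWeightedHomogeneous wB (hV K p) 0) :
    (Gr.Pol K ⧸ Ideal.span (Gr.smallGens f)) →ₗ[Gr.Pol K] gV (JT f 1) 0 :=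
  (Submodule.liftQ (Ideal.span (Gr.smallGens f))
    ({ toFun := fun p => FY.Res.mk (hV K).toRingHom (Ideal.Quotient.mk (JT f 1) (hV K p))
       map_add' := fun p q => by rw [map_add, map_add]; rfl
       map_smul' := fun p q => by rw [smul_eq_mul, map_mul, map_mul]; rfl } :
      Gr.Pol K →ₗ[Gr.Pol K] Res (hV K).toRingHom (BC K ⧸ JT f 1))
    (fun p hp => by
      show FY.Res.mk (hV K).toRingHom (Ideal.Quotient.mk (JT f 1) (hV K p)) = 0
      rw [Ideal.Quotient.eq_zero_iff_mem.2 (small_mem f hF p hp)]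
      rfl)).codRestrict (gV (JT f 1) 0) (fun m => by
    obtain ⟨p, rfl⟩ := Submodule.Quotient.mk_surjective _ m
    exact Submodule.subset_span ⟨hV K p, hw p, rfl⟩)

theorem gm_val (hF : FIn f (JT f 1)) (hw : ∀ p : Gr.Pol K, IsWeightedHomogeneous wB (hV K p) 0) (p : Gr.Pol K) :
    (gm f hF hw (Submodule.Quotient.mk p) : Res (hV K).toRingHom (BC K ⧸ JT f 1)) =
      FY.Res.mk (hV K).toRingHom (Ideal.Quotient.mk (JT f 1) (hV K p)) := rfl

end VvS_aux

open VvS_aux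

theorem tVvS : S_TsV → S_GpM → S_GLf → S_Hfv → S_GKS → S_FnV → S_VvS := by
  intro hTs hGp hLf hHf hKS hFn K _ f E _ Φ hf
  have hF : FIn f (JT f 1) := (hFn K f hf).1.2.2.2.2 1 le_rfl
  have hH := hHf K f hf
  have hw : ∀ p : Gr.Pol K, IsWeightedHomogeneous wB (hV K p) 0 := hH.2.2.2.1
  have hf0 : hV K (Gr.form f 0) = iC (Fw f 0) := hH.2.2.2.2.2.1
  symm
  refine (hTs (Gr.Pol K) (Set.range (Gr.form f)) (thV K) E Φ inferInstance).1 (Gr.Pol K ⧸ Ideal.span (Gr.smallGens f))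
    (gV (JT f 1) 0) (gm f hF hw) ⟨⊤, (inferInstance : Module.Finite (Gr.Pol K) (Gr.Pol K ⧸ Ideal.span (Gr.smallGens f))).fg_top,
      fun _ => ⟨0, trivial⟩⟩ (hLf K _ 0) ?_ (hKS K f _ 0 hF) ?_ ?_
  · rintro s ⟨i, rfl⟩ m
    obtain ⟨p, rfl⟩ := Submodule.Quotient.mk_surjective _ m
    rw [← Submodule.Quotient.mk_smul, Submodule.Quotient.mk_eq_zero]
    exact Ideal.mul_mem_right _ _ (Ideal.subset_span (Or.inr ⟨i, rfl⟩))
  · intro m hm
    obtain ⟨p, rfl⟩ := Submodule.Quotient.mk_surjective _ m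
    have h3 : Ideal.Quotient.mk (JT f 1) (hV K p) = 0 := by
      have h4 := congrArg Subtype.val hm
      rw [gm_val] at h4
      exact h4
    obtain ⟨k, hk⟩ := ker_th f hf0 p (Ideal.Quotient.eq_zero_iff_mem.1 h3)
    refine ⟨k, ?_⟩
    rw [← Submodule.Quotient.mk_smul, Submodule.Quotient.mk_eq_zero]
    exact hk
  · intro n
    obtain ⟨x, hx, hnx⟩ := (hGp.1 (Gr.Pol K) VB K (hV K).toRingHom wB (JT f 1) 0 hw n.1).mp n.2
    obtain ⟨k, p, hp⟩ := T_wh f x hx
    refine ⟨k, Submodule.Quotient.mk p, Subtype.ext ?_⟩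
    rw [gm_val, Submodule.coe_smul, hnx, FY.Res.smul_mk, map_pow]
    have h5 : Ideal.Quotient.mk (JT f 1) (hV K (thV K) ^ k * x) = Ideal.Quotient.mk (JT f 1) (hV K p) := Ideal.Quotient.eq.2 hp
    exact h5

end Pool.Agent.QV
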