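import Pool.Agent.Lib.MP_b53bfe_ag.Q.AI
import Pool.Agent.Lib.MP_b53bfe_ag.Q.Der
import Pool.Agent.Lib.MP_b53bfe_ag.Q.Val
import Pool.Agent.Lib.MP_b53bfe_ag.Q.Kap
import Pool.Agent.Lib.MP_b53bfe_ag.Q.ParC
import Pool.Agent.Lib.MP_b53bfe_ag.Q.CalL
import Pool.Agent.Lib.MP_b53bfe_ag.Q.Sch
import Pool.Agent.Lib.MP_b53bfe_ag.Q.Comm
import Pool.Agent.Lib.MP_b53bfe_ag.Q.Sg
import Pool.Agent.Lib.MP_b53bfe_ag.Q.Gn
import Pool.Agent.Lib.MP_b53bfe_ag.Q.Gl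
import Pool.Agent.Lib.MP_b53bfe_ag.Q.Sw
import Pool.Agent.Lib.MP_b53bfe_ag.Q.Gi
import Pool.Agent.Lib.MP_b53bfe_ag.Q.Tri
import Pool.Agent.Lib.MP_b53bfe_ag.Q.Inv
import Pool.Agent.Lib.MP_b53bfe_ag.Q.Pd
import Pool.Agent.Lib.MP_b53bfe_ag.Q.Ex
import Pool.Agent.Lib.MP_b53bfe_ag.Q.Ad
import Pool.Agent.Lib.MP_b53bfe_ag.Q.Ckb
import Pool.Agent.Lib.MP_b53bfe_ag.Q.Phi1
import Pool.Agent.Lib.MP_b53bfe_ag.Q.Ext
import Pool.Agent.Lib.MP_b53bfe_ag.Q.All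
import Pool.Agent.Lib.MP_b53bfe_ag.Q.Phi
import Pool.Agent.Lib.MP_b53bfe_ag.Q.Prf
import Pool.Agent.Lib.MP_b53bfe_ag.Q.Chn
import Pool.Agent.Lib.MP_b53bfe_ag.Q.Gd1
import Pool.Agent.Lib.MP_b53bfe_ag.Q.NLD
import Pool.Agent.Lib.MP_b53bfe_ag.Q.Loc
import Pool.Agent.Lib.MP_b53bfe_ag.Q.D1
import Pool.Agent.Lib.MP_b53bfe_ag.Q.D2
import Pool.Agent.Lib.MP_b53bfe_ag.Q.KosI
import Pool.Agent.Lib.MP_b53bfe_ag.Q.Kos
import Pool.Agent.Lib.MP_b53bfe_ag.Q.LocG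
import Pool.Agent.Lib.MP_b53bfe_ag.Q.ChPa
import Pool.Agent.Lib.MP_b53bfe_ag.Q.Uni
import Pool.Agent.Lib.MP_b53bfe_ag.Q.Kn
import Pool.Agent.Lib.MP_b53bfe_ag.Q.KnL
import Pool.Agent.Lib.MP_b53bfe_ag.Q.ChP
import Pool.Agent.Lib.MP_b53bfe_ag.Q.Wv
import Pool.Agent.Lib.MP_b53bfe_ag.Q.Tor
import Pool.Agent.Lib.MP_b53bfe_ag.Q.Lat
import Pool.Agent.Lib.MP_b53bfe_ag.Q.Fin
import Pool.Agent.Lib.MP_b53bfe_ag.Q.Tis
import Pool.Agent.Lib.MP_b53bfe_ag.Q.Bqc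
import Pool.Agent.Lib.MP_b53bfe_ag.Q.LfB
import Pool.Agent.Lib.MP_b53bfe_ag.Q.LfE
import Pool.Agent.Lib.MP_b53bfe_ag.Q.CmpS
import Pool.Agent.Lib.MP_b53bfe_ag.Q.Rgp
import Pool.Agent.Lib.MP_b53bfe_ag.Q.Bq
import Pool.Agent.Lib.MP_b53bfe_ag.Q.Mlt
import Pool.Agent.Lib.MP_b53bfe_ag.Q.hW
import Pool.Agent.Lib.MP_b53bfe_ag.Q.Ret
import Pool.Agent.Lib.MP_b53bfe_ag.Q.RgE
import Pool.Agent.Lib.MP_b53bfe_ag.Q.Ch1
import Pool.Agent.Lib.MP_b53bfe_ag.Q.Ch2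
import Pool.Agent.Lib.MP_b53bfe_ag.Q.GoodM
import Pool.Agent.Lib.MP_b53bfe_ag.Q.CmpM
import Pool.Agent.Lib.MP_b53bfe_ag.Q.EEp
import Pool.Agent.Lib.MP_b53bfe_ag.Q.Dc
import Pool.Agent.Lib.MP_b53bfe_ag.Q.CalE
import Pool.Agent.Lib.MP_b53bfe_ag.Q.Un
import Pool.Agent.Lib.MP_b53bfe_ag.Q.kf
import Pool.Agent.Lib.MP_b53bfe_ag.Q.Gx1
import Pool.Agent.Lib.MP_b53bfe_ag.Q.Gx
import Pool.Agent.Lib.MP_b53bfe_ag.Q.Eq
import Pool.Agent.Lib.MP_b53bfe_ag.Q.Nv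
import Pool.Agent.Lib.MP_b53bfe_ag.Q.DW
import Pool.Agent.Lib.MP_b53bfe_ag.Q.X1
import Pool.Agent.Lib.MP_b53bfe_ag.Q.X3
import Pool.Agent.Lib.MP_b53bfe_ag.Q.pW
import Pool.Agent.Lib.MP_b53bfe_ag.Q.X2
import Pool.Agent.Lib.MP_b53bfe_ag.Q.XJ
import Pool.Agent.Lib.MP_b53bfe_ag.Q.GG
import Pool.Agent.Lib.MP_b53bfe_ag.Q.HLA
import Pool.Agent.Lib.MP_b53bfe_ag.Q.Cert1
import Pool.Agent.Lib.MP_b53bfe_ag.Q.Cert2
import Pool.Agent.Lib.MP_b53bfe_ag.Q.D21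
import Pool.Agent.Lib.MP_b53bfe_ag.Q.Hc
import Pool.Agent.Lib.MP_b53bfe_ag.Q.NF
import Pool.Agent.Lib.MP_b53bfe_ag.Q.Rh
import Pool.Agent.Lib.MP_b53bfe_ag.Q.L7
import Pool.Agent.Lib.MP_b53bfe_ag.Q.L8
import Pool.Agent.Lib.MP_b53bfe_ag.Q.Tab
import Pool.Agent.Lib.MP_b53bfe_ag.Q.Gh
import Pool.Agent.Lib.MP_b53bfe_ag.Q.HH
import Pool.Agent.Lib.MP_b53bfe_ag.Q.Mnp
import Pool.Agent.Lib.MP_b53bfe_ag.Q.fQh
import Pool.Agent.Lib.MP_b53bfe_ag.Q.HQc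
import Pool.Agent.Lib.MP_b53bfe_ag.Q.KZ
import Pool.Agent.Lib.MP_b53bfe_ag.Q.LtS
import Pool.Agent.Lib.MP_b53bfe_ag.Q.SLb
import Pool.Agent.Lib.MP_b53bfe_ag.Q.SLa
import Pool.Agent.Lib.MP_b53bfe_ag.Q.Dev
import Pool.Agent.Lib.MP_b53bfe_ag.Q.SLp
import Pool.Agent.Lib.MP_b53bfe_ag.Q.SLt
import Pool.Agent.Lib.MP_b53bfe_ag.Q.SgT
import Pool.Agent.Lib.MP_b53bfe_ag.Q.SLs
import Pool.Agent.Lib.MP_b53bfe_ag.Q.SL
import Pool.Agent.Lib.MP_b53bfe_ag.Q.RSm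
import Pool.Agent.Lib.MP_b53bfe_ag.Q.RS
import Pool.Agent.Lib.MP_b53bfe_ag.Q.DLa
import Pool.Agent.Lib.MP_b53bfe_ag.Q.DLb
import Pool.Agent.Lib.MP_b53bfe_ag.Q.DLq
import Pool.Agent.Lib.MP_b53bfe_ag.Q.DLf
import Pool.Agent.Lib.MP_b53bfe_ag.Q.DL
import Pool.Agent.Lib.MP_b53bfe_ag.Q.TR
import Pool.Agent.Lib.MP_b53bfe_ag.Q.Iso
import Pool.Agent.Lib.MP_b53bfe_ag.Q.Crd
import Pool.Agent.Lib.MP_b53bfe_ag.Q.Gen
import Pool.Agent.Lib.MP_b53bfe_ag.Q.DerG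
import Pool.Agent.Lib.MP_b53bfe_ag.Q.Smg
import Pool.Agent.Lib.MP_b53bfe_ag.Q.Dns
import Pool.Agent.Lib.MP_b53bfe_ag.Q.LvU
import Pool.Agent.Lib.MP_b53bfe_ag.Q.PUc
import Pool.Agent.Lib.MP_b53bfe_ag.Q.UUr
import Pool.Agent.Lib.MP_b53bfe_ag.Q.ThF
import Pool.Agent.Lib.MP_b53bfe_ag.Q.BcR
import Pool.Agent.Lib.MP_b53bfe_ag.Q.UcR
import Pool.Agent.Lib.MP_b53bfe_ag.Q.RgZ
import Pool.Agent.Lib.MP_b53bfe_ag.Q.Mon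
import Pool.Agent.Lib.MP_b53bfe_ag.Q.GpM
import Pool.Agent.Lib.MP_b53bfe_ag.Q.Hfv
import Pool.Agent.Lib.MP_b53bfe_ag.Q.RcI
import Pool.Agent.Lib.MP_b53bfe_ag.Q.Trd
import Pool.Agent.Lib.MP_b53bfe_ag.Q.BsP
import Pool.Agent.Lib.MP_b53bfe_ag.Q.SpP
import Pool.Agent.Lib.MP_b53bfe_ag.Q.No3
import Pool.Agent.Lib.MP_b53bfe_ag.Q.DAl
import Pool.Agent.Lib.MP_b53bfe_ag.Q.TrL
import Pool.Agent.Lib.MP_b53bfe_ag.Q.LtV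
import Pool.Agent.Lib.MP_b53bfe_ag.Q.TsV
import Pool.Agent.Lib.MP_b53bfe_ag.Q.QXV
import Pool.Agent.Lib.MP_b53bfe_ag.Q.GLf
import Pool.Agent.Lib.MP_b53bfe_ag.Q.FnV
import Pool.Agent.Lib.MP_b53bfe_ag.Q.ExtV
import Pool.Agent.Lib.MP_b53bfe_ag.Q.Rg1
import Pool.Agent.Lib.MP_b53bfe_ag.Q.Lgd
import Pool.Agent.Lib.MP_b53bfe_ag.Q.Rg4
import Pool.Agent.Lib.MP_b53bfe_ag.Q.Vv1
import Pool.Agent.Lib.MP_b53bfe_ag.Q.GKS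
import Pool.Agent.Lib.MP_b53bfe_ag.Q.GMl
import Pool.Agent.Lib.MP_b53bfe_ag.Q.Vv2
import Pool.Agent.Lib.MP_b53bfe_ag.Q.GCg
import Pool.Agent.Lib.MP_b53bfe_ag.Q.Low
import Pool.Agent.Lib.MP_b53bfe_ag.Q.Rg2
import Pool.Agent.Lib.MP_b53bfe_ag.Q.Vv3
import Pool.Agent.Lib.MP_b53bfe_ag.Q.Vv4
import Pool.Agent.Lib.MP_b53bfe_ag.Q.Vv5
import Pool.Agent.Lib.MP_b53bfe_ag.Q.Vv6
import Pool.Agent.Lib.MP_b53bfe_ag.Q.Psi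
import Pool.Agent.Lib.MP_b53bfe_ag.Q.Vv7
import Pool.Agent.Lib.MP_b53bfe_ag.Q.Vv8
import Pool.Agent.Lib.MP_b53bfe_ag.Q.Vv9
import Pool.Agent.Lib.MP_b53bfe_ag.Q.VvS
import Pool.Agent.Lib.MP_b53bfe_ag.Q.BaL
import Pool.Agent.Lib.MP_b53bfe_ag.Q.DvL
import Pool.Agent.Lib.MP_b53bfe_ag.Q.FtL
import Pool.Agent.Lib.MP_b53bfe_ag.Q.SgL
import Pool.Agent.Lib.MP_b53bfe_ag.Q.RtL
import Pool.Agent.Lib.MP_b53bfe_ag.Q.LFi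
import Pool.Agent.Lib.MP_b53bfe_ag.Q.LNs
import Pool.Agent.Lib.MP_b53bfe_ag.Q.LDv
import Pool.Agent.Lib.MP_b53bfe_ag.Q.LSm
import Pool.Agent.Lib.MP_b53bfe_ag.Q.LOn
import Pool.Agent.Lib.MP_b53bfe_ag.Q.GmK
import Pool.Agent.Lib.MP_b53bfe_ag.Q.RgF
import Pool.Agent.Lib.MP_b53bfe_ag.Q.GkL
import Pool.Agent.Lib.MP_b53bfe_ag.Q.FnL

/-!
# Assembly: proofs of the statements of the Spec files
-/

set_option autoImplicit false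

noncomputable section

namespace Pool.Agent.QV

theorem aAI : S_AI := tAI
theorem aDer : S_Der := tDer
theorem aVal : S_Val := tVal
theorem aKap : S_Kap := tKap
theorem aParC : S_ParC := tParC aAI aDer aVal aKap
theorem aCalL : S_CalL := tCalL
theorem aSch : S_Sch := tSch
theorem aComm : S_Comm := tComm
theorem aSg : S_Sg := tSg aComm
theorem aGn : S_Gn := tGn aComm aSg
theorem aGl : S_Gl := tGl aComm aGn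
theorem aSw : S_Sw := tSw aComm
theorem aGi : S_Gi := tGi aGl aSw
theorem aTri : S_Tri := tTri
theorem aInv : S_Inv := tInv aSch aGi aTri
theorem aPd : S_Pd := tPd
theorem aEx : S_Ex := tEx aPd
theorem aAd : S_Ad := tAd aEx
theorem aCkb : S_Ckb := tCkb aPd
theorem aPhi1 : S_Phi1 := tPhi1 aInv aEx aAd aTri aCkb
theorem aExt : S_Ext := tExt aPd aCkb
theorem aAll : S_All := tAll aExt aCkb aPd
theorem aPhi : S_Phi := tPhi aPhi1 aAll aCkb aTri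
theorem aPrf : S_Prf := tPrf aPd
theorem aChn : S_Chn := tChn aPhi aPrf aCkb aTri
theorem aGd1 : S_Gd1 := tGd1 aPd
theorem aNLD : S_NLD := tNLD aGd1 aPd
theorem aLoc : S_Loc := tLoc
theorem aD1 : S_D1 := tD1 aComm aSw
theorem aD2 : S_D2 := tD2
theorem aKosI : S_KosI := tKosI aD1 aD2
theorem aKos : S_Kos := tKos aKosI
theorem aLocG : S_LocG := tLocG
theorem aChPa : S_ChPa := tChPa aKos aLocG
theorem aUni : S_Uni := tUni aPd aCkb aEx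
theorem aKn : S_Kn := tKn aUni aKosI
theorem aKnL : S_KnL := tKnL aKn aNLD
theorem aChP : S_ChP := tChP aCalL aChn aNLD aLoc aChPa aKnL
theorem aWv : S_Wv := tWv
theorem aTor : S_Tor := tTor
theorem aLat : S_Lat := tLat
theorem aFin : S_Fin := tFin
theorem aTis : S_Tis := tTis
theorem aBqc : S_Bqc := tBqc aTis
theorem aLfB : S_LfB := tLfB
theorem aLfE : S_LfE := tLfE aLfB
theorem aCmpS : S_CmpS := tCmpS aBqc aLfE aLfB aFin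
theorem aRgp : S_Rgp := tRgp
theorem aBq : S_Bq := tBq aTis
theorem aMlt : S_Mlt := tMlt
theorem ahW : S_hW := thW
theorem aRet : S_Ret := tRet
theorem aRgE : S_RgE := tRgE aRet aRgp
theorem aCh1 : S_Ch1 := tCh1 aRgp aBq aMlt aLfE ahW aRgE
theorem aCh2 : S_Ch2 := tCh2 aMlt aLfE ahW aRgE
theorem aGoodM : S_GoodM := tGoodM aRet aRgp
theorem aCmpM : S_CmpM := tCmpM aBqc aLfE aGoodM
theorem aEEp : S_EEp := tEEp aChP aWv aTor aLat aFin aCmpS aCh1 aCh2 aCmpM aGoodM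
theorem aDc : S_Dc := tDc
theorem aCalE : S_CalE := tCalE aDc
theorem aUn : S_Un := tUn
theorem akf : S_kf := tkf
theorem aGx1 : S_Gx1 := tGx1
theorem aGx : S_Gx := tGx aGx1
theorem aEq : S_Eq := tEq akf aGx
theorem aNv : S_Nv := tNv aDc
theorem aDW : S_DW := tDW aDc
theorem aX1 : S_X1 := tX1
theorem aX3 : S_X3 := tX3 aNv aX1
theorem apW : S_pW := tpW
theorem aX2 : S_X2 := tX2
theorem aXJ : S_XJ := tXJ apW aX1 aX2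
theorem aGG : S_GG := tGG aEq aNv aDW aX1 aX3 aXJ
theorem aHLA : S_HLA := tHLA
theorem aCert1 : S_Cert1 := tCert1
theorem aCert2 : S_Cert2 := tCert2
theorem aD21 : S_D21 := tD21
theorem aHc : S_Hc := tHc aHLA aCert1 aCert2 aD21
theorem aNF : S_NF := tNF
theorem aRh : S_Rh := tRh
theorem aL7 : S_L7 := tL7 aNF aRh
theorem aL8 : S_L8 := tL8 aNF aRh
theorem aTab : S_Tab := tTab
theorem aGh : S_Gh := tGh
theorem aHH : S_HH := tHH aHc aL7 aL8 aTab aGh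
theorem aMnp : S_Mnp := tMnp aEEp aCalE aUn aGG aHH
theorem afQh : S_fQh := tfQh
theorem aHQc : S_HQc := tHQc aParC aMnp afQh aFin
theorem aKZ : S_KZ := tKZ
theorem aLtS : S_LtS := tLtS
theorem aSLb : S_SLb := tSLb
theorem aSLa : S_SLa := tSLa aKZ aLtS aSLb
theorem aDev : S_Dev := tDev aKZ
theorem aSLp : S_SLp := tSLp aLtS aSLb aDev
theorem aSLt : S_SLt := tSLt aLtS aSLb
theorem aSgT : S_SgT := tSgT aSLb
theorem aSLs : S_SLs := tSLs aSLb aSgT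
theorem aSL : S_SL := tSL aSLa aSLp aSLt aSLs
theorem aRSm : S_RSm := tRSm
theorem aRS : S_RS := tRS aRSm
theorem aDLa : S_DLa := tDLa
theorem aDLb : S_DLb := tDLb aDLa
theorem aDLq : S_DLq := tDLq aDLa
theorem aDLf : S_DLf := tDLf
theorem aDL : S_DL := tDL aRS aDLb aDLq aDLf
theorem aTR : S_TR := tTR aRS
theorem aIso : S_Iso := tIso
theorem aCrd : S_Crd := tCrd
theorem aGen : S_Gen := tGen aSL aDL aTR aIso aCrd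
theorem aDerG : S_DerG := tDerG
theorem aSmg : S_Smg := tSmg aDerG
theorem aDns : S_Dns := tDns
theorem aLvU : S_LvU := tLvU
theorem aPUc : S_PUc := tPUc
theorem aUUr : S_UUr := tUUr aLvU aPUc
theorem aThF : S_ThF := tThF
theorem aBcR : S_BcR := tBcR
theorem aUcR : S_UcR := tUcR aUUr aThF aBcR
theorem aRgZ : S_RgZ := tRgZ
theorem aMon : S_Mon := tMon
theorem aGpM : S_GpM := tGpM
theorem aHfv : S_Hfv := tHfv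
theorem aRcI : S_RcI := tRcI aRgZ aMon aGpM aHfv
theorem aTrd : S_Trd := tTrd
theorem aBsP : S_BsP := tBsP
theorem aSpP : S_SpP := tSpP
theorem aNo3 : S_No3 := tNo3 aTrd aBsP aSpP
theorem aDAl : S_DAl := tDAl
theorem aTrL : S_TrL := tTrL aTrd aDAl aBsP aSpP aDerG
theorem aLtV : S_LtV := tLtV
theorem aTsV : S_TsV := tTsV
theorem aQXV : S_QXV := tQXV aLtV aTsV
theorem aGLf : S_GLf := tGLf
theorem aFnV : S_FnV := tFnV aHfv aGpM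
theorem aExtV : S_ExtV := tExtV aHfv
theorem aRg1 : S_Rg1 := tRg1 aRgZ aExtV aMon aHfv
theorem aLgd : S_Lgd := tLgd aGpM
theorem aRg4 : S_Rg4 := tRg4 aRgZ aExtV aLgd aGpM aHfv aFnV
theorem aVv1 : S_Vv1 := tVv1 aTsV aGpM aGLf aHfv aFnV aRg1 aRg4 aRgZ
theorem aGKS : S_GKS := tGKS
theorem aGMl : S_GMl := tGMl aTsV aGpM aGLf aHfv aGKS
theorem aVv2 : S_Vv2 := tVv2 aGMl aRg1 aFnV aHfv
theorem aGCg : S_GCg := tGCg aTsV aGpM aGLf aHfv aGKS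
theorem aLow : S_Low := tLow
theorem aRg2 : S_Rg2 := tRg2 aRgZ aLow aExtV aHfv aMon
theorem aVv3 : S_Vv3 := tVv3 aGMl aGCg aRg2 aFnV aHfv
theorem aVv4 : S_Vv4 := tVv4 aTsV aGpM aGLf aGKS aFnV aHfv
theorem aVv5 : S_Vv5 := tVv5 aGMl aRg1 aFnV aHfv
theorem aVv6 : S_Vv6 := tVv6
theorem aPsi : S_Psi := tPsi
theorem aVv7 : S_Vv7 := tVv7 aPsi aTsV aGpM aGLf aHfv aFnV aRg2 aRgZ aGKS
theorem aVv8 : S_Vv8 := tVv8 aGCg aFnV aHfv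
theorem aVv9 : S_Vv9 := tVv9 aVv1 aVv2 aVv3 aVv4 aVv5 aVv6 aVv7 aVv8
theorem aVvS : S_VvS := tVvS aTsV aGpM aGLf aHfv aGKS aFnV
theorem aBaL : S_BaL := tBaL
theorem aDvL : S_DvL := tDvL
theorem aFtL : S_FtL := tFtL aHfv
theorem aSgL : S_SgL := tSgL aBaL aDvL aFtL aHfv
theorem aRtL : S_RtL := tRtL aRet aGpM
theorem aLFi : S_LFi := tLFi aSgL aBaL aRtL aDvL aFtL
theorem aLNs : S_LNs := tLNs aSgL aFtL aBaL aDvL aHfv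
theorem aLDv : S_LDv := tLDv
theorem aLSm : S_LSm := tLSm aTsV aGpM aGLf aHfv aGKS aFnV aExtV aLgd aLNs aLDv aBaL aRtL aDvL aFtL
theorem aLOn : S_LOn := tLOn aTsV aGpM aGLf aHfv aGKS aBaL aRtL aDvL aFtL
theorem aGmK : S_GmK := tGmK aQXV aVv9 aVvS aLFi aLSm aLOn
theorem aRgF : S_RgF := tRgF
theorem aGkL : S_GkL := tGkL aRgF
theorem aFnL : S_FnL := tFnL aHQc aGen aSmg aDns aUcR aRcI aNo3 aTrL aGmK aGkL

end Pool.Agent.QV
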