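import Mathlib
import Pool.Agent.Lib.MP_b53bfe_ag.Defs

/-!
# Voisin's question for quintic threefolds: general definitions (differential calculus, matrix factorizations, additive functions)
-/

set_option autoImplicit false

noncomputable section

namespace Pool.Agent.QV

open Matrix

/-- A differential calculus on the commutative ring `L` with values in the (non commutative) `L`-algebra `E`: an additive map with the
Leibniz rule such that the values anticommute and have square zero. -/
structure Cal (L E : Type) [CommRing L] [Ring E] [Algebra L E] where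
  d : L → E
  add : ∀ a b, d (a + b) = d a + d b
  mul : ∀ a b, d (a * b) = a • d b + b • d a
  sq : ∀ a, d a * d a = 0
  anti : ∀ a b, d a * d b = -(d b * d a)

section

variable {L E : Type} [CommRing L] [Ring E] [Algebra L E] (C : Cal L E)

/-- the 1-forms: the `L`-span of all `d a` -/
def Cal.Om : Submodule L E := Submodule.span L (Set.range C.d)

/-- the entrywise differential of a matrix -/
def Cal.dm {m n : Type} (A : Matrix m n L) : Matrix m n E := A.map C.d

/-- the entries of `X` are in `Om ^ i` -/
def Cal.Ent (i : ℕ) {m n : Type} (X : Matrix m n E) : Prop := ∀ a b, X a b ∈ C.Om ^ i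

/-- `tr ((dA dB) ^ k)` -/
def Cal.ch (k : ℕ) {m n : Type} [Fintype m] [Fintype n] [DecidableEq m] (A : Matrix m n L) (B : Matrix n m L) : E :=
  Matrix.trace ((C.dm A * C.dm B) ^ k)

end

/-- the matrix `A` with entries in `E` -/
def em {L : Type} (E : Type) [CommRing L] [Ring E] [Algebra L E] {m n : Type} (A : Matrix m n L) : Matrix m n E :=
  A.map (algebraMap L E)

/-- `(A, B)` is a matrix factorization of `W` -/
structure IsMF {L : Type} [CommRing L] (W : L) {n : Type} [Fintype n] [DecidableEq n] (A B : Matrix n n L) : Prop where
  ab : A * B = W • (1 : Matrix n n L)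
  ba : B * A = W • (1 : Matrix n n L)

/-- the cokernel of a matrix -/
abbrev Ck {L : Type} [CommRing L] {m n : Type} [Fintype n] (A : Matrix m n L) : Type :=
  (m → L) ⧸ LinearMap.range A.mulVecLin

/-- `L ^ m / (im A + I L ^ m)` -/
abbrev CkI {L : Type} [CommRing L] {m n : Type} [Fintype n] (A : Matrix m n L) (I : Ideal L) : Type :=
  (m → L) ⧸ (LinearMap.range A.mulVecLin ⊔ I • (⊤ : Submodule L (m → L)))

/-- `M` is killed by `W` -/
def KW {R : Type} [CommRing R] (W : R) (M : Type) [AddCommGroup M] [Module R M] : Prop := ∀ m : M, W • m = 0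

/-- projective dimension at most `j` -/
def PD (R : Type) [CommRing R] (j : ℕ) (M : Type) [AddCommGroup M] [Module R M] : Prop :=
  CategoryTheory.HasProjectiveDimensionLE (ModuleCat.of R M) j

/-- all modules have projective dimension at most `j` -/
def GD (R : Type) [CommRing R] (j : ℕ) : Prop := ∀ (M : Type) [AddCommGroup M] [Module R M], PD R j M

/-- additive functions on the finitely generated modules killed by `W` of projective dimension at most `j` -/
structure AFj (R : Type) [CommRing R] (W : R) (j : ℕ) (V : Type) [AddCommGroup V] where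
  f : (M : Type) → [AddCommGroup M] → [Module R M] → V
  add : ∀ (A B C : Type) [AddCommGroup A] [Module R A] [AddCommGroup B] [Module R B] [AddCommGroup C] [Module R C]
    (i : A →ₗ[R] B) (p : B →ₗ[R] C), Module.Finite R B → KW W B → PD R j A → PD R j B → PD R j C →
    Function.Injective i → Function.Surjective p → Function.Exact i p → f B = f A + f C

/-- additive functions on the finitely generated modules killed by `W` -/
structure AF (R : Type) [CommRing R] (W : R) (V : Type) [AddCommGroup V] where
  f : (M : Type) → [AddCommGroup M] → [Module R M] → V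
  add : ∀ (A B C : Type) [AddCommGroup A] [Module R A] [AddCommGroup B] [Module R B] [AddCommGroup C] [Module R C]
    (i : A →ₗ[R] B) (p : B →ₗ[R] C), Module.Finite R B → KW W B →
    Function.Injective i → Function.Surjective p → Function.Exact i p → f B = f A + f C

/-- `W` is a nonzerodivisor on `N` -/
def Reg {R : Type} [CommRing R] (W : R) (N : Type) [AddCommGroup N] [Module R N] : Prop := ∀ x : N, W • x = 0 → x = 0

/-- `W` is a nonzerodivisor on `R / I` -/
def RegI {R : Type} [CommRing R] (W : R) (I : Ideal R) : Prop := ∀ x : R, W * x ∈ I → x ∈ I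

/-- `N / W N` -/
abbrev Qt {R : Type} [CommRing R] (W : R) (N : Type) [AddCommGroup N] [Module R N] : Type :=
  N ⧸ (Ideal.span {W} • (⊤ : Submodule R N))

/-- a noetherian local domain of finite global dimension -/
structure NLD (L : Type) [CommRing L] : Prop where
  dom : IsDomain L
  loc : IsLocalRing L
  noe : IsNoetherianRing L
  gd : ∃ j, GD L j

/-- the additive function `χ` is the `k`-th Chern character on matrix factorizations, and is zero on all `N / W N` with `W` a
nonzerodivisor on `N` -/
structure IsChern {L E : Type} [CommRing L] [Ring E] [Algebra L E] (C : Cal L E) (W : L) (k : ℕ) (χ : AF L W E) : Prop where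
  mf : ∀ (n : Type) [Fintype n] [DecidableEq n] (A B : Matrix n n L), IsMF W A B → χ.f (Ck A) = C.ch k A B
  perf : ∀ (N : Type) [AddCommGroup N] [Module L N], Module.Finite L N → Reg W N → χ.f (Qt W N) = 0

/-- the matrix `(φ, a; -b, ψ)` -/
def kA {L : Type} [CommRing L] {n : Type} [DecidableEq n] (a b : L) (φ ψ : Matrix n n L) : Matrix (n ⊕ n) (n ⊕ n) L :=
  Matrix.fromBlocks φ (a • (1 : Matrix n n L)) (-(b • (1 : Matrix n n L))) ψ

/-- the matrix `(ψ, -a; b, φ)` -/
def kB {L : Type} [CommRing L] {n : Type} [DecidableEq n] (a b : L) (φ ψ : Matrix n n L) : Matrix (n ⊕ n) (n ⊕ n) L :=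
  Matrix.fromBlocks ψ (-(a • (1 : Matrix n n L))) (b • (1 : Matrix n n L)) φ

/-- the ideal generated by the first components -/
def idl {L : Type} [CommRing L] (ps : List (L × L)) : Ideal L := Ideal.span {x | ∃ q ∈ ps, x = q.1}

/-- the regularity conditions for adding successively the pairs `(a, b)` of the list to the potential `W0` -/
def Good {L : Type} [CommRing L] : L → List (L × L) → Prop
  | _, [] => True
  | W0, (a, b) :: ps => RegI a (idl ps) ∧ RegI W0 (idl ((a, b) :: ps)) ∧ RegI (W0 + a * b) (idl ps) ∧ Good (W0 + a * b) ps

/-- the factor produced by the pairs of the list: product of the `2 k' (2 k' - 1) da db`, `k' = k - length of the rest` -/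
def Cal.kf {L E : Type} [CommRing L] [Ring E] [Algebra L E] (C : Cal L E) (k : ℕ) : List (L × L) → E
  | [] => 1
  | (a, b) :: ps => Cal.kf C k ps * ((2 * (k - ps.length) * (2 * (k - ps.length) - 1)) • (C.d a * C.d b))

end Pool.Agent.QV
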