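import Mathlib

/-!
# Coherent sheaves on `X × X × X`, `X` a quintic threefold, as graded modules; the Grothendieck group

`K` is a field, `f` a homogeneous polynomial of degree `5` in five variables, `X ⊆ ℙ⁴` its zero set. A coherent sheaf on `X × X × X` is given by a finitely generated
`ℤ³`-graded module over the coordinate ring `K[x_{ij} : i < 3, j < 5] / (f(x_0), f(x_1), f(x_2))`; the modules which give the zero sheaf are the extensions of the modules killed by a power of all variables of
one row. `K0 f` is the Grothendieck group of coherent sheaves on `X × X × X` with rational coefficients.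
-/

set_option autoImplicit false

noncomputable section

namespace Pool.Agent.QV.Gr

/-- The polynomial ring over `K` in the entries `x_{ij}` of a matrix with three rows and five columns. -/
abbrev Pol (K : Type) [Field K] : Type := MvPolynomial (Fin 3 × Fin 5) K

/-- The `ℤ³`-degree of the variable `x_{ij}`: the `i`-th unit vector. -/
def deg (p : Fin 3 × Fin 5) : Fin 3 → ℤ := Pi.single p.1 1

section

variable {K : Type} [Field K]

/-- `r` is homogeneous of degree `a ∈ ℤ³`. -/
def Homog (r : Pol K) (a : Fin 3 → ℤ) : Prop := MvPolynomial.IsWeightedHomogeneous deg r a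

/-- The polynomial `f` in the variables of the `i`-th row. -/
def form (f : MvPolynomial (Fin 5) K) (i : Fin 3) : Pol K := MvPolynomial.rename (fun j => (i, j)) f

/-- A finitely generated `ℤ³`-graded module over the coordinate ring `Pol K ⧸ (f(x_0), f(x_1), f(x_2))` of `X × X × X`: a finitely
generated module over `Pol K`, killed by the three forms, the direct sum of subgroups `comp a`, `a ∈ ℤ³`, such that homogeneous
polynomials of degree `a` map `comp b` to `comp (a + b)`. -/
structure GrMod (f : MvPolynomial (Fin 5) K) where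
  carrier : Type
  [grp : AddCommGroup carrier]
  [mod : Module (Pol K) carrier]
  fin : Module.Finite (Pol K) carrier
  form_smul : ∀ (i : Fin 3) (m : carrier), form f i • m = 0
  comp : (Fin 3 → ℤ) → AddSubgroup carrier
  internal : DirectSum.IsInternal comp
  smul_mem : ∀ (r : Pol K) (a b : Fin 3 → ℤ) (m : carrier), Homog r a → m ∈ comp b → r • m ∈ comp (a + b)

attribute [instance] GrMod.grp GrMod.mod

variable {f : MvPolynomial (Fin 5) K}

/-- There is an exact sequence `0 → A → B → C → 0` of graded modules (with maps of degree `0`). -/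
def ShortExact (A B C : GrMod f) : Prop :=
  ∃ (i : A.carrier →ₗ[Pol K] B.carrier) (p : B.carrier →ₗ[Pol K] C.carrier),
    (∀ a, ∀ x ∈ A.comp a, i x ∈ B.comp a) ∧ (∀ a, ∀ x ∈ B.comp a, p x ∈ C.comp a) ∧
      Function.Injective i ∧ Function.Surjective p ∧ Function.Exact i p

/-- For some row `i`, `M` is killed by a power of each variable `x_{ij}` (then the sheaf of `M` on `X × X × X` is zero). -/
def Irrelevant (M : GrMod f) : Prop :=
  ∃ (i : Fin 3) (k : ℕ), ∀ (j : Fin 5) (m : M.carrier), (MvPolynomial.X (i, j) : Pol K) ^ k • m = 0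

variable (f) in
/-- The subspace spanned by all `[B] - [A] - [C]` for exact sequences `0 → A → B → C → 0` and by all `[M]` for irrelevant `M`. -/
def relations : Submodule ℚ (GrMod f →₀ ℚ) :=
  Submodule.span ℚ
    ({x | ∃ A B C : GrMod f, ShortExact A B C ∧
        x = Finsupp.single B 1 - Finsupp.single A 1 - Finsupp.single C 1} ∪
      {x | ∃ M : GrMod f, Irrelevant M ∧ x = Finsupp.single M 1})

variable (f) in
/-- `K₀(X × X × X) ⊗ ℚ`: the Grothendieck group with rational coefficients of the finitely generated graded modules modulo the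
classes of the irrelevant ones. -/
abbrev K0 : Type 1 := (GrMod f →₀ ℚ) ⧸ relations f

/-- The class `[M]` of a graded module (of its sheaf). -/
def cls (M : GrMod f) : K0 f := Submodule.Quotient.mk (Finsupp.single M 1)

/-- The component of degree `a` of the shifted graded module `(Pol K ⧸ (A))(e)`, for a set `A` of homogeneous polynomials: the
classes of the homogeneous polynomials of degree `a + e`. -/
def quoComp (A : Set (Pol K)) (e a : Fin 3 → ℤ) : AddSubgroup (Pol K ⧸ Ideal.span A) :=
  AddSubgroup.map (Ideal.Quotient.mk (Ideal.span A)).toAddMonoidHom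
    (MvPolynomial.weightedHomogeneousSubmodule K deg (a + e)).toAddSubgroup

end

section internal

variable {σ K : Type} [Field K] (w : σ → (Fin 3 → ℤ)) (A : Set (MvPolynomial σ K))

open MvPolynomial

theorem span_stable (hA : ∀ r ∈ A, ∃ a, IsWeightedHomogeneous w r a) (a : Fin 3 → ℤ) (p : MvPolynomial σ K)
    (hp : p ∈ Ideal.span A) : weightedHomogeneousComponent w a p ∈ Ideal.span A := by
  letI := weightedGradedAlgebra K w
  refine weightedHomogeneousComponent_mem_of_mem K w (Ideal.homogeneous_span _ _ fun r hr => ?_) hp a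
  obtain ⟨b, hb⟩ := hA r hr
  exact ⟨b, hb⟩

/-- the projection of `S / span A` to the component of degree `a + e` -/
def prj (hA : ∀ r ∈ A, ∃ a, IsWeightedHomogeneous w r a) (e a : Fin 3 → ℤ) :
    (MvPolynomial σ K ⧸ Ideal.span A) →+ (MvPolynomial σ K ⧸ Ideal.span A) :=
  QuotientAddGroup.map (Ideal.span A).toAddSubgroup (Ideal.span A).toAddSubgroup
    (weightedHomogeneousComponent w (a + e)).toAddMonoidHom (fun p hp => span_stable w A hA (a + e) p hp)

theorem prj_mk (hA : ∀ r ∈ A, ∃ a, IsWeightedHomogeneous w r a) (e a : Fin 3 → ℤ) (p : MvPolynomial σ K) :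
    prj w A hA e a (Ideal.Quotient.mk (Ideal.span A) p) =
      Ideal.Quotient.mk (Ideal.span A) (weightedHomogeneousComponent w (a + e) p) := rfl

/-- additive projections give an internal direct sum -/
theorem isInternal_of_proj {ι M : Type*} [DecidableEq ι] [AddCommGroup M] (c : ι → M →+ M)
    (fin : ∀ m : M, {a : ι | c a m ≠ 0}.Finite) (sum : ∀ m : M, ∑ᶠ a : ι, c a m = m)
    (same : ∀ (a : ι) (m : M), c a (c a m) = c a m) (orth : ∀ (a b : ι) (m : M), a ≠ b → c a (c b m) = 0)
    (G : ι → AddSubgroup M) (hG : ∀ a m, m ∈ G a ↔ c a m = m) : DirectSum.IsInternal G := by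
  have key : ∀ (x : DirectSum ι fun i => G i) (a : ι), c a (DirectSum.coeAddMonoidHom G x) = (x a : M) := by
    intro x a
    induction x using DirectSum.induction_on with
    | zero => simp
    | of i y =>
      rw [DirectSum.coeAddMonoidHom_of]
      by_cases h : a = i
      · subst h
        rw [DirectSum.of_eq_same]
        exact (hG a y).1 y.2
      · rw [DirectSum.of_eq_of_ne _ _ _ h, ← (hG i y).1 y.2, orth a i _ h]
        rfl
    | add x y hx hy =>
      rw [map_add, map_add, hx, hy, DirectSum.add_apply, AddSubgroup.coe_add]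
  constructor
  · rw [injective_iff_map_eq_zero]
    intro x hx
    refine DFinsupp.ext fun a => Subtype.ext ?_
    have := key x a
    rw [hx, map_zero] at this
    exact this.symm
  · intro m
    refine ⟨∑ a ∈ (fin m).toFinset, DirectSum.of (fun i => G i) a ⟨c a m, (hG a _).2 (same a m)⟩, ?_⟩
    rw [map_sum]
    simp only [DirectSum.coeAddMonoidHom_of]
    rw [← finsum_eq_sum_of_support_subset (fun a => c a m) (s := (fin m).toFinset)]
    · exact sum m
    · intro a ha
      simpa using ha

theorem isInternal_comp (hA : ∀ r ∈ A, ∃ a, IsWeightedHomogeneous w r a) (e : Fin 3 → ℤ) :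
    DirectSum.IsInternal (fun a : Fin 3 → ℤ => AddSubgroup.map (Ideal.Quotient.mk (Ideal.span A)).toAddMonoidHom
      (weightedHomogeneousSubmodule K w (a + e)).toAddSubgroup) := by
  refine isInternal_of_proj (prj w A hA e) (fun m => ?_) (fun m => ?_) (fun a m => ?_) (fun a b m hab => ?_) _
    (fun a x => ?_)
  · obtain ⟨p, rfl⟩ := Ideal.Quotient.mk_surjective m
    have h1 : (Function.support fun a : Fin 3 → ℤ => weightedHomogeneousComponent w (a + e) p).Finite := by
      have h2 := (weightedHomogeneousComponent_finsupp (w := w) p).preimage (f := fun a : Fin 3 → ℤ => a + e)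
        (fun x _ y _ hxy => add_right_cancel hxy)
      exact h2
    refine h1.subset fun a ha => ?_
    intro h0
    refine ha ?_
    show prj w A hA e a _ = 0
    have h0' : weightedHomogeneousComponent w (a + e) p = 0 := h0
    rw [prj_mk, h0', map_zero]
  · obtain ⟨p, rfl⟩ := Ideal.Quotient.mk_surjective m
    have h1 : (Function.support fun a : Fin 3 → ℤ => weightedHomogeneousComponent w (a + e) p).Finite := by
      have h2 := (weightedHomogeneousComponent_finsupp (w := w) p).preimage (f := fun a : Fin 3 → ℤ => a + e)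
        (fun x _ y _ hxy => add_right_cancel hxy)
      exact h2
    have h3 : ∑ᶠ a : Fin 3 → ℤ, weightedHomogeneousComponent w (a + e) p = p := by
      have h5 := finsum_comp_equiv (Equiv.addRight e) (f := fun a => weightedHomogeneousComponent w a p)
      exact h5.trans (sum_weightedHomogeneousComponent w p)
    have h4 := ((Ideal.Quotient.mk (Ideal.span A)).toAddMonoidHom).map_finsum h1
    simp only [prj_mk]
    refine h4.symm.trans ?_
    rw [h3]
    rfl
  · obtain ⟨p, rfl⟩ := Ideal.Quotient.mk_surjective m
    rw [prj_mk, prj_mk, (weightedHomogeneousComponent_isWeightedHomogeneous _ _).weightedHomogeneousComponent_same]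
  · obtain ⟨p, rfl⟩ := Ideal.Quotient.mk_surjective m
    rw [prj_mk, prj_mk, (weightedHomogeneousComponent_isWeightedHomogeneous _ _).weightedHomogeneousComponent_ne _
      (fun h => hab (add_right_cancel h)), map_zero]
  · constructor
    · rintro ⟨p, hp, rfl⟩
      refine (prj_mk w A hA e a p).trans ?_
      have hp' : IsWeightedHomogeneous w p (a + e) := hp
      rw [hp'.weightedHomogeneousComponent_same]
      rfl
    · intro h
      obtain ⟨p, rfl⟩ := Ideal.Quotient.mk_surjective x
      rw [prj_mk] at h
      exact ⟨_, weightedHomogeneousComponent_isWeightedHomogeneous _ _, h⟩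

end internal

section

variable {K : Type} [Field K] (f : MvPolynomial (Fin 5) K)

theorem quoComp_smul (A : Set (Pol K)) (e : Fin 3 → ℤ) (r : Pol K) (a b : Fin 3 → ℤ) (m : Pol K ⧸ Ideal.span A)
    (hr : Homog r a) (hm : m ∈ quoComp A e b) : r • m ∈ quoComp A e (a + b) := by
  obtain ⟨p, hp, rfl⟩ := hm
  exact ⟨r * p, add_assoc a b e ▸ hr.mul hp, rfl⟩

theorem quo_form (A : Set (Pol K)) (hf : ∀ i, form f i ∈ A) (i : Fin 3) (m : Pol K ⧸ Ideal.span A) :
    form f i • m = 0 := by
  obtain ⟨p, rfl⟩ := Ideal.Quotient.mk_surjective m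
  rw [← Ideal.Quotient.mk_eq_mk, ← Submodule.Quotient.mk_smul, Submodule.Quotient.mk_eq_zero, smul_eq_mul]
  exact Ideal.mul_mem_right _ _ (Ideal.subset_span (hf i))

/-- The shifted graded module `(Pol K ⧸ (A))(e)`, for a set `A` of homogeneous polynomials which contains the forms. -/
def quo (A : Set (Pol K)) (hf : ∀ i, form f i ∈ A) (hA : ∀ r ∈ A, ∃ a, Homog r a) (e : Fin 3 → ℤ) : GrMod f where
  carrier := Pol K ⧸ Ideal.span A
  fin := inferInstance
  form_smul := quo_form f A hf
  comp := quoComp A e
  internal := isInternal_comp deg A hA e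
  smul_mem := quoComp_smul A e

/-- The minor of the rows `i`, `i'` and the columns `j`, `j'`. -/
def minor (K : Type) [Field K] (i i' : Fin 3) (j j' : Fin 5) : Pol K :=
  MvPolynomial.X (i, j) * MvPolynomial.X (i', j') - MvPolynomial.X (i, j') * MvPolynomial.X (i', j)

variable {f}

theorem form_homog (hf : f.IsHomogeneous 5) (i : Fin 3) : Homog (form f i) (5 • Pi.single i 1) := by
  intro d hd
  obtain ⟨u, rfl, hu⟩ := MvPolynomial.coeff_rename_ne_zero _ _ _ hd
  have h1 : (Finsupp.weight (1 : Fin 5 → ℕ)) u = 5 := hf hu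
  rw [Finsupp.weight_apply, Finsupp.sum_mapDomain_index (h := fun i c => c • deg i) (fun _ => zero_smul _ _)
    (fun _ _ _ => add_smul _ _ _)]
  rw [Finsupp.weight_apply] at h1
  have h2 : (u.sum fun a b => b • deg ((i, a) : Fin 3 × Fin 5)) = (u.sum fun _ b => b) • (Pi.single i 1 : Fin 3 → ℤ) := by
    rw [Finsupp.sum, Finsupp.sum, Finset.sum_smul]
    exact Finset.sum_congr rfl fun a _ => rfl
  have h3 : (u.sum fun a b => b • (1 : Fin 5 → ℕ) a) = u.sum fun _ b => b := by
    simp
  rw [h2, ← h3, h1]

theorem minor_homog (i i' : Fin 3) (j j' : Fin 5) :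
    Homog (minor K i i' j j') (Pi.single i 1 + Pi.single i' 1) := by
  have h1 := (MvPolynomial.isWeightedHomogeneous_X K deg (i, j)).mul (MvPolynomial.isWeightedHomogeneous_X K deg (i', j'))
  have h2 := (MvPolynomial.isWeightedHomogeneous_X K deg (i, j')).mul (MvPolynomial.isWeightedHomogeneous_X K deg (i', j))
  exact h1.sub h2

variable (f)

/-- The generators of the ideal of the small diagonal in `X × X × X`: the forms and the `2 × 2` minors. -/
def smallGens : Set (Pol K) := {r | ∃ i i' j j', r = minor K i i' j j'} ∪ Set.range (form f)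

/-- The generators of the ideal of the diagonal `Δ_{ik} = {x_i = x_k}` in `X × X × X`: the forms and the minors of the rows `i`, `k`. -/
def pairGens (i k : Fin 3) : Set (Pol K) := {r | ∃ j j', r = minor K i k j j'} ∪ Set.range (form f)

variable {f}

theorem forms_homog (hf : f.IsHomogeneous 5) : ∀ r ∈ Set.range (form f), ∃ a, Homog r a := by
  rintro _ ⟨i, rfl⟩
  exact ⟨_, form_homog hf i⟩

theorem smallGens_homog (hf : f.IsHomogeneous 5) : ∀ r ∈ smallGens f, ∃ a, Homog r a := by
  rintro r (⟨i, i', j, j', rfl⟩ | hr)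
  · exact ⟨_, minor_homog i i' j j'⟩
  · exact forms_homog hf r hr

theorem pairGens_homog (hf : f.IsHomogeneous 5) (i k : Fin 3) : ∀ r ∈ pairGens f i k, ∃ a, Homog r a := by
  rintro r (⟨j, j', rfl⟩ | hr)
  · exact ⟨_, minor_homog i k j j'⟩
  · exact forms_homog hf r hr

/-- The graded module of the line bundle `O(e)` on `X × X × X`. -/
def line (hf : f.IsHomogeneous 5) (e : Fin 3 → ℤ) : GrMod f :=
  quo f (Set.range (form f)) (fun i => ⟨i, rfl⟩) (forms_homog hf) e

/-- The graded module of the sheaf `O_{Δ_ik}(e)` on `X × X × X`. -/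
def pairDiag (hf : f.IsHomogeneous 5) (i k : Fin 3) (e : Fin 3 → ℤ) : GrMod f :=
  quo f (pairGens f i k) (fun i => Or.inr ⟨i, rfl⟩) (pairGens_homog hf i k) e

/-- The graded module of the structure sheaf `O_Δ` of the small diagonal `Δ = {x_0 = x_1 = x_2}` in `X × X × X`. -/
def smallDiag (hf : f.IsHomogeneous 5) : GrMod f :=
  quo f (smallGens f) (fun i => Or.inr ⟨i, rfl⟩) (smallGens_homog hf) 0

/-- The subspace of `K₀(X × X × X) ⊗ ℚ` spanned by the classes of the line bundles `O(e)` and of the sheaves `O_{Δ_ik}(e)`, `i ≠ k`. -/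
def diagSpan (hf : f.IsHomogeneous 5) : Submodule ℚ (K0 f) :=
  Submodule.span ℚ
    ({x | ∃ e : Fin 3 → ℤ, x = cls (line hf e)} ∪
      {x | ∃ (i k : Fin 3) (e : Fin 3 → ℤ), i ≠ k ∧ x = cls (pairDiag hf i k e)})

/-- The hypersurface `X` of `f` is smooth (`K` algebraically closed): the partial derivatives of `f` have no common zero except `0`. -/
def Smooth (f : MvPolynomial (Fin 5) K) : Prop :=
  ∀ z : Fin 5 → K, (∀ j, MvPolynomial.eval z (MvPolynomial.pderiv j f) = 0) → z = 0

end

end Pool.Agent.QV.Gr
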