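import Pool.Agent.Lib.MP_b53bfe_ag.Q.DefsH
import Pool.Agent.Lib.MP_b53bfe_ag.Q.Dat

/-!
# Disproof of Q1 of MP_b53bfe_ag for quintic threefolds. Part H: linear algebra

`𝒪` is a valuation ring of `K` with `1/A, c, t_j` in the maximal ideal and such that the nonzero integers are units (`Adm`). Everything is reduced modulo the maximal ideal to the special ring `(s² - v², y⁴ - v², y s v, x⁵)`, where all multiplications are monomial. The certificate data are in `Dat.lean`.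
-/

set_option autoImplicit false

noncomputable section

namespace Pool.Agent.QV

open MvPolynomial TensorProduct

/-! ## Definitions -/

/-- the parameters are admissible for the valuation ring `𝒪` -/
structure Adm {K : Type} [Field K] (a : Par K) (𝒪 : ValuationSubring K) : Prop where
  A0 : a.A ≠ 0
  A : 𝒪.valuation a.A⁻¹ < 1
  c : 𝒪.valuation a.c < 1
  t : ∀ j, 𝒪.valuation (a.t j) < 1
  int : ∀ n : ℤ, n ≠ 0 → 𝒪.valuation (n : K) = 1

/-- the pairs `j < m` -/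
abbrev Pr2 : Type := {p : Fin 6 × Fin 6 // p.1 < p.2}

/-- the triples `i < j < m` -/
abbrev Tr3 : Type := {t : Fin 6 × Fin 6 × Fin 6 // t.1 < t.2.1 ∧ t.2.1 < t.2.2}

/-- index types of the complex: `T ⊗ C₂ ⊗ C₃` -/
abbrev I1 : Type := Fin 6 × Fin 5 × Fin 8

/-- `Λ² ⊗ (C₇ ⊗ C₃ ⊕ C₂ ⊗ C₈)` -/
abbrev I2 : Type := (Pr2 × Fin 14 × Fin 8) ⊕ (Pr2 × Fin 5 × Fin 12)

/-- `Λ³ ⊗ C₇ ⊗ C₈` -/
abbrev I3 : Type := Tr3 × Fin 14 × Fin 12

section

variable {R : Type} [CommRing R]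

/-- coefficient of `(∑ γ_i dt_i) ∧ dt_p` at `dt_t` -/
def cf3 (γ : Fin 6 → R) (t : Tr3) (p : Pr2) : R :=
  if p.1 = (t.1.2.1, t.1.2.2) then γ t.1.1 else if p.1 = (t.1.1, t.1.2.2) then -γ t.1.2.1
  else if p.1 = (t.1.1, t.1.2.1) then γ t.1.2.2 else 0

/-- coefficient of `(∑ γ_i dt_i) ∧ dt_q` at `dt_p` -/
def cf2 (γ : Fin 6 → R) (p : Pr2) (q : Fin 6) : R :=
  if q = p.1.2 then γ p.1.1 else if q = p.1.1 then -γ p.1.2 else 0

/-- the second differential -/
def D2m (α : Fin 6 → Fin 14 → Fin 5 → R) (β : Fin 6 → Fin 12 → Fin 8 → R) : Matrix I3 I2 R := fun r c =>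
  match c with
  | Sum.inl (p, b, s) => if r.2.1 = b then cf3 (fun i => β i r.2.2 s) r.1 p else 0
  | Sum.inr (p, s, b) => if r.2.2 = b then cf3 (fun i => α i r.2.1 s) r.1 p else 0

/-- the first differential -/
def D1m (α : Fin 6 → Fin 14 → Fin 5 → R) (β : Fin 6 → Fin 12 → Fin 8 → R) : Matrix I2 I1 R := fun c z =>
  match c with
  | Sum.inl (p, b, s) => if s = z.2.2 then cf2 (fun i => α i b z.2.1) p z.1 else 0
  | Sum.inr (p, s, b) => if s = z.2.1 then cf2 (fun i => β i b z.2.2) p z.1 else 0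

end

/-- `G_i` times the `s`-th monomial of degree 2 is the monomial number `atab i s` of degree 7 (`14`: it is zero) -/
def atab (i : Fin 6) (s : Fin 5) : ℕ :=
  ![![11, 12, 14, 14, 4], ![0, 1, 2, 7, 11], ![14, 5, 6, 1, 13], ![6, 7, 8, 3, 14], ![14, 9, 10, 13, 1], ![1, 2, 3, 8, 12]] i s

/-- `G_i` times the `s`-th monomial of degree 3 is the monomial number `btab i s` of degree 8 (`12`: it is zero) -/
def btab (i : Fin 6) (s : Fin 8) : ℕ :=
  ![![9, 10, 12, 12, 12, 12, 3, 4], ![12, 0, 1, 2, 6, 7, 9, 10], ![12, 12, 5, 6, 0, 1, 11, 12], ![5, 6, 7, 12, 2, 3, 12, 12],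
    ![12, 12, 8, 9, 11, 12, 0, 1], ![0, 1, 2, 3, 7, 12, 10, 12]] i s

/-- the reduction of the matrices of `G_i : C₂ → C₇` -/
def alz (i : Fin 6) (b : Fin 14) (s : Fin 5) : ℤ := if atab i s = b.val then (if i = 0 then -10 else 1) else 0

/-- the reduction of the matrices of `G_i : C₃ → C₈` -/
def bez (i : Fin 6) (b : Fin 12) (s : Fin 8) : ℤ := if btab i s = b.val then (if i = 0 then -10 else 1) else 0

/-- the row of the target -/
def rF : I3 := (⟨(0, 1, 4), by decide⟩, 12, 2)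

/-- the monomials of degree 2 in `x, y, s, v` (exponents) -/
def B2l (s : Fin 5) : Fin 4 → ℕ := ![![2, 0, 0, 0], ![1, 1, 0, 0], ![0, 2, 0, 0], ![0, 0, 1, 0], ![0, 0, 0, 1]] s

/-- the monomials of degree 3 -/
def B3l (s : Fin 8) : Fin 4 → ℕ :=
  ![![3, 0, 0, 0], ![2, 1, 0, 0], ![1, 2, 0, 0], ![0, 3, 0, 0], ![1, 0, 1, 0], ![0, 1, 1, 0], ![1, 0, 0, 1], ![0, 1, 0, 1]] s

/-- the basis monomials of degree 7 -/
def B7l (b : Fin 14) : Fin 4 → ℕ :=
  ![![4, 3, 0, 0], ![3, 4, 0, 0], ![2, 5, 0, 0], ![1, 6, 0, 0], ![0, 7, 0, 0], ![4, 1, 1, 0], ![3, 2, 1, 0], ![2, 3, 1, 0],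
    ![1, 4, 1, 0], ![4, 1, 0, 1], ![3, 2, 0, 1], ![2, 3, 0, 1], ![1, 4, 0, 1], ![3, 0, 1, 1]] b

/-- the basis monomials of degree 8 -/
def B8l (b : Fin 12) : Fin 4 → ℕ :=
  ![![4, 4, 0, 0], ![3, 5, 0, 0], ![2, 6, 0, 0], ![1, 7, 0, 0], ![0, 8, 0, 0], ![4, 2, 1, 0], ![3, 3, 1, 0], ![2, 4, 1, 0],
    ![4, 2, 0, 1], ![3, 3, 0, 1], ![2, 4, 0, 1], ![4, 0, 1, 1]] b

/-- the exponent vector as a `Finsupp` -/
def ex4 (m : Fin 4 → ℕ) : Fin 4 →₀ ℕ := Finsupp.equivFunOnFinite.symm m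

/-- normal form of a monomial in the special ring `s² = v² = y⁴`, `y s v = 0`, `x⁵ = 0` (so `y⁵ s = y⁵ v = 0`, `y⁹ = 0`) -/
def nf4 (m : Fin 4 → ℕ) : Option (Fin 4 → ℕ) :=
  if 5 ≤ m 0 then none
  else if m 2 % 2 = 1 ∧ m 3 % 2 = 1 then
    (if m 1 + 4 * (m 2 / 2 + m 3 / 2) = 0 then some ![m 0, 0, 1, 1] else none)
  else if m 2 % 2 = 1 ∨ m 3 % 2 = 1 then
    (if m 1 + 4 * (m 2 / 2 + m 3 / 2) ≤ 4 then some ![m 0, m 1 + 4 * (m 2 / 2 + m 3 / 2), m 2 % 2, m 3 % 2] else none)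
  else (if m 1 + 4 * (m 2 / 2 + m 3 / 2) ≤ 8 then some ![m 0, m 1 + 4 * (m 2 / 2 + m 3 / 2), 0, 0] else none)

/-- the coordinate functional of the basis monomial `b` of the special ring -/
def lbar (b : Fin 4 → ℕ) : MvPolynomial (Fin 4) ℤ →ₗ[ℤ] ℤ :=
  (basisMonomials (Fin 4) ℤ).constr ℤ (fun m => if nf4 m = some b then 1 else 0)

/-- `g` has coefficients in `𝒪` and reduces to `gz` -/
def Rd {K : Type} [Field K] (𝒪 : ValuationSubring K) (g : S4 K) (gz : MvPolynomial (Fin 4) ℤ) : Prop :=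
  ∀ m, 𝒪.valuation (g.coeff m - ((gz.coeff m : ℤ) : K)) < 1

/-- normalized generators of `IH` -/
def rho4 {K : Type} [Field K] (a : Par K) (i : Fin 4) : S4 K :=
  ![C (4 * (a.A⁻¹) ^ 2) * pderiv 0 (H4 a), C (1 / 5) * pderiv 1 (H4 a),
    -(C (1 / 10) * (X 3 * pderiv 2 (H4 a) + X 2 * pderiv 3 (H4 a))),
    -(C (a.A⁻¹ / 10) * (X 2 * pderiv 2 (H4 a) + X 3 * pderiv 3 (H4 a) - 2 * X 0 * pderiv 0 (H4 a)))] i

/-- the reductions of the generators -/
def rz4 (i : Fin 4) : MvPolynomial (Fin 4) ℤ := ![X 2 ^ 2 - X 3 ^ 2, X 1 ^ 4 - X 3 ^ 2, X 1 * X 2 * X 3, X 0 ^ 5] i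

/-! ## Linear algebra over a valuation ring -/

/-- **HLA**. (A) The columns of `D1` are independent: let `D1 z = 0`, `z ≠ 0`; divide by a coefficient of maximal valuation: all `v (z c) ≤ 1` and some `v (z c) = 1`. Show `v (z c) < 1` for all `c` by strong induction on `pos c`: in the row `row c` the entries `D1 (row c) c'` with `c' ≠ c` have valuation `< 1` (if `E1 (row c) c' = 0`) or `v (z c') < 1` (since `pos c' < pos c`), and
`v (D1 (row c) c) = 1`. Contradiction. (B) In the same way: if `∑_{pos c ≠ 0} a c D2 (_, c) + e F = 0` then all `a c = 0` and `e = 0`: normalized as before; `v (a c) < 1` by induction on `pos c` using the row `row c ≠ r0`, where `v (F (row c)) < 1`; then `v e < 1` from the row `r0` (`v (F r0) = 1`). (C) If `D2 w = F`, the range of `D2` contains the independent vectors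
`D2 (_, c)`, `pos c ≠ 0`, and `F`, so its dimension is at least `card J2 - card J1 + 1`; but `ker D2 ⊇ range D1` has dimension at least `card J1`. -/
def S_HLA : Prop :=
  ∀ (K : Type) [Field K] (𝒪 : ValuationSubring K) (J1 J2 J3 : Type) [Fintype J1] [DecidableEq J1] [Fintype J2] [DecidableEq J2]
    [Fintype J3] [DecidableEq J3] (D1 : Matrix J2 J1 K) (D2 : Matrix J3 J2 K) (E1 : Matrix J2 J1 ℤ) (E2 : Matrix J3 J2 ℤ)
    (F : J3 → K) (r0 : J3), (∀ n : ℤ, n ≠ 0 → 𝒪.valuation (n : K) = 1) → D2 * D1 = 0 →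
    (∀ i j, 𝒪.valuation (D1 i j - ((E1 i j : ℤ) : K)) < 1) → (∀ i j, 𝒪.valuation (D2 i j - ((E2 i j : ℤ) : K)) < 1) →
    𝒪.valuation (F r0 - 1) < 1 → (∀ r, r ≠ r0 → 𝒪.valuation (F r) < 1) →
    (∃ (pos : J1 → ℕ) (row : J1 → J2), ∀ c, E1 (row c) c ≠ 0 ∧ ∀ c', E1 (row c) c' ≠ 0 → c' ≠ c → pos c' < pos c) →
    (∃ (pos : J2 → ℕ) (row : J2 → J3), (Finset.univ.filter fun c => pos c = 0).card = Fintype.card J1 ∧
      ∀ c, pos c ≠ 0 → E2 (row c) c ≠ 0 ∧ row c ≠ r0 ∧ ∀ c', E2 (row c) c' ≠ 0 → c' ≠ c → pos c' < pos c) →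
    ¬∃ w : J2 → K, D2.mulVec w = F

/-- **Cert1**. `240` columns; every column has a row in which it is the only nonzero entry (so `pos = 0` works). For the column `(q, s, s')` the rows are `inl ((q, t), atab t s, s')` and `inr ((q, t), s, btab t s')`, `t ≠ q`. Finite check (`decide`, in pieces). -/
def S_Cert1 : Prop :=
  ∃ (pos : I1 → ℕ) (row : I1 → I2), ∀ c, D1m alz bez (row c) c ≠ 0 ∧ ∀ c', D1m alz bez (row c) c' ≠ 0 → c' ≠ c → pos c' < pos c

/-- **Cert2**. Certificate `DAT`. Number the pairs `j < m` lexicographically by `0, ..., 14`; the column `inl (p, b, s)` has the number `112 p + 8 b + s`, the column `inr (p, s, b)` the number `1680 + 60 p + 12 s + b`. For the column number `c` let `e = DAT / 2 ^ (16 c) % 65536`, `pos = e / 8`, `t = e % 8`; `pos = 0` for exactly `240` columns. If `pos ≠ 0` then `t` is not in the pair `p`,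
and the row is `(p ∪ {t}, b, btab t s)` for `inl (p, b, s)`, `(p ∪ {t}, atab t s, b)` for `inr (p, s, b)`. The other nonzero entries of the row `(T, b, b')` are the columns `inl (T - o, b, s)` with `btab o s = b'` and `inr (T - o, s, b')` with `atab o s = b`, `o ∈ T`; they have smaller `pos`. (Checked by a program.) For a fast check by the kernel use natural numbers
(`Nat.shiftRight`, `Nat.land`, `Nat.decEq` are fast on big numbers), one Boolean function on the column number, and `decide +kernel` in pieces; then translate. -/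
def S_Cert2 : Prop :=
  ∃ (pos : I2 → ℕ) (row : I2 → I3), (Finset.univ.filter fun c => pos c = 0).card = 240 ∧
    ∀ c, pos c ≠ 0 → D2m alz bez (row c) c ≠ 0 ∧ row c ≠ rF ∧ ∀ c', D2m alz bez (row c) c' ≠ 0 → c' ≠ c → pos c' < pos c

/-- **D21**. `D2 D1 = 0` is formal: for `z ∈ T ⊗ A ⊗ B` the component at `dt_i dt_j dt_m` is `β_i (α_j z_m - α_m z_j) - β_j (α_i z_m - α_m z_i) + β_m (α_i z_j - α_j z_i) + α_i (β_j z_m - β_m z_j) - α_j (β_i z_m - β_m z_i) + α_m (β_i z_j - β_j z_i) = 0` where `α`, `β` act on different tensor factors. -/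
def S_D21 : Prop :=
  ∀ (R : Type) [CommRing R] (α : Fin 6 → Fin 14 → Fin 5 → R) (β : Fin 6 → Fin 12 → Fin 8 → R), D2m α β * D1m α β = 0

/-- **Hc**. `S_HLA` with `S_Cert1`, `S_Cert2`, `S_D21`; the entries of `D2m`, `D1m` are `0` or `±` entries of `α`, `β`. -/
def S_Hc : Prop :=
  ∀ (K : Type) [Field K] (𝒪 : ValuationSubring K) (α : Fin 6 → Fin 14 → Fin 5 → K) (β : Fin 6 → Fin 12 → Fin 8 → K) (F : I3 → K),
    (∀ n : ℤ, n ≠ 0 → 𝒪.valuation (n : K) = 1) → (∀ i b s, 𝒪.valuation (α i b s - ((alz i b s : ℤ) : K)) < 1) →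
    (∀ i b s, 𝒪.valuation (β i b s - ((bez i b s : ℤ) : K)) < 1) → 𝒪.valuation (F rF - 1) < 1 →
    (∀ r, r ≠ rF → 𝒪.valuation (F r) < 1) → ¬∃ w : I2 → K, (D2m α β).mulVec w = F

/-! ## Normal forms over the valuation ring -/

/-- **NF**. Let `M` be the finite set of the monomials of weight `d`, `N = n + k` its cardinality. Square matrix `T` over `𝒪` with the `k` columns `g c` and the `n` columns `B b` (coefficients at `M`). Its reduction (entries in the residue field) has independent columns: a relation restricted to the rows `row c` gives, by strong induction on `pos c`, that the coefficients of the `gz c` vanish,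
then those of the `B b`. So `det T` is a unit of `𝒪` and `T` has an inverse over `𝒪`; `l b` is the row of the inverse with the number of `B b`, extended by `0` to the monomials of other weights. It kills the `g c`. Its reduction and the one of `lbar (B b)` agree on the columns of the reduction of `T`, which are a basis, so they are equal; `nf4` preserves the weight, so `lbar (B b)` is `0` on monomials of
other weights. If `Rd 𝒪 h hz` then `l b h` is congruent to `lbar (B b) hz`. -/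
def S_NF : Prop :=
  ∀ (K : Type) [Field K] (𝒪 : ValuationSubring K) (d n k : ℕ) (B : Fin n → Fin 4 → ℕ) (g : Fin k → S4 K)
    (gz : Fin k → MvPolynomial (Fin 4) ℤ), (∀ z : ℤ, z ≠ 0 → 𝒪.valuation (z : K) = 1) →
    Nat.card {m : Fin 4 →₀ ℕ // wt4 m = d} = n + k → Function.Injective B → (∀ b, wt4 (ex4 (B b)) = d) →
    (∀ (c : Fin k) (m : Fin 4 →₀ ℕ), (g c).coeff m ≠ 0 → wt4 m = d) → (∀ c, Rd 𝒪 (g c) (gz c)) →
    (∀ b c, lbar (B b) (gz c) = 0) → (∀ b, nf4 (B b) = some (B b)) →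
    (∃ (pos : Fin k → ℕ) (row : Fin k → Fin 4 → ℕ), ∀ c, wt4 (ex4 (row c)) = d ∧ (∀ b, row c ≠ B b) ∧
      (gz c).coeff (ex4 (row c)) ≠ 0 ∧ ∀ c', (gz c').coeff (ex4 (row c)) ≠ 0 → c' ≠ c → pos c' < pos c) →
    ∃ l : Fin n → (S4 K →ₗ[K] K), (∀ b c, l b (g c) = 0) ∧
      (∀ (b : Fin n) (m : Fin 4 →₀ ℕ), wt4 m ≠ d → l b (monomial m 1) = 0) ∧
      ∀ (b : Fin n) (h : S4 K) (hz : MvPolynomial (Fin 4) ℤ), Rd 𝒪 h hz → 𝒪.valuation (l b h - ((lbar (B b) hz : ℤ) : K)) < 1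

/-- **Rh**. With `e = 1/A`: `rho4 0 = s² - v² + 4 e² (5 A x⁴ + 2 t₀ x y³ + 3 t₁ x² s + t₂ y² s + 3 t₃ x² v + t₄ v²)`, `rho4 1 = y⁴ - v² + ..`, `rho4 2 = y s u - (x/10) (t₁ x² v + t₂ y² v + t₃ x² s + 2 t₄ s v)`, `rho4 3 = x⁵ + e y u v + (e/10) (4 t₀ x² y³ + 5 t₁ x³ s + t₂ x y² s + 5 t₃ x³ v)`. The ideals agree: the factors are units (`A ≠ 0`, characteristic `0`: the integers `5`, `10` are nonzero by `Adm.int`). -/
def S_Rh : Prop :=
  ∀ (K : Type) [Field K] [CharZero K] (a : Par K) (𝒪 : ValuationSubring K), Adm a 𝒪 →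
    (∀ i, Rd 𝒪 (rho4 a i) (rz4 i)) ∧
    (∀ (i : Fin 4) (m : Fin 4 →₀ ℕ), (rho4 a i).coeff m ≠ 0 → wt4 m = (![4, 4, 5, 5] : Fin 4 → ℕ) i) ∧
    IH a = Ideal.span (Set.range (rho4 a))

/-- **L7**. `S_NF` with `d = 7`, `n = 14`, `k = 26`: the products of `rho4 0`, `rho4 1` with the 8 monomials of weight 3 and of `rho4 2`, `rho4 3` with the 5 monomials of weight 2. There are 40 monomials of weight 7. `lbar (B b)` kills `gz c` (`nf4` of the two monomials of `(s² - v²) m`, `(y⁴ - v²) m` agree, the other ones have `nf4 = none`). Triangular (peeling) order: three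
levels (find it by a small program: repeatedly take the products which have a monomial of weight 7, not among the `B7l`, which occurs in no other remaining product; it ends after 3 rounds). `LF`: `IH` is generated by the `rho4 i`; for a monomial `m` of another weight `l (m rho4 i) = 0` since the weight of the product is not `7`. -/
def S_L7 : Prop :=
  ∀ (K : Type) [Field K] [CharZero K] (a : Par K) (𝒪 : ValuationSubring K), Adm a 𝒪 →
    ∃ l : Fin 14 → (S4 K →ₗ[K] K), (∀ b, LF a 7 (l b)) ∧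
      ∀ (b : Fin 14) (h : S4 K) (hz : MvPolynomial (Fin 4) ℤ), Rd 𝒪 h hz → 𝒪.valuation (l b h - ((lbar (B7l b) hz : ℤ) : K)) < 1

/-- **L8**. `S_NF` with `d = 8`, `n = 12`, `k = 43`: the products of `rho4 0`, `rho4 1` with the 14 monomials of weight 4, without `y⁴ rho4 0`, and of `rho4 2`, `rho4 3` with the 8 monomials of weight 3 (55 monomials of weight 8; peeling in 4 levels). `y⁴ rho4 0` is a combination of the others: write `rho4 1 = ∑ r_m m`, `rho4 0 = ∑ r'_m m` (monomials of weight 4), `r_(y⁴) ≠ 0` (it reduces to `1`); then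
`∑ r_m (m rho4 0) = rho4 0 rho4 1 = ∑ r'_m (m rho4 1)`. So `l b` kills it, too. -/
def S_L8 : Prop :=
  ∀ (K : Type) [Field K] [CharZero K] (a : Par K) (𝒪 : ValuationSubring K), Adm a 𝒪 →
    ∃ l : Fin 12 → (S4 K →ₗ[K] K), (∀ b, LF a 8 (l b)) ∧
      ∀ (b : Fin 12) (h : S4 K) (hz : MvPolynomial (Fin 4) ℤ), Rd 𝒪 h hz → 𝒪.valuation (l b h - ((lbar (B8l b) hz : ℤ) : K)) < 1

/-- **Tab**. The reductions of `G₀ = -10 y³ (v + c y²)`, `G_(j+1) = x R_j` are `-10 y³ v`, `x R_j` (monomials), those of `ψ_(j+1) = y (v + c y²) R_j`, `ψ'_(j+1)` are `y v R_j`, `y² v R_j`. Apply `nf4` (finite check). -/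
def S_Tab : Prop :=
  ∀ (K : Type) [Field K] [CharZero K] (a : Par K) (𝒪 : ValuationSubring K), Adm a 𝒪 →
    (∀ (i : Fin 6) (s : Fin 5), ∃ hz, Rd 𝒪 (GG a i * monomial (ex4 (B2l s)) 1) hz ∧ ∀ b, lbar (B7l b) hz = alz i b s) ∧
    (∀ (i : Fin 6) (s : Fin 8), ∃ hz, Rd 𝒪 (GG a i * monomial (ex4 (B3l s)) 1) hz ∧ ∀ b, lbar (B8l b) hz = bez i b s) ∧
    (∀ i : Fin 6, ∃ hz, Rd 𝒪 (ps1 a i) hz ∧ ∀ b, lbar (B7l b) hz = if (i = 1 ∧ b = 12) ∨ (i = 4 ∧ b = 2) then 1 else 0) ∧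
    ∀ i : Fin 6, ∃ hz, Rd 𝒪 (ps2 a i) hz ∧ ∀ b, lbar (B8l b) hz = if i = 4 ∧ b = 2 then 1 else 0

/-- **Gh**. `G_i` is homogeneous of weight `5`. So for `l` with `l (monomial m 1) = 0` for `wt4 m ≠ 7` the functional `z ↦ l (G_i z)` is `∑_s l (G_i B2_s) δ_s`, where `δ_s` is the coefficient functional of the monomial `B2l s` (all monomials of weight 2 are in the list); the same with `8`, `B3l`. -/
def S_Gh : Prop :=
  ∀ (K : Type) [Field K] [CharZero K] (a : Par K) (i : Fin 6) (l : S4 K →ₗ[K] K),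
    ((∀ m, wt4 m ≠ 7 → l (monomial m 1) = 0) →
      ∀ z : S4 K, l (GG a i * z) = ∑ s, l (GG a i * monomial (ex4 (B2l s)) 1) * z.coeff (ex4 (B2l s))) ∧
    ((∀ m, wt4 m ≠ 8 → l (monomial m 1) = 0) →
      ∀ z : S4 K, l (GG a i * z) = ∑ s, l (GG a i * monomial (ex4 (B3l s)) 1) * z.coeff (ex4 (B3l s)))

/-- **HH**. Let `l b`, `m b'` be the functionals of `S_L7`, `S_L8`, `α i b s = l b (G_i B2_s)`, `β i b' s' = m b' (G_i B3_s')`; with `S_Tab` they reduce to `alz`, `bez`. For a solution `x` put `w (inl ((j, r), b, s')) = tf (l b) (δ_s') (x j r)` and `w (inr ((j, r), s, b')) = tf (δ_s) (m b') (x j r)` (`δ` the coefficient functionals). By `S_Gh` (extended to the tensor product by linearity)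
`tf (l b) (m b') (dd a x i j r) = (D2m α β).mulVec w ((i, j, r), b, b')`. `F (t, b, b') = tf (l b) (m b') (FF a t)` is `l b (ps1 j) * m b' (ps2 r) - l b (ps1 r) * m b' (ps2 j)` for `i = 0` and `0` for `i ≥ 1`; by `S_Tab` it reduces to `1` at `rF = ((0, 1, 4), 12, 2)` and to `0` elsewhere. Contradiction to `S_Hc`. -/
def S_HH : Prop :=
  ∀ (K : Type) [Field K] [CharZero K] (a : Par K) (𝒪 : ValuationSubring K), Adm a 𝒪 →
    ¬∃ x : Fin 6 → Fin 6 → S4 K ⊗[K] S4 K, ∀ (l m : S4 K →ₗ[K] K), LF a 7 l → LF a 8 m → ∀ i j r : Fin 6, i < j → j < r →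
      tf l m (FF a i j r) = tf l m (dd a x i j r)

end Pool.Agent.QV
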