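import Pool.Agent.Lib.MP_b53bfe_ag.Q.SpecG
import Pool.Agent.Lib.MP_b53bfe_ag.Q.SpecH
import Pool.Agent.Lib.MP_b53bfe_ag.Q.Gr

/-!
# Disproof of Q1 of MP_b53bfe_ag for quintic threefolds. Part P: parameters over `ℂ`, assembly
-/

set_option autoImplicit false

noncomputable section

namespace Pool.Agent.QV

open MvPolynomial
open Pool.Agent.FY (Res)

/-- the quintic form of the parameters `a`, in the variables `X 0, ..., X 4` (`p, x, y, z, q`) -/
def fQ {K : Type} [Field K] (a : Par K) : MvPolynomial (Fin 5) K := ff a (X 0) (X 1) (X 2) (X 3) (X 4)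

/-- **AI**. A transcendence basis of `ℂ` over `ℚ` is infinite (otherwise `ℂ` would be algebraic over a countable field, hence countable). -/
def S_AI : Prop := ∃ p : Fin 7 → ℂ, AlgebraicIndependent ℚ p

/-- **Der**. Let `B` be a transcendence basis of `ℂ` over `ℚ` containing the `p i` (`AlgebraicIndependent` families extend to transcendence bases). `MvPolynomial B ℚ → FractionRing → ℂ` is formally etale (localization, then a separable algebraic extension: `Algebra.FormallyEtale.of_isSeparable`, `FormallyEtale.comp`), so derivations `MvPolynomial B ℚ → ℂ` extend to `ℂ`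
(`KaehlerDifferential.tensorKaehlerEquivOfFormallyEtale`, `Ω` of the polynomial ring is free on `d X_b`), e.g. the one with `X_b ↦ 1` for `b = p i` and `X_b ↦ 0` otherwise (`MvPolynomial.mkDerivation`). Another way: Zorn's lemma on subfields with derivations, `D` extends to a simple algebraic extension in characteristic `0` and to a simple transcendental one. -/
def S_Der : Prop :=
  ∀ p : Fin 7 → ℂ, AlgebraicIndependent ℚ p → ∃ D : Fin 7 → Derivation ℤ ℂ ℂ, ∀ i j, D i (p j) = if i = j then 1 else 0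

/-- **Val**. The local ring `R` of `ℚ[X_0, ..., X_6]` at the origin maps to `K` (injective, by algebraic independence); there is a valuation subring `𝒪` of `K` which contains the image of `R` such that the inclusion is a local homomorphism (`LocalSubring.exists_le_valuationSubring`, or `exists_factor_valuationRing`). The `p i` are not units in `R`, so not in `𝒪`: valuation `< 1`;
nonzero integers are units. -/
def S_Val : Prop :=
  ∀ (K : Type) [Field K] [CharZero K] [Algebra ℚ K] (p : Fin 7 → K), AlgebraicIndependent ℚ p →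
    ∃ 𝒪 : ValuationSubring K, (∀ i, 𝒪.valuation (p i) < 1) ∧ ∀ n : ℤ, n ≠ 0 → 𝒪.valuation (n : K) = 1

/-- **Kap**. `κ k = κ₀ ζ ^ k`, `κ₀⁵ = 1 - 5 c²`, `ζ` a primitive fifth root of unity. `∏ (X + C (κ₀ ζ ^ k)) = X⁵ + κ₀⁵` (`X⁵ - a⁵ = ∏ (X - ζ ^ k a)`, `IsPrimitiveRoot`, `a = - κ₀`), homogenize: `∏ (z + κ_k y) = z⁵ + κ₀⁵ y⁵` in every `ℂ`-algebra (e.g. from `IsPrimitiveRoot.pow_sub_pow_eq_prod_sub_mul` or by expanding with the elementary symmetric functions of the `ζ ^ k`). -/
def S_Kap : Prop := ∀ a : Par ℂ, ∃ κ : Fin 5 → ℂ, IsKap a κ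

/-- **ParC**. `S_AI`, `S_Der`, `S_Val`, `S_Kap`: `A = 1 / p 0`, `c = p 1`, `t j = p (j + 2)`; the derivations are the `D 1, ..., D 6` (`D A = - D (p 0) / (p 0)² = 0`). -/
def S_ParC : Prop :=
  ∃ (a : Par ℂ) (D : Fin 6 → Derivation ℤ ℂ ℂ) (κ : Fin 5 → ℂ) (𝒪 : ValuationSubring ℂ), IsDer a D ∧ IsKap a κ ∧ Adm a 𝒪

/-- **Smo**. Let `z = (p, x, y, w, q)` be a common zero of the partial derivatives, not `0`. `5 w⁴ = 0`, so `w = 0`. Divide by a coordinate of maximal valuation: all coordinates have valuation `≤ 1`, one has valuation `1`. With `s = p² + q²`, `v = p² - q²` the point `(x, y, s, v)` is a zero of `H_x`, `H_y`, `s H_s + v H_v`, `v H_s + s H_v` (the derivatives with respect to `p`, `q` are `2 p (H_s + H_v)`,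
`2 q (H_s - H_v)`; `s H_s + v H_v = p² (H_s + H_v) + q² (H_s - H_v)`, `v H_s + s H_v = p² (H_s + H_v) - q² (H_s - H_v)`), so of the `rho4 a i`, which reduce to `rz4` (`S_Rh`). So modulo the maximal ideal: `s² = v²`, `y⁴ = v²`, `y s v = 0`, `x⁵ = 0`: `x = 0`; `(y s v)² = y² y⁴ y⁴`, so `y = 0`, then `v = 0`, `s = 0`; `2 p² = s + v`, `2 q² = s - v`, so `p = q = 0`. Contradiction.
(One may also compute directly without `S_Rh`; here `z ∈ K⁵`.) -/
def S_Smo : Prop :=
  ∀ (K : Type) [Field K] [CharZero K] (a : Par K) (𝒪 : ValuationSubring K), Adm a 𝒪 → Gr.Smooth (fQ a)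

/-- **fQh**. `f` is homogeneous of degree `5`, and `form f i = fS a i` (`rename` is an algebra homomorphism). -/
def S_fQh : Prop := ∀ (K : Type) [Field K] (a : Par K), (fQ a).IsHomogeneous 5 ∧ ∀ i : Fin 3, Gr.form (fQ a) i = fS a i

/-- **Mn**. `S_EE` for `Lb a`, `Ea a D` (`S_CalE`, `S_Un`); if the value at `smI` were `0`, `S_GG` (`1 - 5 c² ≠ 0`, its valuation is `1`) would give `x` as in `S_HH`. `Ea a D` is a `ℚ`-vector space (a `K`-algebra, `K` has characteristic `0`). -/
def S_Mn : Prop :=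
  ∀ (K : Type) [Field K] [CharZero K] (a : Par K) (D : Fin 6 → Derivation ℤ K K) (κ : Fin 5 → K) (𝒪 : ValuationSubring K),
    IsDer a D → IsKap a κ → Adm a 𝒪 →
    ∃ (E : Type) (_ : AddCommGroup E) (_ : Module ℚ E) (χ : AF (PP K) (WW a) E),
      (∀ (M : Type) [AddCommGroup M] [Module (PP K) M], Module.Finite (PP K) M → (∀ (i : Fin 3) (m : M), fS a i • m = 0) →
        (∃ (i : Fin 3) (k : ℕ), ∀ m : M, (X (i, 3) : PP K) ^ k • m = 0) → χ.f (Res (rho a).toRingHom M) = 0) ∧
      χ.f (Res (rho a).toRingHom (PP K ⧸ lnI a)) = 0 ∧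
      (∀ i k : Fin 3, i ≠ k → χ.f (Res (rho a).toRingHom (PP K ⧸ prI a i k)) = 0) ∧
      χ.f (Res (rho a).toRingHom (PP K ⧸ smI a)) ≠ 0

/-- **Gk**. Linear map `(GrMod f →₀ ℚ) → E`, `[M] ↦ χ (Res rho M)`: it kills the relations (exact sequences: `Res` is exact, `M` is finite over `PP K` by `rho` (`S_Fin`) and killed by `W`, as `rho W = f₀ + f₁ + f₂`; irrelevant modules: the variable `(i, 3)`), so it is defined on `K0 f`; it is `0` on the classes of `line e` and `pairDiag i k e` (the modules are `PP / lnI`, `PP / prI`, whatever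
the grading) and not `0` on the class of `smallDiag`. -/
def S_Gk : Prop :=
  ∀ (K : Type) [Field K] [CharZero K] (a : Par K) (hf : (fQ a).IsHomogeneous 5) (E : Type) [AddCommGroup E] [Module ℚ E]
    (χ : AF (PP K) (WW a) E), a.A ≠ 0 →
    (∀ (M : Type) [AddCommGroup M] [Module (PP K) M], Module.Finite (PP K) M → (∀ (i : Fin 3) (m : M), fS a i • m = 0) →
      (∃ (i : Fin 3) (k : ℕ), ∀ m : M, (X (i, 3) : PP K) ^ k • m = 0) → χ.f (Res (rho a).toRingHom M) = 0) →
    χ.f (Res (rho a).toRingHom (PP K ⧸ lnI a)) = 0 →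
    (∀ i k : Fin 3, i ≠ k → χ.f (Res (rho a).toRingHom (PP K ⧸ prI a i k)) = 0) →
    χ.f (Res (rho a).toRingHom (PP K ⧸ smI a)) ≠ 0 →
    Gr.cls (Gr.smallDiag hf) ∉ Gr.diagSpan hf

/-- **F1**. There is a smooth quintic threefold for which the class of the small diagonal is not in the span. Assembly: `S_ParC`, `S_Mn`, `S_Gk`, `S_Smo`, `S_fQh`. -/
def S_F1 : Prop :=
  ∃ (f : MvPolynomial (Fin 5) ℂ) (hf : f.IsHomogeneous 5), Gr.Smooth f ∧ Gr.cls (Gr.smallDiag hf) ∉ Gr.diagSpan hf

end Pool.Agent.QV
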