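import Pool.Agent.Lib.MP_b53bfe_ag.Q.DefsV
import Pool.Agent.Lib.MP_b53bfe_ag.Q.SpecP

/-!
# Disproof of Q1 of MP_b53bfe_ag for quintic threefolds, phase 2 (very general quintics): definitions

From `HQ ℂ f₀` for one form to `HQ ℂ f` for all `f` with algebraically independent coefficients: specialization over `k[[t]]`, algebraic extensions, isomorphisms of fields.
-/

set_option autoImplicit false

noncomputable section

namespace Pool.Agent.QV

open MvPolynomial
open Pool.Agent.FY (Res)

section AFS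

variable {R : Type} [CommRing R] {S : Set R} {V : Type} [AddCommGroup V] (χ : AFS R S V)

theorem AFS.punit : χ.f PUnit = 0 := by
  have h := χ.add PUnit PUnit PUnit (LinearMap.id) (LinearMap.id) inferInstance (fun r _ m => rfl)
    (fun a b _ => rfl) (fun a => ⟨a, rfl⟩) (fun a => ⟨fun _ => ⟨a, rfl⟩, fun _ => rfl⟩)
  simpa using h

theorem AFS.iso {M N : Type} [AddCommGroup M] [Module R M] [AddCommGroup N] [Module R N] (e : M ≃ₗ[R] N)
    (hM : Module.Finite R M) (hk : KS S M) : χ.f M = χ.f N := by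
  have h := χ.add M N PUnit e.toLinearMap 0 (Module.Finite.equiv e)
    (fun r hr m => by
      have := hk r hr (e.symm m)
      have h2 := congrArg e this
      simpa using h2)
    e.injective (fun a => ⟨0, rfl⟩) (fun a => ⟨fun _ => ⟨e.symm a, by simp⟩, fun _ => rfl⟩)
  rw [h, χ.punit, add_zero]

theorem AFS.subsing {M : Type} [AddCommGroup M] [Module R M] (h : Subsingleton M) : χ.f M = 0 := by
  have e : M ≃ₗ[R] PUnit :=
    { toFun := fun _ => 0, map_add' := fun _ _ => rfl, map_smul' := fun _ _ => rfl, invFun := fun _ => 0,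
      left_inv := fun a => Subsingleton.elim _ _, right_inv := fun a => rfl }
  rw [χ.iso e (Module.Finite.equiv e.symm) (fun r _ m => Subsingleton.elim _ _), χ.punit]

theorem AFS.sub {M : Type} [AddCommGroup M] [Module R M] (hM : Module.Finite R M) (hk : KS S M) (N : Submodule R M) :
    χ.f M = χ.f N + χ.f (M ⧸ N) :=
  χ.add N M (M ⧸ N) N.subtype N.mkQ hM hk N.injective_subtype N.mkQ_surjective
    (LinearMap.exact_subtype_mkQ N)

end AFS

/-- the kernel of the multiplication by `t` on `M` -/
abbrev Kr {R : Type} [CommRing R] (t : R) (M : Type) [AddCommGroup M] [Module R M] : Type :=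
  LinearMap.ker (LinearMap.lsmul R M t)

/-! ## The generators of the ideals, over any coefficient ring -/

section gens

variable {R : Type} [CommRing R]

/-- the form `f` in the row `i` -/
def formR (f : MvPolynomial (Fin 5) R) (i : Fin 3) : MvPolynomial (Fin 3 × Fin 5) R := rename (fun j => (i, j)) f

variable (R) in
/-- the minor of the rows `i`, `k` and the columns `j`, `j'` -/
def mnR (i k : Fin 3) (j j' : Fin 5) : MvPolynomial (Fin 3 × Fin 5) R := X (i, j) * X (k, j') - X (i, j') * X (k, j)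

/-- the three forms and the minors -/
def smR (f : MvPolynomial (Fin 5) R) : Set (MvPolynomial (Fin 3 × Fin 5) R) :=
  {r | ∃ i k j j', r = mnR R i k j j'} ∪ Set.range (formR f)

variable (R) in
/-- `x_{0j} ↦ μ x_j`, `x_{1j} ↦ x_j`, `x_{2j} ↦ ν x_j` -/
def gR : MvPolynomial (Fin 3 × Fin 5) R →ₐ[R] MvPolynomial (Fin 5 ⊕ Fin 2) R :=
  aeval fun v => (![X (Sum.inr 0) * X (Sum.inl v.2), X (Sum.inl v.2), X (Sum.inr 1) * X (Sum.inl v.2)] : Fin 3 → MvPolynomial (Fin 5 ⊕ Fin 2) R) v.1

theorem map_formR {S : Type} [CommRing S] (φ : R →+* S) (f : MvPolynomial (Fin 5) R) (i : Fin 3) :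
    map φ (formR f i) = formR (map φ f) i := map_rename φ _ f

theorem map_mnR {S : Type} [CommRing S] (φ : R →+* S) (i k : Fin 3) (j j' : Fin 5) : map φ (mnR R i k j j') = mnR S i k j j' := by
  simp [mnR]

theorem map_range_formR {S : Type} [CommRing S] (φ : R →+* S) (f : MvPolynomial (Fin 5) R) :
    map φ '' Set.range (formR f) = Set.range (formR (map φ f)) := by
  ext x
  constructor
  · rintro ⟨_, ⟨i, rfl⟩, rfl⟩
    exact ⟨i, (map_formR φ f i).symm⟩
  · rintro ⟨i, rfl⟩
    exact ⟨_, ⟨i, rfl⟩, map_formR φ f i⟩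

theorem map_smR {S : Type} [CommRing S] (φ : R →+* S) (f : MvPolynomial (Fin 5) R) :
    map φ '' smR f = smR (map φ f) := by
  rw [smR, smR, Set.image_union, map_range_formR]
  congr 1
  ext x
  constructor
  · rintro ⟨_, ⟨i, k, j, j', rfl⟩, rfl⟩
    exact ⟨i, k, j, j', map_mnR φ i k j j'⟩
  · rintro ⟨i, k, j, j', rfl⟩
    exact ⟨_, ⟨i, k, j, j', rfl⟩, map_mnR φ i k j j'⟩

theorem smR_finite (f : MvPolynomial (Fin 5) R) : (smR f).Finite := by
  refine Set.Finite.union ?_ (Set.finite_range _)
  have h : {r | ∃ i k j j', r = mnR R i k j j'} =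
      Set.range fun v : Fin 3 × Fin 3 × Fin 5 × Fin 5 => mnR R v.1 v.2.1 v.2.2.1 v.2.2.2 := by
    ext r
    constructor
    · rintro ⟨i, k, j, j', rfl⟩
      exact ⟨(i, k, j, j'), rfl⟩
    · rintro ⟨v, rfl⟩
      exact ⟨_, _, _, _, rfl⟩
  rw [h]
  exact Set.finite_range _

end gens

section

variable {K : Type} [Field K] (f : MvPolynomial (Fin 5) K)

theorem form_eq : Gr.form f = formR f := rfl

theorem minor_eq (i k : Fin 3) (j j' : Fin 5) : Gr.minor K i k j j' = mnR K i k j j' := rfl

theorem smallGens_eq : Gr.smallGens f = smR f := rfl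

end

/-! ## Lattices -/

/-- `L` is a finitely generated `A`-submodule of the `B`-module `M` which contains `t ^ n • m` for all `m` (some `n`) -/
def IsLt {A B : Type} [CommRing A] [CommRing B] (j : A →+* B) (t : A) (M : Type) [AddCommGroup M] [Module B M]
    (L : Submodule A (Res j M)) : Prop :=
  L.FG ∧ ∀ m : Res j M, ∃ n : ℕ, t ^ n • m ∈ L

/-! ## `k[[t]]` -/

/-- `k[[t]][x_{ij}]` -/
abbrev At (k : Type) [Field k] : Type := MvPolynomial (Fin 3 × Fin 5) (PowerSeries k)

/-- `k[x] → k[[t]][x]` -/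
abbrev iF (k : Type) [Field k] : Gr.Pol k →+* At k := map (PowerSeries.C (R := k))

/-- `k[[t]][x] → k((t))[x]` -/
abbrev jF (k : Type) [Field k] : At k →+* Gr.Pol (LaurentSeries k) := map (algebraMap (PowerSeries k) (LaurentSeries k))

/-- `t` -/
abbrev tt (k : Type) [Field k] : At k := C PowerSeries.X

section

variable {k : Type} [Field k] (f : MvPolynomial (Fin 5) (PowerSeries k))

/-- the form at `t = 0` -/
def f0 : MvPolynomial (Fin 5) k := map PowerSeries.constantCoeff f

/-- the form over `k((t))` -/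
def fL : MvPolynomial (Fin 5) (LaurentSeries k) := map (algebraMap (PowerSeries k) (LaurentSeries k)) f

variable {E : Type} [AddCommGroup E] (χ₀ : AFS (Gr.Pol k) (Set.range (Gr.form (f0 f))) E)
  (σ : AFS (At k) (Set.range (formR f)) E) (χ : AFS (Gr.Pol (LaurentSeries k)) (Set.range (Gr.form (fL f))) E)

/-- `σ` is the specialization function of `χ₀`, and `χ` is computed from `σ` by lattices -/
structure Spz : Prop where
  s : ∀ (M : Type) [AddCommGroup M] [Module (At k) M], σ.f M = χ₀.f (Res (iF k) (Qt (tt k) M)) - χ₀.f (Res (iF k) (Kr (tt k) M))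
  c : ∀ (M N : Type) [AddCommGroup M] [Module (At k) M] [AddCommGroup N] [Module (At k) N] (g : M →ₗ[At k] N),
    Module.Finite (At k) M → KS (Set.range (formR f)) M → Module.Finite (At k) N → KS (Set.range (formR f)) N →
    (∀ m : M, g m = 0 → ∃ n : ℕ, tt k ^ n • m = 0) → (∀ y : N, ∃ (n : ℕ) (m : M), tt k ^ n • y = g m) → σ.f M = σ.f N
  l : ∀ (M : Type) [AddCommGroup M] [Module (Gr.Pol (LaurentSeries k)) M] (L : Submodule (At k) (Res (jF k) M)),
    Module.Finite (Gr.Pol (LaurentSeries k)) M → KS (Set.range (Gr.form (fL f))) M → IsLt (jF k) (tt k) M L → χ.f M = σ.f L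

end

/-! ## Directed systems of rings -/

/-- a directed system of rings with union `P`, with retractions -/
structure DSys (P I : Type) [CommRing P] [Preorder I] (A : I → Type) [∀ i, CommRing (A i)] (φ : ∀ i, A i →+* P) : Prop where
  dir : ∀ a b : I, ∃ c, a ≤ c ∧ b ≤ c
  ne : Nonempty I
  cov : ∀ p : P, ∃ i₀, ∀ i, i₀ ≤ i → ∃ a, φ i a = p
  ret : ∀ i, ∃ π : P →+ A i, (∀ a p, π (φ i a * p) = a * π p) ∧ ∀ a, π (φ i a) = a

/-- the `A`-submodule generated by the `e j` -/
def spi {P A : Type} [CommRing P] [CommRing A] (φ : A →+* P) {M : Type} [AddCommGroup M] [Module P M] {n : ℕ} (e : Fin n → M) :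
    Submodule A (Res φ M) :=
  Submodule.span A (Set.range fun j => Res.mk φ (e j))

/-- `χ` is the limit of the `χi` -/
def RelD {P I : Type} [CommRing P] [Preorder I] {A : I → Type} [∀ i, CommRing (A i)] (φ : ∀ i, A i →+* P) {S : Set P}
    {Si : ∀ i, Set (A i)} {E : Type} [AddCommGroup E] (χi : ∀ i, AFS (A i) (Si i) E)
    (χ : AFS P S (Filter.Germ (Filter.atTop : Filter I) E)) : Prop :=
  ∀ (M : Type) [AddCommGroup M] [Module P M], Module.Finite P M → KS S M →
    ∀ (n : ℕ) (e : Fin n → M), Submodule.span P (Set.range e) = ⊤ →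
      χ.f M = ((fun i => (χi i).f (spi (φ i) e) : I → E) : Filter.Germ (Filter.atTop : Filter I) E)

section alg

variable (k K : Type) [Field k] [Field K] [Algebra k K]

/-- the finite subextensions -/
abbrev Fs : Type := {F : IntermediateField k K // FiniteDimensional k F}

/-- `k[x] → K[x]` -/
abbrev jE : Gr.Pol k →+* Gr.Pol K := map (algebraMap k K)

end alg

/-! ## The parameter space -/

/-- the monomials as elements of a finite set -/
theorem Mo5.mem (m : Mo5) : m.1 ∈ Finset.finsuppAntidiag (Finset.univ : Finset (Fin 5)) 5 := by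
  rw [Finset.mem_finsuppAntidiag]
  have h := m.2
  rw [Finsupp.degree_eq_sum] at h
  exact ⟨h, Finset.subset_univ _⟩

instance : Finite Mo5 :=
  Finite.of_injective (fun m : Mo5 => (⟨m.1, m.mem⟩ : ↥(Finset.finsuppAntidiag (Finset.univ : Finset (Fin 5)) 5)))
    (fun a b h => Subtype.ext (congrArg (fun x => x.1) h))

instance : Fintype Mo5 := Fintype.ofFinite _

/-- the form with the coefficients `c` -/
def quin {K : Type} [Field K] (c : Mo5 → K) : MvPolynomial (Fin 5) K := ∑ m : Mo5, monomial m.1 (c m)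

theorem quin_hom {K : Type} [Field K] (c : Mo5 → K) : (quin c).IsHomogeneous 5 :=
  IsHomogeneous.sum _ _ _ fun m _ => isHomogeneous_monomial _ m.2

theorem coeff_quin {K : Type} [Field K] (c : Mo5 → K) (m : Mo5) : coeff m.1 (quin c) = c m := by
  rw [quin, coeff_sum, Finset.sum_eq_single m]
  · simp
  · intro b _ hb
    rw [coeff_monomial, if_neg (fun h => hb (Subtype.ext h))]
  · exact fun h => absurd (Finset.mem_univ m) h

theorem quin_coeff {K : Type} [Field K] (f : MvPolynomial (Fin 5) K) (hf : f.IsHomogeneous 5) :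
    quin (fun m : Mo5 => coeff m.1 f) = f := by
  ext m
  by_cases h : m.degree = 5
  · exact coeff_quin (fun m : Mo5 => coeff m.1 f) ⟨m, h⟩
  · rw [(quin_hom _).coeff_eq_zero h, hf.coeff_eq_zero h]

end Pool.Agent.QV
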