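import Pool.Agent.Lib.MP_b53bfe_ag.Q.SpecB

/-!
# Disproof of Q1 of MP_b53bfe_ag for quintic threefolds: the quintic, the potential, the rings
-/

set_option autoImplicit false

noncomputable section

namespace Pool.Agent.QV

open MvPolynomial
open Pool.Agent.FY (Res)

/-- the parameters of the quintic -/
structure Par (K : Type) where
  A : K
  c : K
  t : Fin 5 → K

section

variable {K : Type} [Field K] (a : Par K) {B : Type} [CommRing B] [Algebra K B]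

/-- the directions of deformation of `R` -/
def Rj (j : Fin 5) (p x y q : B) : B :=
  ![x * y ^ 3, x ^ 2 * (p ^ 2 + q ^ 2), y ^ 2 * (p ^ 2 + q ^ 2), x ^ 2 * (p ^ 2 - q ^ 2), (p ^ 2 - q ^ 2) ^ 2] j

/-- the quartic form `R` -/
def Rf (p x y q : B) : B :=
  algebraMap K B (a.A ^ 2) * (p ^ 2 * q ^ 2) + algebraMap K B a.A * x ^ 4 + ∑ j : Fin 5, algebraMap K B (a.t j) * Rj j p x y q

/-- the quadratic form `p² - q² + c y²` -/
def uf (p y q : B) : B := p ^ 2 - q ^ 2 + algebraMap K B a.c * y ^ 2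

/-- the quintic form `z⁵ + x R + y⁵ - 5 y (p² - q² + c y²)²`; the coordinates are `(p, x, y, z, q)` -/
def ff (p x y z q : B) : B := z ^ 5 + x * Rf a p x y q + y ^ 5 - 5 * y * uf a p y q ^ 2

/-- `s⁴ - κ s³ t + κ² s² t² - κ³ s t³ + κ⁴ t⁴` -/
def Qf (κ : K) (s t : B) : B :=
  s ^ 4 - algebraMap K B κ * s ^ 3 * t + algebraMap K B (κ ^ 2) * s ^ 2 * t ^ 2 - algebraMap K B (κ ^ 3) * s * t ^ 3 +
    algebraMap K B (κ ^ 4) * t ^ 4

end

/-- the polynomial ring in 15 variables -/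
abbrev PP (K : Type) [Field K] : Type := MvPolynomial (Fin 3 × Fin 5) K

/-- the form `f` in the row `i` -/
def fS {K : Type} [Field K] (a : Par K) (i : Fin 3) : PP K := ff a (X (i, 0)) (X (i, 1)) (X (i, 2)) (X (i, 3)) (X (i, 4))

/-- the potential `W = X Z + w₃⁵ + w₂⁵ - 5 w₂ u² + f (row 1) + f (row 2)`, `(X, Z, w₂, w₃, u)` is the row `0` -/
def WW {K : Type} [Field K] (a : Par K) : PP K :=
  X (0, 0) * X (0, 1) + X (0, 3) ^ 5 + X (0, 2) ^ 5 - 5 * X (0, 2) * X (0, 4) ^ 2 + fS a 1 + fS a 2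

/-- `θ = w₃ x₃ x₃'` -/
def thP (K : Type) [Field K] : PP K := X (0, 3) * X (1, 3) * X (2, 3)

/-- the slot map `X ↦ y₁`, `Z ↦ R (y)`, `w₂ ↦ y₂`, `w₃ ↦ y₃`, `u ↦ p² - q² + c y₂²` -/
def rho {K : Type} [Field K] (a : Par K) : PP K →ₐ[K] PP K :=
  aeval fun v => if v.1 = 0 then
    (![X (0, 1), Rf a (X (0, 0)) (X (0, 1)) (X (0, 2)) (X (0, 4)), X (0, 2), X (0, 3),
      uf a (X (0, 0)) (X (0, 2)) (X (0, 4))] v.2 : PP K) else X v

/-- the `2 × 2` minors of the rows `i`, `k` -/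
def mnr (K : Type) [Field K] (i k : Fin 3) (j j' : Fin 5) : PP K := X (i, j) * X (k, j') - X (i, j') * X (k, j)

/-- the ideal of the small diagonal -/
def smI {K : Type} [Field K] (a : Par K) : Ideal (PP K) :=
  Ideal.span ({r | ∃ i k j j', r = mnr K i k j j'} ∪ Set.range (fS a))

/-- the ideal of the diagonal of the rows `i`, `k` -/
def prI {K : Type} [Field K] (a : Par K) (i k : Fin 3) : Ideal (PP K) :=
  Ideal.span ({r | ∃ j j', r = mnr K i k j j'} ∪ Set.range (fS a))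

/-- the ideal of `X × X × X` -/
def lnI {K : Type} [Field K] (a : Par K) : Ideal (PP K) := Ideal.span (Set.range (fS a))

/-- the eight pairs after `(X, Z)` -/
def prs {K : Type} [Field K] (a : Par K) (κ : K) : List (PP K × PP K) :=
  [(X (0, 3) + C κ * X (0, 2), Qf κ (X (0, 3)) (X (0, 2))),
   (X (0, 4) - C a.c * X (0, 2) ^ 2, -(5 * X (0, 2) * (X (0, 4) + C a.c * X (0, 2) ^ 2))),
   (X (1, 1), Rf a (X (1, 0)) (X (1, 1)) (X (1, 2)) (X (1, 4))),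
   (X (1, 0) + X (1, 4), -(5 * X (1, 2) * (X (1, 0) - X (1, 4)) * (X (1, 0) ^ 2 - X (1, 4) ^ 2 + C (2 * a.c) * X (1, 2) ^ 2))),
   (X (1, 3) + C κ * X (1, 2), Qf κ (X (1, 3)) (X (1, 2))),
   (X (2, 1), Rf a (X (2, 0)) (X (2, 1)) (X (2, 2)) (X (2, 4))),
   (X (2, 0) + X (2, 4), -(5 * X (2, 2) * (X (2, 0) - X (2, 4)) * (X (2, 0) ^ 2 - X (2, 4) ^ 2 + C (2 * a.c) * X (2, 2) ^ 2))),
   (X (2, 3) + C κ * X (2, 2), Qf κ (X (2, 3)) (X (2, 2)))]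

/-- the ideal `(X, w₃ + κ w₂, u - c w₂², x₁, p + q, x₃ + κ x₂, x₁', p' + q', x₃' + κ x₂')` -/
def IM {K : Type} [Field K] (a : Par K) (κ : K) : Ideal (PP K) := idl ((X (0, 0), X (0, 1)) :: prs a κ)

/-- the ring with the variables `Z, p, x₁, x₂, x₃, q, μ, ν, ξ₀, ξ₄` (numbers `0, ..., 9`) -/
abbrev BB (K : Type) [Field K] : Type := MvPolynomial (Fin 10) K

/-- `R (x)` in `BB` -/
def RB {K : Type} [Field K] (a : Par K) : BB K := Rf a (X 1) (X 2) (X 3) (X 5)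

/-- `f (x)` in `BB` -/
def fB {K : Type} [Field K] (a : Par K) : BB K := ff a (X 1) (X 2) (X 3) (X 4) (X 5)

/-- `X ↦ μ x₁`, `Z ↦ Z`, `w₂ ↦ μ x₂`, `w₃ ↦ μ x₃`, `u ↦ μ² u (x)`; the row `1` to `(p, x₁, x₂, x₃, q)`; the row `2` to
`(ν p + (ξ₀ + ξ₄) / 2, ν x₁, ν x₂, ν x₃, ν q + (ξ₀ - ξ₄) / 2)` -/
def hB {K : Type} [Field K] (a : Par K) : PP K →ₐ[K] BB K :=
  aeval fun v => (![![X 6 * X 2, X 0, X 6 * X 3, X 6 * X 4, X 6 ^ 2 * uf a (X 1) (X 3) (X 5)],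
    ![X 1, X 2, X 3, X 4, X 5],
    ![X 7 * X 1 + C (1 / 2) * (X 8 + X 9), X 7 * X 2, X 7 * X 3, X 7 * X 4, X 7 * X 5 + C (1 / 2) * (X 8 - X 9)]] v.1 v.2 : BB K)

/-- `y ↦ μ x`, `x ↦ x`, `x' ↦ ν x` -/
def gB (K : Type) [Field K] : PP K →ₐ[K] BB K :=
  aeval fun v => (![![X 6 * X 1, X 6 * X 2, X 6 * X 3, X 6 * X 4, X 6 * X 5], ![X 1, X 2, X 3, X 4, X 5],
    ![X 7 * X 1, X 7 * X 2, X 7 * X 3, X 7 * X 4, X 7 * X 5]] v.1 v.2 : BB K)

/-- `(ξ₀, ξ₄, f)` -/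
def J1 {K : Type} [Field K] (a : Par K) : Ideal (BB K) := Ideal.span {X 8, X 9, fB a}

/-- `(x₁, f)` -/
def J0 {K : Type} [Field K] (a : Par K) : Ideal (BB K) := Ideal.span {X 2, fB a}

/-- `ξ₀ ξ₄ + ν ((p + q) ξ₄ + (p - q) ξ₀)` -/
def rB (K : Type) [Field K] : BB K := X 8 * X 9 + X 7 * ((X 1 + X 5) * X 9 + (X 1 - X 5) * X 8)

/-- `Z - μ⁴ R` -/
def zB {K : Type} [Field K] (a : Par K) : BB K := X 0 - X 6 ^ 4 * RB a

/-- `(x₁, ξ₀, p + q)` -/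
def J4 (K : Type) [Field K] : Ideal (BB K) := Ideal.span {X 2, X 8, X 1 + X 5}

/-- the `κ_k`, the fifth roots of `1 - 5 c²` -/
def IsKap {K : Type} [Field K] (a : Par K) (κ : Fin 5 → K) : Prop :=
  (∀ k, κ k ^ 5 = 1 - 5 * a.c ^ 2) ∧
  ∀ (B : Type) [CommRing B] [Algebra K B] (y z : B), ∏ k : Fin 5, (z + algebraMap K B (κ k) * y) =
    z ^ 5 + algebraMap K B (1 - 5 * a.c ^ 2) * y ^ 5

end Pool.Agent.QV
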