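import Pool.Agent.Lib.MP_b53bfe_ag.Q.SpecE

/-!
# Disproof of Q1 of MP_b53bfe_ag for quintic threefolds: the calculus (target algebra)
-/

set_option autoImplicit false

noncomputable section

namespace Pool.Agent.QV

open MvPolynomial
open Pool.Agent.FY (Res)

/-- the derivation `D` on the coefficients -/
def Dc {K σ : Type} [Field K] (D : Derivation ℤ K K) (b : MvPolynomial σ K) : MvPolynomial σ K :=
  ∑ m ∈ b.support, monomial m (D (b.coeff m))

/-- the derivations `D₀ = ∂/∂c`, `D_(j+1) = ∂/∂t_j` -/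
structure IsDer {K : Type} [Field K] (a : Par K) (D : Fin 6 → Derivation ℤ K K) : Prop where
  A : ∀ j, D j a.A = 0
  c : ∀ j, D j a.c = if j = 0 then 1 else 0
  t : ∀ (j : Fin 6) (i : Fin 5), D j (a.t i) = if j = i.succ then 1 else 0

/-- the weights of the variables -/
def wtv (v : Fin 3 × Fin 5) : ℕ := if v.1 = 0 then ![1, 4, 1, 1, 2] v.2 else 1

/-- the weight of a monomial -/
def wtm (m : (Fin 3 × Fin 5) →₀ ℕ) : ℕ := ∑ v, wtv v * m v

/-- the ideal generated by the partial derivatives of `W` and the monomials of weight at least `27` -/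
def JL {K : Type} [Field K] (a : Par K) : Ideal (PP K) :=
  Ideal.span ((Set.range fun v => pderiv v (WW a)) ∪ {r | ∃ m : (Fin 3 × Fin 5) →₀ ℕ, 27 ≤ wtm m ∧ r = monomial m 1})

/-- the target ring -/
abbrev Lb {K : Type} [Field K] (a : Par K) : Type := PP K ⧸ JL a

/-- the directions: 15 variables and 6 parameters -/
abbrev Dn : Type := (Fin 3 × Fin 5) ⊕ Fin 6

/-- the differential as a vector of polynomials -/
def gr0 {K : Type} [Field K] (D : Fin 6 → Derivation ℤ K K) (b : PP K) : Dn → PP K :=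
  Sum.elim (fun v => pderiv v b) (fun j => Dc (D j) b)

/-- the differential as a vector over `Lb` -/
def grd {K : Type} [Field K] (a : Par K) (D : Fin 6 → Derivation ℤ K K) (b : PP K) : Dn → Lb a :=
  fun w => Ideal.Quotient.mk (JL a) (gr0 D b w)

section

variable {R : Type} [CommRing R] {M : Type} [AddCommGroup M] [Module R M]

theorem mul_iota (x : ExteriorAlgebra R M) (m : M) :
    x * ExteriorAlgebra.ι R m = ExteriorAlgebra.ι R m * CliffordAlgebra.involute x := by
  induction x using CliffordAlgebra.induction with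
  | algebraMap r =>
    rw [AlgHom.commutes]
    exact Algebra.commutes r _
  | ι y =>
    rw [CliffordAlgebra.involute_ι, mul_neg]
    exact eq_neg_of_add_eq_zero_left (ExteriorAlgebra.ι_add_mul_swap y m)
  | mul a b ha hb => rw [map_mul, mul_assoc, hb, ← mul_assoc, ha, mul_assoc]
  | add a b ha hb => rw [map_add, add_mul, mul_add, ha, hb]

/-- the two sided ideal generated by `ι τ` -/
def tI (τ : M) : Ideal (ExteriorAlgebra R M) where
  carrier := {z | ∃ β, z = ExteriorAlgebra.ι R τ * β}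
  add_mem' := by
    rintro _ _ ⟨β, rfl⟩ ⟨γ, rfl⟩
    exact ⟨β + γ, (mul_add _ _ _).symm⟩
  zero_mem' := ⟨0, (mul_zero _).symm⟩
  smul_mem' := by
    rintro x _ ⟨β, rfl⟩
    exact ⟨CliffordAlgebra.involute x * β, by rw [smul_eq_mul, ← mul_assoc, mul_iota, mul_assoc]⟩

instance (τ : M) : (tI (R := R) τ).IsTwoSided where
  mul_mem_of_left := by
    rintro _ b ⟨β, rfl⟩
    exact ⟨β * b, mul_assoc _ _ _⟩

end

/-- the target algebra: the exterior algebra over `Lb` on 21 generators modulo `τ = dW` -/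
abbrev Ea {K : Type} [Field K] (a : Par K) (D : Fin 6 → Derivation ℤ K K) : Type :=
  ExteriorAlgebra (Lb a) (Dn → Lb a) ⧸ tI (grd a D (WW a))

/-- the value of the differential -/
def dE {K : Type} [Field K] (a : Par K) (D : Fin 6 → Derivation ℤ K K) (b : PP K) : Ea a D :=
  Ideal.Quotient.mk _ (ExteriorAlgebra.ι (Lb a) (grd a D b))

/-- the `6` polynomials of the slot `s` of the list of pairs -/
def sl {K : Type} [Field K] (a : Par K) (κ : K) (s : Fin 3) (i : Fin 6) : PP K :=
  ![![X (0, 0), X (0, 1), X (0, 3) + C κ * X (0, 2), Qf κ (X (0, 3)) (X (0, 2)),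
      X (0, 4) - C a.c * X (0, 2) ^ 2, -(5 * X (0, 2) * (X (0, 4) + C a.c * X (0, 2) ^ 2))],
    ![X (1, 1), Rf a (X (1, 0)) (X (1, 1)) (X (1, 2)) (X (1, 4)), X (1, 0) + X (1, 4),
      -(5 * X (1, 2) * (X (1, 0) - X (1, 4)) * (X (1, 0) ^ 2 - X (1, 4) ^ 2 + C (2 * a.c) * X (1, 2) ^ 2)),
      X (1, 3) + C κ * X (1, 2), Qf κ (X (1, 3)) (X (1, 2))],
    ![X (2, 1), Rf a (X (2, 0)) (X (2, 1)) (X (2, 2)) (X (2, 4)), X (2, 0) + X (2, 4),
      -(5 * X (2, 2) * (X (2, 0) - X (2, 4)) * (X (2, 0) ^ 2 - X (2, 4) ^ 2 + C (2 * a.c) * X (2, 2) ^ 2)),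
      X (2, 3) + C κ * X (2, 2), Qf κ (X (2, 3)) (X (2, 2))]] s i

/-- the `6 × 6` matrix with the coordinates `(s, 0), ..., (s, 4), w` of the vectors `α i` -/
def mat6 {R : Type} [CommRing R] (α : Fin 6 → Dn → R) (s : Fin 3) (w : Dn) : Matrix (Fin 6) (Fin 6) R :=
  Matrix.of fun i j => α i ((![Sum.inl (s, 0), Sum.inl (s, 1), Sum.inl (s, 2), Sum.inl (s, 3), Sum.inl (s, 4), w] : Fin 6 → Dn) j)

/-- the contraction of the slot `s`, coefficient of `dt_j`, as a polynomial -/
def NN {K : Type} [Field K] (a : Par K) (D : Fin 6 → Derivation ℤ K K) (κ : K) (s : Fin 3) (j : Fin 6) : PP K :=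
  (mat6 (fun i => gr0 D (sl a κ s i)) s (Sum.inr j)).det

end Pool.Agent.QV
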