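import Pool.Agent.Lib.MP_b53bfe_ag.Q.DefsG

/-!
# Disproof of Q1 of MP_b53bfe_ag for quintic threefolds: the ring `K[x, y, s, v]`, the functionals
-/

set_option autoImplicit false

noncomputable section

namespace Pool.Agent.QV

open MvPolynomial TensorProduct

/-- the polynomial ring in `x, y, s, v` (`s = p² + q²`, `v = p² - q²`) -/
abbrev S4 (K : Type) [Field K] : Type := MvPolynomial (Fin 4) K

/-- the weights of `x, y, s, v` -/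
def wt4 (m : Fin 4 →₀ ℕ) : ℕ := m 0 + m 1 + 2 * m 2 + 2 * m 3

section

variable {K : Type} [Field K] (a : Par K)

/-- `R_j` -/
def RR (K : Type) [Field K] (j : Fin 5) : S4 K := ![X 0 * X 1 ^ 3, X 0 ^ 2 * X 2, X 1 ^ 2 * X 2, X 0 ^ 2 * X 3, X 3 ^ 2] j

/-- `R` in `x, y, s, v` -/
def R4 : S4 K := C (a.A ^ 2 / 4) * (X 2 ^ 2 - X 3 ^ 2) + C a.A * X 0 ^ 4 + ∑ j : Fin 5, C (a.t j) * RR K j

/-- `u = v + c y²` -/
def u4 : S4 K := X 3 + C a.c * X 1 ^ 2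

/-- `H = x R + y⁵ - 5 y u²` -/
def H4 : S4 K := X 0 * R4 a + X 1 ^ 5 - 5 * X 1 * u4 a ^ 2

/-- the ideal `(H_x, H_y, s H_s + v H_v, v H_s + s H_v)` -/
def IH : Ideal (S4 K) :=
  Ideal.span {pderiv 0 (H4 a), pderiv 1 (H4 a), X 2 * pderiv 2 (H4 a) + X 3 * pderiv 3 (H4 a),
    X 3 * pderiv 2 (H4 a) + X 2 * pderiv 3 (H4 a)}

/-- `G₀ = -10 y³ u`, `G_(j+1) = x R_j` -/
def GG (i : Fin 6) : S4 K := (Fin.cons (-(10 * X 1 ^ 3 * u4 a)) (fun j => X 0 * RR K j) : Fin 6 → S4 K) i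

/-- `ψ_(j+1) = y u R_j` -/
def ps1 (i : Fin 6) : S4 K := (Fin.cons 0 (fun j => X 1 * u4 a * RR K j) : Fin 6 → S4 K) i

/-- `ψ'_(j+1) = y² u R_j` -/
def ps2 (i : Fin 6) : S4 K := (Fin.cons 0 (fun j => X 1 ^ 2 * u4 a * RR K j) : Fin 6 → S4 K) i

/-- the polynomials in `x₁, x₂, p² + q², p² - q²` of the row `r` -/
def ev (K : Type) [Field K] (r : Fin 3) : S4 K →ₐ[K] PP K :=
  aeval ![X (r, 1), X (r, 2), X (r, 0) ^ 2 + X (r, 4) ^ 2, X (r, 0) ^ 2 - X (r, 4) ^ 2]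

/-- the monomial of the row `r` in `x, y, s, v`: `p ^ (2 i) ↦ ((s + v) / 2) ^ i`, `q ^ (2 i) ↦ ((s - v) / 2) ^ i` -/
def rowm (K : Type) [Field K] (m : (Fin 3 × Fin 5) →₀ ℕ) (r : Fin 3) : S4 K :=
  X 0 ^ m (r, 1) * X 1 ^ m (r, 2) * (C (1 / 2) * (X 2 + X 3)) ^ (m (r, 0) / 2) * (C (1 / 2) * (X 2 - X 3)) ^ (m (r, 4) / 2)

/-- the monomials which are seen by the functional: row `0` is `w₃² w₂⁴` or `w₃² u²`, `x₃³` and `x₃'²`, even in `p, q, p', q'` -/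
def mok (m : (Fin 3 × Fin 5) →₀ ℕ) : Prop :=
  m (0, 0) = 0 ∧ m (0, 1) = 0 ∧ m (0, 3) = 2 ∧ ((m (0, 2) = 4 ∧ m (0, 4) = 0) ∨ (m (0, 2) = 0 ∧ m (0, 4) = 2)) ∧
    m (1, 3) = 3 ∧ m (2, 3) = 2 ∧ Even (m (1, 0)) ∧ Even (m (1, 4)) ∧ Even (m (2, 0)) ∧ Even (m (2, 4))

open Classical in
/-- the extraction map -/
def Xt (K : Type) [Field K] : PP K →ₗ[K] S4 K ⊗[K] S4 K :=
  (basisMonomials (Fin 3 × Fin 5) K).constr K (fun m => if mok m then rowm K m 1 ⊗ₜ[K] rowm K m 2 else 0)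

/-- `λ ⊗ μ` as a functional -/
def tf (l m : S4 K →ₗ[K] K) : S4 K ⊗[K] S4 K →ₗ[K] K := LinearMap.mul' K K ∘ₗ TensorProduct.map l m

/-- `l` vanishes on `IH` and on all monomials of weight different from `d` -/
def LF (d : ℕ) (l : S4 K →ₗ[K] K) : Prop := (∀ g ∈ IH a, l g = 0) ∧ ∀ m : Fin 4 →₀ ℕ, wt4 m ≠ d → l (monomial m 1) = 0

/-- the 3-form `dt₀ ∧ ψ ∧ ψ'`, coefficient of `dt_i dt_j dt_m`, `i < j < m` -/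
def FF (i j m : Fin 6) : S4 K ⊗[K] S4 K :=
  if i = 0 then ps1 a j ⊗ₜ ps2 a m - ps1 a m ⊗ₜ ps2 a j else 0

/-- the coefficient of `dt_i dt_j dt_m` of `(∑ (G_i ⊗ 1 + 1 ⊗ G_i) dt_i) ∧ x` -/
def dd (x : Fin 6 → Fin 6 → S4 K ⊗[K] S4 K) (i j m : Fin 6) : S4 K ⊗[K] S4 K :=
  (GG a i ⊗ₜ 1 + 1 ⊗ₜ GG a i) * x j m - (GG a j ⊗ₜ 1 + 1 ⊗ₜ GG a j) * x i m + (GG a m ⊗ₜ 1 + 1 ⊗ₜ GG a m) * x i j

end

end Pool.Agent.QV
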