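import Pool.Agent.Lib.MP_b53bfe_ag.Q.SpecV
import Pool.Agent.Lib.MP_b53bfe_ag.Q.DefsD

/-!
# Disproof of Q1 of MP_b53bfe_ag for quintic threefolds, phase 3: definitions for the lines and for the generic quintic
-/

set_option autoImplicit false

noncomputable section

namespace Pool.Agent.QV

open MvPolynomial
open Pool.Agent.FY (Res)

/-- the coordinate of `K⁵` which belongs to `u_i` -/
abbrev sc (i : Fin 4) : Fin 5 := (3 : Fin 5).succAbove i

section

variable {K : Type} [Field K]

/-- no line in `x₃ = 0`, and all lines are transversal (`H⁰ (N) = 0`): a linear map `μ : V → K⁵` with `∑_j (∂_j f) (v) μ (v)_j = 0` on `V` has values in `V` -/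
structure TL (f : MvPolynomial (Fin 5) K) : Prop where
  no3 : ∀ V ∈ Lines f, ∃ v ∈ V, v 3 ≠ 0
  tr : ∀ V ∈ Lines f, ∀ μ : V →ₗ[K] (Fin 5 → K),
    (∀ v : V, ∑ j, eval (v : Fin 5 → K) (pderiv j f) * μ v j = 0) → ∀ v : V, μ v ∈ V

/-- `e`, `d` is a basis of `V` adapted to the coordinates `3` and `sc i` -/
structure Bas2 (V : Submodule K (Fin 5 → K)) (i : Fin 4) (e d : Fin 5 → K) : Prop where
  e3 : e 3 = 1
  ei : e (sc i) = 0
  d3 : d 3 = 0
  di : d (sc i) = 1
  sp : V = Submodule.span K {e, d}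

/-- the retraction of `K[x, u]` to `K[x₃, x_i, u_i]`: the universal point and direction of the line -/
def rV (i : Fin 4) (e d : Fin 5 → K) : CC K →ₐ[K] CC K :=
  aeval (Sum.elim (fun j => C (e j) * X (Sum.inl 3) + C (d j) * X (Sum.inl (sc i))) (fun j => C (d (sc j)) * X (Sum.inr i)))

/-- the same on `K[x, u, s, s', t, t']` -/
def rVB (i : Fin 4) (e d : Fin 5 → K) : BC K →ₐ[K] BC K :=
  aeval (Sum.elim (fun v => iC (rV i e d (X v))) (fun j => X (Sum.inr j)))

/-- the ideal of `B` generated by the `φ (x)`, `φ (u)`, `φ` a linear form which vanishes on `V` -/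
def IB (V : Submodule K (Fin 5 → K)) : Ideal (BC K) := (IC V).map (iC (K := K)).toRingHom

/-- the point `(x, u)` of `K[x, u]` -/
def ptC (x u : Fin 5 → K) : VC → K := Sum.elim x (fun j => u (sc j))

end

/-! ## The universal quintic -/

/-- the variables `x, u` and the coefficients `c_m` -/
abbrev VU : Type := VC ⊕ Mo5

/-- `ℚ[x, u, c]` -/
abbrev UU : Type := MvPolynomial VU ℚ

/-- the coefficient of `T ^ j` in the monomial `m` of `x + T u` -/
def pU (m : Mo5) (j : ℕ) : UU := rename Sum.inl (Fw (monomial m.1 (1 : ℚ)) j)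

/-- the universal `F_j` -/
def FU (j : ℕ) : UU := ∑ m : Mo5, X (Sum.inr m) * pU m j

/-- the monomial `x₃ ^ (5 - k) x_i ^ k` -/
def mS (i : Fin 4) (k : Fin 6) : Mo5 :=
  ⟨Finsupp.single 3 (5 - (k : ℕ)) + Finsupp.single (sc i) (k : ℕ), by
    rw [map_add, Finsupp.degree_single, Finsupp.degree_single]; omega⟩

/-- the specialization `c_m ↦` coefficients of `f` -/
def ThU {K : Type} [Field K] [CharZero K] (f : MvPolynomial (Fin 5) K) : UU →ₐ[ℚ] CC K :=
  aeval (Sum.elim (fun v => (X v : CC K)) (fun m => C (coeff m.1 f)))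

end Pool.Agent.QV
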