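import Pool.Agent.Lib.MP_b53bfe_ag.Q.SpecA

/-!
# Disproof of Q1 of MP_b53bfe_ag for quintic threefolds. Part B2: polynomial rings, localization at the origin, `θ`-locally finite modules

`P = MvPolynomial σ K`. From the local ring at the origin to `P`: the additive function `χ (L ⊗ M)` (`S_ChP`). Then the extension to modules with a finite submodule `N` with `θ`-torsion quotient (`AX`, `S_Lat`), and the calculus with
modules `B / J`, `h : P → B` a ring homomorphism (`S_Mlt`, `S_Bq`).
-/

set_option autoImplicit false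

noncomputable section

namespace Pool.Agent.QV

open Matrix TensorProduct
open Pool.Agent.FY (Res)

/-- the ideal of the origin -/
def ori (K σ : Type) [Field K] : Ideal (MvPolynomial σ K) := RingHom.ker (MvPolynomial.constantCoeff (σ := σ) (R := K))

instance (K σ : Type) [Field K] : (ori K σ).IsPrime := RingHom.ker_isPrime _

/-- the local ring at the origin -/
abbrev Lo (K σ : Type) [Field K] : Type := Localization.AtPrime (ori K σ)

/-- the properties of the Chern character, for modules over the polynomial ring -/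
structure IsChP {P E : Type} [CommRing P] [Ring E] [Algebra P E] (C : Cal P E) (W : P) (k : ℕ) (χ : AF P W E) : Prop where
  perf : ∀ (N : Type) [AddCommGroup N] [Module P N], Module.Finite P N → Reg W N → χ.f (Qt W N) = 0
  kos : ∀ (a b : P) (ps : List (P × P)), pot (a * b) ps = W → ps.length + 1 = k → Good (a * b) ps →
    χ.f (P ⧸ idl ((a, b) :: ps)) = C.kf k ps * (C.d a * C.d b)

/-- **CalL**. Extension of a calculus to a localization: `d (a / s) = s⁻² (s da - a ds)`. Well defined: if `u (t a - s b) = 0`, `u ∈ S`, then `u² d (t a - s b) = 0` (Leibniz, multiply by `u`), so `t da + a dt = s db + b ds` in `E` (elements of `S` act invertibly on `E`, an `L`-algebra), multiply by `s t` and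
use `t a = s b` in `L`. The values are `L`-combinations of the `C.d a`, so they anticommute and have square zero. (Another way: derivations `Derivation ℤ P E` and `Ω`, `IsLocalizedModule` of the Kaehler differentials.) -/
def S_CalL : Prop :=
  ∀ (P L E : Type) [CommRing P] [CommRing L] [Algebra P L] (S : Submonoid P) [IsLocalization S L] [Ring E] [Algebra P E]
    [Algebra L E] [IsScalarTower P L E] (C : Cal P E), ∃ C' : Cal L E, ∀ a : P, C'.d (algebraMap P L a) = C.d a

/-- **Loc**. `χ' M = χ (L ⊗ M)`; `L` is flat over `P` (`IsLocalization.flat`), `LinearMap.baseChange`, `Module.Flat.lTensor_exact`. -/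
def S_Loc : Prop :=
  ∀ (P L : Type) [CommRing P] [CommRing L] [Algebra P L] (S : Submonoid P) [IsLocalization S L] (W : P) (V : Type)
    [AddCommGroup V] (χ : AF L (algebraMap P L W) V),
    ∃ χ' : AF P W V, ∀ (M : Type) [AddCommGroup M] [Module P M], χ'.f M = χ.f (L ⊗[P] M)

/-- **LocG**. `RegI a I` implies `RegI (a / 1) (I L)`: if `a x / s ∈ I L` then `t a x ∈ I` for some `t ∈ S`, so `t x ∈ I`. `idl` commutes with the extension of ideals (`Ideal.map_span`). -/
def S_LocG : Prop :=
  ∀ (P L : Type) [CommRing P] [CommRing L] [Algebra P L] (S : Submonoid P) [IsLocalization S L],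
    (∀ ps : List (P × P), idl (ps.map fun q => (algebraMap P L q.1, algebraMap P L q.2)) = (idl ps).map (algebraMap P L)) ∧
    ∀ (ps : List (P × P)) (W₀ : P), Good W₀ ps →
      Good (algebraMap P L W₀) (ps.map fun q => (algebraMap P L q.1, algebraMap P L q.2))

/-- **ChPa**. `perf`: `L ⊗ (N / W N) ≅ (L ⊗ N) / W (L ⊗ N)` and `W` is a nonzerodivisor on `L ⊗ N` (flat; `N → N`, `x ↦ W x` injective). `kos`: `L ⊗ (P / I) ≅ L / I L` (`S_LocG`), `S_Kos` (the value `kf` of the images of the pairs is the same since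
`C' (a / 1) = C a`; the `P`- and `L`-multiples of natural numbers agree). The potential `pot` of the images is the image of `W`. -/
def S_ChPa : Prop :=
  ∀ (P L E : Type) [CommRing P] [CommRing L] [Algebra P L] (S : Submonoid P) [IsLocalization S L] [Ring E] [Algebra P E]
    [Algebra L E] [IsScalarTower P L E] (C : Cal P E) (C' : Cal L E) (W : P) (k : ℕ) (χ : AF L (algebraMap P L W) E)
    (χ' : AF P W E), IsNoetherianRing P → (∀ a : P, C'.d (algebraMap P L a) = C.d a) →
    IsChern C' (algebraMap P L W) k χ → (∀ (M : Type) [AddCommGroup M] [Module P M], χ'.f M = χ.f (L ⊗[P] M)) →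
    IsChP C W k χ'

/-- **KnL**. `S_Kn` for `L = Lo K σ`, `L₀ = Lo K {u // u ≠ v}`: `ι` is induced by `rename`, `π` by `X_v ↦ 0` (both compatible with the constant coefficients). `ker π`: `a / s ↦ 0` means `a ∈ (X_v)` (the polynomial ring without `X_v` is a domain), so `a / s ∈ (X_v)`. Both rings are `NLD` (`S_NLD`). -/
def S_KnL : Prop :=
  ∀ (K : Type) [Field K] (σ : Type) [Finite σ] (v : σ) (W₀ : MvPolynomial {u : σ // u ≠ v} K) (W b : MvPolynomial σ K)
    (E : Type) [Ring E] [Algebra (Lo K σ) E] (C' : Cal (Lo K σ) E) (k : ℕ) (χ : AF (Lo K σ) (algebraMap (MvPolynomial σ K) (Lo K σ) W) E),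
    W = MvPolynomial.rename Subtype.val W₀ + MvPolynomial.X v * b → W₀ ≠ 0 → W ≠ 0 →
    C'.d (algebraMap (MvPolynomial σ K) (Lo K σ) (MvPolynomial.X v)) * C'.d (algebraMap (MvPolynomial σ K) (Lo K σ) b) = 0 → 2 ≤ k →
    IsChern C' (algebraMap (MvPolynomial σ K) (Lo K σ) W) k χ →
    ∀ (M : Type) [AddCommGroup M] [Module (Lo K σ) M], Module.Finite (Lo K σ) M →
      (∀ m : M, (algebraMap (MvPolynomial σ K) (Lo K σ) (MvPolynomial.X v)) • m = 0) → KW (algebraMap (MvPolynomial σ K) (Lo K σ) W) M → χ.f M = 0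

/-- **ChP**. Let `L = Lo K σ`. The map `P → Lb` extends to `L → Lb` (`IsLocalization.lift`; outside of the ideal of the origin the constant coefficient is not `0`), so `E` becomes an `L`-algebra (`Algebra.compHom`), `IsScalarTower P L E`. `S_CalL` gives `C'`, `S_Chn` (with `S_NLD`; `P → L` is injective) gives `χ` on `L`-modules, `S_Loc` gives `χ'`,
`S_ChPa` and `S_KnL` give the properties (`L ⊗ M` is finite, killed by `X_v` and `W`). -/
def S_ChP : Prop :=
  ∀ (K : Type) [Field K] (σ : Type) [Finite σ] (Lb E : Type) [CommRing Lb] [Algebra (MvPolynomial σ K) Lb] [Ring E]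
    [Algebra Lb E] [Algebra (MvPolynomial σ K) E] [IsScalarTower (MvPolynomial σ K) Lb E] (C : Cal (MvPolynomial σ K) E)
    (W : MvPolynomial σ K) (k : ℕ),
    (∀ a : MvPolynomial σ K, MvPolynomial.constantCoeff a ≠ 0 → IsUnit (algebraMap (MvPolynomial σ K) Lb a)) → W ≠ 0 →
    C.d W = 0 → 2 ≤ k →
    ∃ χ : AF (MvPolynomial σ K) W E, IsChP C W k χ ∧
      ∀ (v : σ) (W₀ : MvPolynomial {u : σ // u ≠ v} K) (b : MvPolynomial σ K),
        W = MvPolynomial.rename Subtype.val W₀ + MvPolynomial.X v * b → W₀ ≠ 0 →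
        C.d (MvPolynomial.X v) * C.d b = 0 →
        ∀ (M : Type) [AddCommGroup M] [Module (MvPolynomial σ K) M], Module.Finite (MvPolynomial σ K) M →
          (∀ m : M, (MvPolynomial.X v : MvPolynomial σ K) • m = 0) → KW W M → χ.f M = 0

/-- **Tor**. First: if `s ^ k` kills `M`, use the submodule `s M` (killed by `s ^ (k-1)`) and the quotient `M / s M` (killed by `s`). For a list `s :: l` and `M` killed by `(s * l.prod) ^ k`: the submodule `s ^ k M` is killed by `l.prod ^ k`, the quotient by `s ^ k`; induction on the list. -/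
def S_Tor : Prop :=
  ∀ (P : Type) [CommRing P] (W : P) (V : Type) [AddCommGroup V] (χ : AF P W V) (l : List P), IsNoetherianRing P →
    (∀ s ∈ l, ∀ (M : Type) [AddCommGroup M] [Module P M], Module.Finite P M → KW W M → (∀ m : M, s • m = 0) → χ.f M = 0) →
    ∀ (M : Type) [AddCommGroup M] [Module P M], Module.Finite P M → KW W M → (∃ k : ℕ, ∀ m : M, l.prod ^ k • m = 0) →
      χ.f M = 0

/-! ## `θ`-locally finite modules -/

/-- `M` has a finite submodule with `θ`-torsion quotient -/
def LFn {P : Type} [CommRing P] (θ : P) (M : Type) [AddCommGroup M] [Module P M] : Prop :=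
  ∃ N : Submodule P M, N.FG ∧ ∀ m : M, ∃ k : ℕ, θ ^ k • m ∈ N

/-- additive functions on the `θ`-locally finite modules killed by `W`, zero on the `θ`-torsion modules -/
structure AX (P : Type) [CommRing P] (W θ : P) (V : Type) [AddCommGroup V] where
  f : (M : Type) → [AddCommGroup M] → [Module P M] → V
  add : ∀ (A B C : Type) [AddCommGroup A] [Module P A] [AddCommGroup B] [Module P B] [AddCommGroup C] [Module P C]
    (i : A →ₗ[P] B) (p : B →ₗ[P] C), LFn θ B → KW W B →
    Function.Injective i → Function.Surjective p → Function.Exact i p → f B = f A + f C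
  tors : ∀ (M : Type) [AddCommGroup M] [Module P M], KW W M → (∀ m : M, ∃ k : ℕ, θ ^ k • m = 0) → f M = 0

/-- **Lat**. `Φ M = χ N` for a chosen finite `N` with `M / N` `θ`-torsion (`0` if there is none). Independence: for two choices `N`, `N'` the quotient `(N + N') / N` is finite and `θ`-torsion, so killed by some `θ ^ k`, `χ = 0`; so `χ N = χ (N + N') = χ N'`. Additivity for `0 → A → B → C → 0`: for `N ⊆ B` take the preimage of `N` in `A` (finite,
noetherian ring) and the image in `C`. Second part: `N₀ ⊆ N` finite with `N / N₀` `θ`-torsion; `N₀ / W N₀ → N / W N`: the image `N₁` is finite with `θ`-torsion quotient, the kernel `(N₀ ∩ W N) / W N₀` is `θ`-torsion (`x = W y`, `θ ^ k y ∈ N₀`, so `θ ^ k x ∈ W N₀`) and finite, so `Φ (N / W N) = χ N₁ = χ (N₀ / W N₀) = 0`. -/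
def S_Lat : Prop :=
  ∀ (P : Type) [CommRing P] (W θ : P) (V : Type) [AddCommGroup V] (χ : AF P W V), IsNoetherianRing P →
    (∀ (M : Type) [AddCommGroup M] [Module P M], Module.Finite P M → KW W M → (∃ k : ℕ, ∀ m : M, θ ^ k • m = 0) → χ.f M = 0) →
    ∃ Φ : AX P W θ V, (∀ (M : Type) [AddCommGroup M] [Module P M], Module.Finite P M → KW W M → Φ.f M = χ.f M) ∧
      ((∀ (N : Type) [AddCommGroup N] [Module P N], Module.Finite P N → Reg W N → χ.f (Qt W N) = 0) →
        ∀ (N : Type) [AddCommGroup N] [Module P N], LFn θ N → Reg W N → Φ.f (Qt W N) = 0)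

/-- **Tis**. `0 → ker g → M → im g → 0` and `0 → im g → N → N / im g → 0`; `ker g` and `N / im g` are `θ`-torsion; submodules of `θ`-locally finite modules are so if `P` is noetherian. -/
def S_Tis : Prop :=
  ∀ (P : Type) [CommRing P] (W θ : P) (V : Type) [AddCommGroup V] (Φ : AX P W θ V) (M N : Type) [AddCommGroup M] [Module P M]
    [AddCommGroup N] [Module P N] (g : M →ₗ[P] N), IsNoetherianRing P → LFn θ M → LFn θ N → KW W M → KW W N →
    (∀ m : M, g m = 0 → ∃ k : ℕ, θ ^ k • m = 0) → (∀ n : N, ∃ (k : ℕ) (m : M), θ ^ k • n = g m) → Φ.f M = Φ.f N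

/-- **Mlt**. `0 → B/(J + b) → B/(J + ab) → B/(J + a) → 0`, the first map is multiplication by `a` (injective: `a x ∈ J + (ab)`, `a (x - b c) ∈ J`, so `x ∈ J + (b)`). The quotients are `θ`-locally finite since `B/(J+ab)` is (`P` noetherian for the submodule; `AX.add` needs only the middle term). -/
def S_Mlt : Prop :=
  ∀ (P B : Type) [CommRing P] [CommRing B] (h : P →+* B) (W θ : P) (V : Type) [AddCommGroup V] (Φ : AX P W θ V) (J : Ideal B)
    (a b : B), LFn θ (Res h (B ⧸ (J ⊔ Ideal.span {a * b}))) → h W ∈ J ⊔ Ideal.span {a * b} → RegI a J →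
    Φ.f (Res h (B ⧸ (J ⊔ Ideal.span {a * b}))) =
      Φ.f (Res h (B ⧸ (J ⊔ Ideal.span {a}))) + Φ.f (Res h (B ⧸ (J ⊔ Ideal.span {b})))

/-- **Bq**. (1) `h W` regular mod `J`: `B/(J + h W) ≅ N / W N` for `N = B/J`. (2) `h W ∈ J`, `ξ` regular mod `J`: `0 → B/J → B/J → B/(J + ξ) → 0` (multiplication by `ξ`). (3) `(h θ) ^ k ∈ J`: torsion. (4) comparison: the map `B/J → B'/J'` induced by `g` with `S_Tis`. Here `P` is noetherian, `Φ` is as in `S_Lat`. -/
def S_Bq : Prop :=
  ∀ (P B : Type) [CommRing P] [CommRing B] (h : P →+* B) (W θ : P) (V : Type) [AddCommGroup V] (Φ : AX P W θ V), IsNoetherianRing P →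
    (∀ (N : Type) [AddCommGroup N] [Module P N], LFn θ N → Reg W N → Φ.f (Qt W N) = 0) →
    (∀ J : Ideal B, LFn θ (Res h (B ⧸ J)) → RegI (h W) J → Φ.f (Res h (B ⧸ (J ⊔ Ideal.span {h W}))) = 0) ∧
    (∀ (J : Ideal B) (ξ : B), LFn θ (Res h (B ⧸ J)) → h W ∈ J → RegI ξ J → Φ.f (Res h (B ⧸ (J ⊔ Ideal.span {ξ}))) = 0) ∧
    (∀ (J : Ideal B) (k : ℕ), h W ∈ J → h θ ^ k ∈ J → Φ.f (Res h (B ⧸ J)) = 0) ∧
    ∀ (B' : Type) [CommRing B'] (h' : P →+* B') (g : B →+* B') (J : Ideal B) (J' : Ideal B'), (∀ x, g (h x) = h' x) →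
      LFn θ (Res h (B ⧸ J)) → LFn θ (Res h' (B' ⧸ J')) → h W ∈ J → (∀ x ∈ J, g x ∈ J') →
      (∀ x, g x ∈ J' → ∃ k : ℕ, h θ ^ k * x ∈ J) → (∀ y, ∃ (k : ℕ) (x : B), h' θ ^ k * y - g x ∈ J') →
      Φ.f (Res h (B ⧸ J)) = Φ.f (Res h' (B' ⧸ J'))

/-- **LfB**. The set of all `x ∈ B` with `h θ ^ k x - h b ∈ J` for some `k`, `b` is a subring which contains `K` and the variables (`MvPolynomial.induction_on`). The submodule generated by the class of `1` is the required one. (3): quotients of `θ`-locally finite modules are so. -/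
def S_LfB : Prop :=
  ∀ (K : Type) [Field K] (σ τ : Type) (h : MvPolynomial σ K →ₐ[K] MvPolynomial τ K) (θ : MvPolynomial σ K)
    (J : Ideal (MvPolynomial τ K)),
    (∀ i : τ, ∃ (k : ℕ) (b : MvPolynomial σ K), h θ ^ k * MvPolynomial.X i - h b ∈ J) →
    (∀ x, ∃ (k : ℕ) (b : MvPolynomial σ K), h θ ^ k * x - h b ∈ J) ∧
      LFn θ (Res h.toRingHom (MvPolynomial τ K ⧸ J)) ∧
      ∀ J' : Ideal (MvPolynomial τ K), J ≤ J' → LFn θ (Res h.toRingHom (MvPolynomial τ K ⧸ J'))

/-- **Ret**. Retractions. `r` an algebra endomorphism (substitution) with `r (r X_v) = r X_v` for all `v`. For all `a`: `a - r a ∈ (X_v - r X_v)` (`MvPolynomial.induction_on`), so the kernel of `r` is the ideal generated by the `X_v - r X_v`; `r (r a) = r a`. The polynomial ring is a domain, so `RegI a (ker r)` if `r a ≠ 0`. Last part: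
`a x ∈ ker r ⊔ J` implies `r a * r x ∈ J` (apply `r`), so `r x ∈ J`, so `x = (x - r x) + r x ∈ ker r ⊔ J`. -/
def S_Ret : Prop :=
  ∀ (K : Type) [Field K] (τ : Type) (r : MvPolynomial τ K →ₐ[K] MvPolynomial τ K),
    (∀ v, r (r (MvPolynomial.X v)) = r (MvPolynomial.X v)) →
    (RingHom.ker r = Ideal.span (Set.range fun v => MvPolynomial.X v - r (MvPolynomial.X v))) ∧ (∀ a, r (r a) = r a) ∧
    (∀ a, r a ≠ 0 → RegI a (RingHom.ker r)) ∧
    ∀ (J : Ideal (MvPolynomial τ K)) (a : MvPolynomial τ K), (∀ x ∈ J, r x ∈ J) → RegI (r a) J → RegI a (RingHom.ker r ⊔ J)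

end Pool.Agent.QV
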