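import Pool.Agent.Lib.MP_b53bfe_ag.Q.Gr
import Pool.Agent.Lib.MP_b53bfe_ag.Q.SpecB

/-!
# Disproof of Q1 of MP_b53bfe_ag for quintic threefolds, phases 2 and 3: common definitions
-/

set_option autoImplicit false

noncomputable section

namespace Pool.Agent.QV

open MvPolynomial
open Pool.Agent.FY (Res)

/-- `M` is killed by all elements of the set `S` -/
def KS {R : Type} [CommRing R] (S : Set R) (M : Type) [AddCommGroup M] [Module R M] : Prop := ∀ s ∈ S, ∀ m : M, s • m = 0

/-- additive functions on the finitely generated modules killed by the elements of the set `S` -/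
structure AFS (R : Type) [CommRing R] (S : Set R) (V : Type) [AddCommGroup V] where
  f : (M : Type) → [AddCommGroup M] → [Module R M] → V
  add : ∀ (A B C : Type) [AddCommGroup A] [Module R A] [AddCommGroup B] [Module R B] [AddCommGroup C] [Module R C]
    (i : A →ₗ[R] B) (p : B →ₗ[R] C), Module.Finite R B → KS S B →
    Function.Injective i → Function.Surjective p → Function.Exact i p → f B = f A + f C

/-- the additive function `χ` on the finite modules over `Gr.Pol K` killed by the three forms `f (x₀)`, `f (x₁)`, `f (x₂)`
(a) is zero on `N / f_l N` for all finite modules `N` killed by the two other forms, on which `f_l` is regular, (b) is zero on the modules killed by a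
power of a variable `x_(i, 3)`, (c) is not zero on the small diagonal. -/
structure QF (K : Type) [Field K] (f : MvPolynomial (Fin 5) K) (E : Type) [AddCommGroup E] (χ : AFS (Gr.Pol K) (Set.range (Gr.form f)) E) :
    Prop where
  perf : ∀ (l : Fin 3) (N : Type) [AddCommGroup N] [Module (Gr.Pol K) N], Module.Finite (Gr.Pol K) N →
    (∀ i, i ≠ l → ∀ m : N, Gr.form f i • m = 0) → Reg (Gr.form f l) N → χ.f (Qt (Gr.form f l) N) = 0
  tors : ∀ (M : Type) [AddCommGroup M] [Module (Gr.Pol K) M], Module.Finite (Gr.Pol K) M → KS (Set.range (Gr.form f)) M →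
    (∃ (i : Fin 3) (k : ℕ), ∀ m : M, (X (i, 3) : Gr.Pol K) ^ k • m = 0) → χ.f M = 0
  small : χ.f (Gr.Pol K ⧸ Ideal.span (Gr.smallGens f)) ≠ 0

/-- there is a function `χ` as in `QF` with values in a `ℚ`-vector space -/
def HQ (K : Type) [Field K] (f : MvPolynomial (Fin 5) K) : Prop :=
  ∃ (E : Type) (_ : AddCommGroup E) (_ : Module ℚ E) (χ : AFS (Gr.Pol K) (Set.range (Gr.form f)) E), QF K f E χ

/-- the monomials of degree `5` in five variables -/
abbrev Mo5 : Type := {m : Fin 5 →₀ ℕ // m.degree = 5}

/-- `f` is a quintic form with algebraically independent coefficients over `ℚ` -/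
def AInd (K : Type) [Field K] [CharZero K] (f : MvPolynomial (Fin 5) K) : Prop :=
  f.IsHomogeneous 5 ∧ AlgebraicIndependent ℚ (fun m : Mo5 => coeff m.1 f)

end Pool.Agent.QV
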