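import Pool.Agent.Lib.MP_b53bfe_ag.Q.DefsV

/-!
# Disproof of Q1 of MP_b53bfe_ag for quintic threefolds, phase 3 (`Γ = 120 Δ` modulo decomposable classes): definitions

`x` a point, `u` a direction (with `u₃ = 0`), `a = s x + t u`, `b = s' a + t' u`: three points of a line. `F_i (x, u)` is the coefficient of `T ^ i` in `f (x + T u)`.
-/

set_option autoImplicit false

noncomputable section

namespace Pool.Agent.QV

open MvPolynomial
open Pool.Agent.FY (Res)

/-- `a` is regular modulo `J` up to `z`-torsion -/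
def RegZ {R : Type} [CommRing R] (z a : R) (J : Ideal R) : Prop := ∀ x : R, a * x ∈ J → ∃ k : ℕ, z ^ k * x ∈ J

/-- additive functions on the `θ`-locally finite modules killed by the elements of `S`, zero on the `θ`-torsion modules -/
structure AXS (P : Type) [CommRing P] (S : Set P) (θ : P) (V : Type) [AddCommGroup V] where
  f : (M : Type) → [AddCommGroup M] → [Module P M] → V
  add : ∀ (A B C : Type) [AddCommGroup A] [Module P A] [AddCommGroup B] [Module P B] [AddCommGroup C] [Module P C]
    (i : A →ₗ[P] B) (p : B →ₗ[P] C), LFn θ B → KS S B →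
    Function.Injective i → Function.Surjective p → Function.Exact i p → f B = f A + f C
  tors : ∀ (M : Type) [AddCommGroup M] [Module P M], KS S M → (∀ m : M, ∃ k : ℕ, θ ^ k • m = 0) → f M = 0

/-- `J` is a homogeneous ideal -/
def HomI {σ K : Type} [CommRing K] (w : σ → ℤ) (J : Ideal (MvPolynomial σ K)) : Prop :=
  ∀ x ∈ J, ∀ j : ℤ, weightedHomogeneousComponent w j x ∈ J

/-- the part of degree `j` of `B ⧸ J`, `B = MvPolynomial σ K`, as a module over `P` -/
def gp {P σ K : Type} [CommRing P] [CommRing K] (h : P →+* MvPolynomial σ K) (w : σ → ℤ) (J : Ideal (MvPolynomial σ K)) (j : ℤ) :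
    Submodule P (Res h (MvPolynomial σ K ⧸ J)) :=
  Submodule.span P {y | ∃ x : MvPolynomial σ K, IsWeightedHomogeneous w x j ∧ y = FY.Res.mk h (Ideal.Quotient.mk J x)}

/-- the variables `x₀, ..., x₄` and `u₀, u₁, u₂, u₄` -/
abbrev VC : Type := Fin 5 ⊕ Fin 4

/-- the variables of `VC` and `s, s', t, t'` (numbers `0, 1, 2, 3`) -/
abbrev VB : Type := VC ⊕ Fin 4

/-- `K[x, u]` -/
abbrev CC (K : Type) [CommRing K] : Type := MvPolynomial VC K

/-- `K[x, u, s, s', t, t']` -/
abbrev BC (K : Type) [CommRing K] : Type := MvPolynomial VB K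

section

variable {K : Type} [CommRing K]

variable (K) in
/-- the point `x` -/
def xC (j : Fin 5) : CC K := X (Sum.inl j)

variable (K) in
/-- the direction `u = (u₀, u₁, u₂, 0, u₄)` -/
def uC (j : Fin 5) : CC K := (Fin.insertNth (3 : Fin 5) (0 : CC K) (fun i : Fin 4 => (X (Sum.inr i) : CC K)) : Fin 5 → CC K) j

/-- `F_i`, the coefficient of `T ^ i` in `f (x + T u)` -/
def Fw (f : MvPolynomial (Fin 5) K) (i : ℕ) : CC K :=
  (aeval (fun j => Polynomial.C (xC K j) + Polynomial.X * Polynomial.C (uC K j)) f : Polynomial (CC K)).coeff i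

/-- the inclusion of `K[x, u]` in `K[x, u, s, s', t, t']` -/
def iC : CC K →ₐ[K] BC K := rename Sum.inl

variable (K) in
def sB : BC K := X (Sum.inr 0)

variable (K) in
def sB' : BC K := X (Sum.inr 1)

variable (K) in
def tB : BC K := X (Sum.inr 2)

variable (K) in
def tB' : BC K := X (Sum.inr 3)

/-- the weights: `u` has weight `1`, `t` and `t'` have weight `-1` -/
def wB : VB → ℤ := Sum.elim (Sum.elim (fun _ => 0) (fun _ => 1)) ![0, 0, -1, -1]

/-- the weights of `K[x, u]`: `u` has weight `1` -/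
def wC : VC → ℤ := Sum.elim (fun _ => 0) (fun _ => 1)

variable (K) in
/-- the point `a = s x + t u` -/
def aB (j : Fin 5) : BC K := sB K * iC (xC K j) + tB K * iC (uC K j)

variable (K) in
/-- the point `b = s' a + t' u` -/
def bB (j : Fin 5) : BC K := sB' K * aB K j + tB' K * iC (uC K j)

/-- the ideal of `K[x, u]` generated by the `F_i`, `i ∈ S` -/
def JC (f : MvPolynomial (Fin 5) K) (S : Finset ℕ) : Ideal (CC K) := Ideal.span {y | ∃ i ∈ S, y = Fw f i}

/-- the ideal of `K[x, u, s, s', t, t']` generated by the `F_i`, `i ∈ S` -/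
def JB (f : MvPolynomial (Fin 5) K) (S : Finset ℕ) : Ideal (BC K) := Ideal.span {y | ∃ i ∈ S, y = iC (Fw f i)}

/-- `δ = s F₄ + t F₅` -/
def dB (f : MvPolynomial (Fin 5) K) : BC K := sB K * iC (Fw f 4) + tB K * iC (Fw f 5)

variable (K) in
/-- `τ = t' + s' t` -/
def TB : BC K := tB' K + sB' K * tB K

end

section

variable {K : Type} [Field K]

variable (K) in
/-- the three rows go to `x`, `a = s x + t u`, `b = s' a + t' u` -/
def hV : Gr.Pol K →ₐ[K] BC K := aeval fun v => (![iC (xC K v.2), aB K v.2, bB K v.2] v.1 : BC K)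

variable (K) in
/-- `θ`, the product of the variables number `3` -/
def thV : Gr.Pol K := X (0, 3) * X (1, 3) * X (2, 3)

/-- the part of degree `j` of `B ⧸ J`, for an ideal `J` of `B = K[x, u, s, s', t, t']` -/
abbrev gV (J : Ideal (BC K)) (j : ℤ) : Submodule (Gr.Pol K) (Res (hV K).toRingHom (BC K ⧸ J)) := gp (hV K).toRingHom wB J j

/-- the properties of the extended function: `N / f_l N` goes to zero if `N` is killed by the two other forms and `f_l` is regular on `N` (up to `θ`-torsion) -/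
def PfX (f : MvPolynomial (Fin 5) K) {E : Type} [AddCommGroup E] (Φ : AXS (Gr.Pol K) (Set.range (Gr.form f)) (thV K) E) : Prop :=
  ∀ (l : Fin 3) (N : Type) [AddCommGroup N] [Module (Gr.Pol K) N], LFn (thV K) N → (∀ i, i ≠ l → ∀ n : N, Gr.form f i • n = 0) →
    (∀ n : N, Gr.form f l • n = 0 → ∃ k : ℕ, thV K ^ k • n = 0) → Φ.f (Qt (Gr.form f l) N) = 0

/-! ## Lines -/

/-- the lines on `X`: the subspaces of dimension `2` on which `f` is zero -/
def Lines (f : MvPolynomial (Fin 5) K) : Set (Submodule K (Fin 5 → K)) :=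
  {V | Module.finrank K V = 2 ∧ ∀ v ∈ V, eval v f = 0}

/-- the linear forms which vanish on `V` -/
def Ann (V : Submodule K (Fin 5 → K)) : Set (Fin 5 → K) := {φ | ∀ v ∈ V, ∑ j, φ j * v j = 0}

/-- the generators of the ideal of `ℓ × ℓ × ℓ` in `X × X × X`, `ℓ` the line of `V`: the linear forms which vanish on `V`, in each row, and the three forms `f (x_i)` -/
def cubeGens (f : MvPolynomial (Fin 5) K) (V : Submodule K (Fin 5 → K)) : Set (Gr.Pol K) :=
  {r | ∃ (i : Fin 3) (φ : Fin 5 → K), φ ∈ Ann V ∧ r = ∑ j, C (φ j) * X (i, j)} ∪ Set.range (Gr.form f)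

/-- the ideal of `K[x, u]` generated by the `φ (x)`, `φ (u)`, `φ` a linear form which vanishes on `V` -/
def IC (V : Submodule K (Fin 5 → K)) : Ideal (CC K) :=
  Ideal.span ({y | ∃ φ ∈ Ann V, y = ∑ j, C (φ j) * xC K j} ∪ {y | ∃ φ ∈ Ann V, y = ∑ j, C (φ j) * uC K j})

end

end Pool.Agent.QV
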