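import Pool.Agent.Lib.MP_b53bfe_ag.Q.SpecV

/-!
# MP_b53bfe_ag, phase 3, module GKS: the forms kill the pieces (helper2)
-/

set_option autoImplicit false

noncomputable section

namespace Pool.Agent.QV

open Matrix
open MvPolynomial
open Pool.Agent.FY (Res)

theorem tGKS : S_GKS := by
  intro K _ f J j hF s hs m
  obtain ⟨i, rfl⟩ := hs
  have key : ∀ y : BC K ⧸ J, (FY.Res.mk (hV K).toRingHom (hV K (Gr.form f i) • y) :
      Res (hV K).toRingHom (BC K ⧸ J)) = 0 := by
    intro y
    obtain ⟨x, rfl⟩ := Ideal.Quotient.mk_surjective y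
    have h1 : hV K (Gr.form f i) • Ideal.Quotient.mk J x = 0 := by
      show Ideal.Quotient.mk J (hV K (Gr.form f i) * x) = 0
      exact Ideal.Quotient.eq_zero_iff_mem.mpr (J.mul_mem_right x (hF i))
    rw [h1]
    rfl
  apply Subtype.ext
  exact key m.1.val

end Pool.Agent.QV
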