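import Pool.Agent.Lib.MP_b53bfe_ag.Q.SpecA

/-!
# Left gauge invariance of the Chern character of matrix factorizations (helper13)
-/

set_option autoImplicit false

noncomputable section

namespace Pool.Agent.QV

open Matrix

namespace Gl_aux

variable {L E : Type} [CommRing L] [Ring E] [Algebra L E] (C : Cal L E)

theorem d_one : C.d 1 = 0 := by
  have h := C.mul 1 1
  rw [mul_one, one_smul] at h
  exact (left_eq_add.1 h)

theorem d_zero : C.d 0 = 0 := by
  have h := C.add 0 0
  rw [add_zero] at h
  exact (left_eq_add.1 h)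

theorem d_sum {ι : Type} (s : Finset ι) (f : ι → L) : C.d (∑ i ∈ s, f i) = ∑ i ∈ s, C.d (f i) := by
  classical
  induction s using Finset.induction_on with
  | empty => simp [d_zero]
  | insert a s ha ih => rw [Finset.sum_insert ha, Finset.sum_insert ha, C.add, ih]

theorem em_mul {l m n : Type} [Fintype m] (A : Matrix l m L) (B : Matrix m n L) :
    em E (A * B) = em E A * em E B := by
  unfold em
  exact Matrix.map_mul

theorem em_one {n : Type} [DecidableEq n] : em E (1 : Matrix n n L) = 1 := by
  unfold em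
  exact Matrix.map_one _ (map_zero _) (map_one _)

theorem em_scalar {n : Type} [DecidableEq n] (W : L) :
    em E (W • (1 : Matrix n n L)) = W • (1 : Matrix n n E) := by
  ext a b
  simp only [em, Matrix.map_apply, Matrix.smul_apply, smul_eq_mul, map_mul, Algebra.smul_def]
  by_cases h : a = b
  · subst h; simp
  · simp [Matrix.one_apply_ne h]

theorem dm_mul {l m n : Type} [Fintype m] (A : Matrix l m L) (B : Matrix m n L) :
    C.dm (A * B) = C.dm A * em E B + em E A * C.dm B := by
  ext a b
  simp only [Cal.dm, em, Matrix.map_apply, Matrix.mul_apply, Matrix.add_apply, d_sum, C.mul,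
    Finset.sum_add_distrib]
  rw [add_comm]
  congr 1
  · refine Finset.sum_congr rfl fun j _ => ?_
    rw [Algebra.smul_def, Algebra.commutes]
  · refine Finset.sum_congr rfl fun j _ => ?_
    rw [Algebra.smul_def]

theorem dm_scalar {n : Type} [DecidableEq n] (W : L) (hW : C.d W = 0) :
    C.dm (W • (1 : Matrix n n L)) = 0 := by
  ext a b
  simp only [Cal.dm, Matrix.map_apply, Matrix.smul_apply, smul_eq_mul, Matrix.zero_apply]
  by_cases h : a = b
  · subst h; simp [hW]
  · simp [Matrix.one_apply_ne h, d_zero]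

theorem trace_comm {n : Type} [Fintype n] (U : Matrix n n L) (X : Matrix n n E) :
    (em E U * X).trace = (X * em E U).trace := by
  simp only [Matrix.trace, Matrix.diag_apply, Matrix.mul_apply, em, Matrix.map_apply]
  rw [Finset.sum_comm]
  refine Finset.sum_congr rfl fun i _ => Finset.sum_congr rfl fun j _ => ?_
  rw [Algebra.commutes]

theorem conj_pow {n : Type} [Fintype n] [DecidableEq n] (U V N : Matrix n n E) (hUV : U * V = 1)
    (hVU : V * U = 1) (k : ℕ) : (U * N * V) ^ k = U * N ^ k * V := by
  induction k with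
  | zero => rw [pow_zero, pow_zero, mul_one, hUV]
  | succ k ih =>
    rw [pow_succ, ih, pow_succ]
    calc U * N ^ k * V * (U * N * V) = U * N ^ k * (V * U) * N * V := by simp only [mul_assoc]
      _ = U * (N ^ k * N) * V := by rw [hVU, mul_one]; simp only [mul_assoc]

end Gl_aux

open Gl_aux in
theorem tGl : S_Comm → S_Gn → S_Gl := by
  intro hC hG L E _ _ _ C W n _ _ A B U V k hW hAB hUV hVU
  obtain ⟨-, -, hC3, -, hC5, -⟩ := hC L E C
  -- the elements
  set dA := C.dm A with hdA
  set dB := C.dm B with hdB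
  set eA := em E A with heA
  set eB := em E B with heB
  set eU := em E U with heU
  set eV := em E V with heV
  have hUV' : eU * eV = 1 := by rw [heU, heV, ← em_mul, hUV, em_one]
  have hVU' : eV * eU = 1 := by rw [heU, heV, ← em_mul, hVU, em_one]
  have hABe : eA * eB = W • 1 := by rw [heA, heB, ← em_mul, hAB.ab, em_scalar]
  have h1 : dA * eB = -(eA * dB) := by
    have h := dm_mul C A B
    rw [hAB.ab, dm_scalar C W hW] at h
    exact eq_neg_of_add_eq_zero_left h.symm
  have h1' : eA * dB = -(dA * eB) := by rw [h1, neg_neg]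
  have h2 : dB * eA = -(eB * dA) := by
    have h := dm_mul C B A
    rw [hAB.ba, dm_scalar C W hW] at h
    exact eq_neg_of_add_eq_zero_left h.symm
  have h2' : eB * dA = -(dB * eA) := by rw [h2, neg_neg]
  set M := dA * dB with hM
  set P := dA * eB with hP
  set ω := eV * C.dm U with hω
  have hPM : P * M = M * P := by
    calc P * M = dA * (eB * dA) * dB := by rw [hP, hM]; simp only [mul_assoc]
      _ = -(dA * dB * (eA * dB)) := by rw [h2']; simp only [mul_assoc, mul_neg, neg_mul]
      _ = M * P := by rw [h1', mul_neg, neg_neg]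
  have hPP : P * P = -(W • M) := by
    calc P * P = dA * (eB * dA) * eB := by rw [hP]; simp only [mul_assoc]
      _ = -(dA * dB * (eA * eB)) := by rw [h2']; simp only [mul_assoc, mul_neg, neg_mul]
      _ = -(W • M) := by rw [hABe, mul_smul_comm, mul_one]
  have hdU : C.dm (U * A) = eU * (ω * eA + dA) := by
    rw [dm_mul, mul_add, hω, ← mul_assoc, ← mul_assoc, hUV', one_mul]
  have hdV : C.dm V = -(ω * eV) := by
    have h := dm_mul C V U
    have h0 : V * U = (1 : L) • (1 : Matrix n n L) := by rw [hVU, one_smul]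
    rw [h0, dm_scalar C 1 (d_one C)] at h
    have h3 : C.dm V * eU = -ω := eq_neg_of_add_eq_zero_left h.symm
    calc C.dm V = C.dm V * (eU * eV) := by rw [hUV', mul_one]
      _ = -(ω * eV) := by rw [← mul_assoc, h3, neg_mul]
  have hdBV : C.dm (B * V) = (dB - eB * ω) * eV := by
    rw [dm_mul, hdV, sub_mul, mul_neg, ← mul_assoc, ← sub_eq_add_neg]
  have hprod : C.dm (U * A) * C.dm (B * V) =
      eU * (M - (P * ω + ω * P) - W • (ω * ω)) * eV := by
    rw [hdU, hdBV]
    have h4 : (ω * eA + dA) * (dB - eB * ω) = M - (P * ω + ω * P) - W • (ω * ω) := by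
      have h5 : ω * eA * dB = -(ω * P) := by rw [mul_assoc, h1', mul_neg]
      have h6 : ω * eA * (eB * ω) = W • (ω * ω) := by
        calc ω * eA * (eB * ω) = ω * (eA * eB) * ω := by simp only [mul_assoc]
          _ = W • (ω * ω) := by rw [hABe, mul_smul_comm, mul_one, smul_mul_assoc]
      have h7 : dA * (eB * ω) = P * ω := by rw [← mul_assoc]
      rw [add_mul, mul_sub, mul_sub, h5, h6, h7]
      abel
    calc eU * (ω * eA + dA) * ((dB - eB * ω) * eV) =
        eU * ((ω * eA + dA) * (dB - eB * ω)) * eV := by simp only [mul_assoc]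
      _ = _ := by rw [h4]
  have hEM : C.Ent 2 M := hC3 1 1 n n n dA dB (hC5 n n A).1 (hC5 n n B).1
  have hEP : C.Ent 1 P := hC3 1 0 n n n dA eB (hC5 n n A).1 (hC5 n n B).2
  have hEω : C.Ent 1 ω := hC3 0 1 n n n eV (C.dm U) (hC5 n n V).2 (hC5 n n U).1
  unfold Cal.ch
  rw [hprod, conj_pow eU eV _ hUV' hVU', mul_assoc, trace_comm, mul_assoc, hVU', mul_one]
  exact hG L E C n W M P ω k hEM hEP hEω hPM.symm hPP

end Pool.Agent.QV
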