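import Pool.Agent.Lib.MP_b53bfe_ag.Q.Gr

/-!
# The classes of `ℓ × ℓ × ℓ`, `ℓ ⊆ X` a line, and of the small diagonal; classes restricted from `X × X × ℙ⁴`

Continuation of `Q/Gr.lean`: `X ⊆ ℙ⁴` is the quintic threefold of the form `f`, coherent sheaves on `X × X × X` are `ℤ³`-graded modules.
-/

set_option autoImplicit false

noncomputable section

namespace Pool.Agent.QV.Gr

section

variable {K : Type} [Field K]

/-- The lines on `X`: the subspaces `V ⊆ K⁵` of dimension `2` on which `f` vanishes; the line is `ℓ = ℙ(V)`. -/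
def Lines (f : MvPolynomial (Fin 5) K) : Set (Submodule K (Fin 5 → K)) :=
  {V | Module.finrank K V = 2 ∧ ∀ v ∈ V, MvPolynomial.eval v f = 0}

/-- The linear form `φ` in the variables of the `i`-th row. -/
def linForm (i : Fin 3) (φ : Fin 5 → K) : Pol K := ∑ j, MvPolynomial.C (φ j) * MvPolynomial.X (i, j)

/-- The generators of the ideal of `ℓ × ℓ × ℓ` in `X × X × X`, `ℓ = ℙ(V)`: the linear forms which vanish on `V`, in each of the three rows, and the three forms
`f (x_i)`. -/
def cubeGens (f : MvPolynomial (Fin 5) K) (V : Submodule K (Fin 5 → K)) : Set (Pol K) :=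
  {r | ∃ (i : Fin 3) (φ : Fin 5 → K), (∀ v ∈ V, ∑ j, φ j * v j = 0) ∧ r = linForm i φ} ∪ Set.range (form f)

theorem linForm_homog (i : Fin 3) (φ : Fin 5 → K) : Homog (linForm i φ) (Pi.single i 1) := by
  unfold Homog linForm
  refine MvPolynomial.IsWeightedHomogeneous.sum _ _ _ fun j _ => ?_
  have h1 := (MvPolynomial.isWeightedHomogeneous_C deg (φ j)).mul (MvPolynomial.isWeightedHomogeneous_X K deg (i, j))
  rw [zero_add] at h1
  exact h1

variable {f : MvPolynomial (Fin 5) K}

theorem cubeGens_homog (hf : f.IsHomogeneous 5) (V : Submodule K (Fin 5 → K)) : ∀ r ∈ cubeGens f V, ∃ a, Homog r a := by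
  rintro r (⟨i, φ, -, rfl⟩ | hr)
  · exact ⟨_, linForm_homog i φ⟩
  · exact forms_homog hf r hr

/-- The graded module of the sheaf `O_{ℓ × ℓ × ℓ}(e)` on `X × X × X`, for the line `ℓ = ℙ(V)` on `X`. -/
def lineCube (hf : f.IsHomogeneous 5) (V : Submodule K (Fin 5 → K)) (e : Fin 3 → ℤ) : GrMod f :=
  quo f (cubeGens f V) (fun i => Or.inr ⟨i, rfl⟩) (cubeGens_homog hf V) e

/-- The graded module of the sheaf `O_Δ(e)` on `X × X × X`, `Δ = {x_0 = x_1 = x_2}` the small diagonal. -/
def smallDiagT (hf : f.IsHomogeneous 5) (e : Fin 3 → ℤ) : GrMod f :=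
  quo f (smallGens f) (fun i => Or.inr ⟨i, rfl⟩) (smallGens_homog hf) e

/-- The sheaf of `M` is the restriction to `X × X × X` of a coherent sheaf on the product of two factors `X` and of one factor `ℙ⁴` (at the place `l`), on which the
equation `f (x_l)` of `X × X × X` is injective: `M ≅ N ⧸ f (x_l) N` for a finitely generated module `N` over `Pol K`, killed by the two other forms. (No grading of `N` is required.) All classes of sheaves pulled back from two of the three factors, tensored with line bundles `O(e)`, are of this kind. -/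
def Restricted (M : GrMod f) : Prop :=
  ∃ (l : Fin 3) (N : Type) (_ : AddCommGroup N) (_ : Module (Pol K) N), Module.Finite (Pol K) N ∧
    (∀ i, i ≠ l → ∀ n : N, form f i • n = 0) ∧ (∀ n : N, form f l • n = 0 → n = 0) ∧
    Nonempty (M.carrier ≃ₗ[Pol K] N ⧸ LinearMap.range (LinearMap.lsmul (Pol K) N (form f l)))

/-- The subspace of `K₀(X × X × X) ⊗ ℚ` spanned by the classes of the line bundles `O(e)`, of the sheaves `O_{Δ_ik}(e)`, `i ≠ k`, and of all sheaves restricted from
`X × X × ℙ⁴` (`Restricted`). -/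
def decSpan (hf : f.IsHomogeneous 5) : Submodule ℚ (K0 f) :=
  Submodule.span ℚ
    ({x | ∃ e : Fin 3 → ℤ, x = cls (line hf e)} ∪
      {x | ∃ (i k : Fin 3) (e : Fin 3 → ℤ), i ≠ k ∧ x = cls (pairDiag hf i k e)} ∪
      {x | ∃ M : GrMod f, Restricted M ∧ x = cls M})

end

end Pool.Agent.QV.Gr
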