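import Pool.Agent.Lib.MP_b53bfe_ag.Q.SpecQ
import Pool.Agent.Lib.MP_b53bfe_ag.Q.Bas

/-!
# The Q-function of one quintic over `ℂ` (`S_HQc`)
-/

set_option autoImplicit false

noncomputable section

namespace Pool.Agent.QV

open MvPolynomial
open Pool.Agent.FY (Res)

namespace HQc_aux

variable {K : Type} [Field K] (a : Par K)

theorem kw (hW : rho a (WW a) = fS a 0 + fS a 1 + fS a 2) (M : Type) [AddCommGroup M] [Module (PP K) M]
    (h : ∀ (i : Fin 3) (m : M), fS a i • m = 0) : KW (WW a) (Res (rho a).toRingHom M) := by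
  intro m
  have h1 : (rho a (WW a)) • (Res.val m : M) = 0 := by
    rw [hW, add_smul, add_smul, h, h, h, add_zero, add_zero]
  exact h1

theorem act (hW : rho a (WW a) = fS a 0 + fS a 1 + fS a 2) (N : Type) [AddCommGroup N] [Module (PP K) N] (l : Fin 3)
    (h : ∀ i, i ≠ l → ∀ m : N, fS a i • m = 0) (m : Res (rho a).toRingHom N) :
    WW a • m = FY.Res.mk (rho a).toRingHom (fS a l • (Res.val m : N)) := by
  have h1 : (rho a (WW a)) • (Res.val m : N) = fS a l • (Res.val m : N) := by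
    rw [hW, add_smul, add_smul]
    fin_cases l
    · rw [h 1 (by decide), h 2 (by decide), add_zero, add_zero]; rfl
    · rw [h 0 (by decide), h 2 (by decide), zero_add, add_zero]; rfl
    · rw [h 0 (by decide), h 1 (by decide), zero_add, zero_add]; rfl
  exact h1

theorem mem_qt {R : Type} [CommRing R] (r : R) (N : Type) [AddCommGroup N] [Module R N] (x : N) :
    x ∈ (Ideal.span {r} • (⊤ : Submodule R N)) ↔ ∃ y : N, r • y = x := by
  rw [Submodule.ideal_span_singleton_smul, Submodule.mem_smul_pointwise_iff_exists]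
  constructor
  · rintro ⟨y, -, h⟩
    exact ⟨y, h⟩
  · rintro ⟨y, h⟩
    exact ⟨y, trivial, h⟩

theorem small_eq (hform : Gr.form (fQ a) = fS a) :
    Gr.smallGens (fQ a) = {r | ∃ i k j j', r = mnr K i k j j'} ∪ Set.range (fS a) := by
  unfold Gr.smallGens
  rw [hform]
  rfl

theorem span_congr {E : Type} [AddCommGroup E] (χ : AF (PP K) (WW a) E) {A B : Set (PP K)} (h : A = B) :
    χ.f (Res (rho a).toRingHom (PP K ⧸ Ideal.span A)) =
      χ.f (Res (rho a).toRingHom (PP K ⧸ Ideal.span B)) := by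
  subst h
  rfl

theorem perf_aux (hW : rho a (WW a) = fS a 0 + fS a 1 + fS a 2) {E : Type} [AddCommGroup E] (χ : AF (PP K) (WW a) E)
    (hp : ∀ (N : Type) [AddCommGroup N] [Module (PP K) N], Module.Finite (PP K) N → Reg (WW a) N → χ.f (Qt (WW a) N) = 0)
    (l : Fin 3) (N : Type) [AddCommGroup N] [Module (PP K) N] (hN : Module.Finite (PP K) (Res (rho a).toRingHom N))
    (h' : ∀ i, i ≠ l → ∀ m : N, fS a i • m = 0) (hreg : Reg (fS a l) N) :
    χ.f (Res (rho a).toRingHom (Qt (fS a l) N)) = 0 := by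
  have hact := act a hW N l h'
  have h1 := hp (Res (rho a).toRingHom N) hN (fun m hm => by
    rw [hact] at hm
    exact hreg m hm)
  refine Eq.trans ?_ h1
  let φ : Res (rho a).toRingHom N →ₗ[PP K] Res (rho a).toRingHom (Qt (fS a l) N) :=
    FY.Res.map (rho a).toRingHom (Submodule.mkQ _)
  have hφ : Function.Surjective φ := by
    intro x
    obtain ⟨y, hy⟩ := Submodule.Quotient.mk_surjective _ (Res.val x : Qt (fS a l) N)
    exact ⟨FY.Res.mk _ y, hy⟩
  have hk : LinearMap.ker φ = Ideal.span {WW a} • (⊤ : Submodule (PP K) (Res (rho a).toRingHom N)) := by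
    ext m
    rw [LinearMap.mem_ker, mem_qt]
    have e1 : φ m = 0 ↔ (Res.val m : N) ∈ (Ideal.span {fS a l} • (⊤ : Submodule (PP K) N)) :=
      Submodule.Quotient.mk_eq_zero _
    rw [e1, mem_qt]
    constructor
    · rintro ⟨y, hy⟩
      refine ⟨FY.Res.mk _ y, ?_⟩
      rw [hact]
      exact hy
    · rintro ⟨y, hy⟩
      rw [hact] at hy
      exact ⟨Res.val y, hy⟩
  let e : Qt (WW a) (Res (rho a).toRingHom N) ≃ₗ[PP K] Res (rho a).toRingHom (Qt (fS a l) N) :=
    (Submodule.quotEquivOfEq _ _ hk.symm).trans (φ.quotKerEquivOfSurjective hφ)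
  have hf : Module.Finite (PP K) (Qt (WW a) (Res (rho a).toRingHom N)) := inferInstance
  have hw : KW (WW a) (Qt (WW a) (Res (rho a).toRingHom N)) := KW.qt
  exact (χ.iso e hf hw).symm

end HQc_aux

open HQc_aux

theorem tHQc : S_ParC → S_Mnp → S_fQh → S_Fin → S_HQc := by
  intro hPar hMn hfQ hFin
  obtain ⟨a, D, κ, 𝒪, hD, hκ, hA⟩ := hPar
  obtain ⟨E, i1, i2, χ, hp, hI, hS⟩ := hMn ℂ a D κ 𝒪 hD hκ hA
  obtain ⟨hom, hform⟩ := hfQ ℂ a
  obtain ⟨-, hW, hfin⟩ := hFin ℂ a hA.A0
  have hform' : Gr.form (fQ a) = fS a := funext hform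
  have ks : ∀ (M : Type) [AddCommGroup M] [Module (PP ℂ) M], KS (Set.range (Gr.form (fQ a))) M → ∀ (i : Fin 3) (m : M), fS a i • m = 0 := by
    intro M _ _ h i m
    rw [← hform]
    exact h _ ⟨i, rfl⟩ m
  refine ⟨fQ a, hom, ?_, E, i1, i2, ?_⟩
  · intro h0
    have h1 : eval (![0, 0, 0, 1, 0] : Fin 5 → ℂ) (fQ a) = 1 := by
      unfold fQ ff
      simp
    rw [h0, map_zero] at h1
    exact zero_ne_one h1
  · let χ' : AFS (Gr.Pol ℂ) (Set.range (Gr.form (fQ a))) E :=
      { f := fun M _ _ => χ.f (Res (rho a).toRingHom M)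
        add := by
          intro A B C _ _ _ _ _ _ i p hB hk hi hp hex
          exact χ.add (Res (rho a).toRingHom A) (Res (rho a).toRingHom B) (Res (rho a).toRingHom C)
            (FY.Res.map (rho a).toRingHom i) (FY.Res.map (rho a).toRingHom p) (hfin B hB) (kw a hW B (ks B hk)) hi hp hex }
    refine ⟨χ', ?_, ?_, ?_⟩
    · intro l N _ _ hN h hreg
      rw [hform] at hreg ⊢
      have h' : ∀ i, i ≠ l → ∀ m : N, fS a i • m = 0 := fun i hi m => by rw [← hform]; exact h i hi m
      exact perf_aux a hW χ hp l N (hfin N hN) h' hreg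
    · intro M _ _ hM hk hx
      exact hI M hM (ks M hk) hx
    · change χ.f (Res (rho a).toRingHom _) ≠ 0
      intro h0
      apply hS
      refine Eq.trans ?_ h0
      exact span_congr a χ (small_eq a hform').symm

end Pool.Agent.QV
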