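import Pool.Agent.Lib.MP_b53bfe_ag.Q.SpecL

/-!
# Module LFi: finiteness of the lines
-/

set_option autoImplicit false

noncomputable section

namespace Pool.Agent.QV

open Matrix
open MvPolynomial
open Pool.Agent.FY (Res)

namespace LFi_aux

variable {K : Type} [Field K]

theorem le_of (hBa : S_BaL) (hDv : S_DvL) (hFt : S_FtL) [Infinite K] {f : MvPolynomial (Fin 5) K}
    (hf : f.IsHomogeneous 5) (hT : TL f) {V : Submodule K (Fin 5 → K)} (hV : V ∈ Lines f) :
    JC f (Finset.range 6) ≤ IC V := by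
  obtain ⟨i, e, d, hb⟩ := hBa K V hV.1 (hT.no3 V hV)
  obtain ⟨φ, g, -, hsp, -, hfg⟩ := hDv K f V i e d hf hV.2 hb
  have hφ : ∀ k, φ k ∈ Ann V := by
    intro k
    have h1 : φ k ∈ (Submodule.span K (Set.range φ) : Set (Fin 5 → K)) :=
      Submodule.subset_span ⟨k, rfl⟩
    rw [hsp] at h1
    exact h1
  have h2 := ((hFt K f φ g hfg).2.2 V hφ).1
  refine Ideal.span_le.mpr ?_
  rintro y ⟨j, -, rfl⟩
  exact h2 j

theorem minimal (hSg : S_SgL) (hBa : S_BaL) (hRt : S_RtL) (hDv : S_DvL) (hFt : S_FtL) [Infinite K]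
    {f : MvPolynomial (Fin 5) K} (hf : f.IsHomogeneous 5) (hT : TL f)
    {V : Submodule K (Fin 5 → K)} (hV : V ∈ Lines f) :
    IC V ∈ (JC f (Finset.range 6)).minimalPrimes := by
  obtain ⟨i, e, d, hb⟩ := hBa K V hV.1 (hT.no3 V hV)
  obtain ⟨-, -, -, -, hP, -, -, -, hz, -, -, -⟩ := hRt K V i e d hb
  have he : e ∈ V := by rw [hb.sp]; exact Submodule.subset_span (Set.mem_insert _ _)
  have hd : d ∈ V := by
    rw [hb.sp]; exact Submodule.subset_span (Set.mem_insert_of_mem _ (Set.mem_singleton _))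
  have hd0 : d ≠ 0 := by
    intro h0
    have h1 := hb.di
    rw [h0, Pi.zero_apply] at h1
    exact zero_ne_one h1
  have he3 : e 3 ≠ 0 := by rw [hb.e3]; exact one_ne_zero
  refine ⟨⟨hP, le_of hBa hDv hFt hf hT hV⟩, ?_⟩
  rintro Q ⟨hQ, hJQ⟩ hQV y hy
  obtain ⟨σ, hσ, hσy⟩ := hSg K f hf hT V hV e d he hd he3 hb.d3 hd0
  rcases hQ.mem_or_mem (hJQ (hσy y hy)) with h | h
  · exact absurd (hz e d he hd hb.d3 σ (hQV h)) hσ
  · exact h

theorem le_of_eq' (hBa : S_BaL) (hRt : S_RtL) {f : MvPolynomial (Fin 5) K} (hT : TL f)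
    {V V' : Submodule K (Fin 5 → K)} (hV : V ∈ Lines f) (hV' : V' ∈ Lines f)
    (h : IC V = IC V') : V ≤ V' := by
  obtain ⟨i, e, d, hb⟩ := hBa K V hV.1 (hT.no3 V hV)
  obtain ⟨i', e', d', hb'⟩ := hBa K V' hV'.1 (hT.no3 V' hV')
  obtain ⟨-, -, -, -, -, -, -, -, hz, -, -, -⟩ := hRt K V i e d hb
  obtain ⟨-, -, -, -, -, -, -, -, -, hz', -, -⟩ := hRt K V' i' e' d' hb'
  have he : e ∈ V := by rw [hb.sp]; exact Submodule.subset_span (Set.mem_insert _ _)
  have hd : d ∈ V := by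
    rw [hb.sp]; exact Submodule.subset_span (Set.mem_insert_of_mem _ (Set.mem_singleton _))
  have h1 := hz' e d hb.d3 (fun y hy => hz e d he hd hb.d3 y (by rw [h]; exact hy))
  rw [hb.sp, Submodule.span_le]
  rintro x (rfl | hx)
  · exact h1.1
  · rw [Set.mem_singleton_iff.mp hx]
    exact h1.2

end LFi_aux

open LFi_aux in
theorem tLFi : S_SgL → S_BaL → S_RtL → S_DvL → S_FtL → S_LFi := by
  intro hSg hBa hRt hDv hFt K _ _ f hf hT
  have : Infinite K := inferInstance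
  refine Set.Finite.of_injOn (f := IC) (t := (JC f (Finset.range 6)).minimalPrimes) ?_ ?_ ?_
  · intro V hV
    exact minimal hSg hBa hRt hDv hFt hf hT hV
  · intro V hV V' hV' h
    exact le_antisymm (le_of_eq' hBa hRt hT hV hV' h) (le_of_eq' hBa hRt hT hV' hV h.symm)
  · exact Ideal.finite_minimalPrimes_of_isNoetherianRing _ _

end Pool.Agent.QV
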