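import Pool.Agent.Lib.MP_b53bfe_ag.Q.RtL
import Pool.Agent.Lib.MP_b53bfe_ag.Q.GpM
import Pool.Agent.Lib.MP_b53bfe_ag.Q.LDv

/-!
# LSmB: the cokernel half of the decomposition into the lines (helper10)
-/

set_option autoImplicit false

noncomputable section

namespace Pool.Agent.QV

open Matrix MvPolynomial
open Pool.Agent.FY (Res)

namespace LSmB_aux

variable {K : Type} [Field K]

theorem homIC (V : Submodule K (Fin 5 → K)) : HomI wC (IC V) := by
  unfold IC
  refine tGpM.2.2.1 VC K wC _ ?_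
  rintro y (⟨φ, hφ, rfl⟩ | ⟨φ, hφ, rfl⟩)
  · exact ⟨0, RtL_aux.hom_x φ⟩
  · exact ⟨1, RtL_aux.hom_u φ⟩

theorem hw1 (i : Fin 4) : IsWeightedHomogeneous wC (xC K 3 * X (Sum.inr i) : CC K) 1 := by
  have h1 := (isWeightedHomogeneous_X K wC (Sum.inl 3 : VC)).mul
    (isWeightedHomogeneous_X K wC (Sum.inr i : VC))
  exact h1

theorem hwN (i : Fin 4) (N : ℕ) :
    IsWeightedHomogeneous wC ((xC K 3 * X (Sum.inr i) : CC K) ^ N) (N : ℤ) := by
  have h1 := (hw1 (K := K) i).pow N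
  simpa using h1

/-- for two ideals with `z` in the sum: an element of all `J v` congruent to `z ^ N` -/
theorem exE {R ι : Type} [CommRing R] [DecidableEq ι] (I : Ideal R) (J : ι → Ideal R) (z : R) (s : Finset ι)
    (h : ∀ v ∈ s, z ∈ I ⊔ J v) : ∃ E : R, (∀ v ∈ s, E ∈ J v) ∧ E - z ^ s.card ∈ I := by
  induction s using Finset.induction_on with
  | empty => exact ⟨1, by simp, by simp⟩
  | insert a s ha ih =>
    obtain ⟨E, h1, h2⟩ := ih (fun v hv => h v (Finset.mem_insert_of_mem hv))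
    obtain ⟨x, hx, y, hy, hxy⟩ := Submodule.mem_sup.mp (h a (Finset.mem_insert_self _ _))
    refine ⟨E * y, ?_, ?_⟩
    · intro v hv
      rcases Finset.mem_insert.mp hv with rfl | hv
      · exact Ideal.mul_mem_left _ _ hy
      · exact Ideal.mul_mem_right _ _ (h1 v hv)
    · rw [Finset.card_insert_of_notMem ha, pow_succ]
      have e : E * y - z ^ s.card * z = (E - z ^ s.card) * y - z ^ s.card * x := by
        rw [← hxy]; ring
      rw [e]
      exact I.sub_mem (Ideal.mul_mem_right _ _ h2) (Ideal.mul_mem_left _ _ hx)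

theorem exEw (V : Submodule K (Fin 5 → K)) (L : Finset (Submodule K (Fin 5 → K))) (i : Fin 4)
    (h : ∀ V' ∈ L, xC K 3 * X (Sum.inr i) ∈ IC V ⊔ IC V') :
    ∃ E : CC K, IsWeightedHomogeneous wC E (L.card : ℤ) ∧ (∀ V' ∈ L, E ∈ IC V') ∧
      E - (xC K 3 * X (Sum.inr i)) ^ L.card ∈ IC V := by
  classical
  obtain ⟨E, h1, h2⟩ := exE (IC V) (fun V' => IC V') (xC K 3 * X (Sum.inr i) : CC K) L h
  refine ⟨weightedHomogeneousComponent wC (L.card : ℤ) E, weightedHomogeneousComponent_isWeightedHomogeneous _ _, ?_, ?_⟩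
  · intro V' hV'
    exact homIC V' _ (h1 V' hV') _
  · have h3 := homIC V _ h2 (L.card : ℤ)
    rw [map_sub, (hwN (K := K) i L.card).weightedHomogeneousComponent_same] at h3
    exact h3

theorem weight_wB (d : VB →₀ ℕ) :
    Finsupp.weight wB d = (∑ i : Fin 4, (d (Sum.inl (Sum.inr i)) : ℤ)) - (d (Sum.inr 2) : ℤ) - (d (Sum.inr 3) : ℤ) := by
  rw [Finsupp.weight_apply, Finsupp.sum_fintype _ _ (fun i => by simp), Fintype.sum_sum_type,
    Fintype.sum_sum_type]
  simp [wB, Fin.sum_univ_four]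
  ring

theorem step (V : Submodule K (Fin 5 → K)) (L : Finset (Submodule K (Fin 5 → K))) (N : ℕ) (E : Fin 4 → CC K)
    (hE : ∀ i, IsWeightedHomogeneous wC (E i) (N : ℤ)) (hE1 : ∀ i, ∀ V' ∈ L, E i ∈ IC V')
    (hE2 : ∀ i, E i - (xC K 3 * X (Sum.inr i)) ^ N ∈ IC V) (m : ℤ) (hm : 4 * (N : ℤ) ≤ m)
    (d : VB →₀ ℕ) (c : K) (hd : Finsupp.weight wB d = m) :
    ∃ x : BC K, IsWeightedHomogeneous wB x m ∧ (∀ V' ∈ L, x ∈ IB V') ∧
      x - iC (xC K 3) ^ N * monomial d c ∈ IB V := by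
  classical
  have h1 : ∃ i : Fin 4, N ≤ d (Sum.inl (Sum.inr i)) := by
    by_contra hcon
    push Not at hcon
    have h2 := weight_wB d
    rw [Fin.sum_univ_four] at h2
    have h3 := hcon 0
    have h4 := hcon 1
    have h5 := hcon 2
    have h6 := hcon 3
    omega
  obtain ⟨i, hi⟩ := h1
  have hle : Finsupp.single (Sum.inl (Sum.inr i) : VB) N ≤ d := Finsupp.single_le_iff.mpr hi
  obtain ⟨d', hd'⟩ : ∃ d', d = d' + Finsupp.single (Sum.inl (Sum.inr i) : VB) N :=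
    ⟨d - Finsupp.single (Sum.inl (Sum.inr i) : VB) N, (tsub_add_cancel_of_le hle).symm⟩
  have hw' : Finsupp.weight wB d' = m - N := by
    have h7 : Finsupp.weight wB (Finsupp.single (Sum.inl (Sum.inr i) : VB) N) = (N : ℤ) := by
      rw [Finsupp.weight_single]
      simp [wB]
    rw [hd', map_add, h7] at hd
    linarith
  refine ⟨iC (E i) * monomial d' c, ?_, ?_, ?_⟩
  · have h8 := (RtL_aux.hom_iC (hE i)).mul (isWeightedHomogeneous_monomial wB d' c hw')
    rwa [add_sub_cancel] at h8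
  · intro V' hV'
    exact Ideal.mul_mem_right _ _ (Ideal.mem_map_of_mem _ (hE1 i V' hV'))
  · have h9 : iC (E i) * monomial d' c - iC (xC K 3) ^ N * monomial d c =
        iC (E i - (xC K 3 * X (Sum.inr i)) ^ N) * monomial d' c := by
      rw [hd', monomial_add_single, map_sub, map_pow, map_mul, RtL_aux.iC_X]
      ring
    rw [h9]
    exact Ideal.mul_mem_right _ _ (Ideal.mem_map_of_mem _ (hE2 i))

theorem all (V : Submodule K (Fin 5 → K)) (L : Finset (Submodule K (Fin 5 → K))) (N : ℕ) (E : Fin 4 → CC K)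
    (hE : ∀ i, IsWeightedHomogeneous wC (E i) (N : ℤ)) (hE1 : ∀ i, ∀ V' ∈ L, E i ∈ IC V')
    (hE2 : ∀ i, E i - (xC K 3 * X (Sum.inr i)) ^ N ∈ IC V) (m : ℤ) (hm : 4 * (N : ℤ) ≤ m)
    (y : BC K) (hy : IsWeightedHomogeneous wB y m) :
    ∃ x : BC K, IsWeightedHomogeneous wB x m ∧ (∀ V' ∈ L, x ∈ IB V') ∧
      x - iC (xC K 3) ^ N * y ∈ IB V := by
  classical
  let T : AddSubmonoid (BC K) :=
    { carrier := {y | ∃ x : BC K, IsWeightedHomogeneous wB x m ∧ (∀ V' ∈ L, x ∈ IB V') ∧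
        x - iC (xC K 3) ^ N * y ∈ IB V}
      zero_mem' := ⟨0, isWeightedHomogeneous_zero K wB m, fun V' _ => Ideal.zero_mem _, by simp⟩
      add_mem' := by
        rintro a b ⟨x, h1, h2, h3⟩ ⟨x', h1', h2', h3'⟩
        refine ⟨x + x', h1.add h1', fun V' hV' => Ideal.add_mem _ (h2 V' hV') (h2' V' hV'), ?_⟩
        have e : x + x' - iC (xC K 3) ^ N * (a + b) = (x - iC (xC K 3) ^ N * a) + (x' - iC (xC K 3) ^ N * b) := by
          ring
        rw [e]
        exact Ideal.add_mem _ h3 h3' }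
  have hT : y ∈ T := by
    rw [y.as_sum]
    refine AddSubmonoid.sum_mem T fun d hd => ?_
    exact step V L N E hE hE1 hE2 m hm d _ (hy (mem_support_iff.1 hd))
  exact hT

end LSmB_aux

theorem lsmB (K : Type) [Field K] (L : Finset (Submodule K (Fin 5 → K))) (hL : ∀ V ∈ L, Module.finrank K V = 2) :
    ∃ M : ℤ, ∀ m : ℤ, M ≤ m → ∀ V ∈ L, ∀ y : BC K, IsWeightedHomogeneous wB y m →
      ∃ (k : ℕ) (x : BC K), IsWeightedHomogeneous wB x m ∧ (∀ V' ∈ L, V' ≠ V → x ∈ IB V') ∧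
        x - iC (xC K 3) ^ k * y ∈ IB V := by
  classical
  refine ⟨4 * (L.card : ℤ), fun m hm V hV y hy => ?_⟩
  have h1 : ∀ i : Fin 4, ∃ E : CC K, IsWeightedHomogeneous wC E ((L.erase V).card : ℤ) ∧
      (∀ V' ∈ L.erase V, E ∈ IC V') ∧ E - (xC K 3 * X (Sum.inr i)) ^ (L.erase V).card ∈ IC V := by
    intro i
    refine LSmB_aux.exEw V (L.erase V) i ?_
    intro V' hV'
    have hne := Finset.ne_of_mem_erase hV'
    exact tLDv K V V' (hL V hV) (hL V' (Finset.mem_of_mem_erase hV')) (Ne.symm hne) i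
  choose E hE hE1 hE2 using h1
  have hc : (L.erase V).card ≤ L.card := Finset.card_le_card (Finset.erase_subset _ _)
  obtain ⟨x, hx1, hx2, hx3⟩ := LSmB_aux.all V (L.erase V) (L.erase V).card E hE hE1 hE2 m
    (by have : ((L.erase V).card : ℤ) ≤ (L.card : ℤ) := by exact_mod_cast hc
        linarith) y hy
  exact ⟨_, x, hx1, fun V' hV' hne => hx2 V' (Finset.mem_erase.mpr ⟨hne, hV'⟩), hx3⟩

end Pool.Agent.QV
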