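import Pool.Agent.Lib.MP_b53bfe_ag.Q.Rg4
import Pool.Agent.Lib.MP_b53bfe_ag.Q.LFi
import Pool.Agent.Lib.MP_b53bfe_ag.Q.ExtV
import Pool.Agent.Lib.MP_b53bfe_ag.Q.LSmB

/-!
# LSmA: the kernel half of the decomposition into the lines (helper10)
-/

set_option autoImplicit false

noncomputable section

namespace Pool.Agent.QV

open Matrix MvPolynomial
open Pool.Agent.FY (Res)

open Rg4_aux in
theorem lsmA (hBa : S_BaL) (hDv : S_DvL) (hFt : S_FtL) (hLN : S_LNs) (hExt : S_ExtV) (hLgd : S_Lgd) (hFnV : S_FnV)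
    (K : Type) [Field K] [IsAlgClosed K] (f : MvPolynomial (Fin 5) K) (hf : f.IsHomogeneous 5) (hT : TL f) :
    ∃ M : ℤ, ∀ m : ℤ, M ≤ m → ∀ x : BC K, IsWeightedHomogeneous wB x m → (∀ V ∈ Lines f, x ∈ IB V) →
      ∃ k : ℕ, hV K (thV K) ^ k * x ∈ JB f (Finset.range 6) := by
  have hInf : Infinite K := IsAlgClosed.instInfinite
  obtain ⟨-, -, ⟨-, -, -, hJC⟩, -⟩ := hFnV K f hf
  let L : Ideal (CC K) := ⨅ V ∈ Lines f, IC V
  have hL : ∀ y, y ∈ L ↔ ∀ V ∈ Lines f, y ∈ IC V := by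
    intro y
    simp only [L, Submodule.mem_iInf]
  obtain ⟨M, k, hM⟩ := hLgd K (JC f (Finset.range 6)) L (hJC _) (by
      intro y hy j
      rw [hL] at hy ⊢
      exact fun V hV => LSmB_aux.homIC V _ (hy V hV) j)
    (fun y hy => (hL y).2 fun V hV => LFi_aux.le_of hBa hDv hFt hf hT hV hy)
    (fun i y hy => hLN K f hf hT i y ((hL y).1 hy))
  refine ⟨M, fun m hm x hx hxV => ?_⟩
  have hco : ∀ d : Fin 4 →₀ ℕ, coeff d (Ps x) ∈ L := by
    intro d
    rw [hL]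
    intro V hV
    exact ((hExt K (IC V)).2.1 x).1 (hxV V hV) d
  have hwt : Wt (Ps x) m := Wt_hom hx
  have hk : iC (xC K 3) ^ k * x ∈ JB f (Finset.range 6) := by
    rw [(hExt K (JC f (Finset.range 6))).2.2 f (Finset.range 6)]
    refine ((hExt K (JC f (Finset.range 6))).2.1 _).2 fun d => ?_
    have h3 : coeff d (Ps (iC (xC K 3) ^ k * x)) = xC K 3 ^ k * coeff d (Ps x) := by
      rw [← map_pow, Ps_mul, Ps_iC, coeff_C_mul]
    have h4 := hM (m + (d 2 : ℤ) + (d 3 : ℤ)) (by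
      have := Int.natCast_nonneg (d 2)
      have := Int.natCast_nonneg (d 3)
      linarith) _ (hco d) (hwt d)
    rw [← h3] at h4
    exact h4
  obtain ⟨c, hc⟩ := ExtV_aux.hth (K := K)
  refine ⟨k, ?_⟩
  have e : hV K (thV K) ^ k * x = c ^ k * (iC (xC K 3) ^ k * x) := by
    rw [hc, mul_pow]
    ring
  rw [e]
  exact Ideal.mul_mem_left _ _ hk

end Pool.Agent.QV
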