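import Pool.Agent.Lib.MP_b53bfe_ag.Q.SpecE
import Pool.Agent.Lib.MP_b53bfe_ag.Q.Bas

/-!
# Line bundles and pair diagonals (helper58)
-/

set_option autoImplicit false

noncomputable section

namespace Pool.Agent.QV

open Matrix
open MvPolynomial
open Pool.Agent.FY (Res)

namespace Lin_aux

section

variable {P B : Type} [CommRing P] [CommRing B] (h : P →+* B)

/-- the class of `b` -/
def mq (J : Ideal B) (b : B) : Res h (B ⧸ J) := Res.mk h (Ideal.Quotient.mk J b)

variable {h}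

theorem mq_surj (J : Ideal B) (x : Res h (B ⧸ J)) : ∃ b, mq h J b = x :=
  Ideal.Quotient.mk_surjective (I := J) x

theorem mq_smul (J : Ideal B) (r : P) (b : B) : r • mq h J b = mq h J (h r * b) := rfl

theorem mq_zero (J : Ideal B) (b : B) : mq h J b = 0 ↔ b ∈ J := Ideal.Quotient.eq_zero_iff_mem (I := J)

theorem mq_eq (J : Ideal B) (b c : B) : mq h J b = mq h J c ↔ b - c ∈ J := Ideal.Quotient.eq (I := J)

/-- the projection -/
def pj (J J' : Ideal B) (hJ : J ≤ J') : Res h (B ⧸ J) →ₗ[P] Res h (B ⧸ J') where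
  toFun x := Ideal.Quotient.factor hJ x
  map_add' x y := map_add (Ideal.Quotient.factor hJ) x y
  map_smul' r x := by
    obtain ⟨b, rfl⟩ := mq_surj J x
    rfl

theorem pj_mq (J J' : Ideal B) (hJ : J ≤ J') (b : B) : pj (h := h) J J' hJ (mq h J b) = mq h J' b := rfl

theorem pj_surj (J J' : Ideal B) (hJ : J ≤ J') : Function.Surjective (pj (h := h) J J' hJ) := by
  intro x
  obtain ⟨b, rfl⟩ := mq_surj _ x
  exact ⟨mq h J b, rfl⟩

theorem mem_sup (J : Ideal B) (ξ b : B) : b ∈ J ⊔ Ideal.span {ξ} ↔ ∃ c, b - ξ * c ∈ J := by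
  rw [Submodule.mem_sup]
  constructor
  · rintro ⟨y, hy, z, hz, rfl⟩
    obtain ⟨c, rfl⟩ := Ideal.mem_span_singleton'.1 hz
    exact ⟨c, by rw [mul_comm ξ c, add_sub_cancel_right]; exact hy⟩
  · rintro ⟨c, hc⟩
    exact ⟨b - ξ * c, hc, ξ * c, Ideal.mem_span_singleton'.2 ⟨c, mul_comm _ _⟩, by ring⟩

theorem reg {J : Ideal B} {W : P} {g : B} (hg : h W - g ∈ J) (hr : RegI g J) : Reg W (Res h (B ⧸ J)) := by
  intro x hx
  obtain ⟨b, rfl⟩ := mq_surj J x
  rw [mq_smul, mq_zero] at hx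
  rw [mq_zero]
  refine hr b ?_
  have e : g * b = h W * b - (h W - g) * b := by ring
  rw [e]
  exact Ideal.sub_mem _ hx (Ideal.mul_mem_right _ _ hg)

/-- `N / W N` -/
def qe {J : Ideal B} {W : P} {g : B} (hg : h W - g ∈ J) :
    Qt W (Res h (B ⧸ J)) ≃ₗ[P] Res h (B ⧸ (J ⊔ Ideal.span {g})) := by
  have hker : LinearMap.ker (pj (h := h) J (J ⊔ Ideal.span {g}) le_sup_left) =
      Ideal.span {W} • (⊤ : Submodule P (Res h (B ⧸ J))) := by
    ext x
    obtain ⟨b, rfl⟩ := mq_surj J x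
    rw [Submodule.ideal_span_singleton_smul, LinearMap.mem_ker, pj_mq, mq_zero, mem_sup,
      Submodule.mem_smul_pointwise_iff_exists]
    constructor
    · rintro ⟨c, hc⟩
      refine ⟨mq h J c, trivial, ?_⟩
      rw [mq_smul, mq_eq]
      have e : h W * c - b = (h W - g) * c - (b - g * c) := by ring
      rw [e]
      exact Ideal.sub_mem _ (Ideal.mul_mem_right _ _ hg) hc
    · rintro ⟨y, _, hy⟩
      obtain ⟨c, rfl⟩ := mq_surj J y
      rw [mq_smul, mq_eq] at hy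
      refine ⟨c, ?_⟩
      have e : b - g * c = (h W - g) * c - (h W * c - b) := by ring
      rw [e]
      exact Ideal.sub_mem _ (Ideal.mul_mem_right _ _ hg) hy
  exact (Submodule.quotEquivOfEq _ _ hker.symm).trans
    ((pj (h := h) J (J ⊔ Ideal.span {g}) le_sup_left).quotKerEquivOfSurjective (pj_surj _ _ _))

end

section

variable {K : Type} [Field K] (a : Par K) {B B' : Type} [CommRing B] [Algebra K B] [CommRing B'] [Algebra K B'] (φ : B →ₐ[K] B')

theorem map_Rf (p x y q : B) : φ (Rf a p x y q) = Rf a (φ p) (φ x) (φ y) (φ q) := by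
  simp [Rf, Rj, Fin.sum_univ_five]

theorem map_ff (p x y z q : B) : φ (ff a p x y z q) = ff a (φ p) (φ x) (φ y) (φ z) (φ q) := by
  have h5 : φ 5 = 5 := map_ofNat φ 5
  simp only [ff, uf, map_Rf, map_add, map_sub, map_mul, map_pow, AlgHom.commutes, h5]

end

section

variable {K : Type} [Field K] (a : Par K)

/-- the inclusion of the polynomials without `X (l, 3)` -/
def io (K : Type) [Field K] (l : Fin 3) : MvPolynomial {u : Fin 3 × Fin 5 // u ≠ (l, 3)} K →ₐ[K] PP K := rename Subtype.val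

theorem mem_X (l : Fin 3) (v : Fin 3 × Fin 5) (hv : v ≠ (l, 3)) : (X v : PP K) ∈ (io K l).range :=
  ⟨X ⟨v, hv⟩, by simp [io]⟩

theorem mem_fS (l i : Fin 3) (hi : i ≠ l) : fS a i ∈ (io K l).range := by
  have hv : ∀ j : Fin 5, ((i, j) : Fin 3 × Fin 5) ≠ (l, 3) := fun j e => hi (congrArg Prod.fst e)
  refine ⟨ff a (X ⟨(i, 0), hv 0⟩) (X ⟨(i, 1), hv 1⟩) (X ⟨(i, 2), hv 2⟩) (X ⟨(i, 3), hv 3⟩) (X ⟨(i, 4), hv 4⟩), ?_⟩
  show io K l _ = _
  rw [map_ff]
  simp [io, fS]

theorem mem_mnr (l i k : Fin 3) (hi : i ≠ l) (hk : k ≠ l) (j j' : Fin 5) : mnr K i k j j' ∈ (io K l).range := by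
  have hv : ∀ j : Fin 5, ((i, j) : Fin 3 × Fin 5) ≠ (l, 3) := fun j e => hi (congrArg Prod.fst e)
  have hw : ∀ j : Fin 5, ((k, j) : Fin 3 × Fin 5) ≠ (l, 3) := fun j e => hk (congrArg Prod.fst e)
  exact sub_mem (mul_mem (mem_X l _ (hv _)) (mem_X l _ (hw _))) (mul_mem (mem_X l _ (hv _)) (mem_X l _ (hw _)))

theorem fS_eq (l : Fin 3) : ∃ g₀ : MvPolynomial {u : Fin 3 × Fin 5 // u ≠ (l, 3)} K, fS a l = X (l, 3) ^ 5 + io K l g₀ := by
  have hv : ∀ j : Fin 5, j ≠ 3 → ((l, j) : Fin 3 × Fin 5) ≠ (l, 3) := fun j hj e => hj (congrArg Prod.snd e)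
  refine ⟨ff a (X ⟨(l, 0), hv 0 (by decide)⟩) (X ⟨(l, 1), hv 1 (by decide)⟩) (X ⟨(l, 2), hv 2 (by decide)⟩) 0
    (X ⟨(l, 4), hv 4 (by decide)⟩), ?_⟩
  rw [map_ff]
  simp only [io, rename_X, map_zero, fS, ff]
  ring

theorem regS (hMon : S_Mon) (l : Fin 3) (S : Set (PP K)) (hS : ∀ s ∈ S, s ∈ (io K l).range) : RegI (fS a l) (Ideal.span S) := by
  obtain ⟨g₀, hg⟩ := fS_eq a l
  have h1 : S = io K l '' (io K l ⁻¹' S) := by
    rw [Set.image_preimage_eq_of_subset]
    intro s hs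
    obtain ⟨y, hy⟩ := hS s hs
    exact ⟨y, hy⟩
  have h2 : Ideal.span S = (Ideal.span (io K l ⁻¹' S)).map (io K l) := by
    rw [Ideal.map_span]
    exact congrArg Ideal.span h1
  rw [hg, h2]
  exact hMon K (Fin 3 × Fin 5) (l, 3) (Ideal.span (io K l ⁻¹' S)) g₀ 5 (by norm_num)

theorem sum3 {M : Type} [AddCommGroup M] (f : Fin 3 → M) (i k l : Fin 3) (hik : i ≠ k) (hil : i ≠ l) (hkl : k ≠ l) :
    f 0 + f 1 + f 2 = f i + f k + f l := by
  fin_cases i <;> fin_cases k <;> fin_cases l <;> simp at hik hil hkl ⊢ <;> abel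

theorem third (i k : Fin 3) (hik : i ≠ k) : ∃ l : Fin 3, i ≠ l ∧ k ≠ l ∧ ∀ j, j = i ∨ j = k ∨ j = l := by
  revert hik
  revert i k
  decide

theorem main (hFin : S_Fin) (hMon : S_Mon) {V : Type} [AddCommGroup V] (χ : AF (PP K) (WW a) V) (hA : a.A ≠ 0)
    (hχ : ∀ (N : Type) [AddCommGroup N] [Module (PP K) N], Module.Finite (PP K) N → Reg (WW a) N → χ.f (Qt (WW a) N) = 0)
    (i k l : Fin 3) (hik : i ≠ k) (hil : i ≠ l) (hkl : k ≠ l) (S : Set (PP K)) (hS : ∀ s ∈ S, s ∈ (io K l).range)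
    (hi : fS a i ∈ Ideal.span S) (hk : fS a k ∈ Ideal.span S) (J : Ideal (PP K)) (hJ : J = Ideal.span S ⊔ Ideal.span {fS a l}) :
    χ.f (Res (rho a).toRingHom (PP K ⧸ J)) = 0 := by
  obtain ⟨-, hW, hF⟩ := hFin K a hA
  have h1 : (rho a).toRingHom (WW a) - fS a l ∈ Ideal.span S := by
    have e : (rho a).toRingHom (WW a) - fS a l = fS a i + fS a k := by
      have : (rho a).toRingHom (WW a) = fS a i + fS a k + fS a l := by
        rw [← sum3 (fS a) i k l hik hil hkl]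
        exact hW
      rw [this]
      ring
    rw [e]
    exact Ideal.add_mem _ hi hk
  have h2 : Reg (WW a) (Res (rho a).toRingHom (PP K ⧸ Ideal.span S)) := reg h1 (regS a hMon l S hS)
  have h3 : Module.Finite (PP K) (Res (rho a).toRingHom (PP K ⧸ Ideal.span S)) := hF _ inferInstance
  have h4 : Module.Finite (PP K) (Res (rho a).toRingHom (PP K ⧸ J)) := hF _ inferInstance
  subst hJ
  have h5 := hχ _ h3 h2
  rw [← h5]
  exact (χ.iso (qe h1) (Module.Finite.equiv (qe h1).symm) KW.qt).symm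

end

end Lin_aux

open Lin_aux

theorem tLin : S_Fin → S_Mon → S_Lin := by
  intro hFin hMon K _ a V _ χ hA hχ
  constructor
  · refine main a hFin hMon χ hA hχ 1 2 0 (by decide) (by decide) (by decide) {fS a 1, fS a 2} ?_ ?_ ?_ _ ?_
    · rintro s (rfl | rfl)
      · exact mem_fS a 0 1 (by decide)
      · exact mem_fS a 0 2 (by decide)
    · exact Ideal.subset_span (Or.inl rfl)
    · exact Ideal.subset_span (Or.inr rfl)
    · unfold lnI
      rw [← Ideal.span_union]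
      congr 1
      ext s
      simp only [Set.mem_range, Set.mem_union, Set.mem_insert_iff, Set.mem_singleton_iff]
      constructor
      · rintro ⟨j, rfl⟩
        fin_cases j <;> simp
      · rintro ((rfl | rfl) | rfl)
        exacts [⟨1, rfl⟩, ⟨2, rfl⟩, ⟨0, rfl⟩]
  · intro i k hik
    obtain ⟨l, hil, hkl, hl⟩ := third i k hik
    refine main a hFin hMon χ hA hχ i k l hik hil hkl ({r | ∃ j j', r = mnr K i k j j'} ∪ {fS a i, fS a k}) ?_ ?_ ?_ _ ?_
    · rintro s (⟨j, j', rfl⟩ | rfl | rfl)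
      · exact mem_mnr l i k hil hkl j j'
      · exact mem_fS a l i hil
      · exact mem_fS a l k hkl
    · exact Ideal.subset_span (Or.inr (Or.inl rfl))
    · exact Ideal.subset_span (Or.inr (Or.inr rfl))
    · unfold prI
      rw [← Ideal.span_union]
      congr 1
      ext s
      simp only [Set.mem_range, Set.mem_union, Set.mem_insert_iff, Set.mem_singleton_iff]
      constructor
      · rintro (h | ⟨j, rfl⟩)
        · exact Or.inl (Or.inl h)
        · rcases hl j with rfl | rfl | rfl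
          · exact Or.inl (Or.inr (Or.inl rfl))
          · exact Or.inl (Or.inr (Or.inr rfl))
          · exact Or.inr rfl
      · rintro ((h | rfl | rfl) | rfl)
        exacts [Or.inl h, Or.inr ⟨_, rfl⟩, Or.inr ⟨_, rfl⟩, Or.inr ⟨_, rfl⟩]

end Pool.Agent.QV
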