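import Pool.Agent.Lib.MP_b53bfe_ag.Q.SpecB

/-!
# The regularity conditions and localization (`S_LocG`)
-/

set_option autoImplicit false

noncomputable section

namespace Pool.Agent.QV

open Matrix

namespace LocG_aux

theorem idl_map {P L : Type} [CommRing P] [CommRing L] (g : P →+* L) (ps : List (P × P)) :
    idl (ps.map fun q => (g q.1, g q.2)) = (idl ps).map g := by
  unfold idl
  rw [Ideal.map_span]
  congr 1
  ext x
  constructor
  · rintro ⟨q, hq, rfl⟩
    obtain ⟨r, hr, rfl⟩ := List.mem_map.1 hq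
    exact ⟨r.1, ⟨r, hr, rfl⟩, rfl⟩
  · rintro ⟨y, ⟨q, hq, rfl⟩, rfl⟩
    exact ⟨(g q.1, g q.2), List.mem_map.2 ⟨q, hq, rfl⟩, rfl⟩

theorem regI_map {P L : Type} [CommRing P] [CommRing L] [Algebra P L] (S : Submonoid P) [IsLocalization S L]
    (a : P) (I : Ideal P) (h : RegI a I) : RegI (algebraMap P L a) (I.map (algebraMap P L)) := by
  intro z hz
  obtain ⟨⟨x, s⟩, hx⟩ := IsLocalization.surj S z
  obtain ⟨⟨i, t⟩, hi⟩ := (IsLocalization.mem_map_algebraMap_iff S L).1 hz
  simp only at hx hi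
  have e : algebraMap P L (a * x * (t : P)) = algebraMap P L ((i : P) * (s : P)) := by
    rw [map_mul, map_mul, map_mul, ← hx, ← hi]
    ring
  obtain ⟨u, hu⟩ := IsLocalization.exists_of_eq (M := S) e
  have hm : a * (x * (t : P) * (u : P)) ∈ I := by
    have e2 : a * (x * (t : P) * (u : P)) = (u : P) * ((i : P) * (s : P)) := by
      rw [← hu]
      ring
    rw [e2]
    exact Ideal.mul_mem_left _ _ (Ideal.mul_mem_right _ _ i.2)
  have hm2 := h _ hm
  refine (IsLocalization.mem_map_algebraMap_iff S L).2 ⟨(⟨_, hm2⟩, s * t * u), ?_⟩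
  simp only [Submonoid.coe_mul, map_mul]
  rw [← hx]
  ring

theorem good_map {P L : Type} [CommRing P] [CommRing L] [Algebra P L] (S : Submonoid P) [IsLocalization S L]
    (ps : List (P × P)) : ∀ W₀ : P, Good W₀ ps →
      Good (algebraMap P L W₀) (ps.map fun q => (algebraMap P L q.1, algebraMap P L q.2)) := by
  induction ps with
  | nil => intro W₀ _; exact trivial
  | cons q ps ih =>
    obtain ⟨a, b⟩ := q
    intro W₀ h
    obtain ⟨h1, h2, h3, h4⟩ := h
    have k1 := regI_map (L := L) S a _ h1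
    have k2 := regI_map (L := L) S W₀ _ h2
    have k3 := regI_map (L := L) S (W₀ + a * b) _ h3
    have k4 := ih _ h4
    rw [← idl_map] at k1 k2 k3
    rw [map_add, map_mul] at k3 k4
    exact ⟨k1, k2, k3, k4⟩

end LocG_aux

theorem tLocG : S_LocG := by
  intro P L _ _ _ S _
  exact ⟨fun ps => LocG_aux.idl_map (algebraMap P L) ps, fun ps W₀ h => LocG_aux.good_map S ps W₀ h⟩

end Pool.Agent.QV

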