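import Pool.Agent.Lib.MP_b53bfe_ag.Q.SpecV
import Pool.Agent.Lib.MP_b53bfe_ag.Q.Bas

/-!
# LtV: extension of an additive function (modules killed by a set) to the locally finite modules
-/

set_option autoImplicit false

noncomputable section

namespace Pool.Agent.QV

open Matrix MvPolynomial
open Pool.Agent.FY (Res)

namespace LtV_aux

section KS

variable {R : Type} [CommRing R] {S : Set R} {M N : Type} [AddCommGroup M] [Module R M] [AddCommGroup N] [Module R N]

theorem of_inj (h : KS S N) (i : M →ₗ[R] N) (hi : Function.Injective i) : KS S M := fun s hs m =>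
  hi (by rw [map_smul, h s hs, map_zero])

theorem of_surj (h : KS S M) (p : M →ₗ[R] N) (hp : Function.Surjective p) : KS S N := fun s hs m => by
  obtain ⟨x, rfl⟩ := hp m
  rw [← map_smul, h s hs, map_zero]

theorem of_subsing (h : Subsingleton M) : KS S M := fun _ _ _ => Subsingleton.elim _ _

end KS

section AFS

variable {R : Type} [CommRing R] {S : Set R} {V : Type} [AddCommGroup V] (χ : AFS R S V)

theorem punit : χ.f PUnit = 0 := by
  have h := χ.add PUnit PUnit PUnit (LinearMap.id) (LinearMap.id) inferInstance (of_subsing inferInstance)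
    (fun a b _ => rfl) (fun a => ⟨a, rfl⟩) (fun a => ⟨fun _ => ⟨a, rfl⟩, fun _ => rfl⟩)
  simpa using h

theorem iso {M N : Type} [AddCommGroup M] [Module R M] [AddCommGroup N] [Module R N] (e : M ≃ₗ[R] N)
    (hM : Module.Finite R M) (hk : KS S M) : χ.f M = χ.f N := by
  have h := χ.add M N PUnit e.toLinearMap 0 (Module.Finite.equiv e)
    (of_surj hk e.toLinearMap e.surjective)
    e.injective (fun a => ⟨0, rfl⟩) (fun a => ⟨fun _ => ⟨e.symm a, by simp⟩, fun _ => rfl⟩)
  rw [h, punit χ, add_zero]

theorem subsing {M : Type} [AddCommGroup M] [Module R M] (h : Subsingleton M) : χ.f M = 0 := by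
  have e : M ≃ₗ[R] PUnit :=
    { toFun := fun _ => 0, map_add' := fun _ _ => rfl, map_smul' := fun _ _ => rfl, invFun := fun _ => 0,
      left_inv := fun a => Subsingleton.elim _ _, right_inv := fun a => rfl }
  rw [iso χ e (Module.Finite.equiv e.symm) (of_subsing h), punit χ]

theorem sub {M : Type} [AddCommGroup M] [Module R M] (hM : Module.Finite R M) (hk : KS S M) (N : Submodule R M) :
    χ.f M = χ.f N + χ.f (M ⧸ N) :=
  χ.add N M (M ⧸ N) N.subtype N.mkQ hM hk N.injective_subtype N.mkQ_surjective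
    (LinearMap.exact_subtype_mkQ N)

end AFS

variable {P : Type} [CommRing P] {S : Set P} {θ : P} {V : Type} [AddCommGroup V]

theorem unif {M : Type} [AddCommGroup M] [Module P M] (hM : Module.Finite P M)
    (h : ∀ m : M, ∃ k : ℕ, θ ^ k • m = 0) : ∃ k : ℕ, ∀ m : M, θ ^ k • m = 0 := by
  obtain ⟨s, hs⟩ := hM.fg_top
  choose f hf using h
  refine ⟨s.sup f, fun m => ?_⟩
  have hm : m ∈ Submodule.span P (s : Set M) := by rw [hs]; trivial
  induction hm using Submodule.span_induction with
  | mem x hx =>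
    have h1 : f x ≤ s.sup f := Finset.le_sup hx
    rw [← Nat.sub_add_cancel h1, pow_add, mul_smul, hf x, smul_zero]
  | zero => rw [smul_zero]
  | add x y _ _ hx hy => rw [smul_add, hx, hy, add_zero]
  | smul a x _ hx => rw [smul_comm, hx, smul_zero]

variable (χ : AFS P S V) (hP : IsNoetherianRing P)
  (hχ : ∀ (M : Type) [AddCommGroup M] [Module P M], Module.Finite P M → KS S M →
    (∃ k : ℕ, ∀ m : M, θ ^ k • m = 0) → χ.f M = 0)

include hP hχ

private theorem step {M : Type} [AddCommGroup M] [Module P M] (hk : KS S M) (N N' : Submodule P M)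
    (hle : N ≤ N') (hfg : N'.FG) (ht : ∀ m ∈ N', ∃ k : ℕ, θ ^ k • m ∈ N) : χ.f N = χ.f N' := by
  have hF : Module.Finite P N' := Module.Finite.iff_fg.mpr hfg
  have hkN' : KS S N' := of_inj hk N'.subtype N'.injective_subtype
  have hN1 : Module.Finite P (N.submoduleOf N') := Module.IsNoetherian.finite P _
  have h1 := sub χ hF hkN' (N.submoduleOf N')
  have h2 : χ.f (N' ⧸ N.submoduleOf N') = 0 := by
    have hF2 : Module.Finite P (N' ⧸ N.submoduleOf N') := inferInstance
    refine hχ _ hF2 (of_surj hkN' _ (Submodule.mkQ_surjective _)) (unif hF2 ?_)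
    intro m
    obtain ⟨x, rfl⟩ := Submodule.Quotient.mk_surjective _ m
    obtain ⟨k, hk'⟩ := ht x x.2
    refine ⟨k, ?_⟩
    rw [← Submodule.Quotient.mk_smul, Submodule.Quotient.mk_eq_zero]
    exact hk'
  have h3 : χ.f (N.submoduleOf N') = χ.f N :=
    iso χ (Submodule.submoduleOfEquivOfLe hle) hN1
      (of_inj hkN' (N.submoduleOf N').subtype (Submodule.injective_subtype _))
  rw [h1, h2, add_zero, h3]

private theorem indep {M : Type} [AddCommGroup M] [Module P M] (hk : KS S M) (N N' : Submodule P M)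
    (hfg : N.FG) (hfg' : N'.FG) (ht : ∀ m : M, ∃ k : ℕ, θ ^ k • m ∈ N)
    (ht' : ∀ m : M, ∃ k : ℕ, θ ^ k • m ∈ N') : χ.f N = χ.f N' := by
  have h1 := step χ hP hχ hk N (N ⊔ N') le_sup_left (hfg.sup hfg') (fun m _ => ht m)
  have h2 := step χ hP hχ hk N' (N ⊔ N') le_sup_right (hfg.sup hfg') (fun m _ => ht' m)
  rw [h1, h2]

omit hP hχ

/-- the value of the extension -/
def val (θ : P) (M : Type) [AddCommGroup M] [Module P M] : V :=
  @dite V (LFn θ M) (Classical.propDecidable _) (fun h => χ.f (h.choose : Submodule P M)) (fun _ => 0)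

include hP hχ

private theorem val_eq {M : Type} [AddCommGroup M] [Module P M] (hk : KS S M) (N : Submodule P M)
    (hfg : N.FG) (ht : ∀ m : M, ∃ k : ℕ, θ ^ k • m ∈ N) : val χ θ M = χ.f N := by
  have h : LFn θ M := ⟨N, hfg, ht⟩
  unfold val
  rw [dif_pos h]
  exact indep χ hP hχ hk _ _ h.choose_spec.1 hfg h.choose_spec.2 ht

private theorem val_add (A B C : Type) [AddCommGroup A] [Module P A] [AddCommGroup B] [Module P B]
    [AddCommGroup C] [Module P C] (i : A →ₗ[P] B) (p : B →ₗ[P] C) (hB : LFn θ B) (hk : KS S B)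
    (hi : Function.Injective i) (hp : Function.Surjective p) (he : Function.Exact i p) :
    val χ θ B = val χ θ A + val χ θ C := by
  obtain ⟨N, hfg, ht⟩ := hB
  have hNF : Module.Finite P N := Module.Finite.iff_fg.mpr hfg
  have hNN : IsNoetherian P N := isNoetherian_of_isNoetherianRing_of_finite P N
  set i' : N.comap i →ₗ[P] N := i.restrict (fun x hx => hx) with hi'
  set p' : N →ₗ[P] N.map p := p.restrict (fun x hx => Submodule.mem_map_of_mem hx) with hp'
  have hinj : Function.Injective i' := by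
    intro x y hxy
    apply Subtype.ext
    apply hi
    exact congrArg Subtype.val hxy
  have hsurj : Function.Surjective p' := by
    rintro ⟨c, hc⟩
    obtain ⟨b, hb, rfl⟩ := hc
    exact ⟨⟨b, hb⟩, rfl⟩
  have hex : Function.Exact i' p' := by
    intro y
    constructor
    · intro h0
      have h1 : p (y : B) = 0 := congrArg Subtype.val h0
      obtain ⟨a, ha⟩ := (he (y : B)).mp h1
      refine ⟨⟨a, ?_⟩, Subtype.ext ha⟩
      rw [Submodule.mem_comap, ha]
      exact y.2
    · rintro ⟨a, rfl⟩
      apply Subtype.ext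
      exact (he _).mpr ⟨(a : A), rfl⟩
  have hAN : IsNoetherian P (N.comap i) := isNoetherian_of_injective i' hinj
  have hA : (N.comap i).FG := Module.Finite.iff_fg.mp inferInstance
  have hC : (N.map p).FG := hfg.map p
  rw [val_eq χ hP hχ hk N hfg ht, val_eq χ hP hχ (of_inj hk i hi) (N.comap i) hA
    (fun a => by
      obtain ⟨k, hk'⟩ := ht (i a)
      refine ⟨k, ?_⟩
      rw [Submodule.mem_comap, map_smul]
      exact hk'),
    val_eq χ hP hχ (of_surj hk p hp) (N.map p) hC
    (fun c => by
      obtain ⟨b, rfl⟩ := hp c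
      obtain ⟨k, hk'⟩ := ht b
      refine ⟨k, ?_⟩
      rw [← map_smul]
      exact Submodule.mem_map_of_mem hk')]
  exact χ.add _ _ _ i' p' hNF (of_inj hk N.subtype N.injective_subtype) hinj hsurj hex

private theorem val_tors (M : Type) [AddCommGroup M] [Module P M] (hk : KS S M)
    (h : ∀ m : M, ∃ k : ℕ, θ ^ k • m = 0) : val χ θ M = 0 := by
  rw [val_eq χ hP hχ hk ⊥ Submodule.fg_bot (fun m => by
    obtain ⟨k, hk'⟩ := h m
    exact ⟨k, by rw [hk']; exact Submodule.zero_mem _⟩)]
  exact subsing χ inferInstance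

private theorem val_fin (M : Type) [AddCommGroup M] [Module P M] (hM : Module.Finite P M)
    (hk : KS S M) : val χ θ M = χ.f M := by
  rw [val_eq χ hP hχ hk ⊤ hM.fg_top (fun m => ⟨0, trivial⟩)]
  exact iso χ Submodule.topEquiv (Module.Finite.iff_fg.mpr hM.fg_top)
    (of_inj hk (⊤ : Submodule P M).subtype (Submodule.injective_subtype _))

end LtV_aux

theorem tLtV : S_LtV := by
  intro P _ S θ V _ χ hP hχ
  exact ⟨⟨fun M => LtV_aux.val χ θ M, fun A B C => LtV_aux.val_add χ hP hχ A B C,
    fun M => LtV_aux.val_tors χ hP hχ M⟩, fun M => LtV_aux.val_fin χ hP hχ M⟩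

end Pool.Agent.QV
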