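import Pool.Agent.Lib.MP_b53bfe_ag.Q.SpecP

/-!
# Disproof of Q1 of MP_b53bfe_ag for quintic threefolds: module Mn (assembly of Parts E, G, H)
-/

set_option autoImplicit false

noncomputable section

namespace Pool.Agent.QV

open Matrix MvPolynomial
open Pool.Agent.FY (Res)

namespace Mn_aux

theorem ne_zero {K : Type} [Field K] (a : Par K) (𝒪 : ValuationSubring K) (h : Adm a 𝒪) :
    1 - 5 * a.c ^ 2 ≠ 0 := by
  intro h0
  have h1 : (1 : K) = 5 * a.c ^ 2 := sub_eq_zero.mp h0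
  have h2 : 𝒪.valuation ((5 : ℤ) : K) = 1 := h.int 5 (by norm_num)
  have h3 : 𝒪.valuation (1 : K) = 𝒪.valuation (((5 : ℤ) : K) * a.c ^ 2) := by
    rw [h1]; push_cast; rfl
  rw [map_one, map_mul, h2, one_mul, map_pow] at h3
  have h4 : 𝒪.valuation a.c ^ 2 < 1 := by
    calc 𝒪.valuation a.c ^ 2 = 𝒪.valuation a.c * 𝒪.valuation a.c := pow_two _
      _ ≤ 𝒪.valuation a.c * 1 := mul_le_mul' le_rfl h.c.le
      _ = 𝒪.valuation a.c := mul_one _
      _ < 1 := h.c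
  exact absurd h3 (ne_of_gt h4)

end Mn_aux

theorem tMn : S_EE → S_CalE → S_Un → S_GG → S_HH → S_Mn := by
  intro hEE hCal hUn hGG hHH K _ _ a D κ 𝒪 hD hκ hA
  obtain ⟨C, hC, hCW⟩ := hCal K a D
  obtain ⟨χ, h1, h2, h3, h4⟩ := hEE K a κ (Lb a) (Ea a D) C (hUn K a) hA.A0 hκ hCW
  let _ : Algebra ℚ K := DivisionRing.toRatAlgebra
  let _ : Module K (Ea a D) := Module.compHom (Ea a D) (algebraMap K (PP K))
  let _ : Module ℚ (Ea a D) := Module.compHom (Ea a D) (algebraMap ℚ K)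
  refine ⟨Ea a D, inferInstance, inferInstance, χ, h1, h2, h3, fun h0 => ?_⟩
  rw [h4] at h0
  exact hHH K a 𝒪 hA (hGG K a D κ C hC hD hκ (Mn_aux.ne_zero a 𝒪 hA) h0)

end Pool.Agent.QV
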