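import Pool.Agent.Lib.MP_b53bfe_ag.Q.SpecV

/-!
# Psi: a vanishing lemma (helper10)
-/

set_option autoImplicit false

noncomputable section

namespace Pool.Agent.QV

open Matrix MvPolynomial
open Pool.Agent.FY (Res)

namespace Psi_aux

theorem core (P : Type) [CommRing P] (S : Set P) (θ : P) (V : Type) [AddCommGroup V] (Φ : AXS P S θ V) (g : P)
    (N : Type) [AddCommGroup N] [Module P N] (φ : N →ₗ[P] N) (hlf : LFn θ N)
    (G : Submodule P N) (hG : ∀ n : N, n ∈ G ↔ ∃ m : N, g • m = n) (hk : KS S (N ⧸ G))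
    (h1 : ∀ n : N, φ n = 0 → ∃ k : ℕ, θ ^ k • n = 0)
    (h2 : ∀ n : N, g • n ∈ LinearMap.range φ → ∃ k : ℕ, θ ^ k • n ∈ LinearMap.range φ) :
    Φ.f (N ⧸ (LinearMap.range φ ⊔ G)) = 0 := by
  have hst : G ≤ G.comap φ := by
    intro n hn
    obtain ⟨m, rfl⟩ := (hG n).mp hn
    rw [Submodule.mem_comap, map_smul]
    exact (hG _).mpr ⟨φ m, rfl⟩
  have hlf' : LFn θ (N ⧸ G) := by
    obtain ⟨M0, hfg, ht⟩ := hlf
    refine ⟨M0.map G.mkQ, hfg.map _, fun n => ?_⟩
    obtain ⟨x, rfl⟩ := Submodule.mkQ_surjective _ n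
    obtain ⟨k, hk⟩ := ht x
    refine ⟨k, ?_⟩
    rw [← map_smul]
    exact Submodule.mem_map_of_mem hk
  let ψ : (N ⧸ G) →ₗ[P] (N ⧸ G) := Submodule.mapQ G G φ hst
  have hψ : ∀ n : N, ψ (G.mkQ n) = G.mkQ (φ n) := fun n => rfl
  let p : (N ⧸ G) →ₗ[P] (N ⧸ (LinearMap.range φ ⊔ G)) :=
    Submodule.liftQ G (LinearMap.range φ ⊔ G).mkQ (by
      intro n hn
      rw [LinearMap.mem_ker, Submodule.mkQ_apply, Submodule.Quotient.mk_eq_zero]
      exact Submodule.mem_sup_right hn)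
  have hp : ∀ n : N, p (G.mkQ n) = (LinearMap.range φ ⊔ G).mkQ n := fun n => rfl
  have e1 : Φ.f (N ⧸ G) = Φ.f (LinearMap.ker ψ) + Φ.f (LinearMap.range ψ) := by
    refine Φ.add (LinearMap.ker ψ) (N ⧸ G) (LinearMap.range ψ) (LinearMap.ker ψ).subtype ψ.rangeRestrict hlf' hk
      (Submodule.injective_subtype _) (LinearMap.surjective_rangeRestrict ψ) ?_
    intro x
    constructor
    · intro hx
      refine ⟨⟨x, ?_⟩, rfl⟩
      rw [LinearMap.mem_ker]
      have := congrArg Subtype.val hx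
      simpa using this
    · rintro ⟨y, rfl⟩
      apply Subtype.ext
      simp
  have e2 : Φ.f (N ⧸ G) = Φ.f (LinearMap.range ψ) + Φ.f (N ⧸ (LinearMap.range φ ⊔ G)) := by
    refine Φ.add (LinearMap.range ψ) (N ⧸ G) (N ⧸ (LinearMap.range φ ⊔ G)) (LinearMap.range ψ).subtype p hlf' hk
      (Submodule.injective_subtype _) ?_ ?_
    · intro y
      obtain ⟨n, rfl⟩ := Submodule.mkQ_surjective _ y
      exact ⟨G.mkQ n, hp n⟩
    · intro x
      obtain ⟨n, rfl⟩ := Submodule.mkQ_surjective _ x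
      rw [hp, Submodule.mkQ_apply (LinearMap.range φ ⊔ G), Submodule.Quotient.mk_eq_zero]
      constructor
      · intro hn
        obtain ⟨a, ha, b, hb, hab⟩ := Submodule.mem_sup.mp hn
        obtain ⟨c, rfl⟩ := ha
        refine ⟨⟨G.mkQ n, ?_⟩, rfl⟩
        refine ⟨G.mkQ c, ?_⟩
        rw [hψ, ← hab, map_add]
        have hb0 : G.mkQ b = 0 := by
          rw [Submodule.mkQ_apply, Submodule.Quotient.mk_eq_zero]
          exact hb
        rw [hb0, add_zero]
      · rintro ⟨⟨y, ⟨z, hz⟩⟩, hy⟩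
        obtain ⟨c, rfl⟩ := Submodule.mkQ_surjective _ z
        have h3 : G.mkQ (φ c) = G.mkQ n := by
          rw [← hψ, hz]
          exact hy
        have h4 : n - φ c ∈ G := by
          rw [← Submodule.Quotient.mk_eq_zero G, Submodule.Quotient.mk_sub, sub_eq_zero]
          exact h3.symm
        have h5 : n = φ c + (n - φ c) := by abel
        rw [h5]
        exact Submodule.add_mem_sup ⟨c, rfl⟩ h4
  have e3 : Φ.f (LinearMap.ker ψ) = 0 := by
    refine Φ.tors (LinearMap.ker ψ) ?_ ?_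
    · intro s hs m
      exact Subtype.ext (hk s hs m.1)
    · rintro ⟨y, hy⟩
      obtain ⟨n, rfl⟩ := Submodule.mkQ_surjective _ y
      rw [LinearMap.mem_ker, hψ, Submodule.mkQ_apply, Submodule.Quotient.mk_eq_zero] at hy
      obtain ⟨n', hn'⟩ := (hG _).mp hy
      obtain ⟨k, n'', hk'⟩ := h2 n' (by rw [hn']; exact ⟨n, rfl⟩)
      have h6 : φ (θ ^ k • n - g • n'') = 0 := by
        rw [map_sub, map_smul, map_smul, hk', ← hn', smul_comm, sub_self]
      obtain ⟨l, hl⟩ := h1 _ h6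
      refine ⟨l + k, ?_⟩
      apply Subtype.ext
      have h7 : θ ^ (l + k) • n ∈ G := by
        rw [smul_sub, sub_eq_zero] at hl
        rw [pow_add, mul_smul, hl, smul_comm]
        exact (hG _).mpr ⟨_, rfl⟩
      have h8 : G.mkQ (θ ^ (l + k) • n) = 0 := by
        rw [Submodule.mkQ_apply, Submodule.Quotient.mk_eq_zero]
        exact h7
      rw [map_smul] at h8
      exact h8
  have e4 : Φ.f (LinearMap.range ψ) = Φ.f (LinearMap.range ψ) + Φ.f (N ⧸ (LinearMap.range φ ⊔ G)) := by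
    rw [← e2, e1, e3, zero_add]
  exact (left_eq_add.mp e4)

end Psi_aux

theorem tPsi : S_Psi := by
  intro P _ S θ V _ Φ g N _ _ φ _ hlf hk h1 h2
  have hE : (Ideal.span {g} • (⊤ : Submodule P N)) = LinearMap.range (LinearMap.lsmul P N g) := by
    ext n
    rw [Submodule.ideal_span_singleton_smul, Submodule.mem_smul_pointwise_iff_exists]
    constructor
    · rintro ⟨m, -, hm⟩
      exact ⟨m, hm⟩
    · rintro ⟨m, hm⟩
      exact ⟨m, Submodule.mem_top, hm⟩
  refine Psi_aux.core P S θ V Φ g N φ hlf (LinearMap.range (LinearMap.lsmul P N g)) ?_ ?_ h1 h2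
  · intro n
    rfl
  · intro s hs m
    obtain ⟨n, rfl⟩ := Submodule.mkQ_surjective _ m
    have h3 := hk s hs ((Ideal.span {g} • (⊤ : Submodule P N)).mkQ n)
    rw [← map_smul, Submodule.mkQ_apply, Submodule.Quotient.mk_eq_zero, hE] at h3
    rw [← map_smul, Submodule.mkQ_apply, Submodule.Quotient.mk_eq_zero]
    exact h3

end Pool.Agent.QV
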