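import Pool.Agent.Lib.MP_b53bfe_ag.Q.SpecD

/-!
# MP_b53bfe_ag, phase 2, module RSm: `Pol F` is free over `Pol k` for finite extensions
-/

set_option autoImplicit false

noncomputable section

namespace Pool.Agent.QV

open MvPolynomial
open Pool.Agent.FY (Res)

namespace RSm_aux

variable {k F : Type} [Field k] [Field F] [Algebra k F] {n : ℕ} (b : Module.Basis (Fin n) k F)

/-- `(p_l) ↦ Σ p_l b_l` -/
def Ph : (Fin n → Gr.Pol k) →ₗ[Gr.Pol k] Res (jE k F) (Gr.Pol F) where
  toFun p := Res.mk (jE k F) (∑ l, jE k F (p l) * C (b l))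
  map_add' p q := by
    change (∑ l, jE k F ((p + q) l) * C (b l) : Gr.Pol F) = (∑ l, jE k F (p l) * C (b l)) + ∑ l, jE k F (q l) * C (b l)
    rw [← Finset.sum_add_distrib]
    refine Finset.sum_congr rfl fun l _ => ?_
    rw [Pi.add_apply, _root_.map_add, add_mul]
  map_smul' r p := by
    change (∑ l, jE k F ((r • p) l) * C (b l) : Gr.Pol F) = jE k F r * ∑ l, jE k F (p l) * C (b l)
    rw [Finset.mul_sum]
    refine Finset.sum_congr rfl fun l _ => ?_
    rw [Pi.smul_apply, smul_eq_mul, _root_.map_mul, mul_assoc]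

theorem Ph_val (p : Fin n → Gr.Pol k) : (Ph b p).val = ∑ l, jE k F (p l) * C (b l) := rfl

theorem coeff_Ph (p : Fin n → Gr.Pol k) (m : Fin 3 × Fin 5 →₀ ℕ) :
    coeff m (Ph b p).val = ∑ l, coeff m (p l) • b l := by
  rw [Ph_val, coeff_sum]
  refine Finset.sum_congr rfl fun l _ => ?_
  rw [mul_comm, coeff_C_mul, coeff_map, Algebra.smul_def, mul_comm]

theorem Ph_inj : Function.Injective (Ph b) := by
  rw [← LinearMap.ker_eq_bot, LinearMap.ker_eq_bot']
  intro p hp
  ext l m
  have h := coeff_Ph b p m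
  rw [hp] at h
  have h0 : ∑ l, coeff m (p l) • b l = 0 := h.symm.trans (by exact coeff_zero m)
  have h1 := Fintype.linearIndependent_iff.1 b.linearIndependent (fun l => coeff m (p l)) h0 l
  rw [h1]
  simp

theorem Ph_surj : Function.Surjective (Ph b) := by
  intro q
  refine ⟨fun l => ∑ m ∈ q.val.support, monomial m (b.repr (coeff m q.val) l), ?_⟩
  have key : (Ph b fun l => ∑ m ∈ q.val.support, monomial m (b.repr (coeff m q.val) l)).val = q.val := by
    ext m
    rw [coeff_Ph]
    have h1 : ∀ l, coeff m (∑ m ∈ q.val.support, monomial m (b.repr (coeff m q.val) l)) = b.repr (coeff m q.val) l := by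
      intro l
      rw [coeff_sum]
      by_cases hm : m ∈ q.val.support
      · rw [Finset.sum_eq_single m]
        · rw [coeff_monomial, if_pos rfl]
        · intro m' _ h
          rw [coeff_monomial, if_neg h]
        · exact fun h => absurd hm h
      · rw [Finset.sum_eq_zero]
        · rw [notMem_support_iff.1 hm]
          simp
        · intro m' hm'
          have h : m' ≠ m := fun h => hm (h ▸ hm')
          rw [coeff_monomial, if_neg h]
    simp only [h1]
    exact b.sum_repr _
  exact key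

theorem Ph_smul (s : Gr.Pol k) (p : Fin n → Gr.Pol k) : (Ph b (s • p)).val = jE k F s * (Ph b p).val := by
  rw [map_smul]
  rfl

theorem span_map (f : MvPolynomial (Fin 5) k) :
    Ideal.span (smR (map (algebraMap k F) f)) = Ideal.span (jE k F '' smR f) := by
  rw [map_smR]

theorem mem_of (J : Set (Gr.Pol k)) (x : Gr.Pol F) (hx : x ∈ Ideal.span (jE k F '' J)) :
    ∀ y : Gr.Pol F, ∃ p : Fin n → Gr.Pol k, (∀ l, p l ∈ Ideal.span J) ∧ (Ph b p).val = y * x := by
  refine Submodule.span_induction (p := fun x _ => ∀ y : Gr.Pol F, ∃ p : Fin n → Gr.Pol k, (∀ l, p l ∈ Ideal.span J) ∧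
    (Ph b p).val = y * x) ?_ ?_ ?_ ?_ hx
  · rintro _ ⟨s, hs, rfl⟩ y
    obtain ⟨r, hr⟩ := Ph_surj b (Res.mk (jE k F) y)
    refine ⟨s • r, fun l => ?_, ?_⟩
    · rw [Pi.smul_apply, smul_eq_mul]
      exact Ideal.mul_mem_right _ _ (Ideal.subset_span hs)
    · rw [Ph_smul, hr]
      exact mul_comm _ _
  · intro y
    refine ⟨0, fun l => Ideal.zero_mem _, ?_⟩
    rw [map_zero, mul_zero]
    rfl
  · intro a c _ _ ha hc y
    obtain ⟨p, hp, hp'⟩ := ha y
    obtain ⟨q, hq, hq'⟩ := hc y
    refine ⟨p + q, fun l => Ideal.add_mem _ (hp l) (hq l), ?_⟩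
    rw [_root_.map_add, mul_add, ← hp', ← hq']
    rfl
  · intro a x _ hx y
    obtain ⟨p, hp, hp'⟩ := hx (y * a)
    exact ⟨p, hp, by rw [hp', smul_eq_mul, mul_assoc]⟩

theorem mem_iff (J : Set (Gr.Pol k)) (p : Fin n → Gr.Pol k) :
    (Ph b p).val ∈ Ideal.span (jE k F '' J) ↔ ∀ l, p l ∈ Ideal.span J := by
  constructor
  · intro h
    obtain ⟨q, hq, hq'⟩ := mem_of b J _ h 1
    rw [one_mul] at hq'
    have : q = p := Ph_inj b hq'
    exact this ▸ hq
  · intro h
    rw [Ph_val]
    refine Ideal.sum_mem _ fun l _ => Ideal.mul_mem_right _ _ ?_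
    rw [← Ideal.map_span]
    exact Ideal.mem_map_of_mem _ (h l)

/-- `(p_l) ↦ Σ p_l b_l` modulo the ideal -/
def Ps (I : Ideal (Gr.Pol F)) : (Fin n → Gr.Pol k) →ₗ[Gr.Pol k] Res (jE k F) (Gr.Pol F ⧸ I) :=
  (Pool.Agent.FY.Res.map (jE k F) (Submodule.mkQ I)) ∘ₗ Ph b

theorem Ps_surj (I : Ideal (Gr.Pol F)) : Function.Surjective (Ps b I) := by
  intro y
  obtain ⟨q, hq⟩ := Submodule.mkQ_surjective I y.val
  obtain ⟨p, hp⟩ := Ph_surj b (Res.mk (jE k F) q)
  refine ⟨p, ?_⟩
  change Res.mk (jE k F) (Submodule.mkQ I (Ph b p).val) = y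
  rw [hp]
  exact hq

theorem Ps_ker (J : Set (Gr.Pol k)) (I : Ideal (Gr.Pol F)) (hI : I = Ideal.span (jE k F '' J)) :
    LinearMap.ker (Ps b I) = Submodule.pi Set.univ (fun _ : Fin n => Ideal.span J) := by
  ext p
  rw [LinearMap.mem_ker, Submodule.mem_pi]
  have h1 : Ps b I p = 0 ↔ (Ph b p).val ∈ I := by
    change Submodule.mkQ I (Ph b p).val = 0 ↔ _
    rw [Submodule.mkQ_apply, Submodule.Quotient.mk_eq_zero]
  rw [h1, hI, mem_iff]
  simp

end RSm_aux

open RSm_aux in
theorem tRSm : S_RSm := by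
  intro k F _ _ _ hF
  have b : Module.Basis (Fin (Module.finrank k F)) k F := Module.finBasis k F
  refine ⟨?_, ?_⟩
  · intro M _ _ hM
    obtain ⟨m, g, hg⟩ := Module.Finite.exists_fin' (Gr.Pol F) M
    let th : (Fin m → Fin (Module.finrank k F) → Gr.Pol k) →ₗ[Gr.Pol k] Res (jE k F) M :=
      { toFun := fun x => Res.mk (jE k F) (g fun i => (Ph b (x i)).val)
        map_add' := fun x y => by
          change g (fun i => (Ph b ((x + y) i)).val) = g _ + g _
          rw [← _root_.map_add]
          congr 1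
          funext i
          rw [Pi.add_apply, _root_.map_add]
          rfl
        map_smul' := fun r x => by
          change g (fun i => (Ph b ((r • x) i)).val) = jE k F r • g _
          rw [← map_smul]
          congr 1
          funext i
          rw [Pi.smul_apply, Ph_smul]
          rfl }
    refine Module.Finite.of_surjective th ?_
    intro y
    obtain ⟨q, hq⟩ := hg y.val
    have h := fun i => Ph_surj b (Res.mk (jE k F) (q i))
    choose x hx using h
    refine ⟨x, ?_⟩
    change g (fun i => (Ph b (x i)).val) = y.val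
    rw [← hq]
    congr 1
    funext i
    rw [hx]
    rfl
  · intro f
    have hI : Ideal.span (smR (map (algebraMap k F) f)) = Ideal.span (jE k F '' smR f) := span_map f
    exact ⟨((LinearMap.quotKerEquivOfSurjective (Ps b _) (Ps_surj b _)).symm.trans
      (Submodule.quotEquivOfEq _ _ (Ps_ker b (smR f) _ hI))).trans
      (Submodule.quotientPi (fun _ => Ideal.span (smR f)))⟩

end Pool.Agent.QV

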