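import Pool.Agent.Lib.MP_b53bfe_ag.Q.Defs

/-!
# Disproof of Q1 of MP_b53bfe_ag for quintic threefolds. Parts A, B, C (general part)

`L` is a commutative ring, `E` a (non commutative) `L`-algebra, `C : Cal L E` a differential calculus `d : L → E` (Leibniz rule, the values anticommute and have
square zero). `C.Om` = `L`-span of the `d a`. For matrices `A`, `B` over `L`: `C.dm A` is the entrywise differential, `C.ch k A B = tr ((dA dB) ^ k)`. `em E A` is the matrix `A` with entries in `E`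
(its entries commute with everything, `d` satisfies the Leibniz rule for products of matrices: `C.dm (A * B) = C.dm A * em E B + em E A * C.dm B`).
A matrix factorization (MF) of `W`: `A * B = B * A = W • 1`. Aim of this file: an additive function `χ` on the finitely generated `L`-modules killed by `W` with `χ (coker A) = ch k A B`
(`S_Phi`), its values on `L / (a_1, ..., a_k)` for `W = ∑ a_i b_i` (`S_Kos`), the vanishing on perfect modules `N / W N` and on modules killed by `w` if `W = W0 + w b`, `dw db = 0` (`S_Kn`).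
-/

set_option autoImplicit false

noncomputable section

namespace Pool.Agent.QV

open Matrix

/-! ## Part A: the Chern character of matrix factorizations -/

/-- **Comm**. Signs. First `x * y = - (y * x)` for `x, y ∈ Om` (span induction twice; for `x = d a`, `y = d b` this is `C.anti`), `x * x = 0` for `x ∈ Om` (span induction:
`(x + y)^2 = x^2 + y^2 + (xy + yx)`, `(l x)^2 = l^2 x^2`). Then for `x ∈ Om ^ i`, `y ∈ Om ^ j` by induction on `i` and `j` (`Submodule.pow_induction_on_left'` or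
`Submodule.mul_induction_on`; `Om ^ 0` is the image of `L`, which is central). Matrices: the entries of products are sums of products. Trace: `tr (X Y) = ∑ X a b * Y b a`,
exchange the factors. -/
def S_Comm : Prop :=
  ∀ (L E : Type) [CommRing L] [Ring E] [Algebra L E] (C : Cal L E),
    (∀ (i j : ℕ) (x y : E), x ∈ C.Om ^ i → y ∈ C.Om ^ j → x * y = (-1) ^ (i * j) * (y * x)) ∧
    (∀ x ∈ C.Om, x * x = 0) ∧
    (∀ (i j : ℕ) (l m n : Type) [Fintype m] (X : Matrix l m E) (Y : Matrix m n E), C.Ent i X → C.Ent j Y →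
      C.Ent (i + j) (X * Y)) ∧
    (∀ (i k : ℕ) (n : Type) [Fintype n] [DecidableEq n] (X : Matrix n n E), C.Ent i X → C.Ent (i * k) (X ^ k)) ∧
    (∀ (m n : Type) (A : Matrix m n L), C.Ent 1 (C.dm A) ∧ C.Ent 0 (em E A)) ∧
    ∀ (i j : ℕ) (m n : Type) [Fintype m] [Fintype n] (X : Matrix m n E) (Y : Matrix n m E), C.Ent i X → C.Ent j Y →
      (X * Y).trace = (-1) ^ (i * j) * (Y * X).trace

/-- **Sg**. Single form lemma. Put `Z = A P - P A` (entries in `Om`); here `θ • Z` is the matrix with the entries `θ * Z a b`. For every matrix `X` with entries in `Om ^ i`: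
`(θ • Z) * X * (θ • Z) = 0`, as `θ z x θ z' = ± θ θ z x z' = 0` (`S_Comm`). So `(N + θ • Z) ^ k = N ^ k + ∑_{i < k} N ^ i (θ • Z) N ^ (k - 1 - i)` (induction on `k`).
Trace: `tr (N ^ i (θ • Z) N ^ (k - 1 - i)) = tr ((θ • Z) N ^ (k - 1)) = θ * tr (Z N ^ (k - 1))` (the entries of powers of `N` are even, sign `+`), and
`tr (Z N ^ (k - 1)) = tr (A P N ^ (k - 1)) - tr (P A N ^ (k - 1))`, the first is `tr (P N ^ (k - 1) A)`, the second is `tr (N ^ (k - 1) P A) = tr (P N ^ (k - 1) A)`. -/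
def S_Sg : Prop :=
  ∀ (L E : Type) [CommRing L] [Ring E] [Algebra L E] (C : Cal L E) (n : Type) [Fintype n] [DecidableEq n] (N P : Matrix n n E)
    (A : Matrix n n L) (θ : E) (k : ℕ), C.Ent 2 N → C.Ent 1 P → N * P = P * N → θ ∈ C.Om →
    ((N + θ • (em E A * P - P * em E A)) ^ k).trace = (N ^ k).trace

/-- **Gn**. General forms. For `ω` put `N(ω) = M - (P ω + ω P) - W ω²`, `P(ω) = P + W ω`. Then `N(ω) P(ω) = P(ω) N(ω)` (expand; use `M P = P M`, `P² = - W M`:
`[(P ω + ω P), P] = ω P² - P² ω = W (M ω - ω M)`) and `P(ω)² = - W N(ω)`. `N(ω)` has entries in `Om ^ 2`, `P(ω)` in `Om`. For `η = θ • E_{ab}` with `θ ∈ Om` (`E_{ab}` the matrix unit, `η² = 0`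
because `θ θ = 0`): `N(ω + η) = N(ω) - (P(ω) η + η P(ω))` and `P(ω) η + η P(ω) = θ • (E_{ab} P(ω) - P(ω) E_{ab})` (`P(ω) θ = - θ P(ω)` entrywise), so by `S_Sg` (with `-θ`)
`tr N(ω + η) ^ k = tr N(ω) ^ k`. `ω = ∑ ω a b • E_{ab}` (`Matrix.matrix_eq_sum_single`): induction over the finite sum, from `N(0) = M`. -/
def S_Gn : Prop :=
  ∀ (L E : Type) [CommRing L] [Ring E] [Algebra L E] (C : Cal L E) (n : Type) [Fintype n] [DecidableEq n] (W : L)
    (M P ω : Matrix n n E) (k : ℕ), C.Ent 2 M → C.Ent 1 P → C.Ent 1 ω → M * P = P * M → P * P = -(W • M) →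
    ((M - (P * ω + ω * P) - W • (ω * ω)) ^ k).trace = (M ^ k).trace

/-- **Gl**. Left gauge invariance. `V = U⁻¹`. `M = dA dB`, `P = dA B`, `ω = V dU`. From `A B = W`, `dW = 0`: `dA B = - A dB`; from `B A = W`: `dB A = - B dA`. So `M P = dA dB dA B`,
`P M = dA B dA dB = - dA dB A dB = dA dB dA B`, `P P = dA B dA B = - dA dB A B = - W M`. `d(UA) = U (ω A + dA)` and `dV = - V dU V` (from `V U = 1`), so
`d(BV) = (dB - B ω) V`. Product: `d(UA) d(BV) = U (ω A dB + dA dB - ω A B ω - dA B ω) V = U (M - ω P - P ω - W ω²) V`. Trace of `k`-th power: conjugation by `U` (entries in the centre; `S_Comm` with `i = 0`), then `S_Gn`. -/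
def S_Gl : Prop :=
  ∀ (L E : Type) [CommRing L] [Ring E] [Algebra L E] (C : Cal L E) (W : L) (n : Type) [Fintype n] [DecidableEq n]
    (A B U V : Matrix n n L) (k : ℕ), C.d W = 0 → IsMF W A B → U * V = 1 → V * U = 1 →
    C.ch k (U * A) (B * V) = C.ch k A B

/-- **Sw**. `tr ((dB dA) ^ k) = tr (dB ((dA dB) ^ (k - 1) dA)) = - tr ((dA dB) ^ (k - 1) dA dB)` (degrees `1` and `2 k - 1`). -/
def S_Sw : Prop :=
  ∀ (L E : Type) [CommRing L] [Ring E] [Algebra L E] (C : Cal L E) (m n : Type) [Fintype m] [DecidableEq m] [Fintype n]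
    [DecidableEq n] (A : Matrix m n L) (B : Matrix n m L) (k : ℕ), 1 ≤ k → C.ch k B A = -C.ch k A B

/-- **Gi**. Gauge invariance. `A' = U A V'`, and `B' = V B U'` because `A' (V B U') = U A B U' = W = A' B'` and `A'` can be cancelled (multiply by `B'`, `W ≠ 0`, domain). By `S_Gl`, `S_Sw`:
`ch(U A V', V B U') = ch(A V', V B) = - ch(V B, A V') = - ch(B, A) = ch(A, B)` (`(B, A)` is an MF too). -/
def S_Gi : Prop :=
  ∀ (L E : Type) [CommRing L] [IsDomain L] [Ring E] [Algebra L E] (C : Cal L E) (W : L) (n : Type) [Fintype n] [DecidableEq n]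
    (A B A' B' U U' V V' : Matrix n n L) (k : ℕ), C.d W = 0 → W ≠ 0 → 1 ≤ k → IsMF W A B → IsMF W A' B' →
    U * U' = 1 → U' * U = 1 → V * V' = 1 → V' * V = 1 → U * A = A' * V → C.ch k A B = C.ch k A' B'

/-- **Tri**. Block triangular matrices, reindexing, trivial factorizations: direct (`Matrix.fromBlocks_multiply`; the diagonal blocks of a power of a block triangular matrix are the powers;
`d 0 = 0`, `d 1 = 0`, so `dm 1 = 0`). -/
def S_Tri : Prop :=
  ∀ (L E : Type) [CommRing L] [Ring E] [Algebra L E] (C : Cal L E) (m n : Type) [Fintype m] [DecidableEq m] [Fintype n]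
    [DecidableEq n] (k : ℕ),
    (∀ (A₁ B₁ : Matrix m m L) (A₂ B₂ : Matrix n n L) (X Y : Matrix m n L),
      C.ch k (fromBlocks A₁ X 0 A₂) (fromBlocks B₁ Y 0 B₂) = C.ch k A₁ B₁ + C.ch k A₂ B₂) ∧
    (∀ (e : m ≃ n) (A B : Matrix m m L), C.ch k (A.reindex e e) (B.reindex e e) = C.ch k A B) ∧
    ∀ W : L, 1 ≤ k → C.ch k (1 : Matrix m m L) (W • (1 : Matrix m m L)) = 0 ∧
      C.ch k (W • (1 : Matrix m m L)) (1 : Matrix m m L) = 0

/-- **Sch**. Schanuel. `A`, `A'` are injective (`B A = W`, `W ≠ 0`, domain). Let `π : L^m → coker A`, `π' : L^n → coker A'` (composed with the isomorphism to `coker A`); lifts (free modules)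
`f : L^m → L^n`, `g : L^n → L^m` with `π' f = π`, `π g = π'`. On `L^m ⊕ L^n` put `s (x, y) = π x + π' y`, `α (x, y) = (x + g y, y)`, `β (x, y) = (x, y + f x)`, automorphisms;
`π (α (x, y))_1 = s (x, y) = π' (β (x, y))_2`. So `U = β α⁻¹` maps `ker (x, y ↦ π x) = im (A ⊕ 1)` onto `ker (x, y ↦ π' y) = im (1 ⊕ A')`; as `A ⊕ 1` and `1 ⊕ A'` are injective there is an automorphism `V` with
`U (A ⊕ 1) = (1 ⊕ A') V`. Matrices by `LinearMap.toMatrix'` (`Sum`-indexed). -/
def S_Sch : Prop :=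
  ∀ (L : Type) [CommRing L] [IsDomain L] (W : L) (m n : Type) [Fintype m] [DecidableEq m] [Fintype n] [DecidableEq n]
    (A B : Matrix m m L) (A' B' : Matrix n n L), W ≠ 0 → IsMF W A B → IsMF W A' B' → Nonempty (Ck A ≃ₗ[L] Ck A') →
    ∃ U U' V V' : Matrix (m ⊕ n) (m ⊕ n) L, U * U' = 1 ∧ U' * U = 1 ∧ V * V' = 1 ∧ V' * V = 1 ∧
      U * fromBlocks A 0 0 1 = fromBlocks 1 0 0 A' * V

/-- **Inv**. `S_Sch`, `S_Gi` for the MFs `(A ⊕ 1, B ⊕ W)` and `(1 ⊕ A', W ⊕ B')`, `S_Tri`. -/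
def S_Inv : Prop :=
  ∀ (L E : Type) [CommRing L] [IsDomain L] [Ring E] [Algebra L E] (C : Cal L E) (W : L) (m n : Type) [Fintype m]
    [DecidableEq m] [Fintype n] [DecidableEq n] (A B : Matrix m m L) (A' B' : Matrix n n L) (k : ℕ), C.d W = 0 → W ≠ 0 →
    1 ≤ k → IsMF W A B → IsMF W A' B' → Nonempty (Ck A ≃ₗ[L] Ck A') → C.ch k A B = C.ch k A' B'

/-! ## Part B: modules -/

/-- **Pd**. Mathlib: `CategoryTheory.ShortComplex.ShortExact.hasProjectiveDimensionLT_X₁`, `_X₂`, `_X₃`, `CategoryTheory.hasProjectiveDimensionLT_of_ge`, `hasProjectiveDimensionLE_of_linearEquiv`,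
`IsProjective.iff_projective` (`ModuleCat`); `PD R j M` is `HasProjectiveDimensionLT _ (j + 1)`. -/
def S_Pd : Prop :=
  ∀ (R : Type) [CommRing R],
    (∀ (j : ℕ) (A B C : Type) [AddCommGroup A] [Module R A] [AddCommGroup B] [Module R B] [AddCommGroup C] [Module R C]
      (i : A →ₗ[R] B) (p : B →ₗ[R] C), Function.Injective i → Function.Surjective p → Function.Exact i p →
      (PD R j A → PD R j C → PD R j B) ∧ (PD R j B → PD R (j + 1) C → PD R j A) ∧
        (PD R j A → PD R (j + 1) B → PD R (j + 1) C)) ∧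
    (∀ (j : ℕ) (A B : Type) [AddCommGroup A] [Module R A] [AddCommGroup B] [Module R B], (A ≃ₗ[R] B) → PD R j A → PD R j B) ∧
    (∀ (i j : ℕ) (M : Type) [AddCommGroup M] [Module R M], i ≤ j → PD R i M → PD R j M) ∧
    ∀ (M : Type) [AddCommGroup M] [Module R M], PD R 0 M ↔ Module.Projective R M

/-- **Ckb**. `coker A` is finite; `W x = A (B x)`; `A` is injective since `B A = W`, and then `0 → L^n → L^n → coker A → 0` is exact: `S_Pd`. The last part: `L / (W)` is the cokernel of the `1 × 1` matrix `W`. -/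
def S_Ckb : Prop :=
  ∀ (L : Type) [CommRing L] (W : L), (∀ x : L, W * x = 0 → x = 0) →
    (∀ (n : Type) [Fintype n] [DecidableEq n] (A B : Matrix n n L), IsMF W A B → Module.Finite L (Ck A) ∧ KW W (Ck A) ∧
      Function.Injective A.mulVecLin ∧ PD L 1 (Ck A)) ∧
    (∀ n : ℕ, PD L 1 (Fin n → L ⧸ Ideal.span {W})) ∧
    Nonempty (Ck (W • (1 : Matrix (Fin 1) (Fin 1) L)) ≃ₗ[L] (L ⧸ Ideal.span {W}))

/-- **Ex**. Choose a surjection `L^n → M`, kernel `N`; `N` is finite (noetherian) and projective (`S_Pd`: `PD 1 M`, so `PD 0 N`), hence free (`L` local: `Module.free_of_flat_of_isLocalRing` or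
`Module.Free` from projective over local rings). `W L^n ⊆ N ⊆ L^n` and `W ≠ 0`, so the rank of `N` is `n` (`finrank` is monotone for submodules; `W L^n ≅ L^n`). A basis of `N` gives an injective matrix `A` with `im A = N`; since
`W e_j ∈ im A` there is `B` with `A B = W`; `A B A = W A = A W`, so `B A = W` as `A` is injective. -/
def S_Ex : Prop :=
  ∀ (L : Type) [CommRing L], IsDomain L → IsLocalRing L → IsNoetherianRing L → ∀ (W : L) (M : Type) [AddCommGroup M]
    [Module L M], W ≠ 0 → Module.Finite L M → KW W M → PD L 1 M →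
    ∃ (n : ℕ) (A B : Matrix (Fin n) (Fin n) L), IsMF W A B ∧ Nonempty (M ≃ₗ[L] Ck A)

/-- **Ad**. Horseshoe. Take `A₁`, `A₂` for `M₁`, `M₂` from `S_Ex`, surjections `π₁ : L^m → M₁`, `π₂ : L^n → M₂` with kernels `im A₁`, `im A₂`; a lift `λ : L^n → M` of `π₂`. `π (x, y) = i (π₁ x) + λ y` is surjective on `M`.
For the basis vectors `z` of `L^n`: `λ (A₂ z)` is in the kernel of `p`, so there is `X z` with `i π₁ (X z) = - λ (A₂ z)`. The kernel of `π` is the image of `A = (A₁, X; 0, A₂)`: if `i π₁ x + λ y = 0` then `π₂ y = 0`, `y = A₂ z`,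
`π₁ (x - X z) = 0`. `W` kills `M`, so `W e ∈ im A` for all basis vectors: there is `B` with `A B = W`; `A` is injective, so `B A = W`. Blocks of `B`: the lower left block is killed by `A₂`, so it is `0`, and then the diagonal blocks `B₁`, `B₂`
satisfy `A_i B_i = W`, `B_i A_i = W`. -/
def S_Ad : Prop :=
  ∀ (L : Type) [CommRing L], IsDomain L → IsLocalRing L → IsNoetherianRing L → ∀ (W : L) (M₁ M M₂ : Type) [AddCommGroup M₁]
    [Module L M₁] [AddCommGroup M] [Module L M] [AddCommGroup M₂] [Module L M₂] (i : M₁ →ₗ[L] M) (p : M →ₗ[L] M₂), W ≠ 0 →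
    Module.Finite L M → KW W M → PD L 1 M₁ → PD L 1 M₂ → Function.Injective i → Function.Surjective p →
    Function.Exact i p →
    ∃ (m n : ℕ) (A₁ B₁ : Matrix (Fin m) (Fin m) L) (A₂ B₂ : Matrix (Fin n) (Fin n) L) (X Y : Matrix (Fin m) (Fin n) L),
      IsMF W A₁ B₁ ∧ IsMF W A₂ B₂ ∧ IsMF W (fromBlocks A₁ X 0 A₂) (fromBlocks B₁ Y 0 B₂) ∧ Nonempty (M₁ ≃ₗ[L] Ck A₁) ∧
        Nonempty (M₂ ≃ₗ[L] Ck A₂) ∧ Nonempty (M ≃ₗ[L] Ck (fromBlocks A₁ X 0 A₂))

/-- **Phi1**. `Φ M = ch k A B` for a chosen MF with `M ≅ coker A` (`S_Ex`) if `M` is finite, killed by `W`, of projective dimension at most `1`, and `0` otherwise. Well defined: `S_Inv`. Additive: `S_Ad` and `S_Tri` (submodules and quotients of finite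
modules killed by `W` are so; `Ck` of a `Sum`-indexed matrix: `S_Inv` is for arbitrary index types). -/
def S_Phi1 : Prop :=
  ∀ (L E : Type) [CommRing L] [Ring E] [Algebra L E] (C : Cal L E) (W : L) (k : ℕ), IsDomain L → IsLocalRing L →
    IsNoetherianRing L → W ≠ 0 → C.d W = 0 → 1 ≤ k →
    ∃ Φ : AFj L W 1 E, ∀ (n : Type) [Fintype n] [DecidableEq n] (A B : Matrix n n L), IsMF W A B →
      Φ.f (Ck A) = C.ch k A B

/-- **Ext**. Dimension shift. For `M` finite, killed by `W`, `PD (j + 1) M`: choose a surjection `q : (L/W)^n → M`, `K` its kernel; `PD j K` by `S_Pd` (`PD 1 ((L/W)^n)`, `1 ≤ j`). Put `Φ' M = - Φ K` (`0` if `M` is not of this kind).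
(1) Independence of the choice: for a second `q' : F' → M` with kernel `K'` let `Q = {(x, y) : q x = q' y}`; exact sequences `0 → K' → Q → F → 0` and `0 → K → Q → F' → 0`, all of `PD j`, so `Φ K' + Φ F = Φ K + Φ F'`, and `Φ F = n Φ (L/W) = 0`.
Isomorphism invariance is the same. (2) Additivity for `0 → M₁ → M → M₂ → 0`: `q₁ : F₁ → M₁`, `q₂ : F₂ → M₂`, lift `F₂ → M` of `q₂` (`F₂` is free over `L/W` and `M` is killed by `W`), `q : F₁ ⊕ F₂ → M` surjective, the kernels form an exact sequence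
`0 → K₁ → K → K₂ → 0`. (`F₁ ⊕ F₂` is isomorphic to some `Fin n → L/W`; it may be convenient to prove (1) for all surjections from modules `F` isomorphic to `(L/W)^n`.) (3) If `PD j M` then `PD j K` and `Φ F = Φ K + Φ M`, so `Φ' M = Φ M`. -/
def S_Ext : Prop :=
  ∀ (L : Type) [CommRing L] (W : L) (V : Type) [AddCommGroup V] (j : ℕ) (Φ : AFj L W j V), IsNoetherianRing L →
    (∀ x : L, W * x = 0 → x = 0) → 1 ≤ j → Φ.f (L ⧸ Ideal.span {W}) = 0 →
    ∃ Φ' : AFj L W (j + 1) V, ∀ (M : Type) [AddCommGroup M] [Module L M], Module.Finite L M → KW W M → PD L j M →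
      Φ'.f M = Φ.f M

/-- **All**. Induction with `S_Ext` up to `j` with `GD L j` (`PD 1 (L/W)`: `S_Ckb`, so `Φ' (L/W) = 0` in each step). -/
def S_All : Prop :=
  ∀ (L : Type) [CommRing L] (W : L) (V : Type) [AddCommGroup V] (Φ : AFj L W 1 V), IsNoetherianRing L →
    (∀ x : L, W * x = 0 → x = 0) → (∃ j, GD L j) → Φ.f (L ⧸ Ideal.span {W}) = 0 →
    ∃ χ : AF L W V, ∀ (M : Type) [AddCommGroup M] [Module L M], Module.Finite L M → KW W M → PD L 1 M → χ.f M = Φ.f M

/-- **Gd1**. For an `R[X]`-module `M` there is the exact sequence `0 → R[X] ⊗ M → R[X] ⊗ M → M → 0` with the maps `f ⊗ m ↦ X f ⊗ m - f ⊗ X m` and `f ⊗ m ↦ f m` (or with `PolynomialModule R M`, which is `R[X] ⊗ M`). `PD R j M` implies `PD R[X] j (R[X] ⊗ M)`: induction on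
`j` with `S_Pd` (`j = 0`: base change of projective modules; step: `0 → K → F → M → 0` with `F` free, `R[X]` is flat). Then `S_Pd`. -/
def S_Gd1 : Prop := ∀ (R : Type) [CommRing R] (j : ℕ), GD R j → GD (Polynomial R) (j + 1)

/-- **GdM**. `GD` is invariant under ring isomorphisms; fields have `GD 0`; `MvPolynomial.finSuccEquiv`, `MvPolynomial.isEmptyAlgEquiv`, `MvPolynomial.renameEquiv`, `S_Gd1`. Localization: for a module `N` over the localization, `N` is the localization of `N` regarded as an `R`-module;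
`ModuleCat.localizedModule_hasProjectiveDimensionLE`. Localizations of noetherian domains at primes are noetherian local domains. -/
def S_NLD : Prop :=
  ∀ (K : Type) [Field K] (σ : Type) [Finite σ] (Q : Ideal (MvPolynomial σ K)) [Q.IsPrime], NLD (Localization.AtPrime Q)

/-- **Phi**. `S_Phi1`, then `S_All`: `Φ (L/W) = ch k (W) (1) = 0` (`S_Ckb`, `S_Tri`; isomorphism invariance of `Φ` from `AFj.add`). -/
def S_Phi : Prop :=
  ∀ (L E : Type) [CommRing L] [Ring E] [Algebra L E] (C : Cal L E) (W : L) (k : ℕ), NLD L → W ≠ 0 → C.d W = 0 → 1 ≤ k →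
    ∃ χ : AF L W E, ∀ (n : Type) [Fintype n] [DecidableEq n] (A B : Matrix n n L), IsMF W A B → χ.f (Ck A) = C.ch k A B

/-- **Uni**. Induction on the projective dimension of `M`: `PD 1 M` gives `M ≅ coker A` (`S_Ex`). If `PD (j + 1) M`, `1 ≤ j`: `0 → K → (L/W)^n → M → 0`, `PD j K`, `χ (L/W) = χ (coker (W)) = 0`. (`PD 0` implies `PD 1`.) -/
def S_Uni : Prop :=
  ∀ (L : Type) [CommRing L] (W : L) (V : Type) [AddCommGroup V] (χ : AF L W V), NLD L → W ≠ 0 →
    (∀ (n : Type) [Fintype n] [DecidableEq n] (A B : Matrix n n L), IsMF W A B → χ.f (Ck A) = 0) →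
    ∀ (M : Type) [AddCommGroup M] [Module L M], Module.Finite L M → KW W M → χ.f M = 0

/-- **Prf**. Induction on the projective dimension of `N`. `PD 0 N`: `N` is free (local ring), `N / W N ≅ (L/W)^n`. Step: `0 → N' → L^n → N → 0`, `PD j N'`, `W` is a nonzerodivisor on `N' ⊆ L^n`, and `0 → N'/W N' → L^n/W L^n → N/W N → 0` is exact (injective: `x ∈ N'`, `x = W y`,
then `W` kills the image of `y` in `N`, so `y ∈ N'`). `χ ((L/W)^n) = n χ (L/W) = 0`. -/
def S_Prf : Prop :=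
  ∀ (L : Type) [CommRing L] (W : L) (V : Type) [AddCommGroup V] (χ : AF L W V), NLD L → W ≠ 0 →
    χ.f (L ⧸ Ideal.span {W}) = 0 → ∀ (N : Type) [AddCommGroup N] [Module L N], Module.Finite L N → Reg W N →
    χ.f (Qt W N) = 0

/-- **Chn**. `S_Phi` and `S_Prf` (`χ (L/W) = ch k (W) (1) = 0`: `S_Ckb`, `S_Tri`). -/
def S_Chn : Prop :=
  ∀ (L E : Type) [CommRing L] [Ring E] [Algebra L E] (C : Cal L E) (W : L) (k : ℕ), NLD L → W ≠ 0 → C.d W = 0 → 1 ≤ k →
    ∃ χ : AF L W E, IsChern C W k χ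

/-! ## Part C: Koszul modules -/

/-- **D1**. `dA dB = (M + ε, 2 da dφ; -2 db dψ, M' - ε)` for `A = kA a b φ ψ`, `B = kB a b φ ψ`, `M = dφ dψ`, `M' = dψ dφ`, `ε = da db` (scalar 1-forms anticommute with the entries of `dφ`, `dψ`). Only terms with at most one `da` and at most one `db` survive (`da da = 0`; 2-forms commute with forms).
Trace of the `k`-th power: (i) words in the diagonal blocks: `tr M ^ k + k ε tr M ^ (k-1) + tr M' ^ k - k ε tr M' ^ (k-1) = 2 k ε tr M ^ (k-1)`, since `tr M' ^ r = - tr M ^ r` for `r ≥ 1` (`S_Sw`), `k ≥ 2`. (ii) words with the two off-diagonal blocks once each: for every choice of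
two positions among `k` and start `1`: `tr (M ^ α (2 da dφ) M' ^ β (-2 db dψ) M ^ γ) = 4 ε tr (M ^ (k-1))` (move `db` to the left past `dφ M' ^ β`: sign `-1`; `dφ (dψ dφ) ^ β dψ = M ^ (β+1)`; cyclicity for even forms), start `2`: `tr (M' ^ α (-2 db dψ) M ^ β (2 da dφ) M' ^ γ) = 4 db da tr (M' ^ (k-1)) = 4 ε tr (M ^ (k-1))`.
Total `2 k + 8 k (k-1) / 2 = 2 k (2 k - 1)`. In Lean it is easier to prove by induction on `r` an explicit formula for the blocks of `(dA dB) ^ r`, modulo commutation: with `a = da`, `b = db` central up to sign one has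
`X ^ r = (M ^ r + r ε M ^ (r-1) + 4 (r choose 2) ε M ^ (r - 1), 2 da (∑_{i<r} M ^ i dφ M' ^ (r-1-i)); -2 db (∑ ...), M' ^ r - r ε M' ^ (r-1) - 4 (r choose 2) ε M' ^ (r-1))`, where `M ^ i dφ M' ^ j = M ^ (i+j) dφ`; i.e. the blocks are
`M ^ r + (r + 2 r (r-1)) ε M ^ (r-1)`, `2 r da M ^ (r-1) dφ`, `-2 r db M' ^ (r-1) dψ`, `M' ^ r - (r + 2 r (r-1)) ε M' ^ (r-1)` (check the induction step: `2 da dφ` times `-2 r db M' ^ (r-1) dψ` is `4 r ε M ^ r`). -/
def S_D1 : Prop :=
  ∀ (L E : Type) [CommRing L] [Ring E] [Algebra L E] (C : Cal L E) (n : Type) [Fintype n] [DecidableEq n] (a b : L)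
    (φ ψ : Matrix n n L) (k : ℕ), 2 ≤ k →
    C.ch k (kA a b φ ψ) (kB a b φ ψ) = (2 * k * (2 * k - 1)) • (C.d a * C.d b * C.ch (k - 1) φ ψ)

/-- **D2**. Maps: `i (x) = (0, x)`, `p (u, v) = u` on classes (`CkI A I = L^(n ⊕ n) / (im A + I L^(n ⊕ n))`). `A = kA a b φ ψ` maps `(x, y)` to `(φ x + a y, - b x + ψ y)`. `p` is well defined and surjective; its kernel: `u = φ x + a y` mod `I`, subtract `A (x, y)`: class of `(0, w)`. `i` is well defined
(`(0, (W₀ + a b) x) = - A (a x, - φ x)`: `φ a x - a φ x = 0`, `- b a x - ψ φ x = - (a b + W₀) x`) and injective: if `(0, w) ∈ im A + I`, i.e. `φ x + a y ∈ I^n`, `w + b x - ψ y ∈ I^n`, then `W₀ x + a ψ y = ψ (φ x + a y) ∈ I^n`, so `x ∈ (I + (a))^n` (`W₀` regular mod `I + (a)`), `x = a x' + I`, then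
`a (φ x' + y) ∈ I^n`, so `φ x' + y ∈ I^n`, and `w ≡ - b a x' + ψ y ≡ - (a b + W₀) x'`. -/
def S_D2 : Prop :=
  ∀ (L : Type) [CommRing L] (n : Type) [Fintype n] [DecidableEq n] (W₀ a b : L) (φ ψ : Matrix n n L) (I : Ideal L),
    IsMF W₀ φ ψ → RegI a I → RegI W₀ (I ⊔ Ideal.span {a}) →
    IsMF (W₀ + a * b) (kA a b φ ψ) (kB a b φ ψ) ∧
    ∃ (i : (n → L ⧸ (I ⊔ Ideal.span {W₀ + a * b})) →ₗ[L] CkI (kA a b φ ψ) I) (p : CkI (kA a b φ ψ) I →ₗ[L] CkI φ (I ⊔ Ideal.span {a})),
      Function.Injective i ∧ Function.Surjective p ∧ Function.Exact i p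

/-- the potential `W₀ + ∑ a b` -/
def pot {L : Type} [CommRing L] (W₀ : L) (ps : List (L × L)) : L := ps.foldl (fun W q => W + q.1 * q.2) W₀

/-- **KosI**. Induction on `ps`. `[]`: `idl [] = 0`, `CkI φ 0 ≅ coker φ`. `(a, b) :: ps`: with `I = idl ps`, `idl ((a, b) :: ps) = I + (a)`; `S_D2` gives `0 → (L/(I + (W₀ + a b)))^n → CkI A I → CkI φ (I + (a)) → 0` with the MF `(A, B)` of `W₀ + a b`. The first term: `W = pot W₀ (..)` is congruent to `W₀ + a b` mod `I`, so
`L/(I + (W₀ + a b)) ≅ N / W N` for `N = L/I`, and `W` is a nonzerodivisor on `N`: `χ = 0` (`IsChern.perf`). Second term by induction, `S_D1` (`k - length ps ≥ 2`), and `Cal.kf`: `kf k ((a, b) :: ps) = kf k ps * (2 k' (2 k' - 1) • (da db))`, `k' = k - length ps`. -/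
def S_KosI : Prop :=
  ∀ (L E : Type) [CommRing L] [Ring E] [Algebra L E] (C : Cal L E) (k : ℕ) (ps : List (L × L)) (W₀ : L) (χ : AF L (pot W₀ ps) E)
    (n : Type) [Fintype n] [DecidableEq n] (φ ψ : Matrix n n L), IsNoetherianRing L → ps.length + 1 ≤ k →
    IsChern C (pot W₀ ps) k χ → IsMF W₀ φ ψ → Good W₀ ps →
    χ.f (CkI φ (idl ps)) = C.kf k ps * C.ch (k - ps.length) φ ψ

/-- **Kos**. `S_KosI` for the `1 × 1` MF `(a, b)` of `a b`: `ch 1 = da db`, `CkI (a) (idl ps) ≅ L / idl ((a, b) :: ps)`. -/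
def S_Kos : Prop :=
  ∀ (L E : Type) [CommRing L] [Ring E] [Algebra L E] (C : Cal L E) (ps : List (L × L)) (a b : L) (χ : AF L (pot (a * b) ps) E),
    IsNoetherianRing L → IsChern C (pot (a * b) ps) (ps.length + 1) χ → Good (a * b) ps →
    χ.f (L ⧸ idl ((a, b) :: ps)) = C.kf (ps.length + 1) ps * (C.d a * C.d b)

/-- **Kn**. `χ₀ M₀ = χ (M₀ regarded as an L-module by π)` (`Pool.Agent.FY.Res`) is an additive function on the finite `L₀`-modules killed by `W₀` (`π W = W₀` since `π w = 0`; `π` is surjective). By `S_Uni` it is zero if it is zero on the MFs `(φ₀, ψ₀)` of `W₀`: `coker φ₀` regarded as an `L`-module is `CkI (ι φ₀) (w)`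
(`ker π = (w)`), and by `S_KosI` with `ps = [(w, b)]` its value is `kf k [(w, b)] * ch (k-1) = c • (dw db) ... = 0`. The conditions `Good (ι W₀) [(w, b)]`: `w ≠ 0` is regular (domain), `ι W₀` is regular mod `w` (`L/w = L₀` domain, `W₀ ≠ 0`), `W ≠ 0`, so `W` is regular. Finally a finite `L`-module `M` killed by `w` and `W` is isomorphic to
`Res π (Res ι M)` (`ι (π l) - l ∈ (w)`), and `Res ι M` is finite over `L₀`, killed by `W₀`. -/
def S_Kn : Prop :=
  ∀ (L L₀ E : Type) [CommRing L] [CommRing L₀] [Ring E] [Algebra L E] (C : Cal L E) (ι : L₀ →+* L) (π : L →+* L₀) (w b : L)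
    (W₀ : L₀) (k : ℕ) (χ : AF L (ι W₀ + w * b) E), NLD L → NLD L₀ → (∀ x, π (ι x) = x) → (∀ x, π x = 0 ↔ ∃ y, x = w * y) →
    w ≠ 0 → W₀ ≠ 0 → ι W₀ + w * b ≠ 0 → C.d w * C.d b = 0 → 2 ≤ k → IsChern C (ι W₀ + w * b) k χ →
    ∀ (M : Type) [AddCommGroup M] [Module L M], Module.Finite L M → (∀ m : M, w • m = 0) → KW (ι W₀ + w * b) M →
    χ.f M = 0

end Pool.Agent.QV
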