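import Pool.Agent.Lib.MP_b53bfe_ag.Q.DefsE

/-!
# Disproof of Q1 of MP_b53bfe_ag for quintic threefolds. Part E: from the small diagonal to Koszul modules

`BB K` is the polynomial ring in `Z, p, x₁, x₂, x₃, q, μ, ν, ξ₀, ξ₄` (numbers `0, ..., 9`), a `PP K`-algebra by `hB`. All modules of the chain are `BB / J` for ideals `J` of `BB`. `Φ : AX (PP K) (WW a) (thP K) V`.
-/

set_option autoImplicit false

noncomputable section

namespace Pool.Agent.QV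

open MvPolynomial
open Pool.Agent.FY (Res)

/-- **Rgp**. (1) `a x ∈ J + (b)`: `a x = j + b y`, so `b y ∈ J + (a)`, `y ∈ J + (a)`, `y = j' + a y'`, `a (x - b y') ∈ J`, so `x ∈ J + (b)`. (2), (3), (4) direct. (5) `f s = a x`: `a` divides `f s`, so `s = a s'`, `x = f s'`. -/
def S_Rgp : Prop :=
  ∀ (R : Type) [CommRing R],
    (∀ (J : Ideal R) (a b : R), RegI a J → RegI b (J ⊔ Ideal.span {a}) → RegI a (J ⊔ Ideal.span {b})) ∧
    (∀ (J : Ideal R) (a b : R), RegI a J → RegI b J → RegI (a * b) J) ∧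
    (∀ (J : Ideal R) (a b : R), a - b ∈ J → RegI a J → RegI b J) ∧
    (∀ (J : Ideal R) (a : R), J.IsPrime → a ∉ J → RegI a J) ∧
    ∀ (a f : R), IsDomain R → a ≠ 0 → (Ideal.span {a}).IsPrime → f ∉ Ideal.span {a} → RegI a (Ideal.span {f})

/-- **Bqc**. Comparison (as in `S_Bq`, part 4, with `g ∘ h = h'` only modulo `J'`): the map `B/J → B'/J'` induced by `g` is `P`-linear for the module structures by `h`, `h'`; `S_Tis`. -/
def S_Bqc : Prop :=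
  ∀ (P B B' : Type) [CommRing P] [CommRing B] [CommRing B'] (h : P →+* B) (h' : P →+* B') (W θ : P) (V : Type) [AddCommGroup V]
    (Φ : AX P W θ V) (g : B →+* B') (J : Ideal B) (J' : Ideal B'), IsNoetherianRing P → (∀ x, g (h x) - h' x ∈ J') →
    LFn θ (Res h (B ⧸ J)) → LFn θ (Res h' (B' ⧸ J')) → h W ∈ J → (∀ x ∈ J, g x ∈ J') →
    (∀ x, g x ∈ J' → ∃ k : ℕ, h θ ^ k * x ∈ J) → (∀ y, ∃ (k : ℕ) (x : B), h' θ ^ k * y - g x ∈ J') →
    Φ.f (Res h (B ⧸ J)) = Φ.f (Res h' (B' ⧸ J'))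

/-- **LfE**. By `S_LfB` with `J = 0`: `h θ = μ ν x₃³`; `Z`, `p`, `x₁`, `x₂`, `x₃`, `q` are in the image of `h`; `μ h θ = h (w₃² x₃')`, `ν h θ = h (w₃ x₃'²)`, `ξ₀ = h (p' + q') - ν (p + q)`, so `h θ ξ₀ = h (θ (p' + q') - w₃ x₃'² (p + q))`, and `ξ₄ = h (p' - q') - ν (p - q)`. -/
def S_LfE : Prop :=
  ∀ (K : Type) [Field K] [CharZero K] (a : Par K), hB a (thP K) = X 6 * X 7 * X 4 ^ 3 ∧
    (∀ y : BB K, ∃ (k : ℕ) (b : PP K), hB a (thP K) ^ k * y = hB a b) ∧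
    ∀ J : Ideal (BB K), LFn (thP K) (Res (hB a).toRingHom (BB K ⧸ J))

/-- **hW**. `hB W = μ x₁ Z + μ⁵ (f - x₁ R) + f + f'`, where `f'` is `f` at `(ν p + (ξ₀ + ξ₄)/2, ν x₁, ν x₂, ν x₃, ν q + (ξ₀ - ξ₄)/2)`. (1) mod `ξ₀`, `ξ₄`: `f' = ν⁵ f`; `μ x₁ Z - μ⁵ x₁ R = μ x₁ (Z - μ⁴ R)`. (2) `p'² - q'² = (ν (p+q) + ξ₀) (ν (p-q) + ξ₄) = ν² (p² - q²) + rB`; mod `x₁` and `rB`: `f' = ν⁵ f`.
(4) mod `p + q`, `x₁`: `f = x₃⁵ + (1 - 5 c²) x₂⁵` (`IsKap`). The elements of the ideals are found by `Ideal.mem_span_insert`, or by working in the quotient ring (`Ideal.Quotient.eq_zero_iff_mem`). -/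
def S_hW : Prop :=
  ∀ (K : Type) [Field K] [CharZero K] (a : Par K),
    hB a (WW a) - X 6 * (X 2 * zB a) ∈ J1 a ∧
    hB a (WW a) ∈ J0 a ⊔ Ideal.span {rB K} ∧
    rB K - X 7 * (X 9 * (X 1 + X 5)) ∈ Ideal.span {(X 8 : BB K)} ∧
    ∀ κ : Fin 5 → K, IsKap a κ → (∏ k : Fin 5, (X 4 + C (κ k) * X 3)) - fB a ∈ J4 K

/-- **RgE**. Regularity. By `S_Ret` for the retraction `r` which sends `X 8`, `X 9` (resp. `X 2`, `X 8`, resp. `X 2`) to `0` it is enough to show `RegI b (r f)` for `b = X 6, X 2, zB` (resp. `X 7`, `X 9`, `X 1 + X 5`, resp. `X 8`), `f = fB a`: `J1 = ker r ⊔ (f)`, etc. (for elements `x ∈ (f)` use the ideal `(r f)`: `ker r ⊔ (f) = ker r ⊔ (r f)`).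
The ideals `(b)` are prime (kernels of retractions to a domain: `X i ↦ 0`, `X 5 ↦ - X 1`, `X 0 ↦ μ⁴ R`), and `r f ∉ (b)` because `f` contains `x₃⁵` (evaluate at a point with `x₃ = 1` and all other coordinates `0`, where `b = 0`). So `S_Rgp` (5). `J4` is the kernel of a retraction and `x₃ + κ x₂ ∉ J4`. -/
def S_RgE : Prop :=
  ∀ (K : Type) [Field K] [CharZero K] (a : Par K),
    (RegI (X 6) (J1 a) ∧ RegI (X 2) (J1 a) ∧ RegI (zB a) (J1 a)) ∧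
    (RegI (X 8) (J0 a) ∧ RegI (X 7) (J0 a ⊔ Ideal.span {X 8}) ∧ RegI (X 9) (J0 a ⊔ Ideal.span {X 8}) ∧
      RegI (X 1 + X 5) (J0 a ⊔ Ideal.span {X 8})) ∧
    ∀ κ : K, RegI (X 4 + C κ * X 3) (J4 K)

/-- **Ch1**. The chain, first part. Write `Φ J` for the value at `BB / J`. (a) `hB W` is regular mod `J1` (congruent to `X 6 * (X 2 * zB)`, `S_Rgp`), so `Φ (J1 + X 6 (X 2 zB)) = 0` (`S_Bq` (1)), `= Φ (J1 + X 6) + Φ (J1 + X 2 zB)` (`S_Mlt`), the first is `0` (`S_Bq` (3): `hB θ ∈ (X 6)`), and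
`Φ (J1 + X 2 zB) = Φ (J1 + X 2) + Φ (J1 + zB)`. So `Φ (J1 + zB) = - Φ (J1 + X 2)`. (b) `J2 = J0 + rB` contains `hB W`. `X 8` is regular mod `J2`: `S_Rgp` (1) with `RegI (X 8) J0` and `RegI rB (J0 + X 8)` (`rB` is congruent to `X 7 (X 9 (X 1 + X 5))`, a product of regular elements). So `Φ (J2 + X 8) = 0` (`S_Bq` (2)) and
`J2 + X 8 = J3 + X 7 (X 9 (X 1 + X 5))`, `J3 = J0 + X 8`. `S_Mlt`: `0 = Φ (J3 + X 7) + Φ (J3 + X 9 (X 1 + X 5))`, the first is torsion, and `Φ (J3 + X 9 (X 1 + X 5)) = Φ (J3 + X 9) + Φ (J3 + (X 1 + X 5))`. (c) `J3 + X 9 = J1 + X 2`. Result: `Φ (J1 + zB) = Φ (J3 + (X 1 + X 5))`. (`hB W` is in all the ideals where it is needed.) -/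
def S_Ch1 : Prop :=
  ∀ (K : Type) [Field K] [CharZero K] (a : Par K) (V : Type) [AddCommGroup V] (Φ : AX (PP K) (WW a) (thP K) V),
    (∀ (N : Type) [AddCommGroup N] [Module (PP K) N], LFn (thP K) N → Reg (WW a) N → Φ.f (Qt (WW a) N) = 0) →
    Φ.f (Res (hB a).toRingHom (BB K ⧸ (J1 a ⊔ Ideal.span {zB a}))) =
      Φ.f (Res (hB a).toRingHom (BB K ⧸ (J0 a ⊔ Ideal.span {X 8} ⊔ Ideal.span {X 1 + X 5})))

/-- **Ch2**. `J0 + X 8 + (X 1 + X 5) = J4 + f = J4 + ∏ (X 4 + κ_k X 3)` (`S_hW`), then `S_Mlt` four times (`X 4 + κ X 3` is regular mod `J4`: `S_RgE`). -/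
def S_Ch2 : Prop :=
  ∀ (K : Type) [Field K] [CharZero K] (a : Par K) (V : Type) [AddCommGroup V] (Φ : AX (PP K) (WW a) (thP K) V)
    (κ : Fin 5 → K), IsKap a κ →
    Φ.f (Res (hB a).toRingHom (BB K ⧸ (J0 a ⊔ Ideal.span {X 8} ⊔ Ideal.span {X 1 + X 5}))) =
      ∑ k : Fin 5, Φ.f (Res (hB a).toRingHom (BB K ⧸ (J4 K ⊔ Ideal.span {X 4 + C (κ k) * X 3})))

/-- **CmpM**. `S_Bqc` with `B = PP`, `h = id`, `g = h' = hB`, `J = IM a κ`, `J' = J4 + (X 4 + κ X 3)`. `hB` maps the generators of `IM` to `J'`. `LFn` and the last condition: `S_LfE` (`PP / IM` is finite over `PP`). Kernel: let `A = (PP / IM)` localized at `θ` (`Localization.Away`); there `x₂` is invertible since `x₃ = - κ x₂` and `θ = w₃ x₃ x₃'`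
(no condition on `κ`: `x₂ · (- κ ..)`: `θ = - κ³ w₂ x₂ x₂'`, so `w₂`, `x₂`, `x₂'` are invertible). Ring homomorphism `ℓ : BB → A`: `Z ↦ Z`, `p ↦ p`, `x₁ ↦ 0`, `x₂ ↦ x₂`, `x₃ ↦ - κ x₂`, `q ↦ - p`, `μ ↦ w₂ / x₂`, `ν ↦ x₂' / x₂`, `ξ₀ ↦ 0`, `ξ₄ ↦ 2 (p' - ν p)`. It kills `J'`, and `ℓ (hB x)` is the class of `x` for all `x ∈ PP` (check the 15 variables). So `hB x ∈ J'` implies that `x` is `0` in `A`, i.e. `θ ^ k x ∈ IM`.
`WW a ∈ IM` (`S_GoodM`: `WW a` is the potential of the pairs). Finally `Res id (PP / IM) ≅ PP / IM`. -/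
def S_CmpM : Prop :=
  ∀ (K : Type) [Field K] [CharZero K] (a : Par K) (V : Type) [AddCommGroup V] (Φ : AX (PP K) (WW a) (thP K) V) (κ : K),
    κ ^ 5 = 1 - 5 * a.c ^ 2 →
    Φ.f (PP K ⧸ IM a κ) = Φ.f (Res (hB a).toRingHom (BB K ⧸ (J4 K ⊔ Ideal.span {X 4 + C κ * X 3})))

/-- **CmpS**. `S_Bqc` with `B = PP` (the rows `y, x, x'`), `h = rho a`, `g = gB K`, `J = smI a`, `B' = BB`, `h' = hB a`, `J' = J1 + zB`. `gB (rho X_v) - hB X_v ∈ J'` for the 15 variables (`R (μ x) = μ⁴ R (x)`, `Z ≡ μ⁴ R`, `ξ₀ ≡ ξ₄ ≡ 0`). `gB` maps the minors to `0` and the `fS a i` to `μ⁵ f`, `f`, `ν⁵ f`. `LFn`: `PP` is finite over `PP` by `rho` (`S_Fin`, `A ≠ 0`), resp. `S_LfE`. Last condition: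
`S_LfB` for `gB` and `J'` (`Z ≡ μ⁴ R`, `μ · gB (y₃ x₃ x₃') = gB (y₃² x₃')`, ...; `hB θ = gB θ = μ ν x₃³`), `gB (thP K) = hB a (thP K)`. Kernel: `A = (PP / smI)` localized at `θ = y₃ x₃ x₃'`; `ℓ : BB → A`: `Z ↦ (y₃/x₃)⁴ R (x)`, `(p, x₁, x₂, x₃, q) ↦` the row `x`, `μ ↦ y₃ / x₃`, `ν ↦ x₃' / x₃`, `ξ₀, ξ₄ ↦ 0`. It kills `J'` and `ℓ (gB x)` is the class of `x` (minors: `x₃ y_i = y₃ x_i`).
So `gB x ∈ J'` implies `θ ^ k x ∈ smI`, and `rho a θ = θ`. `rho a W = f (y) + f (x) + f (x') ∈ smI`. -/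
def S_CmpS : Prop :=
  ∀ (K : Type) [Field K] [CharZero K] (a : Par K) (V : Type) [AddCommGroup V] (Φ : AX (PP K) (WW a) (thP K) V), a.A ≠ 0 →
    Φ.f (Res (rho a).toRingHom (PP K ⧸ smI a)) = Φ.f (Res (hB a).toRingHom (BB K ⧸ (J1 a ⊔ Ideal.span {zB a})))

/-- **Fin**. `y₁, y₂, y₃` and the rows `1`, `2` are in the image of `rho`, `U = p² - q² = rho (u - c w₂²)`. The equation `rho Z = R (y)` with `q² = p² - U` is a quadratic equation for `p²`: `A² p⁴ + (- A² U + 2 t₁ y₁² + 2 t₂ y₂²) p² + (A y₁⁴ + t₀ y₁ y₂³ - t₁ y₁² U - t₂ y₂² U + t₃ y₁² U + t₄ U² - Z) = 0`. So `p` and then `q` (`q² = p² - U`) are integral over the image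
(`A² ≠ 0` is a unit); `PP` is generated by finitely many integral elements. `rho W = f (y) + f (x) + f (x')`. -/
def S_Fin : Prop :=
  ∀ (K : Type) [Field K] (a : Par K), a.A ≠ 0 → (rho a).toRingHom.Finite ∧ rho a (WW a) = fS a 0 + fS a 1 + fS a 2 ∧
    ∀ (M : Type) [AddCommGroup M] [Module (PP K) M], Module.Finite (PP K) M → Module.Finite (PP K) (Res (rho a).toRingHom M)

/-- **Mon**. `PP = A[X_v]` with `A` the polynomial ring in the other variables; `PP / (I₀) = (A / I₀)[X_v]`, and `X_v ^ d + g₀` is monic, so it is a nonzerodivisor (`Polynomial.Monic`). -/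
def S_Mon : Prop :=
  ∀ (K σ : Type) [Field K] (v : σ) (I₀ : Ideal (MvPolynomial {u : σ // u ≠ v} K)) (g₀ : MvPolynomial {u : σ // u ≠ v} K) (d : ℕ),
    1 ≤ d → RegI (X v ^ d + rename Subtype.val g₀) (I₀.map (rename Subtype.val : MvPolynomial {u : σ // u ≠ v} K →ₐ[K] MvPolynomial σ K))

/-- **Lin**. `lnI = (f₁, f₂) + (f₀)`; `N = PP / (f₁, f₂)` regarded as a `PP`-module by `rho` is finite (`S_Fin`), `W` acts as `f₀ + f₁ + f₂`, i.e. as `f₀ = y₃⁵ + ..`, a nonzerodivisor on `N` (`S_Mon`, `v = (0, 3)`), `N / W N ≅ PP / lnI`. For `i ≠ k` let `l` be the third row, `N = PP / (minors of i, k, f_i, f_k)`, on which `W` acts as `f_l`, a nonzerodivisor (`S_Mon`, `v = (l, 3)`: the ideal is generated by polynomials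
without `X_(l,3)`), `N / W N ≅ PP / prI a i k`. -/
def S_Lin : Prop :=
  ∀ (K : Type) [Field K] (a : Par K) (V : Type) [AddCommGroup V] (χ : AF (PP K) (WW a) V), a.A ≠ 0 →
    (∀ (N : Type) [AddCommGroup N] [Module (PP K) N], Module.Finite (PP K) N → Reg (WW a) N → χ.f (Qt (WW a) N) = 0) →
    χ.f (Res (rho a).toRingHom (PP K ⧸ lnI a)) = 0 ∧
      ∀ i k : Fin 3, i ≠ k → χ.f (Res (rho a).toRingHom (PP K ⧸ prI a i k)) = 0

/-- **GoodM**. `pot`: `(s + κ t) Qf κ s t = s⁵ + κ⁵ t⁵`, `(u - c w²) (-5 w (u + c w²)) = - 5 w u² + 5 c² w⁵`, `(p+q) (-5 y (p - q) (p² - q² + 2 c y²)) = - 5 y ((p² - q² + c y²)² - c² y⁴)`, `κ⁵ = 1 - 5 c²`. `Good`: for every suffix `ps` of the list (and for the whole list) the ideal `idl ps` is the kernel of a retraction (`S_Ret`: `w₃ ↦ - κ w₂`, `u ↦ c w₂²`, `x₁ ↦ 0`, `p ↦ - q`, `x₃ ↦ - κ x₂`, ... as far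
as they occur in `ps`), so it is prime, and `RegI b I` holds if `b ∉ I`. The potentials `W₀`, `W₀ + a b`: all generators and all second components of the pairs vanish at the point `X = Z = 1`, all other coordinates `0`, where the potential has the value `1`. The first component `a` of the first pair of `(a, b) :: ps` is not in `idl ps`: evaluate at the point with one coordinate `1` (`w₃`, `u`, `x₁`, `p`, `x₃`, `x₁'`, `p'`, `x₃'`) and
the others `0`. Last part: `IM` is the sum of `(X)` and `idl (prs)`, and contains `WW a`. -/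
def S_GoodM : Prop :=
  ∀ (K : Type) [Field K] [CharZero K] (a : Par K) (κ : K), κ ^ 5 = 1 - 5 * a.c ^ 2 →
    pot (X (0, 0) * X (0, 1)) (prs a κ) = WW a ∧ Good (X (0, 0) * X (0, 1)) (prs a κ) ∧ WW a ∈ IM a κ

/-- **Wv**. `W₀ = W - X_v⁵` does not involve `X_v`, `v = (i, 3)`; it contains `X Z`. -/
def S_Wv : Prop :=
  ∀ (K : Type) [Field K] [CharZero K] (a : Par K), WW a ≠ 0 ∧
    ∀ i : Fin 3, ∃ W₀ : MvPolynomial {u : Fin 3 × Fin 5 // u ≠ (i, 3)} K, W₀ ≠ 0 ∧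
      WW a = rename Subtype.val W₀ + X (i, 3) * X (i, 3) ^ 4

/-- **EE**. Assembly. `S_ChP` with `k = 9` gives `χ`; it vanishes on finite modules killed by `W` and by `X (i, 3)` (`S_Wv`; `d X_v * d (X_v ^ 4) = 4 X_v ^ 3 • (d X_v * d X_v) = 0`), so (`S_Tor`) by a power of `X (i, 3)`, or of `θ`. `S_Lat` gives `Φ`. First property: `rho X (i, 3) = X (i, 3)`; `Res rho M` is finite (`S_Fin`), killed by `W`. `S_Lin` gives the second and third one. Last one: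
`χ (Res rho (PP / smI)) = Φ (..)`, `S_CmpS`, `S_Ch1`, `S_Ch2`, `S_CmpM`, and `χ (PP / IM)` by `IsChP.kos` and `S_GoodM` (`prs` has `8` elements). -/
def S_EE : Prop :=
  ∀ (K : Type) [Field K] [CharZero K] (a : Par K) (κ : Fin 5 → K) (Lb E : Type) [CommRing Lb] [Algebra (PP K) Lb] [Ring E]
    [Algebra Lb E] [Algebra (PP K) E] [IsScalarTower (PP K) Lb E] (C : Cal (PP K) E),
    (∀ b : PP K, constantCoeff b ≠ 0 → IsUnit (algebraMap (PP K) Lb b)) → a.A ≠ 0 → IsKap a κ → C.d (WW a) = 0 →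
    ∃ χ : AF (PP K) (WW a) E,
      (∀ (M : Type) [AddCommGroup M] [Module (PP K) M], Module.Finite (PP K) M → (∀ (i : Fin 3) (m : M), fS a i • m = 0) →
        (∃ (i : Fin 3) (k : ℕ), ∀ m : M, (X (i, 3) : PP K) ^ k • m = 0) → χ.f (Res (rho a).toRingHom M) = 0) ∧
      χ.f (Res (rho a).toRingHom (PP K ⧸ lnI a)) = 0 ∧
      (∀ i k : Fin 3, i ≠ k → χ.f (Res (rho a).toRingHom (PP K ⧸ prI a i k)) = 0) ∧
      χ.f (Res (rho a).toRingHom (PP K ⧸ smI a)) = ∑ k : Fin 5, C.kf 9 (prs a (κ k)) * (C.d (X (0, 0)) * C.d (X (0, 1)))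

end Pool.Agent.QV
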