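import Pool.Agent.Lib.MP_b53bfe_ag.Q.GrL
import Pool.Agent.Lib.MP_b53bfe_ag.Q.DefsD

/-!
# Disproof of Q1 of MP_b53bfe_ag for quintic threefolds, phase 3: the graded form
-/

set_option autoImplicit false

noncomputable section

namespace Pool.Agent.QV

open MvPolynomial

/-- **RgF**. Regard `Pol K` as the polynomials in the variables of the row `l` with coefficients in `R`, the polynomials in the variables of the other rows. Then `x` is in `span A` if and only if all its coefficients `x_d ∈ R` (`d` a monomial in the row `l`) are in `J₀`, the ideal of `R` generated by `A`. Suppose `x_d ∉ J₀` for some `d`; there is a `K`-linear functional `λ : R → K` with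
`λ (J₀) = 0`, `λ (x_d) ≠ 0`. Apply `λ` to the coefficients: `Λ x = ∑_d λ (x_d) X ^ d ∈ K[X_0, ..., X_4]`. `Λ (form f l * x) = f * Λ x` (the coefficients of `f` are in `K`), and `Λ = 0` on `span A`. So `f * Λ x = 0`, `Λ x = 0`, contradiction to `λ (x_d) ≠ 0`. -/
def S_RgF : Prop :=
  ∀ (K : Type) [Field K] (f : MvPolynomial (Fin 5) K) (l : Fin 3) (A : Set (Gr.Pol K)), f ≠ 0 →
    (∀ r ∈ A, r ∈ supported K {p : Fin 3 × Fin 5 | p.1 ≠ l}) → ∀ x, Gr.form f l * x ∈ Ideal.span A → x ∈ Ideal.span A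

/-- **GkL**. The linear function on the Grothendieck group. -/
def S_GkL : Prop :=
  ∀ (K : Type) [Field K] (f : MvPolynomial (Fin 5) K) (hf : f.IsHomogeneous 5) (E : Type) [AddCommGroup E] [Module ℚ E]
    (χ : AFS (Gr.Pol K) (Set.range (Gr.form f)) E), f ≠ 0 → QF K f E χ →
    ∃ Ψ : Gr.K0 f →ₗ[ℚ] E, (∀ M : Gr.GrMod f, Ψ (Gr.cls M) = χ.f M.carrier) ∧ ∀ x ∈ Gr.decSpan hf, Ψ x = 0

end Pool.Agent.QV
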