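import Pool.Agent.Lib.MP_b53bfe_ag.Q.DefsH

/-!
# Disproof of Q1 of MP_b53bfe_ag for quintic threefolds. Part G: evaluation of the Chern character

The value of the additive function of Part E on the small diagonal is `∑_k kf 9 (prs a κ_k) * (dX dZ)` in `Ea a D` (exterior algebra over `Lb a` modulo `τ = dW`). If it is `0`, contraction with the 15 directions `dx` gives an equation in the exterior algebra of `dt_0, ..., dt_5`,
from which `Xt` extracts an equation in `S4 K ⊗ S4 K` (`S_GG`).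
-/

set_option autoImplicit false

noncomputable section

namespace Pool.Agent.QV

open MvPolynomial TensorProduct
open Pool.Agent.FY (Res)

/-- **Dc**. Coefficientwise: `(Dc D b).coeff m = D (b.coeff m)`, from which everything follows (`coeff_mul`). -/
def S_Dc : Prop :=
  ∀ (K σ : Type) [Field K] (D : Derivation ℤ K K), (∀ b b' : MvPolynomial σ K, Dc D (b + b') = Dc D b + Dc D b') ∧
    (∀ b b' : MvPolynomial σ K, Dc D (b * b') = b * Dc D b' + b' * Dc D b) ∧ (∀ v : σ, Dc D (X v : MvPolynomial σ K) = 0) ∧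
    ∀ k : K, Dc D (C k : MvPolynomial σ K) = C (D k)

/-- **CalE**. `grd` is additive and `grd (b b') = b • grd b' + b' • grd b` (`S_Dc`); `ι x ι x = 0`, `ι x ι y = - ι y ι x`; `ι τ ∈ tI τ`. -/
def S_CalE : Prop :=
  ∀ (K : Type) [Field K] (a : Par K) (D : Fin 6 → Derivation ℤ K K),
    ∃ C : Cal (PP K) (Ea a D), (∀ b, C.d b = dE a D b) ∧ C.d (WW a) = 0

/-- **Un**. `b = b₀ (1 + n)`, `b₀ ≠ 0` constant, `n` without constant term; all monomials of `n ^ 27` have weight at least `27` (all weights of variables are at least `1`), so `n ^ 27 = 0` in `Lb a`. -/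
def S_Un : Prop :=
  ∀ (K : Type) [Field K] (a : Par K) (b : PP K), constantCoeff b ≠ 0 → IsUnit (algebraMap (PP K) (Lb a) b)

/-- the product of the 18 one-forms (in the exterior algebra) -/
def pr18 {R : Type} [CommRing R] (α : Fin 3 → Fin 6 → Dn → R) : ExteriorAlgebra R (Dn → R) :=
  (List.ofFn fun s : Fin 3 => (List.ofFn fun i : Fin 6 => ExteriorAlgebra.ι R (α s i)).prod).prod

/-- **kf**. The definition of `kf 9` for the 8 pairs: factors `2 k' (2 k' - 1)`, `k' = 2, ..., 9`, the product is `18! / 2`; the products `da db` commute with each other, so the order can be changed to `dX dZ, da₁ db₁, ..., da₈ db₈`, which are the classes of `ι (grd ..)` of `sl a κ 0 i`, `sl a κ 1 i`, `sl a κ 2 i`. -/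
def S_kf : Prop :=
  ∀ (K : Type) [Field K] (a : Par K) (D : Fin 6 → Derivation ℤ K K) (κ : K) (C : Cal (PP K) (Ea a D)),
    (∀ b, C.d b = dE a D b) →
    C.kf 9 (prs a κ) * (C.d (X (0, 0)) * C.d (X (0, 1))) =
      (3201186852864000 : ℕ) • (Ideal.Quotient.mk _ (pr18 fun s i => grd a D (sl a κ s i)) : Ea a D)

/-- **Gx1**. Iterated contraction of a product of `k + 1` one-forms with `k` functionals. One contraction: `φ ⌋ (ι α₀ ... ι α_k * y) = ∑_i (-1)^i φ (α_i) ∏_{j ≠ i} ι α_j * y` if `φ ⌋ y = 0` (`CliffordAlgebra.contractLeft_ι_mul`, induction). Then induction on `k`; the determinant by expansion along the first column (`Matrix.det_succ_column_zero`). The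
vector `n` is `∑_i (-1)^(i + k) (minor) α_i`. -/
def S_Gx1 : Prop :=
  ∀ (R M : Type) [CommRing R] [AddCommGroup M] [Module R M] (k : ℕ) (φ : Fin k → Module.Dual R M) (α : Fin (k + 1) → M)
    (y : ExteriorAlgebra R M), (∀ i, CliffordAlgebra.contractLeft (φ i) y = 0) →
    ∃ n : M, (List.ofFn φ).foldl (fun z f => CliffordAlgebra.contractLeft f z)
        ((List.ofFn fun i => ExteriorAlgebra.ι R (α i)).prod * y) = ExteriorAlgebra.ι R n * y ∧
      ∀ ψ : Module.Dual R M, ψ n = (Matrix.of fun i j : Fin (k + 1) => (Fin.snoc φ ψ : Fin (k + 1) → Module.Dual R M) j (α i)).det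

/-- **Gx**. Contract `∑_k pr18 = ι τ * β` with the five functionals `(0, 0), ..., (0, 4)`, then with those of the slots `1`, `2`. By `S_Gx1` (`k = 5`) and since the functionals of a slot kill the one-forms of the other slots and the vectors `n` (determinant with two equal columns; `n` of the slot `s` has zero coordinates at all `inl`), the left hand side becomes `- ∑_k ι n₀ ι n₁ ι n₂`
(five contractions past one, resp. two, one-forms: signs `(-1)^5`, `1`), where `n_s (w) = (mat6 (α k s) s w).det`; the right hand side becomes `- ι τ * β'` (`(-1)^15`). So `∑_k ι n₀ ι n₁ ι n₂ = ι τ * β'`. Contract with the functionals of `inr i`, `inr j`, `inr m` and apply `ExteriorAlgebra.algebraMapInv` (`0` on multiples `ι τ * _`): left side `det 3 × 3` (`S_Gx1`, `k = 2`), right side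
`τ_i ω j m - τ_j ω i m + τ_m ω i j` with `ω i j = algebraMapInv (φ_j ⌋ (φ_i ⌋ β'))`. -/
def S_Gx : Prop :=
  ∀ (R : Type) [CommRing R] (τ : Dn → R) (α : Fin 5 → Fin 3 → Fin 6 → Dn → R), (∀ v, τ (Sum.inl v) = 0) →
    (∀ (k : Fin 5) (s : Fin 3) (i : Fin 6) (s' : Fin 3) (j : Fin 5), s' ≠ s → α k s i (Sum.inl (s', j)) = 0) →
    (∑ k, pr18 (α k)) ∈ tI τ →
    ∃ ω : Fin 6 → Fin 6 → R, ∀ i j m : Fin 6,
      ∑ k, (Matrix.of fun s r : Fin 3 => (mat6 (α k s) s (Sum.inr ((![i, j, m] : Fin 3 → Fin 6) r))).det).det =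
        τ (Sum.inr i) * ω j m - τ (Sum.inr j) * ω i m + τ (Sum.inr m) * ω i j

/-- **Eq**. By `S_kf` the sum of the classes of the `pr18` is killed by `18!/2`, a unit (`K` has characteristic `0`), so `∑_k pr18 ∈ tI τ`, `τ = grd W` (its `inl` components are `0` in `Lb`). The polynomials `sl a κ s i` involve only the variables of the row `s`. `S_Gx`, and lift `ω` to `PP K`; the determinants are the images of the `NN`. -/
def S_Eq : Prop :=
  ∀ (K : Type) [Field K] [CharZero K] (a : Par K) (D : Fin 6 → Derivation ℤ K K) (κ : Fin 5 → K) (C : Cal (PP K) (Ea a D)),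
    (∀ b, C.d b = dE a D b) → ∑ k, C.kf 9 (prs a (κ k)) * (C.d (X (0, 0)) * C.d (X (0, 1))) = 0 →
    ∃ ω : Fin 6 → Fin 6 → PP K, ∀ i j m : Fin 6,
      ∑ k, (Matrix.of fun s r : Fin 3 => NN a D (κ k) s ((![i, j, m] : Fin 3 → Fin 6) r)).det -
        (Dc (D i) (WW a) * ω j m - Dc (D j) (WW a) * ω i m + Dc (D m) (WW a) * ω i j) ∈ JL a

/-- **Nv**. Computation of the `6 × 6` determinants. `5 κ⁴ D κ = -10 c D c`, so `κ⁴ D₀ κ = - 2 c`, `D_j κ = 0` for `j ≥ 1` (`κ ≠ 0`). Slot `0`: the first two rows are unit vectors; the last column is `0` for `j ≥ 1` (`c`, `κ` are the only parameters). Slots `1`, `2`, `j ≥ 1`: the only nonzero entry of the last column is `R_j` in the row of `R`; the first row is the unit vector of `x₁`; rows of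
`p + q`: `(1, 0, 0, 0, 1)` on `(p, x₁, x₂, x₃, q)`, etc. (all formulas are checked by computer). -/
def S_Nv : Prop :=
  ∀ (K : Type) [Field K] [CharZero K] (a : Par K) (D : Fin 6 → Derivation ℤ K K) (κ : K), IsDer a D → κ ^ 5 = 1 - 5 * a.c ^ 2 → κ ≠ 0 →
    κ ^ 4 * D 0 κ = -2 * a.c ∧
    NN a D κ 0 0 = 25 * X (0, 2) * (C (5 * a.c * D 0 κ) * X (0, 2) ^ 2 + C (D 0 κ) * X (0, 4) - C (2 * κ) * X (0, 2) ^ 2) *
      (X (0, 3) ^ 3 - C κ * X (0, 3) ^ 2 * X (0, 2) + C (κ ^ 2) * X (0, 3) * X (0, 2) ^ 2 - C (κ ^ 3) * X (0, 2) ^ 3) ∧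
    (∀ j : Fin 5, NN a D κ 0 j.succ = 0) ∧
    ∀ (s : Fin 3) (j : Fin 5), s ≠ 0 → NN a D κ s j.succ = -(C (100 * κ) * ev K s (ps1 a j.succ) *
      (X (s, 3) ^ 3 - C κ * X (s, 3) ^ 2 * X (s, 2) + C (κ ^ 2) * X (s, 3) * X (s, 2) ^ 2 - C (κ ^ 3) * X (s, 2) ^ 3))

/-- **DW**. Direct computation, `S_Dc`. -/
def S_DW : Prop :=
  ∀ (K : Type) [Field K] [CharZero K] (a : Par K) (D : Fin 6 → Derivation ℤ K K), IsDer a D → ∀ i : Fin 6,
    Dc (D i) (WW a) = ev K 1 (GG a i) + ev K 2 (GG a i)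

/-- **pW**. The partial derivatives of `W`. `f` in the row `r` is `X (r, 3) ^ 5 + ev r (H4 a)` (`p² q² = (s² - v²) / 4`), the chain rule for `ev`. -/
def S_pW : Prop :=
  ∀ (K : Type) [Field K] [CharZero K] (a : Par K),
    pderiv (0, 0) (WW a) = X (0, 1) ∧ pderiv (0, 1) (WW a) = X (0, 0) ∧
    pderiv (0, 2) (WW a) = 5 * (X (0, 2) ^ 4 - X (0, 4) ^ 2) ∧ pderiv (0, 3) (WW a) = 5 * X (0, 3) ^ 4 ∧
    pderiv (0, 4) (WW a) = -(10 * (X (0, 2) * X (0, 4))) ∧
    ∀ r : Fin 3, r ≠ 0 → fS a r = X (r, 3) ^ 5 + ev K r (H4 a) ∧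
      pderiv (r, 3) (WW a) = 5 * X (r, 3) ^ 4 ∧ pderiv (r, 1) (WW a) = ev K r (pderiv 0 (H4 a)) ∧
      pderiv (r, 2) (WW a) = ev K r (pderiv 1 (H4 a)) ∧
      pderiv (r, 0) (WW a) = 2 * X (r, 0) * ev K r (pderiv 2 (H4 a) + pderiv 3 (H4 a)) ∧
      pderiv (r, 4) (WW a) = 2 * X (r, 4) * ev K r (pderiv 2 (H4 a) - pderiv 3 (H4 a))

/-- **X1**. `Xt` is semilinear for the polynomials in `x₁, x₂, p² + q², p² - q²`. It is enough to take `g` a variable and `F` a monomial (`MvPolynomial.induction_on`): multiplication by `x₁`, `x₂` shifts the exponents (`mok` does not depend on them), `p²`, `q²` shift by `2` and multiply `rowm` by `(s + v)/2`, `(s - v)/2`. -/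
def S_X1 : Prop :=
  ∀ (K : Type) [Field K] [CharZero K] (g : S4 K) (F : PP K),
    Xt K (ev K 1 g * F) = (g ⊗ₜ[K] (1 : S4 K)) * Xt K F ∧ Xt K (ev K 2 g * F) = ((1 : S4 K) ⊗ₜ[K] g) * Xt K F

/-- **X2**. On monomials `F`: the exponents of the products violate `mok` (for `w₂⁴ - u²` the two values cancel: the product of a monomial `F` with `w₂⁴` is seen if and only if the one with `u²` is seen, namely if `F` has no `w₂`, `u`, `X`, `Z`, and the rest is the same). -/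
def S_X2 : Prop :=
  ∀ (K : Type) [Field K] [CharZero K] (F : PP K),
    Xt K (F * X (0, 0)) = 0 ∧ Xt K (F * X (0, 1)) = 0 ∧ Xt K (F * X (0, 3) ^ 4) = 0 ∧
    Xt K (F * (X (0, 2) ^ 4 - X (0, 4) ^ 2)) = 0 ∧ Xt K (F * (X (0, 2) * X (0, 4))) = 0 ∧
    Xt K (F * X (1, 3) ^ 4) = 0 ∧ Xt K (F * X (2, 3) ^ 4) = 0 ∧
    (∃ z, Xt K (F * X (1, 0)) = ((X 2 + X 3 : S4 K) ⊗ₜ[K] (1 : S4 K)) * z) ∧
    (∃ z, Xt K (F * X (1, 4)) = ((X 2 - X 3 : S4 K) ⊗ₜ[K] (1 : S4 K)) * z) ∧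
    (∃ z, Xt K (F * X (2, 0)) = ((1 : S4 K) ⊗ₜ[K] (X 2 + X 3 : S4 K)) * z) ∧
    ∃ z, Xt K (F * X (2, 4)) = ((1 : S4 K) ⊗ₜ[K] (X 2 - X 3 : S4 K)) * z

/-- **X3**. Values. The row `0` part of `NN 0 0` has the coefficient `50 κ² - 125 c κ κ'` at `w₃² w₂⁴` plus `0` at `w₃² u²`, (`κ' = D₀ κ`), which is `50 / κ³` (`κ⁴ κ' = - 2 c`, `κ⁵ + 5 c² = 1`). In the row `1` the functional takes the coefficient of `x₃³`: `- 100 κ ψ_j`, in the row `2` the one of `x₃²`: `100 κ² y ψ_m = 100 κ² ψ'_m`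
(`S_X1` for the factors `ev (..)` and powers of `x₂`). Product: `(50 / κ³) (- 100 κ) (100 κ²) = - 500000`. -/
def S_X3 : Prop :=
  ∀ (K : Type) [Field K] [CharZero K] (a : Par K) (D : Fin 6 → Derivation ℤ K K) (κ : K), IsDer a D → κ ^ 5 = 1 - 5 * a.c ^ 2 → κ ≠ 0 →
    ∀ j m : Fin 5, Xt K (NN a D κ 0 0 * NN a D κ 1 j.succ * NN a D κ 2 m.succ) =
      (-500000 : K) • (ps1 a j.succ ⊗ₜ[K] ps2 a m.succ)

/-- **XJ**. The ideal is generated by the partial derivatives and the monomials of weight `≥ 27`; `tf l m (Xt (F * g)) = 0` for each generator `g` and each `F`. Partial derivatives: `S_pW`, `S_X2`, `S_X1`: e.g. `g = 2 p ev (H_s + H_v)`: `Xt (F g) = ((s + v) (H_s + H_v) ⊗ 1) * z`, `(s + v) (H_s + H_v) = (s H_s + v H_v) + (v H_s + s H_v) ∈ IH`, and `tf l m ((g ⊗ 1) * z) = 0` for `g ∈ IH`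
(`l` vanishes on the ideal). Monomials of weight `≥ 27`: if `mok`, the weight is `6 + 3 + 2 + d₁ + d₂`, with `rowm` homogeneous of weights `d₁`, `d₂` (for `wt4`), `d₁ + d₂ ≥ 16`, so `d₁ ≠ 7` or `d₂ ≠ 8`. -/
def S_XJ : Prop :=
  ∀ (K : Type) [Field K] [CharZero K] (a : Par K) (l m : S4 K →ₗ[K] K), LF a 7 l → LF a 8 m → ∀ F ∈ JL a, tf l m (Xt K F) = 0

/-- **GG**. `S_Eq`, then apply `tf l m (Xt _)` (`S_XJ`). `Xt (Dc (D i) W * ω) = (G_i ⊗ 1 + 1 ⊗ G_i) * Xt ω` (`S_DW`, `S_X1`). The `3 × 3` determinant for `i = 0 < j < m`: first row `(NN 0 0, 0, 0)`, so it is `NN 0 0 * (NN 1 j * NN 2 m - NN 1 m * NN 2 j)`, `Xt` of it is `- 500000 • FF 0 j m` for each of the 5 values of `k` (`S_X3`); for `i ≥ 1` it is `0` (`S_Nv`). So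
`- 2500000 • FF = dd (Xt ω)` under `tf l m`; `x = (- 2500000)⁻¹ • Xt ω`. (`κ_k ≠ 0` since `κ_k⁵ = 1 - 5 c² ≠ 0`.) -/
def S_GG : Prop :=
  ∀ (K : Type) [Field K] [CharZero K] (a : Par K) (D : Fin 6 → Derivation ℤ K K) (κ : Fin 5 → K) (C : Cal (PP K) (Ea a D)),
    (∀ b, C.d b = dE a D b) → IsDer a D → IsKap a κ → 1 - 5 * a.c ^ 2 ≠ 0 →
    ∑ k, C.kf 9 (prs a (κ k)) * (C.d (X (0, 0)) * C.d (X (0, 1))) = 0 →
    ∃ x : Fin 6 → Fin 6 → S4 K ⊗[K] S4 K, ∀ (l m : S4 K →ₗ[K] K), LF a 7 l → LF a 8 m → ∀ i j r : Fin 6, i < j → j < r →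
      tf l m (FF a i j r) = tf l m (dd a x i j r)

end Pool.Agent.QV
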