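import Pool.Agent.Lib.MP_b53bfe_ag.Q.DefsW
import Pool.Agent.Lib.MP_b53bfe_ag.Q.SpecE

/-!
# Disproof of Q1 of MP_b53bfe_ag for quintic threefolds, phase 3. Part V: the relation `Γ = 120 Δ` on the chart

`B = BC K = K[x, u, s, s', t, t']`, `h = hV K : P = Gr.Pol K → B`, rows to `x`, `a = s x + t u`, `b = s' a + t' u`; weights `wB`: `u ↦ 1`, `t, t' ↦ -1`, the others `0`; `h p` has weight `0`.
`φ (J, j) := Φ.f (gV J j)`, the value at the part of degree `j` of `B ⧸ J`. `θ` means `h θ = x₃³ s² s'`; `x₃`, `s`, `s'` divide it. `F_i = Fw f i`, `δ = s F₄ + t F₅`, `τ = TB = t' + s' t`. Modulo `F₀, ..., F₃`: `h f₁ = t⁴ δ`; modulo `F₀, ..., F₃, δ`: `h f₂ = τ⁴ t' F₅`.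
-/

set_option autoImplicit false

noncomputable section

namespace Pool.Agent.QV

open MvPolynomial
open Pool.Agent.FY (Res)

/-! ## Functions -/

/-- **LtV**. As `S_Lat` (module `Lat`, copy the proof), with `KS S` in place of `KW W`. -/
def S_LtV : Prop :=
  ∀ (P : Type) [CommRing P] (S : Set P) (θ : P) (V : Type) [AddCommGroup V] (χ : AFS P S V), IsNoetherianRing P →
    (∀ (M : Type) [AddCommGroup M] [Module P M], Module.Finite P M → KS S M → (∃ k : ℕ, ∀ m : M, θ ^ k • m = 0) → χ.f M = 0) →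
    ∃ Φ : AXS P S θ V, ∀ (M : Type) [AddCommGroup M] [Module P M], Module.Finite P M → KS S M → Φ.f M = χ.f M

/-- **TsV**. As `S_Tis` (module `Tis`), with `KS S` in place of `KW W`; second part: invariance under isomorphisms, third part: finite products. -/
def S_TsV : Prop :=
  ∀ (P : Type) [CommRing P] (S : Set P) (θ : P) (V : Type) [AddCommGroup V] (Φ : AXS P S θ V), IsNoetherianRing P →
    (∀ (M N : Type) [AddCommGroup M] [Module P M] [AddCommGroup N] [Module P N] (g : M →ₗ[P] N), LFn θ M → LFn θ N → KS S M →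
      KS S N → (∀ m : M, g m = 0 → ∃ k : ℕ, θ ^ k • m = 0) → (∀ n : N, ∃ (k : ℕ) (m : M), θ ^ k • n = g m) → Φ.f M = Φ.f N) ∧
    (∀ (M N : Type) [AddCommGroup M] [Module P M] [AddCommGroup N] [Module P N] (_ : M ≃ₗ[P] N), LFn θ M → KS S M → Φ.f M = Φ.f N) ∧
    ∀ (ι : Type) [Fintype ι] (M : ι → Type) [∀ i, AddCommGroup (M i)] [∀ i, Module P (M i)], (∀ i, LFn θ (M i)) → (∀ i, KS S (M i)) →
      Φ.f (∀ i, M i) = ∑ i, Φ.f (M i)

/-- **QXV**. `χ` vanishes on finite modules killed by the three forms and by a power of `θ` (`θ` is the product of the three variables `X (i, 3)`; filter `M ⊇ X (0, 3) ^ k M ⊇ X (0, 3) ^ k X (1, 3) ^ k M ⊇ 0`, `QF.tors`). `S_LtV` gives `Φ`. `PfX`: `N₀ ⊆ N` finite with `N / N₀` `θ`-torsion; the `θ`-torsion of `N₀` is finite, killed by some `θ ^ k`; `N₁ = θ ^ k N₀` is finite,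
without `θ`-torsion, `f_l` is regular on `N₁` (exactly), `N / N₁` is `θ`-torsion. `QF.perf`: `χ (N₁ / f_l N₁) = 0`. The map `N₁ / f_l N₁ → N / f_l N` has `θ`-torsion kernel (`x = f_l y`, `θ ^ m y ∈ N₁`) and cokernel: `S_TsV`. -/
def S_QXV : Prop :=
  ∀ (K : Type) [Field K] (f : MvPolynomial (Fin 5) K) (E : Type) [AddCommGroup E] (χ : AFS (Gr.Pol K) (Set.range (Gr.form f)) E),
    QF K f E χ → ∃ Φ : AXS (Gr.Pol K) (Set.range (Gr.form f)) (thV K) E, PfX f Φ ∧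
      ∀ (M : Type) [AddCommGroup M] [Module (Gr.Pol K) M], Module.Finite (Gr.Pol K) M → KS (Set.range (Gr.form f)) M → Φ.f M = χ.f M

/-- **Psi**. Put `N' = N / g N` (the only module on which `KS` is needed, with its submodules and quotients). (i) `Φ (N / g N) = Φ (N / (φ N + g N)) + Φ (N / φ⁻¹ (g N))`: the image of `φ` in `N / g N` is `≅ N / φ⁻¹ (g N)`. (ii) `φ⁻¹ (g N) ⊇ g N` (`φ` is linear), `Φ (N / g N) = Φ (N / φ⁻¹ (g N)) + Φ (φ⁻¹ (g N) / g N)`. (iii) `φ⁻¹ (g N) / g N` is `θ`-torsion: `φ n = g n'`, so `g n' ∈ φ N`, so (second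
hypothesis) `θ ^ k n' = φ n''`, `φ (θ ^ k n - g n'') = 0`, so `θ ^ l (θ ^ k n - g n'') = 0` and `θ ^ (k + l) n ∈ g N`. So `Φ (N / (φ N + g N)) = 0`. -/
def S_Psi : Prop :=
  ∀ (P : Type) [CommRing P] (S : Set P) (θ : P) (V : Type) [AddCommGroup V] (Φ : AXS P S θ V) (g : P) (N : Type) [AddCommGroup N]
    [Module P N] (φ : N →ₗ[P] N), IsNoetherianRing P → LFn θ N → KS S (Qt g N) → (∀ n : N, φ n = 0 → ∃ k : ℕ, θ ^ k • n = 0) →
    (∀ n : N, g • n ∈ LinearMap.range φ → ∃ k : ℕ, θ ^ k • n ∈ LinearMap.range φ) →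
    Φ.f (N ⧸ (LinearMap.range φ ⊔ LinearMap.range (LinearMap.lsmul P N g))) = 0

/-! ## Graded pieces -/

/-- **GpM**. Sums of elements of weight `j` have weight `j`, `h p * x` has weight `0 + j`. `Submodule.span_induction`. Second part: if `x ∈ J₁ ⊔ J₂` has weight `j`, take the components of weight `j` (`HomI`). Third part: spans of homogeneous elements are homogeneous ideals. Fourth part: `x ∈ J ⊔ (a)`, `x` of weight `j`: `x = g + a c`, with `c` of weight `j - e`, `g ∈ J` of weight `j`. -/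
def S_GpM : Prop :=
  (∀ (P σ K : Type) [CommRing P] [CommRing K] (h : P →+* MvPolynomial σ K) (w : σ → ℤ) (J : Ideal (MvPolynomial σ K)) (j : ℤ),
    (∀ p : P, IsWeightedHomogeneous w (h p) 0) → ∀ y : Res h (MvPolynomial σ K ⧸ J),
      y ∈ gp h w J j ↔ ∃ x : MvPolynomial σ K, IsWeightedHomogeneous w x j ∧ y = FY.Res.mk h (Ideal.Quotient.mk J x)) ∧
  (∀ (σ K : Type) [CommRing K] (w : σ → ℤ) (J₁ J₂ : Ideal (MvPolynomial σ K)), HomI w J₁ → HomI w J₂ → HomI w (J₁ ⊔ J₂) ∧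
    ∀ (j : ℤ) (x : MvPolynomial σ K), IsWeightedHomogeneous w x j → x ∈ J₁ ⊔ J₂ →
      ∃ y ∈ J₁, ∃ z ∈ J₂, IsWeightedHomogeneous w y j ∧ IsWeightedHomogeneous w z j ∧ x = y + z) ∧
  (∀ (σ K : Type) [CommRing K] (w : σ → ℤ) (A : Set (MvPolynomial σ K)), (∀ a ∈ A, ∃ e : ℤ, IsWeightedHomogeneous w a e) →
    HomI w (Ideal.span A)) ∧
  ∀ (σ K : Type) [CommRing K] (w : σ → ℤ) (J : Ideal (MvPolynomial σ K)) (a : MvPolynomial σ K) (e j : ℤ) (x : MvPolynomial σ K),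
    HomI w J → IsWeightedHomogeneous w a e → IsWeightedHomogeneous w x j → x ∈ J ⊔ Ideal.span {a} →
    ∃ c : MvPolynomial σ K, IsWeightedHomogeneous w c (j - e) ∧ x - a * c ∈ J

/-- **GLf**. `h θ = x₃ · a₃ · b₃` with `a₃ = s x₃`, `b₃ = s' a₃`; `s θ`, `s' θ`, `x_i`, `(t u_i) θ`, `(t' u_i) θ` are in `h P` (`s x₃ = a₃`, `s' a₃ = b₃`, `t u_i = a_i - s x_i`, `t' u_i = b_i - s' a_i`). Let `j ≥ 0`, `N` = the `P`-submodule generated by the classes of the monomials `u ^ γ`, `|γ| = j` (finitely many). The set `T` of all `y ∈ B` with `θ ^ k [y] ∈ N` for some `k` is closed under addition and under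
multiplication with `x_i`, `s`, `s'`, `t u_i`, `t' u_i`; every monomial of weight `j` is a product of such elements and a `u ^ γ`, `|γ| = j` (induction on the exponents of `t`, `t'`: if one is positive, the monomial contains a `u_i`). For `j < 0`: the same with the monomials `t ^ m t' ^ n`, `m + n = - j`. -/
def S_GLf : Prop :=
  ∀ (K : Type) [Field K] (J : Ideal (BC K)) (j : ℤ), LFn (thV K) (gV J j)

/-- **Hfv**. `hV` of the forms (`f (λ x + μ u) = ∑ λ ^ (5 - i) μ ^ i F_i` as `f` is homogeneous of degree `5`; `b = s' s x + (t' + s' t) u`), of `θ` (`u₃ = 0`), weights. `s' s τ⁴ F₄ + τ⁵ F₅ = s' τ⁴ δ + τ⁴ t' F₅` as `τ - s' t = t'`. -/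
def S_Hfv : Prop :=
  ∀ (K : Type) [Field K] (f : MvPolynomial (Fin 5) K), f.IsHomogeneous 5 →
    (∀ i, 6 ≤ i → Fw f i = 0) ∧ (∀ i : ℕ, IsWeightedHomogeneous wC (Fw f i) (i : ℤ)) ∧ (∀ i : ℕ, IsWeightedHomogeneous wB (iC (Fw f i)) (i : ℤ)) ∧
    (∀ p : Gr.Pol K, IsWeightedHomogeneous wB (hV K p) 0) ∧
    hV K (thV K) = iC (xC K 3) ^ 3 * sB K ^ 2 * sB' K ∧
    hV K (Gr.form f 0) = iC (Fw f 0) ∧
    hV K (Gr.form f 1) = ∑ i ∈ Finset.range 6, sB K ^ (5 - i) * tB K ^ i * iC (Fw f i) ∧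
    hV K (Gr.form f 2) = ∑ i ∈ Finset.range 6, (sB' K * sB K) ^ (5 - i) * TB K ^ i * iC (Fw f i) ∧
    hV K (Gr.form f 1) - tB K ^ 4 * dB f ∈ JB f (Finset.range 4) ∧
    hV K (Gr.form f 2) - TB K ^ 4 * (tB' K * iC (Fw f 5)) ∈ JB f (Finset.range 4) ⊔ Ideal.span {dB f}

/-- the ideal contains the three forms -/
def FIn {K : Type} [Field K] (f : MvPolynomial (Fin 5) K) (J : Ideal (BC K)) : Prop := ∀ i : Fin 3, hV K (Gr.form f i) ∈ J

/-- **GKS**. The forms kill `B ⧸ J` and its submodule `gV J j`. -/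
def S_GKS : Prop :=
  ∀ (K : Type) [Field K] (f : MvPolynomial (Fin 5) K) (J : Ideal (BC K)) (j : ℤ), FIn f J → KS (Set.range (Gr.form f)) (gV J j)

/-- **GMl**. `0 → gV (J + b) (j - e) → gV (J + a b) j → gV (J + a) j → 0`, the first map is multiplication by `a`; it has `θ`-torsion kernel: `a x ∈ J + (a b)`, `x` of weight `j - e`, so `a (x - b c) ∈ J` with `c` of weight `j - e - e'` (`S_GpM`), `θ ^ k (x - b c) ∈ J`. The image is the kernel of the second map (`x ∈ J + (a)` of weight `j` is `a c` modulo `J`). So `Φ (gV (J + a b) j) = Φ (gV (J + a) j) + Φ (image)`,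
and `Φ (image) = Φ (gV (J + b) (j - e))` by `S_TsV`. `S_GLf`, `S_GKS` for the three ideals (`FIn` for `J + (a b)` implies it for the other two). -/
def S_GMl : Prop :=
  ∀ (K : Type) [Field K] (f : MvPolynomial (Fin 5) K) (E : Type) [AddCommGroup E] (Φ : AXS (Gr.Pol K) (Set.range (Gr.form f)) (thV K) E)
    (J : Ideal (BC K)) (a b : BC K) (j e e' : ℤ), f.IsHomogeneous 5 → HomI wB J → IsWeightedHomogeneous wB a e → IsWeightedHomogeneous wB b e' →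
    FIn f (J ⊔ Ideal.span {a * b}) →
    (∀ x : BC K, IsWeightedHomogeneous wB x (j - e) → a * x ∈ J → ∃ k : ℕ, hV K (thV K) ^ k * x ∈ J) →
    Φ.f (gV (J ⊔ Ideal.span {a * b}) j) = Φ.f (gV (J ⊔ Ideal.span {a}) j) + Φ.f (gV (J ⊔ Ideal.span {b}) (j - e))

/-- **GCg**. Compare both with `gV (J₁ ⊔ J₂) j` (`S_TsV`): the kernel of `gV J₁ j → gV (J₁ ⊔ J₂) j`: `x = y + z` of weight `j`, `y ∈ J₁`, `z ∈ J₂` of weight `j` (`S_GpM`), `θ ^ k z ∈ J₁`. The map is surjective. -/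
def S_GCg : Prop :=
  ∀ (K : Type) [Field K] (f : MvPolynomial (Fin 5) K) (E : Type) [AddCommGroup E] (Φ : AXS (Gr.Pol K) (Set.range (Gr.form f)) (thV K) E)
    (J₁ J₂ : Ideal (BC K)) (j : ℤ), f.IsHomogeneous 5 → HomI wB J₁ → HomI wB J₂ → FIn f J₁ → FIn f J₂ →
    (∀ x : BC K, IsWeightedHomogeneous wB x j → x ∈ J₁ → ∃ k : ℕ, hV K (thV K) ^ k * x ∈ J₂) →
    (∀ x : BC K, IsWeightedHomogeneous wB x j → x ∈ J₂ → ∃ k : ℕ, hV K (thV K) ^ k * x ∈ J₁) →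
    Φ.f (gV J₁ j) = Φ.f (gV J₂ j)

/-! ## Regularity -/

/-- the regularity of the `F_i` in `K[x, u]` -/
structure RC {K : Type} [Field K] (f : MvPolynomial (Fin 5) K) : Prop where
  r1 : ∀ r : ℕ, 1 ≤ r → r ≤ 4 → RegZ (xC K 3) (Fw f r) (JC f (Finset.range r))
  r2 : RegZ (xC K 3) (Fw f 5) (JC f (Finset.range 4))
  r3 : ∀ i : Fin 4, RegZ (xC K 3 * X (Sum.inr i)) (Fw f 4) (JC f {0, 1, 2, 3, 5})

/-- **RgZ**. Calculus. (1) `a x = g + b w` with `g ∈ J`; `b w ∈ J + (a)`, so `z ^ k w = g' + a w'`, `a (z ^ k x - b w') ∈ J`, so `z ^ l (z ^ k x - b w') ∈ J`. (2) direct. (3) congruence. (4) `z` divides a power of `z'` (`z' ^ n = z * c`): `RegZ z` implies `RegZ z'`. (5) `a * c` divides `z ^ n`: `RegZ z a J` for all `J`. (6) retraction `r` (as in `S_Ret`) with `r z = z`, `r J ⊆ J`: apply `r` to `a x ∈ ker r + J`. (7) `z ^ k a ∈ J'` resp. `J ≤ J'`: two ideals equal up to `z`-torsion.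 -/
def S_RgZ : Prop :=
  ∀ (R : Type) [CommRing R] (z : R),
    (∀ (J : Ideal R) (a b : R), RegZ z a J → RegZ z b (J ⊔ Ideal.span {a}) → RegZ z a (J ⊔ Ideal.span {b})) ∧
    (∀ (J : Ideal R) (a b : R), RegZ z a J → RegZ z b J → RegZ z (a * b) J) ∧
    (∀ (J : Ideal R) (a b : R), a - b ∈ J → RegZ z a J → RegZ z b J) ∧
    (∀ (J : Ideal R) (a z' c : R) (n : ℕ), z' ^ n = z * c → RegZ z a J → RegZ z' a J) ∧
    (∀ (J : Ideal R) (a c : R) (n : ℕ), z ^ n = a * c → RegZ z a J) ∧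
    (∀ (J : Ideal R) (a : R) (r : R →+* R), (∀ x, r (r x) = r x) → r z = z → (∀ x ∈ J, r x ∈ J) → RegZ z (r a) J →
      RegZ z a (RingHom.ker r ⊔ J)) ∧
    ∀ (J J' : Ideal R) (a : R), J ≤ J' → (∀ x ∈ J', ∃ k : ℕ, z ^ k * x ∈ J) → (RegZ z a J ↔ RegZ z a J')

/-- **Low**. Induction on the number of nonzero components of `x`: let `n` be the lowest weight of a component `x_n ≠ 0`; the component of weight `n + e` of `a x ∈ J` is `a₀ x_n ∈ J`, so `z ^ k x_n ∈ J`; `x' = z ^ k (x - x_n)` has fewer components and `a x' ∈ J`; finally `z ^ l x' ∈ J` and `z ^ (l + k) x ∈ J`. -/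
def S_Low : Prop :=
  ∀ (σ K : Type) [Field K] (w : σ → ℤ) (J : Ideal (MvPolynomial σ K)) (z a₀ a₁ : MvPolynomial σ K) (e e' : ℤ), HomI w J →
    IsWeightedHomogeneous w z e' → IsWeightedHomogeneous w a₀ e → (∀ n ≤ e, weightedHomogeneousComponent w n a₁ = 0) →
    RegZ z a₀ J → RegZ z (a₀ + a₁) J

/-- **Ext**. `B = K[x, u][s, s', t, t']`: an element of `B` is in `J B` if and only if its coefficients (in `K[x, u]`, `sumAlgEquiv`) are in `J`. `a x ∈ J B`: all coefficients `x_κ` satisfy `a x_κ ∈ J`, `x₃ ^ k x_κ ∈ J` (one `k` for the finitely many), and `x₃` divides `h θ` (`S_Hfv`: the formula for `hV θ`). -/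
def S_ExtV : Prop :=
  ∀ (K : Type) [Field K] (J : Ideal (CC K)), (∀ a : CC K, RegZ (xC K 3) a J → RegZ (hV K (thV K)) (iC a) (J.map (iC (K := K)).toRingHom)) ∧
    (∀ (x : BC K), x ∈ J.map (iC (K := K)).toRingHom ↔ ∀ d : Fin 4 →₀ ℕ, coeff d (sumAlgEquiv K (Fin 4) VC (rename Sum.swap x)) ∈ J) ∧
    ∀ (f : MvPolynomial (Fin 5) K) (S : Finset ℕ), JB f S = (JC f S).map (iC (K := K)).toRingHom

/-- the ideal `(F₀, F₁, F₂, F₃, δ)` -/
def JD {K : Type} [Field K] (f : MvPolynomial (Fin 5) K) : Ideal (BC K) := JB f (Finset.range 4) ⊔ Ideal.span {dB f}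

/-- the ideal `(F₀, ..., F_{r-1}, t, t')` -/
def JT {K : Type} [Field K] (f : MvPolynomial (Fin 5) K) (r : ℕ) : Ideal (BC K) :=
  JB f (Finset.range r) ⊔ Ideal.span {tB K} ⊔ Ideal.span {tB' K}

/-- **Rg1**. (1) `JT f r = ker ρ ⊔ JB f (range r)` for the retraction `ρ : t, t' ↦ 0`, which fixes `θ` and all `iC (F_i)` (`S_RgZ` (6)); `S_ExtV`. (2) `B` is a polynomial ring in `t'` over the other variables, `JD` is generated by polynomials without `t'`, and `y = t' + g` is monic in `t'` (`S_Mon`, module `Mon`, with `v = Sum.inr 3`). -/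
def S_Rg1 : Prop :=
  ∀ (K : Type) [Field K] (f : MvPolynomial (Fin 5) K), f.IsHomogeneous 5 → RC f →
    (∀ r : ℕ, 1 ≤ r → r ≤ 4 → RegZ (hV K (thV K)) (iC (Fw f r)) (JT f r)) ∧
    ∀ y : BC K, y = TB K ∨ y = tB' K → RegZ (hV K (thV K)) y (JD f)

/-- **Rg2**. `ρ` the retraction `t' ↦ 0` (`y = t'`) resp. `t' ↦ - s' t` (`y = τ`); it fixes `θ`, `t`, `δ`, all `iC (F_i)`; `ker ρ = (y)`. By `S_RgZ` (6) it is enough to work without `y`: `JB f (range 4) ⊔ (δ)`, `JB f (range 3)`, `JB f (range 4)` (reorder the sums of ideals). `RegZ δ (JB f (range 4))`: `S_Low` with the weights `t ↦ 1`, others `0`, `a₀ = s F₄`, `a₁ = t F₅`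
(`s` divides `θ`; `RC.r1` for `r = 4`, `S_ExtV`); the same shows `RegZ δ (JB f (range 4) ⊔ (t))` (retraction `t ↦ 0`, `δ ↦ s F₄`). `RegZ t (JB f S)`: coefficients, or `S_Mon` with `v = Sum.inr 2`. First claim: `S_RgZ` (1) with `a = t`, `b = δ`, `J = JB f (range 4)`. The other claims: products of regular elements (`S_RgZ` (2)), `RC.r1` for `r = 3`. -/
def S_Rg2 : Prop :=
  ∀ (K : Type) [Field K] (f : MvPolynomial (Fin 5) K), f.IsHomogeneous 5 → RC f → ∀ y : BC K, y = TB K ∨ y = tB' K →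
    RegZ (hV K (thV K)) (tB K) (JD f ⊔ Ideal.span {y}) ∧
    RegZ (hV K (thV K)) (tB K ^ 3 * iC (Fw f 3)) (JB f (Finset.range 3) ⊔ Ideal.span {y}) ∧
    RegZ (hV K (thV K)) (tB K ^ 4 * dB f) (JB f (Finset.range 4) ⊔ Ideal.span {y})

/-- **Lgd**. Large degree. `L` is generated by finitely many homogeneous `g_l` of degrees `d_l` (components of generators); `N` with `(x₃ u_i) ^ N g_l ∈ J` for all `i`, `l`. Put `k = N`, `M ≥ d_l + 4 N` for all `l`. `y = ∑ c_l g_l` with `c_l` of weight `m - d_l ≥ 4 N` (take components): each monomial of `c_l` contains some `u_i ^ N`, so `x₃ ^ N` times it times `g_l` is in `J`. -/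
def S_Lgd : Prop :=
  ∀ (K : Type) [Field K] (J L : Ideal (CC K)), HomI wC J → HomI wC L → J ≤ L →
    (∀ (i : Fin 4), ∀ y ∈ L, ∃ k : ℕ, (xC K 3 * X (Sum.inr i)) ^ k * y ∈ J) →
    ∃ (M : ℤ) (k : ℕ), ∀ m : ℤ, M ≤ m → ∀ y ∈ L, IsWeightedHomogeneous wC y m → xC K 3 ^ k * y ∈ J

/-- **Rg4**. Let `x` have weight `j ≥ M`, `F₅ x ∈ JD`. `F₅ x = g + δ y`, `g ∈ JB f (range 4)`, `y` of weight `j + 1` (`S_GpM` (4)). Modulo `F₅`: `δ = s F₄`, so `s F₄ y ∈ J' = JB f {0, 1, 2, 3, 5}`, `F₄ (θ y) ∈ J'`. All coefficients `y_κ ∈ K[x, u]` of `θ y` satisfy `F₄ y_κ ∈ JC f {0, 1, 2, 3, 5}` (`S_ExtV`) and are homogeneous of weight `≥ j + 1` (the weight of `t`, `t'` is `-1`). `S_Lgd` for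
`L = {y | F₄ y ∈ JC f {0, 1, 2, 3, 5}}` (`RC.r3`): `x₃ ^ k y_κ ∈ JC`, so `θ ^ (k + 1) y = g' + F₅ y'` with `g' ∈ JB f (range 4)`; `F₅ (θ ^ (k + 1) x - δ y') ∈ JB f (range 4)`, `RC.r2` (with `S_ExtV`): `θ ^ l (θ ^ (k + 1) x - δ y') ∈ JB f (range 4)`. -/
def S_Rg4 : Prop :=
  ∀ (K : Type) [Field K] (f : MvPolynomial (Fin 5) K), f.IsHomogeneous 5 → RC f →
    ∃ M : ℤ, ∀ j : ℤ, M ≤ j → ∀ x : BC K, IsWeightedHomogeneous wB x j → iC (Fw f 5) * x ∈ JD f →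
      ∃ k : ℕ, hV K (thV K) ^ k * x ∈ JD f

/-! ## The chain -/

/-- the hypotheses of the chain -/
structure Ctx (K : Type) [Field K] (f : MvPolynomial (Fin 5) K) (E : Type) [AddCommGroup E]
    (Φ : AXS (Gr.Pol K) (Set.range (Gr.form f)) (thV K) E) : Prop where
  hom : f.IsHomogeneous 5
  pf : PfX f Φ
  rc : RC f

/-- **FnV**. The forms are in the ideals (`S_Hfv`), and the ideals are homogeneous (`S_GpM` (3), (2); `δ` has weight `4`, `τ`, `t`, `t'` have weight `-1`). `h f₂ = ∑ (s' s) ^ (5 - i) τ ^ i F_i`, `τ ∈ (t, t')`; in `JB f (range 6)`: sums of multiples of the `F_i`. -/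
def S_FnV : Prop :=
  ∀ (K : Type) [Field K] (f : MvPolynomial (Fin 5) K), f.IsHomogeneous 5 →
    (FIn f (JD f ⊔ Ideal.span {TB K}) ∧ FIn f (JD f ⊔ Ideal.span {tB' K}) ∧ FIn f (JD f ⊔ Ideal.span {iC (Fw f 5)}) ∧
      FIn f (JB f (Finset.range 6)) ∧ ∀ r : ℕ, 1 ≤ r → FIn f (JT f r)) ∧
    (hV K (Gr.form f 0) ∈ JD f ∧ hV K (Gr.form f 1) ∈ JD f) ∧
    (HomI wB (JD f) ∧ (∀ S : Finset ℕ, HomI wB (JB f S)) ∧ (∀ r : ℕ, HomI wB (JT f r)) ∧ ∀ S : Finset ℕ, HomI wC (JC f S)) ∧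
    IsWeightedHomogeneous wB (dB f) 4 ∧ IsWeightedHomogeneous wB (TB K) (-1) ∧ IsWeightedHomogeneous wB (tB K) (-1) ∧
    IsWeightedHomogeneous wB (tB' K) (-1)

/-- **Vv1**. `N = gV (JD f) j` for `j ≥ M`: killed by `f₀`, `f₁` (`S_FnV`), `f₂` is regular up to `θ`-torsion: `h f₂ x ∈ JD`, `h f₂ ≡ τ⁴ t' F₅` (`S_Hfv`), `τ`, `t'` regular (`S_Rg1`), so (with `θ`-powers) `F₅ θ ^ k x ∈ JD`, and `S_Rg4` (`θ` has weight `0`). `PfX` with `l = 2`: `Φ (N / f₂ N) = 0`. `N / f₂ N ≅ gV (JD f ⊔ (h f₂)) j` (`S_GpM`: `h f₂` has weight `0`), and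
`JD f ⊔ (h f₂) = JD f ⊔ (τ⁴ t' F₅)`. -/
def S_Vv1 : Prop :=
  ∀ (K : Type) [Field K] (f : MvPolynomial (Fin 5) K) (E : Type) [AddCommGroup E] (Φ : AXS (Gr.Pol K) (Set.range (Gr.form f)) (thV K) E),
    Ctx K f E Φ → ∃ M : ℤ, ∀ j : ℤ, M ≤ j →
      Φ.f (gV (JD f ⊔ Ideal.span {TB K * (TB K * (TB K * (TB K * (tB' K * iC (Fw f 5)))))}) j) = 0

/-- **Vv2**. `S_GMl` five times, `a = τ` (weight `-1`) four times, then `a = t'`; regularity: `S_Rg1`; `FIn`: `h f₂ ≡ τ⁴ t' F₅` modulo `JD f` (`S_Hfv`). -/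
def S_Vv2 : Prop :=
  ∀ (K : Type) [Field K] (f : MvPolynomial (Fin 5) K) (E : Type) [AddCommGroup E] (Φ : AXS (Gr.Pol K) (Set.range (Gr.form f)) (thV K) E),
    Ctx K f E Φ → ∀ j : ℤ, Φ.f (gV (JD f ⊔ Ideal.span {TB K * (TB K * (TB K * (TB K * (tB' K * iC (Fw f 5)))))}) j) =
      Φ.f (gV (JD f ⊔ Ideal.span {TB K}) j) + Φ.f (gV (JD f ⊔ Ideal.span {TB K}) (j + 1)) + Φ.f (gV (JD f ⊔ Ideal.span {TB K}) (j + 2)) +
      Φ.f (gV (JD f ⊔ Ideal.span {TB K}) (j + 3)) + Φ.f (gV (JD f ⊔ Ideal.span {tB' K}) (j + 4)) +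
      Φ.f (gV (JD f ⊔ Ideal.span {iC (Fw f 5)}) (j + 5))

/-- **Vv3**. `S_GMl` with `J = JD f ⊔ (y)`, `a = t` (weight `-1`), `b = 0` (`J ⊔ (t * 0) = J`): `Φ (J, m) = Φ (J ⊔ (t), m) + Φ (J, m + 1)`; regularity: `S_Rg2`. Then `S_GCg` for `J ⊔ (t)` and `JT f 5`: `y ≡ t'` modulo `t`, `δ ≡ s F₄` modulo `t`; `θ F₄ ∈ (s F₄)`. -/
def S_Vv3 : Prop :=
  ∀ (K : Type) [Field K] (f : MvPolynomial (Fin 5) K) (E : Type) [AddCommGroup E] (Φ : AXS (Gr.Pol K) (Set.range (Gr.form f)) (thV K) E),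
    Ctx K f E Φ → ∀ y : BC K, y = TB K ∨ y = tB' K → ∀ m : ℤ,
      Φ.f (gV (JD f ⊔ Ideal.span {y}) m) = Φ.f (gV (JT f 5) m) + Φ.f (gV (JD f ⊔ Ideal.span {y}) (m + 1))

/-- **Vv4**. `B ⧸ (F₀, t, t') = (K[x, s, s'] ⧸ F₀)[u]`, on which `P` acts by `x`, `a = s x`, `b = s' s x` (weight `0`, without `u`): `gV (JT f 1) n` is isomorphic to the product of `(n + 3).choose 3` (monomials `u ^ γ`, `|γ| = n`) copies of `gV (JT f 1) 0` (`S_TsV`, (3), (2)); there is nothing of negative degree (monomials of negative weight contain `t` or `t'`). -/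
def S_Vv4 : Prop :=
  ∀ (K : Type) [Field K] (f : MvPolynomial (Fin 5) K) (E : Type) [AddCommGroup E] (Φ : AXS (Gr.Pol K) (Set.range (Gr.form f)) (thV K) E),
    f.IsHomogeneous 5 → (∀ n : ℕ, Φ.f (gV (JT f 1) n) = (n + 3).choose 3 • Φ.f (gV (JT f 1) 0)) ∧
      ∀ m : ℤ, m < 0 → Φ.f (gV (JT f 1) m) = 0

/-- **Vv5**. `S_GMl` with `J = JT f r`, `a = F_r` (weight `r`), `b = 0`; `JT f r ⊔ (F_r) = JT f (r + 1)`; regularity: `S_Rg1`. -/
def S_Vv5 : Prop :=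
  ∀ (K : Type) [Field K] (f : MvPolynomial (Fin 5) K) (E : Type) [AddCommGroup E] (Φ : AXS (Gr.Pol K) (Set.range (Gr.form f)) (thV K) E),
    Ctx K f E Φ → ∀ r : ℕ, 1 ≤ r → r ≤ 4 → ∀ m : ℤ, Φ.f (gV (JT f r) m) = Φ.f (gV (JT f (r + 1)) m) + Φ.f (gV (JT f r) (m - r))

/-- **Vv6**. Only arithmetic from `S_Vv4`, `S_Vv5`: with `A_r (m) = Φ (JT f r, m)`, `v = A_1 (0)`: `A_r = 0` in negative degrees, `A_2 (m) = A_1 (m) - A_1 (m - 1)`, ...; in degrees `0, 1, 2, ...`: `A_1 = (m+3).choose 3`, `A_2 = (m+2).choose 2`, `A_3 : 1, 3, 5, 7, ...` (`2 m + 1`), `A_4 : 1, 3, 5, 6, 6, 6, ...`, `A_5 : 1, 3, 5, 6, 5, 3, 1, 0, 0, ...` (times `v`), sum `24`. -/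
def S_Vv6 : Prop :=
  ∀ (E : Type) [AddCommGroup E] (A : ℕ → ℤ → E) (v : E), (∀ n : ℕ, A 1 n = (n + 3).choose 3 • v) → (∀ m : ℤ, m < 0 → A 1 m = 0) →
    (∀ r : ℕ, 1 ≤ r → r ≤ 4 → ∀ m : ℤ, A r m = A (r + 1) m + A r (m - r)) →
    ∀ n : ℕ, 7 ≤ n → ∑ i ∈ Finset.range n, A 5 i = 24 • v

/-- **Vv7**. Let `J = JB f (range 3) ⊔ (y)`. `S_Psi` for `N = gV J 0`, `g = f₁` (`Gr.form f 1`), `φ` = multiplication by `t³ F₃` (weight `0`): `KS` for `N / g N`: `h f₀ = F₀ ∈ J`; `f₁` clear; `f₂`: for `y = τ`: `h f₂ ≡ (s' s)⁵ F₀ ∈ J`; for `y = t'`: `h f₂ ≡ s'⁵ h f₁` modulo `t'` (`b = s' a`). `φ` is injective up to `θ`-torsion (`S_Rg2`), and `N / φ N = gV (J ⊔ (t³ F₃)) 0`; elements of weight `0` of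
`J ⊔ (t³ F₃)` and of `J ⊔ (F₃) = JB f (range 4) ⊔ (y)` are the same: a `c` of weight `-3` is in `(t³) + (y)` (it is a combination of monomials with `t ^ m t' ^ n`, `m + n ≥ 3`, and `t' ≡ 0` or `- s' t` modulo `y`). `h f₁ ≡ t⁴ δ` is regular modulo it up to `θ`-torsion (`S_Rg2`). So `Φ (N / (φ N + g N)) = 0`, and `N / (φ N + g N) ≅ gV (JB f (range 4) ⊔ (y) ⊔ (t⁴ δ)) 0`, and the elements of weight `0` of
`(t⁴ δ) + (y)` and `(δ) + (y)` are the same (`c` of weight `-4`). -/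
def S_Vv7 : Prop :=
  ∀ (K : Type) [Field K] (f : MvPolynomial (Fin 5) K) (E : Type) [AddCommGroup E] (Φ : AXS (Gr.Pol K) (Set.range (Gr.form f)) (thV K) E),
    Ctx K f E Φ → ∀ y : BC K, y = TB K ∨ y = tB' K → Φ.f (gV (JD f ⊔ Ideal.span {y}) 0) = 0

/-- **Vv8**. `S_GCg`: modulo `F₅`: `δ ≡ s F₄`; `θ F₄ ∈ (s F₄)`. -/
def S_Vv8 : Prop :=
  ∀ (K : Type) [Field K] (f : MvPolynomial (Fin 5) K) (E : Type) [AddCommGroup E] (Φ : AXS (Gr.Pol K) (Set.range (Gr.form f)) (thV K) E),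
    f.IsHomogeneous 5 → ∀ m : ℤ, Φ.f (gV (JD f ⊔ Ideal.span {iC (Fw f 5)}) m) = Φ.f (gV (JB f (Finset.range 6)) m)

/-- **Vv9**. The relation. `S_Vv3`, `S_Vv7`: `Φ (JD ⊔ (y), n) = - ∑_{i < n} Φ (JT f 5, i) = - 24 v` for `n ≥ 7` (`S_Vv6`). `S_Vv1`, `S_Vv2`, `S_Vv8`: `0 = 5 (- 24 v) + Φ (JB f (range 6), j + 5)` for `j` large. -/
def S_Vv9 : Prop :=
  ∀ (K : Type) [Field K] (f : MvPolynomial (Fin 5) K) (E : Type) [AddCommGroup E] (Φ : AXS (Gr.Pol K) (Set.range (Gr.form f)) (thV K) E),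
    Ctx K f E Φ → ∃ M : ℤ, ∀ m : ℤ, M ≤ m → Φ.f (gV (JB f (Finset.range 6)) m) = 120 • Φ.f (gV (JT f 1) 0)

/-- **VvS**. The map `Pol ⧸ small → gV (JT f 1) 0` induced by `h` (`a = s x`, `b = s' s x` modulo `t`, `t'`: minors go to `0`), `S_TsV`. Cokernel: a weight `0` polynomial is modulo `(t, t')` a polynomial in `x, s, s'`, and `θ s`, `θ s'` are in `h P`. Kernel: in the ring `A = (Pol ⧸ small)` localized at `θ` (`Localization.Away`): ring homomorphism `B → A`, `x ↦` row `0`, `s ↦ a₃ / x₃`, `s' ↦ b₃ / a₃`,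
`u, t, t' ↦ 0`; it kills `F₀`, `t`, `t'`, and the composition with `h` is the class map (minors: `x₃ a_j = a₃ x_j`). So `h p ∈ JT f 1` implies `θ ^ k p ∈ small`. (As in `S_CmpS`.) -/
def S_VvS : Prop :=
  ∀ (K : Type) [Field K] (f : MvPolynomial (Fin 5) K) (E : Type) [AddCommGroup E] (Φ : AXS (Gr.Pol K) (Set.range (Gr.form f)) (thV K) E),
    f.IsHomogeneous 5 → Φ.f (gV (JT f 1) 0) = Φ.f (Gr.Pol K ⧸ Ideal.span (Gr.smallGens f))

end Pool.Agent.QV
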